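import Pool.Agent.N867.AS.Frame

/-!
# Artin–Schreier rings `B[y]/(y^p - y - f)`
-/

set_option autoImplicit false
set_option linter.dupNamespace false
set_option linter.unusedSectionVars false

namespace Pool.Agent.N867.AS

namespace ASR

open Polynomial WithZero

variable {B : Type} [CommRing B] (p : ℕ)

/-- `Y^p - Y - f` -/
noncomputable def Phi (f : B) : B[X] := X ^ p - X - C f

/-- `B[y]/(y^p - y - f)` -/
abbrev AS (f : B) : Type := AdjoinRoot (Phi p f)

/-- the element `y` -/
noncomputable def yy (f : B) : AS p f := AdjoinRoot.root (Phi p f)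

variable {p}

theorem Phi_natDegree [Nontrivial B] (hp : 1 < p) (f : B) : (Phi p f).natDegree = p := by
  unfold Phi
  rw [natDegree_sub_C]
  have h : (X ^ p - X : B[X]) = X ^ p - C 1 * X ^ 1 := by simp
  rw [natDegree_sub_eq_left_of_natDegree_lt, natDegree_X_pow]
  rw [natDegree_X, natDegree_X_pow]
  exact hp

theorem Phi_monic (hp : 1 < p) (f : B) : (Phi p f).Monic := by
  nontriviality B
  unfold Phi
  rw [sub_sub]
  refine monic_X_pow_sub (n := p) ?_
  refine (degree_add_le _ _).trans_lt (max_lt ?_ ?_)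
  · rw [degree_X]
    exact_mod_cast hp
  · refine lt_of_le_of_lt degree_C_le ?_
    exact_mod_cast (by omega : 0 < p)

theorem yy_spec (f : B) : yy p f ^ p - yy p f = AdjoinRoot.of (Phi p f) f := by
  have h := AdjoinRoot.eval₂_root (Phi p f)
  unfold Phi at h
  rw [eval₂_sub, eval₂_sub, eval₂_X_pow, eval₂_X, eval₂_C, sub_eq_zero] at h
  exact h

theorem exists_rep [Nontrivial B] (hp : 1 < p) {f : B} (x : AS p f) :
    ∃ P : B[X], P.natDegree < p ∧ AdjoinRoot.mk (Phi p f) P = x := by
  obtain ⟨Q, rfl⟩ := AdjoinRoot.mk_surjective x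
  have hm := Phi_monic hp f
  refine ⟨Q %ₘ Phi p f, ?_, ?_⟩
  · have h1 := natDegree_modByMonic_lt Q hm (by
      intro h
      have := Phi_natDegree hp f
      rw [h, natDegree_one] at this
      omega)
    rwa [Phi_natDegree hp] at h1
  · have h1 := modByMonic_add_div Q (Phi p f)
    conv_rhs => rw [← h1]
    rw [map_add, map_mul, AdjoinRoot.mk_self, zero_mul, add_zero]

theorem rep_unique [Nontrivial B] (hp : 1 < p) {f : B} {P : B[X]} (hP : P.natDegree < p)
    (h : AdjoinRoot.mk (Phi p f) P = 0) : P = 0 := by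
  rw [AdjoinRoot.mk_eq_zero] at h
  by_contra h0
  refine (Phi_monic hp f).not_dvd_of_natDegree_lt h0 ?_ h
  rwa [Phi_natDegree hp]

section val

variable {F : Type} [Field F] {Ω : Type} [Field Ω] [Algebra F Ω] (v : Valuation F ℤᵐ⁰)
  (V : ValuationSubring Ω)

/-- `V` extends `v` -/
def Ext : Prop := ∀ x : F, (V.valuation (algebraMap F Ω x) ≤ 1 ↔ v x ≤ 1) ∧
      (V.valuation (algebraMap F Ω x) < 1 ↔ v x < 1)

variable {v V}

theorem Ext.le (h : Ext v V) (x y : F) :
    V.valuation (algebraMap F Ω x) ≤ V.valuation (algebraMap F Ω y) ↔ v x ≤ v y :=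
  Val.le_iff h x y

theorem Ext.eq (h : Ext v V) (x y : F) :
    V.valuation (algebraMap F Ω x) = V.valuation (algebraMap F Ω y) ↔ v x = v y := by
  rw [le_antisymm_iff, le_antisymm_iff, h.le, h.le]

theorem exists_int (x : F) (hx : x ≠ 0) : ∃ n : ℤ, v x = exp n := by
  have h1 : v x ≠ 0 := (Valuation.ne_zero_iff v).2 hx
  exact ⟨log (v x), (exp_log h1).symm⟩

theorem exp_ne {p : ℕ} (hp : p.Prime) {N : ℤ} (hN : ¬ (p : ℤ) ∣ N) {m : ℕ} (hm : 0 < m)
    (hmp : m < p) (n n' : ℤ) : (exp n : ℤᵐ⁰) ^ p * (exp N) ^ m ≠ (exp n') ^ p := by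
  intro h
  rw [← exp_nsmul, ← exp_nsmul, ← exp_nsmul, ← exp_add, exp_inj] at h
  simp only [nsmul_eq_mul] at h
  have h1 : (p : ℤ) ∣ (m : ℤ) * N := ⟨n' - n, by linear_combination h⟩
  rcases (Nat.prime_iff_prime_int.1 hp).dvd_or_dvd h1 with h2 | h2
  · have h3 := Int.natCast_dvd_natCast.1 h2
    exact absurd (Nat.le_of_dvd hm h3) (by omega)
  · exact hN h2

/-- value of a root of `y^p - y = c` -/
theorem val_root {Γ : Type*} [LinearOrderedCommGroupWithZero Γ] (w : Valuation Ω Γ) {p : ℕ}
    (hp : 1 < p) {y c : Ω} (hy : y ^ p - y = c) (hc : 1 < w c) : 1 < w y ∧ w y ^ p = w c := by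
  have h1 : 1 < w y := by
    by_contra h
    push Not at h
    have h2 : w (y ^ p - y) ≤ 1 := by
      refine (w.map_sub _ _).trans (max_le ?_ h)
      rw [map_pow]
      exact pow_le_one₀ zero_le h
    rw [hy] at h2
    exact absurd hc (not_lt.2 h2)
  refine ⟨h1, ?_⟩
  have h2 : w y < w (y ^ p) := by
    rw [map_pow]
    calc w y = w y ^ 1 := (pow_one _).symm
      _ < w y ^ p := pow_lt_pow_right₀ h1 hp
  rw [← hy, w.map_sub_eq_of_lt_left h2, map_pow]

/-- the main estimate -/
theorem coeff_le (h : Ext v V) {p : ℕ} (hp : p.Prime) {B : Type} [CommRing B] (j : B →+* F)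
    {f : B} {N : ℤ} (hN : ¬ (p : ℤ) ∣ N) (hN0 : 0 < N) (hf : v (j f) = exp N) {y : Ω}
    (hy : y ^ p - y = algebraMap F Ω (j f)) {P : B[X]} (hP : P.natDegree < p) (m : ℕ) :
    V.valuation (algebraMap F Ω (j (P.coeff m))) * V.valuation y ^ m ≤
      V.valuation (P.eval₂ ((algebraMap F Ω).comp j) y) := by
  have hc : 1 < V.valuation (algebraMap F Ω (j f)) := by
    have h1 : ¬ v (j f) ≤ 1 := by
      rw [hf, not_le]
      rw [← exp_zero, exp_lt_exp]
      exact hN0
    rw [← (h (j f)).1] at h1
    exact not_le.1 h1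
  obtain ⟨hy1, hyp⟩ := val_root V.valuation hp.one_lt hy hc
  have hsum : P.eval₂ ((algebraMap F Ω).comp j) y =
      ∑ i ∈ Finset.range p, (algebraMap F Ω (j (P.coeff i))) * y ^ i := by
    rw [eval₂_eq_sum_range' _ hP]
    rfl
  rw [hsum]
  by_cases hm : m < p
  · have h1 := Val.le_sum V.valuation (Finset.range p)
      (fun i => (algebraMap F Ω (j (P.coeff i))) * y ^ i) ?_ m (Finset.mem_range.2 hm)
    · simp only [map_mul, map_pow] at h1
      exact h1
    · have key : ∀ i i' : ℕ, i < i' → i' < p →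
          V.valuation (algebraMap F Ω (j (P.coeff i)) * y ^ i) ≠ 0 →
          V.valuation (algebraMap F Ω (j (P.coeff i')) * y ^ i') ≠ 0 →
          V.valuation (algebraMap F Ω (j (P.coeff i)) * y ^ i) ≠
          V.valuation (algebraMap F Ω (j (P.coeff i')) * y ^ i') := by
        intro i i' hii hi' h0 h0' heq
        have hci : j (P.coeff i) ≠ 0 := by
          intro h2
          rw [h2, map_zero, zero_mul, map_zero] at h0
          exact h0 rfl
        have hci' : j (P.coeff i') ≠ 0 := by
          intro h2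
          rw [h2, map_zero, zero_mul, map_zero] at h0'
          exact h0' rfl
        obtain ⟨n, hn⟩ := exists_int (v := v) _ hci
        obtain ⟨n', hn'⟩ := exists_int (v := v) _ hci'
        have h2 := congrArg (· ^ p) heq
        simp only [map_mul, map_pow, mul_pow] at h2
        rw [← pow_mul, ← pow_mul, mul_comm i, mul_comm i', pow_mul, pow_mul, hyp] at h2
        have h2' : V.valuation (algebraMap F Ω (j (P.coeff i) ^ p * j f ^ i)) =
            V.valuation (algebraMap F Ω (j (P.coeff i') ^ p * j f ^ i')) := by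
          simpa only [map_mul, map_pow] using h2
        rw [h.eq, map_mul, map_mul, map_pow, map_pow, map_pow, map_pow, hn, hn', hf] at h2'
        have h3 : (exp n' : ℤᵐ⁰) ^ p * (exp N) ^ (i' - i) = (exp n) ^ p := by
          have h4 : (exp N : ℤᵐ⁰) ^ i' = exp N ^ (i' - i) * exp N ^ i := by
            rw [← pow_add]
            congr 1
            omega
          rw [h4, ← mul_assoc] at h2'
          exact (mul_right_cancel₀ (pow_ne_zero _ (exp_ne_zero)) h2').symm
        exact exp_ne hp hN (by omega) (by omega) n' n h3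
      intro i hi i' hi' hne h0 h0'
      rw [Finset.mem_range] at hi hi'
      rcases lt_or_gt_of_ne hne with hlt | hlt
      · exact key i i' hlt hi' h0 h0'
      · exact (key i' i hlt hi h0' h0).symm
  · rw [coeff_eq_zero_of_natDegree_lt (by omega), map_zero, map_zero, map_zero, zero_mul]
    exact zero_le

/-- embedding of the Artin–Schreier ring in `Ω` -/
theorem exists_embed (h : Ext v V) {p : ℕ} (hp : p.Prime) {B : Type} [CommRing B] [Nontrivial B]
    (j : B →+* F) (hj : Function.Injective j)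
    {f : B} {N : ℤ} (hN : ¬ (p : ℤ) ∣ N) (hN0 : 0 < N) (hf : v (j f) = exp N) {y : Ω}
    (hy : y ^ p - y = algebraMap F Ω (j f)) :
    ∃ Θ : AS p f →+* Ω, Function.Injective Θ ∧
      (∀ c, Θ (AdjoinRoot.of (Phi p f) c) = algebraMap F Ω (j c)) ∧ Θ (yy p f) = y ∧
      ∀ P : B[X], P.natDegree < p → ∀ m,
        V.valuation (algebraMap F Ω (j (P.coeff m))) * V.valuation y ^ m ≤
          V.valuation (Θ (AdjoinRoot.mk (Phi p f) P)) := by
  have hev : (Phi p f).eval₂ ((algebraMap F Ω).comp j) y = 0 := by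
    unfold Phi
    rw [eval₂_sub, eval₂_sub, eval₂_X_pow, eval₂_X, eval₂_C, hy, sub_eq_zero]
    rfl
  have hest : ∀ P : B[X], P.natDegree < p → ∀ m,
        V.valuation (algebraMap F Ω (j (P.coeff m))) * V.valuation y ^ m ≤
          V.valuation (AdjoinRoot.lift ((algebraMap F Ω).comp j) y hev
            (AdjoinRoot.mk (Phi p f) P)) := by
    intro P hP m
    rw [AdjoinRoot.lift_mk]
    exact coeff_le h hp j hN hN0 hf hy hP m
  refine ⟨AdjoinRoot.lift ((algebraMap F Ω).comp j) y hev, ?_, ?_, ?_, hest⟩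
  · rw [injective_iff_map_eq_zero]
    intro x hx
    obtain ⟨P, hP, rfl⟩ := exists_rep hp.one_lt x
    have hy0 : y ≠ 0 := by
      rintro rfl
      rw [zero_pow hp.ne_zero, sub_self] at hy
      have h1 : j f = 0 := by
        have := hy.symm
        simpa using this
      rw [h1, map_zero] at hf
      exact exp_ne_zero hf.symm
    have h1 : P = 0 := by
      ext m
      have h2 := hest P hP m
      rw [hx, map_zero, le_zero_iff, mul_eq_zero] at h2
      rcases h2 with h2 | h2
      · rw [Valuation.zero_iff, map_eq_zero] at h2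
        rw [coeff_zero]
        exact hj (by rw [h2, map_zero])
      · exact absurd h2 (pow_ne_zero _ ((Valuation.ne_zero_iff _).2 hy0))
    rw [h1, map_zero]
  · intro c
    rw [AdjoinRoot.lift_of]
    rfl
  · unfold yy
    rw [AdjoinRoot.lift_root]

end val

/-- the Artin–Schreier ring over a polynomial ring over a field is a domain -/
theorem isDomain_field {M : Type} [Field M] {p : ℕ} (hp : p.Prime) {f : M[X]}
    (hf : ¬ p ∣ f.natDegree) : IsDomain (AS p f) := by
  classical
  obtain ⟨V, hV⟩ := Val.exists_ext (F := RatFunc M) (Ω := AlgebraicClosure (RatFunc M))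
    (RatFunc.inftyValuation M)
  have hf0 : f ≠ 0 := by
    rintro rfl
    rw [natDegree_zero] at hf
    exact hf (dvd_zero p)
  have hvf : RatFunc.inftyValuation M (algebraMap M[X] (RatFunc M) f) =
      exp (f.natDegree : ℤ) := RatFunc.inftyValuation.polynomial M hf0
  have hne : (X ^ p - X - C (algebraMap (RatFunc M) (AlgebraicClosure (RatFunc M))
      (algebraMap M[X] (RatFunc M) f))).degree ≠ 0 := by
    have h1 := Phi_natDegree hp.one_lt (algebraMap (RatFunc M) (AlgebraicClosure (RatFunc M))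
      (algebraMap M[X] (RatFunc M) f))
    unfold Phi at h1
    intro h2
    rw [natDegree_eq_of_degree_eq_some h2] at h1
    exact hp.ne_zero h1.symm
  obtain ⟨y, hy⟩ := IsAlgClosed.exists_root _ hne
  have hy' : y ^ p - y = algebraMap (RatFunc M) (AlgebraicClosure (RatFunc M))
      (algebraMap M[X] (RatFunc M) f) := by
    rw [IsRoot, eval_sub, eval_sub, eval_pow, eval_X, eval_C, sub_eq_zero] at hy
    exact hy
  have hpos : 0 < f.natDegree := by
    rcases Nat.eq_zero_or_pos f.natDegree with h | h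
    · rw [h] at hf
      exact absurd (dvd_zero p) hf
    · exact h
  obtain ⟨Θ, hΘ, _⟩ := exists_embed (p := p) (v := RatFunc.inftyValuation M) (V := V) hV hp
    (algebraMap M[X] (RatFunc M)) (RatFunc.algebraMap_injective M) (N := (f.natDegree : ℤ))
    (by exact_mod_cast hf) (by exact_mod_cast hpos) hvf hy'
  exact hΘ.isDomain Θ

end ASR

end Pool.Agent.N867.AS
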