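import Pool.Agent.N867.AS.Trace

/-!
# Point counts versus traces of the Dwork matrices
-/

set_option autoImplicit false
set_option linter.unusedSectionVars false

namespace Pool.Agent.N867.AS

namespace Tr

open MvPolynomial Res

variable {σ : Type} [Fintype σ] [DecidableEq σ]

variable {p : ℕ} [hp : Fact p.Prime]

/-- `Θ(c X^μ)` -/
noncomputable def Gpoly (N : ℕ) (γ : PadicAlgCl p) (μ : σ →₀ ℕ) (c : PadicAlgCl p) :
    MvPolynomial σ (PadicAlgCl p) :=
  ∑ k ∈ Finset.range N, monomial (k • μ)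
    (PowerSeries.coeff k (AH p (1 : PadicAlgCl p)) * γ ^ k * c ^ k)

theorem eval_Gpoly (N : ℕ) (γ : PadicAlgCl p) (μ : σ →₀ ℕ) (c : PadicAlgCl p)
    (x : σ → PadicAlgCl p) :
    eval x (Gpoly N γ μ c) = (Split.Theta p N γ).eval (c * ∏ i, x i ^ μ i) := by
  rw [Gpoly, map_sum, Split.Theta, Polynomial.eval_finsetSum]
  refine Finset.sum_congr rfl fun k _ => ?_
  rw [eval_monomial, Polynomial.eval_monomial, Finsupp.prod_fintype _ _ (fun i => pow_zero _),
    mul_pow, ← Finset.prod_pow, mul_assoc]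
  congr 2
  refine Finset.prod_congr rfl fun i _ => ?_
  rw [Finsupp.smul_apply, smul_eq_mul, ← pow_mul, mul_comm]

/-- the shift -/
def rho (p s : ℕ) : Fin (p - 1) × ZMod s → Fin (p - 1) × ZMod s := fun g => (g.1, g.2 + 1)

theorem rho_iter (s : ℕ) (L : ℕ) (g : Fin (p - 1) × ZMod s) :
    (rho p s)^[L] g = (g.1, g.2 + L) := by
  induction L with
  | zero => simp
  | succ L ih =>
    rw [Function.iterate_succ_apply', ih, rho]
    simp only [Nat.cast_succ]
    rw [add_assoc]

/-- the polynomials of the Dwork operator -/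
noncomputable def Gf {f : MvPolynomial σ (k p)} {s : ℕ} (D : Lifts p f s) (N : ℕ)
    (γ : PadicAlgCl p) (g : Fin (p - 1) × ZMod s) : MvPolynomial σ (PadicAlgCl p) :=
  ∏ μ ∈ f.support, Gpoly N γ μ (D.a g.1 * D.c μ ^ p ^ (g.2.val))

theorem eval_Pi {Γ : Type} (G : Γ → MvPolynomial σ (PadicAlgCl p)) (ρ : Γ → Γ) (L : ℕ) (g : Γ)
    (x : σ → PadicAlgCl p) :
    eval x (Pi p G ρ L g) =
      ∏ j ∈ Finset.range L, eval (fun i => x i ^ p ^ j) (G (ρ^[j] g)) := by
  induction L generalizing g x with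
  | zero => simp [Pi]
  | succ L ih =>
    rw [Pi, map_mul, eval_expand, ih, Finset.prod_range_succ', mul_comm]
    congr 1
    · refine Finset.prod_congr rfl fun j _ => ?_
      rw [Function.iterate_succ_apply]
      congr 2
      funext i
      rw [Pi.pow_apply, ← pow_mul, pow_succ']
    · simp

theorem prod_shift {M : Type*} [CommMonoid M] (F : PadicAlgCl p → M) {z : PadicAlgCl p} {L : ℕ}
    (hz : z ^ p ^ L = z) (i : ℕ) :
    ∏ j ∈ Finset.range L, F (z ^ p ^ (i + j)) = ∏ j ∈ Finset.range L, F (z ^ p ^ j) := by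
  rcases Nat.eq_zero_or_pos L with rfl | hL
  · simp
  obtain ⟨L, rfl⟩ := Nat.exists_eq_succ_of_ne_zero hL.ne'
  induction i with
  | zero => simp
  | succ i ih =>
    rw [← ih, Finset.prod_range_succ, Finset.prod_range_succ' (fun j => F (z ^ p ^ (i + j))) L]
    congr 1
    · refine Finset.prod_congr rfl fun j _ => ?_
      congr 3
      ring
    · have h1 : z ^ p ^ (i + 1 + L) = z ^ p ^ (i + 0) := by
        rw [show i + 1 + L = (L + 1) + i by ring, pow_add, pow_mul, hz, add_zero]
      rw [h1]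

theorem pow_mod {c : PadicAlgCl p} {s : ℕ} (hc : c ^ p ^ s = c) {a b : ℕ}
    (hab : (a : ZMod s) = b) : c ^ p ^ a = c ^ p ^ b := by
  have h1 : ∀ r e, c ^ p ^ (e + s * r) = c ^ p ^ e := by
    intro r e
    induction r with
    | zero => simp
    | succ r ih =>
      rw [show e + s * (r + 1) = s + (e + s * r) by ring, pow_add, pow_mul, hc, ih]
  have h2 := (ZMod.natCast_eq_natCast_iff a b s).1 hab
  rcases Nat.eq_zero_or_pos s with rfl | hs
  · rw [Nat.modEq_zero_iff] at h2
    rw [h2]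
  · have h3 : ∀ e, c ^ p ^ e = c ^ p ^ (e % s) := by
      intro e
      conv_lhs => rw [← Nat.mod_add_div e s]
      exact h1 _ _
    rw [h3 a, h3 b]
    congr 2

theorem approx_aux {f : MvPolynomial σ (k p)} {s : ℕ} [NeZero s] (D : Lifts p f s) (N : ℕ)
    (γ : PadicAlgCl p) {m : ℕ} (hm : m ≠ 0) (a : Fin (p - 1)) (i : ZMod s) :
    ∑ x ∈ Fintype.piFinset (fun _ : σ => MU p (p ^ (s * m))),
        eval x (Pi p (Gf D N γ) (rho p s) (s * m) (a, i)) =
      ∑ x ∈ Fintype.piFinset (fun _ : σ => MU p (p ^ (s * m))),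
        ∏ μ ∈ f.support, ∏ j ∈ Finset.range (s * m),
          (Split.Theta p N γ).eval ((D.a a * D.c μ * ∏ i, x i ^ μ i) ^ p ^ j) := by
  classical
  have hs : s ≠ 0 := NeZero.ne s
  obtain ⟨L, hLdef⟩ : ∃ L, L = s * m := ⟨_, rfl⟩
  rw [← hLdef]
  have hL : L ≠ 0 := by rw [hLdef]; exact mul_ne_zero hs hm
  have hQ := one_lt_Q (p := p) hL
  have hcQ : ∀ μ, D.c μ ^ p ^ L = D.c μ := by
    intro μ
    have h := pow_mod (D.hc μ) (a := L) (b := 0) (by rw [hLdef]; simp)
    simpa using h
  have haQ : ∀ r, D.a a ^ p ^ r = D.a a := by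
    intro r
    induction r with
    | zero => simp
    | succ r ih => rw [pow_succ, pow_mul, ih, D.ha]
  -- substitution
  have hsub : ∀ F : (σ → PadicAlgCl p) → PadicAlgCl p,
      ∑ x ∈ Fintype.piFinset (fun _ : σ => MU p (p ^ L)), F x =
      ∑ x ∈ Fintype.piFinset (fun _ : σ => MU p (p ^ L)), F (fun l => x l ^ p ^ i.val) := by
    intro F
    symm
    refine Finset.sum_bij (fun x _ l => x l ^ p ^ i.val) ?_ ?_ ?_ ?_
    · intro x hx
      rw [Fintype.mem_piFinset] at hx ⊢
      intro l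
      have h1 := (mem_MU hQ).1 (hx l)
      rw [mem_MU hQ, ← pow_mul, mul_comm, pow_mul, h1]
    · intro x hx y hy h
      rw [Fintype.mem_piFinset] at hx hy
      funext l
      have h1 := (mem_MU hQ).1 (hx l)
      have h2 := (mem_MU hQ).1 (hy l)
      have h3 := congrFun h l
      have h4 : ∀ z : PadicAlgCl p, z ^ p ^ L = z → (z ^ p ^ i.val) ^ p ^ ((L - 1) * i.val) = z := by
        intro z hz
        rw [← pow_mul, ← pow_add]
        have h5 := pow_mod hz (a := i.val + (L - 1) * i.val) (b := 0) (by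
          have : i.val + (L - 1) * i.val = L * i.val := by
            obtain ⟨L', hL'⟩ := Nat.exists_eq_succ_of_ne_zero hL
            rw [hL', Nat.succ_eq_add_one, Nat.add_sub_cancel]
            ring
          rw [this]
          simp)
        simpa using h5
      rw [← h4 _ h1, ← h4 _ h2, h3]
    · intro x hx
      rw [Fintype.mem_piFinset] at hx
      refine ⟨fun l => x l ^ p ^ ((L - 1) * i.val), ?_, ?_⟩
      · rw [Fintype.mem_piFinset]
        intro l
        have h1 := (mem_MU hQ).1 (hx l)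
        rw [mem_MU hQ, ← pow_mul, mul_comm, pow_mul, h1]
      · funext l
        have h1 := (mem_MU hQ).1 (hx l)
        simp only
        rw [← pow_mul, ← pow_add]
        have h5 := pow_mod h1 (a := (L - 1) * i.val + i.val) (b := 0) (by
          have : (L - 1) * i.val + i.val = L * i.val := by
            obtain ⟨L', hL'⟩ := Nat.exists_eq_succ_of_ne_zero hL
            rw [hL', Nat.succ_eq_add_one, Nat.add_sub_cancel]
            ring
          rw [this]
          simp)
        simpa using h5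
    · intro x _
      rfl
  rw [hsub]
  refine Finset.sum_congr rfl fun x hx => ?_
  rw [Fintype.mem_piFinset] at hx
  rw [eval_Pi, Finset.prod_comm]
  have h1 : ∀ j ∈ Finset.range L,
      eval (fun l => (x l ^ p ^ i.val) ^ p ^ j) (Gf D N γ ((rho p s)^[j] (a, i))) =
      ∏ μ ∈ f.support,
        (Split.Theta p N γ).eval ((D.a a * D.c μ * ∏ l, x l ^ μ l) ^ p ^ (i.val + j)) := by
    intro j _
    rw [Gf, map_prod, rho_iter]
    refine Finset.prod_congr rfl fun μ _ => ?_
    rw [eval_Gpoly]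
    congr 1
    rw [mul_pow, mul_pow, haQ (i.val + j)]
    congr 1
    · congr 1
      refine pow_mod (D.hc μ) ?_
      rw [ZMod.natCast_val, ZMod.cast_id']
      push_cast
      rw [ZMod.natCast_val, ZMod.cast_id']
      rfl
    · rw [← Finset.prod_pow]
      refine Finset.prod_congr rfl fun l _ => ?_
      rw [← pow_mul, ← pow_mul, ← pow_mul]
      congr 1
      ring
  rw [Finset.prod_congr rfl h1, Finset.prod_comm, Finset.prod_comm (s := Finset.range L)]
  refine Finset.prod_congr rfl fun μ _ => ?_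
  have hz : (D.a a * D.c μ * ∏ l, x l ^ μ l) ^ p ^ L = D.a a * D.c μ * ∏ l, x l ^ μ l := by
    rw [mul_pow, mul_pow, haQ, hcQ, ← Finset.prod_pow]
    congr 1
    refine Finset.prod_congr rfl fun l _ => ?_
    rw [← pow_mul, mul_comm, pow_mul, (mem_MU hQ).1 (hx l)]
  exact prod_shift (fun z => (Split.Theta p N γ).eval z) hz i.val

/-- the approximate trace formula -/
theorem approx {f : MvPolynomial σ (k p)} {s : ℕ} [NeZero s] (D : Lifts p f s) {N : ℕ}
    {γ ζ : PadicAlgCl p} (hζ : IsPrimitiveRoot ζ p) (hγ0 : γ ≠ 0)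
    (hγ : ‖γ‖ ≤ 1) (hγζ : (Split.Theta p N γ).eval 1 = ζ) {B : ℕ}
    (hB : ∀ g, ∀ v ∈ (Gf D N γ g).support, ∀ i, v i ≤ B) {L : ℕ} (hL : L ≠ 0) :
    ‖(if s ∣ L then (s : PadicAlgCl p) *
        ((npts f (p ^ L) : PadicAlgCl p) - ((p ^ L : ℕ) : PadicAlgCl p) ^ Fintype.card σ) else 0) -
      ∑ T : Finset σ, (-1) ^ T.card * ((p ^ L : ℕ) : PadicAlgCl p) ^ (Fintype.card σ - T.card) *
        (Cmat p (Gf D N γ) (rho p s) T B ^ L).trace‖ ≤ ‖γ‖ ^ N := by
  classical
  have hs : s ≠ 0 := NeZero.ne s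
  rw [trace_formula hL (Gf D N γ) (rho p s) hB]
  by_cases hd : s ∣ L
  · obtain ⟨m, rfl⟩ := hd
    have hm : m ≠ 0 := fun h => hL (by rw [h, mul_zero])
    rw [if_pos (dvd_mul_right s m)]
    have h1 : Finset.univ.filter (fun g : Fin (p - 1) × ZMod s => (rho p s)^[s * m] g = g) =
        Finset.univ := by
      rw [Finset.filter_true_of_mem]
      intro g _
      rw [rho_iter]
      simp
    rw [h1, Fintype.sum_prod_type]
    simp only [approx_aux D N γ hm]
    rw [Finset.sum_congr rfl fun a _ => Finset.sum_const _, Finset.card_univ, ZMod.card,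
      ← Finset.smul_sum, nsmul_eq_mul, ← mul_sub, norm_mul]
    calc _ ≤ 1 * ‖γ‖ ^ N := mul_le_mul (IsUltrametricDist.norm_natCast_le_one _ _)
          (count_close D hs hm hζ hγ0 hγ hγζ) (norm_nonneg _) zero_le_one
      _ = _ := one_mul _
  · rw [if_neg hd]
    have h1 : Finset.univ.filter (fun g : Fin (p - 1) × ZMod s => (rho p s)^[L] g = g) =
        ∅ := by
      rw [Finset.filter_eq_empty_iff]
      intro g _ h
      rw [rho_iter] at h
      have h2 := congrArg Prod.snd h
      simp only at h2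
      have h3 : (L : ZMod s) = 0 := by
        have := add_eq_left.1 h2
        exact this
      exact hd ((ZMod.natCast_eq_zero_iff L s).1 h3)
    rw [h1, Finset.sum_empty, sub_zero, norm_zero]
    positivity

end Tr

end Pool.Agent.N867.AS
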