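import Pool.Agent.N867.AS.Eig

/-!
# Newton polygons of `det (1 - X A)` from bounds on principal minors
-/

set_option autoImplicit false
set_option linter.unusedSectionVars false

namespace Pool.Agent.N867.AS

namespace Minor

open Matrix

variable {ι : Type} [Fintype ι] [DecidableEq ι]

theorem coeff_charpolyRev {K : Type*} [CommRing K] (A : Matrix ι ι K) (n : ℕ) :
    A.charpolyRev.coeff n = (-1) ^ n * ∑ s ∈ Finset.univ.powersetCard n,
      (A.submatrix (Subtype.val : s → ι) (Subtype.val : s → ι)).det := by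
  have hcharpolyRev : A.charpolyRev = det (1 + (Polynomial.X : Polynomial K) •
      (-A).map Polynomial.C) := by
    simp only [Matrix.charpolyRev, sub_eq_add_neg]
    congr 2
    rw [Matrix.map_neg Polynomial.C (map_neg Polynomial.C) A, smul_neg]
  rw [hcharpolyRev, coeff_det_one_add_X_smul_eq_sum_minors]
  simp only [submatrix_neg, Pi.neg_apply, det_neg, Fintype.card_coe, Finset.mul_sum]
  exact Finset.sum_congr rfl fun s hs => by rw [(Finset.mem_powersetCard.mp hs).2]

section real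

variable (β : ι → ℝ)

/-- the maximal product -/
noncomputable def R : ℝ := ∏ x ∈ Finset.univ.filter (fun x => 1 < β x), β x

theorem R_pos : 0 < R β := by
  unfold R
  refine Finset.prod_pos fun x hx => ?_
  exact lt_trans one_pos (Finset.mem_filter.1 hx).2

theorem prod_le (hβ : ∀ x, 0 < β x) (S : Finset ι) : ∏ x ∈ S, β x ≤ R β := by
  have h1 : R β = ∏ x, (if 1 < β x then β x else 1) := by
    unfold R
    rw [Finset.prod_filter]
  have h2 : ∏ x ∈ S, β x = ∏ x, (if x ∈ S then β x else 1) := by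
    rw [Finset.prod_ite_mem, Finset.univ_inter]
  rw [h1, h2]
  refine Finset.prod_le_prod (fun x _ => ?_) fun x _ => ?_
  · split_ifs
    · exact (hβ x).le
    · exact zero_le_one
  · split_ifs with h3 h4 h4
    · exact le_rfl
    · exact not_lt.1 h4
    · exact h4.le
    · exact le_rfl

theorem prod_lt (hβ : ∀ x, 0 < β x) (S : Finset ι)
    (hS : ¬ ((∀ x, 1 < β x → x ∈ S) ∧ (∀ x ∈ S, 1 ≤ β x))) : ∏ x ∈ S, β x < R β := by
  have h1 : R β = ∏ x, (if 1 < β x then β x else 1) := by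
    unfold R
    rw [Finset.prod_filter]
  have h2 : ∏ x ∈ S, β x = ∏ x, (if x ∈ S then β x else 1) := by
    rw [Finset.prod_ite_mem, Finset.univ_inter]
  rw [h1, h2]
  refine Finset.prod_lt_prod (fun x _ => ?_) (fun x _ => ?_) ?_
  · split_ifs
    · exact hβ x
    · exact one_pos
  · split_ifs with h3 h4 h4
    · exact le_rfl
    · exact not_lt.1 h4
    · exact h4.le
    · exact le_rfl
  · rw [not_and_or] at hS
    rcases hS with h | h
    · push Not at h
      obtain ⟨x, hx, hxS⟩ := h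
      exact ⟨x, Finset.mem_univ x, by rw [if_neg hxS, if_pos hx]; exact hx⟩
    · push Not at h
      obtain ⟨x, hxS, hx⟩ := h
      exact ⟨x, Finset.mem_univ x, by rw [if_pos hxS, if_neg (not_lt.2 hx.le)]; exact hx⟩

end real

variable {𝕜 : Type*} [NormedField 𝕜] [IsUltrametricDist 𝕜]

theorem norm_sum_lt {α : Type*} {s : Finset α} {f : α → 𝕜} {C : ℝ} (hC : 0 < C)
    (h : ∀ i ∈ s, ‖f i‖ < C) : ‖∑ i ∈ s, f i‖ < C := by
  classical
  induction s using Finset.induction_on with
  | empty => simpa using hC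
  | insert a s ha ih =>
    rw [Finset.sum_insert ha]
    exact lt_of_le_of_lt (IsUltrametricDist.norm_add_le_max _ _)
      (max_lt (h a (Finset.mem_insert_self a s))
        (ih fun i hi => h i (Finset.mem_insert_of_mem hi)))

/-- the Newton polygon data -/
structure NP (F : ℕ → 𝕜) (a b : ℕ) (R : ℝ) : Prop where
  pos : 0 < R
  le : ∀ n, ‖F n‖ ≤ R
  eqa : ‖F a‖ = R
  eqb : ‖F b‖ = R
  lta : ∀ n, n < a → ‖F n‖ < R
  ltb : ∀ n, b < n → ‖F n‖ < R

theorem np_of_minors (A : Matrix ι ι 𝕜) (β : ι → ℝ) (hβ : ∀ x, 0 < β x)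
    (h1 : ∀ S : Finset ι, ‖(A.submatrix (Subtype.val : S → ι) (Subtype.val : S → ι)).det‖ ≤
      ∏ x ∈ S, β x)
    (h2 : ∀ S : Finset ι, (S = Finset.univ.filter (fun x => 1 < β x) ∨
      S = Finset.univ.filter (fun x => 1 ≤ β x)) →
      ‖(A.submatrix (Subtype.val : S → ι) (Subtype.val : S → ι)).det‖ = ∏ x ∈ S, β x) :
    NP (fun n => A.charpolyRev.coeff n) (Finset.univ.filter (fun x => 1 < β x)).card
      (Finset.univ.filter (fun x => 1 ≤ β x)).card (R β) := by
  have hn : ∀ n, ‖A.charpolyRev.coeff n‖ = ‖∑ s ∈ Finset.univ.powersetCard n,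
      (A.submatrix (Subtype.val : s → ι) (Subtype.val : s → ι)).det‖ := by
    intro n
    rw [coeff_charpolyRev, norm_mul, norm_pow, norm_neg, norm_one, one_pow, one_mul]
  have hge : ∏ x ∈ Finset.univ.filter (fun x => 1 ≤ β x), β x = R β := by
    unfold R
    rw [Finset.prod_filter, Finset.prod_filter]
    refine Finset.prod_congr rfl fun x _ => ?_
    split_ifs with h3 h4 h4
    · rfl
    · exact le_antisymm (not_lt.1 h4) h3
    · exact absurd h4.le h3
    · rfl
  -- the key: a single dominating subset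
  have hkey : ∀ (S₀ : Finset ι), ‖(A.submatrix (Subtype.val : S₀ → ι)
      (Subtype.val : S₀ → ι)).det‖ = R β →
      (∀ S : Finset ι, S.card = S₀.card → S ≠ S₀ → ∏ x ∈ S, β x < R β) →
      ‖A.charpolyRev.coeff S₀.card‖ = R β := by
    intro S₀ hS₀ hlt
    rw [hn]
    have hmem : S₀ ∈ Finset.univ.powersetCard S₀.card := by
      rw [Finset.mem_powersetCard]
      exact ⟨Finset.subset_univ _, rfl⟩
    rw [← Finset.add_sum_erase _ _ hmem]
    have h3 : ‖∑ s ∈ (Finset.univ.powersetCard S₀.card).erase S₀,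
        (A.submatrix (Subtype.val : s → ι) (Subtype.val : s → ι)).det‖ < R β := by
      refine norm_sum_lt (R_pos β) fun S hS => ?_
      rw [Finset.mem_erase, Finset.mem_powersetCard] at hS
      exact lt_of_le_of_lt (h1 S) (hlt S hS.2.2 hS.1)
    rw [← hS₀] at h3
    rw [IsUltrametricDist.norm_add_eq_max_of_norm_ne_norm h3.ne', max_eq_left h3.le, hS₀]
  refine ⟨R_pos β, fun n => ?_, ?_, ?_, fun n hna => ?_, fun n hnb => ?_⟩
  · change ‖A.charpolyRev.coeff n‖ ≤ R β
    rw [hn]
    exact IsUltrametricDist.norm_sum_le_of_forall_le_of_nonneg (R_pos β).le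
      fun S _ => (h1 S).trans (prod_le β hβ S)
  · refine hkey _ (h2 _ (Or.inl rfl)) fun S hS hne => prod_lt β hβ S ?_
    rintro ⟨h3, h4⟩
    apply hne
    symm
    refine Finset.eq_of_subset_of_card_le (fun x hx => h3 x (Finset.mem_filter.1 hx).2) hS.le
  · refine hkey _ ((h2 _ (Or.inr rfl)).trans hge) fun S hS hne => prod_lt β hβ S ?_
    rintro ⟨h3, h4⟩
    apply hne
    refine Finset.eq_of_subset_of_card_le (fun x hx => ?_) hS.ge
    rw [Finset.mem_filter]
    exact ⟨Finset.mem_univ x, h4 x hx⟩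
  · change ‖A.charpolyRev.coeff n‖ < R β
    rw [hn]
    refine norm_sum_lt (R_pos β) fun S hS => lt_of_le_of_lt (h1 S) (prod_lt β hβ S ?_)
    rintro ⟨h3, h4⟩
    rw [Finset.mem_powersetCard] at hS
    have h5 : (Finset.univ.filter (fun x => 1 < β x)).card ≤ S.card :=
      Finset.card_le_card (fun x hx => h3 x (Finset.mem_filter.1 hx).2)
    omega
  · change ‖A.charpolyRev.coeff n‖ < R β
    rw [hn]
    refine norm_sum_lt (R_pos β) fun S hS => lt_of_le_of_lt (h1 S) (prod_lt β hβ S ?_)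
    rintro ⟨h3, h4⟩
    rw [Finset.mem_powersetCard] at hS
    have h5 : S.card ≤ (Finset.univ.filter (fun x => 1 ≤ β x)).card :=
      Finset.card_le_card (fun x hx => Finset.mem_filter.2 ⟨Finset.mem_univ x, h4 x hx⟩)
    omega

/-- coefficients of a small determinant -/
theorem small_of_minors (A : Matrix ι ι 𝕜) (β : ι → ℝ) (hβ : ∀ x, 0 < β x)
    (hβ1 : ∀ x, β x < 1)
    (h1 : ∀ S : Finset ι, ‖(A.submatrix (Subtype.val : S → ι) (Subtype.val : S → ι)).det‖ ≤
      ∏ x ∈ S, β x) (n : ℕ) (hn : n ≠ 0) : ‖A.charpolyRev.coeff n‖ < 1 := by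
  rw [coeff_charpolyRev, norm_mul, norm_pow, norm_neg, norm_one, one_pow, one_mul]
  refine norm_sum_lt one_pos fun S hS => lt_of_le_of_lt (h1 S) ?_
  rw [Finset.mem_powersetCard] at hS
  have hne : S.Nonempty := by
    rw [← Finset.card_pos]
    omega
  calc ∏ x ∈ S, β x < ∏ x ∈ S, (1 : ℝ) :=
        Finset.prod_lt_prod_of_nonempty (fun x _ => hβ x) (fun x _ => hβ1 x) hne
    _ = 1 := by simp

/-- bounds for minors from a twisted bound of the entries -/
theorem minor_le (A : Matrix ι ι 𝕜) (α β : ι → ℝ) (hα : ∀ x, 0 < α x)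
    (hA : ∀ x y, α x * ‖A x y‖ ≤ α y * β y) (hβ : ∀ x, 0 < β x) (S : Finset ι) :
    ‖(A.submatrix (Subtype.val : S → ι) (Subtype.val : S → ι)).det‖ ≤ ∏ x ∈ S, β x := by
  rw [Matrix.det_apply]
  have hpos : 0 < ∏ x ∈ S, β x := Finset.prod_pos fun x _ => hβ x
  refine IsUltrametricDist.norm_sum_le_of_forall_le_of_nonneg hpos.le fun τ _ => ?_
  rw [Units.smul_def, zsmul_eq_mul, norm_mul]
  have hs : ‖((Equiv.Perm.sign τ : ℤ) : 𝕜)‖ = 1 := by
    rcases Int.units_eq_one_or (Equiv.Perm.sign τ) with h | h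
    · rw [h]; simp
    · rw [h]; simp
  rw [hs, one_mul, norm_prod]
  have hαpos : 0 < ∏ x : S, α x := Finset.prod_pos fun x _ => hα x
  have h1 : ∏ x : S, (α (τ x) * ‖A.submatrix (Subtype.val : S → ι) (Subtype.val : S → ι) (τ x) x‖) ≤
      ∏ x : S, (α x * β x) :=
    Finset.prod_le_prod (fun x _ => mul_nonneg (hα _).le (norm_nonneg _)) fun x _ => hA _ _
  rw [Finset.prod_mul_distrib, Finset.prod_mul_distrib,
    Equiv.prod_comp τ (fun x : S => α x)] at h1
  have h2 := le_of_mul_le_mul_left h1 hαpos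
  rw [Finset.prod_coe_sort S β] at h2
  exact h2

/-- exact value of a minor when one permutation dominates -/
theorem minor_eq (A : Matrix ι ι 𝕜) (α β : ι → ℝ) (hα : ∀ x, 0 < α x)
    (hA : ∀ x y, α x * ‖A x y‖ ≤ α y * β y) (hβ : ∀ x, 0 < β x) (S : Finset ι)
    (π : ι → ι) (hπinj : Function.Injective π) (hπS : ∀ x ∈ S, π x ∈ S)
    (heq : ∀ x ∈ S, α x * ‖A x (π x)‖ = α (π x) * β (π x))
    (hlt : ∀ x ∈ S, ∀ y ∈ S, y ≠ π x → α x * ‖A x y‖ < α y * β y) :
    ‖(A.submatrix (Subtype.val : S → ι) (Subtype.val : S → ι)).det‖ = ∏ x ∈ S, β x := by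
  rw [← Matrix.det_transpose, Matrix.det_apply]
  have hpos : 0 < ∏ x ∈ S, β x := Finset.prod_pos fun x _ => hβ x
  have hαpos : 0 < ∏ x : S, α x := Finset.prod_pos fun x _ => hα x
  -- the dominating permutation
  obtain ⟨π', hπ'⟩ : ∃ π' : Equiv.Perm S, ∀ x, ((π' x : S) : ι) = π x := by
    have hinj : Function.Injective (fun x : S => (⟨π x, hπS x x.2⟩ : S)) := by
      intro x y h
      have := congrArg Subtype.val h
      simp only at this
      exact Subtype.ext (hπinj this)
    exact ⟨Equiv.ofBijective _ (Finite.injective_iff_bijective.1 hinj), fun x => rfl⟩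
  have hterm : ∀ τ : Equiv.Perm S, ‖Equiv.Perm.sign τ • ∏ i : S,
      (A.submatrix (Subtype.val : S → ι) (Subtype.val : S → ι))ᵀ (τ i) i‖ =
      ∏ i : S, ‖A i (τ i)‖ := by
    intro τ
    rw [Units.smul_def, zsmul_eq_mul, norm_mul]
    have hs : ‖((Equiv.Perm.sign τ : ℤ) : 𝕜)‖ = 1 := by
      rcases Int.units_eq_one_or (Equiv.Perm.sign τ) with h | h
      · rw [h]; simp
      · rw [h]; simp
    rw [hs, one_mul, norm_prod]
    rfl
  rw [← Finset.add_sum_erase _ _ (Finset.mem_univ π')]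
  have h0 : ‖Equiv.Perm.sign π' • ∏ i : S,
      (A.submatrix (Subtype.val : S → ι) (Subtype.val : S → ι))ᵀ (π' i) i‖ = ∏ x ∈ S, β x := by
    rw [hterm]
    have h1 : ∏ x : S, (α x * ‖A x (π' x)‖) = ∏ x : S, (α (π' x) * β (π' x)) := by
      refine Finset.prod_congr rfl fun x _ => ?_
      rw [hπ' x]
      exact heq x x.2
    rw [Finset.prod_mul_distrib, Equiv.prod_comp π' (fun x : S => α x * β x),
      Finset.prod_mul_distrib] at h1
    have h2 := mul_left_cancel₀ hαpos.ne' h1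
    rw [h2, Finset.prod_coe_sort S β]
  have h1 : ‖∑ τ ∈ (Finset.univ : Finset (Equiv.Perm S)).erase π', Equiv.Perm.sign τ • ∏ i : S,
      (A.submatrix (Subtype.val : S → ι) (Subtype.val : S → ι))ᵀ (τ i) i‖ < ∏ x ∈ S, β x := by
    refine norm_sum_lt hpos fun τ hτ => ?_
    rw [hterm]
    have hne : ∃ x : S, τ x ≠ π' x := by
      by_contra h
      push Not at h
      exact (Finset.mem_erase.1 hτ).1 (Equiv.ext h)
    obtain ⟨x₀, hx₀⟩ := hne
    have h2 : ∏ x : S, (α x * ‖A x (τ x)‖) < ∏ x : S, (α (τ x) * β (τ x)) := by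
      by_cases hz : ∃ x : S, ‖A x (τ x)‖ = 0
      · obtain ⟨x, hx⟩ := hz
        rw [Finset.prod_eq_zero (Finset.mem_univ x) (by rw [hx, mul_zero])]
        exact Finset.prod_pos fun x _ => mul_pos (hα _) (hβ _)
      · push Not at hz
        refine Finset.prod_lt_prod
          (fun x _ => mul_pos (hα _) (lt_of_le_of_ne (norm_nonneg _) (hz x).symm))
          (fun x _ => hA _ _) ⟨x₀, Finset.mem_univ _, ?_⟩
        refine hlt x₀ x₀.2 (τ x₀) (τ x₀).2 ?_
        intro h
        apply hx₀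
        refine Subtype.ext ?_
        rw [h, hπ']
    rw [Finset.prod_mul_distrib, Equiv.prod_comp τ (fun x : S => α x * β x),
      Finset.prod_mul_distrib] at h2
    have h3 := lt_of_mul_lt_mul_left h2 hαpos.le
    rw [Finset.prod_coe_sort S β] at h3
    exact h3
  rw [← h0] at h1 ⊢
  rw [IsUltrametricDist.norm_add_eq_max_of_norm_ne_norm h1.ne', max_eq_left h1.le]

end Minor

end Pool.Agent.N867.AS
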