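import Pool.Agent.N867.AS.Approx
import Pool.Agent.N867.AS.Minor

/-!
# Bounds for the coefficients of the Dwork operator
-/

set_option autoImplicit false
set_option linter.unusedSectionVars false

namespace Pool.Agent.N867.AS

namespace Bd

open MvPolynomial Res Tr

variable {σ : Type} [Fintype σ] [DecidableEq σ]

variable {p : ℕ} [hp : Fact p.Prime]

/-- the weight -/
def wt (ω : σ → ℕ) (v : σ →₀ ℕ) : ℕ := ∑ i, ω i * v i

theorem wt_add (ω : σ → ℕ) (v w : σ →₀ ℕ) : wt ω (v + w) = wt ω v + wt ω w := by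
  unfold wt
  rw [← Finset.sum_add_distrib]
  refine Finset.sum_congr rfl fun i _ => ?_
  rw [Finsupp.add_apply, mul_add]

theorem wt_smul (ω : σ → ℕ) (k : ℕ) (v : σ →₀ ℕ) : wt ω (k • v) = k * wt ω v := by
  unfold wt
  rw [Finset.mul_sum]
  refine Finset.sum_congr rfl fun i _ => ?_
  rw [Finsupp.smul_apply, smul_eq_mul]
  ring

theorem wt_zero (ω : σ → ℕ) : wt ω 0 = 0 := by
  unfold wt
  simp

/-- `‖coeff v A‖ ≤ r^(wt v + e)` -/
def P (ω : σ → ℕ) (r : ℝ) (e : ℕ) (A : MvPolynomial σ (PadicAlgCl p)) : Prop :=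
  ∀ v, ‖coeff v A‖ ≤ r ^ (wt ω v + e)

variable {ω : σ → ℕ} {r : ℝ}

theorem P.mul (hr : 0 < r) {e e' : ℕ} {A A' : MvPolynomial σ (PadicAlgCl p)} (h : P ω r e A)
    (h' : P ω r e' A') : P ω r (e + e') (A * A') := by
  intro v
  rw [coeff_mul]
  refine IsUltrametricDist.norm_sum_le_of_forall_le_of_nonneg (by positivity) fun x hx => ?_
  rw [Finset.HasAntidiagonal.mem_antidiagonal] at hx
  rw [norm_mul, ← hx, wt_add]
  calc _ ≤ r ^ (wt ω x.1 + e) * r ^ (wt ω x.2 + e') :=
        mul_le_mul (h _) (h' _) (norm_nonneg _) (by positivity)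
    _ = _ := by rw [← pow_add]; congr 1; ring

theorem P.mono (hr : 0 < r) (hr1 : r ≤ 1) {e e' : ℕ} (hee : e' ≤ e)
    {A : MvPolynomial σ (PadicAlgCl p)} (h : P ω r e A) : P ω r e' A := by
  intro v
  exact (h v).trans (pow_le_pow_of_le_one hr.le hr1 (by omega))

theorem P.add {e : ℕ} (hr : 0 < r) {A A' : MvPolynomial σ (PadicAlgCl p)} (h : P ω r e A)
    (h' : P ω r e A') : P ω r e (A + A') := by
  intro v
  rw [coeff_add]
  exact (IsUltrametricDist.norm_add_le_max _ _).trans (max_le (h v) (h' v))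

theorem P.one (hr : 0 < r) : P ω r 0 (1 : MvPolynomial σ (PadicAlgCl p)) := by
  intro v
  rw [coeff_one]
  split_ifs with h
  · rw [← h, wt_zero, norm_one]
    simp
  · rw [norm_zero]
    positivity

theorem P.prod_zero (hr : 0 < r) {ι : Type*} (S : Finset ι)
    {A : ι → MvPolynomial σ (PadicAlgCl p)} (h : ∀ i ∈ S, P ω r 0 (A i)) :
    P ω r 0 (∏ i ∈ S, A i) := by
  classical
  induction S using Finset.induction_on with
  | empty => simpa using P.one hr
  | insert a S ha ih =>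
    rw [Finset.prod_insert ha]
    exact (h a (Finset.mem_insert_self a S)).mul hr
      (ih fun i hi => h i (Finset.mem_insert_of_mem hi))

theorem near_prod (hr : 0 < r) (hr1 : r ≤ 1) {ι : Type*} (S : Finset ι)
    {A : ι → MvPolynomial σ (PadicAlgCl p)} (h : ∀ i ∈ S, P ω r 1 (A i - 1)) :
    P ω r 1 (∏ i ∈ S, A i - 1) := by
  classical
  induction S using Finset.induction_on with
  | empty =>
    intro v
    simp only [Finset.prod_empty, sub_self, coeff_zero, norm_zero]
    positivity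
  | insert a S ha ih =>
    rw [Finset.prod_insert ha]
    have h1 := h a (Finset.mem_insert_self a S)
    have h2 := ih fun i hi => h i (Finset.mem_insert_of_mem hi)
    have h3 : A a * ∏ i ∈ S, A i - 1 =
        (A a - 1) * (∏ i ∈ S, A i - 1) + ((A a - 1) + (∏ i ∈ S, A i - 1)) := by ring
    rw [h3]
    exact ((h1.mul hr h2).mono hr hr1 (by omega)).add hr (h1.add hr h2)

/-- coefficient of `Gpoly` -/
theorem Gpoly_P {M : ℕ} (hr : 0 < r) (hr1 : r ≤ 1) {N : ℕ} {γ : PadicAlgCl p} (hγ : ‖γ‖ = r ^ M)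
    {μ : σ →₀ ℕ} (hμ : wt ω μ ≤ M) {c : PadicAlgCl p} (hc : ‖c‖ ≤ 1) :
    P ω r 0 (Gpoly N γ μ c) := by
  intro v
  rw [Gpoly, coeff_sum]
  refine IsUltrametricDist.norm_sum_le_of_forall_le_of_nonneg (by positivity) fun k _ => ?_
  rw [coeff_monomial]
  split_ifs with h
  · rw [norm_mul, norm_mul, norm_pow, norm_pow, hγ, ← h, wt_smul, add_zero]
    calc _ ≤ 1 * (r ^ M) ^ k * 1 := by
          refine mul_le_mul (mul_le_mul_of_nonneg_right (hE k) (by positivity))
            (pow_le_one₀ (norm_nonneg _) hc) (by positivity) (by positivity)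
      _ = r ^ (M * k) := by rw [one_mul, mul_one, pow_mul]
      _ ≤ r ^ (k * wt ω μ) := by
          refine pow_le_pow_of_le_one hr.le hr1 ?_
          rw [mul_comm M]
          exact Nat.mul_le_mul_left k hμ
  · rw [norm_zero]
    positivity

theorem Gpoly_near {M : ℕ} (hr : 0 < r) (hr1 : r ≤ 1) {N : ℕ} (hN : 0 < N) {γ : PadicAlgCl p}
    (hγ : ‖γ‖ = r ^ M)
    {μ : σ →₀ ℕ} (hμ : wt ω μ < M) {c : PadicAlgCl p} (hc : ‖c‖ ≤ 1) :
    P ω r 1 (Gpoly N γ μ c - 1) := by
  intro v
  obtain ⟨N, rfl⟩ := Nat.exists_eq_succ_of_ne_zero hN.ne'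
  rw [Gpoly, Finset.sum_range_succ']
  have h0 : monomial (0 • μ) (PowerSeries.coeff 0 (AH p (1 : PadicAlgCl p)) * γ ^ 0 * c ^ 0) =
      (1 : MvPolynomial σ (PadicAlgCl p)) := by
    rw [zero_smul, coeff_AH_zero, pow_zero, pow_zero, one_mul, one_mul]
    rfl
  rw [h0, add_sub_cancel_right, coeff_sum]
  refine IsUltrametricDist.norm_sum_le_of_forall_le_of_nonneg (by positivity) fun k _ => ?_
  rw [coeff_monomial]
  split_ifs with h
  · rw [norm_mul, norm_mul, norm_pow, norm_pow, hγ, ← h, wt_smul]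
    calc _ ≤ 1 * (r ^ M) ^ (k + 1) * 1 := by
          refine mul_le_mul (mul_le_mul_of_nonneg_right (hE _) (by positivity))
            (pow_le_one₀ (norm_nonneg _) hc) (by positivity) (by positivity)
      _ = r ^ (M * (k + 1)) := by rw [one_mul, mul_one, pow_mul]
      _ ≤ r ^ ((k + 1) * wt ω μ + 1) := by
          refine pow_le_pow_of_le_one hr.le hr1 ?_
          have h1 : (k + 1) * (wt ω μ + 1) ≤ (k + 1) * M := Nat.mul_le_mul_left _ hμ
          rw [mul_comm M]
          nlinarith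
  · rw [norm_zero]
    positivity

/-- coefficients of a product of polynomials in separate variables -/
theorem coeff_lead (a : σ → ℕ) (ha : ∀ i, a i ≠ 0) (N : ℕ) (b : σ → ℕ → PadicAlgCl p)
    (v : σ →₀ ℕ) :
    coeff v (∏ i, ∑ k ∈ Finset.range N, monomial (k • Finsupp.single i (a i)) (b i k)) =
      if ∀ i, a i ∣ v i ∧ v i / a i < N then ∏ i, b i (v i / a i) else 0 := by
  classical
  rw [Finset.prod_univ_sum, coeff_sum]
  have h1 : ∀ κ : σ → ℕ, ∏ i, monomial (κ i • Finsupp.single i (a i)) (b i (κ i)) =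
      monomial (Finsupp.equivFunOnFinite.symm fun i => κ i * a i) (∏ i, b i (κ i)) := by
    intro κ
    have h2 : ∀ S : Finset σ, ∏ i ∈ S, monomial (κ i • Finsupp.single i (a i)) (b i (κ i)) =
        monomial (∑ i ∈ S, κ i • Finsupp.single i (a i)) (∏ i ∈ S, b i (κ i)) := by
      intro S
      induction S using Finset.induction_on with
      | empty => simp
      | insert c S hc ih =>
        rw [Finset.prod_insert hc, ih, Finset.sum_insert hc, Finset.prod_insert hc,
          monomial_mul]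
    have hexp : (∑ i, κ i • Finsupp.single i (a i) : σ →₀ ℕ) =
        Finsupp.equivFunOnFinite.symm fun i => κ i * a i := by
      ext j
      rw [Finsupp.finsetSum_apply]
      simp only [Finsupp.smul_single, smul_eq_mul, Finsupp.equivFunOnFinite_symm_apply_apply]
      rw [Finset.sum_eq_single j]
      · simp
      · intro i _ hij
        rw [Finsupp.single_apply, if_neg hij]
      · intro h
        exact absurd (Finset.mem_univ j) h
    rw [h2, hexp]
  simp only [h1, coeff_monomial]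
  by_cases hv : ∀ i, a i ∣ v i ∧ v i / a i < N
  · rw [if_pos hv, Finset.sum_eq_single (fun i => v i / a i)]
    · rw [if_pos]
      ext i
      simp only [Finsupp.equivFunOnFinite_symm_apply_apply]
      exact Nat.div_mul_cancel (hv i).1
    · intro κ _ hκ
      rw [if_neg]
      intro h
      apply hκ
      funext i
      rw [← h]
      simp only [Finsupp.equivFunOnFinite_symm_apply_apply]
      exact (Nat.mul_div_cancel _ (Nat.pos_of_ne_zero (ha i))).symm
    · intro h
      exfalso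
      apply h
      rw [Fintype.mem_piFinset]
      exact fun i => Finset.mem_range.2 (hv i).2
  · rw [if_neg hv]
    refine Finset.sum_eq_zero fun κ hκ => ?_
    rw [if_neg]
    intro h
    apply hv
    intro i
    rw [Fintype.mem_piFinset] at hκ
    rw [← h]
    simp only [Finsupp.equivFunOnFinite_symm_apply_apply]
    refine ⟨dvd_mul_left _ _, ?_⟩
    rw [Nat.mul_div_cancel _ (Nat.pos_of_ne_zero (ha i))]
    exact Finset.mem_range.1 (hκ i)

/-- hypotheses on `f`: all exponents have weight `< M` except the `a i e_i`, which occur. -/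
structure Diag (f : MvPolynomial σ (k p)) (a ω : σ → ℕ) (M : ℕ) : Prop where
  ha : ∀ i, a i ≠ 0
  hω : ∀ i, a i * ω i = M
  hM : M ≠ 0
  lead : ∀ i, coeff (Finsupp.single i (a i)) f ≠ 0
  rest : ∀ μ ∈ f.support, (∀ i, μ ≠ Finsupp.single i (a i)) → wt ω μ < M

theorem wt_single (ω : σ → ℕ) (i : σ) (n : ℕ) : wt ω (Finsupp.single i n) = ω i * n := by
  unfold wt
  rw [Finset.sum_eq_single i]
  · simp
  · intro j _ hj
    rw [Finsupp.single_apply, if_neg hj.symm, mul_zero]
  · intro h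
    exact absurd (Finset.mem_univ i) h

section main

variable {f : MvPolynomial σ (k p)} {a : σ → ℕ} {M s : ℕ} (hf : Diag f a ω M)
  (D : Lifts p f s) {N : ℕ} {γ : PadicAlgCl p}

/-- the leading part -/
noncomputable def lead (D : Lifts p f s) (a : σ → ℕ) (N : ℕ) (γ : PadicAlgCl p)
    (g : Fin (p - 1) × ZMod s) : MvPolynomial σ (PadicAlgCl p) :=
  ∏ i, Gpoly N γ (Finsupp.single i (a i)) (D.a g.1 * D.c (Finsupp.single i (a i)) ^ p ^ (g.2.val))

include hf

theorem norm_c_le (hs : s ≠ 0) (μ : σ →₀ ℕ) : ‖D.c μ‖ ≤ 1 :=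
  norm_le_one_of_pow (one_lt_Q hs) (D.hc μ)

theorem norm_a_eq (i : Fin (p - 1)) : ‖D.a i‖ = 1 := by
  have h1 : ‖D.a i‖ ≤ 1 := norm_le_one_of_pow hp.1.one_lt (D.ha i)
  refine le_antisymm h1 ?_
  by_contra h
  push Not at h
  rw [← red_eq_zero h1, D.hared, CharP.cast_eq_zero_iff (k p) p] at h
  have h3 := Nat.le_of_dvd (Nat.succ_pos _) h
  have := i.2
  omega

theorem norm_c_eq (hs : s ≠ 0) (i : σ) : ‖D.c (Finsupp.single i (a i))‖ = 1 := by
  have h1 := norm_c_le hf D hs (Finsupp.single i (a i))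
  refine le_antisymm h1 ?_
  by_contra h
  push Not at h
  rw [← red_eq_zero h1, D.hred] at h
  exact hf.lead i h

theorem Gf_P (hs : s ≠ 0) (hr : 0 < r) (hr1 : r ≤ 1) (hγ : ‖γ‖ = r ^ M)
    (g : Fin (p - 1) × ZMod s) : P ω r 0 (Gf D N γ g) := by
  rw [Gf]
  refine P.prod_zero hr _ fun μ hμ => Gpoly_P hr hr1 hγ ?_ ?_
  · by_cases h : ∀ i, μ ≠ Finsupp.single i (a i)
    · exact (hf.rest μ hμ h).le
    · push Not at h
      obtain ⟨i, rfl⟩ := h
      rw [wt_single, mul_comm, hf.hω]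
  · rw [norm_mul, norm_a_eq hf D, one_mul, norm_pow]
    exact pow_le_one₀ (norm_nonneg _) (norm_c_le hf D hs μ)

theorem Gf_lead (hs : s ≠ 0) (hr : 0 < r) (hr1 : r ≤ 1) (hγ : ‖γ‖ = r ^ M) (hN : 0 < N)
    (g : Fin (p - 1) × ZMod s) : P ω r 1 (Gf D N γ g - lead D a N γ g) := by
  classical
  have hinj : Function.Injective (fun i : σ => Finsupp.single i (a i)) := by
    intro i j h
    simp only at h
    exact (Finsupp.single_left_inj (hf.ha i)).1 (by
      have h1 := DFunLike.congr_fun h i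
      have h2 : j = i := by
        by_contra hne
        rw [Finsupp.single_eq_same, Finsupp.single_apply, if_neg hne] at h1
        exact hf.ha i h1
      rw [h2] at h ⊢)
  have hsub : Finset.univ.image (fun i : σ => Finsupp.single i (a i)) ⊆ f.support := by
    intro μ hμ
    rw [Finset.mem_image] at hμ
    obtain ⟨i, _, rfl⟩ := hμ
    rw [mem_support_iff]
    exact hf.lead i
  have h1 : Gf D N γ g = (∏ μ ∈ f.support \ Finset.univ.image (fun i : σ => Finsupp.single i (a i)),
      Gpoly N γ μ (D.a g.1 * D.c μ ^ p ^ (g.2.val))) * lead D a N γ g := by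
    rw [Gf, lead, ← Finset.prod_sdiff hsub, Finset.prod_image (fun i _ j _ h => hinj h)]
  have h2 : Gf D N γ g - lead D a N γ g = ((∏ μ ∈ f.support \
      Finset.univ.image (fun i : σ => Finsupp.single i (a i)),
      Gpoly N γ μ (D.a g.1 * D.c μ ^ p ^ (g.2.val))) - 1) * lead D a N γ g := by
    rw [h1]
    ring
  rw [h2]
  refine P.mul (e := 1) (e' := 0) hr (near_prod hr hr1 _ fun μ hμ => Gpoly_near hr hr1 hN hγ ?_ ?_)
    ?_
  · rw [Finset.mem_sdiff, Finset.mem_image] at hμ
    refine hf.rest μ hμ.1 fun i hi => hμ.2 ⟨i, Finset.mem_univ i, hi.symm⟩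
  · rw [norm_mul, norm_a_eq hf D, one_mul, norm_pow]
    exact pow_le_one₀ (norm_nonneg _) (norm_c_le hf D hs μ)
  · rw [lead]
    refine P.prod_zero hr _ fun i _ => Gpoly_P hr hr1 hγ ?_ ?_
    · rw [wt_single, mul_comm, hf.hω]
    · rw [norm_mul, norm_a_eq hf D, one_mul, norm_pow]
      exact pow_le_one₀ (norm_nonneg _) (norm_c_le hf D hs _)

theorem coeff_lead_zero (g : Fin (p - 1) × ZMod s) {v : σ →₀ ℕ} (hv : ∃ i, ¬ a i ∣ v i) :
    coeff v (lead D a N γ g) = 0 := by
  rw [lead]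
  simp only [Gpoly]
  rw [coeff_lead a hf.ha N (fun i k => PowerSeries.coeff k (AH p (1 : PadicAlgCl p)) * γ ^ k *
    (D.a g.1 * D.c (Finsupp.single i (a i)) ^ p ^ (g.2.val)) ^ k), if_neg]
  obtain ⟨i, hi⟩ := hv
  exact fun h => hi (h i).1

theorem norm_coeff_lead (hs : s ≠ 0) (hγ : ‖γ‖ = r ^ M) (hN : p ≤ N)
    (g : Fin (p - 1) × ZMod s) {v : σ →₀ ℕ}
    (hv : ∀ i, a i ∣ v i ∧ v i / a i < p) :
    ‖coeff v (lead D a N γ g)‖ = r ^ wt ω v := by
  rw [lead]
  simp only [Gpoly]
  rw [coeff_lead a hf.ha N (fun i k => PowerSeries.coeff k (AH p (1 : PadicAlgCl p)) * γ ^ k *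
    (D.a g.1 * D.c (Finsupp.single i (a i)) ^ p ^ (g.2.val)) ^ k),
    if_pos (fun i => ⟨(hv i).1, lt_of_lt_of_le (hv i).2 hN⟩), norm_prod]
  have h1 : ∀ i, ‖PowerSeries.coeff (v i / a i) (AH p (1 : PadicAlgCl p)) * γ ^ (v i / a i) *
      (D.a g.1 * D.c (Finsupp.single i (a i)) ^ p ^ (g.2.val)) ^ (v i / a i)‖ =
      r ^ (ω i * v i) := by
    intro i
    have h2 : ‖PowerSeries.coeff (v i / a i) (AH p (1 : PadicAlgCl p))‖ = 1 := by
      refine le_antisymm (hE _) ?_
      have h3 := coeff_AH_small (K := PadicAlgCl p) p hp.1.one_lt (v i / a i) (hv i).2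
      have h4 := congrArg norm h3
      rw [norm_mul, norm_one] at h4
      have h5 : ‖((v i / a i).factorial : PadicAlgCl p)‖ ≤ 1 :=
        IsUltrametricDist.norm_natCast_le_one _ _
      by_contra h6
      push Not at h6
      have h7 : ‖((v i / a i).factorial : PadicAlgCl p)‖ *
          ‖PowerSeries.coeff (v i / a i) (AH p (1 : PadicAlgCl p))‖ < 1 := by
        calc _ ≤ 1 * ‖PowerSeries.coeff (v i / a i) (AH p (1 : PadicAlgCl p))‖ :=
              mul_le_mul_of_nonneg_right h5 (norm_nonneg _)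
          _ < 1 := by rwa [one_mul]
      exact h7.ne h4
    rw [norm_mul, norm_mul, norm_pow, norm_pow, norm_mul, norm_pow, norm_a_eq hf D,
      norm_c_eq hf D hs, h2, hγ, one_pow, one_mul, one_mul, one_pow, mul_one, ← pow_mul]
    congr 1
    rw [← hf.hω i]
    have h8 := Nat.div_mul_cancel (hv i).1
    calc a i * ω i * (v i / a i) = ω i * (v i / a i * a i) := by ring
      _ = ω i * v i := by rw [h8]
  rw [Finset.prod_congr rfl fun i _ => h1 i, Finset.prod_pow_eq_pow_sum]
  rfl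

end main

end Bd

end Pool.Agent.N867.AS
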