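import Pool.Agent.N867.AS.Rank2

/-!
# Linear independence in the class group
-/

set_option autoImplicit false
set_option linter.unusedSectionVars false

namespace Pool.Agent.N867.AS

namespace Cls

open Polynomial FractionalIdeal
open scoped nonZeroDivisors

variable {R : Type*} [CommRing R] [IsDomain R] {ι J : Type*} [Fintype ι] [Fintype J]
  [DecidableEq ι] [DecidableEq J]

theorem isUnit_coe_span {x : R} (hx : x ≠ 0) :
    IsUnit ((Ideal.span {x} : Ideal R) : FractionalIdeal R⁰ (FractionRing R)) := by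
  have hx' : algebraMap R (FractionRing R) x ≠ 0 := by
    rw [Ne, map_eq_zero_iff _ (IsFractionRing.injective R (FractionRing R))]
    exact hx
  have h1 := (toPrincipalIdeal R (FractionRing R) (Units.mk0 _ hx')).isUnit
  rw [coe_toPrincipalIdeal, Units.val_mk0] at h1
  rw [coeIdeal_span_singleton]
  exact h1

theorem exists_units (I : ι → J → Ideal R) (F : ι → R) (hF0 : ∀ i, F i ≠ 0)
    (hI : ∀ i, ∏ j, I i j = Ideal.span {F i}) :
    ∃ U : ι → J → (FractionalIdeal R⁰ (FractionRing R))ˣ,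
      ∀ i j, ((U i j : (FractionalIdeal R⁰ (FractionRing R))ˣ) :
        FractionalIdeal R⁰ (FractionRing R)) = (I i j : FractionalIdeal R⁰ (FractionRing R)) := by
  have h1 : ∀ i j, IsUnit ((I i j : FractionalIdeal R⁰ (FractionRing R))) := by
    intro i j
    have h2 := isUnit_coe_span (hF0 i)
    rw [← hI i] at h2
    have h3 : ((∏ j, I i j : Ideal R) : FractionalIdeal R⁰ (FractionRing R)) =
        ∏ j, (I i j : FractionalIdeal R⁰ (FractionRing R)) :=
      map_prod (coeIdealHom R⁰ (FractionRing R)) _ _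
    rw [h3] at h2
    exact isUnit_of_dvd_unit (Finset.dvd_prod_of_mem
      (fun j => (I i j : FractionalIdeal R⁰ (FractionRing R))) (Finset.mem_univ j)) h2
  choose U hU using h1
  exact ⟨U, hU⟩

theorem linInd (I : ι → J → Ideal R) (F : ι → R) (hF0 : ∀ i, F i ≠ 0)
    (hI : ∀ i, ∏ j, I i j = Ideal.span {F i})
    (hcore : ∀ (n : ι → J → ℕ) (h : R), ∏ i, ∏ j, I i j ^ n i j = Ideal.span {h} →
      ∀ (k k' : ι) (l l' : J), n k l + n k' l' = n k l' + n k' l)
    (U : ι → J → (FractionalIdeal R⁰ (FractionRing R))ˣ)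
    (hU : ∀ i j, ((U i j : (FractionalIdeal R⁰ (FractionRing R))ˣ) :
        FractionalIdeal R⁰ (FractionRing R)) = (I i j : FractionalIdeal R⁰ (FractionRing R)))
    (i₀ : ι) (j₀ : J) :
    LinearIndependent ℤ (fun t : {i : ι // i ≠ i₀} × {j : J // j ≠ j₀} =>
      Additive.ofMul (ClassGroup.mk (FractionRing R) (U t.1 t.2))) := by
  rw [Fintype.linearIndependent_iff]
  intro g hg
  obtain ⟨c, hc⟩ : ∃ c : ι → J → ClassGroup R, ∀ i j,
      c i j = ClassGroup.mk (FractionRing R) (U i j) := ⟨_, fun _ _ => rfl⟩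
  obtain ⟨G, hG⟩ : ∃ G : ι → J → ℤ, ∀ i j, G i j =
    if h : i ≠ i₀ ∧ j ≠ j₀ then g (⟨i, h.1⟩, ⟨j, h.2⟩) else 0 := ⟨_, fun _ _ => rfl⟩
  have h1 : ∏ t : {i : ι // i ≠ i₀} × {j : J // j ≠ j₀}, c t.1 t.2 ^ g t = 1 := by
    have h2 : Additive.ofMul (∏ t : {i : ι // i ≠ i₀} × {j : J // j ≠ j₀}, c t.1 t.2 ^ g t) =
        ∑ t : {i : ι // i ≠ i₀} × {j : J // j ≠ j₀}, g t • Additive.ofMul (c t.1 t.2) := by
      rw [ofMul_prod]
      rfl
    simp only [hc] at h2 ⊢
    rw [hg] at h2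
    exact h2
  have h2 : ∏ i, ∏ j, c i j ^ G i j = 1 := by
    rw [← Fintype.prod_prod_type' (fun i j => c i j ^ G i j), ← h1]
    symm
    refine Fintype.prod_of_injective (fun t : {i : ι // i ≠ i₀} × {j : J // j ≠ j₀} =>
      ((t.1 : ι), (t.2 : J))) ?_ _ _ ?_ ?_
    · rintro ⟨⟨a, ha⟩, ⟨b, hb⟩⟩ ⟨⟨a', ha'⟩, ⟨b', hb'⟩⟩ h
      simp only [Prod.mk.injEq] at h
      obtain ⟨rfl, rfl⟩ := h
      rfl
    · rintro ⟨i, j⟩ hij
      have h3 : ¬ (i ≠ i₀ ∧ j ≠ j₀) := fun h => hij ⟨(⟨i, h.1⟩, ⟨j, h.2⟩), rfl⟩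
      simp only [hG, dif_neg h3, zpow_zero]
    · rintro ⟨⟨i, hi⟩, ⟨j, hj⟩⟩
      have h3 : i ≠ i₀ ∧ j ≠ j₀ := ⟨hi, hj⟩
      simp only [hG, dif_pos h3]
  -- rows are trivial
  have hrow : ∀ i, ∏ j, c i j = 1 := by
    intro i
    simp only [hc]
    rw [← map_prod]
    have h3 : ((∏ j, U i j : (FractionalIdeal R⁰ (FractionRing R))ˣ) :
        FractionalIdeal R⁰ (FractionRing R)) = ((∏ j, I i j : Ideal R) :
        FractionalIdeal R⁰ (FractionRing R)) := by
      rw [Units.coe_prod]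
      have h4 : ((∏ j, I i j : Ideal R) : FractionalIdeal R⁰ (FractionRing R)) =
        ∏ j, (I i j : FractionalIdeal R⁰ (FractionRing R)) :=
        map_prod (coeIdealHom R⁰ (FractionRing R)) _ _
      rw [h4]
      exact Finset.prod_congr rfl fun j _ => hU i j
    rw [ClassGroup.mk_eq_one_of_coe_ideal h3]
    exact ⟨F i, hF0 i, hI i⟩
  obtain ⟨N, hN⟩ : ∃ N : ℕ, ∀ i j, 0 ≤ G i j + N := by
    refine ⟨∑ i, ∑ j, (G i j).natAbs, fun i j => ?_⟩
    have h3 : (G i j).natAbs ≤ ∑ i, ∑ j, (G i j).natAbs :=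
      (Finset.single_le_sum (f := fun j => (G i j).natAbs) (fun _ _ => Nat.zero_le _)
        (Finset.mem_univ j)).trans (Finset.single_le_sum (f := fun i => ∑ j, (G i j).natAbs)
        (fun _ _ => Nat.zero_le _) (Finset.mem_univ i))
    omega
  obtain ⟨n, hn⟩ : ∃ n : ι → J → ℕ, ∀ i j, (n i j : ℤ) = G i j + N :=
    ⟨fun i j => (G i j + N).toNat, fun i j => Int.toNat_of_nonneg (hN i j)⟩
  have h3 : ∏ i, ∏ j, c i j ^ n i j = 1 := by
    have h4 : ∀ i j, c i j ^ n i j = c i j ^ G i j * c i j ^ N := by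
      intro i j
      rw [← zpow_natCast, hn, zpow_add, zpow_natCast]
    simp only [h4, Finset.prod_mul_distrib, Finset.prod_pow, hrow, one_pow, h2, mul_one]
  have h4 : ClassGroup.mk (FractionRing R) (∏ i, ∏ j, U i j ^ n i j) = 1 := by
    rw [← h3, map_prod]
    refine Finset.prod_congr rfl fun i _ => ?_
    rw [map_prod]
    refine Finset.prod_congr rfl fun j _ => ?_
    rw [map_pow, hc]
  have h5 : ((∏ i, ∏ j, U i j ^ n i j : (FractionalIdeal R⁰ (FractionRing R))ˣ) :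
        FractionalIdeal R⁰ (FractionRing R)) = ((∏ i, ∏ j, I i j ^ n i j : Ideal R) :
        FractionalIdeal R⁰ (FractionRing R)) := by
    have h6 : ((∏ i, ∏ j, I i j ^ n i j : Ideal R) : FractionalIdeal R⁰ (FractionRing R)) =
        ∏ i, ∏ j, (I i j : FractionalIdeal R⁰ (FractionRing R)) ^ n i j := by
      change coeIdealHom R⁰ (FractionRing R) (∏ i, ∏ j, I i j ^ n i j) = _
      rw [map_prod]
      refine Finset.prod_congr rfl fun i _ => ?_
      rw [map_prod]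
      refine Finset.prod_congr rfl fun j _ => ?_
      rw [map_pow]
      rfl
    rw [h6, Units.coe_prod]
    refine Finset.prod_congr rfl fun i _ => ?_
    rw [Units.coe_prod]
    refine Finset.prod_congr rfl fun j _ => ?_
    rw [Units.val_pow_eq_pow_val, hU]
  rw [ClassGroup.mk_eq_one_of_coe_ideal h5] at h4
  obtain ⟨h, _, hh⟩ := h4
  rintro ⟨⟨i, hi⟩, ⟨j, hj⟩⟩
  have h6 := hcore n h hh i i₀ j j₀
  have h7 : (n i j : ℤ) + n i₀ j₀ = n i j₀ + n i₀ j := by exact_mod_cast h6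
  rw [hn, hn, hn, hn, hG, hG, hG, hG, dif_pos ⟨hi, hj⟩, dif_neg (by tauto), dif_neg (by tauto),
    dif_neg (by tauto)] at h7
  linarith

theorem rank_le {R : Type} [CommRing R] [IsDomain R] {ι J : Type} [Fintype ι] [Fintype J]
    [DecidableEq ι] [DecidableEq J] (I : ι → J → Ideal R) (F : ι → R) (hF0 : ∀ i, F i ≠ 0)
    (hI : ∀ i, ∏ j, I i j = Ideal.span {F i})
    (hcore : ∀ (n : ι → J → ℕ) (h : R), ∏ i, ∏ j, I i j ^ n i j = Ideal.span {h} →
      ∀ (k k' : ι) (l l' : J), n k l + n k' l' = n k l' + n k' l) (i₀ : ι) (j₀ : J) :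
    (((Fintype.card J - 1) * (Fintype.card ι - 1) : ℕ) : Cardinal) ≤
      Module.rank ℤ (Additive (ClassGroup R)) := by
  obtain ⟨U, hU⟩ := exists_units I F hF0 hI
  have h1 := (linInd I F hF0 hI hcore U hU i₀ j₀).cardinal_le_rank
  have h2 : Cardinal.mk ({i : ι // i ≠ i₀} × {j : J // j ≠ j₀}) =
      (((Fintype.card J - 1) * (Fintype.card ι - 1) : ℕ) : Cardinal) := by
    rw [Cardinal.mk_fintype, Fintype.card_prod, Fintype.card_subtype_compl,
      Fintype.card_subtype_compl, Fintype.card_subtype_eq, Fintype.card_subtype_eq, mul_comm]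
  rwa [h2] at h1

end Cls

namespace Core

open Polynomial WithZero Pool.Agent.N867.AS.Frame ASR Root

variable {κ : Type} [Field κ] {a b p : ℕ} {ι : Type} [Fintype ι] [DecidableEq ι]
  {β : ι → κ} {F : ι → κ[X][X]}

theorem rank_lb (hp : p.Prime) [CharP κ p] (hF : ∀ i, Wt a b (β i) (F i))
    (hab : a.Coprime b) (hβ : ∀ i, β i ≠ 0) (hinj : Function.Injective β)
    (hg : ¬ p ∣ Fintype.card ι) (hpa : ¬ p ∣ a) (hpb : ¬ p ∣ b)
    [IsDomain (AS p (toK κ (∏ i, F i)))] :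
    (((p - 1) * (Fintype.card ι - 1) : ℕ) : Cardinal) ≤
      Module.rank ℤ (Additive (ClassGroup (AS p (toK κ (∏ i, F i))))) := by
  have ha : a ≠ 0 := by
    rintro rfl
    exact hpa (dvd_zero p)
  have hg0 : Fintype.card ι ≠ 0 := by
    intro h
    rw [h] at hg
    exact hg (dvd_zero p)
  obtain ⟨i₀⟩ := Fintype.card_pos_iff.1 (Nat.pos_of_ne_zero hg0)
  have hF0 : ∀ i, AdjoinRoot.of (Phi p (toK κ (∏ i, F i))) (toK κ (F i)) ≠ 0 := by
    intro i h0
    have h3 : AdjoinRoot.mk (Phi p (toK κ (∏ i, F i))) (C (toK κ (F i))) = 0 := h0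
    have h4 := rep_unique hp.one_lt (by rw [natDegree_C]; exact hp.pos) h3
    rw [C_eq_zero] at h4
    exact (toK_monic (hF i).monic).ne_zero h4
  have h1 := Cls.rank_le (II p F) _ hF0 (prod_II_j hp)
    (fun n h hh => rank_core hp hF hab hβ hinj hg hpa hpb n h hh) i₀ ⟨0, hp.pos⟩
  rwa [Fintype.card_fin] at h1

end Core

end Pool.Agent.N867.AS
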