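import Mathlib

/-!
# The combinatorial core of the rank argument
-/

set_option autoImplicit false

namespace Pool.Agent.N867.AS

namespace CoreAbs

variable {A : Type*} [CommRing A] [IsDomain A] {Γ : Type*} [LinearOrderedCommGroupWithZero Γ]
  {ι J : Type*} [Fintype ι] [Fintype J] [DecidableEq ι] [DecidableEq J]

/-- the elimination identity -/
theorem elim (F : ι → A) (Y : J → A) (hFY : ∏ i, F i = ∏ j, Y j) (hF0 : ∏ i, F i ≠ 0)
    (n : ι → J → ℕ) (N : ℕ) (h : A) (k : ι) (l : J) {s s' u u' x X : A}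
    (h1 : s' * x * ∏ i, F i ^ n i l = s * (∏ j ∈ Finset.univ.erase l, Y j) ^ N * h)
    (h2 : u' * X * ∏ j, Y j ^ n k j = u * (∏ i ∈ Finset.univ.erase k, F i) ^ N * h) :
    s' * u * x * (∏ j ∈ Finset.univ.erase l, Y j) ^ n k l *
      (∏ i ∈ Finset.univ.erase k, F i ^ n i l) * (∏ i ∈ Finset.univ.erase k, F i) ^ N =
    s * u' * X * (∏ i ∈ Finset.univ.erase k, F i) ^ n k l *
      (∏ j ∈ Finset.univ.erase l, Y j ^ n k j) * (∏ j ∈ Finset.univ.erase l, Y j) ^ N := by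
  have hf : F k * ∏ i ∈ Finset.univ.erase k, F i = ∏ i, F i :=
    Finset.mul_prod_erase _ _ (Finset.mem_univ k)
  have hf' : Y l * ∏ j ∈ Finset.univ.erase l, Y j = ∏ i, F i := by
    rw [hFY]
    exact Finset.mul_prod_erase _ _ (Finset.mem_univ l)
  have hn : F k ^ n k l * ∏ i ∈ Finset.univ.erase k, F i ^ n i l = ∏ i, F i ^ n i l :=
    Finset.mul_prod_erase _ (fun i => F i ^ n i l) (Finset.mem_univ k)
  have hn' : Y l ^ n k l * ∏ j ∈ Finset.univ.erase l, Y j ^ n k j = ∏ j, Y j ^ n k j :=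
    Finset.mul_prod_erase _ (fun j => Y j ^ n k j) (Finset.mem_univ l)
  obtain ⟨G, hG⟩ : ∃ G, G = ∏ i ∈ Finset.univ.erase k, F i := ⟨_, rfl⟩
  obtain ⟨Z, hZ⟩ : ∃ Z, Z = ∏ j ∈ Finset.univ.erase l, Y j := ⟨_, rfl⟩
  obtain ⟨P, hP⟩ : ∃ P, P = ∏ i ∈ Finset.univ.erase k, F i ^ n i l := ⟨_, rfl⟩
  obtain ⟨Q, hQ⟩ : ∃ Q, Q = ∏ j ∈ Finset.univ.erase l, Y j ^ n k j := ⟨_, rfl⟩
  obtain ⟨f, hfd⟩ : ∃ f, f = ∏ i, F i := ⟨_, rfl⟩
  rw [← hG] at hf h2 ⊢
  rw [← hZ] at hf' h1 ⊢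
  rw [← hP] at hn ⊢
  rw [← hQ] at hn' ⊢
  rw [← hfd] at hf hf' hF0
  rw [← hn] at h1
  rw [← hn'] at h2
  refine mul_right_cancel₀ (pow_ne_zero (n k l) hF0) ?_
  have e1 : f ^ n k l = F k ^ n k l * G ^ n k l := by rw [← mul_pow, hf]
  have e2 : f ^ n k l = Y l ^ n k l * Z ^ n k l := by rw [← mul_pow, hf']
  calc s' * u * x * Z ^ n k l * P * G ^ N * f ^ n k l =
      (s' * x * (F k ^ n k l * P)) * (u * G ^ N * Z ^ n k l * G ^ n k l) := by rw [e1]; ring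
    _ = (u' * X * (Y l ^ n k l * Q)) * (s * Z ^ N * Z ^ n k l * G ^ n k l) := by
        rw [h1, h2]; ring
    _ = s * u' * X * G ^ n k l * Q * Z ^ N * f ^ n k l := by rw [e2]; ring

theorem core (WΘ : A →*₀ Γ) (W : ι → J → A →*₀ Γ) (F : ι → A) (Y : J → A)
    (hFY : ∏ i, F i = ∏ j, Y j) (hF0 : ∏ i, F i ≠ 0) {Λ : Γ} (hΛ : 1 < Λ)
    (hWF : ∀ k l i, i ≠ k → W k l (F i) = Λ) (hΘF : ∀ i, WΘ (F i) = Λ)
    (hWY : ∀ k l j, j ≠ l → W k l (Y j) = 1) (hle : ∀ k l x, W k l x ≤ WΘ x)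
    (hge : ∀ k l x, W k l x ≠ 0 → 1 ≤ W k l x)
    (n : ι → J → ℕ) (N : ℕ) (h : A) (s s' x y e : J → A) (u u' X X' e' : ι → A)
    (hs : ∀ k l l', W k l (s l') = WΘ (s l')) (hs' : ∀ k l l', W k l (s' l') = WΘ (s' l'))
    (hu : ∀ k l k', W k l (u k') = WΘ (u k')) (hu' : ∀ k l k', W k l (u' k') = WΘ (u' k'))
    (hs0 : ∀ l, WΘ (s l) ≠ 0) (hs0' : ∀ l, WΘ (s' l) ≠ 0)
    (hu0 : ∀ k, WΘ (u k) ≠ 0) (hu0' : ∀ k, WΘ (u' k) ≠ 0)
    (he : ∀ k l, W k l (e l) = 1) (he' : ∀ k l, W k l (e' k) = 1) (heΘ : ∀ k, WΘ (e' k) = 1)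
    (h1 : ∀ l, s' l * x l * ∏ i, F i ^ n i l = s l * (∏ j ∈ Finset.univ.erase l, Y j) ^ N * h)
    (h2 : ∀ k, u' k * X k * ∏ j, Y j ^ n k j = u k * (∏ i ∈ Finset.univ.erase k, F i) ^ N * h)
    (h3 : ∀ l, x l * y l = e l * (∏ j ∈ Finset.univ.erase l, Y j) ^ (2 * N))
    (h4 : ∀ k, X k * X' k = e' k * (∏ i ∈ Finset.univ.erase k, F i) ^ (2 * N))
    (k k' : ι) (l l' : J) : n k l + n k' l' = n k l' + n k' l := by
  have hΛ0 : Λ ≠ 0 := (lt_trans zero_lt_one hΛ).ne'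
  -- values of the products
  have hZ : ∀ k l, W k l (∏ j ∈ Finset.univ.erase l, Y j) = 1 := by
    intro k l
    rw [map_prod]
    exact Finset.prod_eq_one fun j hj => hWY k l j (Finset.ne_of_mem_erase hj)
  have hZn : ∀ k l, W k l (∏ j ∈ Finset.univ.erase l, Y j ^ n k j) = 1 := by
    intro k l
    rw [map_prod]
    refine Finset.prod_eq_one fun j hj => ?_
    rw [map_pow, hWY k l j (Finset.ne_of_mem_erase hj), one_pow]
  have hG : ∀ k l, W k l (∏ i ∈ Finset.univ.erase k, F i) = Λ ^ (Fintype.card ι - 1) := by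
    intro k l
    rw [map_prod, Finset.prod_congr rfl (fun i hi => hWF k l i (Finset.ne_of_mem_erase hi)),
      Finset.prod_const, Finset.card_erase_of_mem (Finset.mem_univ k), Finset.card_univ]
  have hGΘ : ∀ k, WΘ (∏ i ∈ Finset.univ.erase k, F i) = Λ ^ (Fintype.card ι - 1) := by
    intro k
    rw [map_prod, Finset.prod_congr rfl (fun i _ => hΘF i),
      Finset.prod_const, Finset.card_erase_of_mem (Finset.mem_univ k), Finset.card_univ]
  -- values of `x l`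
  have hx : ∀ k l, W k l (x l) = 1 := by
    intro k l
    have h5 := congrArg (W k l) (h3 l)
    rw [map_mul, map_mul, map_pow, hZ, one_pow, mul_one, he] at h5
    have hx0 : W k l (x l) ≠ 0 := left_ne_zero_of_mul (by rw [h5]; exact one_ne_zero)
    have hy0 : W k l (y l) ≠ 0 := right_ne_zero_of_mul (by rw [h5]; exact one_ne_zero)
    refine le_antisymm ?_ (hge k l _ hx0)
    calc W k l (x l) ≤ W k l (x l) * W k l (y l) :=
          le_mul_of_one_le_right zero_le (hge k l _ hy0)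
      _ = 1 := h5
  -- values of `X k`
  have hX : ∀ k l, W k l (X k) = WΘ (X k) := by
    intro k l
    have h5 := congrArg (W k l) (h4 k)
    have h6 := congrArg WΘ (h4 k)
    rw [map_mul, map_mul, map_pow, hG, he', one_mul] at h5
    rw [map_mul, map_mul, map_pow, hGΘ, heΘ, one_mul] at h6
    refine le_antisymm (hle k l _) ?_
    by_contra h7
    push Not at h7
    have hX' : WΘ (X' k) ≠ 0 := right_ne_zero_of_mul (by
      rw [h6]
      exact pow_ne_zero _ (pow_ne_zero _ hΛ0))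
    have h8 : W k l (X k) * W k l (X' k) < WΘ (X k) * WΘ (X' k) := by
      calc W k l (X k) * W k l (X' k) ≤ W k l (X k) * WΘ (X' k) :=
            mul_le_mul_right (hle k l _) _
        _ < WΘ (X k) * WΘ (X' k) := (mul_lt_mul_iff_left₀ (zero_lt_iff.2 hX')).2 h7
    rw [h5, h6] at h8
    exact lt_irrefl _ h8
  have hX0 : ∀ k, WΘ (X k) ≠ 0 := by
    intro k
    have h6 := congrArg WΘ (h4 k)
    rw [map_mul, map_mul, map_pow, hGΘ, heΘ, one_mul] at h6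
    exact left_ne_zero_of_mul (by
      rw [h6]
      exact pow_ne_zero _ (pow_ne_zero _ hΛ0))
  -- the key identity
  have key : ∀ k l, WΘ (s' l) * Λ ^ (∑ i, n i l) * Λ ^ ((Fintype.card ι - 1) * N) * WΘ (u k) =
      WΘ (s l) * WΘ (u' k) * WΘ (X k) * Λ ^ (Fintype.card ι * n k l) := by
    intro k l
    have h5 := congrArg (W k l) (elim F Y hFY hF0 n N h k l (h1 l) (h2 k))
    simp only [map_mul, map_pow] at h5
    rw [hZ, hZn, hG, hX, hx, hs, hs', hu, hu', one_pow, one_pow, mul_one, mul_one, mul_one,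
      mul_one, map_prod, Finset.prod_congr rfl (fun i hi => by
        rw [map_pow, hWF k l i (Finset.ne_of_mem_erase hi)] :
        ∀ i ∈ Finset.univ.erase k, W k l (F i ^ n i l) = Λ ^ n i l)] at h5
    rw [Finset.prod_pow_eq_pow_sum, ← pow_mul, ← pow_mul] at h5
    have h6 : n k l + ∑ i ∈ Finset.univ.erase k, n i l = ∑ i, n i l :=
      Finset.add_sum_erase _ (fun i => n i l) (Finset.mem_univ k)
    have hc : 1 ≤ Fintype.card ι := Fintype.card_pos_iff.2 ⟨k⟩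
    obtain ⟨c, hc⟩ : ∃ c, Fintype.card ι = c + 1 := ⟨Fintype.card ι - 1, by omega⟩
    rw [hc, Nat.add_sub_cancel] at h5 ⊢
    rw [← h6]
    calc WΘ (s' l) * Λ ^ (n k l + ∑ i ∈ Finset.univ.erase k, n i l) * Λ ^ (c * N) * WΘ (u k) =
        (WΘ (s' l) * WΘ (u k) * Λ ^ (∑ i ∈ Finset.univ.erase k, n i l) * Λ ^ (c * N)) *
          Λ ^ n k l := by
          rw [pow_add]
          ac_rfl
      _ = (WΘ (s l) * WΘ (u' k) * WΘ (X k) * Λ ^ (c * n k l)) * Λ ^ n k l := by rw [h5]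
      _ = WΘ (s l) * WΘ (u' k) * WΘ (X k) * Λ ^ ((c + 1) * n k l) := by
          rw [add_mul, one_mul, pow_add, mul_assoc]
  have e1 := key k l
  have e2 := key k' l'
  have e3 := key k l'
  have e4 := key k' l
  have e5 : (WΘ (s l) * WΘ (u' k) * WΘ (X k) * Λ ^ (Fintype.card ι * n k l)) *
      (WΘ (s l') * WΘ (u' k') * WΘ (X k') * Λ ^ (Fintype.card ι * n k' l')) =
      (WΘ (s l') * WΘ (u' k) * WΘ (X k) * Λ ^ (Fintype.card ι * n k l')) *
      (WΘ (s l) * WΘ (u' k') * WΘ (X k') * Λ ^ (Fintype.card ι * n k' l)) := by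
    rw [← e1, ← e2, ← e3, ← e4]
    ac_rfl
  have hD : WΘ (s l) * WΘ (u' k) * WΘ (X k) * (WΘ (s l') * WΘ (u' k') * WΘ (X k')) ≠ 0 := by
    refine mul_ne_zero (mul_ne_zero (mul_ne_zero (hs0 l) (hu0' k)) (hX0 k))
      (mul_ne_zero (mul_ne_zero (hs0 l') (hu0' k')) (hX0 k'))
  have e6 : Λ ^ (Fintype.card ι * (n k l + n k' l')) = Λ ^ (Fintype.card ι * (n k l' + n k' l)) := by
    refine mul_left_cancel₀ hD ?_
    calc WΘ (s l) * WΘ (u' k) * WΘ (X k) * (WΘ (s l') * WΘ (u' k') * WΘ (X k')) *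
        Λ ^ (Fintype.card ι * (n k l + n k' l')) =
        (WΘ (s l) * WΘ (u' k) * WΘ (X k) * Λ ^ (Fintype.card ι * n k l)) *
      (WΘ (s l') * WΘ (u' k') * WΘ (X k') * Λ ^ (Fintype.card ι * n k' l')) := by
          rw [mul_add, pow_add]
          ac_rfl
      _ = _ := by
          rw [e5, mul_add, pow_add]
          ac_rfl
  have e7 := (pow_right_injective₀ (lt_trans zero_lt_one hΛ) hΛ.ne') e6
  exact Nat.eq_of_mul_eq_mul_left (Fintype.card_pos_iff.2 ⟨k⟩) e7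

end CoreAbs

end Pool.Agent.N867.AS
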