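import Mathlib

/-!
# An ideal-theoretic lemma on a grid of ideals
-/

set_option autoImplicit false

namespace Pool.Agent.N867.AS

namespace Grid

variable {R : Type*} [CommRing R] [IsDomain R] {ι κ : Type*} [Fintype ι] [Fintype κ]
  [DecidableEq ι] [DecidableEq κ]

theorem grid (F : ι → R) (Y : κ → R) (hF0 : ∀ i, F i ≠ 0) (I : ι → κ → Ideal R)
    (hF : ∀ i, ∏ j, I i j = Ideal.span {F i}) (hY : ∀ j, ∏ i, I i j = Ideal.span {Y j})
    (n : ι → κ → ℕ) (N : ℕ) (hN : ∀ i j, n i j ≤ N) (h : R)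
    (hh : ∏ i, ∏ j, I i j ^ n i j = Ideal.span {h}) (l : κ) :
    ∃ b c : R, b * ∏ i, F i ^ n i l = (∏ j ∈ Finset.univ.erase l, Y j) ^ N * h ∧
      b * c = (∏ j ∈ Finset.univ.erase l, Y j) ^ (2 * N) := by
  obtain ⟨Q, hQ⟩ : ∃ Q : Ideal R, Q = ∏ j ∈ Finset.univ.erase l, ∏ i,
    I i j ^ (N + n i j - n i l) := ⟨_, rfl⟩
  have hYN : ∀ M : ℕ, Ideal.span {(∏ j ∈ Finset.univ.erase l, Y j) ^ M} =
      ∏ j ∈ Finset.univ.erase l, ∏ i, I i j ^ M := by
    intro M
    rw [← Ideal.span_singleton_pow, ← Ideal.prod_span_singleton, ← Finset.prod_pow]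
    refine Finset.prod_congr rfl fun j _ => ?_
    rw [← hY, Finset.prod_pow]
  have hFn : Ideal.span {∏ i, F i ^ n i l} = (∏ i, I i l ^ n i l) *
      ∏ j ∈ Finset.univ.erase l, ∏ i, I i j ^ n i l := by
    rw [← Ideal.prod_span_singleton, Finset.mul_prod_erase Finset.univ
      (fun j => ∏ i, I i j ^ n i l) (Finset.mem_univ l), Finset.prod_comm]
    refine Finset.prod_congr rfl fun i _ => ?_
    rw [← Ideal.span_singleton_pow, ← hF, Finset.prod_pow]
  have hhl : ∏ i, ∏ j, I i j ^ n i j = (∏ i, I i l ^ n i l) *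
      ∏ j ∈ Finset.univ.erase l, ∏ i, I i j ^ n i j := by
    rw [Finset.prod_comm, Finset.mul_prod_erase Finset.univ
      (fun j => ∏ i, I i j ^ n i j) (Finset.mem_univ l)]
  have hkey : Ideal.span {(∏ j ∈ Finset.univ.erase l, Y j) ^ N * h} =
      Ideal.span {∏ i, F i ^ n i l} * Q := by
    rw [← Ideal.span_singleton_mul_span_singleton, hYN, ← hh, hhl, hFn, hQ]
    rw [mul_left_comm, mul_assoc]
    congr 1
    rw [← Finset.prod_mul_distrib, ← Finset.prod_mul_distrib]
    refine Finset.prod_congr rfl fun j _ => ?_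
    rw [← Finset.prod_mul_distrib, ← Finset.prod_mul_distrib]
    refine Finset.prod_congr rfl fun i _ => ?_
    rw [← pow_add, ← pow_add]
    congr 1
    have := hN i j
    have := hN i l
    omega
  have hmem : (∏ j ∈ Finset.univ.erase l, Y j) ^ N * h ∈ Ideal.span {∏ i, F i ^ n i l} := by
    have h1 : (∏ j ∈ Finset.univ.erase l, Y j) ^ N * h ∈
        Ideal.span {(∏ j ∈ Finset.univ.erase l, Y j) ^ N * h} := Ideal.mem_span_singleton_self _
    rw [hkey] at h1
    have h2 : Ideal.span {∏ i, F i ^ n i l} * Q ≤ Ideal.span {∏ i, F i ^ n i l} :=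
      Ideal.mul_le_left
    exact h2 h1
  rw [Ideal.mem_span_singleton'] at hmem
  obtain ⟨b, hb⟩ := hmem
  have hne : (∏ i, F i ^ n i l) ≠ 0 :=
    Finset.prod_ne_zero_iff.2 fun i _ => pow_ne_zero _ (hF0 i)
  have hbQ : Ideal.span {b} = Q := by
    rw [← hb, mul_comm, ← Ideal.span_singleton_mul_span_singleton] at hkey
    exact (Ideal.span_singleton_mul_right_inj hne).1 hkey
  have hmem2 : (∏ j ∈ Finset.univ.erase l, Y j) ^ (2 * N) ∈ Ideal.span {b} := by
    rw [hbQ, hQ]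
    have h1 : (∏ j ∈ Finset.univ.erase l, Y j) ^ (2 * N) ∈
        Ideal.span {(∏ j ∈ Finset.univ.erase l, Y j) ^ (2 * N)} :=
      Ideal.mem_span_singleton_self _
    rw [hYN] at h1
    have h2 : ∏ j ∈ Finset.univ.erase l, ∏ i, I i j ^ (2 * N) =
        (∏ j ∈ Finset.univ.erase l, ∏ i, I i j ^ (N + n i j - n i l)) *
        ∏ j ∈ Finset.univ.erase l, ∏ i, I i j ^ (N + n i l - n i j) := by
      rw [← Finset.prod_mul_distrib]
      refine Finset.prod_congr rfl fun j _ => ?_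
      rw [← Finset.prod_mul_distrib]
      refine Finset.prod_congr rfl fun i _ => ?_
      rw [← pow_add]
      congr 1
      have := hN i j
      have := hN i l
      omega
    rw [h2] at h1
    have h3 : (∏ j ∈ Finset.univ.erase l, ∏ i, I i j ^ (N + n i j - n i l)) *
        ∏ j ∈ Finset.univ.erase l, ∏ i, I i j ^ (N + n i l - n i j) ≤
        ∏ j ∈ Finset.univ.erase l, ∏ i, I i j ^ (N + n i j - n i l) := Ideal.mul_le_left
    exact h3 h1
  rw [Ideal.mem_span_singleton'] at hmem2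
  obtain ⟨c, hc⟩ := hmem2
  exact ⟨b, c, hb, by rw [mul_comm]; exact hc⟩

end Grid

end Pool.Agent.N867.AS
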