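import Pool.Agent.N867.AS.Root
import Pool.Agent.N867.AS.CoreAbs
import Pool.Agent.N867.AS.IdealLemma

/-!
# The rank core for Artin–Schreier curves `y^p - y = ∏ F_i`
-/

set_option autoImplicit false
set_option linter.unusedSectionVars false

namespace Pool.Agent.N867.AS

namespace Core

open Polynomial WithZero Pool.Agent.N867.AS.Frame ASR Root

/-! ### extension of scalars -/

section ext

variable {κ : Type} [Field κ]

/-- `κ[t][x] → κ(t)[x]` -/
noncomputable def toK (κ : Type) [Field κ] : κ[X][X] →+* (RatFunc κ)[X] :=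
  mapRingHom (algebraMap κ[X] (RatFunc κ))

theorem toK_inj : Function.Injective (toK κ) :=
  map_injective _ (RatFunc.algebraMap_injective κ)

/-- the map of Artin–Schreier rings -/
noncomputable def jA (p : ℕ) (f : κ[X][X]) : AS p f →+* AS p (toK κ f) := asMap p (toK κ) f

variable {p : ℕ} {f : κ[X][X]}

theorem jA_inj (hp : 1 < p) : Function.Injective (jA p f) := by
  rw [injective_iff_map_eq_zero]
  intro x hx
  obtain ⟨P, hP, rfl⟩ := exists_rep hp x
  rw [jA, asMap_mk] at hx
  have h1 := rep_unique hp (lt_of_le_of_lt natDegree_map_le hP) hx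
  rw [Polynomial.map_eq_zero_iff toK_inj] at h1
  rw [h1, map_zero]

theorem jA_cst (c : κ[X]) : jA p f (cst p f c) =
    AdjoinRoot.of (Phi p (toK κ f)) (C (algebraMap κ[X] (RatFunc κ) c)) := by
  rw [jA, cst, RingHom.comp_apply, asMap_of, toK, coe_mapRingHom, map_C]

theorem cst_ne_zero (hp : 1 < p) {c : κ[X]} (hc : c ≠ 0) : cst p f c ≠ 0 := by
  intro h0
  have h3 : AdjoinRoot.mk (Phi p f) (C (C c)) = 0 := h0
  have h4 := rep_unique hp (by rw [natDegree_C]; omega) h3
  rw [C_eq_zero, C_eq_zero] at h4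
  exact hc h4

/-- elements with a denominator -/
def Den (p : ℕ) (f : κ[X][X]) (u : AS p (toK κ f)) : Prop :=
  ∃ s : κ[X], s ≠ 0 ∧ ∃ x : AS p f, jA p f (cst p f s) * u = jA p f x

theorem Den.add {u v : AS p (toK κ f)} (hu : Den p f u) (hv : Den p f v) : Den p f (u + v) := by
  obtain ⟨s, hs, x, hx⟩ := hu
  obtain ⟨t, ht, y, hy⟩ := hv
  refine ⟨s * t, mul_ne_zero hs ht, cst p f t * x + cst p f s * y, ?_⟩
  rw [map_mul, map_mul, map_add, map_mul, map_mul, ← hx, ← hy]
  ring

theorem Den.mul {u v : AS p (toK κ f)} (hu : Den p f u) (hv : Den p f v) : Den p f (u * v) := by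
  obtain ⟨s, hs, x, hx⟩ := hu
  obtain ⟨t, ht, y, hy⟩ := hv
  refine ⟨s * t, mul_ne_zero hs ht, x * y, ?_⟩
  rw [map_mul, map_mul, map_mul, ← hx, ← hy]
  ring

theorem Den.of_mem (x : AS p f) : Den p f (jA p f x) :=
  ⟨1, one_ne_zero, x, by rw [map_one, map_one, one_mul]⟩

theorem Den.const (c : RatFunc κ) : Den p f (AdjoinRoot.of (Phi p (toK κ f)) (C c)) := by
  refine ⟨c.denom, c.denom_ne_zero, cst p f c.num, ?_⟩
  rw [jA_cst, jA_cst, ← map_mul, ← C_mul]
  congr 2
  have h1 := RatFunc.num_div_denom c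
  have h2 : algebraMap κ[X] (RatFunc κ) c.denom ≠ 0 := by
    rw [Ne, map_eq_zero_iff _ (RatFunc.algebraMap_injective κ)]
    exact c.denom_ne_zero
  rw [div_eq_iff h2] at h1
  rw [h1, mul_comm]

theorem den (u : AS p (toK κ f)) : Den p f u := by
  have hX : Den p f (AdjoinRoot.of (Phi p (toK κ f)) X) := by
    have h1 : AdjoinRoot.of (Phi p (toK κ f)) X = jA p f (AdjoinRoot.of (Phi p f) X) := by
      rw [jA, asMap_of, toK, coe_mapRingHom, map_X]
    rw [h1]
    exact Den.of_mem _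
  have hone : Den p f (1 : AS p (toK κ f)) := by
    have := Den.of_mem (p := p) (f := f) 1
    rwa [map_one] at this
  have hpow : ∀ {u : AS p (toK κ f)}, Den p f u → ∀ n : ℕ, Den p f (u ^ n) := by
    intro u hu n
    induction n with
    | zero => rwa [pow_zero]
    | succ n ih => rw [pow_succ]; exact ih.mul hu
  have hB : ∀ c : (RatFunc κ)[X], Den p f (AdjoinRoot.of (Phi p (toK κ f)) c) := by
    intro c
    induction c using Polynomial.induction_on' with
    | add a b ha hb => rw [map_add]; exact ha.add hb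
    | monomial n a =>
      rw [← C_mul_X_pow_eq_monomial, map_mul, map_pow]
      exact (Den.const a).mul (hpow hX n)
  obtain ⟨P, rfl⟩ := AdjoinRoot.mk_surjective u
  induction P using Polynomial.induction_on' with
  | add a b ha hb => rw [map_add]; exact ha.add hb
  | monomial n a =>
    rw [← C_mul_X_pow_eq_monomial, map_mul, map_pow]
    refine (hB a).mul (hpow ?_ n)
    have h1 : AdjoinRoot.mk (Phi p (toK κ f)) X = jA p f (yy p f) := by
      rw [jA, asMap_yy]
      rfl
    rw [h1]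
    exact Den.of_mem _

theorem exists_prim_den (hp : p.Prime) (hf : f.Monic) (hfN : ¬ p ∣ f.natDegree)
    [IsDomain (AS p f)] [IsDomain (AS p (toK κ f))] (u : AS p (toK κ f)) (hu : u ≠ 0) :
    ∃ s s' : κ[X], s ≠ 0 ∧ s' ≠ 0 ∧ ∃ x : AS p f, Prim x ∧
      jA p f (cst p f s) * u = jA p f (cst p f s' * x) := by
  obtain ⟨s, hs, x, hx⟩ := den u
  have hx0 : x ≠ 0 := by
    rintro rfl
    rw [map_zero, mul_eq_zero] at hx
    rcases hx with hx | hx
    · rw [map_eq_zero_iff _ (jA_inj hp.one_lt)] at hx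
      exact cst_ne_zero hp.one_lt hs hx
    · exact hu hx
  obtain ⟨c, hc, x₀, hx₀, hprim⟩ := exists_prim hp hf hfN x hx0
  exact ⟨s, c, hs, hc, x₀, hprim, by rw [hx, hx₀]⟩

end ext

/-! ### products over the prime field -/

section prime

variable {R : Type*} [CommRing R] {p : ℕ}

theorem prod_sub_aux [Fact p.Prime] : (X ^ p - X : (ZMod p)[X]) = ∏ j : Fin p, (X - C ((j : ℕ) : ZMod p)) := by
  have hp := (Fact.out : p.Prime)
  have h1 : (X ^ p - X : (ZMod p)[X]) = ∏ a : ZMod p, (X - C a) := by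
    have h2 := FiniteField.roots_X_pow_card_sub_X (ZMod p)
    rw [ZMod.card] at h2
    have h3 : (X ^ p - X : (ZMod p)[X]).Monic := by
      have := Phi_monic (B := ZMod p) hp.one_lt 0
      unfold Phi at this
      rwa [C_0, sub_zero] at this
    have h4 : Multiset.card (X ^ p - X : (ZMod p)[X]).roots = (X ^ p - X : (ZMod p)[X]).natDegree := by
      rw [h2, FiniteField.X_pow_card_sub_X_natDegree_eq _ hp.one_lt]
      have : Multiset.card (Finset.univ : Finset (ZMod p)).val = Fintype.card (ZMod p) := rfl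
      rw [this, ZMod.card]
    have h5 := prod_multiset_X_sub_C_of_monic_of_roots_card_eq h3 h4
    rw [h2] at h5
    exact h5.symm
  rw [h1]
  symm
  refine Fintype.prod_bijective (fun j : Fin p => ((j : ℕ) : ZMod p)) ?_ _ _ (fun _ => rfl)
  rw [Fintype.bijective_iff_injective_and_card]
  constructor
  · intro i j hij
    have h6 := (ZMod.natCast_eq_natCast_iff' _ _ _).1 hij
    rw [Nat.mod_eq_of_lt i.2, Nat.mod_eq_of_lt j.2] at h6
    exact Fin.ext h6
  · rw [Fintype.card_fin, ZMod.card]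

theorem prod_sub (hp : p.Prime) [CharP R p] (y : R) :
    ∏ j : Fin p, (y - ((j : ℕ) : R)) = y ^ p - y := by
  have : Fact p.Prime := ⟨hp⟩
  have h1 := congrArg (eval₂ (ZMod.castHom (dvd_refl p) R) y) (prod_sub_aux (p := p))
  rw [eval₂_sub, eval₂_X_pow, eval₂_X, eval₂_finsetProd] at h1
  rw [h1]
  refine Finset.prod_congr rfl fun j _ => ?_
  rw [eval₂_sub, eval₂_X, eval₂_C, map_natCast]

theorem natCast_pow (hp : p.Prime) [CharP R p] (n : ℕ) : (n : R) ^ p = n := by
  have : Fact p.Prime := ⟨hp⟩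
  have h1 : ((n : ZMod p)) ^ p = n := ZMod.pow_card _
  have h2 := congrArg (ZMod.castHom (dvd_refl p) R) h1
  rwa [map_pow, map_natCast] at h2

theorem sub_pow_ne {M : Type*} [Field M] (hp : p.Prime) [CharP M p] {i j : Fin p} (hij : i ≠ j) :
    ((i : ℕ) : M) - ((j : ℕ) : M) ≠ 0 := by
  intro h
  rw [sub_eq_zero] at h
  have h1 := (CharP.natCast_eq_natCast M p).1 h
  rw [Nat.ModEq, Nat.mod_eq_of_lt i.2, Nat.mod_eq_of_lt j.2] at h1
  exact hij (Fin.ext h1)

theorem isUnit_sub (hp : p.Prime) [CharP R p] {i j : Fin p} (hij : i ≠ j) :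
    IsUnit (((i : ℕ) : R) - ((j : ℕ) : R)) := by
  have : Fact p.Prime := ⟨hp⟩
  have h1 : IsUnit (((i : ℕ) : ZMod p) - ((j : ℕ) : ZMod p)) := (sub_pow_ne hp hij).isUnit
  have h2 := h1.map (ZMod.castHom (dvd_refl p) R)
  rwa [map_sub, map_natCast, map_natCast] at h2

theorem val_const {M Γ : Type*} [Field M] [LinearOrderedCommGroupWithZero Γ] (w : Valuation M Γ)
    (hp : p.Prime) [CharP M p] {i j : Fin p} (hij : i ≠ j) :
    w (((i : ℕ) : M) - ((j : ℕ) : M)) = 1 := by
  have : Fact p.Prime := ⟨hp⟩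
  have h0 := sub_pow_ne (M := M) hp hij
  have h1 : (((i : ℕ) : M) - ((j : ℕ) : M)) ^ p = ((i : ℕ) : M) - ((j : ℕ) : M) := by
    rw [sub_pow_char, natCast_pow hp, natCast_pow hp]
  have h2 : (((i : ℕ) : M) - ((j : ℕ) : M)) ^ (p - 1) = 1 := by
    refine mul_right_cancel₀ h0 ?_
    rw [← pow_succ, Nat.sub_add_cancel hp.one_le, h1, one_mul]
  have h3 := congrArg w h2
  rw [map_pow, map_one] at h3
  have := hp.two_le
  exact (pow_eq_one_iff.1 h3).resolve_right (by omega)

end prime

end Core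

end Pool.Agent.N867.AS
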