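import Pool.Agent.N867.AS.Teich

/-!
# Counting points on `y^p - y = f`
-/

set_option autoImplicit false
set_option linter.unusedSectionVars false

open Polynomial

namespace Pool.Agent.N867.AS

namespace Res

variable {p : ℕ} [hp : Fact p.Prime]

variable (p) in
/-- solutions of `x^Q = x` in the residue field -/
noncomputable def FQ (Q : ℕ) : Finset (k p) := by
  classical exact (X ^ Q - X : (k p)[X]).roots.toFinset

theorem mem_FQ {Q : ℕ} (hQ : 1 < Q) {z : k p} : z ∈ FQ p Q ↔ z ^ Q = z := by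
  classical
  unfold FQ
  rw [Multiset.mem_toFinset, mem_roots (FiniteField.X_pow_card_sub_X_ne_zero _ hQ)]
  simp [sub_eq_zero]

theorem tel (y : k p) (L : ℕ) :
    ∑ j ∈ Finset.range L, (y ^ p - y) ^ p ^ j = y ^ p ^ L - y := by
  induction L with
  | zero => simp
  | succ L ih =>
    rw [Finset.sum_range_succ, ih, sub_pow_char_pow]
    rw [← pow_mul, ← pow_succ']
    ring

/-- number of solutions of `y^p - y = v` -/
theorem ycount {L : ℕ} (hL : L ≠ 0) (v : k p) {n : ℕ}
    (hn : (n : k p) = ∑ j ∈ Finset.range L, v ^ p ^ j) {ζ : PadicAlgCl p}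
    (hζ : IsPrimitiveRoot ζ p) [DecidableEq (k p)] :
    (((FQ p (p ^ L)).filter fun y => y ^ p - y = v).card : PadicAlgCl p) =
      1 + ∑ a : Fin (p - 1), ζ ^ ((a + 1 : ℕ) * n) := by
  classical
  have hQ := one_lt_Q (p := p) hL
  have hp1 : p - 1 + 1 = p := Nat.succ_pred_prime hp.1
  have hsum : 1 + ∑ a : Fin (p - 1), ζ ^ ((a + 1 : ℕ) * n) =
      ∑ a ∈ Finset.range p, (ζ ^ n) ^ a := by
    have hr : Finset.range p = Finset.range (p - 1 + 1) := by rw [hp1]
    rw [hr, Finset.sum_range_succ', pow_zero, add_comm]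
    congr 1
    rw [Finset.sum_range]
    refine Finset.sum_congr rfl fun a _ => ?_
    rw [← pow_mul, mul_comm]
  rw [hsum]
  by_cases h0 : ∑ j ∈ Finset.range L, v ^ p ^ j = 0
  · have h1 : (p : ℕ) ∣ n := by
      rw [← CharP.cast_eq_zero_iff (k p) p, hn, h0]
    have h2 : ζ ^ n = 1 := by
      obtain ⟨c, rfl⟩ := h1
      rw [pow_mul, hζ.pow_eq_one, one_pow]
    rw [h2]
    simp only [one_pow, Finset.sum_const, Finset.card_range, nsmul_eq_mul, mul_one]
    congr 1
    have h3 : (FQ p (p ^ L)).filter (fun y => y ^ p - y = v) =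
        (X ^ p - X - C v : (k p)[X]).roots.toFinset := by
      ext y
      have hne : (X ^ p - X - C v : (k p)[X]) ≠ 0 := by
        intro h
        have := congrArg (fun P => P.coeff p) h
        simp [Polynomial.coeff_X_pow, Polynomial.coeff_X, Polynomial.coeff_C, hp.1.ne_one.symm,
          hp.1.ne_zero] at this
      rw [Finset.mem_filter, mem_FQ hQ, Multiset.mem_toFinset, mem_roots hne]
      simp only [IsRoot.def, eval_sub, eval_pow, eval_X, eval_C, sub_eq_zero]
      constructor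
      · exact fun h => h.2
      · intro h
        refine ⟨?_, h⟩
        have h4 := tel y L
        rw [h, h0] at h4
        exact (sub_eq_zero.1 h4.symm)
    rw [h3]
    have hdeg : (X ^ p - X - C v : (k p)[X]).natDegree = p := by
      rw [Polynomial.natDegree_sub_C, FiniteField.X_pow_card_sub_X_natDegree_eq _ hp.1.one_lt]
    have hsep : (X ^ p - X - C v : (k p)[X]).Separable := by
      rw [Polynomial.separable_def]
      refine ⟨0, -1, ?_⟩
      rw [derivative_sub, derivative_sub, derivative_X_pow, derivative_X, derivative_C,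
        CharP.cast_eq_zero]
      simp
    rw [Multiset.toFinset_card_of_nodup (Polynomial.nodup_roots hsep),
      Polynomial.splits_iff_card_roots.1 (IsAlgClosed.splits _), hdeg]
  · have h1 : ¬ (p : ℕ) ∣ n := by
      intro h
      rw [← CharP.cast_eq_zero_iff (k p) p, hn] at h
      exact h0 h
    have h2 : (FQ p (p ^ L)).filter (fun y => y ^ p - y = v) = ∅ := by
      rw [Finset.filter_eq_empty_iff]
      intro y hy h
      rw [mem_FQ hQ] at hy
      have h4 := tel y L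
      rw [h, hy, sub_self] at h4
      exact h0 h4
    rw [h2, Finset.card_empty, Nat.cast_zero]
    have h3 : ζ ^ n ≠ 1 := fun h => h1 (hζ.dvd_of_pow_eq_one n h)
    have h4 := geom_sum_mul (ζ ^ n) p
    rw [← pow_mul, mul_comm n p, pow_mul, hζ.pow_eq_one, one_pow, sub_self] at h4
    exact ((mul_eq_zero.1 h4).resolve_right (sub_ne_zero.2 h3)).symm

variable {σ : Type} [Fintype σ] [DecidableEq σ]

/-- number of points of `y^p - y = f` with coordinates in `{x^Q = x}` -/
noncomputable def npts (f : MvPolynomial σ (k p)) (Q : ℕ) : ℕ :=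
  Nat.card {v : (σ → k p) × k p // (∀ i, v.1 i ^ Q = v.1 i) ∧ v.2 ^ Q = v.2 ∧
    v.2 ^ p - v.2 = MvPolynomial.eval v.1 f}

theorem npts_eq (f : MvPolynomial σ (k p)) {Q : ℕ} (hQ : 1 < Q) [DecidableEq (k p)] :
    npts f Q = ∑ x ∈ Fintype.piFinset (fun _ : σ => FQ p Q),
      ((FQ p Q).filter fun y => y ^ p - y = MvPolynomial.eval x f).card := by
  classical
  unfold npts
  rw [Nat.subtype_card (((Fintype.piFinset (fun _ : σ => FQ p Q)) ×ˢ (FQ p Q)).filter
    fun v => v.2 ^ p - v.2 = MvPolynomial.eval v.1 f)]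
  · rw [Finset.card_filter, Finset.sum_product]
    refine Finset.sum_congr rfl fun x _ => ?_
    rw [Finset.card_filter]
  · intro v
    rw [Finset.mem_filter, Finset.mem_product, Fintype.mem_piFinset, mem_FQ hQ]
    simp only [mem_FQ hQ]
    tauto

theorem sum_red {L : ℕ} (hL : L ≠ 0) {M : Type*} [AddCommMonoid M] (F : (σ → k p) → M) :
    ∑ x ∈ Fintype.piFinset (fun _ : σ => FQ p (p ^ L)), F x =
      ∑ z ∈ Fintype.piFinset (fun _ : σ => MU p (p ^ L)), F (fun i => red p (z i)) := by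
  classical
  have hQ := one_lt_Q (p := p) hL
  symm
  refine Finset.sum_bij (fun z _ i => red p (z i)) ?_ ?_ ?_ ?_
  · intro z hz
    rw [Fintype.mem_piFinset] at hz ⊢
    intro i
    have h1 := (mem_MU hQ).1 (hz i)
    rw [mem_FQ hQ, ← red_pow (norm_le_one_of_pow hQ h1), h1]
  · intro z hz z' hz' h
    rw [Fintype.mem_piFinset] at hz hz'
    funext i
    have h1 := (mem_MU hQ).1 (hz i)
    have h1' := (mem_MU hQ).1 (hz' i)
    exact eq_of_red hL h1 h1' ((red_eq (norm_le_one_of_pow hQ h1) (norm_le_one_of_pow hQ h1')).1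
      (congrFun h i))
  · intro x hx
    rw [Fintype.mem_piFinset] at hx
    have h1 : ∀ i, ∃ z : PadicAlgCl p, z ^ p ^ L = z ∧ red p z = x i :=
      fun i => exists_lift hL ((mem_FQ hQ).1 (hx i))
    choose z hz1 hz2 using h1
    refine ⟨z, ?_, funext hz2⟩
    rw [Fintype.mem_piFinset]
    exact fun i => (mem_MU hQ).2 (hz1 i)
  · intro z _
    rfl

theorem prod_close {ι : Type*} (S : Finset ι) {a b : ι → PadicAlgCl p} {ε : ℝ} (hε : 0 ≤ ε)
    (ha : ∀ i ∈ S, ‖a i‖ ≤ 1) (hb : ∀ i ∈ S, ‖b i‖ ≤ 1) (hab : ∀ i ∈ S, ‖a i - b i‖ ≤ ε) :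
    ‖∏ i ∈ S, a i - ∏ i ∈ S, b i‖ ≤ ε := by
  classical
  induction S using Finset.induction_on with
  | empty => simpa using hε
  | insert c S hc ih =>
    have ha' : ∀ i ∈ S, ‖a i‖ ≤ 1 := fun i hi => ha i (Finset.mem_insert_of_mem hi)
    have hb' : ∀ i ∈ S, ‖b i‖ ≤ 1 := fun i hi => hb i (Finset.mem_insert_of_mem hi)
    have ih' := ih ha' hb' fun i hi => hab i (Finset.mem_insert_of_mem hi)
    rw [Finset.prod_insert hc, Finset.prod_insert hc]
    have h1 : a c * ∏ i ∈ S, a i - b c * ∏ i ∈ S, b i =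
        a c * (∏ i ∈ S, a i - ∏ i ∈ S, b i) + (a c - b c) * ∏ i ∈ S, b i := by ring
    rw [h1]
    refine (IsUltrametricDist.norm_add_le_max _ _).trans (max_le ?_ ?_)
    · rw [norm_mul]
      calc _ ≤ 1 * ε := mul_le_mul (ha c (Finset.mem_insert_self c S)) ih' (norm_nonneg _)
            zero_le_one
        _ = ε := one_mul ε
    · rw [norm_mul]
      calc _ ≤ ε * 1 := by
            refine mul_le_mul (hab c (Finset.mem_insert_self c S)) ?_ (norm_nonneg _) hε
            rw [norm_prod]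
            exact Finset.prod_le_one (fun _ _ => norm_nonneg _) hb'
        _ = ε := mul_one ε

theorem hE (n : ℕ) : ‖PowerSeries.coeff n (AH p (1 : PadicAlgCl p))‖ ≤ 1 := by
  have h1 : AH p (1 : PadicAlgCl p) =
      PowerSeries.map (algebraMap ℚ_[p] (PadicAlgCl p)) (AH p (1 : ℚ_[p])) := by
    rw [AH_map, map_one]
  rw [h1, PowerSeries.coeff_map]
  rw [PadicAlgCl.norm_extends]
  exact Integral.norm_coeff_AH_le p n

theorem norm_Theta_le {N : ℕ} {γ z : PadicAlgCl p} (hγ : ‖γ‖ ≤ 1) (hz : ‖z‖ ≤ 1) :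
    ‖(Split.Theta p N γ).eval z‖ ≤ 1 := by
  rw [Split.Theta, Polynomial.eval_finsetSum]
  refine IsUltrametricDist.norm_sum_le_of_forall_le_of_nonneg zero_le_one fun i _ => ?_
  rw [Polynomial.eval_monomial, norm_mul, norm_mul, norm_pow, norm_pow]
  exact mul_le_one₀ (mul_le_one₀ (hE i) (by positivity) (pow_le_one₀ (norm_nonneg _) hγ))
    (by positivity) (pow_le_one₀ (norm_nonneg _) hz)

/-- data of lifts -/
structure Lifts (p : ℕ) [Fact p.Prime] {σ : Type} (f : MvPolynomial σ (k p)) (s : ℕ) where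
  c : (σ →₀ ℕ) → PadicAlgCl p
  hc : ∀ μ, c μ ^ p ^ s = c μ
  hred : ∀ μ, red p (c μ) = f.coeff μ
  a : Fin (p - 1) → PadicAlgCl p
  ha : ∀ i, a i ^ p = a i
  hared : ∀ i, red p (a i) = ((i : ℕ) + 1 : ℕ)

theorem exists_lifts {f : MvPolynomial σ (k p)} {s : ℕ} (hs : s ≠ 0)
    (hf : ∀ μ, f.coeff μ ^ p ^ s = f.coeff μ) : Nonempty (Lifts p f s) := by
  have h1 : ∀ μ, ∃ z : PadicAlgCl p, z ^ p ^ s = z ∧ red p z = f.coeff μ :=
    fun μ => exists_lift hs (hf μ)
  have h2 : ∀ i : Fin (p - 1), ∃ z : PadicAlgCl p, z ^ p ^ 1 = z ∧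
      red p z = (((i : ℕ) + 1 : ℕ) : k p) := by
    intro i
    refine exists_lift one_ne_zero ?_
    rw [pow_one]
    exact map_natCast (frobenius (k p) p) _
  choose c hc hc' using h1
  choose a ha ha' using h2
  exact ⟨⟨c, hc, hc', a, fun i => by simpa using ha i, ha'⟩⟩

theorem count_close {f : MvPolynomial σ (k p)} {s : ℕ} (D : Lifts p f s) (hs : s ≠ 0) {m : ℕ}
    (hm : m ≠ 0) {N : ℕ} {γ ζ : PadicAlgCl p} (hζ : IsPrimitiveRoot ζ p) (hγ0 : γ ≠ 0)
    (hγ : ‖γ‖ ≤ 1) (hγζ : (Split.Theta p N γ).eval 1 = ζ) :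
    ‖(npts f (p ^ (s * m)) : PadicAlgCl p) - ((p ^ (s * m) : ℕ) : PadicAlgCl p) ^ Fintype.card σ -
      ∑ a : Fin (p - 1), ∑ x ∈ Fintype.piFinset (fun _ : σ => MU p (p ^ (s * m))),
        ∏ μ ∈ f.support, ∏ j ∈ Finset.range (s * m),
          (Split.Theta p N γ).eval ((D.a a * D.c μ * ∏ i, x i ^ μ i) ^ p ^ j)‖ ≤ ‖γ‖ ^ N := by
  classical
  obtain ⟨L, hLdef⟩ : ∃ L, L = s * m := ⟨_, rfl⟩
  rw [← hLdef]
  have hL : L ≠ 0 := by rw [hLdef]; exact mul_ne_zero hs hm
  have hQ := one_lt_Q (p := p) hL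
  have hγN : 0 ≤ ‖γ‖ ^ N := by positivity
  have hcQ : ∀ μ, D.c μ ^ p ^ L = D.c μ := by
    intro μ
    rw [hLdef, pow_mul p s m]
    have : ∀ r, D.c μ ^ (p ^ s) ^ r = D.c μ := by
      intro r
      induction r with
      | zero => simp
      | succ r ih => rw [pow_succ, pow_mul, ih, D.hc]
    exact this m
  have haQ : ∀ i, D.a i ^ p ^ L = D.a i := by
    intro i
    have : ∀ r, D.a i ^ p ^ r = D.a i := by
      intro r
      induction r with
      | zero => simp
      | succ r ih => rw [pow_succ, pow_mul, ih, D.ha]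
    exact this L
  rw [npts_eq f hQ, sum_red hL (fun x => ((FQ p (p ^ L)).filter
    fun y => y ^ p - y = MvPolynomial.eval x f).card)]
  push_cast
  have hcard : ((p : PadicAlgCl p) ^ L) ^ Fintype.card σ =
      ∑ x ∈ Fintype.piFinset (fun _ : σ => MU p (p ^ L)), 1 := by
    rw [Finset.sum_const, Fintype.card_piFinset, Finset.prod_const, Finset.card_univ,
      card_MU hQ, nsmul_eq_mul, mul_one]
    push_cast
    rfl
  rw [hcard, Finset.sum_comm, ← Finset.sum_sub_distrib, ← Finset.sum_sub_distrib]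
  refine IsUltrametricDist.norm_sum_le_of_forall_le_of_nonneg hγN fun x hx => ?_
  rw [Fintype.mem_piFinset] at hx
  have hxQ : ∀ i, x i ^ p ^ L = x i := fun i => (mem_MU hQ).1 (hx i)
  have hx1 : ∀ i, ‖x i‖ ≤ 1 := fun i => norm_le_one_of_pow hQ (hxQ i)
  obtain ⟨u, hu⟩ : ∃ u : Fin (p - 1) → (σ →₀ ℕ) → PadicAlgCl p,
    ∀ a μ, u a μ = D.a a * D.c μ * ∏ i, x i ^ μ i := ⟨_, fun _ _ => rfl⟩
  have huQ : ∀ a μ, u a μ ^ p ^ L = u a μ := by
    intro a μ
    rw [hu, mul_pow, mul_pow, haQ, hcQ, ← Finset.prod_pow]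
    congr 1
    refine Finset.prod_congr rfl fun i _ => ?_
    rw [← pow_mul, mul_comm, pow_mul, hxQ]
  have hu1 : ∀ a μ, ‖u a μ‖ ≤ 1 := fun a μ => norm_le_one_of_pow hQ (huQ a μ)
  -- integer approximations
  have happ : ∀ a μ, ∃ t : ℕ, ‖(∑ j ∈ Finset.range L, u a μ ^ p ^ j) - t‖ < 1 ∧
      ‖∏ j ∈ Finset.range L, (Split.Theta p N γ).eval (u a μ ^ p ^ j) - ζ ^ t‖ ≤ ‖γ‖ ^ N := by
    intro a μ
    obtain ⟨δ, hδ, h⟩ := Split.split_close hE hγ0 hγ hγζ (huQ a μ) (hu1 a μ)
    obtain ⟨t, ht⟩ := trace_approx hL (huQ a μ) (lt_min hδ one_pos)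
    exact ⟨t, lt_of_lt_of_le ht (min_le_right _ _), h t (lt_of_lt_of_le ht (min_le_left _ _))⟩
  choose t ht1 ht2 using happ
  have hζ1 : ‖ζ‖ = 1 := by
    have h3 : ‖ζ‖ ^ p = 1 := by rw [← norm_pow, hζ.pow_eq_one, norm_one]
    exact (pow_eq_one_iff_of_nonneg (norm_nonneg _) hp.1.ne_zero).1 h3
  -- the trace of `f`
  obtain ⟨v, hv⟩ : ∃ v, v = MvPolynomial.eval (fun i => red p (x i)) f := ⟨_, rfl⟩
  obtain ⟨T, hT⟩ : ∃ T, T = ∑ j ∈ Finset.range L, v ^ p ^ j := ⟨_, rfl⟩
  have hvsum : v = ∑ μ ∈ f.support, f.coeff μ * ∏ i, red p (x i) ^ μ i := by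
    rw [hv, MvPolynomial.eval_eq']
  have hvQ : v ^ p ^ L = v := by
    rw [hvsum, sum_pow_char_pow]
    refine Finset.sum_congr rfl fun μ _ => ?_
    rw [mul_pow, ← Finset.prod_pow, ← D.hred μ, ← red_pow (norm_le_one_of_pow hQ (hcQ μ)), hcQ]
    congr 1
    refine Finset.prod_congr rfl fun i _ => ?_
    rw [← pow_mul, mul_comm, pow_mul, ← red_pow (hx1 i), hxQ]
  have hTp : T ^ p = T := by
    rw [hT, ← frobenius_def, map_sum]
    have h5 := sum_shift (p := p) hvQ 1
    rw [pow_one] at h5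
    rw [← h5]
    refine Finset.sum_congr rfl fun j _ => ?_
    rw [frobenius_def, ← pow_mul, ← pow_mul, mul_comm]
  obtain ⟨n, hn⟩ := exists_nat_of_pow hTp
  have hyc := ycount hL v (by rw [hn, hT]) hζ (n := n)
  rw [← hv, hyc]
  have hgoal : 1 + ∑ a : Fin (p - 1), ζ ^ ((a + 1 : ℕ) * n) - 1 -
      ∑ a : Fin (p - 1), ∏ μ ∈ f.support, ∏ j ∈ Finset.range L,
        (Split.Theta p N γ).eval ((D.a a * D.c μ * ∏ i, x i ^ μ i) ^ p ^ j) =
      ∑ a : Fin (p - 1), (ζ ^ ((a + 1 : ℕ) * n) - ∏ μ ∈ f.support, ∏ j ∈ Finset.range L,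
        (Split.Theta p N γ).eval (u a μ ^ p ^ j)) := by
    rw [Finset.sum_sub_distrib]
    simp only [hu]
    ring
  rw [hgoal]
  refine IsUltrametricDist.norm_sum_le_of_forall_le_of_nonneg hγN fun a _ => ?_
  have hkey : ζ ^ ((a + 1 : ℕ) * n) = ∏ μ ∈ f.support, ζ ^ t a μ := by
    rw [Finset.prod_pow_eq_pow_sum]
    have hmod : ((((a : ℕ) + 1) * n : ℕ) : k p) = ((∑ μ ∈ f.support, t a μ : ℕ) : k p) := by
      push_cast
      have h6 : ∀ μ ∈ f.support, (t a μ : k p) =
          ∑ j ∈ Finset.range L, (((a : ℕ) + 1 : ℕ) * f.coeff μ *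
            ∏ i, red p (x i) ^ μ i) ^ p ^ j := by
        intro μ _
        have h7 : red p (u a μ) = (((a : ℕ) + 1 : ℕ) : k p) * f.coeff μ *
            ∏ i, red p (x i) ^ μ i := by
          have hprod : ‖∏ i, x i ^ μ i‖ ≤ 1 := by
            rw [norm_prod]
            refine Finset.prod_le_one (fun _ _ => norm_nonneg _) fun i _ => ?_
            rw [norm_pow]
            exact pow_le_one₀ (norm_nonneg _) (hx1 i)
          have hna := norm_le_one_of_pow hQ (haQ a)
          have hnc := norm_le_one_of_pow hQ (hcQ μ)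
          have hnac : ‖D.a a * D.c μ‖ ≤ 1 := by
            rw [norm_mul]
            exact mul_le_one₀ hna (norm_nonneg _) hnc
          rw [hu, red_mul hnac hprod, red_mul hna hnc, D.hared, D.hred, red_prod]
          · congr 1
            exact Finset.prod_congr rfl fun i _ => red_pow (hx1 i) _
          · intro i _
            rw [norm_pow]
            exact pow_le_one₀ (norm_nonneg _) (hx1 i)
        rw [← h7]
        have h8 : red p (∑ j ∈ Finset.range L, u a μ ^ p ^ j) = (t a μ : k p) := by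
          rw [← red_natCast]
          refine (red_eq ?_ (IsUltrametricDist.norm_natCast_le_one _ _)).2 (ht1 a μ)
          refine IsUltrametricDist.norm_sum_le_of_forall_le_of_nonneg zero_le_one fun j _ => ?_
          rw [norm_pow]
          exact pow_le_one₀ (norm_nonneg _) (hu1 a μ)
        rw [← h8, red_sum]
        · exact Finset.sum_congr rfl fun j _ => red_pow (hu1 a μ) _
        · intro j _
          rw [norm_pow]
          exact pow_le_one₀ (norm_nonneg _) (hu1 a μ)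
      rw [Finset.sum_congr rfl h6, Finset.sum_comm, hn, hT, Finset.mul_sum]
      refine Finset.sum_congr rfl fun j _ => ?_
      rw [← sum_pow_char_pow, hvsum]
      simp only [mul_assoc]
      rw [← Finset.mul_sum, mul_pow]
      congr 1
      have h9 : ∀ r, (((a : ℕ) + 1 : ℕ) : k p) ^ p ^ r = (((a : ℕ) + 1 : ℕ) : k p) := by
        intro r
        have := map_natCast (iterateFrobenius (k p) p r) ((a : ℕ) + 1)
        rwa [iterateFrobenius_def] at this
      rw [h9]
      push_cast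
      rfl
    have hmod2 := (CharP.natCast_eq_natCast (k p) p).1 hmod
    rw [← pow_mod_orderOf ζ, ← hζ.eq_orderOf, ← pow_mod_orderOf ζ (∑ μ ∈ f.support, t a μ),
      ← hζ.eq_orderOf]
    congr 1
  rw [hkey, norm_sub_rev]
  refine prod_close f.support hγN (fun μ _ => ?_) (fun μ _ => ?_) fun μ _ => ht2 a μ
  · rw [norm_prod]
    refine Finset.prod_le_one (fun _ _ => norm_nonneg _) fun j _ => ?_
    refine norm_Theta_le hγ ?_
    rw [norm_pow]
    exact pow_le_one₀ (norm_nonneg _) (hu1 a μ)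
  · rw [norm_pow, hζ1, one_pow]

end Res

end Pool.Agent.N867.AS
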