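import Mathlib

/-!
# Determinants of weighted cyclic matrices
-/

set_option autoImplicit false

namespace Pool.Agent.N867.AS

namespace Cyc

open Matrix

variable {R : Type*} [CommRing R]

theorem cyc_det' {ι : Type*} [Fintype ι] [DecidableEq ι] (π : Equiv.Perm ι) (hπ : ∀ x, π x ≠ x)
    (x₀ : ι) (htr : ∀ x, ∃ n : ℕ, (π ^ n) x = x₀) (w : ι → R) (M : Matrix ι ι R)
    (hM : ∀ x y, M x y = (if x = y then (1 : R) else 0) - (if y = π x then w x else 0)) :
    M.det = 1 - ∏ x, w x := by
  have hsupp : π.support = Finset.univ := by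
    ext x
    simp [hπ x]
  have hcyc : π.IsCycle := by
    refine ⟨x₀, hπ x₀, fun y _ => ?_⟩
    obtain ⟨n, hn⟩ := htr y
    refine ⟨-(n : ℤ), ?_⟩
    rw [_root_.zpow_neg, zpow_natCast, Equiv.Perm.inv_eq_iff_eq, hn]
  have hsign := hcyc.sign
  rw [hsupp, Finset.card_univ] at hsign
  have hne1 : (π⁻¹ : Equiv.Perm ι) ≠ 1 := by
    intro h
    have h1 := inv_eq_one.1 h
    exact hπ x₀ (by rw [h1, Equiv.Perm.one_apply])
  rw [Matrix.det_apply,
    ← Finset.add_sum_erase _ _ (Finset.mem_univ (1 : Equiv.Perm ι)),
    ← Finset.add_sum_erase _ _ (Finset.mem_erase.2 ⟨hne1, Finset.mem_univ (π⁻¹)⟩)]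
  rw [Finset.sum_eq_zero, add_zero]
  · have h1 : ∏ i : ι, M ((1 : Equiv.Perm ι) i) i = 1 := by
      refine Finset.prod_eq_one fun i _ => ?_
      rw [hM, Equiv.Perm.one_apply, if_pos rfl, if_neg (fun h => hπ i h.symm),
        sub_zero]
    have h2 : ∏ i : ι, M (π⁻¹ i) i = (-1) ^ Fintype.card ι * ∏ i, w i := by
      have h3 : ∀ i : ι, M (π⁻¹ i) i = - w (π⁻¹ i) := by
        intro i
        obtain ⟨j, hj⟩ : ∃ j, j = π⁻¹ i := ⟨_, rfl⟩
        have hi : i = π j := by
          rw [hj]
          exact (Equiv.apply_symm_apply π i).symm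
        rw [← hj, hi, hM, if_neg (fun h => hπ j h.symm), if_pos rfl, zero_sub]
      rw [Finset.prod_congr rfl fun i _ => h3 i, Equiv.prod_comp (π⁻¹)
        (fun i => - w i), ← Finset.card_univ, ← Finset.prod_const, ← Finset.prod_mul_distrib]
      refine Finset.prod_congr rfl fun i _ => ?_
      ring
    rw [h1, h2, Equiv.Perm.sign_one, Equiv.Perm.sign_inv, hsign, one_smul,
      Units.smul_def, zsmul_eq_mul]
    push_cast
    have h4 : (-1 : R) ^ Fintype.card ι * (-1) ^ Fintype.card ι = 1 := by
      rw [← mul_pow]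
      simp
    linear_combination (-∏ x, w x) * h4
  · intro τ hτ
    rw [Finset.mem_erase, Finset.mem_erase] at hτ
    by_contra hcon
    have hprod : ∀ i, M (τ i) i ≠ 0 := by
      intro i hi
      apply hcon
      have h0 : ∏ j, M (τ j) j = 0 :=
        Finset.prod_eq_zero (f := fun j => M (τ j) j) (Finset.mem_univ i) hi
      rw [h0, smul_zero]
    have hcase : ∀ i, τ i = i ∨ i = π (τ i) := by
      intro i
      by_contra h
      push Not at h
      apply hprod i
      rw [hM, if_neg h.1, if_neg h.2, sub_zero]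
    -- some `i` is moved
    have hmv : ∃ i, i = π (τ i) := by
      by_contra h
      push Not at h
      apply hτ.2.1
      ext i
      rw [(hcase i).resolve_right (h i), Equiv.Perm.one_apply]
    obtain ⟨i₀, hi₀⟩ := hmv
    -- moving is inherited
    have hstep : ∀ z, z = π (τ z) → τ z = π (τ (τ z)) := by
      intro z hz
      refine (hcase _).resolve_left fun h => ?_
      have h1 : τ z = z := τ.injective h
      rw [h1] at hz
      exact hπ z hz.symm
    have hall : ∀ m : ℕ, ∀ z, (π ^ m) z = i₀ → z = π (τ z) := by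
      intro m
      induction m with
      | zero =>
        intro z hz
        rw [pow_zero, Equiv.Perm.one_apply] at hz
        rw [hz]
        exact hi₀
      | succ m ih =>
        intro z hz
        rw [pow_succ, Equiv.Perm.mul_apply] at hz
        have h1 := ih (π z) hz
        have h2 : z = τ (π z) := π.injective h1
        rw [h2]
        exact hstep _ h1
    apply hτ.1
    ext i
    have h5 : ∃ m : ℕ, (π ^ m) i = i₀ := by
      obtain ⟨n, hn⟩ := htr i
      obtain ⟨n', hn'⟩ := htr i₀
      have h6 : (π ^ (n' * (orderOf π - 1)) * π ^ n) i = i₀ := by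
        rw [Equiv.Perm.mul_apply, hn, ← hn', ← Equiv.Perm.mul_apply, ← pow_add]
        have h7 : n' * (orderOf π - 1) + n' = n' * orderOf π := by
          have := orderOf_pos π
          obtain ⟨c, hc⟩ : ∃ c, orderOf π = c + 1 := ⟨orderOf π - 1, by omega⟩
          rw [hc, Nat.add_sub_cancel]
          ring
        rw [h7, mul_comm, pow_mul, pow_orderOf_eq_one, one_pow, Equiv.Perm.one_apply]
      rw [← pow_add] at h6
      exact ⟨_, h6⟩
    obtain ⟨m, hm⟩ := h5
    have h6 := hall m i hm
    apply π.injective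
    rw [← h6]
    exact (Equiv.apply_symm_apply π i).symm

theorem cyc_det {s : ℕ} [NeZero s] (w : ZMod s → R) :
    (Matrix.of fun x y : ZMod s => (if x = y then (1 : R) else 0) -
      (if y = x + 1 then w x else 0)).det = 1 - ∏ x, w x := by
  by_cases hs : s = 1
  · subst hs
    rw [Matrix.det_unique]
    simp only [Matrix.of_apply, if_true]
    rw [if_pos (Subsingleton.elim _ _), Fintype.prod_unique]
  · have h1 : (1 : ZMod s) ≠ 0 := by
      have : Fact (1 < s) := ⟨by have := NeZero.ne s; omega⟩
      exact one_ne_zero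
    refine cyc_det' (R := R) (Equiv.addRight (1 : ZMod s)) (fun x => by simpa using h1) 0
      (fun x => ⟨(-x).val, by
        have h3 : ∀ n : ℕ, ((Equiv.addRight (1 : ZMod s)) ^ n) x = x + n := by
          intro n
          induction n with
          | zero => simp
          | succ n ih =>
            rw [pow_succ', Equiv.Perm.mul_apply, ih, Equiv.coe_addRight]
            push_cast
            ring
        rw [h3, ZMod.natCast_val, ZMod.cast_id', id_eq, add_neg_cancel]⟩) w _ fun x y => ?_
    rw [Matrix.of_apply, Equiv.coe_addRight]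

end Cyc

end Pool.Agent.N867.AS
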