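import Pool.Agent.N867.AS.Red
import Pool.Agent.N867.AS.Cyc

/-!
# Reduction of `det (1 - X A)`
-/

set_option autoImplicit false
set_option linter.unusedSectionVars false

namespace Pool.Agent.N867.AS

namespace RedS

open Res Polynomial

variable {p : ℕ} [hp : Fact p.Prime]

section

variable {ι : Type} [Fintype ι] [DecidableEq ι]

/-- the scale -/
noncomputable def sc (δ : ι → PadicAlgCl p) (y : ι) : PadicAlgCl p :=
  if 1 < ‖δ y‖ then δ y else 1

theorem one_le_sc (δ : ι → PadicAlgCl p) (y : ι) : 1 ≤ ‖sc δ y‖ := by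
  unfold sc
  split_ifs with h
  · exact h.le
  · rw [norm_one]

theorem sc_ne (δ : ι → PadicAlgCl p) (y : ι) : sc δ y ≠ 0 := by
  have h := one_le_sc δ y
  intro h0
  rw [h0, norm_zero] at h
  exact absurd h (not_le.2 one_pos)

theorem le_sc (δ : ι → PadicAlgCl p) (y : ι) : ‖δ y‖ ≤ ‖sc δ y‖ := by
  unfold sc
  split_ifs with h
  · exact le_rfl
  · rw [norm_one]
    exact not_lt.1 h

/-- the reduced matrix -/
noncomputable def Bbar (A : Matrix ι ι (PadicAlgCl p)) (α δ : ι → PadicAlgCl p) :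
    Matrix ι ι (k p)[X] :=
  Matrix.of fun x y => C (if x = y ∧ ¬ 1 < ‖δ y‖ then (1 : k p) else 0) -
    X * C (red p (α x * A x y / (α y * sc δ y)))

theorem red_det (A : Matrix ι ι (PadicAlgCl p)) (α δ : ι → PadicAlgCl p) (hα : ∀ x, α x ≠ 0)
    (hA : ∀ x y, ‖α x * A x y‖ ≤ ‖α y * δ y‖) :
    Red (A.charpolyRev : PowerSeries (PadicAlgCl p)) (∏ y, sc δ y)
      ((Bbar A α δ).det : PowerSeries (k p)) := by
  obtain ⟨e, he⟩ : ∃ e : ι → ι → PadicAlgCl p, ∀ x y, e x y = if x = y then (sc δ y)⁻¹ else 0 :=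
    ⟨_, fun _ _ => rfl⟩
  obtain ⟨b, hb⟩ : ∃ b : ι → ι → PadicAlgCl p, ∀ x y, b x y = α x * A x y / (α y * sc δ y) :=
    ⟨_, fun _ _ => rfl⟩
  have he1 : ∀ x y, ‖e x y‖ ≤ 1 := by
    intro x y
    rw [he]
    split_ifs
    · rw [norm_inv]
      exact inv_le_one_of_one_le₀ (one_le_sc δ y)
    · rw [norm_zero]
      exact zero_le_one
  have hb1 : ∀ x y, ‖b x y‖ ≤ 1 := by
    intro x y
    rw [hb]
    refine norm_div_le (mul_ne_zero (hα y) (sc_ne δ y)) ((hA x y).trans ?_)
    rw [norm_mul, norm_mul]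
    exact mul_le_mul_of_nonneg_left (le_sc δ y) (norm_nonneg _)
  obtain ⟨BO, hBO⟩ : ∃ BO : Matrix ι ι (O p)[X], ∀ x y, BO x y =
    C (⟨e x y, he1 x y⟩ : O p) - X * C (⟨b x y, hb1 x y⟩ : O p) := ⟨Matrix.of fun x y =>
      C (⟨e x y, he1 x y⟩ : O p) - X * C (⟨b x y, hb1 x y⟩ : O p), fun _ _ => rfl⟩
  obtain ⟨sub, hsub⟩ : ∃ sub : O p →+* PadicAlgCl p, sub = (O p).subtype := ⟨_, rfl⟩
  -- the determinant
  have hdet : A.charpolyRev = C (∏ y, sc δ y) * (BO.map (mapRingHom sub)).det := by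
    have h1 : (∏ x, C (α x)) * A.charpolyRev =
        (Matrix.of fun x y => C (α x) * (1 - (X : (PadicAlgCl p)[X]) • A.map C) x y).det := by
      rw [Matrix.charpolyRev, Matrix.det_mul_column]
    have h2 : (∏ y, C (α y * sc δ y)) * (BO.map (mapRingHom sub)).det =
        (Matrix.of fun x y => C (α y * sc δ y) * (BO.map (mapRingHom sub)) x y).det := by
      rw [Matrix.det_mul_row]
    have h3 : (Matrix.of fun x y => C (α x) * (1 - (X : (PadicAlgCl p)[X]) • A.map C) x y) =
        (Matrix.of fun x y => C (α y * sc δ y) * (BO.map (mapRingHom sub)) x y) := by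
      ext1 x y
      have hαy := hα y
      have hsy := sc_ne δ y
      have h4 : (BO.map (mapRingHom sub)) x y = C (e x y) - X * C (b x y) := by
        rw [Matrix.map_apply, hBO, coe_mapRingHom, Polynomial.map_sub, Polynomial.map_mul,
          map_C, map_C, map_X, hsub]
        rfl
      rw [Matrix.of_apply, Matrix.of_apply, h4, Matrix.sub_apply, Matrix.smul_apply,
        Matrix.map_apply, he, hb, Matrix.one_apply, mul_sub, mul_sub, smul_eq_mul]
      congr 1
      · split_ifs with h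
        · rw [h, ← C_mul, mul_assoc, mul_inv_cancel₀ hsy, mul_one, mul_one]
        · rw [C_0, mul_zero, mul_zero]
      · rw [mul_left_comm, ← C_mul, mul_left_comm (C _), ← C_mul]
        congr 2
        field_simp
    have h4 : (∏ x, C (α x)) ≠ (0 : (PadicAlgCl p)[X]) :=
      Finset.prod_ne_zero_iff.2 fun x _ => C_ne_zero.2 (hα x)
    refine mul_left_cancel₀ h4 ?_
    rw [h1, h3, ← h2]
    simp only [C_mul, Finset.prod_mul_distrib, map_prod]
    ring
  have hdetO : (BO.map (mapRingHom sub)).det = BO.det.map sub := by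
    rw [← coe_mapRingHom, RingHom.map_det]
    rfl
  have hdetk : (BO.map (mapRingHom (res p))).det = BO.det.map (res p) := by
    rw [← coe_mapRingHom, RingHom.map_det]
    rfl
  have hBbar : Bbar A α δ = BO.map (mapRingHom (res p)) := by
    ext1 x y
    rw [Bbar, Matrix.of_apply, Matrix.map_apply, hBO, coe_mapRingHom, Polynomial.map_sub,
      Polynomial.map_mul, map_C, map_C, map_X]
    rw [← red_of_le (he1 x y), ← red_of_le (hb1 x y), hb]
    congr 2
    rw [he]
    by_cases h1 : x = y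
    · rw [if_pos h1]
      by_cases h2 : 1 < ‖δ y‖
      · rw [if_neg (fun h => h.2 h2)]
        symm
        have h3 : ‖(sc δ y)⁻¹‖ < 1 := by
          rw [norm_inv]
          refine inv_lt_one_of_one_lt₀ ?_
          unfold sc
          rwa [if_pos h2]
        rw [red_eq_zero h3.le]
        exact h3
      · rw [if_pos ⟨h1, h2⟩]
        unfold sc
        rw [if_neg h2, inv_one, red_one]
    · rw [if_neg h1, if_neg (fun h => h1 h.1), red_zero]
  have hprod : (∏ y, sc δ y) ≠ 0 := Finset.prod_ne_zero_iff.2 fun y _ => sc_ne δ y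
  refine ⟨hprod, fun n => ?_⟩
  have hcoef : PowerSeries.coeff n (A.charpolyRev : PowerSeries (PadicAlgCl p)) =
      (∏ y, sc δ y) * ((BO.det.coeff n : O p) : PadicAlgCl p) := by
    rw [Polynomial.coeff_coe, hdet, coeff_C_mul, hdetO, coeff_map, hsub]
    rfl
  rw [hcoef, norm_mul]
  constructor
  · exact mul_le_of_le_one_right (norm_nonneg _) (BO.det.coeff n).2
  · rw [mul_div_cancel_left₀ _ hprod, red_coe, Polynomial.coeff_coe, hBbar, hdetk, coeff_map]

end

/-- determinant of a weighted permutation matrix -/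
theorem perm_det {R ι : Type*} [CommRing R] [Fintype ι] [DecidableEq ι] (π : Equiv.Perm ι)
    (w : ι → R) (M : Matrix ι ι R) (hM : ∀ x y, M x y = if y = π x then w x else 0) :
    M.det = (Equiv.Perm.sign π : ℤ) * ∏ x, w x := by
  have h1 : M = (Matrix.diagonal w).submatrix id (π⁻¹ : Equiv.Perm ι) := by
    ext x y
    rw [Matrix.submatrix_apply, hM, Matrix.diagonal_apply]
    have h2 : (y = π x) ↔ (id x = (π⁻¹ : Equiv.Perm ι) y) := by
      rw [id_eq, Equiv.Perm.eq_inv_iff_eq, eq_comm]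
    simp only [h2]
    rfl
  rw [h1, Matrix.det_permute', Matrix.det_diagonal, Equiv.Perm.sign_inv]

end RedS

end Pool.Agent.N867.AS
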