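import Pool.Agent.N867.AS.PS

/-!
# Traces of powers of a matrix and `det (1 - X A)`
-/

set_option autoImplicit false

open Module

namespace Pool.Agent.N867.AS

namespace Eig

open Polynomial

variable {K : Type*} [Field K] [IsAlgClosed K]

variable {n : Type*} [Fintype n] [DecidableEq n]

theorem card_roots' (A : Matrix n n K) : A.charpoly.roots.card = Fintype.card n := by
  rw [← Matrix.charpoly_natDegree_eq_dim A]
  exact (Polynomial.splits_iff_card_roots.1 (IsAlgClosed.splits A.charpoly))

omit [IsAlgClosed K] in
theorem prod_flip (s : Multiset K) (μ : K) :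
    (-1) ^ s.card * (s.map fun l => μ - l).prod = (s.map fun l => l - μ).prod := by
  induction s using Multiset.induction_on with
  | empty => simp
  | cons a s ih =>
    rw [Multiset.card_cons, Multiset.map_cons, Multiset.map_cons, Multiset.prod_cons,
      Multiset.prod_cons, ← ih]
    ring

theorem det_lin (A : Matrix n n K) (μ : K) :
    (aeval A (X - C μ)).det = (A.charpoly.roots.map fun l => (X - C μ : K[X]).eval l).prod := by
  have h1 : aeval A (X - C μ) = -(Matrix.scalar n μ - A) := by
    rw [map_sub, aeval_X, aeval_C, neg_sub]
    rfl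
  rw [h1, Matrix.det_neg, ← Matrix.eval_charpoly,
    (IsAlgClosed.splits A.charpoly).eval_eq_prod_roots_of_monic A.charpoly_monic μ,
    ← card_roots' A]
  simp only [eval_sub, eval_X, eval_C]
  exact prod_flip _ _

omit [IsAlgClosed K] in
theorem det_mul' (A : Matrix n n K) (f g : K[X])
    (hf : (aeval A f).det = (A.charpoly.roots.map fun l => f.eval l).prod)
    (hg : (aeval A g).det = (A.charpoly.roots.map fun l => g.eval l).prod) :
    (aeval A (f * g)).det = (A.charpoly.roots.map fun l => (f * g).eval l).prod := by
  rw [map_mul, Matrix.det_mul, hf, hg, ← Multiset.prod_map_mul]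
  simp only [eval_mul]

theorem det_monic (A : Matrix n n K) (f : K[X]) (hf : f.Monic) :
    (aeval A f).det = (A.charpoly.roots.map fun l => f.eval l).prod := by
  have h1 : ∀ s : Multiset K, (aeval A (s.map fun a => X - C a).prod).det =
      (A.charpoly.roots.map fun l => ((s.map fun a => X - C a).prod : K[X]).eval l).prod := by
    intro s
    induction s using Multiset.induction_on with
    | empty => simp
    | cons a s ih =>
      rw [Multiset.map_cons, Multiset.prod_cons]
      exact det_mul' A _ _ (det_lin A a) ih
  have h2 := (IsAlgClosed.splits f).eq_prod_roots_of_monic hf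
  rw [h2]
  exact h1 _

theorem charpoly_pow [CharZero K] (A : Matrix n n K) (k : ℕ) (hk : k ≠ 0) :
    (A ^ k).charpoly = (A.charpoly.roots.map fun l => X - C (l ^ k)).prod := by
  refine Polynomial.funext fun x => ?_
  have h1 : Matrix.scalar n x - A ^ k = -(aeval A (X ^ k - C x)) := by
    rw [map_sub, map_pow, aeval_X, aeval_C, neg_sub]
    rfl
  rw [Matrix.eval_charpoly, h1, Matrix.det_neg, det_monic A _ (monic_X_pow_sub_C x hk),
    ← card_roots' A, eval_multiset_prod, Multiset.map_map]
  simp only [Function.comp_def, eval_sub, eval_X, eval_C, eval_pow]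
  have h2 := prod_flip (A.charpoly.roots.map fun l => l ^ k) x
  rw [Multiset.card_map, Multiset.map_map, Multiset.map_map] at h2
  simp only [Function.comp_def] at h2
  rw [← h2, ← mul_assoc, ← pow_add, ← two_mul, pow_mul]
  norm_num

theorem trace_pow [CharZero K] (A : Matrix n n K) (k : ℕ) :
    (A ^ k).trace = (A.charpoly.roots.map fun l => l ^ k).sum := by
  rcases Nat.eq_zero_or_pos k with hk | hk
  · subst hk
    simp only [pow_zero, Multiset.map_const', Multiset.sum_replicate, card_roots',
      Matrix.trace_one, nsmul_eq_mul, mul_one]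
  · rw [Matrix.trace_eq_sum_roots_charpoly, charpoly_pow A k hk.ne']
    have h1 : (A.charpoly.roots.map fun l => X - C (l ^ k)).prod =
        ((A.charpoly.roots.map fun l => l ^ k).map fun a => X - C a).prod := by
      rw [Multiset.map_map]
      rfl
    rw [h1, Polynomial.roots_multiset_prod_X_sub_C]

theorem reverse_X_sub_C (a : K) : (X - C a : K[X]).reverse = 1 - C a * X := by
  ext m
  rw [coeff_reverse, natDegree_X_sub_C]
  rcases m with _ | _ | m
  · simp
  · simp [coeff_one, Polynomial.coeff_X]
  · rw [Polynomial.revAt_eq_self_of_lt (by omega)]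
    simp [coeff_one, Polynomial.coeff_X, coeff_C]

theorem charpolyRev_eq (A : Matrix n n K) :
    A.charpolyRev = (A.charpoly.roots.map fun l => (1 - C l * X : K[X])).prod := by
  rw [← Matrix.reverse_charpoly]
  have h2 := (IsAlgClosed.splits A.charpoly).eq_prod_roots_of_monic A.charpoly_monic
  conv_lhs => rw [h2]
  have h3 : ∀ s : Multiset K, ((s.map fun a => X - C a).prod : K[X]).reverse =
      (s.map fun l => (1 - C l * X : K[X])).prod := by
    intro s
    induction s using Multiset.induction_on with
    | empty => simpa using Polynomial.reverse_C (1 : K)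
    | cons a s ih =>
      rw [Multiset.map_cons, Multiset.prod_cons, Polynomial.reverse_mul_of_domain, ih,
        Multiset.map_cons, Multiset.prod_cons, reverse_X_sub_C]
  exact h3 _

end Eig

theorem hasPS_charpolyRev {K : Type*} [Field K] [IsAlgClosed K] [CharZero K]
    {n : Type*} [Fintype n] [DecidableEq n] (A : Matrix n n K) :
    HasPS (A.charpolyRev : PowerSeries K) (fun m => (A ^ m).trace) := by
  rw [Eig.charpolyRev_eq]
  have h1 := hasPS_multiset A.charpoly.roots
  have h2 : ((A.charpoly.roots.map fun l => (1 - Polynomial.C l * Polynomial.X :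
      Polynomial K)).prod : PowerSeries K) =
      (A.charpoly.roots.map fun a => (1 - PowerSeries.C a * PowerSeries.X : PowerSeries K)).prod := by
    rw [← Polynomial.coeToPowerSeries.ringHom_apply, map_multiset_prod, Multiset.map_map]
    congr 2
    ext a
    simp
  rw [h2]
  exact h1.congr fun m _ => (Eig.trace_pow A m).symm

end Pool.Agent.N867.AS
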