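import Pool.Agent.N867.AS.Split

/-!
# The residue field of `PadicAlgCl p` and Teichmüller elements
-/

set_option autoImplicit false
set_option linter.unusedSectionVars false

open Polynomial

namespace Pool.Agent.N867.AS

namespace Res

variable (p : ℕ) [hp : Fact p.Prime]

/-- the ring of integers -/
def O : ValuationSubring (PadicAlgCl p) where
  carrier := {x | ‖x‖ ≤ 1}
  mul_mem' := by
    intro a b ha hb
    rw [Set.mem_ofPred_eq, norm_mul]
    exact mul_le_one₀ ha (norm_nonneg _) hb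
  one_mem' := by
    rw [Set.mem_ofPred_eq, norm_one]
  add_mem' := by
    intro a b ha hb
    exact (IsUltrametricDist.norm_add_le_max _ _).trans (max_le ha hb)
  zero_mem' := by
    rw [Set.mem_ofPred_eq, norm_zero]
    exact zero_le_one
  neg_mem' := by
    intro a ha
    rw [Set.mem_ofPred_eq, norm_neg]
    exact ha
  mem_or_inv_mem' := by
    intro x
    rcases le_total ‖x‖ 1 with h | h
    · exact Or.inl h
    · right
      rw [Set.mem_ofPred_eq, norm_inv]
      exact inv_le_one_of_one_le₀ h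

theorem mem_O {x : PadicAlgCl p} : x ∈ O p ↔ ‖x‖ ≤ 1 := Iff.rfl

/-- the residue field -/
abbrev k : Type := IsLocalRing.ResidueField (O p)

/-- the residue map -/
noncomputable def res : O p →+* k p := IsLocalRing.residue (O p)

theorem isUnit_iff {x : O p} : IsUnit x ↔ ‖(x : PadicAlgCl p)‖ = 1 := by
  constructor
  · rintro ⟨u, rfl⟩
    have h1 : ‖((u : O p) : PadicAlgCl p)‖ * ‖((u⁻¹ : (O p)ˣ) : PadicAlgCl p)‖ = 1 := by
      rw [← norm_mul]
      have : ((u : O p) : PadicAlgCl p) * (((u⁻¹ : (O p)ˣ) : O p) : PadicAlgCl p) = 1 := by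
        exact congrArg (Subtype.val : O p → PadicAlgCl p) (Units.mul_inv u)
      rw [this, norm_one]
    have h2 : ‖((u : O p) : PadicAlgCl p)‖ ≤ 1 := (u : O p).2
    have h3 : ‖(((u⁻¹ : (O p)ˣ) : O p) : PadicAlgCl p)‖ ≤ 1 := ((u⁻¹ : (O p)ˣ) : O p).2
    nlinarith [norm_nonneg ((u : O p) : PadicAlgCl p),
      norm_nonneg (((u⁻¹ : (O p)ˣ) : O p) : PadicAlgCl p)]
  · intro h
    have h0 : (x : PadicAlgCl p) ≠ 0 := by
      intro h0
      rw [h0, norm_zero] at h
      exact zero_ne_one h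
    have h1 : ‖(x : PadicAlgCl p)⁻¹‖ ≤ 1 := by rw [norm_inv, h, inv_one]
    refine IsUnit.of_mul_eq_one ⟨(x : PadicAlgCl p)⁻¹, h1⟩ ?_
    ext
    exact mul_inv_cancel₀ h0

theorem res_eq_zero {x : O p} : res p x = 0 ↔ ‖(x : PadicAlgCl p)‖ < 1 := by
  rw [res, IsLocalRing.residue_eq_zero_iff, IsLocalRing.mem_maximalIdeal, mem_nonunits_iff,
    isUnit_iff]
  exact ⟨fun h => lt_of_le_of_ne x.2 h, fun h => h.ne⟩

theorem res_surj : Function.Surjective (res p) := IsLocalRing.residue_surjective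

theorem norm_p : ‖(p : PadicAlgCl p)‖ = (p : ℝ)⁻¹ := by
  have h := PadicAlgCl.norm_extends p (p : ℚ_[p])
  rw [Padic.norm_p] at h
  rw [← h]
  congr 1

theorem norm_p_lt : ‖(p : PadicAlgCl p)‖ < 1 := by
  rw [norm_p]
  exact inv_lt_one_of_one_lt₀ (by exact_mod_cast hp.1.one_lt)

instance charP_k : CharP (k p) p := by
  have h : ((p : ℕ) : k p) = 0 := by
    have h1 : res p ((p : ℕ) : O p) = 0 := by
      rw [res_eq_zero]
      have : (((p : ℕ) : O p) : PadicAlgCl p) = (p : PadicAlgCl p) := by simp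
      rw [this]
      exact norm_p_lt p
    rwa [map_natCast] at h1
  exact (CharP.charP_iff_prime_eq_zero hp.1).2 h

instance isAlgClosed_k : IsAlgClosed (k p) := by
  refine IsAlgClosed.of_exists_root _ fun P hP hirr => ?_
  have hl : P ∈ lifts (res p) := by
    obtain ⟨q, hq⟩ := Polynomial.map_surjective (res p) (res_surj p) P
    exact ⟨q, hq⟩
  obtain ⟨q, hq, hdeg, hmon⟩ := lifts_and_natDegree_eq_and_monic hl hP
  have hd : (q.map (algebraMap (O p) (PadicAlgCl p))).degree ≠ 0 := by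
    rw [hmon.degree_map, Polynomial.degree_eq_natDegree hmon.ne_zero, hdeg]
    intro h
    have h2 : P.natDegree = 0 := by exact_mod_cast h
    have h3 := Polynomial.natDegree_pos_iff_degree_pos.2
      (Polynomial.degree_pos_of_irreducible hirr)
    omega
  obtain ⟨z, hz⟩ := IsAlgClosed.exists_root _ hd
  have hint : IsIntegral (O p) z := ⟨q, hmon, by
    rw [Polynomial.IsRoot, Polynomial.eval_map] at hz
    exact hz⟩
  obtain ⟨y, hy⟩ := (IsIntegrallyClosed.isIntegral_iff (R := O p) (K := PadicAlgCl p)).1 hint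
  refine ⟨res p y, ?_⟩
  rw [← hq, Polynomial.eval_map, Polynomial.eval₂_hom]
  have h1 : q.eval y = 0 := by
    have h2 : algebraMap (O p) (PadicAlgCl p) (q.eval y) = 0 := by
      rw [← Polynomial.eval₂_hom, hy]
      rw [Polynomial.IsRoot, Polynomial.eval_map] at hz
      exact hz
    exact (FaithfulSMul.algebraMap_injective (O p) (PadicAlgCl p)) (by rw [h2, map_zero])
  rw [h1, map_zero]


/-- total residue map -/
noncomputable def red (x : PadicAlgCl p) : k p := by
  classical exact if h : ‖x‖ ≤ 1 then res p ⟨x, h⟩ else 0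

variable {p}

theorem red_of_le {x : PadicAlgCl p} (h : ‖x‖ ≤ 1) : red p x = res p ⟨x, h⟩ := by
  unfold red
  rw [dif_pos h]

theorem red_coe (x : O p) : red p (x : PadicAlgCl p) = res p x := red_of_le x.2

theorem red_mul {x y : PadicAlgCl p} (hx : ‖x‖ ≤ 1) (hy : ‖y‖ ≤ 1) :
    red p (x * y) = red p x * red p y := by
  have h : ‖x * y‖ ≤ 1 := by
    rw [norm_mul]
    exact mul_le_one₀ hx (norm_nonneg _) hy
  rw [red_of_le h, red_of_le hx, red_of_le hy, ← map_mul]
  rfl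

theorem red_add {x y : PadicAlgCl p} (hx : ‖x‖ ≤ 1) (hy : ‖y‖ ≤ 1) :
    red p (x + y) = red p x + red p y := by
  have h : ‖x + y‖ ≤ 1 := (IsUltrametricDist.norm_add_le_max _ _).trans (max_le hx hy)
  rw [red_of_le h, red_of_le hx, red_of_le hy, ← map_add]
  rfl

theorem red_natCast (n : ℕ) : red p (n : PadicAlgCl p) = n := by
  have h := red_coe (p := p) (n : O p)
  rw [map_natCast] at h
  rw [← h]
  congr 1

theorem red_zero : red p (0 : PadicAlgCl p) = 0 := by
  have := red_natCast (p := p) 0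
  simpa using this

theorem red_one : red p (1 : PadicAlgCl p) = 1 := by
  have := red_natCast (p := p) 1
  simpa using this

theorem red_pow {x : PadicAlgCl p} (hx : ‖x‖ ≤ 1) (n : ℕ) :
    red p (x ^ n) = red p x ^ n := by
  have h : ‖x ^ n‖ ≤ 1 := by
    rw [norm_pow]
    exact pow_le_one₀ (norm_nonneg _) hx
  rw [red_of_le h, red_of_le hx, ← map_pow]
  rfl

theorem red_sum {ι : Type*} (S : Finset ι) {f : ι → PadicAlgCl p} (h : ∀ i ∈ S, ‖f i‖ ≤ 1) :
    red p (∑ i ∈ S, f i) = ∑ i ∈ S, red p (f i) := by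
  classical
  induction S using Finset.induction_on with
  | empty => simpa using red_zero
  | insert a S ha ih =>
    have h2 : ∀ i ∈ S, ‖f i‖ ≤ 1 := fun i hi => h i (Finset.mem_insert_of_mem hi)
    rw [Finset.sum_insert ha, Finset.sum_insert ha, red_add (h a (Finset.mem_insert_self a S))
      (IsUltrametricDist.norm_sum_le_of_forall_le_of_nonneg zero_le_one h2), ih h2]

theorem red_prod {ι : Type*} (S : Finset ι) {f : ι → PadicAlgCl p} (h : ∀ i ∈ S, ‖f i‖ ≤ 1) :
    red p (∏ i ∈ S, f i) = ∏ i ∈ S, red p (f i) := by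
  classical
  induction S using Finset.induction_on with
  | empty => simpa using red_one
  | insert a S ha ih =>
    have h2 : ∀ i ∈ S, ‖f i‖ ≤ 1 := fun i hi => h i (Finset.mem_insert_of_mem hi)
    rw [Finset.prod_insert ha, Finset.prod_insert ha, red_mul (h a (Finset.mem_insert_self a S))
      (by rw [norm_prod]; exact Finset.prod_le_one (fun _ _ => norm_nonneg _) h2), ih h2]

theorem red_eq_zero {x : PadicAlgCl p} (hx : ‖x‖ ≤ 1) : red p x = 0 ↔ ‖x‖ < 1 := by
  rw [red_of_le hx, res_eq_zero]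

theorem red_eq {x y : PadicAlgCl p} (hx : ‖x‖ ≤ 1) (hy : ‖y‖ ≤ 1) :
    red p x = red p y ↔ ‖x - y‖ < 1 := by
  rw [red_of_le hx, red_of_le hy, ← sub_eq_zero, ← map_sub, res_eq_zero]
  rfl

theorem norm_le_one_of_pow {z : PadicAlgCl p} {Q : ℕ} (hQ : 1 < Q) (hz : z ^ Q = z) : ‖z‖ ≤ 1 := by
  by_contra h
  push Not at h
  have h1 : ‖z‖ ^ Q = ‖z‖ := by rw [← norm_pow, hz]
  have h2 : ‖z‖ ^ 1 < ‖z‖ ^ Q := pow_lt_pow_right₀ h hQ
  rw [pow_one, h1] at h2
  exact lt_irrefl _ h2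

variable (p)

/-- the solutions of `z^Q = z` -/
noncomputable def MU (Q : ℕ) : Finset (PadicAlgCl p) := by
  classical exact (X ^ Q - X : (PadicAlgCl p)[X]).roots.toFinset

variable {p}

theorem mem_MU {Q : ℕ} (hQ : 1 < Q) {z : PadicAlgCl p} : z ∈ MU p Q ↔ z ^ Q = z := by
  classical
  unfold MU
  rw [Multiset.mem_toFinset, mem_roots (FiniteField.X_pow_card_sub_X_ne_zero _ hQ)]
  simp [sub_eq_zero]

theorem card_MU {Q : ℕ} (hQ : 1 < Q) : (MU p Q).card = Q := by
  classical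
  unfold MU
  have hne := FiniteField.X_pow_card_sub_X_ne_zero (PadicAlgCl p) hQ
  have hdeg := FiniteField.X_pow_card_sub_X_natDegree_eq (PadicAlgCl p) hQ
  have hsep : (X ^ Q - X : (PadicAlgCl p)[X]).Separable := by
    obtain ⟨Q, rfl⟩ : ∃ Q', Q = Q' + 2 := ⟨Q - 2, by omega⟩
    have h1 : ((Q : PadicAlgCl p) + 1) ≠ 0 := by exact_mod_cast Nat.succ_ne_zero Q
    obtain ⟨c, hc⟩ : ∃ c : (PadicAlgCl p)[X], c = C (((Q : PadicAlgCl p) + 1)⁻¹) := ⟨_, rfl⟩
    have h2 : c * ((Q : (PadicAlgCl p)[X]) + 1) = 1 := by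
      rw [hc, ← map_natCast (C : PadicAlgCl p →+* (PadicAlgCl p)[X]) Q,
        ← map_one (C : PadicAlgCl p →+* (PadicAlgCl p)[X]), ← map_add, ← map_mul,
        map_one, inv_mul_cancel₀ h1, map_one]
    refine ⟨- ((Q : (PadicAlgCl p)[X]) + 2) ^ 2 * X ^ Q * c,
      ((Q : (PadicAlgCl p)[X]) + 2) * X ^ (Q + 1) * c - 1, ?_⟩
    rw [derivative_sub, derivative_X_pow, derivative_X]
    push_cast
    have h3 : (C ((Q : PadicAlgCl p) + 2) : (PadicAlgCl p)[X]) = (Q : (PadicAlgCl p)[X]) + 2 := by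
      rw [map_add, map_natCast]
      rfl
    rw [h3]
    linear_combination ((Q : (PadicAlgCl p)[X]) + 2) * X ^ (Q + 1) * h2
  rw [Multiset.toFinset_card_of_nodup (Polynomial.nodup_roots hsep)]
  rw [Polynomial.splits_iff_card_roots.1 (IsAlgClosed.splits _), hdeg]

theorem eq_of_red {L : ℕ} (hL : L ≠ 0) {z z' : PadicAlgCl p} (hz : z ^ p ^ L = z)
    (hz' : z' ^ p ^ L = z') (h : ‖z - z'‖ < 1) : z = z' := by
  have hQ : 1 < p ^ L := Nat.one_lt_pow hL hp.1.one_lt
  have h1 := norm_le_one_of_pow hQ hz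
  have h2 := norm_le_one_of_pow hQ hz'
  obtain ⟨x, hx⟩ : ∃ x : O p, (x : PadicAlgCl p) = z := ⟨⟨z, h1⟩, rfl⟩
  obtain ⟨y, hy⟩ : ∃ x : O p, (x : PadicAlgCl p) = z' := ⟨⟨z', h2⟩, rfl⟩
  obtain ⟨c, hc⟩ := Polynomial.powAddExpansion y (x - y) (p ^ L)
  have hxQ : x ^ p ^ L = x := by
    ext
    push_cast
    rw [hx, hz]
  have hyQ : y ^ p ^ L = y := by
    ext
    push_cast
    rw [hy, hz']
  rw [show y + (x - y) = x by ring, hxQ, hyQ] at hc
  by_contra hne
  have hpos : 0 < ‖z - z'‖ := norm_pos_iff.2 (sub_ne_zero.2 hne)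
  have h3 : z - z' = ((p ^ L : ℕ) : PadicAlgCl p) * (y : PadicAlgCl p) ^ (p ^ L - 1) * (z - z') +
      (c : PadicAlgCl p) * (z - z') ^ 2 := by
    have := congrArg (Subtype.val : O p → PadicAlgCl p) hc
    push_cast at this
    rw [hx, hy] at this
    push_cast
    rw [hy]
    linear_combination this
  have h4 : ‖z - z'‖ < ‖z - z'‖ := by
    conv_lhs => rw [h3]
    refine lt_of_le_of_lt (IsUltrametricDist.norm_add_le_max _ _) (max_lt ?_ ?_)
    · rw [norm_mul, norm_mul]
      refine mul_lt_of_lt_one_left hpos ?_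
      have h5 : ‖((p ^ L : ℕ) : PadicAlgCl p)‖ < 1 := by
        push_cast
        rw [norm_pow]
        exact pow_lt_one₀ (norm_nonneg _) (norm_p_lt p) hL
      have h6 : ‖(y : PadicAlgCl p) ^ (p ^ L - 1)‖ ≤ 1 := by
        rw [norm_pow]
        exact pow_le_one₀ (norm_nonneg _) y.2
      calc _ ≤ ‖((p ^ L : ℕ) : PadicAlgCl p)‖ * 1 :=
            mul_le_mul_of_nonneg_left h6 (norm_nonneg _)
        _ < 1 := by rwa [mul_one]
    · rw [norm_mul, norm_pow, pow_two, ← mul_assoc]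
      refine mul_lt_of_lt_one_left hpos ?_
      calc _ ≤ 1 * ‖z - z'‖ := mul_le_mul_of_nonneg_right c.2 (norm_nonneg _)
        _ < 1 := by rwa [one_mul]
  exact lt_irrefl _ h4

end Res

end Pool.Agent.N867.AS
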