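import Pool.Agent.N867.AS.Val

/-!
# The weighted degree valuation
-/

set_option autoImplicit false
set_option linter.unusedSectionVars false

namespace Pool.Agent.N867.AS

namespace Frame

open Polynomial WithZero

variable (κ : Type) [Field κ] (a b : ℕ)

/-- `κ(z)` -/
abbrev E : Type := RatFunc κ

/-- `κ(z)(T)` -/
abbrev F₀ : Type := RatFunc (E κ)

/-- `t ↦ T^a, x ↦ z T^b` -/
noncomputable def ψ₀ : κ[X][X] →+* (E κ)[X] :=
  eval₂RingHom (eval₂RingHom ((C : E κ →+* (E κ)[X]).comp (algebraMap κ (E κ))) (X ^ a))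
    (C RatFunc.X * X ^ b)

variable {κ a b}

/-- auxiliary -/
noncomputable def Gn (a b : ℕ) (c : κ[X][X]) (n : ℕ) : κ[X] :=
  ∑ i ∈ c.support, ∑ j ∈ (c.coeff i).support,
    if a * j + b * i = n then monomial i ((c.coeff i).coeff j) else 0

theorem coeff_ψ₀ (c : κ[X][X]) (n : ℕ) :
    (ψ₀ κ a b c).coeff n = algebraMap κ[X] (E κ) (Gn a b c n) := by
  have h1 : ψ₀ κ a b c = ∑ i ∈ c.support, ∑ j ∈ (c.coeff i).support,
      (C (algebraMap κ (E κ) ((c.coeff i).coeff j)) * (X ^ a) ^ j) * (C RatFunc.X * X ^ b) ^ i := by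
    rw [ψ₀, coe_eval₂RingHom, eval₂_eq_sum, Polynomial.sum_def]
    refine Finset.sum_congr rfl fun i _ => ?_
    rw [coe_eval₂RingHom, eval₂_eq_sum, Polynomial.sum_def, Finset.sum_mul]
    rfl
  rw [h1, Gn, map_sum, finsetSum_coeff]
  refine Finset.sum_congr rfl fun i _ => ?_
  rw [map_sum, finsetSum_coeff]
  refine Finset.sum_congr rfl fun j _ => ?_
  have h2 : (C (algebraMap κ (E κ) ((c.coeff i).coeff j)) * (X ^ a) ^ j) *
      (C RatFunc.X * X ^ b) ^ i = C (algebraMap κ (E κ) ((c.coeff i).coeff j) * RatFunc.X ^ i) *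
        (X ^ (a * j + b * i) : (E κ)[X]) := by
    rw [mul_pow, ← pow_mul, ← pow_mul, pow_add, C_mul, C_pow]
    ring
  rw [h2, coeff_C_mul, coeff_X_pow]
  by_cases h : a * j + b * i = n
  · rw [if_pos h, if_pos h.symm, mul_one, ← C_mul_X_pow_eq_monomial, map_mul, map_pow,
      RatFunc.algebraMap_X, RatFunc.algebraMap_C]
    rfl
  · rw [if_neg h, if_neg (Ne.symm h), mul_zero, map_zero]

theorem coeff_Gn (ha : a ≠ 0) (c : κ[X][X]) (i j : ℕ) :
    (Gn a b c (a * j + b * i)).coeff i = (c.coeff i).coeff j := by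
  rw [Gn, finsetSum_coeff]
  simp only [finsetSum_coeff]
  by_cases hi : i ∈ c.support
  · rw [Finset.sum_eq_single i]
    · by_cases hj : j ∈ (c.coeff i).support
      · rw [Finset.sum_eq_single j]
        · rw [if_pos rfl, coeff_monomial_same]
        · intro j' _ hj'
          rw [if_neg, coeff_zero]
          intro h
          exact hj' (Nat.eq_of_mul_eq_mul_left (Nat.pos_of_ne_zero ha) (Nat.add_right_cancel h))
        · intro h
          exact absurd hj h
      · rw [notMem_support_iff.1 hj]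
        refine Finset.sum_eq_zero fun j' hj' => ?_
        rw [if_neg, coeff_zero]
        intro h
        have h2 : j' = j :=
          Nat.eq_of_mul_eq_mul_left (Nat.pos_of_ne_zero ha) (Nat.add_right_cancel h)
        rw [h2] at hj'
        exact hj hj'
    · intro i' _ hi'
      refine Finset.sum_eq_zero fun j' _ => ?_
      split_ifs
      · rw [coeff_monomial, if_neg hi']
      · rw [coeff_zero]
    · intro h
      exact absurd hi h
  · rw [notMem_support_iff.1 hi, coeff_zero]
    refine Finset.sum_eq_zero fun i' hi' => Finset.sum_eq_zero fun j' _ => ?_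
    split_ifs
    · rw [coeff_monomial, if_neg]
      rintro rfl
      exact hi hi'
    · rw [coeff_zero]

variable (κ a b)

/-- the map to the function field -/
noncomputable def ψ : κ[X][X] →+* F₀ κ := (algebraMap (E κ)[X] (F₀ κ)).comp (ψ₀ κ a b)

/-- the valuation -/
noncomputable def v : Valuation (F₀ κ) ℤᵐ⁰ := by
  classical exact RatFunc.inftyValuation (E κ)

variable {κ a b}

theorem v_poly {P : (E κ)[X]} (hP : P ≠ 0) :
    v κ (algebraMap (E κ)[X] (F₀ κ) P) = exp (P.natDegree : ℤ) := by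
  classical
  unfold v
  exact RatFunc.inftyValuation.polynomial (E κ) hP

theorem le_v_ψ (ha : a ≠ 0) (c : κ[X][X]) (i j : ℕ) (h : (c.coeff i).coeff j ≠ 0) :
    exp ((a * j + b * i : ℕ) : ℤ) ≤ v κ (ψ κ a b c) := by
  have h1 : (ψ₀ κ a b c).coeff (a * j + b * i) ≠ 0 := by
    rw [coeff_ψ₀]
    intro h2
    rw [map_eq_zero_iff _ (RatFunc.algebraMap_injective κ)] at h2
    have h3 := coeff_Gn (b := b) ha c i j
    rw [h2, coeff_zero] at h3
    exact h h3.symm
  have h2 : ψ₀ κ a b c ≠ 0 := by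
    intro h3
    rw [h3, coeff_zero] at h1
    exact h1 rfl
  rw [ψ, RingHom.comp_apply, v_poly h2, exp_le_exp]
  exact_mod_cast le_natDegree_of_ne_zero h1

theorem ψ_inj (ha : a ≠ 0) : Function.Injective (ψ κ a b) := by
  rw [injective_iff_map_eq_zero]
  intro c hc
  ext i j
  by_contra h
  rw [coeff_zero, coeff_zero] at h
  have h1 := le_v_ψ (b := b) ha c i j h
  rw [hc, map_zero] at h1
  exact absurd h1 (not_le.2 (by simp))

theorem v_ψ_le {c : κ[X][X]} {n : ℕ}
    (h : ∀ i j, (c.coeff i).coeff j ≠ 0 → a * j + b * i ≤ n) :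
    v κ (ψ κ a b c) ≤ exp (n : ℤ) := by
  by_cases h0 : ψ₀ κ a b c = 0
  · rw [ψ, RingHom.comp_apply, h0, map_zero, map_zero]
    simp
  rw [ψ, RingHom.comp_apply, v_poly h0, exp_le_exp]
  have h1 : (ψ₀ κ a b c).natDegree ≤ n := by
    rw [natDegree_le_iff_coeff_eq_zero]
    intro N hN
    rw [coeff_ψ₀, Gn, Finset.sum_eq_zero, map_zero]
    intro i hi
    refine Finset.sum_eq_zero fun j hj => ?_
    rw [if_neg]
    intro h2
    have h3 := h i j (mem_support_iff.1 hj)
    omega
  exact_mod_cast h1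

end Frame

end Pool.Agent.N867.AS
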