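import Pool.Agent.N867.AS.Newt

/-!
# Reductions of power series and determinants
-/

set_option autoImplicit false
set_option linter.unusedSectionVars false

namespace Pool.Agent.N867.AS

namespace RedS

open PowerSeries Res

variable {p : ℕ} [hp : Fact p.Prime]

/-- `F / c` is integral with reduction `G`. -/
def Red (F : PowerSeries (PadicAlgCl p)) (c : PadicAlgCl p) (G : PowerSeries (k p)) : Prop :=
  c ≠ 0 ∧ ∀ n, ‖coeff n F‖ ≤ ‖c‖ ∧ red p (coeff n F / c) = coeff n G

theorem norm_div_le {x c : PadicAlgCl p} (_ : c ≠ 0) (h : ‖x‖ ≤ ‖c‖) : ‖x / c‖ ≤ 1 := by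
  rw [norm_div]
  exact div_le_one_of_le₀ h (norm_nonneg _)

theorem Red.mul {F F' : PowerSeries (PadicAlgCl p)} {c c' : PadicAlgCl p}
    {G G' : PowerSeries (k p)} (h : Red F c G) (h' : Red F' c' G') :
    Red (F * F') (c * c') (G * G') := by
  refine ⟨mul_ne_zero h.1 h'.1, fun n => ?_⟩
  have hle : ∀ x ∈ Finset.HasAntidiagonal.antidiagonal n,
      ‖coeff x.1 F / c * (coeff x.2 F' / c')‖ ≤ 1 := by
    intro x _
    rw [norm_mul]
    exact mul_le_one₀ (norm_div_le h.1 (h.2 _).1) (norm_nonneg _) (norm_div_le h'.1 (h'.2 _).1)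
  have hsum : coeff n (F * F') / (c * c') = ∑ x ∈ Finset.HasAntidiagonal.antidiagonal n,
      coeff x.1 F / c * (coeff x.2 F' / c') := by
    rw [coeff_mul, Finset.sum_div]
    refine Finset.sum_congr rfl fun x _ => ?_
    rw [div_mul_div_comm]
  constructor
  · have h1 : ‖coeff n (F * F') / (c * c')‖ ≤ 1 := by
      rw [hsum]
      exact IsUltrametricDist.norm_sum_le_of_forall_le_of_nonneg zero_le_one hle
    rw [norm_div, div_le_one (norm_pos_iff.2 (mul_ne_zero h.1 h'.1))] at h1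
    exact h1
  · rw [hsum, red_sum _ hle, coeff_mul]
    refine Finset.sum_congr rfl fun x _ => ?_
    rw [red_mul (norm_div_le h.1 (h.2 _).1) (norm_div_le h'.1 (h'.2 _).1), (h.2 _).2, (h'.2 _).2]

theorem Red.near {E : PowerSeries (PadicAlgCl p)} (h0 : coeff 0 E = 1)
    (h : ∀ m, m ≠ 0 → ‖coeff m E‖ < 1) : Red E 1 1 := by
  refine ⟨one_ne_zero, fun n => ?_⟩
  rw [div_one, norm_one, coeff_one]
  by_cases hn : n = 0
  · rw [if_pos hn, hn, h0, norm_one, red_one]
    exact ⟨le_rfl, rfl⟩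
  · rw [if_neg hn, red_eq_zero (h n hn).le]
    exact ⟨(h n hn).le, h n hn⟩

theorem Red.one_sub {l : PadicAlgCl p} (hl : ‖l‖ = 1) {s : ℕ} (hs : s ≠ 0) :
    Red (1 - C l * X ^ s : PowerSeries (PadicAlgCl p)) 1 (1 - C (red p l) * X ^ s) := by
  refine ⟨one_ne_zero, fun n => ?_⟩
  rw [div_one, norm_one, map_sub, coeff_one, coeff_C_mul, coeff_X_pow, map_sub, coeff_one,
    coeff_C_mul, coeff_X_pow]
  by_cases h0 : n = 0
  · rw [if_pos h0, if_pos h0, h0, if_neg hs.symm, if_neg hs.symm, mul_zero, mul_zero, sub_zero,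
      sub_zero, norm_one, red_one]
    exact ⟨le_rfl, rfl⟩
  · rw [if_neg h0, if_neg h0]
    by_cases h1 : n = s
    · rw [if_pos h1, if_pos h1, mul_one, mul_one, zero_sub, zero_sub, norm_neg, hl]
      refine ⟨le_rfl, ?_⟩
      have h2 : red p (-l) + red p l = 0 := by
        rw [← red_add (by rw [norm_neg, hl]) hl.le, neg_add_cancel, red_zero]
      exact eq_neg_of_add_eq_zero_left h2
    · rw [if_neg h1, if_neg h1, mul_zero, mul_zero, sub_zero, sub_zero, norm_zero, red_zero]
      exact ⟨zero_le_one, rfl⟩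

theorem Red.big {l : PadicAlgCl p} (hl : 1 < ‖l‖) {s : ℕ} (hs : s ≠ 0) :
    Red (1 - C l * X ^ s : PowerSeries (PadicAlgCl p)) (-l) (X ^ s) := by
  have hl0 : l ≠ 0 := by
    rintro rfl
    rw [norm_zero] at hl
    exact absurd hl (not_lt.2 zero_le_one)
  refine ⟨neg_ne_zero.2 hl0, fun n => ?_⟩
  rw [map_sub, coeff_one, coeff_C_mul, coeff_X_pow, coeff_X_pow, norm_neg]
  by_cases h0 : n = 0
  · rw [if_pos h0, h0, if_neg hs.symm, if_neg hs.symm, mul_zero, sub_zero, norm_one]
    refine ⟨hl.le, ?_⟩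
    rw [red_eq_zero]
    · rw [norm_div, norm_one, norm_neg, div_lt_one (lt_trans one_pos hl)]
      exact hl
    · rw [norm_div, norm_one, norm_neg]
      exact div_le_one_of_le₀ hl.le (norm_nonneg _)
  · rw [if_neg h0]
    by_cases h1 : n = s
    · rw [if_pos h1, if_pos h1, mul_one, zero_sub, norm_neg, neg_div_neg_eq, div_self hl0,
        red_one]
      exact ⟨le_rfl, rfl⟩
    · rw [if_neg h1, if_neg h1, mul_zero, sub_zero, norm_zero, zero_div, red_zero]
      exact ⟨norm_nonneg _, rfl⟩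

/-- reduction of a product of `1 - λ X^s` -/
theorem red_multiset (s : ℕ) (hs : s ≠ 0) (L : Multiset (PadicAlgCl p)) [DecidableEq ℝ] :
    ∃ (c : PadicAlgCl p) (a : ℕ), a ≤ s * L.card ∧
      Red ((L.map fun l => (1 - C l * X ^ s : PowerSeries (PadicAlgCl p))).prod) c
      (X ^ a * ((L.filter fun l => ‖l‖ = 1).map fun l =>
        (1 - C (red p l) * X ^ s : PowerSeries (k p))).prod) := by
  induction L using Multiset.induction_on with
  | empty =>
    refine ⟨1, 0, le_of_eq (by simp), ?_⟩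
    simp only [Multiset.map_zero, Multiset.prod_zero, Multiset.filter_zero, pow_zero, mul_one]
    refine Red.near ?_ fun m hm => ?_
    · rw [coeff_one, if_pos rfl]
    · rw [coeff_one, if_neg hm, norm_zero]
      exact one_pos
  | cons l L ih =>
    obtain ⟨c, a, ha, h⟩ := ih
    rw [Multiset.map_cons, Multiset.prod_cons, Multiset.card_cons, mul_add, mul_one]
    rcases lt_trichotomy ‖l‖ 1 with h1 | h1 | h1
    · refine ⟨1 * c, a, by omega, ?_⟩
      rw [Multiset.filter_cons_of_neg (p := fun l : PadicAlgCl p => ‖l‖ = 1) _ h1.ne]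
      have h2 : Red (1 - C l * X ^ s : PowerSeries (PadicAlgCl p)) 1 1 := by
        refine Red.near ?_ fun m hm => ?_
        · rw [map_sub, coeff_one, if_pos rfl, coeff_C_mul, coeff_X_pow, if_neg hs.symm, mul_zero,
            sub_zero]
        · rw [map_sub, coeff_one, if_neg hm, coeff_C_mul, coeff_X_pow, zero_sub, norm_neg,
            norm_mul]
          split_ifs
          · rw [norm_one, mul_one]
            exact h1
          · rw [norm_zero, mul_zero]
            exact one_pos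
      have h3 := h2.mul h
      rwa [one_mul (X ^ a * _)] at h3
    · refine ⟨1 * c, a, by omega, ?_⟩
      rw [Multiset.filter_cons_of_pos (p := fun l : PadicAlgCl p => ‖l‖ = 1) _ h1, Multiset.map_cons, Multiset.prod_cons]
      have h3 := (Red.one_sub h1 hs).mul h
      have h4 : (1 - C (red p l) * X ^ s : PowerSeries (k p)) * (X ^ a *
          ((L.filter fun l => ‖l‖ = 1).map fun l =>
            (1 - C (red p l) * X ^ s : PowerSeries (k p))).prod) =
          X ^ a * ((1 - C (red p l) * X ^ s : PowerSeries (k p)) *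
          ((L.filter fun l => ‖l‖ = 1).map fun l =>
            (1 - C (red p l) * X ^ s : PowerSeries (k p))).prod) := by ring
      rw [← h4]
      exact h3
    · refine ⟨-l * c, s + a, by omega, ?_⟩
      rw [Multiset.filter_cons_of_neg (p := fun l : PadicAlgCl p => ‖l‖ = 1) _ h1.ne']
      have h3 := (Red.big h1 hs).mul h
      rw [pow_add, mul_assoc]
      exact h3

/-- comparison -/
theorem compare {U V Z : PowerSeries (PadicAlgCl p)} {c c' : PadicAlgCl p}
    {G G' : PowerSeries (k p)} {n₀ : ℕ} (hU : Red U c G) (hV : Red V c' G') (hUV : U = V * Z)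
    (hZ0 : coeff 0 Z = 1) (hZ : ∀ m, m ≠ 0 → m ≤ n₀ → ‖coeff m Z‖ < 1)
    (hG : ∃ n ≤ n₀, coeff n G ≠ 0) (hG' : ∃ n ≤ n₀, coeff n G' ≠ 0) :
    ∃ w : k p, w ≠ 0 ∧ ∀ n ≤ n₀, coeff n G' = w * coeff n G := by
  -- truncation of `Z`
  obtain ⟨Z', hZ'⟩ : ∃ Z' : PowerSeries (PadicAlgCl p), ∀ m, coeff m Z' =
    if m ≤ n₀ then coeff m Z else 0 :=
    ⟨PowerSeries.mk fun m => if m ≤ n₀ then coeff m Z else 0, fun m => coeff_mk _ _⟩
  have hZred : Red Z' 1 1 := by
    refine Red.near ?_ fun m hm => ?_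
    · rw [hZ', if_pos (Nat.zero_le _), hZ0]
    · rw [hZ']
      split_ifs with h
      · exact hZ m hm h
      · rw [norm_zero]
        exact one_pos
  have hVZ := hV.mul hZred
  rw [mul_one, mul_one] at hVZ
  have hcoef : ∀ n ≤ n₀, coeff n U = coeff n (V * Z') := by
    intro n hn
    rw [hUV, coeff_mul, coeff_mul]
    refine Finset.sum_congr rfl fun x hx => ?_
    rw [Finset.HasAntidiagonal.mem_antidiagonal] at hx
    rw [hZ', if_pos (by omega)]
  have hfull : ∀ {W : PowerSeries (PadicAlgCl p)} {c : PadicAlgCl p} {G : PowerSeries (k p)}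
      (_ : Red W c G) {n : ℕ}, coeff n G ≠ 0 → ‖coeff n W‖ = ‖c‖ := by
    intro W c G hW n hn
    refine le_antisymm (hW.2 n).1 ?_
    by_contra h
    push Not at h
    apply hn
    rw [← (hW.2 n).2, red_eq_zero (norm_div_le hW.1 (hW.2 n).1), norm_div,
      div_lt_one (norm_pos_iff.2 hW.1)]
    exact h
  obtain ⟨a, ha, hGa⟩ := hG
  obtain ⟨b, hb, hGb⟩ := hG'
  have h1 : ‖c‖ ≤ ‖c'‖ := by
    rw [← hfull hU hGa, hcoef a ha]
    exact (hVZ.2 a).1
  have h2 : ‖c'‖ ≤ ‖c‖ := by
    rw [← hfull hVZ hGb, ← hcoef b hb]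
    exact (hU.2 b).1
  have h3 : ‖c / c'‖ ≤ 1 := norm_div_le hV.1 h1
  refine ⟨red p (c / c'), ?_, fun n hn => ?_⟩
  · rw [Ne, red_eq_zero h3, norm_div, div_lt_one (norm_pos_iff.2 hV.1), not_lt]
    exact h2
  · rw [← (hVZ.2 n).2, ← (hU.2 n).2, ← red_mul h3 (norm_div_le hU.1 (hU.2 n).1), hcoef n hn]
    congr 1
    have := hU.1
    have := hV.1
    field_simp

end RedS

end Pool.Agent.N867.AS
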