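import Pool.Agent.N867.AS.Newt
import Pool.Agent.N867.AS.Red

/-!
# Weighted polynomials and reductions of the Dwork polynomials
-/

set_option autoImplicit false
set_option linter.unusedSectionVars false

namespace Pool.Agent.N867.AS

namespace GW

open MvPolynomial Res Tr Bd

variable {σ : Type} [Fintype σ] [DecidableEq σ]

variable {p : ℕ} [hp : Fact p.Prime] {ω : σ → ℕ} {r : ℝ} {f : MvPolynomial σ (k p)}
  {M s : ℕ}

/-- all monomials of `f` have weight at most `M` -/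
structure WF (f : MvPolynomial σ (k p)) (ω : σ → ℕ) (M : ℕ) : Prop where
  hω : ∀ i, 0 < ω i
  hM : M ≠ 0
  le : ∀ μ ∈ f.support, wt ω μ ≤ M

section lifts

variable (D : Lifts p f s) {N : ℕ} {γ : PadicAlgCl p}

theorem norm_c_le (hs : s ≠ 0) (μ : σ →₀ ℕ) : ‖D.c μ‖ ≤ 1 :=
  norm_le_one_of_pow (one_lt_Q hs) (D.hc μ)

theorem norm_a_le (i : Fin (p - 1)) : ‖D.a i‖ ≤ 1 := norm_le_one_of_pow hp.1.one_lt (D.ha i)

theorem norm_ac (hs : s ≠ 0) (g : Fin (p - 1) × ZMod s) (μ : σ →₀ ℕ) :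
    ‖D.a g.1 * D.c μ ^ p ^ (g.2.val)‖ ≤ 1 := by
  rw [norm_mul, norm_pow]
  exact mul_le_one₀ (norm_a_le D _) (by positivity) (pow_le_one₀ (norm_nonneg _) (norm_c_le D hs μ))

variable (hf : WF f ω M)

include hf

theorem Gf_P (hs : s ≠ 0) (hr : 0 < r) (hr1 : r ≤ 1) (hγ : ‖γ‖ = r ^ M)
    (g : Fin (p - 1) × ZMod s) : P ω r 0 (Gf D N γ g) := by
  rw [Gf]
  exact P.prod_zero hr _ fun μ hμ => Gpoly_P hr hr1 hγ (hf.le μ hμ) (norm_ac D hs g μ)

theorem entry_le (hs : s ≠ 0) (hr : 0 < r) (hr1 : r ≤ 1) (hγ : ‖γ‖ = r ^ M) (T : Finset σ) (B : ℕ)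
    (x y : (Fin (p - 1) × ZMod s) × Idx T B) :
    r ^ Wx ω x * ‖Cmat p (Gf D N γ) (rho p s) T B x y‖ ≤ r ^ (p * Wx ω y) := by
  unfold Cmat
  split_ifs with h1 h2
  · have h3 := Gf_P D hf hs hr hr1 hγ (N := N) x.1 (p • toF y.2.1 - toF x.2.1)
    rw [add_zero] at h3
    calc _ ≤ r ^ Wx ω x * r ^ wt ω (p • toF y.2.1 - toF x.2.1) :=
          mul_le_mul_of_nonneg_left h3 (by positivity)
      _ = r ^ (p * Wx ω y) := by
          rw [← pow_add, add_comm, Wx, wt_tsub ω h2, Wx]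
  · rw [norm_zero, mul_zero]
    positivity
  · rw [norm_zero, mul_zero]
    positivity

theorem entry_scaled (hs : s ≠ 0) (hr : 0 < r) (hr1 : r ≤ 1) (hγ : ‖γ‖ = r ^ M) (T : Finset σ)
    (B : ℕ) (c : PadicAlgCl p) (x y : (Fin (p - 1) × ZMod s) × Idx T B) :
    r ^ Wx ω x * ‖(c • Cmat p (Gf D N γ) (rho p s) T B) x y‖ ≤
      r ^ Wx ω y * (r ^ ((p - 1) * Wx ω y) * ‖c‖) := by
  rw [Matrix.smul_apply, smul_eq_mul, norm_mul]
  have h1 := entry_le D hf hs hr hr1 hγ (N := N) T B x y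
  have h2 : Wx ω y + (p - 1) * Wx ω y = p * Wx ω y := wadd hp.1.ne_zero _
  calc r ^ Wx ω x * (‖c‖ * ‖Cmat p (Gf D N γ) (rho p s) T B x y‖) =
      ‖c‖ * (r ^ Wx ω x * ‖Cmat p (Gf D N γ) (rho p s) T B x y‖) := by ring
    _ ≤ ‖c‖ * r ^ (p * Wx ω y) := mul_le_mul_of_nonneg_left h1 (norm_nonneg _)
    _ = _ := by rw [← h2, pow_add]; ring

/-- small determinants for `T ≠ univ` -/
theorem small_T (hs : s ≠ 0) (hr : 0 < r) (hr1 : r < 1) (hγ : ‖γ‖ = r ^ M) {T : Finset σ}
    (B : ℕ) {e : ℕ} (hTe : T.card + e + 1 = Fintype.card σ) (hσ : 2 ≤ Fintype.card σ) [NeZero s]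
    (n : ℕ) (hn : n ≠ 0) :
    ‖(((p : PadicAlgCl p) ^ e) • Cmat p (Gf D N γ) (rho p s) T B).charpolyRev.coeff n‖ < 1 := by
  classical
  have hp2 := hp.1.two_le
  have hpn : ‖(p : PadicAlgCl p)‖ < 1 := norm_p_lt p
  have hpn0 : 0 < ‖(p : PadicAlgCl p)‖ := norm_pos_iff.2 (Nat.cast_ne_zero.2 hp.1.ne_zero)
  refine Minor.small_of_minors _
    (fun y => r ^ ((p - 1) * Wx ω y) * ‖(p : PadicAlgCl p) ^ e‖) ?_ ?_ ?_ n hn
  · intro x
    rw [norm_pow]
    positivity
  · intro x
    rw [norm_pow]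
    rcases Nat.eq_zero_or_pos e with he | he
    · rw [he, pow_zero, mul_one]
      refine pow_lt_one₀ hr.le hr1 ?_
      have hT : T.Nonempty := by
        rw [← Finset.card_pos]
        omega
      obtain ⟨i, hi⟩ := hT
      have h1 := x.2.2 i hi
      have h2 : 1 ≤ Wx ω x := by
        unfold Wx wt
        calc 1 ≤ ω i * (toF x.2.1 i) := by
              rw [toF_apply]
              exact Nat.mul_pos (hf.hω i) (Nat.pos_of_ne_zero h1)
          _ ≤ _ := Finset.single_le_sum (f := fun i => ω i * toF x.2.1 i)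
              (fun _ _ => Nat.zero_le _) (Finset.mem_univ i)
      have h3 : 0 < (p - 1) * Wx ω x := Nat.mul_pos (by omega) h2
      exact h3.ne'
    · calc _ ≤ 1 * ‖(p : PadicAlgCl p)‖ ^ e :=
            mul_le_mul_of_nonneg_right (pow_le_one₀ hr.le hr1.le) (by positivity)
        _ = ‖(p : PadicAlgCl p)‖ ^ e := one_mul _
        _ < 1 := pow_lt_one₀ hpn0.le hpn he.ne'
  · intro S
    refine Minor.minor_le _ (fun x => r ^ Wx ω x) _ (fun x => by positivity)
      (fun x y => entry_scaled D hf hs hr hr1.le hγ T B _ x y) (fun x => ?_) S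
    rw [norm_pow]
    positivity

end lifts

/-! ### weighted reductions -/

/-- `A` has weighted reduction `A'` -/
def RM (ω : σ → ℕ) (τ : PadicAlgCl p) (A : MvPolynomial σ (PadicAlgCl p))
    (A' : MvPolynomial σ (k p)) : Prop :=
  ∀ v, ‖coeff v A‖ ≤ ‖τ‖ ^ wt ω v ∧ red p (coeff v A / τ ^ wt ω v) = coeff v A'

theorem le_of_div {x y : PadicAlgCl p} {n : ℕ} (hy : y ≠ 0) (h : ‖x‖ ≤ ‖y‖ ^ n) :
    ‖x / y ^ n‖ ≤ 1 := by
  rw [norm_div, norm_pow]
  exact div_le_one_of_le₀ h (by positivity)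

theorem RM.mul {τ : PadicAlgCl p} (hτ : τ ≠ 0) {A B : MvPolynomial σ (PadicAlgCl p)}
    {A' B' : MvPolynomial σ (k p)} (hA : RM ω τ A A') (hB : RM ω τ B B') :
    RM ω τ (A * B) (A' * B') := by
  intro v
  have hle : ∀ x ∈ Finset.HasAntidiagonal.antidiagonal v,
      ‖coeff x.1 A / τ ^ wt ω x.1 * (coeff x.2 B / τ ^ wt ω x.2)‖ ≤ 1 := by
    intro x _
    rw [norm_mul]
    exact mul_le_one₀ (le_of_div hτ (hA _).1) (norm_nonneg _) (le_of_div hτ (hB _).1)
  have hsum : coeff v (A * B) / τ ^ wt ω v = ∑ x ∈ Finset.HasAntidiagonal.antidiagonal v,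
      coeff x.1 A / τ ^ wt ω x.1 * (coeff x.2 B / τ ^ wt ω x.2) := by
    rw [coeff_mul, Finset.sum_div]
    refine Finset.sum_congr rfl fun x hx => ?_
    rw [Finset.HasAntidiagonal.mem_antidiagonal] at hx
    rw [div_mul_div_comm, ← pow_add, ← wt_add, hx]
  constructor
  · have h1 : ‖coeff v (A * B) / τ ^ wt ω v‖ ≤ 1 := by
      rw [hsum]
      exact IsUltrametricDist.norm_sum_le_of_forall_le_of_nonneg zero_le_one hle
    rw [norm_div, norm_pow, div_le_one (by
      have := norm_pos_iff.2 hτ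
      positivity)] at h1
    exact h1
  · rw [hsum, red_sum _ hle, coeff_mul]
    refine Finset.sum_congr rfl fun x _ => ?_
    rw [red_mul (le_of_div hτ (hA _).1) (le_of_div hτ (hB _).1), (hA _).2, (hB _).2]

theorem RM.one {τ : PadicAlgCl p} : RM ω τ (1 : MvPolynomial σ (PadicAlgCl p)) 1 := by
  classical
  intro v
  rw [coeff_one, coeff_one]
  by_cases h : 0 = v
  · rw [if_pos h, if_pos h, ← h, wt_zero, pow_zero, pow_zero, div_one, norm_one, red_one]
    exact ⟨le_rfl, rfl⟩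
  · rw [if_neg h, if_neg h, norm_zero, zero_div, red_zero]
    exact ⟨by positivity, rfl⟩

theorem RM.prod {τ : PadicAlgCl p} (hτ : τ ≠ 0) {ι : Type*} (S : Finset ι)
    {A : ι → MvPolynomial σ (PadicAlgCl p)} {A' : ι → MvPolynomial σ (k p)}
    (h : ∀ i ∈ S, RM ω τ (A i) (A' i)) : RM ω τ (∏ i ∈ S, A i) (∏ i ∈ S, A' i) := by
  classical
  induction S using Finset.induction_on with
  | empty => simpa using RM.one
  | insert a S ha ih =>
    rw [Finset.prod_insert ha, Finset.prod_insert ha]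
    exact (h a (Finset.mem_insert_self a S)).mul hτ
      (ih fun i hi => h i (Finset.mem_insert_of_mem hi))

/-- reduction of the coefficients of the Artin–Hasse series -/
noncomputable def ah (p : ℕ) [Fact p.Prime] (n : ℕ) : k p :=
  red p (PowerSeries.coeff n (AH p (1 : PadicAlgCl p)))

theorem ah_zero : ah p 0 = 1 := by
  unfold ah
  rw [coeff_AH_zero, red_one]

theorem ah_fact {n : ℕ} (hn : n < p) : (n.factorial : k p) * ah p n = 1 := by
  unfold ah
  have h1 := coeff_AH_small (K := PadicAlgCl p) p hp.1.one_lt n hn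
  rw [← red_natCast, ← red_mul (IsUltrametricDist.norm_natCast_le_one _ _) (hE n), h1, red_one]

/-- the reduced `Θ(c X^μ)` -/
noncomputable def Gb (p : ℕ) [Fact p.Prime] (N : ℕ) (μ : σ →₀ ℕ) (c : k p) :
    MvPolynomial σ (k p) :=
  ∑ n ∈ Finset.range N, monomial (n • μ) (ah p n * c ^ n)

theorem smul_inj {μ : σ →₀ ℕ} (hμ : μ ≠ 0) {m n : ℕ} (h : m • μ = n • μ) : m = n := by
  obtain ⟨i, hi⟩ : ∃ i, μ i ≠ 0 := by
    by_contra hcon
    push Not at hcon
    exact hμ (Finsupp.ext hcon)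
  have h1 := DFunLike.congr_fun h i
  simp only [Finsupp.smul_apply, smul_eq_mul] at h1
  exact Nat.eq_of_mul_eq_mul_right (Nat.pos_of_ne_zero hi) h1

theorem RM_top {τ γ : PadicAlgCl p} (hτ : τ ≠ 0) (hτγ : τ ^ M = γ) (hM : M ≠ 0)
    {N : ℕ} {μ : σ →₀ ℕ} (hμ : wt ω μ = M) {c : PadicAlgCl p} (hc : ‖c‖ ≤ 1) :
    RM ω τ (Gpoly N γ μ c) (Gb p N μ (red p c)) := by
  classical
  have hμ0 : μ ≠ 0 := by
    rintro rfl
    rw [wt_zero] at hμ
    exact hM hμ.symm
  intro v
  have hterm : ∀ n, n • μ = v → PowerSeries.coeff n (AH p (1 : PadicAlgCl p)) * γ ^ n * c ^ n /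
      τ ^ wt ω v = PowerSeries.coeff n (AH p (1 : PadicAlgCl p)) * c ^ n := by
    intro n hn
    have hτn : τ ^ wt ω v ≠ 0 := pow_ne_zero _ hτ
    have h1 : γ ^ n = τ ^ wt ω v := by
      rw [← hn, wt_smul, hμ, ← hτγ, ← pow_mul, mul_comm]
    rw [h1, div_eq_iff hτn]
    ring
  by_cases h : ∃ n ∈ Finset.range N, n • μ = v
  · obtain ⟨n, hn, hnv⟩ := h
    have h1 : coeff v (Gpoly N γ μ c) = PowerSeries.coeff n (AH p (1 : PadicAlgCl p)) * γ ^ n *
        c ^ n := by
      rw [Gpoly, coeff_sum, Finset.sum_eq_single n]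
      · rw [coeff_monomial, if_pos hnv]
      · intro m _ hm
        rw [coeff_monomial, if_neg]
        intro h2
        exact hm (smul_inj hμ0 (h2.trans hnv.symm))
      · intro h2
        exact absurd hn h2
    have h2 : coeff v (Gb p N μ (red p c)) = ah p n * red p c ^ n := by
      rw [Gb, coeff_sum, Finset.sum_eq_single n]
      · rw [coeff_monomial, if_pos hnv]
      · intro m _ hm
        rw [coeff_monomial, if_neg]
        intro h2
        exact hm (smul_inj hμ0 (h2.trans hnv.symm))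
      · intro h2
        exact absurd hn h2
    have h3 : ‖PowerSeries.coeff n (AH p (1 : PadicAlgCl p)) * c ^ n‖ ≤ 1 := by
      rw [norm_mul, norm_pow]
      exact mul_le_one₀ (hE n) (by positivity) (pow_le_one₀ (norm_nonneg _) hc)
    rw [h1, h2]
    constructor
    · rw [← hterm n hnv, norm_div, norm_pow, div_le_one (by
        have := norm_pos_iff.2 hτ
        positivity)] at h3
      exact h3
    · rw [hterm n hnv, red_mul (hE n) (by
        rw [norm_pow]
        exact pow_le_one₀ (norm_nonneg _) hc), red_pow hc]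
      rfl
  · push Not at h
    have h1 : coeff v (Gpoly N γ μ c) = 0 := by
      rw [Gpoly, coeff_sum]
      refine Finset.sum_eq_zero fun n hn => ?_
      rw [coeff_monomial, if_neg (h n hn)]
    have h2 : coeff v (Gb p N μ (red p c)) = 0 := by
      rw [Gb, coeff_sum]
      refine Finset.sum_eq_zero fun n hn => ?_
      rw [coeff_monomial, if_neg (h n hn)]
    rw [h1, h2, norm_zero, zero_div, red_zero]
    exact ⟨by positivity, rfl⟩

theorem RM_low {τ γ : PadicAlgCl p} (hτ : τ ≠ 0) (hτ1 : ‖τ‖ < 1) (hτγ : τ ^ M = γ)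
    {N : ℕ} (hN : 0 < N) {μ : σ →₀ ℕ} (hμ : wt ω μ < M) {c : PadicAlgCl p} (hc : ‖c‖ ≤ 1) :
    RM ω τ (Gpoly N γ μ c) 1 := by
  classical
  have hτpos := norm_pos_iff.2 hτ
  have hγ : ‖γ‖ = ‖τ‖ ^ M := by rw [← hτγ, norm_pow]
  intro v
  have h1 := Gpoly_P hτpos hτ1.le hγ hμ.le hc (N := N) v
  have h2 := Gpoly_near hτpos hτ1.le hN hγ hμ hc (N := N) v
  rw [add_zero] at h1
  refine ⟨h1, ?_⟩
  have h3 : ‖coeff v (1 : MvPolynomial σ (PadicAlgCl p)) / τ ^ wt ω v‖ ≤ 1 :=
    le_of_div hτ (RM.one (ω := ω) (τ := τ) v).1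
  have h4 := (RM.one (ω := ω) (τ := τ) v).2
  rw [← h4, red_eq (le_of_div hτ h1) h3, ← sub_div, norm_div, norm_pow,
    div_lt_one (by positivity), ← coeff_sub]
  refine lt_of_le_of_lt h2 ?_
  exact pow_lt_pow_right_of_lt_one₀ hτpos hτ1 (Nat.lt_succ_self _)

/-- the reduction of the polynomials of the Dwork operator -/
noncomputable def Gfb (p : ℕ) [Fact p.Prime] (N : ℕ) (S : Finset (σ →₀ ℕ)) (c : (σ →₀ ℕ) → k p) :
    MvPolynomial σ (k p) :=
  ∏ μ ∈ S, Gb p N μ (c μ)

theorem RM_Gf (hf : WF f ω M) (D : Lifts p f s) (hs : s ≠ 0) {τ γ : PadicAlgCl p} (hτ : τ ≠ 0)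
    (hτ1 : ‖τ‖ < 1) (hτγ : τ ^ M = γ) {N : ℕ} (hN : 0 < N) (g : Fin (p - 1) × ZMod s) :
    RM ω τ (Gf D N γ g) (Gfb p N (f.support.filter fun μ => wt ω μ = M)
      (fun μ => (((g.1 : ℕ) + 1 : ℕ) : k p) * coeff μ f ^ p ^ (g.2.val))) := by
  classical
  have h1 : Gfb p N (f.support.filter fun μ => wt ω μ = M)
      (fun μ => (((g.1 : ℕ) + 1 : ℕ) : k p) * coeff μ f ^ p ^ (g.2.val)) =
      ∏ μ ∈ f.support, if wt ω μ = M then
        Gb p N μ ((((g.1 : ℕ) + 1 : ℕ) : k p) * coeff μ f ^ p ^ (g.2.val)) else 1 := by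
    rw [Gfb, Finset.prod_filter]
  rw [h1, Gf]
  refine RM.prod hτ _ fun μ hμ => ?_
  have hred : red p (D.a g.1 * D.c μ ^ p ^ (g.2.val)) =
      (((g.1 : ℕ) + 1 : ℕ) : k p) * coeff μ f ^ p ^ (g.2.val) := by
    rw [red_mul (norm_a_le D _) (by
      rw [norm_pow]
      exact pow_le_one₀ (norm_nonneg _) (norm_c_le D hs μ)), red_pow (norm_c_le D hs μ),
      D.hared, D.hred]
  split_ifs with h
  · rw [← hred]
    exact RM_top hτ hτγ hf.hM h (norm_ac D hs g μ)
  · exact RM_low hτ hτ1 hτγ hN (lt_of_le_of_ne (hf.le μ hμ) h) (norm_ac D hs g μ)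

/-! ### coefficients of the reduction -/

theorem coeff_Gfb_zero {S : Finset (σ →₀ ℕ)} (hS : ∀ μ ∈ S, wt ω μ = M) (N : ℕ)
    (c : (σ →₀ ℕ) → k p) (v : σ →₀ ℕ) (hv : coeff v (Gfb p N S c) ≠ 0) : M ∣ wt ω v := by
  classical
  induction S using Finset.induction_on generalizing v with
  | empty =>
    rw [Gfb, Finset.prod_empty, coeff_one] at hv
    split_ifs at hv with h
    · rw [← h, wt_zero]
      exact dvd_zero _
    · exact absurd rfl hv
  | insert μ S hμS ih =>
    rw [Gfb, Finset.prod_insert hμS, coeff_mul] at hv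
    obtain ⟨x, hx, hx0⟩ := Finset.exists_ne_zero_of_sum_ne_zero hv
    rw [Finset.HasAntidiagonal.mem_antidiagonal] at hx
    rw [← hx, wt_add]
    refine dvd_add ?_ (ih (fun μ hμ => hS μ (Finset.mem_insert_of_mem hμ)) _
      (right_ne_zero_of_mul hx0))
    have h1 := left_ne_zero_of_mul hx0
    rw [Gb, coeff_sum] at h1
    obtain ⟨n, _, hn⟩ := Finset.exists_ne_zero_of_sum_ne_zero h1
    rw [coeff_monomial] at hn
    split_ifs at hn with h2
    · rw [← h2, wt_smul, hS μ (Finset.mem_insert_self μ S)]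
      exact dvd_mul_left _ _
    · exact absurd rfl hn

/-- the multinomial formula -/
theorem coeff_Gfb {S : Finset (σ →₀ ℕ)} (hM : M ≠ 0) (hS : ∀ μ ∈ S, wt ω μ = M) {N : ℕ}
    (hN : p ≤ N) (c : (σ →₀ ℕ) → k p) {n : ℕ} (hn : n < p) (v : σ →₀ ℕ) (hv : wt ω v = n * M) :
    (n.factorial : k p) * coeff v (Gfb p N S c) =
      coeff v ((∑ μ ∈ S, monomial μ (c μ)) ^ n) := by
  classical
  induction S using Finset.induction_on generalizing n v with
  | empty =>
    rw [Gfb, Finset.prod_empty, Finset.sum_empty]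
    rcases Nat.eq_zero_or_pos n with rfl | hn0
    · rw [Nat.factorial_zero, Nat.cast_one, one_mul, pow_zero]
    · rw [zero_pow hn0.ne', coeff_zero, coeff_one, if_neg, mul_zero]
      intro h
      rw [← h, wt_zero] at hv
      exact (Nat.mul_pos hn0 (Nat.pos_of_ne_zero hM)).ne hv
  | insert μ S hμS ih =>
    have hSM := hS μ (Finset.mem_insert_self μ S)
    have ih' := fun {n : ℕ} (hn : n < p) (v : σ →₀ ℕ) (hv : wt ω v = n * M) =>
      ih (fun μ hμ => hS μ (Finset.mem_insert_of_mem hμ)) hn v hv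
    have hG : Gfb p N (insert μ S) c = Gb p N μ (c μ) * Gfb p N S c := by
      rw [Gfb, Finset.prod_insert hμS, Gfb]
    rw [hG, Finset.sum_insert hμS, add_pow, Gb, Finset.sum_mul, coeff_sum, coeff_sum,
      Finset.mul_sum]
    -- restrict the left-hand sum to `m ≤ n`
    have hsub : Finset.range (n + 1) ⊆ Finset.range N := by
      intro m hm
      rw [Finset.mem_range] at hm ⊢
      omega
    rw [← Finset.sum_subset hsub]
    · refine Finset.sum_congr rfl fun m hm => ?_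
      have hm' : m ≤ n := Nat.lt_succ_iff.1 (Finset.mem_range.1 hm)
      rw [coeff_monomial_mul', monomial_pow, mul_assoc, mul_assoc, coeff_monomial_mul']
      by_cases hle : m • μ ≤ v
      · rw [if_pos hle, if_pos hle]
        have hw : wt ω (v - m • μ) = (n - m) * M := by
          have h1 : wt ω (v - m • μ) + wt ω (m • μ) = wt ω v := by
            rw [← wt_add, tsub_add_cancel_of_le hle]
          rw [wt_smul, hSM, hv] at h1
          rw [Nat.sub_mul]
          omega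
        have h1 := ih' (n := n - m) (by omega) (v - m • μ) hw
        have h2 : coeff (v - m • μ) ((∑ μ ∈ S, monomial μ (c μ)) ^ (n - m) * ((n.choose m : ℕ) :
            MvPolynomial σ (k p))) =
            coeff (v - m • μ) ((∑ μ ∈ S, monomial μ (c μ)) ^ (n - m)) * (n.choose m : k p) := by
          rw [← map_natCast (C : k p →+* MvPolynomial σ (k p)), mul_comm, coeff_C_mul, mul_comm]
        rw [h2, ← h1]
        have h3 := ah_fact (p := p) (n := m) (by omega)
        have h4 : (n.factorial : k p) = (n.choose m : k p) * (m.factorial : k p) *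
            ((n - m).factorial : k p) := by
          rw [← Nat.choose_mul_factorial_mul_factorial hm']
          push_cast
          ring
        rw [h4]
        linear_combination (n.choose m : k p) * ((n - m).factorial : k p) * c μ ^ m *
          coeff (v - m • μ) (Gfb p N S c) * h3
      · rw [if_neg hle, if_neg hle, mul_zero]
    · intro m _ hm
      rw [coeff_monomial_mul', if_neg, mul_zero]
      intro hle
      have h1 : wt ω (v - m • μ) + wt ω (m • μ) = wt ω v := by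
        rw [← wt_add, tsub_add_cancel_of_le hle]
      rw [wt_smul, hSM, hv] at h1
      apply hm
      rw [Finset.mem_range]
      by_contra h2
      have h3 : (n + 1) * M ≤ m * M := Nat.mul_le_mul_right M (not_lt.1 h2)
      have h4 : (n + 1) * M = n * M + M := by ring
      have := Nat.pos_of_ne_zero hM
      omega

end GW

end Pool.Agent.N867.AS
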