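import Pool.Agent.N867.AS.G1
import Pool.Agent.N867.AS.DetRed

/-!
# Leading forms, Frobenius twists and block determinants
-/

set_option autoImplicit false
set_option linter.unusedSectionVars false

namespace Pool.Agent.N867.AS

namespace GW

open MvPolynomial Res Tr Bd

section top

variable {σ : Type} [Fintype σ] [DecidableEq σ] {F : Type} [Field F]

variable {ω : σ → ℕ} {M : ℕ}

/-- the part of weight `M` -/
noncomputable def topf (ω : σ → ℕ) (M : ℕ) (f : MvPolynomial σ F) : MvPolynomial σ F :=
  ∑ μ ∈ f.support.filter (fun μ => wt ω μ = M), monomial μ (coeff μ f)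

theorem coeff_topf (f : MvPolynomial σ F) (v : σ →₀ ℕ) :
    coeff v (topf ω M f) = if wt ω v = M then coeff v f else 0 := by
  classical
  rw [topf, coeff_sum]
  simp only [coeff_monomial]
  rw [Finset.sum_ite_eq' (f.support.filter fun μ => wt ω μ = M) v]
  by_cases h : wt ω v = M
  · rw [if_pos h]
    by_cases h2 : v ∈ f.support
    · rw [if_pos (Finset.mem_filter.2 ⟨h2, h⟩)]
    · rw [if_neg (fun h3 => h2 (Finset.mem_filter.1 h3).1)]
      exact (notMem_support_iff.1 h2).symm
  · rw [if_neg (fun h3 : v ∈ f.support.filter (fun μ => wt ω μ = M) =>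
      h (Finset.mem_filter.1 h3).2), if_neg h]

/-- coefficients of maximal weight of a power -/
theorem coeff_pow_top {f : MvPolynomial σ F} (hf : ∀ μ ∈ f.support, wt ω μ ≤ M) (n : ℕ) :
    (∀ v, n * M < wt ω v → coeff v (f ^ n) = 0) ∧
      ∀ v, wt ω v = n * M → coeff v (f ^ n) = coeff v (topf ω M f ^ n) := by
  classical
  induction n with
  | zero =>
    refine ⟨fun v hv => ?_, fun v _ => by rw [pow_zero, pow_zero]⟩
    rw [pow_zero, coeff_one, if_neg]
    intro h
    rw [← h, wt_zero, Nat.zero_mul] at hv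
    exact lt_irrefl _ hv
  | succ n ih =>
    have hc : ∀ v, M < wt ω v → coeff v f = 0 := by
      intro v hv
      by_contra h
      exact absurd (hf v (mem_support_iff.2 h)) (not_le.2 hv)
    have hsucc : (n + 1) * M = n * M + M := by ring
    constructor
    · intro v hv
      rw [pow_succ, coeff_mul]
      refine Finset.sum_eq_zero fun x hx => ?_
      rw [Finset.HasAntidiagonal.mem_antidiagonal] at hx
      rw [← hx, wt_add, hsucc] at hv
      rcases Nat.lt_or_ge (n * M) (wt ω x.1) with h | h
      · rw [ih.1 _ h, zero_mul]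
      · rw [hc x.2 (by omega), mul_zero]
    · intro v hv
      rw [pow_succ, pow_succ, coeff_mul, coeff_mul]
      refine Finset.sum_congr rfl fun x hx => ?_
      rw [Finset.HasAntidiagonal.mem_antidiagonal] at hx
      rw [← hx, wt_add, hsucc] at hv
      rw [coeff_topf]
      rcases lt_trichotomy (wt ω x.2) M with h | h | h
      · rw [if_neg h.ne, mul_zero, ih.1 _ (by omega), zero_mul]
      · rw [if_pos h, ih.2 _ (by omega)]
      · rw [if_neg h.ne', mul_zero, hc _ h, mul_zero]

theorem topf_map {F' : Type} [Field F'] (φ : F →+* F') (f : MvPolynomial σ F) :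
    topf ω M (map φ f) = map φ (topf ω M f) := by
  ext v
  rw [coeff_topf, coeff_map, coeff_map, coeff_topf]
  split_ifs
  · rfl
  · rw [map_zero]

end top

section twist

variable {σ : Type} [Fintype σ] [DecidableEq σ] {p : ℕ} [hp : Fact p.Prime] {ω : σ → ℕ}
  {f : MvPolynomial σ (k p)} {M s : ℕ}

/-- iterated Frobenius -/
noncomputable def Fr (p : ℕ) [Fact p.Prime] (j : ℕ) : k p →+* k p := iterateFrobenius (k p) p j

theorem Fr_apply (j : ℕ) (x : k p) : Fr p j x = x ^ p ^ j := iterateFrobenius_def p j x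

/-- the entries of the Hasse–Witt matrices -/
noncomputable def NN (f : MvPolynomial σ (k p)) (j n : ℕ) (u v : σ →₀ ℕ) : k p := by
  classical exact if u ≤ p • v then coeff (p • v - u) (map (Fr p j) f ^ n) else 0

theorem NN_twist (f : MvPolynomial σ (k p)) (j n : ℕ) (u v : σ →₀ ℕ) :
    NN f j n u v = Fr p j (NN f 0 n u v) := by
  classical
  have h0 : map (Fr p 0) f = f := by
    ext v
    rw [coeff_map, Fr_apply, pow_zero, pow_one]
  unfold NN
  split_ifs with h
  · rw [h0, ← map_pow, coeff_map]
  · rw [map_zero]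

theorem WF.map_le (hf : WF f ω M) (j : ℕ) : ∀ μ ∈ (map (Fr p j) f).support, wt ω μ ≤ M := by
  intro μ hμ
  refine hf.le μ ?_
  rw [mem_support_iff, coeff_map] at hμ
  rw [mem_support_iff]
  intro h
  rw [h, map_zero] at hμ
  exact hμ rfl

/-- the coefficients of the reduction -/
theorem coeff_red (hf : WF f ω M) {N : ℕ} (hN : p ≤ N) (c : k p) (j : ℕ) {n : ℕ} (hn : n < p)
    (v : σ →₀ ℕ) (hv : wt ω v = n * M) :
    (n.factorial : k p) * coeff v (Gfb p N (f.support.filter fun μ => wt ω μ = M)
      (fun μ => c * coeff μ f ^ p ^ j)) = c ^ n * coeff v (map (Fr p j) f ^ n) := by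
  rw [coeff_Gfb hf.hM (fun μ hμ => (Finset.mem_filter.1 hμ).2) hN _ hn v hv,
    (coeff_pow_top (hf.map_le j) n).2 v hv, topf_map]
  have h1 : ∑ μ ∈ f.support.filter (fun μ => wt ω μ = M), monomial μ (c * coeff μ f ^ p ^ j) =
      C c * map (Fr p j) (topf ω M f) := by
    rw [topf, map_sum, Finset.mul_sum]
    refine Finset.sum_congr rfl fun μ _ => ?_
    rw [map_monomial, C_mul_monomial, Fr_apply]
  rw [h1, mul_pow, ← C_pow, coeff_C_mul]

end twist

/-! ### block determinants -/

section blocks

variable {R : Type*} [CommRing R] {ι : Type*} [Fintype ι] [DecidableEq ι]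

theorem det_blocks (W : ι → ℕ) (M : ℕ) (N : Matrix ι ι R)
    (hbig : ∀ x y, M < W y → N x y = if x = y then 1 else 0)
    (hoff : ∀ x y, W x ≤ M → W y ≤ M → W x ≠ W y → N x y = 0) :
    N.det = ∏ w ∈ Finset.range (M + 1),
      (N.submatrix (Subtype.val : {x // W x = w} → ι) Subtype.val).det := by
  classical
  obtain ⟨b, hb⟩ : ∃ b : ι → Fin (M + 2), ∀ x, (b x : ℕ) = if M < W x then 0 else W x + 1 := by
    refine ⟨fun x => ⟨if M < W x then 0 else W x + 1, ?_⟩, fun x => rfl⟩
    split_ifs <;> omega
  have hb0 : ∀ x, b x = 0 ↔ M < W x := by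
    intro x
    rw [Fin.ext_iff, hb]
    split_ifs with h
    · simp [h]
    · simp only [Fin.val_zero, Nat.add_eq_zero_iff, one_ne_zero, and_false, false_iff]
      exact h
  have hb1 : ∀ x (w : Fin (M + 1)), b x = w.succ ↔ W x = w := by
    intro x w
    rw [Fin.ext_iff, hb, Fin.val_succ]
    have := w.2
    split_ifs with h
    · constructor
      · intro h2
        exact h2.elim
      · intro h2
        omega
    · constructor <;> intro h2 <;> omega
  have htri : N.BlockTriangular b := by
    intro x y hxy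
    have hx : ¬ M < W x := by
      intro h
      rw [(hb0 x).2 h] at hxy
      exact absurd hxy (Fin.not_lt_zero _)
    rw [Fin.lt_def, hb, hb, if_neg hx] at hxy
    by_cases hy : M < W y
    · rw [hbig x y hy, if_neg]
      rintro rfl
      exact hx hy
    · rw [if_neg hy] at hxy
      exact hoff x y (not_lt.1 hx) (not_lt.1 hy) (by omega)
  rw [htri.det_fintype, Fin.prod_univ_succ, ← Fin.prod_univ_eq_prod_range (fun w =>
    (N.submatrix (Subtype.val : {x // W x = w} → ι) Subtype.val).det) (M + 1)]
  have hB0 : (N.toSquareBlock b 0).det = 1 := by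
    have h3 : N.toSquareBlock b 0 = 1 := by
      ext x y
      rw [Matrix.toSquareBlock_def, Matrix.of_apply, hbig _ _ ((hb0 _).1 y.2), Matrix.one_apply]
      simp only [Subtype.ext_iff]
    rw [h3, Matrix.det_one]
  rw [hB0, one_mul]
  refine Finset.prod_congr rfl fun w _ => ?_
  rw [← Matrix.det_submatrix_equiv_self (Equiv.subtypeEquivRight fun x => (hb1 x w).symm)]
  congr 1

end blocks

end GW

end Pool.Agent.N867.AS
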