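import Pool.Agent.N867.AS.G2

/-!
# Reduction of the main Dwork determinant
-/

set_option autoImplicit false
set_option linter.unusedSectionVars false

namespace Pool.Agent.N867.AS

namespace GW

open MvPolynomial Res Tr Bd RedS

variable {σ : Type} [Fintype σ] [DecidableEq σ]

variable {p : ℕ} [hp : Fact p.Prime] {ω : σ → ℕ} {f : MvPolynomial σ (k p)} {M s : ℕ}

/-! ### the constant `γ^(p-1)/p` -/

theorem eta {ζ γ : PadicAlgCl p} (hζ : IsPrimitiveRoot ζ p) (hζlt : ‖ζ - 1‖ < 1) {N : ℕ}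
    (hN : 2 ≤ N) (hγn : ‖γ‖ = ‖ζ - 1‖) (hγζ : (Split.Theta p N γ).eval 1 = ζ) :
    red p (γ ^ (p - 1) / (p : PadicAlgCl p)) = -1 := by
  have hpne : (p : PadicAlgCl p) ≠ 0 := Nat.cast_ne_zero.2 hp.1.ne_zero
  have hζ1 : ζ ≠ 1 := hζ.ne_one hp.1.one_lt
  have hζpos : 0 < ‖ζ - 1‖ := norm_pos_iff.2 (sub_ne_zero.2 hζ1)
  have hγ0 : γ ≠ 0 := by
    rintro rfl
    rw [norm_zero] at hγn
    exact hζpos.ne hγn
  have hγpos : 0 < ‖γ‖ := norm_pos_iff.2 hγ0
  have hγ1 : ‖γ‖ < 1 := by rw [hγn]; exact hζlt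
  have hζp := Split.norm_zeta_sub_one hζ
  -- `x = (ζ - 1)/γ`
  have hx : red p ((ζ - 1) / γ) = 1 := by
    have h1 : ζ - 1 = γ + ∑ j ∈ Finset.Ico 2 N,
        PowerSeries.coeff j (AH p (1 : PadicAlgCl p)) * γ ^ j := by
      have he1 : PowerSeries.coeff 1 (AH p (1 : PadicAlgCl p)) = 1 := by
        have := coeff_AH_small (K := PadicAlgCl p) p hp.1.one_lt 1 hp.1.one_lt
        simpa using this
      have h2 : (Split.Theta p N γ).eval 1 = ∑ j ∈ Finset.range N,
          PowerSeries.coeff j (AH p (1 : PadicAlgCl p)) * γ ^ j := by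
        rw [Split.Theta, Polynomial.eval_finsetSum]
        refine Finset.sum_congr rfl fun j _ => ?_
        rw [Polynomial.eval_monomial, one_pow, mul_one]
      rw [hγζ, Finset.range_eq_Ico, ← Finset.sum_Ico_consecutive _ (by omega : 0 ≤ 2) hN] at h2
      rw [h2]
      simp [Finset.sum_range_succ, coeff_AH_zero, he1]
      ring
    have h2 : ‖(ζ - 1) / γ - 1‖ < 1 := by
      have h3 : (ζ - 1) / γ - 1 = (∑ j ∈ Finset.Ico 2 N,
        PowerSeries.coeff j (AH p (1 : PadicAlgCl p)) * γ ^ j) / γ := by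
        rw [h1, add_div, div_self hγ0]
        ring
      rw [h3, norm_div, div_lt_one hγpos]
      have h4 : ‖∑ j ∈ Finset.Ico 2 N, PowerSeries.coeff j (AH p (1 : PadicAlgCl p)) * γ ^ j‖ ≤
          ‖γ‖ ^ 2 := by
        refine IsUltrametricDist.norm_sum_le_of_forall_le_of_nonneg (by positivity) fun j hj => ?_
        rw [norm_mul, norm_pow]
        calc _ ≤ 1 * ‖γ‖ ^ j := mul_le_mul_of_nonneg_right (hE j) (by positivity)
          _ = ‖γ‖ ^ j := one_mul _
          _ ≤ _ := pow_le_pow_of_le_one (norm_nonneg _) hγ1.le (Finset.mem_Ico.1 hj).1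
      refine lt_of_le_of_lt h4 ?_
      rw [pow_two]
      exact mul_lt_of_lt_one_left hγpos hγ1
    have h3 : ‖(ζ - 1) / γ‖ ≤ 1 := by
      rw [norm_div, hγn, div_self hζpos.ne']
    have h4 := (red_eq h3 (norm_one (α := PadicAlgCl p)).le).2 h2
    rw [h4, red_one]
  -- `y = p/(1 - ζ)^(p-1)`
  have hn1 : ‖ζ‖ ≤ 1 := by
    have h3 : ‖ζ‖ ^ p = 1 := by rw [← norm_pow, hζ.pow_eq_one, norm_one]
    exact ((pow_eq_one_iff_of_nonneg (norm_nonneg _) hp.1.ne_zero).1 h3).le
  have hredζ : red p ζ = 1 := by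
    rw [← red_one, red_eq hn1 (norm_one (α := PadicAlgCl p)).le]
    exact hζlt
  have hsumle : ∀ j, ‖∑ i ∈ Finset.range (j + 1), ζ ^ i‖ ≤ 1 := by
    intro j
    refine IsUltrametricDist.norm_sum_le_of_forall_le_of_nonneg zero_le_one fun i _ => ?_
    rw [norm_pow]
    exact pow_le_one₀ (norm_nonneg _) hn1
  have hprod : (p : PadicAlgCl p) = (1 - ζ) ^ (p - 1) *
      ∏ j ∈ Finset.range (p - 1), ∑ i ∈ Finset.range (j + 1), ζ ^ i := by
    have hp1 : p - 1 + 1 = p := Nat.succ_pred_prime hp.1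
    have h1 := IsPrimitiveRoot.prod_one_sub_pow_eq_order (n := p - 1) (μ := ζ) (by rwa [hp1])
    have h2 : ((p - 1 : ℕ) : PadicAlgCl p) + 1 = (p : PadicAlgCl p) := by
      have : ((p - 1 : ℕ) : PadicAlgCl p) + 1 = ((p - 1 + 1 : ℕ) : PadicAlgCl p) := by
        push_cast
        ring
      rw [this, hp1]
    rw [h2] at h1
    rw [← h1]
    rw [Finset.prod_congr rfl fun j _ => (mul_neg_geom_sum ζ (j + 1)).symm,
      Finset.prod_mul_distrib, Finset.prod_const, Finset.card_range]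
  have hy : red p (∏ j ∈ Finset.range (p - 1), ∑ i ∈ Finset.range (j + 1), ζ ^ i) = -1 := by
    rw [red_prod _ fun j _ => hsumle j]
    have h1 : ∀ j ∈ Finset.range (p - 1), red p (∑ i ∈ Finset.range (j + 1), ζ ^ i) =
        ((j + 1 : ℕ) : k p) := by
      intro j _
      rw [red_sum _ fun i _ => by
        rw [norm_pow]
        exact pow_le_one₀ (norm_nonneg _) hn1]
      rw [Finset.sum_congr rfl fun i _ => by rw [red_pow hn1, hredζ, one_pow], Finset.sum_const,
        Finset.card_range, nsmul_eq_mul, mul_one]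
    rw [Finset.prod_congr rfl h1]
    have h2 : ∏ j ∈ Finset.range (p - 1), ((j + 1 : ℕ) : k p) = (((p - 1).factorial : ℕ) : k p) := by
      rw [← Finset.prod_range_add_one_eq_factorial]
      push_cast
      rfl
    rw [h2]
    have h3 := ZMod.wilsons_lemma p
    have h4 := congrArg (ZMod.castHom (dvd_refl p) (k p)) h3
    rw [map_natCast, map_neg, map_one] at h4
    exact h4
  -- combine
  have hsub : ((ζ - 1) / γ) ^ (p - 1) * (γ ^ (p - 1) / (p : PadicAlgCl p)) *
      ∏ j ∈ Finset.range (p - 1), ∑ i ∈ Finset.range (j + 1), ζ ^ i = (-1) ^ (p - 1) := by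
    have h1 : (1 - ζ) ^ (p - 1) ≠ 0 := pow_ne_zero _ (sub_ne_zero.2 hζ1.symm)
    have h2 : (∏ j ∈ Finset.range (p - 1), ∑ i ∈ Finset.range (j + 1), ζ ^ i) =
        (p : PadicAlgCl p) / (1 - ζ) ^ (p - 1) := by
      rw [eq_div_iff h1]
      rw [mul_comm]
      exact hprod.symm
    have h3 : (ζ - 1) ^ (p - 1) = (-1) ^ (p - 1) * (1 - ζ) ^ (p - 1) := by
      rw [← mul_pow]
      congr 1
      ring
    rw [h2, div_pow, h3]
    have h4 : γ ^ (p - 1) ≠ 0 := pow_ne_zero _ hγ0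
    field_simp
  have hzn : ‖γ ^ (p - 1) / (p : PadicAlgCl p)‖ ≤ 1 := by
    rw [norm_div, norm_pow, hγn, hζp, div_self (norm_pos_iff.2 hpne).ne']
  have hxn : ‖((ζ - 1) / γ)‖ ≤ 1 := by
    rw [norm_div, hγn, div_self hζpos.ne']
  have hyn : ‖∏ j ∈ Finset.range (p - 1), ∑ i ∈ Finset.range (j + 1), ζ ^ i‖ ≤ 1 := by
    rw [norm_prod]
    exact Finset.prod_le_one (fun _ _ => norm_nonneg _) fun j _ => hsumle j
  have hm1 : ‖(-1 : PadicAlgCl p)‖ ≤ 1 := by rw [norm_neg, norm_one]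
  have hredm1 : red p (-1 : PadicAlgCl p) = -1 := by
    have h1 : red p (-1 : PadicAlgCl p) + red p 1 = 0 := by
      rw [← red_add hm1 (norm_one (α := PadicAlgCl p)).le, neg_add_cancel, red_zero]
    rw [red_one] at h1
    exact eq_neg_of_add_eq_zero_left h1
  have h1 := congrArg (red p) hsub
  rw [red_mul (by
    rw [norm_mul, norm_pow]
    exact mul_le_one₀ (pow_le_one₀ (norm_nonneg _) hxn) (norm_nonneg _) hzn) hyn,
    red_mul (by
      rw [norm_pow]
      exact pow_le_one₀ (norm_nonneg _) hxn) hzn, red_pow hxn, hx, one_pow, one_mul, hy,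
    red_pow hm1, hredm1] at h1
  have h2 : (-1 : k p) ^ (p - 1) = 1 := by
    have h3 : (-1 : k p) ^ p = -1 := by
      have h5 := map_neg (frobenius (k p) p) 1
      rw [frobenius_def, map_one] at h5
      exact h5
    have h4 : (-1 : k p) ^ (p - 1) * (-1) = -1 := by
      rw [← pow_succ, Nat.sub_add_cancel hp.1.one_le, h3]
    linear_combination -h4
  rw [h2] at h1
  linear_combination -h1

/-! ### lattice points -/

/-- exponents of weight `w` with nonzero coordinates -/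
abbrev SW (ω : σ → ℕ) (w : ℕ) : Type := {v : σ →₀ ℕ // (∀ i, v i ≠ 0) ∧ wt ω v = w}

/-- the Hasse–Witt matrix in weight `w` is nonsingular -/
def Ord (f : MvPolynomial σ (k p)) (ω : σ → ℕ) (M w : ℕ) : Prop :=
  ∃ (ι : Type) (_ : Fintype ι) (_ : DecidableEq ι) (E : ι ≃ SW ω w),
    (Matrix.of fun x y => NN f 0 ((p - 1) * w / M) (E x).1 (E y).1).det ≠ 0

theorem exists_equiv (hω : ∀ i, 0 < ω i) {w B : ℕ} (hw : w ≤ B) {Γ ι : Type} (E : ι ≃ SW ω w) :
    ∃ e : (Γ × ι) ≃ {x : Γ × Idx (Finset.univ : Finset σ) B // Wx ω x = w},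
      ∀ z, (e z).1.1 = z.1 ∧ toF (e z).1.2.1 = (E z.2).1 := by
  have hle : ∀ v : SW ω w, ∀ i, v.1 i ≤ B := by
    rintro ⟨v, hv1, hv2⟩ i
    have h2 : ω i * v i ≤ wt ω v := by
      unfold wt
      exact Finset.single_le_sum (f := fun i => ω i * v i) (fun _ _ => Nat.zero_le _)
        (Finset.mem_univ i)
    have h4 : 1 * v i ≤ ω i * v i := Nat.mul_le_mul_right _ (hω i)
    change v i ≤ B
    omega
  choose u hu using fun v : SW ω w => exists_toF (hle v)
  obtain ⟨e, he⟩ : ∃ e : Γ × ι → {x : Γ × Idx (Finset.univ : Finset σ) B // Wx ω x = w},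
      ∀ z, (e z).1.1 = z.1 ∧ toF (e z).1.2.1 = (E z.2).1 := by
    refine ⟨fun z => ⟨(z.1, ⟨u (E z.2), fun i _ => ?_⟩), ?_⟩, fun z => ⟨rfl, ?_⟩⟩
    · rw [← toF_apply, hu]
      exact (E z.2).2.1 i
    · change wt ω (toF (u (E z.2))) = w
      rw [hu]
      exact (E z.2).2.2
    · exact hu _
  have hbij : Function.Bijective e := by
    constructor
    · intro z z' h
      have h1 := (he z).1
      have h2 := (he z).2
      rw [h] at h1 h2
      have h3 := (he z').1
      have h4 := (he z').2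
      refine Prod.ext (h1.symm.trans h3) ?_
      exact E.injective (Subtype.ext (h2.symm.trans h4))
    · rintro ⟨⟨g, v⟩, hv⟩
      obtain ⟨i, hi⟩ := E.surjective ⟨toF v.1, fun i => by
        rw [toF_apply]
        exact v.2 i (Finset.mem_univ i), hv⟩
      refine ⟨(g, i), ?_⟩
      apply Subtype.ext
      refine Prod.ext (he (g, i)).1 ?_
      apply Subtype.ext
      apply toF_inj
      rw [(he (g, i)).2, hi]
  exact ⟨Equiv.ofBijective e hbij, he⟩

/-- the main determinant in weight `M` -/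
noncomputable def DM (f : MvPolynomial σ (k p)) (s : ℕ) [NeZero s] {ιM : Type} [Fintype ιM]
    [DecidableEq ιM] (E : ιM → σ →₀ ℕ) : Polynomial (k p) :=
  (Matrix.of fun x y : (Fin (p - 1) × ZMod s) × ιM => (if x = y then (1 : Polynomial (k p)) else 0) -
    if y.1 = rho p s x.1 then Polynomial.X * Polynomial.C (NN f x.1.2.val (p - 1) (E x.2) (E y.2))
      else 0).det

/-- determinants of shifted block matrices -/
theorem det_shift {F : Type} [Field F] {Γ ι : Type} [Fintype Γ] [DecidableEq Γ] [Fintype ι]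
    [DecidableEq ι] (ρ : Γ ≃ Γ) (K : Γ → Matrix ι ι F) (hK : ∀ g, (K g).det ≠ 0) :
    (Matrix.of fun x y : Γ × ι => if y.1 = ρ x.1 then K x.1 x.2 y.2 else 0).det ≠ 0 := by
  obtain ⟨π, hπ⟩ : ∃ π : Equiv.Perm (Γ × ι), ∀ z, π z = (ρ z.1, z.2) :=
    ⟨Equiv.prodCongr ρ (Equiv.refl ι), fun _ => rfl⟩
  have h1 := Matrix.det_permute' π
    (Matrix.of fun x y : Γ × ι => if y.1 = ρ x.1 then K x.1 x.2 y.2 else 0)
  have h2 : ((Matrix.of fun x y : Γ × ι => if y.1 = ρ x.1 then K x.1 x.2 y.2 else 0).submatrix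
      id π).submatrix (Equiv.prodComm ι Γ) (Equiv.prodComm ι Γ) = Matrix.blockDiagonal K := by
    ext x y
    rw [Matrix.submatrix_apply, Matrix.submatrix_apply, Matrix.of_apply, hπ,
      Matrix.blockDiagonal_apply]
    simp only [Equiv.prodComm_apply, Prod.fst_swap, Prod.snd_swap, id_eq, ρ.injective.eq_iff]
    by_cases h : x.2 = y.2
    · rw [if_pos h.symm, if_pos h]
    · rw [if_neg (fun h' => h h'.symm), if_neg h]
  have h3 : (((Matrix.of fun x y : Γ × ι => if y.1 = ρ x.1 then K x.1 x.2 y.2 else 0).submatrix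
      id π)).det ≠ 0 := by
    rw [← Matrix.det_submatrix_equiv_self (Equiv.prodComm ι Γ), h2, Matrix.det_blockDiagonal]
    exact Finset.prod_ne_zero_iff.2 fun g _ => hK g
  intro h0
  rw [h0, mul_zero] at h1
  exact h3 h1

end GW

end Pool.Agent.N867.AS
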