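import Pool.Agent.N867.AS.G3

/-!
# Reduction of the main Dwork determinant, general leading forms
-/

set_option autoImplicit false
set_option linter.unusedSectionVars false

namespace Pool.Agent.N867.AS

namespace GW

open MvPolynomial Res Tr Bd RedS

variable {σ : Type} [Fintype σ] [DecidableEq σ]

variable {p : ℕ} [hp : Fact p.Prime] {ω : σ → ℕ} {f : MvPolynomial σ (k p)} {M s : ℕ}

/-- the reduced matrix of the Dwork operator -/
noncomputable def cb (p : ℕ) [Fact p.Prime] (f : MvPolynomial σ (k p)) (ω : σ → ℕ) (M N s : ℕ)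
    [NeZero s] (B : ℕ)
    (x y : (Fin (p - 1) × ZMod s) × Idx (Finset.univ : Finset σ) B) : k p := by
  classical exact if y.1 = rho p s x.1 then (if toF x.2.1 ≤ p • toF y.2.1 then
    coeff (p • toF y.2.1 - toF x.2.1) (Gfb p N (f.support.filter fun μ => wt ω μ = M)
      (fun μ => (((x.1.1 : ℕ) + 1 : ℕ) : k p) * coeff μ f ^ p ^ (x.1.2.val))) else 0) else 0

theorem Wx_pos (hω : ∀ i, 0 < ω i) [Nonempty σ] {Γ : Type} {B : ℕ}
    (x : Γ × Idx (Finset.univ : Finset σ) B) : 0 < Wx ω x := by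
  obtain ⟨i⟩ := ‹Nonempty σ›
  unfold Wx wt
  calc 0 < ω i * (toF x.2.1 i) := by
        rw [toF_apply]
        exact Nat.mul_pos (hω i) (Nat.pos_of_ne_zero (x.2.2 i (Finset.mem_univ i)))
    _ ≤ _ := Finset.single_le_sum (f := fun i => ω i * toF x.2.1 i)
        (fun _ _ => Nat.zero_le _) (Finset.mem_univ i)

theorem cb_off (hf : WF f ω M) (hMp : M ∣ p - 1) [Nonempty σ] {N : ℕ} [NeZero s] {B : ℕ}
    {x y : (Fin (p - 1) × ZMod s) × Idx (Finset.univ : Finset σ) B} (hx : Wx ω x ≤ M)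
    (hy : Wx ω y ≤ M) (hne : Wx ω x ≠ Wx ω y) : cb p f ω M N s B x y = 0 := by
  classical
  unfold cb
  split_ifs with h1 h2
  · by_contra h3
    have h4 := coeff_Gfb_zero (ω := ω) (M := M) (fun μ hμ => (Finset.mem_filter.1 hμ).2) N _ _ h3
    have h5 := wt_tsub ω h2
    have hx0 := Wx_pos hf.hω x
    have hy0 := Wx_pos hf.hω y
    have h6 : wt ω (p • toF y.2.1 - toF x.2.1) + Wx ω x = p * Wx ω y := h5
    obtain ⟨c, hc⟩ := h4
    obtain ⟨d, hd⟩ := hMp
    rw [hc] at h6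
    obtain ⟨wx, hwx⟩ : ∃ wx, wx = Wx ω x := ⟨_, rfl⟩
    obtain ⟨wy, hwy⟩ : ∃ wy, wy = Wx ω y := ⟨_, rfl⟩
    rw [← hwx] at hx hx0 h6 hne
    rw [← hwy] at hy hy0 h6 hne
    have h7 := wadd hp.1.ne_zero wy
    rw [hd] at h7
    have h8 : (M : ℤ) ∣ (wy : ℤ) - (wx : ℤ) := by
      refine ⟨(c : ℤ) - d * wy, ?_⟩
      have h9 : (M * c : ℤ) + wx = p * wy := by exact_mod_cast h6
      have h10 : (wy : ℤ) + M * d * wy = p * wy := by exact_mod_cast h7
      linear_combination h10 - h9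
    have h9 : (wy : ℤ) - (wx : ℤ) = 0 := by
      refine Int.eq_zero_of_abs_lt_dvd h8 ?_
      rw [abs_lt]
      constructor <;> omega
    apply hne
    omega
  · rfl
  · rfl

theorem cb_diag (hf : WF f ω M) (hMp : M ∣ p - 1) {N : ℕ} (hN : p ≤ N) [NeZero s] {B : ℕ}
    {w : ℕ} (hw : w ≤ M)
    {x y : (Fin (p - 1) × ZMod s) × Idx (Finset.univ : Finset σ) B} (hx : Wx ω x = w)
    (hy : Wx ω y = w) :
    ((((p - 1) * w / M).factorial : ℕ) : k p) * cb p f ω M N s B x y =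
      if y.1 = rho p s x.1 then (((x.1.1 : ℕ) + 1 : ℕ) : k p) ^ ((p - 1) * w / M) *
        NN f x.1.2.val ((p - 1) * w / M) (toF x.2.1) (toF y.2.1) else 0 := by
  classical
  unfold cb NN
  by_cases h1 : y.1 = rho p s x.1
  swap
  · rw [if_neg h1, if_neg h1, mul_zero]
  rw [if_pos h1, if_pos h1]
  by_cases h2 : toF x.2.1 ≤ p • toF y.2.1
  swap
  · rw [if_neg h2, if_neg h2, mul_zero, mul_zero]
  rw [if_pos h2, if_pos h2]
  have hdvd : M ∣ (p - 1) * w := hMp.mul_right w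
  have hMpos := Nat.pos_of_ne_zero hf.hM
  have hp2 := hp.1.two_le
  refine coeff_red hf hN _ _ ?_ _ ?_
  · have h3 : (p - 1) * w / M ≤ p - 1 := by
      rw [Nat.div_le_iff_le_mul_add_pred hMpos]
      have : (p - 1) * w ≤ (p - 1) * M := Nat.mul_le_mul_left _ hw
      rw [mul_comm M]
      omega
    omega
  · rw [Nat.div_mul_cancel hdvd]
    have h5 : wt ω (p • toF y.2.1 - toF x.2.1) + Wx ω x = p * Wx ω y := wt_tsub ω h2
    have h7 := wadd hp.1.ne_zero w
    rw [hx, hy] at h5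
    omega

/-- the determinant of a block -/
theorem cb_det (hf : WF f ω M) (hMp : M ∣ p - 1) {N : ℕ} (hN : p ≤ N) [NeZero s] {B : ℕ}
    {w : ℕ} (hw : w ≤ M) (hwB : w ≤ B) (hord : Ord f ω M w) :
    ((Matrix.of (cb p f ω M N s B)).submatrix
      (Subtype.val : {x : (Fin (p - 1) × ZMod s) × Idx (Finset.univ : Finset σ) B //
        Wx ω x = w} → _) Subtype.val).det ≠ 0 := by
  classical
  obtain ⟨ι, i1, i2, E, hdet⟩ := hord
  obtain ⟨e, he⟩ := exists_equiv (Γ := Fin (p - 1) × ZMod s) hf.hω hwB E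
  obtain ⟨n, hn⟩ : ∃ n, n = (p - 1) * w / M := ⟨_, rfl⟩
  have hMpos := Nat.pos_of_ne_zero hf.hM
  have hp2 := hp.1.two_le
  have hnp : n < p := by
    have h3 : (p - 1) * w / M ≤ p - 1 := by
      rw [Nat.div_le_iff_le_mul_add_pred hMpos]
      have : (p - 1) * w ≤ (p - 1) * M := Nat.mul_le_mul_left _ hw
      rw [mul_comm M]
      omega
    omega
  have hfact : ((n.factorial : ℕ) : k p) ≠ 0 := by
    intro h0
    have h1 := ah_fact hnp
    rw [h0, zero_mul] at h1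
    exact zero_ne_one h1
  have hc : ∀ g : Fin (p - 1), (((g : ℕ) + 1 : ℕ) : k p) ≠ 0 := by
    intro g h0
    rw [CharP.cast_eq_zero_iff (k p) p] at h0
    have h3 := Nat.le_of_dvd (Nat.succ_pos _) h0
    have := g.2
    omega
  rw [← Matrix.det_submatrix_equiv_self e]
  obtain ⟨ρ, hρ⟩ : ∃ ρ : (Fin (p - 1) × ZMod s) ≃ (Fin (p - 1) × ZMod s), ∀ g,
      ρ g = rho p s g := by
    refine ⟨⟨rho p s, fun g => (g.1, g.2 - 1), fun g => ?_, fun g => ?_⟩, fun g => rfl⟩
    · simp [rho]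
    · simp [rho]
  have h1 := det_shift ρ (fun g : Fin (p - 1) × ZMod s =>
    ((((g.1 : ℕ) + 1 : ℕ) : k p) ^ n * ((n.factorial : ℕ) : k p)⁻¹) •
      (Matrix.of fun x y : ι => NN f g.2.val n (E x).1 (E y).1)) (fun g => by
    rw [Matrix.det_smul]
    refine mul_ne_zero (pow_ne_zero _ (mul_ne_zero (pow_ne_zero _ (hc _)) (inv_ne_zero hfact))) ?_
    have h2 : (Matrix.of fun x y : ι => NN f g.2.val n (E x).1 (E y).1) =
        (Matrix.of fun x y : ι => NN f 0 n (E x).1 (E y).1).map (Fr p g.2.val) := by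
      ext x y
      rw [Matrix.of_apply, Matrix.map_apply, Matrix.of_apply, NN_twist]
    rw [h2, ← RingHom.mapMatrix_apply, ← RingHom.map_det, Ne,
      map_eq_zero_iff _ (Fr p g.2.val).injective, hn]
    exact hdet)
  refine ne_of_eq_of_ne (congrArg Matrix.det ?_) h1
  ext1 z z'
  rw [Matrix.submatrix_apply, Matrix.submatrix_apply, Matrix.of_apply, Matrix.of_apply]
  have h2 := cb_diag hf hMp hN (B := B) hw (e z).2 (e z').2 (s := s)
  rw [← hn, (he z).1, (he z').1, (he z).2, (he z').2] at h2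
  rw [← hρ] at h2
  by_cases h3 : z'.1 = ρ z.1
  · rw [if_pos h3] at h2 ⊢
    rw [Matrix.smul_apply, Matrix.of_apply, smul_eq_mul]
    field_simp
    rw [mul_comm]
    exact h2
  · rw [if_neg h3] at h2 ⊢
    exact (mul_eq_zero.1 h2).resolve_left hfact

end GW

end Pool.Agent.N867.AS
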