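import Pool.Agent.N867.AS.Core

/-!
# The ideals `(F_i, y - j)`
-/

set_option autoImplicit false
set_option linter.unusedSectionVars false

namespace Pool.Agent.N867.AS

namespace Core

open Polynomial WithZero Pool.Agent.N867.AS.Frame ASR Root

/-! ### products of two-generator ideals -/

theorem prod_span_le {R ι : Type*} [CommRing R] (s : Finset ι) (G : R) (H : ι → R) :
    ∏ i ∈ s, Ideal.span {G, H i} ≤ Ideal.span {G, ∏ i ∈ s, H i} := by
  classical
  induction s using Finset.induction_on with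
  | empty =>
    rw [Finset.prod_empty, Finset.prod_empty]
    intro x _
    rw [Ideal.mem_span_pair]
    exact ⟨0, x, by ring⟩
  | insert a s ha ih =>
    rw [Finset.prod_insert ha, Finset.prod_insert ha]
    refine (Ideal.mul_mono_right ih).trans ?_
    rw [Ideal.mul_le]
    intro r hr t ht
    rw [Ideal.mem_span_pair] at hr ht ⊢
    obtain ⟨r1, r2, rfl⟩ := hr
    obtain ⟨t1, t2, rfl⟩ := ht
    exact ⟨r1 * (t1 * G + t2 * ∏ i ∈ s, H i) + r2 * H a * t1, r2 * t2, by ring⟩

theorem prod_span_eq {R ι : Type*} [CommRing R] (s : Finset ι) (G : R) (H : ι → R)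
    (hcop : ∀ i ∈ s, ∀ j ∈ s, i ≠ j → IsCoprime (H i) (H j)) (hdvd : G ∣ ∏ i ∈ s, H i) :
    ∏ i ∈ s, Ideal.span {G, H i} = Ideal.span {G} := by
  refine le_antisymm ((prod_span_le s G H).trans ?_) ?_
  · rw [Ideal.span_le]
    rintro x (rfl | hx)
    · exact Ideal.mem_span_singleton_self _
    · rw [Set.mem_singleton_iff] at hx
      rw [hx]
      exact Ideal.mem_span_singleton.2 hdvd
  · rw [Ideal.prod_eq_iInf_of_pairwise_isCoprime]
    · refine le_iInf fun i => le_iInf fun _ => ?_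
      exact Ideal.span_mono (by simp)
    · intro i hi j hj hij
      have h1 := hcop i hi j hj hij
      obtain ⟨u, v, huv⟩ := h1
      change IsCoprime (Ideal.span {G, H i}) (Ideal.span {G, H j})
      rw [Ideal.isCoprime_iff_exists]
      refine ⟨u * H i, ?_, v * H j, ?_, huv⟩
      · exact Ideal.mul_mem_left _ _ (Ideal.subset_span (by simp))
      · exact Ideal.mul_mem_left _ _ (Ideal.subset_span (by simp))

/-! ### coprimality of the factors -/

section cop

variable {κ : Type} [Field κ] {a b : ℕ}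

theorem coprime_toK {β β' : κ} {F F' : κ[X][X]} (hF : Wt a b β F) (hF' : Wt a b β' F')
    (ha : a ≠ 0) (hab : a.Coprime b) (hβ : β ≠ 0) (hββ : β' ≠ β) :
    IsCoprime (toK κ F) (toK κ F') := by
  obtain ⟨V, hV⟩ := Val.exists_ext (F := F₀ κ) (Ω := AlgebraicClosure (F₀ κ)) (v κ)
  have hg : Function.Injective ((jj κ a b).comp C) := (jj_inj ha).comp C_injective
  obtain ⟨φ, hφ⟩ : ∃ φ : RatFunc κ →+* AlgebraicClosure (F₀ κ), ∀ c : κ[X],
      φ (algebraMap κ[X] (RatFunc κ) c) = jj κ a b (C c) :=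
    ⟨IsFractionRing.lift hg, fun c => IsFractionRing.lift_algebraMap hg c⟩
  let alg : Algebra (RatFunc κ) (AlgebraicClosure (F₀ κ)) := φ.toAlgebra
  have hev : ∀ (ξ : AlgebraicClosure (F₀ κ)) (c : κ[X][X]),
      (aeval ξ (toK κ c) : AlgebraicClosure (F₀ κ)) = ev κ a b ξ c := by
    intro ξ c
    rw [aeval_def, toK, coe_mapRingHom, eval₂_map, ev, coe_eval₂RingHom]
    congr 1
    exact RingHom.ext fun d => hφ d
  refine (isCoprime_iff_aeval_ne_zero_of_isAlgClosed (RatFunc κ) (AlgebraicClosure (F₀ κ)) _ _).2 ?_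
  intro ξ
  rw [hev, hev]
  by_contra h
  push Not at h
  have h1 := hF.val_other hF' ha hab hV hβ hββ h.1
  rw [h.2, map_zero] at h1
  exact pow_ne_zero _ (θ_ne hV) h1.symm

end cop

/-! ### the grid of ideals -/

section grid

variable {κ : Type} [Field κ] {a b p : ℕ} {ι : Type} [Fintype ι] [DecidableEq ι]
  (β : ι → κ) (F : ι → κ[X][X])

/-- the ideal `(F_i, y - j)` -/
noncomputable def II (p : ℕ) (F : ι → κ[X][X]) (i : ι) (j : Fin p) :
    Ideal (AS p (toK κ (∏ i, F i))) :=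
  Ideal.span {AdjoinRoot.of (Phi p (toK κ (∏ i, F i))) (toK κ (F i)),
    yy p (toK κ (∏ i, F i)) - ((j : ℕ) : AS p (toK κ (∏ i, F i)))}

variable {β F}

theorem charP_AS (hp : p.Prime) [CharP κ p] {B : Type} [CommRing B] [Nontrivial B] (g : κ →+* B)
    (f : B) : CharP (AS p f) p := by
  have : Nontrivial (AS p f) := by
    refine nontrivial_of_ne (1 : AS p f) 0 fun h => ?_
    have h1 : AdjoinRoot.mk (Phi p f) 1 = 0 := by rw [map_one]; exact h
    have h2 := rep_unique hp.one_lt (by rw [natDegree_one]; exact hp.pos) h1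
    exact one_ne_zero h2
  exact charP_of_injective_ringHom (((AdjoinRoot.of (Phi p f)).comp g).injective) p

theorem prod_Y (hp : p.Prime) {B : Type} [CommRing B] (f : B) [CharP (AS p f) p] :
    ∏ j : Fin p, (yy p f - ((j : ℕ) : AS p f)) = AdjoinRoot.of (Phi p f) f := by
  rw [prod_sub hp, yy_spec]

theorem cop_Y (hp : p.Prime) {B : Type} [CommRing B] (f : B) [CharP (AS p f) p] {i j : Fin p}
    (hij : i ≠ j) : IsCoprime (yy p f - ((i : ℕ) : AS p f)) (yy p f - ((j : ℕ) : AS p f)) := by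
  obtain ⟨u, hu⟩ := (isUnit_sub (R := AS p f) hp hij)
  refine ⟨-((u⁻¹ : (AS p f)ˣ) : AS p f), ((u⁻¹ : (AS p f)ˣ) : AS p f), ?_⟩
  have h1 := Units.inv_mul u
  rw [hu] at h1
  linear_combination h1

theorem prod_II_j (hp : p.Prime) [CharP κ p] (i : ι) :
    ∏ j : Fin p, II p F i j =
      Ideal.span {AdjoinRoot.of (Phi p (toK κ (∏ i, F i))) (toK κ (F i))} := by
  have hch : CharP (AS p (toK κ (∏ i, F i))) p :=
    charP_AS hp (C.comp (algebraMap κ (RatFunc κ))) _
  unfold II
  refine prod_span_eq Finset.univ _ _ (fun i _ j _ hij => cop_Y hp _ hij) ?_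
  rw [prod_Y hp]
  exact _root_.map_dvd _ (_root_.map_dvd _ (Finset.dvd_prod_of_mem F (Finset.mem_univ i)))

theorem prod_II_i (hp : p.Prime) [CharP κ p] (hF : ∀ i, Wt a b (β i) (F i)) (ha : a ≠ 0)
    (hab : a.Coprime b) (hβ : ∀ i, β i ≠ 0) (hinj : Function.Injective β) (j : Fin p) :
    ∏ i : ι, II p F i j = Ideal.span {yy p (toK κ (∏ i, F i)) -
      ((j : ℕ) : AS p (toK κ (∏ i, F i)))} := by
  have hch : CharP (AS p (toK κ (∏ i, F i))) p :=
    charP_AS hp (C.comp (algebraMap κ (RatFunc κ))) _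
  unfold II
  have h1 : ∀ i : ι, Ideal.span {AdjoinRoot.of (Phi p (toK κ (∏ i, F i))) (toK κ (F i)),
      yy p (toK κ (∏ i, F i)) - ((j : ℕ) : AS p (toK κ (∏ i, F i)))} =
      Ideal.span {yy p (toK κ (∏ i, F i)) - ((j : ℕ) : AS p (toK κ (∏ i, F i))),
        AdjoinRoot.of (Phi p (toK κ (∏ i, F i))) (toK κ (F i))} := by
    intro i
    rw [Set.pair_comm]
  rw [Finset.prod_congr rfl fun i _ => h1 i]
  refine prod_span_eq Finset.univ _ _ (fun i _ i' _ hij => ?_) ?_
  · exact (coprime_toK (hF i) (hF i') ha hab (hβ i) (fun h => hij (hinj h).symm)).map _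
  · rw [← map_prod, ← map_prod, ← prod_Y hp]
    exact Finset.dvd_prod_of_mem (fun j : Fin p => yy p (toK κ (∏ i, F i)) -
      ((j : ℕ) : AS p (toK κ (∏ i, F i)))) (Finset.mem_univ j)

end grid

end Core

end Pool.Agent.N867.AS
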