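import Pool.Agent.N867.AS.Series

/-!
# Integrality of the Artin–Hasse exponential
-/

set_option autoImplicit false

open PowerSeries

namespace Pool.Agent.N867.AS

namespace Integral

variable (p : ℕ) [hp : Fact p.Prime]

/-- `exp (p X)` -/
noncomputable def W : ℚ_[p]⟦X⟧ := expPS fun m => if m = 1 then -(p : ℚ_[p]) else 0

theorem W_spec : HasPS (W p) fun m => if m = 1 then -(p : ℚ_[p]) else 0 := hasPS_expPS _

theorem W_coeff (n : ℕ) : (n.factorial : ℚ_[p]) * coeff n (W p) = (p : ℚ_[p]) ^ n := by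
  induction n with
  | zero =>
    rw [coeff_zero_eq_constantCoeff_apply, (W_spec p).1]
    simp
  | succ n ih =>
    have h1 := (W_spec p).coeff_eq (n + 1)
    rw [Nat.factorial_succ]
    push_cast at h1 ⊢
    rw [mul_comm ((n : ℚ_[p]) + 1), mul_assoc, h1, Finset.sum_eq_single 0]
    · rw [if_pos (by norm_num)]
      simp only [Nat.sub_zero]
      linear_combination (p : ℚ_[p]) * ih
    · intro j hj hj0
      rw [if_neg (by omega), zero_mul]
    · intro h
      exact absurd (Finset.mem_range.2 (Nat.succ_pos n)) h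

theorem W_norm (n : ℕ) (hn : n ≠ 0) : ‖coeff n (W p)‖ ≤ ‖(p : ℚ_[p])‖ := by
  have h1 := congrArg norm (W_coeff p n)
  rw [norm_mul, norm_pow] at h1
  have hf : (n.factorial : ℚ_[p]) ≠ 0 := Nat.cast_ne_zero.2 n.factorial_ne_zero
  have hf' : 0 < ‖(n.factorial : ℚ_[p])‖ := norm_pos_iff.2 hf
  have h2 : ‖(p : ℚ_[p])‖ ^ (n - 1) ≤ ‖(n.factorial : ℚ_[p])‖ := by
    have h3 : padicValNat p n.factorial ≤ n - 1 := by
      have h4 := sub_one_mul_padicValNat_factorial_lt_of_ne_zero (p := p) hn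
      have h5 := hp.1.two_le
      have h6 : 1 * padicValNat p n.factorial ≤ (p - 1) * padicValNat p n.factorial :=
        Nat.mul_le_mul_right _ (by omega)
      omega
    rw [Padic.norm_eq_zpow_neg_valuation hf, Padic.valuation_natCast, Padic.norm_p,
      inv_pow, ← zpow_natCast, ← zpow_neg]
    apply zpow_le_zpow_right₀
    · exact_mod_cast hp.1.one_lt.le
    · omega
  have h3 : ‖(n.factorial : ℚ_[p])‖ * ‖coeff n (W p)‖ ≤
      ‖(n.factorial : ℚ_[p])‖ * ‖(p : ℚ_[p])‖ := by
    rw [h1, show ‖(p : ℚ_[p])‖ ^ n = ‖(p : ℚ_[p])‖ ^ (n - 1) * ‖(p : ℚ_[p])‖ by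
      rw [← pow_succ]; congr 1; omega]
    exact mul_le_mul_of_nonneg_right h2 (norm_nonneg _)
  exact le_of_mul_le_mul_left h3 hf'

theorem key_identity :
    (AH p (1 : ℚ_[p])) ^ p = PowerSeries.expand p hp.1.ne_zero (AH p (1 : ℚ_[p])) * W p := by
  rw [← AH_natCast]
  refine (AH_spec p (p : ℚ_[p])).unique
    (HasPS.congr (((AH_spec p (1 : ℚ_[p])).expand p hp.1.ne_zero).mul (W_spec p)) fun m hm => ?_)
  by_cases h1 : m = 1
  · subst h1
    have h2 : ¬ p ∣ 1 := by
      rw [Nat.dvd_one]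
      exact hp.1.one_lt.ne'
    have h3 : chi p 1 = (1 : ℚ_[p]) := by
      unfold chi
      rw [if_pos ⟨0, by simp⟩]
    rw [if_neg h2, if_pos rfl, h3]
    ring
  · rw [if_neg h1, add_zero]
    by_cases h2 : p ∣ m
    · rw [if_pos h2]
      obtain ⟨c, rfl⟩ := h2
      rw [Nat.mul_div_cancel_left _ hp.1.pos]
      have h3 : chi p (p * c) = (chi p c : ℚ_[p]) := by
        unfold chi
        by_cases h4 : ∃ i, c = p ^ i
        · rw [if_pos h4, if_pos]
          obtain ⟨i, rfl⟩ := h4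
          exact ⟨i + 1, by ring⟩
        · rw [if_neg h4, if_neg]
          rintro ⟨i, hi⟩
          rcases i with _ | i
          · rw [pow_zero] at hi
            exact h1 hi
          · refine h4 ⟨i, ?_⟩
            rw [pow_succ, mul_comm] at hi
            exact Nat.eq_of_mul_eq_mul_right hp.1.pos hi
      rw [h3]
      ring
    · rw [if_neg h2]
      have h3 : chi p m = (0 : ℚ_[p]) := by
        unfold chi
        rw [if_neg]
        rintro ⟨i, rfl⟩
        rcases i with _ | i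
        · exact h1 (pow_zero p)
        · exact h2 (dvd_pow_self p (Nat.succ_ne_zero i))
      rw [h3, mul_zero]

/-- `f(X^p) - f(X)^p` is divisible by `p`. -/
theorem frob_congr (f : ℤ_[p]⟦X⟧) (n : ℕ) :
    ‖coeff n (PowerSeries.expand p hp.1.ne_zero f - f ^ p)‖ ≤ (p : ℝ)⁻¹ := by
  have h1 : PadicInt.toZMod (coeff n (PowerSeries.expand p hp.1.ne_zero f - f ^ p)) = 0 := by
    rw [← coeff_map, map_sub, map_pow, map_expand]
    have h2 := MvPowerSeries.map_frobenius_expand (σ := Unit) (R := ZMod p) p hp.1.ne_zero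
      (f := PowerSeries.map PadicInt.toZMod f)
    have h3 : (frobenius (ZMod p) p) = RingHom.id (ZMod p) := by
      ext x
      simp
    rw [h3] at h2
    have h4 : PowerSeries.expand p hp.1.ne_zero (PowerSeries.map PadicInt.toZMod f) =
        (PowerSeries.map PadicInt.toZMod f) ^ p := by
      rw [← h2]
      have h5 : ∀ g : MvPowerSeries Unit (ZMod p), MvPowerSeries.map (RingHom.id (ZMod p)) g = g := by
        intro g
        ext
        simp
      rw [h5]
      rfl
    rw [h4, sub_self, map_zero]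
  have h2 : (coeff n (PowerSeries.expand p hp.1.ne_zero f - f ^ p)) ∈
      RingHom.ker (PadicInt.toZMod : ℤ_[p] →+* ZMod p) := h1
  rw [PadicInt.ker_toZMod, PadicInt.maximalIdeal_eq_span_p] at h2
  have h3 := (PadicInt.norm_le_pow_iff_mem_span_pow
    (coeff n (PowerSeries.expand p hp.1.ne_zero f - f ^ p)) 1).2 (by rwa [pow_one])
  simpa using h3

theorem norm_coeff_AH_le (n : ℕ) : ‖coeff n (AH p (1 : ℚ_[p]))‖ ≤ 1 := by
  induction n using Nat.strong_induction_on with
  | _ n ih =>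
  rcases Nat.eq_zero_or_pos n with h0 | h0
  · subst h0
    rw [coeff_AH_zero, norm_one]
  obtain ⟨E, hE⟩ : ∃ E : ℚ_[p]⟦X⟧, E = AH p (1 : ℚ_[p]) := ⟨_, rfl⟩
  rw [← hE] at ih ⊢
  obtain ⟨f, hf⟩ : ∃ f : ℤ_[p]⟦X⟧, ∀ j, ((coeff j f : ℤ_[p]) : ℚ_[p]) =
      if j < n then coeff j E else 0 := by
    have h1 : ∀ j, ∃ c : ℤ_[p], (c : ℚ_[p]) = if j < n then coeff j E else 0 := by
      intro j
      by_cases hj : j < n
      · rw [if_pos hj]
        exact ⟨⟨coeff j E, ih j hj⟩, rfl⟩
      · rw [if_neg hj]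
        exact ⟨0, rfl⟩
    choose c hc using h1
    refine ⟨PowerSeries.mk c, fun j => ?_⟩
    rw [coeff_mk, hc]
  obtain ⟨U, hU⟩ : ∃ U : ℤ_[p]⟦X⟧, ∀ j, ((coeff j U : ℤ_[p]) : ℚ_[p]) =
      if j = 0 then 0 else coeff j (W p) / p := by
    have hpp : (0 : ℝ) < ‖(p : ℚ_[p])‖ := norm_pos_iff.2 (Nat.cast_ne_zero.2 hp.1.ne_zero)
    have h1 : ∀ j, ∃ c : ℤ_[p], (c : ℚ_[p]) = if j = 0 then 0 else coeff j (W p) / p := by
      intro j
      by_cases hj : j = 0
      · rw [if_pos hj]
        exact ⟨0, rfl⟩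
      · rw [if_neg hj]
        refine ⟨⟨coeff j (W p) / p, ?_⟩, rfl⟩
        rw [norm_div, div_le_one hpp]
        exact W_norm p j hj
    choose c hc using h1
    refine ⟨PowerSeries.mk c, fun j => ?_⟩
    rw [coeff_mk, hc]
  obtain ⟨A, hA⟩ : ∃ A : ℚ_[p]⟦X⟧, A = PowerSeries.map PadicInt.Coe.ringHom f := ⟨_, rfl⟩
  have hAc : ∀ j, coeff j A = if j < n then coeff j E else 0 := by
    intro j
    rw [hA, coeff_map]
    exact hf j
  obtain ⟨S, hS⟩ : ∃ S : ℚ_[p]⟦X⟧, S = PowerSeries.mk fun j => coeff (j + n) E := ⟨_, rfl⟩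
  have hES : E = A + X ^ n * S := by
    ext j
    rw [map_add, hAc, coeff_X_pow_mul']
    by_cases hj : j < n
    · rw [if_pos hj, if_neg (by omega), add_zero]
    · rw [if_neg hj, if_pos (by omega), zero_add, hS, coeff_mk]
      congr 2
      omega
  have hpne : (p : ℚ_[p]) ≠ 0 := Nat.cast_ne_zero.2 hp.1.ne_zero
  have hW : W p = 1 + C (p : ℚ_[p]) * PowerSeries.map PadicInt.Coe.ringHom U := by
    ext j
    rw [map_add, coeff_C_mul, coeff_map]
    have h2 : (PadicInt.Coe.ringHom (coeff j U) : ℚ_[p]) = if j = 0 then 0 else coeff j (W p) / p :=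
      hU j
    rw [h2, coeff_one]
    by_cases hj : j = 0
    · subst hj
      rw [coeff_zero_eq_constantCoeff_apply, (W_spec p).1]
      simp
    · rw [if_neg hj, if_neg hj]
      field_simp
      ring
  -- the left side
  have hL : coeff n (E ^ p) = coeff n (A ^ p) + p * coeff n E := by
    obtain ⟨k, hk⟩ := Polynomial.powAddExpansion A (X ^ n * S) p
    rw [← hES] at hk
    rw [hk, map_add, map_add]
    have h1 : coeff n (k * (X ^ n * S) ^ 2) = 0 := by
      rw [show k * (X ^ n * S) ^ 2 = X ^ (n * 2) * (k * S ^ 2) by rw [mul_pow, ← pow_mul]; ring,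
        coeff_X_pow_mul', if_neg (by omega)]
    have h2 : coeff n ((p : ℚ_[p]⟦X⟧) * A ^ (p - 1) * (X ^ n * S)) = p * coeff n E := by
      rw [show (p : ℚ_[p]⟦X⟧) * A ^ (p - 1) * (X ^ n * S) =
        X ^ n * ((p : ℚ_[p]⟦X⟧) * A ^ (p - 1) * S) by ring, coeff_X_pow_mul', if_pos le_rfl,
        Nat.sub_self, coeff_zero_eq_constantCoeff_apply, map_mul, map_mul, map_pow]
      have h3 : constantCoeff A = 1 := by
        rw [← coeff_zero_eq_constantCoeff_apply, hAc, if_pos h0, hE, coeff_AH_zero]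
      have h4 : constantCoeff S = coeff n E := by
        rw [← coeff_zero_eq_constantCoeff_apply, hS, coeff_mk, zero_add]
      rw [h3, h4, one_pow, mul_one, map_natCast]
    rw [h1, h2, add_zero]
  have hR : coeff n (PowerSeries.expand p hp.1.ne_zero E * W p) =
      coeff n (PowerSeries.expand p hp.1.ne_zero A * W p) := by
    rw [coeff_mul, coeff_mul]
    refine Finset.sum_congr rfl fun x hx => ?_
    congr 1
    rw [coeff_expand, coeff_expand]
    split_ifs with h1
    · rw [hAc, if_pos]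
      have h2 : x.1 ≤ n := by
        have := Finset.HasAntidiagonal.mem_antidiagonal.1 hx
        omega
      calc x.1 / p ≤ n / p := Nat.div_le_div_right h2
        _ < n := Nat.div_lt_self h0 hp.1.one_lt
    · rfl
  have h1 := key_identity p
  rw [← hE] at h1
  have h2 := congrArg (coeff n) h1
  rw [hL, hR, hW] at h2
  have h3 : PowerSeries.expand p hp.1.ne_zero A *
      (1 + C (p : ℚ_[p]) * PowerSeries.map PadicInt.Coe.ringHom U) =
      PowerSeries.expand p hp.1.ne_zero A + C (p : ℚ_[p]) *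
        PowerSeries.map PadicInt.Coe.ringHom (PowerSeries.expand p hp.1.ne_zero f * U) := by
    rw [map_mul, map_expand, ← hA]
    ring
  rw [h3, map_add, coeff_C_mul, coeff_map] at h2
  have h4 : coeff n (PowerSeries.expand p hp.1.ne_zero A) - coeff n (A ^ p) =
      ((coeff n (PowerSeries.expand p hp.1.ne_zero f - f ^ p) : ℤ_[p]) : ℚ_[p]) := by
    rw [hA, ← map_expand, ← map_pow, coeff_map, coeff_map, ← map_sub, ← map_sub]
    rfl
  have h5 : (p : ℚ_[p]) * coeff n E =
      ((coeff n (PowerSeries.expand p hp.1.ne_zero f - f ^ p) : ℤ_[p]) : ℚ_[p]) +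
      p * ((coeff n (PowerSeries.expand p hp.1.ne_zero f * U) : ℤ_[p]) : ℚ_[p]) := by
    rw [← h4]
    have h6 : (PadicInt.Coe.ringHom (coeff n (PowerSeries.expand p hp.1.ne_zero f * U)) : ℚ_[p]) =
      ((coeff n (PowerSeries.expand p hp.1.ne_zero f * U) : ℤ_[p]) : ℚ_[p]) := rfl
    rw [h6] at h2
    linear_combination h2
  have h6 : ‖(p : ℚ_[p]) * coeff n E‖ ≤ (p : ℝ)⁻¹ := by
    rw [h5]
    refine (IsUltrametricDist.norm_add_le_max _ _).trans (max_le ?_ ?_)
    · exact frob_congr p f n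
    · rw [norm_mul, Padic.norm_p]
      refine mul_le_of_le_one_right (by positivity) ?_
      exact PadicInt.norm_le_one _
  rw [norm_mul, Padic.norm_p] at h6
  have hpos : (0 : ℝ) < (p : ℝ)⁻¹ := inv_pos.2 (by exact_mod_cast hp.1.pos)
  exact le_of_mul_le_mul_left (by rw [mul_one]; exact h6) hpos

end Integral

end Pool.Agent.N867.AS
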