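import Pool.Agent.N867.AS.Approx

/-!
# Counting points on `(y^p - y) x₀ = f`
-/

set_option autoImplicit false
set_option linter.unusedSectionVars false

namespace Pool.Agent.N867.AS

namespace Lau

open Res Tr MvPolynomial

variable {p : ℕ} [hp : Fact p.Prime] {σ : Type} [Fintype σ] [DecidableEq σ]

/-- comparison at one point -/
theorem point_close {f : MvPolynomial σ (k p)} {s : ℕ} (D : Lifts p f s) (hs : s ≠ 0) {m : ℕ}
    (hm : m ≠ 0) {N : ℕ} {γ ζ : PadicAlgCl p} (hζ : IsPrimitiveRoot ζ p) (hγ0 : γ ≠ 0)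
    (hγ : ‖γ‖ ≤ 1) (hγζ : (Split.Theta p N γ).eval 1 = ζ) [DecidableEq (k p)]
    (z : (σ →₀ ℕ) → PadicAlgCl p) (hz : ∀ μ, z μ ^ p ^ (s * m) = z μ) :
    ‖(((FQ p (p ^ (s * m))).filter fun y => y ^ p - y =
        ∑ μ ∈ f.support, f.coeff μ * red p (z μ)).card : PadicAlgCl p) - 1 -
      ∑ a : Fin (p - 1), ∏ μ ∈ f.support, ∏ j ∈ Finset.range (s * m),
          (Split.Theta p N γ).eval ((D.a a * D.c μ * z μ) ^ p ^ j)‖ ≤ ‖γ‖ ^ N := by
  classical
  obtain ⟨L, hLdef⟩ : ∃ L, L = s * m := ⟨_, rfl⟩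
  rw [← hLdef] at hz ⊢
  have hL : L ≠ 0 := by rw [hLdef]; exact mul_ne_zero hs hm
  have hQ := one_lt_Q (p := p) hL
  have hγN : 0 ≤ ‖γ‖ ^ N := by positivity
  have hcQ : ∀ μ, D.c μ ^ p ^ L = D.c μ := by
    intro μ
    rw [hLdef, pow_mul p s m]
    have : ∀ r, D.c μ ^ (p ^ s) ^ r = D.c μ := by
      intro r
      induction r with
      | zero => simp
      | succ r ih => rw [pow_succ, pow_mul, ih, D.hc]
    exact this m
  have haQ : ∀ i, D.a i ^ p ^ L = D.a i := by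
    intro i
    have : ∀ r, D.a i ^ p ^ r = D.a i := by
      intro r
      induction r with
      | zero => simp
      | succ r ih => rw [pow_succ, pow_mul, ih, D.ha]
    exact this L
  have hz1 : ∀ μ, ‖z μ‖ ≤ 1 := fun μ => norm_le_one_of_pow hQ (hz μ)
  obtain ⟨u, hu⟩ : ∃ u : Fin (p - 1) → (σ →₀ ℕ) → PadicAlgCl p,
    ∀ a μ, u a μ = D.a a * D.c μ * z μ := ⟨_, fun _ _ => rfl⟩
  have huQ : ∀ a μ, u a μ ^ p ^ L = u a μ := by
    intro a μ
    rw [hu, mul_pow, mul_pow, haQ, hcQ, hz]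
  have hu1 : ∀ a μ, ‖u a μ‖ ≤ 1 := fun a μ => norm_le_one_of_pow hQ (huQ a μ)
  -- integer approximations
  have happ : ∀ a μ, ∃ t : ℕ, ‖(∑ j ∈ Finset.range L, u a μ ^ p ^ j) - t‖ < 1 ∧
      ‖∏ j ∈ Finset.range L, (Split.Theta p N γ).eval (u a μ ^ p ^ j) - ζ ^ t‖ ≤ ‖γ‖ ^ N := by
    intro a μ
    obtain ⟨δ, hδ, h⟩ := Split.split_close hE hγ0 hγ hγζ (huQ a μ) (hu1 a μ)
    obtain ⟨t, ht⟩ := trace_approx hL (huQ a μ) (lt_min hδ one_pos)
    exact ⟨t, lt_of_lt_of_le ht (min_le_right _ _), h t (lt_of_lt_of_le ht (min_le_left _ _))⟩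
  choose t ht1 ht2 using happ
  have hζ1 : ‖ζ‖ = 1 := by
    have h3 : ‖ζ‖ ^ p = 1 := by rw [← norm_pow, hζ.pow_eq_one, norm_one]
    exact (pow_eq_one_iff_of_nonneg (norm_nonneg _) hp.1.ne_zero).1 h3
  -- the trace of `f`
  obtain ⟨v, hvsum⟩ : ∃ v, v = ∑ μ ∈ f.support, f.coeff μ * red p (z μ) := ⟨_, rfl⟩
  obtain ⟨T, hT⟩ : ∃ T, T = ∑ j ∈ Finset.range L, v ^ p ^ j := ⟨_, rfl⟩
  have hvQ : v ^ p ^ L = v := by
    rw [hvsum, sum_pow_char_pow]
    refine Finset.sum_congr rfl fun μ _ => ?_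
    rw [mul_pow, ← D.hred μ, ← red_pow (norm_le_one_of_pow hQ (hcQ μ)), hcQ, ← red_pow (hz1 μ), hz]
  have hTp : T ^ p = T := by
    rw [hT, ← frobenius_def, map_sum]
    have h5 := sum_shift (p := p) hvQ 1
    rw [pow_one] at h5
    rw [← h5]
    refine Finset.sum_congr rfl fun j _ => ?_
    rw [frobenius_def, ← pow_mul, ← pow_mul, mul_comm]
  obtain ⟨n, hn⟩ := exists_nat_of_pow hTp
  have hyc := ycount hL v (by rw [hn, hT]) hζ (n := n)
  rw [← hvsum, hyc]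
  have hgoal : 1 + ∑ a : Fin (p - 1), ζ ^ ((a + 1 : ℕ) * n) - 1 -
      ∑ a : Fin (p - 1), ∏ μ ∈ f.support, ∏ j ∈ Finset.range L,
        (Split.Theta p N γ).eval ((D.a a * D.c μ * z μ) ^ p ^ j) =
      ∑ a : Fin (p - 1), (ζ ^ ((a + 1 : ℕ) * n) - ∏ μ ∈ f.support, ∏ j ∈ Finset.range L,
        (Split.Theta p N γ).eval (u a μ ^ p ^ j)) := by
    rw [Finset.sum_sub_distrib]
    simp only [hu]
    ring
  rw [hgoal]
  refine IsUltrametricDist.norm_sum_le_of_forall_le_of_nonneg hγN fun a _ => ?_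
  have hkey : ζ ^ ((a + 1 : ℕ) * n) = ∏ μ ∈ f.support, ζ ^ t a μ := by
    rw [Finset.prod_pow_eq_pow_sum]
    have hmod : ((((a : ℕ) + 1) * n : ℕ) : k p) = ((∑ μ ∈ f.support, t a μ : ℕ) : k p) := by
      push_cast
      have h6 : ∀ μ ∈ f.support, (t a μ : k p) =
          ∑ j ∈ Finset.range L, (((a : ℕ) + 1 : ℕ) * f.coeff μ *
            red p (z μ)) ^ p ^ j := by
        intro μ _
        have h7 : red p (u a μ) = (((a : ℕ) + 1 : ℕ) : k p) * f.coeff μ * red p (z μ) := by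
          have hna := norm_le_one_of_pow hQ (haQ a)
          have hnc := norm_le_one_of_pow hQ (hcQ μ)
          have hnac : ‖D.a a * D.c μ‖ ≤ 1 := by
            rw [norm_mul]
            exact mul_le_one₀ hna (norm_nonneg _) hnc
          rw [hu, red_mul hnac (hz1 μ), red_mul hna hnc, D.hared, D.hred]
        rw [← h7]
        have h8 : red p (∑ j ∈ Finset.range L, u a μ ^ p ^ j) = (t a μ : k p) := by
          rw [← red_natCast]
          refine (red_eq ?_ (IsUltrametricDist.norm_natCast_le_one _ _)).2 (ht1 a μ)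
          refine IsUltrametricDist.norm_sum_le_of_forall_le_of_nonneg zero_le_one fun j _ => ?_
          rw [norm_pow]
          exact pow_le_one₀ (norm_nonneg _) (hu1 a μ)
        rw [← h8, red_sum]
        · exact Finset.sum_congr rfl fun j _ => red_pow (hu1 a μ) _
        · intro j _
          rw [norm_pow]
          exact pow_le_one₀ (norm_nonneg _) (hu1 a μ)
      rw [Finset.sum_congr rfl h6, Finset.sum_comm, hn, hT, Finset.mul_sum]
      refine Finset.sum_congr rfl fun j _ => ?_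
      rw [← sum_pow_char_pow, hvsum]
      simp only [mul_assoc]
      rw [← Finset.mul_sum, mul_pow]
      congr 1
      have h9 : ∀ r, (((a : ℕ) + 1 : ℕ) : k p) ^ p ^ r = (((a : ℕ) + 1 : ℕ) : k p) := by
        intro r
        have := map_natCast (iterateFrobenius (k p) p r) ((a : ℕ) + 1)
        rwa [iterateFrobenius_def] at this
      rw [h9]
      push_cast
      rfl
    have hmod2 := (CharP.natCast_eq_natCast (k p) p).1 hmod
    rw [← pow_mod_orderOf ζ, ← hζ.eq_orderOf, ← pow_mod_orderOf ζ (∑ μ ∈ f.support, t a μ),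
      ← hζ.eq_orderOf]
    congr 1
  rw [hkey, norm_sub_rev]
  refine prod_close f.support hγN (fun μ _ => ?_) (fun μ _ => ?_) fun μ _ => ht2 a μ
  · rw [norm_prod]
    refine Finset.prod_le_one (fun _ _ => norm_nonneg _) fun j _ => ?_
    refine norm_Theta_le hγ ?_
    rw [norm_pow]
    exact pow_le_one₀ (norm_nonneg _) (hu1 a μ)
  · rw [norm_pow, hζ1, one_pow]

/-- number of points of `(y^p - y) x₀ = f`, `x₀ ≠ 0`, with coordinates in `{x^Q = x}` -/
noncomputable def lpts (i₀ : σ) (f : MvPolynomial σ (k p)) (Q : ℕ) : ℕ :=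
  Nat.card {v : (σ → k p) × k p // (∀ i, v.1 i ^ Q = v.1 i) ∧ v.1 i₀ ≠ 0 ∧ v.2 ^ Q = v.2 ∧
    (v.2 ^ p - v.2) * v.1 i₀ = MvPolynomial.eval v.1 f}

theorem lpts_eq (i₀ : σ) (f : MvPolynomial σ (k p)) {Q : ℕ} (hQ : 1 < Q) [DecidableEq (k p)] :
    lpts i₀ f Q = ∑ x ∈ Fintype.piFinset (fun _ : σ => FQ p Q), if x i₀ ≠ 0 then
      ((FQ p Q).filter fun y => y ^ p - y = ∑ μ ∈ f.support, f.coeff μ *
        ((∏ i, x i ^ μ i) * (x i₀)⁻¹)).card else 0 := by
  classical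
  unfold lpts
  rw [Nat.subtype_card (((Fintype.piFinset (fun _ : σ => FQ p Q)) ×ˢ (FQ p Q)).filter
    fun v => v.1 i₀ ≠ 0 ∧ (v.2 ^ p - v.2) * v.1 i₀ = MvPolynomial.eval v.1 f)]
  · rw [Finset.card_filter, Finset.sum_product]
    refine Finset.sum_congr rfl fun x _ => ?_
    split_ifs with h
    · rw [Finset.card_filter]
      refine Finset.sum_congr rfl fun y _ => ?_
      have h1 : (x i₀ ≠ 0 ∧ (y ^ p - y) * x i₀ = MvPolynomial.eval x f) ↔
          (y ^ p - y = ∑ μ ∈ f.support, f.coeff μ * ((∏ i, x i ^ μ i) * (x i₀)⁻¹)) := by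
        have h2 : ∑ μ ∈ f.support, f.coeff μ * ((∏ i, x i ^ μ i) * (x i₀)⁻¹) =
            MvPolynomial.eval x f * (x i₀)⁻¹ := by
          rw [MvPolynomial.eval_eq', Finset.sum_mul]
          refine Finset.sum_congr rfl fun μ _ => ?_
          ring
        rw [h2, eq_mul_inv_iff_mul_eq₀ h]
        exact ⟨fun h => h.2, fun h' => ⟨h, h'⟩⟩
      simp only [h1]
    · refine Finset.sum_eq_zero fun y _ => ?_
      rw [if_neg]
      exact fun h' => h h'.1
  · intro v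
    rw [Finset.mem_filter, Finset.mem_product, Fintype.mem_piFinset, mem_FQ hQ]
    simp only [mem_FQ hQ]
    tauto

theorem red_inv {z : PadicAlgCl p} {Q : ℕ} (hQ : 1 < Q) (hz : z ^ Q = z) (h0 : z ≠ 0) :
    red p z⁻¹ = (red p z)⁻¹ ∧ z⁻¹ ^ Q = z⁻¹ := by
  have h1 : z⁻¹ ^ Q = z⁻¹ := by rw [inv_pow, hz]
  refine ⟨?_, h1⟩
  have h2 := red_mul (norm_le_one_of_pow hQ hz) (norm_le_one_of_pow hQ h1)
  rw [mul_inv_cancel₀ h0, red_one] at h2
  exact eq_inv_of_mul_eq_one_right h2.symm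

theorem red_ne {L : ℕ} (hL : L ≠ 0) {z : PadicAlgCl p} (hz : z ^ p ^ L = z) :
    red p z = 0 ↔ z = 0 := by
  have hQ := one_lt_Q (p := p) hL
  constructor
  · intro h
    have h0 : (0 : PadicAlgCl p) ^ p ^ L = 0 := zero_pow (by omega)
    refine eq_of_red hL hz h0 ?_
    rw [sub_zero]
    exact (red_eq_zero (norm_le_one_of_pow hQ hz)).1 h
  · rintro rfl
    exact red_zero

/-- indicator of the nonzero elements -/
noncomputable def ind (x : PadicAlgCl p) : PadicAlgCl p := by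
  classical exact if x ≠ 0 then 1 else 0

theorem ind_ne {x : PadicAlgCl p} (h : x ≠ 0) : ind x = 1 := by
  unfold ind
  rw [if_pos h]

theorem ind_zero : ind (0 : PadicAlgCl p) = 0 := by
  unfold ind
  rw [if_neg (not_not.2 rfl)]

theorem count_close' (i₀ : σ) {f : MvPolynomial σ (k p)} {s : ℕ} (D : Lifts p f s) (hs : s ≠ 0)
    {m : ℕ} (hm : m ≠ 0) {N : ℕ} {γ ζ : PadicAlgCl p} (hζ : IsPrimitiveRoot ζ p) (hγ0 : γ ≠ 0)
    (hγ : ‖γ‖ ≤ 1) (hγζ : (Split.Theta p N γ).eval 1 = ζ) :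
    ‖(lpts i₀ f (p ^ (s * m)) : PadicAlgCl p) -
      ∑ x ∈ Fintype.piFinset (fun _ : σ => MU p (p ^ (s * m))), ind (x i₀) -
      ∑ a : Fin (p - 1), ∑ x ∈ Fintype.piFinset (fun _ : σ => MU p (p ^ (s * m))),
        ind (x i₀) * ∏ μ ∈ f.support, ∏ j ∈ Finset.range (s * m),
          (Split.Theta p N γ).eval ((D.a a * D.c μ * ((∏ i, x i ^ μ i) * (x i₀)⁻¹)) ^ p ^ j)‖ ≤
      ‖γ‖ ^ N := by
  classical
  have hL : s * m ≠ 0 := mul_ne_zero hs hm
  have hQ := one_lt_Q (p := p) hL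
  have hγN : 0 ≤ ‖γ‖ ^ N := by positivity
  rw [lpts_eq i₀ f hQ, sum_red hL (fun x => if x i₀ ≠ 0 then
      ((FQ p (p ^ (s * m))).filter fun y => y ^ p - y = ∑ μ ∈ f.support, f.coeff μ *
        ((∏ i, x i ^ μ i) * (x i₀)⁻¹)).card else 0), Nat.cast_sum, Finset.sum_comm,
    ← Finset.sum_sub_distrib, ← Finset.sum_sub_distrib]
  refine IsUltrametricDist.norm_sum_le_of_forall_le_of_nonneg hγN fun x hx => ?_
  rw [Fintype.mem_piFinset] at hx
  have hxQ : ∀ i, x i ^ p ^ (s * m) = x i := fun i => (mem_MU hQ).1 (hx i)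
  have hx1 : ∀ i, ‖x i‖ ≤ 1 := fun i => norm_le_one_of_pow hQ (hxQ i)
  by_cases h0 : x i₀ = 0
  · simp only [h0, red_zero, ne_eq, not_true_eq_false, if_false, Nat.cast_zero, ind_zero, zero_mul,
      Finset.sum_const_zero, sub_zero, norm_zero]
    exact hγN
  · have h0' : red p (x i₀) ≠ 0 := fun h => h0 ((red_ne hL (hxQ i₀)).1 h)
    have hinv := red_inv hQ (hxQ i₀) h0
    have hz : ∀ μ : σ →₀ ℕ, ((∏ i, x i ^ μ i) * (x i₀)⁻¹) ^ p ^ (s * m) =
        (∏ i, x i ^ μ i) * (x i₀)⁻¹ := by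
      intro μ
      rw [mul_pow, hinv.2, ← Finset.prod_pow]
      congr 1
      refine Finset.prod_congr rfl fun i _ => ?_
      rw [← pow_mul, mul_comm, pow_mul, hxQ]
    have hr : ∀ μ : σ →₀ ℕ, red p ((∏ i, x i ^ μ i) * (x i₀)⁻¹) =
        (∏ i, red p (x i) ^ μ i) * (red p (x i₀))⁻¹ := by
      intro μ
      have hprod : ‖∏ i, x i ^ μ i‖ ≤ 1 := by
        rw [norm_prod]
        refine Finset.prod_le_one (fun _ _ => norm_nonneg _) fun i _ => ?_
        rw [norm_pow]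
        exact pow_le_one₀ (norm_nonneg _) (hx1 i)
      rw [red_mul hprod (norm_le_one_of_pow hQ hinv.2), hinv.1, red_prod]
      · congr 1
        exact Finset.prod_congr rfl fun i _ => red_pow (hx1 i) _
      · intro i _
        rw [norm_pow]
        exact pow_le_one₀ (norm_nonneg _) (hx1 i)
    have h1 := point_close D hs hm hζ hγ0 hγ hγζ (fun μ => (∏ i, x i ^ μ i) * (x i₀)⁻¹) hz
    simp only [hr] at h1
    simp only [ind_ne h0, one_mul]
    rw [if_pos h0']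
    exact h1

end Lau

end Pool.Agent.N867.AS
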