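import Pool.Agent.N867.AS.K9

/-!
# The determinants of the blocks for a simple pole
-/

set_option autoImplicit false
set_option linter.unusedSectionVars false

namespace Pool.Agent.N867.AS

namespace Lau

open Res Tr GW RedS MvPolynomial

variable {p : ℕ} [hp : Fact p.Prime]

/-- block diagonal determinants -/
theorem det_pow {s : ℕ} [NeZero s] {g : ℕ} (K : ZMod s → Fin g → Fin g → k p) :
    (Matrix.of fun x y : (Fin (p - 1) × ZMod s) × Fin g =>
      (if x = y then (1 : Polynomial (k p)) else 0) -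
      Polynomial.X * Polynomial.C (if y.1 = rho p s x.1 then K x.1.2 x.2 y.2 else 0)).det =
    (Matrix.of fun x y : ZMod s × Fin g => (if x = y then (1 : Polynomial (k p)) else 0) -
      Polynomial.X * Polynomial.C (if y.1 = x.1 + 1 then K x.1 x.2 y.2 else 0)).det ^ (p - 1) := by
  classical
  obtain ⟨q, hq⟩ : ∃ q : (ZMod s × Fin g) × Fin (p - 1) ≃ (Fin (p - 1) × ZMod s) × Fin g,
      ∀ x, q x = ((x.2, x.1.1), x.1.2) := by
    refine ⟨⟨fun x => ((x.2, x.1.1), x.1.2), fun x => ((x.1.2, x.2), x.1.1), fun x => rfl,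
      fun x => rfl⟩, fun x => rfl⟩
  have h1 : (Matrix.of fun x y : (Fin (p - 1) × ZMod s) × Fin g =>
      (if x = y then (1 : Polynomial (k p)) else 0) -
      Polynomial.X * Polynomial.C (if y.1 = rho p s x.1 then K x.1.2 x.2 y.2 else 0)).submatrix
        q q =
      Matrix.blockDiagonal fun _ : Fin (p - 1) => (Matrix.of fun x y : ZMod s × Fin g =>
        (if x = y then (1 : Polynomial (k p)) else 0) -
        Polynomial.X * Polynomial.C (if y.1 = x.1 + 1 then K x.1 x.2 y.2 else 0)) := by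
    ext1 x y
    rw [Matrix.submatrix_apply, Matrix.of_apply, Matrix.blockDiagonal_apply, Matrix.of_apply, hq,
      hq]
    by_cases h : x.2 = y.2
    · rw [if_pos h]
      congr 1
      · by_cases h2 : x.1 = y.1
        · rw [if_pos h2, if_pos (by rw [h, h2])]
        · rw [if_neg h2, if_neg]
          intro h3
          apply h2
          simp only [Prod.mk.injEq] at h3
          exact Prod.ext h3.1.2 h3.2
      · unfold rho
        by_cases h2 : y.1.1 = x.1.1 + 1
        · rw [if_pos h2, if_pos (by rw [h2, h])]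
        · rw [if_neg h2, if_neg]
          intro h3
          simp only [Prod.mk.injEq] at h3
          exact h2 h3.2
    · rw [if_neg h, if_neg, if_neg, map_zero, mul_zero, sub_zero]
      · intro h3
        simp only [rho, Prod.mk.injEq] at h3
        exact h h3.1.symm
      · intro h3
        simp only [Prod.mk.injEq] at h3
        exact h h3.1.1
  rw [← Matrix.det_submatrix_equiv_self q, h1, Matrix.det_blockDiagonal, Finset.prod_const,
    Finset.card_univ, Fintype.card_fin]

variable {f : MvPolynomial (Fin 2) (k p)} {a b M s : ℕ} [NeZero s] (hf : KP f a b M)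

include hf

/-- the blocks of weight `< M` are nonsingular -/
theorem blk_low {N E : ℕ} (hN : p ≤ N) (hE : E = N * f.support.card) {T : Finset (Fin 2)}
    {B w : ℕ} (hw : w < M) :
    ((Matrix.of (cbL f a b M N E)).submatrix (Subtype.val :
      {x : (Fin (p - 1) × ZMod s) × Idx T B // WW a b M E x = w} → _) Subtype.val).det ≠ 0 := by
  classical
  have hWs : ∀ (g g' : Fin (p - 1) × ZMod s) (u : Idx T B),
      WW a b M E (g, u) = WW a b M E (g', u) := fun _ _ _ => rfl
  obtain ⟨π, hπ⟩ : ∃ π : Equiv.Perm {x : (Fin (p - 1) × ZMod s) × Idx T B // WW a b M E x = w},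
      ∀ x, (π x).1 = (rho p s x.1.1, x.1.2) := by
    refine ⟨⟨fun x => ⟨(rho p s x.1.1, x.1.2), x.2⟩,
      fun x => ⟨((x.1.1.1, x.1.1.2 - 1), x.1.2), x.2⟩, fun x => ?_, fun x => ?_⟩, fun x => rfl⟩
    · apply Subtype.ext
      simp [rho]
    · apply Subtype.ext
      simp [rho]
  have h1 := perm_det π (fun x => cbL f a b M N E x.1 (π x).1)
    ((Matrix.of (cbL f a b M N E)).submatrix (Subtype.val :
      {x : (Fin (p - 1) × ZMod s) × Idx T B // WW a b M E x = w} → _) Subtype.val) (by
    intro x y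
    rw [Matrix.submatrix_apply, Matrix.of_apply]
    split_ifs with h
    · rw [h]
    · unfold cbL
      rw [if_neg]
      rintro ⟨h2, _⟩
      apply h
      apply Subtype.ext
      rw [hπ]
      exact Prod.ext h2 (uniq hf hw y.2 x.2))
  rw [h1]
  refine mul_ne_zero ?_ (Finset.prod_ne_zero_iff.2 fun x _ => ?_)
  · rcases Int.units_eq_one_or (Equiv.Perm.sign π) with h | h
    · rw [h]
      simp
    · rw [h]
      simp
  · have hr : E ≤ (x.1.2.1 0 : ℕ) := by
      by_contra h
      have := (WW_left (a := a) (b := b) hf.M_pos x.1 (not_le.1 h) (by rw [x.2]; omega)).2.1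
      rw [x.2] at this
      omega
    exact (cbL_diag hf hN hE hr x.2 hw.le (by rw [hπ]) (by rw [hπ])).1

/-- the block of weight `M` -/
theorem blk_top {N E B : ℕ} (hN : p ≤ N) (hE : E = N * f.support.card) (hE2 : 2 ≤ E)
    (hEB : E ≤ B) (hbB : b ≤ B) (hbp : b < p) :
    (Matrix.of fun x y : {x : (Fin (p - 1) × ZMod s) × Idx (Finset.univ : Finset (Fin 2)) B //
        WW a b M E x = M} => (if x = y then (1 : Polynomial (k p)) else 0) -
        Polynomial.X * Polynomial.C (-1 * cbL f a b M N E x.1 y.1)).det =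
      (Matrix.of fun x y : ZMod s × Fin b => (if x = y then (1 : Polynomial (k p)) else 0) -
        Polynomial.X * Polynomial.C (VD.TT p (fun l => hz f b l.val) b x y)).det ^ (p - 1) := by
  classical
  have hex : ∀ z : (Fin (p - 1) × ZMod s) × Fin b,
      ∃ x : {x : (Fin (p - 1) × ZMod s) × Idx (Finset.univ : Finset (Fin 2)) B //
        WW a b M E x = M}, x.1.1 = z.1 ∧ (x.1.2.1 0 : ℕ) + 1 = E ∧
        (x.1.2.1 1 : ℕ) = (z.2 : ℕ) + 1 := by
    intro z
    have h1 := z.2.2
    refine ⟨⟨(z.1, ⟨![⟨E - 1, by omega⟩, ⟨(z.2 : ℕ) + 1, by omega⟩], ?_⟩), ?_⟩, rfl, ?_, rfl⟩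
    · intro i _
      fin_cases i
      · change E - 1 ≠ 0
        omega
      · change (z.2 : ℕ) + 1 ≠ 0
        omega
    · refine (wt_M hf ?_).2 ⟨?_, ?_⟩
      · change 0 < (z.2 : ℕ) + 1
        omega
      · change E - 1 + 1 = E
        omega
      · change (z.2 : ℕ) + 1 ≤ b
        omega
    · change E - 1 + 1 = E
      omega
  choose q hq1 hq2 hq3 using hex
  have hbij : Function.Bijective q := by
    constructor
    · intro z z' h
      have h1 := (hq1 z).symm.trans ((congrArg (fun x => x.1.1) h).trans (hq1 z'))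
      have h2 : (z.2 : ℕ) + 1 = (z'.2 : ℕ) + 1 := by
        rw [← hq3 z, ← hq3 z', h]
      exact Prod.ext h1 (Fin.ext (by omega))
    · rintro ⟨⟨g, u⟩, hx⟩
      have hu1 : 0 < (u.1 1 : ℕ) := Nat.pos_of_ne_zero (u.2 1 (Finset.mem_univ _))
      have h1 := (wt_M hf (x := (g, u)) hu1).1 hx
      simp only at h1
      refine ⟨(g, ⟨(u.1 1 : ℕ) - 1, by omega⟩), ?_⟩
      apply Subtype.ext
      refine Prod.ext (hq1 _) ?_
      apply Subtype.ext
      funext i
      fin_cases i
      · apply Fin.ext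
        have h2 := hq2 (g, ⟨(u.1 1 : ℕ) - 1, by omega⟩)
        change ((q (g, ⟨(u.1 1 : ℕ) - 1, by omega⟩)).1.2.1 0 : ℕ) = (u.1 0 : ℕ)
        omega
      · apply Fin.ext
        have h2 := hq3 (g, ⟨(u.1 1 : ℕ) - 1, by omega⟩)
        change ((q (g, ⟨(u.1 1 : ℕ) - 1, by omega⟩)).1.2.1 1 : ℕ) = (u.1 1 : ℕ)
        rw [h2]
        change (u.1 1 : ℕ) - 1 + 1 = _
        omega
  obtain ⟨Q, hQ⟩ : ∃ Q : ((Fin (p - 1) × ZMod s) × Fin b) ≃
      {x : (Fin (p - 1) × ZMod s) × Idx (Finset.univ : Finset (Fin 2)) B // WW a b M E x = M},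
      ∀ z, Q z = q z := ⟨Equiv.ofBijective q hbij, fun _ => rfl⟩
  rw [← Matrix.det_submatrix_equiv_self Q]
  have h1 := det_pow (p := p) (fun (l : ZMod s) (u v : Fin b) =>
    ((hz f b l.val) ^ (p - 1)).coeff (p * ((v : ℕ) + 1) - ((u : ℕ) + 1)))
  refine Eq.trans ?_ (h1.trans ?_)
  · congr 1
    ext1 z z'
    rw [Matrix.submatrix_apply, Matrix.of_apply, Matrix.of_apply]
    have h3 : (if Q z = Q z' then (1 : Polynomial (k p)) else 0) = if z = z' then 1 else 0 := by
      simp only [Q.injective.eq_iff]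
    rw [h3]
    congr 3
    rw [hQ, hQ]
    by_cases h4 : z'.1 = rho p s z.1
    · rw [if_pos h4]
      have h5 := z.2.2
      have h7 : p * 1 ≤ p * ((z'.2 : ℕ) + 1) := Nat.mul_le_mul_left p (by omega)
      rw [cbL_B hf hN hE (hq2 z) (hq2 z') (q z).2 (by rw [hq1, hq1]; exact h4) (by
        rw [hq3, hq3]
        omega), hq1, hq3, hq3]
      ring
    · rw [if_neg h4]
      have h5 : cbL f a b M N E (q z).1 (q z').1 = 0 := by
        unfold cbL
        rw [if_neg]
        rintro ⟨h6, _⟩
        rw [hq1, hq1] at h6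
        exact h4 h6
      rw [h5, mul_zero]
  · rfl

/-- the block of weight `0` -/
theorem blk_zero {N E B : ℕ} (hN : p ≤ N) (hE : E = N * f.support.card) (hE2 : 2 ≤ E)
    (hEB : E ≤ B) :
    (Matrix.of fun x y : {x : (Fin (p - 1) × ZMod s) × Idx ({0} : Finset (Fin 2)) B //
        WW a b M E x = 0} => (if x = y then (1 : Polynomial (k p)) else 0) -
        Polynomial.X * Polynomial.C (1 * cbL f a b M N E x.1 y.1)).det =
      (1 - Polynomial.X ^ s) ^ (p - 1) := by
  classical
  have hMpos := hf.M_pos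
  have hW0 : ∀ x : (Fin (p - 1) × ZMod s) × Idx ({0} : Finset (Fin 2)) B,
      WW a b M E x = 0 ↔ (x.2.1 0 : ℕ) = E ∧ (x.2.1 1 : ℕ) = 0 := by
    intro x
    constructor
    · intro h
      have h1 : (x.2.1 1 : ℕ) = 0 := by
        by_contra h2
        have := WW_pos hf x (E := E) (Nat.pos_of_ne_zero h2)
        omega
      refine ⟨?_, h1⟩
      have hr : E ≤ (x.2.1 0 : ℕ) := by
        by_contra h2
        have := (WW_left (a := a) (b := b) hMpos x (not_le.1 h2) (by omega)).2.1
        omega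
      have h2 := WW_right (a := a) (b := b) (M := M) x hr
      rw [wpA, h, h1] at h2
      have hb' : (b : ℤ) ≠ 0 := by
        have := hf.hb
        have : b ≠ 0 := by omega
        exact_mod_cast this
      have h3 : (b : ℤ) * (((x.2.1 0 : ℕ) : ℤ) - E) = 0 := by
        push_cast at h2
        linarith
      have := (mul_eq_zero.1 h3).resolve_left hb'
      omega
    · rintro ⟨h1, h2⟩
      have h3 := WW_right (a := a) (b := b) (M := M) x h1.ge
      rw [wpA, h1, h2] at h3
      have : ((WW a b M E x : ℕ) : ℤ) = 0 := by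
        rw [← h3]
        push_cast
        ring
      exact_mod_cast this
  have hex : ∀ z : (Fin (p - 1) × ZMod s) × Fin 1,
      ∃ x : {x : (Fin (p - 1) × ZMod s) × Idx ({0} : Finset (Fin 2)) B //
        WW a b M E x = 0}, x.1.1 = z.1 ∧ (x.1.2.1 0 : ℕ) = E ∧ (x.1.2.1 1 : ℕ) = 0 := by
    intro z
    refine ⟨⟨(z.1, ⟨![⟨E, by omega⟩, ⟨0, by omega⟩], ?_⟩), ?_⟩, rfl, rfl, rfl⟩
    · intro i hi
      rw [Finset.mem_singleton] at hi
      rw [hi]
      change E ≠ 0
      omega
    · exact (hW0 _).2 ⟨rfl, rfl⟩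
  choose q hq1 hq2 hq3 using hex
  have hbij : Function.Bijective q := by
    constructor
    · intro z z' h
      have h1 := (hq1 z).symm.trans ((congrArg (fun x => x.1.1) h).trans (hq1 z'))
      exact Prod.ext h1 (Subsingleton.elim _ _)
    · rintro ⟨⟨g, u⟩, hx⟩
      have h1 := (hW0 _).1 hx
      simp only at h1
      refine ⟨(g, 0), ?_⟩
      apply Subtype.ext
      refine Prod.ext (hq1 _) ?_
      apply Subtype.ext
      funext i
      fin_cases i
      · apply Fin.ext
        change ((q (g, 0)).1.2.1 0 : ℕ) = (u.1 0 : ℕ)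
        rw [hq2, h1.1]
      · apply Fin.ext
        change ((q (g, 0)).1.2.1 1 : ℕ) = (u.1 1 : ℕ)
        rw [hq3, h1.2]
  obtain ⟨Q, hQ⟩ : ∃ Q : ((Fin (p - 1) × ZMod s) × Fin 1) ≃
      {x : (Fin (p - 1) × ZMod s) × Idx ({0} : Finset (Fin 2)) B // WW a b M E x = 0},
      ∀ z, Q z = q z := ⟨Equiv.ofBijective q hbij, fun _ => rfl⟩
  rw [← Matrix.det_submatrix_equiv_self Q]
  have h1 := det_pow (p := p) (fun (_ : ZMod s) (_ _ : Fin 1) => (1 : k p))
  refine Eq.trans ?_ (h1.trans ?_)
  · congr 1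
    ext1 z z'
    rw [Matrix.submatrix_apply, Matrix.of_apply, Matrix.of_apply]
    have h3 : (if Q z = Q z' then (1 : Polynomial (k p)) else 0) = if z = z' then 1 else 0 := by
      simp only [Q.injective.eq_iff]
    rw [h3]
    congr 3
    rw [hQ, hQ, one_mul]
    by_cases h4 : z'.1 = rho p s z.1
    · rw [if_pos h4]
      refine (cbL_diag hf hN hE (hq2 z).ge (q z).2 (Nat.zero_le M) (by rw [hq1, hq1]; exact h4)
        ?_).2 rfl
      apply Subtype.ext
      funext i
      fin_cases i
      · apply Fin.ext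
        change ((q z).1.2.1 0 : ℕ) = ((q z').1.2.1 0 : ℕ)
        rw [hq2, hq2]
      · apply Fin.ext
        change ((q z).1.2.1 1 : ℕ) = ((q z').1.2.1 1 : ℕ)
        rw [hq3, hq3]
    · rw [if_neg h4]
      unfold cbL
      rw [if_neg]
      rintro ⟨h6, _⟩
      rw [hq1, hq1] at h6
      exact h4 h6
  · congr 1
    have h2 := Cyc.cyc_det (R := Polynomial (k p)) (s := s) (fun _ => Polynomial.X)
    rw [Finset.prod_const, Finset.card_univ, ZMod.card] at h2
    rw [← h2, ← Matrix.det_submatrix_equiv_self (Equiv.prodUnique (ZMod s) (Fin 1)).symm]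
    congr 1
    ext1 x y
    rw [Matrix.submatrix_apply, Matrix.of_apply, Matrix.of_apply]
    congr 1
    · simp
    · by_cases h3 : y = x + 1
      · rw [if_pos h3, if_pos (by exact h3), map_one, mul_one]
      · rw [if_neg h3, if_neg (by exact h3), map_zero, mul_zero]

end Lau

end Pool.Agent.N867.AS
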