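import Pool.Agent.N867.AS.W3

/-!
# Families with varying weights
-/

set_option autoImplicit false
set_option linter.unusedSectionVars false

namespace Pool.Agent.N867.AS

namespace GW

open MvPolynomial Res Tr Bd RedS

variable {σ : Type} [Fintype σ] [DecidableEq σ]

variable {p : ℕ} [hp : Fact p.Prime] {s : ℕ}

theorem count_fam2 {Γ : Type} [Fintype Γ] {f : Γ → MvPolynomial σ (k p)}
    {ω : Γ → σ → ℕ} {M : Γ → ℕ}
    (hf : ∀ i, WF (f i) (ω i) (M i)) (hM0 : ∀ i, M i ≠ 0) (hωpos : ∀ c i, 0 < ω c i)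
    (hMp : ∀ i, M i ∣ p - 1) (hσ : 2 ≤ Fintype.card σ)
    (hσe : Even (Fintype.card σ)) (hs : s ≠ 0) [NeZero s]
    (hfs : ∀ i μ, coeff μ (f i) ^ p ^ s = coeff μ (f i))
    (hord : ∀ i w, w < M i → Ord (f i) (ω i) (M i) w) {ιM : Γ → Type}
    [∀ c, Fintype (ιM c)] [∀ c, DecidableEq (ιM c)] (E : ∀ c, ιM c ≃ SW (ω c) (M c))
    (P : Polynomial (PadicAlgCl p))
    (hP : HasPS (P : PowerSeries (PadicAlgCl p)) (fun m => ∑ i,
      ((npts (f i) (p ^ (s * m)) : PadicAlgCl p) -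
      ((p ^ (s * m) : ℕ) : PadicAlgCl p) ^ Fintype.card σ))) [DecidableEq ℝ]
    [DecidableEq (k p)] [DecidablePred fun l : PadicAlgCl p => 1 < ‖l‖]
    {Λ : Multiset (PadicAlgCl p)}
    (hΛ : Λ = P.roots.map (fun ρ => ρ⁻¹ * ((p : PadicAlgCl p)⁻¹) ^ s)) {e : Γ → ℕ}
    (he : ∀ c, p - 1 = M c * e c) :
    ∃ (w w' : k p) (a b : ℕ), w ≠ 0 ∧ w' ≠ 0 ∧
      ((Λ.filter fun l => 1 < ‖l‖).map fun l => ‖l‖).prod =
        (‖(p : PadicAlgCl p)‖⁻¹) ^ (∑ c, (e c * (s * ∑ w ∈ Finset.range (M c),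
          Nat.card {v : σ →₀ ℕ // (∀ i, v i ≠ 0) ∧ wt (ω c) v = w} * (M c - w)))) ∧
      Polynomial.C w' * Polynomial.X ^ b * ∏ i, DM (f i) s (fun j => (E i j).1) =
        Polynomial.C w * (Polynomial.X ^ a *
          (((Λ.filter fun l => ‖l‖ = 1).map (red p)).map
            fun l => (1 - Polynomial.C l * Polynomial.X ^ s : Polynomial (k p))).prod) := by
  classical
  have : Nonempty σ := Fintype.card_pos_iff.1 (by omega)
  have hp2 := hp.1.two_le
  have hpne : (p : PadicAlgCl p) ≠ 0 := Nat.cast_ne_zero.2 hp.1.ne_zero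
  have hpn : ‖(p : PadicAlgCl p)‖ < 1 := norm_p_lt p
  have hpn0 : 0 < ‖(p : PadicAlgCl p)‖ := norm_pos_iff.2 hpne
  -- the root of unity
  have : NeZero (p : PadicAlgCl p) := ⟨hpne⟩
  obtain ⟨ζ, hζ⟩ := HasEnoughRootsOfUnity.exists_primitiveRoot (PadicAlgCl p) p
  have hζ1 : ζ ≠ 1 := hζ.ne_one hp.1.one_lt
  have hζp := Split.norm_zeta_sub_one hζ
  have hζlt : ‖ζ - 1‖ < 1 := by
    by_contra h
    push Not at h
    have h1 := one_le_pow₀ h (n := p - 1)
    rw [hζp] at h1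
    exact absurd hpn (not_lt.2 h1)
  have hζpos : 0 < ‖ζ - 1‖ := norm_pos_iff.2 (sub_ne_zero.2 hζ1)
  -- the polynomial `P`
  have hP0 : P.coeff 0 = 1 := by
    have h1 := hP.1
    rwa [← PowerSeries.coeff_zero_eq_constantCoeff_apply, Polynomial.coeff_coe] at h1
  have hPs : PowerSeries.rescale ((p : PadicAlgCl p)⁻¹)
      (PowerSeries.expand s hs (P : PowerSeries (PadicAlgCl p))) =
      (Λ.map fun l => (1 - PowerSeries.C l * PowerSeries.X ^ s : PowerSeries _)).prod := by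
    conv_lhs => rw [poly_eq_prod P hP0]
    rw [hΛ, Multiset.map_map, ← Polynomial.coeToPowerSeries.ringHom_apply, map_multiset_prod,
      Multiset.map_map, map_multiset_prod, Multiset.map_map, map_multiset_prod, Multiset.map_map]
    congr 1
    refine Multiset.map_congr rfl fun ρ _ => ?_
    simp only [Function.comp_apply, map_sub, map_one, map_mul,
      Polynomial.coeToPowerSeries.ringHom_apply, Polynomial.coe_C, Polynomial.coe_X,
      PowerSeries.expand_C, PowerSeries.expand_X, map_pow, PowerSeries.rescale_X]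
    have h1 : PowerSeries.rescale ((p : PadicAlgCl p)⁻¹) (PowerSeries.C ρ⁻¹) =
        (PowerSeries.C ρ⁻¹ : PowerSeries (PadicAlgCl p)) := by
      ext n
      rw [PowerSeries.coeff_rescale, PowerSeries.coeff_C]
      split_ifs with h
      · rw [h, pow_zero, one_mul]
      · rw [mul_zero]
    rw [h1, mul_pow]
    ring
  obtain ⟨cΛ, aΛ, haΛ, hcΛ, hRP⟩ := red_multiset2 s hs Λ
  rw [← hPs] at hRP
  -- the bound `n₀`
  obtain ⟨K1, hK1⟩ : ∃ K : Γ → ℕ, ∀ c, K c = Fintype.card (Fin (p - 1) × ZMod s) *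
    Nat.card {v : σ →₀ ℕ // (∀ i, v i ≠ 0) ∧ wt (ω c) v < M c} := ⟨_, fun _ => rfl⟩
  obtain ⟨Klt, hKlt⟩ : ∃ K, K = ∑ c, K1 c := ⟨_, rfl⟩
  obtain ⟨Q, hQ⟩ : ∃ Q : Polynomial (k p), Q = ∏ i, DM (f i) s (fun j => (E i j).1) := ⟨_, rfl⟩
  obtain ⟨n₀, hn₀⟩ : ∃ n₀, n₀ = s * Multiset.card Λ + s * Multiset.card Λ + Klt +
    Q.natDegree := ⟨_, rfl⟩
  -- the truncation level
  have hεpos : 0 < ‖(p : PadicAlgCl p)‖ ^ n₀ * ‖((n₀.factorial : ℕ) : PadicAlgCl p)‖ := by
    have : ((n₀.factorial : ℕ) : PadicAlgCl p) ≠ 0 := Nat.cast_ne_zero.2 n₀.factorial_ne_zero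
    have := norm_pos_iff.2 this
    positivity
  obtain ⟨N₁, hN₁⟩ := exists_pow_lt_of_lt_one hεpos hζlt
  obtain ⟨N, hNdef⟩ : ∃ N, N = N₁ + p := ⟨_, rfl⟩
  have hN2 : 2 ≤ N := by omega
  have hNp : p ≤ N := by omega
  have hNε : ‖ζ - 1‖ ^ N < ‖(p : PadicAlgCl p)‖ ^ n₀ * ‖((n₀.factorial : ℕ) : PadicAlgCl p)‖ :=
    lt_of_le_of_lt (pow_le_pow_of_le_one hζpos.le hζlt.le (by omega)) hN₁
  obtain ⟨γ, hγn, hγζ⟩ := Split.exists_gamma hp.1.one_lt hE hN2 hζ1 hζlt
  have hγ0 : γ ≠ 0 := by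
    rintro rfl
    rw [norm_zero] at hγn
    exact hζpos.ne hγn
  have hγ1 : ‖γ‖ ≤ 1 := by rw [hγn]; exact hζlt.le
  have hγpos : 0 < ‖γ‖ := norm_pos_iff.2 hγ0
  obtain ⟨τ, hτγ⟩ : ∃ τ : Γ → PadicAlgCl p, ∀ c, τ c ^ M c = γ := by
    choose τ hτ using fun c => IsAlgClosed.exists_pow_nat_eq γ (Nat.pos_of_ne_zero (hM0 c))
    exact ⟨τ, hτ⟩
  have hτ : ∀ c, τ c ≠ 0 := by
    intro c h0
    have h1 := hτγ c
    rw [h0, zero_pow (hM0 c)] at h1
    exact hγ0 h1.symm
  have hτ1 : ∀ c, ‖τ c‖ < 1 := by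
    intro c
    by_contra h
    push Not at h
    have h1 := one_le_pow₀ h (n := M c)
    rw [← norm_pow, hτγ, hγn] at h1
    exact absurd hζlt (not_lt.2 h1)
  obtain ⟨r, hr⟩ : ∃ r : Γ → ℝ, ∀ c, r c = ‖τ c‖ := ⟨_, fun _ => rfl⟩
  have hr0 : ∀ c, 0 < r c := fun c => by rw [hr]; exact norm_pos_iff.2 (hτ c)
  have hrM : ∀ c, ‖γ‖ = r c ^ M c := fun c => by rw [hr, ← norm_pow, hτγ]
  have hr1 : ∀ c, r c < 1 := fun c => by rw [hr]; exact hτ1 c
  have heta := eta hζ hζlt hN2 hγn hγζ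
  have hpγ : ‖(p : PadicAlgCl p)‖ = ‖γ‖ ^ (p - 1) := by rw [hγn, hζp]
  -- lifts and box
  have hD : ∀ c, Nonempty (Lifts p (f c) s) := fun c => exists_lifts hs (hfs c)
  obtain ⟨D, -⟩ : ∃ D : ∀ c, Lifts p (f c) s, True := ⟨fun c => Classical.choice (hD c), trivial⟩
  obtain ⟨B, hMB, hB⟩ : ∃ B, (∀ c, M c ≤ B) ∧ ∀ c g, ∀ v ∈ (Gf (D c) N γ g).support, ∀ i, v i ≤ B := by
    refine ⟨∑ c, M c + ∑ c, ∑ g, ∑ v ∈ (Gf (D c) N γ g).support, ∑ i, v i, fun c => ?_,
      fun c g v hv i => ?_⟩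
    · have h1 : M c ≤ ∑ c, M c := Finset.single_le_sum (f := M)
        (fun _ _ => Nat.zero_le _) (Finset.mem_univ c)
      omega
    have h1 : v i ≤ ∑ i, v i := Finset.single_le_sum (f := fun i => v i)
      (fun _ _ => Nat.zero_le _) (Finset.mem_univ i)
    have h2 : ∑ i, v i ≤ ∑ v ∈ (Gf (D c) N γ g).support, ∑ i, v i :=
      Finset.single_le_sum (f := fun v : σ →₀ ℕ => ∑ i, v i) (fun _ _ => Nat.zero_le _) hv
    have h3 : ∑ v ∈ (Gf (D c) N γ g).support, ∑ i, v i ≤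
        ∑ g, ∑ v ∈ (Gf (D c) N γ g).support, ∑ i, v i :=
      Finset.single_le_sum (f := fun g => ∑ v ∈ (Gf (D c) N γ g).support, ∑ i, v i)
        (fun _ _ => Nat.zero_le _) (Finset.mem_univ g)
    have h4 : ∑ g, ∑ v ∈ (Gf (D c) N γ g).support, ∑ i, v i ≤
        ∑ c, ∑ g, ∑ v ∈ (Gf (D c) N γ g).support, ∑ i, v i :=
      Finset.single_le_sum (f := fun c => ∑ g, ∑ v ∈ (Gf (D c) N γ g).support, ∑ i, v i)
        (fun _ _ => Nat.zero_le _) (Finset.mem_univ c)
    omega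
  obtain ⟨C, hC⟩ : ∃ C : Γ → (T : Finset σ) → Matrix ((Fin (p - 1) × ZMod s) × Idx T B)
      ((Fin (p - 1) × ZMod s) × Idx T B) (PadicAlgCl p),
    ∀ c T, C c T = Cmat p (Gf (D c) N γ) (rho p s) T B := ⟨_, fun _ _ => rfl⟩
  have happ := fun (c : Γ) L (hL : L ≠ 0) => approx (D c) (s := s) hζ hγ0 hγ1 hγζ (hB c) hL
  simp only [← hC] at happ
  obtain ⟨n, hn⟩ : ∃ n, n = Fintype.card σ := ⟨_, rfl⟩
  rw [← hn] at hσ hσe hP happ
  -- the power series
  obtain ⟨F, hF⟩ : ∃ F : Γ → Finset σ → PowerSeries (PadicAlgCl p),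
    ∀ c T, F c T = PowerSeries.rescale ((p : PadicAlgCl p) ^ (n - T.card))
      ((C c T).charpolyRev : PowerSeries (PadicAlgCl p)) := ⟨_, fun _ _ => rfl⟩
  have hFps : ∀ c T, HasPS (F c T) (fun m => ((p : PadicAlgCl p) ^ (n - T.card)) ^ m *
      ((C c T) ^ m).trace) := by
    intro c T
    rw [hF]
    exact (hasPS_charpolyRev (C c T)).rescale _
  obtain ⟨Ev, hEv⟩ : ∃ Ev : Finset (Finset σ), Ev = Finset.univ.filter (fun T => Even T.card) :=
    ⟨_, rfl⟩
  obtain ⟨Od, hOd⟩ : ∃ Od : Finset (Finset σ), Od = Finset.univ.filter (fun T => ¬ Even T.card) :=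
    ⟨_, rfl⟩
  obtain ⟨U, hU⟩ : ∃ U : PowerSeries (PadicAlgCl p), U =
    PowerSeries.expand s hs (P : PowerSeries (PadicAlgCl p)) * ∏ c, ∏ T ∈ Od, F c T := ⟨_, rfl⟩
  obtain ⟨V, hV⟩ : ∃ V : PowerSeries (PadicAlgCl p), V = ∏ c, ∏ T ∈ Ev, F c T := ⟨_, rfl⟩
  have hUps := (hP.expand s hs).mul (HasPS.prod Finset.univ fun c _ =>
    HasPS.prod Od fun T _ => hFps c T)
  rw [← hU] at hUps
  have hVps := HasPS.prod Finset.univ fun c _ => HasPS.prod Ev fun T _ => hFps c T
  rw [← hV] at hVps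
  have hV0 : PowerSeries.constantCoeff V ≠ 0 := by rw [hVps.1]; exact one_ne_zero
  obtain ⟨Z, hZ⟩ : ∃ Z : PowerSeries (PadicAlgCl p), Z = U * V⁻¹ := ⟨_, rfl⟩
  have hUVZ : U = V * Z := by
    rw [hZ, mul_comm U, ← mul_assoc, PowerSeries.mul_inv_cancel V hV0, one_mul]
  have hZps := hUps.mul hVps.inv
  rw [← hZ] at hZps
  -- the power sums of `Z` are small
  have hδ : ∀ m, m ≠ 0 → ‖((if s ∣ m then (s : PadicAlgCl p) *
      (∑ c, ((npts (f c) (p ^ (s * (m / s))) : PadicAlgCl p) -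
        ((p ^ (s * (m / s)) : ℕ) : PadicAlgCl p) ^ n)) else 0) +
      ∑ c, ∑ T ∈ Od, ((p : PadicAlgCl p) ^ (n - T.card)) ^ m * ((C c T) ^ m).trace) +
      -∑ c, ∑ T ∈ Ev, ((p : PadicAlgCl p) ^ (n - T.card)) ^ m * ((C c T) ^ m).trace‖ ≤
        ‖γ‖ ^ N := by
    intro m hm
    have h0 : ∀ c, ‖((if s ∣ m then (s : PadicAlgCl p) *
        ((npts (f c) (p ^ (s * (m / s))) : PadicAlgCl p) -
          ((p ^ (s * (m / s)) : ℕ) : PadicAlgCl p) ^ n) else 0) +
        ∑ T ∈ Od, ((p : PadicAlgCl p) ^ (n - T.card)) ^ m * ((C c T) ^ m).trace) +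
        -∑ T ∈ Ev, ((p : PadicAlgCl p) ^ (n - T.card)) ^ m * ((C c T) ^ m).trace‖ ≤
          ‖γ‖ ^ N := by
      intro c
      have h1 := happ c m hm
      have h2 : (if s ∣ m then (s : PadicAlgCl p) *
          ((npts (f c) (p ^ m) : PadicAlgCl p) - ((p ^ m : ℕ) : PadicAlgCl p) ^ n) else 0) =
          (if s ∣ m then (s : PadicAlgCl p) *
          ((npts (f c) (p ^ (s * (m / s))) : PadicAlgCl p) -
            ((p ^ (s * (m / s)) : ℕ) : PadicAlgCl p) ^ n) else 0) := by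
        split_ifs with h
        · rw [Nat.mul_div_cancel' h]
        · rfl
      have h3 : ∑ T : Finset σ, (-1) ^ T.card * ((p ^ m : ℕ) : PadicAlgCl p) ^ (n - T.card) *
          ((C c T) ^ m).trace =
          ∑ T ∈ Ev, ((p : PadicAlgCl p) ^ (n - T.card)) ^ m * ((C c T) ^ m).trace -
          ∑ T ∈ Od, ((p : PadicAlgCl p) ^ (n - T.card)) ^ m * ((C c T) ^ m).trace := by
        rw [← Finset.sum_filter_add_sum_filter_not Finset.univ (fun T : Finset σ => Even T.card),
          ← hEv, ← hOd, sub_eq_add_neg, ← Finset.sum_neg_distrib]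
        congr 1
        · refine Finset.sum_congr rfl fun T hT => ?_
          rw [hEv, Finset.mem_filter] at hT
          rw [hT.2.neg_one_pow, one_mul, Nat.cast_pow, ← pow_mul, ← pow_mul, mul_comm m]
        · refine Finset.sum_congr rfl fun T hT => ?_
          rw [hOd, Finset.mem_filter] at hT
          rw [(Nat.not_even_iff_odd.1 hT.2).neg_one_pow, Nat.cast_pow, ← pow_mul, ← pow_mul,
            mul_comm m]
          ring
      rw [h2, h3] at h1
      convert h1 using 2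
      ring
    have h4 : ((if s ∣ m then (s : PadicAlgCl p) *
        (∑ c, ((npts (f c) (p ^ (s * (m / s))) : PadicAlgCl p) -
          ((p ^ (s * (m / s)) : ℕ) : PadicAlgCl p) ^ n)) else 0) +
        ∑ c, ∑ T ∈ Od, ((p : PadicAlgCl p) ^ (n - T.card)) ^ m * ((C c T) ^ m).trace) +
        -∑ c, ∑ T ∈ Ev, ((p : PadicAlgCl p) ^ (n - T.card)) ^ m * ((C c T) ^ m).trace =
        ∑ c, (((if s ∣ m then (s : PadicAlgCl p) *
        ((npts (f c) (p ^ (s * (m / s))) : PadicAlgCl p) -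
          ((p ^ (s * (m / s)) : ℕ) : PadicAlgCl p) ^ n) else 0) +
        ∑ T ∈ Od, ((p : PadicAlgCl p) ^ (n - T.card)) ^ m * ((C c T) ^ m).trace) +
        -∑ T ∈ Ev, ((p : PadicAlgCl p) ^ (n - T.card)) ^ m * ((C c T) ^ m).trace) := by
      rw [Finset.sum_add_distrib, Finset.sum_add_distrib, Finset.sum_neg_distrib]
      congr 2
      split_ifs
      · rw [Finset.mul_sum]
      · rw [Finset.sum_const_zero]
    rw [h4]
    exact IsUltrametricDist.norm_sum_le_of_forall_le_of_nonneg (pow_nonneg (norm_nonneg _) _)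
      fun c _ => h0 c
  have hγN1 : ‖γ‖ ^ N ≤ 1 := pow_le_one₀ hγpos.le hγ1
  have hZsmall := fun m hm => Minor.small_of_ps hZps (by positivity) hγN1 hδ m hm
  -- rescaling by `1/p`
  obtain ⟨φ, hφ⟩ : ∃ φ : PowerSeries (PadicAlgCl p) →+* PowerSeries (PadicAlgCl p),
    φ = PowerSeries.rescale ((p : PadicAlgCl p)⁻¹) := ⟨_, rfl⟩
  have hφF : ∀ c T, φ (F c T) = ((((p : PadicAlgCl p)⁻¹ * (p : PadicAlgCl p) ^ (n - T.card)) •
      (C c T)).charpolyRev : PowerSeries (PadicAlgCl p)) := by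
    intro c T
    rw [hφ, hF, PowerSeries.rescale_rescale, rescale_charpolyRev, mul_comm]
  have hnear : ∀ (c : Γ) (T : Finset σ), T ≠ Finset.univ →
      PowerSeries.coeff 0 (φ (F c T)) = 1 ∧
      ∀ m, m ≠ 0 → ‖PowerSeries.coeff m (φ (F c T))‖ < 1 := by
    intro c T hT
    have hTcard : T.card < n := by
      rw [hn]
      exact (Finset.card_lt_iff_ne_univ T).2 hT
    obtain ⟨e, he⟩ : ∃ e, T.card + e + 1 = n := ⟨n - T.card - 1, by omega⟩
    have h1 : (p : PadicAlgCl p)⁻¹ * (p : PadicAlgCl p) ^ (n - T.card) =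
        (p : PadicAlgCl p) ^ e := by
      have : n - T.card = e + 1 := by omega
      rw [this, pow_succ]
      field_simp
    rw [hφF, h1]
    constructor
    · rw [PowerSeries.coeff_zero_eq_constantCoeff_apply]
      exact (hasPS_charpolyRev _).1
    · intro m hm
      rw [Polynomial.coeff_coe, hC]
      exact small_T (D c) (hf c) hs (hr0 c) (hr1 c) (hrM c) B (by omega) (by omega) m hm
  have hunivE : (Finset.univ : Finset σ) ∈ Ev := by
    rw [hEv, Finset.mem_filter]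
    refine ⟨Finset.mem_univ _, ?_⟩
    rw [Finset.card_univ, ← hn]
    exact hσe
  have hOdne : ∀ T ∈ Od, T ≠ Finset.univ := by
    rintro T hT rfl
    rw [hOd, Finset.mem_filter, Finset.card_univ, ← hn] at hT
    exact hT.2 hσe
  obtain ⟨G, hG⟩ : ∃ G : Polynomial (k p), G = Polynomial.X ^ aΛ *
      ((Λ.filter fun l => ‖l‖ = 1).map fun l =>
        (1 - Polynomial.C (red p l) * Polynomial.X ^ s : Polynomial (k p))).prod := ⟨_, rfl⟩
  have hUred : Red (φ U) cΛ (G : PowerSeries (k p)) := by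
    rw [hU, map_mul, map_prod]
    have h1 : Red (∏ c, φ (∏ T ∈ Od, F c T)) (∏ c : Γ, (1 : PadicAlgCl p))
        (∏ c : Γ, (1 : PowerSeries (k p))) := by
      refine Red.prod Finset.univ fun c _ => ?_
      rw [map_prod]
      have h1 := Minor.near_prod' Od (fun T hT => (hnear c T (hOdne T hT)).1)
        (fun T hT => (hnear c T (hOdne T hT)).2)
      exact Red.near h1.1 h1.2
    have h2 := Red.mul hRP h1
    rw [Finset.prod_const_one, Finset.prod_const_one, mul_one, mul_one] at h2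
    rw [hG, hφ]
    rw [hφ] at h2
    convert h2 using 1
    rw [Polynomial.coe_mul, Polynomial.coe_pow, Polynomial.coe_X,
      ← Polynomial.coeToPowerSeries.ringHom_apply, map_multiset_prod, Multiset.map_map]
    congr 2
    refine Multiset.map_congr rfl fun l _ => ?_
    simp only [Function.comp_apply, map_sub, map_one, map_mul, map_pow,
      Polynomial.coeToPowerSeries.ringHom_apply, Polynomial.coe_C, Polynomial.coe_X]
  have hVc : ∀ c, ∃ (cV : PadicAlgCl p) (wV : k p), wV ≠ 0 ∧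
      ‖cV‖ = (‖τ c‖⁻¹) ^ ((p - 1) * ∑ x ∈ Finset.univ.filter
        (fun x : (Fin (p - 1) × ZMod s) × Idx (Finset.univ : Finset σ) B => Wx (ω c) x < M c),
          (M c - Wx (ω c) x)) ∧
      Red (∏ T ∈ Ev, φ (F c T)) cV ((Polynomial.C wV * Polynomial.X ^ K1 c *
        DM (f c) s (fun j => (E c j).1) : Polynomial (k p)) : PowerSeries (k p)) := by
    intro c
    rw [← Finset.mul_prod_erase _ _ hunivE]
    have h1 := Minor.near_prod' (Ev.erase Finset.univ)
      (fun T hT => (hnear c T (Finset.mem_erase.1 hT).1).1)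
      (fun T hT => (hnear c T (Finset.mem_erase.1 hT).1).2)
    obtain ⟨c', w, hw, hcn, hR⟩ := red_univG2 (hf c) (D c) hs (hτ c) (hτ1 c) (hτγ c) hpγ heta hNp
      (hMp c) (hord c) (E c) (hMB c)
    rw [cardW (hωpos c) (hMB c) (fun w => w < M c) (fun w hw => hw.le), ← hK1] at hR
    refine ⟨c', w, hw, hcn, ?_⟩
    have h2 : (p : PadicAlgCl p)⁻¹ * (p : PadicAlgCl p) ^ (n - (Finset.univ : Finset σ).card) =
        (p : PadicAlgCl p)⁻¹ := by
      rw [Finset.card_univ, ← hn, Nat.sub_self, pow_zero, mul_one]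
    have h3 := Red.mul hR (Red.near h1.1 h1.2)
    rw [mul_one, mul_one] at h3
    rw [hφF, h2, hC, Polynomial.coe_mul, Polynomial.coe_mul, Polynomial.coe_C, Polynomial.coe_pow,
      Polynomial.coe_X]
    exact h3
  obtain ⟨cV, wV, hwV, hcV, hVred⟩ : ∃ (cV : PadicAlgCl p) (wV : k p), wV ≠ 0 ∧
      ‖cV‖ = (‖(p : PadicAlgCl p)‖⁻¹) ^ (∑ c, (e c * (s * ∑ w ∈ Finset.range (M c),
          Nat.card {v : σ →₀ ℕ // (∀ i, v i ≠ 0) ∧ wt (ω c) v = w} * (M c - w)))) ∧
      Red (φ V) cV ((Polynomial.C wV * Polynomial.X ^ Klt * Q : Polynomial (k p)) :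
        PowerSeries (k p)) := by
    choose cc ww hww hccn hcR using hVc
    refine ⟨∏ c, cc c, ∏ c, ww c, Finset.prod_ne_zero_iff.2 fun c _ => hww c, ?_, ?_⟩
    · rw [norm_prod, Finset.prod_congr rfl fun c _ => hccn c, ← Finset.prod_pow_eq_pow_sum]
      refine Finset.prod_congr rfl fun c _ => ?_
      rw [hpγ, ← hτγ c, norm_pow, ← pow_mul, ← inv_pow, ← pow_mul]
      congr 1
      have hS : ∑ x ∈ Finset.univ.filter
          (fun x : (Fin (p - 1) × ZMod s) × Idx (Finset.univ : Finset σ) B => Wx (ω c) x < M c),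
          (M c - Wx (ω c) x) = (p - 1) * s * ∑ w ∈ Finset.range (M c),
            Nat.card {v : σ →₀ ℕ // (∀ i, v i ≠ 0) ∧ wt (ω c) v = w} * (M c - w) := by
        rw [← Finset.sum_fiberwise_of_maps_to (s := Finset.univ.filter
          (fun x : (Fin (p - 1) × ZMod s) × Idx (Finset.univ : Finset σ) B => Wx (ω c) x < M c))
          (t := Finset.range (M c)) (g := fun x => Wx (ω c) x)
          (fun x hx => Finset.mem_range.2 (Finset.mem_filter.1 hx).2), Finset.mul_sum]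
        refine Finset.sum_congr rfl fun w hw => ?_
        have hw' := Finset.mem_range.1 hw
        have h5 := cardW (σ := σ) (Γ := Fin (p - 1) × ZMod s) (hωpos c) (hMB c) (fun w' => w' = w)
          (fun w' hw' => by omega)
        rw [Finset.sum_congr rfl (g := fun _ => M c - w) (fun x hx => by
          rw [(Finset.mem_filter.1 hx).2]), Finset.sum_const, smul_eq_mul, ← mul_assoc]
        congr 1
        rw [Fintype.card_prod, Fintype.card_fin, ZMod.card] at h5
        rw [← h5]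
        congr 1
        ext x
        simp only [Finset.mem_filter, Finset.mem_univ, true_and]
        constructor
        · exact fun h => h.2
        · intro h
          exact ⟨by omega, h⟩
      rw [hS]
      obtain ⟨Y, hY⟩ : ∃ Y, Y = ∑ w ∈ Finset.range (M c),
        Nat.card {v : σ →₀ ℕ // (∀ i, v i ≠ 0) ∧ wt (ω c) v = w} * (M c - w) := ⟨_, rfl⟩
      rw [← hY]
      have := he c
      calc (p - 1) * ((p - 1) * s * Y) = (p - 1) * (M c * e c * s * Y) := by rw [← this]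
        _ = M c * (p - 1) * (e c * (s * Y)) := by ring
    · rw [hV, map_prod]
      simp only [map_prod]
      have h6 := Red.prod Finset.univ fun c _ => hcR c
      convert h6 using 1
      have h7 : ((∏ c, Polynomial.C (ww c)) * Polynomial.X ^ Klt * Q : Polynomial (k p)) =
          ∏ c, (Polynomial.C (ww c) * Polynomial.X ^ K1 c * DM (f c) s (fun j => (E c j).1)) := by
        rw [Finset.prod_mul_distrib, Finset.prod_mul_distrib, Finset.prod_pow_eq_pow_sum,
          hQ, hKlt]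
      rw [h7, ← Polynomial.coeToPowerSeries.ringHom_apply, map_prod]
      rfl
  -- degrees
  have hGdeg : G.natDegree ≤ s * Multiset.card Λ + s * Multiset.card Λ := by
    rw [hG]
    refine Polynomial.natDegree_mul_le.trans (Nat.add_le_add ?_ ?_)
    · rw [Polynomial.natDegree_X_pow]
      exact haΛ
    · have h1 : ∀ S : Multiset (PadicAlgCl p), (S.map fun l =>
          (1 - Polynomial.C (red p l) * Polynomial.X ^ s : Polynomial (k p))).prod.natDegree ≤
          s * Multiset.card S := by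
        intro S
        induction S using Multiset.induction_on with
        | empty => simp
        | cons l S ih =>
          rw [Multiset.map_cons, Multiset.prod_cons, Multiset.card_cons, mul_add, mul_one,
            add_comm]
          refine Polynomial.natDegree_mul_le.trans (Nat.add_le_add ?_ ih)
          refine (Polynomial.natDegree_sub_le _ _).trans (max_le ?_ ?_)
          · rw [Polynomial.natDegree_one]
            exact Nat.zero_le _
          · exact Polynomial.natDegree_C_mul_X_pow_le _ _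
      refine (h1 _).trans (Nat.mul_le_mul_left s ?_)
      exact Multiset.card_le_card (Multiset.filter_le _ _)
  have hG0 : G ≠ 0 := by
    rw [hG]
    refine mul_ne_zero (pow_ne_zero _ Polynomial.X_ne_zero) ?_
    refine Multiset.prod_ne_zero fun h0 => ?_
    rw [Multiset.mem_map] at h0
    obtain ⟨l, _, hl⟩ := h0
    have h1 := congrArg (Polynomial.eval 0) hl
    simp [zero_pow hs] at h1
  have hQ0 : Q ≠ 0 := by
    rw [hQ]
    exact Finset.prod_ne_zero_iff.2 fun c _ => DM_ne_zero _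
  have hG'0 : Polynomial.C wV * Polynomial.X ^ Klt * Q ≠ 0 :=
    mul_ne_zero (mul_ne_zero (Polynomial.C_ne_zero.2 hwV) (pow_ne_zero _ Polynomial.X_ne_zero)) hQ0
  have hG'deg : (Polynomial.C wV * Polynomial.X ^ Klt * Q).natDegree ≤ Klt + Q.natDegree := by
    refine Polynomial.natDegree_mul_le.trans (Nat.add_le_add_right ?_ _)
    exact Polynomial.natDegree_C_mul_X_pow_le _ _
  obtain ⟨hcc, w, hw, hcmp⟩ := compare2 (n₀ := n₀) hUred hVred (Z := φ Z) (by rw [hUVZ, map_mul])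
    (by
      rw [hφ, PowerSeries.coeff_rescale, pow_zero, one_mul,
        PowerSeries.coeff_zero_eq_constantCoeff_apply]
      exact hZps.1)
    (by
      intro m hm hmn
      rw [hφ, PowerSeries.coeff_rescale, norm_mul, norm_pow, norm_inv, inv_pow,
        inv_mul_lt_iff₀ (by positivity), mul_one]
      have h1 := hZsmall m hm
      have hfac : 0 < ‖((m.factorial : ℕ) : PadicAlgCl p)‖ :=
        norm_pos_iff.2 (Nat.cast_ne_zero.2 m.factorial_ne_zero)
      have h2 : ‖((n₀.factorial : ℕ) : PadicAlgCl p)‖ ≤ ‖((m.factorial : ℕ) : PadicAlgCl p)‖ := by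
        obtain ⟨c, hc⟩ := Nat.factorial_dvd_factorial hmn
        rw [hc, Nat.cast_mul, norm_mul]
        exact mul_le_of_le_one_right (norm_nonneg _) (IsUltrametricDist.norm_natCast_le_one _ _)
      have h3 : ‖((m.factorial : ℕ) : PadicAlgCl p)‖ * ‖PowerSeries.coeff m Z‖ <
          ‖((m.factorial : ℕ) : PadicAlgCl p)‖ * ‖(p : PadicAlgCl p)‖ ^ m := by
        refine lt_of_le_of_lt h1 ?_
        rw [hγn]
        refine lt_of_lt_of_le hNε ?_
        rw [mul_comm]
        exact mul_le_mul h2 (pow_le_pow_of_le_one hpn0.le hpn.le hmn) (by positivity)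
          (norm_nonneg _)
      exact lt_of_mul_lt_mul_left h3 hfac.le)
    ⟨G.natDegree, by omega, by
      rw [Polynomial.coeff_coe, Polynomial.coeff_natDegree]
      exact Polynomial.leadingCoeff_ne_zero.2 hG0⟩
    ⟨(Polynomial.C wV * Polynomial.X ^ Klt * Q).natDegree, by omega, by
      rw [Polynomial.coeff_coe, Polynomial.coeff_natDegree]
      exact Polynomial.leadingCoeff_ne_zero.2 hG'0⟩
  have hpoly : Polynomial.C wV * Polynomial.X ^ Klt * Q = Polynomial.C w * G := by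
    ext n
    rw [Polynomial.coeff_C_mul]
    by_cases hnn : n ≤ n₀
    · have := hcmp n hnn
      rwa [Polynomial.coeff_coe, Polynomial.coeff_coe] at this
    · rw [Polynomial.coeff_eq_zero_of_natDegree_lt (by omega),
        Polynomial.coeff_eq_zero_of_natDegree_lt (by omega), mul_zero]
  refine ⟨w, wV, aΛ, Klt, hw, hwV, ?_, ?_⟩
  · rw [← hcΛ, hcc, hcV]
  · rw [← hQ, hpoly, hG, Multiset.map_map]
    rfl

end GW

end Pool.Agent.N867.AS
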