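import Pool.Agent.N867.AS.K10
import Pool.Agent.N867.AS.X1

/-!
# Reductions of the four determinants for a simple pole
-/

set_option autoImplicit false
set_option linter.unusedSectionVars false

namespace Pool.Agent.N867.AS

namespace Lau

open Res Tr GW RedS MvPolynomial

variable {p : ℕ} [hp : Fact p.Prime]

/-- the main determinant -/
noncomputable def DT (f : MvPolynomial (Fin 2) (k p)) (b s : ℕ) [NeZero s] : Polynomial (k p) :=
  (Matrix.of fun x y : ZMod s × Fin b => (if x = y then (1 : Polynomial (k p)) else 0) -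
    Polynomial.X * Polynomial.C (VD.TT p (fun l => hz f b l.val) b x y)).det ^ (p - 1)

/-- the sum of the codimensions -/
def SL (a b M : ℕ) : ℕ :=
  ∑ i ∈ Finset.range M, ∑ j ∈ Finset.range M, if 0 < j then M - (b * i + a * j) else 0

variable {f : MvPolynomial (Fin 2) (k p)} {a b M s : ℕ} [NeZero s] (hf : KP f a b M)

include hf

theorem red_univL (D : Lifts p f s) (hs : s ≠ 0) {τ γ : PadicAlgCl p} (hτ : τ ≠ 0)
    (hτ1 : ‖τ‖ < 1) (hτγ : τ ^ M = γ) (hpγ : ‖(p : PadicAlgCl p)‖ = ‖γ‖ ^ (p - 1))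
    (heta : red p (γ ^ (p - 1) / (p : PadicAlgCl p)) = -1) {N E B : ℕ} (hN : p ≤ N)
    (hE : E = N * f.support.card) (hE2 : 2 ≤ E) (hEB : E ≤ B) (hbB : b ≤ B) (hbp : b < p) :
    ∃ (c : PadicAlgCl p) (w : k p), w ≠ 0 ∧
      ‖c‖ = (‖τ‖⁻¹) ^ ((p - 1) * ∑ x ∈ Finset.univ.filter (fun x : (Fin (p - 1) × ZMod s) ×
        Idx (Finset.univ : Finset (Fin 2)) B => WW a b M E x < M), (M - WW a b M E x)) ∧
      Red (((((p : PadicAlgCl p)⁻¹) • Cmat p (LG 0 D N γ) (rho p s) Finset.univ B).charpolyRev :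
        Polynomial (PadicAlgCl p)) : PowerSeries (PadicAlgCl p)) c
      ((Polynomial.C w * Polynomial.X ^ (Finset.univ.filter (fun x : (Fin (p - 1) × ZMod s) ×
        Idx (Finset.univ : Finset (Fin 2)) B => WW a b M E x < M)).card * DT f b s :
          Polynomial (k p)) : PowerSeries (k p)) := by
  have hpne : (p : PadicAlgCl p) ≠ 0 := Nat.cast_ne_zero.2 hp.1.ne_zero
  have hN0 : 0 < N := by
    have := hp.1.pos
    omega
  have hpos : ∀ x : (Fin (p - 1) × ZMod s) × Idx (Finset.univ : Finset (Fin 2)) B,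
      0 < WW a b M E x := fun x => WW_pos hf x
        (Nat.pos_of_ne_zero (x.2.2 1 (Finset.mem_univ _)))
  have hκ1 : τ ^ ((p - 1) * M) * (p : PadicAlgCl p)⁻¹ = γ ^ (p - 1) / (p : PadicAlgCl p) := by
    rw [← hτγ, ← pow_mul, mul_comm M, div_eq_mul_inv]
  obtain ⟨c, w, hw, hcn, hR⟩ := red_abs (Cmat p (LG 0 D N γ) (rho p s) Finset.univ B)
    (WW a b M E) M hτ hτ1 ((p : PadicAlgCl p)⁻¹) (-1) (by
      rw [hκ1, norm_div, norm_pow, hpγ, div_self]
      have : 0 < ‖γ‖ := by
        rw [← hτγ, norm_pow]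
        have := norm_pos_iff.2 hτ
        positivity
      positivity) (by rw [hκ1, heta])
    (fun x y => hent hf D hs hτ hτ1 hτγ hE x y) (cbL f a b M N E)
    (fun x y hy => hcb hf D hs hτ hτ1 hτγ hE x y hy)
    (fun x y hx hy hne => cbL_off hf hN0 hE (hpos x) (hpos y) hx hy hne)
    (fun w hw => blk_low hf hN hE hw)
  rw [blk_top hf hN hE hE2 hEB hbB hbp] at hR
  exact ⟨c, w, hw, hcn, hR⟩

theorem red_zeroL (D : Lifts p f s) (hs : s ≠ 0) {τ γ : PadicAlgCl p} (hτ : τ ≠ 0)
    (hτ1 : ‖τ‖ < 1) (hτγ : τ ^ M = γ) {N E B : ℕ} (hN : p ≤ N)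
    (hE : E = N * f.support.card) (hE2 : 2 ≤ E) (hEB : E ≤ B) :
    ∃ (c : PadicAlgCl p) (w : k p), w ≠ 0 ∧ ‖c‖ = 1 ∧
      Red ((((1 : PadicAlgCl p) • Cmat p (LG 0 D N γ) (rho p s) {0} B).charpolyRev :
        Polynomial (PadicAlgCl p)) : PowerSeries (PadicAlgCl p)) c
      ((Polynomial.C w * (1 - Polynomial.X ^ s) ^ (p - 1) :
          Polynomial (k p)) : PowerSeries (k p)) := by
  obtain ⟨c, w, hw, hcn, hR⟩ := red_abs (Cmat p (LG 0 D N γ) (rho p s) {0} B)
    (WW a b M E) 0 hτ hτ1 (1 : PadicAlgCl p) 1 (by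
      rw [mul_zero, pow_zero, mul_one, norm_one]) (by rw [mul_zero, pow_zero, mul_one, red_one])
    (fun x y => hent hf D hs hτ hτ1 hτγ hE x y) (cbL f a b M N E)
    (fun x y hy => hcb hf D hs hτ hτ1 hτγ hE x y (hy.trans (Nat.zero_le M)))
    (fun x y hx hy hne => absurd ((Nat.le_zero.1 hx).trans (Nat.le_zero.1 hy).symm) hne)
    (fun w hw => absurd hw (Nat.not_lt_zero w))
  rw [blk_zero hf hN hE hE2 hEB] at hR
  have h0 : (Finset.univ.filter (fun x : (Fin (p - 1) × ZMod s) ×
      Idx ({0} : Finset (Fin 2)) B => WW a b M E x < 0)) = ∅ := by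
    rw [Finset.filter_eq_empty_iff]
    intro x _
    exact Nat.not_lt_zero _
  rw [h0, Finset.sum_empty, mul_zero, pow_zero] at hcn
  rw [h0, Finset.card_empty, pow_zero, mul_one] at hR
  exact ⟨c, w, hw, hcn, hR⟩

theorem small_L (D : Lifts p f s) (hs : s ≠ 0) {τ γ : PadicAlgCl p} (hτ : τ ≠ 0)
    (hτ1 : ‖τ‖ < 1) (hτγ : τ ^ M = γ) {N E B : ℕ}
    (hE : E = N * f.support.card) {T : Finset (Fin 2)} {e : ℕ}
    (h : e ≠ 0 ∨ ∀ x : (Fin (p - 1) × ZMod s) × Idx T B, 0 < WW a b M E x)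
    (n : ℕ) (hn : n ≠ 0) :
    ‖(((p : PadicAlgCl p) ^ e) • Cmat p (LG 0 D N γ) (rho p s) T B).charpolyRev.coeff n‖ < 1 := by
  classical
  have hp2 := hp.1.two_le
  have hpn : ‖(p : PadicAlgCl p)‖ < 1 := norm_p_lt p
  have hpn0 : 0 < ‖(p : PadicAlgCl p)‖ := norm_pos_iff.2 (Nat.cast_ne_zero.2 hp.1.ne_zero)
  obtain ⟨r, hr⟩ : ∃ r : ℝ, r = ‖τ‖ := ⟨_, rfl⟩
  have hr0 : 0 < r := by rw [hr]; exact norm_pos_iff.2 hτ
  have hr1 : r < 1 := by rw [hr]; exact hτ1
  refine Minor.small_of_minors _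
    (fun y => r ^ ((p - 1) * WW a b M E y) * ‖(p : PadicAlgCl p) ^ e‖) ?_ ?_ ?_ n hn
  · intro x
    rw [norm_pow]
    positivity
  · intro x
    rw [norm_pow]
    rcases Nat.eq_zero_or_pos e with he | he
    · rw [he, pow_zero, mul_one]
      refine pow_lt_one₀ hr0.le hr1 ?_
      have h2 := (h.resolve_left (not_not.2 he)) x
      have h3 : 0 < (p - 1) * WW a b M E x := Nat.mul_pos (by omega) h2
      exact h3.ne'
    · calc _ ≤ 1 * ‖(p : PadicAlgCl p)‖ ^ e :=
            mul_le_mul_of_nonneg_right (pow_le_one₀ hr0.le hr1.le) (by positivity)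
        _ = ‖(p : PadicAlgCl p)‖ ^ e := one_mul _
        _ < 1 := pow_lt_one₀ hpn0.le hpn he.ne'
  · intro S
    refine Minor.minor_le _ (fun x => r ^ WW a b M E x) _ (fun x => by positivity)
      (fun x y => ?_) (fun x => ?_) S
    · have h1 := hent hf D hs hτ hτ1 hτγ hE (T := T) (B := B) x y
      rw [norm_div, norm_mul, norm_pow, norm_pow, ← hr, div_le_one (by positivity)] at h1
      rw [Matrix.smul_apply, smul_eq_mul, norm_mul]
      have h2 : WW a b M E y + (p - 1) * WW a b M E y = p * WW a b M E y :=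
        Bd.wadd hp.1.ne_zero _
      calc r ^ WW a b M E x * (‖(p : PadicAlgCl p) ^ e‖ *
            ‖Cmat p (LG 0 D N γ) (rho p s) T B x y‖) =
          ‖(p : PadicAlgCl p) ^ e‖ * (r ^ WW a b M E x *
            ‖Cmat p (LG 0 D N γ) (rho p s) T B x y‖) := by ring
        _ ≤ ‖(p : PadicAlgCl p) ^ e‖ * r ^ (p * WW a b M E y) :=
            mul_le_mul_of_nonneg_left h1 (norm_nonneg _)
        _ = _ := by rw [← h2, pow_add]; ring
    · rw [norm_pow]
      positivity

/-- the exponent of the leading coefficient -/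
theorem sumW {Γ : Type} [Fintype Γ] {E B : ℕ} (hE : 1 ≤ E) (hEB : E + M ≤ B) :
    ∑ x ∈ Finset.univ.filter (fun x : Γ × Idx (Finset.univ : Finset (Fin 2)) B =>
      WW a b M E x < M), (M - WW a b M E x) = Fintype.card Γ * SL a b M := by
  classical
  have ha := hf.ha
  have hb := hf.hb
  have h1 : ∑ x ∈ Finset.univ.filter (fun x : Γ × Idx (Finset.univ : Finset (Fin 2)) B =>
      WW a b M E x < M), (M - WW a b M E x) =
      ∑ x : Γ × Idx (Finset.univ : Finset (Fin 2)) B, (M - WW a b M E x) := by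
    refine Finset.sum_subset (Finset.filter_subset _ _) fun x _ hx => ?_
    rw [Finset.mem_filter, not_and] at hx
    have := hx (Finset.mem_univ _)
    omega
  rw [h1, Fintype.sum_prod_type]
  have h2 : ∀ g : Γ, ∑ u : Idx (Finset.univ : Finset (Fin 2)) B, (M - WW a b M E (g, u)) =
      SL a b M := by
    intro g
    rw [SL, ← Finset.sum_product']
    have hright : ∀ u : Idx (Finset.univ : Finset (Fin 2)) B, M - WW a b M E (g, u) ≠ 0 →
        E ≤ (u.1 0 : ℕ) ∧ b * ((u.1 0 : ℕ) - E) + a * (u.1 1 : ℕ) = WW a b M E (g, u) := by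
      intro u hu
      have hr : E ≤ (u.1 0 : ℕ) := by
        by_contra h
        have := (WW_left (a := a) (b := b) hf.M_pos (g, u) (not_le.1 h) (by omega)).2.1
        omega
      refine ⟨hr, ?_⟩
      have h3 := WW_right (a := a) (b := b) (M := M) (g, u) hr
      rw [wpA] at h3
      have h4 : ((b * ((u.1 0 : ℕ) - E) + a * (u.1 1 : ℕ) : ℕ) : ℤ) = (WW a b M E (g, u) : ℤ) := by
        rw [← h3]
        push_cast [Nat.cast_sub hr]
        ring
      exact_mod_cast h4
    refine Finset.sum_bij_ne_zero (fun u _ _ => ((u.1 0 : ℕ) - E, (u.1 1 : ℕ))) ?_ ?_ ?_ ?_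
    · intro u _ hu
      obtain ⟨hr, hw⟩ := hright u hu
      rw [Finset.mem_product, Finset.mem_range, Finset.mem_range]
      have h3 : 1 * ((u.1 0 : ℕ) - E) ≤ b * ((u.1 0 : ℕ) - E) := Nat.mul_le_mul_right _ hb
      have h4 : 1 * (u.1 1 : ℕ) ≤ a * (u.1 1 : ℕ) := Nat.mul_le_mul_right _ (by omega)
      constructor
      · change (u.1 0 : ℕ) - E < M
        omega
      · change (u.1 1 : ℕ) < M
        omega
    · intro u _ hu v _ hv h
      obtain ⟨hr, _⟩ := hright u hu
      obtain ⟨hr', _⟩ := hright v hv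
      simp only [Prod.mk.injEq] at h
      apply Subtype.ext
      funext i
      fin_cases i
      · apply Fin.ext
        change (u.1 0 : ℕ) = (v.1 0 : ℕ)
        omega
      · apply Fin.ext
        exact h.2
    · rintro ⟨i, j⟩ hij hne
      rw [Finset.mem_product, Finset.mem_range, Finset.mem_range] at hij
      simp only at hij hne
      split_ifs at hne with hj
      · have hu : ∀ l ∈ (Finset.univ : Finset (Fin 2)),
            ((![⟨E + i, by omega⟩, ⟨j, by omega⟩] : Fin 2 → Fin (B + 1)) l : ℕ) ≠ 0 := by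
          intro l _
          fin_cases l
          · change E + i ≠ 0
            omega
          · change j ≠ 0
            omega
        have hW : WW a b M E (g, (⟨![⟨E + i, by omega⟩, ⟨j, by omega⟩], hu⟩ :
            Idx (Finset.univ : Finset (Fin 2)) B)) = b * i + a * j := by
          have h3 := WW_right (a := a) (b := b) (M := M) (E := E) (g,
            (⟨![⟨E + i, by omega⟩, ⟨j, by omega⟩], hu⟩ :
              Idx (Finset.univ : Finset (Fin 2)) B)) (by
              change E ≤ E + i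
              omega)
          rw [wpA] at h3
          change (b : ℤ) * ((E + i : ℕ) : ℤ) + a * ((j : ℕ) : ℤ) - E * b = _ at h3
          have h4 : ((b * i + a * j : ℕ) : ℤ) = (b : ℤ) * ((E + i : ℕ) : ℤ) + a * ((j : ℕ) : ℤ) -
              E * b := by
            push_cast
            ring
          rw [← h4] at h3
          exact_mod_cast h3.symm
        refine ⟨⟨![⟨E + i, by omega⟩, ⟨j, by omega⟩], hu⟩, Finset.mem_univ _, ?_, ?_⟩
        · rw [hW]
          exact hne
        · change (E + i - E, j) = (i, j)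
          rw [Nat.add_sub_cancel_left]
      · exact absurd rfl hne
    · intro u _ hu
      obtain ⟨hr, hw⟩ := hright u hu
      simp only
      rw [if_pos (Nat.pos_of_ne_zero (u.2 1 (Finset.mem_univ _))), hw]
  rw [Finset.sum_congr rfl fun g _ => h2 g, Finset.sum_const, Finset.card_univ, smul_eq_mul]

end Lau

end Pool.Agent.N867.AS
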