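import Pool.Agent.N867.AS.K11

/-!
# The comparison for families with a simple pole
-/

set_option autoImplicit false
set_option linter.unusedSectionVars false

namespace Pool.Agent.N867.AS

namespace Lau

open MvPolynomial Res Tr Bd RedS GW

variable {p : ℕ} [hp : Fact p.Prime] {s : ℕ}

theorem trace_pow_inst {n R : Type} {S : Semiring R} {A : AddCommMonoid R} {i₁ i₂ : DecidableEq n}
    {F₁ F₂ : Fintype n} (M : Matrix n n R) (m : ℕ) :
    (letI := i₁; letI := F₁; letI := S; @Matrix.trace n R F₁ A (M ^ m)) =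
      (letI := i₂; letI := F₂; letI := S; @Matrix.trace n R F₂ A (M ^ m)) := by
  have h : i₁ = i₂ := Subsingleton.elim _ _
  have h' : F₁ = F₂ := Subsingleton.elim _ _
  rw [h, h']

theorem count_L {Γ : Type} [Fintype Γ] {f : Γ → MvPolynomial (Fin 2) (k p)}
    {a b M : Γ → ℕ} (hf : ∀ c, KP (f c) (a c) (b c) (M c)) (hs : s ≠ 0) [NeZero s]
    (hfs : ∀ i μ, coeff μ (f i) ^ p ^ s = coeff μ (f i))
    (P : Polynomial (PadicAlgCl p))
    (hP : HasPS (P : PowerSeries (PadicAlgCl p)) (fun m => ∑ i,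
      ((lpts 0 (f i) (p ^ (s * m)) : PadicAlgCl p) -
      (((p ^ (s * m) : ℕ) : PadicAlgCl p) - 1) * ((p ^ (s * m) : ℕ) : PadicAlgCl p))))
    [DecidableEq ℝ]
    [DecidableEq (k p)] [DecidablePred fun l : PadicAlgCl p => 1 < ‖l‖]
    {Λ : Multiset (PadicAlgCl p)}
    (hΛ : Λ = P.roots.map (fun ρ => ρ⁻¹ * ((p : PadicAlgCl p)⁻¹) ^ s)) {e : Γ → ℕ}
    (he : ∀ c, p - 1 = M c * e c) :
    ∃ (w w' : k p) (a₁ b₁ : ℕ), w ≠ 0 ∧ w' ≠ 0 ∧
      ((Λ.filter fun l => 1 < ‖l‖).map fun l => ‖l‖).prod =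
        (‖(p : PadicAlgCl p)‖⁻¹) ^ (∑ c, (e c * (s * SL (a c) (b c) (M c)))) ∧
      Polynomial.C w' * Polynomial.X ^ b₁ * ∏ i, DT (f i) (b i) s =
        Polynomial.C w * (Polynomial.X ^ a₁ *
          (((Λ.filter fun l => ‖l‖ = 1).map (red p)).map
            fun l => (1 - Polynomial.C l * Polynomial.X ^ s : Polynomial (k p))).prod) *
          ((1 - Polynomial.X ^ s) ^ (p - 1)) ^ (Fintype.card Γ) := by
  classical
  have hp2 := hp.1.two_le
  have hpne : (p : PadicAlgCl p) ≠ 0 := Nat.cast_ne_zero.2 hp.1.ne_zero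
  have hpn : ‖(p : PadicAlgCl p)‖ < 1 := norm_p_lt p
  have hpn0 : 0 < ‖(p : PadicAlgCl p)‖ := norm_pos_iff.2 hpne
  have hM0 : ∀ c, M c ≠ 0 := fun c => (hf c).M_pos.ne'
  have hbp : ∀ c, b c < p := by
    intro c
    have h1 := (hf c).hM
    have h2 := (hf c).ha
    have h3 : 2 * b c ≤ a c * b c := Nat.mul_le_mul_right _ h2
    have h4 := Nat.le_of_dvd (by omega) (hf c).hMp
    omega
  -- the root of unity
  have : NeZero (p : PadicAlgCl p) := ⟨hpne⟩
  obtain ⟨ζ, hζ⟩ := HasEnoughRootsOfUnity.exists_primitiveRoot (PadicAlgCl p) p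
  have hζ1 : ζ ≠ 1 := hζ.ne_one hp.1.one_lt
  have hζp := Split.norm_zeta_sub_one hζ
  have hζlt : ‖ζ - 1‖ < 1 := by
    by_contra h
    push Not at h
    have h1 := one_le_pow₀ h (n := p - 1)
    rw [hζp] at h1
    exact absurd hpn (not_lt.2 h1)
  have hζpos : 0 < ‖ζ - 1‖ := norm_pos_iff.2 (sub_ne_zero.2 hζ1)
  -- the polynomial `P`
  have hP0 : P.coeff 0 = 1 := by
    have h1 := hP.1
    rwa [← PowerSeries.coeff_zero_eq_constantCoeff_apply, Polynomial.coeff_coe] at h1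
  have hPs : PowerSeries.rescale ((p : PadicAlgCl p)⁻¹)
      (PowerSeries.expand s hs (P : PowerSeries (PadicAlgCl p))) =
      (Λ.map fun l => (1 - PowerSeries.C l * PowerSeries.X ^ s : PowerSeries _)).prod := by
    conv_lhs => rw [poly_eq_prod P hP0]
    rw [hΛ, Multiset.map_map, ← Polynomial.coeToPowerSeries.ringHom_apply, map_multiset_prod,
      Multiset.map_map, map_multiset_prod, Multiset.map_map, map_multiset_prod, Multiset.map_map]
    congr 1
    refine Multiset.map_congr rfl fun ρ _ => ?_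
    simp only [Function.comp_apply, map_sub, map_one, map_mul,
      Polynomial.coeToPowerSeries.ringHom_apply, Polynomial.coe_C, Polynomial.coe_X,
      PowerSeries.expand_C, PowerSeries.expand_X, map_pow, PowerSeries.rescale_X]
    have h1 : PowerSeries.rescale ((p : PadicAlgCl p)⁻¹) (PowerSeries.C ρ⁻¹) =
        (PowerSeries.C ρ⁻¹ : PowerSeries (PadicAlgCl p)) := by
      ext n
      rw [PowerSeries.coeff_rescale, PowerSeries.coeff_C]
      split_ifs with h
      · rw [h, pow_zero, one_mul]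
      · rw [mul_zero]
    rw [h1, mul_pow]
    ring
  obtain ⟨cΛ, aΛ, haΛ, hcΛ, hRP⟩ := red_multiset2 s hs Λ
  rw [← hPs] at hRP
  -- the bound `n₀`
  obtain ⟨K1, hK1⟩ : ∃ K : Γ → ℕ, ∀ c, K c = Fintype.card (Fin (p - 1) × ZMod s) *
    SL (a c) (b c) (M c) := ⟨_, fun _ => rfl⟩
  obtain ⟨Klt, hKlt⟩ : ∃ K, K = ∑ c, K1 c := ⟨_, rfl⟩
  obtain ⟨Q, hQ⟩ : ∃ Q : Polynomial (k p), Q = ∏ i, DT (f i) (b i) s := ⟨_, rfl⟩
  obtain ⟨n₀, hn₀⟩ : ∃ n₀, n₀ = s * Multiset.card Λ + s * Multiset.card Λ +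
    (s * (p - 1)) * Fintype.card Γ + Klt + Q.natDegree := ⟨_, rfl⟩
  -- the truncation level
  have hεpos : 0 < ‖(p : PadicAlgCl p)‖ ^ n₀ * ‖((n₀.factorial : ℕ) : PadicAlgCl p)‖ := by
    have : ((n₀.factorial : ℕ) : PadicAlgCl p) ≠ 0 := Nat.cast_ne_zero.2 n₀.factorial_ne_zero
    have := norm_pos_iff.2 this
    positivity
  obtain ⟨N₁, hN₁⟩ := exists_pow_lt_of_lt_one hεpos hζlt
  obtain ⟨N, hNdef⟩ : ∃ N, N = N₁ + p := ⟨_, rfl⟩
  have hN2 : 2 ≤ N := by omega
  have hNp : p ≤ N := by omega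
  have hNε : ‖ζ - 1‖ ^ N < ‖(p : PadicAlgCl p)‖ ^ n₀ * ‖((n₀.factorial : ℕ) : PadicAlgCl p)‖ :=
    lt_of_le_of_lt (pow_le_pow_of_le_one hζpos.le hζlt.le (by omega)) hN₁
  obtain ⟨γ, hγn, hγζ⟩ := Split.exists_gamma hp.1.one_lt hE hN2 hζ1 hζlt
  have hγ0 : γ ≠ 0 := by
    rintro rfl
    rw [norm_zero] at hγn
    exact hζpos.ne hγn
  have hγ1 : ‖γ‖ ≤ 1 := by rw [hγn]; exact hζlt.le
  have hγpos : 0 < ‖γ‖ := norm_pos_iff.2 hγ0
  obtain ⟨τ, hτγ⟩ : ∃ τ : Γ → PadicAlgCl p, ∀ c, τ c ^ M c = γ := by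
    choose τ hτ using fun c => IsAlgClosed.exists_pow_nat_eq γ (Nat.pos_of_ne_zero (hM0 c))
    exact ⟨τ, hτ⟩
  have hτ : ∀ c, τ c ≠ 0 := by
    intro c h0
    have h1 := hτγ c
    rw [h0, zero_pow (hM0 c)] at h1
    exact hγ0 h1.symm
  have hτ1 : ∀ c, ‖τ c‖ < 1 := by
    intro c
    by_contra h
    push Not at h
    have h1 := one_le_pow₀ h (n := M c)
    rw [← norm_pow, hτγ, hγn] at h1
    exact absurd hζlt (not_lt.2 h1)
  have heta := eta hζ hζlt hN2 hγn hγζ
  have hpγ : ‖(p : PadicAlgCl p)‖ = ‖γ‖ ^ (p - 1) := by rw [hγn, hζp]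
  -- the shift
  obtain ⟨E, hE⟩ : ∃ E : Γ → ℕ, ∀ c, E c = N * (f c).support.card := ⟨_, fun _ => rfl⟩
  have hsupp : ∀ c, (f c).support.Nonempty := fun c =>
    ⟨_, mem_support_iff.2 (hf c).ca⟩
  have hE2 : ∀ c, 2 ≤ E c := by
    intro c
    have h1 : 1 ≤ (f c).support.card := Finset.card_pos.2 (hsupp c)
    have h2 : N * 1 ≤ N * (f c).support.card := Nat.mul_le_mul_left N h1
    rw [hE]
    omega
  -- lifts and box
  have hD : ∀ c, Nonempty (Lifts p (f c) s) := fun c => exists_lifts hs (hfs c)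
  obtain ⟨D, -⟩ : ∃ D : ∀ c, Lifts p (f c) s, True := ⟨fun c => Classical.choice (hD c), trivial⟩
  obtain ⟨B, hEB, hbB, hB⟩ : ∃ B, (∀ c, E c + M c ≤ B) ∧ (∀ c, b c ≤ B) ∧
      ∀ c g, ∀ v ∈ (LG 0 (D c) N γ g).support, ∀ i, v i ≤ B := by
    refine ⟨∑ c, (E c + M c + b c) + ∑ c, ∑ g, ∑ v ∈ (LG 0 (D c) N γ g).support, ∑ i, v i,
      fun c => ?_, fun c => ?_, fun c g v hv i => ?_⟩
    · have h1 : E c + M c + b c ≤ ∑ c, (E c + M c + b c) :=
        Finset.single_le_sum (f := fun c => E c + M c + b c)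
        (fun _ _ => Nat.zero_le _) (Finset.mem_univ c)
      omega
    · have h1 : E c + M c + b c ≤ ∑ c, (E c + M c + b c) :=
        Finset.single_le_sum (f := fun c => E c + M c + b c)
        (fun _ _ => Nat.zero_le _) (Finset.mem_univ c)
      omega
    have h1 : v i ≤ ∑ i, v i := Finset.single_le_sum (f := fun i => v i)
      (fun _ _ => Nat.zero_le _) (Finset.mem_univ i)
    have h2 : ∑ i, v i ≤ ∑ v ∈ (LG 0 (D c) N γ g).support, ∑ i, v i :=
      Finset.single_le_sum (f := fun v : Fin 2 →₀ ℕ => ∑ i, v i) (fun _ _ => Nat.zero_le _) hv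
    have h3 : ∑ v ∈ (LG 0 (D c) N γ g).support, ∑ i, v i ≤
        ∑ g, ∑ v ∈ (LG 0 (D c) N γ g).support, ∑ i, v i :=
      Finset.single_le_sum (f := fun g => ∑ v ∈ (LG 0 (D c) N γ g).support, ∑ i, v i)
        (fun _ _ => Nat.zero_le _) (Finset.mem_univ g)
    have h4 : ∑ g, ∑ v ∈ (LG 0 (D c) N γ g).support, ∑ i, v i ≤
        ∑ c, ∑ g, ∑ v ∈ (LG 0 (D c) N γ g).support, ∑ i, v i :=
      Finset.single_le_sum (f := fun c => ∑ g, ∑ v ∈ (LG 0 (D c) N γ g).support, ∑ i, v i)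
        (fun _ _ => Nat.zero_le _) (Finset.mem_univ c)
    omega
  obtain ⟨C, hC⟩ : ∃ C : Γ → (T : Finset (Fin 2)) → Matrix ((Fin (p - 1) × ZMod s) × Idx T B)
      ((Fin (p - 1) × ZMod s) × Idx T B) (PadicAlgCl p),
    ∀ c T, C c T = Cmat p (LG 0 (D c) N γ) (rho p s) T B := ⟨_, fun _ _ => rfl⟩
  have happ := fun (c : Γ) L (hL : L ≠ 0) => approx' 0 (D c) (s := s) (hsupp c) hζ hγ0 hγ1 hγζ
    (hB c) hL
  have hprod2 : ∀ Q : PadicAlgCl p, (∏ i : Fin 2, if i = 0 then (Q - 1) else Q) = (Q - 1) * Q := by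
    intro Q
    rw [Fin.prod_univ_two, if_pos rfl, if_neg (by decide)]
  simp only [← hC, hprod2, Fintype.card_fin] at happ
  -- the power series
  obtain ⟨F, hF⟩ : ∃ F : Γ → Finset (Fin 2) → PowerSeries (PadicAlgCl p),
    ∀ c T, F c T = PowerSeries.rescale ((p : PadicAlgCl p) ^ (2 - T.card))
      ((C c T).charpolyRev : PowerSeries (PadicAlgCl p)) := ⟨_, fun _ _ => rfl⟩
  have hFps : ∀ c T, HasPS (F c T) (fun m => ((p : PadicAlgCl p) ^ (2 - T.card)) ^ m *
      ((C c T) ^ m).trace) := by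
    intro c T
    rw [hF]
    exact (hasPS_charpolyRev (C c T)).rescale _
  obtain ⟨Ev, hEv⟩ : ∃ Ev : Finset (Finset (Fin 2)),
    Ev = Finset.univ.filter (fun T => Even T.card) := ⟨_, rfl⟩
  obtain ⟨Od, hOd⟩ : ∃ Od : Finset (Finset (Fin 2)),
    Od = Finset.univ.filter (fun T => ¬ Even T.card) := ⟨_, rfl⟩
  obtain ⟨U, hU⟩ : ∃ U : PowerSeries (PadicAlgCl p), U =
    PowerSeries.expand s hs (P : PowerSeries (PadicAlgCl p)) * ∏ c, ∏ T ∈ Od, F c T := ⟨_, rfl⟩
  obtain ⟨V, hV⟩ : ∃ V : PowerSeries (PadicAlgCl p), V = ∏ c, ∏ T ∈ Ev, F c T := ⟨_, rfl⟩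
  have hUps := (hP.expand s hs).mul (HasPS.prod Finset.univ fun c _ =>
    HasPS.prod Od fun T _ => hFps c T)
  rw [← hU] at hUps
  have hVps := HasPS.prod Finset.univ fun c _ => HasPS.prod Ev fun T _ => hFps c T
  rw [← hV] at hVps
  have hV0 : PowerSeries.constantCoeff V ≠ 0 := by rw [hVps.1]; exact one_ne_zero
  obtain ⟨Z, hZ⟩ : ∃ Z : PowerSeries (PadicAlgCl p), Z = U * V⁻¹ := ⟨_, rfl⟩
  have hUVZ : U = V * Z := by
    rw [hZ, mul_comm U, ← mul_assoc, PowerSeries.mul_inv_cancel V hV0, one_mul]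
  have hZps := hUps.mul hVps.inv
  rw [← hZ] at hZps
  -- the power sums of `Z` are small
  obtain ⟨mn, hmn⟩ : ∃ mn : ℕ → PadicAlgCl p, ∀ L, mn L = (((p ^ L : ℕ) : PadicAlgCl p) - 1) *
    ((p ^ L : ℕ) : PadicAlgCl p) := ⟨_, fun _ => rfl⟩
  simp only [← hmn] at happ hZps
  have hδ : ∀ m, m ≠ 0 → ‖((if s ∣ m then (s : PadicAlgCl p) *
      (∑ c, ((lpts 0 (f c) (p ^ (s * (m / s))) : PadicAlgCl p) -
        mn (s * (m / s)))) else 0) +
      ∑ c, ∑ T ∈ Od, ((p : PadicAlgCl p) ^ (2 - T.card)) ^ m * ((C c T) ^ m).trace) +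
      -∑ c, ∑ T ∈ Ev, ((p : PadicAlgCl p) ^ (2 - T.card)) ^ m * ((C c T) ^ m).trace‖ ≤
        ‖γ‖ ^ N := by
    intro m hm
    have h0 : ∀ c, ‖((if s ∣ m then (s : PadicAlgCl p) *
        ((lpts 0 (f c) (p ^ (s * (m / s))) : PadicAlgCl p) -
          mn (s * (m / s))) else 0) +
        ∑ T ∈ Od, ((p : PadicAlgCl p) ^ (2 - T.card)) ^ m * ((C c T) ^ m).trace) +
        -∑ T ∈ Ev, ((p : PadicAlgCl p) ^ (2 - T.card)) ^ m * ((C c T) ^ m).trace‖ ≤
          ‖γ‖ ^ N := by
      intro c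
      have h1 := happ c m hm
      have h2 : (if s ∣ m then (s : PadicAlgCl p) *
          ((lpts 0 (f c) (p ^ m) : PadicAlgCl p) - mn m) else 0) =
          (if s ∣ m then (s : PadicAlgCl p) *
          ((lpts 0 (f c) (p ^ (s * (m / s))) : PadicAlgCl p) -
            mn (s * (m / s))) else 0) := by
        split_ifs with h
        · rw [Nat.mul_div_cancel' h]
        · rfl
      have h3 : ∑ T : Finset (Fin 2), (-1) ^ T.card * ((p ^ m : ℕ) : PadicAlgCl p) ^ (2 - T.card) *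
          ((C c T) ^ m).trace =
          ∑ T ∈ Ev, ((p : PadicAlgCl p) ^ (2 - T.card)) ^ m * ((C c T) ^ m).trace -
          ∑ T ∈ Od, ((p : PadicAlgCl p) ^ (2 - T.card)) ^ m * ((C c T) ^ m).trace := by
        rw [← Finset.sum_filter_add_sum_filter_not Finset.univ
          (fun T : Finset (Fin 2) => Even T.card),
          ← hEv, ← hOd, sub_eq_add_neg, ← Finset.sum_neg_distrib]
        congr 1
        · refine Finset.sum_congr rfl fun T hT => ?_
          rw [hEv, Finset.mem_filter] at hT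
          rw [hT.2.neg_one_pow, one_mul, Nat.cast_pow, ← pow_mul, ← pow_mul, mul_comm m]
        · refine Finset.sum_congr rfl fun T hT => ?_
          rw [hOd, Finset.mem_filter] at hT
          rw [(Nat.not_even_iff_odd.1 hT.2).neg_one_pow, Nat.cast_pow, ← pow_mul, ← pow_mul,
            mul_comm m]
          ring
      rw [h2] at h1
      have h5 : ((if s ∣ m then (s : PadicAlgCl p) *
          ((lpts 0 (f c) (p ^ (s * (m / s))) : PadicAlgCl p) -
            mn (s * (m / s))) else 0) +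
          ∑ T ∈ Od, ((p : PadicAlgCl p) ^ (2 - T.card)) ^ m * ((C c T) ^ m).trace) +
          -∑ T ∈ Ev, ((p : PadicAlgCl p) ^ (2 - T.card)) ^ m * ((C c T) ^ m).trace =
          (if s ∣ m then (s : PadicAlgCl p) *
          ((lpts 0 (f c) (p ^ (s * (m / s))) : PadicAlgCl p) -
            mn (s * (m / s))) else 0) -
          ∑ T : Finset (Fin 2), (-1) ^ T.card * ((p ^ m : ℕ) : PadicAlgCl p) ^ (2 - T.card) *
          ((C c T) ^ m).trace := by
        rw [h3]
        ring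
      rw [h5]
      convert h1 using 5
      apply trace_pow_inst
    have h4 : ((if s ∣ m then (s : PadicAlgCl p) *
        (∑ c, ((lpts 0 (f c) (p ^ (s * (m / s))) : PadicAlgCl p) -
          mn (s * (m / s)))) else 0) +
        ∑ c, ∑ T ∈ Od, ((p : PadicAlgCl p) ^ (2 - T.card)) ^ m * ((C c T) ^ m).trace) +
        -∑ c, ∑ T ∈ Ev, ((p : PadicAlgCl p) ^ (2 - T.card)) ^ m * ((C c T) ^ m).trace =
        ∑ c, (((if s ∣ m then (s : PadicAlgCl p) *
        ((lpts 0 (f c) (p ^ (s * (m / s))) : PadicAlgCl p) -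
          mn (s * (m / s))) else 0) +
        ∑ T ∈ Od, ((p : PadicAlgCl p) ^ (2 - T.card)) ^ m * ((C c T) ^ m).trace) +
        -∑ T ∈ Ev, ((p : PadicAlgCl p) ^ (2 - T.card)) ^ m * ((C c T) ^ m).trace) := by
      rw [Finset.sum_add_distrib, Finset.sum_add_distrib, Finset.sum_neg_distrib]
      congr 2
      split_ifs
      · rw [Finset.mul_sum]
      · rw [Finset.sum_const_zero]
    rw [h4]
    exact IsUltrametricDist.norm_sum_le_of_forall_le_of_nonneg (pow_nonneg (norm_nonneg _) _)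
      fun c _ => h0 c
  have hγN1 : ‖γ‖ ^ N ≤ 1 := pow_le_one₀ hγpos.le hγ1
  have hZsmall := fun m hm => Minor.small_of_ps hZps (by positivity) hγN1 hδ m hm
  -- rescaling by `1/p`
  obtain ⟨φ, hφ⟩ : ∃ φ : PowerSeries (PadicAlgCl p) →+* PowerSeries (PadicAlgCl p),
    φ = PowerSeries.rescale ((p : PadicAlgCl p)⁻¹) := ⟨_, rfl⟩
  have hφF : ∀ c T, φ (F c T) = ((((p : PadicAlgCl p)⁻¹ * (p : PadicAlgCl p) ^ (2 - T.card)) •
      (C c T)).charpolyRev : PowerSeries (PadicAlgCl p)) := by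
    intro c T
    rw [hφ, hF, PowerSeries.rescale_rescale, rescale_charpolyRev, mul_comm]
  have hcoeff0 : ∀ (c : Γ) (T : Finset (Fin 2)), PowerSeries.coeff 0 (φ (F c T)) = 1 := by
    intro c T
    rw [hφF, PowerSeries.coeff_zero_eq_constantCoeff_apply]
    exact (hasPS_charpolyRev _).1
  have hcases : ∀ T : Finset (Fin 2), T = ∅ ∨ T = {0} ∨ T = {1} ∨ T = Finset.univ := by decide
  have hnear : ∀ (c : Γ) (T : Finset (Fin 2)), T ≠ Finset.univ → T ≠ {0} →
      PowerSeries.coeff 0 (φ (F c T)) = 1 ∧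
      ∀ m, m ≠ 0 → ‖PowerSeries.coeff m (φ (F c T))‖ < 1 := by
    intro c T hT hT0
    refine ⟨hcoeff0 c T, fun m hm => ?_⟩
    rcases hcases T with rfl | rfl | rfl | rfl
    · have h1 : (p : PadicAlgCl p)⁻¹ * (p : PadicAlgCl p) ^ (2 - (∅ : Finset (Fin 2)).card) =
          (p : PadicAlgCl p) ^ 1 := by
        rw [Finset.card_empty]
        norm_num
        field_simp
      rw [hφF, h1, Polynomial.coeff_coe, hC]
      exact small_L (hf c) (D c) hs (hτ c) (hτ1 c) (hτγ c) (hE c) (Or.inl one_ne_zero) m hm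
    · exact absurd rfl hT0
    · have h1 : (p : PadicAlgCl p)⁻¹ * (p : PadicAlgCl p) ^ (2 - ({1} : Finset (Fin 2)).card) =
          (p : PadicAlgCl p) ^ 0 := by
        rw [Finset.card_singleton, pow_zero]
        change (p : PadicAlgCl p)⁻¹ * (p : PadicAlgCl p) ^ 1 = 1
        rw [pow_one, inv_mul_cancel₀ hpne]
      rw [hφF, h1, Polynomial.coeff_coe, hC]
      exact small_L (hf c) (D c) hs (hτ c) (hτ1 c) (hτγ c) (hE c) (Or.inr fun x => WW_pos (hf c) x
        (Nat.pos_of_ne_zero (x.2.2 1 (Finset.mem_singleton_self 1)))) m hm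
    · exact absurd rfl hT
  have hunivE : (Finset.univ : Finset (Fin 2)) ∈ Ev := by
    rw [hEv, Finset.mem_filter]
    exact ⟨Finset.mem_univ _, by decide⟩
  have h0O : ({0} : Finset (Fin 2)) ∈ Od := by
    rw [hOd, Finset.mem_filter]
    exact ⟨Finset.mem_univ _, by decide⟩
  have hOdne : ∀ T ∈ Od, T ≠ Finset.univ := by
    rintro T hT rfl
    rw [hOd, Finset.mem_filter] at hT
    exact hT.2 (by decide)
  have hEvne : ∀ T ∈ Ev, T ≠ {0} := by
    rintro T hT rfl
    rw [hEv, Finset.mem_filter] at hT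
    exact absurd hT.2 (by decide)
  obtain ⟨G, hG⟩ : ∃ G : Polynomial (k p), G = Polynomial.X ^ aΛ *
      ((Λ.filter fun l => ‖l‖ = 1).map fun l =>
        (1 - Polynomial.C (red p l) * Polynomial.X ^ s : Polynomial (k p))).prod := ⟨_, rfl⟩
  have hOc : ∀ c, ∃ (cO : PadicAlgCl p) (wO : k p), wO ≠ 0 ∧ ‖cO‖ = 1 ∧
      Red (φ (∏ T ∈ Od, F c T)) cO ((Polynomial.C wO * (1 - Polynomial.X ^ s) ^ (p - 1) :
        Polynomial (k p)) : PowerSeries (k p)) := by
    intro c
    rw [map_prod, ← Finset.mul_prod_erase _ _ h0O]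
    have h1 := Minor.near_prod' (Od.erase {0})
      (fun T hT => (hnear c T (hOdne T (Finset.mem_erase.1 hT).2) (Finset.mem_erase.1 hT).1).1)
      (fun T hT => (hnear c T (hOdne T (Finset.mem_erase.1 hT).2) (Finset.mem_erase.1 hT).1).2)
    obtain ⟨c', w, hw, hcn, hR⟩ := red_zeroL (hf c) (D c) hs (hτ c) (hτ1 c) (hτγ c) hNp (hE c)
      (hE2 c) (B := B) (by have := hEB c; omega)
    refine ⟨c', w, hw, hcn, ?_⟩
    have h2 : (p : PadicAlgCl p)⁻¹ * (p : PadicAlgCl p) ^ (2 - ({0} : Finset (Fin 2)).card) =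
        (1 : PadicAlgCl p) := by
      rw [Finset.card_singleton]
      change (p : PadicAlgCl p)⁻¹ * (p : PadicAlgCl p) ^ 1 = 1
      rw [pow_one, inv_mul_cancel₀ hpne]
    have h3 := Red.mul hR (Red.near h1.1 h1.2)
    rw [mul_one, mul_one] at h3
    rw [hφF, h2, hC]
    exact h3
  obtain ⟨cO, wO, hwO, hcO, hOred⟩ : ∃ (cO : PadicAlgCl p) (wO : k p), wO ≠ 0 ∧ ‖cO‖ = 1 ∧
      Red (φ (∏ c, ∏ T ∈ Od, F c T)) cO ((Polynomial.C wO *
        ((1 - Polynomial.X ^ s) ^ (p - 1)) ^ (Fintype.card Γ) :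
        Polynomial (k p)) : PowerSeries (k p)) := by
    choose cc ww hww hccn hcR using hOc
    refine ⟨∏ c, cc c, ∏ c, ww c, Finset.prod_ne_zero_iff.2 fun c _ => hww c, ?_, ?_⟩
    · rw [norm_prod, Finset.prod_congr rfl fun c _ => hccn c, Finset.prod_const_one]
    · rw [map_prod]
      have h6 := Red.prod Finset.univ fun c _ => hcR c
      convert h6 using 1
      have h7 : ((Polynomial.C (∏ c, ww c)) * ((1 - Polynomial.X ^ s) ^ (p - 1)) ^
          (Fintype.card Γ) : Polynomial (k p)) =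
          ∏ c, (Polynomial.C (ww c) * (1 - Polynomial.X ^ s) ^ (p - 1)) := by
        rw [Finset.prod_mul_distrib, Finset.prod_const, Finset.card_univ, map_prod]
      rw [h7, ← Polynomial.coeToPowerSeries.ringHom_apply, map_prod]
      rfl
  have hUred : Red (φ U) (cΛ * cO) ((G * (Polynomial.C wO *
      ((1 - Polynomial.X ^ s) ^ (p - 1)) ^ (Fintype.card Γ)) : Polynomial (k p)) :
        PowerSeries (k p)) := by
    rw [hU, map_mul, Polynomial.coe_mul]
    refine Red.mul ?_ hOred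
    rw [hG, hφ]
    convert hRP using 1
    rw [Polynomial.coe_mul, Polynomial.coe_pow, Polynomial.coe_X,
      ← Polynomial.coeToPowerSeries.ringHom_apply, map_multiset_prod, Multiset.map_map]
    congr 2
    refine Multiset.map_congr rfl fun l _ => ?_
    simp only [Function.comp_apply, map_sub, map_one, map_mul, map_pow,
      Polynomial.coeToPowerSeries.ringHom_apply, Polynomial.coe_C, Polynomial.coe_X]
  have hVc : ∀ c, ∃ (cV : PadicAlgCl p) (wV : k p) (K : ℕ), wV ≠ 0 ∧ K ≤ K1 c ∧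
      ‖cV‖ = (‖τ c‖⁻¹) ^ ((p - 1) * (Fintype.card (Fin (p - 1) × ZMod s) *
        SL (a c) (b c) (M c))) ∧
      Red (∏ T ∈ Ev, φ (F c T)) cV ((Polynomial.C wV * Polynomial.X ^ K *
        DT (f c) (b c) s : Polynomial (k p)) : PowerSeries (k p)) := by
    intro c
    rw [← Finset.mul_prod_erase _ _ hunivE]
    have h1 := Minor.near_prod' (Ev.erase Finset.univ)
      (fun T hT => (hnear c T (Finset.mem_erase.1 hT).1 (hEvne T (Finset.mem_erase.1 hT).2)).1)
      (fun T hT => (hnear c T (Finset.mem_erase.1 hT).1 (hEvne T (Finset.mem_erase.1 hT).2)).2)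
    obtain ⟨c', w, hw, hcn, hR⟩ := red_univL (hf c) (D c) hs (hτ c) (hτ1 c) (hτγ c) hpγ heta hNp
      (hE c) (hE2 c) (B := B) (by have := hEB c; omega) (hbB c) (hbp c)
    have hsum := sumW (hf c) (Γ := Fin (p - 1) × ZMod s) (E := E c) (B := B)
      (by have := hE2 c; omega) (hEB c)
    have hle : (Finset.univ.filter (fun x : (Fin (p - 1) × ZMod s) ×
        Idx (Finset.univ : Finset (Fin 2)) B => WW (a c) (b c) (M c) (E c) x < M c)).card ≤
        K1 c := by
      rw [hK1, ← hsum, Finset.card_eq_sum_ones]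
      refine Finset.sum_le_sum fun x hx => ?_
      have := (Finset.mem_filter.1 hx).2
      omega
    rw [hsum] at hcn
    refine ⟨c', w, _, hw, hle, hcn, ?_⟩
    have h2 : (p : PadicAlgCl p)⁻¹ * (p : PadicAlgCl p) ^
        (2 - (Finset.univ : Finset (Fin 2)).card) = (p : PadicAlgCl p)⁻¹ := by
      rw [Finset.card_univ, Fintype.card_fin, Nat.sub_self, pow_zero, mul_one]
    have h3 := Red.mul hR (Red.near h1.1 h1.2)
    rw [mul_one, mul_one] at h3
    rw [hφF, h2, hC]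
    exact h3
  obtain ⟨cV, wV, KV, hwV, hKV, hcV, hVred⟩ : ∃ (cV : PadicAlgCl p) (wV : k p) (KV : ℕ),
      wV ≠ 0 ∧ KV ≤ Klt ∧
      ‖cV‖ = (‖(p : PadicAlgCl p)‖⁻¹) ^ (∑ c, (e c * (s * SL (a c) (b c) (M c)))) ∧
      Red (φ V) cV ((Polynomial.C wV * Polynomial.X ^ KV * Q : Polynomial (k p)) :
        PowerSeries (k p)) := by
    choose cc ww KK hww hKK hccn hcR using hVc
    refine ⟨∏ c, cc c, ∏ c, ww c, ∑ c, KK c, Finset.prod_ne_zero_iff.2 fun c _ => hww c, ?_, ?_,
      ?_⟩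
    · rw [hKlt]
      exact Finset.sum_le_sum fun c _ => hKK c
    · rw [norm_prod, Finset.prod_congr rfl fun c _ => hccn c, ← Finset.prod_pow_eq_pow_sum]
      refine Finset.prod_congr rfl fun c _ => ?_
      rw [hpγ, ← hτγ c, norm_pow, ← pow_mul, ← inv_pow, ← pow_mul]
      congr 1
      rw [Fintype.card_prod, Fintype.card_fin, ZMod.card]
      obtain ⟨Y, hY⟩ : ∃ Y, Y = SL (a c) (b c) (M c) := ⟨_, rfl⟩
      rw [← hY]
      have := he c
      calc (p - 1) * ((p - 1) * s * Y) = (p - 1) * (M c * e c * s * Y) := by rw [← this]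
        _ = M c * (p - 1) * (e c * (s * Y)) := by ring
    · rw [hV, map_prod]
      simp only [map_prod]
      have h6 := Red.prod Finset.univ fun c _ => hcR c
      convert h6 using 1
      have h7 : ((∏ c, Polynomial.C (ww c)) * Polynomial.X ^ (∑ c, KK c) * Q :
          Polynomial (k p)) =
          ∏ c, (Polynomial.C (ww c) * Polynomial.X ^ KK c * DT (f c) (b c) s) := by
        rw [Finset.prod_mul_distrib, Finset.prod_mul_distrib, Finset.prod_pow_eq_pow_sum, hQ]
      rw [h7, ← Polynomial.coeToPowerSeries.ringHom_apply, map_prod]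
      rfl
  -- degrees
  have hGdeg : G.natDegree ≤ s * Multiset.card Λ + s * Multiset.card Λ := by
    rw [hG]
    refine Polynomial.natDegree_mul_le.trans (Nat.add_le_add ?_ ?_)
    · rw [Polynomial.natDegree_X_pow]
      exact haΛ
    · have h1 : ∀ S : Multiset (PadicAlgCl p), (S.map fun l =>
          (1 - Polynomial.C (red p l) * Polynomial.X ^ s : Polynomial (k p))).prod.natDegree ≤
          s * Multiset.card S := by
        intro S
        induction S using Multiset.induction_on with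
        | empty => simp
        | cons l S ih =>
          rw [Multiset.map_cons, Multiset.prod_cons, Multiset.card_cons, mul_add, mul_one,
            add_comm]
          refine Polynomial.natDegree_mul_le.trans (Nat.add_le_add ?_ ih)
          refine (Polynomial.natDegree_sub_le _ _).trans (max_le ?_ ?_)
          · rw [Polynomial.natDegree_one]
            exact Nat.zero_le _
          · exact Polynomial.natDegree_C_mul_X_pow_le _ _
      refine (h1 _).trans (Nat.mul_le_mul_left s ?_)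
      exact Multiset.card_le_card (Multiset.filter_le _ _)
  have hG0 : G ≠ 0 := by
    rw [hG]
    refine mul_ne_zero (pow_ne_zero _ Polynomial.X_ne_zero) ?_
    refine Multiset.prod_ne_zero fun h0 => ?_
    rw [Multiset.mem_map] at h0
    obtain ⟨l, _, hl⟩ := h0
    have h1 := congrArg (Polynomial.eval 0) hl
    simp [zero_pow hs] at h1
  have hXs : (1 - Polynomial.X ^ s : Polynomial (k p)) ≠ 0 := by
    have := VD.one_sub_ne hs (1 : k p)
    rwa [Polynomial.C_1, one_mul] at this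
  obtain ⟨G₁, hG₁⟩ : ∃ G₁ : Polynomial (k p), G₁ = G * (Polynomial.C wO *
      ((1 - Polynomial.X ^ s) ^ (p - 1)) ^ (Fintype.card Γ)) := ⟨_, rfl⟩
  have hG₁0 : G₁ ≠ 0 := by
    rw [hG₁]
    exact mul_ne_zero hG0 (mul_ne_zero (Polynomial.C_ne_zero.2 hwO)
      (pow_ne_zero _ (pow_ne_zero _ hXs)))
  have hG₁deg : G₁.natDegree ≤ s * Multiset.card Λ + s * Multiset.card Λ +
      (s * (p - 1)) * Fintype.card Γ := by
    rw [hG₁]
    refine Polynomial.natDegree_mul_le.trans (Nat.add_le_add hGdeg ?_)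
    refine (Polynomial.natDegree_C_mul_le _ _).trans ?_
    refine Polynomial.natDegree_pow_le.trans ?_
    rw [mul_comm]
    refine Nat.mul_le_mul_right _ ?_
    refine Polynomial.natDegree_pow_le.trans ?_
    rw [mul_comm]
    refine Nat.mul_le_mul_right _ ?_
    refine (Polynomial.natDegree_sub_le _ _).trans (max_le ?_ ?_)
    · rw [Polynomial.natDegree_one]
      exact Nat.zero_le _
    · rw [Polynomial.natDegree_X_pow]
  rw [← hG₁] at hUred
  have hDT0 : ∀ c, DT (f c) (b c) s ≠ 0 := by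
    intro c
    rw [DT]
    refine pow_ne_zero _ fun h0 => ?_
    have h1 := congrArg (Polynomial.evalRingHom 0) h0
    rw [RingHom.map_det, map_zero] at h1
    have h2 : (Polynomial.evalRingHom (0 : k p)).mapMatrix (Matrix.of fun x y :
        ZMod s × Fin (b c) => (if x = y then (1 : Polynomial (k p)) else 0) -
        Polynomial.X * Polynomial.C (VD.TT p (fun l => hz (f c) (b c) l.val) (b c) x y)) = 1 := by
      ext1 x y
      rw [RingHom.mapMatrix_apply, Matrix.map_apply, Matrix.of_apply, Matrix.one_apply, map_sub]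
      split_ifs <;> simp
    rw [h2, Matrix.det_one] at h1
    exact one_ne_zero h1
  have hQ0 : Q ≠ 0 := by
    rw [hQ]
    exact Finset.prod_ne_zero_iff.2 fun c _ => hDT0 c
  have hG'0 : Polynomial.C wV * Polynomial.X ^ KV * Q ≠ 0 :=
    mul_ne_zero (mul_ne_zero (Polynomial.C_ne_zero.2 hwV) (pow_ne_zero _ Polynomial.X_ne_zero)) hQ0
  have hG'deg : (Polynomial.C wV * Polynomial.X ^ KV * Q).natDegree ≤ KV + Q.natDegree := by
    refine Polynomial.natDegree_mul_le.trans (Nat.add_le_add_right ?_ _)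
    exact Polynomial.natDegree_C_mul_X_pow_le _ _
  obtain ⟨hcc, w, hw, hcmp⟩ := compare2 (n₀ := n₀) hUred hVred (Z := φ Z) (by rw [hUVZ, map_mul])
    (by
      rw [hφ, PowerSeries.coeff_rescale, pow_zero, one_mul,
        PowerSeries.coeff_zero_eq_constantCoeff_apply]
      exact hZps.1)
    (by
      intro m hm hmn
      rw [hφ, PowerSeries.coeff_rescale, norm_mul, norm_pow, norm_inv, inv_pow,
        inv_mul_lt_iff₀ (by positivity), mul_one]
      have h1 := hZsmall m hm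
      have hfac : 0 < ‖((m.factorial : ℕ) : PadicAlgCl p)‖ :=
        norm_pos_iff.2 (Nat.cast_ne_zero.2 m.factorial_ne_zero)
      have h2 : ‖((n₀.factorial : ℕ) : PadicAlgCl p)‖ ≤ ‖((m.factorial : ℕ) : PadicAlgCl p)‖ := by
        obtain ⟨c, hc⟩ := Nat.factorial_dvd_factorial hmn
        rw [hc, Nat.cast_mul, norm_mul]
        exact mul_le_of_le_one_right (norm_nonneg _) (IsUltrametricDist.norm_natCast_le_one _ _)
      have h3 : ‖((m.factorial : ℕ) : PadicAlgCl p)‖ * ‖PowerSeries.coeff m Z‖ <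
          ‖((m.factorial : ℕ) : PadicAlgCl p)‖ * ‖(p : PadicAlgCl p)‖ ^ m := by
        refine lt_of_le_of_lt h1 ?_
        rw [hγn]
        refine lt_of_lt_of_le hNε ?_
        rw [mul_comm]
        exact mul_le_mul h2 (pow_le_pow_of_le_one hpn0.le hpn.le hmn) (by positivity)
          (norm_nonneg _)
      exact lt_of_mul_lt_mul_left h3 hfac.le)
    ⟨G₁.natDegree, by omega, by
      rw [Polynomial.coeff_coe, Polynomial.coeff_natDegree]
      exact Polynomial.leadingCoeff_ne_zero.2 hG₁0⟩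
    ⟨(Polynomial.C wV * Polynomial.X ^ KV * Q).natDegree, by omega, by
      rw [Polynomial.coeff_coe, Polynomial.coeff_natDegree]
      exact Polynomial.leadingCoeff_ne_zero.2 hG'0⟩
  have hpoly : Polynomial.C wV * Polynomial.X ^ KV * Q = Polynomial.C w * G₁ := by
    ext n
    rw [Polynomial.coeff_C_mul]
    by_cases hnn : n ≤ n₀
    · have := hcmp n hnn
      rwa [Polynomial.coeff_coe, Polynomial.coeff_coe] at this
    · rw [Polynomial.coeff_eq_zero_of_natDegree_lt (by omega),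
        Polynomial.coeff_eq_zero_of_natDegree_lt (by omega), mul_zero]
  refine ⟨w * wO, wV, aΛ, KV, mul_ne_zero hw hwO, hwV, ?_, ?_⟩
  · rw [norm_mul, hcO, mul_one] at hcc
    rw [← hcΛ, hcc, hcV]
  · rw [← hQ, hpoly, hG₁, hG, Multiset.map_map, Polynomial.C_mul]
    simp only [Function.comp_def]
    ring

end Lau

end Pool.Agent.N867.AS
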