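import Pool.Agent.N867.AS.M1

/-!
# Diagonal forms are ordinary; assembly
-/

set_option autoImplicit false
set_option linter.unusedSectionVars false

namespace Pool.Agent.N867.AS

namespace LP

open Polynomial TV

variable {κ : Type} [Field κ] {a b g p : ℕ}

theorem coeff_diag (hg : g ≠ 0) (c : κ) (n k : ℕ) :
    (((X : κ[X]) ^ g - C c) ^ n).coeff k =
      if g ∣ k then (-c) ^ (n - k / g) * (n.choose (k / g) : κ) else 0 := by
  have h1 : ((X : κ[X]) ^ g - C c) ^ n = expand κ g ((X - C c) ^ n) := by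
    rw [map_pow, map_sub, expand_X, expand_C]
  rw [h1, coeff_expand (Nat.pos_of_ne_zero hg), sub_eq_add_neg, ← C_neg, coeff_X_add_C_pow]

theorem ord_diag [CharP κ p] (hp : p.Prime) (ha : a ≠ 0) (hb : b ≠ 0) (hab : a.Coprime b)
    (hg : g ≠ 0) (hM : g * (a * b) ∣ p - 1) {c : κ} (hc : c ≠ 0) :
    OrdP p a b g ((X : κ[X]) ^ g - C c) := by
  classical
  intro w hw0 hw
  have hp2 := hp.two_le
  have ha' := Nat.pos_of_ne_zero ha
  have hb' := Nat.pos_of_ne_zero hb
  have hg' := Nat.pos_of_ne_zero hg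
  obtain ⟨e, he⟩ := hM
  have hM0 : 0 < g * (a * b) := Nat.mul_pos hg' (Nat.mul_pos ha' hb')
  have hn : (p - 1) * w / (g * (a * b)) = e * w := by
    rw [he, mul_assoc, Nat.mul_div_cancel_left _ hM0]
  have he0 : 0 < e := by
    rcases Nat.eq_zero_or_pos e with rfl | h
    · omega
    · exact h
  have hnp : e * w < p := by
    have h1 : e * w < e * (g * (a * b)) := Nat.mul_lt_mul_of_pos_left hw he0
    have h2 : e * (g * (a * b)) = p - 1 := by rw [he]; ring
    omega
  rw [hn]
  have h1 : hws p a b w (e * w) ((X : κ[X]) ^ g - C c) = Matrix.diagonal fun u =>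
      (-c) ^ (e * w - b * e * (u.1.1 : ℕ)) * ((e * w).choose (b * e * (u.1.1 : ℕ)) : κ) := by
    ext1 u v
    rw [hws, Matrix.of_apply, coeff_diag hg, Matrix.diagonal_apply]
    obtain ⟨⟨⟨u1, hu1⟩, ⟨u2, hu2⟩⟩, hu3, hu4, hu5⟩ := u
    obtain ⟨⟨⟨v1, hv1⟩, ⟨v2, hv2⟩⟩, hv3, hv4, hv5⟩ := v
    simp only at hu3 hu4 hu5 hv3 hv4 hv5
    simp only [Subtype.mk.injEq, Prod.mk.injEq, Fin.mk.injEq]
    by_cases huv : u1 = v1 ∧ u2 = v2
    · rw [if_pos huv]
      obtain ⟨rfl, rfl⟩ := huv
      have h2 : p * u1 - u1 = a * (g * (b * e * u1)) := by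
        have h3 : p * u1 - u1 = (p - 1) * u1 := by rw [Nat.sub_mul, one_mul]
        rw [h3, he]
        ring
      rw [h2, Nat.mul_div_cancel_left _ ha', if_pos (dvd_mul_right g _),
        Nat.mul_div_cancel_left _ hg']
    · rw [if_neg huv, if_neg]
      intro hdvd
      apply huv
      -- `g a ∣ v1 - u1`
      have h3 : u1 < g * a := by
        by_contra h4
        push Not at h4
        have h5 : b * (g * a) ≤ b * u1 := Nat.mul_le_mul_left b h4
        have h6 : b * (g * a) = g * (a * b) := by ring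
        omega
      have h4 : v1 < g * a := by
        by_contra h4
        push Not at h4
        have h5 : b * (g * a) ≤ b * v1 := Nat.mul_le_mul_left b h4
        have h6 : b * (g * a) = g * (a * b) := by ring
        omega
      have hle : u1 ≤ p * v1 := by
        have h5 : p * 1 ≤ p * v1 := Nat.mul_le_mul_left p hv3
        have h6 : g * a ≤ p - 1 := by
          rw [he]
          calc g * a = g * a * 1 := by ring
            _ ≤ g * a * (b * e) := Nat.mul_le_mul_left _ (Nat.mul_pos hb' he0)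
            _ = _ := by ring
        omega
      have hauv : (a : ℤ) ∣ (p : ℤ) * v1 - u1 := by
        have h5 : (a : ℤ) ∣ (b : ℤ) * ((v1 : ℤ) - u1) := by
          refine ⟨(u2 : ℤ) - v2, ?_⟩
          have h6 : (b * v1 + a * v2 : ℤ) = b * u1 + a * u2 := by
            have h7 : b * v1 + a * v2 = b * u1 + a * u2 := by rw [hv5, hu5]
            exact_mod_cast h7
          linear_combination h6
        have h6 : IsCoprime (a : ℤ) (b : ℤ) := Nat.isCoprime_iff_coprime.2 hab
        have h7 := h6.dvd_of_dvd_mul_left h5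
        have h8 : (p : ℤ) * v1 - u1 = ((p : ℤ) - 1) * v1 + ((v1 : ℤ) - u1) := by ring
        rw [h8]
        refine dvd_add ?_ h7
        have h9 : (p : ℤ) - 1 = a * (g * b * e) := by
          have h10 : (p : ℤ) - 1 = ((p - 1 : ℕ) : ℤ) := by
            rw [Nat.cast_sub (by omega), Nat.cast_one]
          rw [h10, he]
          push_cast
          ring
        rw [h9]
        exact (dvd_mul_right _ _).mul_right _
      have hauv' : a ∣ p * v1 - u1 := by
        have h5 : ((p * v1 - u1 : ℕ) : ℤ) = (p : ℤ) * v1 - u1 := by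
          rw [Nat.cast_sub hle]
          push_cast
          ring
        exact Int.natCast_dvd_natCast.1 (by rw [h5]; exact hauv)
      obtain ⟨z, hz⟩ := hauv'
      rw [hz, Nat.mul_div_cancel_left _ ha'] at hdvd
      obtain ⟨y, rfl⟩ := hdvd
      have h5 : ((g * a : ℕ) : ℤ) ∣ (v1 : ℤ) - u1 := by
        refine ⟨(y : ℤ) - b * e * v1, ?_⟩
        have h6 : ((p * v1 - u1 : ℕ) : ℤ) = ((a * (g * y) : ℕ) : ℤ) := by rw [hz]
        rw [Nat.cast_sub hle] at h6
        have h10 : (p : ℤ) = ((g * (a * b) * e : ℕ) : ℤ) + 1 := by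
          rw [← he, Nat.cast_sub (by omega)]
          push_cast
          ring
        push_cast at h6 h10 ⊢
        rw [h10] at h6
        linear_combination h6
      have h6 : (v1 : ℤ) - u1 = 0 := by
        refine Int.eq_zero_of_abs_lt_dvd h5 ?_
        rw [abs_lt]
        constructor <;> omega
      have h7 : u1 = v1 := by omega
      refine ⟨h7, ?_⟩
      rw [h7] at hu5
      have h8 : a * u2 = a * v2 := by omega
      exact Nat.eq_of_mul_eq_mul_left ha' h8
  rw [h1, Matrix.det_diagonal, Finset.prod_ne_zero_iff]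
  intro u _
  refine mul_ne_zero (pow_ne_zero _ (neg_ne_zero.2 hc)) ?_
  rw [Ne, CharP.cast_eq_zero_iff κ p]
  intro hdvd
  have hle : b * e * (u.1.1 : ℕ) ≤ e * w := by
    have h2 := u.2.2.2
    calc b * e * (u.1.1 : ℕ) = e * (b * (u.1.1 : ℕ)) := by ring
      _ ≤ e * w := Nat.mul_le_mul_left e (by omega)
  have h2 := Nat.choose_mul_factorial_mul_factorial hle
  have h3 : p ∣ (e * w).factorial := by
    rw [← h2, mul_assoc]
    exact hdvd.mul_right _
  rw [hp.dvd_factorial] at h3
  omega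

end LP

namespace Final2

open Polynomial Pool.Agent.N867.AS.LP TV RG

variable {κ : Type} [Field κ]

/-- `f = Φ(x^a, t^b) + ` lower terms, `Φ` a form of degree `g` -/
def Lead (a b g : ℕ) (Φ : κ[X]) (f : κ[X][X]) : Prop :=
  Bdd a b g f ∧ topPoly a b g f = Φ

theorem Lead.wg {a b g : ℕ} (ha : a ≠ 0) (hb : b ≠ 0) {Φ : κ[X]} {f : κ[X][X]}
    (h : Lead a b g Φ f) (hΦ : Φ.Monic) (hdeg : Φ.natDegree = g) : WG a b g Φ f := by
  have h1 : (f.coeff (a * g)).coeff 0 = 1 := by
    have h2 := top_coeff a b g f (le_refl g)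
    rw [h.2, Nat.sub_self, mul_zero, ← hdeg, coeff_natDegree, hΦ.leadingCoeff, hdeg] at h2
    exact h2.symm
  have h2 := monic_of_top ha hb h.1 h1
  exact ⟨h2.1, h2.2, h.1, h.2⟩

theorem main (p : ℕ) (hp : p.Prime) (κ : Type) [Field κ] [Fintype κ] [CharP κ p] (a b g : ℕ)
    (hab : a.Coprime b) (hga : g * a ∣ p - 1) (hgb : g * b ∣ p - 1) (e : ℕ) (H : Fin e → κ[X])
    (hirr : ∀ i, Irreducible (H i)) (hmon : ∀ i, (H i).Monic) (hinj : Function.Injective H)
    (hdeg : (∏ i, H i).natDegree = g) (hord : OrdP p a b g (∏ i, H i)) :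
    (∀ f : κ[X][X], Lead a b g (∏ i, H i) f → ∀ P : ℚ[X], P.coeff 0 = 1 →
        PowerSeries.X * PowerSeries.derivative ℚ (P : PowerSeries ℚ) =
        (P : PowerSeries ℚ) * PowerSeries.mk (fun m => if m = 0 then 0 else
          ((Fintype.card κ : ℚ) ^ (2 * m) - (Trans.Npts p f (Fintype.card κ ^ m) : ℚ))) →
        P.rootMultiplicity (1 / (Fintype.card κ : ℚ)) ≤ (p - 1) * (e - 1)) ∧
    (∀ F : Fin e → κ[X][X], (∀ i, (H i).coeff 0 ≠ 0) →
      (∀ i, Lead a b (H i).natDegree (H i) (F i)) →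
      Lead a b g (∏ i, H i) (∏ i, F i) ∧
      ∃ _ : IsDomain (ASR.AS p (Core.toK κ (∏ i, F i))),
        (((p - 1) * (e - 1) : ℕ) : Cardinal) ≤
          Module.rank ℤ (Additive (ClassGroup (ASR.AS p (Core.toK κ (∏ i, F i)))))) := by
  have : Fact p.Prime := ⟨hp⟩
  have hp1 : p - 1 ≠ 0 := by
    have := hp.two_le
    omega
  have hga0 : g * a ≠ 0 := fun h => hp1 (by rwa [h, zero_dvd_iff] at hga)
  have hgb0 : g * b ≠ 0 := fun h => hp1 (by rwa [h, zero_dvd_iff] at hgb)
  have hg : g ≠ 0 := left_ne_zero_of_mul hga0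
  have ha : a ≠ 0 := right_ne_zero_of_mul hga0
  have hb : b ≠ 0 := right_ne_zero_of_mul hgb0
  have hM := dvd_M hab hg hga hgb
  have hlt : ∀ d : ℕ, d ∣ p - 1 → ¬ p ∣ d := by
    intro d hd hpd
    have h1 := Nat.le_of_dvd (Nat.pos_of_ne_zero hp1) (hpd.trans hd)
    have := hp.two_le
    omega
  have hpg : ¬ p ∣ g := hlt g ((dvd_mul_right g a).trans hga)
  have hpa : ¬ p ∣ a := hlt a ((dvd_mul_left a g).trans hga)
  have hpb : ¬ p ∣ b := hlt b ((dvd_mul_left b g).trans hgb)
  have hcop : ∀ i j, i ≠ j → IsCoprime (H i) (H j) := by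
    intro i j hij
    refine (hirr i).coprime_iff_not_dvd.2 fun hdvd => hij (hinj ?_)
    exact eq_of_monic_of_associated (hmon i) (hmon j)
      ((hirr i).associated_of_dvd (hirr j) hdvd)
  refine ⟨?_, ?_⟩
  · intro f hf P hP0 hP
    refine ub2 ha hb hab hg hga hgb f hf.1 ?_ H hirr hmon (fun i j hij => hcop i j hij) hf.2 hdeg
      P hP0 hP
    intro w hw0 hw
    rw [hw_eq hp ha hb hab hg hM hf.1 hw, hf.2]
    exact hord w hw0 hw
  · intro F hH0 hF
    have hsum : ∑ i, (H i).natDegree = g := by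
      rw [← hdeg, natDegree_prod_of_monic _ _ fun i _ => hmon i]
    have hFam : Fam a b (fun i => (H i).natDegree) H F :=
      ⟨fun i => (hF i).wg ha hb (hmon i) rfl, hirr, fun i => rfl, hH0, hcop⟩
    have h1 := prod_top ha hb hab Finset.univ (fun i => (H i).natDegree) F H
      fun i _ => hF i
    rw [hsum] at h1
    have hdom := hFam.isDomain_AK hp (by rwa [hsum]) hpa
    refine ⟨h1, hdom, ?_⟩
    have h2 := rank_lb hp hFam hab (by rwa [hsum]) hpa hpb
    rwa [Fintype.card_fin] at h2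

end Final2

end Pool.Agent.N867.AS
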