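import Pool.Agent.N867.AS.V6

/-!
# The upper bound for ordinary leading forms (end)
-/

set_option autoImplicit false
set_option linter.unusedSectionVars false

namespace Pool.Agent.N867.AS

namespace TV

open MvPolynomial Bd GW Tr Res Pool.Agent.N867.AS.Trans

variable {p : ℕ} [hp : Fact p.Prime] {κ : Type} [Field κ] {a b g : ℕ}

theorem exists_EM (ha : a ≠ 0) (hb : b ≠ 0) (hab : a.Coprime b) (g : ℕ) :
    ∃ E : Fin g ≃ SW (σ := Fin 2) ![b, a] ((g + 1) * (a * b)), ∀ u : Fin g,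
      (E u).1 = mu a b (g + 1) ((u : ℕ) + 1) := by
  obtain ⟨E, hE⟩ : ∃ E : Fin g → SW (σ := Fin 2) ![b, a] ((g + 1) * (a * b)), ∀ u : Fin g,
      (E u).1 = mu a b (g + 1) ((u : ℕ) + 1) := by
    refine ⟨fun u => ⟨mu a b (g + 1) ((u : ℕ) + 1), ?_, ?_⟩, fun u => rfl⟩
    · have hu := u.2
      refine Fin.forall_fin_two.2 ⟨?_, ?_⟩
      · rw [mu0]
        exact mul_ne_zero ha (Nat.succ_ne_zero _)
      · rw [mu1]
        exact mul_ne_zero hb (by omega)
    · exact wt_mu (by have := u.2; omega)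
  refine ⟨Equiv.ofBijective E ⟨?_, ?_⟩, hE⟩
  · intro u u' h
    have h1 := hE u
    rw [h, hE u'] at h1
    have h2 := mu_inj ha h1
    exact Fin.ext (by omega)
  · rintro ⟨v, hv1, hv2⟩
    obtain ⟨r, hr, rfl⟩ := solve ha hb hab hv2
    have h0 := hv1 0
    have h1 := hv1 1
    rw [mu0] at h0
    rw [mu1] at h1
    have hr0 : r ≠ 0 := right_ne_zero_of_mul h0
    have hr1 : g + 1 - r ≠ 0 := right_ne_zero_of_mul h1
    refine ⟨⟨r - 1, by omega⟩, ?_⟩
    apply Subtype.ext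
    rw [hE]
    congr 1
    change r - 1 + 1 = r
    omega

theorem dvd_M {p a b g : ℕ} (hab : a.Coprime b) (hg : g ≠ 0) (hga : g * a ∣ p - 1)
    (hgb : g * b ∣ p - 1) : g * (a * b) ∣ p - 1 := by
  obtain ⟨c, hc⟩ := (dvd_mul_right g a).trans hga
  rw [hc] at hga hgb ⊢
  have h1 := Nat.dvd_of_mul_dvd_mul_left (Nat.pos_of_ne_zero hg) hga
  have h2 := Nat.dvd_of_mul_dvd_mul_left (Nat.pos_of_ne_zero hg) hgb
  exact Nat.mul_dvd_mul_left g (hab.mul_dvd_of_dvd_of_dvd h1 h2)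

/-- the bound -/
theorem ub2 (ha : a ≠ 0) (hb : b ≠ 0) (hab : a.Coprime b) (hg : g ≠ 0)
    (hga : g * a ∣ p - 1) (hgb : g * b ∣ p - 1) (f : Polynomial (Polynomial κ))
    (hwt : ∀ m n, (f.coeff m).coeff n ≠ 0 → b * m + a * n ≤ g * (a * b))
    (hord : ∀ w, 0 < w → w < g * (a * b) →
      (TV.hw p a b w ((p - 1) * w / (g * (a * b))) f).det ≠ 0) {e : ℕ}
    (P : Fin e → Polynomial κ) (hirr : ∀ i, Irreducible (P i)) (hmon : ∀ i, (P i).Monic)
    (hne : Pairwise fun i j => IsCoprime (P i) (P j)) (htop : topPoly a b g f = ∏ i, P i)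
    (hdeg : (∏ i, P i).natDegree = g) [Fintype κ] [CharP κ p]
    (L : Polynomial ℚ) (hL0 : L.coeff 0 = 1)
    (hL : PowerSeries.X * PowerSeries.derivative ℚ (L : PowerSeries ℚ) =
      (L : PowerSeries ℚ) * PowerSeries.mk (fun m => if m = 0 then 0 else
        ((Fintype.card κ : ℚ) ^ (2 * m) - (Npts p f (Fintype.card κ ^ m) : ℚ)))) :
    L.rootMultiplicity (1 / (Fintype.card κ : ℚ)) ≤ (p - 1) * (e - 1) := by
  classical
  have hp2 := hp.1.two_le
  obtain ⟨s, hs⟩ : ∃ s : ℕ, Fintype.card κ = p ^ s := by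
    obtain ⟨s, _, hs⟩ := FiniteField.card κ p
    exact ⟨s, hs⟩
  have hs0 : s ≠ 0 := by
    rintro rfl
    rw [pow_zero] at hs
    exact absurd hs (Fintype.one_lt_card (α := κ)).ne'
  have : NeZero s := ⟨hs0⟩
  have hM := dvd_M hab hg hga hgb
  have hp1 : p - 1 ≠ 0 := by omega
  have hgp : g < p := by
    have := Nat.le_of_dvd (Nat.pos_of_ne_zero hp1) ((dvd_mul_right g a).trans hga)
    omega
  -- the embedding of the algebraic closure
  obtain ⟨φ⟩ : Nonempty (AlgebraicClosure κ →+* Res.k p) := by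
    have hch : CharP (AlgebraicClosure κ) p :=
      charP_of_injective_algebraMap (algebraMap κ (AlgebraicClosure κ)).injective p
    let _ : Algebra (ZMod p) κ := ZMod.algebra κ p
    have _ : IsScalarTower (ZMod p) κ (AlgebraicClosure κ) := inferInstance
    have _ : Algebra.IsAlgebraic (ZMod p) κ := Algebra.IsAlgebraic.of_finite _ _
    have _ : Algebra.IsAlgebraic (ZMod p) (AlgebraicClosure κ) :=
      Algebra.IsAlgebraic.trans (ZMod p) κ (AlgebraicClosure κ)
    let _ : Algebra (ZMod p) (Res.k p) := ZMod.algebra _ p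
    exact ⟨(IsAlgClosed.lift (R := ZMod p) (S := AlgebraicClosure κ) (M := Res.k p)).toRingHom⟩
  obtain ⟨φκ, hφκ⟩ : ∃ φκ : κ →+* Res.k p, φκ = φ.comp (algebraMap κ (AlgebraicClosure κ)) :=
    ⟨_, rfl⟩
  have hWF := WF_Ψ ha hb hg hwt φκ
  have hfs : ∀ μ, coeff μ (Ψ φκ f) ^ p ^ s = coeff μ (Ψ φκ f) := by
    intro μ
    rw [coeff_Ψ, ← map_pow, ← hs, FiniteField.pow_card]
  -- the power series
  let c : ℚ →+* PadicAlgCl p := algebraMap ℚ (PadicAlgCl p)
  have hPS : HasPS (L : PowerSeries ℚ) (fun m =>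
      (Npts p f (Fintype.card κ ^ m) : ℚ) - (Fintype.card κ : ℚ) ^ (2 * m)) := by
    refine ⟨?_, ?_⟩
    · rw [← PowerSeries.coeff_zero_eq_constantCoeff_apply, Polynomial.coeff_coe, hL0]
    · rw [hL, ← mul_neg]
      congr 1
      ext m
      rw [pser, map_neg, PowerSeries.coeff_mk, PowerSeries.coeff_mk]
      split_ifs
      · rw [neg_zero]
      · ring
  have hPS2 := hPS.map c
  have hPS3 : HasPS ((L.map c : Polynomial (PadicAlgCl p)) : PowerSeries (PadicAlgCl p)) (fun m =>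
      (Res.npts (Ψ φκ f) (p ^ (s * m)) : PadicAlgCl p) -
      ((p ^ (s * m) : ℕ) : PadicAlgCl p) ^ Fintype.card (Fin 2)) := by
    rw [Polynomial.polynomial_map_coe] at *
    refine ⟨hPS2.1, ?_⟩
    rw [hPS2.2]
    congr 2
    refine pser_congr fun m hm => ?_
    have hQ : 1 < p ^ (s * m) := Nat.one_lt_pow (mul_ne_zero hs0 hm) hp.1.one_lt
    rw [hφκ, npts_eq_Npts p φ f hQ, hs, ← pow_mul, map_sub, map_natCast, map_pow,
      map_natCast, Fintype.card_fin]
    push_cast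
    congr 1
    rw [← pow_mul, ← pow_mul]
    congr 1
    ring
  -- nondegeneracy
  have hord' : ∀ w, w < g * (a * b) → Ord (Ψ φκ f) ![b, a] (g * (a * b)) w := by
    intro w hw
    rcases Nat.eq_zero_or_pos w with rfl | hw0
    · refine ord_Ψ ha hb hg hwt φκ hM ?_
      have : IsEmpty (Lat a b 0) := by
        refine ⟨fun u => ?_⟩
        have h1 := u.2.1
        have h2 := u.1.1.2
        omega
      rw [Matrix.det_isEmpty]
      exact one_ne_zero
    · exact ord_Ψ ha hb hg hwt φκ hM (hord w hw0 hw)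
  obtain ⟨g', rfl⟩ : ∃ g', g = g' + 1 := ⟨g - 1, by omega⟩
  obtain ⟨E, hE⟩ := exists_EM ha hb hab g'
  obtain ⟨S, w, w', α, β, hw, hw', hle, heq⟩ := count_one hWF hM (by simp) (by simp) hs0 hfs
    hord' E (L.map c) hPS3
  -- the determinant
  obtain ⟨Hz, hHz⟩ : ∃ Hz : ZMod s → Polynomial (k p), ∀ j,
      Hz j = ((∏ i, P i).map φκ).map (Fr p j.val) := ⟨_, fun _ => rfl⟩
  have hHf : Hf a b (g' + 1) (Ψ φκ f) = (∏ i, P i).map φκ := by rw [Hf_Ψ, htop]
  have hDM := DM_eq (s := s) (f := Ψ φκ f) (fun i => (E i).1) Hz (fun j u v => by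
    rw [hE, hE, NN_M ha hb hab hWF hgp j.val (by have := u.2; omega) (by have := v.2; omega),
      hHf, hHz])
  have hdet := VR.det_roots φκ P hne hs hirr hmon hdeg hgp Hz hHz
  have hD : DM (Ψ φκ f) s (fun i => (E i).1) * (1 - Polynomial.X ^ s) ^ (p - 1) =
      (∏ i, (1 - Polynomial.X ^ (s * (P i).natDegree))) ^ (p - 1) := by
    rw [hDM, ← mul_pow, hdet]
  have hPn : ∀ i, ¬ p ∣ (P i).natDegree := by
    intro i hdvd
    have h1 : (P i).natDegree ≤ (∏ i, P i).natDegree := by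
      rw [Polynomial.natDegree_prod_of_monic _ _ fun i _ => hmon i]
      exact Finset.single_le_sum (f := fun i => (P i).natDegree) (fun _ _ => Nat.zero_le _)
        (Finset.mem_univ i)
    have h2 := Nat.le_of_dvd (hirr i).natDegree_pos hdvd
    omega
  have hfin := VD.final_count hs0 (fun i => (P i).natDegree) hPn _ hD S hw hw' α β heq
  refine le_trans (le_of_eq ?_) (hle.trans hfin)
  rw [Polynomial.eq_rootMultiplicity_map c.injective]
  congr 1
  rw [map_div₀, map_one, map_natCast, hs, one_div]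
  push_cast
  rfl

end TV

end Pool.Agent.N867.AS
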