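import Pool.Agent.N867.AS.W5
import Pool.Agent.N867.AS.V7

/-!
# Families of curves over the plane: order and leading coefficient
-/

set_option autoImplicit false
set_option linter.unusedSectionVars false

namespace Pool.Agent.N867.AS

namespace TV

open MvPolynomial Bd GW Tr Res Pool.Agent.N867.AS.Trans

variable {p : ℕ} [hp : Fact p.Prime] {κ : Type} [Field κ] {a b g : ℕ}

/-- the main determinant for one polynomial -/
theorem DM_one (ha : a ≠ 0) (hb : b ≠ 0) (hab : a.Coprime b) {g' : ℕ}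
    (hgp : g' + 1 < p) {f : Polynomial (Polynomial κ)} (φκ : κ →+* Res.k p)
    (hWF : WF (Trans.Ψ φκ f) ![b, a] ((g' + 1) * (a * b))) {s : ℕ} [NeZero s]
    [Fintype κ] [CharP κ p]
    (hs : Fintype.card κ = p ^ s) (E : Fin g' ≃ SW (σ := Fin 2) ![b, a] ((g' + 1) * (a * b)))
    (hE : ∀ u : Fin g', (E u).1 = mu a b (g' + 1) ((u : ℕ) + 1)) {e : ℕ}
    (P : Fin e → Polynomial κ) (hirr : ∀ i, Irreducible (P i)) (hmon : ∀ i, (P i).Monic)
    (hne : Pairwise fun i j => IsCoprime (P i) (P j))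
    (htop : topPoly a b (g' + 1) f = ∏ i, P i) (hdeg : (∏ i, P i).natDegree = g' + 1) :
    DM (Trans.Ψ φκ f) s (fun i => (E i).1) * (1 - Polynomial.X ^ s) ^ (p - 1) =
      (∏ i, (1 - Polynomial.X ^ (s * (P i).natDegree))) ^ (p - 1) := by
  classical
  obtain ⟨Hz, hHz⟩ : ∃ Hz : ZMod s → Polynomial (k p), ∀ j,
      Hz j = ((∏ i, P i).map φκ).map (Fr p j.val) := ⟨_, fun _ => rfl⟩
  have hHf : Hf a b (g' + 1) (Trans.Ψ φκ f) = (∏ i, P i).map φκ := by rw [Hf_Ψ, htop]
  have hDM := DM_eq (s := s) (f := Trans.Ψ φκ f) (fun i => (E i).1) Hz (fun j u v => by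
    rw [hE, hE, NN_M ha hb hab hWF hgp j.val (by have := u.2; omega) (by have := v.2; omega),
      hHf, hHz])
  have hdet := VR.det_roots φκ P hne hs hirr hmon hdeg hgp Hz hHz
  rw [hDM, ← mul_pow, hdet]

/-- order and leading coefficient -/
theorem fam (ha : a ≠ 0) (hb : b ≠ 0) (hab : a.Coprime b) (hg : g ≠ 0)
    (hga : g * a ∣ p - 1) (hgb : g * b ∣ p - 1) {Γ : Type} [Fintype Γ]
    (f : Γ → Polynomial (Polynomial κ))
    (hwt : ∀ c m n, ((f c).coeff m).coeff n ≠ 0 → b * m + a * n ≤ g * (a * b))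
    (hord : ∀ c w, 0 < w → w < g * (a * b) →
      (TV.hw p a b w ((p - 1) * w / (g * (a * b))) (f c)).det ≠ 0) (e : Γ → ℕ)
    (P : ∀ c, Fin (e c) → Polynomial κ) (hirr : ∀ c i, Irreducible (P c i))
    (hmon : ∀ c i, (P c i).Monic)
    (hne : ∀ c, Pairwise fun i j => IsCoprime (P c i) (P c j))
    (htop : ∀ c, topPoly a b g (f c) = ∏ i, P c i)
    (hdeg : ∀ c, (∏ i, P c i).natDegree = g) [Fintype κ] [CharP κ p] {s : ℕ}
    (hs : Fintype.card κ = p ^ s)
    (L : Polynomial ℚ) (hL0 : L.coeff 0 = 1)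
    (hL : PowerSeries.X * PowerSeries.derivative ℚ (L : PowerSeries ℚ) =
      (L : PowerSeries ℚ) * PowerSeries.mk (fun m => if m = 0 then 0 else
        ∑ c, ((Fintype.card κ : ℚ) ^ (2 * m) - (Npts p (f c) (Fintype.card κ ^ m) : ℚ))))
    {r : ℕ} {M' : Polynomial ℚ}
    (hLM : L = (1 - Polynomial.C ((p : ℚ) ^ s) * Polynomial.X) ^ r * M')
    (hM' : M'.eval (1 / (p : ℚ) ^ s) ≠ 0) {N R : ℕ}
    (hN : N = Fintype.card Γ * ((p - 1) / (g * (a * b)) * (s *
      ∑ w ∈ Finset.range (g * (a * b)), Fintype.card (Lat a b w) * (g * (a * b) - w))))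
    (hR : R = (p - 1) * ∑ c, (e c - 1)) :
    r ≤ R ∧ -(N : ℤ) ≤ padicValRat p (M'.eval (1 / (p : ℚ) ^ s)) ∧
      (padicValRat p (M'.eval (1 / (p : ℚ) ^ s)) = -(N : ℤ) ↔ r = R) := by
  classical
  have hp2 := hp.1.two_le
  have hs0 : s ≠ 0 := by
    rintro rfl
    rw [pow_zero] at hs
    exact absurd hs (Fintype.one_lt_card (α := κ)).ne'
  have : NeZero s := ⟨hs0⟩
  have hM := dvd_M hab hg hga hgb
  have hp1 : p - 1 ≠ 0 := by omega
  have hgp : g < p := by
    have := Nat.le_of_dvd (Nat.pos_of_ne_zero hp1) ((dvd_mul_right g a).trans hga)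
    omega
  -- the embedding of the algebraic closure
  obtain ⟨φ⟩ : Nonempty (AlgebraicClosure κ →+* Res.k p) := by
    have hch : CharP (AlgebraicClosure κ) p :=
      charP_of_injective_algebraMap (algebraMap κ (AlgebraicClosure κ)).injective p
    let _ : Algebra (ZMod p) κ := ZMod.algebra κ p
    have _ : IsScalarTower (ZMod p) κ (AlgebraicClosure κ) := inferInstance
    have _ : Algebra.IsAlgebraic (ZMod p) κ := Algebra.IsAlgebraic.of_finite _ _
    have _ : Algebra.IsAlgebraic (ZMod p) (AlgebraicClosure κ) :=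
      Algebra.IsAlgebraic.trans (ZMod p) κ (AlgebraicClosure κ)
    let _ : Algebra (ZMod p) (Res.k p) := ZMod.algebra _ p
    exact ⟨(IsAlgClosed.lift (R := ZMod p) (S := AlgebraicClosure κ) (M := Res.k p)).toRingHom⟩
  obtain ⟨φκ, hφκ⟩ : ∃ φκ : κ →+* Res.k p, φκ = φ.comp (algebraMap κ (AlgebraicClosure κ)) :=
    ⟨_, rfl⟩
  have hWF := fun c => WF_Ψ ha hb hg (hwt c) φκ
  have hfs : ∀ c μ, coeff μ (Ψ φκ (f c)) ^ p ^ s = coeff μ (Ψ φκ (f c)) := by
    intro c μ
    rw [coeff_Ψ, ← map_pow, ← hs, FiniteField.pow_card]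
  -- the power series
  let c₀ : ℚ →+* PadicAlgCl p := algebraMap ℚ (PadicAlgCl p)
  have hPS : HasPS (L : PowerSeries ℚ) (fun m => ∑ c,
      ((Npts p (f c) (Fintype.card κ ^ m) : ℚ) - (Fintype.card κ : ℚ) ^ (2 * m))) := by
    refine ⟨?_, ?_⟩
    · rw [← PowerSeries.coeff_zero_eq_constantCoeff_apply, Polynomial.coeff_coe, hL0]
    · rw [hL, ← mul_neg]
      congr 1
      ext m
      rw [pser, map_neg, PowerSeries.coeff_mk, PowerSeries.coeff_mk]
      split_ifs
      · rw [neg_zero]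
      · rw [← Finset.sum_neg_distrib]
        refine Finset.sum_congr rfl fun c _ => ?_
        ring
  have hPS2 := hPS.map c₀
  have hPS3 : HasPS ((L.map c₀ : Polynomial (PadicAlgCl p)) : PowerSeries (PadicAlgCl p))
      (fun m => ∑ c, ((Res.npts (Ψ φκ (f c)) (p ^ (s * m)) : PadicAlgCl p) -
      ((p ^ (s * m) : ℕ) : PadicAlgCl p) ^ Fintype.card (Fin 2))) := by
    rw [Polynomial.polynomial_map_coe] at *
    refine ⟨hPS2.1, ?_⟩
    rw [hPS2.2]
    congr 2
    refine pser_congr fun m hm => ?_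
    rw [map_sum]
    refine Finset.sum_congr rfl fun c _ => ?_
    have hQ : 1 < p ^ (s * m) := Nat.one_lt_pow (mul_ne_zero hs0 hm) hp.1.one_lt
    rw [hφκ, npts_eq_Npts p φ (f c) hQ, hs, ← pow_mul, map_sub, map_natCast, map_pow,
      map_natCast, Fintype.card_fin]
    push_cast
    congr 1
    rw [← pow_mul, ← pow_mul]
    congr 1
    ring
  -- nondegeneracy
  have hord' : ∀ c w, w < g * (a * b) → Ord (Ψ φκ (f c)) ![b, a] (g * (a * b)) w := by
    intro c w hw
    rcases Nat.eq_zero_or_pos w with rfl | hw0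
    · refine ord_Ψ ha hb hg (hwt c) φκ hM ?_
      have : IsEmpty (Lat a b 0) := by
        refine ⟨fun u => ?_⟩
        have h1 := u.2.1
        have h2 := u.1.1.2
        omega
      rw [Matrix.det_isEmpty]
      exact one_ne_zero
    · exact ord_Ψ ha hb hg (hwt c) φκ hM (hord c w hw0 hw)
  have hM0 : g * (a * b) ≠ 0 := mul_ne_zero hg (mul_ne_zero ha hb)
  have hωpos : ∀ i, 0 < (![b, a] : Fin 2 → ℕ) i := by
    intro i
    fin_cases i
    · exact Nat.pos_of_ne_zero hb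
    · exact Nat.pos_of_ne_zero ha
  obtain ⟨g', rfl⟩ : ∃ g', g = g' + 1 := ⟨g - 1, by omega⟩
  obtain ⟨E, hE⟩ := exists_EM ha hb hab g'
  obtain ⟨Λ, hΛ⟩ : ∃ Λ : Multiset (PadicAlgCl p), Λ = (L.map c₀).roots.map
    (fun ρ => ρ⁻¹ * ((p : PadicAlgCl p)⁻¹) ^ s) := ⟨_, rfl⟩
  have hpe : p - 1 = (g' + 1) * (a * b) * ((p - 1) / ((g' + 1) * (a * b))) :=
    (Nat.mul_div_cancel' hM).symm
  obtain ⟨w, w', α, β, hw, hw', hnorm, heq⟩ := count_fam hWF hM0 hωpos hM (by simp) (by simp) hs0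
    hfs hord' E (L.map c₀) hPS3 hΛ hpe
  -- the count
  have hPn : ∀ c i, ¬ p ∣ (P c i).natDegree := by
    intro c i hdvd
    have h1 : (P c i).natDegree ≤ (∏ i, P c i).natDegree := by
      rw [Polynomial.natDegree_prod_of_monic _ _ fun i _ => hmon c i]
      exact Finset.single_le_sum (f := fun i => (P c i).natDegree) (fun _ _ => Nat.zero_le _)
        (Finset.mem_univ i)
    have h2 := Nat.le_of_dvd (hirr c i).natDegree_pos hdvd
    have := hdeg c
    omega
  have he : ∀ c, e c ≠ 0 := by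
    intro c h0
    have h1 := hdeg c
    have h2 : (∏ i, P c i) = 1 := by
      refine Finset.prod_eq_one fun i _ => ?_
      have := i.2
      omega
    rw [h2, Polynomial.natDegree_one] at h1
    omega
  have hcount := VD.final_count2 hs0 e he (fun c i => (P c i).natDegree) hPn
    (fun c => DM (Ψ φκ (f c)) s (fun i => (E i).1))
    (fun c => DM_one ha hb hab hgp φκ (hWF c) hs E hE (P c) (hirr c) (hmon c) (hne c) (htop c)
      (hdeg c)) _ hw hw' α β heq
  refine LC.conclude hs0 hL0 hLM hM' hΛ ?_ (hcount.trans hR.symm)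
  rw [hnorm, hN]
  congr 3
  congr 1
  refine Finset.sum_congr rfl fun w _ => ?_
  congr 1
  obtain ⟨E', -⟩ := exists_E (a := a) (b := b) ha hb w
  rw [← Nat.card_eq_fintype_card]
  exact (Nat.card_congr E').symm

end TV

end Pool.Agent.N867.AS
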