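import Pool.Agent.N867.AS.X1
import Pool.Agent.N867.AS.W6
import Pool.Agent.N867.AS.M2

/-!
# Families of curves over the plane with varying Newton polygons
-/

set_option autoImplicit false
set_option linter.unusedSectionVars false

namespace Pool.Agent.N867.AS

namespace TV

open MvPolynomial Bd GW Tr Res Pool.Agent.N867.AS.Trans

variable {p : ℕ} [hp : Fact p.Prime] {κ : Type} [Field κ]

/-- conjugating by units -/
theorem det_conj_unit {R : Type} [CommRing R] {ι : Type} [Fintype ι] [DecidableEq ι]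
    (d d' : ι → R) (hd : ∀ i, d i * d' i = 1) (A B : Matrix ι ι R)
    (h : ∀ i j, B i j = d' i * A i j * d j) : B.det = A.det := by
  have h1 : B = Matrix.of fun i j => d' i * (Matrix.of fun i j => d j * A i j) i j := by
    ext i j
    rw [h, Matrix.of_apply, Matrix.of_apply]
    ring
  rw [h1, Matrix.det_mul_column, Matrix.det_mul_row, ← mul_assoc, ← Finset.prod_mul_distrib,
    Finset.prod_eq_one fun i _ => by rw [mul_comm]; exact hd i, one_mul]

/-- the main determinant for one polynomial with arbitrary leading coefficient -/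
theorem DM_unit {a b : ℕ} (ha : a ≠ 0) (hb : b ≠ 0) (hab : a.Coprime b) {g' : ℕ}
    (hgp : g' + 1 < p) {f : Polynomial (Polynomial κ)} (φκ : κ →+* Res.k p)
    (hWF : WF (Trans.Ψ φκ f) ![b, a] ((g' + 1) * (a * b))) {s : ℕ} [NeZero s]
    [Fintype κ] [CharP κ p]
    (hs : Fintype.card κ = p ^ s) (E : Fin g' ≃ SW (σ := Fin 2) ![b, a] ((g' + 1) * (a * b)))
    (hE : ∀ u : Fin g', (E u).1 = mu a b (g' + 1) ((u : ℕ) + 1)) {e : ℕ}
    (P : Fin e → Polynomial κ) (hirr : ∀ i, Irreducible (P i)) (hmon : ∀ i, (P i).Monic)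
    (hne : Pairwise fun i j => IsCoprime (P i) (P j)) {u : κ} (hu : u ≠ 0)
    (htop : topPoly a b (g' + 1) f = Polynomial.C u * ∏ i, P i)
    (hdeg : (∏ i, P i).natDegree = g' + 1) :
    DM (Trans.Ψ φκ f) s (fun i => (E i).1) * (1 - Polynomial.X ^ s) ^ (p - 1) =
      (∏ i, (1 - Polynomial.X ^ (s * (P i).natDegree))) ^ (p - 1) := by
  classical
  have hp2 := hp.1.two_le
  obtain ⟨Hz, hHz⟩ : ∃ Hz : ZMod s → Polynomial (k p), ∀ j,
      Hz j = ((∏ i, P i).map φκ).map (Fr p j.val) := ⟨_, fun _ => rfl⟩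
  obtain ⟨c, hc⟩ : ∃ c : ZMod s → k p, ∀ j, c j = φκ u ^ p ^ j.val := ⟨_, fun _ => rfl⟩
  have hc0 : ∀ j, c j ≠ 0 := by
    intro j
    rw [hc]
    exact pow_ne_zero _ ((map_ne_zero φκ).2 hu)
  have hcs : φκ u ^ p ^ s = φκ u := by
    rw [← map_pow, ← hs, FiniteField.pow_card]
  have hcm : ∀ n : ℕ, φκ u ^ p ^ (n % s) = φκ u ^ p ^ n := by
    intro n
    have h1 : ∀ q r : ℕ, φκ u ^ p ^ (s * q + r) = φκ u ^ p ^ r := by
      intro q r
      induction q with
      | zero => rw [mul_zero, zero_add]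
      | succ q ih =>
        have h2 : s * (q + 1) + r = s + (s * q + r) := by ring
        rw [h2, pow_add, pow_mul, hcs, ih]
    conv_rhs => rw [← Nat.div_add_mod n s]
    rw [h1]
  have hc1 : ∀ j, c (j + 1) = c j ^ p := by
    intro j
    have h1 : (j + 1).val = (j.val + 1) % s := by
      have h2 : j + 1 = ((j.val + 1 : ℕ) : ZMod s) := by
        push_cast
        rw [ZMod.natCast_zmod_val]
      rw [h2, ZMod.val_natCast]
    rw [hc, h1, hcm, hc, ← pow_mul, ← pow_succ]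
  have hcq : ∀ j, c j ^ (p - 1) = c (j + 1) * (c j)⁻¹ := by
    intro j
    rw [hc1, eq_mul_inv_iff_mul_eq₀ (hc0 j), ← pow_succ, Nat.sub_add_cancel hp.1.one_le]
  have hHf : Hf a b (g' + 1) (Trans.Ψ φκ f) =
      Polynomial.C (φκ u) * (∏ i, P i).map φκ := by
    rw [Hf_Ψ, htop, Polynomial.map_mul, Polynomial.map_C]
  have hDM := DM_eq (s := s) (f := Trans.Ψ φκ f) (fun i => (E i).1)
    (fun j => Polynomial.C (c j) * Hz j) (fun j u v => by
    rw [hE, hE, NN_M ha hb hab hWF hgp j.val (by have := u.2; omega) (by have := v.2; omega),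
      hHf, hHz, Polynomial.map_mul, Polynomial.map_C, Fr_apply, hc])
  have hdet := VR.det_roots φκ P hne hs hirr hmon hdeg hgp Hz hHz
  rw [hDM, ← mul_pow, ← hdet]
  congr 2
  refine det_conj_unit (fun x => Polynomial.C (c x.1)) (fun x => Polynomial.C (c x.1)⁻¹)
    (fun x => ?_) _ _ fun x y => ?_
  · rw [← Polynomial.C_mul, mul_inv_cancel₀ (hc0 _), Polynomial.C_1]
  · rw [Matrix.of_apply, Matrix.of_apply, mul_sub, sub_mul]
    congr 1
    · by_cases h : x = y
      · rw [if_pos h, h, mul_one, ← Polynomial.C_mul, inv_mul_cancel₀ (hc0 _), Polynomial.C_1]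
      · rw [if_neg h, mul_zero, zero_mul]
    · unfold VD.TT
      by_cases h : y.1 = x.1 + 1
      · rw [if_pos h, if_pos h, mul_pow, ← Polynomial.C_pow, Polynomial.coeff_C_mul, hcq, h,
          Polynomial.C_mul, Polynomial.C_mul]
        ring
      · rw [if_neg h, if_neg h, Polynomial.C_0, mul_zero, mul_zero, zero_mul]

/-- order and leading coefficient -/
theorem fam2 {Γ : Type} [Fintype Γ] {a b g : Γ → ℕ} (ha : ∀ c, a c ≠ 0) (hb : ∀ c, b c ≠ 0)
    (hab : ∀ c, (a c).Coprime (b c)) (hg : ∀ c, g c ≠ 0)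
    (hga : ∀ c, g c * a c ∣ p - 1) (hgb : ∀ c, g c * b c ∣ p - 1)
    (f : Γ → Polynomial (Polynomial κ))
    (hwt : ∀ c m n, ((f c).coeff m).coeff n ≠ 0 → b c * m + a c * n ≤ g c * (a c * b c))
    (hord : ∀ c w, 0 < w → w < g c * (a c * b c) →
      (TV.hw p (a c) (b c) w ((p - 1) * w / (g c * (a c * b c))) (f c)).det ≠ 0) (e : Γ → ℕ)
    (P : ∀ c, Fin (e c) → Polynomial κ) (hirr : ∀ c i, Irreducible (P c i))
    (hmon : ∀ c i, (P c i).Monic)
    (hne : ∀ c, Pairwise fun i j => IsCoprime (P c i) (P c j)) (u : Γ → κ) (hu : ∀ c, u c ≠ 0)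
    (htop : ∀ c, topPoly (a c) (b c) (g c) (f c) = Polynomial.C (u c) * ∏ i, P c i)
    (hdeg : ∀ c, (∏ i, P c i).natDegree = g c) [Fintype κ] [CharP κ p] {s : ℕ}
    (hs : Fintype.card κ = p ^ s)
    (L : Polynomial ℚ) (hL0 : L.coeff 0 = 1)
    (hL : PowerSeries.X * PowerSeries.derivative ℚ (L : PowerSeries ℚ) =
      (L : PowerSeries ℚ) * PowerSeries.mk (fun m => if m = 0 then 0 else
        ∑ c, ((Fintype.card κ : ℚ) ^ (2 * m) - (Npts p (f c) (Fintype.card κ ^ m) : ℚ))))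
    {r : ℕ} {M' : Polynomial ℚ}
    (hLM : L = (1 - Polynomial.C ((p : ℚ) ^ s) * Polynomial.X) ^ r * M')
    (hM' : M'.eval (1 / (p : ℚ) ^ s) ≠ 0) {N R : ℕ}
    (hN : N = ∑ c, ((p - 1) / (g c * (a c * b c)) * (s *
      ∑ w ∈ Finset.range (g c * (a c * b c)),
        Fintype.card (Lat (a c) (b c) w) * (g c * (a c * b c) - w))))
    (hR : R = (p - 1) * ∑ c, (e c - 1)) :
    r ≤ R ∧ -(N : ℤ) ≤ padicValRat p (M'.eval (1 / (p : ℚ) ^ s)) ∧
      (padicValRat p (M'.eval (1 / (p : ℚ) ^ s)) = -(N : ℤ) ↔ r = R) := by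
  classical
  have hp2 := hp.1.two_le
  have hs0 : s ≠ 0 := by
    rintro rfl
    rw [pow_zero] at hs
    exact absurd hs (Fintype.one_lt_card (α := κ)).ne'
  have : NeZero s := ⟨hs0⟩
  have hM := fun c => dvd_M (hab c) (hg c) (hga c) (hgb c)
  have hp1 : p - 1 ≠ 0 := by omega
  have hgp : ∀ c, g c < p := by
    intro c
    have := Nat.le_of_dvd (Nat.pos_of_ne_zero hp1) ((dvd_mul_right (g c) (a c)).trans (hga c))
    omega
  -- the embedding of the algebraic closure
  obtain ⟨φ⟩ : Nonempty (AlgebraicClosure κ →+* Res.k p) := by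
    have hch : CharP (AlgebraicClosure κ) p :=
      charP_of_injective_algebraMap (algebraMap κ (AlgebraicClosure κ)).injective p
    let _ : Algebra (ZMod p) κ := ZMod.algebra κ p
    have _ : IsScalarTower (ZMod p) κ (AlgebraicClosure κ) := inferInstance
    have _ : Algebra.IsAlgebraic (ZMod p) κ := Algebra.IsAlgebraic.of_finite _ _
    have _ : Algebra.IsAlgebraic (ZMod p) (AlgebraicClosure κ) :=
      Algebra.IsAlgebraic.trans (ZMod p) κ (AlgebraicClosure κ)
    let _ : Algebra (ZMod p) (Res.k p) := ZMod.algebra _ p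
    exact ⟨(IsAlgClosed.lift (R := ZMod p) (S := AlgebraicClosure κ) (M := Res.k p)).toRingHom⟩
  obtain ⟨φκ, hφκ⟩ : ∃ φκ : κ →+* Res.k p, φκ = φ.comp (algebraMap κ (AlgebraicClosure κ)) :=
    ⟨_, rfl⟩
  have hWF := fun c => WF_Ψ (ha c) (hb c) (hg c) (hwt c) φκ
  have hfs : ∀ c μ, coeff μ (Ψ φκ (f c)) ^ p ^ s = coeff μ (Ψ φκ (f c)) := by
    intro c μ
    rw [coeff_Ψ, ← map_pow, ← hs, FiniteField.pow_card]
  -- the power series
  let c₀ : ℚ →+* PadicAlgCl p := algebraMap ℚ (PadicAlgCl p)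
  have hPS : HasPS (L : PowerSeries ℚ) (fun m => ∑ c,
      ((Npts p (f c) (Fintype.card κ ^ m) : ℚ) - (Fintype.card κ : ℚ) ^ (2 * m))) := by
    refine ⟨?_, ?_⟩
    · rw [← PowerSeries.coeff_zero_eq_constantCoeff_apply, Polynomial.coeff_coe, hL0]
    · rw [hL, ← mul_neg]
      congr 1
      ext m
      rw [pser, map_neg, PowerSeries.coeff_mk, PowerSeries.coeff_mk]
      split_ifs
      · rw [neg_zero]
      · rw [← Finset.sum_neg_distrib]
        refine Finset.sum_congr rfl fun c _ => ?_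
        ring
  have hPS2 := hPS.map c₀
  have hPS3 : HasPS ((L.map c₀ : Polynomial (PadicAlgCl p)) : PowerSeries (PadicAlgCl p))
      (fun m => ∑ c, ((Res.npts (Ψ φκ (f c)) (p ^ (s * m)) : PadicAlgCl p) -
      ((p ^ (s * m) : ℕ) : PadicAlgCl p) ^ Fintype.card (Fin 2))) := by
    rw [Polynomial.polynomial_map_coe] at *
    refine ⟨hPS2.1, ?_⟩
    rw [hPS2.2]
    congr 2
    refine pser_congr fun m hm => ?_
    rw [map_sum]
    refine Finset.sum_congr rfl fun c _ => ?_
    have hQ : 1 < p ^ (s * m) := Nat.one_lt_pow (mul_ne_zero hs0 hm) hp.1.one_lt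
    rw [hφκ, npts_eq_Npts p φ (f c) hQ, hs, ← pow_mul, map_sub, map_natCast, map_pow,
      map_natCast, Fintype.card_fin]
    push_cast
    congr 1
    rw [← pow_mul, ← pow_mul]
    congr 1
    ring
  -- nondegeneracy
  have hord' : ∀ c w, w < g c * (a c * b c) →
      Ord (Ψ φκ (f c)) ![b c, a c] (g c * (a c * b c)) w := by
    intro c w hw
    rcases Nat.eq_zero_or_pos w with rfl | hw0
    · refine ord_Ψ (ha c) (hb c) (hg c) (hwt c) φκ (hM c) ?_
      have : IsEmpty (Lat (a c) (b c) 0) := by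
        refine ⟨fun u => ?_⟩
        have h1 := u.2.1
        have h2 := u.1.1.2
        omega
      rw [Matrix.det_isEmpty]
      exact one_ne_zero
    · exact ord_Ψ (ha c) (hb c) (hg c) (hwt c) φκ (hM c) (hord c w hw0 hw)
  have hM0 : ∀ c, g c * (a c * b c) ≠ 0 :=
    fun c => mul_ne_zero (hg c) (mul_ne_zero (ha c) (hb c))
  have hωpos : ∀ c i, 0 < (![b c, a c] : Fin 2 → ℕ) i := by
    intro c i
    fin_cases i
    · exact Nat.pos_of_ne_zero (hb c)
    · exact Nat.pos_of_ne_zero (ha c)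
  obtain ⟨g', hg'⟩ : ∃ g' : Γ → ℕ, ∀ c, g c = g' c + 1 := by
    refine ⟨fun c => g c - 1, fun c => ?_⟩
    have := hg c
    change g c = g c - 1 + 1
    omega
  obtain rfl : g = fun c => g' c + 1 := funext hg'
  have hE := fun c => exists_EM (ha c) (hb c) (hab c) (g' c)
  choose E hE using hE
  obtain ⟨Λ, hΛ⟩ : ∃ Λ : Multiset (PadicAlgCl p), Λ = (L.map c₀).roots.map
    (fun ρ => ρ⁻¹ * ((p : PadicAlgCl p)⁻¹) ^ s) := ⟨_, rfl⟩
  have hpe : ∀ c, p - 1 = (g' c + 1) * (a c * b c) * ((p - 1) / ((g' c + 1) * (a c * b c))) :=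
    fun c => (Nat.mul_div_cancel' (hM c)).symm
  obtain ⟨w, w', α, β, hw, hw', hnorm, heq⟩ := count_fam2 hWF hM0 hωpos hM (by simp) (by simp) hs0
    hfs hord' E (L.map c₀) hPS3 hΛ hpe
  -- the count
  have hPn : ∀ c i, ¬ p ∣ (P c i).natDegree := by
    intro c i hdvd
    have h1 : (P c i).natDegree ≤ (∏ i, P c i).natDegree := by
      rw [Polynomial.natDegree_prod_of_monic _ _ fun i _ => hmon c i]
      exact Finset.single_le_sum (f := fun i => (P c i).natDegree) (fun _ _ => Nat.zero_le _)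
        (Finset.mem_univ i)
    have h2 := Nat.le_of_dvd (hirr c i).natDegree_pos hdvd
    have h3 := hdeg c
    have h4 := hgp c
    simp only at h3 h4
    omega
  have he : ∀ c, e c ≠ 0 := by
    intro c h0
    have h1 := hdeg c
    have h2 : (∏ i, P c i) = 1 := by
      refine Finset.prod_eq_one fun i _ => ?_
      have := i.2
      omega
    rw [h2, Polynomial.natDegree_one] at h1
    simp only at h1
    omega
  have hcount := VD.final_count2 hs0 e he (fun c i => (P c i).natDegree) hPn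
    (fun c => DM (Ψ φκ (f c)) s (fun i => (E c i).1))
    (fun c => DM_unit (ha c) (hb c) (hab c) (hgp c) φκ (hWF c) hs (E c) (hE c) (P c) (hirr c)
      (hmon c) (hne c) (hu c) (htop c) (hdeg c)) _ hw hw' α β heq
  refine LC.conclude hs0 hL0 hLM hM' hΛ ?_ (hcount.trans hR.symm)
  rw [hnorm, hN]
  congr 1
  refine Finset.sum_congr rfl fun c _ => ?_
  congr 2
  refine Finset.sum_congr rfl fun w _ => ?_
  congr 1
  obtain ⟨E', -⟩ := exists_E (a := a c) (b := b c) (ha c) (hb c) w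
  rw [← Nat.card_eq_fintype_card]
  exact (Nat.card_congr E').symm

end TV

end Pool.Agent.N867.AS
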