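import Pool.Agent.N867.AS.K12
import Pool.Agent.N867.AS.X2

/-!
# The main determinant for a simple pole
-/

set_option autoImplicit false
set_option linter.unusedSectionVars false

namespace Pool.Agent.N867.AS

namespace Lau

open MvPolynomial Bd GW Tr Res Pool.Agent.N867.AS.Trans

variable {p : ℕ} [hp : Fact p.Prime] {κ : Type} [Field κ]

theorem hz_Ψ (φκ : κ →+* Res.k p) {f : Polynomial (Polynomial κ)} {b : ℕ}
    (hb : (f.coeff 0).natDegree ≤ b) (l : ℕ) :
    hz (Trans.Ψ φκ f) b l = ((f.coeff 0).map φκ).map (Fr p l) := by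
  ext n
  rw [hz, Polynomial.finsetSum_coeff]
  simp only [Polynomial.coeff_C_mul, Polynomial.coeff_X_pow, mul_ite, mul_one, mul_zero]
  rw [Finset.sum_ite_eq, Polynomial.coeff_map, Polynomial.coeff_map, Fr_apply]
  split_ifs with h
  · rw [coeff_Ψ]
    congr 2
    simp
  · have h1 : (f.coeff 0).coeff n = 0 := by
      refine Polynomial.coeff_eq_zero_of_natDegree_lt ?_
      rw [Finset.mem_range] at h
      omega
    rw [h1, map_zero, zero_pow (pow_ne_zero _ hp.1.ne_zero)]

theorem DT_unit [Fintype κ] [CharP κ p] {g' : ℕ} (hgp : g' + 1 < p)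
    {f : Polynomial (Polynomial κ)} (φκ : κ →+* Res.k p) {s : ℕ} [NeZero s]
    (hs : Fintype.card κ = p ^ s) {e : ℕ}
    (P : Fin e → Polynomial κ) (hirr : ∀ i, Irreducible (P i)) (hmon : ∀ i, (P i).Monic)
    (hne : Pairwise fun i j => IsCoprime (P i) (P j)) {u : κ} (hu : u ≠ 0)
    (htop : f.coeff 0 = Polynomial.C u * ∏ i, P i)
    (hdeg : (∏ i, P i).natDegree = g' + 1) :
    DT (Trans.Ψ φκ f) (g' + 1) s = (∏ i, (1 - Polynomial.X ^ (s * (P i).natDegree))) ^ (p - 1) := by
  classical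
  have hp2 := hp.1.two_le
  obtain ⟨Hz, hHz⟩ : ∃ Hz : ZMod s → Polynomial (k p), ∀ j,
      Hz j = ((∏ i, P i).map φκ).map (Fr p j.val) := ⟨_, fun _ => rfl⟩
  obtain ⟨c, hc⟩ : ∃ c : ZMod s → k p, ∀ j, c j = φκ u ^ p ^ j.val := ⟨_, fun _ => rfl⟩
  have hc0 : ∀ j, c j ≠ 0 := by
    intro j
    rw [hc]
    exact pow_ne_zero _ ((map_ne_zero φκ).2 hu)
  have hcs : φκ u ^ p ^ s = φκ u := by
    rw [← map_pow, ← hs, FiniteField.pow_card]
  have hcm : ∀ n : ℕ, φκ u ^ p ^ (n % s) = φκ u ^ p ^ n := by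
    intro n
    have h1 : ∀ q r : ℕ, φκ u ^ p ^ (s * q + r) = φκ u ^ p ^ r := by
      intro q r
      induction q with
      | zero => rw [mul_zero, zero_add]
      | succ q ih =>
        have h2 : s * (q + 1) + r = s + (s * q + r) := by ring
        rw [h2, pow_add, pow_mul, hcs, ih]
    conv_rhs => rw [← Nat.div_add_mod n s]
    rw [h1]
  have hc1 : ∀ j, c (j + 1) = c j ^ p := by
    intro j
    have h1 : (j + 1).val = (j.val + 1) % s := by
      have h2 : j + 1 = ((j.val + 1 : ℕ) : ZMod s) := by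
        push_cast
        rw [ZMod.natCast_zmod_val]
      rw [h2, ZMod.val_natCast]
    rw [hc, h1, hcm, hc, ← pow_mul, ← pow_succ]
  have hcq : ∀ j, c j ^ (p - 1) = c (j + 1) * (c j)⁻¹ := by
    intro j
    rw [hc1, eq_mul_inv_iff_mul_eq₀ (hc0 j), ← pow_succ, Nat.sub_add_cancel hp.1.one_le]
  have hfd : (f.coeff 0).natDegree ≤ g' + 1 := by
    rw [htop]
    exact (Polynomial.natDegree_C_mul_le _ _).trans hdeg.le
  have hH : ∀ l : ZMod s, hz (Trans.Ψ φκ f) (g' + 1) l.val = Polynomial.C (c l) * Hz l := by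
    intro l
    rw [hz_Ψ φκ hfd, htop, Polynomial.map_mul, Polynomial.map_C, Polynomial.map_mul,
      Polynomial.map_C, hHz, Fr_apply, hc]
  have hprodm : (∏ i, P i).Monic := Polynomial.monic_prod_of_monic _ _ fun i _ => hmon i
  have hzm : ∀ j, (Hz j).Monic := by
    intro j
    rw [hHz]
    exact (hprodm.map _).map _
  have hzdeg : ∀ j, (Hz j).natDegree = g' + 1 := by
    intro j
    rw [hHz, Polynomial.natDegree_map, Polynomial.natDegree_map, hdeg]
  have hdet := VR.det_roots φκ P hne hs hirr hmon hdeg hgp Hz hHz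
  rw [← VD.det_last Hz hzm hzdeg hgp] at hdet
  rw [DT, ← hdet]
  congr 1
  refine TV.det_conj_unit (fun x => Polynomial.C (c x.1)) (fun x => Polynomial.C (c x.1)⁻¹)
    (fun x => ?_) _ _ fun x y => ?_
  · rw [← Polynomial.C_mul, mul_inv_cancel₀ (hc0 _), Polynomial.C_1]
  · rw [Matrix.of_apply, Matrix.of_apply, mul_sub, sub_mul]
    congr 1
    · by_cases h : x = y
      · rw [if_pos h, h, mul_one, ← Polynomial.C_mul, inv_mul_cancel₀ (hc0 _), Polynomial.C_1]
      · rw [if_neg h, mul_zero, zero_mul]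
    · unfold VD.TT
      by_cases h : y.1 = x.1 + 1
      · rw [if_pos h, if_pos h]
        simp only [hH]
        rw [mul_pow, ← Polynomial.C_pow, Polynomial.coeff_C_mul, hcq, h,
          Polynomial.C_mul, Polynomial.C_mul]
        ring
      · rw [if_neg h, if_neg h, Polynomial.C_0, mul_zero, mul_zero, zero_mul]

end Lau

end Pool.Agent.N867.AS
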