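import Pool.Agent.N867.AS.K13

/-!
# Families of curves with a simple pole: order and leading coefficient
-/

set_option autoImplicit false
set_option linter.unusedSectionVars false

namespace Pool.Agent.N867.AS

namespace Lau

open MvPolynomial Bd GW Tr Res Pool.Agent.N867.AS.Trans

variable {p : ℕ} [hp : Fact p.Prime] {κ : Type} [Field κ]

/-- the number of solutions of `(y^p - y) x = f`, `x ≠ 0`, in `F_Q^3` -/
noncomputable def Nptl (p : ℕ) (f : Polynomial (Polynomial κ)) (Q : ℕ) : ℕ :=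
  Nat.card {v : AlgebraicClosure κ × AlgebraicClosure κ × AlgebraicClosure κ //
    v.1 ^ Q = v.1 ∧ v.2.1 ^ Q = v.2.1 ∧ v.2.1 ≠ 0 ∧ v.2.2 ^ Q = v.2.2 ∧
    (v.2.2 ^ p - v.2.2) * v.2.1 = f.eval₂ (Polynomial.eval₂RingHom
      (algebraMap κ (AlgebraicClosure κ)) v.1) v.2.1}

theorem lpts_eq_Nptl (φ : AlgebraicClosure κ →+* Res.k p)
    (f : Polynomial (Polynomial κ)) {Q : ℕ} (hQ : 1 < Q) :
    lpts 0 (Ψ (φ.comp (algebraMap κ (AlgebraicClosure κ))) f) Q = Nptl p f Q := by
  have hev : ∀ t x : AlgebraicClosure κ,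
      f.eval₂ (Polynomial.eval₂RingHom (φ.comp (algebraMap κ (AlgebraicClosure κ))) (φ t)) (φ x) =
        φ (f.eval₂ (Polynomial.eval₂RingHom (algebraMap κ (AlgebraicClosure κ)) t) x) := by
    intro t x
    rw [Polynomial.hom_eval₂]
    congr 1
    refine Polynomial.ringHom_ext' ?_ ?_
    · ext c
      simp
    · simp
  unfold lpts Nptl
  symm
  refine Nat.card_congr (Equiv.ofBijective (fun v => ⟨(![φ v.1.2.1, φ v.1.1], φ v.1.2.2), ?_⟩) ?_)
  · obtain ⟨⟨t, x, y⟩, h1, h2, h0, h3, h4⟩ := v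
    simp only at h0 h1 h2 h3 h4
    refine ⟨?_, ?_, ?_, ?_⟩
    · intro i
      fin_cases i
      · change φ x ^ Q = φ x
        rw [← map_pow, h2]
      · change φ t ^ Q = φ t
        rw [← map_pow, h1]
    · change φ x ≠ 0
      exact (map_ne_zero φ).2 h0
    · change φ y ^ Q = φ y
      rw [← map_pow, h3]
    · rw [eval_Ψ]
      change (φ y ^ p - φ y) * φ x = f.eval₂ (Polynomial.eval₂RingHom _ (φ t)) (φ x)
      rw [hev, ← h4, map_mul, map_sub, map_pow]
  · constructor
    · rintro ⟨⟨t, x, y⟩, h1⟩ ⟨⟨t', x', y'⟩, h1'⟩ h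
      have h2 := congrArg Subtype.val h
      have h3 := congrArg (fun w => w.1 0) h2
      have h4 := congrArg (fun w => w.1 1) h2
      have h5 := congrArg (fun w => w.2) h2
      have h6 : x = x' := φ.injective h3
      have h7 : t = t' := φ.injective h4
      have h8 : y = y' := φ.injective h5
      subst h6 h7 h8
      rfl
    · rintro ⟨⟨w, z⟩, h1, h0, h2, h3⟩
      obtain ⟨x, hx⟩ := exists_preimage φ hQ (h1 0)
      obtain ⟨t, ht⟩ := exists_preimage φ hQ (h1 1)
      obtain ⟨y, hy⟩ := exists_preimage φ hQ h2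
      refine ⟨⟨(t, x, y), ?_, ?_, ?_, ?_, ?_⟩, ?_⟩
      · apply φ.injective
        change φ (t ^ Q) = φ t
        rw [map_pow, ht]
        exact h1 1
      · apply φ.injective
        change φ (x ^ Q) = φ x
        rw [map_pow, hx]
        exact h1 0
      · intro h4
        apply h0
        change x = 0 at h4
        change (w, z).1 0 = 0
        rw [← hx, h4, map_zero]
      · apply φ.injective
        change φ (y ^ Q) = φ y
        rw [map_pow, hy]
        exact h2
      · apply φ.injective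
        change φ ((y ^ p - y) * x) =
          φ (f.eval₂ (Polynomial.eval₂RingHom (algebraMap κ (AlgebraicClosure κ)) t) x)
        rw [← hev, map_mul, map_sub, map_pow, ht, hx, hy]
        rw [eval_Ψ] at h3
        exact h3
      · apply Subtype.ext
        change (![φ x, φ t], φ y) = (w, z)
        rw [hx, ht, hy]
        refine Prod.ext ?_ rfl
        ext i
        fin_cases i <;> rfl

/-- order and leading coefficient -/
theorem famL {Γ : Type} [Fintype Γ] {a b M : Γ → ℕ} (ha : ∀ c, 2 ≤ a c)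
    (hb : ∀ c, 1 ≤ b c) (hab : ∀ c, (a c).Coprime (b c)) (hM : ∀ c, M c + b c = a c * b c)
    (hMp : ∀ c, M c ∣ p - 1)
    (f : Γ → Polynomial (Polynomial κ))
    (hwt : ∀ c m n, ((f c).coeff m).coeff n ≠ 0 → b c * m + a c * n ≤ a c * b c)
    (hca : ∀ c, ((f c).coeff (a c)).coeff 0 ≠ 0) (e : Γ → ℕ)
    (P : ∀ c, Fin (e c) → Polynomial κ) (hirr : ∀ c i, Irreducible (P c i))
    (hmon : ∀ c i, (P c i).Monic)
    (hne : ∀ c, Pairwise fun i j => IsCoprime (P c i) (P c j)) (u : Γ → κ) (hu : ∀ c, u c ≠ 0)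
    (htop : ∀ c, (f c).coeff 0 = Polynomial.C (u c) * ∏ i, P c i)
    (hdeg : ∀ c, (∏ i, P c i).natDegree = b c) [Fintype κ] [CharP κ p] {s : ℕ}
    (hs : Fintype.card κ = p ^ s)
    (L : Polynomial ℚ) (hL0 : L.coeff 0 = 1)
    (hL : PowerSeries.X * PowerSeries.derivative ℚ (L : PowerSeries ℚ) =
      (L : PowerSeries ℚ) * PowerSeries.mk (fun m => if m = 0 then 0 else
        ∑ c, (((Fintype.card κ : ℚ) ^ m - 1) * (Fintype.card κ : ℚ) ^ m -
          (Nptl p (f c) (Fintype.card κ ^ m) : ℚ))))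
    {r : ℕ} {M' : Polynomial ℚ}
    (hLM : L = (1 - Polynomial.C ((p : ℚ) ^ s) * Polynomial.X) ^ r * M')
    (hM' : M'.eval (1 / (p : ℚ) ^ s) ≠ 0) {N R : ℕ}
    (hN : N = ∑ c, ((p - 1) / M c * (s * SL (a c) (b c) (M c))))
    (hR : R = (p - 1) * ∑ c, (e c - 1)) :
    r ≤ R ∧ -(N : ℤ) ≤ padicValRat p (M'.eval (1 / (p : ℚ) ^ s)) ∧
      (padicValRat p (M'.eval (1 / (p : ℚ) ^ s)) = -(N : ℤ) ↔ r = R) := by
  classical
  have hp2 := hp.1.two_le
  have hs0 : s ≠ 0 := by
    rintro rfl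
    rw [pow_zero] at hs
    exact absurd hs (Fintype.one_lt_card (α := κ)).ne'
  have : NeZero s := ⟨hs0⟩
  -- the embedding of the algebraic closure
  obtain ⟨φ⟩ : Nonempty (AlgebraicClosure κ →+* Res.k p) := by
    have hch : CharP (AlgebraicClosure κ) p :=
      charP_of_injective_algebraMap (algebraMap κ (AlgebraicClosure κ)).injective p
    let _ : Algebra (ZMod p) κ := ZMod.algebra κ p
    have _ : IsScalarTower (ZMod p) κ (AlgebraicClosure κ) := inferInstance
    have _ : Algebra.IsAlgebraic (ZMod p) κ := Algebra.IsAlgebraic.of_finite _ _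
    have _ : Algebra.IsAlgebraic (ZMod p) (AlgebraicClosure κ) :=
      Algebra.IsAlgebraic.trans (ZMod p) κ (AlgebraicClosure κ)
    let _ : Algebra (ZMod p) (Res.k p) := ZMod.algebra _ p
    exact ⟨(IsAlgClosed.lift (R := ZMod p) (S := AlgebraicClosure κ) (M := Res.k p)).toRingHom⟩
  obtain ⟨φκ, hφκ⟩ : ∃ φκ : κ →+* Res.k p, φκ = φ.comp (algebraMap κ (AlgebraicClosure κ)) :=
    ⟨_, rfl⟩
  have hKP : ∀ c, KP (Ψ φκ (f c)) (a c) (b c) (M c) := by
    intro c
    refine ⟨ha c, hb c, hab c, hM c, hMp c, ?_, ?_, ?_⟩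
    · intro μ hμ
      rw [mem_support_iff, coeff_Ψ] at hμ
      exact hwt c _ _ fun h => hμ (by rw [h, map_zero])
    · rw [coeff_Ψ]
      simpa using hca c
    · rw [coeff_Ψ]
      have h1 : (Finsupp.single (1 : Fin 2) (b c) : Fin 2 →₀ ℕ) 0 = 0 := by simp
      have h2 : (Finsupp.single (1 : Fin 2) (b c) : Fin 2 →₀ ℕ) 1 = b c := by simp
      rw [h1, h2, htop, Polynomial.coeff_C_mul, map_ne_zero]
      refine mul_ne_zero (hu c) ?_
      have hm : (∏ i, P c i).Monic := Polynomial.monic_prod_of_monic _ _ fun i _ => hmon c i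
      rw [← hdeg c, hm.coeff_natDegree]
      exact one_ne_zero
  have hfs : ∀ c μ, coeff μ (Ψ φκ (f c)) ^ p ^ s = coeff μ (Ψ φκ (f c)) := by
    intro c μ
    rw [coeff_Ψ, ← map_pow, ← hs, FiniteField.pow_card]
  -- the power series
  let c₀ : ℚ →+* PadicAlgCl p := algebraMap ℚ (PadicAlgCl p)
  have hPS : HasPS (L : PowerSeries ℚ) (fun m => ∑ c,
      ((Nptl p (f c) (Fintype.card κ ^ m) : ℚ) -
        ((Fintype.card κ : ℚ) ^ m - 1) * (Fintype.card κ : ℚ) ^ m)) := by
    refine ⟨?_, ?_⟩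
    · rw [← PowerSeries.coeff_zero_eq_constantCoeff_apply, Polynomial.coeff_coe, hL0]
    · rw [hL, ← mul_neg]
      congr 1
      ext m
      rw [pser, map_neg, PowerSeries.coeff_mk, PowerSeries.coeff_mk]
      split_ifs
      · rw [neg_zero]
      · rw [← Finset.sum_neg_distrib]
        refine Finset.sum_congr rfl fun c _ => ?_
        ring
  have hPS2 := hPS.map c₀
  have hPS3 : HasPS ((L.map c₀ : Polynomial (PadicAlgCl p)) : PowerSeries (PadicAlgCl p))
      (fun m => ∑ c, ((lpts 0 (Ψ φκ (f c)) (p ^ (s * m)) : PadicAlgCl p) -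
      (((p ^ (s * m) : ℕ) : PadicAlgCl p) - 1) * ((p ^ (s * m) : ℕ) : PadicAlgCl p))) := by
    rw [Polynomial.polynomial_map_coe] at *
    refine ⟨hPS2.1, ?_⟩
    rw [hPS2.2]
    congr 2
    refine pser_congr fun m hm => ?_
    rw [map_sum]
    refine Finset.sum_congr rfl fun c _ => ?_
    have hQ : 1 < p ^ (s * m) := Nat.one_lt_pow (mul_ne_zero hs0 hm) hp.1.one_lt
    rw [hφκ, lpts_eq_Nptl φ (f c) hQ, hs, ← pow_mul, map_sub, map_natCast, map_mul, map_sub,
      map_pow, map_natCast, map_one]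
    push_cast
    rw [← pow_mul]
  have hM0 : ∀ c, M c ≠ 0 := fun c => (hKP c).M_pos.ne'
  have hbp : ∀ c, b c < p := by
    intro c
    have h1 := hM c
    have h2 := ha c
    have h3 : 2 * b c ≤ a c * b c := Nat.mul_le_mul_right _ h2
    have h4 := Nat.le_of_dvd (by omega) (hMp c)
    omega
  obtain ⟨g', hg'⟩ : ∃ g' : Γ → ℕ, ∀ c, b c = g' c + 1 := by
    refine ⟨fun c => b c - 1, fun c => ?_⟩
    have := hb c
    change b c = b c - 1 + 1
    omega
  obtain rfl : b = fun c => g' c + 1 := funext hg'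
  obtain ⟨Λ, hΛ⟩ : ∃ Λ : Multiset (PadicAlgCl p), Λ = (L.map c₀).roots.map
    (fun ρ => ρ⁻¹ * ((p : PadicAlgCl p)⁻¹) ^ s) := ⟨_, rfl⟩
  have hpe : ∀ c, p - 1 = M c * ((p - 1) / M c) :=
    fun c => (Nat.mul_div_cancel' (hMp c)).symm
  obtain ⟨w, w', α, β, hw, hw', hnorm, heq⟩ := count_L hKP hs0 hfs (L.map c₀) hPS3 hΛ hpe
  -- the count
  have hPn : ∀ c i, ¬ p ∣ (P c i).natDegree := by
    intro c i hdvd
    have h1 : (P c i).natDegree ≤ (∏ i, P c i).natDegree := by
      rw [Polynomial.natDegree_prod_of_monic _ _ fun i _ => hmon c i]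
      exact Finset.single_le_sum (f := fun i => (P c i).natDegree) (fun _ _ => Nat.zero_le _)
        (Finset.mem_univ i)
    have h2 := Nat.le_of_dvd (hirr c i).natDegree_pos hdvd
    have h3 := hdeg c
    have h4 := hbp c
    simp only at h3 h4
    omega
  have he : ∀ c, e c ≠ 0 := by
    intro c h0
    have h1 := hdeg c
    have h2 : (∏ i, P c i) = 1 := by
      refine Finset.prod_eq_one fun i _ => ?_
      have := i.2
      omega
    rw [h2, Polynomial.natDegree_one] at h1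
    simp only at h1
    omega
  have hDT : ∀ c, DT (Ψ φκ (f c)) (g' c + 1) s =
      (∏ i, (1 - Polynomial.X ^ (s * (P c i).natDegree))) ^ (p - 1) :=
    fun c => DT_unit (hbp c) φκ hs (P c) (hirr c) (hmon c) (hne c) (hu c) (htop c) (hdeg c)
  have hXs : (1 - Polynomial.X ^ s : Polynomial (k p)) ≠ 0 := by
    have := VD.one_sub_ne hs0 (1 : k p)
    rwa [Polynomial.C_1, one_mul] at this
  have hD : ∀ c, ∃ Dc : Polynomial (k p), Dc * (1 - Polynomial.X ^ s) ^ (p - 1) =
      (∏ i, (1 - Polynomial.X ^ (s * (P c i).natDegree))) ^ (p - 1) := by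
    intro c
    have i0 : Fin (e c) := ⟨0, Nat.pos_of_ne_zero (he c)⟩
    have h1 : (1 - Polynomial.X ^ s : Polynomial (k p)) ∣
        1 - Polynomial.X ^ (s * (P c i0).natDegree) := by
      rw [pow_mul]
      exact one_sub_dvd_one_sub_pow _ _
    have h2 : (1 - Polynomial.X ^ s : Polynomial (k p)) ∣
        ∏ i, (1 - Polynomial.X ^ (s * (P c i).natDegree)) :=
      h1.trans (Finset.dvd_prod_of_mem _ (Finset.mem_univ i0))
    obtain ⟨Dc, hDc⟩ := pow_dvd_pow_of_dvd h2 (p - 1)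
    exact ⟨Dc, by rw [hDc, mul_comm]⟩
  choose Dc hDc using hD
  have heq2 : Polynomial.C w' * Polynomial.X ^ β * ∏ c, Dc c =
      Polynomial.C w * (Polynomial.X ^ α *
          (((Λ.filter fun l => ‖l‖ = 1).map (red p)).map
            fun l => (1 - Polynomial.C l * Polynomial.X ^ s : Polynomial (k p))).prod) := by
    have h1 : ∏ c, DT (Ψ φκ (f c)) (g' c + 1) s =
        (∏ c, Dc c) * ((1 - Polynomial.X ^ s) ^ (p - 1)) ^ (Fintype.card Γ) := by
      rw [Finset.prod_congr rfl fun c _ => (hDT c).trans (hDc c).symm, Finset.prod_mul_distrib,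
        Finset.prod_const, Finset.card_univ]
    rw [h1, ← mul_assoc] at heq
    exact mul_right_cancel₀ (pow_ne_zero _ (pow_ne_zero _ hXs)) heq
  have hcount := VD.final_count2 hs0 e he (fun c i => (P c i).natDegree) hPn Dc hDc _ hw hw' α β
    heq2
  refine LC.conclude hs0 hL0 hLM hM' hΛ ?_ (hcount.trans hR.symm)
  rw [hnorm, hN]

end Lau

end Pool.Agent.N867.AS
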