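import Pool.Agent.N867.AS.X3

/-!
# Elementary abelian covers in both directions: assembly
-/

set_option autoImplicit false
set_option linter.unusedSectionVars false

namespace Pool.Agent.N867.AS

namespace Tow

open Polynomial LP TV

/-- `∑_{w < g a b} #(Lat a b w) (1 - w/(g a b))` -/
noncomputable def hg (a b g : ℕ) : ℚ :=
  ∑ w ∈ Finset.range (g * (a * b)),
    (Fintype.card (Lat a b w) : ℚ) * (1 - (w : ℚ) / ((g * (a * b) : ℕ) : ℚ))

theorem hg_eq {p a b g : ℕ} (hM0 : g * (a * b) ≠ 0) (hM : g * (a * b) ∣ p - 1) (s : ℕ) :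
    (((p - 1) / (g * (a * b)) * (s *
      ∑ w ∈ Finset.range (g * (a * b)), Fintype.card (Lat a b w) * (g * (a * b) - w)) : ℕ) : ℚ) =
      ((p - 1 : ℕ) : ℚ) * ((s : ℚ) * hg a b g) := by
  obtain ⟨e, he⟩ := hM
  obtain ⟨M, hMd⟩ : ∃ M, M = g * (a * b) := ⟨_, rfl⟩
  rw [hg]
  rw [← hMd] at hM0 he ⊢
  have hM' : (M : ℚ) ≠ 0 := Nat.cast_ne_zero.2 hM0
  rw [he, Nat.mul_div_cancel_left _ (Nat.pos_of_ne_zero hM0)]
  push_cast
  rw [Finset.mul_sum, Finset.mul_sum, Finset.mul_sum, Finset.mul_sum]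
  refine Finset.sum_congr rfl fun w hw => ?_
  have hw' := Finset.mem_range.1 hw
  rw [Nat.cast_sub hw'.le]
  field_simp

theorem hws_unit {κ : Type} [Field κ] {p a b w n : ℕ} {Φ : κ[X]} {u : κ} (hu : u ≠ 0)
    (h : (hws p a b w n Φ).det ≠ 0) : (hws p a b w n (C u * Φ)).det ≠ 0 := by
  have h1 : hws p a b w n (C u * Φ) = (u ^ n) • hws p a b w n Φ := by
    ext i j
    rw [hws, hws, Matrix.of_apply, Matrix.smul_apply, Matrix.of_apply, mul_pow, ← C_pow,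
      coeff_C_mul, smul_eq_mul]
  rw [h1, Matrix.det_smul]
  exact mul_ne_zero (pow_ne_zero _ (pow_ne_zero _ hu)) h

theorem main2 (p : ℕ) (hp : p.Prime) (κ : Type) [Field κ] [Fintype κ] [CharP κ p] (s : ℕ)
    (hs : Fintype.card κ = p ^ s) (m r : ℕ) (F : Fin m → κ[X][X]) (h : Fin r → κ[X])
    (a b g e : Ix p m r → ℕ) (hab : ∀ v, (a v).Coprime (b v)) (hga : ∀ v, g v * a v ∣ p - 1)
    (hgb : ∀ v, g v * b v ∣ p - 1) (u : Ix p m r → κ) (hu : ∀ v, u v ≠ 0)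
    (H : ∀ v, Fin (e v) → κ[X]) (hirr : ∀ v i, Irreducible (H v i))
    (hmon : ∀ v i, (H v i).Monic) (hinj : ∀ v, Function.Injective (H v))
    (hdeg : ∀ v, (∏ i, H v i).natDegree = g v)
    (hord : ∀ v, OrdP p (a v) (b v) (g v) (∏ i, H v i))
    (hf : ∀ v, Final2.Lead (a v) (b v) (g v) (C (u v) * ∏ i, H v i) (comb F h v.1)) (L : ℚ[X])
    (hL0 : L.coeff 0 = 1)
    (hL : PowerSeries.X * PowerSeries.derivative ℚ (L : PowerSeries ℚ) =
      (L : PowerSeries ℚ) * PowerSeries.mk (fun n => if n = 0 then 0 else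
        (Fintype.card κ : ℚ) ^ n * (NS p h (Fintype.card κ ^ n) : ℚ) -
          (ND p F h (Fintype.card κ ^ n) : ℚ)))
    (ρ : ℕ) (M : ℚ[X]) (hLM : L = (1 - C (Fintype.card κ : ℚ) * X) ^ ρ * M)
    (hM : M.eval (1 / (Fintype.card κ : ℚ)) ≠ 0) :
    ρ ≤ ∑ v, (e v - 1) ∧
      -((s : ℚ) * ∑ v, hg (a v) (b v) (g v)) ≤
        (padicValRat p (M.eval (1 / (Fintype.card κ : ℚ))) : ℚ) ∧
      ((padicValRat p (M.eval (1 / (Fintype.card κ : ℚ))) : ℚ) =
        -((s : ℚ) * ∑ v, hg (a v) (b v) (g v)) ↔ ρ = ∑ v, (e v - 1)) := by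
  have : Fact p.Prime := ⟨hp⟩
  have hp1 : p - 1 ≠ 0 := by
    have := hp.two_le
    omega
  have hp1' : 0 < p - 1 := Nat.pos_of_ne_zero hp1
  have hga0 : ∀ v, g v * a v ≠ 0 := fun v h => hp1 (by
    have := hga v
    rwa [h, zero_dvd_iff] at this)
  have hgb0 : ∀ v, g v * b v ≠ 0 := fun v h => hp1 (by
    have := hgb v
    rwa [h, zero_dvd_iff] at this)
  have hg0 := fun v => left_ne_zero_of_mul (hga0 v)
  have ha := fun v => right_ne_zero_of_mul (hga0 v)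
  have hb := fun v => right_ne_zero_of_mul (hgb0 v)
  have hMd := fun v => dvd_M (hab v) (hg0 v) (hga v) (hgb v)
  have hM0 : ∀ v, g v * (a v * b v) ≠ 0 :=
    fun v => mul_ne_zero (hg0 v) (mul_ne_zero (ha v) (hb v))
  have hs0 : s ≠ 0 := by
    rintro rfl
    rw [pow_zero] at hs
    exact absurd hs (Fintype.one_lt_card (α := κ)).ne'
  have hcop : ∀ v, Pairwise fun i j => IsCoprime (H v i) (H v j) := by
    intro v i j hij
    refine (hirr v i).coprime_iff_not_dvd.2 fun hdvd => hij (hinj v ?_)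
    exact eq_of_monic_of_associated (hmon v i) (hmon v j)
      ((hirr v i).associated_of_dvd (hirr v j) hdvd)
  have hq : (Fintype.card κ : ℚ) = (p : ℚ) ^ s := by rw [hs]; push_cast; rfl
  have hpq : ((p : ℚ) - 1) = ((p - 1 : ℕ) : ℚ) := by
    rw [Nat.cast_sub hp.one_le, Nat.cast_one]
  have hL2 : PowerSeries.X * PowerSeries.derivative ℚ ((L ^ (p - 1) : ℚ[X]) : PowerSeries ℚ) =
      ((L ^ (p - 1) : ℚ[X]) : PowerSeries ℚ) * PowerSeries.mk (fun n => if n = 0 then 0 else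
        ∑ v : Ix p m r, ((Fintype.card κ : ℚ) ^ (2 * n) -
          (Trans.Npts p (comb F h v.1) (Fintype.card κ ^ n) : ℚ))) := by
    have h1 : PowerSeries.mk (fun n => if n = 0 then 0 else
        ∑ v : Ix p m r, ((Fintype.card κ : ℚ) ^ (2 * n) -
          (Trans.Npts p (comb F h v.1) (Fintype.card κ ^ n) : ℚ))) =
        ((p - 1 : ℕ) : PowerSeries ℚ) * PowerSeries.mk (fun n => if n = 0 then 0 else
        (Fintype.card κ : ℚ) ^ n * (NS p h (Fintype.card κ ^ n) : ℚ) -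
          (ND p F h (Fintype.card κ ^ n) : ℚ)) := by
      ext n
      have h2 : ((p - 1 : ℕ) : PowerSeries ℚ) = PowerSeries.C ((p - 1 : ℕ) : ℚ) := by
        rw [map_natCast]
      rw [h2, PowerSeries.coeff_C_mul, PowerSeries.coeff_mk, PowerSeries.coeff_mk]
      split_ifs with hn
      · rw [mul_zero]
      · rw [← hpq]
        exact (double_count hs hs0 F h hn).symm
    obtain ⟨d, hd⟩ : ∃ d, p - 1 = d + 1 := ⟨p - 2, by have := hp.two_le; omega⟩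
    rw [h1, Polynomial.coe_pow, Derivation.leibniz_pow, hd, Nat.add_sub_cancel]
    rw [smul_eq_mul, nsmul_eq_mul]
    have h3 : PowerSeries.X * (((d + 1 : ℕ) : PowerSeries ℚ) *
        ((L : PowerSeries ℚ) ^ d * PowerSeries.derivative ℚ (L : PowerSeries ℚ))) =
        ((d + 1 : ℕ) : PowerSeries ℚ) * (L : PowerSeries ℚ) ^ d *
          (PowerSeries.X * PowerSeries.derivative ℚ (L : PowerSeries ℚ)) := by ring
    rw [h3, hL]
    ring
  have hLp0 : (L ^ (p - 1)).coeff 0 = 1 := by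
    rw [coeff_zero_eq_eval_zero, eval_pow, ← coeff_zero_eq_eval_zero, hL0, one_pow]
  have hMp : (M ^ (p - 1)).eval (1 / (p : ℚ) ^ s) ≠ 0 := by
    rw [eval_pow, ← hq]
    exact pow_ne_zero _ hM
  obtain ⟨N, hN⟩ : ∃ N : ℕ, N = ∑ c, ((p - 1) / (g c * (a c * b c)) * (s *
      ∑ w ∈ Finset.range (g c * (a c * b c)),
        Fintype.card (Lat (a c) (b c) w) * (g c * (a c * b c) - w))) := ⟨_, rfl⟩
  obtain ⟨R, hR⟩ : ∃ R : ℕ, R = (p - 1) * ∑ v, (e v - 1) := ⟨_, rfl⟩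
  obtain ⟨h1, h2, h3⟩ := fam2 (p := p) ha hb hab hg0 hga hgb (fun v => comb F h v.1)
    (fun v => (hf v).1)
    (fun v w hw0 hw => by
      rw [hw_eq hp (ha v) (hb v) (hab v) (hg0 v) (hMd v) (hf v).1 hw, (hf v).2]
      exact hws_unit (hu v) (hord v w hw0 hw)) e H hirr hmon hcop u hu (fun v => (hf v).2) hdeg hs
    (L ^ (p - 1)) hLp0 hL2
    (r := ρ * (p - 1)) (M' := M ^ (p - 1)) (by rw [← hq, hLM, mul_pow, ← pow_mul]) hMp hN hR
  rw [eval_pow, ← hq, padicValRat.pow] at h2 h3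
  have hNq : (N : ℚ) = ((p - 1 : ℕ) : ℚ) * ((s : ℚ) * ∑ v, hg (a v) (b v) (g v)) := by
    rw [hN, Nat.cast_sum, Finset.mul_sum, Finset.mul_sum]
    exact Finset.sum_congr rfl fun v _ => hg_eq (hM0 v) (hMd v) s
  obtain ⟨v, hv⟩ : ∃ v, v = padicValRat p (M.eval (1 / (Fintype.card κ : ℚ))) := ⟨_, rfl⟩
  rw [← hv] at h2 h3 ⊢
  obtain ⟨E, hE⟩ : ∃ E : ℚ, E = (s : ℚ) * ∑ v, hg (a v) (b v) (g v) := ⟨_, rfl⟩
  rw [← hE] at hNq ⊢
  have hp1q : 0 < ((p - 1 : ℕ) : ℚ) := by exact_mod_cast hp1'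
  refine ⟨?_, ?_, ?_⟩
  · rw [hR, mul_comm] at h1
    exact Nat.le_of_mul_le_mul_left h1 hp1'
  · have h4 : (-(N : ℤ) : ℚ) ≤ (((p - 1 : ℕ) : ℤ) * v : ℤ) := by exact_mod_cast h2
    push_cast at h4
    rw [hNq] at h4
    have h5 : ((p - 1 : ℕ) : ℚ) * (-E) ≤ ((p - 1 : ℕ) : ℚ) * (v : ℚ) := by
      rw [mul_neg]
      exact h4
    exact le_of_mul_le_mul_left h5 hp1q
  · have h4 : (v : ℚ) = -E ↔ ((p - 1 : ℕ) : ℤ) * v = -(N : ℤ) := by
      constructor
      · intro h5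
        have h6 : (((p - 1 : ℕ) : ℤ) * v : ℚ) = ((-(N : ℤ) : ℤ) : ℚ) := by
          push_cast
          rw [hNq, h5]
          ring
        exact_mod_cast h6
      · intro h5
        have h6 : ((((p - 1 : ℕ) : ℤ) * v : ℤ) : ℚ) = ((-(N : ℤ) : ℤ) : ℚ) := by rw [h5]
        push_cast at h6
        rw [hNq, ← mul_neg] at h6
        exact mul_left_cancel₀ hp1q.ne' h6
    rw [h4, h3, hR, mul_comm]
    constructor
    · exact fun h5 => Nat.eq_of_mul_eq_mul_left hp1' h5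
    · exact fun h5 => by rw [h5]

end Tow

end Pool.Agent.N867.AS
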