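import Pool.Agent.N867.AS.K14
import Pool.Agent.N867.AS.X4

/-!
# Counting points on elementary abelian covers with a simple pole
-/

set_option autoImplicit false
set_option linter.unusedSectionVars false

namespace Pool.Agent.N867.AS

namespace Lau

open Polynomial Pool.Agent.N867.AS.Trans Tow

variable {κ : Type} [Field κ]

/-- points of the double tower -/
noncomputable def NDL (p : ℕ) {m r : ℕ} (F : Fin m → κ[X][X]) (h : Fin r → κ[X]) (Q : ℕ) : ℕ :=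
  Nat.card {v : AlgebraicClosure κ × AlgebraicClosure κ × (Fin m → AlgebraicClosure κ) ×
      (Fin r → AlgebraicClosure κ) //
    v.1 ^ Q = v.1 ∧ v.2.1 ^ Q = v.2.1 ∧ v.2.1 ≠ 0 ∧ (∀ j, v.2.2.1 j ^ Q = v.2.2.1 j) ∧
    (∀ i, v.2.2.2 i ^ Q = v.2.2.2 i) ∧
    (∀ j, (v.2.2.1 j ^ p - v.2.2.1 j) * v.2.1 =
      (F j).eval₂ (eval₂RingHom (algebraMap κ (AlgebraicClosure κ)) v.1) v.2.1) ∧
    (∀ i, v.2.2.2 i ^ p - v.2.2.2 i = (h i).eval₂ (algebraMap κ (AlgebraicClosure κ)) v.1)}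

/-- the nonzero elements -/
noncomputable def FE (κ : Type) [Field κ] (Q : ℕ) : Finset (AlgebraicClosure κ) := by
  classical exact (FF (AlgebraicClosure κ) Q).erase 0

theorem mem_FE {Q : ℕ} (hQ : 1 < Q) {x : AlgebraicClosure κ} :
    x ∈ FE κ Q ↔ x ^ Q = x ∧ x ≠ 0 := by
  classical
  unfold FE
  rw [Finset.mem_erase, mem_FF hQ, and_comm]

theorem NDL_eq (p : ℕ) {m r : ℕ} (F : Fin m → κ[X][X]) (h : Fin r → κ[X]) {Q : ℕ} (hQ : 1 < Q) :
    NDL p F h Q = ∑ t ∈ FF (AlgebraicClosure κ) Q, ∑ x ∈ FE κ Q,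
      (∏ j, cnt p Q (ev2 t x (F j) * x⁻¹)) *
        ∏ i, cnt p Q ((h i).eval₂ (algebraMap κ (AlgebraicClosure κ)) t) := by
  classical
  unfold NDL
  rw [Nat.subtype_card ((FF (AlgebraicClosure κ) Q ×ˢ (FE κ Q ×ˢ
    ((Fintype.piFinset fun _ : Fin m => FF (AlgebraicClosure κ) Q) ×ˢ
    (Fintype.piFinset fun _ : Fin r => FF (AlgebraicClosure κ) Q)))).filter
      fun v => (∀ j, v.2.2.1 j ^ p - v.2.2.1 j = ev2 v.1 v.2.1 (F j) * (v.2.1)⁻¹) ∧
        (∀ i, v.2.2.2 i ^ p - v.2.2.2 i =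
          (h i).eval₂ (algebraMap κ (AlgebraicClosure κ)) v.1))]
  · rw [Finset.card_filter, Finset.sum_product]
    refine Finset.sum_congr rfl fun t _ => ?_
    rw [Finset.sum_product]
    refine Finset.sum_congr rfl fun x _ => ?_
    rw [Finset.sum_product, ← card_pi p Q fun j => ev2 t x (F j) * x⁻¹,
      ← card_pi p Q fun i => (h i).eval₂ (algebraMap κ (AlgebraicClosure κ)) t,
      Finset.card_filter, Finset.card_filter, Finset.sum_mul_sum]
    refine Finset.sum_congr rfl fun y _ => Finset.sum_congr rfl fun z _ => ?_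
    simp only
    by_cases h1 : ∀ j, y j ^ p - y j = ev2 t x (F j) * x⁻¹
    · by_cases h2 : ∀ i, z i ^ p - z i = (h i).eval₂ (algebraMap κ (AlgebraicClosure κ)) t
      · rw [if_pos ⟨h1, h2⟩, if_pos h1, if_pos h2, one_mul]
      · rw [if_neg (fun h3 => h2 h3.2), if_neg h2, mul_zero]
    · rw [if_neg (fun h3 => h1 h3.1), if_neg h1, zero_mul]
  · intro v
    rw [Finset.mem_filter, Finset.mem_product, Finset.mem_product, Finset.mem_product,
      Fintype.mem_piFinset, Fintype.mem_piFinset, mem_FF hQ, mem_FE hQ]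
    simp only [mem_FF hQ]
    constructor
    · rintro ⟨⟨h1, ⟨h2, h0⟩, h3, h4⟩, h5, h6⟩
      refine ⟨h1, h2, h0, h3, h4, fun j => ?_, h6⟩
      have := h5 j
      rw [eq_mul_inv_iff_mul_eq₀ h0] at this
      exact this
    · rintro ⟨h1, h2, h0, h3, h4, h5, h6⟩
      refine ⟨⟨h1, ⟨h2, h0⟩, h3, h4⟩, fun j => ?_, h6⟩
      rw [eq_mul_inv_iff_mul_eq₀ h0]
      exact h5 j

theorem Nptl_eq (p : ℕ) (f : κ[X][X]) {Q : ℕ} (hQ : 1 < Q) :
    Nptl p f Q = ∑ t ∈ FF (AlgebraicClosure κ) Q, ∑ x ∈ FE κ Q,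
      cnt p Q (ev2 t x f * x⁻¹) := by
  classical
  unfold Nptl
  rw [Nat.subtype_card ((FF (AlgebraicClosure κ) Q ×ˢ (FE κ Q ×ˢ
    FF (AlgebraicClosure κ) Q)).filter fun v => v.2.2 ^ p - v.2.2 = ev2 v.1 v.2.1 f * (v.2.1)⁻¹)]
  · rw [Finset.card_filter, Finset.sum_product]
    refine Finset.sum_congr rfl fun t _ => ?_
    rw [Finset.sum_product]
    refine Finset.sum_congr rfl fun x _ => ?_
    rw [cnt, Finset.card_filter]
  · intro v
    rw [Finset.mem_filter, Finset.mem_product, Finset.mem_product, mem_FF hQ, mem_FE hQ, mem_FF hQ]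
    constructor
    · rintro ⟨⟨h1, ⟨h2, h0⟩, h3⟩, h4⟩
      rw [eq_mul_inv_iff_mul_eq₀ h0] at h4
      exact ⟨h1, h2, h0, h3, h4⟩
    · rintro ⟨h1, h2, h0, h3, h4⟩
      refine ⟨⟨h1, ⟨h2, h0⟩, h3⟩, ?_⟩
      rw [eq_mul_inv_iff_mul_eq₀ h0]
      exact h4

/-- the combinations -/
noncomputable def combL {p m r : ℕ} (F : Fin m → κ[X][X]) (h : Fin r → κ[X])
    (v : (Fin m → Fin p) × (Fin r → Fin p)) : κ[X][X] :=
  ∑ j, ((v.1 j : ℕ) : κ[X][X]) * F j + ∑ i, ((v.2 i : ℕ) : κ[X][X]) * (C (h i) * X)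

theorem ev2_combL {p m r : ℕ} (F : Fin m → κ[X][X]) (h : Fin r → κ[X])
    (v : (Fin m → Fin p) × (Fin r → Fin p)) {t x : AlgebraicClosure κ} (hx : x ≠ 0) :
    ev2 t x (combL F h v) * x⁻¹ =
      ∑ j, ((v.1 j : ℕ) : AlgebraicClosure κ) * (ev2 t x (F j) * x⁻¹) +
      ∑ i, ((v.2 i : ℕ) : AlgebraicClosure κ) *
        (h i).eval₂ (algebraMap κ (AlgebraicClosure κ)) t := by
  rw [combL, map_add, map_sum, map_sum, add_mul, Finset.sum_mul, Finset.sum_mul]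
  congr 1
  · refine Finset.sum_congr rfl fun j _ => ?_
    rw [map_mul, map_natCast, mul_assoc]
  · refine Finset.sum_congr rfl fun i _ => ?_
    rw [map_mul, map_natCast, map_mul, mul_assoc]
    congr 1
    have h1 : ev2 t x (C (h i)) = (h i).eval₂ (algebraMap κ (AlgebraicClosure κ)) t := by
      rw [ev2, coe_eval₂RingHom, eval₂_C]
      rfl
    have h2 : ev2 t x (X : κ[X][X]) = x := by
      rw [ev2, coe_eval₂RingHom, eval₂_X]
    rw [h1, h2, mul_assoc, mul_inv_cancel₀ hx, mul_one]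

variable [Fintype κ]

/-- the counting identity -/
theorem double_countL {p : ℕ} [hp : Fact p.Prime] [CharP κ p] {s : ℕ}
    (hs : Fintype.card κ = p ^ s) (hs0 : s ≠ 0) {m r : ℕ} (F : Fin m → κ[X][X])
    (h : Fin r → κ[X]) {n : ℕ} (hn : n ≠ 0) :
    ((p : ℚ) - 1) * (((Fintype.card κ : ℚ) ^ n - 1) * (NS p h (Fintype.card κ ^ n) : ℚ) -
        (NDL p F h (Fintype.card κ ^ n) : ℚ)) =
      ∑ v : Ix p m r, (((Fintype.card κ : ℚ) ^ n - 1) * (Fintype.card κ : ℚ) ^ n -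
        (Nptl p (combL F h v.1) (Fintype.card κ ^ n) : ℚ)) := by
  classical
  have hch : CharP (AlgebraicClosure κ) p :=
    charP_of_injective_algebraMap (algebraMap κ (AlgebraicClosure κ)).injective p
  obtain ⟨L, hL⟩ : ∃ L, L = s * n := ⟨_, rfl⟩
  have hL0 : L ≠ 0 := by rw [hL]; exact mul_ne_zero hs0 hn
  have hQe : Fintype.card κ ^ n = p ^ L := by rw [hs, ← pow_mul, hL]
  have hQ : 1 < p ^ L := Nat.one_lt_pow hL0 hp.1.one_lt
  have hQq : (Fintype.card κ : ℚ) ^ n = ((p ^ L : ℕ) : ℚ) := by rw [← hQe]; push_cast; rfl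
  rw [hQe, hQq, NS_eq p h hQ, NDL_eq p F h hQ]
  simp only [Nptl_eq p _ hQ]
  have hcard : ((FF (AlgebraicClosure κ) (p ^ L)).card : ℚ) = ((p ^ L : ℕ) : ℚ) := by
    rw [card_FF hL0]
  have hcardE : ((FE κ (p ^ L)).card : ℚ) = ((p ^ L : ℕ) : ℚ) - 1 := by
    have h0 : (0 : AlgebraicClosure κ) ∈ FF (AlgebraicClosure κ) (p ^ L) :=
      (mem_FF hQ).2 (zero_pow (by omega))
    have h1 : (FE κ (p ^ L)).card = p ^ L - 1 := by
      unfold FE
      rw [Finset.card_erase_of_mem h0, card_FF hL0]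
    rw [h1, Nat.cast_sub hQ.le, Nat.cast_one]
  have h1 : ∀ v : Ix p m r, (((p ^ L : ℕ) : ℚ) - 1) * ((p ^ L : ℕ) : ℚ) -
      ((∑ t ∈ FF (AlgebraicClosure κ) (p ^ L), ∑ x ∈ FE κ (p ^ L),
        cnt p (p ^ L) (ev2 t x (combL F h v.1) * x⁻¹) : ℕ) : ℚ) =
      ∑ t ∈ FF (AlgebraicClosure κ) (p ^ L), ∑ x ∈ FE κ (p ^ L),
        (1 - (cnt p (p ^ L) (ev2 t x (combL F h v.1) * x⁻¹) : ℚ)) := by
    intro c
    simp only [Finset.sum_sub_distrib, Finset.sum_const, nsmul_eq_mul, mul_one]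
    rw [hcard, hcardE]
    push_cast
    ring
  have h6 : ∑ v : Ix p m r, ∑ t ∈ FF (AlgebraicClosure κ) (p ^ L),
      ∑ x ∈ FE κ (p ^ L),
        (1 - (cnt p (p ^ L) (ev2 t x (combL F h v.1) * x⁻¹) : ℚ)) =
      ∑ t ∈ FF (AlgebraicClosure κ) (p ^ L), ∑ x ∈ FE κ (p ^ L),
        ∑ v : Ix p m r, (1 - (cnt p (p ^ L) (ev2 t x (combL F h v.1) * x⁻¹) : ℚ)) := by
    rw [Finset.sum_comm]
    exact Finset.sum_congr rfl fun t _ => Finset.sum_comm
  rw [Finset.sum_congr rfl fun c _ => h1 c, h6]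
  have h2 : (((p ^ L : ℕ) : ℚ) - 1) * ((∑ t ∈ FF (AlgebraicClosure κ) (p ^ L),
      ∏ i, cnt p (p ^ L) ((h i).eval₂ (algebraMap κ (AlgebraicClosure κ)) t) : ℕ) : ℚ) =
      ∑ t ∈ FF (AlgebraicClosure κ) (p ^ L), ∑ x ∈ FE κ (p ^ L),
        (∏ i, (cnt p (p ^ L) ((h i).eval₂ (algebraMap κ (AlgebraicClosure κ)) t) : ℚ)) := by
    simp only [Finset.sum_const, nsmul_eq_mul]
    rw [← Finset.mul_sum, hcardE]
    push_cast
    rfl
  rw [h2]
  push_cast
  rw [← Finset.sum_sub_distrib, Finset.mul_sum]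
  refine Finset.sum_congr rfl fun t ht => ?_
  rw [← Finset.sum_sub_distrib, Finset.mul_sum]
  refine Finset.sum_congr rfl fun x hx => ?_
  rw [mem_FF hQ] at ht
  rw [mem_FE hQ] at hx
  obtain ⟨hx, hx0⟩ := hx
  have ht' : t ^ p ^ (s * n) = t := by rw [← hL]; exact ht
  have hx' : x ^ p ^ (s * n) = x := by rw [← hL]; exact hx
  have hcnt : ∀ v : AlgebraicClosure κ, (cnt p (p ^ L) v : ℚ) =
      if tr p L v = 0 then (p : ℚ) else 0 := by
    intro v
    have h3 := Tow.ycount (p := p) hL0 v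
    rw [cnt]
    split_ifs at h3 ⊢ with h4
    · rw [h3]
    · rw [h3, Nat.cast_zero]
  have hh : ∀ i, (h i).eval₂ (algebraMap κ (AlgebraicClosure κ)) t = ev2 t x (C (h i)) := by
    intro i
    rw [ev2, coe_eval₂RingHom, eval₂_C]
    rfl
  have hBp : ∀ i, tr p L ((h i).eval₂ (algebraMap κ (AlgebraicClosure κ)) t) ^ p =
      tr p L ((h i).eval₂ (algebraMap κ (AlgebraicClosure κ)) t) := by
    intro i
    refine tr_pow hL0 ?_
    rw [hh, hL]
    exact ev2_pow hs ht' hx' _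
  have hAp : ∀ j, tr p L (ev2 t x (F j) * x⁻¹) ^ p = tr p L (ev2 t x (F j) * x⁻¹) := by
    intro j
    refine tr_pow hL0 ?_
    rw [mul_pow, inv_pow, hL, ev2_pow hs ht' hx', hx']
  obtain ⟨A, hA⟩ : ∃ A : Fin m → AlgebraicClosure κ, ∀ j, A j =
    tr p L (ev2 t x (F j) * x⁻¹) := ⟨_, fun _ => rfl⟩
  obtain ⟨B, hB⟩ : ∃ B : Fin r → AlgebraicClosure κ, ∀ i, B i =
    tr p L ((h i).eval₂ (algebraMap κ (AlgebraicClosure κ)) t) := ⟨_, fun _ => rfl⟩
  simp only [← hA] at hAp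
  simp only [← hB] at hBp
  have hnatp : ∀ n : ℕ, ((n : ℕ) : AlgebraicClosure κ) ^ p = (n : AlgebraicClosure κ) := by
    intro n
    exact map_natCast (frobenius (AlgebraicClosure κ) p) n
  have h5 : ∀ v : (Fin m → Fin p) × (Fin r → Fin p),
      tr p L (ev2 t x (combL F h v) * x⁻¹) =
      ∑ j, ((v.1 j : ℕ) : AlgebraicClosure κ) * A j +
      ∑ i, ((v.2 i : ℕ) : AlgebraicClosure κ) * B i := by
    intro c
    rw [ev2_combL F h c hx0, tr_add, tr_sum, tr_sum]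
    congr 1
    · exact Finset.sum_congr rfl fun i _ => by rw [hA]; exact tr_nat L _ _
    · exact Finset.sum_congr rfl fun i _ => by rw [hB]; exact tr_nat L _ _
  simp only [hcnt, h5, ← hA, ← hB]
  have hcA : ∀ c : Fin m → Fin p, (∑ j, ((c j : ℕ) : AlgebraicClosure κ) * A j) ^ p =
      ∑ j, ((c j : ℕ) : AlgebraicClosure κ) * A j := by
    intro c
    have h7 := map_sum (frobenius (AlgebraicClosure κ) p)
      (fun j => ((c j : ℕ) : AlgebraicClosure κ) * A j) Finset.univ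
    rw [frobenius_def] at h7
    rw [h7]
    refine Finset.sum_congr rfl fun j _ => ?_
    rw [frobenius_def, mul_pow, hnatp, hAp]
  rw [sum_Ix hp.1.pos (fun v => 1 - if ∑ j, ((v.1 j : ℕ) : AlgebraicClosure κ) * A j +
      ∑ i, ((v.2 i : ℕ) : AlgebraicClosure κ) * B i = 0 then (p : ℚ) else 0)]
  simp only
  have h8 : ∀ c : Fin m → Fin p, ∑ d : Fin r → Fin p,
      (1 - if ∑ j, ((c j : ℕ) : AlgebraicClosure κ) * A j +
      ∑ i, ((d i : ℕ) : AlgebraicClosure κ) * B i = 0 then (p : ℚ) else 0) =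
      (∏ i, if B i = 0 then (p : ℚ) else 0) *
        (1 - if ∑ j, ((c j : ℕ) : AlgebraicClosure κ) * A j = 0 then (p : ℚ) else 0) :=
    fun c => sum_all (p := p) r B hBp _ (hcA c)
  have h9 : ∑ c : Fin m → Fin p, (1 - if ∑ j, ((c j : ℕ) : AlgebraicClosure κ) * A j = 0
      then (p : ℚ) else 0) = (∏ j, if A j = 0 then (p : ℚ) else 0) * (1 - (p : ℚ)) := by
    have h10 := sum_all (p := p) m A hAp 0 (by rw [zero_pow hp.1.ne_zero])
    simp only [zero_add, if_true] at h10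
    exact h10
  have h11 : ∑ d : Fin r → Fin p, (1 - if ∑ j : Fin m, (((0 : ℕ)) : AlgebraicClosure κ) * A j +
      ∑ i, ((d i : ℕ) : AlgebraicClosure κ) * B i = 0 then (p : ℚ) else 0) =
      (∏ i, if B i = 0 then (p : ℚ) else 0) * (1 - (p : ℚ)) := by
    have h12 := sum_all (p := p) r B hBp 0 (by rw [zero_pow hp.1.ne_zero])
    simp only [if_true] at h12
    simp only [Nat.cast_zero, zero_mul, Finset.sum_const_zero]
    exact h12
  rw [Finset.sum_congr rfl fun c _ => h8 c, ← Finset.mul_sum, h9, h11]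
  ring

end Lau

end Pool.Agent.N867.AS
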