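import Pool.Agent.N867.AS.K2
import Pool.Agent.N867.AS.G4

/-!
# Reductions with respect to integral weights
-/

set_option autoImplicit false
set_option linter.unusedSectionVars false

namespace Pool.Agent.N867.AS

namespace Lau

open Res Tr MvPolynomial GW

variable {p : ℕ} [hp : Fact p.Prime] {σ : Type} [Fintype σ] [DecidableEq σ]

/-- integral weight of an exponent -/
def wz (ω : σ → ℤ) (v : σ →₀ ℕ) : ℤ := ∑ i, ω i * (v i : ℤ)

theorem wz_add (ω : σ → ℤ) (v w : σ →₀ ℕ) : wz ω (v + w) = wz ω v + wz ω w := by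
  unfold wz
  rw [← Finset.sum_add_distrib]
  refine Finset.sum_congr rfl fun i _ => ?_
  rw [Finsupp.add_apply]
  push_cast
  ring

theorem wz_smul (ω : σ → ℤ) (n : ℕ) (v : σ →₀ ℕ) : wz ω (n • v) = n * wz ω v := by
  unfold wz
  rw [Finset.mul_sum]
  refine Finset.sum_congr rfl fun i _ => ?_
  rw [Finsupp.smul_apply, smul_eq_mul]
  push_cast
  ring

theorem wz_zero (ω : σ → ℤ) : wz ω 0 = 0 := by
  unfold wz
  simp

theorem wz_single (ω : σ → ℤ) (i : σ) : wz ω (Finsupp.single i 1) = ω i := by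
  unfold wz
  rw [Finset.sum_eq_single i]
  · simp
  · intro j _ hj
    rw [Finsupp.single_apply, if_neg (Ne.symm hj)]
    simp
  · intro h
    exact absurd (Finset.mem_univ _) h

variable {ω : σ → ℤ}

/-- `A` has weighted reduction `A'` with shift `e` -/
def RMZ (ω : σ → ℤ) (τ : PadicAlgCl p) (e : ℤ) (A : MvPolynomial σ (PadicAlgCl p))
    (A' : MvPolynomial σ (k p)) : Prop :=
  ∀ v, ‖coeff v A / τ ^ (wz ω v - e)‖ ≤ 1 ∧ red p (coeff v A / τ ^ (wz ω v - e)) = coeff v A'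

theorem RMZ.mul {τ : PadicAlgCl p} (hτ : τ ≠ 0) {e e' : ℤ} {A B : MvPolynomial σ (PadicAlgCl p)}
    {A' B' : MvPolynomial σ (k p)} (hA : RMZ ω τ e A A') (hB : RMZ ω τ e' B B') :
    RMZ ω τ (e + e') (A * B) (A' * B') := by
  intro v
  have hle : ∀ x ∈ Finset.HasAntidiagonal.antidiagonal v,
      ‖coeff x.1 A / τ ^ (wz ω x.1 - e) * (coeff x.2 B / τ ^ (wz ω x.2 - e'))‖ ≤ 1 := by
    intro x _
    rw [norm_mul]
    exact mul_le_one₀ (hA _).1 (norm_nonneg _) (hB _).1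
  have hsum : coeff v (A * B) / τ ^ (wz ω v - (e + e')) =
      ∑ x ∈ Finset.HasAntidiagonal.antidiagonal v,
      coeff x.1 A / τ ^ (wz ω x.1 - e) * (coeff x.2 B / τ ^ (wz ω x.2 - e')) := by
    rw [coeff_mul, Finset.sum_div]
    refine Finset.sum_congr rfl fun x hx => ?_
    rw [Finset.HasAntidiagonal.mem_antidiagonal] at hx
    rw [div_mul_div_comm, ← zpow_add₀ hτ, ← hx, wz_add]
    congr 2
    ring
  constructor
  · rw [hsum]
    exact IsUltrametricDist.norm_sum_le_of_forall_le_of_nonneg zero_le_one hle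
  · rw [hsum, red_sum _ hle, coeff_mul]
    refine Finset.sum_congr rfl fun x _ => ?_
    rw [red_mul (hA _).1 (hB _).1, (hA _).2, (hB _).2]

theorem RMZ.one {τ : PadicAlgCl p} : RMZ ω τ 0 (1 : MvPolynomial σ (PadicAlgCl p)) 1 := by
  classical
  intro v
  rw [coeff_one, coeff_one]
  by_cases h : 0 = v
  · rw [if_pos h, if_pos h, ← h, wz_zero, sub_zero, zpow_zero, div_one, norm_one, red_one]
    exact ⟨le_rfl, rfl⟩
  · rw [if_neg h, if_neg h, zero_div, norm_zero, red_zero]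
    exact ⟨zero_le_one, rfl⟩

theorem RMZ.prod {τ : PadicAlgCl p} (hτ : τ ≠ 0) {ι : Type*} (S : Finset ι) {e : ℤ}
    {A : ι → MvPolynomial σ (PadicAlgCl p)} {A' : ι → MvPolynomial σ (k p)}
    (h : ∀ i ∈ S, RMZ ω τ e (A i) (A' i)) :
    RMZ ω τ (S.card * e) (∏ i ∈ S, A i) (∏ i ∈ S, A' i) := by
  classical
  induction S using Finset.induction_on with
  | empty => simpa using RMZ.one
  | insert a S ha ih =>
    rw [Finset.prod_insert ha, Finset.prod_insert ha, Finset.card_insert_of_notMem ha]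
    have h1 := (h a (Finset.mem_insert_self a S)).mul hτ
      (ih fun i hi => h i (Finset.mem_insert_of_mem hi))
    convert h1 using 1
    push_cast
    ring

theorem RMZ.X_pow {τ : PadicAlgCl p} (i₀ : σ) (n : ℕ) :
    RMZ ω τ (n * ω i₀) (X i₀ ^ n : MvPolynomial σ (PadicAlgCl p)) (X i₀ ^ n) := by
  classical
  intro v
  rw [coeff_X_pow, coeff_X_pow]
  by_cases h : Finsupp.single i₀ n = v
  · have h1 : wz ω v = n * ω i₀ := by
      rw [← h]
      have h2 : (Finsupp.single i₀ n : σ →₀ ℕ) = n • Finsupp.single i₀ 1 := by simp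
      rw [h2, wz_smul, wz_single]
    rw [if_pos h, if_pos h, h1, sub_self, zpow_zero, div_one, norm_one, red_one]
    exact ⟨le_rfl, rfl⟩
  · rw [if_neg h, if_neg h, zero_div, norm_zero, red_zero]
    exact ⟨zero_le_one, rfl⟩

/-- the reduced polynomials -/
noncomputable def Lq (p : ℕ) [Fact p.Prime] (i₀ : σ) (ω : σ → ℤ) (M N : ℕ) (μ : σ →₀ ℕ)
    (c : k p) : MvPolynomial σ (k p) :=
  ∑ n ∈ Finset.range N, monomial (n • μ + (N - n) • Finsupp.single i₀ 1)
    (if wz ω μ - ω i₀ = M ∨ n = 0 then ah p n * c ^ n else 0)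

theorem term_red {τ γ : PadicAlgCl p} {M : ℕ} (hτ : τ ≠ 0) (hτ1 : ‖τ‖ < 1) (hτγ : τ ^ M = γ)
    {d : ℤ} (hd : d ≤ M) {c : PadicAlgCl p} (hc : ‖c‖ ≤ 1) (n : ℕ) :
    ‖PowerSeries.coeff n (AH p (1 : PadicAlgCl p)) * γ ^ n * c ^ n / τ ^ (n * d)‖ ≤ 1 ∧
      red p (PowerSeries.coeff n (AH p (1 : PadicAlgCl p)) * γ ^ n * c ^ n / τ ^ (n * d)) =
        if d = M ∨ n = 0 then ah p n * red p c ^ n else 0 := by
  obtain ⟨q, hq⟩ : ∃ q : ℕ, (q : ℤ) = M - d := ⟨(M - d).toNat, Int.toNat_of_nonneg (by omega)⟩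
  have h1 : PowerSeries.coeff n (AH p (1 : PadicAlgCl p)) * γ ^ n * c ^ n / τ ^ (n * d) =
      PowerSeries.coeff n (AH p (1 : PadicAlgCl p)) * c ^ n * τ ^ (n * q) := by
    rw [div_eq_iff (zpow_ne_zero _ hτ), mul_assoc _ (τ ^ (n * q)), ← zpow_natCast τ (n * q),
      ← zpow_add₀ hτ, ← hτγ]
    have h2 : (((n * q : ℕ) : ℤ) + n * d) = ((M * n : ℕ) : ℤ) := by
      push_cast
      rw [hq]
      ring
    rw [h2, zpow_natCast, pow_mul]
    ring
  have h2 : ‖PowerSeries.coeff n (AH p (1 : PadicAlgCl p)) * c ^ n‖ ≤ 1 := by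
    rw [norm_mul, norm_pow]
    exact mul_le_one₀ (hE n) (by positivity) (pow_le_one₀ (norm_nonneg _) hc)
  have h3 : ‖τ ^ (n * q)‖ ≤ 1 := by
    rw [norm_pow]
    exact pow_le_one₀ (norm_nonneg _) hτ1.le
  rw [h1]
  constructor
  · rw [norm_mul]
    exact mul_le_one₀ h2 (norm_nonneg _) h3
  · rw [red_mul h2 h3, red_mul (hE n) (by
      rw [norm_pow]
      exact pow_le_one₀ (norm_nonneg _) hc), red_pow hc]
    split_ifs with h
    · have h4 : n * q = 0 := by
        rcases h with h | h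
        · have : q = 0 := by
            have : (q : ℤ) = 0 := by rw [hq, h, sub_self]
            exact_mod_cast this
          rw [this, mul_zero]
        · rw [h, zero_mul]
      rw [h4, pow_zero, red_one, mul_one]
      rfl
    · push Not at h
      have h4 : n * q ≠ 0 := by
        refine mul_ne_zero h.2 fun h5 => h.1 ?_
        rw [h5] at hq
        push_cast at hq
        omega
      have h5 : ‖τ ^ (n * q)‖ < 1 := by
        rw [norm_pow]
        exact pow_lt_one₀ (norm_nonneg _) hτ1 h4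
      rw [(red_eq_zero h5.le).2 h5, mul_zero]

theorem RMZ_Lp {τ γ : PadicAlgCl p} {M : ℕ} (hτ : τ ≠ 0) (hτ1 : ‖τ‖ < 1) (hτγ : τ ^ M = γ)
    (i₀ : σ) {N : ℕ} {μ : σ →₀ ℕ} (hμ : wz ω μ - ω i₀ ≤ M) {c : PadicAlgCl p} (hc : ‖c‖ ≤ 1) :
    RMZ ω τ (N * ω i₀) (Lp i₀ N γ μ c) (Lq p i₀ ω M N μ (red p c)) := by
  classical
  intro v
  have hterm : ∀ n ∈ Finset.range N,
      (if n • μ + (N - n) • Finsupp.single i₀ 1 = v then
        PowerSeries.coeff n (AH p (1 : PadicAlgCl p)) * γ ^ n * c ^ n else 0) /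
          τ ^ (wz ω v - N * ω i₀) =
      (if n • μ + (N - n) • Finsupp.single i₀ 1 = v then
        PowerSeries.coeff n (AH p (1 : PadicAlgCl p)) * γ ^ n * c ^ n /
          τ ^ (n * (wz ω μ - ω i₀)) else 0) := by
    intro n hn
    have hn' := Finset.mem_range.1 hn
    split_ifs with h
    · congr 2
      rw [← h, wz_add, wz_smul, wz_smul, wz_single]
      push_cast [Nat.cast_sub hn'.le]
      ring
    · rw [zero_div]
  have hsum : coeff v (Lp i₀ N γ μ c) / τ ^ (wz ω v - N * ω i₀) = ∑ n ∈ Finset.range N,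
      (if n • μ + (N - n) • Finsupp.single i₀ 1 = v then
        PowerSeries.coeff n (AH p (1 : PadicAlgCl p)) * γ ^ n * c ^ n /
          τ ^ (n * (wz ω μ - ω i₀)) else 0) := by
    rw [Lp, coeff_sum, Finset.sum_div, ← Finset.sum_congr rfl hterm]
    refine Finset.sum_congr rfl fun n _ => ?_
    rw [coeff_monomial]
  have hle : ∀ n ∈ Finset.range N, ‖(if n • μ + (N - n) • Finsupp.single i₀ 1 = v then
        PowerSeries.coeff n (AH p (1 : PadicAlgCl p)) * γ ^ n * c ^ n /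
          τ ^ (n * (wz ω μ - ω i₀)) else 0)‖ ≤ 1 := by
    intro n _
    split_ifs
    · exact (term_red hτ hτ1 hτγ hμ hc n).1
    · rw [norm_zero]
      exact zero_le_one
  constructor
  · rw [hsum]
    exact IsUltrametricDist.norm_sum_le_of_forall_le_of_nonneg zero_le_one hle
  · rw [hsum, red_sum _ hle, Lq, coeff_sum]
    refine Finset.sum_congr rfl fun n _ => ?_
    rw [coeff_monomial]
    by_cases h : n • μ + (N - n) • Finsupp.single i₀ 1 = v
    · rw [if_pos h, if_pos h]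
      exact (term_red hτ hτ1 hτγ hμ hc n).2
    · rw [if_neg h, if_neg h, red_zero]

/-- the reduction of the polynomials of the Dwork operator -/
noncomputable def LGb (p : ℕ) [Fact p.Prime] (i₀ : σ) (ω : σ → ℤ) (M N : ℕ)
    (S : Finset (σ →₀ ℕ)) (c : (σ →₀ ℕ) → k p) : MvPolynomial σ (k p) :=
  X i₀ ^ ((p - 2) * (N * S.card)) * ∏ μ ∈ S, Lq p i₀ ω M N μ (c μ)

theorem RMZ_LG {f : MvPolynomial σ (k p)} {s M : ℕ} (D : Lifts p f s) (hs : s ≠ 0)
    {τ γ : PadicAlgCl p} (hτ : τ ≠ 0) (hτ1 : ‖τ‖ < 1) (hτγ : τ ^ M = γ) (i₀ : σ)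
    (hf : ∀ μ ∈ f.support, wz ω μ - ω i₀ ≤ M) (N : ℕ) (g : Fin (p - 1) × ZMod s) :
    RMZ ω τ ((((p - 1) * (N * f.support.card) : ℕ) : ℤ) * ω i₀) (LG i₀ D N γ g)
      (LGb p i₀ ω M N f.support
        (fun μ => (((g.1 : ℕ) + 1 : ℕ) : k p) * coeff μ f ^ p ^ (g.2.val))) := by
  have hred : ∀ μ, red p (D.a g.1 * D.c μ ^ p ^ (g.2.val)) =
      (((g.1 : ℕ) + 1 : ℕ) : k p) * coeff μ f ^ p ^ (g.2.val) := by
    intro μ
    rw [red_mul (norm_a_le D _) (by
      rw [norm_pow]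
      exact pow_le_one₀ (norm_nonneg _) (norm_c_le D hs μ)), red_pow (norm_c_le D hs μ),
      D.hared, D.hred]
  have h1 := RMZ.prod (ω := ω) hτ f.support (fun μ hμ => RMZ_Lp hτ hτ1 hτγ i₀ (N := N) (hf μ hμ)
    (norm_ac D hs g μ))
  simp only [hred] at h1
  have h2 := (RMZ.X_pow (ω := ω) (τ := τ) i₀ ((p - 2) * (N * f.support.card))).mul hτ h1
  rw [LG, LGb]
  convert h2 using 1
  have h3 : p - 1 = (p - 2) + 1 := by
    have := hp.1.two_le
    omega
  rw [h3]
  push_cast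
  ring

end Lau

end Pool.Agent.N867.AS
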