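import Pool.Agent.N867.AS.K3

/-!
# Coefficients of the reductions
-/

set_option autoImplicit false
set_option linter.unusedSectionVars false

namespace Pool.Agent.N867.AS

namespace Lau

open Res Tr MvPolynomial GW

variable {p : ℕ} [hp : Fact p.Prime] {σ : Type} [Fintype σ] [DecidableEq σ] {ω : σ → ℤ}

/-- the factor of a monomial of maximal weight -/
noncomputable def Lb (p : ℕ) [Fact p.Prime] (i₀ : σ) (N : ℕ) (μ : σ →₀ ℕ) (c : k p) :
    MvPolynomial σ (k p) :=
  ∑ n ∈ Finset.range N, monomial (n • μ + (N - n) • Finsupp.single i₀ 1) (ah p n * c ^ n)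

theorem Lq_top {i₀ : σ} {M N : ℕ} {μ : σ →₀ ℕ} (h : wz ω μ - ω i₀ = M) (c : k p) :
    Lq p i₀ ω M N μ c = Lb p i₀ N μ c := by
  unfold Lq Lb
  refine Finset.sum_congr rfl fun n _ => ?_
  rw [if_pos (Or.inl h)]

theorem Lq_low {i₀ : σ} {M N : ℕ} (hN : 0 < N) {μ : σ →₀ ℕ} (h : wz ω μ - ω i₀ ≠ M) (c : k p) :
    Lq p i₀ ω M N μ c = X i₀ ^ N := by
  unfold Lq
  rw [Finset.sum_eq_single 0]
  · rw [if_pos (Or.inr rfl), ah_zero, pow_zero, mul_one, zero_smul, zero_add, Nat.sub_zero]
    simp [X_pow_eq_monomial]
  · intro n _ hn
    rw [if_neg (by tauto), monomial_zero]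
  · intro h2
    exact absurd (Finset.mem_range.2 hN) h2

theorem LGb_eq {i₀ : σ} {M N : ℕ} (hN : 0 < N) (S : Finset (σ →₀ ℕ)) (c : (σ →₀ ℕ) → k p)
    {T : Finset (σ →₀ ℕ)} (hT : ∀ μ, μ ∈ T ↔ μ ∈ S ∧ wz ω μ - ω i₀ = M) :
    ∃ q : ℕ, q + N * T.card = (p - 1) * (N * S.card) ∧
      LGb p i₀ ω M N S c = X i₀ ^ q * ∏ μ ∈ T, Lb p i₀ N μ (c μ) := by
  classical
  have hsub : T ⊆ S := fun μ hμ => ((hT μ).1 hμ).1
  refine ⟨(p - 2) * (N * S.card) + N * (S \ T).card, ?_, ?_⟩
  · have h1 := Finset.card_sdiff_add_card_eq_card hsub
    have h3 : p - 1 = (p - 2) + 1 := by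
      have := hp.1.two_le
      omega
    rw [h3, ← h1]
    ring
  · rw [LGb, ← Finset.prod_sdiff hsub, pow_add, mul_assoc]
    congr 1
    congr 1
    · rw [Finset.prod_congr rfl (g := fun _ => X i₀ ^ N), Finset.prod_const, ← pow_mul]
      intro μ hμ
      rw [Finset.mem_sdiff, hT] at hμ
      exact Lq_low hN (fun h => hμ.2 ⟨hμ.1, h⟩) _
    · refine Finset.prod_congr rfl fun μ hμ => ?_
      exact Lq_top ((hT μ).1 hμ).2 _

theorem supp_Lb {i₀ : σ} {N : ℕ} {W : ℤ} (S : Finset (σ →₀ ℕ)) (hS : ∀ μ ∈ S, wz ω μ = W)
    (c : (σ →₀ ℕ) → k p) (v : σ →₀ ℕ) (hv : coeff v (∏ μ ∈ S, Lb p i₀ N μ (c μ)) ≠ 0) :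
    ∃ (n : ℕ) (w : σ →₀ ℕ), v + n • Finsupp.single i₀ 1 =
      w + (N * S.card) • Finsupp.single i₀ 1 ∧ wz ω w = n * W := by
  classical
  induction S using Finset.induction_on generalizing v with
  | empty =>
    rw [Finset.prod_empty, coeff_one] at hv
    split_ifs at hv with h
    · refine ⟨0, 0, ?_, ?_⟩
      · rw [← h]
        simp
      · rw [wz_zero]
        simp
    · exact absurd rfl hv
  | insert μ S hμS ih =>
    rw [Finset.prod_insert hμS, coeff_mul] at hv
    obtain ⟨x, hx, hx0⟩ := Finset.exists_ne_zero_of_sum_ne_zero hv
    rw [Finset.HasAntidiagonal.mem_antidiagonal] at hx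
    obtain ⟨n, w, hw1, hw2⟩ := ih (fun μ hμ => hS μ (Finset.mem_insert_of_mem hμ)) _
      (right_ne_zero_of_mul hx0)
    have h1 := left_ne_zero_of_mul hx0
    rw [Lb, coeff_sum] at h1
    obtain ⟨m, hm', hm⟩ := Finset.exists_ne_zero_of_sum_ne_zero h1
    have hm'' := Finset.mem_range.1 hm'
    rw [coeff_monomial] at hm
    split_ifs at hm with h2
    · refine ⟨n + m, w + m • μ, ?_, ?_⟩
      · rw [Finset.card_insert_of_notMem hμS, ← hx, ← h2]
        have h3 : (N - m) • Finsupp.single i₀ 1 + m • Finsupp.single i₀ 1 =
            (N • Finsupp.single i₀ 1 : σ →₀ ℕ) := by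
          rw [← add_smul, Nat.sub_add_cancel hm''.le]
        calc m • μ + (N - m) • Finsupp.single i₀ 1 + x.2 + (n + m) • Finsupp.single i₀ 1 =
            m • μ + ((N - m) • Finsupp.single i₀ 1 + m • Finsupp.single i₀ 1) +
              (x.2 + n • Finsupp.single i₀ 1) := by
              rw [add_smul]
              abel
          _ = _ := by
              rw [h3, hw1, Nat.mul_add, mul_one, add_smul]
              abel
      · rw [wz_add, wz_smul, hw2, hS μ (Finset.mem_insert_self μ S)]
        push_cast
        ring
    · exact absurd rfl hm

/-- the multinomial formula -/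
theorem coeff_Lb {i₀ : σ} {N : ℕ} {W : ℤ} (S : Finset (σ →₀ ℕ))
    (hS : ∀ μ ∈ S, wz ω μ = W) (hW0 : W ≠ ω i₀) (hN : p ≤ N)
    (c : (σ →₀ ℕ) → k p) {n : ℕ} (hn : n < p) (v v' : σ →₀ ℕ)
    (hv : v + n • Finsupp.single i₀ 1 = v' + (N * S.card) • Finsupp.single i₀ 1)
    (hv' : wz ω v' = n * W) :
    (n.factorial : k p) * coeff v (∏ μ ∈ S, Lb p i₀ N μ (c μ)) =
      coeff v' ((∑ μ ∈ S, monomial μ (c μ)) ^ n) := by
  classical
  induction S using Finset.induction_on generalizing n v v' with
  | empty =>
    rw [Finset.prod_empty, Finset.sum_empty]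
    rw [Finset.card_empty, mul_zero, zero_smul, add_zero] at hv
    rcases Nat.eq_zero_or_pos n with rfl | hn0
    · rw [zero_smul, add_zero] at hv
      rw [Nat.factorial_zero, Nat.cast_one, one_mul, pow_zero, hv]
    · rw [zero_pow hn0.ne', coeff_zero, coeff_one, if_neg, mul_zero]
      intro h
      rw [← h, zero_add] at hv
      rw [← hv, wz_smul, wz_single] at hv'
      have h1 : (n : ℤ) ≠ 0 := by exact_mod_cast hn0.ne'
      exact hW0 (mul_left_cancel₀ h1 hv').symm
  | insert μ S hμS ih =>
    have hSM := hS μ (Finset.mem_insert_self μ S)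
    have hS' : ∀ μ ∈ S, wz ω μ = W := fun μ hμ => hS μ (Finset.mem_insert_of_mem hμ)
    have ih' := fun {n : ℕ} (hn : n < p) (v v' : σ →₀ ℕ) => ih hS' hn v v'
    rw [Finset.card_insert_of_notMem hμS] at hv
    rw [Finset.prod_insert hμS, Finset.sum_insert hμS, add_pow, Lb, Finset.sum_mul, coeff_sum,
      coeff_sum, Finset.mul_sum]
    have hsub : Finset.range (n + 1) ⊆ Finset.range N := by
      intro m hm
      rw [Finset.mem_range] at hm ⊢
      omega
    have hvi : ∀ i, v i + n * (if i₀ = i then 1 else 0) =
        v' i + (N * S.card + N) * (if i₀ = i then 1 else 0) := by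
      intro i
      have := DFunLike.congr_fun hv i
      simp only [Finsupp.add_apply, Finsupp.smul_apply, smul_eq_mul, Finsupp.single_apply,
        Nat.mul_add, mul_one] at this
      exact this
    rw [← Finset.sum_subset hsub]
    · refine Finset.sum_congr rfl fun m hm => ?_
      have hm' : m ≤ n := Nat.lt_succ_iff.1 (Finset.mem_range.1 hm)
      rw [coeff_monomial_mul', monomial_pow, mul_assoc, mul_assoc, coeff_monomial_mul']
      by_cases hle' : m • μ ≤ v'
      · rw [if_pos hle']
        have hle'i : ∀ i, m * μ i ≤ v' i := fun i => by simpa using hle' i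
        by_cases hle : m • μ + (N - m) • Finsupp.single i₀ 1 ≤ v
        · rw [if_pos hle]
          have hlei : ∀ i, m * μ i + (N - m) * (if i₀ = i then 1 else 0) ≤ v i := by
            intro i
            have := hle i
            simp only [Finsupp.add_apply, Finsupp.smul_apply, smul_eq_mul,
              Finsupp.single_apply] at this
            exact this
          have h1 := ih' (n := n - m) (by omega)
            (v - (m • μ + (N - m) • Finsupp.single i₀ 1)) (v' - m • μ) (by
              ext i
              have h2 := hvi i
              have h3 := hlei i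
              have h4 := hle'i i
              have h5 : m ≤ N := by omega
              simp only [Finsupp.add_apply, Finsupp.tsub_apply, Finsupp.smul_apply, smul_eq_mul,
                Finsupp.single_apply]
              split_ifs at h2 h3 ⊢ <;> omega) (by
              have h2 : wz ω (v' - m • μ) + wz ω (m • μ) = wz ω v' := by
                rw [← wz_add, tsub_add_cancel_of_le hle']
              rw [wz_smul, hSM, hv'] at h2
              push_cast [Nat.cast_sub hm']
              linear_combination h2)
          have h2 : coeff (v' - m • μ) ((∑ μ ∈ S, monomial μ (c μ)) ^ (n - m) *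
              ((n.choose m : ℕ) : MvPolynomial σ (k p))) =
              coeff (v' - m • μ) ((∑ μ ∈ S, monomial μ (c μ)) ^ (n - m)) * (n.choose m : k p) := by
            rw [← map_natCast (C : k p →+* MvPolynomial σ (k p)), mul_comm, coeff_C_mul, mul_comm]
          rw [h2, ← h1]
          have h3 := ah_fact (p := p) (n := m) (by omega)
          have h4 : (n.factorial : k p) = (n.choose m : k p) * (m.factorial : k p) *
              ((n - m).factorial : k p) := by
            rw [← Nat.choose_mul_factorial_mul_factorial hm']
            push_cast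
            ring
          rw [h4]
          linear_combination (n.choose m : k p) * ((n - m).factorial : k p) * c μ ^ m *
            coeff (v - (m • μ + (N - m) • Finsupp.single i₀ 1))
              (∏ μ ∈ S, Lb p i₀ N μ (c μ)) * h3
        · rw [if_neg hle, mul_zero]
          -- `S` is empty
          have hSe : S = ∅ := by
            by_contra hne
            have hc : 1 ≤ S.card := Finset.card_pos.2 (Finset.nonempty_iff_ne_empty.2 hne)
            apply hle
            intro i
            have h2 := hvi i
            have h4 := hle'i i
            have h5 : N ≤ N * S.card := by nlinarith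
            simp only [Finsupp.add_apply, Finsupp.smul_apply, smul_eq_mul,
              Finsupp.single_apply]
            split_ifs at h2 ⊢ <;> omega
          have hmn : m < n := by
            rcases hm'.lt_or_eq with h | h
            · exact h
            · exfalso
              apply hle
              intro i
              have h2 := hvi i
              have h4 := hle'i i
              simp only [Finsupp.add_apply, Finsupp.smul_apply, smul_eq_mul,
                Finsupp.single_apply]
              rw [hSe, Finset.card_empty, mul_zero, zero_add] at h2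
              split_ifs at h2 ⊢ <;> omega
          rw [hSe, Finset.sum_empty, zero_pow (by omega), zero_mul, coeff_zero, mul_zero]
      · rw [if_neg hle']
        by_cases hle : m • μ + (N - m) • Finsupp.single i₀ 1 ≤ v
        · rw [if_pos hle]
          have hlei : ∀ i, m * μ i + (N - m) * (if i₀ = i then 1 else 0) ≤ v i := by
            intro i
            have := hle i
            simp only [Finsupp.add_apply, Finsupp.smul_apply, smul_eq_mul,
              Finsupp.single_apply] at this
            exact this
          by_cases h0 : coeff (v - (m • μ + (N - m) • Finsupp.single i₀ 1))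
              (∏ μ ∈ S, Lb p i₀ N μ (c μ)) = 0
          · rw [h0]
            simp
          · exfalso
            obtain ⟨n₁, w, hw1, hw2⟩ := supp_Lb S hS' c _ h0
            have hw1i : ∀ i, v i - (m * μ i + (N - m) * (if i₀ = i then 1 else 0)) +
                n₁ * (if i₀ = i then 1 else 0) = w i + N * S.card * (if i₀ = i then 1 else 0) := by
              intro i
              have := DFunLike.congr_fun hw1 i
              simp only [Finsupp.add_apply, Finsupp.tsub_apply, Finsupp.smul_apply, smul_eq_mul,
                Finsupp.single_apply] at this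
              exact this
            have hkey : v' + n₁ • Finsupp.single i₀ 1 + m • Finsupp.single i₀ 1 =
                w + m • μ + n • Finsupp.single i₀ 1 := by
              ext i
              have h2 := hvi i
              have h3 := hlei i
              have h4 := hw1i i
              have h5 : m ≤ N := by omega
              simp only [Finsupp.add_apply, Finsupp.smul_apply, smul_eq_mul,
                Finsupp.single_apply]
              split_ifs at h2 h3 h4 ⊢ <;> omega
            have h6 := congrArg (wz ω) hkey
            simp only [wz_add, wz_smul, wz_single, hw2, hv', hSM] at h6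
            have h7 : ((n : ℤ) - m - n₁) * (W - ω i₀) = 0 := by linear_combination h6
            have h8 := (mul_eq_zero.1 h7).resolve_right (sub_ne_zero.2 hW0)
            have h9 : n = n₁ + m := by omega
            apply hle'
            intro i
            have h10 := DFunLike.congr_fun hkey i
            simp only [Finsupp.add_apply, Finsupp.smul_apply, smul_eq_mul,
              Finsupp.single_apply] at h10 ⊢
            split_ifs at h10 <;> omega
        · rw [if_neg hle, mul_zero]
    · intro m hmN hm
      have hmn : n < m := by
        rw [Finset.mem_range] at hm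
        omega
      rw [coeff_monomial_mul']
      split_ifs with hle
      · have hlei : ∀ i, m * μ i + (N - m) * (if i₀ = i then 1 else 0) ≤ v i := by
          intro i
          have := hle i
          simp only [Finsupp.add_apply, Finsupp.smul_apply, smul_eq_mul,
            Finsupp.single_apply] at this
          exact this
        by_cases h0 : coeff (v - (m • μ + (N - m) • Finsupp.single i₀ 1))
            (∏ μ ∈ S, Lb p i₀ N μ (c μ)) = 0
        · rw [h0, mul_zero, mul_zero]
        · exfalso
          obtain ⟨n₁, w, hw1, hw2⟩ := supp_Lb S hS' c _ h0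
          have hw1i : ∀ i, v i - (m * μ i + (N - m) * (if i₀ = i then 1 else 0)) +
              n₁ * (if i₀ = i then 1 else 0) = w i + N * S.card * (if i₀ = i then 1 else 0) := by
            intro i
            have := DFunLike.congr_fun hw1 i
            simp only [Finsupp.add_apply, Finsupp.tsub_apply, Finsupp.smul_apply, smul_eq_mul,
              Finsupp.single_apply] at this
            exact this
          have hmN' := Finset.mem_range.1 hmN
          have hkey : v' + n₁ • Finsupp.single i₀ 1 + m • Finsupp.single i₀ 1 =
              w + m • μ + n • Finsupp.single i₀ 1 := by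
            ext i
            have h2 := hvi i
            have h3 := hlei i
            have h4 := hw1i i
            simp only [Finsupp.add_apply, Finsupp.smul_apply, smul_eq_mul,
              Finsupp.single_apply]
            split_ifs at h2 h3 h4 ⊢ <;> omega
          have h6 := congrArg (wz ω) hkey
          simp only [wz_add, wz_smul, wz_single, hw2, hv', hSM] at h6
          have h7 : ((n : ℤ) - m - n₁) * (W - ω i₀) = 0 := by linear_combination h6
          have h8 := (mul_eq_zero.1 h7).resolve_right (sub_ne_zero.2 hW0)
          omega
      · rw [mul_zero]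

end Lau

end Pool.Agent.N867.AS
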