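import Pool.Agent.N867.AS.M2

/-!
# Reductions with norms
-/

set_option autoImplicit false
set_option linter.unusedSectionVars false

namespace Pool.Agent.N867.AS

namespace RedS

open PowerSeries Res

variable {p : ℕ} [hp : Fact p.Prime]

theorem Red.one : Red (1 : PowerSeries (PadicAlgCl p)) 1 1 := by
  refine Red.near ?_ fun m hm => ?_
  · rw [coeff_one, if_pos rfl]
  · rw [coeff_one, if_neg hm, norm_zero]
    exact one_pos

theorem Red.prod {ι : Type*} (S : Finset ι) {F : ι → PowerSeries (PadicAlgCl p)}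
    {c : ι → PadicAlgCl p} {G : ι → PowerSeries (k p)} (h : ∀ i ∈ S, Red (F i) (c i) (G i)) :
    Red (∏ i ∈ S, F i) (∏ i ∈ S, c i) (∏ i ∈ S, G i) := by
  classical
  induction S using Finset.induction_on with
  | empty => simpa using Red.one
  | insert a S ha ih =>
    rw [Finset.prod_insert ha, Finset.prod_insert ha, Finset.prod_insert ha]
    exact (h a (Finset.mem_insert_self a S)).mul
      (ih fun i hi => h i (Finset.mem_insert_of_mem hi))

/-- reduction of a product of `1 - λ X^s` -/
theorem red_multiset2 (s : ℕ) (hs : s ≠ 0) (L : Multiset (PadicAlgCl p)) [DecidableEq ℝ]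
    [DecidablePred fun l : PadicAlgCl p => 1 < ‖l‖] :
    ∃ (c : PadicAlgCl p) (a : ℕ), a ≤ s * L.card ∧
      ‖c‖ = ((L.filter fun l => 1 < ‖l‖).map fun l => ‖l‖).prod ∧
      Red ((L.map fun l => (1 - C l * X ^ s : PowerSeries (PadicAlgCl p))).prod) c
      (X ^ a * ((L.filter fun l => ‖l‖ = 1).map fun l =>
        (1 - C (red p l) * X ^ s : PowerSeries (k p))).prod) := by
  induction L using Multiset.induction_on with
  | empty =>
    refine ⟨1, 0, le_of_eq (by simp), by simp, ?_⟩
    simp only [Multiset.map_zero, Multiset.prod_zero, Multiset.filter_zero, pow_zero, mul_one]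
    exact Red.one
  | cons l L ih =>
    obtain ⟨c, a, ha, hc, h⟩ := ih
    rw [Multiset.map_cons, Multiset.prod_cons, Multiset.card_cons, mul_add, mul_one]
    rcases lt_trichotomy ‖l‖ 1 with h1 | h1 | h1
    · refine ⟨1 * c, a, by omega, ?_, ?_⟩
      · rw [one_mul, Multiset.filter_cons_of_neg (p := fun l : PadicAlgCl p => 1 < ‖l‖) _
          (not_lt.2 h1.le), hc]
      rw [Multiset.filter_cons_of_neg (p := fun l : PadicAlgCl p => ‖l‖ = 1) _ h1.ne]
      have h2 : Red (1 - C l * X ^ s : PowerSeries (PadicAlgCl p)) 1 1 := by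
        refine Red.near ?_ fun m hm => ?_
        · rw [map_sub, coeff_one, if_pos rfl, coeff_C_mul, coeff_X_pow, if_neg hs.symm, mul_zero,
            sub_zero]
        · rw [map_sub, coeff_one, if_neg hm, coeff_C_mul, coeff_X_pow, zero_sub, norm_neg,
            norm_mul]
          split_ifs
          · rw [norm_one, mul_one]
            exact h1
          · rw [norm_zero, mul_zero]
            exact one_pos
      have h3 := h2.mul h
      rwa [one_mul (X ^ a * _)] at h3
    · refine ⟨1 * c, a, by omega, ?_, ?_⟩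
      · rw [one_mul, Multiset.filter_cons_of_neg (p := fun l : PadicAlgCl p => 1 < ‖l‖) _
          (not_lt.2 h1.le), hc]
      rw [Multiset.filter_cons_of_pos (p := fun l : PadicAlgCl p => ‖l‖ = 1) _ h1, Multiset.map_cons, Multiset.prod_cons]
      have h3 := (Red.one_sub h1 hs).mul h
      have h4 : (1 - C (red p l) * X ^ s : PowerSeries (k p)) * (X ^ a *
          ((L.filter fun l => ‖l‖ = 1).map fun l =>
            (1 - C (red p l) * X ^ s : PowerSeries (k p))).prod) =
          X ^ a * ((1 - C (red p l) * X ^ s : PowerSeries (k p)) *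
          ((L.filter fun l => ‖l‖ = 1).map fun l =>
            (1 - C (red p l) * X ^ s : PowerSeries (k p))).prod) := by ring
      rw [← h4]
      exact h3
    · refine ⟨-l * c, s + a, by omega, ?_, ?_⟩
      · rw [norm_mul, norm_neg, Multiset.filter_cons_of_pos (p := fun l : PadicAlgCl p => 1 < ‖l‖)
          _ h1, hc, Multiset.map_cons, Multiset.prod_cons]
      rw [Multiset.filter_cons_of_neg (p := fun l : PadicAlgCl p => ‖l‖ = 1) _ h1.ne']
      have h3 := (Red.big h1 hs).mul h
      rw [pow_add, mul_assoc]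
      exact h3

/-- comparison -/
theorem compare2 {U V Z : PowerSeries (PadicAlgCl p)} {c c' : PadicAlgCl p}
    {G G' : PowerSeries (k p)} {n₀ : ℕ} (hU : Red U c G) (hV : Red V c' G') (hUV : U = V * Z)
    (hZ0 : coeff 0 Z = 1) (hZ : ∀ m, m ≠ 0 → m ≤ n₀ → ‖coeff m Z‖ < 1)
    (hG : ∃ n ≤ n₀, coeff n G ≠ 0) (hG' : ∃ n ≤ n₀, coeff n G' ≠ 0) :
    ‖c‖ = ‖c'‖ ∧ ∃ w : k p, w ≠ 0 ∧ ∀ n ≤ n₀, coeff n G' = w * coeff n G := by
  -- truncation of `Z`
  obtain ⟨Z', hZ'⟩ : ∃ Z' : PowerSeries (PadicAlgCl p), ∀ m, coeff m Z' =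
    if m ≤ n₀ then coeff m Z else 0 :=
    ⟨PowerSeries.mk fun m => if m ≤ n₀ then coeff m Z else 0, fun m => coeff_mk _ _⟩
  have hZred : Red Z' 1 1 := by
    refine Red.near ?_ fun m hm => ?_
    · rw [hZ', if_pos (Nat.zero_le _), hZ0]
    · rw [hZ']
      split_ifs with h
      · exact hZ m hm h
      · rw [norm_zero]
        exact one_pos
  have hVZ := hV.mul hZred
  rw [mul_one, mul_one] at hVZ
  have hcoef : ∀ n ≤ n₀, coeff n U = coeff n (V * Z') := by
    intro n hn
    rw [hUV, coeff_mul, coeff_mul]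
    refine Finset.sum_congr rfl fun x hx => ?_
    rw [Finset.HasAntidiagonal.mem_antidiagonal] at hx
    rw [hZ', if_pos (by omega)]
  have hfull : ∀ {W : PowerSeries (PadicAlgCl p)} {c : PadicAlgCl p} {G : PowerSeries (k p)}
      (_ : Red W c G) {n : ℕ}, coeff n G ≠ 0 → ‖coeff n W‖ = ‖c‖ := by
    intro W c G hW n hn
    refine le_antisymm (hW.2 n).1 ?_
    by_contra h
    push Not at h
    apply hn
    rw [← (hW.2 n).2, red_eq_zero (norm_div_le hW.1 (hW.2 n).1), norm_div,
      div_lt_one (norm_pos_iff.2 hW.1)]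
    exact h
  obtain ⟨a, ha, hGa⟩ := hG
  obtain ⟨b, hb, hGb⟩ := hG'
  have h1 : ‖c‖ ≤ ‖c'‖ := by
    rw [← hfull hU hGa, hcoef a ha]
    exact (hVZ.2 a).1
  have h2 : ‖c'‖ ≤ ‖c‖ := by
    rw [← hfull hVZ hGb, ← hcoef b hb]
    exact (hU.2 b).1
  have h3 : ‖c / c'‖ ≤ 1 := norm_div_le hV.1 h1
  refine ⟨le_antisymm h1 h2, red p (c / c'), ?_, fun n hn => ?_⟩
  · rw [Ne, red_eq_zero h3, norm_div, div_lt_one (norm_pos_iff.2 hV.1), not_lt]
    exact h2
  · rw [← (hVZ.2 n).2, ← (hU.2 n).2, ← red_mul h3 (norm_div_le hU.1 (hU.2 n).1), hcoef n hn]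
    congr 1
    have := hU.1
    have := hV.1
    field_simp

/-- the norms of the values `1 - l` -/
theorem norm_one_sub (Λ : Multiset (PadicAlgCl p)) [DecidableEq ℝ] [DecidableEq (k p)]
    [DecidableEq (PadicAlgCl p)] [DecidablePred fun l : PadicAlgCl p => 1 < ‖l‖] :
    ∃ B : ℝ, ((Λ.filter fun l => l ≠ 1).map fun l => ‖1 - l‖).prod =
      ((Λ.filter fun l => 1 < ‖l‖).map fun l => ‖l‖).prod * B ∧ 0 < B ∧
      ((B = 1 ∧ ((Λ.filter fun l => ‖l‖ = 1).map (red p)).count 1 = Λ.count 1) ∨
       (B < 1 ∧ Λ.count 1 < ((Λ.filter fun l => ‖l‖ = 1).map (red p)).count 1)) := by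
  induction Λ using Multiset.induction_on with
  | empty => exact ⟨1, by simp, one_pos, Or.inl ⟨rfl, by simp⟩⟩
  | cons l Λ ih =>
    obtain ⟨B, h1, h2, h3⟩ := ih
    by_cases hl1 : l = 1
    · subst hl1
      refine ⟨B, ?_, h2, ?_⟩
      · rw [Multiset.filter_cons_of_neg (p := fun l : PadicAlgCl p => l ≠ 1) _ (by simp),
          Multiset.filter_cons_of_neg (p := fun l : PadicAlgCl p => 1 < ‖l‖) _ (by simp), h1]
      · rw [Multiset.filter_cons_of_pos (p := fun l : PadicAlgCl p => ‖l‖ = 1) _ norm_one,
          Multiset.map_cons, Multiset.count_cons, Multiset.count_cons, if_pos rfl, red_one,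
          if_pos rfl]
        rcases h3 with ⟨h3, h4⟩ | ⟨h3, h4⟩
        · exact Or.inl ⟨h3, by omega⟩
        · exact Or.inr ⟨h3, by omega⟩
    · have hcount : (l ::ₘ Λ).count 1 = Λ.count 1 := by
        rw [Multiset.count_cons, if_neg (fun h => hl1 h.symm), add_zero]
      have hsub : 1 - l ≠ 0 := sub_ne_zero.2 (fun h => hl1 h.symm)
      rw [Multiset.filter_cons_of_pos (p := fun l : PadicAlgCl p => l ≠ 1) _ hl1,
        Multiset.map_cons, Multiset.prod_cons, h1, hcount]
      rcases lt_trichotomy ‖l‖ 1 with hl | hl | hl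
      · refine ⟨B, ?_, h2, ?_⟩
        · rw [Multiset.filter_cons_of_neg (p := fun l : PadicAlgCl p => 1 < ‖l‖) _
            (not_lt.2 hl.le)]
          have h5 : ‖1 - l‖ = 1 := by
            rw [sub_eq_add_neg, IsUltrametricDist.norm_add_eq_max_of_norm_ne_norm
              (by rw [norm_one, norm_neg]; exact hl.ne'), norm_one, norm_neg, max_eq_left hl.le]
          rw [h5, one_mul]
        · rw [Multiset.filter_cons_of_neg (p := fun l : PadicAlgCl p => ‖l‖ = 1) _ hl.ne]
          exact h3
      · have h5 : ‖1 - l‖ ≤ 1 := by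
          rw [sub_eq_add_neg]
          refine (IsUltrametricDist.norm_add_le_max _ _).trans ?_
          rw [norm_one, norm_neg, hl, max_self]
        have h6 : 0 < ‖1 - l‖ := norm_pos_iff.2 hsub
        rw [Multiset.filter_cons_of_neg (p := fun l : PadicAlgCl p => 1 < ‖l‖) _ (not_lt.2 hl.le),
          Multiset.filter_cons_of_pos (p := fun l : PadicAlgCl p => ‖l‖ = 1) _ hl,
          Multiset.map_cons, Multiset.count_cons]
        refine ⟨‖1 - l‖ * B, by ring, mul_pos h6 h2, ?_⟩
        have hB1 : B ≤ 1 := by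
          rcases h3 with h3 | h3
          · exact h3.1.le
          · exact h3.1.le
        by_cases hr : red p l = 1
        · rw [if_pos hr.symm]
          have h7 : ‖1 - l‖ < 1 := by
            rw [← red_eq_zero h5]
            have h8 : red p (1 - l) + red p l = red p 1 := by
              rw [← red_add h5 hl.le, sub_add_cancel]
            rw [red_one, hr] at h8
            have := congrArg (fun x => x - 1) h8
            simpa using this
          right
          refine ⟨mul_lt_one_of_nonneg_of_lt_one_left (norm_nonneg _) h7 hB1, ?_⟩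
          rcases h3 with h3 | h3
          · omega
          · omega
        · rw [if_neg (fun h => hr h.symm), add_zero]
          have h7 : ‖1 - l‖ = 1 := by
            refine le_antisymm h5 ?_
            by_contra h8
            push Not at h8
            apply hr
            rw [← red_eq_zero h5] at h8
            have h9 : red p (1 - l) + red p l = red p 1 := by
              rw [← red_add h5 hl.le, sub_add_cancel]
            rw [red_one, h8, zero_add] at h9
            exact h9
          rw [h7, one_mul]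
          exact h3
      · refine ⟨B, ?_, h2, ?_⟩
        · rw [Multiset.filter_cons_of_pos (p := fun l : PadicAlgCl p => 1 < ‖l‖) _ hl,
            Multiset.map_cons, Multiset.prod_cons]
          have h5 : ‖1 - l‖ = ‖l‖ := by
            rw [sub_eq_add_neg, IsUltrametricDist.norm_add_eq_max_of_norm_ne_norm
              (by rw [norm_one, norm_neg]; exact hl.ne), norm_one, norm_neg, max_eq_right hl.le]
          rw [h5]
          ring
        · rw [Multiset.filter_cons_of_neg (p := fun l : PadicAlgCl p => ‖l‖ = 1) _ hl.ne']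
          exact h3

end RedS

end Pool.Agent.N867.AS
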