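import Pool.Agent.N867.AS.K4
import Pool.Agent.N867.AS.W1

/-!
# Reduction of a scaled determinant, general weights
-/

set_option autoImplicit false
set_option linter.unusedSectionVars false

namespace Pool.Agent.N867.AS

namespace Lau

open Res Tr GW RedS

variable {p : ℕ} [hp : Fact p.Prime]

theorem red_abs {ι : Type} [Fintype ι] [DecidableEq ι] (Cm : Matrix ι ι (PadicAlgCl p))
    (W : ι → ℕ) (M : ℕ) {τ : PadicAlgCl p} (hτ : τ ≠ 0) (hτ1 : ‖τ‖ < 1) (κ₀ : PadicAlgCl p)
    (η : k p) (hκ : ‖τ ^ ((p - 1) * M) * κ₀‖ = 1) (hη : red p (τ ^ ((p - 1) * M) * κ₀) = η)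
    (hent : ∀ x y, ‖τ ^ W x * Cm x y / τ ^ (p * W y)‖ ≤ 1) (cb : ι → ι → k p)
    (hcb : ∀ x y, W y ≤ M → red p (τ ^ W x * Cm x y / τ ^ (p * W y)) = cb x y)
    (hoff : ∀ x y, W x ≤ M → W y ≤ M → W x ≠ W y → cb x y = 0)
    (hdet : ∀ w, w < M → ((Matrix.of cb).submatrix
      (Subtype.val : {x // W x = w} → ι) Subtype.val).det ≠ 0) :
    ∃ (c : PadicAlgCl p) (w : k p), w ≠ 0 ∧
      ‖c‖ = (‖τ‖⁻¹) ^ ((p - 1) * ∑ x ∈ Finset.univ.filter (fun x => W x < M), (M - W x)) ∧
      Red (((κ₀ • Cm).charpolyRev : Polynomial (PadicAlgCl p)) : PowerSeries (PadicAlgCl p)) c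
      ((Polynomial.C w * Polynomial.X ^ (Finset.univ.filter (fun x => W x < M)).card *
        (Matrix.of fun x y : {x // W x = M} => (if x = y then (1 : Polynomial (k p)) else 0) -
          Polynomial.X * Polynomial.C (η * cb x.1 y.1)).det : Polynomial (k p)) :
        PowerSeries (k p)) := by
  classical
  have hp2 := hp.1.two_le
  obtain ⟨r, hr⟩ : ∃ r : ℝ, r = ‖τ‖ := ⟨_, rfl⟩
  have hr0 : 0 < r := by rw [hr]; exact norm_pos_iff.2 hτ
  have hr1 : r < 1 := by rw [hr]; exact hτ1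
  have hκn : ‖κ₀‖ = (r ^ ((p - 1) * M))⁻¹ := by
    rw [norm_mul, norm_pow, ← hr] at hκ
    exact eq_inv_of_mul_eq_one_right hκ
  have hκ0 : κ₀ ≠ 0 := by
    rintro rfl
    rw [mul_zero, norm_zero] at hκ
    exact zero_ne_one hκ
  obtain ⟨A, hAdef⟩ : ∃ A, A = κ₀ • Cm := ⟨_, rfl⟩
  obtain ⟨α, hα⟩ : ∃ α : ι → PadicAlgCl p, ∀ x, α x = τ ^ W x := ⟨_, fun _ => rfl⟩
  obtain ⟨δ, hδ⟩ : ∃ δ : ι → PadicAlgCl p, ∀ y, δ y = τ ^ ((p - 1) * W y) * κ₀ :=
    ⟨_, fun _ => rfl⟩
  have hαn : ∀ x, ‖α x‖ = r ^ W x := fun x => by rw [hα, norm_pow, hr]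
  have hα0 : ∀ x, α x ≠ 0 := fun x => by rw [hα]; exact pow_ne_zero _ hτ
  have hδ0 : ∀ x, δ x ≠ 0 := fun x => by rw [hδ]; exact mul_ne_zero (pow_ne_zero _ hτ) hκ0
  have hδn : ∀ y, ‖δ y‖ = r ^ ((p - 1) * W y) * (r ^ ((p - 1) * M))⁻¹ := by
    intro y
    rw [hδ, norm_mul, norm_pow, ← hr, hκn]
  have hδlt : ∀ x, 1 < ‖δ x‖ ↔ W x < M := by
    intro x
    rw [hδn, ← div_eq_mul_inv, one_lt_div (by positivity),
      pow_lt_pow_iff_right_of_lt_one₀ hr0 hr1]
    constructor
    · exact fun h => Nat.lt_of_mul_lt_mul_left h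
    · exact fun h => Nat.mul_lt_mul_of_pos_left h (by omega)
  have hδgt : ∀ x, M < W x → ‖δ x‖ < 1 := by
    intro x hx
    rw [hδn, ← div_eq_mul_inv, div_lt_one (by positivity),
      pow_lt_pow_iff_right_of_lt_one₀ hr0 hr1]
    exact Nat.mul_lt_mul_of_pos_left hx (by omega)
  -- the entries
  have hαA : ∀ x y, α x * A x y / (α y * δ y) = τ ^ W x * Cm x y / τ ^ (p * W y) := by
    intro x y
    have h1 : τ ^ (p * W y) = τ ^ W y * τ ^ ((p - 1) * W y) := by
      rw [← pow_add, Bd.wadd hp.1.ne_zero]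
    rw [hα, hα, hδ, hAdef, Matrix.smul_apply, smul_eq_mul, h1]
    have := pow_ne_zero (W y) hτ
    have := pow_ne_zero ((p - 1) * W y) hτ
    field_simp
  have hA : ∀ x y, ‖α x * A x y‖ ≤ ‖α y * δ y‖ := by
    intro x y
    have h1 := hent x y
    rw [← hαA, norm_div, div_le_one (norm_pos_iff.2 (mul_ne_zero (hα0 y) (hδ0 y)))] at h1
    exact h1
  have hred := red_det A α δ hα0 hA
  have hub_lt : ∀ x y, W y < M → red p (α x * A x y / (α y * sc δ y)) = cb x y := by
    intro x y hy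
    have h1 : sc δ y = δ y := by
      unfold sc
      rw [if_pos ((hδlt y).2 hy)]
    rw [h1, hαA]
    exact hcb x y hy.le
  have hub_eq : ∀ x y, W y = M → red p (α x * A x y / (α y * sc δ y)) = η * cb x y := by
    intro x y hy
    have h1 : sc δ y = 1 := by
      unfold sc
      rw [if_neg]
      rw [hδlt, hy]
      exact lt_irrefl _
    have h2 : α x * A x y / (α y * sc δ y) = (α x * A x y / (α y * δ y)) *
        (τ ^ ((p - 1) * M) * κ₀) := by
      have h3 : δ y = τ ^ ((p - 1) * M) * κ₀ := by rw [hδ, hy]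
      have h4 := hδ0 y
      rw [h1, ← h3, mul_one]
      have := hα0 y
      field_simp
    rw [h2, hαA, red_mul (hent x y) hκ.le, hη, hcb x y hy.le, mul_comm]
  -- the blocks
  have hbig : ∀ x y, M < W y → Bbar A α δ x y = if x = y then 1 else 0 := by
    intro x y hy
    have h1 : ‖δ y‖ < 1 := hδgt y hy
    have h2 : sc δ y = 1 := by
      unfold sc
      rw [if_neg (not_lt.2 h1.le)]
    rw [Bbar, Matrix.of_apply, h2, mul_one]
    have h3 : ‖α x * A x y / α y‖ < 1 := by
      rw [norm_div, div_lt_one (norm_pos_iff.2 (hα0 y))]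
      refine lt_of_le_of_lt (hA x y) ?_
      rw [norm_mul]
      exact mul_lt_of_lt_one_right (norm_pos_iff.2 (hα0 y)) h1
    rw [(red_eq_zero h3.le).2 h3, Polynomial.C_0, mul_zero, sub_zero]
    by_cases h4 : x = y
    · rw [if_pos ⟨h4, not_lt.2 h1.le⟩, if_pos h4, Polynomial.C_1]
    · rw [if_neg (fun h => h4 h.1), if_neg h4, Polynomial.C_0]
  have hlt : ∀ x y, W y < M → Bbar A α δ x y = - Polynomial.X * Polynomial.C (cb x y) := by
    intro x y hy
    have h1 : 1 < ‖δ y‖ := (hδlt y).2 hy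
    rw [Bbar, Matrix.of_apply, if_neg (fun h => h.2 h1), Polynomial.C_0, zero_sub,
      hub_lt x y hy, neg_mul]
  have heq : ∀ x y, W y = M → Bbar A α δ x y = (if x = y then 1 else 0) -
      Polynomial.X * Polynomial.C (η * cb x y) := by
    intro x y hy
    have h1 : ¬ 1 < ‖δ y‖ := by
      rw [hδlt, hy]
      exact lt_irrefl _
    rw [Bbar, Matrix.of_apply, hub_eq x y hy]
    congr 1
    by_cases h4 : x = y
    · rw [if_pos ⟨h4, h1⟩, if_pos h4, Polynomial.C_1]
    · rw [if_neg (fun h => h4 h.1), if_neg h4, Polynomial.C_0]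
  have hdetB := det_blocks W M (Bbar A α δ) hbig (by
    intro x y hx hy hne
    have h0 := hoff x y hx hy hne
    rcases hy.lt_or_eq with hy' | hy'
    · rw [hlt x y hy', h0, map_zero, mul_zero]
    · rw [heq x y hy', h0, mul_zero, map_zero, mul_zero, sub_zero, if_neg]
      intro h
      rw [h] at hne
      exact hne rfl)
  rw [Finset.prod_range_succ] at hdetB
  -- blocks of weight `< M`
  obtain ⟨d, hd⟩ : ∃ d : ℕ → k p, ∀ w, d w = ((Matrix.of cb).submatrix
      (Subtype.val : {x // W x = w} → ι) Subtype.val).det := ⟨_, fun _ => rfl⟩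
  have hblk : ∀ w ∈ Finset.range M, ((Bbar A α δ).submatrix
      (Subtype.val : {x // W x = w} → ι) Subtype.val).det =
        (-Polynomial.X) ^ (Fintype.card {x // W x = w}) * Polynomial.C (d w) := by
    intro w hw
    have hw' := Finset.mem_range.1 hw
    rw [hd, RingHom.map_det, ← Matrix.det_smul]
    congr 1
    ext1 x y
    rw [Matrix.submatrix_apply, hlt _ _ (by rw [y.2]; exact hw'), Matrix.smul_apply,
      RingHom.mapMatrix_apply, Matrix.map_apply, Matrix.submatrix_apply, Matrix.of_apply,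
      smul_eq_mul]
  rw [Finset.prod_congr rfl hblk, Finset.prod_mul_distrib, Finset.prod_pow_eq_pow_sum] at hdetB
  have hcard : ∑ w ∈ Finset.range M, Fintype.card {x // W x = w} =
      (Finset.univ.filter (fun x => W x < M)).card := by
    rw [Finset.card_eq_sum_card_fiberwise (f := fun x => W x) (t := Finset.range M)]
    · refine Finset.sum_congr rfl fun w hw => ?_
      rw [Fintype.card_subtype]
      congr 1
      ext x
      have hw' := Finset.mem_range.1 hw
      simp only [Finset.mem_filter, Finset.mem_univ, true_and]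
      constructor
      · intro h
        exact ⟨by omega, h⟩
      · exact fun h => h.2
    · intro x hx
      rw [Finset.mem_coe, Finset.mem_filter] at hx
      rw [Finset.mem_coe, Finset.mem_range]
      exact hx.2
  rw [hcard] at hdetB
  have hMblk : ((Bbar A α δ).submatrix (Subtype.val : {x // W x = M} → ι) Subtype.val).det =
      (Matrix.of fun x y : {x // W x = M} => (if x = y then (1 : Polynomial (k p)) else 0) -
          Polynomial.X * Polynomial.C (η * cb x.1 y.1)).det := by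
    congr 1
    ext1 x y
    rw [Matrix.submatrix_apply, heq _ _ y.2, Matrix.of_apply]
    simp only [Subtype.ext_iff]
  rw [hMblk] at hdetB
  rw [hAdef] at hred
  obtain ⟨K, hK⟩ : ∃ K, K = (Finset.univ.filter (fun x => W x < M)).card := ⟨_, rfl⟩
  rw [← hK] at hdetB ⊢
  obtain ⟨w, hw⟩ : ∃ w : k p, w = (-1) ^ K * ∏ w ∈ Finset.range M, d w := ⟨_, rfl⟩
  refine ⟨∏ y, sc δ y, w, ?_, ?_, ?_⟩
  · rw [hw]
    refine mul_ne_zero (pow_ne_zero _ (neg_ne_zero.2 one_ne_zero))
      (Finset.prod_ne_zero_iff.2 fun w hw => ?_)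
    have hw' := Finset.mem_range.1 hw
    rw [hd]
    exact hdet w hw'
  · rw [norm_prod, ← hr, Finset.mul_sum, ← Finset.prod_pow_eq_pow_sum,
      Finset.prod_filter (fun x => W x < M)]
    refine Finset.prod_congr rfl fun y _ => ?_
    by_cases hy : W y < M
    · rw [if_pos hy]
      unfold sc
      rw [if_pos ((hδlt y).2 hy), hδn]
      obtain ⟨d, hd'⟩ : ∃ d, M = W y + d := ⟨M - W y, by omega⟩
      have h1 : M - W y = d := by omega
      rw [h1]
      have h2 : r ^ ((p - 1) * M) = r ^ ((p - 1) * W y) * r ^ ((p - 1) * d) := by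
        rw [← pow_add, ← mul_add, ← hd']
      rw [h2, inv_pow]
      have h3 : r ^ ((p - 1) * W y) ≠ 0 := (pow_pos hr0 _).ne'
      have h4 : r ^ ((p - 1) * d) ≠ 0 := (pow_pos hr0 _).ne'
      field_simp
    · rw [if_neg hy]
      unfold sc
      rw [if_neg (fun h => hy ((hδlt y).1 h)), norm_one]
  · have h2 : (Bbar A α δ).det = Polynomial.C w * Polynomial.X ^ K *
        (Matrix.of fun x y : {x // W x = M} => (if x = y then (1 : Polynomial (k p)) else 0) -
          Polynomial.X * Polynomial.C (η * cb x.1 y.1)).det := by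
      rw [hdetB, hw, neg_pow, map_mul, map_pow, map_neg, map_one, map_prod]
      ring
    rw [← h2, hAdef]
    exact hred

end Lau

end Pool.Agent.N867.AS
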