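import Pool.Agent.N867.AS.K5

/-!
# Entries of the Dwork matrices for a simple pole
-/

set_option autoImplicit false
set_option linter.unusedSectionVars false

namespace Pool.Agent.N867.AS

namespace Lau

open Res Tr GW RedS MvPolynomial

variable {p : ℕ} [hp : Fact p.Prime]

section general

variable {σ : Type} [Fintype σ] [DecidableEq σ] {s : ℕ}

/-- shifted weight of a box exponent -/
noncomputable def wp (ω : σ → ℤ) (i₀ : σ) (E : ℕ) {Γ : Type} {T : Finset σ} {B : ℕ}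
    (x : Γ × Idx T B) : ℤ :=
  wz ω (toF x.2.1) - E * ω i₀

theorem entry_red {f : MvPolynomial σ (k p)} {M : ℕ} [NeZero s] (D : Lifts p f s) (hs : s ≠ 0)
    {τ γ : PadicAlgCl p} (hτ : τ ≠ 0) (hτ1 : ‖τ‖ < 1) (hτγ : τ ^ M = γ) (i₀ : σ) {ω : σ → ℤ}
    (hf : ∀ μ ∈ f.support, wz ω μ - ω i₀ ≤ M) (N : ℕ) {E : ℕ} (hE : E = N * f.support.card)
    {T : Finset σ} {B : ℕ} (x y : (Fin (p - 1) × ZMod s) × Idx T B) {Wx Wy : ℕ}
    (hx : wp ω i₀ E x ≤ Wx) (hy : wp ω i₀ E y = Wy) :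
    ‖τ ^ Wx * Cmat p (LG i₀ D N γ) (rho p s) T B x y / τ ^ (p * Wy)‖ ≤ 1 ∧
    (y.1 ≠ rho p s x.1 → red p (τ ^ Wx * Cmat p (LG i₀ D N γ) (rho p s) T B x y /
      τ ^ (p * Wy)) = 0) ∧
    (¬ toF x.2.1 ≤ p • toF y.2.1 → red p (τ ^ Wx * Cmat p (LG i₀ D N γ) (rho p s) T B x y /
      τ ^ (p * Wy)) = 0) ∧
    (wp ω i₀ E x ≠ Wx → red p (τ ^ Wx * Cmat p (LG i₀ D N γ) (rho p s) T B x y /
      τ ^ (p * Wy)) = 0) ∧
    (y.1 = rho p s x.1 → toF x.2.1 ≤ p • toF y.2.1 → wp ω i₀ E x = Wx →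
      red p (τ ^ Wx * Cmat p (LG i₀ D N γ) (rho p s) T B x y / τ ^ (p * Wy)) =
      coeff (p • toF y.2.1 - toF x.2.1) (LGb p i₀ ω M N f.support
        (fun μ => (((x.1.1 : ℕ) + 1 : ℕ) : k p) * coeff μ f ^ p ^ (x.1.2.val)))) := by
  classical
  by_cases h1 : y.1 = rho p s x.1
  swap
  · have h0 : Cmat p (LG i₀ D N γ) (rho p s) T B x y = 0 := by
      unfold Cmat
      rw [if_neg h1]
    rw [h0, mul_zero, zero_div, norm_zero, red_zero]
    exact ⟨zero_le_one, fun _ => rfl, fun _ => rfl, fun _ => rfl, fun h => absurd h h1⟩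
  by_cases h2 : toF x.2.1 ≤ p • toF y.2.1
  swap
  · have h0 : Cmat p (LG i₀ D N γ) (rho p s) T B x y = 0 := by
      unfold Cmat
      rw [if_pos h1, if_neg h2]
    rw [h0, mul_zero, zero_div, norm_zero, red_zero]
    exact ⟨zero_le_one, fun _ => rfl, fun _ => rfl, fun _ => rfl, fun _ h => absurd h h2⟩
  have h0 : Cmat p (LG i₀ D N γ) (rho p s) T B x y =
      coeff (p • toF y.2.1 - toF x.2.1) (LG i₀ D N γ x.1) := by
    unfold Cmat
    rw [if_pos h1, if_pos h2]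
  have hR := RMZ_LG D hs hτ hτ1 hτγ i₀ hf N x.1 (p • toF y.2.1 - toF x.2.1)
  rw [← hE] at hR
  have hwt : wz ω (p • toF y.2.1 - toF x.2.1) + wz ω (toF x.2.1) = p * wz ω (toF y.2.1) := by
    rw [← wz_add, tsub_add_cancel_of_le h2, wz_smul]
  have hexp : wz ω (p • toF y.2.1 - toF x.2.1) - (((p - 1) * E : ℕ) : ℤ) * ω i₀ =
      p * Wy - wp ω i₀ E x := by
    rw [← hy]
    unfold wp
    push_cast [Nat.cast_sub hp.1.one_le]
    linear_combination hwt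
  rw [hexp] at hR
  obtain ⟨q, hq⟩ : ∃ q : ℕ, (q : ℤ) = Wx - wp ω i₀ E x :=
    ⟨((Wx : ℤ) - wp ω i₀ E x).toNat, Int.toNat_of_nonneg (by omega)⟩
  have hkey : τ ^ Wx * Cmat p (LG i₀ D N γ) (rho p s) T B x y / τ ^ (p * Wy) =
      coeff (p • toF y.2.1 - toF x.2.1) (LG i₀ D N γ x.1) /
        τ ^ ((p : ℤ) * Wy - wp ω i₀ E x) * τ ^ q := by
    rw [h0, ← zpow_natCast τ Wx, ← zpow_natCast τ (p * Wy), ← zpow_natCast τ q, hq]
    have h3 : (Wx : ℤ) = (Wx - wp ω i₀ E x) + wp ω i₀ E x := by ring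
    have h4 : (p : ℤ) * Wy = (p * Wy - wp ω i₀ E x) + wp ω i₀ E x := by ring
    have h5 : τ ^ (Wx : ℤ) = τ ^ ((Wx : ℤ) - wp ω i₀ E x) * τ ^ (wp ω i₀ E x) := by
      rw [← zpow_add₀ hτ, ← h3]
    have h6 : τ ^ (((p * Wy : ℕ) : ℤ)) = τ ^ ((p : ℤ) * Wy - wp ω i₀ E x) *
        τ ^ (wp ω i₀ E x) := by
      rw [← zpow_add₀ hτ, ← h4]
      push_cast
      rfl
    rw [h5, h6]
    have h7 := zpow_ne_zero (wp ω i₀ E x) hτ
    have h8 := zpow_ne_zero ((p : ℤ) * Wy - wp ω i₀ E x) hτ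
    field_simp
  have hτq : ‖τ ^ q‖ ≤ 1 := by
    rw [norm_pow]
    exact pow_le_one₀ (norm_nonneg _) hτ1.le
  rw [hkey]
  refine ⟨?_, fun h => absurd h1 h, fun h => absurd h2 h, fun h => ?_, fun _ _ h => ?_⟩
  · rw [norm_mul]
    exact mul_le_one₀ hR.1 (norm_nonneg _) hτq
  · have hq0 : q ≠ 0 := by
      intro h3
      rw [h3] at hq
      push_cast at hq
      apply h
      omega
    have h5 : ‖τ ^ q‖ < 1 := by
      rw [norm_pow]
      exact pow_lt_one₀ (norm_nonneg _) hτ1 hq0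
    rw [red_mul hR.1 hτq, (red_eq_zero h5.le).2 h5, mul_zero]
  · have hq0 : q = 0 := by
      rw [h, sub_self] at hq
      exact_mod_cast hq
    rw [hq0, pow_zero, mul_one]
    exact hR.2

end general

/-! ### the two functionals -/

/-- first functional -/
def oA (a b : ℕ) : Fin 2 → ℤ := ![(b : ℤ), (a : ℤ)]

/-- second functional -/
def oB (M : ℕ) : Fin 2 → ℤ := ![-(M : ℤ), 0]

theorem wz_oA (a b : ℕ) (v : Fin 2 →₀ ℕ) : wz (oA a b) v = b * v 0 + a * v 1 := by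
  unfold wz oA
  rw [Fin.sum_univ_two]
  rfl

theorem wz_oB (M : ℕ) (v : Fin 2 →₀ ℕ) : wz (oB M) v = -(M * v 0) := by
  unfold wz oB
  rw [Fin.sum_univ_two]
  simp

theorem oA0 (a b : ℕ) : oA a b 0 = b := rfl

theorem oB0 (M : ℕ) : oB M 0 = -(M : ℤ) := rfl

/-- hypotheses on the polynomial -/
structure KP (f : MvPolynomial (Fin 2) (k p)) (a b M : ℕ) : Prop where
  ha : 2 ≤ a
  hb : 1 ≤ b
  hab : a.Coprime b
  hM : M + b = a * b
  hMp : M ∣ p - 1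
  wt : ∀ μ ∈ f.support, b * μ 0 + a * μ 1 ≤ a * b
  ca : coeff (Finsupp.single 0 a) f ≠ 0
  cb : coeff (Finsupp.single 1 b) f ≠ 0

section two

variable {f : MvPolynomial (Fin 2) (k p)} {a b M s : ℕ} [NeZero s] (hf : KP f a b M)

include hf

theorem KP.M_pos : 0 < M := by
  have h1 := hf.hM
  have h2 := hf.ha
  have h3 := hf.hb
  have h4 : 2 * b ≤ a * b := Nat.mul_le_mul_right b h2
  omega

theorem KP.leA : ∀ μ ∈ f.support, wz (oA a b) μ - oA a b 0 ≤ M := by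
  intro μ hμ
  rw [wz_oA, oA0]
  have h1 := hf.wt μ hμ
  have h2 := hf.hM
  have h3 : ((b * μ 0 + a * μ 1 : ℕ) : ℤ) ≤ ((a * b : ℕ) : ℤ) := by exact_mod_cast h1
  rw [← h2] at h3
  push_cast at h3
  linarith

theorem KP.leB : ∀ μ ∈ f.support, wz (oB M) μ - oB M 0 ≤ M := by
  intro μ hμ
  rw [wz_oB, oB0]
  have : (0 : ℤ) ≤ M * μ 0 := by positivity
  linarith

end two

/-- the weight -/
noncomputable def WW (a b M E : ℕ) {Γ : Type} {T : Finset (Fin 2)} {B : ℕ} (x : Γ × Idx T B) : ℕ :=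
  (max (wp (oA a b) 0 E x) (wp (oB M) 0 E x)).toNat

section weights

variable {a b M E : ℕ} {Γ : Type} {T : Finset (Fin 2)} {B : ℕ}

theorem wpA (x : Γ × Idx T B) :
    wp (oA a b) 0 E x = b * ((x.2.1 0 : ℕ) : ℤ) + a * ((x.2.1 1 : ℕ) : ℤ) - E * b := by
  unfold wp
  rw [wz_oA, oA0]
  rfl

theorem wpB (x : Γ × Idx T B) :
    wp (oB M) 0 E x = M * ((E : ℤ) - ((x.2.1 0 : ℕ) : ℤ)) := by
  unfold wp
  rw [wz_oB, oB0, toF_apply]
  ring

theorem WW_cast (x : Γ × Idx T B) :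
    ((WW a b M E x : ℕ) : ℤ) = max (wp (oA a b) 0 E x) (wp (oB M) 0 E x) := by
  unfold WW
  refine Int.toNat_of_nonneg ?_
  rw [wpA, wpB]
  rcases le_total (E : ℤ) ((x.2.1 0 : ℕ) : ℤ) with h | h
  · refine le_max_of_le_left ?_
    have h1 : (E : ℤ) * b ≤ b * ((x.2.1 0 : ℕ) : ℤ) := by
      rw [mul_comm]
      exact mul_le_mul_of_nonneg_left h (by positivity)
    have h2 : (0 : ℤ) ≤ a * ((x.2.1 1 : ℕ) : ℤ) := by positivity
    linarith
  · refine le_max_of_le_right ?_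
    have h1 : (0 : ℤ) ≤ (E : ℤ) - ((x.2.1 0 : ℕ) : ℤ) := by linarith
    positivity

theorem leA_WW (x : Γ × Idx T B) : wp (oA a b) 0 E x ≤ WW a b M E x := by
  rw [WW_cast]
  exact le_max_left _ _

theorem leB_WW (x : Γ × Idx T B) : wp (oB M) 0 E x ≤ WW a b M E x := by
  rw [WW_cast]
  exact le_max_right _ _

theorem WW_or (x : Γ × Idx T B) : wp (oA a b) 0 E x = WW a b M E x ∨
    wp (oB M) 0 E x = WW a b M E x := by
  rw [WW_cast]
  rcases max_choice (wp (oA a b) 0 E x) (wp (oB M) 0 E x) with h | h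
  · exact Or.inl h.symm
  · exact Or.inr h.symm

/-- on the right half the first functional is the larger one -/
theorem WW_right (x : Γ × Idx T B) (h : E ≤ (x.2.1 0 : ℕ)) :
    wp (oA a b) 0 E x = WW a b M E x := by
  rw [WW_cast, max_eq_left]
  rw [wpA, wpB]
  have h' : (E : ℤ) ≤ ((x.2.1 0 : ℕ) : ℤ) := by exact_mod_cast h
  have h1 : (E : ℤ) * b ≤ b * ((x.2.1 0 : ℕ) : ℤ) := by
    rw [mul_comm]
    exact mul_le_mul_of_nonneg_left h' (by positivity)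
  have h2 : (0 : ℤ) ≤ a * ((x.2.1 1 : ℕ) : ℤ) := by positivity
  have h3 : (M : ℤ) * ((E : ℤ) - ((x.2.1 0 : ℕ) : ℤ)) ≤ 0 :=
    mul_nonpos_of_nonneg_of_nonpos (by positivity) (by linarith)
  linarith

/-- on the left half the weight is at least `M` -/
theorem WW_left (hM : 0 < M) (x : Γ × Idx T B) (h : (x.2.1 0 : ℕ) < E) (hW : WW a b M E x ≤ M) :
    (x.2.1 0 : ℕ) + 1 = E ∧ WW a b M E x = M ∧ wp (oB M) 0 E x = M := by
  have h1 : wp (oB M) 0 E x ≤ WW a b M E x := leB_WW x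
  have h2 : (WW a b M E x : ℤ) ≤ M := by exact_mod_cast hW
  rw [wpB] at h1
  have hM' : (0 : ℤ) < M := by exact_mod_cast hM
  have h3 : (E : ℤ) - ((x.2.1 0 : ℕ) : ℤ) ≤ 1 := by
    by_contra h4
    push Not at h4
    have h5 : (M : ℤ) * 2 ≤ M * ((E : ℤ) - ((x.2.1 0 : ℕ) : ℤ)) :=
      mul_le_mul_of_nonneg_left (by linarith) hM'.le
    linarith
  have h4 : (x.2.1 0 : ℕ) + 1 = E := by omega
  have h5 : (E : ℤ) - ((x.2.1 0 : ℕ) : ℤ) = 1 := by omega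
  rw [h5, mul_one] at h1
  have h6 : WW a b M E x = M := by
    have : (M : ℤ) ≤ WW a b M E x := h1
    omega
  exact ⟨h4, h6, by rw [wpB, h5, mul_one]⟩

end weights

end Lau

end Pool.Agent.N867.AS
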