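import Pool.Agent.N867.AS.K6

/-!
# The reduced matrix for a simple pole
-/

set_option autoImplicit false
set_option linter.unusedSectionVars false

namespace Pool.Agent.N867.AS

namespace Lau

open Res Tr GW RedS MvPolynomial

variable {p : ℕ} [hp : Fact p.Prime]

/-- the coefficients -/
noncomputable def cf (f : MvPolynomial (Fin 2) (k p)) {s : ℕ} (g : Fin (p - 1) × ZMod s) :
    (Fin 2 →₀ ℕ) → k p :=
  fun μ => (((g.1 : ℕ) + 1 : ℕ) : k p) * coeff μ f ^ p ^ (g.2.val)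

/-- the reduced entries -/
noncomputable def cbL (f : MvPolynomial (Fin 2) (k p)) (a b M N E : ℕ) {s : ℕ} {T : Finset (Fin 2)}
    {B : ℕ} (x y : (Fin (p - 1) × ZMod s) × Idx T B) : k p := by
  classical exact if y.1 = rho p s x.1 ∧ toF x.2.1 ≤ p • toF y.2.1 then
    (if E ≤ (y.2.1 0 : ℕ) then
      (if wp (oA a b) 0 E x = WW a b M E x then
        coeff (p • toF y.2.1 - toF x.2.1) (LGb p 0 (oA a b) M N f.support (cf f x.1)) else 0)
    else (if wp (oB M) 0 E x = WW a b M E x then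
        coeff (p • toF y.2.1 - toF x.2.1) (LGb p 0 (oB M) M N f.support (cf f x.1)) else 0))
  else 0

variable {f : MvPolynomial (Fin 2) (k p)} {a b M s : ℕ} [NeZero s] (hf : KP f a b M)

include hf

theorem hent (D : Lifts p f s) (hs : s ≠ 0) {τ γ : PadicAlgCl p} (hτ : τ ≠ 0) (hτ1 : ‖τ‖ < 1)
    (hτγ : τ ^ M = γ) {N E : ℕ} (hE : E = N * f.support.card) {T : Finset (Fin 2)} {B : ℕ}
    (x y : (Fin (p - 1) × ZMod s) × Idx T B) :
    ‖τ ^ WW a b M E x * Cmat p (LG 0 D N γ) (rho p s) T B x y / τ ^ (p * WW a b M E y)‖ ≤ 1 := by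
  rcases WW_or (a := a) (b := b) (M := M) (E := E) y with h | h
  · exact (entry_red D hs hτ hτ1 hτγ 0 hf.leA N hE x y (leA_WW x) h).1
  · exact (entry_red D hs hτ hτ1 hτγ 0 hf.leB N hE x y (leB_WW x) h).1

theorem hcb (D : Lifts p f s) (hs : s ≠ 0) {τ γ : PadicAlgCl p} (hτ : τ ≠ 0) (hτ1 : ‖τ‖ < 1)
    (hτγ : τ ^ M = γ) {N E : ℕ} (hE : E = N * f.support.card) {T : Finset (Fin 2)} {B : ℕ}
    (x y : (Fin (p - 1) × ZMod s) × Idx T B) (hy : WW a b M E y ≤ M) :
    red p (τ ^ WW a b M E x * Cmat p (LG 0 D N γ) (rho p s) T B x y / τ ^ (p * WW a b M E y)) =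
      cbL f a b M N E x y := by
  classical
  unfold cbL
  by_cases hr : E ≤ (y.2.1 0 : ℕ)
  · obtain ⟨_, h1, h2, h3, h4⟩ := entry_red D hs hτ hτ1 hτγ 0 hf.leA N hE x y (leA_WW x)
      (WW_right y hr)
    rw [if_pos hr]
    by_cases c1 : y.1 = rho p s x.1
    · by_cases c2 : toF x.2.1 ≤ p • toF y.2.1
      · rw [if_pos ⟨c1, c2⟩]
        by_cases c3 : wp (oA a b) 0 E x = WW a b M E x
        · rw [if_pos c3]
          exact h4 c1 c2 c3
        · rw [if_neg c3]
          exact h3 c3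
      · rw [if_neg (fun h => c2 h.2)]
        exact h2 c2
    · rw [if_neg (fun h => c1 h.1)]
      exact h1 c1
  · have hl := WW_left hf.M_pos y (not_le.1 hr) hy
    have hy' : wp (oB M) 0 E y = WW a b M E y := by rw [hl.2.2, hl.2.1]
    obtain ⟨_, h1, h2, h3, h4⟩ := entry_red D hs hτ hτ1 hτγ 0 hf.leB N hE x y (leB_WW x) hy'
    rw [if_neg hr]
    by_cases c1 : y.1 = rho p s x.1
    · by_cases c2 : toF x.2.1 ≤ p • toF y.2.1
      · rw [if_pos ⟨c1, c2⟩]
        by_cases c3 : wp (oB M) 0 E x = WW a b M E x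
        · rw [if_pos c3]
          exact h4 c1 c2 c3
        · rw [if_neg c3]
          exact h3 c3
      · rw [if_neg (fun h => c2 h.2)]
        exact h2 c2
    · rw [if_neg (fun h => c1 h.1)]
      exact h1 c1

omit hf in
theorem coeff_Xq (q : ℕ) (P : MvPolynomial (Fin 2) (k p)) (v : Fin 2 →₀ ℕ) :
    coeff v (X 0 ^ q * P) = if q ≤ v 0 then coeff (v - q • Finsupp.single 0 1) P else 0 := by
  classical
  have h1 : (X 0 ^ q : MvPolynomial (Fin 2) (k p)) = monomial (q • Finsupp.single 0 1) 1 := by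
    simp [X_pow_eq_monomial]
  rw [h1, coeff_monomial_mul']
  have h2 : (q • Finsupp.single 0 1 ≤ v) ↔ q ≤ v 0 := by
    constructor
    · intro h
      have := h 0
      simpa using this
    · intro h i
      fin_cases i
      · simpa using h
      · simp
  simp only [h2, one_mul]

omit hf in
theorem dvd_of_coeff {ω : Fin 2 → ℤ} {N E : ℕ} (hN : 0 < N) (hE : E = N * f.support.card)
    (c : (Fin 2 →₀ ℕ) → k p)
    {T : Finset (Fin 2)} {B : ℕ} {x y : (Fin (p - 1) × ZMod s) × Idx T B}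
    (hle : toF x.2.1 ≤ p • toF y.2.1)
    (hne : coeff (p • toF y.2.1 - toF x.2.1) (LGb p 0 ω M N f.support c) ≠ 0) :
    ∃ n : ℕ, (p : ℤ) * wp ω 0 E y - wp ω 0 E x = n * M := by
  classical
  obtain ⟨q, hq, hL⟩ := LGb_eq hN f.support c
    (T := f.support.filter fun μ => wz ω μ - ω 0 = M) (fun μ => by rw [Finset.mem_filter])
  rw [hL, coeff_Xq] at hne
  split_ifs at hne with h1
  swap
  · exact absurd rfl hne
  obtain ⟨n, w, hw1, hw2⟩ := supp_Lb (W := (M : ℤ) + ω 0) _ (fun μ hμ => by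
    have := (Finset.mem_filter.1 hμ).2
    linarith) c _ hne
  refine ⟨n, ?_⟩
  have hwt : wz ω (p • toF y.2.1 - toF x.2.1) + wz ω (toF x.2.1) = p * wz ω (toF y.2.1) := by
    rw [← wz_add, tsub_add_cancel_of_le hle, wz_smul]
  have hv : wz ω (p • toF y.2.1 - toF x.2.1 - q • Finsupp.single 0 1) + q * ω 0 =
      wz ω (p • toF y.2.1 - toF x.2.1) := by
    have h2 : q • Finsupp.single 0 1 ≤ p • toF y.2.1 - toF x.2.1 := by
      intro i
      fin_cases i
      · simpa using h1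
      · simp
    have h3 := wz_add ω (p • toF y.2.1 - toF x.2.1 - q • Finsupp.single 0 1)
      (q • Finsupp.single 0 1)
    rw [tsub_add_cancel_of_le h2, wz_smul, wz_single] at h3
    rw [← h3]
  have h4 := congrArg (wz ω) hw1
  rw [wz_add, wz_add, wz_smul, wz_smul, wz_single, hw2] at h4
  rw [← hE] at hq
  have hq' : (q : ℤ) + ((N * (f.support.filter fun μ => wz ω μ - ω 0 = M).card : ℕ) : ℤ) =
      (p - 1) * E := by
    have h5 : (((q + N * (f.support.filter fun μ => wz ω μ - ω 0 = M).card : ℕ)) : ℤ) =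
        (((p - 1) * E : ℕ) : ℤ) := by exact_mod_cast hq
    push_cast [Nat.cast_sub hp.1.one_le] at h5 ⊢
    exact h5
  unfold wp
  linear_combination h4 - hwt - hv + hq' * ω 0

theorem WW_pos {E : ℕ} {Γ : Type} {T : Finset (Fin 2)} {B : ℕ} (x : Γ × Idx T B)
    (h : 0 < (x.2.1 1 : ℕ)) : 0 < WW a b M E x := by
  by_cases hr : E ≤ (x.2.1 0 : ℕ)
  · have h1 := WW_right (a := a) (b := b) (M := M) x hr
    rw [wpA] at h1
    have h2 : (E : ℤ) ≤ ((x.2.1 0 : ℕ) : ℤ) := by exact_mod_cast hr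
    have h3 : (E : ℤ) * b ≤ b * ((x.2.1 0 : ℕ) : ℤ) := by
      rw [mul_comm]
      exact mul_le_mul_of_nonneg_left h2 (by positivity)
    have ha := hf.ha
    have h4 : (0 : ℤ) < a * ((x.2.1 1 : ℕ) : ℤ) := by
      have : 0 < a * (x.2.1 1 : ℕ) := Nat.mul_pos (by omega) h
      exact_mod_cast this
    have : (0 : ℤ) < WW a b M E x := by linarith
    exact_mod_cast this
  · have h1 : wp (oB M) 0 E x ≤ WW a b M E x := leB_WW x
    rw [wpB] at h1
    have h2 : ((x.2.1 0 : ℕ) : ℤ) < E := by exact_mod_cast not_le.1 hr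
    have hM := hf.M_pos
    have hM' : (0 : ℤ) < M := by exact_mod_cast hM
    have h3 : (0 : ℤ) < M * ((E : ℤ) - ((x.2.1 0 : ℕ) : ℤ)) := mul_pos hM' (by linarith)
    have : (0 : ℤ) < WW a b M E x := by linarith
    exact_mod_cast this

theorem cbL_off {N E : ℕ} (hN : 0 < N) (hE : E = N * f.support.card) {T : Finset (Fin 2)}
    {B : ℕ} {x y : (Fin (p - 1) × ZMod s) × Idx T B} (hx0 : 0 < WW a b M E x)
    (hy0 : 0 < WW a b M E y) (hx : WW a b M E x ≤ M) (hy : WW a b M E y ≤ M)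
    (hne : WW a b M E x ≠ WW a b M E y) : cbL f a b M N E x y = 0 := by
  classical
  unfold cbL
  split_ifs with h1 h2 h3 h3
  · by_contra h4
    obtain ⟨n, hn⟩ := dvd_of_coeff (ω := oA a b) (M := M) hN hE _ h1.2 h4
    rw [h3, WW_right y h2] at hn
    obtain ⟨m, hm⟩ := hf.hMp
    obtain ⟨wx, hwx⟩ : ∃ wx, wx = WW a b M E x := ⟨_, rfl⟩
    obtain ⟨wy, hwy⟩ : ∃ wy, wy = WW a b M E y := ⟨_, rfl⟩
    rw [← hwx] at hx0 hx hne hn
    rw [← hwy] at hy0 hy hne hn
    have h8 : (M : ℤ) ∣ (wy : ℤ) - (wx : ℤ) := by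
      refine ⟨(n : ℤ) - m * wy, ?_⟩
      have h10 : (p : ℤ) = M * m + 1 := by
        have h11 : p = M * m + 1 := by
          have := hp.1.one_le
          omega
        exact_mod_cast h11
      rw [h10] at hn
      linear_combination hn
    have h9 : (wy : ℤ) - (wx : ℤ) = 0 := by
      refine Int.eq_zero_of_abs_lt_dvd h8 ?_
      rw [abs_lt]
      constructor <;> omega
    apply hne
    omega
  · rfl
  · exfalso
    have hl := WW_left hf.M_pos y (not_le.1 h2) hy
    rw [wpB] at h3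
    have h4 : (WW a b M E x : ℤ) ≤ M := by exact_mod_cast hx
    have h5 : (0 : ℤ) < WW a b M E x := by exact_mod_cast hx0
    have hM' : (0 : ℤ) < M := by exact_mod_cast hf.M_pos
    have h6 : (E : ℤ) - ((x.2.1 0 : ℕ) : ℤ) = 1 := by
      rcases lt_trichotomy ((E : ℤ) - ((x.2.1 0 : ℕ) : ℤ)) 1 with h | h | h
      · exfalso
        have h7 : (M : ℤ) * ((E : ℤ) - ((x.2.1 0 : ℕ) : ℤ)) ≤ 0 :=
          mul_nonpos_of_nonneg_of_nonpos hM'.le (by linarith)
        linarith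
      · exact h
      · exfalso
        have h7 : (M : ℤ) * 2 ≤ M * ((E : ℤ) - ((x.2.1 0 : ℕ) : ℤ)) :=
          mul_le_mul_of_nonneg_left (by linarith) hM'.le
        linarith
    rw [h6, mul_one] at h3
    apply hne
    rw [hl.2.1]
    exact_mod_cast h3.symm
  · rfl
  · rfl

end Lau

end Pool.Agent.N867.AS
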