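import Pool.Agent.N867.AS.K7

/-!
# Entries of the blocks for a simple pole
-/

set_option autoImplicit false
set_option linter.unusedSectionVars false

namespace Pool.Agent.N867.AS

namespace Lau

open Res Tr GW RedS MvPolynomial

variable {p : ℕ} [hp : Fact p.Prime]

/-- binomial coefficients -/
theorem bin_coeff {F : Type} [Field F] {a b : ℕ} (ha : a ≠ 0) (c₁ c₂ : F) (k₁ k₂ : ℕ)
    {v : Fin 2 →₀ ℕ} (h0 : v 0 = a * k₁) (h1 : v 1 = b * k₂) :
    coeff v ((monomial (Finsupp.single 0 a) c₁ + monomial (Finsupp.single 1 b) c₂ :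
      MvPolynomial (Fin 2) F) ^ (k₁ + k₂)) = ((k₁ + k₂).choose k₁ : F) * (c₁ ^ k₁ * c₂ ^ k₂) := by
  classical
  rw [add_pow, coeff_sum, Finset.sum_eq_single k₁]
  · rw [monomial_pow, monomial_pow, monomial_mul, mul_comm,
      ← map_natCast (C : F →+* MvPolynomial (Fin 2) F), coeff_C_mul, coeff_monomial, if_pos,
      Nat.add_sub_cancel_left]
    rw [Nat.add_sub_cancel_left]
    ext i
    fin_cases i
    · simp [h0, mul_comm]
    · simp [h1, mul_comm]
  · intro m _ hm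
    rw [monomial_pow, monomial_pow, monomial_mul, mul_comm,
      ← map_natCast (C : F →+* MvPolynomial (Fin 2) F), coeff_C_mul, coeff_monomial, if_neg,
      mul_zero]
    intro h
    have h2 := DFunLike.congr_fun h 0
    rw [h0] at h2
    simp at h2
    apply hm
    rw [mul_comm] at h2
    exact Nat.eq_of_mul_eq_mul_left (Nat.pos_of_ne_zero ha) h2
  · intro h
    rw [Finset.mem_range] at h
    omega

theorem fact_ne {n : ℕ} (hn : n < p) : ((n.factorial : ℕ) : k p) ≠ 0 := by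
  intro h0
  have h1 := ah_fact hn
  rw [h0, zero_mul] at h1
  exact zero_ne_one h1

theorem choose_ne {n m : ℕ} (hn : n < p) (hm : m ≤ n) : ((n.choose m : ℕ) : k p) ≠ 0 := by
  intro h0
  have h1 := fact_ne (p := p) hn
  rw [← Nat.choose_mul_factorial_mul_factorial hm] at h1
  push_cast at h1
  rw [h0, zero_mul, zero_mul] at h1
  exact h1 rfl

variable {f : MvPolynomial (Fin 2) (k p)} {a b M s : ℕ} [NeZero s] (hf : KP f a b M)

include hf

theorem topA (μ : Fin 2 →₀ ℕ) : μ ∈ ({Finsupp.single 0 a, Finsupp.single 1 b} :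
    Finset (Fin 2 →₀ ℕ)) ↔ μ ∈ f.support ∧ wz (oA a b) μ - oA a b 0 = M := by
  classical
  have ha := hf.ha
  have hb := hf.hb
  rw [Finset.mem_insert, Finset.mem_singleton, wz_oA, oA0]
  have hM : (M : ℤ) + b = a * b := by exact_mod_cast hf.hM
  constructor
  · rintro (rfl | rfl)
    · refine ⟨mem_support_iff.2 hf.ca, ?_⟩
      simp
      linarith
    · refine ⟨mem_support_iff.2 hf.cb, ?_⟩
      simp
      linarith
  · rintro ⟨_, h⟩
    have h1 : b * μ 0 + a * μ 1 = a * b := by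
      have : ((b * μ 0 + a * μ 1 : ℕ) : ℤ) = ((a * b : ℕ) : ℤ) := by
        push_cast
        linarith
      exact_mod_cast this
    have h2 : a ∣ b * μ 0 := by
      have h3 : a ∣ b * μ 0 + a * μ 1 := by rw [h1]; exact dvd_mul_right a b
      exact (Nat.dvd_add_left (dvd_mul_right a _)).1 h3
    obtain ⟨t, ht⟩ := hf.hab.dvd_of_dvd_mul_left h2
    have h4 : a * (b * t + μ 1) = a * b := by
      rw [← h1, ht]
      ring
    have h5 : b * t + μ 1 = b := Nat.eq_of_mul_eq_mul_left (by omega) h4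
    rcases Nat.eq_zero_or_pos t with h6 | h6
    · right
      rw [h6, mul_zero] at ht
      rw [h6, mul_zero, zero_add] at h5
      ext i
      fin_cases i
      · simpa using ht
      · simpa using h5
    · left
      have h7 : b * 1 ≤ b * t := Nat.mul_le_mul_left b h6
      have h8 : μ 1 = 0 := by omega
      rw [h8, add_zero] at h5
      have h9 : t = 1 := Nat.eq_of_mul_eq_mul_left (by omega) (h5.trans (mul_one b).symm)
      rw [h9, mul_one] at ht
      ext i
      fin_cases i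
      · simpa using ht
      · simpa using h8

/-- exponents of the same weight `< M` coincide -/
theorem uniq {E : ℕ} {Γ : Type} {T : Finset (Fin 2)} {B w : ℕ} {x y : Γ × Idx T B} (hw : w < M)
    (hx : WW a b M E x = w) (hy : WW a b M E y = w) : x.2 = y.2 := by
  have ha := hf.ha
  have hb := hf.hb
  have hM := hf.hM
  have hr : ∀ z : Γ × Idx T B, WW a b M E z = w → E ≤ (z.2.1 0 : ℕ) := by
    intro z hz
    by_contra h
    have := (WW_left (a := a) (b := b) hf.M_pos z (not_le.1 h) (by omega)).2.1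
    omega
  have hrx := hr x hx
  have hry := hr y hy
  have h1 := WW_right (a := a) (b := b) (M := M) x hrx
  have h2 := WW_right (a := a) (b := b) (M := M) y hry
  rw [wpA, hx] at h1
  rw [wpA, hy] at h2
  obtain ⟨u0, hu0⟩ : ∃ u0, u0 = (x.2.1 0 : ℕ) := ⟨_, rfl⟩
  obtain ⟨u1, hu1⟩ : ∃ u1, u1 = (x.2.1 1 : ℕ) := ⟨_, rfl⟩
  obtain ⟨v0, hv0⟩ : ∃ v0, v0 = (y.2.1 0 : ℕ) := ⟨_, rfl⟩
  obtain ⟨v1, hv1⟩ : ∃ v1, v1 = (y.2.1 1 : ℕ) := ⟨_, rfl⟩
  rw [← hu0, ← hu1] at h1
  rw [← hv0, ← hv1] at h2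
  rw [← hu0] at hrx
  rw [← hv0] at hry
  have hbound : ∀ t0 t1 : ℕ, E ≤ t0 → (b * (t0 : ℤ) + a * (t1 : ℤ) - E * b = w) → t0 < E + a := by
    intro t0 t1 _ h
    by_contra h3
    push Not at h3
    have h4 : b * (E + a) ≤ b * t0 := Nat.mul_le_mul_left b h3
    have h5 : ((b * (E + a) : ℕ) : ℤ) ≤ ((b * t0 : ℕ) : ℤ) := by exact_mod_cast h4
    push_cast at h5
    have h6 : (0 : ℤ) ≤ a * (t1 : ℤ) := by positivity
    have h7 : ((w : ℕ) : ℤ) < M := by exact_mod_cast hw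
    have h8 : (M : ℤ) + b = a * b := by exact_mod_cast hM
    have h9 : (0 : ℤ) < b := by exact_mod_cast hb
    nlinarith
  have b1 := hbound u0 u1 hrx h1
  have b2 := hbound v0 v1 hry h2
  have h3 : (b : ℤ) * ((u0 : ℤ) - v0) = a * ((v1 : ℤ) - u1) := by linarith
  have h4 : (a : ℤ) ∣ (u0 : ℤ) - v0 := by
    have hcop : IsCoprime (a : ℤ) (b : ℤ) := Nat.isCoprime_iff_coprime.2 hf.hab
    exact hcop.dvd_of_dvd_mul_left ⟨_, h3⟩
  have h5 : (u0 : ℤ) - v0 = 0 := by
    refine Int.eq_zero_of_abs_lt_dvd h4 ?_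
    rw [abs_lt]
    constructor <;> omega
  have h6 : u0 = v0 := by omega
  have h7 : u1 = v1 := by
    rw [h5, mul_zero] at h3
    have ha' : (a : ℤ) ≠ 0 := by
      have : a ≠ 0 := by omega
      exact_mod_cast this
    have := (mul_eq_zero.1 h3.symm).resolve_left ha'
    omega
  apply Subtype.ext
  funext i
  fin_cases i
  · apply Fin.ext
    change (x.2.1 0 : ℕ) = (y.2.1 0 : ℕ)
    rw [← hu0, ← hv0, h6]
  · apply Fin.ext
    change (x.2.1 1 : ℕ) = (y.2.1 1 : ℕ)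
    rw [← hu1, ← hv1, h7]

theorem cf_ne (g : Fin (p - 1) × ZMod s) {μ : Fin 2 →₀ ℕ} (hμ : coeff μ f ≠ 0) :
    cf f g μ ≠ 0 := by
  unfold cf
  refine mul_ne_zero ?_ (pow_ne_zero _ hμ)
  intro h0
  rw [CharP.cast_eq_zero_iff (k p) p] at h0
  have h3 := Nat.le_of_dvd (Nat.succ_pos _) h0
  have := g.1.2
  omega

/-- the diagonal entries in weight `≤ M`, right half -/
theorem cbL_diag {N E : ℕ} (hN : p ≤ N) (hE : E = N * f.support.card) {T : Finset (Fin 2)}
    {B w : ℕ} {x y : (Fin (p - 1) × ZMod s) × Idx T B} (hr : E ≤ (x.2.1 0 : ℕ))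
    (hx : WW a b M E x = w) (hw : w ≤ M) (hxy : y.1 = rho p s x.1) (hxy2 : x.2 = y.2) :
    cbL f a b M N E x y ≠ 0 ∧ (w = 0 → cbL f a b M N E x y = 1) := by
  classical
  have ha := hf.ha
  have hb := hf.hb
  have hM := hf.hM
  have hp2 := hp.1.two_le
  have hMpos := hf.M_pos
  obtain ⟨m, hm⟩ := hf.hMp
  have hu := WW_right (a := a) (b := b) (M := M) x hr
  have hle : toF x.2.1 ≤ p • toF y.2.1 := by
    rw [← hxy2]
    intro i
    simp only [Finsupp.smul_apply, toF_apply, smul_eq_mul]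
    exact Nat.le_mul_of_pos_left _ hp.1.pos
  unfold cbL
  rw [if_pos ⟨hxy, hle⟩, if_pos (by rw [← hxy2]; exact hr), if_pos hu]
  obtain ⟨q, hq, hL⟩ := LGb_eq (ω := oA a b) (M := M) (N := N) (by omega) f.support
    (cf f x.1) (topA hf)
  rw [← hE] at hq
  rw [wpA, hx] at hu
  obtain ⟨u1, hu1⟩ : ∃ u1, u1 = (x.2.1 1 : ℕ) := ⟨_, rfl⟩
  obtain ⟨i, hi⟩ : ∃ i, (x.2.1 0 : ℕ) = E + i := ⟨(x.2.1 0 : ℕ) - E, by omega⟩
  have hwi : b * i + a * u1 = w := by
    rw [hi, ← hu1] at hu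
    have : ((b * i + a * u1 : ℕ) : ℤ) = (w : ℤ) := by
      push_cast at hu ⊢
      linarith
    exact_mod_cast this
  -- the exponent
  have hv0 : (p • toF y.2.1 - toF x.2.1) 0 = (p - 1) * (E + i) := by
    rw [← hxy2]
    simp only [Finsupp.tsub_apply, Finsupp.smul_apply, toF_apply, smul_eq_mul]
    rw [hi, Nat.sub_mul, one_mul]
  have hv1 : (p • toF y.2.1 - toF x.2.1) 1 = (p - 1) * u1 := by
    rw [← hxy2]
    simp only [Finsupp.tsub_apply, Finsupp.smul_apply, toF_apply, smul_eq_mul]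
    rw [← hu1, Nat.sub_mul, one_mul]
  have hqle : q ≤ (p - 1) * (E + i) := by
    have : (p - 1) * (E + i) = (p - 1) * E + (p - 1) * i := by ring
    omega
  rw [hL, coeff_Xq, if_pos (by rw [hv0]; exact hqle)]
  obtain ⟨vv, hvv⟩ : ∃ vv, vv = p • toF y.2.1 - toF x.2.1 := ⟨_, rfl⟩
  rw [← hvv] at hv0 hv1 ⊢
  obtain ⟨k₁, hk₁⟩ : ∃ k₁, k₁ = m * (b * i + u1) := ⟨_, rfl⟩
  obtain ⟨a', rfl⟩ : ∃ a', a = a' + 1 := ⟨a - 1, by omega⟩
  have hMb : M = b * a' := by
    have : (a' + 1) * b = b * a' + b := by ring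
    omega
  obtain ⟨k₂, hk₂⟩ : ∃ k₂, k₂ = m * (a' * u1) := ⟨_, rfl⟩
  have hn : k₁ + k₂ = m * w := by
    rw [hk₁, hk₂, ← hwi]
    ring
  have hnp : k₁ + k₂ < p := by
    have h1 : m * w ≤ m * M := Nat.mul_le_mul_left m hw
    rw [mul_comm m M, ← hm] at h1
    omega
  obtain ⟨v', hv'⟩ : ∃ v' : Fin 2 →₀ ℕ, v' =
      Finsupp.single 0 ((a' + 1) * k₁) + Finsupp.single 1 (b * k₂) := ⟨_, rfl⟩
  have hv'0 : v' 0 = (a' + 1) * k₁ := by rw [hv']; simp
  have hv'1 : v' 1 = b * k₂ := by rw [hv']; simp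
  have hcard : (({Finsupp.single 0 (a' + 1), Finsupp.single 1 b} :
      Finset (Fin 2 →₀ ℕ))).card = 2 := by
    rw [Finset.card_insert_of_notMem, Finset.card_singleton]
    rw [Finset.mem_singleton]
    intro h
    have := DFunLike.congr_fun h 0
    simp at this
  have hshift : vv - q • Finsupp.single 0 1 +
      (k₁ + k₂) • Finsupp.single 0 1 = v' + (N * (({Finsupp.single 0 (a' + 1),
        Finsupp.single 1 b} : Finset (Fin 2 →₀ ℕ))).card) • Finsupp.single 0 1 := by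
    have e0 : (p - 1) * (E + i) - q + (k₁ + k₂) = (a' + 1) * k₁ + N * 2 := by
      rw [hcard] at hq
      have h1 : (p - 1) * (E + i) = (p - 1) * E + (p - 1) * i := by ring
      have h2 : (p - 1) * i + (k₁ + k₂) = (a' + 1) * k₁ := by
        rw [hn, hk₁, hm, ← hwi, hMb]
        ring
      omega
    have e1 : (p - 1) * u1 = b * k₂ := by
      rw [hk₂, hm, hMb]
      ring
    rw [← hv0] at e0
    rw [← hv1] at e1
    rw [hcard]
    ext j
    fin_cases j
    · simp [hv'0]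
      exact e0
    · simp [hv'1]
      exact e1
  have hwz : wz (oA (a' + 1) b) v' = ((k₁ + k₂ : ℕ) : ℤ) * ((M : ℤ) + oA (a' + 1) b 0) := by
    rw [wz_oA, oA0, hv'0, hv'1]
    have : (M : ℤ) + b = (a' + 1 : ℕ) * b := by exact_mod_cast hM
    rw [this]
    push_cast
    ring
  have hS : ∀ μ ∈ ({Finsupp.single 0 (a' + 1), Finsupp.single 1 b} : Finset (Fin 2 →₀ ℕ)),
      wz (oA (a' + 1) b) μ = (M : ℤ) + oA (a' + 1) b 0 := by
    intro μ hμ
    have := ((topA hf μ).1 hμ).2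
    linarith
  have hmain := coeff_Lb (p := p) _ hS (by
    have : (M : ℤ) ≠ 0 := by exact_mod_cast hMpos.ne'
    intro h
    apply this
    linarith) hN (cf f x.1) hnp _ v' hshift hwz
  rw [Finset.sum_pair (by
    intro h
    have := DFunLike.congr_fun h 0
    simp at this), bin_coeff (by omega) _ _ k₁ k₂ hv'0 hv'1] at hmain
  have hfac := fact_ne (p := p) hnp
  constructor
  · intro h0
    rw [h0, mul_zero] at hmain
    exact (mul_ne_zero (choose_ne hnp (Nat.le_add_right _ _))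
      (mul_ne_zero (pow_ne_zero _ (cf_ne hf _ hf.ca)) (pow_ne_zero _ (cf_ne hf _ hf.cb))))
      hmain.symm
  · intro hw0
    have h1 : k₁ + k₂ = 0 := by rw [hn, hw0, mul_zero]
    have h2 : k₁ = 0 := by omega
    have h3 : k₂ = 0 := by omega
    rw [h2, h3] at hmain
    simpa using hmain

end Lau

end Pool.Agent.N867.AS
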