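import Pool.Agent.N867.AS.V2

/-!
# The determinant in weight `M`
-/

set_option autoImplicit false
set_option linter.unusedSectionVars false

namespace Pool.Agent.N867.AS

namespace VD

open Polynomial

/-! ### the permutation matrix -/

section cyc

variable {R : Type} [CommRing R] {e : ℕ} {N : Fin e → ℕ} [∀ i, NeZero (N i)]

/-- the shift on a disjoint union of cyclic groups -/
def sh (N : Fin e → ℕ) : Equiv.Perm (Σ i : Fin e, ZMod (N i)) where
  toFun z := ⟨z.1, z.2 + 1⟩
  invFun z := ⟨z.1, z.2 - 1⟩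
  left_inv z := by simp
  right_inv z := by simp

theorem det_sh (a : R) :
    (Matrix.of fun z z' : Σ i : Fin e, ZMod (N i) => (if z = z' then (1 : R) else 0) -
      (if z' = sh N z then a else 0)).det = ∏ i, (1 - a ^ N i) := by
  classical
  have htri : (Matrix.of fun z z' : Σ i : Fin e, ZMod (N i) => (if z = z' then (1 : R) else 0) -
      (if z' = sh N z then a else 0)).BlockTriangular Sigma.fst := by
    intro z z' h
    rw [Matrix.of_apply, if_neg, if_neg, sub_zero]
    · intro h2
      rw [h2] at h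
      exact lt_irrefl _ h
    · intro h2
      rw [h2] at h
      exact lt_irrefl _ h
  rw [htri.det_fintype]
  refine Finset.prod_congr rfl fun i _ => ?_
  obtain ⟨q, hq⟩ : ∃ q : ZMod (N i) ≃ {z : Σ i : Fin e, ZMod (N i) // z.1 = i},
      ∀ t, (q t).1 = ⟨i, t⟩ := by
    refine ⟨Equiv.ofBijective (fun t => ⟨⟨i, t⟩, rfl⟩) ⟨?_, ?_⟩, fun t => rfl⟩
    · intro t t' h
      have h1 := congrArg Subtype.val h
      simpa using h1
    · rintro ⟨⟨i', t⟩, h⟩
      simp only at h
      subst h
      exact ⟨t, rfl⟩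
  rw [← Matrix.det_submatrix_equiv_self q]
  have h1 := Cyc.cyc_det (R := R) (s := N i) (fun _ => a)
  rw [Finset.prod_const, Finset.card_univ, ZMod.card] at h1
  rw [← h1]
  congr 1
  ext1 t t'
  rw [Matrix.submatrix_apply, Matrix.toSquareBlock_def, Matrix.of_apply, Matrix.of_apply,
    Matrix.of_apply, hq, hq]
  congr 1
  · by_cases h : t = t'
    · rw [if_pos h, if_pos (by rw [h])]
    · rw [if_neg h, if_neg]
      intro h2
      apply h
      simpa using h2
  · by_cases h : t' = t + 1
    · rw [if_pos h, if_pos (by rw [h]; rfl)]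
    · rw [if_neg h, if_neg]
      intro h2
      apply h
      have h3 : (⟨i, t'⟩ : Σ i : Fin e, ZMod (N i)) = ⟨i, t + 1⟩ := h2
      simpa using h3

end cyc

variable {F : Type} [Field F] {p : ℕ} [hp : Fact p.Prime] {s g : ℕ} [NeZero s]

/-- removing the exponent `g + 1` -/
theorem det_last (H : ZMod s → F[X]) (hm : ∀ j, (H j).Monic) (hdeg : ∀ j, (H j).natDegree = g + 1)
    (hgp : g + 1 < p) :
    (Matrix.of fun x y : ZMod s × Fin (g + 1) => (if x = y then (1 : F[X]) else 0) -
      X * C (TT p H (g + 1) x y)).det =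
    (Matrix.of fun x y : ZMod s × Fin g => (if x = y then (1 : F[X]) else 0) -
      X * C (TT p H g x y)).det * (1 - X ^ s) := by
  classical
  obtain ⟨q, hq1, hq2⟩ : ∃ q : (ZMod s × Fin g) ⊕ ZMod s ≃ ZMod s × Fin (g + 1),
      (∀ x, q (Sum.inl x) = (x.1, x.2.castSucc)) ∧ ∀ j, q (Sum.inr j) = (j, Fin.last g) := by
    refine ⟨Equiv.ofBijective (Sum.elim (fun x => (x.1, x.2.castSucc)) fun j => (j, Fin.last g))
      ⟨?_, ?_⟩, fun _ => rfl, fun _ => rfl⟩
    · rintro (⟨j, u⟩ | j) (⟨j', u'⟩ | j') h
      · simp only [Sum.elim_inl, Prod.mk.injEq, Fin.castSucc_inj] at h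
        rw [h.1, h.2]
      · simp only [Sum.elim_inl, Sum.elim_inr, Prod.mk.injEq] at h
        exact absurd h.2 (Fin.castSucc_ne_last u)
      · simp only [Sum.elim_inl, Sum.elim_inr, Prod.mk.injEq] at h
        exact absurd h.2.symm (Fin.castSucc_ne_last u')
      · simp only [Sum.elim_inr, Prod.mk.injEq, and_true] at h
        rw [h]
    · rintro ⟨j, u⟩
      induction u using Fin.lastCases with
      | last => exact ⟨Sum.inr j, rfl⟩
      | cast u => exact ⟨Sum.inl (j, u), rfl⟩
  have hp2 := hp.1.two_le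
  have hpow : ∀ j, (H j ^ (p - 1)).natDegree = (p - 1) * (g + 1) := by
    intro j
    rw [(hm j).natDegree_pow, hdeg]
  have hpg : p * (g + 1) = (p - 1) * (g + 1) + (g + 1) := by
    obtain ⟨r, rfl⟩ : ∃ r, p = r + 1 := ⟨p - 1, by omega⟩
    rw [Nat.add_sub_cancel]
    ring
  have hblk : (Matrix.of fun x y : ZMod s × Fin (g + 1) => (if x = y then (1 : F[X]) else 0) -
      X * C (TT p H (g + 1) x y)).submatrix q q = Matrix.fromBlocks
      (Matrix.of fun x y : ZMod s × Fin g => (if x = y then (1 : F[X]) else 0) -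
        X * C (TT p H g x y)) 0
      (Matrix.of fun (j : ZMod s) (y : ZMod s × Fin g) =>
        - (X * C (TT p H (g + 1) (j, Fin.last g) (y.1, y.2.castSucc))))
      (Matrix.of fun x y : ZMod s => (if x = y then (1 : F[X]) else 0) -
        (if y = x + 1 then X else 0)) := by
    ext1 x y
    rcases x with ⟨j, u⟩ | j
    · rcases y with ⟨j', v⟩ | j'
      · rw [Matrix.fromBlocks_apply₁₁, Matrix.submatrix_apply, Matrix.of_apply, Matrix.of_apply,
          hq1, hq1]
        congr 1
        simp only [Prod.mk.injEq, Fin.castSucc_inj]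
      · rw [Matrix.fromBlocks_apply₁₂, Matrix.submatrix_apply, Matrix.of_apply, hq1, hq2,
          if_neg, Matrix.zero_apply]
        · have h1 : TT p H (g + 1) (j, u.castSucc) (j', Fin.last g) = 0 := by
            unfold TT
            split_ifs
            · refine coeff_eq_zero_of_natDegree_lt ?_
              rw [hpow]
              simp only [Fin.val_last, Fin.val_castSucc]
              have := u.2
              omega
            · rfl
          rw [h1, C_0, mul_zero, sub_zero]
        · intro h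
          simp only [Prod.mk.injEq] at h
          exact Fin.castSucc_ne_last u h.2
    · rcases y with ⟨j', v⟩ | j'
      · rw [Matrix.fromBlocks_apply₂₁, Matrix.submatrix_apply, Matrix.of_apply, Matrix.of_apply,
          hq1, hq2, if_neg, zero_sub]
        intro h
        simp only [Prod.mk.injEq] at h
        exact Fin.castSucc_ne_last v h.2.symm
      · rw [Matrix.fromBlocks_apply₂₂, Matrix.submatrix_apply, Matrix.of_apply, Matrix.of_apply,
          hq2, hq2]
        congr 1
        · simp only [Prod.mk.injEq, and_true]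
        · unfold TT
          simp only
          by_cases h : j' = j + 1
          · rw [if_pos h, if_pos h]
            have h1 : p * (((Fin.last g : Fin (g + 1)) : ℕ) + 1) -
                (((Fin.last g : Fin (g + 1)) : ℕ) + 1) = (H j ^ (p - 1)).natDegree := by
              rw [hpow, Fin.val_last]
              omega
            rw [h1, ((hm j).pow _).coeff_natDegree, C_1, mul_one]
          · rw [if_neg h, if_neg h, C_0, mul_zero]
  rw [← Matrix.det_submatrix_equiv_self q, hblk, Matrix.det_fromBlocks_zero₁₂,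
    Cyc.cyc_det (R := F[X]) (fun _ => X), Finset.prod_const, Finset.card_univ, ZMod.card]

/-! ### counting the root `1` -/

theorem mult_one_sub [CharP F p] {s : ℕ} (hs : s ≠ 0) {n : ℕ} (hn : ¬ p ∣ n) :
    rootMultiplicity (1 : F) (1 - X ^ (s * n) : F[X]) = rootMultiplicity (1 : F) (1 - X ^ s) := by
  have h1 : (1 - X ^ (s * n) : F[X]) = (1 - X ^ s) * ∑ i ∈ Finset.range n, (X ^ s) ^ i := by
    rw [mul_neg_geom_sum, ← pow_mul]
  have h2 : (∑ i ∈ Finset.range n, (X ^ s) ^ i : F[X]).eval 1 = (n : F) := by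
    rw [eval_finsetSum]
    simp
  have h3 : ((n : ℕ) : F) ≠ 0 := by
    rw [Ne, CharP.cast_eq_zero_iff F p]
    exact hn
  have h4 : (∑ i ∈ Finset.range n, (X ^ s) ^ i : F[X]) ≠ 0 := by
    intro h
    rw [h, eval_zero] at h2
    exact h3 h2.symm
  have h5 : (1 - X ^ s : F[X]) ≠ 0 := by
    intro h
    have h6 := congrArg (eval 0) h
    simp [zero_pow hs] at h6
  rw [h1, rootMultiplicity_mul (mul_ne_zero h5 h4),
    rootMultiplicity_eq_zero (p := ∑ i ∈ Finset.range n, (X ^ s : F[X]) ^ i), add_zero]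
  rw [IsRoot, h2]
  exact h3

theorem mult_pos {s : ℕ} (hs : s ≠ 0) : 0 < rootMultiplicity (1 : F) (1 - X ^ s) := by
  have h5 : (1 - X ^ s : F[X]) ≠ 0 := by
    intro h
    have h6 := congrArg (eval 0) h
    simp [zero_pow hs] at h6
  rw [rootMultiplicity_pos h5, IsRoot]
  simp

theorem mult_pow {c : F} {P : F[X]} (hP : P ≠ 0) (n : ℕ) :
    rootMultiplicity c (P ^ n) = n * rootMultiplicity c P := by
  induction n with
  | zero => simp
  | succ n ih =>
    rw [pow_succ, rootMultiplicity_mul (mul_ne_zero (pow_ne_zero _ hP) hP), ih]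
    ring

theorem one_sub_ne {s : ℕ} (hs : s ≠ 0) (l : F) : (1 - C l * X ^ s : F[X]) ≠ 0 := by
  intro h
  have h6 := congrArg (eval 0) h
  simp [zero_pow hs] at h6

theorem mult_multiset [DecidableEq F] {s : ℕ} (hs : s ≠ 0) (L : Multiset F) :
    L.count 1 * rootMultiplicity (1 : F) (1 - X ^ s) ≤
      rootMultiplicity (1 : F) (L.map fun l => (1 - C l * X ^ s : F[X])).prod := by
  induction L using Multiset.induction_on with
  | empty => simp
  | cons l L ih =>
    have h0 : (L.map fun l => (1 - C l * X ^ s : F[X])).prod ≠ 0 := by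
      refine Multiset.prod_ne_zero fun h => ?_
      rw [Multiset.mem_map] at h
      obtain ⟨l, _, hl⟩ := h
      exact one_sub_ne hs l hl
    rw [Multiset.map_cons, Multiset.prod_cons, rootMultiplicity_mul (mul_ne_zero
      (one_sub_ne hs l) h0), Multiset.count_cons]
    split_ifs with h
    · rw [← h, C_1, one_mul, add_mul, one_mul, add_comm]
      exact Nat.add_le_add_left ih _
    · rw [add_zero]
      exact ih.trans (Nat.le_add_left _ _)

/-- the final count -/
theorem final_count [CharP F p] [DecidableEq F] {s e : ℕ} (hs : s ≠ 0) (n : Fin e → ℕ)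
    (hn : ∀ i, ¬ p ∣ n i) (D : F[X]) (hD : D * (1 - X ^ s) ^ (p - 1) =
      (∏ i, (1 - X ^ (s * n i))) ^ (p - 1)) (L : Multiset F) {w w' : F} (hw : w ≠ 0)
    (hw' : w' ≠ 0) (a b : ℕ) (h : C w' * X ^ b * D = C w * (X ^ a *
      (L.map fun l => (1 - C l * X ^ s : F[X])).prod)) :
    L.count 1 ≤ (p - 1) * (e - 1) := by
  obtain ⟨m, hm⟩ : ∃ m, m = rootMultiplicity (1 : F) (1 - X ^ s) := ⟨_, rfl⟩
  have hmpos : 0 < m := by rw [hm]; exact mult_pos hs
  have hXs : (1 - X ^ s : F[X]) ≠ 0 := by
    have := one_sub_ne hs (1 : F)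
    rwa [C_1, one_mul] at this
  have hXn : ∀ i, (1 - X ^ (s * n i) : F[X]) ≠ 0 := by
    intro i
    have h1 : s * n i ≠ 0 := mul_ne_zero hs fun h0 => hn i (by rw [h0]; exact dvd_zero p)
    have := one_sub_ne h1 (1 : F)
    rwa [C_1, one_mul] at this
  have hprod0 : (∏ i, (1 - X ^ (s * n i)) : F[X]) ≠ 0 := Finset.prod_ne_zero_iff.2 fun i _ => hXn i
  have hD0 : D ≠ 0 := by
    rintro rfl
    rw [zero_mul] at hD
    exact pow_ne_zero _ hprod0 hD.symm
  have hL0 : (L.map fun l => (1 - C l * X ^ s : F[X])).prod ≠ 0 := by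
    refine Multiset.prod_ne_zero fun h => ?_
    rw [Multiset.mem_map] at h
    obtain ⟨l, _, hl⟩ := h
    exact one_sub_ne hs l hl
  have hX : ∀ a : ℕ, rootMultiplicity (1 : F) (X ^ a : F[X]) = 0 := by
    intro a
    refine rootMultiplicity_eq_zero ?_
    rw [IsRoot, eval_pow, eval_X, one_pow]
    exact one_ne_zero
  have hC : ∀ c : F, rootMultiplicity (1 : F) (C c) = 0 := fun c => rootMultiplicity_C _ _
  have h1 := congrArg (rootMultiplicity (1 : F)) h
  rw [rootMultiplicity_mul (mul_ne_zero (mul_ne_zero (C_ne_zero.2 hw') (pow_ne_zero _ X_ne_zero))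
    hD0), rootMultiplicity_mul (mul_ne_zero (C_ne_zero.2 hw') (pow_ne_zero _ X_ne_zero)),
    rootMultiplicity_mul (mul_ne_zero (C_ne_zero.2 hw) (mul_ne_zero (pow_ne_zero _ X_ne_zero)
    hL0)), rootMultiplicity_mul (mul_ne_zero (pow_ne_zero _ X_ne_zero) hL0), hX, hX, hC, hC,
    zero_add, zero_add, zero_add, zero_add] at h1
  have h2 := congrArg (rootMultiplicity (1 : F)) hD
  rw [rootMultiplicity_mul (mul_ne_zero hD0 (pow_ne_zero _ hXs)), mult_pow hXs, mult_pow hprod0]
    at h2
  have h3 : rootMultiplicity (1 : F) (∏ i, (1 - X ^ (s * n i)) : F[X]) = e * m := by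
    have h4 : ∀ S : Finset (Fin e), rootMultiplicity (1 : F)
        (∏ i ∈ S, (1 - X ^ (s * n i)) : F[X]) = S.card * m := by
      intro S
      induction S using Finset.induction_on with
      | empty => simp [rootMultiplicity_eq_zero]
      | insert i S hi ih =>
        rw [Finset.prod_insert hi, rootMultiplicity_mul (mul_ne_zero (hXn i)
          (Finset.prod_ne_zero_iff.2 fun i _ => hXn i)), ih, mult_one_sub hs (hn i), ← hm,
          Finset.card_insert_of_notMem hi]
        ring
    rw [h4, Finset.card_univ, Fintype.card_fin]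
  rw [h3, h1, ← hm] at h2
  have h4 := mult_multiset (F := F) hs L
  rw [← hm] at h4
  have h5 : (L.count 1 + (p - 1)) * m ≤ (p - 1) * e * m := by
    calc (L.count 1 + (p - 1)) * m = L.count 1 * m + (p - 1) * m := by ring
      _ ≤ _ := Nat.add_le_add_right h4 _
      _ = (p - 1) * (e * m) := h2
      _ = _ := by ring
  have h6 := Nat.le_of_mul_le_mul_right h5 hmpos
  rcases Nat.eq_zero_or_pos e with rfl | he
  · have hp2 := hp.1.two_le
    omega
  · obtain ⟨e', rfl⟩ : ∃ e', e = e' + 1 := ⟨e - 1, by omega⟩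
    rw [Nat.add_sub_cancel, Nat.mul_succ] at *
    omega

end VD

end Pool.Agent.N867.AS
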