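import Pool.Agent.N867.AS.K8
import Pool.Agent.N867.AS.V3

/-!
# The blocks for a simple pole
-/

set_option autoImplicit false
set_option linter.unusedSectionVars false

namespace Pool.Agent.N867.AS

namespace Lau

open Res Tr GW RedS MvPolynomial

variable {p : ℕ} [hp : Fact p.Prime]

/-- the embedding of polynomials in the second variable -/
noncomputable def th (F : Type) [Field F] : Polynomial F →+* MvPolynomial (Fin 2) F :=
  Polynomial.eval₂RingHom C (X 1)

theorem th_monomial {F : Type} [Field F] (j : ℕ) (c : F) :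
    th F (Polynomial.C c * Polynomial.X ^ j) = monomial (Finsupp.single 1 j) c := by
  unfold th
  rw [Polynomial.coe_eval₂RingHom, Polynomial.eval₂_mul, Polynomial.eval₂_C, Polynomial.eval₂_pow,
    Polynomial.eval₂_X, X_pow_eq_monomial, C_mul_monomial, mul_one]

theorem coeff_th {F : Type} [Field F] (P : Polynomial F) (n : ℕ) :
    coeff (Finsupp.single 1 n) (th F P) = P.coeff n := by
  classical
  conv_lhs => rw [P.as_sum_support_C_mul_X_pow]
  rw [map_sum, coeff_sum, Finset.sum_congr rfl fun j _ => by rw [th_monomial, coeff_monomial]]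
  have h1 : ∀ j : ℕ, (Finsupp.single 1 j = (Finsupp.single 1 n : Fin 2 →₀ ℕ)) ↔ j = n := by
    intro j
    constructor
    · intro h
      have := DFunLike.congr_fun h 1
      simpa using this
    · rintro rfl
      rfl
  simp only [h1, Finset.sum_ite_eq']
  split_ifs with h
  · rfl
  · exact (Polynomial.notMem_support_iff.1 h).symm

/-- the residual polynomial -/
noncomputable def hz (f : MvPolynomial (Fin 2) (k p)) (b l : ℕ) : Polynomial (k p) :=
  ∑ j ∈ Finset.range (b + 1),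
    Polynomial.C (coeff (Finsupp.single 1 j) f ^ p ^ l) * Polynomial.X ^ j

variable {f : MvPolynomial (Fin 2) (k p)} {a b M s : ℕ} [NeZero s] (hf : KP f a b M)

theorem fer (g : Fin (p - 1)) : (((g : ℕ) + 1 : ℕ) : k p) ^ (p - 1) = 1 := by
  have h3 : (((g : ℕ) + 1 : ℕ) : k p) ^ p = (((g : ℕ) + 1 : ℕ) : k p) :=
    map_natCast (frobenius (k p) p) _
  have h4 : (((g : ℕ) + 1 : ℕ) : k p) ≠ 0 := by
    intro h0
    rw [CharP.cast_eq_zero_iff (k p) p] at h0
    have h5 := Nat.le_of_dvd (Nat.succ_pos _) h0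
    have := g.2
    omega
  refine mul_right_cancel₀ h4 ?_
  rw [← pow_succ, Nat.sub_add_cancel hp.1.one_le, h3, one_mul]

theorem wil : (((p - 1).factorial : ℕ) : k p) = -1 := by
  have h3 := ZMod.wilsons_lemma p
  have h4 := congrArg (ZMod.castHom (dvd_refl p) (k p)) h3
  rw [map_natCast, map_neg, map_one] at h4
  exact h4

include hf

theorem topB : ∃ TB : Finset (Fin 2 →₀ ℕ),
    (∀ μ, μ ∈ TB ↔ μ ∈ f.support ∧ wz (oB M) μ - oB M 0 = M) ∧ 0 < TB.card ∧
    ∀ g : Fin (p - 1) × ZMod s, ∑ μ ∈ TB, monomial μ (cf f g μ) =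
      C (((g.1 : ℕ) + 1 : ℕ) : k p) * th (k p) (hz f b g.2.val) := by
  classical
  have hMpos := hf.M_pos
  have ha := hf.ha
  refine ⟨f.support.filter fun μ => wz (oB M) μ - oB M 0 = M, fun μ => by rw [Finset.mem_filter],
    ?_, ?_⟩
  · rw [Finset.card_pos]
    refine ⟨Finsupp.single 1 b, ?_⟩
    rw [Finset.mem_filter, mem_support_iff, wz_oB, oB0]
    refine ⟨hf.cb, ?_⟩
    simp
  · intro g
    have h0 : ∀ μ : Fin 2 →₀ ℕ, wz (oB M) μ - oB M 0 = M ↔ μ 0 = 0 := by
      intro μ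
      rw [wz_oB, oB0]
      have hM' : (M : ℤ) ≠ 0 := by exact_mod_cast hMpos.ne'
      constructor
      · intro h
        have h1 : (M : ℤ) * μ 0 = 0 := by linarith
        have := (mul_eq_zero.1 h1).resolve_left hM'
        exact_mod_cast this
      · intro h
        rw [h]
        simp
    have h1 : f.support.filter (fun μ => wz (oB M) μ - oB M 0 = M) ⊆
        (Finset.range (b + 1)).image (fun j => Finsupp.single 1 j) := by
      intro μ hμ
      rw [Finset.mem_filter, h0] at hμ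
      rw [Finset.mem_image]
      refine ⟨μ 1, ?_, ?_⟩
      · rw [Finset.mem_range]
        have h2 := hf.wt μ hμ.1
        rw [hμ.2, mul_zero, zero_add] at h2
        have := Nat.le_of_mul_le_mul_left h2 (by omega)
        omega
      · ext i
        fin_cases i
        · simp [hμ.2]
        · simp
    rw [Finset.sum_subset h1]
    · rw [Finset.sum_image]
      · rw [hz, map_sum, Finset.mul_sum]
        refine Finset.sum_congr rfl fun j _ => ?_
        rw [th_monomial, C_mul_monomial, cf]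
      · intro j _ j' _ h
        have := DFunLike.congr_fun h 1
        simpa using this
    · intro μ hμ hμ'
      rw [Finset.mem_image] at hμ
      obtain ⟨j, _, rfl⟩ := hμ
      rw [Finset.mem_filter, h0, not_and] at hμ'
      have h2 : coeff (Finsupp.single 1 j) f = 0 := by
        by_contra h3
        refine hμ' (mem_support_iff.2 h3) ?_
        simp
      rw [cf, h2, zero_pow (pow_ne_zero _ hp.1.ne_zero), mul_zero, monomial_zero]

theorem cbL_B {N E : ℕ} (hN : p ≤ N) (hE : E = N * f.support.card) {T : Finset (Fin 2)}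
    {B : ℕ} {x y : (Fin (p - 1) × ZMod s) × Idx T B} (hx0 : (x.2.1 0 : ℕ) + 1 = E)
    (hy0 : (y.2.1 0 : ℕ) + 1 = E) (hx : WW a b M E x = M)
    (hxy : y.1 = rho p s x.1) (hle1 : (x.2.1 1 : ℕ) ≤ p * (y.2.1 1 : ℕ)) :
    cbL f a b M N E x y =
      - (hz f b x.1.2.val ^ (p - 1)).coeff (p * (y.2.1 1 : ℕ) - (x.2.1 1 : ℕ)) := by
  classical
  have hp2 := hp.1.two_le
  have hMpos := hf.M_pos
  have hle : toF x.2.1 ≤ p • toF y.2.1 := by
    intro i
    simp only [Finsupp.smul_apply, toF_apply, smul_eq_mul]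
    fin_cases i
    · have h1 : (x.2.1 0 : ℕ) = (y.2.1 0 : ℕ) := by omega
      change (x.2.1 0 : ℕ) ≤ p * (y.2.1 0 : ℕ)
      rw [h1]
      exact Nat.le_mul_of_pos_left _ hp.1.pos
    · exact hle1
  have hwB : wp (oB M) 0 E x = WW a b M E x := by
    have h1 : (E : ℤ) - ((x.2.1 0 : ℕ) : ℤ) = 1 := by omega
    rw [wpB, h1, mul_one, hx]
  unfold cbL
  rw [if_pos ⟨hxy, hle⟩, if_neg (by omega), if_pos hwB]
  obtain ⟨TB, hTB, hTc, hsum⟩ := topB (s := s) hf
  obtain ⟨q, hq, hL⟩ := LGb_eq (ω := oB M) (M := M) (N := N) (by omega) f.support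
    (cf f x.1) hTB
  rw [← hE] at hq
  have hNT : N * 1 ≤ N * TB.card := Nat.mul_le_mul_left N hTc
  have hv0 : (p • toF y.2.1 - toF x.2.1) 0 = (p - 1) * (y.2.1 0 : ℕ) := by
    simp only [Finsupp.tsub_apply, Finsupp.smul_apply, toF_apply, smul_eq_mul]
    have h1 : (x.2.1 0 : ℕ) = (y.2.1 0 : ℕ) := by omega
    rw [h1, Nat.sub_mul, one_mul]
  have hv1 : (p • toF y.2.1 - toF x.2.1) 1 = p * (y.2.1 1 : ℕ) - (x.2.1 1 : ℕ) := by
    simp only [Finsupp.tsub_apply, Finsupp.smul_apply, toF_apply, smul_eq_mul]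
  obtain ⟨vv, hvv⟩ : ∃ vv, vv = p • toF y.2.1 - toF x.2.1 := ⟨_, rfl⟩
  rw [← hvv] at hv0 hv1 ⊢
  rw [← hv1]
  have hpE : (p - 1) * (y.2.1 0 : ℕ) + (p - 1) = (p - 1) * E := by
    rw [← hy0]
    ring
  rw [hL, coeff_Xq, if_pos (by omega)]
  have hshift : vv - q • Finsupp.single 0 1 + (p - 1) • Finsupp.single 0 1 =
      Finsupp.single 1 (vv 1) + (N * TB.card) • Finsupp.single 0 1 := by
    ext j
    fin_cases j
    · simp
      omega
    · simp
  have hwz : wz (oB M) (Finsupp.single 1 (vv 1)) = ((p - 1 : ℕ) : ℤ) * ((M : ℤ) + oB M 0) := by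
    rw [wz_oB, oB0]
    simp
  have hS : ∀ μ ∈ TB, wz (oB M) μ = (M : ℤ) + oB M 0 := by
    intro μ hμ
    have := ((hTB μ).1 hμ).2
    linarith
  have hmain := coeff_Lb (p := p) _ hS (by
    have : (M : ℤ) ≠ 0 := by exact_mod_cast hMpos.ne'
    intro h
    apply this
    linarith) hN (cf f x.1) (n := p - 1) (by omega) _ _ hshift hwz
  rw [hsum, mul_pow, ← C_pow, coeff_C_mul, fer, one_mul, ← map_pow, coeff_th, wil] at hmain
  rw [← hmain]
  ring

/-- elements of weight `M` -/
theorem wt_M {E : ℕ} {Γ : Type} {T : Finset (Fin 2)} {B : ℕ} {x : Γ × Idx T B}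
    (h1 : 0 < (x.2.1 1 : ℕ)) :
    WW a b M E x = M ↔ ((x.2.1 0 : ℕ) + 1 = E ∧ (x.2.1 1 : ℕ) ≤ b) := by
  have ha := hf.ha
  have hb := hf.hb
  have hM := hf.hM
  have hMz : (M : ℤ) + b = a * b := by exact_mod_cast hM
  have hMpos := hf.M_pos
  constructor
  · intro h
    by_cases hr : E ≤ (x.2.1 0 : ℕ)
    · exfalso
      have h2 := WW_right (a := a) (b := b) (M := M) x hr
      rw [wpA, h] at h2
      obtain ⟨i, hi⟩ : ∃ i, (x.2.1 0 : ℕ) = E + i := ⟨(x.2.1 0 : ℕ) - E, by omega⟩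
      obtain ⟨u, hu⟩ : ∃ u, u = (x.2.1 1 : ℕ) := ⟨_, rfl⟩
      rw [hi, ← hu] at h2
      rw [← hu] at h1
      have h3 : b * (i + 1) + a * u = a * b := by
        have : ((b * (i + 1) + a * u : ℕ) : ℤ) = ((a * b : ℕ) : ℤ) := by
          push_cast at h2 ⊢
          linarith
        exact_mod_cast this
      have h4 : b ∣ a * u := by
        have h5 : b ∣ b * (i + 1) + a * u := by rw [h3]; exact dvd_mul_left b a
        exact (Nat.dvd_add_right (dvd_mul_right b _)).1 h5
      have h6 : b ∣ u := hf.hab.symm.dvd_of_dvd_mul_left h4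
      have h7 := Nat.le_of_dvd h1 h6
      have h8 : a * b ≤ a * u := Nat.mul_le_mul_left a h7
      have h9 : 0 < b * (i + 1) := Nat.mul_pos hb (Nat.succ_pos i)
      omega
    · have hl := WW_left (a := a) (b := b) hMpos x (not_le.1 hr) h.le
      refine ⟨hl.1, ?_⟩
      have h2 : wp (oA a b) 0 E x ≤ WW a b M E x := leA_WW x
      rw [wpA, h] at h2
      have h3 : (E : ℤ) = ((x.2.1 0 : ℕ) : ℤ) + 1 := by exact_mod_cast hl.1.symm
      rw [h3] at h2
      have h4 : a * (x.2.1 1 : ℕ) ≤ a * b := by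
        have : ((a * (x.2.1 1 : ℕ) : ℕ) : ℤ) ≤ ((a * b : ℕ) : ℤ) := by
          push_cast
          linarith
        exact_mod_cast this
      exact Nat.le_of_mul_le_mul_left h4 (by omega)
  · rintro ⟨h2, h3⟩
    have h4 : (E : ℤ) = ((x.2.1 0 : ℕ) : ℤ) + 1 := by exact_mod_cast h2.symm
    have h5 : (WW a b M E x : ℤ) = M := by
      rw [WW_cast, wpA, wpB, h4, max_eq_right]
      · ring
      · have h6 : a * (x.2.1 1 : ℕ) ≤ a * b := Nat.mul_le_mul_left a h3
        have h7 : ((a * (x.2.1 1 : ℕ) : ℕ) : ℤ) ≤ ((a * b : ℕ) : ℤ) := by exact_mod_cast h6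
        push_cast at h7
        linarith
    exact_mod_cast h5

end Lau

end Pool.Agent.N867.AS
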