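import Pool.Agent.N867.AS.CoreAbs

/-!
# The combinatorial core of the rank argument, several degrees
-/

set_option autoImplicit false

namespace Pool.Agent.N867.AS

namespace CoreAbs2

variable {A : Type*} [CommRing A] [IsDomain A] {Γ : Type*} [LinearOrderedCommGroupWithZero Γ]
  {ι J : Type*} [Fintype ι] [Fintype J] [DecidableEq ι] [DecidableEq J]

theorem core (WΘ : A →*₀ Γ) (W : ι → J → A →*₀ Γ) (F : ι → A) (Y : J → A)
    (hFY : ∏ i, F i = ∏ j, Y j) (hF0 : ∏ i, F i ≠ 0) {Λ : ι → Γ} (hΛ0 : ∀ i, Λ i ≠ 0)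
    (hΛ : 1 < ∏ i, Λ i)
    (hWF : ∀ k l i, i ≠ k → W k l (F i) = Λ i) (hΘF : ∀ i, WΘ (F i) = Λ i)
    (hWY : ∀ k l j, j ≠ l → W k l (Y j) = 1) (hle : ∀ k l x, W k l x ≤ WΘ x)
    (hge : ∀ k l x, W k l x ≠ 0 → 1 ≤ W k l x)
    (n : ι → J → ℕ) (N : ℕ) (h : A) (s s' x y e : J → A) (u u' X X' e' : ι → A)
    (hs : ∀ k l l', W k l (s l') = WΘ (s l')) (hs' : ∀ k l l', W k l (s' l') = WΘ (s' l'))
    (hu : ∀ k l k', W k l (u k') = WΘ (u k')) (hu' : ∀ k l k', W k l (u' k') = WΘ (u' k'))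
    (hs0 : ∀ l, WΘ (s l) ≠ 0) (hs0' : ∀ l, WΘ (s' l) ≠ 0)
    (hu0 : ∀ k, WΘ (u k) ≠ 0) (hu0' : ∀ k, WΘ (u' k) ≠ 0)
    (he : ∀ k l, W k l (e l) = 1) (he' : ∀ k l, W k l (e' k) = 1) (heΘ : ∀ k, WΘ (e' k) = 1)
    (h1 : ∀ l, s' l * x l * ∏ i, F i ^ n i l = s l * (∏ j ∈ Finset.univ.erase l, Y j) ^ N * h)
    (h2 : ∀ k, u' k * X k * ∏ j, Y j ^ n k j = u k * (∏ i ∈ Finset.univ.erase k, F i) ^ N * h)
    (h3 : ∀ l, x l * y l = e l * (∏ j ∈ Finset.univ.erase l, Y j) ^ (2 * N))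
    (h4 : ∀ k, X k * X' k = e' k * (∏ i ∈ Finset.univ.erase k, F i) ^ (2 * N))
    (k k' : ι) (l l' : J) : n k l + n k' l' = n k l' + n k' l := by
  -- values of the products
  have hZ : ∀ k l, W k l (∏ j ∈ Finset.univ.erase l, Y j) = 1 := by
    intro k l
    rw [map_prod]
    exact Finset.prod_eq_one fun j hj => hWY k l j (Finset.ne_of_mem_erase hj)
  have hZn : ∀ k l, W k l (∏ j ∈ Finset.univ.erase l, Y j ^ n k j) = 1 := by
    intro k l
    rw [map_prod]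
    refine Finset.prod_eq_one fun j hj => ?_
    rw [map_pow, hWY k l j (Finset.ne_of_mem_erase hj), one_pow]
  obtain ⟨G, hGdef⟩ : ∃ G : ι → Γ, ∀ k, G k = ∏ i ∈ Finset.univ.erase k, Λ i := ⟨_, fun _ => rfl⟩
  have hG0 : ∀ k, G k ≠ 0 := by
    intro k
    rw [hGdef]
    exact Finset.prod_ne_zero_iff.2 fun i _ => hΛ0 i
  have hG : ∀ k l, W k l (∏ i ∈ Finset.univ.erase k, F i) = G k := by
    intro k l
    rw [map_prod, Finset.prod_congr rfl (fun i hi => hWF k l i (Finset.ne_of_mem_erase hi)), hGdef]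
  have hGΘ : ∀ k, WΘ (∏ i ∈ Finset.univ.erase k, F i) = G k := by
    intro k
    rw [map_prod, Finset.prod_congr rfl (fun i _ => hΘF i), hGdef]
  -- values of `x l`
  have hx : ∀ k l, W k l (x l) = 1 := by
    intro k l
    have h5 := congrArg (W k l) (h3 l)
    rw [map_mul, map_mul, map_pow, hZ, one_pow, mul_one, he] at h5
    have hx0 : W k l (x l) ≠ 0 := left_ne_zero_of_mul (by rw [h5]; exact one_ne_zero)
    have hy0 : W k l (y l) ≠ 0 := right_ne_zero_of_mul (by rw [h5]; exact one_ne_zero)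
    refine le_antisymm ?_ (hge k l _ hx0)
    calc W k l (x l) ≤ W k l (x l) * W k l (y l) :=
          le_mul_of_one_le_right zero_le (hge k l _ hy0)
      _ = 1 := h5
  -- values of `X k`
  have hX : ∀ k l, W k l (X k) = WΘ (X k) := by
    intro k l
    have h5 := congrArg (W k l) (h4 k)
    have h6 := congrArg WΘ (h4 k)
    rw [map_mul, map_mul, map_pow, hG, he', one_mul] at h5
    rw [map_mul, map_mul, map_pow, hGΘ, heΘ, one_mul] at h6
    refine le_antisymm (hle k l _) ?_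
    by_contra h7
    push Not at h7
    have hX' : WΘ (X' k) ≠ 0 := right_ne_zero_of_mul (by
      rw [h6]
      exact pow_ne_zero _ (hG0 k))
    have h8 : W k l (X k) * W k l (X' k) < WΘ (X k) * WΘ (X' k) := by
      calc W k l (X k) * W k l (X' k) ≤ W k l (X k) * WΘ (X' k) :=
            mul_le_mul_right (hle k l _) _
        _ < WΘ (X k) * WΘ (X' k) := (mul_lt_mul_iff_left₀ (zero_lt_iff.2 hX')).2 h7
    rw [h5, h6] at h8
    exact lt_irrefl _ h8
  have hX0 : ∀ k, WΘ (X k) ≠ 0 := by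
    intro k
    have h6 := congrArg WΘ (h4 k)
    rw [map_mul, map_mul, map_pow, hGΘ, heΘ, one_mul] at h6
    exact left_ne_zero_of_mul (by
      rw [h6]
      exact pow_ne_zero _ (hG0 k))
  -- the key identity
  have key : ∀ k l, WΘ (s' l) * (∏ i, Λ i ^ n i l) * G k ^ N * WΘ (u k) =
      WΘ (s l) * WΘ (u' k) * WΘ (X k) * (∏ i, Λ i) ^ n k l := by
    intro k l
    have h5 := congrArg (W k l) (CoreAbs.elim F Y hFY hF0 n N h k l (h1 l) (h2 k))
    simp only [map_mul, map_pow] at h5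
    rw [hZ, hZn, hG, hX, hx, hs, hs', hu, hu', one_pow, one_pow, mul_one, mul_one, mul_one,
      mul_one, map_prod, Finset.prod_congr rfl (fun i hi => by
        rw [map_pow, hWF k l i (Finset.ne_of_mem_erase hi)] :
        ∀ i ∈ Finset.univ.erase k, W k l (F i ^ n i l) = Λ i ^ n i l)] at h5
    have h6 : Λ k ^ n k l * ∏ i ∈ Finset.univ.erase k, Λ i ^ n i l = ∏ i, Λ i ^ n i l :=
      Finset.mul_prod_erase _ (fun i => Λ i ^ n i l) (Finset.mem_univ k)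
    have h7 : Λ k * G k = ∏ i, Λ i := by
      rw [hGdef]
      exact Finset.mul_prod_erase _ Λ (Finset.mem_univ k)
    rw [← h6, ← h7, mul_pow]
    calc WΘ (s' l) * (Λ k ^ n k l * ∏ i ∈ Finset.univ.erase k, Λ i ^ n i l) * G k ^ N *
          WΘ (u k) =
        (WΘ (s' l) * WΘ (u k) * (∏ i ∈ Finset.univ.erase k, Λ i ^ n i l) * G k ^ N) *
          Λ k ^ n k l := by ac_rfl
      _ = (WΘ (s l) * WΘ (u' k) * WΘ (X k) * G k ^ n k l) * Λ k ^ n k l := by rw [h5]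
      _ = WΘ (s l) * WΘ (u' k) * WΘ (X k) * (Λ k ^ n k l * G k ^ n k l) := by ac_rfl
  have e1 := key k l
  have e2 := key k' l'
  have e3 := key k l'
  have e4 := key k' l
  have e5 : (WΘ (s l) * WΘ (u' k) * WΘ (X k) * (∏ i, Λ i) ^ n k l) *
      (WΘ (s l') * WΘ (u' k') * WΘ (X k') * (∏ i, Λ i) ^ n k' l') =
      (WΘ (s l') * WΘ (u' k) * WΘ (X k) * (∏ i, Λ i) ^ n k l') *
      (WΘ (s l) * WΘ (u' k') * WΘ (X k') * (∏ i, Λ i) ^ n k' l) := by
    rw [← e1, ← e2, ← e3, ← e4]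
    ac_rfl
  have hD : WΘ (s l) * WΘ (u' k) * WΘ (X k) * (WΘ (s l') * WΘ (u' k') * WΘ (X k')) ≠ 0 := by
    refine mul_ne_zero (mul_ne_zero (mul_ne_zero (hs0 l) (hu0' k)) (hX0 k))
      (mul_ne_zero (mul_ne_zero (hs0 l') (hu0' k')) (hX0 k'))
  have e6 : (∏ i, Λ i) ^ (n k l + n k' l') = (∏ i, Λ i) ^ (n k l' + n k' l) := by
    refine mul_left_cancel₀ hD ?_
    calc WΘ (s l) * WΘ (u' k) * WΘ (X k) * (WΘ (s l') * WΘ (u' k') * WΘ (X k')) *
        (∏ i, Λ i) ^ (n k l + n k' l') =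
        (WΘ (s l) * WΘ (u' k) * WΘ (X k) * (∏ i, Λ i) ^ n k l) *
      (WΘ (s l') * WΘ (u' k') * WΘ (X k') * (∏ i, Λ i) ^ n k' l') := by
          rw [pow_add]
          ac_rfl
      _ = _ := by
          rw [e5, pow_add]
          ac_rfl
  exact (pow_right_injective₀ (lt_trans zero_lt_one hΛ) hΛ.ne') e6

end CoreAbs2

end Pool.Agent.N867.AS
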