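import Pool.Agent.N867.AS.Prim

/-!
# Values at roots of weighted polynomials
-/

set_option autoImplicit false
set_option linter.unusedSectionVars false

namespace Pool.Agent.N867.AS

namespace Root

open Polynomial WithZero Pool.Agent.N867.AS.Frame ASR

variable {κ : Type} [Field κ] {a b : ℕ}

variable {V : ValuationSubring (AlgebraicClosure (F₀ κ))}

/-- the structure map `κ[t][x] → Om` -/
noncomputable def jj (κ : Type) [Field κ] (a b : ℕ) : κ[X][X] →+* AlgebraicClosure (F₀ κ) :=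
  (algebraMap (F₀ κ) (AlgebraicClosure (F₀ κ))).comp (ψ κ a b)

/-- the value of `T` -/
noncomputable def θ (V : ValuationSubring (AlgebraicClosure (F₀ κ))) : V.ValueGroup :=
  V.valuation (algebraMap (F₀ κ) (AlgebraicClosure (F₀ κ)) RatFunc.X)

theorem v_X : v κ (RatFunc.X : F₀ κ) = exp 1 := by
  classical
  unfold v
  exact RatFunc.inftyValuation.X _

theorem θ_gt (hV : Ext (v κ) V) : 1 < θ V := by
  have h1 := (hV (RatFunc.X : F₀ κ)).1
  rw [v_X] at h1
  by_contra h
  push Not at h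
  have h2 := h1.1 h
  rw [← exp_zero, exp_le_exp] at h2
  omega

theorem θ_ne (hV : Ext (v κ) V) : θ V ≠ 0 := (lt_trans zero_lt_one (θ_gt hV)).ne'

/-- transfer of lower bounds -/
theorem pow_le (hV : Ext (v κ) V) {x : F₀ κ} {n : ℕ} :
    θ V ^ n ≤ V.valuation (algebraMap (F₀ κ) (AlgebraicClosure (F₀ κ)) x) ↔ exp (n : ℤ) ≤ v κ x := by
  rw [θ, ← map_pow, ← map_pow, hV.le, map_pow, v_X, ← exp_nsmul]
  simp

theorem le_pow (hV : Ext (v κ) V) {x : F₀ κ} {n : ℕ} :
    V.valuation (algebraMap (F₀ κ) (AlgebraicClosure (F₀ κ)) x) ≤ θ V ^ n ↔ v κ x ≤ exp (n : ℤ) := by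
  rw [θ, ← map_pow, ← map_pow, hV.le, map_pow, v_X, ← exp_nsmul]
  simp

theorem eq_pow (hV : Ext (v κ) V) {x : F₀ κ} {n : ℕ} :
    V.valuation (algebraMap (F₀ κ) (AlgebraicClosure (F₀ κ)) x) = θ V ^ n ↔ v κ x = exp (n : ℤ) := by
  rw [le_antisymm_iff, le_antisymm_iff, pow_le hV, le_pow hV]

theorem val_C (ha : a ≠ 0) (hV : Ext (v κ) V) {c : κ[X]} (hc : c ≠ 0) :
    V.valuation (jj κ a b (C c)) = θ V ^ (a * c.natDegree) := by
  rw [jj, RingHom.comp_apply, eq_pow hV]
  refine le_antisymm (v_ψ_le ?_) ?_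
  · intro i j h
    rw [coeff_C] at h
    split_ifs at h with hi
    · rw [hi, mul_zero, add_zero]
      exact Nat.mul_le_mul_left _ (le_natDegree_of_ne_zero h)
    · rw [coeff_zero] at h
      exact absurd rfl h
  · have h1 := le_v_ψ (b := b) ha (C c) 0 c.natDegree (by
      rw [coeff_C_zero, coeff_natDegree]
      exact leadingCoeff_ne_zero.2 hc)
    simpa using h1

theorem val_X (ha : a ≠ 0) (hV : Ext (v κ) V) :
    V.valuation (jj κ a b X) = θ V ^ b := by
  rw [jj, RingHom.comp_apply, eq_pow hV]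
  refine le_antisymm (v_ψ_le ?_) ?_
  · intro i j h
    rw [coeff_X] at h
    split_ifs at h with hi
    · rw [coeff_one] at h
      split_ifs at h with hj
      · rw [← hi, hj]
        omega
      · exact absurd rfl h
    · rw [coeff_zero] at h
      exact absurd rfl h
  · have h1 := le_v_ψ (b := b) ha (X : κ[X][X]) 1 0 (by
      rw [coeff_X_one, coeff_one_zero]
      exact one_ne_zero)
    simpa using h1

/-- a term of `c` is bounded by the value of `c` -/
theorem term_le (ha : a ≠ 0) (hV : Ext (v κ) V) (c : κ[X][X]) (m : ℕ) :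
    V.valuation (jj κ a b (C (c.coeff m))) * θ V ^ (b * m) ≤ V.valuation (jj κ a b c) := by
  by_cases h : c.coeff m = 0
  · rw [h, C_0, map_zero, map_zero, zero_mul]
    exact zero_le
  · rw [val_C ha hV h, ← pow_add, jj, RingHom.comp_apply, pow_le hV]
    refine le_v_ψ ha c m _ ?_
    rw [coeff_natDegree]
    exact leadingCoeff_ne_zero.2 h

theorem jj_inj (ha : a ≠ 0) : Function.Injective (jj κ a b) :=
  (algebraMap (F₀ κ) (AlgebraicClosure (F₀ κ))).injective.comp (ψ_inj ha)

/-- evaluation at a point of `(AlgebraicClosure (F₀ κ))` -/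
noncomputable def ev (κ : Type) [Field κ] (a b : ℕ) (ξ : AlgebraicClosure (F₀ κ)) :
    κ[X][X] →+* AlgebraicClosure (F₀ κ) :=
  eval₂RingHom ((jj κ a b).comp C) ξ

theorem ev_eq_sum (ξ : AlgebraicClosure (F₀ κ)) {c : κ[X][X]} {n : ℕ} (hn : c.natDegree < n) :
    ev κ a b ξ c = ∑ m ∈ Finset.range n, jj κ a b (C (c.coeff m)) * ξ ^ m := by
  rw [ev, coe_eval₂RingHom, eval₂_eq_sum_range' _ hn]
  rfl

theorem ev_le (ha : a ≠ 0) (hV : Ext (v κ) V) {ξ : AlgebraicClosure (F₀ κ)}
    (hξ : V.valuation ξ = θ V ^ b) (c : κ[X][X]) :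
    V.valuation (ev κ a b ξ c) ≤ V.valuation (jj κ a b c) := by
  rw [ev_eq_sum ξ (Nat.lt_succ_self _)]
  refine Valuation.map_sum_le _ fun m _ => ?_
  rw [map_mul, map_pow, hξ, ← pow_mul]
  exact term_le ha hV c m

/-- weight condition -/
structure Wt (a b : ℕ) (β : κ) (F : κ[X][X]) : Prop where
  monic : F.Monic
  deg : F.natDegree = a
  wt : ∀ m n, (F.coeff m).coeff n ≠ 0 → b * m + a * n ≤ a * b
  lead : (F.coeff 0).coeff b = - β

variable {β : κ} {F : κ[X][X]}

theorem Wt.natDegree_le (hF : Wt a b β F) (ha : a ≠ 0) (m : ℕ) (h : F.coeff m ≠ 0) :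
    b * m + a * (F.coeff m).natDegree ≤ a * b :=
  hF.wt m _ (by rw [coeff_natDegree]; exact leadingCoeff_ne_zero.2 h)

theorem Wt.val_coeff_le (hF : Wt a b β F) (ha : a ≠ 0) (hV : Ext (v κ) V) (m : ℕ)
    (hm : m ≤ a) :
    V.valuation (jj κ a b (C (F.coeff m))) ≤ θ V ^ (b * (a - m)) := by
  by_cases h : F.coeff m = 0
  · rw [h, C_0, map_zero, map_zero]
    exact zero_le
  · rw [val_C ha hV h]
    refine pow_le_pow_right₀ (θ_gt hV).le ?_
    have h1 := hF.natDegree_le ha m h
    rw [Nat.mul_sub]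
    have h2 : a * b = b * a := mul_comm a b
    omega

theorem Wt.natDegree_zero (hF : Wt a b β F) (ha : a ≠ 0) (hβ : β ≠ 0) :
    F.coeff 0 ≠ 0 ∧ (F.coeff 0).natDegree = b := by
  have h1 : (F.coeff 0).coeff b ≠ 0 := by rw [hF.lead]; exact neg_ne_zero.2 hβ
  have h0 : F.coeff 0 ≠ 0 := by
    intro h
    rw [h, coeff_zero] at h1
    exact h1 rfl
  refine ⟨h0, le_antisymm ?_ (le_natDegree_of_ne_zero h1)⟩
  have h2 := hF.natDegree_le ha 0 h0
  rw [mul_zero, zero_add] at h2
  exact Nat.le_of_mul_le_mul_left h2 (Nat.pos_of_ne_zero ha)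

/-- value of a root -/
theorem Wt.val_root (hF : Wt a b β F) (ha : a ≠ 0) (hV : Ext (v κ) V) (hβ : β ≠ 0)
    {ξ : AlgebraicClosure (F₀ κ)} (hξ : ev κ a b ξ F = 0) : V.valuation ξ = θ V ^ b := by
  have hθ := θ_gt hV
  rw [ev_eq_sum ξ (n := a + 1) (by rw [hF.deg]; omega)] at hξ
  rcases lt_trichotomy (V.valuation ξ) (θ V ^ b) with h | h | h
  · exfalso
    rw [Finset.sum_range_succ'] at hξ
    have h0 : V.valuation (jj κ a b (C (F.coeff 0)) * ξ ^ 0) = θ V ^ (a * b) := by
      rw [pow_zero, mul_one, val_C ha hV (hF.natDegree_zero ha hβ).1,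
        (hF.natDegree_zero ha hβ).2]
    have h1 : V.valuation (∑ m ∈ Finset.range a, jj κ a b (C (F.coeff (m + 1))) * ξ ^ (m + 1)) <
        V.valuation (jj κ a b (C (F.coeff 0)) * ξ ^ 0) := by
      rw [h0]
      refine Valuation.map_sum_lt _ (pow_ne_zero _ (θ_ne hV)) fun m hm => ?_
      have hm' := Finset.mem_range.1 hm
      rw [map_mul, map_pow]
      have h2 : V.valuation ξ ^ (m + 1) < (θ V ^ b) ^ (m + 1) :=
        pow_lt_pow_left₀ h zero_le (Nat.succ_ne_zero m)
      calc V.valuation (jj κ a b (C (F.coeff (m + 1)))) * V.valuation ξ ^ (m + 1) ≤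
          θ V ^ (b * (a - (m + 1))) * V.valuation ξ ^ (m + 1) :=
            mul_le_mul_left (hF.val_coeff_le ha hV (m + 1) (by omega)) _
        _ < θ V ^ (b * (a - (m + 1))) * (θ V ^ b) ^ (m + 1) := by
            refine (mul_lt_mul_iff_right₀ ?_).2 h2
            exact zero_lt_iff.2 (pow_ne_zero _ (θ_ne hV))
        _ = θ V ^ (a * b) := by
            rw [← pow_mul, ← pow_add, ← mul_add, mul_comm a b]
            congr 2
            omega
    have h2 := Valuation.map_add_eq_of_lt_right V.valuation h1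
    rw [hξ, map_zero, h0] at h2
    exact pow_ne_zero _ (θ_ne hV) h2.symm
  · exact h
  · exfalso
    rw [Finset.sum_range_succ] at hξ
    have hFa : F.coeff a = 1 := by
      have := hF.monic.coeff_natDegree
      rwa [hF.deg] at this
    have h0 : V.valuation (jj κ a b (C (F.coeff a)) * ξ ^ a) = V.valuation ξ ^ a := by
      rw [hFa, C_1, map_one, one_mul, map_pow]
    have hξ0 : V.valuation ξ ≠ 0 := (lt_of_le_of_lt zero_le h).ne'
    have h1 : V.valuation (∑ m ∈ Finset.range a, jj κ a b (C (F.coeff m)) * ξ ^ m) <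
        V.valuation (jj κ a b (C (F.coeff a)) * ξ ^ a) := by
      rw [h0]
      refine Valuation.map_sum_lt _ (pow_ne_zero _ hξ0) fun m hm => ?_
      have hm' := Finset.mem_range.1 hm
      rw [map_mul, map_pow]
      have h2 : (θ V ^ b) ^ (a - m) < V.valuation ξ ^ (a - m) :=
        pow_lt_pow_left₀ h zero_le (by omega)
      calc V.valuation (jj κ a b (C (F.coeff m))) * V.valuation ξ ^ m ≤
          θ V ^ (b * (a - m)) * V.valuation ξ ^ m :=
            mul_le_mul_left (hF.val_coeff_le ha hV m hm'.le) _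
        _ < V.valuation ξ ^ (a - m) * V.valuation ξ ^ m := by
            rw [pow_mul]
            refine (mul_lt_mul_iff_left₀ ?_).2 h2
            exact zero_lt_iff.2 (pow_ne_zero _ hξ0)
        _ = V.valuation ξ ^ a := by
            rw [← pow_add]
            congr 1
            omega
    have h2 := Valuation.map_add_eq_of_lt_right V.valuation h1
    rw [hξ, map_zero, h0] at h2
    exact pow_ne_zero _ hξ0 h2.symm

/-- value of another weighted polynomial at a root -/
theorem Wt.val_other (hF : Wt a b β F) {β' : κ} {F' : κ[X][X]} (hF' : Wt a b β' F')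
    (ha : a ≠ 0) (hab : a.Coprime b) (hV : Ext (v κ) V) (hβ : β ≠ 0) (hββ : β' ≠ β)
    {ξ : AlgebraicClosure (F₀ κ)} (hξ : ev κ a b ξ F = 0) :
    V.valuation (ev κ a b ξ F') = θ V ^ (a * b) := by
  have hval := hF.val_root ha hV hβ hξ
  have h1 : ev κ a b ξ F' = ev κ a b ξ (F' - F) := by rw [map_sub, hξ, sub_zero]
  have hFa : ∀ {β : κ} {F : κ[X][X]}, Wt a b β F → F.coeff a = 1 := by
    intro β F hF
    have := hF.monic.coeff_natDegree
    rwa [hF.deg] at this
  have hdeg : (F' - F).natDegree < a := by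
    have h2 : (F' - F).natDegree ≤ a := by
      refine (natDegree_sub_le _ _).trans ?_
      rw [hF.deg, hF'.deg, max_self]
    refine lt_of_le_of_ne h2 fun h3 => ?_
    have h4 : (F' - F).coeff a = 0 := by rw [coeff_sub, hFa hF, hFa hF', sub_self]
    have h5 : (F' - F).leadingCoeff = 0 := by rw [← coeff_natDegree, h3, h4]
    rw [leadingCoeff_eq_zero] at h5
    rw [h5, Polynomial.natDegree_zero] at h3
    exact ha h3.symm
  rw [h1, ev_eq_sum ξ hdeg]
  obtain ⟨a', rfl⟩ : ∃ a', a = a' + 1 := ⟨a - 1, by omega⟩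
  rw [Finset.sum_range_succ']
  -- leading term
  have hc0 : ((F' - F).coeff 0).coeff b ≠ 0 := by
    rw [coeff_sub, coeff_sub, hF.lead, hF'.lead]
    intro h
    apply hββ
    linear_combination -h
  have hn0 : (F' - F).coeff 0 ≠ 0 := by
    intro h
    rw [h, coeff_zero] at hc0
    exact hc0 rfl
  have hd0 : ((F' - F).coeff 0).natDegree = b := by
    refine le_antisymm ?_ (le_natDegree_of_ne_zero hc0)
    rw [coeff_sub]
    refine (natDegree_sub_le _ _).trans (max_le ?_ ?_)
    · rw [natDegree_le_iff_coeff_eq_zero]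
      intro n hn
      by_contra h
      have h2 := hF'.wt 0 n h
      rw [mul_zero, zero_add] at h2
      have h3 := Nat.le_of_mul_le_mul_left h2 (Nat.pos_of_ne_zero ha)
      omega
    · rw [natDegree_le_iff_coeff_eq_zero]
      intro n hn
      by_contra h
      have h2 := hF.wt 0 n h
      rw [mul_zero, zero_add] at h2
      have h3 := Nat.le_of_mul_le_mul_left h2 (Nat.pos_of_ne_zero ha)
      omega
  have h0 : V.valuation (jj κ (a' + 1) b (C ((F' - F).coeff 0)) * ξ ^ 0) =
      θ V ^ ((a' + 1) * b) := by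
    rw [pow_zero, mul_one, val_C ha hV hn0, hd0]
  have h2 : V.valuation (∑ m ∈ Finset.range a', jj κ (a' + 1) b (C ((F' - F).coeff (m + 1))) *
      ξ ^ (m + 1)) < V.valuation (jj κ (a' + 1) b (C ((F' - F).coeff 0)) * ξ ^ 0) := by
    rw [h0]
    refine Valuation.map_sum_lt _ (pow_ne_zero _ (θ_ne hV)) fun m hm => ?_
    have hm' := Finset.mem_range.1 hm
    by_cases hz : (F' - F).coeff (m + 1) = 0
    · rw [hz, C_0, map_zero, zero_mul, map_zero]
      exact zero_lt_iff.2 (pow_ne_zero _ (θ_ne hV))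
    · rw [map_mul, map_pow, hval, val_C ha hV hz, ← pow_mul, ← pow_add]
      refine pow_lt_pow_right₀ (θ_gt hV) ?_
      obtain ⟨n, hn⟩ : ∃ n, n = ((F' - F).coeff (m + 1)).natDegree := ⟨_, rfl⟩
      rw [← hn]
      have h3 : ((F' - F).coeff (m + 1)).coeff n ≠ 0 := by
        rw [hn, coeff_natDegree]
        exact leadingCoeff_ne_zero.2 hz
      have h4 : b * (m + 1) + (a' + 1) * n ≤ (a' + 1) * b := by
        rw [coeff_sub, coeff_sub] at h3
        by_cases h5 : (F'.coeff (m + 1)).coeff n = 0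
        · rw [h5, zero_sub, neg_ne_zero] at h3
          exact hF.wt _ _ h3
        · exact hF'.wt _ _ h5
      refine lt_of_le_of_ne (by omega) fun h5 => ?_
      have h6 : (a' + 1) ∣ b * (m + 1) := by
        have h7 : b * (m + 1) = (a' + 1) * b - (a' + 1) * n := by omega
        rw [h7]
        exact Nat.dvd_sub (dvd_mul_right _ _) (dvd_mul_right _ _)
      have h7 := hab.dvd_of_dvd_mul_left h6
      have h8 := Nat.le_of_dvd (Nat.succ_pos m) h7
      omega
  rw [Valuation.map_add_eq_of_lt_right V.valuation h2]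
  exact h0

/-- nonzero integral elements have value at least one -/
theorem Wt.one_le (hF : Wt a b β F) (ha : a ≠ 0) (hab : a.Coprime b) (hV : Ext (v κ) V)
    (hβ : β ≠ 0) {ξ : AlgebraicClosure (F₀ κ)} (hξ : ev κ a b ξ F = 0) (c : κ[X][X])
    (hc : ev κ a b ξ c ≠ 0) : 1 ≤ V.valuation (ev κ a b ξ c) := by
  have hval := hF.val_root ha hV hβ hξ
  have h1 : ev κ a b ξ c = ev κ a b ξ (c %ₘ F) := by
    conv_lhs => rw [← modByMonic_add_div c F]
    rw [map_add, map_mul, hξ, zero_mul, add_zero]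
  have hdeg : (c %ₘ F).natDegree < a := by
    have h2 := natDegree_modByMonic_lt c hF.monic (by
      intro h
      have := hF.deg
      rw [h, natDegree_one] at this
      exact ha this.symm)
    rwa [hF.deg] at h2
  rw [h1] at hc ⊢
  rw [ev_eq_sum ξ hdeg] at hc ⊢
  have hterm : ∀ m, (c %ₘ F).coeff m ≠ 0 → V.valuation (jj κ a b (C ((c %ₘ F).coeff m)) * ξ ^ m) =
      θ V ^ (a * ((c %ₘ F).coeff m).natDegree + b * m) := by
    intro m hm
    rw [map_mul, map_pow, hval, val_C ha hV hm, ← pow_mul, ← pow_add]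
  have hnz : ∀ m, V.valuation (jj κ a b (C ((c %ₘ F).coeff m)) * ξ ^ m) ≠ 0 →
      (c %ₘ F).coeff m ≠ 0 := by
    intro m hm h
    rw [h, C_0, map_zero, zero_mul, map_zero] at hm
    exact hm rfl
  have hle := Val.le_sum V.valuation (Finset.range a)
    (fun m => jj κ a b (C ((c %ₘ F).coeff m)) * ξ ^ m) (by
      intro m hm m' hm' hne h0 h0' heq
      rw [Finset.mem_range] at hm hm'
      rw [hterm m (hnz m h0), hterm m' (hnz m' h0')] at heq
      have h2 := (pow_right_injective₀ (lt_trans zero_lt_one (θ_gt hV)) (θ_gt hV).ne') heq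
      have h3 : (a : ℤ) ∣ (b : ℤ) * ((m : ℤ) - m') := by
        refine ⟨(((c %ₘ F).coeff m').natDegree : ℤ) - ((c %ₘ F).coeff m).natDegree, ?_⟩
        have h4 : ((a * ((c %ₘ F).coeff m).natDegree + b * m : ℕ) : ℤ) =
          ((a * ((c %ₘ F).coeff m').natDegree + b * m' : ℕ) : ℤ) := by exact_mod_cast h2
        push_cast at h4
        linear_combination h4
      have h5 : IsCoprime (a : ℤ) (b : ℤ) := Nat.isCoprime_iff_coprime.2 hab
      have h6 := h5.dvd_of_dvd_mul_left h3
      have h7 : (m : ℤ) - m' = 0 := by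
        refine Int.eq_zero_of_abs_lt_dvd h6 ?_
        rw [abs_lt]
        constructor <;> omega
      omega)
  obtain ⟨m, hm, hmne⟩ := Finset.exists_ne_zero_of_sum_ne_zero hc
  have hmne' : (c %ₘ F).coeff m ≠ 0 := by
    intro h
    rw [h, C_0, map_zero, zero_mul] at hmne
    exact hmne rfl
  refine le_trans ?_ (hle m hm)
  rw [hterm m hmne']
  exact one_le_pow₀ (θ_gt hV).le

end Root

end Pool.Agent.N867.AS
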