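import Pool.Agent.N867.AS.Main
import Pool.Agent.N867.AS.Root

/-!
# Transfer of point counts and of the leading form
-/

set_option autoImplicit false
set_option linter.unusedSectionVars false

namespace Pool.Agent.N867.AS

namespace Trans

open Polynomial

/-! ### point counts -/

section count

variable {κ : Type} [Field κ]

/-- the number of solutions of `y^p - y = f` in `F_Q^3`, where `F_Q = {z : z^Q = z}` -/
noncomputable def Npts (p : ℕ) (f : κ[X][X]) (Q : ℕ) : ℕ :=
  Nat.card {v : AlgebraicClosure κ × AlgebraicClosure κ × AlgebraicClosure κ //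
    v.1 ^ Q = v.1 ∧ v.2.1 ^ Q = v.2.1 ∧ v.2.2 ^ Q = v.2.2 ∧
    v.2.2 ^ p - v.2.2 =
      f.eval₂ (eval₂RingHom (algebraMap κ (AlgebraicClosure κ)) v.1) v.2.1}

/-- the polynomial in two variables (`0` for `x`, `1` for `t`) -/
noncomputable def Ψ {M : Type} [Field M] (φ : κ →+* M) : κ[X][X] →+* MvPolynomial (Fin 2) M :=
  eval₂RingHom (eval₂RingHom ((MvPolynomial.C).comp φ) (MvPolynomial.X 1)) (MvPolynomial.X 0)

theorem eval_Ψ {M : Type} [Field M] (φ : κ →+* M) (f : κ[X][X]) (v : Fin 2 → M) :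
    MvPolynomial.eval v (Ψ φ f) = f.eval₂ (eval₂RingHom φ (v 1)) (v 0) := by
  have h1 : (MvPolynomial.eval v).comp (Ψ φ) = eval₂RingHom (eval₂RingHom φ (v 1)) (v 0) := by
    refine Polynomial.ringHom_ext' (Polynomial.ringHom_ext' ?_ ?_) ?_
    · ext c
      simp [Ψ]
    · simp [Ψ]
    · simp [Ψ]
  have h2 := congrArg (fun g => g f) h1
  exact h2

theorem coeff_Ψ {M : Type} [Field M] (φ : κ →+* M) (f : κ[X][X]) (μ : Fin 2 →₀ ℕ) :
    MvPolynomial.coeff μ (Ψ φ f) = φ ((f.coeff (μ 0)).coeff (μ 1)) := by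
  have h1 : Ψ φ f = ∑ i ∈ f.support, ∑ j ∈ (f.coeff i).support,
      MvPolynomial.monomial (Finsupp.single 0 i + Finsupp.single 1 j) (φ ((f.coeff i).coeff j)) := by
    rw [Ψ, coe_eval₂RingHom, eval₂_eq_sum, Polynomial.sum_def]
    refine Finset.sum_congr rfl fun i _ => ?_
    rw [coe_eval₂RingHom, eval₂_eq_sum, Polynomial.sum_def, Finset.sum_mul]
    refine Finset.sum_congr rfl fun j _ => ?_
    rw [RingHom.comp_apply, MvPolynomial.X_pow_eq_monomial, MvPolynomial.X_pow_eq_monomial,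
      MvPolynomial.C_mul_monomial, MvPolynomial.monomial_mul, mul_one, mul_one, add_comm]
  have hμ : μ = Finsupp.single 0 (μ 0) + Finsupp.single 1 (μ 1) := by
    ext i
    fin_cases i <;> simp
  rw [h1, MvPolynomial.coeff_sum]
  simp only [MvPolynomial.coeff_sum, MvPolynomial.coeff_monomial]
  have hiff : ∀ i j : ℕ, (Finsupp.single (0 : Fin 2) i + Finsupp.single 1 j = μ) ↔
      (i = μ 0 ∧ j = μ 1) := by
    intro i j
    constructor
    · rintro rfl
      simp
    · rintro ⟨rfl, rfl⟩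
      exact hμ.symm
  rw [Finset.sum_eq_single (μ 0)]
  · rw [Finset.sum_eq_single (μ 1)]
    · rw [if_pos ((hiff _ _).2 ⟨rfl, rfl⟩)]
    · intro j _ hj
      rw [if_neg fun h => hj ((hiff _ _).1 h).2]
    · intro h
      rw [if_pos ((hiff _ _).2 ⟨rfl, rfl⟩), notMem_support_iff.1 h, map_zero]
  · intro i _ hi
    refine Finset.sum_eq_zero fun j _ => ?_
    rw [if_neg fun h => hi ((hiff _ _).1 h).1]
  · intro h
    rw [notMem_support_iff.1 h]
    simp

theorem exists_preimage {M : Type} [Field M] (φ : AlgebraicClosure κ →+* M) {Q : ℕ} (hQ : 1 < Q)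
    {z : M} (hz : z ^ Q = z) : ∃ w, φ w = z := by
  have h1 := (IsAlgClosed.splits (X ^ Q - X : (AlgebraicClosure κ)[X])).roots_map φ
  have hm : (X ^ Q - X : (AlgebraicClosure κ)[X]).Monic := by
    refine monic_X_pow_sub (n := Q) ?_
    rw [degree_X]
    exact_mod_cast hQ
  have h2 : z ∈ ((X ^ Q - X : (AlgebraicClosure κ)[X]).map φ).roots := by
    rw [mem_roots (hm.map φ).ne_zero, IsRoot, eval_map, eval₂_sub, eval₂_X_pow, eval₂_X, hz,
      sub_self]
  rw [h1, Multiset.mem_map] at h2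
  obtain ⟨w, _, hw⟩ := h2
  exact ⟨w, hw⟩

theorem npts_eq_Npts (p : ℕ) [Fact p.Prime] (φ : AlgebraicClosure κ →+* Res.k p) (f : κ[X][X])
    {Q : ℕ} (hQ : 1 < Q) :
    Res.npts (Ψ (φ.comp (algebraMap κ (AlgebraicClosure κ))) f) Q = Npts p f Q := by
  have hev : ∀ t x : AlgebraicClosure κ,
      f.eval₂ (eval₂RingHom (φ.comp (algebraMap κ (AlgebraicClosure κ))) (φ t)) (φ x) =
        φ (f.eval₂ (eval₂RingHom (algebraMap κ (AlgebraicClosure κ)) t) x) := by
    intro t x
    rw [hom_eval₂]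
    congr 1
    refine Polynomial.ringHom_ext' ?_ ?_
    · ext c
      simp
    · simp
  unfold Res.npts Npts
  symm
  refine Nat.card_congr (Equiv.ofBijective (fun v => ⟨(![φ v.1.2.1, φ v.1.1], φ v.1.2.2), ?_⟩) ?_)
  · obtain ⟨⟨t, x, y⟩, h1, h2, h3, h4⟩ := v
    simp only at h1 h2 h3 h4
    refine ⟨?_, ?_, ?_⟩
    · intro i
      fin_cases i
      · change φ x ^ Q = φ x
        rw [← map_pow, h2]
      · change φ t ^ Q = φ t
        rw [← map_pow, h1]
    · change φ y ^ Q = φ y
      rw [← map_pow, h3]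
    · rw [eval_Ψ]
      change φ y ^ p - φ y = f.eval₂ (eval₂RingHom _ (φ t)) (φ x)
      rw [hev, ← h4, map_sub, map_pow]
  · constructor
    · rintro ⟨⟨t, x, y⟩, h1⟩ ⟨⟨t', x', y'⟩, h1'⟩ h
      have h2 := congrArg Subtype.val h
      have h3 := congrArg (fun w => w.1 0) h2
      have h4 := congrArg (fun w => w.1 1) h2
      have h5 := congrArg (fun w => w.2) h2
      have h6 : x = x' := φ.injective h3
      have h7 : t = t' := φ.injective h4
      have h8 : y = y' := φ.injective h5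
      subst h6 h7 h8
      rfl
    · rintro ⟨⟨w, z⟩, h1, h2, h3⟩
      obtain ⟨x, hx⟩ := exists_preimage φ hQ (h1 0)
      obtain ⟨t, ht⟩ := exists_preimage φ hQ (h1 1)
      obtain ⟨y, hy⟩ := exists_preimage φ hQ h2
      refine ⟨⟨(t, x, y), ?_, ?_, ?_, ?_⟩, ?_⟩
      · apply φ.injective
        change φ (t ^ Q) = φ t
        rw [map_pow, ht]
        exact h1 1
      · apply φ.injective
        change φ (x ^ Q) = φ x
        rw [map_pow, hx]
        exact h1 0
      · apply φ.injective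
        change φ (y ^ Q) = φ y
        rw [map_pow, hy]
        exact h2
      · apply φ.injective
        change φ (y ^ p - y) = φ (f.eval₂ (eval₂RingHom (algebraMap κ (AlgebraicClosure κ)) t) x)
        rw [← hev, map_sub, map_pow, ht, hx, hy]
        rw [eval_Ψ] at h3
        exact h3
      · apply Subtype.ext
        change (![φ x, φ t], φ y) = (w, z)
        rw [hx, ht, hy]
        refine Prod.ext ?_ rfl
        ext i
        fin_cases i <;> rfl

end count

end Trans

end Pool.Agent.N867.AS
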