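import Pool.Agent.N867.AS.V5
import Pool.Agent.N867.AS.Trans

/-!
# The upper bound for ordinary leading forms
-/

set_option autoImplicit false
set_option linter.unusedSectionVars false

namespace Pool.Agent.N867.AS

namespace TV

open MvPolynomial Bd GW Tr Res

variable {p : ℕ} [hp : Fact p.Prime]

/-- the main determinant as a power -/
theorem DM_eq {f : MvPolynomial (Fin 2) (k p)} {s : ℕ} [NeZero s] {g : ℕ}
    (E : Fin g → Fin 2 →₀ ℕ) (H : ZMod s → Polynomial (k p))
    (hE : ∀ (j : ZMod s) (u v : Fin g), NN f j.val (p - 1) (E u) (E v) =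
      (H j ^ (p - 1)).coeff (p * ((v : ℕ) + 1) - ((u : ℕ) + 1))) :
    DM f s E = (Matrix.of fun x y : ZMod s × Fin g => (if x = y then (1 : Polynomial (k p)) else 0) -
      Polynomial.X * Polynomial.C (VD.TT p H g x y)).det ^ (p - 1) := by
  classical
  obtain ⟨q, hq⟩ : ∃ q : (ZMod s × Fin g) × Fin (p - 1) ≃ (Fin (p - 1) × ZMod s) × Fin g,
      ∀ x, q x = ((x.2, x.1.1), x.1.2) := by
    refine ⟨⟨fun x => ((x.2, x.1.1), x.1.2), fun x => ((x.1.2, x.2), x.1.1), fun x => rfl,
      fun x => rfl⟩, fun x => rfl⟩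
  have h1 : (Matrix.of fun x y : (Fin (p - 1) × ZMod s) × Fin g =>
      (if x = y then (1 : Polynomial (k p)) else 0) - if y.1 = rho p s x.1 then
      Polynomial.X * Polynomial.C (NN f x.1.2.val (p - 1) (E x.2) (E y.2)) else 0).submatrix q q =
      Matrix.blockDiagonal fun _ : Fin (p - 1) => (Matrix.of fun x y : ZMod s × Fin g =>
        (if x = y then (1 : Polynomial (k p)) else 0) -
        Polynomial.X * Polynomial.C (VD.TT p H g x y)) := by
    ext1 x y
    rw [Matrix.submatrix_apply, Matrix.of_apply, Matrix.blockDiagonal_apply, Matrix.of_apply, hq,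
      hq]
    by_cases h : x.2 = y.2
    · rw [if_pos h]
      congr 1
      · by_cases h2 : x.1 = y.1
        · rw [if_pos h2, if_pos (by rw [h, h2])]
        · rw [if_neg h2, if_neg]
          intro h3
          apply h2
          simp only [Prod.mk.injEq] at h3
          exact Prod.ext h3.1.2 h3.2
      · unfold VD.TT rho
        by_cases h2 : y.1.1 = x.1.1 + 1
        · rw [if_pos h2, if_pos (by rw [h2, h]), hE]
        · rw [if_neg h2, if_neg, map_zero, mul_zero]
          intro h3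
          simp only [Prod.mk.injEq] at h3
          exact h2 h3.2
    · rw [if_neg h, if_neg, if_neg, sub_zero]
      · intro h3
        simp only [rho, Prod.mk.injEq] at h3
        exact h h3.1.symm
      · intro h3
        simp only [Prod.mk.injEq] at h3
        exact h h3.1.1
  rw [DM, ← Matrix.det_submatrix_equiv_self q, h1, Matrix.det_blockDiagonal, Finset.prod_const,
    Finset.card_univ, Fintype.card_fin]

section kappa

variable {κ : Type} [Field κ] {a b g : ℕ}

/-- the leading polynomial -/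
noncomputable def topPoly (a b g : ℕ) (f : Polynomial (Polynomial κ)) : Polynomial κ :=
  ∑ r ∈ Finset.range (g + 1), Polynomial.C ((f.coeff (a * r)).coeff (b * (g - r))) *
    Polynomial.X ^ r

/-- positive lattice points of weight `w` -/
abbrev Lat (a b w : ℕ) : Type :=
  {u : Fin (w + 1) × Fin (w + 1) // 0 < (u.1 : ℕ) ∧ 0 < (u.2 : ℕ) ∧ b * (u.1 : ℕ) + a * (u.2 : ℕ) = w}

/-- the Hasse–Witt matrix of `f` in weight `w` -/
noncomputable def hw (p a b w n : ℕ) (f : Polynomial (Polynomial κ)) :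
    Matrix (Lat a b w) (Lat a b w) κ :=
  Matrix.of fun u v => ((f ^ n).coeff (p * (v.1.1 : ℕ) - (u.1.1 : ℕ))).coeff
    (p * (v.1.2 : ℕ) - (u.1.2 : ℕ))

theorem Hf_Ψ {M : Type} [Field M] (φ : κ →+* M) (f : Polynomial (Polynomial κ)) :
    Hf a b g (Trans.Ψ φ f) = (topPoly a b g f).map φ := by
  unfold Hf topPoly
  rw [Polynomial.map_sum]
  refine Finset.sum_congr rfl fun r _ => ?_
  rw [Trans.coeff_Ψ, mu0, mu1, Polynomial.map_mul, Polynomial.map_C, Polynomial.map_pow,
    Polynomial.map_X]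

theorem WF_Ψ (ha : a ≠ 0) (hb : b ≠ 0) (hg : g ≠ 0) {f : Polynomial (Polynomial κ)}
    (hwt : ∀ m n, (f.coeff m).coeff n ≠ 0 → b * m + a * n ≤ g * (a * b)) (φ : κ →+* k p) :
    WF (Trans.Ψ φ f) ![b, a] (g * (a * b)) := by
  refine ⟨?_, mul_ne_zero hg (mul_ne_zero ha hb), ?_⟩
  · intro i
    fin_cases i
    · exact Nat.pos_of_ne_zero hb
    · exact Nat.pos_of_ne_zero ha
  · intro μ hμ
    rw [mem_support_iff, Trans.coeff_Ψ] at hμ
    rw [wt2]
    refine hwt _ _ fun h => hμ ?_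
    rw [h, map_zero]

theorem exists_E (ha : a ≠ 0) (hb : b ≠ 0) (w : ℕ) :
    ∃ E : Lat a b w ≃ SW (σ := Fin 2) ![b, a] w, ∀ u, (E u).1 0 = (u.1.1 : ℕ) ∧
      (E u).1 1 = (u.1.2 : ℕ) := by
  obtain ⟨E, hE⟩ : ∃ E : Lat a b w → SW (σ := Fin 2) ![b, a] w, ∀ u, (E u).1 0 = (u.1.1 : ℕ) ∧
      (E u).1 1 = (u.1.2 : ℕ) := by
    refine ⟨fun u => ⟨Finsupp.single 0 (u.1.1 : ℕ) + Finsupp.single 1 (u.1.2 : ℕ), ?_, ?_⟩,
      fun u => ⟨by simp, by simp⟩⟩
    · have h1 := u.2.1
      have h2 := u.2.2.1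
      have e0 : (Finsupp.single (0 : Fin 2) (u.1.1 : ℕ) + Finsupp.single 1 (u.1.2 : ℕ) :
        Fin 2 →₀ ℕ) 0 = (u.1.1 : ℕ) := by simp
      have e1 : (Finsupp.single (0 : Fin 2) (u.1.1 : ℕ) + Finsupp.single 1 (u.1.2 : ℕ) :
        Fin 2 →₀ ℕ) 1 = (u.1.2 : ℕ) := by simp
      refine Fin.forall_fin_two.2 ⟨?_, ?_⟩
      · rw [e0]
        exact h1.ne'
      · rw [e1]
        exact h2.ne'
    · rw [wt2]
      have h3 := u.2.2.2
      simpa using h3
  refine ⟨Equiv.ofBijective E ⟨?_, ?_⟩, hE⟩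
  · intro u u' h
    have h1 := hE u
    have h2 := hE u'
    rw [h] at h1
    apply Subtype.ext
    apply Prod.ext
    · apply Fin.ext
      rw [← h1.1, ← h2.1]
    · apply Fin.ext
      rw [← h1.2, ← h2.2]
  · rintro ⟨v, hv1, hv2⟩
    have hv3 := hv2
    rw [wt2] at hv3
    have ha' := Nat.pos_of_ne_zero ha
    have hb' := Nat.pos_of_ne_zero hb
    have h0 : v 0 ≤ w := by
      have : 1 * v 0 ≤ b * v 0 := Nat.mul_le_mul_right _ hb'
      omega
    have h1 : v 1 ≤ w := by
      have : 1 * v 1 ≤ a * v 1 := Nat.mul_le_mul_right _ ha'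
      omega
    refine ⟨⟨(⟨v 0, by omega⟩, ⟨v 1, by omega⟩), Nat.pos_of_ne_zero (hv1 0),
      Nat.pos_of_ne_zero (hv1 1), hv3⟩, ?_⟩
    apply Subtype.ext
    ext i
    fin_cases i
    · exact (hE _).1
    · exact (hE _).2

/-- transfer of the nondegeneracy condition -/
theorem ord_Ψ (ha : a ≠ 0) (hb : b ≠ 0) (hg : g ≠ 0) {f : Polynomial (Polynomial κ)}
    (hwt : ∀ m n, (f.coeff m).coeff n ≠ 0 → b * m + a * n ≤ g * (a * b)) (φ : κ →+* k p) {w : ℕ}
    (hMp : g * (a * b) ∣ p - 1)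
    (hw : (hw p a b w ((p - 1) * w / (g * (a * b))) f).det ≠ 0) :
    Ord (Trans.Ψ φ f) ![b, a] (g * (a * b)) w := by
  classical
  obtain ⟨E, hE⟩ := exists_E (a := a) (b := b) ha hb w
  have hWF := WF_Ψ ha hb hg hwt φ
  refine ⟨Lat a b w, inferInstance, inferInstance, E, ?_⟩
  obtain ⟨n, hn⟩ : ∃ n, n = (p - 1) * w / (g * (a * b)) := ⟨_, rfl⟩
  have hnM : n * (g * (a * b)) = (p - 1) * w := by
    rw [hn, Nat.div_mul_cancel (hMp.mul_right w)]
  rw [← hn] at hw ⊢
  have h1 : (Matrix.of fun x y => NN (Trans.Ψ φ f) 0 n (E x).1 (E y).1) =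
      φ.mapMatrix (TV.hw p a b w n f) := by
    ext1 u v
    rw [Matrix.of_apply, RingHom.mapMatrix_apply, Matrix.map_apply, TV.hw, Matrix.of_apply]
    have h0 : map (Fr p 0) (Trans.Ψ φ f) = Trans.Ψ φ f := by
      ext v
      rw [coeff_map, Fr_apply, pow_zero, pow_one]
    have hwu := (E u).2.2
    have hwv := (E v).2.2
    rw [wt2, (hE u).1, (hE u).2] at hwu
    rw [wt2, (hE v).1, (hE v).2] at hwv
    unfold NN
    rw [h0]
    by_cases h : (E u).1 ≤ p • (E v).1
    · rw [if_pos h, ← map_pow, Trans.coeff_Ψ, Finsupp.tsub_apply, Finsupp.tsub_apply,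
        Finsupp.smul_apply, Finsupp.smul_apply, smul_eq_mul, smul_eq_mul, (hE u).1, (hE u).2,
        (hE v).1, (hE v).2]
    · rw [if_neg h]
      symm
      have h2 : coeff (Finsupp.single 0 (p * (v.1.1 : ℕ) - (u.1.1 : ℕ)) +
          Finsupp.single 1 (p * (v.1.2 : ℕ) - (u.1.2 : ℕ))) (Trans.Ψ φ f ^ n) = 0 := by
        refine (coeff_pow_top hWF.le n).1 _ ?_
        rw [hnM, wt2]
        simp only [Finsupp.coe_add, Pi.add_apply, Finsupp.single_apply]
        simp only [if_true, one_ne_zero, zero_ne_one, if_false, add_zero, zero_add]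
        -- one of the coordinates fails
        have h3 : ¬ ((u.1.1 : ℕ) ≤ p * (v.1.1 : ℕ)) ∨ ¬ ((u.1.2 : ℕ) ≤ p * (v.1.2 : ℕ)) := by
          by_contra h4
          push Not at h4
          apply h
          intro i
          rw [Finsupp.smul_apply, smul_eq_mul]
          fin_cases i
          · change (E u).1 0 ≤ p * (E v).1 0
            rw [(hE u).1, (hE v).1]
            exact h4.1
          · change (E u).1 1 ≤ p * (E v).1 1
            rw [(hE u).2, (hE v).2]
            exact h4.2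
        have hp2 := hp.1.two_le
        have h5 : p * w = (p - 1) * w + w := by
          obtain ⟨q, rfl⟩ : ∃ q, p = q + 1 := ⟨p - 1, by omega⟩
          rw [Nat.add_sub_cancel]
          ring
        have h6 : b * (p * (v.1.1 : ℕ)) + a * (p * (v.1.2 : ℕ)) = p * w := by
          have h7 : b * (p * (v.1.1 : ℕ)) + a * (p * (v.1.2 : ℕ)) =
            p * (b * (v.1.1 : ℕ) + a * (v.1.2 : ℕ)) := by ring
          rw [h7]
          exact congrArg (fun t => p * t) hwv
        rw [Nat.mul_sub, Nat.mul_sub]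
        have ha' := Nat.pos_of_ne_zero ha
        have hb' := Nat.pos_of_ne_zero hb
        rcases h3 with h3 | h3
        · push Not at h3
          have h7 : b * (p * (v.1.1 : ℕ)) < b * (u.1.1 : ℕ) := Nat.mul_lt_mul_of_pos_left h3 hb'
          omega
        · push Not at h3
          have h7 : a * (p * (v.1.2 : ℕ)) < a * (u.1.2 : ℕ) := Nat.mul_lt_mul_of_pos_left h3 ha'
          omega
      rw [← map_pow, Trans.coeff_Ψ] at h2
      simpa using h2
  rw [h1, ← RingHom.map_det, Ne, map_eq_zero_iff _ φ.injective]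
  exact hw

/-- the Hasse–Witt matrix in weight `M` -/
theorem NN_M (ha : a ≠ 0) (hb : b ≠ 0) (hab : a.Coprime b) {f : MvPolynomial (Fin 2) (k p)}
    (hf : WF f ![b, a] (g * (a * b))) (hgp : g < p) (j : ℕ) {u v : ℕ} (hu : u + 1 < g)
    (hv : v + 1 < g) :
    NN f j (p - 1) (mu a b g (u + 1)) (mu a b g (v + 1)) =
      (((Hf a b g f).map (Fr p j)) ^ (p - 1)).coeff (p * (v + 1) - (u + 1)) := by
  classical
  have hp2 := hp.1.two_le
  have h1 : u + 1 ≤ p * (v + 1) := by
    have : p * 1 ≤ p * (v + 1) := Nat.mul_le_mul_left p (by omega)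
    omega
  have h2 : g - (u + 1) ≤ p * (g - (v + 1)) := by
    have : p * 1 ≤ p * (g - (v + 1)) := Nat.mul_le_mul_left p (by omega)
    omega
  have hle : mu a b g (u + 1) ≤ p • mu a b g (v + 1) := by
    intro i
    rw [Finsupp.smul_apply, smul_eq_mul]
    fin_cases i
    · change mu a b g (u + 1) 0 ≤ p * mu a b g (v + 1) 0
      rw [mu0, mu0]
      calc a * (u + 1) ≤ a * (p * (v + 1)) := Nat.mul_le_mul_left a h1
        _ = p * (a * (v + 1)) := by ring
    · change mu a b g (u + 1) 1 ≤ p * mu a b g (v + 1) 1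
      rw [mu1, mu1]
      calc b * (g - (u + 1)) ≤ b * (p * (g - (v + 1))) := Nat.mul_le_mul_left b h2
        _ = p * (b * (g - (v + 1))) := by ring
  unfold NN
  rw [if_pos hle, coeff_pow_H ha hb hab (hf.map_le j), Hf_map, Finsupp.tsub_apply,
    Finsupp.smul_apply, smul_eq_mul, mu0, mu0]
  · have h3 : p * (a * (v + 1)) - a * (u + 1) = (p * (v + 1) - (u + 1)) * a := by
      rw [Nat.sub_mul]
      congr 1
      · ring
      · ring
    rw [h3, Polynomial.coeff_expand_mul (Nat.pos_of_ne_zero ha)]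
  · have h3 : wt ![b, a] (p • mu a b g (v + 1) - mu a b g (u + 1)) +
        wt ![b, a] (mu a b g (u + 1)) = p * wt ![b, a] (mu a b g (v + 1)) := by
      rw [← wt_add, tsub_add_cancel_of_le hle, wt_smul]
    rw [wt_mu (by omega), wt_mu (by omega)] at h3
    have h4 := wadd hp.1.ne_zero (g * (a * b))
    omega

end kappa

end TV

end Pool.Agent.N867.AS
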