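import Pool.Agent.N867.AS.Lead
import Pool.Agent.N867.AS.V6
import Pool.Agent.N867.AS.L1

/-!
# Values at roots of polynomials with irreducible leading form
-/

set_option autoImplicit false
set_option linter.unusedSectionVars false

namespace Pool.Agent.N867.AS

namespace RG

open Polynomial WithZero Pool.Agent.N867.AS.Frame ASR Root

variable {κ : Type} [Field κ] {a b : ℕ}

variable {V : ValuationSubring (AlgebraicClosure (F₀ κ))}

/-- weighted polynomials with leading polynomial `H` -/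
structure WG (a b h : ℕ) (H : κ[X]) (F : κ[X][X]) : Prop where
  monic : F.Monic
  deg : F.natDegree = h * a
  wt : ∀ m n, (F.coeff m).coeff n ≠ 0 → b * m + a * n ≤ h * (a * b)
  top : TV.topPoly a b h F = H

/-- a homogeneous element -/
noncomputable def hom (a b m n R : ℕ) (c : ℕ → κ) : κ[X][X] :=
  ∑ r ∈ Finset.range R, C (C (c r) * X ^ (n - b * r)) * X ^ (m + a * r)

theorem coeff_hom (m n R : ℕ) (c : ℕ → κ) (i j : ℕ) :
    ((hom a b m n R c).coeff i).coeff j =
      ∑ r ∈ Finset.range R, if i = m + a * r ∧ j = n - b * r then c r else 0 := by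
  rw [hom, finsetSum_coeff, finsetSum_coeff]
  refine Finset.sum_congr rfl fun r _ => ?_
  rw [coeff_C_mul, coeff_X_pow]
  by_cases hi : i = m + a * r
  · rw [if_pos hi, mul_one, coeff_C_mul, coeff_X_pow]
    by_cases hj : j = n - b * r
    · rw [if_pos hj, if_pos ⟨hi, hj⟩, mul_one]
    · rw [if_neg hj, if_neg (fun h => hj h.2), mul_zero]
  · rw [if_neg hi, mul_zero, coeff_zero, if_neg (fun h => hi h.1)]

/-- the embedding of the constants -/
noncomputable def ic (κ : Type) [Field κ] (a b : ℕ) : κ →+* AlgebraicClosure (F₀ κ) :=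
  ((jj κ a b).comp C).comp C

/-- the coordinate `ξ^a / t^b` -/
noncomputable def zz (κ : Type) [Field κ] (a b : ℕ) (ξ : AlgebraicClosure (F₀ κ)) :
    AlgebraicClosure (F₀ κ) :=
  ξ ^ a / jj κ a b (C X) ^ b

theorem tne (ha : a ≠ 0) : jj κ a b (C X) ≠ 0 := by
  rw [Ne, map_eq_zero_iff _ (jj_inj ha), C_eq_zero]
  exact X_ne_zero

theorem ev_C (ξ : AlgebraicClosure (F₀ κ)) (c : κ[X]) : ev κ a b ξ (C c) = jj κ a b (C c) := by
  rw [ev, coe_eval₂RingHom, eval₂_C]
  rfl

theorem ev_X (ξ : AlgebraicClosure (F₀ κ)) : ev κ a b ξ X = ξ := by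
  rw [ev, coe_eval₂RingHom, eval₂_X]

theorem ev_hom (ha : a ≠ 0) (ξ : AlgebraicClosure (F₀ κ)) {m n R : ℕ} {c : ℕ → κ}
    (hc : ∀ r, n < b * r → c r = 0) :
    ev κ a b ξ (hom a b m n R c) = jj κ a b (C X) ^ n * ξ ^ m *
      ∑ r ∈ Finset.range R, ic κ a b (c r) * zz κ a b ξ ^ r := by
  rw [hom, map_sum, Finset.mul_sum]
  refine Finset.sum_congr rfl fun r _ => ?_
  rw [map_mul, ev_C, map_pow, ev_X, C_mul, C_pow, map_mul, map_pow]
  by_cases h : n < b * r
  · rw [hc r h]
    simp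
  · obtain ⟨d, rfl⟩ : ∃ d, n = b * r + d := ⟨n - b * r, by omega⟩
    rw [Nat.add_sub_cancel_left, zz, div_pow, pow_add, pow_add, ← pow_mul, ← pow_mul]
    have h1 := pow_ne_zero (b * r) (tne (κ := κ) (b := b) ha)
    have h2 : ic κ a b (c r) = jj κ a b (C (C (c r))) := rfl
    rw [h2]
    field_simp

theorem lt_of_low (ha : a ≠ 0) (hV : Ext (v κ) V) {ξ : AlgebraicClosure (F₀ κ)}
    (hξ : V.valuation ξ ≤ θ V ^ b) {c : κ[X][X]} {W : ℕ}
    (hc : ∀ i j, (c.coeff i).coeff j ≠ 0 → b * i + a * j < W) :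
    V.valuation (ev κ a b ξ c) < θ V ^ W := by
  have h1 : V.valuation (ev κ a b ξ c) ≤ V.valuation (jj κ a b c) := by
    rw [ev_eq_sum ξ (Nat.lt_succ_self _)]
    refine Valuation.map_sum_le _ fun m _ => ?_
    rw [map_mul, map_pow]
    calc _ ≤ V.valuation (jj κ a b (C (c.coeff m))) * (θ V ^ b) ^ m :=
          mul_le_mul_right (pow_le_pow_left₀ zero_le hξ m) _
      _ = V.valuation (jj κ a b (C (c.coeff m))) * θ V ^ (b * m) := by rw [pow_mul]
      _ ≤ _ := term_le ha hV c m
  refine lt_of_le_of_lt h1 ?_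
  have h2 := Lead.v_lt (κ := κ) hc
  rw [← not_le, ← pow_le hV, not_le] at h2
  exact h2

theorem zz_val (ha : a ≠ 0) (hV : Ext (v κ) V) {ξ : AlgebraicClosure (F₀ κ)}
    (hξ : V.valuation ξ = θ V ^ b) : V.valuation (zz κ a b ξ) = 1 := by
  rw [zz, map_div₀, map_pow, map_pow, hξ, val_C ha hV X_ne_zero, natDegree_X, mul_one, ← pow_mul,
    ← pow_mul, mul_comm a b]
  exact div_self (pow_ne_zero _ (θ_ne hV))

theorem ic_val (ha : a ≠ 0) (hV : Ext (v κ) V) {c : κ} (hc : c ≠ 0) :
    V.valuation (ic κ a b c) = 1 := by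
  have h1 := val_C (b := b) ha hV (c := C c) (C_ne_zero.2 hc)
  rw [natDegree_C, mul_zero, pow_zero] at h1
  exact h1

theorem ic_le (ha : a ≠ 0) (hV : Ext (v κ) V) (c : κ) : V.valuation (ic κ a b c) ≤ 1 := by
  by_cases hc : c = 0
  · rw [hc, map_zero, map_zero]
    exact zero_le_one
  · exact (ic_val ha hV hc).le

theorem int_val (ha : a ≠ 0) (hV : Ext (v κ) V) {z : AlgebraicClosure (F₀ κ)}
    (hz : V.valuation z ≤ 1) (Q : κ[X]) : V.valuation (Q.eval₂ (ic κ a b) z) ≤ 1 := by
  rw [eval₂_eq_sum_range]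
  refine Valuation.map_sum_le _ fun m _ => ?_
  rw [map_mul, map_pow]
  exact mul_le_one₀ (ic_le ha hV _) zero_le (pow_le_one₀ zero_le hz)

/-- coprime polynomials cannot both be small -/
theorem bezout (ha : a ≠ 0) (hV : Ext (v κ) V) {z : AlgebraicClosure (F₀ κ)}
    (hz : V.valuation z ≤ 1) {Q H : κ[X]} (hQH : IsCoprime Q H)
    (hH : V.valuation (H.eval₂ (ic κ a b) z) < 1) :
    V.valuation (Q.eval₂ (ic κ a b) z) = 1 := by
  refine le_antisymm (int_val ha hV hz Q) ?_
  by_contra h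
  push Not at h
  obtain ⟨u, w, huw⟩ := hQH
  have h1 := congrArg (eval₂ (ic κ a b) z) huw
  rw [eval₂_add, eval₂_mul, eval₂_mul, eval₂_one] at h1
  have h2 : V.valuation (u.eval₂ (ic κ a b) z * Q.eval₂ (ic κ a b) z +
      w.eval₂ (ic κ a b) z * H.eval₂ (ic κ a b) z) < 1 := by
    refine Valuation.map_add_lt _ ?_ ?_
    · rw [map_mul]
      exact lt_of_le_of_lt (mul_le_of_le_one_left zero_le (int_val ha hV hz u)) h
    · rw [map_mul]
      exact lt_of_le_of_lt (mul_le_of_le_one_left zero_le (int_val ha hV hz w)) hH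
  rw [h1, map_one] at h2
  exact lt_irrefl _ h2

/-- the exponents of weight `h a b` -/
theorem lead_idx (ha : a ≠ 0) (hb : b ≠ 0) (hab : a.Coprime b) {h i j : ℕ}
    (hij : b * i + a * j = h * (a * b)) : ∃ r ≤ h, i = a * r ∧ j = b * (h - r) := by
  obtain ⟨r, hr, hv⟩ := TV.solve (g := h) ha hb hab
    (v := Finsupp.single 0 i + Finsupp.single 1 j) (by
      rw [TV.wt2]
      simpa using hij)
  refine ⟨r, hr, ?_, ?_⟩
  · have h1 := DFunLike.congr_fun hv 0
    rw [TV.mu0] at h1
    simpa using h1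
  · have h1 := DFunLike.congr_fun hv 1
    rw [TV.mu1] at h1
    simpa using h1

variable {h : ℕ} {H : κ[X]} {F : κ[X][X]}

theorem top_coeff (a b h : ℕ) (F : κ[X][X]) {r : ℕ} (hr : r ≤ h) :
    (TV.topPoly a b h F).coeff r = (F.coeff (a * r)).coeff (b * (h - r)) := by
  rw [TV.topPoly, finsetSum_coeff, Finset.sum_eq_single r]
  · rw [coeff_C_mul, coeff_X_pow, if_pos rfl, mul_one]
  · intro r' _ hr'
    rw [coeff_C_mul, coeff_X_pow, if_neg (Ne.symm hr'), mul_zero]
  · intro h'
    exact absurd (Finset.mem_range.2 (by omega)) h'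

/-- the leading form -/
theorem WG.low (hF : WG a b h H F) (ha : a ≠ 0) (hb : b ≠ 0) (hab : a.Coprime b) (i j : ℕ)
    (hij : ((F - hom a b 0 (b * h) (h + 1) (fun r => if r ≤ h then H.coeff r else 0)).coeff
      i).coeff j ≠ 0) : b * i + a * j < h * (a * b) := by
  rw [coeff_sub, coeff_sub, coeff_hom] at hij
  have hle : b * i + a * j ≤ h * (a * b) := by
    by_cases h0 : (F.coeff i).coeff j = 0
    · rw [h0, zero_sub, neg_ne_zero] at hij
      obtain ⟨r, hr, hr0⟩ := Finset.exists_ne_zero_of_sum_ne_zero hij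
      have hr' := Nat.lt_succ_iff.1 (Finset.mem_range.1 hr)
      split_ifs at hr0 with h1
      · rw [h1.1, h1.2, zero_add]
        obtain ⟨d, rfl⟩ : ∃ d, h = r + d := ⟨h - r, by omega⟩
        have h2 : b * (r + d) - b * r = b * d := by rw [← Nat.mul_sub]; congr 1; omega
        rw [h2]
        apply le_of_eq
        ring
      · exact absurd rfl hr0
    · exact hF.wt i j h0
  refine lt_of_le_of_ne hle fun heq => ?_
  obtain ⟨r, hr, hi, hj⟩ := lead_idx ha hb hab heq
  apply hij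
  rw [Finset.sum_eq_single r]
  · rw [if_pos ⟨by rw [hi, zero_add], by rw [hj, Nat.mul_sub]⟩, if_pos hr, ← hF.top,
      top_coeff a b h F hr, ← hi, ← hj, sub_self]
  · intro r' _ hr'
    rw [if_neg]
    rintro ⟨h1, _⟩
    rw [hi, zero_add] at h1
    exact hr' (Nat.eq_of_mul_eq_mul_left (Nat.pos_of_ne_zero ha) h1.symm)
  · intro h'
    exact absurd (Finset.mem_range.2 (by omega)) h'

theorem WG.natDegree_le' (hF : WG a b h H F) (m : ℕ) (h0 : F.coeff m ≠ 0) :
    b * m + a * (F.coeff m).natDegree ≤ h * (a * b) :=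
  hF.wt m _ (by rw [coeff_natDegree]; exact leadingCoeff_ne_zero.2 h0)

theorem WG.val_coeff_le (hF : WG a b h H F) (ha : a ≠ 0) (hV : Ext (v κ) V) (m : ℕ)
    (hm : m ≤ h * a) :
    V.valuation (jj κ a b (C (F.coeff m))) ≤ θ V ^ (b * (h * a - m)) := by
  by_cases h0 : F.coeff m = 0
  · rw [h0, C_0, map_zero, map_zero]
    exact zero_le
  · rw [val_C ha hV h0]
    refine pow_le_pow_right₀ (θ_gt hV).le ?_
    have h1 := hF.natDegree_le' m h0
    rw [Nat.mul_sub]
    have h2 : h * (a * b) = b * (h * a) := by ring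
    omega

theorem WG.natDegree_zero (hF : WG a b h H F) (ha : a ≠ 0) (h0 : H.coeff 0 ≠ 0) :
    F.coeff 0 ≠ 0 ∧ (F.coeff 0).natDegree = b * h := by
  have h1 : (F.coeff 0).coeff (b * h) ≠ 0 := by
    have h2 := top_coeff a b h F (r := 0) (Nat.zero_le _)
    rw [hF.top, mul_zero, Nat.sub_zero] at h2
    rw [← h2]
    exact h0
  have h3 : F.coeff 0 ≠ 0 := by
    intro h
    rw [h, coeff_zero] at h1
    exact h1 rfl
  refine ⟨h3, le_antisymm ?_ (le_natDegree_of_ne_zero h1)⟩
  have h2 := hF.natDegree_le' 0 h3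
  rw [mul_zero, zero_add] at h2
  have h4 : h * (a * b) = a * (b * h) := by ring
  rw [h4] at h2
  exact Nat.le_of_mul_le_mul_left h2 (Nat.pos_of_ne_zero ha)

/-- value of a root -/
theorem WG.val_root (hF : WG a b h H F) (ha : a ≠ 0) (hV : Ext (v κ) V) (h0 : H.coeff 0 ≠ 0)
    {ξ : AlgebraicClosure (F₀ κ)} (hξ : ev κ a b ξ F = 0) : V.valuation ξ = θ V ^ b := by
  have hθ := θ_gt hV
  obtain ⟨A, hA⟩ : ∃ A, A = h * a := ⟨_, rfl⟩
  have hdeg := hF.deg
  have hcl := fun m hm => hF.val_coeff_le ha hV m hm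
  simp only [← hA] at hcl hdeg
  have hbh : a * (b * h) = b * A := by rw [hA]; ring
  rw [ev_eq_sum ξ (n := A + 1) (by rw [hdeg]; omega)] at hξ
  rcases lt_trichotomy (V.valuation ξ) (θ V ^ b) with hlt | heq | hgt
  · exfalso
    rw [Finset.sum_range_succ'] at hξ
    have h0' : V.valuation (jj κ a b (C (F.coeff 0)) * ξ ^ 0) = θ V ^ (b * A) := by
      rw [pow_zero, mul_one, val_C ha hV (hF.natDegree_zero ha h0).1,
        (hF.natDegree_zero ha h0).2, hbh]
    have h1 : V.valuation (∑ m ∈ Finset.range A, jj κ a b (C (F.coeff (m + 1))) * ξ ^ (m + 1)) <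
        V.valuation (jj κ a b (C (F.coeff 0)) * ξ ^ 0) := by
      rw [h0']
      refine Valuation.map_sum_lt _ (pow_ne_zero _ (θ_ne hV)) fun m hm => ?_
      have hm' := Finset.mem_range.1 hm
      rw [map_mul, map_pow]
      have h2 : V.valuation ξ ^ (m + 1) < (θ V ^ b) ^ (m + 1) :=
        pow_lt_pow_left₀ hlt zero_le (Nat.succ_ne_zero m)
      calc V.valuation (jj κ a b (C (F.coeff (m + 1)))) * V.valuation ξ ^ (m + 1) ≤
          θ V ^ (b * (A - (m + 1))) * V.valuation ξ ^ (m + 1) :=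
            mul_le_mul_left (hcl (m + 1) (by omega)) _
        _ < θ V ^ (b * (A - (m + 1))) * (θ V ^ b) ^ (m + 1) := by
            refine (mul_lt_mul_iff_right₀ ?_).2 h2
            exact zero_lt_iff.2 (pow_ne_zero _ (θ_ne hV))
        _ = θ V ^ (b * A) := by
            rw [← pow_mul, ← pow_add, ← mul_add]
            congr 2
            omega
    have h2 := Valuation.map_add_eq_of_lt_right V.valuation h1
    rw [hξ, map_zero, h0'] at h2
    exact pow_ne_zero _ (θ_ne hV) h2.symm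
  · exact heq
  · exfalso
    rw [Finset.sum_range_succ] at hξ
    have hFa : F.coeff A = 1 := by
      have := hF.monic.coeff_natDegree
      rwa [hdeg] at this
    have h0' : V.valuation (jj κ a b (C (F.coeff A)) * ξ ^ A) = V.valuation ξ ^ A := by
      rw [hFa, C_1, map_one, one_mul, map_pow]
    have hξ0 : V.valuation ξ ≠ 0 := (lt_of_le_of_lt zero_le hgt).ne'
    have h1 : V.valuation (∑ m ∈ Finset.range A, jj κ a b (C (F.coeff m)) * ξ ^ m) <
        V.valuation (jj κ a b (C (F.coeff A)) * ξ ^ A) := by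
      rw [h0']
      refine Valuation.map_sum_lt _ (pow_ne_zero _ hξ0) fun m hm => ?_
      have hm' := Finset.mem_range.1 hm
      rw [map_mul, map_pow]
      have h2 : (θ V ^ b) ^ (A - m) < V.valuation ξ ^ (A - m) :=
        pow_lt_pow_left₀ hgt zero_le (by omega)
      calc V.valuation (jj κ a b (C (F.coeff m))) * V.valuation ξ ^ m ≤
          θ V ^ (b * (A - m)) * V.valuation ξ ^ m :=
            mul_le_mul_left (hcl m hm'.le) _
        _ < V.valuation ξ ^ (A - m) * V.valuation ξ ^ m := by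
            rw [pow_mul]
            refine (mul_lt_mul_iff_left₀ ?_).2 h2
            exact zero_lt_iff.2 (pow_ne_zero _ hξ0)
        _ = V.valuation ξ ^ A := by
            rw [← pow_add]
            congr 1
            omega
    have h2 := Valuation.map_add_eq_of_lt_right V.valuation h1
    rw [hξ, map_zero, h0'] at h2
    exact pow_ne_zero _ hξ0 h2.symm

/-- value of the leading form -/
theorem WG.ev_top (hF : WG a b h H F) (ha : a ≠ 0) (ξ : AlgebraicClosure (F₀ κ))
    (hdeg : H.natDegree ≤ h) (hb : b ≠ 0) :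
    ev κ a b ξ (hom a b 0 (b * h) (h + 1) (fun r => if r ≤ h then H.coeff r else 0)) =
      jj κ a b (C X) ^ (b * h) * H.eval₂ (ic κ a b) (zz κ a b ξ) := by
  rw [ev_hom ha ξ, pow_zero, mul_one, eval₂_eq_sum_range' _ (Nat.lt_succ_of_le hdeg)]
  · congr 1
    refine Finset.sum_congr rfl fun r hr => ?_
    rw [if_pos (Nat.lt_succ_iff.1 (Finset.mem_range.1 hr))]
  · intro r hr
    rw [if_neg]
    exact not_le.2 (Nat.lt_of_mul_lt_mul_left hr)

theorem WG.H_deg (hF : WG a b h H F) : H.natDegree ≤ h := by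
  rw [← hF.top, TV.topPoly]
  refine natDegree_sum_le_of_forall_le _ _ fun r hr => ?_
  exact (natDegree_C_mul_X_pow_le _ _).trans (Nat.lt_succ_iff.1 (Finset.mem_range.1 hr))

theorem tval (ha : a ≠ 0) (hV : Ext (v κ) V) (n : ℕ) :
    V.valuation (jj κ a b (C X) ^ n) = θ V ^ (a * n) := by
  rw [map_pow, val_C ha hV X_ne_zero, natDegree_X, mul_one, ← pow_mul]

/-- the leading polynomial is small at a root -/
theorem WG.H_small (hF : WG a b h H F) (ha : a ≠ 0) (hb : b ≠ 0) (hab : a.Coprime b)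
    (hV : Ext (v κ) V) {ξ : AlgebraicClosure (F₀ κ)} (hξv : V.valuation ξ = θ V ^ b)
    (hξ : ev κ a b ξ F = 0) : V.valuation (H.eval₂ (ic κ a b) (zz κ a b ξ)) < 1 := by
  have h1 := lt_of_low ha hV hξv.le (hF.low ha hb hab)
  rw [map_sub, hξ, zero_sub, Valuation.map_neg, hF.ev_top ha ξ hF.H_deg hb, map_mul, tval ha hV]
    at h1
  have h2 : a * (b * h) = h * (a * b) := by ring
  rw [h2] at h1
  by_contra h3
  push Not at h3
  have h4 : θ V ^ (h * (a * b)) ≤ θ V ^ (h * (a * b)) *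
      V.valuation (H.eval₂ (ic κ a b) (zz κ a b ξ)) := le_mul_of_one_le_right zero_le h3
  exact absurd h1 (not_lt.2 h4)

/-- value of another weighted polynomial at a root -/
theorem WG.val_other (hF : WG a b h H F) {h' : ℕ} {H' : κ[X]} {F' : κ[X][X]}
    (hF' : WG a b h' H' F') (ha : a ≠ 0) (hb : b ≠ 0) (hab : a.Coprime b) (hV : Ext (v κ) V)
    (h0 : H.coeff 0 ≠ 0) (hcop : IsCoprime H' H) {ξ : AlgebraicClosure (F₀ κ)}
    (hξ : ev κ a b ξ F = 0) : V.valuation (ev κ a b ξ F') = θ V ^ (h' * (a * b)) := by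
  have hξv := hF.val_root ha hV h0 hξ
  have hz := zz_val ha hV hξv
  have hsmall := hF.H_small ha hb hab hV hξv hξ
  have hbig := bezout (b := b) ha hV hz.le hcop hsmall
  have h1 := lt_of_low ha hV hξv.le (hF'.low ha hb hab)
  obtain ⟨T, hT⟩ : ∃ T, T = hom a b 0 (b * h') (h' + 1)
    (fun r => if r ≤ h' then H'.coeff r else 0) := ⟨_, rfl⟩
  have h2 : V.valuation (ev κ a b ξ T) = θ V ^ (h' * (a * b)) := by
    rw [hT, hF'.ev_top ha ξ hF'.H_deg hb, map_mul, tval ha hV, hbig, mul_one]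
    congr 1
    ring
  rw [← hT] at h1
  have h3 : ev κ a b ξ F' = ev κ a b ξ T + ev κ a b ξ (F' - T) := by rw [map_sub]; ring
  rw [h3, Valuation.map_add_eq_of_lt_left _ (by rw [h2]; exact h1), h2]

/-- nonzero integral elements have value at least one -/
theorem WG.one_le (hF : WG a b h H F) (ha : a ≠ 0) (hb : b ≠ 0) (hab : a.Coprime b)
    (hV : Ext (v κ) V) (h0 : H.coeff 0 ≠ 0) (hirr : Irreducible H) (hH : H.natDegree = h)
    {ξ : AlgebraicClosure (F₀ κ)} (hξ : ev κ a b ξ F = 0) (c : κ[X][X])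
    (hc : ev κ a b ξ c ≠ 0) : 1 ≤ V.valuation (ev κ a b ξ c) := by
  classical
  have hξv := hF.val_root ha hV h0 hξ
  have hz := zz_val ha hV hξv
  have hsmall := hF.H_small ha hb hab hV hξv hξ
  have h1 : ev κ a b ξ c = ev κ a b ξ (c %ₘ F) := by
    conv_lhs => rw [← modByMonic_add_div c F]
    rw [map_add, map_mul, hξ, zero_mul, add_zero]
  have hh : h ≠ 0 := by
    rw [← hH]
    exact hirr.natDegree_pos.ne'
  have hdeg : (c %ₘ F).natDegree < h * a := by
    have h2 := natDegree_modByMonic_lt c hF.monic (by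
      intro h'
      have := hF.deg
      rw [h', natDegree_one] at this
      exact mul_ne_zero hh ha this.symm)
    rwa [hF.deg] at h2
  rw [h1] at hc ⊢
  obtain ⟨d, hd⟩ : ∃ d, d = c %ₘ F := ⟨_, rfl⟩
  rw [← hd] at hc hdeg ⊢
  have hd0 : d ≠ 0 := by
    rintro rfl
    rw [map_zero] at hc
    exact hc rfl
  -- a monomial of maximal weight
  obtain ⟨S, hS⟩ : ∃ S : Finset (ℕ × ℕ), ∀ x, x ∈ S ↔ (d.coeff x.1).coeff x.2 ≠ 0 := by
    refine ⟨d.support.biUnion fun i => (d.coeff i).support.image fun j => (i, j), fun x => ?_⟩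
    rw [Finset.mem_biUnion]
    constructor
    · rintro ⟨i, hi, hx⟩
      rw [Finset.mem_image] at hx
      obtain ⟨j, hj, rfl⟩ := hx
      exact mem_support_iff.1 hj
    · intro hx
      refine ⟨x.1, ?_, ?_⟩
      · rw [mem_support_iff]
        intro h2
        rw [h2, coeff_zero] at hx
        exact hx rfl
      · rw [Finset.mem_image]
        exact ⟨x.2, mem_support_iff.2 hx, rfl⟩
  have hSne : S.Nonempty := by
    obtain ⟨i, hi⟩ : ∃ i, d.coeff i ≠ 0 := by
      by_contra hcon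
      push Not at hcon
      exact hd0 (Polynomial.ext fun n => by rw [hcon n, coeff_zero])
    obtain ⟨j, hj⟩ : ∃ j, (d.coeff i).coeff j ≠ 0 := by
      by_contra hcon
      push Not at hcon
      exact hi (Polynomial.ext fun n => by rw [hcon n, coeff_zero])
    exact ⟨(i, j), (hS _).2 hj⟩
  obtain ⟨x₀, hx₀, hmax⟩ := Finset.exists_max_image S (fun x => b * x.1 + a * x.2) hSne
  obtain ⟨W, hW⟩ : ∃ W, W = b * x₀.1 + a * x₀.2 := ⟨_, rfl⟩
  have hx₀' := (hS x₀).1 hx₀
  have hle : ∀ i j, (d.coeff i).coeff j ≠ 0 → b * i + a * j ≤ W := by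
    intro i j hij
    rw [hW]
    exact hmax (i, j) ((hS (i, j)).2 hij)
  -- the base point
  obtain ⟨m, r₀, hm, hi₀⟩ : ∃ m r₀, m < a ∧ x₀.1 = m + a * r₀ :=
    ⟨x₀.1 % a, x₀.1 / a, Nat.mod_lt _ (Nat.pos_of_ne_zero ha), (Nat.mod_add_div _ _).symm⟩
  obtain ⟨n, hn⟩ : ∃ n, n = x₀.2 + b * r₀ := ⟨_, rfl⟩
  have hWmn : W = b * m + a * n := by
    rw [hW, hi₀, hn]
    ring
  have hr₀ : r₀ < h := by
    by_contra h2
    push Not at h2
    have h3 : x₀.1 < h * a := by
      by_contra h4
      push Not at h4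
      apply hx₀'
      rw [coeff_eq_zero_of_natDegree_lt (lt_of_lt_of_le hdeg h4), coeff_zero]
    have h4 : a * h ≤ a * r₀ := Nat.mul_le_mul_left a h2
    rw [mul_comm h a] at h3
    omega
  obtain ⟨Q, hQ⟩ : ∃ Q : ℕ → κ, ∀ r, Q r = if b * r ≤ n then
    (d.coeff (m + a * r)).coeff (n - b * r) else 0 := ⟨_, fun _ => rfl⟩
  have hQ0 : Q r₀ ≠ 0 := by
    rw [hQ, if_pos (by omega), ← hi₀]
    have : n - b * r₀ = x₀.2 := by omega
    rw [this]
    exact hx₀'
  obtain ⟨T, hT⟩ : ∃ T, T = hom a b m n h Q := ⟨_, rfl⟩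
  -- the remainder is small
  have hlow : ∀ i j, ((d - T).coeff i).coeff j ≠ 0 → b * i + a * j < W := by
    intro i j hij
    rw [coeff_sub, coeff_sub, hT, coeff_hom] at hij
    have hle2 : b * i + a * j ≤ W := by
      by_cases h2 : (d.coeff i).coeff j = 0
      · rw [h2, zero_sub, neg_ne_zero] at hij
        obtain ⟨r, hr, hr0⟩ := Finset.exists_ne_zero_of_sum_ne_zero hij
        split_ifs at hr0 with h3
        · rw [hQ] at hr0
          split_ifs at hr0 with h4
          · rw [h3.1, h3.2, hWmn]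
            obtain ⟨e, he⟩ : ∃ e, n = b * r + e := ⟨n - b * r, by omega⟩
            rw [he, Nat.add_sub_cancel_left]
            apply le_of_eq
            ring
          · exact absurd rfl hr0
        · exact absurd rfl hr0
      · exact hle i j h2
    refine lt_of_le_of_ne hle2 fun heq => hij ?_
    -- `i = m + a r`, `j = n - b r`
    have hmod : a ∣ b * i + a * j → True := fun _ => trivial
    have hdvd : (a : ℤ) ∣ (b : ℤ) * ((i : ℤ) - m) := by
      refine ⟨(n : ℤ) - j, ?_⟩
      have h5 : (b * i + a * j : ℤ) = b * m + a * n := by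
        rw [hWmn] at heq
        exact_mod_cast heq
      linear_combination h5
    have hcop : IsCoprime (a : ℤ) (b : ℤ) := Nat.isCoprime_iff_coprime.2 hab
    obtain ⟨r', hr'⟩ := hcop.dvd_of_dvd_mul_left hdvd
    have hr'0 : 0 ≤ r' := by
      by_contra h6
      push Not at h6
      have h7 : (a : ℤ) * r' ≤ (a : ℤ) * (-1) :=
        mul_le_mul_of_nonneg_left (by omega) (by positivity)
      omega
    obtain ⟨r, rfl⟩ := Int.eq_ofNat_of_zero_le hr'0
    have hi : i = m + a * r := by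
      have h8 : (i : ℤ) = m + a * r := by linear_combination hr'
      exact_mod_cast h8
    have hj : b * r + j = n := by
      have h9 : a * (b * r + j) = a * n := by
        rw [hi, hWmn] at heq
        have h10 : b * (m + a * r) + a * j = b * m + a * (b * r + j) := by ring
        rw [h10] at heq
        exact Nat.add_left_cancel heq
      exact Nat.eq_of_mul_eq_mul_left (Nat.pos_of_ne_zero ha) h9
    by_cases hrh : r < h
    · rw [Finset.sum_eq_single r]
      · rw [if_pos ⟨hi, by omega⟩, hQ, if_pos (by omega), ← hi]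
        have : n - b * r = j := by omega
        rw [this, sub_self]
      · intro r'' _ hne
        rw [if_neg]
        rintro ⟨h10, _⟩
        rw [hi] at h10
        exact hne (Nat.eq_of_mul_eq_mul_left (Nat.pos_of_ne_zero ha)
          (Nat.add_left_cancel h10).symm)
      · intro h'
        exact absurd (Finset.mem_range.2 hrh) h'
    · -- beyond the degree
      have h10 : h * a ≤ i := by
        rw [hi]
        have : a * h ≤ a * r := Nat.mul_le_mul_left a (not_lt.1 hrh)
        rw [mul_comm h a]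
        omega
      rw [coeff_eq_zero_of_natDegree_lt (lt_of_lt_of_le hdeg h10), coeff_zero,
        Finset.sum_eq_zero, sub_zero]
      intro r'' hr''
      rw [if_neg]
      rintro ⟨h11, _⟩
      rw [hi] at h11
      have h12 := Nat.eq_of_mul_eq_mul_left (Nat.pos_of_ne_zero ha) (Nat.add_left_cancel h11)
      rw [h12] at hrh
      exact hrh (Finset.mem_range.1 hr'')
  have h2 := lt_of_low ha hV hξv.le hlow
  -- the polynomial
  obtain ⟨C', hC'⟩ : ∃ C' : κ[X], C' = ∑ r ∈ Finset.range h, C (Q r) * X ^ r := ⟨_, rfl⟩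
  have hC'coeff : ∀ r, C'.coeff r = if r < h then Q r else 0 := by
    intro r
    rw [hC', finsetSum_coeff]
    simp only [coeff_C_mul, coeff_X_pow, mul_ite, mul_one, mul_zero]
    rw [Finset.sum_ite_eq]
    simp only [Finset.mem_range]
  have hC'0 : C' ≠ 0 := by
    intro h3
    have h4 := hC'coeff r₀
    rw [h3, coeff_zero, if_pos hr₀] at h4
    exact hQ0 h4.symm
  have hC'deg : C'.natDegree < h := by
    rw [natDegree_lt_iff_degree_lt hC'0, degree_lt_iff_coeff_zero]
    intro r hr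
    rw [hC'coeff, if_neg (not_lt.2 hr)]
  have hcop : IsCoprime C' H := by
    refine ((hirr.coprime_iff_not_dvd).2 fun h3 => ?_).symm
    have h4 := natDegree_le_of_dvd h3 hC'0
    omega
  have hbig := bezout (b := b) ha hV hz.le hcop hsmall
  have h3 : ev κ a b ξ T = jj κ a b (C X) ^ n * ξ ^ m * C'.eval₂ (ic κ a b) (zz κ a b ξ) := by
    rw [hT, ev_hom ha ξ]
    · congr 1
      rw [hC', eval₂_finsetSum]
      refine Finset.sum_congr rfl fun r _ => ?_
      rw [eval₂_mul, eval₂_C, eval₂_pow, eval₂_X]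
    · intro r hr
      rw [hQ, if_neg (not_le.2 hr)]
  have h4 : V.valuation (ev κ a b ξ T) = θ V ^ W := by
    rw [h3, map_mul, map_mul, tval ha hV, map_pow, hξv, hbig, mul_one, ← pow_mul, ← pow_add, hWmn]
    congr 1
    ring
  have h5 : ev κ a b ξ d = ev κ a b ξ T + ev κ a b ξ (d - T) := by rw [map_sub]; ring
  rw [h5, Valuation.map_add_eq_of_lt_left _ (by rw [h4]; exact h2), h4]
  exact one_le_pow₀ (θ_gt hV).le

end RG

end Pool.Agent.N867.AS
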