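import Pool.Agent.N867.AS.L2
import Pool.Agent.N867.AS.Cls

/-!
# The rank bound for general leading forms
-/

set_option autoImplicit false
set_option linter.unusedSectionVars false

namespace Pool.Agent.N867.AS

namespace RG

open Polynomial WithZero Pool.Agent.N867.AS.Frame ASR Root Core

variable {κ : Type} [Field κ] {a b p : ℕ}

theorem WG.v_F {h : ℕ} {H : κ[X]} {F : κ[X][X]} (hF : WG a b h H F) (ha : a ≠ 0) :
    v κ (ψ κ a b F) = exp ((h * (a * b) : ℕ) : ℤ) := by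
  refine le_antisymm (v_ψ_le ?_) ?_
  · intro i j h
    have := hF.wt i j h
    omega
  · have h1 : (F.coeff (h * a)).coeff 0 ≠ 0 := by
      have h2 := hF.monic.coeff_natDegree
      rw [hF.deg] at h2
      rw [h2, coeff_one_zero]
      exact one_ne_zero
    have h3 := le_v_ψ (b := b) ha F (h * a) 0 h1
    have h4 : a * 0 + b * (h * a) = h * (a * b) := by ring
    rwa [h4] at h3

theorem WG.exists_xi {h : ℕ} {H : κ[X]} {F : κ[X][X]} (hF : WG a b h H F) (ha : a ≠ 0)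
    (hh : h ≠ 0) : ∃ ξ : (AlgebraicClosure (F₀ κ)), ev κ a b ξ F = 0 := by
  have h1 : (F.map ((jj κ a b).comp C)).degree ≠ 0 := by
    have hinj : Function.Injective ((jj κ a b).comp C) := (jj_inj ha).comp C_injective
    rw [degree_map_eq_of_injective hinj]
    intro h
    have := natDegree_eq_of_degree_eq_some h
    rw [hF.deg] at this
    exact mul_ne_zero hh ha this
  obtain ⟨ξ, hξ⟩ := IsAlgClosed.exists_root _ h1
  refine ⟨ξ, ?_⟩
  rw [IsRoot, eval_map] at hξ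
  exact hξ

theorem coprime_toK {h h' : ℕ} {H H' : κ[X]} {F F' : κ[X][X]} (hF : WG a b h H F)
    (hF' : WG a b h' H' F') (ha : a ≠ 0) (hb : b ≠ 0) (hab : a.Coprime b) (h0 : H.coeff 0 ≠ 0)
    (hcop : IsCoprime H' H) : IsCoprime (toK κ F) (toK κ F') := by
  obtain ⟨V, hV⟩ := Val.exists_ext (F := F₀ κ) (Ω := AlgebraicClosure (F₀ κ)) (v κ)
  have hg : Function.Injective ((jj κ a b).comp C) := (jj_inj ha).comp C_injective
  obtain ⟨φ, hφ⟩ : ∃ φ : RatFunc κ →+* AlgebraicClosure (F₀ κ), ∀ c : κ[X],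
      φ (algebraMap κ[X] (RatFunc κ) c) = jj κ a b (C c) :=
    ⟨IsFractionRing.lift hg, fun c => IsFractionRing.lift_algebraMap hg c⟩
  let alg : Algebra (RatFunc κ) (AlgebraicClosure (F₀ κ)) := φ.toAlgebra
  have hev : ∀ (ξ : AlgebraicClosure (F₀ κ)) (c : κ[X][X]),
      (aeval ξ (toK κ c) : AlgebraicClosure (F₀ κ)) = ev κ a b ξ c := by
    intro ξ c
    rw [aeval_def, toK, coe_mapRingHom, eval₂_map, ev, coe_eval₂RingHom]
    congr 1
    exact RingHom.ext fun d => hφ d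
  refine (isCoprime_iff_aeval_ne_zero_of_isAlgClosed (RatFunc κ) (AlgebraicClosure (F₀ κ)) _ _).2 ?_
  intro ξ
  rw [hev, hev]
  by_contra h
  push Not at h
  have h1 := hF.val_other hF' ha hb hab hV h0 hcop h.1
  rw [h.2, map_zero] at h1
  exact pow_ne_zero _ (θ_ne hV) h1.symm

theorem exp_sum' {ι : Type*} (s : Finset ι) (g : ι → ℤ) :
    exp (∑ i ∈ s, g i) = ∏ i ∈ s, (exp (g i) : ℤᵐ⁰) := by
  classical
  induction s using Finset.induction_on with
  | empty => rw [Finset.sum_empty, Finset.prod_empty, exp_zero]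
  | insert i s hi ih => rw [Finset.sum_insert hi, Finset.prod_insert hi, exp_add, ih]

/-- a family of factors -/
structure Fam {ι : Type} (a b : ℕ) (d : ι → ℕ) (H : ι → κ[X]) (F : ι → κ[X][X]) : Prop where
  wg : ∀ i, WG a b (d i) (H i) (F i)
  irr : ∀ i, Irreducible (H i)
  deg : ∀ i, (H i).natDegree = d i
  zero : ∀ i, (H i).coeff 0 ≠ 0
  cop : ∀ i j, i ≠ j → IsCoprime (H i) (H j)

variable {ι : Type} [Fintype ι] [DecidableEq ι] {d : ι → ℕ} {H : ι → κ[X]} {F : ι → κ[X][X]}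

theorem Fam.d_ne (hF : Fam a b d H F) (i : ι) : d i ≠ 0 := by
  rw [← hF.deg i]
  exact (hF.irr i).natDegree_pos.ne'

theorem Fam.f_monic (hF : Fam a b d H F) : (∏ i, F i).Monic :=
  monic_prod_of_monic _ _ fun i _ => (hF.wg i).monic

theorem Fam.f_deg (hF : Fam a b d H F) : (∏ i, F i).natDegree = (∑ i, d i) * a := by
  rw [natDegree_prod_of_monic _ _ fun i _ => (hF.wg i).monic,
    Finset.sum_congr rfl fun i _ => (hF.wg i).deg, Finset.sum_mul]

theorem Fam.isDomain_AK (hp : p.Prime) (hF : Fam a b d H F) (hg : ¬ p ∣ ∑ i, d i)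
    (hpa : ¬ p ∣ a) : IsDomain (AS p (toK κ (∏ i, F i))) := by
  refine isDomain_field (M := RatFunc κ) hp ?_
  rw [toK_deg hF.f_monic, hF.f_deg, hp.dvd_mul]
  tauto

theorem prod_II_i (hp : p.Prime) [CharP κ p] (hF : Fam a b d H F) (ha : a ≠ 0) (hb : b ≠ 0)
    (hab : a.Coprime b) (j : Fin p) :
    ∏ i : ι, II p F i j = Ideal.span {yy p (toK κ (∏ i, F i)) -
      ((j : ℕ) : AS p (toK κ (∏ i, F i)))} := by
  have hch : CharP (AS p (toK κ (∏ i, F i))) p :=
    charP_AS hp (C.comp (algebraMap κ (RatFunc κ))) _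
  unfold II
  have h1 : ∀ i : ι, Ideal.span {AdjoinRoot.of (Phi p (toK κ (∏ i, F i))) (toK κ (F i)),
      yy p (toK κ (∏ i, F i)) - ((j : ℕ) : AS p (toK κ (∏ i, F i)))} =
      Ideal.span {yy p (toK κ (∏ i, F i)) - ((j : ℕ) : AS p (toK κ (∏ i, F i))),
        AdjoinRoot.of (Phi p (toK κ (∏ i, F i))) (toK κ (F i))} := by
    intro i
    rw [Set.pair_comm]
  rw [Finset.prod_congr rfl fun i _ => h1 i]
  refine prod_span_eq Finset.univ _ _ (fun i _ i' _ hij => ?_) ?_
  · exact (coprime_toK (hF.wg i) (hF.wg i') ha hb hab (hF.zero i)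
      (hF.cop i' i (Ne.symm hij))).map _
  · rw [← map_prod, ← map_prod, ← prod_Y hp]
    exact Finset.dvd_prod_of_mem (fun j : Fin p => yy p (toK κ (∏ i, F i)) -
      ((j : ℕ) : AS p (toK κ (∏ i, F i)))) (Finset.mem_univ j)

theorem rank_core' (hp : p.Prime) [CharP κ p] (hF : Fam a b d H F)
    (hab : a.Coprime b)
    (hg : ¬ p ∣ ∑ i, d i) (hpa : ¬ p ∣ a) (hpb : ¬ p ∣ b) (f : κ[X][X])
    (hf : f = ∏ i, F i) [IsDomain (AS p (toK κ f))] (I : ι → Fin p → Ideal (AS p (toK κ f)))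
    (hI1 : ∀ i, ∏ j : Fin p, I i j =
      Ideal.span {AdjoinRoot.of (Phi p (toK κ f)) (toK κ (F i))})
    (hI2 : ∀ j : Fin p, ∏ i : ι, I i j = Ideal.span {yy p (toK κ f) -
      ((j : ℕ) : AS p (toK κ f))}) (n : ι → Fin p → ℕ)
    (h : AS p (toK κ f)) (hh : ∏ i, ∏ j, I i j ^ n i j = Ideal.span {h})
    (k k' : ι) (l l' : Fin p) : n k l + n k' l' = n k l' + n k' l := by
  classical
  have ha : a ≠ 0 := by
    rintro rfl
    exact hpa (dvd_zero p)
  have hb : b ≠ 0 := by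
    rintro rfl
    exact hpb (dvd_zero p)
  have hg0 : ∑ i, d i ≠ 0 := by
    intro h
    rw [h] at hg
    exact hg (dvd_zero p)
  have hfm : f.Monic := by rw [hf]; exact hF.f_monic
  have hfN : ¬ p ∣ f.natDegree := by
    rw [hf, hF.f_deg, hp.dvd_mul]
    tauto
  -- the valuation
  obtain ⟨V, hVe⟩ : ∃ V : ValuationSubring (AlgebraicClosure (F₀ κ)), Ext (v κ) V :=
    Val.exists_ext (v κ)
  have hV := hVe
  have hvf : v κ (ψ κ a b f) = exp (((∑ i, d i) * (a * b) : ℕ) : ℤ) := by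
    rw [hf, map_prod, map_prod, Finset.prod_congr rfl fun i _ => (hF.wg i).v_F ha,
      Finset.sum_mul, Nat.cast_sum, exp_sum']
  have hN : ¬ (p : ℤ) ∣ (((∑ i, d i) * (a * b) : ℕ) : ℤ) := by
    rw [Int.natCast_dvd_natCast, hp.dvd_mul, hp.dvd_mul]
    tauto
  have hN0 : (0 : ℤ) < (((∑ i, d i) * (a * b) : ℕ) : ℤ) := by
    have : 0 < (∑ i, d i) * (a * b) := Nat.pos_of_ne_zero
      (mul_ne_zero hg0 (mul_ne_zero ha hb))
    exact_mod_cast this
  -- the element `y`
  have hne : (X ^ p - X - C (jj κ a b f)).degree ≠ 0 := by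
    have h1 := Phi_natDegree hp.one_lt (jj κ a b f)
    unfold Phi at h1
    intro h2
    rw [natDegree_eq_of_degree_eq_some h2] at h1
    exact hp.ne_zero h1.symm
  obtain ⟨y, hy⟩ := IsAlgClosed.exists_root _ hne
  have hy' : y ^ p - y = algebraMap (F₀ κ) (AlgebraicClosure (F₀ κ)) (ψ κ a b f) := by
    rw [IsRoot, eval_sub, eval_sub, eval_pow, eval_X, eval_C, sub_eq_zero] at hy
    exact hy
  obtain ⟨Θ, hΘinj, hΘof, hΘy, hest⟩ := exists_embed (p := p) hVe hp (ψ κ a b) (ψ_inj ha) hN hN0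
    hvf hy'
  have hΘof' : ∀ c, Θ (AdjoinRoot.of (Phi p f) c) = jj κ a b c := hΘof
  have hest' : ∀ P : κ[X][X][X], P.natDegree < p → ∀ m,
        V.valuation (jj κ a b (P.coeff m)) * V.valuation y ^ m ≤
          V.valuation (Θ (AdjoinRoot.mk (Phi p f) P)) := hest
  have hdomA : IsDomain (AS p f) := hΘinj.isDomain Θ
  have hwf : 1 < V.valuation (algebraMap (F₀ κ) (AlgebraicClosure (F₀ κ)) (ψ κ a b f)) := by
    have h1 : ¬ v κ (ψ κ a b f) ≤ 1 := by
      rw [hvf, not_le, ← exp_zero, exp_lt_exp]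
      exact hN0
    rw [← (hV (ψ κ a b f)).1] at h1
    exact not_le.1 h1
  have hy1 := (val_root V.valuation hp.one_lt hy' hwf).1
  -- the points
  choose ξ hξ using fun i => (hF.wg i).exists_xi ha (hF.d_ne i)
  have hξv : ∀ i, V.valuation (ξ i) = θ V ^ b := fun i => (hF.wg i).val_root ha hVe (hF.zero i) (hξ i)
  have hξf : ∀ i, ev κ a b (ξ i) f = 0 := by
    intro i
    rw [hf, map_prod]
    exact Finset.prod_eq_zero (Finset.mem_univ i) (hξ i)
  have hch : CharP (AlgebraicClosure (F₀ κ)) p := charP_Om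
  choose ρ hρof hρy hρev hρmk using fun (i : ι) (l : Fin p) =>
    exists_rho (p := p) hp (ξ i) (hξf i) (l : ℕ)
  have hchA : CharP (AS p f) p := charP_AS hp (C.comp (C : κ →+* κ[X])) f
  -- work in `AK`
  have hjF : ∀ i, jA p f (AdjoinRoot.of (Phi p f) (F i)) =
      AdjoinRoot.of (Phi p (toK κ f)) (toK κ (F i)) := fun i => by rw [jA, asMap_of]
  have hjY : ∀ j : Fin p, jA p f (yy p f - ((j : ℕ) : AS p f)) =
      yy p (toK κ f) - ((j : ℕ) : AS p (toK κ f)) := fun j => by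
    rw [jA, map_sub, asMap_yy, map_natCast]
  have hprodFY : ∏ i, AdjoinRoot.of (Phi p f) (F i) =
      ∏ j : Fin p, (yy p f - ((j : ℕ) : AS p f)) := by
    rw [← map_prod, ← hf, prod_Y hp]
  have hprod0 : ∏ i, AdjoinRoot.of (Phi p f) (F i) ≠ 0 := by
    rw [← map_prod, ← hf]
    intro h0
    have h1 : Θ (AdjoinRoot.of (Phi p f) f) = 0 := by rw [h0, map_zero]
    rw [hΘof'] at h1
    have h2 : V.valuation (jj κ a b f) = 0 := by rw [h1, map_zero]
    rw [jj, RingHom.comp_apply] at h2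
    rw [h2] at hwf
    exact absurd hwf (not_lt.2 zero_le)
  have hF0 : ∀ i, jA p f (AdjoinRoot.of (Phi p f) (F i)) ≠ 0 := by
    intro i h0
    rw [map_eq_zero_iff _ (jA_inj hp.one_lt)] at h0
    exact hprod0 (Finset.prod_eq_zero (Finset.mem_univ i) h0)
  have hY0 : ∀ j : Fin p, jA p f (yy p f - ((j : ℕ) : AS p f)) ≠ 0 := by
    intro j h0
    rw [map_eq_zero_iff _ (jA_inj hp.one_lt)] at h0
    rw [hprodFY] at hprod0
    exact hprod0 (Finset.prod_eq_zero (Finset.mem_univ j) h0)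
  have hI1' : ∀ i, ∏ j : Fin p, I i j = Ideal.span {jA p f (AdjoinRoot.of (Phi p f) (F i))} := by
    intro i
    rw [hI1, hjF]
  have hI2' : ∀ j : Fin p, ∏ i, I i j =
      Ideal.span {jA p f (yy p f - ((j : ℕ) : AS p f))} := by
    intro j
    rw [hI2, hjY]
  -- scaling of `h`
  obtain ⟨s₀, hs₀, h₀, hh₀⟩ := den h
  have hunit : IsUnit (jA p f (cst p f s₀)) := by
    rw [jA_cst]
    refine ((IsUnit.mk0 _ ?_).map C).map _
    rw [Ne, map_eq_zero_iff _ (RatFunc.algebraMap_injective κ)]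
    exact hs₀
  have hh' : ∏ i, ∏ j, I i j ^ n i j = Ideal.span {jA p f h₀} := by
    rw [hh, ← hh₀, Ideal.span_singleton_mul_left_unit hunit]
  have hh'' : ∏ j, ∏ i, I i j ^ n i j = Ideal.span {jA p f h₀} := by
    rw [Finset.prod_comm]
    exact hh'
  obtain ⟨N, hNdef⟩ : ∃ N, N = ∑ i, ∑ j, n i j := ⟨_, rfl⟩
  have hNle : ∀ i j, n i j ≤ N := by
    intro i j
    rw [hNdef]
    exact (Finset.single_le_sum (f := fun j => n i j) (fun _ _ => Nat.zero_le _)
      (Finset.mem_univ j)).trans (Finset.single_le_sum (f := fun i => ∑ j, n i j)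
      (fun _ _ => Nat.zero_le _) (Finset.mem_univ i))
  -- primitive
  have hprimY : ∀ j : Fin p, Prim (yy p f - ((j : ℕ) : AS p f)) := by
    intro j
    have h1 := prim_yy_sub (f := f) hp ((j : ℕ) : κ[X][X])
    rwa [map_natCast] at h1
  have hprimF : ∀ i, Prim (AdjoinRoot.of (Phi p f) (F i)) := by
    intro i π hπ hdvd
    have h1 : Prim (∏ j : Fin p, (yy p f - ((j : ℕ) : AS p f))) :=
      Prim.prod hp hfm hfN _ fun j _ => hprimY j
    rw [← hprodFY] at h1
    exact h1 π hπ (hdvd.trans (Finset.dvd_prod_of_mem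
      (fun i => AdjoinRoot.of (Phi p f) (F i)) (Finset.mem_univ i)))
  -- the elements
  have hL : ∀ l : Fin p, ∃ s s' e : κ[X], s ≠ 0 ∧ s' ≠ 0 ∧ IsUnit e ∧ ∃ x y : AS p f,
      cst p f s' * x * ∏ i, AdjoinRoot.of (Phi p f) (F i) ^ n i l =
        cst p f s * (∏ j ∈ Finset.univ.erase l, (yy p f - ((j : ℕ) : AS p f))) ^ N * h₀ ∧
      x * y = cst p f e * (∏ j ∈ Finset.univ.erase l,
        (yy p f - ((j : ℕ) : AS p f))) ^ (2 * N) := by
    intro l
    obtain ⟨b', c', hb', hc'⟩ := Grid.grid (fun i => jA p f (AdjoinRoot.of (Phi p f) (F i)))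
      (fun j : Fin p => jA p f (yy p f - ((j : ℕ) : AS p f))) hF0 I hI1' hI2' n N hNle
      (jA p f h₀) hh' l
    rw [← map_prod, ← map_pow] at hc'
    obtain ⟨s, s', e, hs, hs', he, x, y, h1, h2⟩ := exists_xy hp hfm hfN
      (Prim.pow hp hfm hfN (Prim.prod hp hfm hfN _ fun j _ => hprimY j) (2 * N)) hc'
    refine ⟨s, s', e, hs, hs', he, x, y, ?_, h2⟩
    apply jA_inj hp.one_lt
    rw [map_mul, ← h1, map_mul (jA p f), map_mul (jA p f) (cst p f s), map_prod, map_pow,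
      map_prod, mul_assoc, mul_assoc, ← hb']
    simp only [map_pow]
  have hK : ∀ k : ι, ∃ s s' e : κ[X], s ≠ 0 ∧ s' ≠ 0 ∧ IsUnit e ∧ ∃ x y : AS p f,
      cst p f s' * x * ∏ j : Fin p, (yy p f - ((j : ℕ) : AS p f)) ^ n k j =
        cst p f s * (∏ i ∈ Finset.univ.erase k, AdjoinRoot.of (Phi p f) (F i)) ^ N * h₀ ∧
      x * y = cst p f e * (∏ i ∈ Finset.univ.erase k,
        AdjoinRoot.of (Phi p f) (F i)) ^ (2 * N) := by
    intro k
    obtain ⟨b', c', hb', hc'⟩ := Grid.grid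
      (fun j : Fin p => jA p f (yy p f - ((j : ℕ) : AS p f)))
      (fun i => jA p f (AdjoinRoot.of (Phi p f) (F i))) hY0 (fun j i => I i j) hI2' hI1'
      (fun j i => n i j) N (fun j i => hNle i j) (jA p f h₀) hh'' k
    rw [← map_prod, ← map_pow] at hc'
    obtain ⟨s, s', e, hs, hs', he, x, y, h1, h2⟩ := exists_xy hp hfm hfN
      (Prim.pow hp hfm hfN (Prim.prod hp hfm hfN _ fun i _ => hprimF i) (2 * N)) hc'
    refine ⟨s, s', e, hs, hs', he, x, y, ?_, h2⟩
    apply jA_inj hp.one_lt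
    rw [map_mul, ← h1, map_mul (jA p f), map_mul (jA p f) (cst p f s), map_prod, map_pow,
      map_prod, mul_assoc, mul_assoc, ← hb']
    simp only [map_pow]
  choose s s' e hs hs' he x y' hx1 hx2 using hL
  choose u u' e' hu hu' he' X' X'' hX1 hX2 using hK
  -- values of constants
  have hΘc : ∀ c : κ[X], V.valuation (Θ (cst p f c)) = V.valuation (jj κ a b (C c)) := by
    intro c
    rw [cst, RingHom.comp_apply, hΘof']
  have hρc : ∀ i l, ∀ c : κ[X], V.valuation (ρ i l (cst p f c)) =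
      V.valuation (jj κ a b (C c)) := by
    intro i l c
    rw [cst, RingHom.comp_apply, hρof, ev, coe_eval₂RingHom, eval₂_C]
    rfl
  have hcne : ∀ c : κ[X], c ≠ 0 → V.valuation (jj κ a b (C c)) ≠ 0 := by
    intro c hc
    rw [val_C ha hVe hc]
    exact pow_ne_zero _ (θ_ne hVe)
  have hcunit : ∀ c : κ[X], IsUnit c → V.valuation (jj κ a b (C c)) = 1 := by
    intro c hc
    rw [val_C ha hVe hc.ne_zero, natDegree_eq_zero_of_isUnit hc, mul_zero, pow_zero]
  have hΛ : 1 < ∏ i, θ V ^ (d i * (a * b)) := by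
    rw [Finset.prod_pow_eq_pow_sum, ← Finset.sum_mul]
    exact one_lt_pow₀ (θ_gt hVe) (mul_ne_zero hg0 (mul_ne_zero ha hb))
  refine CoreAbs2.core (A := AS p f)
    ((V.valuation.comap Θ).toMonoidWithZeroHom)
    (fun i l => (V.valuation.comap (ρ i l)).toMonoidWithZeroHom)
    (fun i => AdjoinRoot.of (Phi p f) (F i))
    (fun j : Fin p => (yy p f - ((j : ℕ) : AS p f))) hprodFY hprod0
    (fun i => pow_ne_zero _ (θ_ne hVe)) hΛ ?_ ?_ ?_ ?_ ?_ n N h₀
    (fun l => cst p f (s l)) (fun l => cst p f (s' l)) x y' (fun l => cst p f (e l))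
    (fun k => cst p f (u k)) (fun k => cst p f (u' k)) X' X'' (fun k => cst p f (e' k))
    ?_ ?_ ?_ ?_ ?_ ?_ ?_ ?_ ?_ ?_ ?_ hx1 hX1 hx2 hX2 k k' l l'
  · -- `hWF`
    intro k l i hik
    change V.valuation (ρ k l (AdjoinRoot.of (Phi p f) (F i))) = _
    rw [hρof]
    exact (hF.wg k).val_other (hF.wg i) ha hb hab hVe (hF.zero k) (hF.cop i k hik) (hξ k)
  · intro i
    change V.valuation (Θ (AdjoinRoot.of (Phi p f) (F i))) = _
    rw [hΘof', jj, RingHom.comp_apply, eq_pow hVe]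
    exact (hF.wg i).v_F ha
  · intro k l j hjl
    change V.valuation (ρ k l (yy p f - ((j : ℕ) : AS p f))) = _
    rw [map_sub, hρy, map_natCast]
    exact val_const V.valuation hp (Ne.symm hjl)
  · intro k l z
    change V.valuation (ρ k l z) ≤ V.valuation (Θ z)
    exact rho_le hp hVe ha (hξv k) hy1.le hest' (hρmk k l) z
  · intro k l z hz
    change 1 ≤ V.valuation (ρ k l z)
    change V.valuation (ρ k l z) ≠ 0 at hz
    obtain ⟨c, hc⟩ := hρev k l z
    rw [hc] at hz ⊢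
    exact (hF.wg k).one_le ha hb hab hVe (hF.zero k) (hF.irr k) (hF.deg k) (hξ k) c
      (fun h => by rw [h, map_zero] at hz; exact hz rfl)
  · intro k l l'
    change V.valuation (ρ k l _) = V.valuation (Θ _)
    rw [hΘc, hρc]
  · intro k l l'
    change V.valuation (ρ k l _) = V.valuation (Θ _)
    rw [hΘc, hρc]
  · intro k l k'
    change V.valuation (ρ k l _) = V.valuation (Θ _)
    rw [hΘc, hρc]
  · intro k l k'
    change V.valuation (ρ k l _) = V.valuation (Θ _)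
    rw [hΘc, hρc]
  · intro l
    change V.valuation (Θ _) ≠ 0
    rw [hΘc]
    exact hcne _ (hs l)
  · intro l
    change V.valuation (Θ _) ≠ 0
    rw [hΘc]
    exact hcne _ (hs' l)
  · intro k
    change V.valuation (Θ _) ≠ 0
    rw [hΘc]
    exact hcne _ (hu k)
  · intro k
    change V.valuation (Θ _) ≠ 0
    rw [hΘc]
    exact hcne _ (hu' k)
  · intro k l
    change V.valuation (ρ k l _) = 1
    rw [hρc]
    exact hcunit _ (he l)
  · intro k l
    change V.valuation (ρ k l _) = 1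
    rw [hρc]
    exact hcunit _ (he' k)
  · intro k
    change V.valuation (Θ _) = 1
    rw [hΘc]
    exact hcunit _ (he' k)

theorem rank_core (hp : p.Prime) [CharP κ p] (hF : Fam a b d H F)
    (hab : a.Coprime b) (hg : ¬ p ∣ ∑ i, d i) (hpa : ¬ p ∣ a) (hpb : ¬ p ∣ b)
    [IsDomain (AS p (toK κ (∏ i, F i)))] (n : ι → Fin p → ℕ)
    (h : AS p (toK κ (∏ i, F i))) (hh : ∏ i, ∏ j, II p F i j ^ n i j = Ideal.span {h})
    (k k' : ι) (l l' : Fin p) : n k l + n k' l' = n k l' + n k' l := by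
  have ha : a ≠ 0 := by
    rintro rfl
    exact hpa (dvd_zero p)
  have hb : b ≠ 0 := by
    rintro rfl
    exact hpb (dvd_zero p)
  exact rank_core' hp hF hab hg hpa hpb _ rfl (II p F) (prod_II_j hp)
    (prod_II_i hp hF ha hb hab) n h hh k k' l l'

theorem rank_lb (hp : p.Prime) [CharP κ p] (hF : Fam a b d H F)
    (hab : a.Coprime b) (hg : ¬ p ∣ ∑ i, d i) (hpa : ¬ p ∣ a) (hpb : ¬ p ∣ b)
    [IsDomain (AS p (toK κ (∏ i, F i)))] :
    (((p - 1) * (Fintype.card ι - 1) : ℕ) : Cardinal) ≤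
      Module.rank ℤ (Additive (ClassGroup (AS p (toK κ (∏ i, F i))))) := by
  have ha : a ≠ 0 := by
    rintro rfl
    exact hpa (dvd_zero p)
  have hι : Nonempty ι := by
    by_contra h
    rw [not_nonempty_iff] at h
    rw [Finset.univ_eq_empty, Finset.sum_empty] at hg
    exact hg (dvd_zero p)
  obtain ⟨i₀⟩ := hι
  have hF0 : ∀ i, AdjoinRoot.of (Phi p (toK κ (∏ i, F i))) (toK κ (F i)) ≠ 0 := by
    intro i h0
    have h3 : AdjoinRoot.mk (Phi p (toK κ (∏ i, F i))) (C (toK κ (F i))) = 0 := h0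
    have h4 := rep_unique hp.one_lt (by rw [natDegree_C]; exact hp.pos) h3
    rw [C_eq_zero] at h4
    exact (toK_monic (hF.wg i).monic).ne_zero h4
  have h1 := Cls.rank_le (II p F) _ hF0 (prod_II_j hp)
    (fun n h hh => rank_core hp hF hab hg hpa hpb n h hh) i₀ ⟨0, hp.pos⟩
  rwa [Fintype.card_fin] at h1

end RG

end Pool.Agent.N867.AS
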