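import Pool.Agent.N867.AS.Rank

/-!
# The relation between exponents of a principal combination
-/

set_option autoImplicit false
set_option linter.unusedSectionVars false

namespace Pool.Agent.N867.AS

namespace Core

open Polynomial WithZero Pool.Agent.N867.AS.Frame ASR Root

variable {κ : Type} [Field κ] {a b p : ℕ} {ι : Type} [Fintype ι] [DecidableEq ι]
  {β : ι → κ} {F : ι → κ[X][X]}

theorem f_monic (hF : ∀ i, Wt a b (β i) (F i)) : (∏ i, F i).Monic :=
  monic_prod_of_monic _ _ fun i _ => (hF i).monic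

theorem f_deg (hF : ∀ i, Wt a b (β i) (F i)) : (∏ i, F i).natDegree = Fintype.card ι * a := by
  rw [natDegree_prod_of_monic _ _ fun i _ => (hF i).monic,
    Finset.sum_congr rfl fun i _ => (hF i).deg, Finset.sum_const, Finset.card_univ, smul_eq_mul]

theorem toK_monic {f : κ[X][X]} (hf : f.Monic) : (toK κ f).Monic := hf.map _

theorem toK_deg {f : κ[X][X]} (hf : f.Monic) : (toK κ f).natDegree = f.natDegree :=
  hf.natDegree_map _

theorem isDomain_AK (hp : p.Prime) (hF : ∀ i, Wt a b (β i) (F i)) (hg : ¬ p ∣ Fintype.card ι)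
    (hpa : ¬ p ∣ a) : IsDomain (AS p (toK κ (∏ i, F i))) := by
  refine isDomain_field (M := RatFunc κ) hp ?_
  rw [toK_deg (f_monic hF), f_deg hF, hp.dvd_mul]
  tauto

theorem rank_core' (hp : p.Prime) [CharP κ p] (hF : ∀ i, Wt a b (β i) (F i))
    (hab : a.Coprime b) (hβ : ∀ i, β i ≠ 0) (hinj : Function.Injective β)
    (hg : ¬ p ∣ Fintype.card ι) (hpa : ¬ p ∣ a) (hpb : ¬ p ∣ b) (f : κ[X][X])
    (hf : f = ∏ i, F i) [IsDomain (AS p (toK κ f))] (I : ι → Fin p → Ideal (AS p (toK κ f)))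
    (hI1 : ∀ i, ∏ j : Fin p, I i j =
      Ideal.span {AdjoinRoot.of (Phi p (toK κ f)) (toK κ (F i))})
    (hI2 : ∀ j : Fin p, ∏ i : ι, I i j = Ideal.span {yy p (toK κ f) -
      ((j : ℕ) : AS p (toK κ f))}) (n : ι → Fin p → ℕ)
    (h : AS p (toK κ f)) (hh : ∏ i, ∏ j, I i j ^ n i j = Ideal.span {h})
    (k k' : ι) (l l' : Fin p) : n k l + n k' l' = n k l' + n k' l := by
  classical
  have ha : a ≠ 0 := by
    rintro rfl
    exact hpa (dvd_zero p)
  have hb : b ≠ 0 := by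
    rintro rfl
    exact hpb (dvd_zero p)
  have hg0 : Fintype.card ι ≠ 0 := by
    intro h
    rw [h] at hg
    exact hg (dvd_zero p)
  have hfm : f.Monic := by rw [hf]; exact f_monic hF
  have hfN : ¬ p ∣ f.natDegree := by
    rw [hf, f_deg hF, hp.dvd_mul]
    tauto
  -- the valuation
  obtain ⟨V, hVe⟩ : ∃ V : ValuationSubring (AlgebraicClosure (F₀ κ)), Ext (v κ) V :=
    Val.exists_ext (v κ)
  have hV := hVe
  have hvf : v κ (ψ κ a b f) = exp ((Fintype.card ι * (a * b) : ℕ) : ℤ) := by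
    rw [hf, map_prod, map_prod, Finset.prod_congr rfl fun i _ => v_F ha (hF i),
      Finset.prod_const, Finset.card_univ, ← exp_nsmul]
    congr 1
  have hN : ¬ (p : ℤ) ∣ ((Fintype.card ι * (a * b) : ℕ) : ℤ) := by
    rw [Int.natCast_dvd_natCast, hp.dvd_mul, hp.dvd_mul]
    tauto
  have hN0 : (0 : ℤ) < ((Fintype.card ι * (a * b) : ℕ) : ℤ) := by
    have : 0 < Fintype.card ι * (a * b) := Nat.pos_of_ne_zero
      (mul_ne_zero hg0 (mul_ne_zero ha hb))
    exact_mod_cast this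
  -- the element `y`
  have hne : (X ^ p - X - C (jj κ a b f)).degree ≠ 0 := by
    have h1 := Phi_natDegree hp.one_lt (jj κ a b f)
    unfold Phi at h1
    intro h2
    rw [natDegree_eq_of_degree_eq_some h2] at h1
    exact hp.ne_zero h1.symm
  obtain ⟨y, hy⟩ := IsAlgClosed.exists_root _ hne
  have hy' : y ^ p - y = algebraMap (F₀ κ) (AlgebraicClosure (F₀ κ)) (ψ κ a b f) := by
    rw [IsRoot, eval_sub, eval_sub, eval_pow, eval_X, eval_C, sub_eq_zero] at hy
    exact hy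
  obtain ⟨Θ, hΘinj, hΘof, hΘy, hest⟩ := exists_embed (p := p) hVe hp (ψ κ a b) (ψ_inj ha) hN hN0
    hvf hy'
  have hΘof' : ∀ c, Θ (AdjoinRoot.of (Phi p f) c) = jj κ a b c := hΘof
  have hest' : ∀ P : κ[X][X][X], P.natDegree < p → ∀ m,
        V.valuation (jj κ a b (P.coeff m)) * V.valuation y ^ m ≤
          V.valuation (Θ (AdjoinRoot.mk (Phi p f) P)) := hest
  have hdomA : IsDomain (AS p f) := hΘinj.isDomain Θ
  have hwf : 1 < V.valuation (algebraMap (F₀ κ) (AlgebraicClosure (F₀ κ)) (ψ κ a b f)) := by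
    have h1 : ¬ v κ (ψ κ a b f) ≤ 1 := by
      rw [hvf, not_le, ← exp_zero, exp_lt_exp]
      exact hN0
    rw [← (hV (ψ κ a b f)).1] at h1
    exact not_le.1 h1
  have hy1 := (val_root V.valuation hp.one_lt hy' hwf).1
  -- the points
  choose ξ hξ using fun i => exists_xi ha (hF i)
  have hξv : ∀ i, V.valuation (ξ i) = θ V ^ b := fun i => (hF i).val_root ha hVe (hβ i) (hξ i)
  have hξf : ∀ i, ev κ a b (ξ i) f = 0 := by
    intro i
    rw [hf, map_prod]
    exact Finset.prod_eq_zero (Finset.mem_univ i) (hξ i)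
  have hch : CharP (AlgebraicClosure (F₀ κ)) p := charP_Om
  choose ρ hρof hρy hρev hρmk using fun (i : ι) (l : Fin p) =>
    exists_rho (p := p) hp (ξ i) (hξf i) (l : ℕ)
  have hchA : CharP (AS p f) p := charP_AS hp (C.comp (C : κ →+* κ[X])) f
  -- work in `AK`
  have hjF : ∀ i, jA p f (AdjoinRoot.of (Phi p f) (F i)) =
      AdjoinRoot.of (Phi p (toK κ f)) (toK κ (F i)) := fun i => by rw [jA, asMap_of]
  have hjY : ∀ j : Fin p, jA p f (yy p f - ((j : ℕ) : AS p f)) =
      yy p (toK κ f) - ((j : ℕ) : AS p (toK κ f)) := fun j => by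
    rw [jA, map_sub, asMap_yy, map_natCast]
  have hprodFY : ∏ i, AdjoinRoot.of (Phi p f) (F i) =
      ∏ j : Fin p, (yy p f - ((j : ℕ) : AS p f)) := by
    rw [← map_prod, ← hf, prod_Y hp]
  have hprod0 : ∏ i, AdjoinRoot.of (Phi p f) (F i) ≠ 0 := by
    rw [← map_prod, ← hf]
    intro h0
    have h1 : Θ (AdjoinRoot.of (Phi p f) f) = 0 := by rw [h0, map_zero]
    rw [hΘof'] at h1
    have h2 : V.valuation (jj κ a b f) = 0 := by rw [h1, map_zero]
    rw [jj, RingHom.comp_apply] at h2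
    rw [h2] at hwf
    exact absurd hwf (not_lt.2 zero_le)
  have hF0 : ∀ i, jA p f (AdjoinRoot.of (Phi p f) (F i)) ≠ 0 := by
    intro i h0
    rw [map_eq_zero_iff _ (jA_inj hp.one_lt)] at h0
    exact hprod0 (Finset.prod_eq_zero (Finset.mem_univ i) h0)
  have hY0 : ∀ j : Fin p, jA p f (yy p f - ((j : ℕ) : AS p f)) ≠ 0 := by
    intro j h0
    rw [map_eq_zero_iff _ (jA_inj hp.one_lt)] at h0
    rw [hprodFY] at hprod0
    exact hprod0 (Finset.prod_eq_zero (Finset.mem_univ j) h0)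
  have hI1' : ∀ i, ∏ j : Fin p, I i j = Ideal.span {jA p f (AdjoinRoot.of (Phi p f) (F i))} := by
    intro i
    rw [hI1, hjF]
  have hI2' : ∀ j : Fin p, ∏ i, I i j =
      Ideal.span {jA p f (yy p f - ((j : ℕ) : AS p f))} := by
    intro j
    rw [hI2, hjY]
  -- scaling of `h`
  obtain ⟨s₀, hs₀, h₀, hh₀⟩ := den h
  have hunit : IsUnit (jA p f (cst p f s₀)) := by
    rw [jA_cst]
    refine ((IsUnit.mk0 _ ?_).map C).map _
    rw [Ne, map_eq_zero_iff _ (RatFunc.algebraMap_injective κ)]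
    exact hs₀
  have hh' : ∏ i, ∏ j, I i j ^ n i j = Ideal.span {jA p f h₀} := by
    rw [hh, ← hh₀, Ideal.span_singleton_mul_left_unit hunit]
  have hh'' : ∏ j, ∏ i, I i j ^ n i j = Ideal.span {jA p f h₀} := by
    rw [Finset.prod_comm]
    exact hh'
  obtain ⟨N, hNdef⟩ : ∃ N, N = ∑ i, ∑ j, n i j := ⟨_, rfl⟩
  have hNle : ∀ i j, n i j ≤ N := by
    intro i j
    rw [hNdef]
    exact (Finset.single_le_sum (f := fun j => n i j) (fun _ _ => Nat.zero_le _)
      (Finset.mem_univ j)).trans (Finset.single_le_sum (f := fun i => ∑ j, n i j)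
      (fun _ _ => Nat.zero_le _) (Finset.mem_univ i))
  -- primitive
  have hprimY : ∀ j : Fin p, Prim (yy p f - ((j : ℕ) : AS p f)) := by
    intro j
    have h1 := prim_yy_sub (f := f) hp ((j : ℕ) : κ[X][X])
    rwa [map_natCast] at h1
  have hprimF : ∀ i, Prim (AdjoinRoot.of (Phi p f) (F i)) := by
    intro i π hπ hdvd
    have h1 : Prim (∏ j : Fin p, (yy p f - ((j : ℕ) : AS p f))) :=
      Prim.prod hp hfm hfN _ fun j _ => hprimY j
    rw [← hprodFY] at h1
    exact h1 π hπ (hdvd.trans (Finset.dvd_prod_of_mem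
      (fun i => AdjoinRoot.of (Phi p f) (F i)) (Finset.mem_univ i)))
  -- the elements
  have hL : ∀ l : Fin p, ∃ s s' e : κ[X], s ≠ 0 ∧ s' ≠ 0 ∧ IsUnit e ∧ ∃ x y : AS p f,
      cst p f s' * x * ∏ i, AdjoinRoot.of (Phi p f) (F i) ^ n i l =
        cst p f s * (∏ j ∈ Finset.univ.erase l, (yy p f - ((j : ℕ) : AS p f))) ^ N * h₀ ∧
      x * y = cst p f e * (∏ j ∈ Finset.univ.erase l,
        (yy p f - ((j : ℕ) : AS p f))) ^ (2 * N) := by
    intro l
    obtain ⟨b', c', hb', hc'⟩ := Grid.grid (fun i => jA p f (AdjoinRoot.of (Phi p f) (F i)))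
      (fun j : Fin p => jA p f (yy p f - ((j : ℕ) : AS p f))) hF0 I hI1' hI2' n N hNle
      (jA p f h₀) hh' l
    rw [← map_prod, ← map_pow] at hc'
    obtain ⟨s, s', e, hs, hs', he, x, y, h1, h2⟩ := exists_xy hp hfm hfN
      (Prim.pow hp hfm hfN (Prim.prod hp hfm hfN _ fun j _ => hprimY j) (2 * N)) hc'
    refine ⟨s, s', e, hs, hs', he, x, y, ?_, h2⟩
    apply jA_inj hp.one_lt
    rw [map_mul, ← h1, map_mul (jA p f), map_mul (jA p f) (cst p f s), map_prod, map_pow,
      map_prod, mul_assoc, mul_assoc, ← hb']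
    simp only [map_pow]
  have hK : ∀ k : ι, ∃ s s' e : κ[X], s ≠ 0 ∧ s' ≠ 0 ∧ IsUnit e ∧ ∃ x y : AS p f,
      cst p f s' * x * ∏ j : Fin p, (yy p f - ((j : ℕ) : AS p f)) ^ n k j =
        cst p f s * (∏ i ∈ Finset.univ.erase k, AdjoinRoot.of (Phi p f) (F i)) ^ N * h₀ ∧
      x * y = cst p f e * (∏ i ∈ Finset.univ.erase k,
        AdjoinRoot.of (Phi p f) (F i)) ^ (2 * N) := by
    intro k
    obtain ⟨b', c', hb', hc'⟩ := Grid.grid
      (fun j : Fin p => jA p f (yy p f - ((j : ℕ) : AS p f)))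
      (fun i => jA p f (AdjoinRoot.of (Phi p f) (F i))) hY0 (fun j i => I i j) hI2' hI1'
      (fun j i => n i j) N (fun j i => hNle i j) (jA p f h₀) hh'' k
    rw [← map_prod, ← map_pow] at hc'
    obtain ⟨s, s', e, hs, hs', he, x, y, h1, h2⟩ := exists_xy hp hfm hfN
      (Prim.pow hp hfm hfN (Prim.prod hp hfm hfN _ fun i _ => hprimF i) (2 * N)) hc'
    refine ⟨s, s', e, hs, hs', he, x, y, ?_, h2⟩
    apply jA_inj hp.one_lt
    rw [map_mul, ← h1, map_mul (jA p f), map_mul (jA p f) (cst p f s), map_prod, map_pow,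
      map_prod, mul_assoc, mul_assoc, ← hb']
    simp only [map_pow]
  choose s s' e hs hs' he x y' hx1 hx2 using hL
  choose u u' e' hu hu' he' X' X'' hX1 hX2 using hK
  -- values of constants
  have hΘc : ∀ c : κ[X], V.valuation (Θ (cst p f c)) = V.valuation (jj κ a b (C c)) := by
    intro c
    rw [cst, RingHom.comp_apply, hΘof']
  have hρc : ∀ i l, ∀ c : κ[X], V.valuation (ρ i l (cst p f c)) =
      V.valuation (jj κ a b (C c)) := by
    intro i l c
    rw [cst, RingHom.comp_apply, hρof, ev, coe_eval₂RingHom, eval₂_C]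
    rfl
  have hcne : ∀ c : κ[X], c ≠ 0 → V.valuation (jj κ a b (C c)) ≠ 0 := by
    intro c hc
    rw [val_C ha hVe hc]
    exact pow_ne_zero _ (θ_ne hVe)
  have hcunit : ∀ c : κ[X], IsUnit c → V.valuation (jj κ a b (C c)) = 1 := by
    intro c hc
    rw [val_C ha hVe hc.ne_zero, natDegree_eq_zero_of_isUnit hc, mul_zero, pow_zero]
  have hΛ : 1 < θ V ^ (a * b) := one_lt_pow₀ (θ_gt hVe) (mul_ne_zero ha hb)
  refine CoreAbs.core (A := AS p f)
    ((V.valuation.comap Θ).toMonoidWithZeroHom)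
    (fun i l => (V.valuation.comap (ρ i l)).toMonoidWithZeroHom)
    (fun i => AdjoinRoot.of (Phi p f) (F i))
    (fun j : Fin p => (yy p f - ((j : ℕ) : AS p f))) hprodFY hprod0 hΛ ?_ ?_ ?_ ?_ ?_ n N h₀
    (fun l => cst p f (s l)) (fun l => cst p f (s' l)) x y' (fun l => cst p f (e l))
    (fun k => cst p f (u k)) (fun k => cst p f (u' k)) X' X'' (fun k => cst p f (e' k))
    ?_ ?_ ?_ ?_ ?_ ?_ ?_ ?_ ?_ ?_ ?_ hx1 hX1 hx2 hX2 k k' l l'
  · -- `hWF`
    intro k l i hik
    change V.valuation (ρ k l (AdjoinRoot.of (Phi p f) (F i))) = _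
    rw [hρof]
    exact (hF k).val_other (hF i) ha hab hVe (hβ k) (fun h => hik (hinj h)) (hξ k)
  · intro i
    change V.valuation (Θ (AdjoinRoot.of (Phi p f) (F i))) = _
    rw [hΘof', jj, RingHom.comp_apply, eq_pow hVe]
    exact v_F ha (hF i)
  · intro k l j hjl
    change V.valuation (ρ k l (yy p f - ((j : ℕ) : AS p f))) = _
    rw [map_sub, hρy, map_natCast]
    exact val_const V.valuation hp (Ne.symm hjl)
  · intro k l z
    change V.valuation (ρ k l z) ≤ V.valuation (Θ z)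
    exact rho_le hp hVe ha (hξv k) hy1.le hest' (hρmk k l) z
  · intro k l z hz
    change 1 ≤ V.valuation (ρ k l z)
    change V.valuation (ρ k l z) ≠ 0 at hz
    obtain ⟨c, hc⟩ := hρev k l z
    rw [hc] at hz ⊢
    exact (hF k).one_le ha hab hVe (hβ k) (hξ k) c (fun h => by rw [h, map_zero] at hz; exact hz rfl)
  · intro k l l'
    change V.valuation (ρ k l _) = V.valuation (Θ _)
    rw [hΘc, hρc]
  · intro k l l'
    change V.valuation (ρ k l _) = V.valuation (Θ _)
    rw [hΘc, hρc]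
  · intro k l k'
    change V.valuation (ρ k l _) = V.valuation (Θ _)
    rw [hΘc, hρc]
  · intro k l k'
    change V.valuation (ρ k l _) = V.valuation (Θ _)
    rw [hΘc, hρc]
  · intro l
    change V.valuation (Θ _) ≠ 0
    rw [hΘc]
    exact hcne _ (hs l)
  · intro l
    change V.valuation (Θ _) ≠ 0
    rw [hΘc]
    exact hcne _ (hs' l)
  · intro k
    change V.valuation (Θ _) ≠ 0
    rw [hΘc]
    exact hcne _ (hu k)
  · intro k
    change V.valuation (Θ _) ≠ 0
    rw [hΘc]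
    exact hcne _ (hu' k)
  · intro k l
    change V.valuation (ρ k l _) = 1
    rw [hρc]
    exact hcunit _ (he l)
  · intro k l
    change V.valuation (ρ k l _) = 1
    rw [hρc]
    exact hcunit _ (he' k)
  · intro k
    change V.valuation (Θ _) = 1
    rw [hΘc]
    exact hcunit _ (he' k)

theorem rank_core (hp : p.Prime) [CharP κ p] (hF : ∀ i, Wt a b (β i) (F i))
    (hab : a.Coprime b) (hβ : ∀ i, β i ≠ 0) (hinj : Function.Injective β)
    (hg : ¬ p ∣ Fintype.card ι) (hpa : ¬ p ∣ a) (hpb : ¬ p ∣ b)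
    [IsDomain (AS p (toK κ (∏ i, F i)))] (n : ι → Fin p → ℕ)
    (h : AS p (toK κ (∏ i, F i))) (hh : ∏ i, ∏ j, II p F i j ^ n i j = Ideal.span {h})
    (k k' : ι) (l l' : Fin p) : n k l + n k' l' = n k l' + n k' l := by
  have ha : a ≠ 0 := by
    rintro rfl
    exact hpa (dvd_zero p)
  exact rank_core' hp hF hab hβ hinj hg hpa hpb _ rfl (II p F) (prod_II_j hp)
    (prod_II_i hp hF ha hab hβ hinj) n h hh k k' l l'

end Core

end Pool.Agent.N867.AS
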