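import Pool.Agent.N867.AS.Trans
import Pool.Agent.N867.AS.Rank2

/-!
# The leading form of `∏ F_i`
-/

set_option autoImplicit false
set_option linter.unusedSectionVars false

namespace Pool.Agent.N867.AS

namespace Lead

open Polynomial WithZero Pool.Agent.N867.AS.Frame Root

variable {κ : Type} [Field κ] {a b : ℕ} {ι : Type} [Fintype ι] {β : ι → κ} {F : ι → κ[X][X]}

theorem v_lt {c : κ[X][X]} {n : ℕ} (h : ∀ i j, (c.coeff i).coeff j ≠ 0 → b * i + a * j < n) :
    v κ (ψ κ a b c) < exp (n : ℤ) := by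
  rcases Nat.eq_zero_or_pos n with rfl | hn
  · have h0 : c = 0 := by
      ext i j
      by_contra h1
      exact absurd (h i j h1) (by omega)
    rw [h0, map_zero, map_zero]
    exact zero_lt_iff.2 exp_ne_zero
  · have h1 : v κ (ψ κ a b c) ≤ exp ((n - 1 : ℕ) : ℤ) := by
      refine v_ψ_le fun i j hij => ?_
      have := h i j hij
      omega
    refine h1.trans_lt ?_
    rw [exp_lt_exp]
    omega

theorem lt_of_v (ha : a ≠ 0) {c : κ[X][X]} {n : ℕ} (h : v κ (ψ κ a b c) < exp (n : ℤ)) (i j : ℕ)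
    (hij : (c.coeff i).coeff j ≠ 0) : b * i + a * j < n := by
  have h1 := (le_v_ψ (b := b) ha c i j hij).trans_lt h
  rw [exp_lt_exp] at h1
  have : a * j + b * i < n := by exact_mod_cast h1
  omega

/-- the leading form -/
noncomputable def H (a b : ℕ) (β : κ) : κ[X][X] := X ^ a - C (C β * X ^ b)

theorem coeff_H (a b : ℕ) (β : κ) (i j : ℕ) : ((H a b β).coeff i).coeff j =
    (if i = a ∧ j = 0 then 1 else 0) - (if i = 0 ∧ j = b then β else 0) := by
  have h1 : (H a b β).coeff i = (if i = a then 1 else 0) - (if i = 0 then C β * X ^ b else 0) := by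
    rw [H, coeff_sub, coeff_X_pow, coeff_C]
  rw [h1, coeff_sub]
  congr 1
  · by_cases hi : i = a
    · simp [hi, coeff_one]
    · simp [hi]
  · by_cases hi : i = 0
    · simp [hi]
    · simp [hi]

theorem v_sub_H (ha : a ≠ 0) (hb : b ≠ 0) (hab : a.Coprime b) {β : κ} {F : κ[X][X]}
    (hF : Wt a b β F) : v κ (ψ κ a b (F - H a b β)) < exp ((a * b : ℕ) : ℤ) := by
  refine v_lt fun i j hij => ?_
  rw [coeff_sub, coeff_sub, coeff_H] at hij
  have hFa : F.coeff a = 1 := by
    have := hF.monic.coeff_natDegree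
    rwa [hF.deg] at this
  by_cases h1 : i = a ∧ j = 0
  · rw [h1.1, h1.2, hFa, coeff_one_zero, if_pos ⟨rfl, rfl⟩, if_neg (fun h => ha h.1), sub_zero,
      sub_self] at hij
    exact absurd rfl hij
  by_cases h2 : i = 0 ∧ j = b
  · rw [h2.1, h2.2, hF.lead, if_neg (fun h => hb h.2), if_pos ⟨rfl, rfl⟩, zero_sub,
      sub_self] at hij
    exact absurd rfl hij
  rw [if_neg h1, if_neg h2, sub_zero, sub_zero] at hij
  have h3 := hF.wt i j hij
  refine lt_of_le_of_ne h3 fun h4 => ?_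
  -- `a ∣ b i`
  have h5 : a ∣ b * i := by
    have h6 : a ∣ b * i + a * j := by rw [h4]; exact dvd_mul_right _ _
    exact (Nat.dvd_add_left (dvd_mul_right a j)).1 h6
  have h6 : a ∣ i := hab.dvd_of_dvd_mul_left h5
  obtain ⟨c, rfl⟩ := h6
  have h7 : a * (b * c + j) = a * b := by rw [← h4]; ring
  have h8 := Nat.eq_of_mul_eq_mul_left (Nat.pos_of_ne_zero ha) h7
  rcases Nat.lt_or_ge c 1 with hc | hc
  · have hc0 : c = 0 := by omega
    subst hc0
    exact h2 ⟨by ring, by omega⟩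
  · have hc1 : c = 1 := by
      by_contra hc1
      have : 2 ≤ c := by omega
      have : b * 2 ≤ b * c := Nat.mul_le_mul_left b this
      omega
    subst hc1
    exact h1 ⟨by ring, by omega⟩

theorem v_le (ha : a ≠ 0) {β : κ} {F : κ[X][X]} (hF : Wt a b β F) :
    v κ (ψ κ a b F) ≤ exp ((a * b : ℕ) : ℤ) := (Core.v_F ha hF).le

theorem Wt_H (ha : a ≠ 0) (hb : b ≠ 0) (β : κ) : Wt a b β (H a b β) := by
  have hdeg : (C (C β * X ^ b) : κ[X][X]).degree < a :=
    lt_of_le_of_lt degree_C_le (by exact_mod_cast Nat.pos_of_ne_zero ha)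
  refine ⟨?_, ?_, ?_, ?_⟩
  · exact monic_X_pow_sub (n := a) hdeg
  · unfold H
    rw [natDegree_sub_C, natDegree_X_pow]
  · intro i j hij
    rw [coeff_H] at hij
    by_cases h1 : i = a ∧ j = 0
    · rw [h1.1, h1.2]
      apply le_of_eq
      ring
    by_cases h2 : i = 0 ∧ j = b
    · rw [h2.1, h2.2]
      apply le_of_eq
      ring
    rw [if_neg h1, if_neg h2, sub_self] at hij
    exact absurd rfl hij
  · rw [coeff_H, if_neg (fun h => hb h.2), if_pos ⟨rfl, rfl⟩, zero_sub]

/-- products of close elements -/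
theorem prod_close {R : Type*} [CommRing R] {Γ : Type*} [LinearOrderedCommGroupWithZero Γ]
    (w : Valuation R Γ) {r : Γ} (hr : 0 < r) {ι : Type*} (S : Finset ι) (x y : ι → R)
    (hx : ∀ i ∈ S, w (x i) ≤ r) (hy : ∀ i ∈ S, w (y i) ≤ r) (hxy : ∀ i ∈ S, w (x i - y i) < r) :
    w (∏ i ∈ S, x i - ∏ i ∈ S, y i) < r ^ S.card := by
  classical
  induction S using Finset.induction_on with
  | empty =>
    rw [Finset.prod_empty, Finset.prod_empty, sub_self, map_zero, Finset.card_empty, pow_zero]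
    exact zero_lt_one
  | insert c S hc ih =>
    rw [Finset.prod_insert hc, Finset.prod_insert hc, Finset.card_insert_of_notMem hc]
    have h1 : x c * ∏ i ∈ S, x i - y c * ∏ i ∈ S, y i =
        (x c - y c) * ∏ i ∈ S, x i + y c * (∏ i ∈ S, x i - ∏ i ∈ S, y i) := by ring
    have hprod : w (∏ i ∈ S, x i) ≤ r ^ S.card := by
      rw [map_prod, ← Finset.prod_const]
      exact Finset.prod_le_prod' fun i hi => hx i (Finset.mem_insert_of_mem hi)
    rw [h1]
    refine Valuation.map_add_lt _ ?_ ?_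
    · rw [map_mul, pow_succ, mul_comm (r ^ S.card)]
      have h2 := hxy c (Finset.mem_insert_self c S)
      have hr' : 0 < r ^ S.card := zero_lt_iff.2 (pow_ne_zero _ hr.ne')
      calc w (x c - y c) * w (∏ i ∈ S, x i) ≤ w (x c - y c) * r ^ S.card :=
            mul_le_mul_right hprod _
        _ < r * r ^ S.card := (mul_lt_mul_iff_left₀ hr').2 h2
    · rw [map_mul, pow_succ, mul_comm (r ^ S.card)]
      have h2 := ih (fun i hi => hx i (Finset.mem_insert_of_mem hi))
        (fun i hi => hy i (Finset.mem_insert_of_mem hi))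
        (fun i hi => hxy i (Finset.mem_insert_of_mem hi))
      calc w (y c) * w (∏ i ∈ S, x i - ∏ i ∈ S, y i) ≤ r * w (∏ i ∈ S, x i - ∏ i ∈ S, y i) :=
            mul_le_mul_left (hy c (Finset.mem_insert_self c S)) _
        _ < r * r ^ S.card := (mul_lt_mul_iff_right₀ hr).2 h2

theorem prod_homog {M : Type*} [Field M] (c : κ →+* M) {γ : κ}
    (hγ : ∏ i, (X - C (β i)) = X ^ Fintype.card ι - C γ) (u w : M) (hw : w ≠ 0) :
    ∏ i, (u - c (β i) * w) = u ^ Fintype.card ι - c γ * w ^ Fintype.card ι := by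
  have h1 := congrArg (eval₂ c (u / w)) hγ
  rw [eval₂_finsetProd, eval₂_sub, eval₂_X_pow, eval₂_C] at h1
  simp only [eval₂_sub, eval₂_X, eval₂_C] at h1
  have h2 : ∏ i, (u - c (β i) * w) = (∏ i, (u / w - c (β i))) * w ^ Fintype.card ι := by
    rw [← Finset.card_univ, ← Finset.prod_const, ← Finset.prod_mul_distrib]
    refine Finset.prod_congr rfl fun i _ => ?_
    field_simp
  rw [h2, h1, div_pow]
  field_simp

theorem prod_H (ha : a ≠ 0) {γ : κ} (hγ : ∏ i, (X - C (β i)) = X ^ Fintype.card ι - C γ) :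
    ∏ i, H a b (β i) = H (Fintype.card ι * a) (Fintype.card ι * b) γ := by
  apply ψ_inj (b := b) ha
  rw [map_prod]
  have hw : ψ κ a b (C X) ≠ 0 := by
    rw [Ne, map_eq_zero_iff _ (ψ_inj ha), C_eq_zero]
    exact X_ne_zero
  have h1 := prod_homog (((ψ κ a b).comp C).comp C) hγ (ψ κ a b X ^ a) (ψ κ a b (C X) ^ b)
    (pow_ne_zero _ hw)
  have h2 : ∀ (a' b' : ℕ) (β : κ), ψ κ a b (H a' b' β) = ψ κ a b X ^ a' -
      (((ψ κ a b).comp C).comp C) β * ψ κ a b (C X) ^ b' := by
    intro a' b' β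
    rw [H, map_sub, map_pow, C_mul, C_pow, map_mul, map_pow]
    rfl
  rw [h2, Finset.prod_congr rfl fun i _ => h2 a b (β i), h1, ← pow_mul, ← pow_mul,
    mul_comm (Fintype.card ι) a, mul_comm (Fintype.card ι) b]

/-- the leading form of the product -/
theorem lead_form (ha : a ≠ 0) (hb : b ≠ 0) (hab : a.Coprime b)
    (hF : ∀ i, Wt a b (β i) (F i)) {γ : κ}
    (hγ : ∏ i, (X - C (β i)) = X ^ Fintype.card ι - C γ) (i j : ℕ)
    (hij : ((∏ i, F i - H (Fintype.card ι * a) (Fintype.card ι * b) γ).coeff i).coeff j ≠ 0) :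
    b * i + a * j < Fintype.card ι * (a * b) := by
  refine lt_of_v ha ?_ i j hij
  rw [← prod_H ha hγ, map_sub, map_prod, map_prod]
  have h1 := prod_close (v κ) (r := exp ((a * b : ℕ) : ℤ)) (zero_lt_iff.2 exp_ne_zero)
    Finset.univ (fun i => ψ κ a b (F i)) (fun i => ψ κ a b (H a b (β i)))
    (fun i _ => v_le ha (hF i)) (fun i _ => v_le ha (Wt_H ha hb (β i)))
    (fun i _ => by rw [← map_sub]; exact v_sub_H ha hb hab (hF i))
  rw [Finset.card_univ, ← exp_nsmul] at h1
  have h2 : ((Fintype.card ι * (a * b) : ℕ) : ℤ) = Fintype.card ι • ((a * b : ℕ) : ℤ) := by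
    rw [nsmul_eq_mul]
    push_cast
    rfl
  rw [h2]
  exact h1

end Lead

end Pool.Agent.N867.AS
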