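import Pool.Agent.N867.AS.V7
import Pool.Agent.N867.AS.L3

/-!
# Leading polynomials: products, the ordinarity condition, diagonal forms
-/

set_option autoImplicit false
set_option linter.unusedSectionVars false

namespace Pool.Agent.N867.AS

namespace LP

open MvPolynomial Bd GW Tr TV

section mul

variable {F : Type} [Field F] {a b : ℕ}

theorem topf_mul {σ : Type} [Fintype σ] [DecidableEq σ] {ω : σ → ℕ} {M M' : ℕ}
    {f f' : MvPolynomial σ F} (hf : ∀ μ ∈ f.support, wt ω μ ≤ M)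
    (hf' : ∀ μ ∈ f'.support, wt ω μ ≤ M') :
    topf ω (M + M') (f * f') = topf ω M f * topf ω M' f' := by
  classical
  have hc : ∀ v, M < wt ω v → coeff v f = 0 := by
    intro v hv
    by_contra h
    exact absurd (hf v (mem_support_iff.2 h)) (not_le.2 hv)
  have hc' : ∀ v, M' < wt ω v → coeff v f' = 0 := by
    intro v hv
    by_contra h
    exact absurd (hf' v (mem_support_iff.2 h)) (not_le.2 hv)
  ext v
  rw [coeff_topf, coeff_mul, coeff_mul]
  by_cases h : wt ω v = M + M'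
  · rw [if_pos h]
    refine Finset.sum_congr rfl fun x hx => ?_
    rw [Finset.HasAntidiagonal.mem_antidiagonal] at hx
    rw [← hx, wt_add] at h
    rw [coeff_topf, coeff_topf]
    rcases lt_trichotomy (wt ω x.1) M with h1 | h1 | h1
    · rw [hc' x.2 (by omega), if_neg h1.ne, mul_zero, zero_mul]
    · rw [if_pos h1, if_pos (by omega)]
    · rw [hc x.1 h1, if_neg h1.ne', zero_mul, zero_mul]
  · rw [if_neg h]
    symm
    refine Finset.sum_eq_zero fun x hx => ?_
    rw [Finset.HasAntidiagonal.mem_antidiagonal] at hx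
    rw [← hx, wt_add] at h
    rw [coeff_topf, coeff_topf]
    by_cases h1 : wt ω x.1 = M
    · rw [if_neg (fun h2 : wt ω x.2 = M' => h (by omega)), mul_zero]
    · rw [if_neg h1, zero_mul]

theorem Hf_mul (ha : a ≠ 0) (hb : b ≠ 0) (hab : a.Coprime b) {g g' : ℕ}
    {f f' : MvPolynomial (Fin 2) F} (hf : ∀ μ ∈ f.support, wt ![b, a] μ ≤ g * (a * b))
    (hf' : ∀ μ ∈ f'.support, wt ![b, a] μ ≤ g' * (a * b)) :
    Hf a b (g + g') (f * f') = Hf a b g f * Hf a b g' f' := by
  apply Polynomial.expand_injective (Nat.pos_of_ne_zero ha)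
  rw [map_mul, ← chi_topf ha hb hab, ← chi_topf ha hb hab, ← chi_topf ha hb hab, ← map_mul,
    ← topf_mul hf hf', add_mul]

end mul

section kappa

variable {κ : Type} [Field κ] {a b : ℕ}

/-- weights -/
def Bdd (a b g : ℕ) (f : Polynomial (Polynomial κ)) : Prop :=
  ∀ m n, (f.coeff m).coeff n ≠ 0 → b * m + a * n ≤ g * (a * b)

theorem Bdd.psi {g : ℕ} {f : Polynomial (Polynomial κ)} (h : Bdd a b g f) :
    ∀ μ ∈ (Trans.Ψ (RingHom.id κ) f).support, wt ![b, a] μ ≤ g * (a * b) := by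
  intro μ hμ
  rw [mem_support_iff, Trans.coeff_Ψ, RingHom.id_apply] at hμ
  rw [wt2]
  exact h _ _ hμ

theorem Bdd.mul {g g' : ℕ} {f f' : Polynomial (Polynomial κ)} (h : Bdd a b g f)
    (h' : Bdd a b g' f') : Bdd a b (g + g') (f * f') := by
  intro m n hmn
  rw [Polynomial.coeff_mul, Polynomial.finsetSum_coeff] at hmn
  obtain ⟨x, hx, hx0⟩ := Finset.exists_ne_zero_of_sum_ne_zero hmn
  rw [Polynomial.coeff_mul] at hx0
  obtain ⟨y, hy, hy0⟩ := Finset.exists_ne_zero_of_sum_ne_zero hx0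
  rw [Finset.HasAntidiagonal.mem_antidiagonal] at hx hy
  have h1 := h _ _ (left_ne_zero_of_mul hy0)
  have h2 := h' _ _ (right_ne_zero_of_mul hy0)
  rw [← hx, ← hy, add_mul]
  calc b * (x.1 + x.2) + a * (y.1 + y.2) = (b * x.1 + a * y.1) + (b * x.2 + a * y.2) := by ring
    _ ≤ _ := add_le_add h1 h2

theorem topPoly_mul (ha : a ≠ 0) (hb : b ≠ 0) (hab : a.Coprime b) {g g' : ℕ}
    {f f' : Polynomial (Polynomial κ)} (h : Bdd a b g f) (h' : Bdd a b g' f') :
    topPoly a b (g + g') (f * f') = topPoly a b g f * topPoly a b g' f' := by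
  have h1 := Hf_mul ha hb hab h.psi h'.psi
  rw [← map_mul, Hf_Ψ, Hf_Ψ, Hf_Ψ, Polynomial.map_id, Polynomial.map_id, Polynomial.map_id] at h1
  exact h1

theorem prod_top (ha : a ≠ 0) (hb : b ≠ 0) (hab : a.Coprime b) {ι : Type} [DecidableEq ι]
    (s : Finset ι) (d : ι → ℕ) (F : ι → Polynomial (Polynomial κ)) (H : ι → Polynomial κ)
    (hF : ∀ i ∈ s, Bdd a b (d i) (F i) ∧ topPoly a b (d i) (F i) = H i) :
    Bdd a b (∑ i ∈ s, d i) (∏ i ∈ s, F i) ∧
      topPoly a b (∑ i ∈ s, d i) (∏ i ∈ s, F i) = ∏ i ∈ s, H i := by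
  induction s using Finset.induction_on with
  | empty =>
    rw [Finset.sum_empty, Finset.prod_empty, Finset.prod_empty]
    constructor
    · intro m n hmn
      rw [Polynomial.coeff_one] at hmn
      split_ifs at hmn with hm
      · rw [Polynomial.coeff_one] at hmn
        split_ifs at hmn with hn
        · rw [hm, hn]
          omega
        · exact absurd rfl hmn
      · exact absurd rfl hmn
    · unfold topPoly
      rw [Finset.sum_range_one]
      simp
  | insert i s hi ih =>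
    rw [Finset.sum_insert hi, Finset.prod_insert hi, Finset.prod_insert hi]
    obtain ⟨h1, h2⟩ := ih fun j hj => hF j (Finset.mem_insert_of_mem hj)
    obtain ⟨h3, h4⟩ := hF i (Finset.mem_insert_self i s)
    exact ⟨h3.mul h1, by rw [topPoly_mul ha hb hab h3 h1, h2, h4]⟩

/-- monicity -/
theorem monic_of_top (ha : a ≠ 0) (hb : b ≠ 0) {g : ℕ} {f : Polynomial (Polynomial κ)}
    (hf : Bdd a b g f) (h1 : (f.coeff (a * g)).coeff 0 = 1) :
    f.Monic ∧ f.natDegree = g * a := by
  have ha' := Nat.pos_of_ne_zero ha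
  have hb' := Nat.pos_of_ne_zero hb
  have h2 : f.coeff (g * a) = 1 := by
    ext n
    rcases Nat.eq_zero_or_pos n with rfl | hn
    · rw [mul_comm g a, h1, Polynomial.coeff_one_zero]
    · rw [Polynomial.coeff_one, if_neg hn.ne']
      by_contra h3
      have h4 := hf _ _ h3
      have h5 : b * (g * a) = g * (a * b) := by ring
      rw [h5] at h4
      have h6 : 0 < a * n := Nat.mul_pos ha' hn
      omega
  have h3 : f.natDegree ≤ g * a := by
    rw [Polynomial.natDegree_le_iff_coeff_eq_zero]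
    intro N hN
    ext n
    rw [Polynomial.coeff_zero]
    by_contra h4
    have h5 := hf _ _ h4
    have h6 : b * (g * a) < b * N := Nat.mul_lt_mul_of_pos_left hN hb'
    have h7 : b * (g * a) = g * (a * b) := by ring
    omega
  have h4 : f.natDegree = g * a := by
    refine le_antisymm h3 (Polynomial.le_natDegree_of_ne_zero ?_)
    rw [h2]
    exact one_ne_zero
  exact ⟨by rw [Polynomial.Monic, ← Polynomial.coeff_natDegree, h4, h2], h4⟩

/-- the Hasse–Witt matrix in terms of the leading polynomial -/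
noncomputable def hws (p a b w n : ℕ) (Φ : Polynomial κ) : Matrix (Lat a b w) (Lat a b w) κ :=
  Matrix.of fun u v => (Φ ^ n).coeff ((p * (v.1.1 : ℕ) - (u.1.1 : ℕ)) / a)

theorem hw_eq {p g : ℕ} (hp : p.Prime) (ha : a ≠ 0) (hb : b ≠ 0) (hab : a.Coprime b)
    (hg : g ≠ 0) (hM : g * (a * b) ∣ p - 1)
    {f : Polynomial (Polynomial κ)} (hf : Bdd a b g f) {w : ℕ} (hw : w < g * (a * b)) :
    TV.hw p a b w ((p - 1) * w / (g * (a * b))) f =
      hws p a b w ((p - 1) * w / (g * (a * b))) (topPoly a b g f) := by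
  have hp2 := hp.two_le
  have ha' := Nat.pos_of_ne_zero ha
  have hb' := Nat.pos_of_ne_zero hb
  obtain ⟨n, hn⟩ : ∃ n, n = (p - 1) * w / (g * (a * b)) := ⟨_, rfl⟩
  have hnM : n * (g * (a * b)) = (p - 1) * w := by
    rw [hn, Nat.div_mul_cancel (hM.mul_right w)]
  have hMle := Nat.le_of_dvd (by omega) hM
  rw [← hn]
  ext1 u v
  obtain ⟨⟨⟨u1, hu1⟩, ⟨u2, hu2⟩⟩, hu3, hu4, hu5⟩ := u
  obtain ⟨⟨⟨v1, hv1⟩, ⟨v2, hv2⟩⟩, hv3, hv4, hv5⟩ := v
  rw [TV.hw, hws, Matrix.of_apply, Matrix.of_apply]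
  simp only at hu3 hu4 hu5 hv3 hv4 hv5 ⊢
  have h1 : u1 ≤ p * v1 := by
    have h2 : 1 * u1 ≤ b * u1 := Nat.mul_le_mul_right _ hb'
    have h3 : p * 1 ≤ p * v1 := Nat.mul_le_mul_left p hv3
    omega
  have h2 : u2 ≤ p * v2 := by
    have h2 : 1 * u2 ≤ a * u2 := Nat.mul_le_mul_right _ ha'
    have h3 : p * 1 ≤ p * v2 := Nat.mul_le_mul_left p hv4
    omega
  obtain ⟨x, hx⟩ : ∃ x, p * v1 = u1 + x := ⟨p * v1 - u1, by omega⟩
  obtain ⟨y, hy⟩ : ∃ y, p * v2 = u2 + y := ⟨p * v2 - u2, by omega⟩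
  have ex : p * v1 - u1 = x := by omega
  have ey : p * v2 - u2 = y := by omega
  rw [ex, ey]
  -- the weight
  have hpw : b * (p * v1) + a * (p * v2) = p * w := by
    rw [← hv5]
    ring
  have hwt : b * x + a * y = n * (g * (a * b)) := by
    rw [hnM]
    rw [hx, hy] at hpw
    have h5 : p * w = (p - 1) * w + w := by
      obtain ⟨q, rfl⟩ : ∃ q, p = q + 1 := ⟨p - 1, by omega⟩
      rw [Nat.add_sub_cancel]
      ring
    have h6 : b * (u1 + x) + a * (u2 + y) = (b * x + a * y) + (b * u1 + a * u2) := by ring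
    rw [h6, hu5, h5] at hpw
    exact Nat.add_right_cancel hpw
  have h3 := coeff_pow_H ha hb hab hf.psi (n := n)
    (v := Finsupp.single 0 x + Finsupp.single 1 y) (by
      rw [wt2]
      simpa using hwt)
  rw [← map_pow, Trans.coeff_Ψ, Hf_Ψ, Polynomial.map_id, RingHom.id_apply] at h3
  have e0 : (Finsupp.single 0 x + Finsupp.single 1 y : Fin 2 →₀ ℕ) 0 = x := by simp
  have e1 : (Finsupp.single 0 x + Finsupp.single 1 y : Fin 2 →₀ ℕ) 1 = y := by simp
  rw [e0, e1] at h3
  rw [h3]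
  have hdvd : a ∣ x := by
    have h4 : a ∣ b * x := by
      have h5 : a ∣ b * x + a * y := by
        rw [hwt]
        exact Dvd.intro (n * (g * b)) (by ring)
      exact (Nat.dvd_add_left (dvd_mul_right a _)).1 h5
    exact hab.dvd_of_dvd_mul_left h4
  obtain ⟨z, rfl⟩ := hdvd
  rw [Nat.mul_div_cancel_left _ ha', mul_comm a z, Polynomial.coeff_expand_mul ha']

/-- the ordinarity condition -/
def OrdP (p a b g : ℕ) (Φ : Polynomial κ) : Prop :=
  ∀ w, 0 < w → w < g * (a * b) → (hws p a b w ((p - 1) * w / (g * (a * b))) Φ).det ≠ 0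

end kappa

end LP

end Pool.Agent.N867.AS
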