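import Pool.Agent.N867.AS.PS

/-!
# The Artin–Hasse exponential
-/

set_option autoImplicit false

open PowerSeries

namespace Pool.Agent.N867.AS

variable {K : Type*} [Field K]

/-- coefficients of the power series with prescribed power sums -/
noncomputable def psCoeff (s : ℕ → K) : ℕ → K
  | 0 => 1
  | n + 1 => - (((n + 1 : ℕ) : K)⁻¹) * ∑ j : Fin (n + 1), s (j + 1) * psCoeff s (n - j)
decreasing_by
  have := j.2
  omega

/-- the power series with prescribed power sums -/
noncomputable def expPS (s : ℕ → K) : K⟦X⟧ := PowerSeries.mk (psCoeff s)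

theorem hasPS_expPS [CharZero K] (s : ℕ → K) : HasPS (expPS s) s := by
  refine hasPS_of_coeff ?_ ?_
  · rw [← coeff_zero_eq_constantCoeff_apply, expPS, coeff_mk, psCoeff]
  · intro n hn
    obtain ⟨n, rfl⟩ := Nat.exists_eq_succ_of_ne_zero hn
    have h3 : ((n + 1 : ℕ) : K) ≠ 0 := Nat.cast_ne_zero.2 (Nat.succ_ne_zero n)
    simp only [expPS, coeff_mk, Nat.succ_eq_add_one, Nat.add_sub_cancel]
    rw [psCoeff, ← Fin.sum_univ_eq_sum_range (fun j => s (j + 1) * psCoeff s (n - j)) (n + 1)]
    field_simp

theorem HasPS.map {K' : Type*} [Field K'] [CharZero K'] {F : K⟦X⟧} {s : ℕ → K} (hF : HasPS F s)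
    (φ : K →+* K') : HasPS (PowerSeries.map φ F) (fun m => φ (s m)) := by
  refine hasPS_of_coeff ?_ ?_
  · rw [← coeff_zero_eq_constantCoeff_apply, coeff_map, coeff_zero_eq_constantCoeff_apply, hF.1,
      map_one]
  · intro n hn
    have h1 := congrArg φ (hF.coeff_eq n)
    rw [map_mul, map_natCast, map_neg, map_sum] at h1
    simp only [coeff_map]
    rw [h1]
    congr 1
    refine Finset.sum_congr rfl fun j _ => ?_
    rw [map_mul]

theorem HasPS.expand [CharZero K] {F : K⟦X⟧} {s : ℕ → K} (hF : HasPS F s) (q : ℕ) (hq : q ≠ 0) :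
    HasPS (PowerSeries.expand q hq F) (fun m => if q ∣ m then q * s (m / q) else 0) := by
  refine ⟨by rw [constantCoeff_expand, hF.1], ?_⟩
  have h1 : pser (fun m => if q ∣ m then (q : K) * s (m / q) else 0) =
      C (q : K) * PowerSeries.expand q hq (pser s) := by
    ext n
    rw [coeff_C_mul, coeff_expand, pser, pser, coeff_mk, coeff_mk]
    by_cases h0 : n = 0
    · subst h0
      simp
    · rw [if_neg h0]
      split_ifs with h2 h3
      · exfalso
        obtain ⟨c, rfl⟩ := h2
        rw [Nat.mul_div_cancel_left _ (Nat.pos_of_ne_zero hq)] at h3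
        exact h0 (by rw [h3, mul_zero])
      · rfl
      · rw [mul_zero]
  have h2 : X * d⁄dX K (PowerSeries.expand q hq F) =
      C (q : K) * PowerSeries.expand q hq (X * d⁄dX K F) := by
    ext n
    rcases n with _ | n
    · simp only [coeff_zero_eq_constantCoeff, map_mul, constantCoeff_X, zero_mul,
        constantCoeff_expand, mul_zero]
    · rw [coeff_succ_X_mul, coeff_derivative, coeff_C_mul, coeff_expand, coeff_expand]
      split_ifs with h2
      · obtain ⟨c, hc⟩ := h2
        rcases c with _ | c
        · simp at hc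
        rw [hc, Nat.mul_div_cancel_left _ (Nat.pos_of_ne_zero hq), coeff_succ_X_mul,
          coeff_derivative]
        have h3 : ((n : K) + 1) = (q : K) * ((c : K) + 1) := by
          have := congrArg (Nat.cast : ℕ → K) hc
          push_cast at this
          exact this
        rw [h3]
        ring
      · ring
  rw [h2, hF.2, h1, map_neg, map_mul]
  ring

/-- indicator of powers of `p` -/
noncomputable def chi (p m : ℕ) : K := by
  classical exact if ∃ i, m = p ^ i then 1 else 0

/-- The series `E(X)^w`, `E` the Artin–Hasse exponential. -/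
noncomputable def AH (p : ℕ) (w : K) : K⟦X⟧ := expPS fun m => - w * chi p m

variable [CharZero K]

theorem AH_spec (p : ℕ) (w : K) : HasPS (AH p w) (fun m => - w * chi p m) := hasPS_expPS _

theorem AH_add (p : ℕ) (w w' : K) : AH p (w + w') = AH p w * AH p w' := by
  refine (AH_spec p (w + w')).unique (((AH_spec p w).mul (AH_spec p w')).congr fun m _ => ?_)
  ring

theorem AH_zero (p : ℕ) : AH p (0 : K) = 1 :=
  (AH_spec p 0).unique (HasPS.one.congr fun m _ => by ring)

theorem AH_natCast (p : ℕ) (t : ℕ) : AH p (t : K) = AH p 1 ^ t := by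
  induction t with
  | zero => rw [Nat.cast_zero, AH_zero, pow_zero]
  | succ t ih => rw [Nat.cast_succ, AH_add, ih, pow_succ]

theorem AH_map {K' : Type*} [Field K'] [CharZero K'] (φ : K →+* K') (p : ℕ) (w : K) :
    PowerSeries.map φ (AH p w) = AH p (φ w) := by
  refine ((AH_spec p w).map φ).unique ((AH_spec p (φ w)).congr fun m _ => ?_)
  rw [map_mul, map_neg]
  unfold chi
  split_ifs <;> simp

theorem AH_prod (p : ℕ) (z : K) (L : ℕ) (hz : z ^ p ^ L = z) :
    ∏ j ∈ Finset.range L, PowerSeries.rescale (z ^ p ^ j) (AH p 1) =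
      AH p (∑ j ∈ Finset.range L, z ^ p ^ j) := by
  refine HasPS.unique (HasPS.prod _ fun j _ => (AH_spec p 1).rescale (z ^ p ^ j))
    ((AH_spec p _).congr fun m _ => ?_)
  by_cases hm : ∃ i, m = p ^ i
  · obtain ⟨i, rfl⟩ := hm
    have h1 : chi p (p ^ i) = (1 : K) := by
      unfold chi
      rw [if_pos ⟨i, rfl⟩]
    rw [h1]
    have h2 : ∀ i, ∑ j ∈ Finset.range L, z ^ p ^ (j + i) = ∑ j ∈ Finset.range L, z ^ p ^ j := by
      intro i
      induction i with
      | zero => simp
      | succ i ih =>
        rw [← ih]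
        have h3 := Finset.sum_range_succ (fun j => z ^ p ^ (j + i)) L
        have h4 := Finset.sum_range_succ' (fun j => z ^ p ^ (j + i)) L
        have h5 : z ^ p ^ (L + i) = z ^ p ^ (0 + i) := by
          rw [pow_add, pow_mul, hz, zero_add]
        rw [h3, h5] at h4
        have h6 := add_right_cancel h4
        rw [h6]
        refine Finset.sum_congr rfl fun j _ => ?_
        congr 2
        ring
    rw [← h2 i]
    rw [show (-∑ j ∈ Finset.range L, z ^ p ^ (j + i)) * 1 =
      ∑ j ∈ Finset.range L, -(z ^ p ^ (j + i)) by rw [mul_one, Finset.sum_neg_distrib]]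
    refine Finset.sum_congr rfl fun j _ => ?_
    rw [← pow_mul, ← pow_add]
    ring
  · have h1 : chi p m = (0 : K) := by
      unfold chi
      rw [if_neg hm]
    rw [h1]
    simp

theorem coeff_AH_zero (p : ℕ) (w : K) : coeff 0 (AH p w) = 1 := by
  rw [coeff_zero_eq_constantCoeff_apply]
  exact (AH_spec p w).1

/-- for `n < p`, `e_n = 1/n!` -/
theorem coeff_AH_small (p : ℕ) (hp : 1 < p) (n : ℕ) (hn : n < p) :
    (n.factorial : K) * coeff n (AH p (1 : K)) = 1 := by
  induction n with
  | zero => rw [coeff_AH_zero]; simp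
  | succ n ih =>
    have h1 := (AH_spec p (1 : K)).coeff_eq (n + 1)
    rw [Nat.factorial_succ]
    push_cast at h1 ⊢
    rw [mul_comm ((n : K) + 1), mul_assoc, h1, Finset.sum_eq_single 0]
    · have h2 : chi p (0 + 1) = (1 : K) := by
        unfold chi
        rw [if_pos ⟨0, by simp⟩]
      rw [h2]
      simp only [Nat.sub_zero]
      linear_combination ih (by omega)
    · intro j hj hj0
      have h2 : chi p (j + 1) = (0 : K) := by
        unfold chi
        rw [if_neg]
        rintro ⟨i, hi⟩
        rcases i with _ | i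
        · rw [pow_zero] at hi
          omega
        · have h3 : p ≤ p ^ (i + 1) := Nat.le_self_pow (Nat.succ_ne_zero i) p
          have := Finset.mem_range.1 hj
          omega
      rw [h2]
      ring
    · intro h
      exact absurd (Finset.mem_range.2 (Nat.succ_pos n)) h

end Pool.Agent.N867.AS
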