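import Pool.Agent.N867.AS.Minor
import Pool.Agent.N867.AS.Series

/-!
# Newton polygon calculus for power series over an ultrametric field
-/

set_option autoImplicit false
set_option linter.unusedSectionVars false

namespace Pool.Agent.N867.AS

namespace Minor

open PowerSeries

variable {𝕜 : Type*} [NormedField 𝕜] [IsUltrametricDist 𝕜]

theorem sum_pair (F E : 𝕜⟦X⟧) (hE0 : coeff 0 E = 1) (n : ℕ) :
    coeff n (F * E) = coeff n F + ∑ x ∈ (Finset.HasAntidiagonal.antidiagonal n).erase (n, 0),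
      coeff x.1 F * coeff x.2 E := by
  classical
  rw [coeff_mul, ← Finset.add_sum_erase (Finset.HasAntidiagonal.antidiagonal n) _
    (Finset.HasAntidiagonal.mem_antidiagonal.2 (add_zero n) : (n, 0) ∈ _), hE0, mul_one]

theorem small_sum {F E : 𝕜⟦X⟧} {R : ℝ} (hR : 0 < R) {n : ℕ} (hF : ∀ m ≤ n, ‖coeff m F‖ ≤ R)
    (hE : ∀ m, m ≠ 0 → m ≤ n → ‖coeff m E‖ < 1) :
    ‖∑ x ∈ (Finset.HasAntidiagonal.antidiagonal n).erase (n, 0), coeff x.1 F * coeff x.2 E‖ < R := by
  classical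
  refine norm_sum_lt hR fun x hx => ?_
  rw [Finset.mem_erase, Finset.HasAntidiagonal.mem_antidiagonal] at hx
  have h2 : x.2 ≠ 0 := by
    intro h
    apply hx.1
    ext
    · simp only
      omega
    · exact h
  rw [norm_mul]
  rcases (norm_nonneg (coeff x.1 F)).eq_or_lt with h | h
  · rw [← h, zero_mul]
    exact hR
  · calc ‖coeff x.1 F‖ * ‖coeff x.2 E‖ < ‖coeff x.1 F‖ * 1 :=
          mul_lt_mul_of_pos_left (hE _ h2 (by omega)) h
      _ ≤ R := by
          rw [mul_one]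
          exact hF _ (by omega)

/-- comparison of coefficients after multiplication by a near-one series -/
theorem coeff_mul_near {F E : 𝕜⟦X⟧} {R : ℝ} (hR : 0 < R) {n : ℕ}
    (hF : ∀ m ≤ n, ‖coeff m F‖ ≤ R) (hE0 : coeff 0 E = 1)
    (hE : ∀ m, m ≠ 0 → m ≤ n → ‖coeff m E‖ < 1) :
    ‖coeff n (F * E)‖ ≤ R ∧ (‖coeff n F‖ = R → ‖coeff n (F * E)‖ = R) ∧
      (‖coeff n F‖ < R → ‖coeff n (F * E)‖ < R) := by
  have h1 := small_sum hR hF hE
  rw [sum_pair F E hE0]
  refine ⟨(IsUltrametricDist.norm_add_le_max _ _).trans (max_le (hF n le_rfl) h1.le),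
    fun h => ?_, fun h => lt_of_le_of_lt (IsUltrametricDist.norm_add_le_max _ _) (max_lt h h1)⟩
  rw [← h] at h1
  rw [IsUltrametricDist.norm_add_eq_max_of_norm_ne_norm h1.ne', max_eq_left h1.le, h]

theorem NP.mul_near {F E : 𝕜⟦X⟧} {a b : ℕ} {R : ℝ} (hF : NP (fun n => coeff n F) a b R)
    (hE0 : coeff 0 E = 1) (hE : ∀ m, m ≠ 0 → ‖coeff m E‖ < 1) :
    NP (fun n => coeff n (F * E)) a b R := by
  have h := fun n => coeff_mul_near (n := n) hF.pos (fun m _ => hF.le m) hE0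
    (fun m hm _ => hE m hm)
  exact ⟨hF.pos, fun n => (h n).1, (h a).2.1 hF.eqa, (h b).2.1 hF.eqb,
    fun n hn => (h n).2.2 (hF.lta n hn), fun n hn => (h n).2.2 (hF.ltb n hn)⟩

theorem near_mul {E E' : 𝕜⟦X⟧} (hE0 : coeff 0 E = 1) (hE : ∀ m, m ≠ 0 → ‖coeff m E‖ < 1)
    (hE0' : coeff 0 E' = 1) (hE' : ∀ m, m ≠ 0 → ‖coeff m E'‖ < 1) :
    coeff 0 (E * E') = 1 ∧ ∀ m, m ≠ 0 → ‖coeff m (E * E')‖ < 1 := by
  refine ⟨?_, fun m hm => ?_⟩
  · rw [coeff_zero_eq_constantCoeff_apply] at hE0 hE0' ⊢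
    rw [map_mul, hE0, hE0', one_mul]
  · refine (coeff_mul_near (n := m) one_pos (fun l _ => ?_) hE0' fun l hl _ => hE' l hl).2.2
      (hE m hm)
    by_cases hl : l = 0
    · rw [hl, hE0, norm_one]
    · exact (hE l hl).le

theorem near_prod' {ι : Type*} (S : Finset ι) {E : ι → 𝕜⟦X⟧}
    (h0 : ∀ i ∈ S, coeff 0 (E i) = 1) (h : ∀ i ∈ S, ∀ m, m ≠ 0 → ‖coeff m (E i)‖ < 1) :
    coeff 0 (∏ i ∈ S, E i) = 1 ∧ ∀ m, m ≠ 0 → ‖coeff m (∏ i ∈ S, E i)‖ < 1 := by
  classical
  induction S using Finset.induction_on with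
  | empty =>
    refine ⟨by simp, fun m hm => ?_⟩
    rw [Finset.prod_empty, coeff_one, if_neg hm, norm_zero]
    exact one_pos
  | insert c S hc ih =>
    rw [Finset.prod_insert hc]
    have h1 := ih (fun i hi => h0 i (Finset.mem_insert_of_mem hi))
      fun i hi => h i (Finset.mem_insert_of_mem hi)
    exact near_mul (h0 c (Finset.mem_insert_self c S)) (h c (Finset.mem_insert_self c S)) h1.1 h1.2

/-- multiplication by `1 - λ X^s` -/
theorem coeff_mul_one_sub (F : 𝕜⟦X⟧) (l : 𝕜) (s n : ℕ) :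
    coeff n (F * (1 - C l * X ^ s)) = coeff n F - l * (if s ≤ n then coeff (n - s) F else 0) := by
  rw [mul_sub, mul_one, map_sub, show F * (C l * X ^ s) = C l * (X ^ s * F) by ring, coeff_C_mul,
    coeff_X_pow_mul']

theorem NP.mul_eq {F : 𝕜⟦X⟧} {a b : ℕ} {R : ℝ} (hF : NP (fun n => coeff n F) a b R)
    {s : ℕ} (hs : s ≠ 0) {l : 𝕜} (hl : ‖l‖ = 1) :
    NP (fun n => coeff n (F * (1 - C l * X ^ s))) a (b + s) R := by
  have hsub : ∀ n, ‖(if s ≤ n then coeff (n - s) F else 0)‖ ≤ R := by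
    intro n
    split_ifs
    · exact hF.le _
    · rw [norm_zero]
      exact hF.pos.le
  refine ⟨hF.pos, fun n => ?_, ?_, ?_, fun n hn => ?_, fun n hn => ?_⟩
  · simp only [coeff_mul_one_sub]
    rw [sub_eq_add_neg]
    refine (IsUltrametricDist.norm_add_le_max _ _).trans (max_le (hF.le n) ?_)
    rw [norm_neg, norm_mul, hl, one_mul]
    exact hsub n
  · simp only [coeff_mul_one_sub]
    have h1 : ‖l * (if s ≤ a then coeff (a - s) F else 0)‖ < R := by
      rw [norm_mul, hl, one_mul]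
      split_ifs
      · exact hF.lta _ (by omega)
      · rw [norm_zero]
        exact hF.pos
    have h2 : ‖coeff a F‖ = R := hF.eqa
    rw [sub_eq_add_neg]
    rw [← h2] at h1
    rw [IsUltrametricDist.norm_add_eq_max_of_norm_ne_norm (by rw [norm_neg]; exact h1.ne'),
      norm_neg, max_eq_left h1.le, h2]
  · simp only [coeff_mul_one_sub]
    rw [if_pos (by omega), Nat.add_sub_cancel]
    have h1 : ‖coeff (b + s) F‖ < R := hF.ltb _ (by omega)
    have h2 : ‖l * coeff b F‖ = R := by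
      rw [norm_mul, hl, one_mul]
      exact hF.eqb
    rw [sub_eq_add_neg]
    rw [← h2] at h1
    rw [IsUltrametricDist.norm_add_eq_max_of_norm_ne_norm (by rw [norm_neg]; exact h1.ne),
      norm_neg, max_eq_right h1.le, h2]
  · simp only [coeff_mul_one_sub]
    rw [sub_eq_add_neg]
    refine lt_of_le_of_lt (IsUltrametricDist.norm_add_le_max _ _) (max_lt (hF.lta n hn) ?_)
    rw [norm_neg, norm_mul, hl, one_mul]
    split_ifs
    · exact hF.lta _ (by omega)
    · rw [norm_zero]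
      exact hF.pos
  · simp only [coeff_mul_one_sub]
    rw [sub_eq_add_neg]
    refine lt_of_le_of_lt (IsUltrametricDist.norm_add_le_max _ _)
      (max_lt (hF.ltb n (by omega)) ?_)
    rw [norm_neg, norm_mul, hl, one_mul, if_pos (by omega)]
    exact hF.ltb _ (by omega)

theorem NP.mul_gt {F : 𝕜⟦X⟧} {a b : ℕ} {R : ℝ} (hF : NP (fun n => coeff n F) a b R)
    {s : ℕ} (hs : s ≠ 0) {l : 𝕜} (hl : 1 < ‖l‖) :
    NP (fun n => coeff n (F * (1 - C l * X ^ s))) (a + s) (b + s) (R * ‖l‖) := by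
  have hl0 : 0 < ‖l‖ := lt_trans one_pos hl
  have hRl : R < R * ‖l‖ := by
    have := mul_lt_mul_of_pos_left hl hF.pos
    rwa [mul_one] at this
  have hsub : ∀ n, ‖l * (if s ≤ n then coeff (n - s) F else 0)‖ ≤ R * ‖l‖ := by
    intro n
    rw [norm_mul, mul_comm]
    refine mul_le_mul_of_nonneg_right ?_ hl0.le
    split_ifs
    · exact hF.le _
    · rw [norm_zero]
      exact hF.pos.le
  refine ⟨mul_pos hF.pos hl0, fun n => ?_, ?_, ?_, fun n hn => ?_, fun n hn => ?_⟩
  · simp only [coeff_mul_one_sub]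
    rw [sub_eq_add_neg]
    refine (IsUltrametricDist.norm_add_le_max _ _).trans (max_le ((hF.le n).trans hRl.le) ?_)
    rw [norm_neg]
    exact hsub n
  · simp only [coeff_mul_one_sub]
    rw [if_pos (by omega), Nat.add_sub_cancel]
    have h2 : ‖l * coeff a F‖ = R * ‖l‖ := by
      rw [norm_mul, mul_comm]
      have : ‖coeff a F‖ = R := hF.eqa
      rw [this]
    have h1 : ‖coeff (a + s) F‖ < ‖l * coeff a F‖ := by
      rw [h2]
      exact lt_of_le_of_lt (hF.le _) hRl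
    rw [sub_eq_add_neg]
    rw [IsUltrametricDist.norm_add_eq_max_of_norm_ne_norm (by rw [norm_neg]; exact h1.ne),
      norm_neg, max_eq_right h1.le, h2]
  · simp only [coeff_mul_one_sub]
    rw [if_pos (by omega), Nat.add_sub_cancel]
    have h2 : ‖l * coeff b F‖ = R * ‖l‖ := by
      rw [norm_mul, mul_comm]
      have : ‖coeff b F‖ = R := hF.eqb
      rw [this]
    have h1 : ‖coeff (b + s) F‖ < ‖l * coeff b F‖ := by
      rw [h2]
      exact lt_of_le_of_lt (hF.le _) hRl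
    rw [sub_eq_add_neg]
    rw [IsUltrametricDist.norm_add_eq_max_of_norm_ne_norm (by rw [norm_neg]; exact h1.ne),
      norm_neg, max_eq_right h1.le, h2]
  · simp only [coeff_mul_one_sub]
    rw [sub_eq_add_neg]
    refine lt_of_le_of_lt (IsUltrametricDist.norm_add_le_max _ _)
      (max_lt (lt_of_le_of_lt (hF.le n) hRl) ?_)
    rw [norm_neg, norm_mul, mul_comm]
    refine mul_lt_mul_of_pos_right ?_ hl0
    split_ifs
    · exact hF.lta _ (by omega)
    · rw [norm_zero]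
      exact hF.pos
  · simp only [coeff_mul_one_sub]
    rw [sub_eq_add_neg]
    refine lt_of_le_of_lt (IsUltrametricDist.norm_add_le_max _ _)
      (max_lt (lt_of_le_of_lt (hF.le n) hRl) ?_)
    rw [norm_neg, norm_mul, mul_comm]
    refine mul_lt_mul_of_pos_right ?_ hl0
    rw [if_pos (by omega)]
    exact hF.ltb _ (by omega)

theorem NP.mul_lt' {F : 𝕜⟦X⟧} {a b : ℕ} {R : ℝ} (hF : NP (fun n => coeff n F) a b R)
    {s : ℕ} (hs : s ≠ 0) {l : 𝕜} (hl : ‖l‖ < 1) :
    NP (fun n => coeff n (F * (1 - C l * X ^ s))) a b R := by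
  refine hF.mul_near ?_ fun m hm => ?_
  · rw [map_sub, coeff_one, if_pos rfl, coeff_C_mul, coeff_X_pow, if_neg hs.symm, mul_zero,
      sub_zero]
  · rw [map_sub, coeff_one, if_neg hm, coeff_C_mul, coeff_X_pow, zero_sub, norm_neg, norm_mul]
    split_ifs
    · rw [norm_one, mul_one]
      exact hl
    · rw [norm_zero, mul_zero]
      exact one_pos

/-- Newton data of a product of `1 - λ X^s` -/
theorem np_multiset (s : ℕ) (hs : s ≠ 0) (L : Multiset 𝕜) :
    ∃ R, NP (fun n => coeff n ((L.map fun l => (1 - C l * X ^ s : 𝕜⟦X⟧)).prod))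
      (s * L.countP (fun l => 1 < ‖l‖)) (s * L.countP (fun l => 1 ≤ ‖l‖)) R := by
  classical
  induction L using Multiset.induction_on with
  | empty =>
    refine ⟨1, one_pos, fun n => ?_, ?_, ?_, fun n hn => ?_, fun n hn => ?_⟩
    · rw [Multiset.map_zero, Multiset.prod_zero, coeff_one]
      split_ifs <;> simp
    · simp
    · simp
    · simp at hn
    · have hn' : n ≠ 0 := by
        simp at hn
        omega
      rw [Multiset.map_zero, Multiset.prod_zero, coeff_one, if_neg hn', norm_zero]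
      exact one_pos
  | cons l L ih =>
    obtain ⟨R, hR⟩ := ih
    simp only [Multiset.map_cons, Multiset.prod_cons, Multiset.countP_cons]
    simp only [mul_comm (1 - C l * X ^ s : 𝕜⟦X⟧)]
    rcases lt_trichotomy ‖l‖ 1 with h | h | h
    · rw [if_neg (not_lt.2 h.le), if_neg (not_le.2 h), add_zero, add_zero]
      exact ⟨R, hR.mul_lt' hs h⟩
    · rw [if_neg (not_lt.2 h.le), if_pos h.ge, add_zero, mul_add, mul_one]
      exact ⟨R, hR.mul_eq hs h⟩
    · rw [if_pos h, if_pos h.le, mul_add, mul_one, mul_add, mul_one]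
      exact ⟨_, hR.mul_gt hs h⟩

/-- comparison of Newton data of two series which agree approximately -/
theorem np_compare {U V Z : 𝕜⟦X⟧} {a b a' b' n₀ : ℕ} {R R' : ℝ}
    (hU : NP (fun n => coeff n U) a b R) (hV : NP (fun n => coeff n V) a' b' R')
    (hUV : U = V * Z) (hZ0 : coeff 0 Z = 1)
    (hZ : ∀ m, m ≠ 0 → m ≤ n₀ → ‖coeff m Z‖ < 1) (ha : a ≤ n₀) (hb : b ≤ n₀) (ha' : a' ≤ n₀)
    (hb' : b' ≤ n₀) : a = a' ∧ b = b' := by
  have h := fun n (hn : n ≤ n₀) => coeff_mul_near (n := n) (F := V) (E := Z) hV.pos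
    (fun m _ => hV.le m) hZ0 (fun m hm hmn => hZ m hm (hmn.trans hn))
  rw [← hUV] at h
  have hRR : R = R' := by
    refine le_antisymm ?_ ?_
    · rw [← hU.eqa]
      exact (h a ha).1
    · rw [← (h a' ha').2.1 hV.eqa]
      exact hU.le a'
  subst hRR
  constructor
  · rcases lt_trichotomy a a' with h1 | h1 | h1
    · exact absurd hU.eqa ((h a ha).2.2 (hV.lta a h1)).ne
    · exact h1
    · exact absurd ((h a' ha').2.1 hV.eqa) (hU.lta a' h1).ne
  · rcases lt_trichotomy b b' with h1 | h1 | h1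
    · exact absurd ((h b' hb').2.1 hV.eqb) (hU.ltb b' h1).ne
    · exact h1
    · exact absurd hU.eqb ((h b hb).2.2 (hV.ltb b h1)).ne

/-- coefficients of a series with small power sums -/
theorem small_of_ps [CharZero 𝕜] {Z : 𝕜⟦X⟧} {δ : ℕ → 𝕜} (hZ : HasPS Z δ) {ε : ℝ} (hε0 : 0 ≤ ε)
    (hε : ε ≤ 1) (hδ : ∀ m, m ≠ 0 → ‖δ m‖ ≤ ε) (n : ℕ) (hn : n ≠ 0) :
    ‖((n.factorial : ℕ) : 𝕜)‖ * ‖coeff n Z‖ ≤ ε := by
  induction n using Nat.strong_induction_on with
  | _ n ih =>
    obtain ⟨n, rfl⟩ := Nat.exists_eq_succ_of_ne_zero hn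
    have h1 := hZ.coeff_eq (n + 1)
    rw [Nat.succ_eq_add_one, Nat.factorial_succ, ← norm_mul]
    have h2 : (((n + 1) * n.factorial : ℕ) : 𝕜) * coeff (n + 1) Z =
        - ∑ j ∈ Finset.range (n + 1), δ (j + 1) * ((n.factorial : 𝕜) * coeff (n - j) Z) := by
      push_cast at h1 ⊢
      rw [mul_comm ((n : 𝕜) + 1), mul_assoc, h1, mul_neg, Finset.mul_sum]
      congr 1
      refine Finset.sum_congr rfl fun j _ => ?_
      ring
    rw [h2, norm_neg]
    refine IsUltrametricDist.norm_sum_le_of_forall_le_of_nonneg hε0 fun j hj => ?_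
    rw [norm_mul]
    have h3 : ‖(n.factorial : 𝕜) * coeff (n - j) Z‖ ≤ 1 := by
      by_cases h0 : n - j = 0
      · rw [h0, coeff_zero_eq_constantCoeff_apply, hZ.1, mul_one]
        exact IsUltrametricDist.norm_natCast_le_one _ _
      · obtain ⟨c, hc⟩ := Nat.factorial_dvd_factorial (Nat.sub_le n j)
        have h4 := ih (n - j) (by omega) h0
        rw [hc, Nat.cast_mul, mul_comm (((n - j).factorial : 𝕜)), mul_assoc, norm_mul, norm_mul]
        calc _ ≤ 1 * ε := mul_le_mul (IsUltrametricDist.norm_natCast_le_one _ _) h4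
              (by positivity) zero_le_one
          _ ≤ 1 := by rwa [one_mul]
    calc _ ≤ ε * 1 := mul_le_mul (hδ _ (Nat.succ_ne_zero j)) h3 (norm_nonneg _) hε0
      _ = ε := mul_one ε

end Minor

end Pool.Agent.N867.AS
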