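import Pool.Agent.N867.AS.Bounds
import Pool.Agent.N867.AS.Poly

/-!
# The Newton polygon of the Dwork determinants
-/

set_option autoImplicit false
set_option linter.unusedSectionVars false

namespace Pool.Agent.N867.AS

namespace Bd

open MvPolynomial Res Tr

variable {σ : Type} [Fintype σ] [DecidableEq σ]

variable {p : ℕ} [hp : Fact p.Prime] {ω : σ → ℕ} {r : ℝ} {f : MvPolynomial σ (k p)} {a : σ → ℕ}
  {M s : ℕ}

theorem wadd {p : ℕ} (hp : p ≠ 0) (w : ℕ) : w + (p - 1) * w = p * w := by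
  obtain ⟨q, rfl⟩ := Nat.exists_eq_succ_of_ne_zero hp
  rw [Nat.succ_sub_one, Nat.succ_eq_add_one]
  ring

/-- weight of an index -/
noncomputable def Wx (ω : σ → ℕ) {Γ : Type} {T : Finset σ} {B : ℕ} (x : Γ × Idx T B) : ℕ :=
  wt ω (toF x.2.1)

variable (hf : Diag f a ω M) (D : Lifts p f s) {N : ℕ} {γ : PadicAlgCl p}

theorem wt_tsub {B B' : ℕ} (ω : σ → ℕ) {u : σ → Fin (B + 1)} {u' : σ → Fin (B' + 1)} {c : ℕ}
    (h : toF u ≤ c • toF u') :
    wt ω (c • toF u' - toF u) + wt ω (toF u) = c * wt ω (toF u') := by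
  rw [← wt_add, tsub_add_cancel_of_le h, wt_smul]

include hf

theorem entry_le (hs : s ≠ 0) (hr : 0 < r) (hr1 : r ≤ 1) (hγ : ‖γ‖ = r ^ M) (T : Finset σ) (B : ℕ)
    (x y : (Fin (p - 1) × ZMod s) × Idx T B) :
    r ^ Wx ω x * ‖Cmat p (Gf D N γ) (rho p s) T B x y‖ ≤ r ^ (p * Wx ω y) := by
  unfold Cmat
  split_ifs with h1 h2
  · have h3 := Gf_P hf D hs hr hr1 hγ (N := N) x.1 (p • toF y.2.1 - toF x.2.1)
    rw [add_zero] at h3
    calc _ ≤ r ^ Wx ω x * r ^ wt ω (p • toF y.2.1 - toF x.2.1) :=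
          mul_le_mul_of_nonneg_left h3 (by positivity)
      _ = r ^ (p * Wx ω y) := by
          rw [← pow_add, add_comm, Wx, wt_tsub ω h2, Wx]
  · rw [norm_zero, mul_zero]
    positivity
  · rw [norm_zero, mul_zero]
    positivity

theorem entry_scaled (hs : s ≠ 0) (hr : 0 < r) (hr1 : r ≤ 1) (hγ : ‖γ‖ = r ^ M) (T : Finset σ)
    (B : ℕ) (c : PadicAlgCl p) (x y : (Fin (p - 1) × ZMod s) × Idx T B) :
    r ^ Wx ω x * ‖(c • Cmat p (Gf D N γ) (rho p s) T B) x y‖ ≤
      r ^ Wx ω y * (r ^ ((p - 1) * Wx ω y) * ‖c‖) := by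
  rw [Matrix.smul_apply, smul_eq_mul, norm_mul]
  have h1 := entry_le hf D hs hr hr1 hγ (N := N) T B x y
  have h2 : Wx ω y + (p - 1) * Wx ω y = p * Wx ω y := wadd hp.1.ne_zero _
  calc r ^ Wx ω x * (‖c‖ * ‖Cmat p (Gf D N γ) (rho p s) T B x y‖) =
      ‖c‖ * (r ^ Wx ω x * ‖Cmat p (Gf D N γ) (rho p s) T B x y‖) := by ring
    _ ≤ ‖c‖ * r ^ (p * Wx ω y) := mul_le_mul_of_nonneg_left h1 (norm_nonneg _)
    _ = _ := by rw [← h2, pow_add]; ring

theorem ω_pos (i : σ) : 0 < ω i := by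
  rcases Nat.eq_zero_or_pos (ω i) with h | h
  · exfalso
    apply hf.hM
    rw [← hf.hω i, h, mul_zero]
  · exact h

/-- small determinants for `T ≠ univ` -/
theorem small_T (hs : s ≠ 0) (hr : 0 < r) (hr1 : r < 1) (hγ : ‖γ‖ = r ^ M) {T : Finset σ}
    (B : ℕ) {e : ℕ} (hTe : T.card + e + 1 = Fintype.card σ) (hσ : 2 ≤ Fintype.card σ) [NeZero s]
    (n : ℕ) (hn : n ≠ 0) :
    ‖(((p : PadicAlgCl p) ^ e) • Cmat p (Gf D N γ) (rho p s) T B).charpolyRev.coeff n‖ < 1 := by
  classical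
  have hp2 := hp.1.two_le
  have hpn : ‖(p : PadicAlgCl p)‖ < 1 := norm_p_lt p
  have hpn0 : 0 < ‖(p : PadicAlgCl p)‖ := norm_pos_iff.2 (Nat.cast_ne_zero.2 hp.1.ne_zero)
  refine Minor.small_of_minors _
    (fun y => r ^ ((p - 1) * Wx ω y) * ‖(p : PadicAlgCl p) ^ e‖) ?_ ?_ ?_ n hn
  · intro x
    rw [norm_pow]
    positivity
  · intro x
    rw [norm_pow]
    rcases Nat.eq_zero_or_pos e with he | he
    · rw [he, pow_zero, mul_one]
      refine pow_lt_one₀ hr.le hr1 ?_
      have hT : T.Nonempty := by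
        rw [← Finset.card_pos]
        omega
      obtain ⟨i, hi⟩ := hT
      have h1 := x.2.2 i hi
      have h2 : 1 ≤ Wx ω x := by
        unfold Wx wt
        calc 1 ≤ ω i * (toF x.2.1 i) := by
              rw [toF_apply]
              exact Nat.mul_pos (ω_pos hf i) (Nat.pos_of_ne_zero h1)
          _ ≤ _ := Finset.single_le_sum (f := fun i => ω i * toF x.2.1 i)
              (fun _ _ => Nat.zero_le _) (Finset.mem_univ i)
      have h3 : 0 < (p - 1) * Wx ω x := Nat.mul_pos (by omega) h2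
      exact h3.ne'
    · calc _ ≤ 1 * ‖(p : PadicAlgCl p)‖ ^ e :=
            mul_le_mul_of_nonneg_right (pow_le_one₀ hr.le hr1.le) (by positivity)
        _ = ‖(p : PadicAlgCl p)‖ ^ e := one_mul _
        _ < 1 := pow_lt_one₀ hpn0.le hpn he.ne'
  · intro S
    refine Minor.minor_le _ (fun x => r ^ Wx ω x) _ (fun x => by positivity)
      (fun x y => entry_scaled hf D hs hr hr1.le hγ T B _ x y) (fun x => ?_) S
    rw [norm_pow]
    positivity

/-- the Newton polygon of the main determinant -/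
theorem np_univ (hs : s ≠ 0) (hr : 0 < r) (hr1 : r < 1) (hγ : ‖γ‖ = r ^ M)
    (hpγ : ‖(p : PadicAlgCl p)‖ = ‖γ‖ ^ (p - 1)) (hN : p ≤ N) (hap : ∀ i, a i ∣ p - 1)
    (hσ : 2 ≤ Fintype.card σ) [NeZero s] (B : ℕ) :
    ∃ R, Minor.NP (fun n => (((p : PadicAlgCl p)⁻¹) •
        Cmat p (Gf D N γ) (rho p s) Finset.univ B).charpolyRev.coeff n)
      (Finset.univ.filter (fun x : (Fin (p - 1) × ZMod s) × Idx (Finset.univ : Finset σ) B =>
        Wx ω x < M)).card
      (Finset.univ.filter (fun x : (Fin (p - 1) × ZMod s) × Idx (Finset.univ : Finset σ) B =>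
        Wx ω x ≤ M)).card R := by
  classical
  have hp2 := hp.1.two_le
  have hpn0 : 0 < ‖(p : PadicAlgCl p)‖ := norm_pos_iff.2 (Nat.cast_ne_zero.2 hp.1.ne_zero)
  obtain ⟨β, hβ⟩ : ∃ β : (Fin (p - 1) × ZMod s) × Idx (Finset.univ : Finset σ) B → ℝ,
    ∀ y, β y = r ^ ((p - 1) * Wx ω y) * ‖(p : PadicAlgCl p)⁻¹‖ := ⟨_, fun _ => rfl⟩
  have hpr : ‖(p : PadicAlgCl p)‖ = r ^ ((p - 1) * M) := by
    rw [hpγ, hγ, ← pow_mul, mul_comm]
  have hpinv : ‖(p : PadicAlgCl p)⁻¹‖ = (r ^ ((p - 1) * M))⁻¹ := by rw [norm_inv, hpr]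
  have hβpos : ∀ x, 0 < β x := by
    intro x
    rw [hβ, hpinv]
    positivity
  have hβlt : ∀ x, 1 < β x ↔ Wx ω x < M := by
    intro x
    rw [hβ, hpinv, ← div_eq_mul_inv, one_lt_div (by positivity),
      pow_lt_pow_iff_right_of_lt_one₀ hr hr1]
    constructor
    · exact fun h => Nat.lt_of_mul_lt_mul_left h
    · exact fun h => Nat.mul_lt_mul_of_pos_left h (by omega)
  have hβle : ∀ x, 1 ≤ β x ↔ Wx ω x ≤ M := by
    intro x
    rw [hβ, hpinv, ← div_eq_mul_inv, one_le_div (by positivity),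
      pow_le_pow_iff_right_of_lt_one₀ hr hr1]
    constructor
    · exact fun h => Nat.le_of_mul_le_mul_left h (by omega)
    · exact fun h => Nat.mul_le_mul_left _ h
  have hA : ∀ x y, r ^ Wx ω x * ‖(((p : PadicAlgCl p)⁻¹) •
      Cmat p (Gf D N γ) (rho p s) Finset.univ B) x y‖ ≤ r ^ Wx ω y * β y := by
    intro x y
    rw [hβ]
    exact entry_scaled hf D hs hr hr1.le hγ Finset.univ B _ x y
  have hfil1 : Finset.univ.filter (fun x => 1 < β x) =
      Finset.univ.filter (fun x => Wx ω x < M) := by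
    ext x
    simp [hβlt]
  have hfil2 : Finset.univ.filter (fun x => 1 ≤ β x) =
      Finset.univ.filter (fun x => Wx ω x ≤ M) := by
    ext x
    simp [hβle]
  rw [← hfil1, ← hfil2]
  refine ⟨_, Minor.np_of_minors _ β hβpos
    (fun S => Minor.minor_le _ (fun x => r ^ Wx ω x) β (fun x => by positivity) hA hβpos S) ?_⟩
  -- exact minors
  have hexact : ∀ S : Finset ((Fin (p - 1) × ZMod s) × Idx (Finset.univ : Finset σ) B),
      (∀ x ∈ S, Wx ω x ≤ M) → (∀ x ∈ S, ((rho p s x.1, x.2) :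
        (Fin (p - 1) × ZMod s) × Idx (Finset.univ : Finset σ) B) ∈ S) →
      ‖((((p : PadicAlgCl p)⁻¹) • Cmat p (Gf D N γ) (rho p s) Finset.univ B).submatrix
        (Subtype.val : S → _) (Subtype.val : S → _)).det‖ = ∏ x ∈ S, β x := by
    intro S hSM hSρ
    -- strict bound on the coordinates
    have hcoord : ∀ x ∈ S, ∀ i, (x.2.1 i : ℕ) < a i := by
      intro x hx i
      have h1 := hSM x hx
      have : Nontrivial σ := Fintype.one_lt_card_iff_nontrivial.1 hσ
      obtain ⟨j, hj⟩ := exists_ne i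
      have h2 : ω i * (x.2.1 i : ℕ) + ω j * (x.2.1 j : ℕ) ≤ Wx ω x := by
        unfold Wx wt
        have h3 : ∑ l ∈ ({i, j} : Finset σ), ω l * toF x.2.1 l ≤ ∑ l, ω l * toF x.2.1 l :=
          Finset.sum_le_sum_of_subset (Finset.subset_univ _)
        rw [Finset.sum_pair hj.symm] at h3
        exact h3
      have h3 : 0 < ω j * (x.2.1 j : ℕ) :=
        Nat.mul_pos (ω_pos hf j) (Nat.pos_of_ne_zero (x.2.2 j (Finset.mem_univ j)))
      have h4 : ω i * (x.2.1 i : ℕ) < ω i * a i := by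
        rw [mul_comm (ω i) (a i), hf.hω i]
        omega
      exact Nat.lt_of_mul_lt_mul_left h4
    refine Minor.minor_eq _ (fun x => r ^ Wx ω x) β (fun x => by positivity) hA hβpos S
      (fun x => (rho p s x.1, x.2)) ?_ hSρ ?_ ?_
    · intro x y h
      have h1 := congrArg Prod.fst h
      have h2 := congrArg Prod.snd h
      simp only [rho, Prod.mk.injEq, add_left_inj] at h1 h2
      exact Prod.ext (Prod.ext h1.1 h1.2) h2
    · -- the diagonal entries
      intro x hx
      have hdiag : toF x.2.1 ≤ p • toF x.2.1 := by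
        intro i
        simp only [Finsupp.smul_apply, smul_eq_mul]
        exact Nat.le_mul_of_pos_left _ hp.1.pos
      have hent : Cmat p (Gf D N γ) (rho p s) Finset.univ B x (rho p s x.1, x.2) =
          coeff (p • toF x.2.1 - toF x.2.1) (Gf D N γ x.1) := by
        unfold Cmat
        rw [if_pos rfl, if_pos hdiag]
      have hv : p • toF x.2.1 - toF x.2.1 = (p - 1) • toF x.2.1 := by
        ext i
        simp only [Finsupp.smul_apply, smul_eq_mul, Finsupp.tsub_apply]
        rw [Nat.sub_mul, one_mul]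
      have hlead : ‖coeff ((p - 1) • toF x.2.1) (lead D a N γ x.1)‖ =
          r ^ wt ω ((p - 1) • toF x.2.1) := by
        refine norm_coeff_lead hf D hs hγ hN x.1 fun i => ⟨?_, ?_⟩
        · rw [Finsupp.smul_apply, smul_eq_mul]
          exact (hap i).mul_right _
        · rw [Finsupp.smul_apply, smul_eq_mul, toF_apply]
          have h1 := hcoord x hx i
          rw [Nat.div_lt_iff_lt_mul (Nat.pos_of_ne_zero (hf.ha i))]
          calc (p - 1) * (x.2.1 i : ℕ) ≤ (p - 1) * a i := Nat.mul_le_mul_left _ h1.le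
            _ < p * a i := Nat.mul_lt_mul_of_pos_right (by omega)
              (Nat.pos_of_ne_zero (hf.ha i))
      have hdiff := Gf_lead hf D hs hr hr1.le hγ (lt_of_lt_of_le hp.1.pos hN) (N := N) x.1
        ((p - 1) • toF x.2.1)
      rw [coeff_sub] at hdiff
      have hnorm : ‖coeff ((p - 1) • toF x.2.1) (Gf D N γ x.1)‖ =
          r ^ wt ω ((p - 1) • toF x.2.1) := by
        have h1 : ‖coeff ((p - 1) • toF x.2.1) (Gf D N γ x.1) -
            coeff ((p - 1) • toF x.2.1) (lead D a N γ x.1)‖ <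
            ‖coeff ((p - 1) • toF x.2.1) (lead D a N γ x.1)‖ := by
          rw [hlead]
          exact lt_of_le_of_lt hdiff (pow_lt_pow_right_of_lt_one₀ hr hr1 (Nat.lt_succ_self _))
        have h2 : coeff ((p - 1) • toF x.2.1) (Gf D N γ x.1) =
            (coeff ((p - 1) • toF x.2.1) (Gf D N γ x.1) -
            coeff ((p - 1) • toF x.2.1) (lead D a N γ x.1)) +
            coeff ((p - 1) • toF x.2.1) (lead D a N γ x.1) := by ring
        rw [h2, IsUltrametricDist.norm_add_eq_max_of_norm_ne_norm h1.ne, max_eq_right h1.le, hlead]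
      rw [Matrix.smul_apply, hent, hv, smul_eq_mul, norm_mul, hnorm, hβ, wt_smul]
      simp only [Wx]
      ring
    · -- off-diagonal entries
      intro x hx y hy hxy
      have hposR : 0 < r ^ Wx ω y * β y := mul_pos (by positivity) (hβpos y)
      rw [Matrix.smul_apply, smul_eq_mul, norm_mul]
      by_cases h1 : y.1 = rho p s x.1
      swap
      · have : Cmat p (Gf D N γ) (rho p s) Finset.univ B x y = 0 := by
          unfold Cmat
          rw [if_neg h1]
        rw [this, norm_zero, mul_zero, mul_zero]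
        exact hposR
      by_cases h2 : toF x.2.1 ≤ p • toF y.2.1
      swap
      · have : Cmat p (Gf D N γ) (rho p s) Finset.univ B x y = 0 := by
          unfold Cmat
          rw [if_pos h1, if_neg h2]
        rw [this, norm_zero, mul_zero, mul_zero]
        exact hposR
      have hent : Cmat p (Gf D N γ) (rho p s) Finset.univ B x y =
          coeff (p • toF y.2.1 - toF x.2.1) (Gf D N γ x.1) := by
        unfold Cmat
        rw [if_pos h1, if_pos h2]
      have hne : x.2 ≠ y.2 := fun h => hxy (Prod.ext h1 h.symm)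
      have hex : ∃ i, ¬ a i ∣ (p • toF y.2.1 - toF x.2.1) i := by
        by_contra hcon
        push Not at hcon
        apply hne
        refine Subtype.ext (funext fun i => Fin.ext ?_)
        have h3 := hcon i
        rw [Finsupp.tsub_apply, Finsupp.smul_apply, smul_eq_mul, toF_apply, toF_apply] at h3
        have h4 := h2 i
        rw [Finsupp.smul_apply, smul_eq_mul, toF_apply, toF_apply] at h4
        have h5 := hcoord x hx i
        have h6 := hcoord y hy i
        have h7 : (a i : ℤ) ∣ (p : ℤ) * (y.2.1 i : ℕ) - (x.2.1 i : ℕ) := by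
          have h8 : ((p * (y.2.1 i : ℕ) - (x.2.1 i : ℕ) : ℕ) : ℤ) =
              (p : ℤ) * (y.2.1 i : ℕ) - (x.2.1 i : ℕ) := by
            rw [Nat.cast_sub h4]
            push_cast
            ring
          rw [← h8]
          exact_mod_cast h3
        have h8 : (a i : ℤ) ∣ ((p : ℤ) - 1) * (y.2.1 i : ℕ) := by
          have h9 : (a i : ℤ) ∣ ((p - 1 : ℕ) : ℤ) := by exact_mod_cast hap i
          rw [Nat.cast_sub hp.1.one_lt.le] at h9
          push_cast at h9
          exact h9.mul_right _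
        have h9 : (a i : ℤ) ∣ ((y.2.1 i : ℕ) : ℤ) - ((x.2.1 i : ℕ) : ℤ) := by
          have h10 := dvd_sub h7 h8
          have h11 : (p : ℤ) * (y.2.1 i : ℕ) - (x.2.1 i : ℕ) - ((p : ℤ) - 1) * (y.2.1 i : ℕ) =
              ((y.2.1 i : ℕ) : ℤ) - ((x.2.1 i : ℕ) : ℤ) := by ring
          rwa [h11] at h10
        have h10 : ((y.2.1 i : ℕ) : ℤ) - ((x.2.1 i : ℕ) : ℤ) = 0 := by
          refine Int.eq_zero_of_abs_lt_dvd h9 ?_
          rw [abs_lt]
          constructor
          · omega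
          · omega
        omega
      have hcoef0 := coeff_lead_zero hf D (N := N) (γ := γ) x.1 hex
      have hdiff := Gf_lead hf D hs hr hr1.le hγ (lt_of_lt_of_le hp.1.pos hN) (N := N) x.1
        (p • toF y.2.1 - toF x.2.1)
      rw [coeff_sub, hcoef0, sub_zero] at hdiff
      rw [hent]
      have h11 : r ^ Wx ω x * (‖(p : PadicAlgCl p)⁻¹‖ *
          ‖coeff (p • toF y.2.1 - toF x.2.1) (Gf D N γ x.1)‖) ≤
          r ^ Wx ω x * (‖(p : PadicAlgCl p)⁻¹‖ *
            r ^ (wt ω (p • toF y.2.1 - toF x.2.1) + 1)) := by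
        refine mul_le_mul_of_nonneg_left (mul_le_mul_of_nonneg_left hdiff (norm_nonneg _))
          (by positivity)
      refine lt_of_le_of_lt h11 ?_
      have h12 : r ^ Wx ω y * β y = r ^ Wx ω x * (‖(p : PadicAlgCl p)⁻¹‖ *
          r ^ (wt ω (p • toF y.2.1 - toF x.2.1))) := by
        rw [hβ]
        have h13 := wt_tsub ω h2
        have h14 : Wx ω y + (p - 1) * Wx ω y = p * Wx ω y := wadd hp.1.ne_zero _
        calc r ^ Wx ω y * (r ^ ((p - 1) * Wx ω y) * ‖(p : PadicAlgCl p)⁻¹‖) =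
            ‖(p : PadicAlgCl p)⁻¹‖ * (r ^ (Wx ω y + (p - 1) * Wx ω y)) := by rw [pow_add]; ring
          _ = ‖(p : PadicAlgCl p)⁻¹‖ * (r ^ (wt ω (p • toF y.2.1 - toF x.2.1) +
              wt ω (toF x.2.1))) := by rw [h14, h13]; rfl
          _ = _ := by rw [pow_add]; simp only [Wx]; ring
      rw [h12]
      have hpinvpos : 0 < ‖(p : PadicAlgCl p)⁻¹‖ := by rw [hpinv]; positivity
      refine mul_lt_mul_of_pos_left (mul_lt_mul_of_pos_left ?_ hpinvpos) (by positivity)
      exact pow_lt_pow_right_of_lt_one₀ hr hr1 (Nat.lt_succ_self _)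
  intro S hS
  rcases hS with rfl | rfl
  · refine hexact _ (fun x hx => ?_) fun x hx => ?_
    · rw [hfil1, Finset.mem_filter] at hx
      exact hx.2.le
    · rw [hfil1, Finset.mem_filter] at hx ⊢
      exact ⟨Finset.mem_univ _, hx.2⟩
  · refine hexact _ (fun x hx => ?_) fun x hx => ?_
    · rw [hfil2, Finset.mem_filter] at hx
      exact hx.2
    · rw [hfil2, Finset.mem_filter] at hx ⊢
      exact ⟨Finset.mem_univ _, hx.2⟩

end Bd

end Pool.Agent.N867.AS
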