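import Mathlib

/-!
# Power series and power sums
-/

set_option autoImplicit false

open PowerSeries

namespace Pool.Agent.N867.AS

variable {K : Type*} [Field K]

/-- the series `∑_{m≥1} s m X^m` -/
noncomputable def pser (s : ℕ → K) : K⟦X⟧ := PowerSeries.mk fun n => if n = 0 then 0 else s n

/-- `F` has constant term one and logarithmic derivative `X F'/F = -∑_{m≥1} s m X^m`. -/
def HasPS (F : K⟦X⟧) (s : ℕ → K) : Prop :=
  constantCoeff F = 1 ∧ X * d⁄dX K F = - (F * pser s)

theorem pser_add (s t : ℕ → K) : pser (fun m => s m + t m) = pser s + pser t := by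
  ext n
  simp only [pser, coeff_mk, map_add]
  split_ifs <;> simp

theorem pser_congr {s t : ℕ → K} (h : ∀ m, m ≠ 0 → s m = t m) : pser s = pser t := by
  ext n
  simp only [pser, coeff_mk]
  split_ifs with h0
  · rfl
  · exact h n h0

theorem HasPS.congr {F : K⟦X⟧} {s t : ℕ → K} (hF : HasPS F s) (h : ∀ m, m ≠ 0 → s m = t m) :
    HasPS F t := by
  unfold HasPS at *
  rw [← pser_congr h]
  exact hF

theorem HasPS.mul {F G : K⟦X⟧} {s t : ℕ → K} (hF : HasPS F s) (hG : HasPS G t) :
    HasPS (F * G) (fun m => s m + t m) := by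
  refine ⟨by rw [map_mul, hF.1, hG.1, one_mul], ?_⟩
  rw [pser_add, Derivation.leibniz]
  have h1 := hF.2
  have h2 := hG.2
  simp only [smul_eq_mul]
  calc X * (F * (d⁄dX K) G + G * (d⁄dX K) F) =
      F * (X * (d⁄dX K) G) + G * (X * (d⁄dX K) F) := by ring
    _ = _ := by rw [h1, h2]; ring

theorem HasPS.one : HasPS (1 : K⟦X⟧) (fun _ => 0) := by
  refine ⟨by simp, ?_⟩
  have : pser (fun _ => (0 : K)) = 0 := by
    ext n
    simp [pser]
  rw [this, derivative_one]
  simp

theorem HasPS.prod {ι : Type*} (S : Finset ι) {F : ι → K⟦X⟧} {s : ι → ℕ → K}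
    (h : ∀ i ∈ S, HasPS (F i) (s i)) : HasPS (∏ i ∈ S, F i) (fun m => ∑ i ∈ S, s i m) := by
  classical
  induction S using Finset.induction_on with
  | empty => simpa using HasPS.one
  | insert a S ha ih =>
    rw [Finset.prod_insert ha]
    have h1 := (h a (Finset.mem_insert_self a S)).mul
      (ih fun i hi => h i (Finset.mem_insert_of_mem hi))
    refine h1.congr fun m _ => ?_
    rw [Finset.sum_insert ha]

theorem coeff_mul_pser (F : K⟦X⟧) (s : ℕ → K) (n : ℕ) :
    coeff (n + 1) (F * pser s) =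
      ∑ j ∈ Finset.range (n + 1), s (j + 1) * coeff (n + 1 - 1 - j) F := by
  rw [mul_comm F, coeff_mul, Finset.Nat.sum_antidiagonal_eq_sum_range_succ
      (fun i j => coeff i (pser s) * coeff j F), Finset.sum_range_succ']
  have h0 : coeff 0 (pser s) = 0 := by simp [pser]
  rw [h0, zero_mul, add_zero]
  refine Finset.sum_congr rfl fun j hj => ?_
  rw [pser, coeff_mk, if_neg (Nat.succ_ne_zero j)]
  have : n + 1 - (j + 1) = n + 1 - 1 - j := by omega
  rw [this]

theorem HasPS.coeff_eq {F : K⟦X⟧} {s : ℕ → K} (h : HasPS F s) (n : ℕ) :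
    (n : K) * coeff n F = - ∑ j ∈ Finset.range n, s (j + 1) * coeff (n - 1 - j) F := by
  rcases n with _ | n
  · simp
  have h1 := congrArg (coeff (n + 1)) h.2
  rw [coeff_succ_X_mul, coeff_derivative, map_neg] at h1
  rw [show ((n + 1 : ℕ) : K) * coeff (n + 1) F = coeff (n + 1) F * ((n : K) + 1) by
    push_cast; ring, h1, coeff_mul_pser]

theorem hasPS_of_coeff [CharZero K] {F : K⟦X⟧} {s : ℕ → K} (h0 : constantCoeff F = 1)
    (h : ∀ n : ℕ, n ≠ 0 →
      (n : K) * coeff n F = - ∑ j ∈ Finset.range n, s (j + 1) * coeff (n - 1 - j) F) :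
    HasPS F s := by
  refine ⟨h0, ?_⟩
  ext n
  rcases n with _ | n
  · simp [pser]
  rw [coeff_succ_X_mul, coeff_derivative, map_neg]
  rw [show coeff (n + 1) F * ((n : K) + 1) = ((n + 1 : ℕ) : K) * coeff (n + 1) F by
    push_cast; ring, h (n + 1) (Nat.succ_ne_zero n), coeff_mul_pser]

theorem HasPS.unique [CharZero K] {F G : K⟦X⟧} {s : ℕ → K} (hF : HasPS F s) (hG : HasPS G s) :
    F = G := by
  ext n
  induction n using Nat.strong_induction_on with
  | _ n ih =>
    rcases n with _ | n
    · have h1 := hF.1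
      have h2 := hG.1
      rw [← coeff_zero_eq_constantCoeff_apply] at h1 h2
      rw [h1, h2]
    · have h1 := hF.coeff_eq (n + 1)
      have h2 := hG.coeff_eq (n + 1)
      have h3 : ((n + 1 : ℕ) : K) ≠ 0 := Nat.cast_ne_zero.2 (Nat.succ_ne_zero n)
      apply mul_left_cancel₀ h3
      rw [h1, h2]
      congr 1
      refine Finset.sum_congr rfl fun j hj => ?_
      rw [ih (n + 1 - 1 - j) (by omega)]

theorem HasPS.inv {F : K⟦X⟧} {s : ℕ → K} (hF : HasPS F s) :
    HasPS F⁻¹ (fun m => - s m) := by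
  have hF0 : constantCoeff F ≠ 0 := by rw [hF.1]; exact one_ne_zero
  refine ⟨by rw [PowerSeries.constantCoeff_inv, hF.1, inv_one], ?_⟩
  have h1 : pser (fun m => - s m) = - pser s := by
    ext n
    simp only [pser, coeff_mk, map_neg]
    split_ifs <;> simp
  rw [h1, derivative_inv']
  have h2 := hF.2
  calc X * (-F⁻¹ ^ 2 * (d⁄dX K) F) = -F⁻¹ ^ 2 * (X * (d⁄dX K) F) := by ring
    _ = F⁻¹ * (F⁻¹ * F) * pser s := by rw [h2]; ring
    _ = _ := by rw [PowerSeries.inv_mul_cancel F hF0]; ring

theorem HasPS.cancel {F G : K⟦X⟧} {s t : ℕ → K} (h : HasPS (F * G) s)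
    (hG : HasPS G t) : HasPS F (fun m => s m - t m) := by
  have hG0 : constantCoeff G ≠ 0 := by rw [hG.1]; exact one_ne_zero
  have h1 := h.mul hG.inv
  rw [mul_assoc, PowerSeries.mul_inv_cancel G hG0, mul_one] at h1
  exact h1.congr fun m _ => by ring

/-- rescaling -/
theorem HasPS.rescale [CharZero K] {F : K⟦X⟧} {s : ℕ → K} (hF : HasPS F s) (c : K) :
    HasPS (PowerSeries.rescale c F) (fun m => c ^ m * s m) := by
  refine hasPS_of_coeff ?_ ?_
  · rw [← coeff_zero_eq_constantCoeff_apply, coeff_rescale, pow_zero, one_mul,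
      coeff_zero_eq_constantCoeff_apply, hF.1]
  · intro n hn
    rw [coeff_rescale, mul_left_comm, hF.coeff_eq n, mul_neg, Finset.mul_sum]
    congr 1
    refine Finset.sum_congr rfl fun j hj => ?_
    rw [coeff_rescale]
    have h1 : c ^ n = c ^ (j + 1) * c ^ (n - 1 - j) := by
      rw [← pow_add]
      congr 1
      have := Finset.mem_range.1 hj
      omega
    rw [h1]
    ring

/-- `1 - a X` -/
theorem hasPS_one_sub (a : K) : HasPS (1 - C a * X : K⟦X⟧) (fun m => a ^ m) := by
  refine ⟨by simp, ?_⟩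
  rw [map_sub, derivative_one, Derivation.leibniz, derivative_C, derivative_X]
  ext n
  rcases n with _ | n
  · simp [pser]
  · simp only [smul_eq_mul, mul_zero, add_zero, mul_one, zero_sub, coeff_succ_X_mul,
      map_neg, sub_mul, one_mul, mul_assoc, map_sub, coeff_C_mul]
    rcases n with _ | n
    · simp [pser]
    · simp [pser, pow_succ]
      ring

theorem hasPS_multiset (s : Multiset K) :
    HasPS ((s.map fun a => (1 - C a * X : K⟦X⟧)).prod) (fun m => (s.map fun a => a ^ m).sum) := by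
  induction s using Multiset.induction_on with
  | empty => simpa using HasPS.one
  | cons a s ih =>
    rw [Multiset.map_cons, Multiset.prod_cons]
    refine ((hasPS_one_sub a).mul ih).congr fun m _ => ?_
    rw [Multiset.map_cons, Multiset.sum_cons]

end Pool.Agent.N867.AS
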