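import Pool.Agent.N867.AS.ASRing

/-!
# Primitive elements in `κ[t][x][y]/(y^p - y - f)`
-/

set_option autoImplicit false
set_option linter.unusedSectionVars false

namespace Pool.Agent.N867.AS

namespace ASR

open Polynomial

variable {B B' : Type} [CommRing B] [CommRing B'] {p : ℕ}

theorem asMap_aux (p : ℕ) (φ : B →+* B') (f : B) :
    (Phi p f).eval₂ ((AdjoinRoot.of (Phi p (φ f))).comp φ) (yy p (φ f)) = 0 := by
  have h1 : Phi p f = X ^ p - X - C f := rfl
  have h2 := yy_spec (p := p) (φ f)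
  rw [h1, eval₂_sub, eval₂_sub, eval₂_X_pow, eval₂_X, eval₂_C, h2, sub_eq_zero]
  rfl

/-- functoriality -/
noncomputable def asMap (p : ℕ) (φ : B →+* B') (f : B) : AS p f →+* AS p (φ f) :=
  AdjoinRoot.lift ((AdjoinRoot.of (Phi p (φ f))).comp φ) (yy p (φ f)) (asMap_aux p φ f)

theorem asMap_of (φ : B →+* B') (f : B) (c : B) :
    asMap p φ f (AdjoinRoot.of (Phi p f) c) = AdjoinRoot.of (Phi p (φ f)) (φ c) := by
  unfold asMap
  rw [AdjoinRoot.lift_of]
  rfl

theorem asMap_yy (φ : B →+* B') (f : B) : asMap p φ f (yy p f) = yy p (φ f) := by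
  unfold asMap
  exact AdjoinRoot.lift_root _

theorem asMap_mk (φ : B →+* B') (f : B) (P : B[X]) :
    asMap p φ f (AdjoinRoot.mk (Phi p f) P) = AdjoinRoot.mk (Phi p (φ f)) (P.map φ) := by
  unfold asMap
  rw [AdjoinRoot.lift_mk]
  have h : AdjoinRoot.mk (Phi p (φ f)) (P.map φ) =
      (P.map φ).eval₂ (AdjoinRoot.of (Phi p (φ f))) (yy p (φ f)) := by
    have := AdjoinRoot.aeval_eq (f := Phi p (φ f)) (P.map φ)
    rw [← this]
    rfl
  rw [h, eval₂_map]

section prim

variable {κ : Type} [Field κ] (hp : p.Prime) {f : κ[X][X]} (hf : f.Monic)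
  (hfN : ¬ p ∣ f.natDegree)

/-- constants -/
noncomputable def cst (p : ℕ) (f : κ[X][X]) : κ[X] →+* AS p f :=
  (AdjoinRoot.of (Phi p f)).comp C

section red

variable {M : Type} [Field M] (q : κ[X] →+* M) {π : κ[X]} (hq : ∀ c, q c = 0 ↔ π ∣ c)

/-- the reduction at a prime -/
noncomputable def redq (p : ℕ) (f : κ[X][X]) : AS p f →+* AS p (mapRingHom q f) :=
  asMap p (mapRingHom q) f

theorem redq_def (p : ℕ) (f : κ[X][X]) : redq q p f = asMap p (mapRingHom q) f := rfl

include hp

include hq in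
theorem redq_ker (x : AS p f) (hx : redq q p f x = 0) : cst p f π ∣ x := by
  obtain ⟨P, hP, rfl⟩ := exists_rep hp.one_lt x
  rw [redq_def, asMap_mk] at hx
  have h1 := rep_unique hp.one_lt (lt_of_le_of_lt natDegree_map_le hP) hx
  -- all coefficients are divisible by `π`
  have h2 : ∀ m, C π ∣ P.coeff m := by
    intro m
    have h3 : (P.coeff m).map q = 0 := by
      have := congrArg (fun Q => Q.coeff m) h1
      simpa only [coeff_map, coe_mapRingHom, coeff_zero] using this
    rw [C_dvd_iff_dvd_coeff]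
    intro i
    have h5 := congrArg (fun Q => Q.coeff i) h3
    simp only [coeff_map, coeff_zero] at h5
    exact (hq _).1 h5
  choose c hc using h2
  refine ⟨AdjoinRoot.mk (Phi p f) (∑ m ∈ Finset.range p, monomial m (c m)), ?_⟩
  have h3 : P = C (C π) * ∑ m ∈ Finset.range p, monomial m (c m) := by
    rw [Finset.mul_sum]
    conv_lhs => rw [as_sum_range' P p hP]
    refine Finset.sum_congr rfl fun m _ => ?_
    rw [C_mul_monomial, hc]
  conv_lhs => rw [h3]
  rw [map_mul]
  rfl

omit hp in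
include hq in
theorem redq_cst : redq q p f (cst p f π) = 0 := by
  rw [redq_def, cst, RingHom.comp_apply, asMap_of]
  have : mapRingHom q (C π) = 0 := by
    rw [coe_mapRingHom, map_C, (hq π).2 dvd_rfl, C_0]
  rw [this, map_zero]

include hf hfN

theorem isDomain_redq : IsDomain (AS p (mapRingHom q f)) := by
  refine isDomain_field (M := M) hp ?_
  rw [coe_mapRingHom, hf.natDegree_map]
  exact hfN

include hq in
theorem prime_cst' (x y : AS p f) (h : cst p f π ∣ x * y) :
    cst p f π ∣ x ∨ cst p f π ∣ y := by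
  have := isDomain_redq hp hf hfN q
  obtain ⟨z, hz⟩ := h
  have h1 := congrArg (redq q p f) hz
  rw [map_mul, map_mul, redq_cst q hq, zero_mul, mul_eq_zero] at h1
  rcases h1 with h1 | h1
  · exact Or.inl (redq_ker hp q hq x h1)
  · exact Or.inr (redq_ker hp q hq y h1)

include hq in
theorem cst_not_unit' : ¬ IsUnit (cst p f π) := by
  intro h
  have := isDomain_redq hp hf hfN q
  have h1 := h.map (redq q p f)
  rw [redq_cst q hq] at h1
  exact not_isUnit_zero h1

omit hf hfN in
include hq in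
theorem cst_dvd' {s : κ[X]} (h : cst p f π ∣ cst p f s) : π ∣ s := by
  obtain ⟨z, hz⟩ := h
  have h1 := congrArg (redq q p f) hz
  rw [map_mul, redq_cst q hq, zero_mul, redq_def, cst, RingHom.comp_apply, asMap_of] at h1
  have h2 : AdjoinRoot.mk (Phi p (mapRingHom q f)) (C (mapRingHom q (C s))) = 0 := h1
  have h3 := rep_unique hp.one_lt (by rw [natDegree_C]; exact hp.pos) h2
  rw [C_eq_zero, coe_mapRingHom, map_C, C_eq_zero] at h3
  exact (hq s).1 h3

omit hf hfN in
include hq in
theorem yy_sub' (j : κ[X][X]) : ¬ cst p f π ∣ (yy p f - AdjoinRoot.of (Phi p f) j) := by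
  intro h
  obtain ⟨z, hz⟩ := h
  have h1 := congrArg (redq q p f) hz
  rw [map_mul, redq_cst q hq, zero_mul, map_sub, redq_def, asMap_yy, asMap_of] at h1
  have h2 : AdjoinRoot.mk (Phi p (mapRingHom q f)) (X - C (mapRingHom q j)) = 0 := by
    rw [map_sub]
    exact h1
  have h3 := rep_unique hp.one_lt (by rw [natDegree_X_sub_C]; exact hp.one_lt) h2
  exact X_sub_C_ne_zero _ h3

end red

theorem exists_q {π : κ[X]} (hπ : Prime π) :
    ∃ (M : Type) (_ : Field M) (q : κ[X] →+* M), ∀ c, q c = 0 ↔ π ∣ c := by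
  have : Fact (Irreducible π) := ⟨hπ.irreducible⟩
  exact ⟨AdjoinRoot π, inferInstance, AdjoinRoot.mk π, fun c => AdjoinRoot.mk_eq_zero⟩

include hp hf hfN

theorem prime_cst {π : κ[X]} (hπ : Prime π) (x y : AS p f) (h : cst p f π ∣ x * y) :
    cst p f π ∣ x ∨ cst p f π ∣ y := by
  obtain ⟨M, _, q, hq⟩ := exists_q hπ
  exact prime_cst' hp hf hfN q hq x y h

theorem cst_not_unit {π : κ[X]} (hπ : Prime π) : ¬ IsUnit (cst p f π) := by
  obtain ⟨M, _, q, hq⟩ := exists_q hπ
  exact cst_not_unit' hp hf hfN q hq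

omit hf hfN in
theorem cst_dvd {π s : κ[X]} (hπ : Prime π) (h : cst p f π ∣ cst p f s) : π ∣ s := by
  obtain ⟨M, _, q, hq⟩ := exists_q hπ
  exact cst_dvd' hp q hq h

/-- primitive elements -/
def Prim (x : AS p f) : Prop := ∀ π : κ[X], Prime π → ¬ cst p f π ∣ x

omit hf hfN in
theorem prim_yy_sub (j : κ[X][X]) : Prim (yy p f - AdjoinRoot.of (Phi p f) j) := by
  intro π hπ
  obtain ⟨M, _, q, hq⟩ := exists_q hπ
  exact yy_sub' hp q hq j

theorem Prim.mul {x y : AS p f} (hx : Prim x) (hy : Prim y) : Prim (x * y) := by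
  intro π hπ h
  rcases prime_cst hp hf hfN hπ x y h with h1 | h1
  · exact hx π hπ h1
  · exact hy π hπ h1

theorem Prim.one : Prim (1 : AS p f) := by
  intro π hπ h
  exact cst_not_unit hp hf hfN hπ (isUnit_of_dvd_one h)

theorem Prim.prod {ι : Type*} (S : Finset ι) {x : ι → AS p f} (h : ∀ i ∈ S, Prim (x i)) :
    Prim (∏ i ∈ S, x i) := by
  classical
  induction S using Finset.induction_on with
  | empty => simpa using Prim.one hp hf hfN
  | insert a S ha ih =>
    rw [Finset.prod_insert ha]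
    exact (h a (Finset.mem_insert_self a S)).mul hp hf hfN
      (ih fun i hi => h i (Finset.mem_insert_of_mem hi))

theorem Prim.pow {x : AS p f} (hx : Prim x) (n : ℕ) : Prim (x ^ n) := by
  induction n with
  | zero => simpa using Prim.one hp hf hfN
  | succ n ih => rw [pow_succ]; exact ih.mul hp hf hfN hx

theorem exists_prim [IsDomain (AS p f)] (x : AS p f) (hx : x ≠ 0) :
    ∃ c : κ[X], c ≠ 0 ∧ ∃ x₀ : AS p f, x = cst p f c * x₀ ∧ Prim x₀ := by
  revert hx
  refine (wellFounded_dvdNotUnit (α := AS p f)).induction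
    (C := fun x => x ≠ 0 → ∃ c : κ[X], c ≠ 0 ∧ ∃ x₀ : AS p f, x = cst p f c * x₀ ∧ Prim x₀) x ?_
  intro x ih hx
  by_cases h : Prim x
  · exact ⟨1, one_ne_zero, x, by rw [map_one, one_mul], h⟩
  · unfold Prim at h
    push Not at h
    obtain ⟨π, hπ, z, hz⟩ := h
    have hz0 : z ≠ 0 := by
      rintro rfl
      rw [mul_zero] at hz
      exact hx hz
    obtain ⟨c, hc, x₀, hx₀, hprim⟩ := ih z ⟨hz0, cst p f π, cst_not_unit hp hf hfN hπ,
      by rw [hz, mul_comm]⟩ hz0
    exact ⟨π * c, mul_ne_zero hπ.ne_zero hc, x₀, by rw [hz, hx₀, map_mul, mul_assoc], hprim⟩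

theorem assoc_of_prim [IsDomain (AS p f)] {s s' : κ[X]} (hs : s ≠ 0) (hs' : s' ≠ 0)
    {x y : AS p f} (hx : Prim x)
    (hy : Prim y) (h : cst p f s * x = cst p f s' * y) : Associated s s' := by
  obtain ⟨s₁, s₁', d, hcop, h1, h2⟩ := UniqueFactorizationMonoid.exists_reduced_factors s hs s'
  have hd : d ≠ 0 := by
    rintro rfl
    rw [zero_mul] at h1
    exact hs h1.symm
  symm at h1 h2
  have hd' : cst p f d ≠ 0 := by
    intro h0
    have h3 : AdjoinRoot.mk (Phi p f) (C (C d)) = 0 := h0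
    have h4 := rep_unique hp.one_lt (by rw [natDegree_C]; exact hp.pos) h3
    rw [C_eq_zero, C_eq_zero] at h4
    exact hd h4
  have h3 : cst p f s₁ * x = cst p f s₁' * y := by
    rw [h1, h2, map_mul, map_mul, mul_assoc, mul_assoc] at h
    exact mul_left_cancel₀ hd' h
  have hunit : IsUnit s₁ := by
    by_contra hu
    have hs₁ : s₁ ≠ 0 := by
      rintro rfl
      rw [mul_zero] at h1
      exact hs h1
    obtain ⟨π, hπ, hπs⟩ := WfDvdMonoid.exists_irreducible_factor hu hs₁
    have hπ' := hπ.prime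
    have h4 : cst p f π ∣ cst p f s₁' * y := by
      rw [← h3]
      exact (map_dvd (cst p f) hπs).mul_right x
    rcases prime_cst hp hf hfN hπ' _ _ h4 with h5 | h5
    · exact hπ.not_isUnit (hcop hπs (cst_dvd hp hπ' h5))
    · exact hy π hπ' h5
  have hunit' : IsUnit s₁' := by
    by_contra hu
    have hs₁ : s₁' ≠ 0 := by
      rintro rfl
      rw [mul_zero] at h2
      exact hs' h2
    obtain ⟨π, hπ, hπs⟩ := WfDvdMonoid.exists_irreducible_factor hu hs₁
    have hπ' := hπ.prime
    have h4 : cst p f π ∣ cst p f s₁ * x := by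
      rw [h3]
      exact (map_dvd (cst p f) hπs).mul_right y
    rcases prime_cst hp hf hfN hπ' _ _ h4 with h5 | h5
    · exact hπ.not_isUnit (hcop (cst_dvd hp hπ' h5) hπs)
    · exact hx π hπ' h5
  rw [h1, h2]
  exact (associated_of_dvd_dvd (hunit.dvd) (hunit'.dvd)).mul_left d

end prim

end ASR

end Pool.Agent.N867.AS
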