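import Pool.Agent.N867.AS.G5

/-!
# The Dwork determinant at thresholds between two weights
-/

set_option autoImplicit false
set_option linter.unusedSectionVars false

namespace Pool.Agent.N867.AS

namespace GQ

open MvPolynomial Res Tr Bd RedS GW

variable {σ : Type} [Fintype σ] [DecidableEq σ]

variable {p : ℕ} [hp : Fact p.Prime] {ω : σ → ℕ} {f : MvPolynomial σ (k p)} {M s : ℕ}

theorem npW (hf : WF f ω M) (D : Lifts p f s) (hs : s ≠ 0) [NeZero s] [Nonempty σ]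
    {τ γ : PadicAlgCl p} (hτ : τ ≠ 0) (hτ1 : ‖τ‖ < 1) (hτγ : τ ^ M = γ)
    {N : ℕ} (hN : p ≤ N) (hMp : M ∣ p - 1) {W : ℕ} (hWM : W < M) (hord : ∀ w, w ≤ W → Ord f ω M w)
    {κ : PadicAlgCl p} (hκ0 : κ ≠ 0) (hκ1 : ‖κ‖ < ‖τ‖ ^ ((p - 1) * W))
    (hκ2 : ‖τ‖ ^ ((p - 1) * (W + 1)) < ‖κ‖) {B : ℕ} (hB : M ≤ B) :
    ∃ R, Minor.NP (fun n => ((κ⁻¹) •
        Cmat p (Gf D N γ) (rho p s) Finset.univ B).charpolyRev.coeff n)
      (Finset.univ.filter (fun x : (Fin (p - 1) × ZMod s) × Idx (Finset.univ : Finset σ) B =>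
        Wx ω x ≤ W)).card
      (Finset.univ.filter (fun x : (Fin (p - 1) × ZMod s) × Idx (Finset.univ : Finset σ) B =>
        Wx ω x ≤ W)).card R := by
  classical
  have hp2 := hp.1.two_le
  obtain ⟨r, hr⟩ : ∃ r : ℝ, r = ‖τ‖ := ⟨_, rfl⟩
  have hr0 : 0 < r := by rw [hr]; exact norm_pos_iff.2 hτ
  have hr1 : r < 1 := by rw [hr]; exact hτ1
  have hγ : ‖γ‖ = r ^ M := by rw [← hτγ, norm_pow, hr]
  rw [← hr] at hκ1 hκ2
  have hκn : 0 < ‖κ‖ := norm_pos_iff.2 hκ0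
  obtain ⟨A, hAdef⟩ : ∃ A, A = (κ⁻¹) •
    Cmat p (Gf D N γ) (rho p s) Finset.univ B := ⟨_, rfl⟩
  obtain ⟨α, hα⟩ : ∃ α : (Fin (p - 1) × ZMod s) × Idx (Finset.univ : Finset σ) B →
    PadicAlgCl p, ∀ x, α x = τ ^ Wx ω x := ⟨_, fun _ => rfl⟩
  obtain ⟨δ, hδ⟩ : ∃ δ : (Fin (p - 1) × ZMod s) × Idx (Finset.univ : Finset σ) B →
    PadicAlgCl p, ∀ y, δ y = τ ^ ((p - 1) * Wx ω y) * κ⁻¹ := ⟨_, fun _ => rfl⟩
  have hαn : ∀ x, ‖α x‖ = r ^ Wx ω x := fun x => by rw [hα, norm_pow, hr]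
  have hα0 : ∀ x, α x ≠ 0 := fun x => by rw [hα]; exact pow_ne_zero _ hτ
  have hδn : ∀ y, ‖δ y‖ = r ^ ((p - 1) * Wx ω y) * ‖κ‖⁻¹ := by
    intro y
    rw [hδ, norm_mul, norm_pow, ← hr, norm_inv]
  have hδle : ∀ x, Wx ω x ≤ W → 1 < ‖δ x‖ := by
    intro x hx
    rw [hδn, ← div_eq_mul_inv, one_lt_div hκn]
    refine lt_of_lt_of_le hκ1 ?_
    exact pow_le_pow_of_le_one hr0.le hr1.le (Nat.mul_le_mul_left _ hx)
  have hδgt : ∀ x, W < Wx ω x → ‖δ x‖ < 1 := by
    intro x hx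
    rw [hδn, ← div_eq_mul_inv, div_lt_one hκn]
    refine lt_of_le_of_lt ?_ hκ2
    exact pow_le_pow_of_le_one hr0.le hr1.le (Nat.mul_le_mul_left _ hx)
  have hA : ∀ x y, ‖α x * A x y‖ ≤ ‖α y * δ y‖ := by
    intro x y
    have h1 := entry_scaled D hf hs hr0 hr1.le hγ (N := N) Finset.univ B (κ⁻¹) x y
    rw [norm_mul, norm_mul, hαn, hαn, hδ, norm_mul, norm_pow, ← hr, hAdef]
    exact h1
  have hred := red_det A α δ hα0 hA
  -- the entries
  have hαA : ∀ x y, α x * A x y / (α y * δ y) = τ ^ Wx ω x *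
      Cmat p (Gf D N γ) (rho p s) Finset.univ B x y / τ ^ (p * Wx ω y) := by
    intro x y
    have h1 : τ ^ (p * Wx ω y) = τ ^ Wx ω y * τ ^ ((p - 1) * Wx ω y) := by
      rw [← pow_add, wadd hp.1.ne_zero]
    rw [hα, hα, hδ, hAdef, Matrix.smul_apply, smul_eq_mul, h1]
    have := pow_ne_zero (Wx ω y) hτ
    have := pow_ne_zero ((p - 1) * Wx ω y) hτ
    field_simp
  have hub_lt : ∀ x y, Wx ω y ≤ W → red p (α x * A x y / (α y * sc δ y)) =
      cb p f ω M N s B x y := by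
    intro x y hy
    have h1 : sc δ y = δ y := by
      unfold sc
      rw [if_pos (hδle y hy)]
    rw [h1, hαA]
    exact (ub_eq hf D hs hτ hτ1 hτγ (by omega) x y).2
  -- the blocks
  have hbig : ∀ x y, W < Wx ω y → Bbar A α δ x y = if x = y then 1 else 0 := by
    intro x y hy
    have h1 : ‖δ y‖ < 1 := hδgt y hy
    have h2 : sc δ y = 1 := by
      unfold sc
      rw [if_neg (not_lt.2 h1.le)]
    rw [Bbar, Matrix.of_apply, h2, mul_one]
    have h3 : ‖α x * A x y / α y‖ < 1 := by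
      rw [norm_div, div_lt_one (norm_pos_iff.2 (hα0 y))]
      refine lt_of_le_of_lt (hA x y) ?_
      rw [norm_mul]
      exact mul_lt_of_lt_one_right (norm_pos_iff.2 (hα0 y)) h1
    rw [(red_eq_zero h3.le).2 h3, Polynomial.C_0, mul_zero, sub_zero]
    by_cases h4 : x = y
    · rw [if_pos ⟨h4, not_lt.2 h1.le⟩, if_pos h4, Polynomial.C_1]
    · rw [if_neg (fun h => h4 h.1), if_neg h4, Polynomial.C_0]
  have hlt : ∀ x y, Wx ω y ≤ W → Bbar A α δ x y =
      - Polynomial.X * Polynomial.C (cb p f ω M N s B x y) := by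
    intro x y hy
    have h1 : 1 < ‖δ y‖ := hδle y hy
    rw [Bbar, Matrix.of_apply, if_neg (fun h => h.2 h1), Polynomial.C_0, zero_sub,
      hub_lt x y hy, neg_mul]
  have hdet := det_blocks (Wx ω) W (Bbar A α δ) hbig (by
    intro x y hx hy hne
    have h0 := cb_off hf hMp (N := N) (hx.trans hWM.le) (hy.trans hWM.le) hne
    rw [hlt x y hy, h0, map_zero, mul_zero])
  -- blocks of weight `≤ W`
  obtain ⟨d, hd⟩ : ∃ d : ℕ → k p, ∀ w, d w = ((Matrix.of (cb p f ω M N s B)).submatrix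
      (Subtype.val : {x : (Fin (p - 1) × ZMod s) × Idx (Finset.univ : Finset σ) B //
        Wx ω x = w} → _) Subtype.val).det := ⟨_, fun _ => rfl⟩
  have hblk : ∀ w ∈ Finset.range (W + 1), ((Bbar A α δ).submatrix
      (Subtype.val : {x : (Fin (p - 1) × ZMod s) × Idx (Finset.univ : Finset σ) B //
        Wx ω x = w} → _) Subtype.val).det = (-Polynomial.X) ^ (Fintype.card
        {x : (Fin (p - 1) × ZMod s) × Idx (Finset.univ : Finset σ) B // Wx ω x = w}) *
        Polynomial.C (d w) := by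
    intro w hw
    have hw' := Finset.mem_range.1 hw
    rw [hd, RingHom.map_det, ← Matrix.det_smul]
    congr 1
    ext1 x y
    rw [Matrix.submatrix_apply, hlt _ _ (by rw [y.2]; omega), Matrix.smul_apply,
      RingHom.mapMatrix_apply, Matrix.map_apply, Matrix.submatrix_apply, Matrix.of_apply,
      smul_eq_mul]
  rw [Finset.prod_congr rfl hblk, Finset.prod_mul_distrib, Finset.prod_pow_eq_pow_sum] at hdet
  have hcard : ∑ w ∈ Finset.range (W + 1), Fintype.card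
        {x : (Fin (p - 1) × ZMod s) × Idx (Finset.univ : Finset σ) B // Wx ω x = w} =
      (Finset.univ.filter (fun x : (Fin (p - 1) × ZMod s) × Idx (Finset.univ : Finset σ) B =>
        Wx ω x ≤ W)).card := by
    rw [Finset.card_eq_sum_card_fiberwise (f := fun x => Wx ω x) (t := Finset.range (W + 1))]
    · refine Finset.sum_congr rfl fun w hw => ?_
      rw [Fintype.card_subtype]
      congr 1
      ext x
      have hw' := Finset.mem_range.1 hw
      simp only [Finset.mem_filter, Finset.mem_univ, true_and]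
      constructor
      · intro h
        exact ⟨by omega, h⟩
      · exact fun h => h.2
    · intro x hx
      rw [Finset.mem_coe, Finset.mem_filter] at hx
      rw [Finset.mem_coe, Finset.mem_range]
      exact Nat.lt_succ_of_le hx.2
  rw [hcard] at hdet
  rw [hAdef] at hred
  obtain ⟨K, hK⟩ : ∃ K, K = (Finset.univ.filter (fun x : (Fin (p - 1) × ZMod s) ×
    Idx (Finset.univ : Finset σ) B => Wx ω x ≤ W)).card := ⟨_, rfl⟩
  rw [← hK] at hdet ⊢
  obtain ⟨w, hw⟩ : ∃ w : k p, w = (-1) ^ K * ∏ w ∈ Finset.range (W + 1), d w := ⟨_, rfl⟩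
  have hw0 : w ≠ 0 := by
    rw [hw]
    refine mul_ne_zero (pow_ne_zero _ (neg_ne_zero.2 one_ne_zero))
      (Finset.prod_ne_zero_iff.2 fun w hw => ?_)
    have hw' := Finset.mem_range.1 hw
    rw [hd]
    exact cb_det hf hMp hN (by omega) (by omega) (hord w (by omega))
  have h2 : (Bbar A α δ).det = Polynomial.C w * Polynomial.X ^ K := by
    rw [hdet, hw, neg_pow, map_mul, map_pow, map_neg, map_one, map_prod]
    ring
  rw [← hAdef, h2] at hred
  obtain ⟨c, hc⟩ : ∃ c, c = ∏ y, sc δ y := ⟨_, rfl⟩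
  rw [← hc] at hred
  obtain ⟨hc0, hred⟩ := hred
  have hcpos : 0 < ‖c‖ := norm_pos_iff.2 hc0
  have hcoef : ∀ n, ‖A.charpolyRev.coeff n‖ ≤ ‖c‖ ∧ (‖A.charpolyRev.coeff n‖ < ‖c‖ ↔ n ≠ K) := by
    intro n
    have h3 := hred n
    rw [Polynomial.coeff_coe, Polynomial.coeff_coe, Polynomial.coeff_C_mul,
      Polynomial.coeff_X_pow] at h3
    refine ⟨h3.1, ?_⟩
    have h4 := norm_div_le hc0 h3.1
    have h5 := red_eq_zero h4
    rw [h3.2, norm_div, div_lt_one hcpos] at h5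
    rw [← h5]
    by_cases h6 : n = K
    · rw [if_pos h6, mul_one]
      exact ⟨fun h => absurd h hw0, fun h => absurd h6 h⟩
    · rw [if_neg h6, mul_zero]
      exact ⟨fun _ => h6, fun _ => rfl⟩
  rw [← hAdef]
  have hKeq : ‖A.charpolyRev.coeff K‖ = ‖c‖ := by
    refine le_antisymm (hcoef K).1 (not_lt.1 fun h => ?_)
    exact ((hcoef K).2.1 h) rfl
  exact ⟨‖c‖, hcpos, fun n => (hcoef n).1, hKeq, hKeq, fun n hn => (hcoef n).2.2 (by omega),
    fun n hn => (hcoef n).2.2 (by omega)⟩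

end GQ

end Pool.Agent.N867.AS
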