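import Pool.Agent.N867.AS.Q4
import Pool.Agent.N867.AS.V7

/-!
# Slopes and residues of the eigenvalues
-/

set_option autoImplicit false
set_option linter.unusedSectionVars false

namespace Pool.Agent.N867.AS

namespace GQ

open MvPolynomial Res Tr Bd RedS GW TV Pool.Agent.N867.AS.Trans

variable {p : ℕ} [hp : Fact p.Prime] {κ : Type} [Field κ] {a b g : ℕ}

theorem res_pow {F : Type} [Field F] [IsAlgClosed F] {s e : ℕ} (hs : s ≠ 0)
    (n : Fin e → ℕ) (D : Polynomial F) {q : ℕ}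
    (hD : D * (1 - Polynomial.X ^ s) ^ q = (∏ i, (1 - Polynomial.X ^ (s * n i))) ^ q)
    (L : Multiset F) {w w' : F} (hw' : w' ≠ 0) (a b : ℕ)
    (h : Polynomial.C w' * Polynomial.X ^ b * D = Polynomial.C w * (Polynomial.X ^ a *
      (L.map fun l => (1 - Polynomial.C l * Polynomial.X ^ s : Polynomial F)).prod))
    {l : F} (hl : l ∈ L) (hl0 : l ≠ 0) : ∃ i, l ^ n i = 1 := by
  obtain ⟨θ, hθ⟩ : ∃ θ : F, θ ^ s = l⁻¹ := IsAlgClosed.exists_pow_nat_eq _ (Nat.pos_of_ne_zero hs)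
  have hθ0 : θ ≠ 0 := by
    rintro rfl
    rw [zero_pow hs] at hθ
    exact inv_ne_zero hl0 hθ.symm
  have h1 := congrArg (Polynomial.eval θ) h
  have h2 : Polynomial.eval θ
      (L.map fun l => (1 - Polynomial.C l * Polynomial.X ^ s : Polynomial F)).prod = 0 := by
    rw [← Polynomial.coe_evalRingHom, map_multiset_prod, Multiset.map_map]
    refine Multiset.prod_eq_zero ?_
    rw [Multiset.mem_map]
    refine ⟨l, hl, ?_⟩
    simp only [Function.comp_apply, Polynomial.coe_evalRingHom, Polynomial.eval_sub,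
      Polynomial.eval_one, Polynomial.eval_mul, Polynomial.eval_C, Polynomial.eval_pow,
      Polynomial.eval_X]
    rw [hθ, mul_inv_cancel₀ hl0, sub_self]
  rw [Polynomial.eval_mul, Polynomial.eval_mul (p := Polynomial.C w), Polynomial.eval_mul
    (p := Polynomial.X ^ a), h2, mul_zero, mul_zero, Polynomial.eval_mul, Polynomial.eval_C,
    Polynomial.eval_pow, Polynomial.eval_X] at h1
  have h3 : Polynomial.eval θ D = 0 :=
    (mul_eq_zero.1 h1).resolve_left (mul_ne_zero hw' (pow_ne_zero _ hθ0))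
  have h4 := congrArg (Polynomial.eval θ) hD
  rw [Polynomial.eval_mul, h3, zero_mul, Polynomial.eval_pow, Polynomial.eval_prod] at h4
  have h5 : ∏ i, Polynomial.eval θ (1 - Polynomial.X ^ (s * n i)) = 0 :=
    eq_zero_of_pow_eq_zero h4.symm
  obtain ⟨i, -, hi⟩ := Finset.prod_eq_zero_iff.1 h5
  refine ⟨i, ?_⟩
  rw [Polynomial.eval_sub, Polynomial.eval_one, Polynomial.eval_pow, Polynomial.eval_X,
    pow_mul, hθ, inv_pow, sub_eq_zero] at hi
  rw [← inv_inv (l ^ n i), ← hi, inv_one]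

/-- slopes and residues -/
theorem info (ha : a ≠ 0) (hb : b ≠ 0) (hab : a.Coprime b) (hg : g ≠ 0)
    (hga : g * a ∣ p - 1) (hgb : g * b ∣ p - 1) (f : Polynomial (Polynomial κ))
    (hwt : ∀ m n, (f.coeff m).coeff n ≠ 0 → b * m + a * n ≤ g * (a * b))
    (hord : ∀ w, 0 < w → w < g * (a * b) →
      (TV.hw p a b w ((p - 1) * w / (g * (a * b))) f).det ≠ 0) {e : ℕ}
    (P : Fin e → Polynomial κ) (hirr : ∀ i, Irreducible (P i)) (hmon : ∀ i, (P i).Monic)
    (hne : Pairwise fun i j => IsCoprime (P i) (P j)) (htop : topPoly a b g f = ∏ i, P i)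
    (hdeg : (∏ i, P i).natDegree = g) [Fintype κ] [CharP κ p] {s : ℕ}
    (hs : Fintype.card κ = p ^ s)
    (L : Polynomial ℚ) (hL0 : L.coeff 0 = 1)
    (hL : PowerSeries.X * PowerSeries.derivative ℚ (L : PowerSeries ℚ) =
      (L : PowerSeries ℚ) * PowerSeries.mk (fun m => if m = 0 then 0 else
        ((Fintype.card κ : ℚ) ^ (2 * m) - (Npts p f (Fintype.card κ ^ m) : ℚ))))
    [DecidableEq ℝ] [DecidableEq (k p)] :
    (∀ ρ ∈ (L.map (algebraMap ℚ (PadicAlgCl p))).roots, ‖(p : PadicAlgCl p)‖ ^ s < ‖ρ⁻¹‖ →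
      ∃ w, 0 < w ∧ w < g * (a * b) ∧
        ‖ρ⁻¹‖ ^ (g * (a * b)) = ‖(p : PadicAlgCl p)‖ ^ (s * w)) ∧
    (∀ ρ ∈ (L.map (algebraMap ℚ (PadicAlgCl p))).roots, ‖ρ⁻¹‖ = ‖(p : PadicAlgCl p)‖ ^ s →
      ∃ i, red p (ρ⁻¹ * ((p : PadicAlgCl p)⁻¹) ^ s) ^ (P i).natDegree = 1) ∧
    (L.map (algebraMap ℚ (PadicAlgCl p))).roots.countP
      (fun ρ => ‖ρ⁻¹‖ = ‖(p : PadicAlgCl p)‖ ^ s ∧
        red p (ρ⁻¹ * ((p : PadicAlgCl p)⁻¹) ^ s) = 1) ≤ (p - 1) * (e - 1) := by
  classical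
  have hp2 := hp.1.two_le
  have hpne : (p : PadicAlgCl p) ≠ 0 := Nat.cast_ne_zero.2 hp.1.ne_zero
  have hpn0 : 0 < ‖(p : PadicAlgCl p)‖ := norm_pos_iff.2 hpne
  have hs0 : s ≠ 0 := by
    rintro rfl
    rw [pow_zero] at hs
    exact absurd hs (Fintype.one_lt_card (α := κ)).ne'
  have : NeZero s := ⟨hs0⟩
  have hM := dvd_M hab hg hga hgb
  have hp1 : p - 1 ≠ 0 := by omega
  have hgp : g < p := by
    have := Nat.le_of_dvd (Nat.pos_of_ne_zero hp1) ((dvd_mul_right g a).trans hga)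
    omega
  -- the embedding of the algebraic closure
  obtain ⟨φ⟩ : Nonempty (AlgebraicClosure κ →+* Res.k p) := by
    have hch : CharP (AlgebraicClosure κ) p :=
      charP_of_injective_algebraMap (algebraMap κ (AlgebraicClosure κ)).injective p
    let _ : Algebra (ZMod p) κ := ZMod.algebra κ p
    have _ : IsScalarTower (ZMod p) κ (AlgebraicClosure κ) := inferInstance
    have _ : Algebra.IsAlgebraic (ZMod p) κ := Algebra.IsAlgebraic.of_finite _ _
    have _ : Algebra.IsAlgebraic (ZMod p) (AlgebraicClosure κ) :=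
      Algebra.IsAlgebraic.trans (ZMod p) κ (AlgebraicClosure κ)
    let _ : Algebra (ZMod p) (Res.k p) := ZMod.algebra _ p
    exact ⟨(IsAlgClosed.lift (R := ZMod p) (S := AlgebraicClosure κ) (M := Res.k p)).toRingHom⟩
  obtain ⟨φκ, hφκ⟩ : ∃ φκ : κ →+* Res.k p, φκ = φ.comp (algebraMap κ (AlgebraicClosure κ)) :=
    ⟨_, rfl⟩
  have hWF := WF_Ψ ha hb hg hwt φκ
  have hfs : ∀ μ, coeff μ (Ψ φκ f) ^ p ^ s = coeff μ (Ψ φκ f) := by
    intro μ
    rw [coeff_Ψ, ← map_pow, ← hs, FiniteField.pow_card]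
  -- the power series
  let c : ℚ →+* PadicAlgCl p := algebraMap ℚ (PadicAlgCl p)
  have hPS : HasPS (L : PowerSeries ℚ) (fun m =>
      (Npts p f (Fintype.card κ ^ m) : ℚ) - (Fintype.card κ : ℚ) ^ (2 * m)) := by
    refine ⟨?_, ?_⟩
    · rw [← PowerSeries.coeff_zero_eq_constantCoeff_apply, Polynomial.coeff_coe, hL0]
    · rw [hL, ← mul_neg]
      congr 1
      ext m
      rw [pser, map_neg, PowerSeries.coeff_mk, PowerSeries.coeff_mk]
      split_ifs
      · rw [neg_zero]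
      · ring
  have hPS2 := hPS.map c
  have hPS3 : HasPS ((L.map c : Polynomial (PadicAlgCl p)) : PowerSeries (PadicAlgCl p)) (fun m =>
      (Res.npts (Ψ φκ f) (p ^ (s * m)) : PadicAlgCl p) -
      ((p ^ (s * m) : ℕ) : PadicAlgCl p) ^ Fintype.card (Fin 2)) := by
    rw [Polynomial.polynomial_map_coe] at *
    refine ⟨hPS2.1, ?_⟩
    rw [hPS2.2]
    congr 2
    refine pser_congr fun m hm => ?_
    have hQ : 1 < p ^ (s * m) := Nat.one_lt_pow (mul_ne_zero hs0 hm) hp.1.one_lt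
    rw [hφκ, npts_eq_Npts p φ f hQ, hs, ← pow_mul, map_sub, map_natCast, map_pow,
      map_natCast, Fintype.card_fin]
    push_cast
    congr 1
    rw [← pow_mul, ← pow_mul]
    congr 1
    ring
  -- nondegeneracy
  have hord' : ∀ w, w < g * (a * b) → Ord (Ψ φκ f) ![b, a] (g * (a * b)) w := by
    intro w hw
    rcases Nat.eq_zero_or_pos w with rfl | hw0
    · refine ord_Ψ ha hb hg hwt φκ hM ?_
      have : IsEmpty (Lat a b 0) := by
        refine ⟨fun u => ?_⟩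
        have h1 := u.2.1
        have h2 := u.1.1.2
        omega
      rw [Matrix.det_isEmpty]
      exact one_ne_zero
    · exact ord_Ψ ha hb hg hwt φκ hM (hord w hw0 hw)
  obtain ⟨g', rfl⟩ : ∃ g', g = g' + 1 := ⟨g - 1, by omega⟩
  obtain ⟨E, hE⟩ := exists_EM ha hb hab g'
  obtain ⟨w, w', α, β, hw, hw', heq⟩ := count_oneL hWF hM (by simp) (by simp) hs0 hfs
    hord' E (L.map c) hPS3
  -- the determinant
  obtain ⟨Hz, hHz⟩ : ∃ Hz : ZMod s → Polynomial (k p), ∀ j,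
      Hz j = ((∏ i, P i).map φκ).map (Fr p j.val) := ⟨_, fun _ => rfl⟩
  have hHf : Hf a b (g' + 1) (Ψ φκ f) = (∏ i, P i).map φκ := by rw [Hf_Ψ, htop]
  have hDM := DM_eq (s := s) (f := Ψ φκ f) (fun i => (E i).1) Hz (fun j u v => by
    rw [hE, hE, NN_M ha hb hab hWF hgp j.val (by have := u.2; omega) (by have := v.2; omega),
      hHf, hHz])
  have hdet := VR.det_roots φκ P hne hs hirr hmon hdeg hgp Hz hHz
  have hD : DM (Ψ φκ f) s (fun i => (E i).1) * (1 - Polynomial.X ^ s) ^ (p - 1) =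
      (∏ i, (1 - Polynomial.X ^ (s * (P i).natDegree))) ^ (p - 1) := by
    rw [hDM, ← mul_pow, hdet]
  have hPn : ∀ i, ¬ p ∣ (P i).natDegree := by
    intro i hdvd
    have h1 : (P i).natDegree ≤ (∏ i, P i).natDegree := by
      rw [Polynomial.natDegree_prod_of_monic _ _ fun i _ => hmon i]
      exact Finset.single_le_sum (f := fun i => (P i).natDegree) (fun _ _ => Nat.zero_le _)
        (Finset.mem_univ i)
    have h2 := Nat.le_of_dvd (hirr i).natDegree_pos hdvd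
    omega
  have hfin := VD.final_count hs0 (fun i => (P i).natDegree) hPn _ hD _ hw hw' α β heq
  have hone : ∀ ρ : PadicAlgCl p, ‖ρ⁻¹ * ((p : PadicAlgCl p)⁻¹) ^ s‖ = 1 ↔
      ‖ρ⁻¹‖ = ‖(p : PadicAlgCl p)‖ ^ s := by
    intro ρ
    rw [norm_mul, norm_pow, norm_inv (p : PadicAlgCl p), inv_pow, ← div_eq_mul_inv,
      div_eq_one_iff_eq (pow_pos hpn0 s).ne']
  refine ⟨fun ρ hρ hlt => ?_, fun ρ hρ h1 => ?_, ?_⟩
  · exact slope hWF hM (by simp) (by simp) hs0 hfs hord' (L.map c) hPS3 hρ hlt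
  · have hn1 := (hone ρ).2 h1
    refine res_pow hs0 (fun i => (P i).natDegree) _ hD _ hw' α β heq ?_ ?_
    · refine Multiset.mem_map.2 ⟨ρ⁻¹ * ((p : PadicAlgCl p)⁻¹) ^ s, ?_, rfl⟩
      rw [Multiset.mem_filter]
      exact ⟨Multiset.mem_map.2 ⟨ρ, hρ, rfl⟩, hn1⟩
    · rw [Ne, red_eq_zero hn1.le, hn1]
      exact lt_irrefl _
  · refine le_trans (le_of_eq ?_) hfin
    rw [Multiset.count, Multiset.countP_map, ← Multiset.countP_eq_card_filter,
      Multiset.countP_filter, Multiset.countP_map, ← Multiset.countP_eq_card_filter]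
    refine Multiset.countP_congr rfl fun ρ _ => ?_
    rw [hone, eq_iff_iff, and_comm]
    exact and_congr_left fun _ => eq_comm

end GQ

end Pool.Agent.N867.AS
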