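import Mathlib

/-!
# Functional equation from purity
-/

set_option autoImplicit false

namespace Pool.Agent.N867.AS

namespace GQ

open Polynomial

/-- If all complex roots of `L ∈ ℚ[T]` have absolute value `1/Q`, then the set of roots of `L` in
any extension is stable under `ρ ↦ 1 / (Q² ρ)`. -/
theorem sym {F : Type} [Field F] [Algebra ℚ F] (L : ℚ[X]) (hL : L ≠ 0) (Q : ℕ) (hQ : Q ≠ 0)
    (hpure : ∀ z : ℂ, aeval z L = 0 → ‖z‖ * Q = 1) {ρ : F} (hρ : aeval ρ L = 0) :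
    aeval (((Q : F) ^ 2 * ρ)⁻¹) L = 0 := by
  have hint : IsIntegral ℚ ρ := (show IsAlgebraic ℚ ρ from ⟨L, hL, hρ⟩).isIntegral
  obtain ⟨m, hm⟩ : ∃ m, m = minpoly ℚ ρ := ⟨_, rfl⟩
  have hmirr : Irreducible m := by rw [hm]; exact minpoly.irreducible hint
  have hmL : m ∣ L := by rw [hm]; exact minpoly.dvd ℚ ρ hρ
  have hmρ : aeval ρ m = 0 := by rw [hm]; exact minpoly.aeval ℚ ρ
  have : Fact (Irreducible m) := ⟨hmirr⟩
  -- a complex root
  obtain ⟨z, hz⟩ : ∃ z : ℂ, aeval z m = 0 :=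
    IsAlgClosed.exists_aeval_eq_zero ℂ m (degree_pos_of_irreducible hmirr).ne'
  have hzL : aeval z L = 0 := by
    obtain ⟨c, hc⟩ := hmL
    rw [hc, map_mul, hz, zero_mul]
  have hzn := hpure z hzL
  have hz0 : z ≠ 0 := by
    rintro rfl
    rw [norm_zero, zero_mul] at hzn
    exact zero_ne_one hzn
  have hconj : (starRingEnd ℂ) z = ((Q : ℂ) ^ 2 * z)⁻¹ := by
    have h1 : z * (starRingEnd ℂ) z = ((‖z‖ ^ 2 : ℝ) : ℂ) := by
      rw [Complex.mul_conj, Complex.normSq_eq_norm_sq]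
    have h2 : (‖z‖ ^ 2 : ℝ) * (Q : ℝ) ^ 2 = 1 := by
      rw [← mul_pow, hzn, one_pow]
    have h3 : z * (starRingEnd ℂ) z * (Q : ℂ) ^ 2 = 1 := by
      rw [h1]
      exact_mod_cast h2
    exact (inv_eq_of_mul_eq_one_right (by linear_combination h3)).symm
  have hzc : aeval (((Q : ℂ) ^ 2 * z)⁻¹) m = 0 := by
    rw [← hconj]
    have h1 : aeval ((starRingEnd ℂ) z) m = (starRingEnd ℂ) (aeval z m) := by
      rw [aeval_def, aeval_def, hom_eval₂]
      congr 1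
      exact Subsingleton.elim _ _
    rw [h1, hz, map_zero]
  -- the field `ℚ[T]/m`
  let φ : AdjoinRoot m →ₐ[ℚ] ℂ := AdjoinRoot.liftAlgHom m (Algebra.ofId ℚ ℂ) z hz
  let ψ : AdjoinRoot m →ₐ[ℚ] F := AdjoinRoot.liftAlgHom m (Algebra.ofId ℚ F) ρ hmρ
  have hφ : φ (AdjoinRoot.root m) = z := AdjoinRoot.liftAlgHom_root ..
  have hψ : ψ (AdjoinRoot.root m) = ρ := AdjoinRoot.liftAlgHom_root ..
  have h1 : aeval (((Q : AdjoinRoot m) ^ 2 * AdjoinRoot.root m)⁻¹) m = 0 := by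
    apply φ.toRingHom.injective
    rw [map_zero]
    change φ (aeval _ m) = 0
    rw [← aeval_algHom_apply, map_inv₀, map_mul, map_pow, map_natCast, hφ]
    exact hzc
  have h2 : aeval (((Q : F) ^ 2 * ρ)⁻¹) m = 0 := by
    have h3 := congrArg ψ h1
    rw [← aeval_algHom_apply, map_inv₀, map_mul, map_pow, map_natCast, hψ, map_zero] at h3
    exact h3
  obtain ⟨c, hc⟩ := hmL
  rw [hc, map_mul, h2, zero_mul]

end GQ

end Pool.Agent.N867.AS
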