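import Pool.Agent.N867.AS.Q5
import Pool.Agent.N867.AS.Q6

/-!
# Products
-/

set_option autoImplicit false
set_option linter.unusedSectionVars false

namespace Pool.Agent.N867.AS

namespace GQ

open Polynomial

section alg

variable {K : Type} [Field K]

theorem rm_one_sub (c z : K) [DecidableEq K] :
    rootMultiplicity z (1 - C c * X : K[X]) = if c * z = 1 then 1 else 0 := by
  by_cases h : c * z = 1
  · rw [if_pos h]
    have hc : c ≠ 0 := left_ne_zero_of_mul_eq_one h
    have h1 : (1 - C c * X : K[X]) = C (-c) * (X - C z) := by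
      rw [mul_sub, ← C_mul, neg_mul, h]
      simp only [map_neg, map_one]
      ring
    rw [h1, rootMultiplicity_mul (mul_ne_zero (C_ne_zero.2 (neg_ne_zero.2 hc)) (X_sub_C_ne_zero z)),
      rootMultiplicity_C, rootMultiplicity_X_sub_C_self]
  · rw [if_neg h]
    refine rootMultiplicity_eq_zero fun h1 => h ?_
    rw [IsRoot, eval_sub, eval_one, eval_mul, eval_C, eval_X, sub_eq_zero] at h1
    exact h1.symm

theorem one_sub_ne0 (c : K) : (1 - C c * X : K[X]) ≠ 0 := by
  intro h
  have h1 := congrArg (eval 0) h
  simp at h1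

theorem rm_prod {T : Type*} (S : Finset T) (c : T → K) (z : K) [DecidableEq K] [DecidableEq T] :
    rootMultiplicity z (∏ t ∈ S, (1 - C (c t) * X : K[X])) =
      (S.filter fun t => c t * z = 1).card := by
  induction S using Finset.induction_on with
  | empty => simp
  | insert t S ht ih =>
    rw [Finset.prod_insert ht, rootMultiplicity_mul (mul_ne_zero (one_sub_ne0 _)
      (Finset.prod_ne_zero_iff.2 fun t _ => one_sub_ne0 _)), ih, rm_one_sub, Finset.filter_insert]
    split_ifs with h
    · rw [Finset.card_insert_of_notMem (fun h1 => ht (Finset.mem_filter.1 h1).1), add_comm]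
    · rw [zero_add]

/-- the polynomial of a product -/
theorem prod_poly [CharZero K] {ι : Type} [Fintype ι] [DecidableEq ι] {J : ι → Type}
    [∀ i, Fintype (J i)] [∀ i, DecidableEq (J i)]
    (β : ∀ i, J i → K) (P : K[X])
    (hP : HasPS (P : PowerSeries K) fun m => ∏ i, ∑ j, β i j ^ m) :
    P = ∏ t : (∀ i, J i), (1 - C (∏ i, β i (t i)) * X : K[X]) := by
  classical
  apply Polynomial.coe_injective
  refine hP.unique ?_
  have h1 := HasPS.prod (Finset.univ : Finset (∀ i, J i))
    (F := fun t => (1 - PowerSeries.C (∏ i, β i (t i)) * PowerSeries.X : PowerSeries K))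
    (s := fun t m => (∏ i, β i (t i)) ^ m) fun t _ => hasPS_one_sub _
  have h2 : ((∏ t : (∀ i, J i), (1 - C (∏ i, β i (t i)) * X : K[X]) : K[X]) :
      PowerSeries K) = ∏ t : (∀ i, J i),
        (1 - PowerSeries.C (∏ i, β i (t i)) * PowerSeries.X : PowerSeries K) := by
    rw [← Polynomial.coeToPowerSeries.ringHom_apply, map_prod]
    refine Finset.prod_congr rfl fun t _ => ?_
    simp only [map_sub, map_one, map_mul, Polynomial.coeToPowerSeries.ringHom_apply,
      Polynomial.coe_C, Polynomial.coe_X]
  rw [h2]
  refine HasPS.congr h1 fun m _ => ?_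
  rw [Finset.prod_univ_sum, Fintype.piFinset_univ]
  exact Finset.sum_congr rfl fun t _ => (Finset.prod_pow _ _ _).symm

end alg

section num

theorem slopes {ι : Type} [Fintype ι] [DecidableEq ι] (M w : ι → ℕ) (hM0 : ∀ i, 0 < M i)
    (hM : Pairwise fun i j => (M i).Coprime (M j)) (r : ℕ)
    (h : r * ∏ i, M i = ∑ i, w i * ∏ j ∈ Finset.univ.erase i, M j) :
    ∃ c : ι → ℕ, (∀ i, w i = M i * c i) ∧ r = ∑ i, c i := by
  have hw1 : ∀ i, ∃ c, w i = M i * c := by
    intro i
    have h1 : M i ∣ w i * ∏ j ∈ Finset.univ.erase i, M j := by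
      rw [← Finset.add_sum_erase _ _ (Finset.mem_univ i)] at h
      have h2 : M i ∣ r * ∏ i, M i := (Finset.dvd_prod_of_mem M (Finset.mem_univ i)).mul_left r
      have h3 : M i ∣ ∑ k ∈ Finset.univ.erase i, w k * ∏ j ∈ Finset.univ.erase k, M j := by
        refine Finset.dvd_sum fun k hk => ?_
        refine Dvd.dvd.mul_left (Finset.dvd_prod_of_mem M ?_) _
        exact Finset.mem_erase.2 ⟨(Finset.mem_erase.1 hk).1.symm, Finset.mem_univ _⟩
      rw [h] at h2
      exact (Nat.dvd_add_left h3).1 h2
    have h2 : (M i).Coprime (∏ j ∈ Finset.univ.erase i, M j) :=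
      Nat.Coprime.prod_right fun j hj => hM (Finset.mem_erase.1 hj).1.symm
    exact h2.dvd_of_dvd_mul_right h1
  choose c hc using hw1
  refine ⟨c, hc, ?_⟩
  have h1 : ∑ i, w i * ∏ j ∈ Finset.univ.erase i, M j = (∑ i, c i) * ∏ i, M i := by
    rw [Finset.sum_mul]
    refine Finset.sum_congr rfl fun i _ => ?_
    rw [hc i, ← Finset.mul_prod_erase Finset.univ M (Finset.mem_univ i)]
    ring
  rw [h1] at h
  exact Nat.eq_of_mul_eq_mul_right (Finset.prod_pos fun i _ => hM0 i) h

theorem orders {F : Type} [Field F] {ι : Type} [Fintype ι] [DecidableEq ι] (l : ι → F) (n : ι → ℕ)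
    (hn : Pairwise fun i j => (n i).Coprime (n j)) (hl : ∀ i, l i ^ n i = 1)
    (h : ∏ i, l i = 1) (i : ι) : l i = 1 := by
  obtain ⟨N, hN⟩ : ∃ N, N = ∏ j ∈ Finset.univ.erase i, n j := ⟨_, rfl⟩
  have h1 : l i ^ N = 1 := by
    have h2 : (∏ j ∈ Finset.univ.erase i, l j) ^ N = 1 := by
      rw [← Finset.prod_pow]
      refine Finset.prod_eq_one fun j hj => ?_
      obtain ⟨c, hc⟩ := Finset.dvd_prod_of_mem n hj
      rw [hN, hc, pow_mul, hl, one_pow]
    have h3 : (l i * ∏ j ∈ Finset.univ.erase i, l j) ^ N = 1 := by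
      rw [Finset.mul_prod_erase _ _ (Finset.mem_univ i), h, one_pow]
    rwa [mul_pow, h2, mul_one] at h3
  have h2 : (n i).Coprime N := by
    rw [hN]
    exact Nat.Coprime.prod_right fun j hj => hn (Finset.mem_erase.1 hj).1.symm
  have h3 : l i ^ (n i).gcd N = 1 := by
    rw [pow_gcd_eq_one]
    exact ⟨hl i, h1⟩
  rwa [h2, pow_one] at h3

end num

section comb

variable {ι : Type} [Fintype ι] [DecidableEq ι] {n : ι → ℕ}

/-- tuples with values in `G i` or `none`, with `j` entries different from `none` -/
def tup (G : ∀ i, Finset (Fin (n i))) (j : ℕ) : Finset (∀ i, Option (Fin (n i))) :=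
  (Fintype.piFinset fun i => Finset.insertNone (G i)).filter fun t =>
    (Finset.univ.filter fun i => t i ≠ none).card = j

theorem card_tup (G : ∀ i, Finset (Fin (n i))) (j : ℕ) :
    (tup G j).card = ∑ J ∈ Finset.univ.powersetCard j, ∏ i ∈ J, (G i).card := by
  classical
  rw [Finset.card_eq_sum_card_fiberwise (f := fun t : (∀ i, Option (Fin (n i))) =>
    Finset.univ.filter fun i => t i ≠ none) (t := Finset.univ.powersetCard j)]
  · refine Finset.sum_congr rfl fun J hJ => ?_
    have hJ' := (Finset.mem_powersetCard.1 hJ).2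
    have h1 : (tup G j).filter (fun t => (Finset.univ.filter fun i => t i ≠ none) = J) =
        Fintype.piFinset fun i => if i ∈ J then (G i).map Function.Embedding.some else {none} := by
      ext t
      rw [Finset.mem_filter, tup, Finset.mem_filter, Fintype.mem_piFinset, Fintype.mem_piFinset]
      constructor
      · rintro ⟨⟨h1, -⟩, h2⟩ i
        have h3 : i ∈ J ↔ t i ≠ none := by
          rw [← h2, Finset.mem_filter]
          exact ⟨fun h => h.2, fun h => ⟨Finset.mem_univ _, h⟩⟩
        split_ifs with h4
        · obtain ⟨x, hx⟩ := Option.ne_none_iff_exists'.1 (h3.1 h4)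
          rw [Finset.mem_map]
          exact ⟨x, Finset.mem_insertNone.1 (h1 i) x hx, hx.symm⟩
        · rw [Finset.mem_singleton]
          by_contra h5
          exact h4 (h3.2 h5)
      · intro h
        have h2 : (Finset.univ.filter fun i => t i ≠ none) = J := by
          ext i
          rw [Finset.mem_filter]
          have h3 := h i
          split_ifs at h3 with h4
          · rw [Finset.mem_map] at h3
            obtain ⟨x, _, hx⟩ := h3
            refine ⟨fun _ => h4, fun _ => ⟨Finset.mem_univ _, ?_⟩⟩
            rw [← hx]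
            exact Option.some_ne_none x
          · rw [Finset.mem_singleton] at h3
            exact ⟨fun h5 => absurd h3 h5.2, fun h5 => absurd h5 h4⟩
        refine ⟨⟨fun i => ?_, by rw [h2, hJ']⟩, h2⟩
        rw [Finset.mem_insertNone]
        intro x hx
        have h3 := h i
        split_ifs at h3 with h4
        · rw [Finset.mem_map] at h3
          obtain ⟨y, hy, hxy⟩ := h3
          rw [hx] at hxy
          have h5 : y = x := Option.some_injective _ hxy
          rwa [← h5]
        · rw [Finset.mem_singleton] at h3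
          rw [hx] at h3
          exact absurd h3 (Option.some_ne_none x)
    rw [h1, Fintype.card_piFinset, ← Finset.prod_subset (Finset.subset_univ J)]
    · refine Finset.prod_congr rfl fun i hi => ?_
      rw [if_pos hi, Finset.card_map]
    · intro i _ hi
      rw [if_neg hi, Finset.card_singleton]
  · intro t ht
    rw [Finset.mem_coe, tup, Finset.mem_filter] at ht
    rw [Finset.mem_coe, Finset.mem_powersetCard]
    exact ⟨Finset.subset_univ _, ht.2⟩

theorem sum_c (t : ∀ i, Option (Fin (n i))) (c : ι → ℕ) (hc : ∀ i, c i = if t i = none then 2 else 1)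
    {r j : ℕ} (hr : r = ∑ i, c i) : (Finset.univ.filter fun i => t i ≠ none).card = j ↔
      r + j = 2 * Fintype.card ι := by
  have h1 : r + (Finset.univ.filter fun i => t i ≠ none).card = 2 * Fintype.card ι := by
    rw [hr, Finset.card_filter, ← Finset.sum_add_distrib, mul_comm, ← Finset.card_univ,
      ← smul_eq_mul, ← Finset.sum_const]
    refine Finset.sum_congr rfl fun i _ => ?_
    rw [hc i]
    by_cases h : t i = none
    · rw [if_pos h, if_neg (not_not.2 h)]
    · rw [if_neg h, if_pos h]
  omega

end comb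

end GQ

end Pool.Agent.N867.AS
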