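import Pool.Agent.N867.AS.Q7

/-!
# Frobenius eigenvalues of products
-/

set_option autoImplicit false
set_option linter.unusedSectionVars false

namespace Pool.Agent.N867.AS

namespace GQ

open Polynomial Res

theorem ps_eq {K : Type} [Field K] {F : PowerSeries K} {s t : ℕ → K} (hs : HasPS F s)
    (ht : HasPS F t) {m : ℕ} (hm : m ≠ 0) : s m = t m := by
  have hF : F ≠ 0 := by
    rintro rfl
    have := hs.1
    rw [map_zero] at this
    exact zero_ne_one this
  have h1 : F * pser s = F * pser t := by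
    have h2 := hs.2
    rw [ht.2] at h2
    exact (neg_injective h2).symm
  have h2 := congrArg (PowerSeries.coeff m) (mul_left_cancel₀ hF h1)
  rwa [pser, pser, PowerSeries.coeff_mk, PowerSeries.coeff_mk, if_neg hm, if_neg hm] at h2

theorem exists_index {α : Type*} (S : Multiset α) :
    ∃ (n : ℕ) (v : Fin n → α), (Finset.univ : Finset (Fin n)).val.map v = S := by
  obtain ⟨l, rfl⟩ := Quot.exists_rep S
  refine ⟨l.length, l.get, ?_⟩
  rw [Fin.univ_val_map, List.ofFn_get]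
  rfl

variable {p : ℕ} [hp : Fact p.Prime]

theorem tuple {s : ℕ} (hs : s ≠ 0) {ι : Type} [Fintype ι] (L : ι → ℚ[X]) (N : ι → ℕ → ℚ)
    (hL : ∀ i, HasPS (L i : PowerSeries ℚ) (N i)) (M R e : ι → ℕ) (d : ∀ i, Fin (e i) → ℕ)
    (hM0 : ∀ i, 0 < M i)
    (hM : Pairwise fun i j => (M i).Coprime (M j))
    (hd : ∀ i j, i ≠ j → ∀ k l, (d i k).Coprime (d j l))
    [DecidableEq ℝ] [DecidableEq (k p)]
    (hsl : ∀ i, ∀ ρ ∈ ((L i).map (algebraMap ℚ (PadicAlgCl p))).roots,
      ∃ w, 0 < w ∧ w < 2 * M i ∧ ‖ρ⁻¹‖ ^ M i = ‖(p : PadicAlgCl p)‖ ^ (s * w))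
    (hres : ∀ i, ∀ ρ ∈ ((L i).map (algebraMap ℚ (PadicAlgCl p))).roots,
      ‖ρ⁻¹‖ = ‖(p : PadicAlgCl p)‖ ^ s →
      ∃ k, red p (ρ⁻¹ * ((p : PadicAlgCl p)⁻¹) ^ s) ^ d i k = 1)
    (hcnt : ∀ i, ((L i).map (algebraMap ℚ (PadicAlgCl p))).roots.countP
      (fun ρ => ‖ρ⁻¹‖ = ‖(p : PadicAlgCl p)‖ ^ s ∧
        red p (ρ⁻¹ * ((p : PadicAlgCl p)⁻¹) ^ s) = 1) ≤ R i)
    (P : ℚ[X]) (hP : HasPS (P : PowerSeries ℚ) fun m =>
      ∏ i, (N i m + (((p ^ s : ℕ) : ℚ) ^ 2) ^ m)) :
    (∀ r, 2 * Fintype.card ι < r → P.rootMultiplicity (1 / ((p ^ s : ℕ) : ℚ) ^ r) = 0) ∧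
    ∀ r j, r + j = 2 * Fintype.card ι →
      ∑ J ∈ Finset.univ.powersetCard j, ∏ i ∈ J, (L i).rootMultiplicity (1 / ((p ^ s : ℕ) : ℚ)) ≤
        P.rootMultiplicity (1 / ((p ^ s : ℕ) : ℚ) ^ r) ∧
      P.rootMultiplicity (1 / ((p ^ s : ℕ) : ℚ) ^ r) ≤
        ∑ J ∈ Finset.univ.powersetCard j, ∏ i ∈ J, R i := by
  classical
  have hpne : (p : PadicAlgCl p) ≠ 0 := Nat.cast_ne_zero.2 hp.1.ne_zero
  have hpn : ‖(p : PadicAlgCl p)‖ < 1 := norm_p_lt p
  have hpn0 : 0 < ‖(p : PadicAlgCl p)‖ := norm_pos_iff.2 hpne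
  obtain ⟨c, hc⟩ : ∃ c, c = algebraMap ℚ (PadicAlgCl p) := ⟨_, rfl⟩
  rw [← hc] at hsl hres hcnt
  obtain ⟨qq, hqq⟩ : ∃ qq : PadicAlgCl p, qq = (p : PadicAlgCl p) ^ s := ⟨_, rfl⟩
  have hqq0 : qq ≠ 0 := by rw [hqq]; exact pow_ne_zero _ hpne
  have hcq : c ((p ^ s : ℕ) : ℚ) = qq := by
    rw [map_natCast, hqq]
    push_cast
    rfl
  have hqqn : ‖qq‖ = ‖(p : PadicAlgCl p)‖ ^ s := by rw [hqq, norm_pow]
  have hqlt : ‖qq‖ < 1 := by rw [hqqn]; exact pow_lt_one₀ hpn0.le hpn hs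
  have hqpos : 0 < ‖qq‖ := norm_pos_iff.2 hqq0
  -- the roots
  have hex : ∀ i, ∃ (n : ℕ) (v : Fin n → PadicAlgCl p),
      (Finset.univ : Finset (Fin n)).val.map v = ((L i).map c).roots := fun i => exists_index _
  choose n ρ hρ using hex
  have hmem : ∀ i j, ρ i j ∈ ((L i).map c).roots := by
    intro i j
    rw [← hρ i]
    exact Multiset.mem_map.2 ⟨j, Finset.mem_univ j, rfl⟩
  have hcP : ∀ i (A : PadicAlgCl p → Prop) [DecidablePred A], ((L i).map c).roots.countP A =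
      (Finset.univ.filter fun j => A (ρ i j)).card := by
    intro i A _
    rw [← hρ i, Multiset.countP_map]
    rfl
  have hLK : ∀ i, HasPS (((L i).map c : (PadicAlgCl p)[X]) : PowerSeries (PadicAlgCl p))
      (fun m => c (N i m)) := by
    intro i
    have h1 := (hL i).map c
    rwa [← Polynomial.polynomial_map_coe] at h1
  have hL1 : ∀ i, ((L i).map c).coeff 0 = 1 := by
    intro i
    have h1 := (hLK i).1
    rwa [← PowerSeries.coeff_zero_eq_constantCoeff_apply, Polynomial.coeff_coe] at h1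
  have hNi : ∀ i m, m ≠ 0 → c (N i m) = ∑ j, ((ρ i j)⁻¹) ^ m := by
    intro i m hm
    have h1 := hasPS_multiset (((L i).map c).roots.map fun x => x⁻¹)
    have h2 : ((((L i).map c).roots.map fun x => x⁻¹).map fun a =>
        (1 - PowerSeries.C a * PowerSeries.X : PowerSeries (PadicAlgCl p))).prod =
        (((L i).map c : (PadicAlgCl p)[X]) : PowerSeries (PadicAlgCl p)) := by
      conv_rhs => rw [Bd.poly_eq_prod _ (hL1 i)]
      rw [← Polynomial.coeToPowerSeries.ringHom_apply, map_multiset_prod, Multiset.map_map,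
        Multiset.map_map]
      congr 1
      refine Multiset.map_congr rfl fun x _ => ?_
      simp only [Function.comp_apply, map_sub, map_one, map_mul,
        Polynomial.coeToPowerSeries.ringHom_apply, Polynomial.coe_C, Polynomial.coe_X]
    rw [h2] at h1
    rw [ps_eq (hLK i) h1 hm, ← hρ i, Multiset.map_map, Multiset.map_map]
    rfl
  obtain ⟨β, hβn, hβs⟩ : ∃ β : ∀ i, Option (Fin (n i)) → PadicAlgCl p,
      (∀ i, β i none = qq ^ 2) ∧ ∀ i j, β i (some j) = (ρ i j)⁻¹ :=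
    ⟨fun i o => o.elim (qq ^ 2) fun j => (ρ i j)⁻¹, fun _ => rfl, fun _ _ => rfl⟩
  have hPK : HasPS ((P.map c : (PadicAlgCl p)[X]) : PowerSeries (PadicAlgCl p))
      (fun m => ∏ i, ∑ o, β i o ^ m) := by
    have h1 := hP.map c
    rw [← Polynomial.polynomial_map_coe] at h1
    refine h1.congr fun m hm => ?_
    rw [map_prod]
    refine Finset.prod_congr rfl fun i _ => ?_
    rw [map_add, hNi i m hm, map_pow, map_pow, hcq, Fintype.sum_option, hβn, add_comm]
    congr 1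
    exact Finset.sum_congr rfl fun j _ => by rw [hβs]
  have hPprod := prod_poly β _ hPK
  have hPr : ∀ r : ℕ, P.rootMultiplicity (1 / ((p ^ s : ℕ) : ℚ) ^ r) =
      (Finset.univ.filter fun t : (∀ i, Option (Fin (n i))) => ∏ i, β i (t i) = qq ^ r).card := by
    intro r
    rw [Polynomial.eq_rootMultiplicity_map c.injective, hPprod, rm_prod, map_div₀, map_one,
      map_pow, hcq]
    congr 1
    ext t
    simp only [Finset.mem_filter, Finset.mem_univ, true_and]
    rw [mul_one_div, div_eq_one_iff_eq (pow_ne_zero r hqq0)]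
  have hLr : ∀ i, (L i).rootMultiplicity (1 / ((p ^ s : ℕ) : ℚ)) =
      (Finset.univ.filter fun j => (ρ i j)⁻¹ = qq).card := by
    intro i
    rw [Polynomial.eq_rootMultiplicity_map c.injective, ← Polynomial.count_roots,
      Multiset.count, hcP, map_div₀, map_one, hcq, one_div]
    congr 1
    ext j
    simp only [Finset.mem_filter, Finset.mem_univ, true_and]
    rw [eq_comm, inv_eq_iff_eq_inv]
  -- the analysis of a tuple
  have hmain : ∀ (t : ∀ i, Option (Fin (n i))) (r : ℕ), ∏ i, β i (t i) = qq ^ r →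
      (∃ c : ι → ℕ, (∀ i, c i = if t i = none then 2 else 1) ∧ r = ∑ i, c i) ∧
      ∀ i j, t i = some j → ‖(ρ i j)⁻¹‖ = ‖(p : PadicAlgCl p)‖ ^ s ∧
        red p ((ρ i j)⁻¹ * ((p : PadicAlgCl p)⁻¹) ^ s) = 1 := by
    intro t r ht
    have hw' : ∀ i, ∃ w, (t i = none → w = 2 * M i) ∧ (t i ≠ none → 0 < w ∧ w < 2 * M i) ∧
        ‖β i (t i)‖ ^ M i = ‖(p : PadicAlgCl p)‖ ^ (s * w) := by
      intro i
      rcases h : t i with _ | j
      · refine ⟨2 * M i, fun _ => rfl, fun h => absurd rfl h, ?_⟩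
        rw [hβn, norm_pow, hqqn, ← pow_mul, ← pow_mul, ← mul_assoc]
      · obtain ⟨w, hw0, hw2, hw⟩ := hsl i (ρ i j) (hmem i j)
        refine ⟨w, fun h => absurd h (Option.some_ne_none j), fun _ => ⟨hw0, hw2⟩, ?_⟩
        rw [hβs]
        exact hw
    choose w hwn hws hw using hw'
    have h1 : r * ∏ i, M i = ∑ i, w i * ∏ j ∈ Finset.univ.erase i, M j := by
      have h2 : ‖∏ i, β i (t i)‖ ^ ∏ i, M i = ‖qq ^ r‖ ^ ∏ i, M i := by rw [ht]
      rw [norm_prod, norm_pow, ← pow_mul, ← Finset.prod_pow] at h2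
      have h3 : ∀ i, ‖β i (t i)‖ ^ ∏ i, M i =
          ‖qq‖ ^ (w i * ∏ j ∈ Finset.univ.erase i, M j) := by
        intro i
        rw [← Finset.mul_prod_erase _ _ (Finset.mem_univ i), pow_mul, hw i, ← pow_mul, hqqn,
          ← pow_mul]
        congr 1
        ring
      rw [Finset.prod_congr rfl fun i _ => h3 i, Finset.prod_pow_eq_pow_sum] at h2
      exact (pow_right_injective₀ hqpos hqlt.ne h2).symm
    obtain ⟨c', h2, h3⟩ := slopes M w hM0 hM r h1
    have hc' : ∀ i, c' i = if t i = none then 2 else 1 := by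
      intro i
      split_ifs with h
      · have h4 := h2 i
        rw [hwn i h, mul_comm] at h4
        exact (Nat.eq_of_mul_eq_mul_left (hM0 i) h4).symm
      · obtain ⟨h5, h6⟩ := hws i h
        rw [h2 i] at h5 h6
        have h7 : c' i ≠ 0 := right_ne_zero_of_mul h5.ne'
        have h8 : c' i < 2 := by
          rw [mul_comm 2] at h6
          exact Nat.lt_of_mul_lt_mul_left h6
        omega
    have h4 : ∀ i, ‖β i (t i)‖ = ‖qq‖ ^ c' i := by
      intro i
      have h5 := hw i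
      rw [h2 i] at h5
      have h6 : s * (M i * c' i) = s * c' i * M i := by ring
      rw [h6, pow_mul, pow_mul, ← hqqn] at h5
      exact (pow_left_inj₀ (norm_nonneg _) (by positivity) (hM0 i).ne').1 h5
    refine ⟨⟨c', hc', h3⟩, ?_⟩
    have h5 : ∀ i, ‖β i (t i) * (qq⁻¹) ^ c' i‖ ≤ 1 := by
      intro i
      rw [norm_mul, norm_pow, norm_inv, inv_pow, h4 i, mul_inv_cancel₀ (pow_pos hqpos _).ne']
    have h6 : ∏ i, red p (β i (t i) * (qq⁻¹) ^ c' i) = 1 := by
      rw [← red_prod _ fun i _ => h5 i, Finset.prod_mul_distrib, ht, Finset.prod_pow_eq_pow_sum,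
        ← h3, inv_pow, mul_inv_cancel₀ (pow_ne_zero _ hqq0), red_one]
    have hval : ∀ i j, t i = some j → β i (t i) * (qq⁻¹) ^ c' i =
        (ρ i j)⁻¹ * ((p : PadicAlgCl p)⁻¹) ^ s := by
      intro i j h
      rw [hc' i, if_neg (by rw [h]; exact Option.some_ne_none j), h, hβs, pow_one, hqq, inv_pow]
    have hn1 : ∀ i j, t i = some j → ‖(ρ i j)⁻¹‖ = ‖(p : PadicAlgCl p)‖ ^ s := by
      intro i j h
      have h7 := h4 i
      rwa [hc' i, if_neg (by rw [h]; exact Option.some_ne_none j), h, hβs, pow_one, hqqn] at h7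
    have hn' : ∀ i, ∃ m : ℕ, (t i = none → m = 1) ∧ (t i ≠ none → ∃ k, m = d i k) ∧
        red p (β i (t i) * (qq⁻¹) ^ c' i) ^ m = 1 := by
      intro i
      rcases h : t i with _ | j
      · refine ⟨1, fun _ => rfl, fun h => absurd rfl h, ?_⟩
        rw [pow_one, hc' i, if_pos h, hβn, ← mul_pow, mul_inv_cancel₀ hqq0, one_pow, red_one]
      · obtain ⟨k, hk⟩ := hres i (ρ i j) (hmem i j) (hn1 i j h)
        refine ⟨d i k, fun h => absurd h (Option.some_ne_none j), fun _ => ⟨k, rfl⟩, ?_⟩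
        rw [← h, hval i j h]
        exact hk
    choose m hmn hms hm using hn'
    have h7 := orders _ m (fun i j hij => by
      change (m i).Coprime (m j)
      by_cases h8 : t i = none
      · rw [hmn i h8]
        exact Nat.coprime_one_left _
      · by_cases h9 : t j = none
        · rw [hmn j h9]
          exact Nat.coprime_one_right _
        · obtain ⟨k, hk⟩ := hms i h8
          obtain ⟨l, hl⟩ := hms j h9
          rw [hk, hl]
          exact hd i j hij k l) hm h6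
    intro i j h
    refine ⟨hn1 i j h, ?_⟩
    rw [← hval i j h]
    exact h7 i
  refine ⟨fun r hr => ?_, fun r j hrj => ⟨?_, ?_⟩⟩
  · rw [hPr, Finset.card_eq_zero, Finset.filter_eq_empty_iff]
    intro t _ ht
    obtain ⟨⟨c', hc', h3⟩, -⟩ := hmain t r ht
    have h4 := (sum_c t c' hc' (r := r) (j := (Finset.univ.filter fun i => t i ≠ none).card) h3).1 rfl
    omega
  · rw [hPr, Finset.sum_congr rfl fun J _ => Finset.prod_congr rfl fun i _ => hLr i, ← card_tup]
    refine Finset.card_le_card fun t ht => ?_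
    rw [tup, Finset.mem_filter, Fintype.mem_piFinset] at ht
    obtain ⟨h1, h2⟩ := ht
    rw [Finset.mem_filter]
    refine ⟨Finset.mem_univ _, ?_⟩
    obtain ⟨c', hc'⟩ : ∃ c' : ι → ℕ, ∀ i, c' i = if t i = none then 2 else 1 := ⟨_, fun _ => rfl⟩
    have h3 : ∀ i, β i (t i) = qq ^ c' i := by
      intro i
      rw [hc' i]
      rcases h : t i with _ | l
      · rw [if_pos rfl, hβn]
      · have h4 := Finset.mem_insertNone.1 (h1 i) l h
        rw [if_neg (Option.some_ne_none l), hβs, (Finset.mem_filter.1 h4).2, pow_one]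
    rw [Finset.prod_congr rfl fun i _ => h3 i, Finset.prod_pow_eq_pow_sum]
    congr 1
    have h4 := (sum_c t c' hc' (r := ∑ i, c' i) (j := j) rfl).1 h2
    omega
  · rw [hPr]
    refine le_trans ?_ (Finset.sum_le_sum fun J _ =>
      Finset.prod_le_prod (fun i _ => Nat.zero_le _) fun i _ => hcnt i)
    rw [Finset.sum_congr rfl fun J _ => Finset.prod_congr rfl fun i _ => hcP i _, ← card_tup]
    refine Finset.card_le_card fun t ht => ?_
    obtain ⟨⟨c', hc', h3⟩, h4⟩ := hmain t _ (Finset.mem_filter.1 ht).2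
    rw [tup, Finset.mem_filter, Fintype.mem_piFinset]
    refine ⟨fun i => ?_, (sum_c t c' hc' h3).2 hrj⟩
    rw [Finset.mem_insertNone]
    intro l hl
    rw [Finset.mem_filter]
    exact ⟨Finset.mem_univ _, h4 i l hl⟩

end GQ

end Pool.Agent.N867.AS
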