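import Pool.Agent.N867.AS.Q8
import Pool.Agent.N867.AS.M2

/-!
# Products of Artin–Schreier surfaces
-/

set_option autoImplicit false
set_option linter.unusedSectionVars false

namespace Pool.Agent.N867.AS

namespace GQ

open Polynomial Res Pool.Agent.N867.AS.LP TV Pool.Agent.N867.AS.Final2

theorem main (p : ℕ) (hp : p.Prime) (κ : Type) [Field κ] [Fintype κ] [CharP κ p]
    (ι : Type) [Fintype ι] (a b g e : ι → ℕ)
    (hab : ∀ i, (a i).Coprime (b i)) (hga : ∀ i, g i * a i ∣ p - 1)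
    (hgb : ∀ i, g i * b i ∣ p - 1) (H : ∀ i, Fin (e i) → κ[X])
    (hirr : ∀ i j, Irreducible (H i j)) (hmon : ∀ i j, (H i j).Monic)
    (hinj : ∀ i, Function.Injective (H i))
    (hdeg : ∀ i, (∏ j, H i j).natDegree = g i) (hord : ∀ i, OrdP p (a i) (b i) (g i) (∏ j, H i j))
    (f : ι → κ[X][X]) (hf : ∀ i, Lead (a i) (b i) (g i) (∏ j, H i j) (f i))
    (hM : ∀ i j, i ≠ j → (g i * (a i * b i)).Coprime (g j * (a j * b j)))
    (hd : ∀ i j, i ≠ j → ∀ k l, (H i k).natDegree.Coprime (H j l).natDegree)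
    (L : ι → ℚ[X]) (hL0 : ∀ i, (L i).coeff 0 = 1)
    (hL : ∀ i, PowerSeries.X * PowerSeries.derivative ℚ (L i : PowerSeries ℚ) =
        (L i : PowerSeries ℚ) * PowerSeries.mk (fun m => if m = 0 then 0 else
          ((Fintype.card κ : ℚ) ^ (2 * m) - (Trans.Npts p (f i) (Fintype.card κ ^ m) : ℚ))))
    (hpure : ∀ i, ∀ z : ℂ, aeval z (L i) = 0 → ‖z‖ * (Fintype.card κ : ℝ) = 1)
    (P : ℚ[X]) (hP0 : P.coeff 0 = 1)
    (hP : PowerSeries.X * PowerSeries.derivative ℚ (P : PowerSeries ℚ) =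
        -((P : PowerSeries ℚ) * PowerSeries.mk (fun m => if m = 0 then 0 else
          ∏ i, (Trans.Npts p (f i) (Fintype.card κ ^ m) : ℚ)))) :
    (∀ r, 2 * Fintype.card ι < r → P.rootMultiplicity (1 / (Fintype.card κ : ℚ) ^ r) = 0) ∧
    ∀ r j, r + j = 2 * Fintype.card ι →
      ∑ J ∈ Finset.univ.powersetCard j, ∏ i ∈ J,
          (L i).rootMultiplicity (1 / (Fintype.card κ : ℚ)) ≤
        P.rootMultiplicity (1 / (Fintype.card κ : ℚ) ^ r) ∧
      P.rootMultiplicity (1 / (Fintype.card κ : ℚ) ^ r) ≤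
        ∑ J ∈ Finset.univ.powersetCard j, ∏ i ∈ J, ((p - 1) * (e i - 1)) := by
  classical
  have : Fact p.Prime := ⟨hp⟩
  have hp1 : p - 1 ≠ 0 := by
    have := hp.two_le
    omega
  have hpne : (p : PadicAlgCl p) ≠ 0 := Nat.cast_ne_zero.2 hp.ne_zero
  have hpn : ‖(p : PadicAlgCl p)‖ < 1 := norm_p_lt p
  have hpn0 : 0 < ‖(p : PadicAlgCl p)‖ := norm_pos_iff.2 hpne
  obtain ⟨s, hs⟩ : ∃ s : ℕ, Fintype.card κ = p ^ s := by
    obtain ⟨s, _, hs⟩ := FiniteField.card κ p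
    exact ⟨s, hs⟩
  have hs0 : s ≠ 0 := by
    rintro rfl
    rw [pow_zero] at hs
    exact absurd hs (Fintype.one_lt_card (α := κ)).ne'
  have hga0 : ∀ i, g i * a i ≠ 0 := fun i h => hp1 (by
    have := hga i
    rwa [h, zero_dvd_iff] at this)
  have hgb0 : ∀ i, g i * b i ≠ 0 := fun i h => hp1 (by
    have := hgb i
    rwa [h, zero_dvd_iff] at this)
  have hg : ∀ i, g i ≠ 0 := fun i => left_ne_zero_of_mul (hga0 i)
  have ha : ∀ i, a i ≠ 0 := fun i => right_ne_zero_of_mul (hga0 i)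
  have hb : ∀ i, b i ≠ 0 := fun i => right_ne_zero_of_mul (hgb0 i)
  have hM0 : ∀ i, 0 < g i * (a i * b i) := fun i =>
    Nat.pos_of_ne_zero (mul_ne_zero (hg i) (mul_ne_zero (ha i) (hb i)))
  have hcop : ∀ i j j', j ≠ j' → IsCoprime (H i j) (H i j') := by
    intro i j j' hij
    refine (hirr i j).coprime_iff_not_dvd.2 fun hdvd => hij (hinj i ?_)
    exact eq_of_monic_of_associated (hmon i j) (hmon i j')
      ((hirr i j).associated_of_dvd (hirr i j') hdvd)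
  have hinfo := fun i => info (p := p) (ha i) (hb i) (hab i) (hg i) (hga i) (hgb i) (f i) (hf i).1
    (by
      intro w hw0 hw
      rw [hw_eq hp (ha i) (hb i) (hab i) (hg i) (dvd_M (hab i) (hg i) (hga i) (hgb i)) (hf i).1 hw,
        (hf i).2]
      exact hord i w hw0 hw) (H i) (hirr i) (hmon i) (fun j j' hj => hcop i j j' hj) (hf i).2
    (hdeg i) hs (L i) (hL0 i) (hL i)
  have hLne : ∀ i, L i ≠ 0 := by
    intro i h
    have := hL0 i
    rw [h, coeff_zero] at this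
    exact zero_ne_one this
  -- the slopes
  have hsl : ∀ i, ∀ ρ ∈ ((L i).map (algebraMap ℚ (PadicAlgCl p))).roots,
      ∃ w, 0 < w ∧ w < 2 * (g i * (a i * b i)) ∧
        ‖ρ⁻¹‖ ^ (g i * (a i * b i)) = ‖(p : PadicAlgCl p)‖ ^ (s * w) := by
    intro i ρ hρ
    rcases lt_trichotomy (‖(p : PadicAlgCl p)‖ ^ s) ‖ρ⁻¹‖ with h | h | h
    · obtain ⟨w, h1, h2, h3⟩ := (hinfo i).1 ρ hρ h
      exact ⟨w, h1, by omega, h3⟩
    · refine ⟨g i * (a i * b i), hM0 i, by have := hM0 i; omega, ?_⟩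
      rw [← h, ← pow_mul]
    · have hmap0 : (L i).map (algebraMap ℚ (PadicAlgCl p)) ≠ 0 :=
        (Polynomial.map_ne_zero_iff (algebraMap ℚ (PadicAlgCl p)).injective).2 (hLne i)
      have hρ0 : ρ ≠ 0 := by
        rintro rfl
        rw [mem_roots hmap0, IsRoot, ← coeff_zero_eq_eval_zero, coeff_map, hL0 i, map_one] at hρ
        exact one_ne_zero hρ
      have hae : aeval ρ (L i) = 0 := by
        rw [mem_roots hmap0, IsRoot, eval_map] at hρ
        exact hρ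
      have h1 := sym (L i) (hLne i) (Fintype.card κ) Fintype.card_ne_zero (hpure i) hae
      obtain ⟨ρ', hρ'⟩ : ∃ ρ', ρ' = (((Fintype.card κ : PadicAlgCl p)) ^ 2 * ρ)⁻¹ := ⟨_, rfl⟩
      rw [← hρ'] at h1
      have hρ'm : ρ' ∈ ((L i).map (algebraMap ℚ (PadicAlgCl p))).roots := by
        rw [mem_roots hmap0, IsRoot, eval_map]
        exact h1
      have hρn : 0 < ‖ρ⁻¹‖ := norm_pos_iff.2 (inv_ne_zero hρ0)
      have hnn : ‖ρ'⁻¹‖ * ‖ρ⁻¹‖ = (‖(p : PadicAlgCl p)‖ ^ s) ^ 2 := by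
        rw [hρ', inv_inv, hs, ← norm_mul, mul_assoc, mul_inv_cancel₀ hρ0, mul_one]
        push_cast
        rw [norm_pow, norm_pow]
      have hlt : ‖(p : PadicAlgCl p)‖ ^ s < ‖ρ'⁻¹‖ := by
        by_contra hcon
        push Not at hcon
        have h2 : ‖ρ'⁻¹‖ * ‖ρ⁻¹‖ < (‖(p : PadicAlgCl p)‖ ^ s) ^ 2 := by
          rw [pow_two]
          calc _ ≤ ‖(p : PadicAlgCl p)‖ ^ s * ‖ρ⁻¹‖ :=
                mul_le_mul_of_nonneg_right hcon hρn.le
            _ < _ := mul_lt_mul_of_pos_left h (pow_pos hpn0 s)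
        exact absurd hnn h2.ne
      obtain ⟨w, hw1, hw2, hw3⟩ := (hinfo i).1 ρ' hρ'm hlt
      refine ⟨2 * (g i * (a i * b i)) - w, by omega, by omega, ?_⟩
      have h3 : ‖ρ'⁻¹‖ ^ (g i * (a i * b i)) * ‖ρ⁻¹‖ ^ (g i * (a i * b i)) =
          ‖(p : PadicAlgCl p)‖ ^ (s * w) *
            ‖(p : PadicAlgCl p)‖ ^ (s * (2 * (g i * (a i * b i)) - w)) := by
        rw [← mul_pow, hnn, ← pow_add, ← mul_add, Nat.add_sub_cancel' (by omega), ← pow_mul,
          ← pow_mul, ← mul_assoc]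
      rw [hw3] at h3
      exact mul_left_cancel₀ (pow_pos hpn0 _).ne' h3
  have hLPS : ∀ i, HasPS (L i : PowerSeries ℚ) (fun m =>
      (Trans.Npts p (f i) (Fintype.card κ ^ m) : ℚ) - (Fintype.card κ : ℚ) ^ (2 * m)) := by
    intro i
    refine ⟨?_, ?_⟩
    · rw [← PowerSeries.coeff_zero_eq_constantCoeff_apply, Polynomial.coeff_coe, hL0 i]
    · rw [hL i, ← mul_neg]
      congr 1
      ext m
      rw [pser, map_neg, PowerSeries.coeff_mk, PowerSeries.coeff_mk]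
      split_ifs
      · rw [neg_zero]
      · ring
  have hPPS : HasPS (P : PowerSeries ℚ) (fun m => ∏ i,
      (((Trans.Npts p (f i) (Fintype.card κ ^ m) : ℚ) - (Fintype.card κ : ℚ) ^ (2 * m)) +
        (((p ^ s : ℕ) : ℚ) ^ 2) ^ m)) := by
    refine ⟨?_, ?_⟩
    · rw [← PowerSeries.coeff_zero_eq_constantCoeff_apply, Polynomial.coeff_coe, hP0]
    · rw [hP]
      congr 2
      ext m
      rw [pser, PowerSeries.coeff_mk, PowerSeries.coeff_mk]
      split_ifs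
      · rfl
      · refine Finset.prod_congr rfl fun i _ => ?_
        rw [← hs, ← pow_mul, sub_add_cancel]
  have := tuple hs0 L _ hLPS (fun i => g i * (a i * b i)) (fun i => (p - 1) * (e i - 1)) e
    (fun i j => (H i j).natDegree) hM0 (fun i j hij => hM i j hij) hd hsl
    (fun i => (hinfo i).2.1) (fun i => (hinfo i).2.2) P hPPS
  rw [hs]
  exact this

end GQ

end Pool.Agent.N867.AS
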