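import Pool.Agent.N867.AS.G5

/-!
# One character: character sums versus traces
-/

set_option autoImplicit false
set_option linter.unusedSectionVars false

namespace Pool.Agent.N867.AS

namespace OC

open MvPolynomial Res Tr Bd RedS GW

variable {σ : Type} [Fintype σ] [DecidableEq σ]

variable {p : ℕ} [hp : Fact p.Prime] {ω : σ → ℕ} {f : MvPolynomial σ (k p)} {M s : ℕ}

/-- the index of the character -/
def a0 (p : ℕ) [hp : Fact p.Prime] : Fin (p - 1) :=
  ⟨0, by have := hp.1.two_le; omega⟩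

/-- the character sum over `F_{p^L}` -/
noncomputable def CS (f : MvPolynomial σ (k p)) (ζ : PadicAlgCl p) (L : ℕ) : PadicAlgCl p :=
  ∑ c ∈ Finset.range p, ((Nat.card {x : σ → k p // (∀ i, x i ^ p ^ L = x i) ∧
    ∑ j ∈ Finset.range L, (MvPolynomial.eval x f) ^ p ^ j = (c : k p)} : ℕ) : PadicAlgCl p) * ζ ^ c

theorem one_close {f : MvPolynomial σ (k p)} {s : ℕ} (D : Lifts p f s) (hs : s ≠ 0) {m : ℕ}
    (hm : m ≠ 0) {N : ℕ} {γ ζ : PadicAlgCl p} (hζ : IsPrimitiveRoot ζ p) (hγ0 : γ ≠ 0)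
    (hγ : ‖γ‖ ≤ 1) (hγζ : (Split.Theta p N γ).eval 1 = ζ) (a : Fin (p - 1))
    {x : σ → PadicAlgCl p} (hxQ : ∀ i, x i ^ p ^ (s * m) = x i) {n : ℕ}
    (hn : (n : k p) = ∑ j ∈ Finset.range (s * m),
      (MvPolynomial.eval (fun i => red p (x i)) f) ^ p ^ j) :
    ‖ζ ^ ((a + 1 : ℕ) * n) - ∏ μ ∈ f.support, ∏ j ∈ Finset.range (s * m),
      (Split.Theta p N γ).eval ((D.a a * D.c μ * ∏ i, x i ^ μ i) ^ p ^ j)‖ ≤ ‖γ‖ ^ N := by
  classical
  obtain ⟨L, hLdef⟩ : ∃ L, L = s * m := ⟨_, rfl⟩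
  rw [← hLdef] at hxQ hn ⊢
  have hL : L ≠ 0 := by rw [hLdef]; exact mul_ne_zero hs hm
  have hQ := one_lt_Q (p := p) hL
  have hγN : 0 ≤ ‖γ‖ ^ N := by positivity
  have hcQ : ∀ μ, D.c μ ^ p ^ L = D.c μ := by
    intro μ
    rw [hLdef, pow_mul p s m]
    have : ∀ r, D.c μ ^ (p ^ s) ^ r = D.c μ := by
      intro r
      induction r with
      | zero => simp
      | succ r ih => rw [pow_succ, pow_mul, ih, D.hc]
    exact this m
  have haQ : ∀ i, D.a i ^ p ^ L = D.a i := by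
    intro i
    have : ∀ r, D.a i ^ p ^ r = D.a i := by
      intro r
      induction r with
      | zero => simp
      | succ r ih => rw [pow_succ, pow_mul, ih, D.ha]
    exact this L
  have hx1 : ∀ i, ‖x i‖ ≤ 1 := fun i => norm_le_one_of_pow hQ (hxQ i)
  obtain ⟨u, hu⟩ : ∃ u : Fin (p - 1) → (σ →₀ ℕ) → PadicAlgCl p,
    ∀ a μ, u a μ = D.a a * D.c μ * ∏ i, x i ^ μ i := ⟨_, fun _ _ => rfl⟩
  have huQ : ∀ a μ, u a μ ^ p ^ L = u a μ := by
    intro a μ
    rw [hu, mul_pow, mul_pow, haQ, hcQ, ← Finset.prod_pow]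
    congr 1
    refine Finset.prod_congr rfl fun i _ => ?_
    rw [← pow_mul, mul_comm, pow_mul, hxQ]
  have hu1 : ∀ a μ, ‖u a μ‖ ≤ 1 := fun a μ => norm_le_one_of_pow hQ (huQ a μ)
  -- integer approximations
  have happ : ∀ a μ, ∃ t : ℕ, ‖(∑ j ∈ Finset.range L, u a μ ^ p ^ j) - t‖ < 1 ∧
      ‖∏ j ∈ Finset.range L, (Split.Theta p N γ).eval (u a μ ^ p ^ j) - ζ ^ t‖ ≤ ‖γ‖ ^ N := by
    intro a μ
    obtain ⟨δ, hδ, h⟩ := Split.split_close hE hγ0 hγ hγζ (huQ a μ) (hu1 a μ)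
    obtain ⟨t, ht⟩ := trace_approx hL (huQ a μ) (lt_min hδ one_pos)
    exact ⟨t, lt_of_lt_of_le ht (min_le_right _ _), h t (lt_of_lt_of_le ht (min_le_left _ _))⟩
  choose t ht1 ht2 using happ
  have hζ1 : ‖ζ‖ = 1 := by
    have h3 : ‖ζ‖ ^ p = 1 := by rw [← norm_pow, hζ.pow_eq_one, norm_one]
    exact (pow_eq_one_iff_of_nonneg (norm_nonneg _) hp.1.ne_zero).1 h3
  -- the trace of `f`
  obtain ⟨v, hv⟩ : ∃ v, v = MvPolynomial.eval (fun i => red p (x i)) f := ⟨_, rfl⟩
  obtain ⟨T, hT⟩ : ∃ T, T = ∑ j ∈ Finset.range L, v ^ p ^ j := ⟨_, rfl⟩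
  rw [← hv, ← hT] at hn
  have hvsum : v = ∑ μ ∈ f.support, f.coeff μ * ∏ i, red p (x i) ^ μ i := by
    rw [hv, MvPolynomial.eval_eq']
  have hkey : ζ ^ ((a + 1 : ℕ) * n) = ∏ μ ∈ f.support, ζ ^ t a μ := by
    rw [Finset.prod_pow_eq_pow_sum]
    have hmod : ((((a : ℕ) + 1) * n : ℕ) : k p) = ((∑ μ ∈ f.support, t a μ : ℕ) : k p) := by
      push_cast
      have h6 : ∀ μ ∈ f.support, (t a μ : k p) =
          ∑ j ∈ Finset.range L, (((a : ℕ) + 1 : ℕ) * f.coeff μ *
            ∏ i, red p (x i) ^ μ i) ^ p ^ j := by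
        intro μ _
        have h7 : red p (u a μ) = (((a : ℕ) + 1 : ℕ) : k p) * f.coeff μ *
            ∏ i, red p (x i) ^ μ i := by
          have hprod : ‖∏ i, x i ^ μ i‖ ≤ 1 := by
            rw [norm_prod]
            refine Finset.prod_le_one (fun _ _ => norm_nonneg _) fun i _ => ?_
            rw [norm_pow]
            exact pow_le_one₀ (norm_nonneg _) (hx1 i)
          have hna := norm_le_one_of_pow hQ (haQ a)
          have hnc := norm_le_one_of_pow hQ (hcQ μ)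
          have hnac : ‖D.a a * D.c μ‖ ≤ 1 := by
            rw [norm_mul]
            exact mul_le_one₀ hna (norm_nonneg _) hnc
          rw [hu, red_mul hnac hprod, red_mul hna hnc, D.hared, D.hred, red_prod]
          · congr 1
            exact Finset.prod_congr rfl fun i _ => red_pow (hx1 i) _
          · intro i _
            rw [norm_pow]
            exact pow_le_one₀ (norm_nonneg _) (hx1 i)
        rw [← h7]
        have h8 : red p (∑ j ∈ Finset.range L, u a μ ^ p ^ j) = (t a μ : k p) := by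
          rw [← red_natCast]
          refine (red_eq ?_ (IsUltrametricDist.norm_natCast_le_one _ _)).2 (ht1 a μ)
          refine IsUltrametricDist.norm_sum_le_of_forall_le_of_nonneg zero_le_one fun j _ => ?_
          rw [norm_pow]
          exact pow_le_one₀ (norm_nonneg _) (hu1 a μ)
        rw [← h8, red_sum]
        · exact Finset.sum_congr rfl fun j _ => red_pow (hu1 a μ) _
        · intro j _
          rw [norm_pow]
          exact pow_le_one₀ (norm_nonneg _) (hu1 a μ)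
      rw [Finset.sum_congr rfl h6, Finset.sum_comm, hn, hT, Finset.mul_sum]
      refine Finset.sum_congr rfl fun j _ => ?_
      rw [← sum_pow_char_pow, hvsum]
      simp only [mul_assoc]
      rw [← Finset.mul_sum, mul_pow]
      congr 1
      have h9 : ∀ r, (((a : ℕ) + 1 : ℕ) : k p) ^ p ^ r = (((a : ℕ) + 1 : ℕ) : k p) := by
        intro r
        have := map_natCast (iterateFrobenius (k p) p r) ((a : ℕ) + 1)
        rwa [iterateFrobenius_def] at this
      rw [h9]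
      push_cast
      rfl
    have hmod2 := (CharP.natCast_eq_natCast (k p) p).1 hmod
    rw [← pow_mod_orderOf ζ, ← hζ.eq_orderOf, ← pow_mod_orderOf ζ (∑ μ ∈ f.support, t a μ),
      ← hζ.eq_orderOf]
    congr 1
  rw [hkey, norm_sub_rev]
  simp only [← hu]
  refine prod_close f.support hγN (fun μ _ => ?_) (fun μ _ => ?_) fun μ _ => ht2 a μ
  · rw [norm_prod]
    refine Finset.prod_le_one (fun _ _ => norm_nonneg _) fun j _ => ?_
    refine norm_Theta_le hγ ?_
    rw [norm_pow]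
    exact pow_le_one₀ (norm_nonneg _) (hu1 a μ)
  · rw [norm_pow, hζ1, one_pow]

theorem CS_close {f : MvPolynomial σ (k p)} {s : ℕ} (D : Lifts p f s) (hs : s ≠ 0) {m : ℕ}
    (hm : m ≠ 0) (hfs : ∀ μ, coeff μ f ^ p ^ s = coeff μ f)
    {N : ℕ} {γ ζ : PadicAlgCl p} (hζ : IsPrimitiveRoot ζ p) (hγ0 : γ ≠ 0)
    (hγ : ‖γ‖ ≤ 1) (hγζ : (Split.Theta p N γ).eval 1 = ζ) :
    ‖CS f ζ (s * m) - ∑ x ∈ Fintype.piFinset (fun _ : σ => MU p (p ^ (s * m))),
        ∏ μ ∈ f.support, ∏ j ∈ Finset.range (s * m),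
          (Split.Theta p N γ).eval ((D.a (a0 p) * D.c μ * ∏ i, x i ^ μ i) ^ p ^ j)‖ ≤
      ‖γ‖ ^ N := by
  classical
  have hL : s * m ≠ 0 := mul_ne_zero hs hm
  have hQ := one_lt_Q (p := p) hL
  have hγN : 0 ≤ ‖γ‖ ^ N := by positivity
  have hcQ : ∀ μ, coeff μ f ^ p ^ (s * m) = coeff μ f := by
    intro μ
    rw [pow_mul p s m]
    have : ∀ r, coeff μ f ^ (p ^ s) ^ r = coeff μ f := by
      intro r
      induction r with
      | zero => simp
      | succ r ih => rw [pow_succ, pow_mul, ih, hfs]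
    exact this m
  -- the traces
  obtain ⟨T, hT⟩ : ∃ T : (σ → k p) → k p, ∀ x, T x = ∑ j ∈ Finset.range (s * m),
    (MvPolynomial.eval x f) ^ p ^ j := ⟨_, fun _ => rfl⟩
  have hTn : ∀ x ∈ Fintype.piFinset (fun _ : σ => FQ p (p ^ (s * m))), ∃ n < p,
      (n : k p) = T x := by
    intro x hx
    rw [Fintype.mem_piFinset] at hx
    have hxQ : ∀ i, x i ^ p ^ (s * m) = x i := fun i => (mem_FQ hQ).1 (hx i)
    have hvQ : (MvPolynomial.eval x f) ^ p ^ (s * m) = MvPolynomial.eval x f := by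
      rw [MvPolynomial.eval_eq', sum_pow_char_pow]
      refine Finset.sum_congr rfl fun μ _ => ?_
      rw [mul_pow, ← Finset.prod_pow, hcQ]
      congr 1
      refine Finset.prod_congr rfl fun i _ => ?_
      rw [← pow_mul, mul_comm, pow_mul, hxQ]
    have hTp : T x ^ p = T x := by
      rw [hT, ← frobenius_def, map_sum]
      have h5 := sum_shift (p := p) hvQ 1
      rw [pow_one] at h5
      rw [← h5]
      refine Finset.sum_congr rfl fun j _ => ?_
      rw [frobenius_def, ← pow_mul, ← pow_mul, mul_comm]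
    obtain ⟨n, hn⟩ := exists_nat_of_pow hTp
    refine ⟨n % p, Nat.mod_lt _ hp.1.pos, ?_⟩
    rw [← hn]
    exact (CharP.natCast_eq_natCast (k p) p).2 (Nat.mod_modEq n p)
  choose! n hn1 hn2 using hTn
  have hCS : CS f ζ (s * m) =
      ∑ x ∈ Fintype.piFinset (fun _ : σ => FQ p (p ^ (s * m))), ζ ^ n x := by
    rw [CS, ← Finset.sum_fiberwise_of_maps_to (t := Finset.range p) (g := n)
      (fun x hx => Finset.mem_range.2 (hn1 x hx))]
    refine Finset.sum_congr rfl fun c hc => ?_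
    have hc' := Finset.mem_range.1 hc
    rw [Finset.sum_congr rfl (g := fun _ => ζ ^ c) (fun x hx => by
      rw [(Finset.mem_filter.1 hx).2]), Finset.sum_const, nsmul_eq_mul]
    congr 2
    rw [Nat.subtype_card]
    intro x
    rw [Finset.mem_filter, Fintype.mem_piFinset]
    simp only [mem_FQ hQ]
    refine and_congr_right fun hx => ?_
    have hx' : x ∈ Fintype.piFinset (fun _ : σ => FQ p (p ^ (s * m))) := by
      rw [Fintype.mem_piFinset]
      exact fun i => (mem_FQ hQ).2 (hx i)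
    have h1 := hn1 x hx'
    have h2 := hn2 x hx'
    rw [← hT, ← h2]
    constructor
    · intro h
      rw [h]
    · intro h
      have h3 := (CharP.natCast_eq_natCast (k p) p).1 h
      rw [Nat.ModEq, Nat.mod_eq_of_lt h1, Nat.mod_eq_of_lt hc'] at h3
      exact h3
  rw [hCS, sum_red hL (fun x => ζ ^ n x), ← Finset.sum_sub_distrib]
  refine IsUltrametricDist.norm_sum_le_of_forall_le_of_nonneg hγN fun x hx => ?_
  have hx' := hx
  rw [Fintype.mem_piFinset] at hx
  have hxQ : ∀ i, x i ^ p ^ (s * m) = x i := fun i => (mem_MU hQ).1 (hx i)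
  have hxF : (fun i => red p (x i)) ∈ Fintype.piFinset (fun _ : σ => FQ p (p ^ (s * m))) := by
    rw [Fintype.mem_piFinset]
    intro i
    rw [mem_FQ hQ, ← red_pow (norm_le_one_of_pow hQ (hxQ i)), hxQ]
  have h1 := one_close D hs hm hζ hγ0 hγ hγζ (a0 p) hxQ (n := n fun i => red p (x i))
    (by rw [hn2 _ hxF, hT])
  have h2 : ((a0 p : Fin (p - 1)) + 1 : ℕ) * n (fun i => red p (x i)) =
      n (fun i => red p (x i)) := by
    simp [a0]
  rwa [h2] at h1

/-- the Dwork matrix of one character -/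
noncomputable abbrev C1 (D : Lifts p f s) (N : ℕ) (γ : PadicAlgCl p) (T : Finset σ) (B : ℕ) :
    Matrix (ZMod s × Idx T B) (ZMod s × Idx T B) (PadicAlgCl p) :=
  Cmat p (fun j : ZMod s => Gf D N γ (a0 p, j)) (fun j => j + 1) T B

theorem C1_apply (D : Lifts p f s) (N : ℕ) (γ : PadicAlgCl p) (T : Finset σ) (B : ℕ)
    (x y : ZMod s × Idx T B) : C1 D N γ T B x y =
      Cmat p (Gf D N γ) (rho p s) T B ((a0 p, x.1), x.2) ((a0 p, y.1), y.2) := by
  classical
  unfold C1 Cmat rho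
  by_cases h : y.1 = x.1 + 1
  · simp [h]
  · simp [h]

theorem approx1 [NeZero s] (D : Lifts p f s) (hfs : ∀ μ, coeff μ f ^ p ^ s = coeff μ f) {N : ℕ}
    {γ ζ : PadicAlgCl p} (hζ : IsPrimitiveRoot ζ p) (hγ0 : γ ≠ 0)
    (hγ : ‖γ‖ ≤ 1) (hγζ : (Split.Theta p N γ).eval 1 = ζ) {B : ℕ}
    (hB : ∀ g, ∀ v ∈ (Gf D N γ g).support, ∀ i, v i ≤ B) {L : ℕ} (hL : L ≠ 0) :
    ‖(if s ∣ L then (s : PadicAlgCl p) * CS f ζ L else 0) -
      ∑ T : Finset σ, (-1) ^ T.card * ((p ^ L : ℕ) : PadicAlgCl p) ^ (Fintype.card σ - T.card) *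
        (C1 D N γ T B ^ L).trace‖ ≤ ‖γ‖ ^ N := by
  classical
  have hs : s ≠ 0 := NeZero.ne s
  have hiter : ∀ (r : ℕ) (j : ZMod s), (fun j : ZMod s => j + 1)^[r] j = j + r := by
    intro r j
    induction r with
    | zero => simp
    | succ r ih =>
      rw [Function.iterate_succ_apply', ih]
      push_cast
      ring
  have hPi : ∀ (r : ℕ) (j : ZMod s), Pi p (fun j : ZMod s => Gf D N γ (a0 p, j)) (fun j => j + 1)
      r j = Pi p (Gf D N γ) (rho p s) r (a0 p, j) := by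
    intro r
    induction r with
    | zero =>
      intro j
      rfl
    | succ r ih =>
      intro j
      rw [Pi, Pi, ih]
      rfl
  rw [trace_formula hL (fun j : ZMod s => Gf D N γ (a0 p, j)) (fun j => j + 1)
    (fun g => hB (a0 p, g))]
  by_cases hd : s ∣ L
  · obtain ⟨m, rfl⟩ := hd
    have hm : m ≠ 0 := fun h => hL (by rw [h, mul_zero])
    rw [if_pos (dvd_mul_right s m)]
    have h1 : Finset.univ.filter (fun g : ZMod s => (fun j : ZMod s => j + 1)^[s * m] g = g) =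
        Finset.univ := by
      rw [Finset.filter_true_of_mem]
      intro g _
      rw [hiter]
      simp
    rw [h1]
    simp only [hPi, approx_aux D N γ hm]
    rw [Finset.sum_const, Finset.card_univ, ZMod.card, nsmul_eq_mul, ← mul_sub, norm_mul]
    calc _ ≤ 1 * ‖γ‖ ^ N := mul_le_mul (IsUltrametricDist.norm_natCast_le_one _ _)
          (CS_close D hs hm hfs hζ hγ0 hγ hγζ) (norm_nonneg _) zero_le_one
      _ = _ := one_mul _
  · rw [if_neg hd]
    have h1 : Finset.univ.filter (fun g : ZMod s => (fun j : ZMod s => j + 1)^[L] g = g) =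
        ∅ := by
      rw [Finset.filter_eq_empty_iff]
      intro g _ h
      rw [hiter] at h
      have h3 : (L : ZMod s) = 0 := add_eq_left.1 h
      exact hd ((ZMod.natCast_eq_zero_iff L s).1 h3)
    rw [h1, Finset.sum_empty, sub_zero, norm_zero]
    positivity

variable {r : ℝ}

theorem entry_scaled1 (D : Lifts p f s) {N : ℕ} {γ : PadicAlgCl p} (hf : WF f ω M) (hs : s ≠ 0)
    (hr : 0 < r) (hr1 : r ≤ 1) (hγ : ‖γ‖ = r ^ M) (T : Finset σ)
    (B : ℕ) (c : PadicAlgCl p) (x y : ZMod s × Idx T B) :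
    r ^ Wx ω x * ‖(c • C1 D N γ T B) x y‖ ≤
      r ^ Wx ω y * (r ^ ((p - 1) * Wx ω y) * ‖c‖) := by
  have h := entry_scaled D hf hs hr hr1 hγ (N := N) T B c ((a0 p, x.1), x.2) ((a0 p, y.1), y.2)
  rw [Matrix.smul_apply] at h ⊢
  rw [C1_apply]
  exact h

theorem small_T1 (D : Lifts p f s) {N : ℕ} {γ : PadicAlgCl p} (hf : WF f ω M) (hs : s ≠ 0)
    (hr : 0 < r) (hr1 : r < 1) (hγ : ‖γ‖ = r ^ M) {T : Finset σ}
    (B : ℕ) {e : ℕ} (hTe : T.card + e + 1 = Fintype.card σ) (hσ : 2 ≤ Fintype.card σ) [NeZero s]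
    (n : ℕ) (hn : n ≠ 0) :
    ‖(((p : PadicAlgCl p) ^ e) • C1 D N γ T B).charpolyRev.coeff n‖ < 1 := by
  classical
  have hp2 := hp.1.two_le
  have hpn : ‖(p : PadicAlgCl p)‖ < 1 := norm_p_lt p
  have hpn0 : 0 < ‖(p : PadicAlgCl p)‖ := norm_pos_iff.2 (Nat.cast_ne_zero.2 hp.1.ne_zero)
  refine Minor.small_of_minors _
    (fun y => r ^ ((p - 1) * Wx ω y) * ‖(p : PadicAlgCl p) ^ e‖) ?_ ?_ ?_ n hn
  · intro x
    rw [norm_pow]
    positivity
  · intro x
    rw [norm_pow]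
    rcases Nat.eq_zero_or_pos e with he | he
    · rw [he, pow_zero, mul_one]
      refine pow_lt_one₀ hr.le hr1 ?_
      have hT : T.Nonempty := by
        rw [← Finset.card_pos]
        omega
      obtain ⟨i, hi⟩ := hT
      have h1 := x.2.2 i hi
      have h2 : 1 ≤ Wx ω x := by
        unfold Wx wt
        calc 1 ≤ ω i * (toF x.2.1 i) := by
              rw [toF_apply]
              exact Nat.mul_pos (hf.hω i) (Nat.pos_of_ne_zero h1)
          _ ≤ _ := Finset.single_le_sum (f := fun i => ω i * toF x.2.1 i)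
              (fun _ _ => Nat.zero_le _) (Finset.mem_univ i)
      have h3 : 0 < (p - 1) * Wx ω x := Nat.mul_pos (by omega) h2
      exact h3.ne'
    · calc _ ≤ 1 * ‖(p : PadicAlgCl p)‖ ^ e :=
            mul_le_mul_of_nonneg_right (pow_le_one₀ hr.le hr1.le) (by positivity)
        _ = ‖(p : PadicAlgCl p)‖ ^ e := one_mul _
        _ < 1 := pow_lt_one₀ hpn0.le hpn he.ne'
  · intro S
    refine Minor.minor_le _ (fun x => r ^ Wx ω x) _ (fun x => by positivity)
      (fun x y => entry_scaled1 D hf hs hr hr1.le hγ T B _ x y) (fun x => ?_) S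
    rw [norm_pow]
    positivity

end OC

end Pool.Agent.N867.AS
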