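import Pool.Agent.N867.AS.R9

/-!
# One character: complex `L`-functions
-/

set_option autoImplicit false
set_option linter.unusedSectionVars false

namespace Pool.Agent.N867.AS

namespace OC

open Polynomial Res Tr Bd RedS GW TV Pool.Agent.N867.AS.Trans

section card

open Cardinal

variable {p : ℕ} [hp : Fact p.Prime]

theorem card_padic : #ℚ_[p] = 𝔠 := by
  apply le_antisymm
  · have h1 : #ℚ_[p] ≤ #(CauSeq ℚ (padicNorm p)) := by
      unfold Padic CauSeq.Completion.Cauchy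
      exact mk_quotient_le
    refine h1.trans ?_
    have h2 : #(CauSeq ℚ (padicNorm p)) ≤ #(ℕ → ℚ) := mk_subtype_le _
    refine h2.trans ?_
    rw [← power_def, mk_nat, mk_eq_aleph0 ℚ, aleph0_power_aleph0]
  · exact continuum_le_cardinal_of_nontriviallyNormedField ℚ_[p]

theorem card_padicAlgCl : #(PadicAlgCl p) = 𝔠 := by
  apply le_antisymm
  · refine (Algebra.IsAlgebraic.cardinalMk_le_max ℚ_[p] (PadicAlgCl p)).trans ?_
    rw [card_padic]
    exact max_le le_rfl aleph0_le_continuum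
  · rw [← card_padic (p := p)]
    exact mk_le_of_injective (algebraMap ℚ_[p] (PadicAlgCl p)).injective

theorem exists_iso : Nonempty (ℂ ≃+* PadicAlgCl p) := by
  have h1 : #ℂ = #(PadicAlgCl p) := by rw [card_padicAlgCl, Cardinal.mk_complex]
  have : CharZero (PadicAlgCl p) := inferInstance
  exact IsAlgClosed.ringEquiv_of_equiv_of_charZero (by
    rw [Cardinal.mk_complex]
    exact aleph0_lt_continuum) (Cardinal.eq.1 h1)

end card

section count

variable {κ : Type} [Field κ]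

/-- the number of `(t, x)` in `F_Q^2` with `∑_{i < L} f(x, t)^{p^i} = c` -/
noncomputable def Tpts (p : ℕ) (f : κ[X][X]) (Q L c : ℕ) : ℕ :=
  Nat.card {v : AlgebraicClosure κ × AlgebraicClosure κ // v.1 ^ Q = v.1 ∧ v.2 ^ Q = v.2 ∧
    ∑ i ∈ Finset.range L,
      (f.eval₂ (eval₂RingHom (algebraMap κ (AlgebraicClosure κ)) v.1) v.2) ^ p ^ i = c}

theorem CS_eq (p : ℕ) [Fact p.Prime] (φ : AlgebraicClosure κ →+* Res.k p) (f : κ[X][X])
    (ζ : PadicAlgCl p) {L : ℕ} (hL : L ≠ 0) :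
    CS (Ψ (φ.comp (algebraMap κ (AlgebraicClosure κ))) f) ζ L =
      ∑ c ∈ Finset.range p, (Tpts p f (p ^ L) L c : PadicAlgCl p) * ζ ^ c := by
  have hQ : 1 < p ^ L := one_lt_Q hL
  have hev : ∀ t x : AlgebraicClosure κ,
      f.eval₂ (eval₂RingHom (φ.comp (algebraMap κ (AlgebraicClosure κ))) (φ t)) (φ x) =
        φ (f.eval₂ (eval₂RingHom (algebraMap κ (AlgebraicClosure κ)) t) x) := by
    intro t x
    rw [hom_eval₂]
    congr 1
    refine Polynomial.ringHom_ext' ?_ ?_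
    · ext c
      simp
    · simp
  unfold CS
  refine Finset.sum_congr rfl fun c _ => ?_
  congr 2
  unfold Tpts
  symm
  refine Nat.card_congr (Equiv.ofBijective (fun v => ⟨![φ v.1.2, φ v.1.1], ?_⟩) ?_)
  · obtain ⟨⟨t, x⟩, h1, h2, h3⟩ := v
    simp only at h1 h2 h3
    refine ⟨?_, ?_⟩
    · intro i
      fin_cases i
      · change φ x ^ p ^ L = φ x
        rw [← map_pow, h2]
      · change φ t ^ p ^ L = φ t
        rw [← map_pow, h1]
    · rw [eval_Ψ]
      change ∑ j ∈ Finset.range L, (f.eval₂ (eval₂RingHom _ (φ t)) (φ x)) ^ p ^ j = _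
      rw [hev]
      have h4 := congrArg φ h3
      rw [map_sum, map_natCast] at h4
      rw [← h4]
      refine Finset.sum_congr rfl fun j _ => ?_
      rw [map_pow]
  · constructor
    · rintro ⟨⟨t, x⟩, h1⟩ ⟨⟨t', x'⟩, h1'⟩ h
      have h2 := congrArg Subtype.val h
      have h3 := congrArg (fun w => w 0) h2
      have h4 := congrArg (fun w => w 1) h2
      have h6 : x = x' := φ.injective h3
      have h7 : t = t' := φ.injective h4
      subst h6 h7
      rfl
    · rintro ⟨w, h1, h3⟩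
      obtain ⟨x, hx⟩ := exists_preimage φ hQ (h1 0)
      obtain ⟨t, ht⟩ := exists_preimage φ hQ (h1 1)
      refine ⟨⟨(t, x), ?_, ?_, ?_⟩, ?_⟩
      · apply φ.injective
        change φ (t ^ p ^ L) = φ t
        rw [map_pow, ht]
        exact h1 1
      · apply φ.injective
        change φ (x ^ p ^ L) = φ x
        rw [map_pow, hx]
        exact h1 0
      · apply φ.injective
        change φ (∑ i ∈ Finset.range L,
          (f.eval₂ (eval₂RingHom (algebraMap κ (AlgebraicClosure κ)) t) x) ^ p ^ i) = φ c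
        rw [map_sum, map_natCast]
        rw [eval_Ψ] at h3
        rw [← h3]
        refine Finset.sum_congr rfl fun j _ => ?_
        rw [map_pow, ← hev, ht, hx]
      · apply Subtype.ext
        change ![φ x, φ t] = w
        rw [hx, ht]
        ext i
        fin_cases i <;> rfl

end count

variable {p : ℕ} {κ : Type} [Field κ] {a b g : ℕ}

/-- one embedding -/
theorem one_hom [hp : Fact p.Prime] (ha : a ≠ 0) (hb : b ≠ 0) (hab : a.Coprime b) (hg : g ≠ 0)
    (hga : g * a ∣ p - 1) (hgb : g * b ∣ p - 1) (f : κ[X][X])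
    (hwt : ∀ m n, (f.coeff m).coeff n ≠ 0 → b * m + a * n ≤ g * (a * b))
    (hord : ∀ w, 0 < w → w < g * (a * b) →
      (TV.hw p a b w ((p - 1) * w / (g * (a * b))) f).det ≠ 0) {s : ℕ}
    (hsep : ∀ w, 0 < w → w < g * (a * b) →
      (FP (fun j => (TV.hw p a b w ((p - 1) * w / (g * (a * b))) f).map fun z => z ^ p ^ j)
        s).charpolyRev.Separable) {e : ℕ}
    (H : Fin e → κ[X]) (hirr : ∀ i, Irreducible (H i)) (hmon : ∀ i, (H i).Monic)
    (hne : Pairwise fun i j => IsCoprime (H i) (H j)) (htop : topPoly a b g f = ∏ i, H i)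
    (hdeg : (∏ i, H i).natDegree = g)
    (hcop : ∀ i j, i ≠ j → (H i).natDegree.Coprime (H j).natDegree)
    [Fintype κ] [CharP κ p] (hs : Fintype.card κ = p ^ s)
    {ζ : ℂ} (hζ : IsPrimitiveRoot ζ p) (L : ℂ[X]) (hL0 : L.coeff 0 = 1)
    (hL : PowerSeries.X * PowerSeries.derivative ℂ (L : PowerSeries ℂ) =
      -((L : PowerSeries ℂ) * PowerSeries.mk (fun m => if m = 0 then 0 else
        ∑ c ∈ Finset.range p, (Tpts p f (p ^ (s * m)) (s * m) c : ℂ) * ζ ^ c)))
    (θ : ℂ →+* PadicAlgCl p) :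
    L.rootMultiplicity ((p : ℂ) ^ s)⁻¹ ≤ e - 1 ∧
    ∀ z : ℂ, ‖(p : PadicAlgCl p)‖ ^ s ≤ ‖(θ z)⁻¹‖ → z ≠ ((p : ℂ) ^ s)⁻¹ →
      L.rootMultiplicity z ≤ 1 ∨
      L.rootMultiplicity z + L.rootMultiplicity ((p : ℂ) ^ s)⁻¹ ≤ e - 1 := by
  classical
  have hs0 : s ≠ 0 := by
    rintro rfl
    rw [pow_zero] at hs
    exact absurd hs (Fintype.one_lt_card (α := κ)).ne'
  -- the embedding of the algebraic closure
  obtain ⟨φ⟩ : Nonempty (AlgebraicClosure κ →+* Res.k p) := by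
    have hch : CharP (AlgebraicClosure κ) p :=
      charP_of_injective_algebraMap (algebraMap κ (AlgebraicClosure κ)).injective p
    let _ : Algebra (ZMod p) κ := ZMod.algebra κ p
    have _ : IsScalarTower (ZMod p) κ (AlgebraicClosure κ) := inferInstance
    have _ : Algebra.IsAlgebraic (ZMod p) κ := Algebra.IsAlgebraic.of_finite _ _
    have _ : Algebra.IsAlgebraic (ZMod p) (AlgebraicClosure κ) :=
      Algebra.IsAlgebraic.trans (ZMod p) κ (AlgebraicClosure κ)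
    let _ : Algebra (ZMod p) (Res.k p) := ZMod.algebra _ p
    exact ⟨(IsAlgClosed.lift (R := ZMod p) (S := AlgebraicClosure κ) (M := Res.k p)).toRingHom⟩
  have hPS : HasPS (L : PowerSeries ℂ) (fun m =>
      ∑ c ∈ Finset.range p, (Tpts p f (p ^ (s * m)) (s * m) c : ℂ) * ζ ^ c) := by
    refine ⟨?_, ?_⟩
    · rw [← PowerSeries.coeff_zero_eq_constantCoeff_apply, Polynomial.coeff_coe, hL0]
    · rw [hL]
      rfl
  have hPS2 := hPS.map θ
  have hPS3 : HasPS ((L.map θ : Polynomial (PadicAlgCl p)) : PowerSeries (PadicAlgCl p)) (fun m =>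
      CS (Ψ (φ.comp (algebraMap κ (AlgebraicClosure κ))) f) (θ ζ) (s * m)) := by
    rw [Polynomial.polynomial_map_coe] at *
    refine ⟨hPS2.1, ?_⟩
    rw [hPS2.2]
    congr 2
    refine pser_congr fun m hm => ?_
    rw [CS_eq p φ f (θ ζ) (mul_ne_zero hs0 hm), map_sum]
    refine Finset.sum_congr rfl fun c _ => ?_
    rw [map_mul, map_natCast, map_pow]
  have hζ' : IsPrimitiveRoot (θ ζ) p := hζ.map_of_injective θ.injective
  have hq : θ (((p : ℂ) ^ s)⁻¹) = ((p : PadicAlgCl p) ^ s)⁻¹ := by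
    rw [map_inv₀, map_pow, map_natCast]
  have hrm : ∀ z, L.rootMultiplicity z = (L.map θ).rootMultiplicity (θ z) := fun z =>
    Polynomial.eq_rootMultiplicity_map θ.injective z
  obtain ⟨h1, h2⟩ := padic ha hb hab hg hga hgb f hwt hord hsep H hirr hmon hne htop hdeg hcop hs
    (φ.comp (algebraMap κ (AlgebraicClosure κ))) hζ' (L.map θ) hPS3
  rw [hrm, hq]
  refine ⟨h1, fun z hz hne => ?_⟩
  rw [hrm]
  exact h2 (θ z) hz fun h => hne (θ.injective (by rw [h, hq]))

/-- multiplicities of all the roots -/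
theorem main (hp : p.Prime) (ha : a ≠ 0) (hb : b ≠ 0) (hab : a.Coprime b) (hg : g ≠ 0)
    (hga : g * a ∣ p - 1) (hgb : g * b ∣ p - 1) (f : κ[X][X])
    (hwt : ∀ m n, (f.coeff m).coeff n ≠ 0 → b * m + a * n ≤ g * (a * b))
    (hord : ∀ w, 0 < w → w < g * (a * b) →
      (TV.hw p a b w ((p - 1) * w / (g * (a * b))) f).det ≠ 0) {s : ℕ}
    (hsep : ∀ w, 0 < w → w < g * (a * b) →
      (FP (fun j => (TV.hw p a b w ((p - 1) * w / (g * (a * b))) f).map fun z => z ^ p ^ j)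
        s).charpolyRev.Separable) {e : ℕ}
    (H : Fin e → κ[X]) (hirr : ∀ i, Irreducible (H i)) (hmon : ∀ i, (H i).Monic)
    (hne : Pairwise fun i j => IsCoprime (H i) (H j)) (htop : topPoly a b g f = ∏ i, H i)
    (hdeg : (∏ i, H i).natDegree = g)
    (hcop : ∀ i j, i ≠ j → (H i).natDegree.Coprime (H j).natDegree)
    [Fintype κ] [CharP κ p] (hs : Fintype.card κ = p ^ s)
    {ζ : ℂ} (hζ : IsPrimitiveRoot ζ p) (L : ℂ[X]) (hL0 : L.coeff 0 = 1)
    (hL : PowerSeries.X * PowerSeries.derivative ℂ (L : PowerSeries ℂ) =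
      -((L : PowerSeries ℂ) * PowerSeries.mk (fun m => if m = 0 then 0 else
        ∑ c ∈ Finset.range p, (Tpts p f (p ^ (s * m)) (s * m) c : ℂ) * ζ ^ c)))
    (hpure : ∀ z : ℂ, L.IsRoot z → ‖z‖ * ((p : ℝ) ^ s) = 1) :
    L.rootMultiplicity ((p : ℂ) ^ s)⁻¹ ≤ e - 1 ∧
    ∀ z : ℂ, z ≠ ((p : ℂ) ^ s)⁻¹ →
      L.rootMultiplicity z ≤ 1 ∨
      L.rootMultiplicity z + L.rootMultiplicity ((p : ℂ) ^ s)⁻¹ ≤ e - 1 := by
  classical
  have : Fact p.Prime := ⟨hp⟩
  have hpc : (p : ℂ) ≠ 0 := Nat.cast_ne_zero.2 hp.ne_zero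
  have hpr : (0 : ℝ) < (p : ℝ) := Nat.cast_pos.2 hp.pos
  have hpne : (p : PadicAlgCl p) ≠ 0 := Nat.cast_ne_zero.2 hp.ne_zero
  have hpn0 : 0 < ‖(p : PadicAlgCl p)‖ := norm_pos_iff.2 hpne
  obtain ⟨θ⟩ := exists_iso (p := p)
  have h1 := fun (θ' : ℂ →+* PadicAlgCl p) =>
    one_hom ha hb hab hg hga hgb f hwt hord hsep H hirr hmon hne htop hdeg hcop hs hζ L hL0 hL θ'
  refine ⟨(h1 θ.toRingHom).1, fun z hz => ?_⟩
  by_cases hroot : L.IsRoot z
  swap
  · left
    rw [rootMultiplicity_eq_zero hroot]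
    exact Nat.zero_le _
  have hn := hpure z hroot
  have hz0 : z ≠ 0 := by
    rintro rfl
    rw [norm_zero, zero_mul] at hn
    exact zero_ne_one hn
  rcases le_or_gt (‖(p : PadicAlgCl p)‖ ^ s) ‖(θ z)⁻¹‖ with h | h
  · exact (h1 θ.toRingHom).2 z h hz
  · refine (h1 (θ.toRingHom.comp (starRingEnd ℂ))).2 z ?_ hz
    have h2 : (starRingEnd ℂ) z * z * ((p : ℂ) ^ s) ^ 2 = 1 := by
      rw [mul_comm ((starRingEnd ℂ) z) z, Complex.mul_conj, Complex.normSq_eq_norm_sq]
      have h3 : (((‖z‖ * (p : ℝ) ^ s) ^ 2 : ℝ) : ℂ) = 1 := by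
        rw [hn]
        simp
      rw [← h3]
      push_cast
      ring
    have h3 : θ ((starRingEnd ℂ) z) * θ z * ((p : PadicAlgCl p) ^ s) ^ 2 = 1 := by
      rw [← map_natCast θ p, ← map_pow, ← map_pow, ← map_mul, ← map_mul, h2, map_one]
    have hθz : θ z ≠ 0 := (map_ne_zero θ).2 hz0
    have h4 : (θ ((starRingEnd ℂ) z))⁻¹ = θ z * ((p : PadicAlgCl p) ^ s) ^ 2 := by
      refine inv_eq_of_mul_eq_one_right ?_
      rw [← h3]
      ring
    change ‖(p : PadicAlgCl p)‖ ^ s ≤ ‖(θ ((starRingEnd ℂ) z))⁻¹‖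
    have h5 : 0 < ‖θ z‖ := norm_pos_iff.2 hθz
    have h6 : 1 ≤ ‖θ z‖ * ‖(p : PadicAlgCl p)‖ ^ s := by
      rw [norm_inv] at h
      have h7 := mul_lt_mul_of_pos_left h h5
      rw [mul_inv_cancel₀ h5.ne'] at h7
      exact h7.le
    rw [h4, norm_mul, norm_pow, norm_pow, pow_two, ← mul_assoc]
    exact le_mul_of_one_le_left (by positivity) h6

end OC

end Pool.Agent.N867.AS
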