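import Pool.Agent.N867.AS.R10
import Pool.Agent.N867.AS.M2

/-!
# One character: the theorem in terms of the leading form
-/

set_option autoImplicit false
set_option linter.unusedSectionVars false

namespace Pool.Agent.N867.AS

namespace OC

open Polynomial Res Tr Bd RedS GW TV Pool.Agent.N867.AS.Trans Pool.Agent.N867.AS.LP
  Pool.Agent.N867.AS.Final2

theorem sep_subsingleton {F : Type*} [Field F] {ι : Type*} [Fintype ι] [DecidableEq ι]
    [Subsingleton ι] (A : Matrix ι ι F) : A.charpolyRev.Separable := by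
  rcases isEmpty_or_nonempty ι with h | ⟨⟨i⟩⟩
  · rw [Matrix.charpolyRev, Matrix.det_isEmpty]
    exact separable_one
  · rw [Matrix.charpolyRev, Matrix.det_eq_elem_of_subsingleton _ i, Matrix.sub_apply,
      Matrix.one_apply_eq, Matrix.smul_apply, Matrix.map_apply, smul_eq_mul, separable_def]
    refine ⟨1, -X, ?_⟩
    rw [derivative_sub, derivative_one, derivative_mul, derivative_X, derivative_C]
    ring

theorem main2 {p : ℕ} (hp : p.Prime) {κ : Type} [Field κ] [Fintype κ] [CharP κ p] {s : ℕ}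
    (hs : Fintype.card κ = p ^ s) {a b g e : ℕ} (hab : a.Coprime b) (hga : g * a ∣ p - 1)
    (hgb : g * b ∣ p - 1) (H : Fin e → κ[X]) (hirr : ∀ i, Irreducible (H i))
    (hmon : ∀ i, (H i).Monic) (hinj : Function.Injective H) (hdeg : (∏ i, H i).natDegree = g)
    (hcop : ∀ i j, i ≠ j → (H i).natDegree.Coprime (H j).natDegree)
    (hord : OrdP p a b g (∏ i, H i))
    (hdist : ∀ w, 0 < w → w < g * (a * b) → Subsingleton (Lat a b w) ∨
      (FP (fun j => (hws p a b w ((p - 1) * w / (g * (a * b))) (∏ i, H i)).map fun z => z ^ p ^ j)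
        s).charpolyRev.Separable)
    (f : κ[X][X]) (hf : Lead a b g (∏ i, H i) f)
    {ζ : ℂ} (hζ : IsPrimitiveRoot ζ p) (L : ℂ[X]) (hL0 : L.coeff 0 = 1)
    (hL : PowerSeries.X * PowerSeries.derivative ℂ (L : PowerSeries ℂ) =
      -((L : PowerSeries ℂ) * PowerSeries.mk (fun m => if m = 0 then 0 else
        ∑ c ∈ Finset.range p, (Tpts p f (p ^ (s * m)) (s * m) c : ℂ) * ζ ^ c)))
    (hpure : ∀ z : ℂ, L.IsRoot z → ‖z‖ * ((p : ℝ) ^ s) = 1) :
    L.rootMultiplicity ((p : ℂ) ^ s)⁻¹ ≤ e - 1 ∧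
    ∀ z : ℂ, z ≠ ((p : ℂ) ^ s)⁻¹ →
      L.rootMultiplicity z ≤ 1 ∨
      L.rootMultiplicity z + L.rootMultiplicity ((p : ℂ) ^ s)⁻¹ ≤ e - 1 := by
  classical
  have hp1 : p - 1 ≠ 0 := by
    have := hp.two_le
    omega
  have hga0 : g * a ≠ 0 := fun h => hp1 (by rwa [h, zero_dvd_iff] at hga)
  have hgb0 : g * b ≠ 0 := fun h => hp1 (by rwa [h, zero_dvd_iff] at hgb)
  have hg : g ≠ 0 := left_ne_zero_of_mul hga0
  have ha : a ≠ 0 := right_ne_zero_of_mul hga0
  have hb : b ≠ 0 := right_ne_zero_of_mul hgb0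
  have hne : Pairwise fun i j => IsCoprime (H i) (H j) := by
    intro i j hij
    refine (hirr i).coprime_iff_not_dvd.2 fun hdvd => hij (hinj ?_)
    exact eq_of_monic_of_associated (hmon i) (hmon j)
      ((hirr i).associated_of_dvd (hirr j) hdvd)
  have hM := dvd_M hab hg hga hgb
  have hhw : ∀ w, w < g * (a * b) → TV.hw p a b w ((p - 1) * w / (g * (a * b))) f =
      hws p a b w ((p - 1) * w / (g * (a * b))) (∏ i, H i) := by
    intro w hw
    rw [hw_eq hp ha hb hab hg hM hf.1 hw, hf.2]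
  refine main hp ha hb hab hg hga hgb f hf.1 (fun w hw0 hw => ?_) (fun w hw0 hw => ?_) H hirr hmon
    hne hf.2 hdeg hcop hs hζ L hL0 hL hpure
  · rw [hhw w hw]
    exact hord w hw0 hw
  · rw [hhw w hw]
    rcases hdist w hw0 hw with h | h
    · exact sep_subsingleton _
    · exact h

end OC

end Pool.Agent.N867.AS
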