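import Pool.Agent.N867.AS.R12

/-!
# Two surfaces: common eigenvalues
-/

set_option autoImplicit false
set_option linter.unusedSectionVars false

namespace Pool.Agent.N867.AS

namespace OC

open MvPolynomial Res Tr Bd RedS GW TV Pool.Agent.N867.AS.Trans

variable {p : ℕ} [hp : Fact p.Prime] {κ : Type} [Field κ]

/-- the residues of an eigenvalue of slope at most one -/
theorem info1 {a b g : ℕ} (ha : a ≠ 0) (hb : b ≠ 0) (hab : a.Coprime b) (hg : g ≠ 0)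
    (hga : g * a ∣ p - 1) (hgb : g * b ∣ p - 1) (f : Polynomial (Polynomial κ))
    (hwt : ∀ m n, (f.coeff m).coeff n ≠ 0 → b * m + a * n ≤ g * (a * b))
    (hord : ∀ w, 0 < w → w < g * (a * b) →
      (TV.hw p a b w ((p - 1) * w / (g * (a * b))) f).det ≠ 0) {s : ℕ} {e : ℕ}
    (H : Fin e → Polynomial κ) (hirr : ∀ i, Irreducible (H i)) (hmon : ∀ i, (H i).Monic)
    (hne : Pairwise fun i j => IsCoprime (H i) (H j)) (htop : topPoly a b g f = ∏ i, H i)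
    (hdeg : (∏ i, H i).natDegree = g)
    [Fintype κ] [CharP κ p] (hs : Fintype.card κ = p ^ s)
    (φκ : κ →+* k p) {ζ : PadicAlgCl p} (hζ : IsPrimitiveRoot ζ p)
    (P : Polynomial (PadicAlgCl p))
    (hP : HasPS (P : PowerSeries (PadicAlgCl p)) (fun m => CS (Ψ φκ f) ζ (s * m)))
    {ρ : PadicAlgCl p} (hroot : ρ ∈ P.roots) (hρn : ‖(p : PadicAlgCl p)‖ ^ s ≤ ‖ρ⁻¹‖) :
    (∃ w, 0 < w ∧ w < g * (a * b) ∧
      ‖ρ⁻¹‖ ^ (g * (a * b)) = ‖(p : PadicAlgCl p)‖ ^ (s * w) ∧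
      ‖ρ⁻¹ * (((ζ - 1) ^ ((p - 1) * w / (g * (a * b))))⁻¹) ^ s‖ = 1 ∧
      ((FP (fun j => (TV.hw p a b w ((p - 1) * w / (g * (a * b))) f).map fun z => z ^ p ^ j)
        s).charpolyRev.map φκ).eval
          (((((p - 1) * w / (g * (a * b))).factorial : ℕ) : k p)⁻¹ ^ s *
            (red p (ρ⁻¹ * (((ζ - 1) ^ ((p - 1) * w / (g * (a * b))))⁻¹) ^ s))⁻¹) = 0) ∨
    (‖ρ⁻¹‖ = ‖(p : PadicAlgCl p)‖ ^ s ∧
      ∃ μ : k p, μ = red p (ρ⁻¹ * ((p : PadicAlgCl p)⁻¹) ^ s) ∧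
        (∃ j, μ ^ (H j).natDegree = 1) ∧ (μ = 1 → 2 ≤ e ∧
          (ρ ≠ ((p : PadicAlgCl p) ^ s)⁻¹ →
            P.rootMultiplicity ρ + P.rootMultiplicity (((p : PadicAlgCl p) ^ s)⁻¹) ≤ e - 1))) := by
  classical
  have hp2 := hp.1.two_le
  have hpne : (p : PadicAlgCl p) ≠ 0 := Nat.cast_ne_zero.2 hp.1.ne_zero
  have hpn : ‖(p : PadicAlgCl p)‖ < 1 := norm_p_lt p
  have hpn0 : 0 < ‖(p : PadicAlgCl p)‖ := norm_pos_iff.2 hpne
  have hs0 : s ≠ 0 := by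
    rintro rfl
    rw [pow_zero] at hs
    exact absurd hs (Fintype.one_lt_card (α := κ)).ne'
  have : NeZero s := ⟨hs0⟩
  have hM := dvd_M hab hg hga hgb
  have hp1 : p - 1 ≠ 0 := by omega
  have hgp : g < p := by
    have := Nat.le_of_dvd (Nat.pos_of_ne_zero hp1) ((dvd_mul_right g a).trans hga)
    omega
  have hWF := WF_Ψ ha hb hg hwt φκ
  have hM0 : g * (a * b) ≠ 0 := mul_ne_zero hg (mul_ne_zero ha hb)
  have hfs : ∀ μ, coeff μ (Ψ φκ f) ^ p ^ s = coeff μ (Ψ φκ f) := by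
    intro μ
    rw [coeff_Ψ, ← map_pow, ← hs, FiniteField.pow_card]
  have hζ1 : ζ ≠ 1 := hζ.ne_one hp.1.one_lt
  have hζ0 : ζ - 1 ≠ 0 := sub_ne_zero.2 hζ1
  -- nondegeneracy
  have hord' : ∀ w, w < g * (a * b) → Ord (Ψ φκ f) ![b, a] (g * (a * b)) w := by
    intro w hw
    rcases Nat.eq_zero_or_pos w with rfl | hw0
    · refine ord_Ψ ha hb hg hwt φκ hM ?_
      have : IsEmpty (Lat a b 0) := by
        refine ⟨fun u => ?_⟩
        have h1 := u.2.1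
        have h2 := u.1.1.2
        omega
      rw [Matrix.det_isEmpty]
      exact one_ne_zero
    · exact ord_Ψ ha hb hg hwt φκ hM (hord w hw0 hw)
  have hrm : ∀ ρ, P.rootMultiplicity ρ = P.roots.count ρ := fun ρ =>
    (Polynomial.count_roots P).symm
  rcases hρn.lt_or_eq with hlt | heq
  · -- slopes below one
    left
    obtain ⟨w, hw0, hwM, hw⟩ := slope1 hWF hM (by simp) (by simp) hs0 hfs hord' hζ P hP hroot hlt
    obtain ⟨E, hE⟩ := exists_E (a := a) (b := b) ha hb w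
    obtain ⟨κ₂, hκ20, hκ2n, -, ⟨hκ3, hκ4⟩, hres2⟩ := residues' hWF hM (by simp) (by simp) hs0 hfs
      hwM.le (fun w' hw' => hord' w' (hw'.trans hwM)) E hζ P hP
    obtain ⟨n, hn⟩ : ∃ n, n = (p - 1) * w / (g * (a * b)) := ⟨_, rfl⟩
    have hQeq : (FP (NM (Ψ φκ f) ((p - 1) * w / (g * (a * b))) (fun i => (E i).1))
        s).charpolyRev = (FP (fun j => (TV.hw p a b w ((p - 1) * w / (g * (a * b))) f).map
          fun z => z ^ p ^ j) s).charpolyRev.map φκ := by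
      rw [FP_map φκ _ _ (fun j => NM_Ψ ha hb hg hwt φκ hM hE rfl j), charpolyRev_map']
    rw [hQeq] at hres2
    rw [← hn] at hκ3 hκ4 hres2
    have hF2 : ‖ρ⁻¹ * (κ₂⁻¹) ^ s‖ = 1 := by
      have h1 : ‖ρ⁻¹‖ = ‖κ₂‖ ^ s := by
        refine (pow_left_inj₀ (norm_nonneg _) (pow_nonneg (norm_nonneg _) _) hM0).1 ?_
        rw [hw, mul_comm s w, pow_mul, ← hκ2n, ← pow_mul, ← pow_mul]
        congr 1
        ring
      rw [norm_mul, norm_pow, norm_inv κ₂, inv_pow, ← div_eq_mul_inv, h1,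
        div_self (pow_pos (norm_pos_iff.2 hκ20) s).ne']
    have hl0 : red p (ρ⁻¹ * (κ₂⁻¹) ^ s) ≠ 0 := by
      rw [Ne, red_eq_zero hF2.le, hF2]
      exact lt_irrefl _
    have hmem : red p (ρ⁻¹ * (κ₂⁻¹) ^ s) ∈ ((P.roots.map (fun ρ => ρ⁻¹ * (κ₂⁻¹) ^ s)).filter
        fun l => ‖l‖ = 1).map (red p) := by
      refine Multiset.mem_map.2 ⟨ρ⁻¹ * (κ₂⁻¹) ^ s, ?_, rfl⟩
      rw [Multiset.mem_filter]
      exact ⟨Multiset.mem_map.2 ⟨ρ, hroot, rfl⟩, hF2⟩
    have hev := eval_of_mem _ hres2 hl0 hmem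
    have hprod : ρ⁻¹ * (((ζ - 1) ^ n)⁻¹) ^ s = ρ⁻¹ * (κ₂⁻¹) ^ s * (κ₂ / (ζ - 1) ^ n) ^ s := by
      have h1 := pow_ne_zero n hζ0
      rw [div_pow, inv_pow, inv_pow]
      have h2 := pow_ne_zero s hκ20
      have h3 := pow_ne_zero s h1
      field_simp
    have hnorm : ‖ρ⁻¹ * (((ζ - 1) ^ n)⁻¹) ^ s‖ = 1 := by
      rw [hprod, norm_mul, hF2, norm_pow, hκ3, one_pow, mul_one]
    have hredeq : red p (ρ⁻¹ * (((ζ - 1) ^ n)⁻¹) ^ s) = red p (ρ⁻¹ * (κ₂⁻¹) ^ s) := by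
      rw [hprod, red_mul hF2.le (by rw [norm_pow, hκ3, one_pow]), red_pow hκ3.le, hκ4, one_pow,
        mul_one]
    refine ⟨w, hw0, hwM, hw, ?_, ?_⟩
    · rw [← hn]
      exact hnorm
    · rw [← hn, hredeq]
      exact hev
  · -- slope one
    right
    refine ⟨heq.symm, _, rfl, ?_⟩
    obtain ⟨g', rfl⟩ : ∃ g', g = g' + 1 := ⟨g - 1, by omega⟩
    obtain ⟨EM, hEM⟩ := exists_EM ha hb hab g'
    have hdiv : (p - 1) * ((g' + 1) * (a * b)) / ((g' + 1) * (a * b)) = p - 1 :=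
      Nat.mul_div_cancel _ (Nat.pos_of_ne_zero hM0)
    obtain ⟨κ₁, hκ0, hκn, hκM, hres⟩ := residues hWF hM (by simp) (by simp) hs0 hfs le_rfl
      hord' EM hζ P hP
    rw [hdiv] at hres
    obtain ⟨hκ1, hκ2⟩ := hκM rfl
    have hwil : (((p - 1).factorial : ℕ) : k p) = -1 := by
      have h3 := ZMod.wilsons_lemma p
      have h4 := congrArg (ZMod.castHom (dvd_refl p) (k p)) h3
      rw [map_natCast, map_neg, map_one] at h4
      exact h4
    have hinv : (((p - 1).factorial : ℕ) : k p)⁻¹ = -1 := by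
      rw [hwil, inv_neg, inv_one]
    rw [hinv] at hres
    have hκnorm : ‖κ₁‖ = ‖(p : PadicAlgCl p)‖ := by
      exact (pow_left_inj₀ (norm_nonneg _) (norm_nonneg _) hM0).1 hκn
    obtain ⟨Q, hQ⟩ : ∃ Q, Q = (FP (NM (Ψ φκ f) (p - 1) (fun i => (EM i).1)) s).charpolyRev :=
      ⟨_, rfl⟩
    rw [← hQ] at hres
    have hQ1 : Q * (1 - Polynomial.X) = ∏ i, (1 - Polynomial.X ^ (H i).natDegree) := by
      obtain ⟨Hz, hHz⟩ : ∃ Hz : ZMod s → Polynomial (k p), ∀ j,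
          Hz j = ((∏ i, H i).map φκ).map (Fr p j.val) := ⟨_, fun _ => rfl⟩
      have hHf : Hf a b (g' + 1) (Ψ φκ f) = (∏ i, H i).map φκ := by rw [Hf_Ψ, htop]
      have hdet := VR.det_roots φκ H hne hs hirr hmon hdeg hgp Hz hHz
      have h1 : (Matrix.of fun x y : ZMod s × Fin g' =>
          (if x = y then (1 : Polynomial (k p)) else 0) -
          Polynomial.X * Polynomial.C (VD.TT p Hz g' x y)).det =
          DW (Ψ φκ f) s (p - 1) 1 (fun i => (EM i).1) := by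
        rw [DW]
        congr 1
        ext1 x y
        rw [Matrix.of_apply, Matrix.of_apply, VD.TT]
        congr 1
        by_cases h2 : y.1 = x.1 + 1
        · rw [if_pos h2, if_pos h2, one_mul, hEM, hEM,
            NN_M ha hb hab hWF hgp x.1.val (by have := x.2.2; omega) (by have := y.2.2; omega),
            hHf, hHz]
        · rw [if_neg h2, if_neg h2, map_zero, mul_zero]
      rw [h1, DW_eq, ← hQ, one_pow, Polynomial.C_1, one_mul, Polynomial.comp_X] at hdet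
      refine Polynomial.expand_injective (Nat.pos_of_ne_zero hs0) ?_
      rw [map_mul, map_sub, map_one, Polynomial.expand_X, hdet, map_prod]
      refine Finset.prod_congr rfl fun i _ => ?_
      rw [map_sub, map_one, map_pow, Polynomial.expand_X, ← pow_mul]
    have hPn : ∀ i, ((H i).natDegree : k p) ≠ 0 := by
      intro i h0
      have hdvd := (CharP.cast_eq_zero_iff (k p) p _).1 h0
      have h1 : (H i).natDegree ≤ (∏ i, H i).natDegree := by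
        rw [Polynomial.natDegree_prod_of_monic _ _ fun i _ => hmon i]
        exact Finset.single_le_sum (f := fun i => (H i).natDegree) (fun _ _ => Nat.zero_le _)
          (Finset.mem_univ i)
      have h2 := Nat.le_of_dvd (hirr i).natDegree_pos hdvd
      omega
    have hc0 : ((-1 : k p)) ^ s ≠ 0 := pow_ne_zero _ (neg_ne_zero.2 one_ne_zero)
    have hcc : ((-1 : k p)) ^ s * (-1) ^ s = 1 := by
      rw [← mul_pow, neg_one_mul, neg_neg, one_pow]
    obtain ⟨Λ, hΛ⟩ : ∃ Λ, Λ = ((P.roots.map (fun ρ => ρ⁻¹ * (κ₁⁻¹) ^ s)).filter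
        fun l => ‖l‖ = 1).map (red p) := ⟨_, rfl⟩
    rw [← hΛ] at hres
    have hF : ∀ ρ : PadicAlgCl p, ‖ρ⁻¹‖ = ‖(p : PadicAlgCl p)‖ ^ s →
        ‖ρ⁻¹ * (κ₁⁻¹) ^ s‖ = 1 := by
      intro ρ hρ
      rw [norm_mul, norm_pow, norm_inv κ₁, inv_pow, ← div_eq_mul_inv, hρ, hκnorm,
        div_self (pow_pos hpn0 s).ne']
    have hFp : ∀ ρ : PadicAlgCl p, ‖ρ⁻¹‖ = ‖(p : PadicAlgCl p)‖ ^ s →
        red p (ρ⁻¹ * ((p : PadicAlgCl p)⁻¹) ^ s) = red p (ρ⁻¹ * (κ₁⁻¹) ^ s) * (-1) ^ s := by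
      intro ρ hρ
      have h1 : ρ⁻¹ * ((p : PadicAlgCl p)⁻¹) ^ s =
          ρ⁻¹ * (κ₁⁻¹) ^ s * (κ₁ / (p : PadicAlgCl p)) ^ s := by
        rw [div_pow, inv_pow, inv_pow]
        have h2 := pow_ne_zero s hκ0
        have h3 := pow_ne_zero s hpne
        field_simp
      rw [h1, red_mul (hF ρ hρ).le (by rw [norm_pow]; exact pow_le_one₀ (norm_nonneg _) hκ1),
        red_pow hκ1, hκ2]
    obtain ⟨ρ₁, hρ₁⟩ : ∃ ρ₁, ρ₁ = ((p : PadicAlgCl p) ^ s)⁻¹ := ⟨_, rfl⟩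
    have hρ₁n : ‖ρ₁⁻¹‖ = ‖(p : PadicAlgCl p)‖ ^ s := by rw [hρ₁, inv_inv, norm_pow]
    have hρ₁r : red p (ρ₁⁻¹ * (κ₁⁻¹) ^ s) = (-1) ^ s := by
      have h2 := hFp ρ₁ hρ₁n
      have h3 : ρ₁⁻¹ * ((p : PadicAlgCl p)⁻¹) ^ s = 1 := by
        rw [hρ₁, inv_inv, inv_pow, mul_inv_cancel₀ (pow_ne_zero s hpne)]
      rw [h3, red_one] at h2
      calc _ = red p (ρ₁⁻¹ * κ₁⁻¹ ^ s) * ((-1) ^ s * (-1) ^ s) := by rw [hcc, mul_one]
        _ = _ := by rw [← mul_assoc, ← h2, one_mul]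
    have hF3 := hF ρ heq.symm
    have hl0 : red p (ρ⁻¹ * (κ₁⁻¹) ^ s) ≠ 0 := by
      rw [Ne, red_eq_zero hF3.le, hF3]
      exact lt_irrefl _
    have hmem : red p (ρ⁻¹ * (κ₁⁻¹) ^ s) ∈ Λ := by
      rw [hΛ]
      refine Multiset.mem_map.2 ⟨ρ⁻¹ * (κ₁⁻¹) ^ s, ?_, rfl⟩
      rw [Multiset.mem_filter]
      exact ⟨Multiset.mem_map.2 ⟨ρ, hroot, rfl⟩, hF3⟩
    obtain ⟨l, hl⟩ : ∃ l, l = red p (ρ⁻¹ * (κ₁⁻¹) ^ s) := ⟨_, rfl⟩
    rw [← hl] at hmem hl0
    have hμ : red p (ρ⁻¹ * ((p : PadicAlgCl p)⁻¹) ^ s) = l * (-1) ^ s := by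
      rw [hFp ρ heq.symm, hl]
    rw [hμ]
    constructor
    · have h1 := eval_of_mem Λ hres hl0 hmem
      have h2 := congrArg (Polynomial.eval ((-1) ^ s * l⁻¹)) hQ1
      rw [Polynomial.eval_mul, h1, zero_mul, Polynomial.eval_prod] at h2
      obtain ⟨j, -, hj⟩ := Finset.prod_eq_zero_iff.1 h2.symm
      refine ⟨j, ?_⟩
      rw [Polynomial.eval_sub, Polynomial.eval_one, Polynomial.eval_pow, Polynomial.eval_X,
        sub_eq_zero] at hj
      have h3 : (l * (-1) ^ s) * ((-1) ^ s * l⁻¹) = 1 := by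
        calc _ = l * ((-1) ^ s * (-1) ^ s) * l⁻¹ := by ring
          _ = 1 := by rw [hcc, mul_one, mul_inv_cancel₀ hl0]
      have h4 := congrArg (fun z => z ^ (H j).natDegree) h3
      simp only [one_pow] at h4
      rw [mul_pow (l * (-1) ^ s), ← hj, mul_one] at h4
      exact h4
    · intro h1
      have hlc : l = (-1) ^ s := by
        calc l = l * ((-1) ^ s * (-1) ^ s) := by rw [hcc, mul_one]
          _ = _ := by rw [← mul_assoc, h1, one_mul]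
      have hcount : Λ.count ((-1) ^ s) ≤ e - 1 := by
        obtain ⟨hr, h0⟩ := rm_prod Finset.univ (fun i => (H i).natDegree) hPn (1 : k p)
        rw [← hQ1] at hr h0
        have h2 := pow_dvd_of hc0 Λ hres hc0
        rw [mul_inv_cancel₀ hc0] at h2
        have h3 : (Polynomial.X - Polynomial.C (1 : k p)) ^ (Λ.count ((-1) ^ s) + 1) ∣
            Q * (1 - Polynomial.X) := by
          rw [pow_succ]
          refine mul_dvd_mul h2 ⟨-1, ?_⟩
          rw [Polynomial.C_1]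
          ring
        have h4 := (Polynomial.le_rootMultiplicity_iff h0).2 h3
        have h5 := Finset.card_filter_le (Finset.univ : Finset (Fin e))
          (fun i => (1 : k p) ^ (H i).natDegree = 1)
        rw [Finset.card_univ, Fintype.card_fin] at h5
        omega
      have hlr : red p (ρ⁻¹ * (κ₁⁻¹) ^ s) = (-1) ^ s := by rw [← hl, hlc]
      refine ⟨?_, fun hne' => ?_⟩
      · have h2 : 1 ≤ P.roots.count ρ := Multiset.one_le_count_iff_mem.2 hroot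
        have h3 : P.roots.count ρ ≤ Λ.count ((-1) ^ s) := by
          rw [hΛ]
          exact countP_residue P.roots _ (fun z => ρ = z) _ (by
            rintro _ rfl
            exact ⟨hF3, hlr⟩)
        omega
      · rw [← hρ₁] at hne' ⊢
        rw [hrm, hrm]
        refine ((count_add P.roots hne').trans ?_).trans hcount
        rw [hΛ]
        refine countP_residue P.roots _ _ _ ?_
        rintro z (rfl | rfl)
        · exact ⟨hF3, hlr⟩
        · exact ⟨hF _ hρ₁n, hρ₁r⟩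

end OC

end Pool.Agent.N867.AS
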