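import Pool.Agent.N867.AS.R13
import Pool.Agent.N867.AS.R11

/-!
# Two surfaces: common eigenvalues, complex version
-/

set_option autoImplicit false
set_option linter.unusedSectionVars false

namespace Pool.Agent.N867.AS

namespace OC

open Polynomial Res Tr Bd RedS GW TV Pool.Agent.N867.AS.Trans Pool.Agent.N867.AS.LP
  Pool.Agent.N867.AS.Final2

/-- the polynomial `det (1 - T F_w)` -/
noncomputable def QF {κ : Type} [Field κ] (p s a b g : ℕ) (f : κ[X][X]) (w : ℕ) : κ[X] :=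
  (FP (fun j => (TV.hw p a b w ((p - 1) * w / (g * (a * b))) f).map fun z => z ^ p ^ j)
    s).charpolyRev

section

variable {p : ℕ} [hp : Fact p.Prime] {κ : Type} [Field κ]

theorem zeta_quot {ζ ζ' : PadicAlgCl p} (hζ : IsPrimitiveRoot ζ p) (hζ' : IsPrimitiveRoot ζ' p) :
    ∃ (c : ℕ) (S : PadicAlgCl p), ¬ p ∣ c ∧ ζ' - 1 = (ζ - 1) * S ∧ ‖S‖ = 1 ∧
      red p S = (c : k p) := by
  have : NeZero p := ⟨hp.1.ne_zero⟩
  obtain ⟨c, -, hc, hcζ⟩ := hζ.isPrimitiveRoot_iff.1 hζ'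
  have hpc : ¬ p ∣ c := by
    intro h
    have := Nat.dvd_gcd h (dvd_refl p)
    rw [hc.gcd_eq_one] at this
    exact hp.1.one_lt.ne' (Nat.dvd_one.1 this)
  have hn1 : ‖ζ‖ = 1 := by
    have h3 : ‖ζ‖ ^ p = 1 := by rw [← norm_pow, hζ.pow_eq_one, norm_one]
    exact (pow_eq_one_iff_of_nonneg (norm_nonneg _) hp.1.ne_zero).1 h3
  have hζp := Split.norm_zeta_sub_one hζ
  have hpn : ‖(p : PadicAlgCl p)‖ < 1 := norm_p_lt p
  have hζlt : ‖ζ - 1‖ < 1 := by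
    by_contra h
    push Not at h
    have h1 := one_le_pow₀ h (n := p - 1)
    rw [hζp] at h1
    exact absurd hpn (not_lt.2 h1)
  have hredζ : red p ζ = 1 := by
    rw [← red_one, red_eq hn1.le (norm_one (α := PadicAlgCl p)).le]
    exact hζlt
  have hS1 : ‖∑ i ∈ Finset.range c, ζ ^ i‖ ≤ 1 := by
    refine IsUltrametricDist.norm_sum_le_of_forall_le_of_nonneg zero_le_one fun i _ => ?_
    rw [norm_pow, hn1, one_pow]
  have hred : red p (∑ i ∈ Finset.range c, ζ ^ i) = (c : k p) := by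
    rw [red_sum _ fun i _ => by rw [norm_pow, hn1, one_pow],
      Finset.sum_congr rfl fun i _ => by rw [red_pow hn1.le, hredζ, one_pow], Finset.sum_const,
      Finset.card_range, nsmul_eq_mul, mul_one]
  refine ⟨c, ∑ i ∈ Finset.range c, ζ ^ i, hpc, ?_, ?_, hred⟩
  · rw [mul_comm, geom_sum_mul, hcζ]
  · refine le_antisymm hS1 (not_lt.1 fun h => ?_)
    rw [← red_eq_zero hS1, hred, CharP.cast_eq_zero_iff (k p) p] at h
    exact hpc h

/-- a common eigenvalue of slope at most one -/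
theorem common2 (a b g e : Fin 2 → ℕ) (ha : ∀ i, a i ≠ 0) (hb : ∀ i, b i ≠ 0)
    (hab : ∀ i, (a i).Coprime (b i)) (hg : ∀ i, g i ≠ 0) (hga : ∀ i, g i * a i ∣ p - 1)
    (hgb : ∀ i, g i * b i ∣ p - 1) (f : Fin 2 → κ[X][X])
    (hwt : ∀ i m n, ((f i).coeff m).coeff n ≠ 0 → b i * m + a i * n ≤ g i * (a i * b i))
    (hord : ∀ i w, 0 < w → w < g i * (a i * b i) →
      (TV.hw p (a i) (b i) w ((p - 1) * w / (g i * (a i * b i))) (f i)).det ≠ 0) {s : ℕ}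
    (H : ∀ i, Fin (e i) → κ[X]) (hirr : ∀ i j, Irreducible (H i j))
    (hmon : ∀ i j, (H i j).Monic)
    (hne : ∀ i, Pairwise fun j j' => IsCoprime (H i j) (H i j'))
    (htop : ∀ i, topPoly (a i) (b i) (g i) (f i) = ∏ j, H i j)
    (hdeg : ∀ i, (∏ j, H i j).natDegree = g i)
    (hd : ∀ j j', (H 0 j).natDegree.Coprime (H 1 j').natDegree)
    (hap : ∀ w₀ w₁, 0 < w₀ → w₀ < g 0 * (a 0 * b 0) → 0 < w₁ → w₁ < g 1 * (a 1 * b 1) →
      w₀ * (g 1 * (a 1 * b 1)) = w₁ * (g 0 * (a 0 * b 0)) → ∀ c : ℕ, ¬ p ∣ c →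
        IsCoprime (QF p s (a 0) (b 0) (g 0) (f 0) w₀) ((QF p s (a 1) (b 1) (g 1) (f 1) w₁).comp
          (C ((c : κ) ^ ((p - 1) * w₀ / (g 0 * (a 0 * b 0)) * s)) * X)))
    [Fintype κ] [CharP κ p] (hs : Fintype.card κ = p ^ s)
    (φκ : κ →+* k p) {ζ : Fin 2 → PadicAlgCl p} (hζ : ∀ i, IsPrimitiveRoot (ζ i) p)
    (P : Fin 2 → Polynomial (PadicAlgCl p))
    (hP : ∀ i, HasPS (P i : PowerSeries (PadicAlgCl p)) (fun m => CS (Ψ φκ (f i)) (ζ i) (s * m)))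
    {ρ : PadicAlgCl p} (hroot : ∀ i, ρ ∈ (P i).roots)
    (hρn : ‖(p : PadicAlgCl p)‖ ^ s ≤ ‖ρ⁻¹‖) :
    ∀ i, 2 ≤ e i ∧ (ρ ≠ ((p : PadicAlgCl p) ^ s)⁻¹ →
      (P i).rootMultiplicity ρ + (P i).rootMultiplicity (((p : PadicAlgCl p) ^ s)⁻¹) ≤
        e i - 1) := by
  classical
  have hpne : (p : PadicAlgCl p) ≠ 0 := Nat.cast_ne_zero.2 hp.1.ne_zero
  have hpn : ‖(p : PadicAlgCl p)‖ < 1 := norm_p_lt p
  have hpn0 : 0 < ‖(p : PadicAlgCl p)‖ := norm_pos_iff.2 hpne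
  have hs0 : s ≠ 0 := by
    rintro rfl
    rw [pow_zero] at hs
    exact absurd hs (Fintype.one_lt_card (α := κ)).ne'
  have hM0 : ∀ i, 0 < g i * (a i * b i) := fun i =>
    Nat.pos_of_ne_zero (mul_ne_zero (hg i) (mul_ne_zero (ha i) (hb i)))
  have hinj : ∀ m n : ℕ, ‖(p : PadicAlgCl p)‖ ^ m = ‖(p : PadicAlgCl p)‖ ^ n → m = n := by
    intro m n h
    exact (pow_right_injective₀ hpn0 hpn.ne) h
  have hinfo := fun i => info1 (ha i) (hb i) (hab i) (hg i) (hga i) (hgb i) (f i) (hwt i) (hord i)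
    (H i) (hirr i) (hmon i) (hne i) (htop i) (hdeg i) hs φκ (hζ i) (P i) (hP i) (hroot i) hρn
  have hAB : ∀ i w, w < g i * (a i * b i) →
      ‖ρ⁻¹‖ ^ (g i * (a i * b i)) = ‖(p : PadicAlgCl p)‖ ^ (s * w) →
      ‖ρ⁻¹‖ = ‖(p : PadicAlgCl p)‖ ^ s → False := by
    intro i w hw h1 h2
    rw [h2, ← pow_mul] at h1
    have h3 := hinj _ _ h1
    have h4 := Nat.eq_of_mul_eq_mul_left (Nat.pos_of_ne_zero hs0) h3
    omega
  rcases hinfo 0 with ⟨w₀, hw₀, hwM₀, hwn₀, hn₀, hev₀⟩ | ⟨hn₀, μ₀, hμ₀, ⟨j₀, hj₀⟩, hc₀⟩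
  · rcases hinfo 1 with ⟨w₁, hw₁, hwM₁, hwn₁, hn₁, hev₁⟩ | ⟨hn₁, -⟩
    · exfalso
      have hww : w₀ * (g 1 * (a 1 * b 1)) = w₁ * (g 0 * (a 0 * b 0)) := by
        have h1 : (‖(p : PadicAlgCl p)‖ ^ (s * w₀)) ^ (g 1 * (a 1 * b 1)) =
            (‖(p : PadicAlgCl p)‖ ^ (s * w₁)) ^ (g 0 * (a 0 * b 0)) := by
          rw [← hwn₀, ← hwn₁, ← pow_mul, ← pow_mul]
          exact congrArg (fun t => ‖ρ⁻¹‖ ^ t) (Nat.mul_comm _ _)
        have h2 := hinj (s * w₀ * (g 1 * (a 1 * b 1))) (s * w₁ * (g 0 * (a 0 * b 0))) (by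
          rw [pow_mul ‖(p : PadicAlgCl p)‖ (s * w₀), pow_mul ‖(p : PadicAlgCl p)‖ (s * w₁)]
          exact h1)
        rw [mul_assoc, mul_assoc] at h2
        exact Nat.eq_of_mul_eq_mul_left (Nat.pos_of_ne_zero hs0) h2
      have hM1 := fun i => dvd_M (p := p) (hab i) (hg i) (hga i) (hgb i)
      have hnn : (p - 1) * w₀ / (g 0 * (a 0 * b 0)) = (p - 1) * w₁ / (g 1 * (a 1 * b 1)) := by
        obtain ⟨d₀, hd₀⟩ := hM1 0
        obtain ⟨d₁, hd₁⟩ := hM1 1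
        have h1 : (p - 1) * w₀ / (g 0 * (a 0 * b 0)) = d₀ * w₀ := by
          rw [hd₀, mul_assoc, Nat.mul_div_cancel_left _ (hM0 0)]
        have h2 : (p - 1) * w₁ / (g 1 * (a 1 * b 1)) = d₁ * w₁ := by
          rw [hd₁, mul_assoc, Nat.mul_div_cancel_left _ (hM0 1)]
        rw [h1, h2]
        refine Nat.eq_of_mul_eq_mul_left (Nat.mul_pos (hM0 0) (hM0 1)) ?_
        calc g 0 * (a 0 * b 0) * (g 1 * (a 1 * b 1)) * (d₀ * w₀) =
            (g 0 * (a 0 * b 0) * d₀) * (w₀ * (g 1 * (a 1 * b 1))) := by ring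
          _ = (g 1 * (a 1 * b 1) * d₁) * (w₁ * (g 0 * (a 0 * b 0))) := by
              rw [← hd₀, ← hd₁, hww]
          _ = _ := by ring
      obtain ⟨n, hn⟩ : ∃ n, n = (p - 1) * w₀ / (g 0 * (a 0 * b 0)) := ⟨_, rfl⟩
      obtain ⟨c, S, hpc, hS, hSn, hSr⟩ := zeta_quot (hζ 0) (hζ 1)
      have hcop := hap w₀ w₁ hw₀ hwM₀ hw₁ hwM₁ hww c hpc
      rw [← hnn] at hn₁ hev₁
      rw [← hn] at hn₀ hev₀ hn₁ hev₁ hcop
      have hζ0 : ζ 0 - 1 ≠ 0 := sub_ne_zero.2 ((hζ 0).ne_one hp.1.one_lt)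
      have hS0 : S ≠ 0 := by
        rintro rfl
        rw [norm_zero] at hSn
        exact zero_ne_one hSn
      have hprod : ρ⁻¹ * (((ζ 0 - 1) ^ n)⁻¹) ^ s =
          ρ⁻¹ * (((ζ 1 - 1) ^ n)⁻¹) ^ s * S ^ (n * s) := by
        rw [hS, inv_pow, inv_pow, mul_pow, mul_pow, ← pow_mul S]
        have h1 := pow_ne_zero s (pow_ne_zero n hζ0)
        have h2 := pow_ne_zero (n * s) hS0
        field_simp
      have hl : red p (ρ⁻¹ * (((ζ 0 - 1) ^ n)⁻¹) ^ s) =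
          red p (ρ⁻¹ * (((ζ 1 - 1) ^ n)⁻¹) ^ s) * (c : k p) ^ (n * s) := by
        rw [hprod, red_mul hn₁.le (by rw [norm_pow, hSn, one_pow]), red_pow hSn.le, hSr]
      obtain ⟨l, hl'⟩ : ∃ l, l = red p (ρ⁻¹ * (((ζ 1 - 1) ^ n)⁻¹) ^ s) := ⟨_, rfl⟩
      rw [← hl'] at hl hev₁
      rw [hl] at hev₀
      have hc0 : (c : k p) ≠ 0 := by
        rw [Ne, CharP.cast_eq_zero_iff (k p) p]
        exact hpc
      obtain ⟨u, v, huv⟩ := hcop
      have h1 := congrArg (fun Q : κ[X] => (Q.map φκ).eval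
        ((((n.factorial : ℕ) : k p)⁻¹) ^ s * (l * (c : k p) ^ (n * s))⁻¹)) huv
      simp only [Polynomial.map_add, Polynomial.map_mul, Polynomial.map_one, eval_add, eval_mul,
        eval_one] at h1
      have h2 : ((QF p s (a 0) (b 0) (g 0) (f 0) w₀).map φκ).eval
          ((((n.factorial : ℕ) : k p)⁻¹) ^ s * (l * (c : k p) ^ (n * s))⁻¹) = 0 := by
        rw [QF, ← hn]
        exact hev₀
      have h3 : (((QF p s (a 1) (b 1) (g 1) (f 1) w₁).comp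
          (C ((c : κ) ^ (n * s)) * X)).map φκ).eval
          ((((n.factorial : ℕ) : k p)⁻¹) ^ s * (l * (c : k p) ^ (n * s))⁻¹) = 0 := by
        rw [Polynomial.map_comp, eval_comp, Polynomial.map_mul, Polynomial.map_C,
          Polynomial.map_X, eval_mul, eval_C, eval_X, map_pow, map_natCast, QF, ← hnn, ← hn]
        have h4 : (c : k p) ^ (n * s) * ((((n.factorial : ℕ) : k p)⁻¹) ^ s *
            (l * (c : k p) ^ (n * s))⁻¹) = (((n.factorial : ℕ) : k p)⁻¹) ^ s * l⁻¹ := by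
          rw [mul_inv]
          have := pow_ne_zero (n * s) hc0
          field_simp
        rw [h4]
        exact hev₁
      rw [h2, h3, mul_zero, mul_zero, add_zero] at h1
      exact zero_ne_one h1
    · exact (hAB 0 w₀ hwM₀ hwn₀ hn₁).elim
  · rcases hinfo 1 with ⟨w₁, hw₁, hwM₁, hwn₁, -⟩ | ⟨hn₁, μ₁, hμ₁, ⟨j₁, hj₁⟩, hc₁⟩
    · exact (hAB 1 w₁ hwM₁ hwn₁ hn₀).elim
    · rw [← hμ₀] at hμ₁
      rw [hμ₁] at hj₁ hc₁
      have hμ : μ₀ = 1 := by
        have h6 := orderOf_dvd_of_pow_eq_one hj₀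
        have h7 := orderOf_dvd_of_pow_eq_one hj₁
        have h8 := Nat.dvd_gcd h6 h7
        rw [(hd j₀ j₁).gcd_eq_one, Nat.dvd_one, orderOf_eq_one_iff] at h8
        exact h8
      intro i
      fin_cases i
      · exact hc₀ hμ
      · exact hc₁ hμ

end

section complex

variable {p : ℕ} {κ : Type} [Field κ]

theorem hasPS_map [hp : Fact p.Prime] (f : κ[X][X]) [Fintype κ] [CharP κ p] {s : ℕ} (hs0 : s ≠ 0)
    {ζ : ℂ} (L : ℂ[X]) (hL0 : L.coeff 0 = 1)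
    (hL : PowerSeries.X * PowerSeries.derivative ℂ (L : PowerSeries ℂ) =
      -((L : PowerSeries ℂ) * PowerSeries.mk (fun m => if m = 0 then 0 else
        ∑ c ∈ Finset.range p, (Tpts p f (p ^ (s * m)) (s * m) c : ℂ) * ζ ^ c)))
    (θ : ℂ →+* PadicAlgCl p) (φ : AlgebraicClosure κ →+* Res.k p) :
    HasPS ((L.map θ : Polynomial (PadicAlgCl p)) : PowerSeries (PadicAlgCl p)) (fun m =>
      CS (Ψ (φ.comp (algebraMap κ (AlgebraicClosure κ))) f) (θ ζ) (s * m)) := by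
  have hPS : HasPS (L : PowerSeries ℂ) (fun m =>
      ∑ c ∈ Finset.range p, (Tpts p f (p ^ (s * m)) (s * m) c : ℂ) * ζ ^ c) := by
    refine ⟨?_, ?_⟩
    · rw [← PowerSeries.coeff_zero_eq_constantCoeff_apply, Polynomial.coeff_coe, hL0]
    · rw [hL]
      rfl
  have hPS2 := hPS.map θ
  rw [Polynomial.polynomial_map_coe] at *
  refine ⟨hPS2.1, ?_⟩
  rw [hPS2.2]
  congr 2
  refine pser_congr fun m hm => ?_
  rw [CS_eq p φ f (θ ζ) (mul_ne_zero hs0 hm), map_sum]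
  refine Finset.sum_congr rfl fun c _ => ?_
  rw [map_mul, map_natCast, map_pow]

theorem main3 (hp : p.Prime) [Fintype κ] [CharP κ p] {s : ℕ} (hs : Fintype.card κ = p ^ s)
    (a b g e : Fin 2 → ℕ) (hab : ∀ i, (a i).Coprime (b i)) (hga : ∀ i, g i * a i ∣ p - 1)
    (hgb : ∀ i, g i * b i ∣ p - 1) (H : ∀ i, Fin (e i) → κ[X])
    (hirr : ∀ i j, Irreducible (H i j)) (hmon : ∀ i j, (H i j).Monic)
    (hinj : ∀ i, Function.Injective (H i)) (hdeg : ∀ i, (∏ j, H i j).natDegree = g i)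
    (hord : ∀ i, OrdP p (a i) (b i) (g i) (∏ j, H i j))
    (hd : ∀ j j', (H 0 j).natDegree.Coprime (H 1 j').natDegree)
    (hap : ∀ w₀ w₁, 0 < w₀ → w₀ < g 0 * (a 0 * b 0) → 0 < w₁ → w₁ < g 1 * (a 1 * b 1) →
      w₀ * (g 1 * (a 1 * b 1)) = w₁ * (g 0 * (a 0 * b 0)) → ∀ c : ℕ, ¬ p ∣ c →
        IsCoprime
          (FP (fun j => (hws p (a 0) (b 0) w₀ ((p - 1) * w₀ / (g 0 * (a 0 * b 0)))
            (∏ j, H 0 j)).map fun z => z ^ p ^ j) s).charpolyRev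
          ((FP (fun j => (hws p (a 1) (b 1) w₁ ((p - 1) * w₁ / (g 1 * (a 1 * b 1)))
            (∏ j, H 1 j)).map fun z => z ^ p ^ j) s).charpolyRev.comp
          (C ((c : κ) ^ ((p - 1) * w₀ / (g 0 * (a 0 * b 0)) * s)) * X)))
    (f : Fin 2 → κ[X][X]) (hf : ∀ i, Lead (a i) (b i) (g i) (∏ j, H i j) (f i))
    {ζ : Fin 2 → ℂ} (hζ : ∀ i, IsPrimitiveRoot (ζ i) p) (L : Fin 2 → ℂ[X])
    (hL0 : ∀ i, (L i).coeff 0 = 1)
    (hL : ∀ i, PowerSeries.X * PowerSeries.derivative ℂ (L i : PowerSeries ℂ) =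
      -((L i : PowerSeries ℂ) * PowerSeries.mk (fun m => if m = 0 then 0 else
        ∑ c ∈ Finset.range p, (Tpts p (f i) (p ^ (s * m)) (s * m) c : ℂ) * ζ i ^ c)))
    (hpure : ∀ z : ℂ, (L 0).IsRoot z → ‖z‖ * ((p : ℝ) ^ s) = 1) {z : ℂ}
    (hroot : ∀ i, (L i).IsRoot z) :
    ∀ i, 2 ≤ e i ∧ (z ≠ ((p : ℂ) ^ s)⁻¹ →
      (L i).rootMultiplicity z + (L i).rootMultiplicity ((p : ℂ) ^ s)⁻¹ ≤ e i - 1) := by
  classical
  have : Fact p.Prime := ⟨hp⟩
  have hp1 : p - 1 ≠ 0 := by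
    have := hp.two_le
    omega
  have hga0 : ∀ i, g i * a i ≠ 0 := fun i h => hp1 (by
    have := hga i
    rwa [h, zero_dvd_iff] at this)
  have hgb0 : ∀ i, g i * b i ≠ 0 := fun i h => hp1 (by
    have := hgb i
    rwa [h, zero_dvd_iff] at this)
  have hg : ∀ i, g i ≠ 0 := fun i => left_ne_zero_of_mul (hga0 i)
  have ha : ∀ i, a i ≠ 0 := fun i => right_ne_zero_of_mul (hga0 i)
  have hb : ∀ i, b i ≠ 0 := fun i => right_ne_zero_of_mul (hgb0 i)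
  have hs0 : s ≠ 0 := by
    rintro rfl
    rw [pow_zero] at hs
    exact absurd hs (Fintype.one_lt_card (α := κ)).ne'
  have hne : ∀ i, Pairwise fun j j' => IsCoprime (H i j) (H i j') := by
    intro i j j' hij
    refine (hirr i j).coprime_iff_not_dvd.2 fun hdvd => hij (hinj i ?_)
    exact eq_of_monic_of_associated (hmon i j) (hmon i j')
      ((hirr i j).associated_of_dvd (hirr i j') hdvd)
  have hhw : ∀ i w, w < g i * (a i * b i) →
      TV.hw p (a i) (b i) w ((p - 1) * w / (g i * (a i * b i))) (f i) =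
      hws p (a i) (b i) w ((p - 1) * w / (g i * (a i * b i))) (∏ j, H i j) := by
    intro i w hw
    rw [hw_eq hp (ha i) (hb i) (hab i) (hg i) (dvd_M (hab i) (hg i) (hga i) (hgb i)) (hf i).1 hw,
      (hf i).2]
  -- the embedding of the algebraic closure
  obtain ⟨φ⟩ : Nonempty (AlgebraicClosure κ →+* Res.k p) := by
    have hch : CharP (AlgebraicClosure κ) p :=
      charP_of_injective_algebraMap (algebraMap κ (AlgebraicClosure κ)).injective p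
    let _ : Algebra (ZMod p) κ := ZMod.algebra κ p
    have _ : IsScalarTower (ZMod p) κ (AlgebraicClosure κ) := inferInstance
    have _ : Algebra.IsAlgebraic (ZMod p) κ := Algebra.IsAlgebraic.of_finite _ _
    have _ : Algebra.IsAlgebraic (ZMod p) (AlgebraicClosure κ) :=
      Algebra.IsAlgebraic.trans (ZMod p) κ (AlgebraicClosure κ)
    let _ : Algebra (ZMod p) (Res.k p) := ZMod.algebra _ p
    exact ⟨(IsAlgClosed.lift (R := ZMod p) (S := AlgebraicClosure κ) (M := Res.k p)).toRingHom⟩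
  have hLne : ∀ i, L i ≠ 0 := by
    intro i h
    have := hL0 i
    rw [h, coeff_zero] at this
    exact zero_ne_one this
  have hone : ∀ θ : ℂ →+* PadicAlgCl p, ‖(p : PadicAlgCl p)‖ ^ s ≤ ‖(θ z)⁻¹‖ →
      ∀ i, 2 ≤ e i ∧ (z ≠ ((p : ℂ) ^ s)⁻¹ →
      (L i).rootMultiplicity z + (L i).rootMultiplicity ((p : ℂ) ^ s)⁻¹ ≤ e i - 1) := by
    intro θ hθ i
    have hq : θ (((p : ℂ) ^ s)⁻¹) = ((p : PadicAlgCl p) ^ s)⁻¹ := by
      rw [map_inv₀, map_pow, map_natCast]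
    have hrm : ∀ z, (L i).rootMultiplicity z = ((L i).map θ).rootMultiplicity (θ z) := fun z =>
      Polynomial.eq_rootMultiplicity_map θ.injective z
    have h1 := common2 a b g e ha hb hab hg hga hgb f (fun i => (hf i).1)
      (fun i w hw0 hw => by
        rw [hhw i w hw]
        exact hord i w hw0 hw) H hirr hmon hne (fun i => (hf i).2) hdeg hd
      (fun w₀ w₁ h0 h1 h2 h3 h4 c hc => by
        have h := hap w₀ w₁ h0 h1 h2 h3 h4 c hc
        unfold QF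
        rw [hhw 0 w₀ h1, hhw 1 w₁ h3]
        exact h) hs (φ.comp (algebraMap κ (AlgebraicClosure κ)))
      (ζ := fun i => θ (ζ i)) (fun i => (hζ i).map_of_injective θ.injective)
      (fun i => (L i).map θ) (fun i => hasPS_map (f i) hs0 (L i) (hL0 i) (hL i) θ φ)
      (ρ := θ z) (fun i => by
        rw [mem_roots ((Polynomial.map_ne_zero_iff θ.injective).2 (hLne i))]
        exact (hroot i).map) hθ i
    refine ⟨h1.1, fun hz => ?_⟩
    rw [hrm, hrm, hq]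
    exact h1.2 fun h => hz (θ.injective (by rw [h, hq]))
  have hpne : (p : PadicAlgCl p) ≠ 0 := Nat.cast_ne_zero.2 hp.ne_zero
  have hpn0 : 0 < ‖(p : PadicAlgCl p)‖ := norm_pos_iff.2 hpne
  obtain ⟨θ⟩ := exists_iso (p := p)
  have hn := hpure z (hroot 0)
  have hz0 : z ≠ 0 := by
    rintro rfl
    rw [norm_zero, zero_mul] at hn
    exact zero_ne_one hn
  rcases le_or_gt (‖(p : PadicAlgCl p)‖ ^ s) ‖(θ z)⁻¹‖ with h | h
  · exact hone θ.toRingHom h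
  · refine hone (θ.toRingHom.comp (starRingEnd ℂ)) ?_
    have h2 : (starRingEnd ℂ) z * z * ((p : ℂ) ^ s) ^ 2 = 1 := by
      rw [mul_comm ((starRingEnd ℂ) z) z, Complex.mul_conj, Complex.normSq_eq_norm_sq]
      have h3 : (((‖z‖ * (p : ℝ) ^ s) ^ 2 : ℝ) : ℂ) = 1 := by
        rw [hn]
        simp
      rw [← h3]
      push_cast
      ring
    have h3 : θ ((starRingEnd ℂ) z) * θ z * ((p : PadicAlgCl p) ^ s) ^ 2 = 1 := by
      rw [← map_natCast θ p, ← map_pow, ← map_pow, ← map_mul, ← map_mul, h2, map_one]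
    have hθz : θ z ≠ 0 := (map_ne_zero θ).2 hz0
    have h4 : (θ ((starRingEnd ℂ) z))⁻¹ = θ z * ((p : PadicAlgCl p) ^ s) ^ 2 := by
      refine inv_eq_of_mul_eq_one_right ?_
      rw [← h3]
      ring
    change ‖(p : PadicAlgCl p)‖ ^ s ≤ ‖(θ ((starRingEnd ℂ) z))⁻¹‖
    have h5 : 0 < ‖θ z‖ := norm_pos_iff.2 hθz
    have h6 : 1 ≤ ‖θ z‖ * ‖(p : PadicAlgCl p)‖ ^ s := by
      rw [norm_inv] at h
      have h7 := mul_lt_mul_of_pos_left h h5
      rw [mul_inv_cancel₀ h5.ne'] at h7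
      exact h7.le
    rw [h4, norm_mul, norm_pow, norm_pow, pow_two, ← mul_assoc]
    exact le_mul_of_one_le_left (by positivity) h6

end complex

end OC

end Pool.Agent.N867.AS
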