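import Pool.Agent.N867.AS.R1

/-!
# One character: reduction of the Dwork determinant at a weight `W ≤ M`
-/

set_option autoImplicit false
set_option linter.unusedSectionVars false

namespace Pool.Agent.N867.AS

namespace OC

open MvPolynomial Res Tr Bd RedS GW

variable {σ : Type} [Fintype σ] [DecidableEq σ]

variable {p : ℕ} [hp : Fact p.Prime] {ω : σ → ℕ} {f : MvPolynomial σ (k p)} {M s : ℕ}

/-- the reduced matrix -/
noncomputable def cb1 (p : ℕ) [Fact p.Prime] (f : MvPolynomial σ (k p)) (ω : σ → ℕ) (M N s : ℕ)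
    [NeZero s] (B : ℕ) (x y : ZMod s × Idx (Finset.univ : Finset σ) B) : k p :=
  cb p f ω M N s B ((a0 p, x.1), x.2) ((a0 p, y.1), y.2)

theorem cb1_diag (hf : WF f ω M) (hMp : M ∣ p - 1) {N : ℕ} (hN : p ≤ N) [NeZero s] {B : ℕ}
    {w : ℕ} (hw : w ≤ M)
    {x y : ZMod s × Idx (Finset.univ : Finset σ) B} (hx : Wx ω x = w) (hy : Wx ω y = w) :
    ((((p - 1) * w / M).factorial : ℕ) : k p) * cb1 p f ω M N s B x y =
      if y.1 = x.1 + 1 then
        NN f x.1.val ((p - 1) * w / M) (toF x.2.1) (toF y.2.1) else 0 := by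
  have h := cb_diag hf hMp hN (B := B) hw (x := ((a0 p, x.1), x.2)) (y := ((a0 p, y.1), y.2))
    hx hy
  rw [cb1, h]
  have h1 : (((((a0 p, x.1), x.2) : (Fin (p - 1) × ZMod s) × Idx (Finset.univ : Finset σ) B).1.1 :
      ℕ) + 1 : ℕ) = 1 := by
    simp [a0]
  rw [h1, Nat.cast_one, one_pow, one_mul]
  unfold rho
  by_cases h2 : y.1 = x.1 + 1
  · simp [h2]
  · simp [h2]

theorem hfact {n : ℕ} (hnp : n < p) : ((n.factorial : ℕ) : k p) ≠ 0 := by
  intro h0
  have h1 := ah_fact hnp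
  rw [h0, zero_mul] at h1
  exact zero_ne_one h1

theorem n_lt (hM : M ≠ 0) {w : ℕ} (hw : w ≤ M) : (p - 1) * w / M < p := by
  have hMpos := Nat.pos_of_ne_zero hM
  have hp2 := hp.1.two_le
  have h3 : (p - 1) * w / M ≤ p - 1 := by
    rw [Nat.div_le_iff_le_mul_add_pred hMpos]
    have : (p - 1) * w ≤ (p - 1) * M := Nat.mul_le_mul_left _ hw
    rw [mul_comm M]
    omega
  omega

/-- the determinant of a block -/
theorem cb1_det (hf : WF f ω M) (hMp : M ∣ p - 1) {N : ℕ} (hN : p ≤ N) [NeZero s] {B : ℕ}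
    {w : ℕ} (hw : w ≤ M) (hwB : w ≤ B) (hord : Ord f ω M w) :
    ((Matrix.of (cb1 p f ω M N s B)).submatrix
      (Subtype.val : {x : ZMod s × Idx (Finset.univ : Finset σ) B //
        Wx ω x = w} → _) Subtype.val).det ≠ 0 := by
  classical
  obtain ⟨ι, i1, i2, E, hdet⟩ := hord
  obtain ⟨e, he⟩ := exists_equiv (Γ := ZMod s) hf.hω hwB E
  obtain ⟨n, hn⟩ : ∃ n, n = (p - 1) * w / M := ⟨_, rfl⟩
  have hnp : n < p := by
    rw [hn]
    exact n_lt hf.hM hw
  have hfact := hfact hnp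
  rw [← Matrix.det_submatrix_equiv_self e]
  obtain ⟨ρ, hρ⟩ : ∃ ρ : ZMod s ≃ ZMod s, ∀ g, ρ g = g + 1 :=
    ⟨⟨fun g => g + 1, fun g => g - 1, fun g => by simp, fun g => by simp⟩, fun g => rfl⟩
  have h1 := det_shift ρ (fun g : ZMod s =>
    (((n.factorial : ℕ) : k p)⁻¹) •
      (Matrix.of fun x y : ι => NN f g.val n (E x).1 (E y).1)) (fun g => by
    rw [Matrix.det_smul]
    refine mul_ne_zero (pow_ne_zero _ (inv_ne_zero hfact)) ?_
    have h2 : (Matrix.of fun x y : ι => NN f g.val n (E x).1 (E y).1) =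
        (Matrix.of fun x y : ι => NN f 0 n (E x).1 (E y).1).map (Fr p g.val) := by
      ext x y
      rw [Matrix.of_apply, Matrix.map_apply, Matrix.of_apply, NN_twist]
    rw [h2, ← RingHom.mapMatrix_apply, ← RingHom.map_det, Ne,
      map_eq_zero_iff _ (Fr p g.val).injective, hn]
    exact hdet)
  refine ne_of_eq_of_ne (congrArg Matrix.det ?_) h1
  ext1 z z'
  rw [Matrix.submatrix_apply, Matrix.submatrix_apply, Matrix.of_apply, Matrix.of_apply]
  have h2 := cb1_diag hf hMp hN (B := B) hw (e z).2 (e z').2 (s := s)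
  rw [← hn, (he z).1, (he z').1, (he z).2, (he z').2] at h2
  rw [← hρ] at h2
  by_cases h3 : z'.1 = ρ z.1
  · rw [if_pos h3] at h2 ⊢
    rw [Matrix.smul_apply, Matrix.of_apply, smul_eq_mul]
    field_simp
    rw [mul_comm]
    exact h2
  · rw [if_neg h3] at h2 ⊢
    exact (mul_eq_zero.1 h2).resolve_left hfact

/-- the determinant of weight `W` -/
noncomputable def DW (f : MvPolynomial σ (k p)) (s : ℕ) [NeZero s] (n : ℕ) (c : k p) {ι : Type}
    [Fintype ι] [DecidableEq ι] (E : ι → σ →₀ ℕ) : Polynomial (k p) :=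
  (Matrix.of fun x y : ZMod s × ι => (if x = y then (1 : Polynomial (k p)) else 0) -
    if y.1 = x.1 + 1 then Polynomial.X * Polynomial.C (c * NN f x.1.val n (E x.2) (E y.2))
      else 0).det

theorem red_univ1 (hf : WF f ω M) (D : Lifts p f s) (hs : s ≠ 0) [NeZero s] [Nonempty σ]
    {τ γ : PadicAlgCl p} (hτ : τ ≠ 0) (hτ1 : ‖τ‖ < 1) (hτγ : τ ^ M = γ)
    {N : ℕ} (hN : p ≤ N) (hMp : M ∣ p - 1) {W : ℕ} (hWM : W ≤ M)
    (hord : ∀ w, w < W → Ord f ω M w) {ι : Type} [Fintype ι]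
    [DecidableEq ι] (E : ι ≃ SW ω W) {B : ℕ} (hB : M ≤ B) :
    ∃ (c : PadicAlgCl p) (w : k p), w ≠ 0 ∧ Red (((((τ ^ ((p - 1) * W))⁻¹) •
        C1 D N γ Finset.univ B).charpolyRev : Polynomial (PadicAlgCl p)) :
        PowerSeries (PadicAlgCl p)) c
      (PowerSeries.C w * PowerSeries.X ^ (Finset.univ.filter
        (fun x : ZMod s × Idx (Finset.univ : Finset σ) B => Wx ω x < W)).card *
        ((DW f s ((p - 1) * W / M) (((((p - 1) * W / M).factorial : ℕ) : k p)⁻¹)
          (fun i => (E i).1) : Polynomial (k p)) : PowerSeries (k p))) := by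
  classical
  have hp2 := hp.1.two_le
  obtain ⟨r, hr⟩ : ∃ r : ℝ, r = ‖τ‖ := ⟨_, rfl⟩
  have hr0 : 0 < r := by rw [hr]; exact norm_pos_iff.2 hτ
  have hr1 : r < 1 := by rw [hr]; exact hτ1
  have hγ : ‖γ‖ = r ^ M := by rw [← hτγ, norm_pow, hr]
  obtain ⟨κ, hκ⟩ : ∃ κ, κ = τ ^ ((p - 1) * W) := ⟨_, rfl⟩
  have hκ0 : κ ≠ 0 := by rw [hκ]; exact pow_ne_zero _ hτ
  have hκr : ‖κ‖ = r ^ ((p - 1) * W) := by
    rw [hκ, norm_pow, hr]
  rw [← hκ]
  obtain ⟨A, hAdef⟩ : ∃ A, A = (κ⁻¹) • C1 D N γ Finset.univ B := ⟨_, rfl⟩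
  obtain ⟨α, hα⟩ : ∃ α : ZMod s × Idx (Finset.univ : Finset σ) B →
    PadicAlgCl p, ∀ x, α x = τ ^ Wx ω x := ⟨_, fun _ => rfl⟩
  obtain ⟨δ, hδ⟩ : ∃ δ : ZMod s × Idx (Finset.univ : Finset σ) B →
    PadicAlgCl p, ∀ y, δ y = τ ^ ((p - 1) * Wx ω y) * κ⁻¹ := ⟨_, fun _ => rfl⟩
  have hαn : ∀ x, ‖α x‖ = r ^ Wx ω x := fun x => by rw [hα, norm_pow, hr]
  have hα0 : ∀ x, α x ≠ 0 := fun x => by rw [hα]; exact pow_ne_zero _ hτ
  have hδn : ∀ y, ‖δ y‖ = r ^ ((p - 1) * Wx ω y) * (r ^ ((p - 1) * W))⁻¹ := by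
    intro y
    rw [hδ, norm_mul, norm_pow, ← hr, norm_inv, hκr]
  have hδlt : ∀ x, 1 < ‖δ x‖ ↔ Wx ω x < W := by
    intro x
    rw [hδn, ← div_eq_mul_inv, one_lt_div (by positivity),
      pow_lt_pow_iff_right_of_lt_one₀ hr0 hr1]
    constructor
    · exact fun h => Nat.lt_of_mul_lt_mul_left h
    · exact fun h => Nat.mul_lt_mul_of_pos_left h (by omega)
  have hδgt : ∀ x, W < Wx ω x → ‖δ x‖ < 1 := by
    intro x hx
    rw [hδn, ← div_eq_mul_inv, div_lt_one (by positivity),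
      pow_lt_pow_iff_right_of_lt_one₀ hr0 hr1]
    exact Nat.mul_lt_mul_of_pos_left hx (by omega)
  have hA : ∀ x y, ‖α x * A x y‖ ≤ ‖α y * δ y‖ := by
    intro x y
    have h1 := entry_scaled1 D hf hs hr0 hr1.le hγ (N := N) Finset.univ B (κ⁻¹) x y
    rw [norm_mul, norm_mul, hαn, hαn, hδ, norm_mul, norm_pow, ← hr, hAdef]
    exact h1
  have hred := red_det A α δ hα0 hA
  -- the entries
  have hαA : ∀ x y, α x * A x y / (α y * δ y) = τ ^ Wx ω x *
      C1 D N γ Finset.univ B x y / τ ^ (p * Wx ω y) := by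
    intro x y
    have h1 : τ ^ (p * Wx ω y) = τ ^ Wx ω y * τ ^ ((p - 1) * Wx ω y) := by
      rw [← pow_add, wadd hp.1.ne_zero]
    rw [hα, hα, hδ, hAdef, Matrix.smul_apply, smul_eq_mul, h1]
    have := pow_ne_zero (Wx ω y) hτ
    have := pow_ne_zero ((p - 1) * Wx ω y) hτ
    field_simp
  have hub : ∀ x y, Wx ω y ≤ W → red p (α x * A x y / (α y * sc δ y)) =
      cb1 p f ω M N s B x y := by
    intro x y hy
    have h1 : sc δ y = δ y := by
      unfold sc
      rcases hy.lt_or_eq with hy' | hy'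
      · rw [if_pos ((hδlt y).2 hy')]
      · rw [if_neg (by rw [hδlt, hy']; exact lt_irrefl _), hδ, hy', ← hκ,
          mul_inv_cancel₀ hκ0]
    rw [h1, hαA, C1_apply]
    exact (ub_eq hf D hs hτ hτ1 hτγ (by omega) ((a0 p, x.1), x.2) ((a0 p, y.1), y.2)).2
  -- the blocks
  have hbig : ∀ x y, W < Wx ω y → Bbar A α δ x y = if x = y then 1 else 0 := by
    intro x y hy
    have h1 : ‖δ y‖ < 1 := hδgt y hy
    have h2 : sc δ y = 1 := by
      unfold sc
      rw [if_neg (not_lt.2 h1.le)]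
    rw [Bbar, Matrix.of_apply, h2, mul_one]
    have h3 : ‖α x * A x y / α y‖ < 1 := by
      rw [norm_div, div_lt_one (norm_pos_iff.2 (hα0 y))]
      refine lt_of_le_of_lt (hA x y) ?_
      rw [norm_mul]
      exact mul_lt_of_lt_one_right (norm_pos_iff.2 (hα0 y)) h1
    rw [(red_eq_zero h3.le).2 h3, Polynomial.C_0, mul_zero, sub_zero]
    by_cases h4 : x = y
    · rw [if_pos ⟨h4, not_lt.2 h1.le⟩, if_pos h4, Polynomial.C_1]
    · rw [if_neg (fun h => h4 h.1), if_neg h4, Polynomial.C_0]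
  have hlt : ∀ x y, Wx ω y < W → Bbar A α δ x y =
      - Polynomial.X * Polynomial.C (cb1 p f ω M N s B x y) := by
    intro x y hy
    have h1 : 1 < ‖δ y‖ := (hδlt y).2 hy
    rw [Bbar, Matrix.of_apply, if_neg (fun h => h.2 h1), Polynomial.C_0, zero_sub,
      hub x y hy.le, neg_mul]
  have heq : ∀ x y, Wx ω y = W → Bbar A α δ x y = (if x = y then 1 else 0) -
      Polynomial.X * Polynomial.C (cb1 p f ω M N s B x y) := by
    intro x y hy
    have h1 : ¬ 1 < ‖δ y‖ := by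
      rw [hδlt, hy]
      exact lt_irrefl _
    rw [Bbar, Matrix.of_apply, hub x y hy.le]
    congr 1
    by_cases h4 : x = y
    · rw [if_pos ⟨h4, h1⟩, if_pos h4, Polynomial.C_1]
    · rw [if_neg (fun h => h4 h.1), if_neg h4, Polynomial.C_0]
  have hdet := det_blocks (Wx ω) W (Bbar A α δ) hbig (by
    intro x y hx hy hne
    have h0 : cb1 p f ω M N s B x y = 0 := cb_off hf hMp (N := N) (hx.trans hWM) (hy.trans hWM) hne
    rcases hy.lt_or_eq with hy' | hy'
    · rw [hlt x y hy', h0, map_zero, mul_zero]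
    · rw [heq x y hy', h0, map_zero, mul_zero, sub_zero, if_neg]
      intro h
      rw [h] at hne
      exact hne rfl)
  rw [Finset.prod_range_succ] at hdet
  -- blocks of weight `< W`
  obtain ⟨d, hd⟩ : ∃ d : ℕ → k p, ∀ w, d w = ((Matrix.of (cb1 p f ω M N s B)).submatrix
      (Subtype.val : {x : ZMod s × Idx (Finset.univ : Finset σ) B //
        Wx ω x = w} → _) Subtype.val).det := ⟨_, fun _ => rfl⟩
  have hblk : ∀ w ∈ Finset.range W, ((Bbar A α δ).submatrix
      (Subtype.val : {x : ZMod s × Idx (Finset.univ : Finset σ) B //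
        Wx ω x = w} → _) Subtype.val).det = (-Polynomial.X) ^ (Fintype.card
        {x : ZMod s × Idx (Finset.univ : Finset σ) B // Wx ω x = w}) *
        Polynomial.C (d w) := by
    intro w hw
    have hw' := Finset.mem_range.1 hw
    rw [hd, RingHom.map_det, ← Matrix.det_smul]
    congr 1
    ext1 x y
    rw [Matrix.submatrix_apply, hlt _ _ (by rw [y.2]; exact hw'), Matrix.smul_apply,
      RingHom.mapMatrix_apply, Matrix.map_apply, Matrix.submatrix_apply, Matrix.of_apply,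
      smul_eq_mul]
  rw [Finset.prod_congr rfl hblk, Finset.prod_mul_distrib, Finset.prod_pow_eq_pow_sum] at hdet
  have hcard : ∑ w ∈ Finset.range W, Fintype.card
        {x : ZMod s × Idx (Finset.univ : Finset σ) B // Wx ω x = w} =
      (Finset.univ.filter (fun x : ZMod s × Idx (Finset.univ : Finset σ) B =>
        Wx ω x < W)).card := by
    rw [Finset.card_eq_sum_card_fiberwise (f := fun x => Wx ω x) (t := Finset.range W)]
    · refine Finset.sum_congr rfl fun w hw => ?_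
      rw [Fintype.card_subtype]
      congr 1
      ext x
      have hw' := Finset.mem_range.1 hw
      simp only [Finset.mem_filter, Finset.mem_univ, true_and]
      constructor
      · intro h
        exact ⟨by omega, h⟩
      · exact fun h => h.2
    · intro x hx
      rw [Finset.mem_coe, Finset.mem_filter] at hx
      rw [Finset.mem_coe, Finset.mem_range]
      exact hx.2
  rw [hcard] at hdet
  -- the block of weight `W`
  obtain ⟨e, he⟩ := exists_equiv (Γ := ZMod s) hf.hω (hWM.trans hB) E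
  obtain ⟨n, hn⟩ : ∃ n, n = (p - 1) * W / M := ⟨_, rfl⟩
  have hnp : n < p := by
    rw [hn]
    exact n_lt hf.hM hWM
  have hfact := hfact hnp
  rw [← hn]
  have hMblk : ((Bbar A α δ).submatrix
      (Subtype.val : {x : ZMod s × Idx (Finset.univ : Finset σ) B //
        Wx ω x = W} → _) Subtype.val).det = DW f s n (((n.factorial : ℕ) : k p)⁻¹)
          (fun i => (E i).1) := by
    rw [← Matrix.det_submatrix_equiv_self e, DW]
    congr 1
    ext1 z z'
    rw [Matrix.submatrix_apply, Matrix.submatrix_apply, Matrix.of_apply, heq _ _ (e z').2]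
    have h2 := cb1_diag hf hMp hN (B := B) hWM (e z).2 (e z').2 (s := s)
    rw [← hn, (he z).1, (he z').1, (he z).2, (he z').2] at h2
    have h6 : (if e z = e z' then (1 : Polynomial (k p)) else 0) = if z = z' then 1 else 0 := by
      simp only [e.injective.eq_iff]
    have h7 : (if (e z).1 = (e z').1 then (1 : Polynomial (k p)) else 0) =
        if z = z' then 1 else 0 := by
      rw [← h6]
      simp only [Subtype.ext_iff]
    rw [h7]
    have h8 : cb1 p f ω M N s B (e z).1 (e z').1 = ((n.factorial : ℕ) : k p)⁻¹ *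
        (if z'.1 = z.1 + 1 then
        NN f z.1.val n (E z.2).1 (E z'.2).1 else 0) := by
      rw [← h2, inv_mul_cancel_left₀ hfact]
    rw [h8]
    split_ifs
    · rfl
    · rw [mul_zero, map_zero, mul_zero]
    · rfl
    · rw [mul_zero, map_zero, mul_zero]
  rw [hMblk] at hdet
  rw [hAdef] at hred
  obtain ⟨K, hK⟩ : ∃ K, K = (Finset.univ.filter (fun x : ZMod s ×
    Idx (Finset.univ : Finset σ) B => Wx ω x < W)).card := ⟨_, rfl⟩
  rw [← hK] at hdet ⊢
  obtain ⟨w, hw⟩ : ∃ w : k p, w = (-1) ^ K * ∏ w ∈ Finset.range W, d w := ⟨_, rfl⟩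
  refine ⟨∏ y, sc δ y, w, ?_, ?_⟩
  · rw [hw]
    refine mul_ne_zero (pow_ne_zero _ (neg_ne_zero.2 one_ne_zero))
      (Finset.prod_ne_zero_iff.2 fun w hw => ?_)
    have hw' := Finset.mem_range.1 hw
    rw [hd]
    exact cb1_det hf hMp hN (by omega) (by omega) (hord w hw')
  · have h1 : (PowerSeries.C w * PowerSeries.X ^ K *
        ((DW f s n (((n.factorial : ℕ) : k p)⁻¹) (fun i => (E i).1) : Polynomial (k p)) :
          PowerSeries (k p))) =
        (((Bbar A α δ).det : Polynomial (k p)) : PowerSeries (k p)) := by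
      have h2 : (Bbar A α δ).det = Polynomial.C w * Polynomial.X ^ K *
          DW f s n (((n.factorial : ℕ) : k p)⁻¹) (fun i => (E i).1) := by
        rw [hdet, hw, neg_pow, map_mul, map_pow, map_neg, map_one, map_prod]
        ring
      rw [h2, Polynomial.coe_mul, Polynomial.coe_mul, Polynomial.coe_C, Polynomial.coe_pow,
        Polynomial.coe_X]
    rw [h1, hAdef]
    exact hred

end OC

end Pool.Agent.N867.AS
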