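import Pool.Agent.N867.AS.Main
import Pool.Agent.N867.AS.R4

/-!
# One character: counting eigenvalues below a threshold between two weights
-/

set_option autoImplicit false
set_option linter.unusedSectionVars false

namespace Pool.Agent.N867.AS

namespace OC

open MvPolynomial Res Tr Bd RedS GW

variable {σ : Type} [Fintype σ] [DecidableEq σ]

variable {p : ℕ} [hp : Fact p.Prime] {ω : σ → ℕ} {f : MvPolynomial σ (k p)} {M s : ℕ}

theorem count_lt1 (hf : WF f ω M) (hMp : M ∣ p - 1) (hσ : 2 ≤ Fintype.card σ)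
    (hσe : Even (Fintype.card σ)) (hs : s ≠ 0) [NeZero s]
    (hfs : ∀ μ, coeff μ f ^ p ^ s = coeff μ f) {W : ℕ} (hWM : W < M)
    (hord : ∀ w, w ≤ W → Ord f ω M w)
    {ζ : PadicAlgCl p} (hζ : IsPrimitiveRoot ζ p) (P : Polynomial (PadicAlgCl p))
    (hP : HasPS (P : PowerSeries (PadicAlgCl p)) (fun m => CS f ζ (s * m))) [DecidableEq ℝ]
    {κ : PadicAlgCl p} (hκ0 : κ ≠ 0) (hκ1 : ‖κ‖ ^ M < ‖(p : PadicAlgCl p)‖ ^ W)
    (hκ2 : ‖(p : PadicAlgCl p)‖ ^ (W + 1) < ‖κ‖ ^ M) :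
    (P.roots.map (fun ρ => ρ⁻¹ * (κ⁻¹) ^ s)).countP (fun l => 1 < ‖l‖) =
      Nat.card {v : σ →₀ ℕ // (∀ i, v i ≠ 0) ∧ wt ω v ≤ W} := by
  classical
  have : Nonempty σ := Fintype.card_pos_iff.1 (by omega)
  have hp2 := hp.1.two_le
  have hpne : (p : PadicAlgCl p) ≠ 0 := Nat.cast_ne_zero.2 hp.1.ne_zero
  have hpn : ‖(p : PadicAlgCl p)‖ < 1 := norm_p_lt p
  have hpn0 : 0 < ‖(p : PadicAlgCl p)‖ := norm_pos_iff.2 hpne
  have hωpos := hf.hω
  have hκn : 0 < ‖κ‖ := norm_pos_iff.2 hκ0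
  have hMne := hf.hM
  have hpκ : ‖(p : PadicAlgCl p)‖ < ‖κ‖ := by
    refine lt_of_pow_lt_pow_left₀ M hκn.le (lt_of_le_of_lt ?_ hκ2)
    exact pow_le_pow_of_le_one hpn0.le hpn.le (by omega)
  -- the root of unity
  have hζ1 : ζ ≠ 1 := hζ.ne_one hp.1.one_lt
  have hζp := Split.norm_zeta_sub_one hζ
  have hζlt : ‖ζ - 1‖ < 1 := by
    by_contra h
    push Not at h
    have h1 := one_le_pow₀ h (n := p - 1)
    rw [hζp] at h1
    exact absurd hpn (not_lt.2 h1)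
  have hζpos : 0 < ‖ζ - 1‖ := norm_pos_iff.2 (sub_ne_zero.2 hζ1)
  -- the polynomial `P`
  have hP0 : P.coeff 0 = 1 := by
    have h1 := hP.1
    rwa [← PowerSeries.coeff_zero_eq_constantCoeff_apply, Polynomial.coeff_coe] at h1
  obtain ⟨Λ, hΛ⟩ : ∃ Λ : Multiset (PadicAlgCl p),
    Λ = P.roots.map (fun ρ => ρ⁻¹ * (κ⁻¹) ^ s) := ⟨_, rfl⟩
  have hPs : PowerSeries.rescale (κ⁻¹)
      (PowerSeries.expand s hs (P : PowerSeries (PadicAlgCl p))) =
      (Λ.map fun l => (1 - PowerSeries.C l * PowerSeries.X ^ s : PowerSeries _)).prod := by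
    conv_lhs => rw [poly_eq_prod P hP0]
    rw [hΛ, Multiset.map_map, ← Polynomial.coeToPowerSeries.ringHom_apply, map_multiset_prod,
      Multiset.map_map, map_multiset_prod, Multiset.map_map, map_multiset_prod, Multiset.map_map]
    congr 1
    refine Multiset.map_congr rfl fun ρ _ => ?_
    simp only [Function.comp_apply, map_sub, map_one, map_mul,
      Polynomial.coeToPowerSeries.ringHom_apply, Polynomial.coe_C, Polynomial.coe_X,
      PowerSeries.expand_C, PowerSeries.expand_X, map_pow, PowerSeries.rescale_X]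
    have h1 : PowerSeries.rescale (κ⁻¹) (PowerSeries.C ρ⁻¹) =
        (PowerSeries.C ρ⁻¹ : PowerSeries (PadicAlgCl p)) := by
      ext n
      rw [PowerSeries.coeff_rescale, PowerSeries.coeff_C]
      split_ifs with h
      · rw [h, pow_zero, one_mul]
      · rw [mul_zero]
    rw [h1, mul_pow]
    ring
  obtain ⟨RP, hRP⟩ := Minor.np_multiset s hs Λ
  rw [← hPs] at hRP
  obtain ⟨nm, hnm⟩ : ∃ nm, nm = s * Λ.countP (fun l => 1 < ‖l‖) := ⟨_, rfl⟩
  obtain ⟨np, hnp⟩ : ∃ np, np = s * Λ.countP (fun l => 1 ≤ ‖l‖) := ⟨_, rfl⟩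
  rw [← hnm, ← hnp] at hRP
  -- the bound `n₀`
  obtain ⟨Kle, hKle⟩ : ∃ K, K = Fintype.card (ZMod s) *
    Nat.card {v : σ →₀ ℕ // (∀ i, v i ≠ 0) ∧ wt ω v ≤ W} := ⟨_, rfl⟩
  obtain ⟨n₀, hn₀⟩ : ∃ n₀, n₀ = nm + np + Kle := ⟨_, rfl⟩
  -- the truncation level
  have hεpos : 0 < ‖(p : PadicAlgCl p)‖ ^ n₀ * ‖((n₀.factorial : ℕ) : PadicAlgCl p)‖ := by
    have : ((n₀.factorial : ℕ) : PadicAlgCl p) ≠ 0 := Nat.cast_ne_zero.2 n₀.factorial_ne_zero
    have := norm_pos_iff.2 this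
    positivity
  obtain ⟨N₁, hN₁⟩ := exists_pow_lt_of_lt_one hεpos hζlt
  obtain ⟨N, hNdef⟩ : ∃ N, N = N₁ + p := ⟨_, rfl⟩
  have hN2 : 2 ≤ N := by omega
  have hNp : p ≤ N := by omega
  have hNε : ‖ζ - 1‖ ^ N < ‖(p : PadicAlgCl p)‖ ^ n₀ * ‖((n₀.factorial : ℕ) : PadicAlgCl p)‖ :=
    lt_of_le_of_lt (pow_le_pow_of_le_one hζpos.le hζlt.le (by omega)) hN₁
  obtain ⟨γ, hγn, hγζ⟩ := Split.exists_gamma hp.1.one_lt hE hN2 hζ1 hζlt
  have hγ0 : γ ≠ 0 := by
    rintro rfl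
    rw [norm_zero] at hγn
    exact hζpos.ne hγn
  have hγ1 : ‖γ‖ ≤ 1 := by rw [hγn]; exact hζlt.le
  have hγpos : 0 < ‖γ‖ := norm_pos_iff.2 hγ0
  obtain ⟨τ, hτγ⟩ : ∃ τ : PadicAlgCl p, τ ^ M = γ :=
    IsAlgClosed.exists_pow_nat_eq γ (Nat.pos_of_ne_zero hf.hM)
  have hτ0 : τ ≠ 0 := by
    rintro rfl
    rw [zero_pow hf.hM] at hτγ
    exact hγ0 hτγ.symm
  obtain ⟨r, hr⟩ : ∃ r : ℝ, r = ‖τ‖ := ⟨_, rfl⟩
  have hr0 : 0 < r := by rw [hr]; exact norm_pos_iff.2 hτ0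
  have hrM : ‖γ‖ = r ^ M := by rw [← hτγ, norm_pow, hr]
  have hr1 : r < 1 := by
    by_contra h
    push Not at h
    have h1 := one_le_pow₀ h (n := M)
    rw [← hrM, hγn] at h1
    exact absurd hζlt (not_lt.2 h1)
  have hpγ : ‖(p : PadicAlgCl p)‖ = ‖γ‖ ^ (p - 1) := by rw [hγn, hζp]
  have hpr : ‖(p : PadicAlgCl p)‖ = r ^ ((p - 1) * M) := by
    rw [hpγ, hrM, ← pow_mul, mul_comm]
  have hκ1' : ‖κ‖ < ‖τ‖ ^ ((p - 1) * W) := by
    rw [← hr]
    refine lt_of_pow_lt_pow_left₀ M (by positivity) (lt_of_lt_of_eq hκ1 ?_)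
    rw [hpr, ← pow_mul, ← pow_mul]
    congr 1
    ring
  have hκ2' : ‖τ‖ ^ ((p - 1) * (W + 1)) < ‖κ‖ := by
    rw [← hr]
    refine lt_of_pow_lt_pow_left₀ M (by positivity) (lt_of_eq_of_lt ?_ hκ2)
    rw [hpr, ← pow_mul, ← pow_mul]
    congr 1
    ring
  -- lifts and box
  obtain ⟨D⟩ := exists_lifts hs hfs
  obtain ⟨B, hMB, hB⟩ : ∃ B, M ≤ B ∧ ∀ g, ∀ v ∈ (Gf D N γ g).support, ∀ i, v i ≤ B := by
    refine ⟨M + ∑ g, ∑ v ∈ (Gf D N γ g).support, ∑ i, v i, by omega, fun g v hv i => ?_⟩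
    have h1 : v i ≤ ∑ i, v i := Finset.single_le_sum (f := fun i => v i)
      (fun _ _ => Nat.zero_le _) (Finset.mem_univ i)
    have h2 : ∑ i, v i ≤ ∑ v ∈ (Gf D N γ g).support, ∑ i, v i :=
      Finset.single_le_sum (f := fun v : σ →₀ ℕ => ∑ i, v i) (fun _ _ => Nat.zero_le _) hv
    have h3 : ∑ v ∈ (Gf D N γ g).support, ∑ i, v i ≤
        ∑ g, ∑ v ∈ (Gf D N γ g).support, ∑ i, v i :=
      Finset.single_le_sum (f := fun g => ∑ v ∈ (Gf D N γ g).support, ∑ i, v i)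
        (fun _ _ => Nat.zero_le _) (Finset.mem_univ g)
    omega
  obtain ⟨C, hC⟩ : ∃ C : (T : Finset σ) → Matrix (ZMod s × Idx T B)
      (ZMod s × Idx T B) (PadicAlgCl p),
    ∀ T, C T = C1 D N γ T B := ⟨_, fun _ => rfl⟩
  have happ := fun L (hL : L ≠ 0) => approx1 D hfs (s := s) hζ hγ0 hγ1 hγζ hB hL
  simp only [← hC] at happ
  obtain ⟨n, hn⟩ : ∃ n, n = Fintype.card σ := ⟨_, rfl⟩
  rw [← hn] at hσ hσe happ
  -- the power series
  obtain ⟨F, hF⟩ : ∃ F : Finset σ → PowerSeries (PadicAlgCl p),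
    ∀ T, F T = PowerSeries.rescale ((p : PadicAlgCl p) ^ (n - T.card))
      ((C T).charpolyRev : PowerSeries (PadicAlgCl p)) := ⟨_, fun _ => rfl⟩
  have hFps : ∀ T, HasPS (F T) (fun m => ((p : PadicAlgCl p) ^ (n - T.card)) ^ m *
      ((C T) ^ m).trace) := by
    intro T
    rw [hF]
    exact (hasPS_charpolyRev (C T)).rescale _
  obtain ⟨Ev, hEv⟩ : ∃ Ev : Finset (Finset σ), Ev = Finset.univ.filter (fun T => Even T.card) :=
    ⟨_, rfl⟩
  obtain ⟨Od, hOd⟩ : ∃ Od : Finset (Finset σ), Od = Finset.univ.filter (fun T => ¬ Even T.card) :=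
    ⟨_, rfl⟩
  obtain ⟨U, hU⟩ : ∃ U : PowerSeries (PadicAlgCl p), U =
    PowerSeries.expand s hs (P : PowerSeries (PadicAlgCl p)) * ∏ T ∈ Od, F T := ⟨_, rfl⟩
  obtain ⟨V, hV⟩ : ∃ V : PowerSeries (PadicAlgCl p), V = ∏ T ∈ Ev, F T := ⟨_, rfl⟩
  have hUps := (hP.expand s hs).mul (HasPS.prod Od fun T _ => hFps T)
  rw [← hU] at hUps
  have hVps := HasPS.prod Ev fun T _ => hFps T
  rw [← hV] at hVps
  have hV0 : PowerSeries.constantCoeff V ≠ 0 := by rw [hVps.1]; exact one_ne_zero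
  obtain ⟨Z, hZ⟩ : ∃ Z : PowerSeries (PadicAlgCl p), Z = U * V⁻¹ := ⟨_, rfl⟩
  have hUVZ : U = V * Z := by
    rw [hZ, mul_comm U, ← mul_assoc, PowerSeries.mul_inv_cancel V hV0, one_mul]
  have hZps := hUps.mul hVps.inv
  rw [← hZ] at hZps
  -- the power sums of `Z` are small
  have hδ : ∀ m, m ≠ 0 → ‖((if s ∣ m then (s : PadicAlgCl p) *
      CS f ζ (s * (m / s)) else 0) +
      ∑ T ∈ Od, ((p : PadicAlgCl p) ^ (n - T.card)) ^ m * ((C T) ^ m).trace) +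
      -∑ T ∈ Ev, ((p : PadicAlgCl p) ^ (n - T.card)) ^ m * ((C T) ^ m).trace‖ ≤ ‖γ‖ ^ N := by
    intro m hm
    have h1 := happ m hm
    have h2 : (if s ∣ m then (s : PadicAlgCl p) * CS f ζ m else 0) =
        (if s ∣ m then (s : PadicAlgCl p) * CS f ζ (s * (m / s)) else 0) := by
      split_ifs with h
      · rw [Nat.mul_div_cancel' h]
      · rfl
    have h3 : ∑ T : Finset σ, (-1) ^ T.card * ((p ^ m : ℕ) : PadicAlgCl p) ^ (n - T.card) *
        ((C T) ^ m).trace =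
        ∑ T ∈ Ev, ((p : PadicAlgCl p) ^ (n - T.card)) ^ m * ((C T) ^ m).trace -
        ∑ T ∈ Od, ((p : PadicAlgCl p) ^ (n - T.card)) ^ m * ((C T) ^ m).trace := by
      rw [← Finset.sum_filter_add_sum_filter_not Finset.univ (fun T : Finset σ => Even T.card),
        ← hEv, ← hOd, sub_eq_add_neg, ← Finset.sum_neg_distrib]
      congr 1
      · refine Finset.sum_congr rfl fun T hT => ?_
        rw [hEv, Finset.mem_filter] at hT
        rw [hT.2.neg_one_pow, one_mul, Nat.cast_pow, ← pow_mul, ← pow_mul, mul_comm m]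
      · refine Finset.sum_congr rfl fun T hT => ?_
        rw [hOd, Finset.mem_filter] at hT
        rw [(Nat.not_even_iff_odd.1 hT.2).neg_one_pow, Nat.cast_pow, ← pow_mul, ← pow_mul,
          mul_comm m]
        ring
    rw [h2, h3] at h1
    convert h1 using 2
    ring
  have hγN1 : ‖γ‖ ^ N ≤ 1 := pow_le_one₀ hγpos.le hγ1
  have hZsmall := fun m hm => Minor.small_of_ps hZps (by positivity) hγN1 hδ m hm
  -- rescaling by `1/κ`
  obtain ⟨φ, hφ⟩ : ∃ φ : PowerSeries (PadicAlgCl p) →+* PowerSeries (PadicAlgCl p),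
    φ = PowerSeries.rescale (κ⁻¹) := ⟨_, rfl⟩
  have hφF : ∀ T, φ (F T) = (((κ⁻¹ * (p : PadicAlgCl p) ^ (n - T.card)) •
      (C T)).charpolyRev : PowerSeries (PadicAlgCl p)) := by
    intro T
    rw [hφ, hF, PowerSeries.rescale_rescale, rescale_charpolyRev, mul_comm]
  have hnear : ∀ T : Finset σ, T ≠ Finset.univ → PowerSeries.coeff 0 (φ (F T)) = 1 ∧
      ∀ m, m ≠ 0 → ‖PowerSeries.coeff m (φ (F T))‖ < 1 := by
    intro T hT
    have hTcard : T.card < n := by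
      rw [hn]
      exact (Finset.card_lt_iff_ne_univ T).2 hT
    obtain ⟨e, he⟩ : ∃ e, T.card + e + 1 = n := ⟨n - T.card - 1, by omega⟩
    have h1 : κ⁻¹ * (p : PadicAlgCl p) ^ (n - T.card) =
        ((p : PadicAlgCl p) * κ⁻¹) * (p : PadicAlgCl p) ^ e := by
      have : n - T.card = e + 1 := by omega
      rw [this, pow_succ]
      ring
    rw [hφF, h1]
    constructor
    · rw [PowerSeries.coeff_zero_eq_constantCoeff_apply]
      exact (hasPS_charpolyRev _).1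
    · intro m hm
      rw [mul_smul, ← rescale_charpolyRev, PowerSeries.coeff_rescale, norm_mul, norm_pow]
      have h2 : ‖(p : PadicAlgCl p) * κ⁻¹‖ ≤ 1 := by
        rw [norm_mul, norm_inv, ← div_eq_mul_inv, div_le_one hκn]
        exact hpκ.le
      have h3 := small_T1 D hf hs hr0 hr1 hrM (T := T) B (N := N) (by omega : T.card + e + 1 =
        Fintype.card σ) (by omega) m hm
      rw [← hC, ← Polynomial.coeff_coe] at h3
      refine lt_of_le_of_lt ?_ h3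
      exact mul_le_of_le_one_left (norm_nonneg _) (pow_le_one₀ (norm_nonneg _) h2)
  have hunivE : (Finset.univ : Finset σ) ∈ Ev := by
    rw [hEv, Finset.mem_filter]
    refine ⟨Finset.mem_univ _, ?_⟩
    rw [Finset.card_univ, ← hn]
    exact hσe
  have hOdne : ∀ T ∈ Od, T ≠ Finset.univ := by
    rintro T hT rfl
    rw [hOd, Finset.mem_filter, Finset.card_univ, ← hn] at hT
    exact hT.2 hσe
  have hUNP : Minor.NP (fun m => PowerSeries.coeff m (φ U)) nm np RP := by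
    rw [hU, map_mul, map_prod]
    have h1 := Minor.near_prod' Od (fun T hT => (hnear T (hOdne T hT)).1)
      (fun T hT => (hnear T (hOdne T hT)).2)
    refine Minor.NP.mul_near ?_ h1.1 h1.2
    rw [hφ]
    exact hRP
  obtain ⟨RV, hVNP⟩ : ∃ RV, Minor.NP (fun m => PowerSeries.coeff m (φ V)) Kle Kle RV := by
    rw [hV, ← Finset.mul_prod_erase _ _ hunivE, map_mul, map_prod]
    have h1 := Minor.near_prod' (Ev.erase Finset.univ)
      (fun T hT => (hnear T (Finset.mem_erase.1 hT).1).1)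
      (fun T hT => (hnear T (Finset.mem_erase.1 hT).1).2)
    obtain ⟨R, hR⟩ := npW1 hf D hs hτ0 (by rw [← hr]; exact hr1) hτγ hNp hMp hWM hord hκ0 hκ1' hκ2'
      hMB
    rw [cardW (M := M) hωpos hMB (fun w => w ≤ W) (fun w hw => hw.trans hWM.le), ← hKle] at hR
    refine ⟨R, Minor.NP.mul_near ?_ h1.1 h1.2⟩
    rw [hφF]
    have h2 : κ⁻¹ * (p : PadicAlgCl p) ^ (n - (Finset.univ : Finset σ).card) =
        κ⁻¹ := by
      rw [Finset.card_univ, ← hn, Nat.sub_self, pow_zero, mul_one]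
    rw [h2, hC]
    simpa only [Polynomial.coeff_coe] using hR
  have hcmp := Minor.np_compare (n₀ := n₀) hUNP hVNP (Z := φ Z) (by rw [hUVZ, map_mul])
    (by
      rw [hφ, PowerSeries.coeff_rescale, pow_zero, one_mul,
        PowerSeries.coeff_zero_eq_constantCoeff_apply]
      exact hZps.1)
    (by
      intro m hm hmn
      rw [hφ, PowerSeries.coeff_rescale, norm_mul, norm_pow, norm_inv, inv_pow,
        inv_mul_lt_iff₀ (by positivity), mul_one]
      have h1 := hZsmall m hm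
      have hfac : 0 < ‖((m.factorial : ℕ) : PadicAlgCl p)‖ :=
        norm_pos_iff.2 (Nat.cast_ne_zero.2 m.factorial_ne_zero)
      have h2 : ‖((n₀.factorial : ℕ) : PadicAlgCl p)‖ ≤ ‖((m.factorial : ℕ) : PadicAlgCl p)‖ := by
        obtain ⟨c, hc⟩ := Nat.factorial_dvd_factorial hmn
        rw [hc, Nat.cast_mul, norm_mul]
        exact mul_le_of_le_one_right (norm_nonneg _) (IsUltrametricDist.norm_natCast_le_one _ _)
      have h3 : ‖((m.factorial : ℕ) : PadicAlgCl p)‖ * ‖PowerSeries.coeff m Z‖ <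
          ‖((m.factorial : ℕ) : PadicAlgCl p)‖ * ‖(p : PadicAlgCl p)‖ ^ m := by
        refine lt_of_le_of_lt h1 ?_
        rw [hγn]
        refine lt_of_lt_of_le hNε ?_
        rw [mul_comm]
        exact mul_le_mul h2 (pow_le_pow_of_le_one hpn0.le hpn.le hmn) (by positivity)
          (norm_nonneg _)
      refine lt_of_lt_of_le (lt_of_mul_lt_mul_left h3 hfac.le) ?_
      exact pow_le_pow_left₀ hpn0.le hpκ.le m)
    (by omega) (by omega) (by omega) (by omega)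
  -- conclusion
  obtain ⟨h1, -⟩ := hcmp
  have hcardΓ : Fintype.card (ZMod s) = s := ZMod.card s
  rw [hnm, hKle, hcardΓ] at h1
  rw [← hΛ]
  exact Nat.eq_of_mul_eq_mul_left (Nat.pos_of_ne_zero hs) h1

end OC

end Pool.Agent.N867.AS
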