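import Pool.Agent.N867.AS.R5

/-!
# One character: the slopes below one lie in `(1/M) ℤ`
-/

set_option autoImplicit false
set_option linter.unusedSectionVars false

namespace Pool.Agent.N867.AS

namespace OC

open MvPolynomial Res Tr Bd RedS GW

variable {σ : Type} [Fintype σ] [DecidableEq σ]

variable {p : ℕ} [hp : Fact p.Prime] {ω : σ → ℕ} {f : MvPolynomial σ (k p)} {M s : ℕ}

theorem countP_mono' {α : Type*} (A B : α → Prop) [DecidablePred A] [DecidablePred B]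
    (h : ∀ x, A x → B x) (t : Multiset α) : t.countP A ≤ t.countP B := by
  induction t using Multiset.induction_on with
  | empty => simp
  | cons x t ih =>
    rw [Multiset.countP_cons, Multiset.countP_cons]
    refine Nat.add_le_add ih ?_
    by_cases hx : A x
    · rw [if_pos hx, if_pos (h x hx)]
    · rw [if_neg hx]
      exact Nat.zero_le _

theorem slope1 (hf : WF f ω M) (hMp : M ∣ p - 1) (hσ : 2 ≤ Fintype.card σ)
    (hσe : Even (Fintype.card σ)) (hs : s ≠ 0)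
    (hfs : ∀ μ, coeff μ f ^ p ^ s = coeff μ f)
    (hord : ∀ w, w < M → Ord f ω M w)
    {ζ : PadicAlgCl p} (hζ : IsPrimitiveRoot ζ p) (P : Polynomial (PadicAlgCl p))
    (hP : HasPS (P : PowerSeries (PadicAlgCl p)) (fun m => CS f ζ (s * m)))
    {ρ : PadicAlgCl p} (hρ : ρ ∈ P.roots) (hlt : ‖(p : PadicAlgCl p)‖ ^ s < ‖ρ⁻¹‖) :
    ∃ w, 0 < w ∧ w < M ∧ ‖ρ⁻¹‖ ^ M = ‖(p : PadicAlgCl p)‖ ^ (s * w) := by
  classical
  have : NeZero s := ⟨hs⟩
  have : Nonempty σ := Fintype.card_pos_iff.1 (by omega)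
  have hpne : (p : PadicAlgCl p) ≠ 0 := Nat.cast_ne_zero.2 hp.1.ne_zero
  have hpn : ‖(p : PadicAlgCl p)‖ < 1 := norm_p_lt p
  have hpn0 : 0 < ‖(p : PadicAlgCl p)‖ := norm_pos_iff.2 hpne
  have hMne := hf.hM
  have hMpos : 0 < M := Nat.pos_of_ne_zero hMne
  have hα0 : 0 < ‖ρ⁻¹‖ := lt_trans (by positivity) hlt
  have hα : ρ⁻¹ ≠ 0 := norm_pos_iff.1 hα0
  obtain ⟨κ, hκ⟩ : ∃ κ : PadicAlgCl p, κ ^ s = ρ⁻¹ :=
    IsAlgClosed.exists_pow_nat_eq _ (Nat.pos_of_ne_zero hs)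
  have hκn' : ‖κ‖ ^ s = ‖ρ⁻¹‖ := by rw [← norm_pow, hκ]
  have hκ0 : κ ≠ 0 := by
    rintro rfl
    rw [zero_pow hs] at hκ
    exact hα hκ.symm
  have hκn : 0 < ‖κ‖ := norm_pos_iff.2 hκ0
  have hpκ : ‖(p : PadicAlgCl p)‖ < ‖κ‖ := by
    refine lt_of_pow_lt_pow_left₀ s hκn.le ?_
    rw [hκn']
    exact hlt
  obtain ⟨t, ht⟩ := Multiset.exists_cons_of_mem hρ
  -- comparison of the counts
  have hcmp : ∀ κ' : PadicAlgCl p, κ' ≠ 0 → ‖κ'‖ < ‖κ‖ →
      (P.roots.map (fun ρ => ρ⁻¹ * (κ⁻¹) ^ s)).countP (fun l => 1 < ‖l‖) <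
      (P.roots.map (fun ρ => ρ⁻¹ * (κ'⁻¹) ^ s)).countP (fun l => 1 < ‖l‖) := by
    intro κ' hκ'0 hκ'
    have hκ'n : 0 < ‖κ'‖ := norm_pos_iff.2 hκ'0
    have hnorm : ∀ (x κ₁ : PadicAlgCl p), κ₁ ≠ 0 →
        (1 < ‖x⁻¹ * (κ₁⁻¹) ^ s‖ ↔ ‖κ₁‖ ^ s < ‖x⁻¹‖) := by
      intro x κ₁ h₁
      have h₂ : 0 < ‖κ₁‖ ^ s := pow_pos (norm_pos_iff.2 h₁) s
      rw [norm_mul, norm_pow, norm_inv κ₁, inv_pow, ← div_eq_mul_inv, one_lt_div h₂]
    rw [Multiset.countP_map, Multiset.countP_map, ← Multiset.countP_eq_card_filter,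
      ← Multiset.countP_eq_card_filter, ht, Multiset.countP_cons, Multiset.countP_cons,
      if_neg (by rw [hnorm _ _ hκ0, hκn']; exact lt_irrefl _),
      if_pos (by
        rw [hnorm _ _ hκ'0, ← hκn']
        exact pow_lt_pow_left₀ hκ' hκ'n.le hs), add_zero]
    refine Nat.lt_succ_of_le (countP_mono' _ _ (fun x hx => ?_) t)
    rw [hnorm _ _ hκ0] at hx
    rw [hnorm _ _ hκ'0]
    exact lt_of_le_of_lt (pow_le_pow_left₀ hκ'n.le hκ'.le s) hx
  rcases lt_or_ge ‖κ‖ 1 with h1 | h1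
  · have hx1 : ‖κ‖ ^ M ≤ 1 := pow_le_one₀ hκn.le h1.le
    obtain ⟨W, hW1, hW2⟩ := exists_nat_pow_near_of_lt_one (pow_pos hκn M) hx1 hpn0 hpn
    have hWM : W < M := by
      by_contra hcon
      push Not at hcon
      have h2 : ‖(p : PadicAlgCl p)‖ ^ M < ‖κ‖ ^ M := pow_lt_pow_left₀ hpκ hpn0.le hMne
      have h3 : ‖(p : PadicAlgCl p)‖ ^ W ≤ ‖(p : PadicAlgCl p)‖ ^ M :=
        pow_le_pow_of_le_one hpn0.le hpn.le hcon
      exact absurd (h2.trans_le (hW2.trans h3)) (lt_irrefl _)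
    rcases hW2.lt_or_eq with h2 | h2
    · exfalso
      obtain ⟨τ, hτ⟩ : ∃ τ : PadicAlgCl p, τ ^ M = (p : PadicAlgCl p) ^ (W + 1) :=
        IsAlgClosed.exists_pow_nat_eq _ hMpos
      obtain ⟨κ', hκ'⟩ : ∃ κ' : PadicAlgCl p, κ' ^ 2 = κ * τ :=
        IsAlgClosed.exists_pow_nat_eq _ two_pos
      have hτn : ‖τ‖ ^ M = ‖(p : PadicAlgCl p)‖ ^ (W + 1) := by
        rw [← norm_pow, hτ, norm_pow]
      have hκ'n : ‖κ'‖ ^ 2 = ‖κ‖ * ‖τ‖ := by rw [← norm_pow, hκ', norm_mul]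
      have hτ0 : 0 < ‖τ‖ := by
        rcases (norm_nonneg τ).lt_or_eq with h | h
        · exact h
        · rw [← h, zero_pow hMne] at hτn
          exact absurd hτn (pow_pos hpn0 _).ne
      have hκ'pos : 0 < ‖κ'‖ := by
        rcases (norm_nonneg κ').lt_or_eq with h | h
        · exact h
        · rw [← h, zero_pow two_ne_zero] at hκ'n
          exact absurd hκ'n (mul_pos hκn hτ0).ne
      have hτκ : ‖τ‖ < ‖κ‖ := by
        refine lt_of_pow_lt_pow_left₀ M hκn.le ?_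
        rw [hτn]
        exact hW1
      have hκ'κ : ‖κ'‖ < ‖κ‖ := by
        refine lt_of_pow_lt_pow_left₀ 2 hκn.le ?_
        rw [hκ'n, pow_two]
        exact mul_lt_mul_of_pos_left hτκ hκn
      have hτκ' : ‖τ‖ < ‖κ'‖ := by
        refine lt_of_pow_lt_pow_left₀ 2 hκ'pos.le ?_
        rw [hκ'n, pow_two]
        exact mul_lt_mul_of_pos_right hτκ hτ0
      have h3 := count_lt1 hf hMp hσ hσe hs hfs hWM (fun w hw => hord w (by omega)) hζ P hP hκ0 h2 hW1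
      have h4 := count_lt1 hf hMp hσ hσe hs hfs hWM (fun w hw => hord w (by omega)) hζ P hP
        (norm_pos_iff.1 hκ'pos)
        (lt_of_lt_of_le (pow_lt_pow_left₀ hκ'κ hκ'pos.le hMne) hW2)
        (by rw [← hτn]; exact pow_lt_pow_left₀ hτκ' hτ0.le hMne)
      have h5 := hcmp κ' (norm_pos_iff.1 hκ'pos) hκ'κ
      rw [h3, h4] at h5
      exact lt_irrefl _ h5
    · refine ⟨W, ?_, hWM, ?_⟩
      · rcases Nat.eq_zero_or_pos W with h3 | h3
        · exfalso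
          rw [h3, pow_zero] at h2
          exact absurd h2 (pow_lt_one₀ hκn.le h1 hMne).ne
        · exact h3
      · rw [← hκn', ← pow_mul, mul_comm s M, pow_mul, h2, ← pow_mul, mul_comm]
  · exfalso
    obtain ⟨κ', hκ'⟩ : ∃ κ' : PadicAlgCl p, κ' ^ (2 * M) = (p : PadicAlgCl p) :=
      IsAlgClosed.exists_pow_nat_eq _ (by omega)
    have hκ'n : (‖κ'‖ ^ M) ^ 2 = ‖(p : PadicAlgCl p)‖ := by
      rw [← pow_mul, mul_comm M 2, ← norm_pow, hκ']
    have hκ'pos : 0 < ‖κ'‖ := by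
      rcases (norm_nonneg κ').lt_or_eq with h | h
      · exact h
      · rw [← h, zero_pow hMne, zero_pow two_ne_zero] at hκ'n
        exact absurd hκ'n hpn0.ne
    have hx0 : 0 < ‖κ'‖ ^ M := pow_pos hκ'pos M
    have hx1 : ‖κ'‖ ^ M < 1 := by
      by_contra hcon
      push Not at hcon
      have := one_le_pow₀ hcon (n := 2)
      rw [hκ'n] at this
      exact absurd hpn (not_lt.2 this)
    have hx2 : ‖(p : PadicAlgCl p)‖ < ‖κ'‖ ^ M := by
      rw [← hκ'n, pow_two]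
      exact mul_lt_of_lt_one_left hx0 hx1
    have hκ'1 : ‖κ'‖ < 1 := by
      by_contra hcon
      push Not at hcon
      exact absurd hx1 (not_lt.2 (one_le_pow₀ hcon))
    have h3 := count_lt1 (W := 0) hf hMp hσ hσe hs hfs hMpos (fun w hw => hord w (by omega)) hζ P hP
      (norm_pos_iff.1 hκ'pos) (by rw [pow_zero]; exact hx1) (by rw [zero_add, pow_one]; exact hx2)
    have h4 := hcmp κ' (norm_pos_iff.1 hκ'pos) (hκ'1.trans_le h1)
    have h5 : Nat.card {v : σ →₀ ℕ // (∀ i, v i ≠ 0) ∧ wt ω v ≤ 0} = 0 := by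
      have : IsEmpty {v : σ →₀ ℕ // (∀ i, v i ≠ 0) ∧ wt ω v ≤ 0} := by
        refine ⟨fun ⟨v, hv1, hv2⟩ => ?_⟩
        obtain ⟨i⟩ := ‹Nonempty σ›
        have h6 : ω i * v i ≤ wt ω v := by
          unfold wt
          exact Finset.single_le_sum (f := fun i => ω i * v i) (fun _ _ => Nat.zero_le _)
            (Finset.mem_univ i)
        have h7 := Nat.mul_pos (hf.hω i) (Nat.pos_of_ne_zero (hv1 i))
        omega
      exact Nat.card_of_isEmpty
    rw [h5] at h3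
    rw [h3] at h4
    exact absurd h4 (Nat.not_lt_zero _)

end OC

end Pool.Agent.N867.AS
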