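import Mathlib

/-!
# Determinants of block cyclic matrices
-/

set_option autoImplicit false
set_option linter.unusedSectionVars false

namespace Pool.Agent.N867.AS

namespace OC

open Matrix

variable {R : Type*} [CommRing R] {ι : Type*} [Fintype ι] [DecidableEq ι]

theorem val_succ {s : ℕ} [NeZero s] (x : ZMod s) (h : x.val + 1 < s) : (x + 1).val = x.val + 1 := by
  have h1 : (1 : ZMod s).val = 1 := by
    have : Fact (1 < s) := ⟨by omega⟩
    exact ZMod.val_one s
  rw [ZMod.val_add_of_lt (by rw [h1]; exact h), h1]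

theorem succ_eq_zero {s : ℕ} [NeZero s] (x : ZMod s) : x + 1 = 0 ↔ x.val + 1 = s := by
  have h1 : x + 1 = ((x.val + 1 : ℕ) : ZMod s) := by
    push_cast
    rw [ZMod.natCast_val, ZMod.cast_id', id]
  rw [h1, ZMod.natCast_eq_zero_iff]
  have h2 := x.val_lt
  constructor
  · intro h
    have := Nat.le_of_dvd (Nat.succ_pos _) h
    omega
  · intro h
    rw [h]

theorem block_cyc {s : ℕ} [NeZero s] (A : ZMod s → Matrix ι ι R) (H : ℕ → Matrix ι ι R)
    (h0 : H 0 = 1) (hH : ∀ j < s, H (j + 1) = H j * A (j : ZMod s)) :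
    (Matrix.of fun x y : ZMod s × ι => (if x = y then (1 : R) else 0) -
      if y.1 = x.1 + 1 then A x.1 x.2 y.2 else 0).det = (1 - H s).det := by
  classical
  have hs : s ≠ 0 := NeZero.ne s
  obtain ⟨N, hN⟩ : ∃ N : Matrix (ZMod s × ι) (ZMod s × ι) R, ∀ x y, N x y =
    if y.1 = x.1 + 1 ∧ x.1.val + 1 < s then A x.1 x.2 y.2 else 0 := ⟨Matrix.of fun _ _ => _,
      fun _ _ => rfl⟩
  obtain ⟨U, hU⟩ : ∃ U : Matrix (ZMod s × ι) ι R, ∀ x v, U x v =
    if x.1.val + 1 = s then A x.1 x.2 v else 0 := ⟨Matrix.of fun _ _ => _, fun _ _ => rfl⟩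
  obtain ⟨Y, hY⟩ : ∃ Y : Matrix ι (ZMod s × ι) R, ∀ u y, Y u y = H y.1.val u y.2 :=
    ⟨Matrix.of fun _ _ => _, fun _ _ => rfl⟩
  obtain ⟨E, hE⟩ : ∃ E : Matrix ι (ZMod s × ι) R, ∀ u y, E u y =
    if y.1 = 0 ∧ u = y.2 then 1 else 0 := ⟨Matrix.of fun _ _ => _, fun _ _ => rfl⟩
  have hYN : Y - Y * N = E := by
    ext u y
    rw [Matrix.sub_apply, Matrix.mul_apply, Fintype.sum_prod_type, hE, hY]
    by_cases hy : y.1 = 0
    · have h1 : ∀ x : ZMod s, ∑ v, Y u (x, v) * N (x, v) y = 0 := by
        intro x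
        refine Finset.sum_eq_zero fun v _ => ?_
        rw [hN, if_neg, mul_zero]
        rintro ⟨h2, h3⟩
        simp only at h2 h3
        rw [hy] at h2
        have := (succ_eq_zero x).1 h2.symm
        omega
      rw [Finset.sum_eq_zero fun x _ => h1 x, sub_zero, hy, ZMod.val_zero, h0, Matrix.one_apply]
      by_cases h2 : u = y.2
      · rw [if_pos h2, if_pos ⟨rfl, h2⟩]
      · rw [if_neg h2, if_neg (fun h => h2 h.2)]
    · rw [if_neg (fun h => hy h.1)]
      obtain ⟨x₀, hx₀⟩ : ∃ x₀ : ZMod s, y.1 = x₀ + 1 := ⟨y.1 - 1, by ring⟩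
      have h3 : x₀.val + 1 < s := by
        have h4 := x₀.val_lt
        have h5 : x₀.val + 1 ≠ s := fun h => hy (by rw [hx₀, succ_eq_zero, h])
        omega
      rw [Finset.sum_eq_single x₀]
      · have h4 : ∀ v, Y u (x₀, v) * N (x₀, v) y = H x₀.val u v * A x₀ v y.2 := by
          intro v
          rw [hY, hN, if_pos ⟨hx₀, h3⟩]
        rw [Finset.sum_congr rfl fun v _ => h4 v, ← Matrix.mul_apply]
        have h5 := hH x₀.val x₀.val_lt
        rw [ZMod.natCast_val, ZMod.cast_id', id] at h5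
        rw [← h5, hx₀, val_succ x₀ h3, sub_self]
      · intro x _ hx
        refine Finset.sum_eq_zero fun v _ => ?_
        rw [hN, if_neg, mul_zero]
        rintro ⟨h4, -⟩
        simp only at h4
        rw [hx₀] at h4
        exact hx (add_right_cancel h4).symm
      · intro h
        exact absurd (Finset.mem_univ _) h
  have hUE : ∀ x y, (U * E) x y = if y.1 = 0 ∧ x.1.val + 1 = s then A x.1 x.2 y.2 else 0 := by
    intro x y
    rw [Matrix.mul_apply]
    by_cases h1 : y.1 = 0 ∧ x.1.val + 1 = s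
    · rw [if_pos h1, Finset.sum_eq_single y.2]
      · rw [hU, hE, if_pos h1.2, if_pos ⟨h1.1, rfl⟩, mul_one]
      · intro v _ hv
        rw [hE, if_neg (fun h => hv h.2), mul_zero]
      · intro h
        exact absurd (Finset.mem_univ _) h
    · rw [if_neg h1]
      refine Finset.sum_eq_zero fun v _ => ?_
      rw [hU, hE]
      by_cases h2 : x.1.val + 1 = s
      · rw [if_pos h2, if_neg (fun h => h1 ⟨h.1, h2⟩), mul_zero]
      · rw [if_neg h2, zero_mul]
  have hM : (Matrix.of fun x y : ZMod s × ι => (if x = y then (1 : R) else 0) -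
      if y.1 = x.1 + 1 then A x.1 x.2 y.2 else 0) = (1 - U * Y) * (1 - N) := by
    have h1 : (1 - U * Y) * (1 - N) = 1 - N - U * (Y - Y * N) := by
      rw [Matrix.mul_sub, Matrix.mul_one, Matrix.sub_mul, Matrix.one_mul, Matrix.mul_sub,
        Matrix.mul_assoc]
      abel
    rw [h1, hYN]
    ext x y
    rw [Matrix.of_apply, Matrix.sub_apply, Matrix.sub_apply, Matrix.one_apply, hUE, hN,
      sub_sub]
    congr 1
    have hx := x.1.val_lt
    by_cases h2 : y.1 = x.1 + 1
    · rw [if_pos h2]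
      by_cases h3 : x.1.val + 1 < s
      · rw [if_pos ⟨h2, h3⟩, if_neg (by rintro ⟨-, h⟩; omega), add_zero]
      · have h4 : x.1.val + 1 = s := by omega
        rw [if_neg (fun h => h3 h.2), if_pos ⟨by rw [h2, succ_eq_zero, h4], h4⟩, zero_add]
    · rw [if_neg h2, if_neg (fun h => h2 h.1), if_neg, add_zero]
      rintro ⟨h3, h4⟩
      exact h2 (by rw [h3, (succ_eq_zero x.1).2 h4])
  have hNdet : (1 - N).det = 1 := by
    have h1 : Matrix.BlockTriangular (1 - N) (fun x : ZMod s × ι => x.1.val) := by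
      intro x y hxy
      simp only at hxy
      rw [Matrix.sub_apply, Matrix.one_apply, hN, if_neg, if_neg, sub_zero]
      · rintro ⟨h2, h3⟩
        rw [h2, val_succ _ h3] at hxy
        omega
      · rintro rfl
        exact lt_irrefl _ hxy
    rw [h1.det]
    refine Finset.prod_eq_one fun a _ => ?_
    have h2 : (1 - N).toSquareBlock (fun x : ZMod s × ι => x.1.val) a = 1 := by
      ext x y
      rw [Matrix.toSquareBlock_def, Matrix.of_apply, Matrix.sub_apply, hN, if_neg, sub_zero,
        Matrix.one_apply, Matrix.one_apply]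
      · simp only [Subtype.ext_iff]
      · rintro ⟨h3, h4⟩
        have h5 := x.2
        have h6 := y.2
        rw [h3, val_succ _ h4] at h6
        omega
    rw [h2, Matrix.det_one]
  rw [hM, Matrix.det_mul, hNdet, mul_one, Matrix.det_one_sub_mul_comm]
  congr 2
  ext u v
  rw [Matrix.mul_apply, Fintype.sum_prod_type]
  obtain ⟨j, hj⟩ : ∃ j, j + 1 = s := ⟨s - 1, by omega⟩
  have h3 : ((j : ℕ) : ZMod s).val = j := ZMod.val_cast_of_lt (by omega)
  rw [Finset.sum_eq_single ((j : ℕ) : ZMod s)]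
  · have h4 : ∀ w, Y u ((j : ZMod s), w) * U ((j : ZMod s), w) v =
        H j u w * A (j : ZMod s) w v := by
      intro w
      rw [hY, hU, h3, if_pos hj]
    rw [Finset.sum_congr rfl fun w _ => h4 w, ← Matrix.mul_apply, ← hH j (by omega), hj]
  · intro x _ hx
    refine Finset.sum_eq_zero fun w _ => ?_
    rw [hU, if_neg, mul_zero]
    intro h4
    apply hx
    have h5 : x.val = j := by
      simp only at h4
      omega
    rw [← h5, ZMod.natCast_val, ZMod.cast_id', id]
  · intro h
    exact absurd (Finset.mem_univ _) h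

end OC

end Pool.Agent.N867.AS
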