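import Pool.Agent.N867.AS.R3
import Pool.Agent.N867.AS.R6
import Pool.Agent.N867.AS.R7

/-!
# One character: the multiplicities of the roots
-/

set_option autoImplicit false
set_option linter.unusedSectionVars false

namespace Pool.Agent.N867.AS

namespace OC

open Polynomial

section algebra

theorem cancel {F : Type*} [Field F] {E1 E2 : F[X]} {w w' : F} {a b : ℕ} (h1 : E1.eval 0 = 1)
    (h2 : E2.eval 0 = 1) (hw : w ≠ 0) (hw' : w' ≠ 0)
    (h : C w' * X ^ b * E1 = C w * (X ^ a * E2)) : E1 = E2 := by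
  have hX : ∀ n : ℕ, (X ^ n : F[X]) ≠ 0 := fun n => pow_ne_zero _ X_ne_zero
  rcases lt_trichotomy a b with hab | hab | hab
  · exfalso
    obtain ⟨d, rfl⟩ := Nat.exists_eq_add_of_lt hab
    have h3 : X ^ a * (C w' * X ^ (d + 1) * E1) = X ^ a * (C w * E2) := by
      calc _ = C w' * X ^ (a + d + 1) * E1 := by ring
        _ = C w * (X ^ a * E2) := h
        _ = _ := by ring
    have h4 := congrArg (eval 0) (mul_left_cancel₀ (hX a) h3)
    simp only [eval_mul, eval_C, eval_pow, eval_X, h1, h2, mul_one] at h4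
    rw [zero_pow (Nat.succ_ne_zero _), mul_zero] at h4
    exact hw h4.symm
  · subst hab
    have h3 : X ^ a * (C w' * E1) = X ^ a * (C w * E2) := by
      calc _ = C w' * X ^ a * E1 := by ring
        _ = C w * (X ^ a * E2) := h
        _ = _ := by ring
    have h5 := mul_left_cancel₀ (hX a) h3
    have h4 := congrArg (eval 0) h5
    simp only [eval_mul, eval_C, h1, h2, mul_one] at h4
    rw [h4] at h5
    exact mul_left_cancel₀ (C_ne_zero.2 hw) h5
  · exfalso
    obtain ⟨d, rfl⟩ := Nat.exists_eq_add_of_lt hab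
    have h3 : X ^ b * (C w' * E1) = X ^ b * (C w * X ^ (d + 1) * E2) := by
      calc _ = C w' * X ^ b * E1 := by ring
        _ = C w * (X ^ (b + d + 1) * E2) := h
        _ = _ := by ring
    have h4 := congrArg (eval 0) (mul_left_cancel₀ (hX b) h3)
    simp only [eval_mul, eval_C, eval_pow, eval_X, h1, h2, mul_one] at h4
    rw [zero_pow (Nat.succ_ne_zero _), mul_zero] at h4
    exact hw' h4

/-- a power of a linear factor of `Q (c X)` gives one of `Q` -/
theorem pow_dvd_of {F : Type*} [Field F] [DecidableEq F] {Q : F[X]} {c : F} (hc : c ≠ 0)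
    (Λ : Multiset F) (h : Q.comp (C c * X) = (Λ.map fun l => 1 - C l * X).prod) {l : F}
    (hl : l ≠ 0) : (X - C (c * l⁻¹)) ^ Λ.count l ∣ Q := by
  have h1 : (1 - C l * X) ^ Λ.count l ∣ (Λ.map fun l => 1 - C l * X).prod := by
    have h2 : Multiset.replicate (Λ.count l) l ≤ Λ := Multiset.le_count_iff_replicate_le.1 le_rfl
    have h3 := Multiset.prod_dvd_prod_of_le (Multiset.map_le_map (f := fun l => 1 - C l * X) h2)
    rwa [Multiset.map_replicate, Multiset.prod_replicate] at h3
  rw [← h] at h1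
  obtain ⟨T, hT⟩ := h1
  have h2 := congrArg (fun P : F[X] => P.comp (C c⁻¹ * X)) hT
  simp only [mul_comp (p := (1 - C l * X) ^ Multiset.count l Λ), pow_comp] at h2
  have h3 : (Q.comp (C c * X)).comp (C c⁻¹ * X) = Q := by
    rw [comp_assoc]
    have : (C c * X : F[X]).comp (C c⁻¹ * X) = X := by
      rw [mul_comp, C_comp, X_comp, ← mul_assoc, ← C_mul, mul_inv_cancel₀ hc, C_1, one_mul]
    rw [this, comp_X]
  have h4 : (1 - C l * X : F[X]).comp (C c⁻¹ * X) = C (-(l * c⁻¹)) * (X - C (c * l⁻¹)) := by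
    rw [sub_comp, one_comp, mul_comp, C_comp, X_comp, mul_sub, ← C_mul, ← mul_assoc, ← C_mul]
    have : -(l * c⁻¹) * (c * l⁻¹) = -1 := by
      field_simp
    rw [this, C_neg, C_neg, C_1]
    ring
  rw [h3, h4, mul_pow] at h2
  exact ⟨C (-(l * c⁻¹)) ^ Multiset.count l Λ * T.comp (C c⁻¹ * X), by
    conv_lhs => rw [h2]
    ring⟩

theorem count_sep {F : Type*} [Field F] [DecidableEq F] {Q : F[X]} (hQ : Q.Separable) {c : F}
    (hc : c ≠ 0) (Λ : Multiset F) (h : Q.comp (C c * X) = (Λ.map fun l => 1 - C l * X).prod)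
    {l : F} (hl : l ≠ 0) : Λ.count l ≤ 1 := by
  have h1 := pow_dvd_of hc Λ h hl
  have h2 : Λ.count l ≤ Q.rootMultiplicity (c * l⁻¹) :=
    (le_rootMultiplicity_iff hQ.ne_zero).2 h1
  exact h2.trans (rootMultiplicity_le_one_of_separable hQ _)

theorem rm_pow {F : Type*} [Field F] [DecidableEq F] {n : ℕ} (hn : (n : F) ≠ 0) (θ : F) :
    (1 - X ^ n : F[X]).rootMultiplicity θ ≤ if θ ^ n = 1 then 1 else 0 := by
  have hsep : (1 - X ^ n : F[X]).Separable := by
    have h := separable_X_pow_sub_C (1 : F) hn one_ne_zero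
    rw [C_1] at h
    have h2 : (1 - X ^ n : F[X]) = -(X ^ n - 1) := by ring
    rw [h2]
    unfold Separable at h ⊢
    rw [derivative_neg]
    exact h.neg_neg
  split_ifs with h
  · exact rootMultiplicity_le_one_of_separable hsep _
  · rw [Nat.le_zero, rootMultiplicity_eq_zero_iff]
    intro h1
    exfalso
    rw [IsRoot, eval_sub, eval_one, eval_pow, eval_X, sub_eq_zero] at h1
    exact h h1.symm

theorem rm_prod {F : Type*} [Field F] [DecidableEq F] {ε : Type*} [DecidableEq ε] (S : Finset ε)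
    (n : ε → ℕ) (hn : ∀ i, (n i : F) ≠ 0) (θ : F) :
    (∏ i ∈ S, (1 - X ^ n i : F[X])).rootMultiplicity θ ≤ (S.filter fun i => θ ^ n i = 1).card ∧
      (∏ i ∈ S, (1 - X ^ n i : F[X])) ≠ 0 := by
  induction S using Finset.induction_on with
  | empty => simp
  | insert i S hi ih =>
    have h0 : (1 - X ^ n i : F[X]) ≠ 0 := by
      have hni : n i ≠ 0 := by
        intro h
        exact hn i (by rw [h, Nat.cast_zero])
      intro h
      have h1 := congrArg (eval 0) h
      rw [eval_sub, eval_one, eval_pow, eval_X, zero_pow hni, sub_zero, eval_zero] at h1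
      exact one_ne_zero h1
    rw [Finset.prod_insert hi]
    have h1 := mul_ne_zero h0 ih.2
    refine ⟨?_, h1⟩
    rw [rootMultiplicity_mul h1, Finset.filter_insert]
    have h2 := rm_pow (hn i) θ
    split_ifs at h2 ⊢ with h
    · rw [Finset.card_insert_of_notMem (fun h' => hi (Finset.mem_filter.1 h').1)]
      have := ih.1
      omega
    · have := ih.1
      omega

theorem count_cyc {F : Type*} [Field F] [DecidableEq F] {Q : F[X]} {e : ℕ} (n : Fin e → ℕ)
    (hn : ∀ i, (n i : F) ≠ 0) (hcop : ∀ i j, i ≠ j → (n i).Coprime (n j))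
    (hQ : Q * (1 - X) = ∏ i, (1 - X ^ n i)) {c : F}
    (hc : c ≠ 0) (Λ : Multiset F) (h : Q.comp (C c * X) = (Λ.map fun l => 1 - C l * X).prod)
    {l : F} (hl : l ≠ 0) : (l = c → Λ.count l ≤ e - 1) ∧ (l ≠ c → Λ.count l ≤ 1) := by
  have h1 := pow_dvd_of hc Λ h hl
  obtain ⟨hr, h0⟩ := rm_prod Finset.univ n hn (c * l⁻¹)
  rw [← hQ] at hr h0
  constructor
  · rintro rfl
    rw [mul_inv_cancel₀ hl] at h1 hr
    have h2 : (X - C (1 : F)) ^ (Λ.count l + 1) ∣ Q * (1 - X) := by
      rw [pow_succ]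
      refine mul_dvd_mul h1 ⟨-1, ?_⟩
      rw [C_1]
      ring
    have h3 := (le_rootMultiplicity_iff h0).2 h2
    have h4 := Finset.card_filter_le (Finset.univ : Finset (Fin e)) (fun i => (1 : F) ^ n i = 1)
    rw [Finset.card_univ, Fintype.card_fin] at h4
    omega
  · intro hlc
    have h2 : (X - C (c * l⁻¹)) ^ (Λ.count l) ∣ Q * (1 - X) := h1.trans (dvd_mul_right _ _)
    have h3 := (le_rootMultiplicity_iff h0).2 h2
    refine h3.trans (hr.trans ?_)
    rw [Finset.card_le_one]
    intro i hi j hj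
    by_contra hij
    have hi' := (Finset.mem_filter.1 hi).2
    have hj' := (Finset.mem_filter.1 hj).2
    have h5 : c * l⁻¹ = 1 := by
      have h6 := orderOf_dvd_of_pow_eq_one hi'
      have h7 := orderOf_dvd_of_pow_eq_one hj'
      have h8 := Nat.dvd_gcd h6 h7
      rw [Nat.Coprime.gcd_eq_one (hcop i j hij), Nat.dvd_one, orderOf_eq_one_iff] at h8
      exact h8
    apply hlc
    field_simp at h5
    exact h5.symm

end algebra

section blocks

open Res Tr Bd RedS GW

variable {σ : Type} [Fintype σ] [DecidableEq σ]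

variable {p : ℕ} [hp : Fact p.Prime] {ω : σ → ℕ} {f : MvPolynomial σ (k p)} {M s : ℕ}

/-- products `A 0 * A 1 * ⋯ * A (j - 1)` -/
def FP {R : Type*} [CommRing R] {ι : Type*} [Fintype ι] [DecidableEq ι] (A : ℕ → Matrix ι ι R) :
    ℕ → Matrix ι ι R
  | 0 => 1
  | j + 1 => FP A j * A j

/-- the matrices `NN` -/
noncomputable def NM (f : MvPolynomial σ (k p)) (n : ℕ) {ι : Type} (E : ι → σ →₀ ℕ) (j : ℕ) :
    Matrix ι ι (k p) :=
  Matrix.of fun u v => NN f j n (E u) (E v)

theorem DW_eq [NeZero s] (n : ℕ) (c : k p) {ι : Type} [Fintype ι] [DecidableEq ι]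
    (E : ι → σ →₀ ℕ) : DW f s n c E =
      expand (k p) s ((FP (NM f n E) s).charpolyRev.comp (C (c ^ s) * X)) := by
  have h1 := block_cyc (s := s) (fun j : ZMod s => (X * C c) • (NM f n E j.val).map C)
    (fun j => (X * C c) ^ j • (FP (NM f n E) j).map C) (by
      rw [pow_zero, one_smul, FP]
      exact Matrix.map_one _ C_0 C_1) (fun j hj => by
      have h2 : ((j : ℕ) : ZMod s).val = j := ZMod.val_cast_of_lt hj
      simp only [h2]
      rw [FP, Matrix.map_mul, Matrix.smul_mul, Matrix.mul_smul, smul_smul, ← pow_succ])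
  have h2 : DW f s n c E = (Matrix.of fun x y : ZMod s × ι => (if x = y then (1 : (k p)[X]) else 0) -
      if y.1 = x.1 + 1 then ((X * C c) • (NM f n E x.1.val).map C : Matrix ι ι (k p)[X]) x.2 y.2
        else 0).det := by
    rw [DW]
    congr 1
    ext1 x y
    rw [Matrix.of_apply, Matrix.of_apply, Matrix.smul_apply, Matrix.map_apply, NM,
      Matrix.of_apply, smul_eq_mul]
    congr 1
    split_ifs
    · rw [C_mul]
      ring
    · rfl
  rw [h2, h1, expand_eq_comp_X_pow, comp_assoc]
  have h3 : (C (c ^ s) * X : (k p)[X]).comp (X ^ s) = (X * C c) ^ s := by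
    rw [mul_comp, C_comp, X_comp, mul_pow, C_pow]
    ring
  rw [h3, Matrix.charpolyRev, ← coe_compRingHom_apply, RingHom.map_det]
  congr 1
  ext1 u v
  rw [Matrix.sub_apply, Matrix.smul_apply, Matrix.map_apply, RingHom.mapMatrix_apply,
    Matrix.map_apply, Matrix.sub_apply, Matrix.smul_apply, Matrix.map_apply, map_sub, smul_eq_mul,
    smul_eq_mul, map_mul, coe_compRingHom_apply, coe_compRingHom_apply, coe_compRingHom_apply,
    X_comp, C_comp, Matrix.one_apply]
  congr 1
  split_ifs
  · rw [one_comp]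
  · rw [zero_comp]

theorem expand_prod (Λ : Multiset (k p)) : (Λ.map fun l => (1 - C l * X ^ s : (k p)[X])).prod =
    expand (k p) s (Λ.map fun l => (1 - C l * X : (k p)[X])).prod := by
  rw [map_multiset_prod, Multiset.map_map]
  congr 1
  refine Multiset.map_congr rfl fun l _ => ?_
  simp only [Function.comp_apply, map_sub, map_one, map_mul, expand_C, expand_X]

theorem eval_prod (Λ : Multiset (k p)) :
    eval 0 (Λ.map fun l => (1 - C l * X : (k p)[X])).prod = 1 := by
  rw [← coe_evalRingHom, map_multiset_prod, Multiset.map_map]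
  refine Multiset.prod_eq_one ?_
  intro x hx
  obtain ⟨l, -, rfl⟩ := Multiset.mem_map.1 hx
  simp

/-- the residues of the eigenvalues of slope `W / M` -/
theorem residues (hf : WF f ω M) (hMp : M ∣ p - 1) (hσ : 2 ≤ Fintype.card σ)
    (hσe : Even (Fintype.card σ)) (hs : s ≠ 0) [NeZero s]
    (hfs : ∀ μ, MvPolynomial.coeff μ f ^ p ^ s = MvPolynomial.coeff μ f) {W : ℕ} (hWM : W ≤ M)
    (hord : ∀ w, w < W → Ord f ω M w) {ι : Type}
    [Fintype ι] [DecidableEq ι] (E : ι ≃ SW ω W) {ζ : PadicAlgCl p} (hζ : IsPrimitiveRoot ζ p)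
    (P : Polynomial (PadicAlgCl p))
    (hP : HasPS (P : PowerSeries (PadicAlgCl p)) (fun m => CS f ζ (s * m))) [DecidableEq ℝ]
    [DecidableEq (k p)] :
    ∃ κ : PadicAlgCl p, κ ≠ 0 ∧
      ‖κ‖ ^ M = ‖(p : PadicAlgCl p)‖ ^ W ∧
      (W = M → ‖κ / (p : PadicAlgCl p)‖ ≤ 1 ∧ red p (κ / (p : PadicAlgCl p)) = -1) ∧
      (FP (NM f ((p - 1) * W / M) (fun i => (E i).1)) s).charpolyRev.comp
        (C ((((((p - 1) * W / M).factorial : ℕ) : k p)⁻¹) ^ s) * X) =
      ((((P.roots.map (fun ρ => ρ⁻¹ * (κ⁻¹) ^ s)).filter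
            fun l => ‖l‖ = 1).map (red p)).map fun l => (1 - C l * X : (k p)[X])).prod := by
  obtain ⟨κ, w, w', a, b, h1, h2, h3, hw, hw', h4⟩ := count1 hf hMp hσ hσe hs hfs hWM hord E hζ P hP
  refine ⟨κ, h1, h2, h3, ?_⟩
  have h5 := DW_coeff_zero (f := f) (s := s) ((p - 1) * W / M)
    (((((p - 1) * W / M).factorial : ℕ) : k p)⁻¹) (fun i => (E i).1)
  rw [DW_eq, expand_prod] at h4
  rw [DW_eq] at h5
  have h6 := cancel h5 (by
    rw [expand_eval, zero_pow hs]
    exact eval_prod _) hw hw' h4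
  exact expand_injective (Nat.pos_of_ne_zero hs) h6

theorem countP_residue {α : Type*} (S : Multiset α) (F : α → PadicAlgCl p) (q : α → Prop)
    [DecidablePred q] [DecidableEq ℝ] [DecidableEq (k p)] (l : k p)
    (h : ∀ x, q x → ‖F x‖ = 1 ∧ red p (F x) = l) :
    S.countP q ≤ (((S.map F).filter fun l => ‖l‖ = 1).map (red p)).count l := by
  induction S using Multiset.induction_on with
  | empty => simp
  | cons x S ih =>
    rw [Multiset.countP_cons, Multiset.map_cons]
    by_cases hx : q x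
    · obtain ⟨h1, h2⟩ := h x hx
      rw [if_pos hx, Multiset.filter_cons_of_pos (p := fun l : PadicAlgCl p => ‖l‖ = 1) _ h1,
        Multiset.map_cons, Multiset.count_cons, if_pos h2.symm]
      exact Nat.add_le_add_right ih 1
    · rw [if_neg hx, add_zero]
      by_cases h1 : ‖F x‖ = 1
      · rw [Multiset.filter_cons_of_pos (p := fun l : PadicAlgCl p => ‖l‖ = 1) _ h1,
          Multiset.map_cons, Multiset.count_cons]
        exact ih.trans (Nat.le_add_right _ _)
      · rw [Multiset.filter_cons_of_neg (p := fun l : PadicAlgCl p => ‖l‖ = 1) _ h1]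
        exact ih

theorem count_add {α : Type*} [DecidableEq α] (S : Multiset α) {x y : α} (hxy : x ≠ y) :
    S.count x + S.count y ≤ S.countP (fun z => z = x ∨ z = y) := by
  induction S using Multiset.induction_on with
  | empty => simp
  | cons z S ih =>
    rw [Multiset.count_cons, Multiset.count_cons, Multiset.countP_cons]
    by_cases h1 : x = z
    · have h2 : ¬ y = z := fun h => hxy (h1.trans h.symm)
      rw [if_pos h1, if_neg h2, if_pos (Or.inl h1.symm)]
      omega
    · by_cases h2 : y = z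
      · rw [if_neg h1, if_pos h2, if_pos (Or.inr h2.symm)]
        omega
      · rw [if_neg h1, if_neg h2, if_neg (by
          rintro (h | h)
          · exact h1 h.symm
          · exact h2 h.symm)]
        omega

end blocks

end OC

end Pool.Agent.N867.AS
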