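import Pool.Agent.N867.AS.R8
import Pool.Agent.N867.AS.V7

/-!
# One character: roots of the `L`-function of a surface, `p`-adically
-/

set_option autoImplicit false
set_option linter.unusedSectionVars false

namespace Pool.Agent.N867.AS

namespace OC

open MvPolynomial Res Tr Bd RedS GW TV Pool.Agent.N867.AS.Trans

variable {p : ℕ} [hp : Fact p.Prime] {κ : Type} [Field κ] {a b g : ℕ}

theorem NN_Ψ (ha : a ≠ 0) (hb : b ≠ 0) (hg : g ≠ 0) {f : Polynomial (Polynomial κ)}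
    (hwt : ∀ m n, (f.coeff m).coeff n ≠ 0 → b * m + a * n ≤ g * (a * b)) (φ : κ →+* k p) {w : ℕ}
    (hMp : g * (a * b) ∣ p - 1) {E : Lat a b w ≃ SW (σ := Fin 2) ![b, a] w}
    (hE : ∀ u, (E u).1 0 = (u.1.1 : ℕ) ∧ (E u).1 1 = (u.1.2 : ℕ)) {n : ℕ}
    (hn : n = (p - 1) * w / (g * (a * b))) :
    (Matrix.of fun x y => NN (Trans.Ψ φ f) 0 n (E x).1 (E y).1) =
      φ.mapMatrix (TV.hw p a b w n f) := by
  classical
  have hWF := WF_Ψ ha hb hg hwt φ
  have hnM : n * (g * (a * b)) = (p - 1) * w := by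
    rw [hn, Nat.div_mul_cancel (hMp.mul_right w)]
  ext1 u v
  rw [Matrix.of_apply, RingHom.mapMatrix_apply, Matrix.map_apply, TV.hw, Matrix.of_apply]
  have h0 : map (Fr p 0) (Trans.Ψ φ f) = Trans.Ψ φ f := by
    ext v
    rw [coeff_map, Fr_apply, pow_zero, pow_one]
  have hwu := (E u).2.2
  have hwv := (E v).2.2
  rw [wt2, (hE u).1, (hE u).2] at hwu
  rw [wt2, (hE v).1, (hE v).2] at hwv
  unfold NN
  rw [h0]
  by_cases h : (E u).1 ≤ p • (E v).1
  · rw [if_pos h, ← map_pow, Trans.coeff_Ψ, Finsupp.tsub_apply, Finsupp.tsub_apply,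
      Finsupp.smul_apply, Finsupp.smul_apply, smul_eq_mul, smul_eq_mul, (hE u).1, (hE u).2,
      (hE v).1, (hE v).2]
  · rw [if_neg h]
    symm
    have h2 : coeff (Finsupp.single 0 (p * (v.1.1 : ℕ) - (u.1.1 : ℕ)) +
        Finsupp.single 1 (p * (v.1.2 : ℕ) - (u.1.2 : ℕ))) (Trans.Ψ φ f ^ n) = 0 := by
      refine (coeff_pow_top hWF.le n).1 _ ?_
      rw [hnM, wt2]
      simp only [Finsupp.coe_add, Pi.add_apply, Finsupp.single_apply]
      simp only [if_true, one_ne_zero, zero_ne_one, if_false, add_zero, zero_add]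
      -- one of the coordinates fails
      have h3 : ¬ ((u.1.1 : ℕ) ≤ p * (v.1.1 : ℕ)) ∨ ¬ ((u.1.2 : ℕ) ≤ p * (v.1.2 : ℕ)) := by
        by_contra h4
        push Not at h4
        apply h
        intro i
        rw [Finsupp.smul_apply, smul_eq_mul]
        fin_cases i
        · change (E u).1 0 ≤ p * (E v).1 0
          rw [(hE u).1, (hE v).1]
          exact h4.1
        · change (E u).1 1 ≤ p * (E v).1 1
          rw [(hE u).2, (hE v).2]
          exact h4.2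
      have hp2 := hp.1.two_le
      have h5 : p * w = (p - 1) * w + w := by
        obtain ⟨q, rfl⟩ : ∃ q, p = q + 1 := ⟨p - 1, by omega⟩
        rw [Nat.add_sub_cancel]
        ring
      have h6 : b * (p * (v.1.1 : ℕ)) + a * (p * (v.1.2 : ℕ)) = p * w := by
        have h7 : b * (p * (v.1.1 : ℕ)) + a * (p * (v.1.2 : ℕ)) =
          p * (b * (v.1.1 : ℕ) + a * (v.1.2 : ℕ)) := by ring
        rw [h7]
        exact congrArg (fun t => p * t) hwv
      rw [Nat.mul_sub, Nat.mul_sub]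
      have ha' := Nat.pos_of_ne_zero ha
      have hb' := Nat.pos_of_ne_zero hb
      rcases h3 with h3 | h3
      · push Not at h3
        have h7 : b * (p * (v.1.1 : ℕ)) < b * (u.1.1 : ℕ) := Nat.mul_lt_mul_of_pos_left h3 hb'
        omega
      · push Not at h3
        have h7 : a * (p * (v.1.2 : ℕ)) < a * (u.1.2 : ℕ) := Nat.mul_lt_mul_of_pos_left h3 ha'
        omega
    rw [← map_pow, Trans.coeff_Ψ] at h2
    simpa using h2

theorem NM_Ψ (ha : a ≠ 0) (hb : b ≠ 0) (hg : g ≠ 0) {f : Polynomial (Polynomial κ)}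
    (hwt : ∀ m n, (f.coeff m).coeff n ≠ 0 → b * m + a * n ≤ g * (a * b)) (φ : κ →+* k p) {w : ℕ}
    (hMp : g * (a * b) ∣ p - 1) {E : Lat a b w ≃ SW (σ := Fin 2) ![b, a] w}
    (hE : ∀ u, (E u).1 0 = (u.1.1 : ℕ) ∧ (E u).1 1 = (u.1.2 : ℕ)) {n : ℕ}
    (hn : n = (p - 1) * w / (g * (a * b))) (j : ℕ) :
    NM (Trans.Ψ φ f) n (fun i => (E i).1) j =
      ((TV.hw p a b w n f).map fun z => z ^ p ^ j).map φ := by
  ext u v
  have h1 := congrFun (congrFun (NN_Ψ ha hb hg hwt φ hMp hE hn) u) v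
  rw [Matrix.of_apply, RingHom.mapMatrix_apply, Matrix.map_apply] at h1
  rw [NM, Matrix.of_apply, NN_twist, h1, Fr_apply, Matrix.map_apply, Matrix.map_apply, map_pow]

theorem FP_map {R S : Type*} [CommRing R] [CommRing S] {ι : Type*} [Fintype ι] [DecidableEq ι]
    (φ : R →+* S) (A : ℕ → Matrix ι ι R) (B : ℕ → Matrix ι ι S) (h : ∀ j, B j = (A j).map φ)
    (j : ℕ) : FP B j = (FP A j).map φ := by
  induction j with
  | zero => exact (Matrix.map_one _ φ.map_zero φ.map_one).symm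
  | succ j ih => rw [FP, FP, Matrix.map_mul, ih, h]

theorem charpolyRev_map' {R S : Type*} [CommRing R] [CommRing S] {ι : Type*} [Fintype ι]
    [DecidableEq ι] (φ : R →+* S) (A : Matrix ι ι R) :
    (A.map φ).charpolyRev = A.charpolyRev.map φ := by
  rw [Matrix.charpolyRev, Matrix.charpolyRev, ← Polynomial.coe_mapRingHom, RingHom.map_det]
  congr 1
  ext1 u v
  rw [Matrix.sub_apply, Matrix.smul_apply, Matrix.map_apply, Matrix.map_apply,
    RingHom.mapMatrix_apply, Matrix.map_apply, Matrix.sub_apply, Matrix.smul_apply,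
    Matrix.map_apply, map_sub, smul_eq_mul, smul_eq_mul, map_mul, Polynomial.coe_mapRingHom,
    Polynomial.map_X, Polynomial.map_C, Matrix.one_apply, Matrix.one_apply]
  congr 1
  split_ifs
  · rw [Polynomial.map_one]
  · rw [Polynomial.map_zero]

/-- multiplicities of the roots of slope at most one -/
theorem padic (ha : a ≠ 0) (hb : b ≠ 0) (hab : a.Coprime b) (hg : g ≠ 0)
    (hga : g * a ∣ p - 1) (hgb : g * b ∣ p - 1) (f : Polynomial (Polynomial κ))
    (hwt : ∀ m n, (f.coeff m).coeff n ≠ 0 → b * m + a * n ≤ g * (a * b))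
    (hord : ∀ w, 0 < w → w < g * (a * b) →
      (TV.hw p a b w ((p - 1) * w / (g * (a * b))) f).det ≠ 0) {s : ℕ}
    (hsep : ∀ w, 0 < w → w < g * (a * b) →
      (FP (fun j => (TV.hw p a b w ((p - 1) * w / (g * (a * b))) f).map fun z => z ^ p ^ j)
        s).charpolyRev.Separable) {e : ℕ}
    (H : Fin e → Polynomial κ) (hirr : ∀ i, Irreducible (H i)) (hmon : ∀ i, (H i).Monic)
    (hne : Pairwise fun i j => IsCoprime (H i) (H j)) (htop : topPoly a b g f = ∏ i, H i)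
    (hdeg : (∏ i, H i).natDegree = g)
    (hcop : ∀ i j, i ≠ j → (H i).natDegree.Coprime (H j).natDegree)
    [Fintype κ] [CharP κ p] (hs : Fintype.card κ = p ^ s)
    (φκ : κ →+* k p) {ζ : PadicAlgCl p} (hζ : IsPrimitiveRoot ζ p)
    (P : Polynomial (PadicAlgCl p))
    (hP : HasPS (P : PowerSeries (PadicAlgCl p)) (fun m => CS (Ψ φκ f) ζ (s * m))) :
    P.rootMultiplicity (((p : PadicAlgCl p) ^ s)⁻¹) ≤ e - 1 ∧
    ∀ ρ : PadicAlgCl p, ‖(p : PadicAlgCl p)‖ ^ s ≤ ‖ρ⁻¹‖ → ρ ≠ ((p : PadicAlgCl p) ^ s)⁻¹ →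
      P.rootMultiplicity ρ ≤ 1 ∨
      P.rootMultiplicity ρ + P.rootMultiplicity (((p : PadicAlgCl p) ^ s)⁻¹) ≤ e - 1 := by
  classical
  have hp2 := hp.1.two_le
  have hpne : (p : PadicAlgCl p) ≠ 0 := Nat.cast_ne_zero.2 hp.1.ne_zero
  have hpn0 : 0 < ‖(p : PadicAlgCl p)‖ := norm_pos_iff.2 hpne
  have hs0 : s ≠ 0 := by
    rintro rfl
    rw [pow_zero] at hs
    exact absurd hs (Fintype.one_lt_card (α := κ)).ne'
  have : NeZero s := ⟨hs0⟩
  have hM := dvd_M hab hg hga hgb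
  have hp1 : p - 1 ≠ 0 := by omega
  have hgp : g < p := by
    have := Nat.le_of_dvd (Nat.pos_of_ne_zero hp1) ((dvd_mul_right g a).trans hga)
    omega
  have hWF := WF_Ψ ha hb hg hwt φκ
  have hM0 : g * (a * b) ≠ 0 := mul_ne_zero hg (mul_ne_zero ha hb)
  have hfs : ∀ μ, coeff μ (Ψ φκ f) ^ p ^ s = coeff μ (Ψ φκ f) := by
    intro μ
    rw [coeff_Ψ, ← map_pow, ← hs, FiniteField.pow_card]
  -- nondegeneracy
  have hord' : ∀ w, w < g * (a * b) → Ord (Ψ φκ f) ![b, a] (g * (a * b)) w := by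
    intro w hw
    rcases Nat.eq_zero_or_pos w with rfl | hw0
    · refine ord_Ψ ha hb hg hwt φκ hM ?_
      have : IsEmpty (Lat a b 0) := by
        refine ⟨fun u => ?_⟩
        have h1 := u.2.1
        have h2 := u.1.1.2
        omega
      rw [Matrix.det_isEmpty]
      exact one_ne_zero
    · exact ord_Ψ ha hb hg hwt φκ hM (hord w hw0 hw)
  -- the slope one
  obtain ⟨g', rfl⟩ : ∃ g', g = g' + 1 := ⟨g - 1, by omega⟩
  obtain ⟨EM, hEM⟩ := exists_EM ha hb hab g'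
  have hdiv : (p - 1) * ((g' + 1) * (a * b)) / ((g' + 1) * (a * b)) = p - 1 :=
    Nat.mul_div_cancel _ (Nat.pos_of_ne_zero hM0)
  obtain ⟨κ₁, hκ0, hκn, hκM, hres⟩ := residues hWF hM (by simp) (by simp) hs0 hfs le_rfl
    hord' EM hζ P hP
  rw [hdiv] at hres
  obtain ⟨hκ1, hκ2⟩ := hκM rfl
  have hwil : (((p - 1).factorial : ℕ) : k p) = -1 := by
    have h3 := ZMod.wilsons_lemma p
    have h4 := congrArg (ZMod.castHom (dvd_refl p) (k p)) h3
    rw [map_natCast, map_neg, map_one] at h4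
    exact h4
  have hinv : (((p - 1).factorial : ℕ) : k p)⁻¹ = -1 := by
    rw [hwil, inv_neg, inv_one]
  rw [hinv] at hres
  have hκnorm : ‖κ₁‖ = ‖(p : PadicAlgCl p)‖ := by
    exact (pow_left_inj₀ (norm_nonneg _) (norm_nonneg _) hM0).1 hκn
  obtain ⟨Q, hQ⟩ : ∃ Q, Q = (FP (NM (Ψ φκ f) (p - 1) (fun i => (EM i).1)) s).charpolyRev :=
    ⟨_, rfl⟩
  rw [← hQ] at hres
  have hQ1 : Q * (1 - Polynomial.X) = ∏ i, (1 - Polynomial.X ^ (H i).natDegree) := by
    obtain ⟨Hz, hHz⟩ : ∃ Hz : ZMod s → Polynomial (k p), ∀ j,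
        Hz j = ((∏ i, H i).map φκ).map (Fr p j.val) := ⟨_, fun _ => rfl⟩
    have hHf : Hf a b (g' + 1) (Ψ φκ f) = (∏ i, H i).map φκ := by rw [Hf_Ψ, htop]
    have hdet := VR.det_roots φκ H hne hs hirr hmon hdeg hgp Hz hHz
    have h1 : (Matrix.of fun x y : ZMod s × Fin g' => (if x = y then (1 : Polynomial (k p)) else 0) -
        Polynomial.X * Polynomial.C (VD.TT p Hz g' x y)).det =
        DW (Ψ φκ f) s (p - 1) 1 (fun i => (EM i).1) := by
      rw [DW]
      congr 1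
      ext1 x y
      rw [Matrix.of_apply, Matrix.of_apply, VD.TT]
      congr 1
      by_cases h2 : y.1 = x.1 + 1
      · rw [if_pos h2, if_pos h2, one_mul, hEM, hEM,
          NN_M ha hb hab hWF hgp x.1.val (by have := x.2.2; omega) (by have := y.2.2; omega),
          hHf, hHz]
      · rw [if_neg h2, if_neg h2, map_zero, mul_zero]
    rw [h1, DW_eq, ← hQ, one_pow, Polynomial.C_1, one_mul, Polynomial.comp_X] at hdet
    refine Polynomial.expand_injective (Nat.pos_of_ne_zero hs0) ?_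
    rw [map_mul, map_sub, map_one, Polynomial.expand_X, hdet, map_prod]
    refine Finset.prod_congr rfl fun i _ => ?_
    rw [map_sub, map_one, map_pow, Polynomial.expand_X, ← pow_mul]
  have hPn : ∀ i, ((H i).natDegree : k p) ≠ 0 := by
    intro i h0
    have hdvd := (CharP.cast_eq_zero_iff (k p) p _).1 h0
    have h1 : (H i).natDegree ≤ (∏ i, H i).natDegree := by
      rw [Polynomial.natDegree_prod_of_monic _ _ fun i _ => hmon i]
      exact Finset.single_le_sum (f := fun i => (H i).natDegree) (fun _ _ => Nat.zero_le _)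
        (Finset.mem_univ i)
    have h2 := Nat.le_of_dvd (hirr i).natDegree_pos hdvd
    omega
  have hc0 : ((-1 : k p)) ^ s ≠ 0 := pow_ne_zero _ (neg_ne_zero.2 one_ne_zero)
  obtain ⟨Λ, hΛ⟩ : ∃ Λ, Λ = ((P.roots.map (fun ρ => ρ⁻¹ * (κ₁⁻¹) ^ s)).filter
      fun l => ‖l‖ = 1).map (red p) := ⟨_, rfl⟩
  rw [← hΛ] at hres
  have hcyc := fun {l : k p} (hl : l ≠ 0) =>
    count_cyc (fun i => (H i).natDegree) hPn hcop hQ1 hc0 Λ hres hl
  have hF : ∀ ρ : PadicAlgCl p, ‖ρ⁻¹‖ = ‖(p : PadicAlgCl p)‖ ^ s →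
      ‖ρ⁻¹ * (κ₁⁻¹) ^ s‖ = 1 := by
    intro ρ hρ
    rw [norm_mul, norm_pow, norm_inv κ₁, inv_pow, ← div_eq_mul_inv, hρ, hκnorm,
      div_self (pow_pos hpn0 s).ne']
  obtain ⟨ρ₁, hρ₁⟩ : ∃ ρ₁, ρ₁ = ((p : PadicAlgCl p) ^ s)⁻¹ := ⟨_, rfl⟩
  rw [← hρ₁]
  have hρ₁n : ‖ρ₁⁻¹‖ = ‖(p : PadicAlgCl p)‖ ^ s := by rw [hρ₁, inv_inv, norm_pow]
  have hρ₁r : red p (ρ₁⁻¹ * (κ₁⁻¹) ^ s) = (-1) ^ s := by
    have h1 : ρ₁⁻¹ * (κ₁⁻¹) ^ s * (κ₁ / (p : PadicAlgCl p)) ^ s = 1 := by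
      rw [hρ₁, inv_inv, div_pow, inv_pow]
      have := pow_ne_zero s hκ0
      have := pow_ne_zero s hpne
      field_simp
    have h2 := congrArg (red p) h1
    rw [red_mul (hF ρ₁ hρ₁n).le (by rw [norm_pow]; exact pow_le_one₀ (norm_nonneg _) hκ1),
      red_pow hκ1, hκ2] at h2
    have h3 : red p (1 : PadicAlgCl p) = 1 := by
      have := red_natCast (p := p) 1
      simpa using this
    rw [h3] at h2
    have h4 : ((-1 : k p) ^ s) * (-1) ^ s = 1 := by
      rw [← mul_pow, neg_one_mul, neg_neg, one_pow]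
    calc _ = red p (ρ₁⁻¹ * κ₁⁻¹ ^ s) * ((-1) ^ s * (-1) ^ s) := by rw [h4, mul_one]
      _ = _ := by rw [← mul_assoc, h2, one_mul]
  have hrm : ∀ ρ, P.rootMultiplicity ρ = P.roots.count ρ := fun ρ =>
    (Polynomial.count_roots P).symm
  have hle1 : P.rootMultiplicity ρ₁ ≤ e - 1 := by
    refine le_trans ?_ ((hcyc hc0).1 rfl)
    rw [hrm, hΛ]
    exact countP_residue P.roots _ (fun z => ρ₁ = z) _ (by
      rintro _ rfl
      exact ⟨hF ρ₁ hρ₁n, hρ₁r⟩)
  refine ⟨hle1, fun ρ hρn hρne => ?_⟩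
  by_cases hroot : ρ ∈ P.roots
  swap
  · left
    rw [hrm, Multiset.count_eq_zero_of_notMem hroot]
    exact Nat.zero_le _
  rcases hρn.lt_or_eq with hlt | heq
  · -- slopes below one
    left
    obtain ⟨w, hw0, hwM, hw⟩ := slope1 hWF hM (by simp) (by simp) hs0 hfs hord' hζ P hP hroot hlt
    obtain ⟨E, hE⟩ := exists_E (a := a) (b := b) ha hb w
    obtain ⟨κ₂, hκ20, hκ2n, -, hres2⟩ := residues hWF hM (by simp) (by simp) hs0 hfs hwM.le
      (fun w' hw' => hord' w' (hw'.trans hwM)) E hζ P hP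
    have hsep2 : (FP (NM (Ψ φκ f) ((p - 1) * w / ((g' + 1) * (a * b))) (fun i => (E i).1))
        s).charpolyRev.Separable := by
      rw [FP_map φκ _ _ (fun j => NM_Ψ ha hb hg hwt φκ hM hE rfl j), charpolyRev_map']
      exact (hsep w hw0 hwM).map
    have hn2 : ((((p - 1) * w / ((g' + 1) * (a * b))).factorial : ℕ) : k p) ≠ 0 :=
      hfact (n_lt hM0 hwM.le)
    have hF2 : ‖ρ⁻¹ * (κ₂⁻¹) ^ s‖ = 1 := by
      have h1 : ‖ρ⁻¹‖ = ‖κ₂‖ ^ s := by
        refine (pow_left_inj₀ (norm_nonneg _) (pow_nonneg (norm_nonneg _) _) hM0).1 ?_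
        rw [hw, mul_comm s w, pow_mul, ← hκ2n, ← pow_mul, ← pow_mul]
        congr 1
        ring
      rw [norm_mul, norm_pow, norm_inv κ₂, inv_pow, ← div_eq_mul_inv, h1,
        div_self (pow_pos (norm_pos_iff.2 hκ20) s).ne']
    have hl0 : red p (ρ⁻¹ * (κ₂⁻¹) ^ s) ≠ 0 := by
      rw [Ne, red_eq_zero hF2.le, hF2]
      exact lt_irrefl _
    have h5 := count_sep hsep2 (pow_ne_zero s (inv_ne_zero hn2)) _ hres2 hl0
    refine le_trans ?_ h5
    rw [hrm]
    exact countP_residue P.roots _ (fun z => ρ = z) _ (by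
      rintro _ rfl
      exact ⟨hF2, rfl⟩)
  · -- slope one
    have hF3 := hF ρ heq.symm
    have hl0 : red p (ρ⁻¹ * (κ₁⁻¹) ^ s) ≠ 0 := by
      rw [Ne, red_eq_zero hF3.le, hF3]
      exact lt_irrefl _
    by_cases hl : red p (ρ⁻¹ * (κ₁⁻¹) ^ s) = (-1) ^ s
    · right
      refine le_trans ?_ ((hcyc hc0).1 rfl)
      rw [hrm, hrm]
      refine (count_add P.roots hρne).trans ?_
      rw [hΛ]
      refine countP_residue P.roots _ _ _ ?_
      rintro z (rfl | rfl)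
      · exact ⟨hF3, hl⟩
      · exact ⟨hF _ hρ₁n, hρ₁r⟩
    · left
      refine le_trans ?_ ((hcyc hl0).2 hl)
      rw [hrm, hΛ]
      exact countP_residue P.roots _ (fun z => ρ = z) _ (by
        rintro _ rfl
        exact ⟨hF3, rfl⟩)

end OC

end Pool.Agent.N867.AS
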