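import Pool.Agent.N867.AS.Grid2

/-!
# The rank core for Artin–Schreier curves `y^p - y = ∏ F_i`
-/

set_option autoImplicit false
set_option linter.unusedSectionVars false

namespace Pool.Agent.N867.AS

namespace Core

open Polynomial WithZero Pool.Agent.N867.AS.Frame ASR Root

variable {κ : Type} [Field κ] {a b p : ℕ}

/-! ### auxiliary facts -/

theorem v_F (ha : a ≠ 0) {β : κ} {F : κ[X][X]} (hF : Wt a b β F) :
    v κ (ψ κ a b F) = exp ((a * b : ℕ) : ℤ) := by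
  refine le_antisymm (v_ψ_le ?_) ?_
  · intro i j h
    have := hF.wt i j h
    omega
  · have h1 : (F.coeff a).coeff 0 ≠ 0 := by
      have h2 := hF.monic.coeff_natDegree
      rw [hF.deg] at h2
      rw [h2, coeff_one_zero]
      exact one_ne_zero
    have h3 := le_v_ψ (b := b) ha F a 0 h1
    rwa [mul_zero, zero_add, mul_comm b a] at h3

theorem exists_xi (ha : a ≠ 0) {β : κ} {F : κ[X][X]} (hF : Wt a b β F) :
    ∃ ξ : (AlgebraicClosure (F₀ κ)), ev κ a b ξ F = 0 := by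
  have h1 : (F.map ((jj κ a b).comp C)).degree ≠ 0 := by
    have hinj : Function.Injective ((jj κ a b).comp C) := (jj_inj ha).comp C_injective
    rw [degree_map_eq_of_injective hinj]
    intro h
    have := natDegree_eq_of_degree_eq_some h
    rw [hF.deg] at this
    exact ha this
  obtain ⟨ξ, hξ⟩ := IsAlgClosed.exists_root _ h1
  refine ⟨ξ, ?_⟩
  rw [IsRoot, eval_map] at hξ
  exact hξ

theorem charP_Om [CharP κ p] : CharP (AlgebraicClosure (F₀ κ)) p := by
  have h1 : Function.Injective ((algebraMap (F₀ κ) (AlgebraicClosure (F₀ κ))).comp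
    ((algebraMap (RatFunc κ) (F₀ κ)).comp (algebraMap κ (RatFunc κ)))) := RingHom.injective _
  exact charP_of_injective_ringHom h1 p

theorem exists_rho (hp : p.Prime) [CharP κ p] {f : κ[X][X]} (ξ : (AlgebraicClosure (F₀ κ))) (hξ : ev κ a b ξ f = 0)
    (l : ℕ) : ∃ ρ : AS p f →+* (AlgebraicClosure (F₀ κ)), (∀ c, ρ (AdjoinRoot.of (Phi p f) c) = ev κ a b ξ c) ∧
      ρ (yy p f) = l ∧ (∀ x, ∃ c, ρ x = ev κ a b ξ c) ∧
      (∀ P : κ[X][X][X], ρ (AdjoinRoot.mk (Phi p f) P) = P.eval₂ (ev κ a b ξ) (l : (AlgebraicClosure (F₀ κ)))) := by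
  have hch : CharP (AlgebraicClosure (F₀ κ)) p := charP_Om
  have h0 : (Phi p f).eval₂ (ev κ a b ξ) (l : (AlgebraicClosure (F₀ κ))) = 0 := by
    unfold Phi
    rw [eval₂_sub, eval₂_sub, eval₂_X_pow, eval₂_X, eval₂_C, hξ, natCast_pow hp, sub_self,
      sub_zero]
  refine ⟨AdjoinRoot.lift (ev κ a b ξ) (l : (AlgebraicClosure (F₀ κ))) h0, fun c => AdjoinRoot.lift_of _,
    AdjoinRoot.lift_root _, fun x => ?_, fun P => AdjoinRoot.lift_mk _ _⟩
  obtain ⟨P, rfl⟩ := AdjoinRoot.mk_surjective x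
  refine ⟨P.eval (l : κ[X][X]), ?_⟩
  rw [AdjoinRoot.lift_mk, ← eval₂_at_natCast]

theorem rho_le (hp : p.Prime) {V : ValuationSubring (AlgebraicClosure (F₀ κ))} (hV : Ext (v κ) V) (ha : a ≠ 0)
    {f : κ[X][X]} {ξ y : (AlgebraicClosure (F₀ κ))} (hξ : V.valuation ξ = θ V ^ b) (hy : 1 ≤ V.valuation y) {l : ℕ}
    {Θ ρ : AS p f →+* (AlgebraicClosure (F₀ κ))}
    (hest : ∀ P : κ[X][X][X], P.natDegree < p → ∀ m,
        V.valuation (jj κ a b (P.coeff m)) * V.valuation y ^ m ≤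
          V.valuation (Θ (AdjoinRoot.mk (Phi p f) P)))
    (hρ : ∀ P : κ[X][X][X], ρ (AdjoinRoot.mk (Phi p f) P) = P.eval₂ (ev κ a b ξ) (l : (AlgebraicClosure (F₀ κ))))
    (x : AS p f) : V.valuation (ρ x) ≤ V.valuation (Θ x) := by
  obtain ⟨P, hP, rfl⟩ := exists_rep hp.one_lt x
  rw [hρ, eval₂_eq_sum_range' _ hP]
  refine Valuation.map_sum_le _ fun m _ => ?_
  rw [map_mul, map_pow]
  have h1 : V.valuation (l : (AlgebraicClosure (F₀ κ))) ≤ 1 := by
    rw [V.valuation_le_one_iff]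
    exact natCast_mem _ _
  calc V.valuation (ev κ a b ξ (P.coeff m)) * V.valuation (l : (AlgebraicClosure (F₀ κ))) ^ m ≤
      V.valuation (ev κ a b ξ (P.coeff m)) * 1 :=
        mul_le_mul_right (pow_le_one₀ zero_le h1) _
    _ ≤ V.valuation (jj κ a b (P.coeff m)) * 1 := mul_le_mul_left (ev_le ha hV hξ _) _
    _ ≤ V.valuation (jj κ a b (P.coeff m)) * V.valuation y ^ m :=
        mul_le_mul_right (one_le_pow₀ hy) _
    _ ≤ _ := hest P hP m

theorem prim_ne_zero {f : κ[X][X]} {x : AS p f} (hx : Prim x) : x ≠ 0 := by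
  rintro rfl
  exact hx X prime_X (dvd_zero _)

theorem exists_xy (hp : p.Prime) {f : κ[X][X]} (hf : f.Monic) (hfN : ¬ p ∣ f.natDegree)
    [IsDomain (AS p f)] [IsDomain (AS p (toK κ f))] {Z : AS p f} (hZ : Prim Z)
    {b c : AS p (toK κ f)} (hbc : b * c = jA p f Z) :
    ∃ s s' e : κ[X], s ≠ 0 ∧ s' ≠ 0 ∧ IsUnit e ∧ ∃ x y : AS p f,
      jA p f (cst p f s) * b = jA p f (cst p f s' * x) ∧ x * y = cst p f e * Z := by
  have hbc0 : b * c ≠ 0 := by
    rw [hbc, Ne, map_eq_zero_iff _ (jA_inj hp.one_lt)]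
    exact prim_ne_zero hZ
  obtain ⟨s, s', hs, hs', x, hx, hsx⟩ := exists_prim_den hp hf hfN b (left_ne_zero_of_mul hbc0)
  obtain ⟨t, t', ht, ht', y, hy, hty⟩ := exists_prim_den hp hf hfN c (right_ne_zero_of_mul hbc0)
  have h1 : cst p f (s * t) * Z = cst p f (s' * t') * (x * y) := by
    apply jA_inj hp.one_lt
    rw [map_mul, map_mul (cst p f), map_mul (jA p f), ← hbc]
    have h2 : jA p f (cst p f (s' * t') * (x * y)) =
        jA p f (cst p f s' * x) * jA p f (cst p f t' * y) := by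
      rw [← map_mul, map_mul (cst p f)]
      congr 1
      ring
    rw [h2, ← hsx, ← hty]
    ring
  obtain ⟨u, hu⟩ := assoc_of_prim hp hf hfN (mul_ne_zero hs ht) (mul_ne_zero hs' ht') hZ
    (hx.mul hp hf hfN hy) h1
  refine ⟨s, s', ((u⁻¹ : κ[X]ˣ) : κ[X]), hs, hs', Units.isUnit _, x, y, hsx, ?_⟩
  have h3 : Z = cst p f (u : κ[X]) * (x * y) := by
    refine mul_left_cancel₀ (cst_ne_zero (f := f) hp.one_lt (mul_ne_zero hs ht)) ?_
    rw [h1, ← hu, map_mul (cst p f) (s * t), mul_assoc]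
  rw [h3, ← mul_assoc, ← map_mul, Units.inv_mul, map_one, one_mul]

end Core

end Pool.Agent.N867.AS
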