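import Pool.Agent.N867.AS.Integral

/-!
# The truncated Artin–Hasse splitting function
-/

set_option autoImplicit false
set_option linter.unusedSectionVars false

open PowerSeries

namespace Pool.Agent.N867.AS

namespace Split

variable {𝕜 : Type*} [NormedField 𝕜] [IsUltrametricDist 𝕜]

/-- polynomial with integral coefficients -/
def IntPoly (F : Polynomial 𝕜) : Prop := ∀ k, ‖F.coeff k‖ ≤ 1

theorem IntPoly.mul {F G : Polynomial 𝕜} (hF : IntPoly F) (hG : IntPoly G) : IntPoly (F * G) := by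
  intro k
  rw [Polynomial.coeff_mul]
  refine IsUltrametricDist.norm_sum_le_of_forall_le_of_nonneg zero_le_one fun x _ => ?_
  rw [norm_mul]
  exact mul_le_one₀ (hF _) (norm_nonneg _) (hG _)

theorem IntPoly.one : IntPoly (1 : Polynomial 𝕜) := by
  intro k
  rw [Polynomial.coeff_one]
  split_ifs
  · simp
  · simp

theorem IntPoly.prod {ι : Type*} (S : Finset ι) {F : ι → Polynomial 𝕜}
    (h : ∀ i ∈ S, IntPoly (F i)) : IntPoly (∏ i ∈ S, F i) := by
  classical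
  induction S using Finset.induction_on with
  | empty => simpa using IntPoly.one
  | insert a S ha ih =>
    rw [Finset.prod_insert ha]
    exact (h a (Finset.mem_insert_self a S)).mul
      (ih fun i hi => h i (Finset.mem_insert_of_mem hi))

/-- agreement of power series up to order `N` -/
def Agree (N : ℕ) (A B : 𝕜⟦X⟧) : Prop := ∀ k < N, coeff k A = coeff k B

omit [IsUltrametricDist 𝕜] in
theorem Agree.mul {N : ℕ} {A B A' B' : 𝕜⟦X⟧} (h : Agree N A B) (h' : Agree N A' B') :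
    Agree N (A * A') (B * B') := by
  intro k hk
  rw [coeff_mul, coeff_mul]
  refine Finset.sum_congr rfl fun x hx => ?_
  have := Finset.HasAntidiagonal.mem_antidiagonal.1 hx
  rw [h _ (by omega), h' _ (by omega)]

omit [IsUltrametricDist 𝕜] in
theorem Agree.prod {ι : Type*} (S : Finset ι) {N : ℕ} {A B : ι → 𝕜⟦X⟧}
    (h : ∀ i ∈ S, Agree N (A i) (B i)) : Agree N (∏ i ∈ S, A i) (∏ i ∈ S, B i) := by
  classical
  induction S using Finset.induction_on with
  | empty => intro k _; rfl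
  | insert a S ha ih =>
    rw [Finset.prod_insert ha, Finset.prod_insert ha]
    exact (h a (Finset.mem_insert_self a S)).mul
      (ih fun i hi => h i (Finset.mem_insert_of_mem hi))

theorem eval_close {F : Polynomial 𝕜} {H : 𝕜⟦X⟧} (hF : IntPoly F) {N : ℕ}
    (hA : Agree N (F : 𝕜⟦X⟧) H) {γ : 𝕜} (hγ : ‖γ‖ ≤ 1) :
    ‖F.eval γ - ∑ k ∈ Finset.range N, coeff k H * γ ^ k‖ ≤ ‖γ‖ ^ N := by
  have h1 : F.eval γ = ∑ k ∈ Finset.range (F.natDegree + 1 + N), F.coeff k * γ ^ k := by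
    rw [Polynomial.eval_eq_sum_range' (by omega : F.natDegree < F.natDegree + 1 + N)]
  have h2 : ∑ k ∈ Finset.range N, coeff k H * γ ^ k =
      ∑ k ∈ Finset.range N, F.coeff k * γ ^ k := by
    refine Finset.sum_congr rfl fun k hk => ?_
    rw [← hA k (Finset.mem_range.1 hk), Polynomial.coeff_coe]
  rw [h1, h2, ← Finset.sum_Ico_eq_sub _ (by omega)]
  refine IsUltrametricDist.norm_sum_le_of_forall_le_of_nonneg (by positivity) fun k hk => ?_
  rw [norm_mul, norm_pow]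
  have hk' := (Finset.mem_Ico.1 hk).1
  calc ‖F.coeff k‖ * ‖γ‖ ^ k ≤ 1 * ‖γ‖ ^ k := by
        exact mul_le_mul_of_nonneg_right (hF k) (by positivity)
    _ = ‖γ‖ ^ k := one_mul _
    _ ≤ ‖γ‖ ^ N := pow_le_pow_of_le_one (norm_nonneg _) hγ hk'

variable [CharZero 𝕜]

theorem continuous_coeff_AH (p : ℕ) (n : ℕ) : Continuous fun w : 𝕜 => coeff n (AH p w) := by
  induction n using Nat.strong_induction_on with
  | _ n ih =>
    rcases n with _ | n
    · have h : (fun w : 𝕜 => coeff 0 (AH p w)) = fun _ => 1 := by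
        funext w
        exact coeff_AH_zero p w
      rw [h]
      exact continuous_const
    · have h3 : ((n + 1 : ℕ) : 𝕜) ≠ 0 := Nat.cast_ne_zero.2 (Nat.succ_ne_zero n)
      have h : (fun w : 𝕜 => coeff (n + 1) (AH p w)) = fun w =>
          (((n + 1 : ℕ) : 𝕜))⁻¹ * - ∑ j ∈ Finset.range (n + 1),
            (- w * chi p (j + 1)) * coeff (n + 1 - 1 - j) (AH p w) := by
        funext w
        rw [← (AH_spec p w).coeff_eq (n + 1), ← mul_assoc, inv_mul_cancel₀ h3, one_mul]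
      rw [h]
      refine continuous_const.mul (Continuous.neg (continuous_finsetSum _ fun j _ => ?_))
      exact ((continuous_id.neg).mul continuous_const).mul (ih _ (by omega))

/-- truncated splitting function -/
noncomputable def Theta (p N : ℕ) (γ : 𝕜) : Polynomial 𝕜 :=
  ∑ k ∈ Finset.range N, Polynomial.monomial k (coeff k (AH p (1 : 𝕜)) * γ ^ k)

theorem coeff_Theta (p N : ℕ) (γ : 𝕜) (k : ℕ) :
    (Theta p N γ).coeff k = if k < N then coeff k (AH p (1 : 𝕜)) * γ ^ k else 0 := by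
  rw [Theta, Polynomial.finsetSum_coeff]
  simp only [Polynomial.coeff_monomial]
  rw [Finset.sum_ite_eq' (Finset.range N) k]
  simp only [Finset.mem_range]

theorem eval_Theta (p N : ℕ) (γ z : 𝕜) :
    (Theta p N γ).eval z = (trunc N (PowerSeries.rescale z (AH p (1 : 𝕜)))).eval γ := by
  have h := eval₂_trunc_eq_sum_range γ (RingHom.id 𝕜) N (PowerSeries.rescale z (AH p (1 : 𝕜)))
  have h' : (trunc N (PowerSeries.rescale z (AH p (1 : 𝕜)))).eval γ = _ := h
  rw [h', Theta, Polynomial.eval_finsetSum]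
  refine Finset.sum_congr rfl fun k _ => ?_
  rw [Polynomial.eval_monomial, coeff_rescale, RingHom.id_apply]
  ring

theorem intPoly_trunc {p N : ℕ} (hE : ∀ k, ‖coeff k (AH p (1 : 𝕜))‖ ≤ 1) {z : 𝕜}
    (hz : ‖z‖ ≤ 1) : IntPoly (trunc N (PowerSeries.rescale z (AH p (1 : 𝕜)))) := by
  intro k
  rw [coeff_trunc]
  split_ifs
  · rw [coeff_rescale, norm_mul, norm_pow]
    exact mul_le_one₀ (pow_le_one₀ (norm_nonneg _) hz) (norm_nonneg _) (hE k)
  · simp

theorem agree_trunc (N : ℕ) (A : 𝕜⟦X⟧) : Agree N ((trunc N A : Polynomial 𝕜) : 𝕜⟦X⟧) A := by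
  intro k hk
  rw [Polynomial.coeff_coe, coeff_trunc, if_pos hk]

theorem split_close {p : ℕ} (hE : ∀ k, ‖coeff k (AH p (1 : 𝕜))‖ ≤ 1) {N : ℕ} {γ ζ : 𝕜}
    (hγ0 : γ ≠ 0) (hγ : ‖γ‖ ≤ 1) (hζ : (Theta p N γ).eval 1 = ζ) {z : 𝕜} {L : ℕ}
    (hz : z ^ p ^ L = z) (hz1 : ‖z‖ ≤ 1) :
    ∃ δ > 0, ∀ t : ℕ, ‖(∑ j ∈ Finset.range L, z ^ p ^ j) - t‖ < δ →
      ‖∏ j ∈ Finset.range L, (Theta p N γ).eval (z ^ p ^ j) - ζ ^ t‖ ≤ ‖γ‖ ^ N := by
  have hγp : 0 < ‖γ‖ ^ N := pow_pos (norm_pos_iff.2 hγ0) N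
  -- continuity
  have hcont : ∀ k ∈ Finset.range N, ∃ δ > 0, ∀ y : 𝕜,
      ‖(∑ j ∈ Finset.range L, z ^ p ^ j) - y‖ < δ →
      ‖coeff k (AH p (∑ j ∈ Finset.range L, z ^ p ^ j)) - coeff k (AH p y)‖ ≤ ‖γ‖ ^ N := by
    intro k _
    have h1 := (continuous_coeff_AH (𝕜 := 𝕜) p k).continuousAt
      (x := ∑ j ∈ Finset.range L, z ^ p ^ j)
    rw [Metric.continuousAt_iff] at h1
    obtain ⟨δ, hδ, h2⟩ := h1 _ hγp
    refine ⟨δ, hδ, fun y hy => ?_⟩
    have h3 := h2 (x := y) (by rw [dist_comm, dist_eq_norm]; exact hy)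
    rw [dist_comm, dist_eq_norm] at h3
    exact h3.le
  choose! δ hδ hδ2 using hcont
  obtain ⟨D, hD, hD2⟩ : ∃ D > 0, ∀ k ∈ Finset.range N, D ≤ δ k := by
    rcases (Finset.range N).eq_empty_or_nonempty with h | h
    · refine ⟨1, one_pos, fun k hk => ?_⟩
      rw [h] at hk
      simp at hk
    · obtain ⟨k0, hk0, h0⟩ := Finset.exists_min_image (Finset.range N) δ h
      exact ⟨δ k0, hδ k0 hk0, fun k hk => h0 k hk⟩
  refine ⟨D, hD, fun t ht => ?_⟩
  obtain ⟨w, hw⟩ : ∃ w, w = ∑ j ∈ Finset.range L, z ^ p ^ j := ⟨_, rfl⟩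
  rw [← hw] at ht hδ2
  -- first approximation
  have h1 : ‖∏ j ∈ Finset.range L, (Theta p N γ).eval (z ^ p ^ j) -
      ∑ k ∈ Finset.range N, coeff k (AH p w) * γ ^ k‖ ≤ ‖γ‖ ^ N := by
    have h2 : ∏ j ∈ Finset.range L, (Theta p N γ).eval (z ^ p ^ j) =
        (∏ j ∈ Finset.range L, trunc N (PowerSeries.rescale (z ^ p ^ j) (AH p (1 : 𝕜)))).eval γ := by
      rw [Polynomial.eval_prod]
      exact Finset.prod_congr rfl fun j _ => eval_Theta p N γ _
    rw [h2]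
    refine eval_close (IntPoly.prod _ fun j _ => intPoly_trunc hE ?_) ?_ hγ
    · rw [norm_pow]
      exact pow_le_one₀ (norm_nonneg _) hz1
    · rw [hw, ← AH_prod p z L hz, ← Polynomial.coeToPowerSeries.ringHom_apply, map_prod]
      refine Agree.prod _ fun j _ => ?_
      rw [Polynomial.coeToPowerSeries.ringHom_apply]
      exact agree_trunc N _
  have h2 : ‖ζ ^ t - ∑ k ∈ Finset.range N, coeff k (AH p (t : 𝕜)) * γ ^ k‖ ≤ ‖γ‖ ^ N := by
    have h3 : ζ ^ t = (∏ j ∈ Finset.range t,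
        trunc N (PowerSeries.rescale (1 : 𝕜) (AH p (1 : 𝕜)))).eval γ := by
      rw [Polynomial.eval_prod, ← hζ, eval_Theta, Finset.prod_const, Finset.card_range]
    rw [h3]
    refine eval_close (IntPoly.prod _ fun j _ => intPoly_trunc hE (by rw [norm_one])) ?_ hγ
    rw [AH_natCast, ← Polynomial.coeToPowerSeries.ringHom_apply, map_prod]
    have h4 : AH p (1 : 𝕜) ^ t = ∏ j ∈ Finset.range t, AH p (1 : 𝕜) := by
      rw [Finset.prod_const, Finset.card_range]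
    rw [h4]
    refine Agree.prod _ fun j _ => ?_
    rw [Polynomial.coeToPowerSeries.ringHom_apply]
    have h5 := agree_trunc N (PowerSeries.rescale (1 : 𝕜) (AH p (1 : 𝕜)))
    rw [PowerSeries.rescale_one] at h5 ⊢
    exact h5
  have h3 : ‖∑ k ∈ Finset.range N, coeff k (AH p w) * γ ^ k -
      ∑ k ∈ Finset.range N, coeff k (AH p (t : 𝕜)) * γ ^ k‖ ≤ ‖γ‖ ^ N := by
    rw [← Finset.sum_sub_distrib]
    refine IsUltrametricDist.norm_sum_le_of_forall_le_of_nonneg hγp.le fun k hk => ?_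
    rw [← sub_mul, norm_mul, norm_pow]
    calc _ ≤ ‖γ‖ ^ N * 1 := by
          refine mul_le_mul (hδ2 k hk t (lt_of_lt_of_le ht (hD2 k hk)))
            (pow_le_one₀ (norm_nonneg _) hγ) (by positivity) hγp.le
      _ = _ := mul_one _
  have h4 : ∏ j ∈ Finset.range L, (Theta p N γ).eval (z ^ p ^ j) - ζ ^ t =
      (∏ j ∈ Finset.range L, (Theta p N γ).eval (z ^ p ^ j) -
        ∑ k ∈ Finset.range N, coeff k (AH p w) * γ ^ k) +
      ((∑ k ∈ Finset.range N, coeff k (AH p w) * γ ^ k -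
        ∑ k ∈ Finset.range N, coeff k (AH p (t : 𝕜)) * γ ^ k) -
      (ζ ^ t - ∑ k ∈ Finset.range N, coeff k (AH p (t : 𝕜)) * γ ^ k)) := by ring
  rw [h4]
  refine (IsUltrametricDist.norm_add_le_max _ _).trans (max_le h1 ?_)
  rw [sub_eq_add_neg]
  refine (IsUltrametricDist.norm_add_le_max _ _).trans (max_le h3 ?_)
  rw [norm_neg]
  exact h2

/-- existence of `γ` -/
theorem exists_gamma [IsAlgClosed 𝕜] {p : ℕ} (hp : 1 < p)
    (hE : ∀ k, ‖coeff k (AH p (1 : 𝕜))‖ ≤ 1) {N : ℕ} (hN : 2 ≤ N) {ζ : 𝕜} (hζ1 : ζ ≠ 1)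
    (hζ : ‖ζ - 1‖ < 1) : ∃ γ : 𝕜, ‖γ‖ = ‖ζ - 1‖ ∧ (Theta p N γ).eval 1 = ζ := by
  obtain ⟨g, hg⟩ : ∃ g : Polynomial 𝕜, g = trunc N (AH p (1 : 𝕜)) - Polynomial.C ζ := ⟨_, rfl⟩
  have hr : 0 < ‖ζ - 1‖ := norm_pos_iff.2 (sub_ne_zero.2 hζ1)
  have hg0 : g.eval 0 = 1 - ζ := by
    rw [hg, Polynomial.eval_sub, Polynomial.eval_C, ← Polynomial.coeff_zero_eq_eval_zero,
      coeff_trunc, if_pos (by omega), coeff_AH_zero]
  have he1 : coeff 1 (AH p (1 : 𝕜)) = 1 := by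
    have := coeff_AH_small (K := 𝕜) p hp 1 hp
    simpa using this
  have hg1 : g.derivative.eval 0 = 1 := by
    rw [← Polynomial.coeff_zero_eq_eval_zero, Polynomial.coeff_derivative, hg,
      Polynomial.coeff_sub, coeff_trunc, if_pos (by omega), Polynomial.coeff_C_succ]
    simp [he1]
  have hg0' : g.eval 0 ≠ 0 := by
    rw [hg0]
    exact sub_ne_zero.2 hζ1.symm
  have h1 := (IsAlgClosed.splits g).eval_derivative_div_eval_of_ne_zero hg0'
  rw [hg1, hg0] at h1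
  obtain ⟨a, ha, ha2⟩ := IsUltrametricDist.exists_norm_multiset_sum_le g.roots
    (f := fun z => 1 / (0 - z))
  rw [← h1, norm_div, norm_one, norm_sub_rev] at ha2
  have hroots : g.roots ≠ 0 := by
    intro h
    rw [h] at h1
    simp only [Multiset.map_zero, Multiset.sum_zero, one_div, _root_.inv_eq_zero] at h1
    exact hζ1 (sub_eq_zero.1 h1).symm
  have haroot : g.eval a = 0 := (Polynomial.mem_roots'.1 (ha hroots)).2
  have ha0 : a ≠ 0 := by
    rintro rfl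
    exact hg0' haroot
  have hale : ‖a‖ ≤ ‖ζ - 1‖ := by
    rw [zero_sub, norm_div, norm_one, norm_neg] at ha2
    exact (one_div_le_one_div hr (norm_pos_iff.2 ha0)).1 ha2
  refine ⟨a, ?_, ?_⟩
  · -- norm exactly
    have h2 : g.eval a = (1 - ζ) + a + ∑ k ∈ Finset.Ico 2 N, coeff k (AH p (1 : 𝕜)) * a ^ k := by
      rw [hg, Polynomial.eval_sub, Polynomial.eval_C]
      have h := eval₂_trunc_eq_sum_range a (RingHom.id 𝕜) N (AH p (1 : 𝕜))
      rw [Polynomial.eval, h]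
      simp only [RingHom.id_apply]
      rw [Finset.range_eq_Ico, ← Finset.sum_Ico_consecutive _ (by omega : 0 ≤ 2) hN]
      simp [Finset.sum_range_succ, coeff_AH_zero, he1]
      ring
    rw [haroot] at h2
    have h3 : ‖a + ∑ k ∈ Finset.Ico 2 N, coeff k (AH p (1 : 𝕜)) * a ^ k‖ = ‖ζ - 1‖ := by
      congr 1
      linear_combination -h2
    have h4 : ‖∑ k ∈ Finset.Ico 2 N, coeff k (AH p (1 : 𝕜)) * a ^ k‖ ≤ ‖a‖ ^ 2 := by
      refine IsUltrametricDist.norm_sum_le_of_forall_le_of_nonneg (by positivity) fun k hk => ?_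
      rw [norm_mul, norm_pow]
      calc _ ≤ 1 * ‖a‖ ^ k := mul_le_mul_of_nonneg_right (hE k) (by positivity)
        _ = ‖a‖ ^ k := one_mul _
        _ ≤ _ := pow_le_pow_of_le_one (norm_nonneg _) (hale.trans hζ.le) (Finset.mem_Ico.1 hk).1
    have h5 : ‖∑ k ∈ Finset.Ico 2 N, coeff k (AH p (1 : 𝕜)) * a ^ k‖ < ‖a‖ := by
      refine lt_of_le_of_lt h4 ?_
      rw [pow_two]
      exact mul_lt_of_lt_one_left (norm_pos_iff.2 ha0) (lt_of_le_of_lt hale hζ)
    rw [← h3]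
    exact (IsUltrametricDist.norm_add_eq_max_of_norm_ne_norm h5.ne').trans
      (max_eq_left h5.le) |>.symm
  · rw [eval_Theta, PowerSeries.rescale_one]
    rw [hg, Polynomial.eval_sub, Polynomial.eval_C, sub_eq_zero] at haroot
    exact haroot

/-- norm of `ζ - 1` -/
theorem norm_zeta_sub_one {p : ℕ} [hp : Fact p.Prime] {ζ : 𝕜} (hζ : IsPrimitiveRoot ζ p) :
    ‖ζ - 1‖ ^ (p - 1) = ‖(p : 𝕜)‖ := by
  have hp1 : p - 1 + 1 = p := Nat.succ_pred_prime hp.1
  have h1 := IsPrimitiveRoot.prod_one_sub_pow_eq_order (n := p - 1) (μ := ζ) (by rwa [hp1])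
  have h2 := congrArg norm h1
  rw [norm_prod] at h2
  have hn1 : ‖ζ‖ = 1 := by
    have h3 : ‖ζ‖ ^ p = 1 := by rw [← norm_pow, hζ.pow_eq_one, norm_one]
    exact (pow_eq_one_iff_of_nonneg (norm_nonneg _) hp.1.ne_zero).1 h3
  have hle : ∀ (ξ : 𝕜) (k : ℕ), ‖ξ‖ = 1 → ‖1 - ξ ^ k‖ ≤ ‖1 - ξ‖ := by
    intro ξ k hξ
    rw [← mul_neg_geom_sum ξ k, norm_mul]
    refine mul_le_of_le_one_right (norm_nonneg _) ?_
    refine IsUltrametricDist.norm_sum_le_of_forall_le_of_nonneg zero_le_one fun i _ => ?_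
    rw [norm_pow, hξ, one_pow]
  have h3 : ∀ k ∈ Finset.range (p - 1), ‖1 - ζ ^ (k + 1)‖ = ‖ζ - 1‖ := by
    intro k hk
    rw [norm_sub_rev ζ 1]
    have hk' := Finset.mem_range.1 hk
    refine le_antisymm (hle ζ (k + 1) hn1) ?_
    have hcop : Nat.Coprime (k + 1) p :=
      (Nat.coprime_of_lt_prime (Nat.succ_ne_zero k) (by omega) hp.1).symm
    obtain ⟨m, -, hm⟩ := Nat.exists_mul_mod_eq_one_of_coprime hcop hp.1.one_lt
    have h4 : (ζ ^ (k + 1)) ^ m = ζ := by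
      rw [← pow_mul, ← Nat.div_add_mod ((k + 1) * m) p, hm, pow_add, pow_mul, hζ.pow_eq_one,
        one_pow, one_mul, pow_one]
    have h5 := hle (ζ ^ (k + 1)) m (by rw [norm_pow, hn1, one_pow])
    rwa [h4] at h5
  rw [Finset.prod_congr rfl h3, Finset.prod_const, Finset.card_range] at h2
  rw [h2]
  congr 1
  have : ((p - 1 : ℕ) : 𝕜) + 1 = ((p - 1 + 1 : ℕ) : 𝕜) := by push_cast; ring
  rw [this, hp1]

end Split

end Pool.Agent.N867.AS
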