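import Pool.Agent.N867.AS.Field

/-!
# Teichmüller lifts, character sums over `MU`, approximation of traces by integers
-/

set_option autoImplicit false
set_option linter.unusedSectionVars false

open Polynomial

namespace Pool.Agent.N867.AS

namespace Res

variable {p : ℕ} [hp : Fact p.Prime]

theorem one_lt_Q {L : ℕ} (hL : L ≠ 0) : 1 < p ^ L := Nat.one_lt_pow hL hp.1.one_lt

theorem exists_lift {L : ℕ} (hL : L ≠ 0) {x : k p} (hx : x ^ p ^ L = x) :
    ∃ z : PadicAlgCl p, z ^ p ^ L = z ∧ red p z = x := by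
  classical
  have hQ := one_lt_Q (p := p) hL
  have h1 : (MU p (p ^ L)).image (red p) ⊆ (X ^ (p ^ L) - X : (k p)[X]).roots.toFinset := by
    intro y hy
    rw [Finset.mem_image] at hy
    obtain ⟨z, hz, rfl⟩ := hy
    rw [mem_MU hQ] at hz
    rw [Multiset.mem_toFinset, mem_roots (FiniteField.X_pow_card_sub_X_ne_zero _ hQ)]
    simp only [IsRoot.def, eval_sub, eval_pow, eval_X, sub_eq_zero]
    rw [← red_pow (norm_le_one_of_pow hQ hz), hz]
  have h2 : ((MU p (p ^ L)).image (red p)).card = p ^ L := by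
    rw [Finset.card_image_of_injOn, card_MU hQ]
    intro z hz z' hz' h
    have hz1 := (mem_MU hQ).1 hz
    have hz1' := (mem_MU hQ).1 hz'
    exact eq_of_red hL hz1 hz1'
      ((red_eq (norm_le_one_of_pow hQ hz1) (norm_le_one_of_pow hQ hz1')).1 h)
  have h3 : ((X ^ (p ^ L) - X : (k p)[X]).roots.toFinset).card ≤ p ^ L := by
    refine (Multiset.toFinset_card_le _).trans ((Polynomial.card_roots' _).trans ?_)
    rw [FiniteField.X_pow_card_sub_X_natDegree_eq _ hQ]
  have h4 := Finset.eq_of_subset_of_card_le h1 (by rw [h2]; exact h3)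
  have h5 : x ∈ (X ^ (p ^ L) - X : (k p)[X]).roots.toFinset := by
    rw [Multiset.mem_toFinset, mem_roots (FiniteField.X_pow_card_sub_X_ne_zero _ hQ)]
    simp [hx]
  rw [← h4, Finset.mem_image] at h5
  obtain ⟨z, hz, hzx⟩ := h5
  exact ⟨z, (mem_MU hQ).1 hz, hzx⟩

/-- power sums over `MU` -/
theorem sum_MU {L : ℕ} (hL : L ≠ 0) (v : ℕ) :
    ∑ z ∈ MU p (p ^ L), z ^ v = if (p ^ L - 1) ∣ v then
      ((p ^ L : ℕ) : PadicAlgCl p) - (if 0 < v then 1 else 0) else 0 := by
  classical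
  have hQ := one_lt_Q (p := p) hL
  rcases Nat.eq_zero_or_pos v with rfl | hv
  · simp only [pow_zero, Finset.sum_const, card_MU hQ, dvd_zero, if_true, lt_irrefl, if_false,
      sub_zero, nsmul_eq_mul, mul_one]
  · rw [if_pos hv]
    by_cases hd : (p ^ L - 1) ∣ v
    · rw [if_pos hd]
      have h0 : (0 : PadicAlgCl p) ∈ MU p (p ^ L) := by
        rw [mem_MU hQ]
        exact zero_pow (by omega)
      rw [← Finset.add_sum_erase _ _ h0, zero_pow hv.ne', zero_add]
      have h1 : ∀ z ∈ (MU p (p ^ L)).erase 0, z ^ v = 1 := by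
        intro z hz
        rw [Finset.mem_erase, mem_MU hQ] at hz
        obtain ⟨c, rfl⟩ := hd
        have h2 : z ^ (p ^ L - 1) = 1 := by
          have h3 : z ^ (p ^ L - 1) * z = 1 * z := by
            rw [← pow_succ, Nat.sub_add_cancel hQ.le, hz.2, one_mul]
          exact mul_right_cancel₀ hz.1 h3
        rw [pow_mul, h2, one_pow]
      rw [Finset.sum_congr rfl h1, Finset.sum_const, Finset.card_erase_of_mem h0, card_MU hQ,
        nsmul_eq_mul, mul_one, Nat.cast_sub hQ.le, Nat.cast_one]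
    · rw [if_neg hd]
      -- find an element `a` with `a^(Q-1) = 1` and `a^v ≠ 1`
      have hpos : 0 < p ^ L - 1 := by omega
      have : NeZero (((p ^ L - 1 : ℕ)) : PadicAlgCl p) := ⟨Nat.cast_ne_zero.2 hpos.ne'⟩
      obtain ⟨a, ha⟩ := HasEnoughRootsOfUnity.exists_primitiveRoot (PadicAlgCl p) (p ^ L - 1)
      have hav : a ^ v ≠ 1 := fun h => hd (ha.dvd_of_pow_eq_one v h)
      have haQ : a ^ p ^ L = a := by
        have : p ^ L = (p ^ L - 1) + 1 := by omega
        rw [this, pow_succ, ha.pow_eq_one, one_mul]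
      have ha0 : a ≠ 0 := by
        rintro rfl
        have := ha.pow_eq_one
        rw [zero_pow hpos.ne'] at this
        exact zero_ne_one this
      have h1 : ∑ z ∈ MU p (p ^ L), z ^ v = ∑ z ∈ MU p (p ^ L), (a * z) ^ v := by
        refine (Finset.sum_bij (fun z _ => a * z) ?_ ?_ ?_ ?_).symm
        · intro z hz
          rw [mem_MU hQ] at hz ⊢
          rw [mul_pow, hz, haQ]
        · intro z _ z' _ h
          exact mul_left_cancel₀ ha0 h
        · intro z hz
          rw [mem_MU hQ] at hz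
          refine ⟨a⁻¹ * z, ?_, ?_⟩
          · rw [mem_MU hQ, mul_pow, hz, inv_pow, haQ]
          · rw [← mul_assoc, mul_inv_cancel₀ ha0, one_mul]
        · intro z _
          rfl
      simp only [mul_pow] at h1
      rw [← Finset.mul_sum] at h1
      have h2 : (a ^ v - 1) * ∑ z ∈ MU p (p ^ L), z ^ v = 0 := by
        rw [sub_mul, ← h1, one_mul, sub_self]
      exact (mul_eq_zero.1 h2).resolve_left (sub_ne_zero.2 hav)

theorem sum_shift {R : Type*} [CommRing R] {z : R} {L : ℕ} (hz : z ^ p ^ L = z) (i : ℕ) :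
    ∑ j ∈ Finset.range L, (z ^ p ^ i) ^ p ^ j = ∑ j ∈ Finset.range L, z ^ p ^ j := by
  induction i with
  | zero => simp
  | succ i ih =>
    rw [← ih]
    have h3 := Finset.sum_range_succ (fun j => (z ^ p ^ i) ^ p ^ j) L
    have h4 := Finset.sum_range_succ' (fun j => (z ^ p ^ i) ^ p ^ j) L
    have h5 : (z ^ p ^ i) ^ p ^ L = (z ^ p ^ i) ^ p ^ 0 := by
      rw [← pow_mul, mul_comm, pow_mul, hz, pow_zero, pow_one]
    rw [h3, h5] at h4
    have h6 := add_right_cancel h4
    rw [h6]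
    refine Finset.sum_congr rfl fun j _ => ?_
    rw [← pow_mul, ← pow_mul]
    congr 1
    ring

theorem exists_nat_of_pow {x : k p} (hx : x ^ p = x) : ∃ n : ℕ, (n : k p) = x := by
  classical
  have hQ := hp.1.one_lt
  have h1 : (Finset.range p).image (fun n : ℕ => (n : k p)) ⊆
      (X ^ p - X : (k p)[X]).roots.toFinset := by
    intro y hy
    rw [Finset.mem_image] at hy
    obtain ⟨n, _, rfl⟩ := hy
    rw [Multiset.mem_toFinset, mem_roots (FiniteField.X_pow_card_sub_X_ne_zero _ hQ)]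
    simp only [IsRoot.def, eval_sub, eval_pow, eval_X, sub_eq_zero]
    have := map_natCast (frobenius (k p) p) n
    rwa [frobenius_def] at this
  have h2 : ((Finset.range p).image (fun n : ℕ => (n : k p))).card = p := by
    rw [Finset.card_image_of_injOn, Finset.card_range]
    intro a ha b hb h
    have ha' := Finset.mem_range.1 ha
    have hb' := Finset.mem_range.1 hb
    have h3 := (CharP.natCast_eq_natCast (k p) p).1 h
    have h4 : a % p = b % p := h3
    rwa [Nat.mod_eq_of_lt ha', Nat.mod_eq_of_lt hb'] at h4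
  have h3 : ((X ^ p - X : (k p)[X]).roots.toFinset).card ≤ p := by
    refine (Multiset.toFinset_card_le _).trans ((Polynomial.card_roots' _).trans ?_)
    rw [FiniteField.X_pow_card_sub_X_natDegree_eq _ hQ]
  have h4 := Finset.eq_of_subset_of_card_le h1 (by rw [h2]; exact h3)
  have h5 : x ∈ (X ^ p - X : (k p)[X]).roots.toFinset := by
    rw [Multiset.mem_toFinset, mem_roots (FiniteField.X_pow_card_sub_X_ne_zero _ hQ)]
    simp [hx]
  rw [← h4, Finset.mem_image] at h5
  obtain ⟨n, _, hn⟩ := h5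
  exact ⟨n, hn⟩

/-- Galois conjugates of a Teichmüller element -/
theorem galois_conj {L : ℕ} (hL : L ≠ 0) {z : PadicAlgCl p} (hz : z ^ p ^ L = z)
    (σ : Gal(PadicAlgCl p/ℚ_[p])) : ∃ i, σ z = z ^ p ^ i := by
  classical
  have hQ := one_lt_Q (p := p) hL
  have hz1 := norm_le_one_of_pow hQ hz
  have hσn : ∀ x, ‖σ x‖ = ‖x‖ := fun x => (spectralNorm_eq_of_equiv σ x).symm
  have hσz : (σ z) ^ p ^ L = σ z := by rw [← map_pow, hz]
  obtain ⟨R, hR⟩ : ∃ R : (k p)[X], R = ∏ j ∈ Finset.range L, (X - C (red p z ^ p ^ j)) := ⟨_, rfl⟩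
  have hzb : red p z ^ p ^ L = red p z := by rw [← red_pow hz1, hz]
  -- `R` is fixed by Frobenius
  have hfix : R.map (frobenius (k p) p) = R := by
    rw [hR, Polynomial.map_prod]
    have h1 : ∏ j ∈ Finset.range L, (X - C (red p z ^ p ^ j)).map (frobenius (k p) p) =
        ∏ j ∈ Finset.range L, (X - C (red p z ^ p ^ (j + 1))) := by
      refine Finset.prod_congr rfl fun j _ => ?_
      rw [Polynomial.map_sub, Polynomial.map_X, Polynomial.map_C, frobenius_def, ← pow_mul,
        pow_succ]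
    rw [h1]
    have h3 := Finset.prod_range_succ (fun j => (X - C (red p z ^ p ^ j))) L
    have h4 := Finset.prod_range_succ' (fun j => (X - C (red p z ^ p ^ j))) L
    rw [h3, hzb, pow_zero, pow_one] at h4
    exact (mul_right_cancel₀ (X_sub_C_ne_zero _) h4).symm
  have hcoef : ∀ i, ∃ n : ℕ, (n : k p) = R.coeff i := by
    intro i
    refine exists_nat_of_pow ?_
    have := congrArg (fun P => P.coeff i) hfix
    simpa [frobenius_def] using this
  choose n hn using hcoef
  obtain ⟨R1, hR1⟩ : ∃ R1 : ℤ[X], R1 =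
    ∑ i ∈ Finset.range (R.natDegree + 1), monomial i (n i : ℤ) := ⟨_, rfl⟩
  have hev : ∀ y : PadicAlgCl p, ‖y‖ ≤ 1 → red p (aeval y R1) = R.eval (red p y) := by
    intro y hy
    rw [hR1, map_sum, red_sum, Polynomial.eval_eq_sum_range]
    · refine Finset.sum_congr rfl fun i _ => ?_
      rw [aeval_monomial, ← hn i]
      have h1 : ‖((n i : ℕ) : PadicAlgCl p)‖ ≤ 1 := IsUltrametricDist.norm_natCast_le_one _ _
      have h2 : (algebraMap ℤ (PadicAlgCl p)) (n i : ℤ) = ((n i : ℕ) : PadicAlgCl p) := by simp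
      rw [h2, red_mul h1 (by rw [norm_pow]; exact pow_le_one₀ (norm_nonneg _) hy), red_pow hy,
        red_natCast]
    · intro i _
      have h1 : ‖((n i : ℕ) : PadicAlgCl p)‖ ≤ 1 := IsUltrametricDist.norm_natCast_le_one _ _
      have h2 : (algebraMap ℤ (PadicAlgCl p)) (n i : ℤ) = ((n i : ℕ) : PadicAlgCl p) := by simp
      rw [aeval_monomial, h2, norm_mul, norm_pow]
      exact mul_le_one₀ h1 (by positivity) (pow_le_one₀ (norm_nonneg _) hy)
  have hle : ∀ y : PadicAlgCl p, ‖y‖ ≤ 1 → ‖aeval y R1‖ ≤ 1 := by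
    intro y hy
    rw [hR1, map_sum]
    refine IsUltrametricDist.norm_sum_le_of_forall_le_of_nonneg zero_le_one fun i _ => ?_
    have h1 : ‖((n i : ℕ) : PadicAlgCl p)‖ ≤ 1 := IsUltrametricDist.norm_natCast_le_one _ _
    have h2 : (algebraMap ℤ (PadicAlgCl p)) (n i : ℤ) = ((n i : ℕ) : PadicAlgCl p) := by simp
    rw [aeval_monomial, h2, norm_mul, norm_pow]
    exact mul_le_one₀ h1 (by positivity) (pow_le_one₀ (norm_nonneg _) hy)
  have h1 : R.eval (red p z) = 0 := by
    rw [hR, eval_prod]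
    refine Finset.prod_eq_zero (i := 0) (Finset.mem_range.2 (Nat.pos_of_ne_zero hL)) ?_
    simp
  have h2 : ‖aeval z R1‖ < 1 := by
    rw [← red_eq_zero (hle z hz1), hev z hz1, h1]
  have h3 : ‖aeval (σ z) R1‖ < 1 := by
    have h4 : aeval (σ z) R1 = σ (aeval z R1) := by
      rw [hR1, map_sum, map_sum, map_sum]
      refine Finset.sum_congr rfl fun i _ => ?_
      rw [aeval_monomial, aeval_monomial, map_mul, map_pow]
      simp
    rw [h4, hσn]
    exact h2
  have hσz1 : ‖σ z‖ ≤ 1 := by rw [hσn]; exact hz1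
  have h4 : R.eval (red p (σ z)) = 0 := by
    rw [← hev _ hσz1, red_eq_zero (hle _ hσz1)]
    exact h3
  rw [hR, eval_prod, Finset.prod_eq_zero_iff] at h4
  obtain ⟨j, _, hj⟩ := h4
  refine ⟨j, ?_⟩
  rw [eval_sub, eval_X, eval_C, sub_eq_zero, ← red_pow hz1] at hj
  have hzj1 : ‖z ^ p ^ j‖ ≤ 1 := by
    rw [norm_pow]
    exact pow_le_one₀ (norm_nonneg _) hz1
  refine eq_of_red hL hσz ?_ ((red_eq hσz1 hzj1).1 hj)
  rw [← pow_mul, mul_comm, pow_mul, hz]

theorem trace_approx {L : ℕ} (hL : L ≠ 0) {z : PadicAlgCl p} (hz : z ^ p ^ L = z) {δ : ℝ}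
    (hδ : 0 < δ) : ∃ t : ℕ, ‖(∑ j ∈ Finset.range L, z ^ p ^ j) - t‖ < δ := by
  have hQ := one_lt_Q (p := p) hL
  have hz1 := norm_le_one_of_pow hQ hz
  obtain ⟨w, hw⟩ : ∃ w, w = ∑ j ∈ Finset.range L, z ^ p ^ j := ⟨_, rfl⟩
  rw [← hw]
  have hfix : ∀ σ : Gal(PadicAlgCl p/ℚ_[p]), σ w = w := by
    intro σ
    obtain ⟨i, hi⟩ := galois_conj hL hz σ
    rw [hw, map_sum, ← sum_shift hz i, ← hi]
    refine Finset.sum_congr rfl fun j _ => ?_
    rw [map_pow]
  have : IsGalois ℚ_[p] (PadicAlgCl p) := inferInstance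
  obtain ⟨x, hx⟩ := IntermediateField.mem_bot.1 ((InfiniteGalois.mem_bot_iff_fixed w).2 hfix)
  have hw1 : ‖w‖ ≤ 1 := by
    rw [hw]
    refine IsUltrametricDist.norm_sum_le_of_forall_le_of_nonneg zero_le_one fun i _ => ?_
    rw [norm_pow]
    exact pow_le_one₀ (norm_nonneg _) hz1
  have hx1 : ‖x‖ ≤ 1 := by
    rw [← PadicAlgCl.norm_extends, hx]
    exact hw1
  obtain ⟨y, hy⟩ : ∃ y : ℤ_[p], (y : ℚ_[p]) = x := ⟨⟨x, hx1⟩, rfl⟩
  obtain ⟨t, ht⟩ := (PadicInt.denseRange_natCast (p := p)).exists_dist_lt y hδ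
  refine ⟨t, ?_⟩
  rw [dist_eq_norm, PadicInt.norm_def] at ht
  push_cast at ht
  rw [hy] at ht
  have h1 : w - t = ((x - t : ℚ_[p]) : PadicAlgCl p) := by
    rw [map_sub, map_natCast, hx]
  rw [h1, PadicAlgCl.norm_extends]
  exact ht

end Res

end Pool.Agent.N867.AS
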