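import Pool.Agent.N867.AS.Count

/-!
# The (finite) Dwork trace formula
-/

set_option autoImplicit false
set_option linter.unusedSectionVars false

namespace Pool.Agent.N867.AS

namespace Tr

open MvPolynomial

variable {σ : Type} [Fintype σ] [DecidableEq σ] {R : Type*} [CommRing R] {Γ : Type} [Fintype Γ]
  [DecidableEq Γ]

/-- the exponent of a box index -/
noncomputable def toF {B : ℕ} (u : σ → Fin (B + 1)) : σ →₀ ℕ :=
  Finsupp.equivFunOnFinite.symm fun i => (u i : ℕ)

@[simp] theorem toF_apply {B : ℕ} (u : σ → Fin (B + 1)) (i : σ) : toF u i = (u i : ℕ) := rfl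

theorem toF_inj {B : ℕ} {u v : σ → Fin (B + 1)} (h : toF u = toF v) : u = v := by
  funext i
  have := DFunLike.congr_fun h i
  simp only [toF_apply] at this
  exact Fin.ext this

theorem exists_toF {B : ℕ} {v : σ →₀ ℕ} (h : ∀ i, v i ≤ B) : ∃ u : σ → Fin (B + 1), toF u = v := by
  refine ⟨fun i => ⟨v i, Nat.lt_succ_of_le (h i)⟩, ?_⟩
  ext i
  simp

/-- indices -/
abbrev Idx (T : Finset σ) (B : ℕ) : Type := {u : σ → Fin (B + 1) // ∀ i ∈ T, (u i : ℕ) ≠ 0}

/-- the Dwork matrix -/
noncomputable def Cmat (p : ℕ) (G : Γ → MvPolynomial σ R) (ρ : Γ → Γ) (T : Finset σ) (B : ℕ) :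
    Matrix (Γ × Idx T B) (Γ × Idx T B) R := by
  classical
  exact fun x y => if y.1 = ρ x.1 then
    (if toF x.2.1 ≤ p • toF y.2.1 then coeff (p • toF y.2.1 - toF x.2.1) (G x.1) else 0) else 0

/-- iterated products -/
noncomputable def Pi (p : ℕ) (G : Γ → MvPolynomial σ R) (ρ : Γ → Γ) :
    ℕ → Γ → MvPolynomial σ R
  | 0, _ => 1
  | L + 1, g => G g * expand p (Pi p G ρ L (ρ g))

theorem pow_entry {p : ℕ} (hp : 2 ≤ p) (G : Γ → MvPolynomial σ R) (ρ : Γ → Γ) (T : Finset σ)
    {B : ℕ} (hG : ∀ g, ∀ v ∈ (G g).support, ∀ i, v i ≤ B) (L : ℕ) (x y : Γ × Idx T B) :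
    (Cmat p G ρ T B ^ L) x y = if y.1 = ρ^[L] x.1 then
      (if toF x.2.1 ≤ p ^ L • toF y.2.1 then
        coeff (p ^ L • toF y.2.1 - toF x.2.1) (Pi p G ρ L x.1) else 0) else 0 := by
  classical
  induction L generalizing x with
  | zero =>
    simp only [pow_zero, Function.iterate_zero, id_eq, one_smul, Pi, Matrix.one_apply]
    by_cases h1 : y.1 = x.1
    · rw [if_pos h1]
      by_cases h2 : x.2 = y.2
      · rw [if_pos (Prod.ext h1.symm h2), h2]
        simp
      · rw [if_neg (fun h => h2 (congrArg Prod.snd h))]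
        split_ifs with h3
        · rw [coeff_one, if_neg]
          intro h4
          refine h2 (Subtype.ext (toF_inj ?_))
          exact le_antisymm h3 (tsub_eq_zero_iff_le.1 h4.symm)
        · rfl
    · rw [if_neg h1, if_neg (fun h => h1 (congrArg Prod.fst h).symm)]
  | succ L ih =>
    rw [pow_succ', Matrix.mul_apply]
    simp only [ih]
    rw [Fintype.sum_prod_type, Finset.sum_eq_single (ρ x.1)]
    swap
    · intro g _ hg
      refine Finset.sum_eq_zero fun u _ => ?_
      unfold Cmat
      rw [if_neg hg, zero_mul]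
    swap
    · intro h
      exact absurd (Finset.mem_univ _) h
    rw [Function.iterate_succ_apply]
    by_cases h1 : y.1 = ρ^[L] (ρ x.1)
    swap
    · rw [if_neg h1]
      refine Finset.sum_eq_zero fun u _ => ?_
      rw [if_neg h1, mul_zero]
    rw [if_pos h1]
    simp only [if_pos h1]
    by_cases h2 : toF x.2.1 ≤ p ^ (L + 1) • toF y.2.1
    swap
    · rw [if_neg h2]
      refine Finset.sum_eq_zero fun u _ => ?_
      unfold Cmat
      simp only [if_true]
      by_cases h3 : toF x.2.1 ≤ p • toF u.1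
      · by_cases h4 : toF u.1 ≤ p ^ L • toF y.2.1
        · exfalso
          apply h2
          intro i
          have h3' := h3 i
          have h4' := h4 i
          simp only [Finsupp.smul_apply, toF_apply, smul_eq_mul] at h3' h4' ⊢
          calc _ ≤ p * (u.1 i : ℕ) := h3'
            _ ≤ p * (p ^ L * (y.2.1 i : ℕ)) := Nat.mul_le_mul_left _ h4'
            _ = _ := by ring
        · rw [if_neg h4, mul_zero]
      · rw [if_neg h3, zero_mul]
    rw [if_pos h2]
    simp only [Pi]
    rw [coeff_mul]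
    refine Finset.sum_bij_ne_zero
      (fun u _ _ => (p • toF u.1 - toF x.2.1, p • (p ^ L • toF y.2.1 - toF u.1))) ?_ ?_ ?_ ?_
    · -- membership
      intro u _ hne
      have h3 : toF x.2.1 ≤ p • toF u.1 := by
        by_contra h3
        apply hne
        unfold Cmat
        simp only [if_true]
        rw [if_neg h3, zero_mul]
      have h4 : toF u.1 ≤ p ^ L • toF y.2.1 := by
        by_contra h4
        apply hne
        rw [if_neg h4, mul_zero]
      rw [Finset.HasAntidiagonal.mem_antidiagonal]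
      ext i
      have h3' := h3 i
      have h4' := h4 i
      simp only [Finsupp.smul_apply, toF_apply, smul_eq_mul, Finsupp.add_apply,
        Finsupp.tsub_apply] at h3' h4' ⊢
      rw [Nat.mul_sub]
      have h5 : p * (u.1 i : ℕ) ≤ p * (p ^ L * (y.2.1 i : ℕ)) := Nat.mul_le_mul_left _ h4'
      have h6 : p * (p ^ L * (y.2.1 i : ℕ)) = p ^ (L + 1) * (y.2.1 i : ℕ) := by ring
      omega
    · -- injectivity
      intro u _ hne u' _ hne' h
      have h3 : ∀ w : Idx T B, Cmat p G ρ T B x (ρ x.1, w) *
          (if toF w.1 ≤ p ^ L • toF y.2.1 then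
            coeff (p ^ L • toF y.2.1 - toF w.1) (Pi p G ρ L (ρ x.1)) else 0) ≠ 0 →
          toF x.2.1 ≤ p • toF w.1 := by
        intro w hw
        by_contra h3
        apply hw
        unfold Cmat
        simp only [if_true]
        rw [if_neg h3, zero_mul]
      have h4 := h3 u hne
      have h5 := h3 u' hne'
      have h6 := congrArg Prod.fst h
      simp only at h6
      refine Subtype.ext (toF_inj ?_)
      ext i
      have h4' := h4 i
      have h5' := h5 i
      have h6' := DFunLike.congr_fun h6 i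
      simp only [Finsupp.smul_apply, toF_apply, smul_eq_mul, Finsupp.tsub_apply] at h4' h5' h6' ⊢
      have h7 : p * (u.1 i : ℕ) = p * (u'.1 i : ℕ) := by omega
      exact Nat.eq_of_mul_eq_mul_left (by omega) h7
    · -- surjectivity
      intro vw hvw hne
      rw [Finset.HasAntidiagonal.mem_antidiagonal] at hvw
      obtain ⟨v, w⟩ := vw
      simp only at hvw hne
      have hvne : coeff v (G x.1) ≠ 0 := fun h => hne (by rw [h, zero_mul])
      have hwne : coeff w (expand p (Pi p G ρ L (ρ x.1))) ≠ 0 := fun h => hne (by rw [h, mul_zero])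
      have hdvd : ∀ i, p ∣ w i := by
        intro i
        by_contra hi
        exact hwne (coeff_expand_of_not_dvd _ hi)
      have hw' : ∃ w' : σ →₀ ℕ, w = p • w' := by
        refine ⟨Finsupp.equivFunOnFinite.symm fun i => w i / p, ?_⟩
        ext i
        simp only [Finsupp.smul_apply, smul_eq_mul, Finsupp.equivFunOnFinite_symm_apply_apply]
        exact (Nat.mul_div_cancel' (hdvd i)).symm
      obtain ⟨w', rfl⟩ := hw'
      have hvB : ∀ i, v i ≤ B := hG x.1 v (mem_support_iff.2 hvne)
      have hi : ∀ i, v i + p * w' i + (x.2.1 i : ℕ) = p * (p ^ L * (y.2.1 i : ℕ)) := by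
        intro i
        have h3 := DFunLike.congr_fun hvw i
        have h4 := h2 i
        simp only [Finsupp.smul_apply, toF_apply, smul_eq_mul, Finsupp.add_apply,
          Finsupp.tsub_apply] at h3 h4
        have h6 : p * (p ^ L * (y.2.1 i : ℕ)) = p ^ (L + 1) * (y.2.1 i : ℕ) := by ring
        omega
      have hle : ∀ i, w' i ≤ p ^ L * (y.2.1 i : ℕ) := by
        intro i
        have := hi i
        have h5 : p * w' i ≤ p * (p ^ L * (y.2.1 i : ℕ)) := by omega
        exact Nat.le_of_mul_le_mul_left h5 (by omega)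
      have hpu : ∀ i, p * (p ^ L * (y.2.1 i : ℕ) - w' i) = v i + (x.2.1 i : ℕ) := by
        intro i
        rw [Nat.mul_sub]
        have := hi i
        omega
      have huB : ∀ i, p ^ L * (y.2.1 i : ℕ) - w' i ≤ B := by
        intro i
        have h5 := hpu i
        have h6 := hvB i
        have h7 : (x.2.1 i : ℕ) ≤ B := Nat.lt_succ_iff.1 (x.2.1 i).2
        by_contra hcon
        push Not at hcon
        have h8 : 2 * (B + 1) ≤ p * (p ^ L * (y.2.1 i : ℕ) - w' i) :=
          Nat.mul_le_mul hp hcon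
        omega
      have hT : ∀ i ∈ T, ((⟨p ^ L * (y.2.1 i : ℕ) - w' i, Nat.lt_succ_of_le (huB i)⟩ :
          Fin (B + 1)) : ℕ) ≠ 0 := by
        intro i hiT h0
        have h5 := hpu i
        have h6 := x.2.2 i hiT
        simp only at h0
        rw [h0, mul_zero] at h5
        omega
      obtain ⟨u, hu⟩ : ∃ u : Idx T B, ∀ i, (u.1 i : ℕ) = p ^ L * (y.2.1 i : ℕ) - w' i :=
        ⟨⟨fun i => ⟨p ^ L * (y.2.1 i : ℕ) - w' i, Nat.lt_succ_of_le (huB i)⟩, hT⟩, fun i => rfl⟩
      have hu1 : toF x.2.1 ≤ p • toF u.1 := by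
        intro i
        simp only [Finsupp.smul_apply, toF_apply, smul_eq_mul]
        rw [hu, hpu]
        omega
      have hu2 : toF u.1 ≤ p ^ L • toF y.2.1 := by
        intro i
        simp only [Finsupp.smul_apply, toF_apply, smul_eq_mul]
        rw [hu]
        omega
      have hu3 : p • toF u.1 - toF x.2.1 = v := by
        ext i
        simp only [Finsupp.smul_apply, toF_apply, smul_eq_mul, Finsupp.tsub_apply]
        rw [hu, hpu]
        omega
      have hu4 : p ^ L • toF y.2.1 - toF u.1 = w' := by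
        ext i
        simp only [Finsupp.smul_apply, toF_apply, smul_eq_mul, Finsupp.tsub_apply]
        rw [hu]
        have := hle i
        omega
      refine ⟨u, Finset.mem_univ _, ?_, ?_⟩
      · unfold Cmat
        simp only [if_true]
        rw [if_pos hu1, if_pos hu2, hu3, hu4]
        have h9 : coeff (p • w') (expand p (Pi p G ρ L (ρ x.1))) =
            coeff w' (Pi p G ρ L (ρ x.1)) := coeff_expand_smul p (by omega) _ w'
        rw [h9] at hne
        exact hne
      · rw [hu3, hu4]
    · intro u _ hne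
      have h3 : toF x.2.1 ≤ p • toF u.1 := by
        by_contra h3
        apply hne
        unfold Cmat
        simp only [if_true]
        rw [if_neg h3, zero_mul]
      have h4 : toF u.1 ≤ p ^ L • toF y.2.1 := by
        by_contra h4
        apply hne
        rw [if_neg h4, mul_zero]
      have h9 : coeff (p • (p ^ L • toF y.2.1 - toF u.1)) (expand p (Pi p G ρ L (ρ x.1))) =
          coeff (p ^ L • toF y.2.1 - toF u.1) (Pi p G ρ L (ρ x.1)) :=
        coeff_expand_smul p (by omega) _ _
      rw [h9, if_pos h4]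
      unfold Cmat
      simp only [if_true]
      rw [if_pos h3]

theorem Pi_support {p : ℕ} (hp : 2 ≤ p) (G : Γ → MvPolynomial σ R) (ρ : Γ → Γ)
    {B : ℕ} (hG : ∀ g, ∀ v ∈ (G g).support, ∀ i, v i ≤ B) (L : ℕ) (g : Γ) :
    ∀ v ∈ (Pi p G ρ L g).support, ∀ i, v i + B ≤ B * p ^ L := by
  classical
  induction L generalizing g with
  | zero =>
    intro v hv i
    have h1 : v = 0 := by
      by_contra h
      rw [mem_support_iff, Pi, coeff_one, if_neg (Ne.symm h)] at hv
      exact hv rfl
    rw [h1]
    simp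
  | succ L ih =>
    intro v hv i
    rw [Pi] at hv
    have h1 := support_mul _ _ hv
    rw [Finset.mem_add] at h1
    obtain ⟨a, ha, b, hb, hab⟩ := h1
    have hbe := support_expand_subset _ hb
    rw [Finset.mem_image] at hbe
    obtain ⟨b', hb', rfl⟩ := hbe
    have h2 := hG g a ha i
    have h3 := ih (ρ g) b' hb' i
    rw [← hab]
    simp only [Finsupp.add_apply, Finsupp.smul_apply, smul_eq_mul]
    have h4 : p * (b' i + B) ≤ p * (B * p ^ L) := Nat.mul_le_mul_left p h3
    have h5 : p * (B * p ^ L) = B * p ^ (L + 1) := by ring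
    have h6 : p * (b' i + B) = p * b' i + p * B := by ring
    have h7 : 2 * B ≤ p * B := Nat.mul_le_mul_right B hp
    omega

theorem trace_pow_eq {p : ℕ} (hp : 2 ≤ p) (G : Γ → MvPolynomial σ R) (ρ : Γ → Γ) (T : Finset σ)
    {B : ℕ} (hG : ∀ g, ∀ v ∈ (G g).support, ∀ i, v i ≤ B) (L : ℕ) :
    (Cmat p G ρ T B ^ L).trace = ∑ g ∈ Finset.univ.filter (fun g => ρ^[L] g = g),
      ∑ u : Idx T B, coeff ((p ^ L - 1) • toF u.1) (Pi p G ρ L g) := by
  classical
  rw [Matrix.trace]
  simp only [Matrix.diag_apply, pow_entry hp G ρ T hG L]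
  rw [Fintype.sum_prod_type, Finset.sum_filter]
  refine Finset.sum_congr rfl fun g _ => ?_
  simp only
  by_cases h : ρ^[L] g = g
  · rw [if_pos h]
    refine Finset.sum_congr rfl fun u _ => ?_
    rw [if_pos h.symm]
    have hpos : 0 < p ^ L := pow_pos (by omega) L
    rw [if_pos]
    · congr 1
      ext i
      simp only [Finsupp.smul_apply, toF_apply, smul_eq_mul, Finsupp.tsub_apply]
      rw [Nat.sub_mul, one_mul]
    · intro i
      simp only [Finsupp.smul_apply, toF_apply, smul_eq_mul]
      exact Nat.le_mul_of_pos_left _ hpos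
  · rw [if_neg h]
    refine Finset.sum_eq_zero fun u _ => ?_
    rw [if_neg (fun h' => h h'.symm)]

section sums

variable {p : ℕ} [hp : Fact p.Prime]

open Res

/-- sum of a polynomial over all Teichmüller points -/
theorem sum_eval {L : ℕ} (hL : L ≠ 0) {B : ℕ} (F : MvPolynomial σ (PadicAlgCl p))
    (hF : ∀ v ∈ F.support, ∀ i, v i ≤ B * (p ^ L - 1)) :
    ∑ x ∈ Fintype.piFinset (fun _ : σ => MU p (p ^ L)), eval x F =
      ∑ T : Finset σ, (-1) ^ T.card * ((p ^ L : ℕ) : PadicAlgCl p) ^ (Fintype.card σ - T.card) *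
        ∑ u : Idx T B, coeff ((p ^ L - 1) • toF u.1) F := by
  classical
  have hQ := one_lt_Q (p := p) hL
  obtain ⟨Q, hQdef⟩ : ∃ Q, Q = p ^ L := ⟨_, rfl⟩
  -- Step 1
  have h1 : ∑ x ∈ Fintype.piFinset (fun _ : σ => MU p (p ^ L)), eval x F =
      ∑ v ∈ F.support, coeff v F * ∏ i, (if (p ^ L - 1) ∣ v i then
        ((p ^ L : ℕ) : PadicAlgCl p) - (if 0 < v i then 1 else 0) else 0) := by
    simp only [eval_eq']
    rw [Finset.sum_comm]
    refine Finset.sum_congr rfl fun v _ => ?_
    rw [← Finset.mul_sum]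
    congr 1
    rw [← Finset.prod_univ_sum (fun _ : σ => MU p (p ^ L)) (fun i z => z ^ v i)]
    exact Finset.prod_congr rfl fun i _ => sum_MU hL (v i)
  -- Step 2: only multiples of `Q - 1`
  have h2 : ∑ v ∈ F.support, coeff v F * ∏ i, (if (p ^ L - 1) ∣ v i then
        ((p ^ L : ℕ) : PadicAlgCl p) - (if 0 < v i then 1 else 0) else 0) =
      ∑ u : σ → Fin (B + 1), coeff ((p ^ L - 1) • toF u) F *
        ∏ i, (((p ^ L : ℕ) : PadicAlgCl p) - (if 0 < (u i : ℕ) then 1 else 0)) := by
    symm
    refine Finset.sum_bij_ne_zero (fun u _ _ => (p ^ L - 1) • toF u) ?_ ?_ ?_ ?_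
    · intro u _ hne
      rw [mem_support_iff]
      intro h
      rw [h, zero_mul] at hne
      exact hne rfl
    · intro u _ _ u' _ _ h
      refine toF_inj ?_
      ext i
      have := DFunLike.congr_fun h i
      simp only [Finsupp.smul_apply, toF_apply, smul_eq_mul] at this ⊢
      exact Nat.eq_of_mul_eq_mul_left (by omega) this
    · intro v hv hne
      have hd : ∀ i, (p ^ L - 1) ∣ v i := by
        intro i
        by_contra hi
        apply hne
        rw [Finset.prod_eq_zero (Finset.mem_univ i) (if_neg hi), mul_zero]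
      have hB : ∀ i, v i / (p ^ L - 1) ≤ B := by
        intro i
        rw [Nat.div_le_iff_le_mul_add_pred (by omega)]
        have := hF v hv i
        rw [mul_comm] at this
        omega
      refine ⟨fun i => ⟨v i / (p ^ L - 1), Nat.lt_succ_of_le (hB i)⟩, Finset.mem_univ _, ?_, ?_⟩
      · have h3 : (p ^ L - 1) • toF (fun i => (⟨v i / (p ^ L - 1), Nat.lt_succ_of_le (hB i)⟩ :
            Fin (B + 1))) = v := by
          ext i
          simp only [Finsupp.smul_apply, toF_apply, smul_eq_mul]
          exact Nat.mul_div_cancel' (hd i)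
        rw [h3]
        intro h4
        apply hne
        refine Eq.trans ?_ h4
        congr 1
        refine Finset.prod_congr rfl fun i _ => ?_
        rw [if_pos (hd i)]
        congr 1
        have h5 : (0 < v i) ↔ (0 < v i / (p ^ L - 1)) := by
          constructor
          · intro h
            exact Nat.div_pos (Nat.le_of_dvd h (hd i)) (by omega)
          · intro h
            by_contra h0
            push Not at h0
            rw [Nat.le_zero.1 h0, Nat.zero_div] at h
            exact lt_irrefl _ h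
        by_cases h6 : 0 < v i
        · rw [if_pos h6, if_pos (h5.1 h6)]
        · rw [if_neg h6, if_neg (fun h => h6 (h5.2 h))]
      · ext i
        simp only [Finsupp.smul_apply, toF_apply, smul_eq_mul]
        exact Nat.mul_div_cancel' (hd i)
    · intro u _ _
      congr 1
      refine Finset.prod_congr rfl fun i _ => ?_
      have hsm : ((p ^ L - 1) • toF u) i = (p ^ L - 1) * (u i : ℕ) := by
        simp only [Finsupp.smul_apply, toF_apply, smul_eq_mul]
      have hdd : (p ^ L - 1) ∣ ((p ^ L - 1) • toF u) i := by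
        rw [hsm]
        exact dvd_mul_right _ _
      rw [if_pos hdd]
      congr 1
      have hpos : 0 < p ^ L - 1 := by omega
      by_cases h6 : 0 < (u i : ℕ)
      · rw [if_pos h6, if_pos]
        rw [hsm]
        exact Nat.mul_pos hpos h6
      · rw [if_neg h6, if_neg]
        push Not at h6
        rw [hsm, Nat.le_zero.1 h6, mul_zero]
        exact lt_irrefl _
  rw [h1, h2]
  -- Step 3: inclusion-exclusion
  have h3 : ∀ u : σ → Fin (B + 1),
      ∏ i, (((p ^ L : ℕ) : PadicAlgCl p) - (if 0 < (u i : ℕ) then 1 else 0)) =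
      ∑ T : Finset σ, (if ∀ i ∈ T, (u i : ℕ) ≠ 0 then
        (-1) ^ T.card * ((p ^ L : ℕ) : PadicAlgCl p) ^ (Fintype.card σ - T.card) else 0) := by
    intro u
    have h4 : ∀ i, (((p ^ L : ℕ) : PadicAlgCl p) - (if 0 < (u i : ℕ) then 1 else 0)) =
        (if 0 < (u i : ℕ) then (-1) else 0) + ((p ^ L : ℕ) : PadicAlgCl p) := by
      intro i
      split_ifs <;> ring
    rw [Finset.prod_congr rfl fun i _ => h4 i, Finset.prod_add, Finset.powerset_univ]
    refine Finset.sum_congr rfl fun T _ => ?_
    rw [Finset.prod_const, Finset.card_sdiff_of_subset (Finset.subset_univ T), Finset.card_univ]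
    by_cases h5 : ∀ i ∈ T, (u i : ℕ) ≠ 0
    · rw [if_pos h5]
      congr 1
      rw [Finset.prod_congr rfl (g := fun _ => (-1 : PadicAlgCl p)), Finset.prod_const]
      intro i hi
      rw [if_pos (Nat.pos_of_ne_zero (h5 i hi))]
    · rw [if_neg h5]
      push Not at h5
      obtain ⟨i, hi, h6⟩ := h5
      rw [Finset.prod_eq_zero hi (by rw [h6, if_neg (lt_irrefl _)]), zero_mul]
  simp only [h3, Finset.mul_sum]
  rw [Finset.sum_comm]
  refine Finset.sum_congr rfl fun T _ => ?_
  rw [← Finset.sum_subtype (Finset.univ.filter fun u : σ → Fin (B + 1) => ∀ i ∈ T, (u i : ℕ) ≠ 0)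
    (fun u => by simp) (fun u => (-1) ^ T.card * ((p ^ L : ℕ) : PadicAlgCl p) ^
      (Fintype.card σ - T.card) * coeff ((p ^ L - 1) • toF u) F), Finset.sum_filter]
  refine Finset.sum_congr rfl fun u _ => ?_
  split_ifs
  · ring
  · ring

theorem trace_formula {L : ℕ} (hL : L ≠ 0) (G : Γ → MvPolynomial σ (PadicAlgCl p)) (ρ : Γ → Γ)
    {B : ℕ} (hG : ∀ g, ∀ v ∈ (G g).support, ∀ i, v i ≤ B) :
    ∑ T : Finset σ, (-1) ^ T.card * ((p ^ L : ℕ) : PadicAlgCl p) ^ (Fintype.card σ - T.card) *
      (Cmat p G ρ T B ^ L).trace =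
    ∑ g ∈ Finset.univ.filter (fun g => ρ^[L] g = g),
      ∑ x ∈ Fintype.piFinset (fun _ : σ => MU p (p ^ L)), eval x (Pi p G ρ L g) := by
  have hp2 := hp.1.two_le
  simp only [trace_pow_eq hp2 G ρ _ hG L]
  have h1 : ∀ g, ∑ x ∈ Fintype.piFinset (fun _ : σ => MU p (p ^ L)), eval x (Pi p G ρ L g) =
      ∑ T : Finset σ, (-1) ^ T.card * ((p ^ L : ℕ) : PadicAlgCl p) ^ (Fintype.card σ - T.card) *
        ∑ u : Idx T B, coeff ((p ^ L - 1) • toF u.1) (Pi p G ρ L g) := by
    intro g
    refine sum_eval hL _ fun v hv i => ?_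
    have := Pi_support hp2 G ρ hG L g v hv i
    rw [Nat.mul_sub, mul_one]
    omega
  simp only [h1]
  rw [Finset.sum_comm]
  refine Finset.sum_congr rfl fun T _ => ?_
  rw [Finset.mul_sum]

end sums

end Tr

end Pool.Agent.N867.AS
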