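import Pool.Agent.N867.AS.Cyc

/-!
# A Vandermonde conjugation for Hasse–Witt matrices of sets of points
-/

set_option autoImplicit false
set_option linter.unusedSectionVars false

namespace Pool.Agent.N867.AS

namespace VD

open Polynomial

variable {F : Type} [Field F] {p : ℕ} [hp : Fact p.Prime] [CharP F p]

/-- the functional `R ↦ Λ(R)(z)`, `Λ` the Cartier operator -/
noncomputable def cart (p N : ℕ) (z : F) (R : F[X]) : F :=
  ∑ v ∈ Finset.range N, R.coeff (p * (v + 1) - 1) * z ^ v

theorem cart_add (N : ℕ) (z : F) (R S : F[X]) :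
    cart p N z (R + S) = cart p N z R + cart p N z S := by
  unfold cart
  rw [← Finset.sum_add_distrib]
  refine Finset.sum_congr rfl fun v _ => ?_
  rw [coeff_add, add_mul]

theorem cart_C_mul (N : ℕ) (z c : F) (R : F[X]) :
    cart p N z (C c * R) = c * cart p N z R := by
  unfold cart
  rw [Finset.mul_sum]
  refine Finset.sum_congr rfl fun v _ => ?_
  rw [coeff_C_mul, mul_assoc]

theorem cart_X_pow {N : ℕ} (z : F) {R : F[X]} (hR : R.natDegree + 1 < p * N) :
    cart p N z (X ^ p * R) = z * cart p N z R := by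
  have hp2 := hp.1.two_le
  unfold cart
  obtain ⟨N, rfl⟩ : ∃ N', N = N' + 1 := by
    refine ⟨N - 1, ?_⟩
    have : N ≠ 0 := by
      rintro rfl
      omega
    omega
  rw [Finset.sum_range_succ', Finset.sum_range_succ (fun v => R.coeff (p * (v + 1) - 1) * z ^ v)]
  have h1 : (X ^ p * R).coeff (p * (0 + 1) - 1) = 0 := by
    rw [coeff_X_pow_mul', if_neg (by omega)]
  have h2 : R.coeff (p * (N + 1) - 1) = 0 := coeff_eq_zero_of_natDegree_lt (by omega)
  rw [h1, h2, zero_mul, zero_mul, add_zero, add_zero, Finset.mul_sum]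
  refine Finset.sum_congr rfl fun v _ => ?_
  have h3 : p ≤ p * (v + 1 + 1) - 1 := by
    have : p * (v + 1 + 1) = p * v + p + p := by ring
    omega
  have h4 : p * (v + 1 + 1) - 1 - p = p * (v + 1) - 1 := by
    have : p * (v + 1 + 1) = p * (v + 1) + p := by ring
    have : p * (v + 1) = p * v + p := by ring
    omega
  rw [coeff_X_pow_mul', if_pos h3, h4, pow_succ]
  ring

theorem cart_eval (θ : F) (B : F[X]) {N : ℕ} (hB : B.natDegree + 1 < p * N) :
    cart p N (θ ^ p) ((X - C θ) ^ (p - 1) * B) = B.eval θ := by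
  have hp2 := hp.1.two_le
  obtain ⟨B', hB'⟩ : X - C θ ∣ B - C (B.eval θ) := by
    rw [dvd_iff_isRoot, IsRoot, eval_sub, eval_C, sub_self]
  have hdeg : B'.natDegree ≤ B.natDegree := by
    by_cases h0 : B' = 0
    · rw [h0, natDegree_zero]
      exact Nat.zero_le _
    · have h1 := congrArg natDegree hB'
      rw [natDegree_mul (X_sub_C_ne_zero θ) h0, natDegree_sub_C] at h1
      omega
  have hB2 : B = C (B.eval θ) + (X - C θ) * B' := by
    rw [← hB']
    ring
  have hfrob : (X - C θ) ^ p = X ^ p - C (θ ^ p) := by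
    rw [sub_pow_char, C_pow]
  have h1 : (X - C θ) ^ (p - 1) * B = C (B.eval θ) * (X - C θ) ^ (p - 1) +
      (X ^ p * B' + C (-θ ^ p) * B') := by
    conv_lhs => rw [hB2]
    have h2 : (X - C θ) ^ (p - 1) * ((X - C θ) * B') = (X - C θ) ^ p * B' := by
      rw [← mul_assoc, ← pow_succ, Nat.sub_add_cancel hp.1.one_le]
    rw [mul_add, h2, hfrob, C_neg]
    ring
  have h2 : cart p N (θ ^ p) ((X - C θ) ^ (p - 1)) = 1 := by
    unfold cart
    have hN : 0 < N := by
      rcases Nat.eq_zero_or_pos N with h | h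
      · rw [h] at hB
        omega
      · exact h
    rw [Finset.sum_eq_single 0]
    · have h3 : ((X - C θ) ^ (p - 1)).natDegree = p - 1 := by
        rw [natDegree_pow, natDegree_X_sub_C, mul_one]
      have h4 : ((X - C θ) ^ (p - 1)).Monic := (monic_X_sub_C θ).pow _
      have h5 := h4.coeff_natDegree
      rw [h3] at h5
      rw [zero_add, mul_one, pow_zero, mul_one, h5]
    · intro v _ hv
      rw [coeff_eq_zero_of_natDegree_lt, zero_mul]
      rw [natDegree_pow, natDegree_X_sub_C, mul_one]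
      have h5 : 1 ≤ v := Nat.one_le_iff_ne_zero.2 hv
      have h6 : p * 2 ≤ p * (v + 1) := Nat.mul_le_mul_left p (by omega)
      omega
    · intro h
      exact absurd (Finset.mem_range.2 hN) h
  rw [h1, cart_add, cart_add, cart_C_mul, h2, cart_X_pow _ (by omega), cart_C_mul]
  ring

/-- entries of the Hasse–Witt matrix -/
theorem hw_eval {g : ℕ} {θ : F} {H G : F[X]} (hH : H = (X - C θ) * G) (hg : H.natDegree ≤ g)
    (hgp : g < p) {u : ℕ} (hu : u < g) :
    ∑ v : Fin g, (H ^ (p - 1)).coeff (p * ((v : ℕ) + 1) - (u + 1)) * (θ ^ p) ^ (v : ℕ) =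
      θ ^ u * G.eval θ ^ (p - 1) := by
  have hp2 := hp.1.two_le
  rw [Fin.sum_univ_eq_sum_range (fun v => (H ^ (p - 1)).coeff (p * (v + 1) - (u + 1)) *
    (θ ^ p) ^ v) g]
  have h1 : ∀ v, (H ^ (p - 1)).coeff (p * (v + 1) - (u + 1)) =
      ((X - C θ) ^ (p - 1) * (X ^ u * G ^ (p - 1))).coeff (p * (v + 1) - 1) := by
    intro v
    have h2 : (X - C θ) ^ (p - 1) * (X ^ u * G ^ (p - 1)) = X ^ u * H ^ (p - 1) := by
      rw [hH, mul_pow]
      ring
    have h3 : u + 1 ≤ p * (v + 1) := by
      have : p * 1 ≤ p * (v + 1) := Nat.mul_le_mul_left p (by omega)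
      omega
    rw [h2, coeff_X_pow_mul', if_pos (by omega)]
    congr 1
    omega
  have h4 := cart_eval (p := p) θ (X ^ u * G ^ (p - 1)) (N := g) (by
    by_cases hG : G = 0
    · rw [hG, zero_pow (by omega), mul_zero, natDegree_zero]
      have : p * 1 ≤ p * g := Nat.mul_le_mul_left p (by omega)
      omega
    · have h5 := congrArg natDegree hH
      rw [natDegree_mul (X_sub_C_ne_zero θ) hG, natDegree_X_sub_C] at h5
      have h6 : (X ^ u * G ^ (p - 1)).natDegree ≤ u + (p - 1) * G.natDegree := by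
        refine natDegree_mul_le.trans (Nat.add_le_add ?_ ?_)
        · rw [natDegree_X_pow]
        · exact natDegree_pow_le
      have h7 : (p - 1) * G.natDegree ≤ (p - 1) * (g - 1) := Nat.mul_le_mul_left _ (by omega)
      obtain ⟨g', rfl⟩ : ∃ g', g = g' + 1 := ⟨g - 1, by omega⟩
      obtain ⟨q, hq⟩ : ∃ q, p = q + 1 := ⟨p - 1, by omega⟩
      rw [hq, Nat.add_sub_cancel] at h6 h7 ⊢
      rw [Nat.add_sub_cancel] at h7
      have h8 : (q + 1) * (g' + 1) = q * g' + q + g' + 1 := by ring
      omega)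
  rw [eval_mul, eval_pow, eval_pow, eval_X] at h4
  rw [← h4]
  unfold cart
  exact Finset.sum_congr rfl fun v _ => by rw [h1]

end VD

end Pool.Agent.N867.AS
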