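import Pool.Agent.N867.AS.V1

/-!
# Conjugation of the Hasse–Witt matrices to a permutation matrix
-/

set_option autoImplicit false
set_option linter.unusedSectionVars false

namespace Pool.Agent.N867.AS

namespace VD

open Polynomial

/-- equality of determinants of intertwined matrices -/
theorem det_eq_of_intertwine {R F : Type} [CommRing R] [IsDomain R] [Field F] (c : F →+* R)
    {m n : Type} [Fintype m] [DecidableEq m] [Fintype n] [DecidableEq n]
    (A : Matrix m m R) (B : Matrix n n R) (E : Matrix m n F)
    (hcard : Fintype.card m = Fintype.card n) (hE : ∀ v : n → F, E.mulVec v = 0 → v = 0)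
    (hAB : A * E.map c = E.map c * B) : A.det = B.det := by
  obtain ⟨q⟩ : Nonempty (m ≃ n) := ⟨Fintype.equivOfCardEq hcard⟩
  have h1 : A * (E.map c).submatrix id q = (E.map c).submatrix id q * B.submatrix q q := by
    have h2 : (A * E.map c).submatrix id q = (E.map c * B).submatrix id q := by rw [hAB]
    have h3 : (A * E.map c).submatrix id q = A * (E.map c).submatrix id q := by
      ext i j
      simp [Matrix.mul_apply]
    have h4 : (E.map c * B).submatrix id q = (E.map c).submatrix id q * B.submatrix q q := by
      rw [Matrix.submatrix_mul_equiv]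
    rw [← h3, h2, h4]
  have h2 := congrArg Matrix.det h1
  rw [Matrix.det_mul, Matrix.det_mul, Matrix.det_submatrix_equiv_self, mul_comm] at h2
  refine mul_left_cancel₀ ?_ h2
  have h3 : (E.map c).submatrix id q = c.mapMatrix (E.submatrix id q) := by
    ext i j
    simp
  rw [h3, ← RingHom.map_det, Ne, map_eq_zero_iff _ c.injective]
  intro h0
  obtain ⟨v, hv, hv0⟩ := Matrix.exists_mulVec_eq_zero_iff.2 h0
  apply hv
  have h4 := hE (fun z => v (q.symm z)) (by
    rw [← hv0]
    ext i
    simp only [Matrix.mulVec, dotProduct, Matrix.submatrix_apply, id_eq]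
    rw [← Equiv.sum_comp q]
    simp)
  funext i
  have h5 := congrFun h4 (q i)
  simpa using h5

variable {F : Type} [Field F] {p : ℕ} [hp : Fact p.Prime] [CharP F p] {s g : ℕ} [NeZero s]

/-- the Hasse–Witt matrix of all exponents `1, …, g` -/
noncomputable def TT (p : ℕ) (H : ZMod s → F[X]) (g : ℕ) (x y : ZMod s × Fin g) : F :=
  if y.1 = x.1 + 1 then (H x.1 ^ (p - 1)).coeff (p * ((y.2 : ℕ) + 1) - ((x.2 : ℕ) + 1)) else 0

section perm

variable {Z : Type} [Fintype Z] [DecidableEq Z] (π : Equiv.Perm Z) (lev : Z → ZMod s)
  (ϑ : Z → F) (H G : ZMod s → F[X]) (d : Z → F)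

theorem det_TT (hlev : ∀ z, lev (π z) = lev z + 1) (hϑ : ∀ z, ϑ (π z) = ϑ z ^ p)
    (hinj : ∀ z z', lev z = lev z' → ϑ z = ϑ z' → z = z') (hd0 : ∀ z, d z ≠ 0)
    (hd : ∀ z, d (π z) = d z ^ p) (hH : ∀ z, ∃ G : F[X], H (lev z) = (X - C (ϑ z)) * G ∧
      G.eval (ϑ z) = d z) (hdeg : ∀ j, (H j).natDegree = g) (hgp : g < p) (hg : 0 < g)
    (hcard : Fintype.card Z = s * g) :
    (Matrix.of fun x y : ZMod s × Fin g => (if x = y then (1 : F[X]) else 0) -
      X * C (TT p H g x y)).det =
    (Matrix.of fun z z' : Z => (if z = z' then (1 : F[X]) else 0) -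
      (if z' = π z then X else 0)).det := by
  obtain ⟨E, hE⟩ : ∃ E : Matrix (ZMod s × Fin g) Z F, ∀ x z, E x z =
    if lev z = x.1 then ϑ z ^ (x.2 : ℕ) * (d z)⁻¹ else 0 :=
    ⟨Matrix.of fun x z => if lev z = x.1 then ϑ z ^ (x.2 : ℕ) * (d z)⁻¹ else 0, fun _ _ => rfl⟩
  have hp2 := hp.1.two_le
  refine det_eq_of_intertwine C _ _ E ?_ ?_ ?_
  · rw [Fintype.card_prod, ZMod.card, Fintype.card_fin, hcard]
  · intro c hc
    funext z₀
    -- the fibre
    have h1 : ∀ P : F[X], P.natDegree < g → ∑ z ∈ Finset.univ.filter (fun z => lev z = lev z₀),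
        P.eval (ϑ z) * ((d z)⁻¹ * c z) = 0 := by
      intro P hP
      have h2 : ∀ u : ℕ, u < g → ∑ z ∈ Finset.univ.filter (fun z => lev z = lev z₀),
          ϑ z ^ u * ((d z)⁻¹ * c z) = 0 := by
        intro u hu
        have h3 := congrFun hc (lev z₀, ⟨u, hu⟩)
        simp only [Matrix.mulVec, dotProduct, hE, Pi.zero_apply] at h3
        rw [Finset.sum_filter]
        refine Eq.trans (Finset.sum_congr rfl fun z _ => ?_) h3
        split_ifs
        · ring
        · ring
      simp only [eval_eq_sum_range' hP, Finset.sum_mul]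
      rw [Finset.sum_comm]
      refine Finset.sum_eq_zero fun u hu => ?_
      have h3 := h2 u (Finset.mem_range.1 hu)
      have h4 : ∑ z ∈ Finset.univ.filter (fun z => lev z = lev z₀),
          P.coeff u * ϑ z ^ u * ((d z)⁻¹ * c z) = P.coeff u *
          ∑ z ∈ Finset.univ.filter (fun z => lev z = lev z₀), ϑ z ^ u * ((d z)⁻¹ * c z) := by
        rw [Finset.mul_sum]
        refine Finset.sum_congr rfl fun z _ => ?_
        ring
      rw [h4, h3, mul_zero]
    -- the number of points in the fibre
    have hH0 : ∀ j, H j ≠ 0 := by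
      intro j h0
      have := hdeg j
      rw [h0, natDegree_zero] at this
      omega
    have hfib : (Finset.univ.filter (fun z => lev z = lev z₀)).card ≤ g := by
      classical
      have h2 : ((Finset.univ.filter (fun z => lev z = lev z₀)).image ϑ).card =
          (Finset.univ.filter (fun z => lev z = lev z₀)).card := by
        refine Finset.card_image_of_injOn ?_
        intro z hz z' hz' h
        simp only [Finset.coe_filter, Finset.mem_univ, true_and, Set.mem_ofPred_eq] at hz hz'
        exact hinj z z' (hz.trans hz'.symm) h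
      rw [← h2, ← hdeg (lev z₀)]
      refine (Finset.card_le_card (t := (H (lev z₀)).roots.toFinset) ?_).trans
        ((Multiset.toFinset_card_le _).trans (card_roots' _))
      intro t ht
      rw [Finset.mem_image] at ht
      obtain ⟨z, hz, rfl⟩ := ht
      rw [Finset.mem_filter] at hz
      rw [Multiset.mem_toFinset, mem_roots (hH0 _), IsRoot, ← hz.2]
      obtain ⟨G, hG, _⟩ := hH z
      rw [hG, eval_mul, eval_sub, eval_X, eval_C, sub_self, zero_mul]
    have h2 := h1 (∏ z ∈ (Finset.univ.filter (fun z => lev z = lev z₀)).erase z₀,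
      (X - C (ϑ z))) (by
        rw [natDegree_finsetProd_X_sub_C_eq_card, Finset.card_erase_of_mem (by simp)]
        omega)
    rw [Finset.sum_eq_single z₀] at h2
    · rw [eval_prod] at h2
      have h3 : ∏ z ∈ (Finset.univ.filter (fun z => lev z = lev z₀)).erase z₀,
          eval (ϑ z₀) (X - C (ϑ z)) ≠ 0 := by
        refine Finset.prod_ne_zero_iff.2 fun z hz => ?_
        rw [Finset.mem_erase, Finset.mem_filter] at hz
        rw [eval_sub, eval_X, eval_C, sub_ne_zero]
        exact fun h => hz.1 (hinj z z₀ hz.2.2 h.symm)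
      have h4 := (mul_eq_zero.1 h2).resolve_left h3
      exact (mul_eq_zero.1 h4).resolve_left (inv_ne_zero (hd0 z₀))
    · intro z hz hne
      rw [eval_prod, Finset.prod_eq_zero (i := z), zero_mul]
      · rw [Finset.mem_erase]
        exact ⟨hne, hz⟩
      · rw [eval_sub, eval_X, eval_C, sub_self]
    · intro h
      exact absurd (by simp) h
  · -- the intertwining relation
    have key : ∀ (x : ZMod s × Fin g) (z : Z), ∑ y, TT p H g x y * E y (π z) = E x z := by
      intro x z
      rw [Fintype.sum_prod_type]
      rw [hE]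
      by_cases h : lev z = x.1
      · rw [if_pos h, Finset.sum_eq_single (x.1 + 1)]
        · obtain ⟨G, hG1, hG2⟩ := hH z
          have h3 := hw_eval (p := p) (g := g) hG1 (by rw [hdeg]) hgp x.2.2
          rw [hG2] at h3
          have h4 : ∀ v : Fin g, TT p H g x (x.1 + 1, v) * E (x.1 + 1, v) (π z) =
              ((H (lev z) ^ (p - 1)).coeff (p * ((v : ℕ) + 1) - ((x.2 : ℕ) + 1)) *
                (ϑ z ^ p) ^ (v : ℕ)) * (d z ^ p)⁻¹ := by
            intro v
            rw [TT, if_pos rfl, hE, if_pos (by rw [hlev, h]), hϑ, hd, h]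
            ring
          rw [Finset.sum_congr rfl fun v _ => h4 v, ← Finset.sum_mul, h3]
          have h5 : d z ^ p = d z ^ (p - 1) * d z := by
            rw [← pow_succ, Nat.sub_add_cancel hp.1.one_le]
          rw [h5]
          have := hd0 z
          field_simp
        · intro j _ hj
          refine Finset.sum_eq_zero fun v _ => ?_
          rw [TT, if_neg (by exact hj), zero_mul]
        · intro h'
          exact absurd (Finset.mem_univ _) h'
      · rw [if_neg h]
        refine Finset.sum_eq_zero fun j _ => Finset.sum_eq_zero fun v _ => ?_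
        rw [TT]
        split_ifs with h2
        · rw [hE, if_neg, mul_zero]
          intro h3
          apply h
          change lev (π z) = j at h3
          change j = x.1 + 1 at h2
          rw [hlev, h2] at h3
          exact add_right_cancel h3
        · rw [zero_mul]
    ext1 x z
    rw [Matrix.mul_apply, Matrix.mul_apply]
    have hL : ∑ y, (Matrix.of fun x y : ZMod s × Fin g => (if x = y then (1 : F[X]) else 0) -
        X * C (TT p H g x y)) x y * (E.map C) y z = C (E x z) -
        X * C (∑ y, TT p H g x y * E y z) := by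
      simp only [Matrix.of_apply, Matrix.map_apply, sub_mul, Finset.sum_sub_distrib, ite_mul,
        one_mul, zero_mul, Finset.sum_ite_eq, Finset.mem_univ, if_true]
      rw [map_sum, Finset.mul_sum]
      congr 1
      refine Finset.sum_congr rfl fun y _ => ?_
      rw [C_mul]
      ring
    have hR : ∑ z', (E.map C) x z' * (Matrix.of fun z z' : Z =>
        (if z = z' then (1 : F[X]) else 0) - (if z' = π z then X else 0)) z' z =
        C (E x z) - X * C (E x (π.symm z)) := by
      simp only [Matrix.of_apply, Matrix.map_apply, mul_sub, Finset.sum_sub_distrib, mul_ite,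
        mul_one, mul_zero, Finset.sum_ite_eq', Finset.mem_univ, if_true]
      congr 1
      rw [Finset.sum_eq_single (π.symm z)]
      · rw [if_pos (by simp)]
        ring
      · intro z' _ hz'
        rw [if_neg]
        intro h
        apply hz'
        rw [h]
        simp
      · intro h
        exact absurd (Finset.mem_univ _) h
    rw [hL, hR]
    have h3 := key x (π.symm z)
    rw [Equiv.apply_symm_apply] at h3
    rw [h3]

end perm

end VD

end Pool.Agent.N867.AS
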