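import Pool.Agent.N867.AS.V3
import Pool.Agent.N867.AS.G2

/-!
# Roots of polynomials over a finite field under Frobenius
-/

set_option autoImplicit false
set_option linter.unusedSectionVars false

namespace Pool.Agent.N867.AS

namespace VR

open Polynomial

section irr

variable {K : Type} [Field K] [Fintype K] {Ω : Type} [Field Ω]

theorem root_frob (P : K[X]) (hP : Irreducible P) (ψ : K →+* Ω) (ρ : Ω) (hρ : P.eval₂ ψ ρ = 0)
    (l : ℕ) : ρ ^ Fintype.card K ^ l = ρ ↔ P.natDegree ∣ l := by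
  have : Fact (Irreducible P) := ⟨hP⟩
  have hfin : Module.Finite K (AdjoinRoot P) := (AdjoinRoot.powerBasis hP.ne_zero).finite
  have hfin2 : Finite (AdjoinRoot P) := Module.finite_of_finite K
  obtain ⟨φ, hφ⟩ : ∃ φ : AdjoinRoot P →+* Ω, φ (AdjoinRoot.root P) = ρ :=
    ⟨AdjoinRoot.lift ψ ρ hρ, AdjoinRoot.lift_root _⟩
  have h1 : ρ ^ Fintype.card K ^ l = ρ ↔
      (AdjoinRoot.root P) ^ Fintype.card K ^ l = AdjoinRoot.root P := by
    rw [← hφ, ← map_pow]
    exact φ.injective.eq_iff
  have h2 : (AdjoinRoot.root P) ^ Fintype.card K ^ l = AdjoinRoot.root P ↔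
      FiniteField.frobeniusAlgHom K (AdjoinRoot P) ^ l = 1 := by
    constructor
    · intro h
      refine AdjoinRoot.algHom_ext ?_
      rw [AlgHom.coe_pow, FiniteField.coe_frobeniusAlgHom, pow_iterate, AlgHom.one_apply]
      exact h
    · intro h
      have h3 := DFunLike.congr_fun h (AdjoinRoot.root P)
      rw [AlgHom.coe_pow, FiniteField.coe_frobeniusAlgHom, pow_iterate, AlgHom.one_apply] at h3
      exact h3
  rw [h1, h2, ← orderOf_dvd_iff_pow_eq_one, FiniteField.orderOf_frobeniusAlgHom,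
    (AdjoinRoot.powerBasis hP.ne_zero).finrank, AdjoinRoot.powerBasis_dim]

end irr

open Res GW

section roots

variable {p : ℕ} [hp : Fact p.Prime] {s : ℕ} [NeZero s] {K : Type} [Field K] [Fintype K]
  (hK : Fintype.card K = p ^ s) (ψ : K →+* k p)

/-- twisted coefficients -/
theorem map_Fr (P : K[X]) {a b : ℕ} (hab : (a : ZMod s) = b) (hK : Fintype.card K = p ^ s) :
    (P.map ψ).map (Fr p a) = (P.map ψ).map (Fr p b) := by
  have h1 : ∀ (x : K) (r e : ℕ), ψ x ^ p ^ (e + s * r) = ψ x ^ p ^ e := by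
    intro x r e
    induction r with
    | zero => simp
    | succ r ih =>
      have h2 : ψ x ^ p ^ s = ψ x := by rw [← map_pow, ← hK, FiniteField.pow_card]
      rw [show e + s * (r + 1) = s + (e + s * r) by ring, pow_add, pow_mul, h2, ih]
  have h3 : ∀ (x : K) (e : ℕ), ψ x ^ p ^ e = ψ x ^ p ^ (e % s) := by
    intro x e
    conv_lhs => rw [← Nat.mod_add_div e s]
    exact h1 _ _ _
  ext n
  rw [coeff_map, coeff_map, coeff_map, coeff_map, Fr_apply, Fr_apply, h3, h3 _ b]
  have h4 := (ZMod.natCast_eq_natCast_iff a b s).1 hab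
  have h5 : a % s = b % s := h4
  rw [h5]

variable {e : ℕ} (P : Fin e → K[X]) (ρ : Fin e → k p)

/-- the index set of all conjugates -/
abbrev Tot (s : ℕ) (P : Fin e → K[X]) : Type := Σ i : Fin e, ZMod (s * (P i).natDegree)

/-- the conjugates -/
noncomputable def th (s : ℕ) (P : Fin e → K[X]) (ρ : Fin e → k p) (z : Tot s P) : k p :=
  ρ z.1 ^ p ^ z.2.val

/-- the level -/
def lev (s : ℕ) (P : Fin e → K[X]) (z : Tot s P) : ZMod s :=
  ZMod.castHom (dvd_mul_right s (P z.1).natDegree) (ZMod s) z.2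

variable (hirr : ∀ i, Irreducible (P i)) (hρ : ∀ i, (P i).eval₂ ψ (ρ i) = 0)

include hirr in
theorem deg_pos (i : Fin e) : 0 < (P i).natDegree := (hirr i).natDegree_pos

include hirr in
theorem neZero (i : Fin e) : NeZero (s * (P i).natDegree) :=
  ⟨mul_ne_zero (NeZero.ne s) (deg_pos P hirr i).ne'⟩

include hirr in
theorem lev_val (z : Tot s P) : lev s P z = (z.2.val : ZMod s) := by
  have := neZero (s := s) P hirr z.1
  conv_lhs => rw [lev, ← ZMod.natCast_zmod_val z.2]
  rw [map_natCast]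

theorem lev_sh (z : Tot s P) :
    lev s P (VD.sh (fun i => s * (P i).natDegree) z) = lev s P z + 1 := by
  change ZMod.castHom (dvd_mul_right s (P z.1).natDegree) (ZMod s) (z.2 + 1) = _
  rw [map_add, map_one]
  rfl

include hirr hρ hK in
theorem rho_pow (i : Fin e) (r a : ℕ) :
    ρ i ^ p ^ (a + s * (P i).natDegree * r) = ρ i ^ p ^ a := by
  have h1 := (root_frob (P i) (hirr i) ψ (ρ i) (hρ i) (P i).natDegree).2 (dvd_refl _)
  rw [hK, ← pow_mul] at h1
  induction r with
  | zero => simp
  | succ r ih =>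
    rw [show a + s * (P i).natDegree * (r + 1) =
      s * (P i).natDegree + (a + s * (P i).natDegree * r) by ring, pow_add, pow_mul, h1, ih]

include hirr hρ hK in
theorem th_sh (z : Tot s P) :
    th s P ρ (VD.sh (fun i => s * (P i).natDegree) z) = th s P ρ z ^ p := by
  have := neZero (s := s) P hirr z.1
  have h1 : ∀ a b : ℕ, (a : ZMod (s * (P z.1).natDegree)) = b →
      ρ z.1 ^ p ^ a = ρ z.1 ^ p ^ b := by
    intro a b hab
    have h3 : ∀ c : ℕ, ρ z.1 ^ p ^ c = ρ z.1 ^ p ^ (c % (s * (P z.1).natDegree)) := by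
      intro c
      conv_lhs => rw [← Nat.mod_add_div c (s * (P z.1).natDegree)]
      exact rho_pow hK ψ P ρ hirr hρ z.1 _ _
    rw [h3 a, h3 b]
    have h4 : a % (s * (P z.1).natDegree) = b % (s * (P z.1).natDegree) :=
      (ZMod.natCast_eq_natCast_iff a b _).1 hab
    rw [h4]
  change ρ z.1 ^ p ^ (z.2 + 1).val = (ρ z.1 ^ p ^ z.2.val) ^ p
  rw [← pow_mul, ← pow_succ]
  apply h1
  rw [ZMod.natCast_zmod_val]
  push_cast
  rw [ZMod.natCast_zmod_val]

include hρ in
theorem root_map (i : Fin e) (a : ℕ) : (((P i).map ψ).map (Fr p a)).eval (ρ i ^ p ^ a) = 0 := by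
  rw [← Fr_apply, eval_map, eval₂_hom, eval_map, hρ, map_zero]

include hirr hρ hK in
theorem th_inj (hne : Pairwise fun i j => IsCoprime (P i) (P j)) (z z' : Tot s P)
    (hl : lev s P z = lev s P z') (ht : th s P ρ z = th s P ρ z') : z = z' := by
  have hz := neZero (s := s) P hirr
  have hlev : ∀ z : Tot s P, lev s P z = (z.2.val : ZMod s) := lev_val P hirr
  rw [hlev, hlev] at hl
  by_cases h : z.1 = z'.1
  · obtain ⟨i, t⟩ := z
    obtain ⟨i', t'⟩ := z'
    simp only at h
    subst h
    have key : ∀ t t' : ZMod (s * (P i).natDegree), t.val ≤ t'.val →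
        ((t.val : ℕ) : ZMod s) = ((t'.val : ℕ) : ZMod s) → ρ i ^ p ^ t.val = ρ i ^ p ^ t'.val →
        t = t' := by
      intro t t' hle hl ht
      obtain ⟨m, hm⟩ : ∃ m, t'.val = t.val + m := ⟨t'.val - t.val, by omega⟩
      have h1 : ρ i ^ p ^ m = ρ i := by
        have h7 : Fr p t.val (ρ i) = Fr p t.val (ρ i ^ p ^ m) := by
          rw [Fr_apply, Fr_apply, ← pow_mul, ← pow_add, add_comm m, ← hm]
          exact ht
        exact ((Fr p t.val).injective h7).symm
      have h2 : s ∣ m := by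
        rw [hm] at hl
        push_cast at hl
        have h3 : ((m : ℕ) : ZMod s) = 0 := by
          have h4 : (t.val : ZMod s) + 0 = (t.val : ZMod s) + m := by rw [add_zero]; exact hl
          exact (add_left_cancel h4).symm
        exact (ZMod.natCast_eq_zero_iff m s).1 h3
      obtain ⟨l, rfl⟩ := h2
      rw [pow_mul, ← hK, root_frob (P i) (hirr i) ψ (ρ i) (hρ i)] at h1
      obtain ⟨r, rfl⟩ := h1
      have h3 := ZMod.val_lt t'
      have h4 : r = 0 := by
        by_contra h5
        have h6 : s * (P i).natDegree * 1 ≤ s * (P i).natDegree * r :=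
          Nat.mul_le_mul_left _ (Nat.one_le_iff_ne_zero.2 h5)
        rw [hm, ← mul_assoc] at h3
        omega
      rw [h4, mul_zero, mul_zero, add_zero] at hm
      exact ZMod.val_injective _ hm.symm
    have h5 : t = t' := by
      rcases le_total t.val t'.val with h6 | h6
      · exact key t t' h6 hl ht
      · exact (key t' t h6 hl.symm ht.symm).symm
    rw [h5]
  · exfalso
    have h1 := hne h
    have h2 := (h1.map (mapRingHom ψ)).map (mapRingHom (Fr p z.2.val))
    simp only [coe_mapRingHom] at h2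
    rw [map_Fr ψ (P z'.1) hl hK] at h2
    obtain ⟨u, v, huv⟩ := h2
    have h3 := congrArg (eval (th s P ρ z)) huv
    rw [eval_add, eval_mul, eval_mul, eval_one] at h3
    have h4 : (((P z.1).map ψ).map (Fr p z.2.val)).eval (th s P ρ z) = 0 :=
      root_map ψ P ρ hρ z.1 z.2.val
    have h5 : (((P z'.1).map ψ).map (Fr p z'.2.val)).eval (th s P ρ z) = 0 := by
      rw [ht]
      exact root_map ψ P ρ hρ z'.1 z'.2.val
    rw [h4, h5, mul_zero, mul_zero, add_zero] at h3
    exact zero_ne_one h3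

/-- the main determinant identity -/
theorem det_roots (hne : Pairwise fun i j => IsCoprime (P i) (P j)) (hK : Fintype.card K = p ^ s)
    (hirr : ∀ i, Irreducible (P i)) (hmon : ∀ i, (P i).Monic) {g : ℕ}
    (hg : (∏ i, P i).natDegree = g + 1) (hgp : g + 1 < p) (Hz : ZMod s → (k p)[X])
    (hHz : ∀ j, Hz j = ((∏ i, P i).map ψ).map (Fr p j.val)) :
    (Matrix.of fun x y : ZMod s × Fin g => (if x = y then (1 : (k p)[X]) else 0) -
      X * C (VD.TT p Hz g x y)).det * (1 - X ^ s) = ∏ i, (1 - X ^ (s * (P i).natDegree)) := by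
  classical
  -- roots
  have hex : ∀ i, ∃ ρ : k p, (P i).eval₂ ψ ρ = 0 := by
    intro i
    have h1 : ((P i).map ψ).degree ≠ 0 := by
      rw [degree_map]
      exact (degree_pos_of_irreducible (hirr i)).ne'
    obtain ⟨ρ, hρ⟩ := IsAlgClosed.exists_root _ h1
    refine ⟨ρ, ?_⟩
    rwa [IsRoot, eval_map] at hρ
  choose ρ hρ using hex
  have hz := neZero (s := s) P hirr
  have hprodm : (∏ i, P i).Monic := monic_prod_of_monic _ _ fun i _ => hmon i
  have hzm : ∀ j, (Hz j).Monic := by
    intro j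
    rw [hHz]
    exact (hprodm.map _).map _
  have hzdeg : ∀ j, (Hz j).natDegree = g + 1 := by
    intro j
    rw [hHz, natDegree_map, natDegree_map, hg]
  rw [← VD.det_last Hz hzm hzdeg hgp]
  -- `Hz (lev z)` with a general exponent
  have hHa : ∀ (j : ZMod s) (a : ℕ), (a : ZMod s) = j →
      Hz j = ((∏ i, P i).map ψ).map (Fr p a) := by
    intro j a ha
    rw [hHz]
    refine map_Fr ψ _ ?_ hK
    rw [ha, ZMod.natCast_zmod_val]
  have hHl : ∀ z : Tot s P, Hz (lev s P z) = ((∏ i, P i).map ψ).map (Fr p z.2.val) := by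
    intro z
    exact hHa _ _ (lev_val P hirr z).symm
  have hroot : ∀ z : Tot s P, (Hz (lev s P z)).eval (th s P ρ z) = 0 := by
    intro z
    rw [hHl, Polynomial.map_prod, Polynomial.map_prod, eval_prod]
    exact Finset.prod_eq_zero (Finset.mem_univ z.1) (root_map ψ P ρ hρ z.1 z.2.val)
  -- separability
  have hsep : (∏ i, P i).Separable := by
    refine separable_prod hne fun i => ?_
    exact PerfectField.separable_of_irreducible (hirr i)
  have hsepz : ∀ j, (Hz j).Separable := by
    intro j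
    rw [hHz]
    exact (hsep.map).map
  obtain ⟨d, hd⟩ : ∃ d : Tot s P → k p, ∀ z, d z =
      (derivative (Hz (lev s P z))).eval (th s P ρ z) := ⟨_, fun _ => rfl⟩
  have hd0 : ∀ z, d z ≠ 0 := by
    intro z h0
    rw [hd] at h0
    obtain ⟨u, v, huv⟩ := hsepz (lev s P z)
    have h1 := congrArg (eval (th s P ρ z)) huv
    rw [eval_add, eval_mul, eval_mul, eval_one, hroot, h0, mul_zero, mul_zero, add_zero] at h1
    exact zero_ne_one h1
  have hsucc : ∀ j : ZMod s, Hz (j + 1) = (Hz j).map (Fr p 1) := by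
    intro j
    have h1 : ((j.val + 1 : ℕ) : ZMod s) = j + 1 := by
      push_cast
      rw [ZMod.natCast_zmod_val]
    rw [hHa (j + 1) (j.val + 1) h1, hHz]
    ext n
    simp only [coeff_map, Fr_apply, pow_one]
    rw [← pow_mul, ← pow_succ]
  have hdp : ∀ z, d (VD.sh (fun i => s * (P i).natDegree) z) = d z ^ p := by
    intro z
    rw [hd, hd, lev_sh, hsucc, th_sh hK ψ P ρ hirr hρ, derivative_map]
    have h1 : th s P ρ z ^ p = Fr p 1 (th s P ρ z) := by rw [Fr_apply, pow_one]
    rw [h1, eval_map, eval₂_hom, Fr_apply, pow_one]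
  have hcard : Fintype.card (Tot s P) = s * (g + 1) := by
    rw [Fintype.card_sigma, Finset.sum_congr rfl fun i _ => ZMod.card (s * (P i).natDegree),
      ← Finset.mul_sum, ← hg, natDegree_prod_of_monic _ _ fun i _ => hmon i]
  have h1 := VD.det_TT (p := p) (s := s) (g := g + 1) (VD.sh fun i => s * (P i).natDegree)
    (lev s P) (th s P ρ) Hz d (lev_sh P) (th_sh hK ψ P ρ hirr hρ)
    (th_inj hK ψ P ρ hirr hρ hne) hd0 hdp (by
      intro z
      obtain ⟨G, hG⟩ : X - C (th s P ρ z) ∣ Hz (lev s P z) := by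
        rw [dvd_iff_isRoot]
        exact hroot z
      refine ⟨G, hG, ?_⟩
      rw [hd, hG, derivative_mul, eval_add, eval_mul, eval_mul, derivative_sub, derivative_X,
        derivative_C, sub_zero, eval_one, one_mul, eval_sub, eval_X, eval_C, sub_self, zero_mul,
        add_zero]) hzdeg hgp (Nat.succ_pos g) hcard
  rw [h1]
  have h2 := VD.det_sh (R := (k p)[X]) (N := fun i => s * (P i).natDegree) X
  exact h2

end roots

end VR

end Pool.Agent.N867.AS
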