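import Pool.Agent.N867.AS.V4
import Pool.Agent.N867.AS.G6

/-!
# Two variables: the leading form
-/

set_option autoImplicit false
set_option linter.unusedSectionVars false

namespace Pool.Agent.N867.AS

namespace TV

open MvPolynomial Bd GW Tr

section gen

variable {F : Type} [Field F] {a b g : ℕ}

theorem wt2 (a b : ℕ) (v : Fin 2 →₀ ℕ) : wt ![b, a] v = b * v 0 + a * v 1 := by
  unfold wt
  rw [Fin.sum_univ_two]
  rfl

/-- the exponents of the leading form -/
noncomputable def mu (a b g r : ℕ) : Fin 2 →₀ ℕ :=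
  Finsupp.single 0 (a * r) + Finsupp.single 1 (b * (g - r))

theorem mu0 (a b g r : ℕ) : mu a b g r 0 = a * r := by simp [mu]

theorem mu1 (a b g r : ℕ) : mu a b g r 1 = b * (g - r) := by simp [mu]

theorem wt_mu {r : ℕ} (hr : r ≤ g) : wt ![b, a] (mu a b g r) = g * (a * b) := by
  rw [wt2, mu0, mu1]
  obtain ⟨c, rfl⟩ : ∃ c, g = r + c := ⟨g - r, by omega⟩
  rw [Nat.add_sub_cancel_left]
  ring

theorem mu_inj (ha : a ≠ 0) {r r' : ℕ} (h : mu a b g r = mu a b g r') : r = r' := by
  have h1 := DFunLike.congr_fun h 0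
  rw [mu0, mu0] at h1
  exact Nat.eq_of_mul_eq_mul_left (Nat.pos_of_ne_zero ha) h1

theorem solve (ha : a ≠ 0) (hb : b ≠ 0) (hab : a.Coprime b) {v : Fin 2 →₀ ℕ}
    (hv : wt ![b, a] v = g * (a * b)) : ∃ r ≤ g, v = mu a b g r := by
  rw [wt2] at hv
  have h1 : a ∣ v 0 := by
    have h2 : a ∣ b * v 0 := by
      have h3 : a ∣ b * v 0 + a * v 1 := by
        rw [hv]
        exact Dvd.intro (g * b) (by ring)
      exact (Nat.dvd_add_left (dvd_mul_right a _)).1 h3
    exact hab.dvd_of_dvd_mul_left h2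
  obtain ⟨r, hr⟩ := h1
  have h2 : b * r + v 1 = g * b := by
    rw [hr] at hv
    have h3 : a * (b * r + v 1) = a * (g * b) := by
      linear_combination hv
    exact Nat.eq_of_mul_eq_mul_left (Nat.pos_of_ne_zero ha) h3
  have h3 : r ≤ g := by
    by_contra h4
    push Not at h4
    have h5 : b * g < b * r := Nat.mul_lt_mul_of_pos_left h4 (Nat.pos_of_ne_zero hb)
    rw [mul_comm g b] at h2
    omega
  refine ⟨r, h3, ?_⟩
  ext i
  fin_cases i
  · change v 0 = mu a b g r 0
    rw [mu0, hr]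
  · change v 1 = mu a b g r 1
    rw [mu1, Nat.mul_sub, mul_comm b g]
    omega

/-- the leading polynomial -/
noncomputable def Hf (a b g : ℕ) (f : MvPolynomial (Fin 2) F) : Polynomial F :=
  ∑ r ∈ Finset.range (g + 1), Polynomial.C (coeff (mu a b g r) f) * Polynomial.X ^ r

theorem Hf_map {F' : Type} [Field F'] (φ : F →+* F') (f : MvPolynomial (Fin 2) F) :
    Hf a b g (map φ f) = (Hf a b g f).map φ := by
  unfold Hf
  rw [Polynomial.map_sum]
  refine Finset.sum_congr rfl fun r _ => ?_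
  rw [Polynomial.map_mul, Polynomial.map_C, Polynomial.map_pow, Polynomial.map_X, coeff_map]

/-- setting the second variable equal to one -/
noncomputable def chi (F : Type) [Field F] : MvPolynomial (Fin 2) F →+* Polynomial F :=
  eval₂Hom Polynomial.C ![Polynomial.X, 1]

theorem chi_monomial (μ : Fin 2 →₀ ℕ) (c : F) :
    chi F (monomial μ c) = Polynomial.C c * Polynomial.X ^ μ 0 := by
  rw [chi, eval₂Hom_monomial, Finsupp.prod_fintype _ _ fun i => pow_zero _, Fin.prod_univ_two]
  simp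

theorem topf_eq (ha : a ≠ 0) (hb : b ≠ 0) (hab : a.Coprime b) (f : MvPolynomial (Fin 2) F) :
    topf ![b, a] (g * (a * b)) f =
      ∑ r ∈ Finset.range (g + 1), monomial (mu a b g r) (coeff (mu a b g r) f) := by
  classical
  ext v
  rw [coeff_topf, coeff_sum]
  simp only [coeff_monomial]
  by_cases h : wt ![b, a] v = g * (a * b)
  · rw [if_pos h]
    obtain ⟨r, hr, rfl⟩ := solve ha hb hab h
    rw [Finset.sum_eq_single r]
    · rw [if_pos rfl]
    · intro r' _ hr'
      rw [if_neg]
      intro h2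
      exact hr' (mu_inj ha h2)
    · intro h2
      exact absurd (Finset.mem_range.2 (by omega)) h2
  · rw [if_neg h]
    symm
    refine Finset.sum_eq_zero fun r hr => ?_
    rw [if_neg]
    rintro rfl
    exact h (wt_mu (Nat.lt_succ_iff.1 (Finset.mem_range.1 hr)))

theorem chi_topf (ha : a ≠ 0) (hb : b ≠ 0) (hab : a.Coprime b) (f : MvPolynomial (Fin 2) F) :
    chi F (topf ![b, a] (g * (a * b)) f) = Polynomial.expand F a (Hf a b g f) := by
  rw [topf_eq ha hb hab, map_sum, Hf, map_sum]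
  refine Finset.sum_congr rfl fun r _ => ?_
  rw [chi_monomial, mu0, map_mul, Polynomial.expand_C, map_pow, Polynomial.expand_X, ← pow_mul]

theorem coeff_chi (ha : a ≠ 0) {W : ℕ} {Q : MvPolynomial (Fin 2) F}
    (hQ : ∀ μ ∈ Q.support, wt ![b, a] μ = W) {v : Fin 2 →₀ ℕ} (hv : wt ![b, a] v = W) :
    coeff v Q = (chi F Q).coeff (v 0) := by
  classical
  conv_rhs => rw [Q.as_sum]
  rw [map_sum, Polynomial.finsetSum_coeff]
  simp only [chi_monomial, Polynomial.coeff_C_mul, Polynomial.coeff_X_pow]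
  have huniq : ∀ μ ∈ Q.support, v 0 = μ 0 → μ = v := by
    intro μ hμ h
    have h1 := hQ μ hμ
    rw [wt2] at h1 hv
    ext i
    fin_cases i
    · exact h.symm
    · change μ 1 = v 1
      have h2 : a * μ 1 = a * v 1 := by
        rw [← h] at h1
        omega
      exact Nat.eq_of_mul_eq_mul_left (Nat.pos_of_ne_zero ha) h2
  by_cases h : v ∈ Q.support
  · rw [Finset.sum_eq_single v]
    · rw [if_pos rfl, mul_one]
    · intro μ hμ hne
      rw [if_neg fun h2 => hne (huniq μ hμ h2), mul_zero]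
    · intro h2
      exact absurd h h2
  · rw [notMem_support_iff.1 h]
    symm
    refine Finset.sum_eq_zero fun μ hμ => ?_
    rw [if_neg, mul_zero]
    intro h2
    rw [huniq μ hμ h2] at hμ
    exact h hμ

theorem topf_pow_supp (ω : Fin 2 → ℕ) (M : ℕ) (f : MvPolynomial (Fin 2) F) (n : ℕ) :
    ∀ μ ∈ (topf ω M f ^ n).support, wt ω μ = n * M := by
  classical
  induction n with
  | zero =>
    intro μ hμ
    rw [pow_zero, mem_support_iff, coeff_one] at hμ
    split_ifs at hμ with h
    · rw [← h, wt_zero, Nat.zero_mul]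
    · exact absurd rfl hμ
  | succ n ih =>
    intro μ hμ
    rw [pow_succ, mem_support_iff, coeff_mul] at hμ
    obtain ⟨x, hx, hx0⟩ := Finset.exists_ne_zero_of_sum_ne_zero hμ
    rw [Finset.HasAntidiagonal.mem_antidiagonal] at hx
    have h1 := ih x.1 (mem_support_iff.2 (left_ne_zero_of_mul hx0))
    have h2 : wt ω x.2 = M := by
      have h3 := right_ne_zero_of_mul hx0
      rw [coeff_topf] at h3
      by_contra h4
      rw [if_neg h4] at h3
      exact h3 rfl
    rw [← hx, wt_add, h1, h2]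
    ring

/-- coefficients of maximal weight of powers -/
theorem coeff_pow_H (ha : a ≠ 0) (hb : b ≠ 0) (hab : a.Coprime b) {f : MvPolynomial (Fin 2) F}
    (hf : ∀ μ ∈ f.support, wt ![b, a] μ ≤ g * (a * b)) {n : ℕ} {v : Fin 2 →₀ ℕ}
    (hv : wt ![b, a] v = n * (g * (a * b))) :
    coeff v (f ^ n) = (Polynomial.expand F a (Hf a b g f ^ n)).coeff (v 0) := by
  rw [(coeff_pow_top hf n).2 v hv, coeff_chi ha (topf_pow_supp _ _ f n) hv, map_pow,
    chi_topf ha hb hab, map_pow]

end gen

end TV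

end Pool.Agent.N867.AS
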