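import Mathlib

/-!
# Extension of valuations and sums with distinct values
-/

set_option autoImplicit false

namespace Pool.Agent.N867.AS

namespace Val

theorem exists_ext {F Ω Γ₀ : Type*} [Field F] [Field Ω] [Algebra F Ω]
    [LinearOrderedCommGroupWithZero Γ₀] (v : Valuation F Γ₀) :
    ∃ V : ValuationSubring Ω, ∀ x : F, (V.valuation (algebraMap F Ω x) ≤ 1 ↔ v x ≤ 1) ∧
      (V.valuation (algebraMap F Ω x) < 1 ↔ v x < 1) := by
  obtain ⟨V, hV, hloc⟩ := IsLocalRing.exists_factor_valuationRing (R := v.valuationSubring)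
    ((algebraMap F Ω).comp (ValuationSubring.subtype v.valuationSubring))
  have h1 : ∀ x : F, v x ≤ 1 → V.valuation (algebraMap F Ω x) ≤ 1 := by
    intro x hx
    rw [V.valuation_le_one_iff]
    exact hV ⟨x, hx⟩
  have h2 : ∀ x : F, v x < 1 → V.valuation (algebraMap F Ω x) < 1 := by
    intro x hx
    refine lt_of_le_of_ne (h1 x hx.le) fun h => ?_
    have hx0 : x ≠ 0 := by
      rintro rfl
      rw [map_zero, map_zero] at h
      exact zero_ne_one h
    have hinv : V.valuation (algebraMap F Ω x)⁻¹ ≤ 1 := by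
      rw [map_inv₀, h, inv_one]
    have hunit : IsUnit (((algebraMap F Ω).comp (ValuationSubring.subtype
        v.valuationSubring)).codRestrict V.toSubring hV ⟨x, hx.le⟩) := by
      refine IsUnit.of_mul_eq_one ⟨(algebraMap F Ω x)⁻¹, (V.valuation_le_one_iff _).1 hinv⟩ ?_
      ext
      change algebraMap F Ω x * (algebraMap F Ω x)⁻¹ = 1
      exact mul_inv_cancel₀ (by simpa using hx0)
    have h3 := hloc.map_nonunit _ hunit
    obtain ⟨u, hu⟩ := h3
    have h4 : v x * v ((u⁻¹ : (v.valuationSubring)ˣ) : v.valuationSubring) = 1 := by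
      rw [← map_mul]
      have h5 : x * (((u⁻¹ : (v.valuationSubring)ˣ) : v.valuationSubring) : F) = 1 := by
        have h6 := congrArg (Subtype.val : v.valuationSubring → F) (Units.mul_inv u)
        rw [hu] at h6
        exact h6
      rw [h5, map_one]
    have h5 : v ((u⁻¹ : (v.valuationSubring)ˣ) : v.valuationSubring) ≤ 1 :=
      ((u⁻¹ : (v.valuationSubring)ˣ) : v.valuationSubring).2
    have h6 : v x * v ((u⁻¹ : (v.valuationSubring)ˣ) : v.valuationSubring) < 1 :=
      mul_lt_one_of_lt_of_le hx h5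
    exact h6.ne h4
  refine ⟨V, fun x => ?_⟩
  have h3 : 1 < v x → 1 < V.valuation (algebraMap F Ω x) := by
    intro hx
    have hx0 : v x ≠ 0 := (lt_trans zero_lt_one hx).ne'
    have h4 : v x⁻¹ < 1 := by
      rw [map_inv₀]
      exact inv_lt_one_of_one_lt₀ hx
    have h5 := h2 _ h4
    rw [map_inv₀, map_inv₀] at h5
    by_contra h6
    push Not at h6
    have h7 : V.valuation (algebraMap F Ω x) ≠ 0 := by
      rw [Valuation.ne_zero_iff]
      intro h8
      rw [map_eq_zero] at h8
      rw [h8, map_zero] at hx0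
      exact hx0 rfl
    have h8 : 1 ≤ (V.valuation (algebraMap F Ω x))⁻¹ := (one_le_inv₀ (zero_lt_iff.2 h7)).2 h6
    exact absurd h5 (not_lt.2 h8)
  have h4 : v x = 1 → V.valuation (algebraMap F Ω x) = 1 := by
    intro hx
    refine le_antisymm (h1 x hx.le) ?_
    have h5 := h1 x⁻¹ (by rw [map_inv₀, hx, inv_one])
    rw [map_inv₀, map_inv₀] at h5
    have hx0 : x ≠ 0 := by
      rintro rfl
      rw [map_zero] at hx
      exact zero_ne_one hx
    have h7 : V.valuation (algebraMap F Ω x) ≠ 0 := by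
      rw [Valuation.ne_zero_iff]
      simpa using hx0
    exact (inv_le_one₀ (zero_lt_iff.2 h7)).1 h5
  constructor
  · refine ⟨fun h => ?_, h1 x⟩
    by_contra h5
    push Not at h5
    exact absurd (h3 h5) (not_lt.2 h)
  · refine ⟨fun h => ?_, h2 x⟩
    by_contra h5
    push Not at h5
    rcases h5.eq_or_lt with h6 | h6
    · exact absurd (h4 h6.symm) h.ne
    · exact absurd (h3 h6) (not_lt.2 h.le)

/-- comparison of values -/
theorem le_iff {F Ω Γ₀ : Type*} [Field F] [Field Ω] [Algebra F Ω]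
    [LinearOrderedCommGroupWithZero Γ₀] {v : Valuation F Γ₀} {V : ValuationSubring Ω}
    (h : ∀ x : F, (V.valuation (algebraMap F Ω x) ≤ 1 ↔ v x ≤ 1) ∧
      (V.valuation (algebraMap F Ω x) < 1 ↔ v x < 1)) (x y : F) :
    V.valuation (algebraMap F Ω x) ≤ V.valuation (algebraMap F Ω y) ↔ v x ≤ v y := by
  by_cases hy : y = 0
  · rw [hy, map_zero, map_zero, map_zero, le_zero_iff, le_zero_iff, Valuation.zero_iff,
      Valuation.zero_iff, map_eq_zero]
  · have hvy : 0 < v y := zero_lt_iff.2 ((Valuation.ne_zero_iff v).2 hy)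
    have hwy : 0 < V.valuation (algebraMap F Ω y) := zero_lt_iff.2
      ((Valuation.ne_zero_iff _).2 (by simpa using hy))
    have h1 := (h (x / y)).1
    rw [map_div₀, map_div₀, map_div₀, div_le_one₀ hwy, div_le_one₀ hvy] at h1
    exact h1

/-- each term of a sum with pairwise distinct values is bounded by the sum -/
theorem le_sum {R Γ₀ ι : Type*} [Ring R] [LinearOrderedCommGroupWithZero Γ₀] (w : Valuation R Γ₀)
    (s : Finset ι) (a : ι → R)
    (h : ∀ i ∈ s, ∀ j ∈ s, i ≠ j → w (a i) ≠ 0 → w (a j) ≠ 0 → w (a i) ≠ w (a j)) :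
    ∀ i ∈ s, w (a i) ≤ w (∑ j ∈ s, a j) := by
  classical
  intro i hi
  obtain ⟨m, hm, hmax⟩ := Finset.exists_max_image s (fun j => w (a j)) ⟨i, hi⟩
  refine (hmax i hi).trans ?_
  by_cases h0 : w (a m) = 0
  · rw [h0]
    exact zero_le
  have hlt : ∀ j ∈ s.erase m, w (a j) < w (a m) := by
    intro j hj
    rw [Finset.mem_erase] at hj
    refine lt_of_le_of_ne (hmax j hj.2) fun h2 => ?_
    exact h j hj.2 m hm hj.1 (by rw [h2]; exact h0) h0 h2
  rw [← Finset.add_sum_erase s a hm]
  have h3 : w (∑ j ∈ s.erase m, a j) < w (a m) := w.map_sum_lt h0 hlt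
  rw [w.map_add_eq_of_lt_left h3]

end Val

end Pool.Agent.N867.AS
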