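import Pool.Agent.N867.AS.W1

/-!
# Reduction of the main Dwork determinant with the norm of the leading coefficient
-/

set_option autoImplicit false
set_option linter.unusedSectionVars false

namespace Pool.Agent.N867.AS

namespace GW

open MvPolynomial Res Tr Bd RedS

variable {σ : Type} [Fintype σ] [DecidableEq σ]

variable {p : ℕ} [hp : Fact p.Prime] {ω : σ → ℕ} {f : MvPolynomial σ (k p)} {M s : ℕ}

theorem red_univG2 (hf : WF f ω M) (D : Lifts p f s) (hs : s ≠ 0) [NeZero s] [Nonempty σ]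
    {τ γ : PadicAlgCl p} (hτ : τ ≠ 0) (hτ1 : ‖τ‖ < 1) (hτγ : τ ^ M = γ)
    (hpγ : ‖(p : PadicAlgCl p)‖ = ‖γ‖ ^ (p - 1))
    (heta : red p (γ ^ (p - 1) / (p : PadicAlgCl p)) = -1) {N : ℕ} (hN : p ≤ N)
    (hMp : M ∣ p - 1) (hord : ∀ w, w < M → Ord f ω M w) {ιM : Type} [Fintype ιM]
    [DecidableEq ιM] (E : ιM ≃ SW ω M) {B : ℕ} (hB : M ≤ B) :
    ∃ (c : PadicAlgCl p) (w : k p), w ≠ 0 ∧
      ‖c‖ = (‖τ‖⁻¹) ^ ((p - 1) * ∑ x ∈ Finset.univ.filter
        (fun x : (Fin (p - 1) × ZMod s) × Idx (Finset.univ : Finset σ) B => Wx ω x < M),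
          (M - Wx ω x)) ∧ Red (((((p : PadicAlgCl p)⁻¹) •
        Cmat p (Gf D N γ) (rho p s) Finset.univ B).charpolyRev : Polynomial (PadicAlgCl p)) :
        PowerSeries (PadicAlgCl p)) c
      (PowerSeries.C w * PowerSeries.X ^ (Finset.univ.filter
        (fun x : (Fin (p - 1) × ZMod s) × Idx (Finset.univ : Finset σ) B => Wx ω x < M)).card *
        ((DM f s (fun i => (E i).1) : Polynomial (k p)) : PowerSeries (k p))) := by
  classical
  have hp2 := hp.1.two_le
  have hpne : (p : PadicAlgCl p) ≠ 0 := Nat.cast_ne_zero.2 hp.1.ne_zero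
  have hpn0 : 0 < ‖(p : PadicAlgCl p)‖ := norm_pos_iff.2 hpne
  obtain ⟨r, hr⟩ : ∃ r : ℝ, r = ‖τ‖ := ⟨_, rfl⟩
  have hr0 : 0 < r := by rw [hr]; exact norm_pos_iff.2 hτ
  have hr1 : r < 1 := by rw [hr]; exact hτ1
  have hγ : ‖γ‖ = r ^ M := by rw [← hτγ, norm_pow, hr]
  have hpr : ‖(p : PadicAlgCl p)‖ = r ^ ((p - 1) * M) := by
    rw [hpγ, hγ, ← pow_mul, mul_comm]
  obtain ⟨A, hAdef⟩ : ∃ A, A = ((p : PadicAlgCl p)⁻¹) •
    Cmat p (Gf D N γ) (rho p s) Finset.univ B := ⟨_, rfl⟩
  obtain ⟨α, hα⟩ : ∃ α : (Fin (p - 1) × ZMod s) × Idx (Finset.univ : Finset σ) B →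
    PadicAlgCl p, ∀ x, α x = τ ^ Wx ω x := ⟨_, fun _ => rfl⟩
  obtain ⟨δ, hδ⟩ : ∃ δ : (Fin (p - 1) × ZMod s) × Idx (Finset.univ : Finset σ) B →
    PadicAlgCl p, ∀ y, δ y = τ ^ ((p - 1) * Wx ω y) * (p : PadicAlgCl p)⁻¹ := ⟨_, fun _ => rfl⟩
  have hαn : ∀ x, ‖α x‖ = r ^ Wx ω x := fun x => by rw [hα, norm_pow, hr]
  have hα0 : ∀ x, α x ≠ 0 := fun x => by rw [hα]; exact pow_ne_zero _ hτ
  have hδn : ∀ y, ‖δ y‖ = r ^ ((p - 1) * Wx ω y) * (r ^ ((p - 1) * M))⁻¹ := by
    intro y
    rw [hδ, norm_mul, norm_pow, ← hr, norm_inv, hpr]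
  have hδlt : ∀ x, 1 < ‖δ x‖ ↔ Wx ω x < M := by
    intro x
    rw [hδn, ← div_eq_mul_inv, one_lt_div (by positivity),
      pow_lt_pow_iff_right_of_lt_one₀ hr0 hr1]
    constructor
    · exact fun h => Nat.lt_of_mul_lt_mul_left h
    · exact fun h => Nat.mul_lt_mul_of_pos_left h (by omega)
  have hδgt : ∀ x, M < Wx ω x → ‖δ x‖ < 1 := by
    intro x hx
    rw [hδn, ← div_eq_mul_inv, div_lt_one (by positivity),
      pow_lt_pow_iff_right_of_lt_one₀ hr0 hr1]
    exact Nat.mul_lt_mul_of_pos_left hx (by omega)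
  have hA : ∀ x y, ‖α x * A x y‖ ≤ ‖α y * δ y‖ := by
    intro x y
    have h1 := entry_scaled D hf hs hr0 hr1.le hγ (N := N) Finset.univ B
      ((p : PadicAlgCl p)⁻¹) x y
    rw [norm_mul, norm_mul, hαn, hαn, hδ, norm_mul, norm_pow, ← hr, hAdef]
    exact h1
  have hred := red_det A α δ hα0 hA
  -- the entries
  have hαA : ∀ x y, α x * A x y / (α y * δ y) = τ ^ Wx ω x *
      Cmat p (Gf D N γ) (rho p s) Finset.univ B x y / τ ^ (p * Wx ω y) := by
    intro x y
    have h1 : τ ^ (p * Wx ω y) = τ ^ Wx ω y * τ ^ ((p - 1) * Wx ω y) := by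
      rw [← pow_add, wadd hp.1.ne_zero]
    rw [hα, hα, hδ, hAdef, Matrix.smul_apply, smul_eq_mul, h1]
    have := pow_ne_zero (Wx ω y) hτ
    have := pow_ne_zero ((p - 1) * Wx ω y) hτ
    field_simp
  have hub_lt : ∀ x y, Wx ω y < M → red p (α x * A x y / (α y * sc δ y)) =
      cb p f ω M N s B x y := by
    intro x y hy
    have h1 : sc δ y = δ y := by
      unfold sc
      rw [if_pos ((hδlt y).2 hy)]
    rw [h1, hαA]
    exact (ub_eq hf D hs hτ hτ1 hτγ (by omega) x y).2
  have hub_eq : ∀ x y, Wx ω y = M → red p (α x * A x y / (α y * sc δ y)) =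
      - cb p f ω M N s B x y := by
    intro x y hy
    have h1 : sc δ y = 1 := by
      unfold sc
      rw [if_neg]
      rw [hδlt, hy]
      exact lt_irrefl _
    have h2 : α x * A x y / (α y * sc δ y) = (α x * A x y / (α y * δ y)) *
        (γ ^ (p - 1) / (p : PadicAlgCl p)) := by
      have h3 : δ y = γ ^ (p - 1) / (p : PadicAlgCl p) := by
        rw [hδ, hy, ← hτγ, ← pow_mul, mul_comm M, div_eq_mul_inv]
      have h4 : γ ^ (p - 1) / (p : PadicAlgCl p) ≠ 0 := by
        rw [← hτγ]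
        exact div_ne_zero (pow_ne_zero _ (pow_ne_zero _ hτ)) hpne
      rw [h1, h3, mul_one]
      have := hα0 y
      rw [div_mul_eq_mul_div, div_eq_div_iff (hα0 y) (mul_ne_zero (hα0 y) h4)]
      ring
    have h5 := ub_eq hf D hs hτ hτ1 hτγ (N := N) (by omega) x y
    have h6 : ‖γ ^ (p - 1) / (p : PadicAlgCl p)‖ ≤ 1 := by
      rw [norm_div, norm_pow, hpγ, div_self]
      have : 0 < ‖γ‖ := by rw [hγ]; positivity
      positivity
    rw [h2, hαA, red_mul h5.1 h6, h5.2, heta]
    ring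
  -- the blocks
  have hbig : ∀ x y, M < Wx ω y → Bbar A α δ x y = if x = y then 1 else 0 := by
    intro x y hy
    have h1 : ‖δ y‖ < 1 := hδgt y hy
    have h2 : sc δ y = 1 := by
      unfold sc
      rw [if_neg (not_lt.2 h1.le)]
    rw [Bbar, Matrix.of_apply, h2, mul_one]
    have h3 : ‖α x * A x y / α y‖ < 1 := by
      rw [norm_div, div_lt_one (norm_pos_iff.2 (hα0 y))]
      refine lt_of_le_of_lt (hA x y) ?_
      rw [norm_mul]
      exact mul_lt_of_lt_one_right (norm_pos_iff.2 (hα0 y)) h1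
    rw [(red_eq_zero h3.le).2 h3, Polynomial.C_0, mul_zero, sub_zero]
    by_cases h4 : x = y
    · rw [if_pos ⟨h4, not_lt.2 h1.le⟩, if_pos h4, Polynomial.C_1]
    · rw [if_neg (fun h => h4 h.1), if_neg h4, Polynomial.C_0]
  have hlt : ∀ x y, Wx ω y < M → Bbar A α δ x y =
      - Polynomial.X * Polynomial.C (cb p f ω M N s B x y) := by
    intro x y hy
    have h1 : 1 < ‖δ y‖ := (hδlt y).2 hy
    rw [Bbar, Matrix.of_apply, if_neg (fun h => h.2 h1), Polynomial.C_0, zero_sub,
      hub_lt x y hy, neg_mul]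
  have heq : ∀ x y, Wx ω y = M → Bbar A α δ x y = (if x = y then 1 else 0) +
      Polynomial.X * Polynomial.C (cb p f ω M N s B x y) := by
    intro x y hy
    have h1 : ¬ 1 < ‖δ y‖ := by
      rw [hδlt, hy]
      exact lt_irrefl _
    rw [Bbar, Matrix.of_apply, hub_eq x y hy, map_neg, mul_neg, sub_neg_eq_add]
    congr 1
    by_cases h4 : x = y
    · rw [if_pos ⟨h4, h1⟩, if_pos h4, Polynomial.C_1]
    · rw [if_neg (fun h => h4 h.1), if_neg h4, Polynomial.C_0]
  have hdet := det_blocks (Wx ω) M (Bbar A α δ) hbig (by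
    intro x y hx hy hne
    have h0 := cb_off hf hMp (N := N) hx hy hne
    rcases hy.lt_or_eq with hy' | hy'
    · rw [hlt x y hy', h0, map_zero, mul_zero]
    · rw [heq x y hy', h0, map_zero, mul_zero, add_zero, if_neg]
      intro h
      rw [h] at hne
      exact hne rfl)
  rw [Finset.prod_range_succ] at hdet
  -- blocks of weight `< M`
  obtain ⟨d, hd⟩ : ∃ d : ℕ → k p, ∀ w, d w = ((Matrix.of (cb p f ω M N s B)).submatrix
      (Subtype.val : {x : (Fin (p - 1) × ZMod s) × Idx (Finset.univ : Finset σ) B //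
        Wx ω x = w} → _) Subtype.val).det := ⟨_, fun _ => rfl⟩
  have hblk : ∀ w ∈ Finset.range M, ((Bbar A α δ).submatrix
      (Subtype.val : {x : (Fin (p - 1) × ZMod s) × Idx (Finset.univ : Finset σ) B //
        Wx ω x = w} → _) Subtype.val).det = (-Polynomial.X) ^ (Fintype.card
        {x : (Fin (p - 1) × ZMod s) × Idx (Finset.univ : Finset σ) B // Wx ω x = w}) *
        Polynomial.C (d w) := by
    intro w hw
    have hw' := Finset.mem_range.1 hw
    rw [hd, RingHom.map_det, ← Matrix.det_smul]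
    congr 1
    ext1 x y
    rw [Matrix.submatrix_apply, hlt _ _ (by rw [y.2]; exact hw'), Matrix.smul_apply,
      RingHom.mapMatrix_apply, Matrix.map_apply, Matrix.submatrix_apply, Matrix.of_apply,
      smul_eq_mul]
  rw [Finset.prod_congr rfl hblk, Finset.prod_mul_distrib, Finset.prod_pow_eq_pow_sum] at hdet
  have hcard : ∑ w ∈ Finset.range M, Fintype.card
        {x : (Fin (p - 1) × ZMod s) × Idx (Finset.univ : Finset σ) B // Wx ω x = w} =
      (Finset.univ.filter (fun x : (Fin (p - 1) × ZMod s) × Idx (Finset.univ : Finset σ) B =>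
        Wx ω x < M)).card := by
    rw [Finset.card_eq_sum_card_fiberwise (f := fun x => Wx ω x) (t := Finset.range M)]
    · refine Finset.sum_congr rfl fun w hw => ?_
      rw [Fintype.card_subtype]
      congr 1
      ext x
      have hw' := Finset.mem_range.1 hw
      simp only [Finset.mem_filter, Finset.mem_univ, true_and]
      constructor
      · intro h
        exact ⟨by omega, h⟩
      · exact fun h => h.2
    · intro x hx
      rw [Finset.mem_coe, Finset.mem_filter] at hx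
      rw [Finset.mem_coe, Finset.mem_range]
      exact hx.2
  rw [hcard] at hdet
  -- the block of weight `M`
  obtain ⟨e, he⟩ := exists_equiv (Γ := Fin (p - 1) × ZMod s) hf.hω hB E
  have hMblk : ((Bbar A α δ).submatrix
      (Subtype.val : {x : (Fin (p - 1) × ZMod s) × Idx (Finset.univ : Finset σ) B //
        Wx ω x = M} → _) Subtype.val).det = DM f s (fun i => (E i).1) := by
    rw [← Matrix.det_submatrix_equiv_self e, DM]
    congr 1
    ext1 z z'
    rw [Matrix.submatrix_apply, Matrix.submatrix_apply, Matrix.of_apply, heq _ _ (e z').2]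
    have h2 := cb_diag hf hMp hN (B := B) le_rfl (e z).2 (e z').2 (s := s)
    have hdiv : (p - 1) * M / M = p - 1 := Nat.mul_div_cancel _ (Nat.pos_of_ne_zero hf.hM)
    rw [hdiv, (he z).1, (he z').1, (he z).2, (he z').2] at h2
    have hwil : (((p - 1).factorial : ℕ) : k p) = -1 := by
      have h3 := ZMod.wilsons_lemma p
      have h4 := congrArg (ZMod.castHom (dvd_refl p) (k p)) h3
      rw [map_natCast, map_neg, map_one] at h4
      exact h4
    have hfer : (((z.1.1 : ℕ) + 1 : ℕ) : k p) ^ (p - 1) = 1 := by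
      have h3 : (((z.1.1 : ℕ) + 1 : ℕ) : k p) ^ p = (((z.1.1 : ℕ) + 1 : ℕ) : k p) :=
        map_natCast (frobenius (k p) p) _
      have h4 : (((z.1.1 : ℕ) + 1 : ℕ) : k p) ≠ 0 := by
        intro h0
        rw [CharP.cast_eq_zero_iff (k p) p] at h0
        have h5 := Nat.le_of_dvd (Nat.succ_pos _) h0
        have := z.1.1.2
        omega
      refine mul_right_cancel₀ h4 ?_
      rw [← pow_succ, Nat.sub_add_cancel hp.1.one_le, h3, one_mul]
    rw [hwil, hfer, one_mul] at h2
    have h6 : (if e z = e z' then (1 : Polynomial (k p)) else 0) = if z = z' then 1 else 0 := by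
      simp only [e.injective.eq_iff]
    have h7 : (if (e z).1 = (e z').1 then (1 : Polynomial (k p)) else 0) =
        if z = z' then 1 else 0 := by
      rw [← h6]
      simp only [Subtype.ext_iff]
    rw [h7]
    have h8 : cb p f ω M N s B (e z).1 (e z').1 = - (if z'.1 = rho p s z.1 then
        NN f z.1.2.val (p - 1) (E z.2).1 (E z'.2).1 else 0) := by
      linear_combination -h2
    rw [h8]
    split_ifs
    · rw [map_neg]
      ring
    · rw [neg_zero, map_zero, mul_zero, add_zero, sub_zero]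
    · rw [map_neg]
      ring
    · rw [neg_zero, map_zero, mul_zero, add_zero, sub_zero]
  rw [hMblk] at hdet
  rw [hAdef] at hred
  obtain ⟨K, hK⟩ : ∃ K, K = (Finset.univ.filter (fun x : (Fin (p - 1) × ZMod s) ×
    Idx (Finset.univ : Finset σ) B => Wx ω x < M)).card := ⟨_, rfl⟩
  rw [← hK] at hdet ⊢
  obtain ⟨w, hw⟩ : ∃ w : k p, w = (-1) ^ K * ∏ w ∈ Finset.range M, d w := ⟨_, rfl⟩
  refine ⟨∏ y, sc δ y, w, ?_, ?_, ?_⟩
  · rw [hw]
    refine mul_ne_zero (pow_ne_zero _ (neg_ne_zero.2 one_ne_zero))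
      (Finset.prod_ne_zero_iff.2 fun w hw => ?_)
    have hw' := Finset.mem_range.1 hw
    rw [hd]
    exact cb_det hf hMp hN hw'.le (by omega) (hord w hw')
  · rw [norm_prod, ← hr, Finset.mul_sum, ← Finset.prod_pow_eq_pow_sum,
      Finset.prod_filter (fun x : (Fin (p - 1) × ZMod s) × Idx (Finset.univ : Finset σ) B =>
        Wx ω x < M)]
    refine Finset.prod_congr rfl fun y _ => ?_
    by_cases hy : Wx ω y < M
    · rw [if_pos hy]
      unfold sc
      rw [if_pos ((hδlt y).2 hy), hδn]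
      obtain ⟨d, hd'⟩ : ∃ d, M = Wx ω y + d := ⟨M - Wx ω y, by omega⟩
      have h1 : M - Wx ω y = d := by omega
      rw [h1]
      have h2 : r ^ ((p - 1) * M) = r ^ ((p - 1) * Wx ω y) * r ^ ((p - 1) * d) := by
        rw [← pow_add, ← mul_add, ← hd']
      rw [h2, inv_pow]
      have h3 : r ^ ((p - 1) * Wx ω y) ≠ 0 := (pow_pos hr0 _).ne'
      have h4 : r ^ ((p - 1) * d) ≠ 0 := (pow_pos hr0 _).ne'
      field_simp
    · rw [if_neg hy]
      unfold sc
      rw [if_neg (fun h => hy ((hδlt y).1 h)), norm_one]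
  · have h1 : (PowerSeries.C w * PowerSeries.X ^ K *
        ((DM f s (fun i => (E i).1) : Polynomial (k p)) : PowerSeries (k p))) =
        (((Bbar A α δ).det : Polynomial (k p)) : PowerSeries (k p)) := by
      have h2 : (Bbar A α δ).det = Polynomial.C w * Polynomial.X ^ K *
          DM f s (fun i => (E i).1) := by
        rw [hdet, hw, neg_pow, map_mul, map_pow, map_neg, map_one, map_prod]
        ring
      rw [h2, Polynomial.coe_mul, Polynomial.coe_mul, Polynomial.coe_C, Polynomial.coe_pow,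
        Polynomial.coe_X]
    rw [h1, hAdef]
    exact hred

end GW

end Pool.Agent.N867.AS
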