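import Pool.Agent.N867.AS.W3

/-!
# The exact count
-/

set_option autoImplicit false
set_option linter.unusedSectionVars false

namespace Pool.Agent.N867.AS

namespace VD

open Polynomial

variable {F : Type} [Field F] {p : ℕ} [hp : Fact p.Prime]

theorem mult_multiset2 [DecidableEq F] {s : ℕ} (hs : s ≠ 0) (L : Multiset F) :
    rootMultiplicity (1 : F) (L.map fun l => (1 - C l * X ^ s : F[X])).prod =
    L.count 1 * rootMultiplicity (1 : F) (1 - X ^ s) := by
  induction L using Multiset.induction_on with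
  | empty => simp [rootMultiplicity_eq_zero]
  | cons l L ih =>
    have h0 : (L.map fun l => (1 - C l * X ^ s : F[X])).prod ≠ 0 := by
      refine Multiset.prod_ne_zero fun h => ?_
      rw [Multiset.mem_map] at h
      obtain ⟨l, _, hl⟩ := h
      exact one_sub_ne hs l hl
    rw [Multiset.map_cons, Multiset.prod_cons, rootMultiplicity_mul (mul_ne_zero
      (one_sub_ne hs l) h0), Multiset.count_cons, ih]
    split_ifs with h
    · rw [← h, C_1, one_mul, add_mul, one_mul, add_comm]
    · rw [add_zero, rootMultiplicity_eq_zero, zero_add]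
      rw [IsRoot, eval_sub, eval_one, eval_mul, eval_C, eval_pow, eval_X, one_pow, mul_one,
        sub_eq_zero]
      exact h

/-- the exact count -/
theorem final_count2 [CharP F p] [DecidableEq F] {Γ : Type} [Fintype Γ] {s : ℕ} (hs : s ≠ 0)
    (e : Γ → ℕ) (he : ∀ c, e c ≠ 0) (n : ∀ c, Fin (e c) → ℕ)
    (hn : ∀ c i, ¬ p ∣ n c i) (D : Γ → F[X]) (hD : ∀ c, D c * (1 - X ^ s) ^ (p - 1) =
      (∏ i, (1 - X ^ (s * n c i))) ^ (p - 1)) (L : Multiset F) {w w' : F} (hw : w ≠ 0)
    (hw' : w' ≠ 0) (a b : ℕ) (h : C w' * X ^ b * ∏ c, D c = C w * (X ^ a *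
      (L.map fun l => (1 - C l * X ^ s : F[X])).prod)) :
    L.count 1 = (p - 1) * ∑ c, (e c - 1) := by
  classical
  obtain ⟨m, hm⟩ : ∃ m, m = rootMultiplicity (1 : F) (1 - X ^ s) := ⟨_, rfl⟩
  have hmpos : 0 < m := by rw [hm]; exact mult_pos hs
  have hXs : (1 - X ^ s : F[X]) ≠ 0 := by
    have := one_sub_ne hs (1 : F)
    rwa [C_1, one_mul] at this
  have hXn : ∀ c i, (1 - X ^ (s * n c i) : F[X]) ≠ 0 := by
    intro c i
    have h1 : s * n c i ≠ 0 := mul_ne_zero hs fun h0 => hn c i (by rw [h0]; exact dvd_zero p)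
    have := one_sub_ne h1 (1 : F)
    rwa [C_1, one_mul] at this
  have hprod0 : ∀ c, (∏ i, (1 - X ^ (s * n c i)) : F[X]) ≠ 0 :=
    fun c => Finset.prod_ne_zero_iff.2 fun i _ => hXn c i
  have hD0 : ∀ c, D c ≠ 0 := by
    intro c h0
    have h1 := hD c
    rw [h0, zero_mul] at h1
    exact pow_ne_zero _ (hprod0 c) h1.symm
  have hL0 : (L.map fun l => (1 - C l * X ^ s : F[X])).prod ≠ 0 := by
    refine Multiset.prod_ne_zero fun h => ?_
    rw [Multiset.mem_map] at h
    obtain ⟨l, _, hl⟩ := h
    exact one_sub_ne hs l hl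
  have hX : ∀ a : ℕ, rootMultiplicity (1 : F) (X ^ a : F[X]) = 0 := by
    intro a
    refine rootMultiplicity_eq_zero ?_
    rw [IsRoot, eval_pow, eval_X, one_pow]
    exact one_ne_zero
  have hC : ∀ c : F, rootMultiplicity (1 : F) (C c) = 0 := fun c => rootMultiplicity_C _ _
  have hDprod : (∏ c, D c : F[X]) ≠ 0 := Finset.prod_ne_zero_iff.2 fun c _ => hD0 c
  have h1 := congrArg (rootMultiplicity (1 : F)) h
  rw [rootMultiplicity_mul (mul_ne_zero (mul_ne_zero (C_ne_zero.2 hw') (pow_ne_zero _ X_ne_zero))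
    hDprod), rootMultiplicity_mul (mul_ne_zero (C_ne_zero.2 hw') (pow_ne_zero _ X_ne_zero)),
    rootMultiplicity_mul (mul_ne_zero (C_ne_zero.2 hw) (mul_ne_zero (pow_ne_zero _ X_ne_zero)
    hL0)), rootMultiplicity_mul (mul_ne_zero (pow_ne_zero _ X_ne_zero) hL0), hX, hX, hC, hC,
    zero_add, zero_add, zero_add, zero_add, mult_multiset2 hs, ← hm] at h1
  have h3 : ∀ c, rootMultiplicity (1 : F) (D c) = (p - 1) * (e c - 1) * m := by
    intro c
    have h2 := congrArg (rootMultiplicity (1 : F)) (hD c)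
    rw [rootMultiplicity_mul (mul_ne_zero (hD0 c) (pow_ne_zero _ hXs)), mult_pow hXs,
      mult_pow (hprod0 c)] at h2
    have h3 : rootMultiplicity (1 : F) (∏ i, (1 - X ^ (s * n c i)) : F[X]) = e c * m := by
      have h4 : ∀ S : Finset (Fin (e c)), rootMultiplicity (1 : F)
          (∏ i ∈ S, (1 - X ^ (s * n c i)) : F[X]) = S.card * m := by
        intro S
        induction S using Finset.induction_on with
        | empty => simp [rootMultiplicity_eq_zero]
        | insert i S hi ih =>
          rw [Finset.prod_insert hi, rootMultiplicity_mul (mul_ne_zero (hXn c i)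
            (Finset.prod_ne_zero_iff.2 fun i _ => hXn c i)), ih, mult_one_sub hs (hn c i), ← hm,
            Finset.card_insert_of_notMem hi]
          ring
      rw [h4, Finset.card_univ, Fintype.card_fin]
    rw [h3, ← hm] at h2
    obtain ⟨e', he'⟩ : ∃ e', e c = e' + 1 := ⟨e c - 1, by have := he c; omega⟩
    rw [he'] at h2 ⊢
    rw [Nat.add_sub_cancel]
    have h5 : (p - 1) * ((e' + 1) * m) = (p - 1) * e' * m + (p - 1) * m := by ring
    rw [h5] at h2
    exact Nat.add_right_cancel h2
  have h4 : rootMultiplicity (1 : F) (∏ c, D c) = (p - 1) * (∑ c, (e c - 1)) * m := by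
    have h5 : ∀ S : Finset Γ, rootMultiplicity (1 : F) (∏ c ∈ S, D c) =
        (p - 1) * (∑ c ∈ S, (e c - 1)) * m := by
      intro S
      induction S using Finset.induction_on with
      | empty => simp [rootMultiplicity_eq_zero]
      | insert c S hc ih =>
        rw [Finset.prod_insert hc, rootMultiplicity_mul (mul_ne_zero (hD0 c)
          (Finset.prod_ne_zero_iff.2 fun i _ => hD0 i)), ih, h3, Finset.sum_insert hc]
        ring
    exact h5 _
  rw [h4] at h1
  exact (Nat.eq_of_mul_eq_mul_right hmpos h1).symm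

end VD

end Pool.Agent.N867.AS
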