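import Pool.Agent.N867.AS.W4

/-!
# From residues to the order and the leading coefficient
-/

set_option autoImplicit false
set_option linter.unusedSectionVars false

namespace Pool.Agent.N867.AS

namespace LC

open Polynomial Res RedS GW Bd

variable {p : ℕ} [hp : Fact p.Prime]

theorem norm_rat {x : ℚ} (hx : x ≠ 0) :
    ‖algebraMap ℚ (PadicAlgCl p) x‖ = (p : ℝ) ^ (-padicValRat p x) := by
  have h1 : algebraMap ℚ (PadicAlgCl p) x =
      algebraMap ℚ_[p] (PadicAlgCl p) (algebraMap ℚ ℚ_[p] x) := by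
    rw [← RingHom.comp_apply]
    congr 1
  rw [h1, PadicAlgCl.norm_extends]
  have h2 : (algebraMap ℚ ℚ_[p] x) = (x : ℚ_[p]) := rfl
  rw [h2, Padic.eq_padicNorm, padicNorm.eq_zpow_of_nonzero hx]
  push_cast
  rfl

theorem norm_multiset (S : Multiset (PadicAlgCl p)) : ‖S.prod‖ = (S.map fun l => ‖l‖).prod := by
  induction S using Multiset.induction_on with
  | empty => simp
  | cons l S ih => rw [Multiset.prod_cons, norm_mul, Multiset.map_cons, Multiset.prod_cons, ih]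

variable {s : ℕ}

/-- the roots of `(1 - q X)^r Q` -/
theorem roots_split [DecidableEq (PadicAlgCl p)] {Q : (PadicAlgCl p)[X]} (hQ0 : Q.coeff 0 = 1)
    (hQ : Q.eval (((p : PadicAlgCl p) ^ s)⁻¹) ≠ 0) (r : ℕ) {Λ : Multiset (PadicAlgCl p)}
    (hΛ : Λ = ((1 - C ((p : PadicAlgCl p) ^ s) * X) ^ r * Q).roots.map
      (fun ρ => ρ⁻¹ * ((p : PadicAlgCl p)⁻¹) ^ s)) :
    Λ.count 1 = r ∧ ‖Q.eval (((p : PadicAlgCl p) ^ s)⁻¹)‖ =
      ((Λ.filter fun l => l ≠ 1).map fun l => ‖1 - l‖).prod := by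
  have hpne : (p : PadicAlgCl p) ≠ 0 := Nat.cast_ne_zero.2 hp.1.ne_zero
  obtain ⟨q, hq⟩ : ∃ q : PadicAlgCl p, q = (p : PadicAlgCl p) ^ s := ⟨_, rfl⟩
  have hq0 : q ≠ 0 := by rw [hq]; exact pow_ne_zero _ hpne
  have hpinv : ((p : PadicAlgCl p)⁻¹) ^ s = q⁻¹ := by rw [inv_pow, hq]
  rw [hpinv, ← hq] at hΛ
  rw [← hq] at hQ ⊢
  have hQne : Q ≠ 0 := by
    rintro rfl
    rw [eval_zero] at hQ
    exact hQ rfl
  have h1 : (1 - C q * X : (PadicAlgCl p)[X]) = C (-q) * (X - C q⁻¹) := by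
    rw [mul_sub, ← C_mul, neg_mul, mul_inv_cancel₀ hq0, map_neg, map_neg, map_one]
    ring
  have hlin : (1 - C q * X : (PadicAlgCl p)[X]) ≠ 0 := by
    rw [h1]
    exact mul_ne_zero (C_ne_zero.2 (neg_ne_zero.2 hq0)) (X_sub_C_ne_zero _)
  have h2 : (1 - C q * X : (PadicAlgCl p)[X]).roots = {q⁻¹} := by
    rw [h1, roots_C_mul _ (neg_ne_zero.2 hq0), roots_X_sub_C]
  rw [roots_mul (mul_ne_zero (pow_ne_zero _ hlin) hQne), roots_pow, h2, Multiset.map_add,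
    Multiset.map_nsmul, Multiset.map_singleton, inv_inv, mul_inv_cancel₀ hq0] at hΛ
  have hne : ∀ l ∈ Q.roots.map (fun ρ => ρ⁻¹ * q⁻¹), l ≠ 1 := by
    intro l hl h
    rw [Multiset.mem_map] at hl
    obtain ⟨ρ, hρ, rfl⟩ := hl
    have h3 : ρ = q⁻¹ := by
      have h4 : ρ⁻¹ = q := by
        have := congrArg (fun x => x * q) h
        simpa [mul_assoc, hq0] using this
      rw [← h4, inv_inv]
    rw [h3] at hρ
    exact hQ (mem_roots'.1 hρ).2
  constructor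
  · rw [hΛ, Multiset.count_add, Multiset.count_nsmul, Multiset.count_singleton_self, mul_one,
      Multiset.count_eq_zero_of_notMem (fun h => hne 1 h rfl), add_zero]
  · have h3 : Λ.filter (fun l => l ≠ 1) = Q.roots.map (fun ρ => ρ⁻¹ * q⁻¹) := by
      rw [hΛ, Multiset.filter_add, Multiset.filter_eq_self.2 hne, Multiset.filter_eq_nil.2,
        zero_add]
      intro l hl
      have h4 := Multiset.mem_of_mem_nsmul hl
      rw [Multiset.mem_singleton] at h4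
      rw [h4]
      simp
    rw [h3]
    conv_lhs => rw [poly_eq_prod Q hQ0]
    rw [eval_multiset_prod, Multiset.map_map, norm_multiset, Multiset.map_map, Multiset.map_map]
    congr 1
    refine Multiset.map_congr rfl fun ρ _ => ?_
    simp

/-- the conclusion -/
theorem conclude (hs : s ≠ 0) {L M' : ℚ[X]} {r : ℕ} (hL0 : L.coeff 0 = 1)
    (hL : L = (1 - C ((p : ℚ) ^ s) * X) ^ r * M') (hM : M'.eval (1 / (p : ℚ) ^ s) ≠ 0)
    [DecidableEq ℝ] [DecidableEq (k p)] [DecidablePred fun l : PadicAlgCl p => 1 < ‖l‖]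
    {Λ : Multiset (PadicAlgCl p)}
    (hΛ : Λ = (L.map (algebraMap ℚ (PadicAlgCl p))).roots.map
      (fun ρ => ρ⁻¹ * ((p : PadicAlgCl p)⁻¹) ^ s)) {N R : ℕ}
    (hN : ((Λ.filter fun l => 1 < ‖l‖).map fun l => ‖l‖).prod =
        (‖(p : PadicAlgCl p)‖⁻¹) ^ N)
    (hR : ((Λ.filter fun l => ‖l‖ = 1).map (red p)).count 1 = R) :
    r ≤ R ∧ -(N : ℤ) ≤ padicValRat p (M'.eval (1 / (p : ℚ) ^ s)) ∧
      (padicValRat p (M'.eval (1 / (p : ℚ) ^ s)) = -(N : ℤ) ↔ r = R) := by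
  classical
  obtain ⟨c, hc⟩ : ∃ c : ℚ →+* PadicAlgCl p, c = algebraMap ℚ (PadicAlgCl p) := ⟨_, rfl⟩
  have hM0 : M'.coeff 0 = 1 := by
    have h1 := congrArg (fun F => eval 0 F) hL
    simp only [eval_mul, eval_pow, eval_sub, eval_one, eval_C, eval_X, mul_zero, sub_zero,
      one_pow, one_mul] at h1
    rw [coeff_zero_eq_eval_zero, ← h1, ← coeff_zero_eq_eval_zero]
    exact hL0
  have hmap : L.map (algebraMap ℚ (PadicAlgCl p)) =
      (1 - C ((p : PadicAlgCl p) ^ s) * X) ^ r * M'.map c := by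
    rw [hL, ← hc, Polynomial.map_mul, Polynomial.map_pow, Polynomial.map_sub, Polynomial.map_one,
      Polynomial.map_mul, Polynomial.map_C, Polynomial.map_X, map_pow, map_natCast]
  have heval : (M'.map c).eval (((p : PadicAlgCl p) ^ s)⁻¹) = c (M'.eval (1 / (p : ℚ) ^ s)) := by
    rw [eval_map, ← Polynomial.eval₂_hom]
    congr 1
    rw [map_div₀, map_one, map_pow, map_natCast, one_div]
  rw [hmap] at hΛ
  obtain ⟨h1, h2⟩ := roots_split (p := p) (s := s) (Q := M'.map c) (by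
    rw [coeff_map, hM0, map_one]) (by
    rw [heval, Ne, map_eq_zero_iff _ c.injective]
    exact hM) r hΛ
  obtain ⟨B, hB1, hB2, hB3⟩ := norm_one_sub Λ
  rw [h1, hR] at hB3
  rw [← h2, heval, hc, norm_rat hM, hN] at hB1
  have hp1 : 1 < (p : ℝ) := by exact_mod_cast hp.1.one_lt
  have hp0 : 0 < (p : ℝ) := lt_trans one_pos hp1
  have hpN : (‖(p : PadicAlgCl p)‖⁻¹) ^ N = (p : ℝ) ^ (N : ℤ) := by
    rw [norm_p, inv_inv, zpow_natCast]
  rw [hpN] at hB1
  obtain ⟨v, hv⟩ : ∃ v, v = padicValRat p (M'.eval (1 / (p : ℚ) ^ s)) := ⟨_, rfl⟩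
  rw [← hv] at hB1 ⊢
  have hB : B = (p : ℝ) ^ (-v - N) := by
    rw [zpow_sub₀ hp0.ne', eq_div_iff (zpow_ne_zero _ hp0.ne'), mul_comm]
    exact hB1.symm
  rcases hB3 with ⟨h3, h4⟩ | ⟨h3, h4⟩
  · have h5 : -v - N = 0 := by
      have h6 : (p : ℝ) ^ (-v - N) = (p : ℝ) ^ (0 : ℤ) := by rw [← hB, h3, zpow_zero]
      exact zpow_right_injective₀ hp0 hp1.ne' h6
    exact ⟨h4.ge, by omega, ⟨fun _ => h4.symm, fun _ => by omega⟩⟩
  · have h5 : -v - N < 0 := by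
      have h6 : (p : ℝ) ^ (-v - N) < (p : ℝ) ^ (0 : ℤ) := by rw [← hB, zpow_zero]; exact h3
      exact (zpow_lt_zpow_iff_right₀ hp1).1 h6
    exact ⟨h4.le, by omega, ⟨fun h => by omega, fun h => by omega⟩⟩

end LC

end Pool.Agent.N867.AS
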