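import Pool.Agent.N867.AS.W6

/-!
# Counting points on towers
-/

set_option autoImplicit false
set_option linter.unusedSectionVars false

namespace Pool.Agent.N867.AS

namespace Tow

open Polynomial

section pointwise

variable {p : ℕ} [hp : Fact p.Prime] {Ω : Type} [Field Ω] [CharP Ω p]

theorem exists_nat {z : Ω} (hz : z ^ p = z) : ∃ j : Fin p, z = ((j : ℕ) : Ω) := by
  have h1 := Core.prod_sub (R := Ω) hp.1 z
  rw [hz, sub_self, Finset.prod_eq_zero_iff] at h1
  obtain ⟨j, _, hj⟩ := h1
  exact ⟨j, sub_eq_zero.1 hj⟩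

theorem sum_one {α β : Ω} (hα : α ^ p = α) (hβ : β ^ p = β) [DecidableEq Ω] :
    ∑ c : Fin p, (1 - if β + ((c : ℕ) : Ω) * α = 0 then (p : ℚ) else 0) =
      (if α = 0 then (p : ℚ) else 0) * (1 - if β = 0 then (p : ℚ) else 0) := by
  by_cases h : α = 0
  · rw [if_pos h]
    simp only [h, mul_zero, add_zero]
    rw [Finset.sum_const, Finset.card_univ, Fintype.card_fin, nsmul_eq_mul]
  · rw [if_neg h, zero_mul, Finset.sum_sub_distrib, Finset.sum_const, Finset.card_univ,
      Fintype.card_fin, nsmul_eq_mul, mul_one, sub_eq_zero]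
    obtain ⟨j, hj⟩ := exists_nat (p := p) (z := -β / α) (by
      rw [div_pow, hα]
      congr 1
      rw [← zero_sub, sub_pow_char, hβ, zero_pow hp.1.ne_zero])
    rw [Finset.sum_eq_single j]
    · rw [if_pos]
      rw [← hj, div_mul_cancel₀ _ h, add_neg_cancel]
    · intro c _ hc
      rw [if_neg]
      intro h2
      have h3 : ((c : ℕ) : Ω) = ((j : ℕ) : Ω) := by
        rw [← hj, eq_div_iff h]
        linear_combination h2
      exact Core.sub_pow_ne (M := Ω) hp.1 hc (sub_eq_zero.2 h3)
    · intro h2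
      exact absurd (Finset.mem_univ j) h2

theorem sum_all [DecidableEq Ω] : ∀ (r : ℕ) (α : Fin r → Ω) (_ : ∀ i, α i ^ p = α i) (β : Ω)
    (_ : β ^ p = β),
    ∑ c : Fin r → Fin p, (1 - if β + ∑ i, ((c i : ℕ) : Ω) * α i = 0 then (p : ℚ) else 0) =
      (∏ i, if α i = 0 then (p : ℚ) else 0) * (1 - if β = 0 then (p : ℚ) else 0) := by
  intro r
  induction r with
  | zero =>
    intro α _ β _
    simp
  | succ r ih =>
    intro α hα β hβ
    rw [← Equiv.sum_comp (Fin.insertNthEquiv (fun _ => Fin p) 0), Fintype.sum_prod_type]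
    have h1 : ∀ c₀ : Fin p, ∑ c : Fin r → Fin p, (1 - if β + ∑ i,
        ((((Fin.insertNthEquiv (fun _ => Fin p) 0) (c₀, c) : Fin (r + 1) → Fin p) i : ℕ) : Ω) *
        α i = 0 then (p : ℚ) else 0) =
        (∏ i : Fin r, if α i.succ = 0 then (p : ℚ) else 0) *
          (1 - if β + ((c₀ : ℕ) : Ω) * α 0 = 0 then (p : ℚ) else 0) := by
      intro c₀
      rw [← ih (fun i => α i.succ) (fun i => hα _) (β + ((c₀ : ℕ) : Ω) * α 0) (by
        rw [add_pow_char, mul_pow, hβ, hα, Core.natCast_pow hp.1])]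
      refine Finset.sum_congr rfl fun c _ => ?_
      rw [Fin.sum_univ_succ]
      simp [Fin.insertNthEquiv, add_assoc]
    rw [Finset.sum_congr rfl fun c₀ _ => h1 c₀, ← Finset.mul_sum, sum_one (hα 0) hβ,
      Fin.prod_univ_succ]
    ring

end pointwise

section count

variable {p : ℕ} [hp : Fact p.Prime] {Ω : Type} [Field Ω] [IsAlgClosed Ω] [CharP Ω p]

variable (Ω) in
/-- solutions of `x^Q = x` -/
noncomputable def FF (Q : ℕ) : Finset Ω := by
  classical exact (X ^ Q - X : Polynomial Ω).roots.toFinset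

theorem mem_FF {Q : ℕ} (hQ : 1 < Q) {z : Ω} : z ∈ FF Ω Q ↔ z ^ Q = z := by
  classical
  unfold FF
  rw [Multiset.mem_toFinset, mem_roots (FiniteField.X_pow_card_sub_X_ne_zero _ hQ)]
  simp [sub_eq_zero]

theorem card_FF {L : ℕ} (hL : L ≠ 0) : (FF Ω (p ^ L)).card = p ^ L := by
  classical
  have hQ : 1 < p ^ L := Nat.one_lt_pow hL hp.1.one_lt
  unfold FF
  have hsep : (X ^ (p ^ L) - X : Polynomial Ω).Separable := by
    rw [Polynomial.separable_def]
    refine ⟨0, -1, ?_⟩
    rw [derivative_sub, derivative_X_pow, derivative_X]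
    have h0 : ((p ^ L : ℕ) : Ω) = 0 := by
      rw [CharP.cast_eq_zero_iff Ω p]
      exact dvd_pow_self p hL
    rw [h0]
    simp
  rw [Multiset.toFinset_card_of_nodup (Polynomial.nodup_roots hsep),
    Polynomial.splits_iff_card_roots.1 (IsAlgClosed.splits _),
    FiniteField.X_pow_card_sub_X_natDegree_eq _ hQ]

/-- the trace -/
noncomputable def tr (p L : ℕ) (v : Ω) : Ω := ∑ j ∈ Finset.range L, v ^ p ^ j

theorem tr_add (L : ℕ) (v w : Ω) : tr p L (v + w) = tr p L v + tr p L w := by
  unfold tr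
  rw [← Finset.sum_add_distrib]
  exact Finset.sum_congr rfl fun j _ => add_pow_char_pow v w p j

theorem tr_zero (L : ℕ) : tr p L (0 : Ω) = 0 := by
  unfold tr
  refine Finset.sum_eq_zero fun j _ => ?_
  rw [zero_pow (pow_ne_zero _ hp.1.ne_zero)]

theorem tr_nat (L : ℕ) (c : ℕ) (v : Ω) : tr p L ((c : Ω) * v) = (c : Ω) * tr p L v := by
  unfold tr
  rw [Finset.mul_sum]
  have h1 : ∀ j : ℕ, (c : Ω) ^ p ^ j = c := by
    intro j
    induction j with
    | zero => simp
    | succ j ih => rw [pow_succ, pow_mul, ih, Core.natCast_pow hp.1]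
  refine Finset.sum_congr rfl fun j _ => ?_
  rw [mul_pow, h1]

theorem tr_sum (L : ℕ) {ι : Type*} (S : Finset ι) (v : ι → Ω) :
    tr p L (∑ i ∈ S, v i) = ∑ i ∈ S, tr p L (v i) := by
  classical
  induction S using Finset.induction_on with
  | empty => rw [Finset.sum_empty, Finset.sum_empty, tr_zero]
  | insert a S ha ih => rw [Finset.sum_insert ha, Finset.sum_insert ha, tr_add, ih]

theorem tr_pow {L : ℕ} (hL : L ≠ 0) {v : Ω} (hv : v ^ p ^ L = v) : tr p L v ^ p = tr p L v := by
  unfold tr
  rw [sum_pow_char]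
  obtain ⟨M, rfl⟩ : ∃ M, L = M + 1 := ⟨L - 1, by omega⟩
  rw [Finset.sum_range_succ, Finset.sum_range_succ' (fun j => v ^ p ^ j) M, pow_zero, pow_one]
  congr 1
  · refine Finset.sum_congr rfl fun j _ => ?_
    rw [← pow_mul, ← pow_succ]
  · rw [← pow_mul, ← pow_succ, hv]

theorem tel (y : Ω) (L : ℕ) :
    ∑ j ∈ Finset.range L, (y ^ p - y) ^ p ^ j = y ^ p ^ L - y := by
  induction L with
  | zero => simp
  | succ L ih =>
    rw [Finset.sum_range_succ, ih, sub_pow_char_pow]
    rw [← pow_mul, ← pow_succ']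
    ring

theorem ycount {L : ℕ} (hL : L ≠ 0) (v : Ω) [DecidableEq Ω] :
    ((FF Ω (p ^ L)).filter fun y => y ^ p - y = v).card = if tr p L v = 0 then p else 0 := by
  classical
  have hQ : 1 < p ^ L := Nat.one_lt_pow hL hp.1.one_lt
  split_ifs with h0
  · have h3 : (FF Ω (p ^ L)).filter (fun y => y ^ p - y = v) =
        (X ^ p - X - C v : Polynomial Ω).roots.toFinset := by
      ext y
      have hne : (X ^ p - X - C v : Polynomial Ω) ≠ 0 := by
        intro h
        have := congrArg (fun P => P.coeff p) h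
        simp [Polynomial.coeff_X_pow, Polynomial.coeff_X, Polynomial.coeff_C, hp.1.ne_one.symm,
          hp.1.ne_zero] at this
      rw [Finset.mem_filter, mem_FF hQ, Multiset.mem_toFinset, mem_roots hne]
      simp only [IsRoot.def, eval_sub, eval_pow, eval_X, eval_C, sub_eq_zero]
      constructor
      · exact fun h => h.2
      · intro h
        refine ⟨?_, h⟩
        have h4 := tel (p := p) y L
        rw [h] at h4
        unfold tr at h0
        rw [h0] at h4
        exact (sub_eq_zero.1 h4.symm)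
    rw [h3]
    have hdeg : (X ^ p - X - C v : Polynomial Ω).natDegree = p := by
      rw [Polynomial.natDegree_sub_C, FiniteField.X_pow_card_sub_X_natDegree_eq _ hp.1.one_lt]
    have hsep : (X ^ p - X - C v : Polynomial Ω).Separable := by
      rw [Polynomial.separable_def]
      refine ⟨0, -1, ?_⟩
      rw [derivative_sub, derivative_sub, derivative_X_pow, derivative_X, derivative_C,
        CharP.cast_eq_zero]
      simp
    rw [Multiset.toFinset_card_of_nodup (Polynomial.nodup_roots hsep),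
      Polynomial.splits_iff_card_roots.1 (IsAlgClosed.splits _), hdeg]
  · rw [Finset.card_eq_zero, Finset.filter_eq_empty_iff]
    intro y hy h
    rw [mem_FF hQ] at hy
    have h4 := tel (p := p) y L
    rw [h, hy, sub_self] at h4
    exact h0 h4

end count

end Tow

end Pool.Agent.N867.AS
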