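import Pool.Agent.N867.AS.W7

/-!
# Counting points on towers (end)
-/

set_option autoImplicit false
set_option linter.unusedSectionVars false

namespace Pool.Agent.N867.AS

namespace Tow

open Polynomial Trans

variable {κ : Type} [Field κ]

/-- evaluation at `(t, x)` -/
noncomputable def ev2 (t x : AlgebraicClosure κ) : κ[X][X] →+* AlgebraicClosure κ :=
  eval₂RingHom (eval₂RingHom (algebraMap κ (AlgebraicClosure κ)) t) x

/-- points of the tower -/
noncomputable def NT (p : ℕ) {r : ℕ} (h : Fin r → κ[X]) (f : κ[X][X]) (Q : ℕ) : ℕ :=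
  Nat.card {v : AlgebraicClosure κ × AlgebraicClosure κ × AlgebraicClosure κ ×
      (Fin r → AlgebraicClosure κ) //
    v.1 ^ Q = v.1 ∧ v.2.1 ^ Q = v.2.1 ∧ v.2.2.1 ^ Q = v.2.2.1 ∧
    (∀ i, v.2.2.2 i ^ Q = v.2.2.2 i) ∧
    (∀ i, v.2.2.2 i ^ p - v.2.2.2 i = (h i).eval₂ (algebraMap κ (AlgebraicClosure κ)) v.1) ∧
    v.2.2.1 ^ p - v.2.2.1 = f.eval₂ (eval₂RingHom (algebraMap κ (AlgebraicClosure κ)) v.1) v.2.1}

/-- points of the base -/
noncomputable def NS (p : ℕ) {r : ℕ} (h : Fin r → κ[X]) (Q : ℕ) : ℕ :=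
  Nat.card {v : AlgebraicClosure κ × (Fin r → AlgebraicClosure κ) //
    v.1 ^ Q = v.1 ∧ (∀ i, v.2 i ^ Q = v.2 i) ∧
    (∀ i, v.2 i ^ p - v.2 i = (h i).eval₂ (algebraMap κ (AlgebraicClosure κ)) v.1)}

/-- number of solutions of `y^p - y = v` -/
noncomputable def cnt (p Q : ℕ) (v : AlgebraicClosure κ) : ℕ := by
  classical exact ((FF (AlgebraicClosure κ) Q).filter fun y => y ^ p - y = v).card

theorem Npts_eq (p : ℕ) (f : κ[X][X]) {Q : ℕ} (hQ : 1 < Q) :
    Npts p f Q = ∑ t ∈ FF (AlgebraicClosure κ) Q, ∑ x ∈ FF (AlgebraicClosure κ) Q,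
      cnt p Q (ev2 t x f) := by
  classical
  unfold Npts
  rw [Nat.subtype_card ((FF (AlgebraicClosure κ) Q ×ˢ (FF (AlgebraicClosure κ) Q ×ˢ
    FF (AlgebraicClosure κ) Q)).filter fun v => v.2.2 ^ p - v.2.2 = ev2 v.1 v.2.1 f)]
  · rw [Finset.card_filter, Finset.sum_product]
    refine Finset.sum_congr rfl fun t _ => ?_
    rw [Finset.sum_product]
    refine Finset.sum_congr rfl fun x _ => ?_
    rw [cnt, Finset.card_filter]
  · intro v
    rw [Finset.mem_filter, Finset.mem_product, Finset.mem_product, mem_FF hQ, mem_FF hQ, mem_FF hQ]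
    exact ⟨fun h => ⟨h.1.1, h.1.2.1, h.1.2.2, h.2⟩, fun h => ⟨⟨h.1, h.2.1, h.2.2.1⟩, h.2.2.2⟩⟩

theorem card_pi (p Q : ℕ) {r : ℕ} (v : Fin r → AlgebraicClosure κ)
    [DecidableEq (AlgebraicClosure κ)] :
    ((Fintype.piFinset fun _ : Fin r => FF (AlgebraicClosure κ) Q).filter
      fun z => ∀ i, z i ^ p - z i = v i).card = ∏ i, cnt p Q (v i) := by
  classical
  have h1 : ((Fintype.piFinset fun _ : Fin r => FF (AlgebraicClosure κ) Q).filter
      fun z => ∀ i, z i ^ p - z i = v i) = Fintype.piFinset fun i =>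
        (FF (AlgebraicClosure κ) Q).filter fun y => y ^ p - y = v i := by
    ext z
    simp only [Finset.mem_filter, Fintype.mem_piFinset]
    exact ⟨fun h i => ⟨h.1 i, h.2 i⟩, fun h => ⟨fun i => (h i).1, fun i => (h i).2⟩⟩
  rw [h1, Fintype.card_piFinset]
  refine Finset.prod_congr rfl fun i _ => ?_
  unfold cnt
  congr

theorem NS_eq (p : ℕ) {r : ℕ} (h : Fin r → κ[X]) {Q : ℕ} (hQ : 1 < Q) :
    NS p h Q = ∑ t ∈ FF (AlgebraicClosure κ) Q,
      ∏ i, cnt p Q ((h i).eval₂ (algebraMap κ (AlgebraicClosure κ)) t) := by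
  classical
  unfold NS
  rw [Nat.subtype_card ((FF (AlgebraicClosure κ) Q ×ˢ
    (Fintype.piFinset fun _ : Fin r => FF (AlgebraicClosure κ) Q)).filter
      fun v => ∀ i, v.2 i ^ p - v.2 i = (h i).eval₂ (algebraMap κ (AlgebraicClosure κ)) v.1)]
  · rw [Finset.card_filter, Finset.sum_product]
    refine Finset.sum_congr rfl fun t _ => ?_
    rw [← card_pi p Q fun i => (h i).eval₂ (algebraMap κ (AlgebraicClosure κ)) t,
      Finset.card_filter]
  · intro v
    rw [Finset.mem_filter, Finset.mem_product, Fintype.mem_piFinset, mem_FF hQ]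
    simp only [mem_FF hQ]
    exact ⟨fun h => ⟨h.1.1, h.1.2, h.2⟩, fun h => ⟨⟨h.1, h.2.1⟩, h.2.2⟩⟩

theorem NT_eq (p : ℕ) {r : ℕ} (h : Fin r → κ[X]) (f : κ[X][X]) {Q : ℕ} (hQ : 1 < Q) :
    NT p h f Q = ∑ t ∈ FF (AlgebraicClosure κ) Q, ∑ x ∈ FF (AlgebraicClosure κ) Q,
      (∏ i, cnt p Q ((h i).eval₂ (algebraMap κ (AlgebraicClosure κ)) t)) *
        cnt p Q (ev2 t x f) := by
  classical
  unfold NT
  rw [Nat.subtype_card ((FF (AlgebraicClosure κ) Q ×ˢ (FF (AlgebraicClosure κ) Q ×ˢ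
    (FF (AlgebraicClosure κ) Q ×ˢ
    (Fintype.piFinset fun _ : Fin r => FF (AlgebraicClosure κ) Q)))).filter
      fun v => (∀ i, v.2.2.2 i ^ p - v.2.2.2 i =
        (h i).eval₂ (algebraMap κ (AlgebraicClosure κ)) v.1) ∧
        v.2.2.1 ^ p - v.2.2.1 = ev2 v.1 v.2.1 f)]
  · rw [Finset.card_filter, Finset.sum_product]
    refine Finset.sum_congr rfl fun t _ => ?_
    rw [Finset.sum_product]
    refine Finset.sum_congr rfl fun x _ => ?_
    rw [Finset.sum_product, ← card_pi p Q fun i => (h i).eval₂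
      (algebraMap κ (AlgebraicClosure κ)) t, cnt, Finset.card_filter, Finset.card_filter,
      Finset.sum_mul_sum, Finset.sum_comm]
    refine Finset.sum_congr rfl fun z _ => Finset.sum_congr rfl fun y _ => ?_
    simp only
    by_cases h1 : ∀ i, z i ^ p - z i = (h i).eval₂ (algebraMap κ (AlgebraicClosure κ)) t
    · by_cases h2 : y ^ p - y = ev2 t x f
      · rw [if_pos ⟨h1, h2⟩, if_pos h1, if_pos h2, one_mul]
      · rw [if_neg (fun h3 => h2 h3.2), if_neg h2, mul_zero]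
    · rw [if_neg (fun h3 => h1 h3.1), if_neg h1, zero_mul]
  · intro v
    rw [Finset.mem_filter, Finset.mem_product, Finset.mem_product, Finset.mem_product,
      Fintype.mem_piFinset, mem_FF hQ, mem_FF hQ, mem_FF hQ]
    simp only [mem_FF hQ]
    exact ⟨fun h => ⟨h.1.1, h.1.2.1, h.1.2.2.1, h.1.2.2.2, h.2.1, h.2.2⟩,
      fun h => ⟨⟨h.1, h.2.1, h.2.2.1, h.2.2.2.1⟩, h.2.2.2.2⟩⟩

/-- the twist -/
noncomputable def twist {r p : ℕ} (f : κ[X][X]) (h : Fin r → κ[X]) (c : Fin r → Fin p) :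
    κ[X][X] :=
  f + ∑ i, ((c i : ℕ) : κ[X][X]) * C (h i)

theorem ev2_twist {r p : ℕ} (f : κ[X][X]) (h : Fin r → κ[X]) (c : Fin r → Fin p)
    (t x : AlgebraicClosure κ) : ev2 t x (twist f h c) = ev2 t x f +
      ∑ i, ((c i : ℕ) : AlgebraicClosure κ) * (h i).eval₂ (algebraMap κ (AlgebraicClosure κ)) t := by
  rw [twist, map_add, map_sum]
  congr 1
  refine Finset.sum_congr rfl fun i _ => ?_
  rw [map_mul, map_natCast]
  congr 1
  rw [ev2, coe_eval₂RingHom, eval₂_C]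
  rfl

variable [Fintype κ]

theorem ev2_pow {p : ℕ} [hp : Fact p.Prime] [CharP κ p] {s : ℕ} (hs : Fintype.card κ = p ^ s)
    {m : ℕ} {t x : AlgebraicClosure κ} (ht : t ^ p ^ (s * m) = t) (hx : x ^ p ^ (s * m) = x)
    (f : κ[X][X]) : ev2 t x f ^ p ^ (s * m) = ev2 t x f := by
  have hch : CharP (AlgebraicClosure κ) p :=
    charP_of_injective_algebraMap (algebraMap κ (AlgebraicClosure κ)).injective p
  have hc : ∀ a : κ, a ^ p ^ (s * m) = a := by
    intro a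
    rw [pow_mul, ← hs]
    exact FiniteField.pow_card_pow m a
  have h1 : (iterateFrobenius (AlgebraicClosure κ) p (s * m)).comp (ev2 t x) = ev2 t x := by
    refine Polynomial.ringHom_ext' (Polynomial.ringHom_ext' ?_ ?_) ?_
    · ext a
      simp only [RingHom.comp_apply, ev2, coe_eval₂RingHom, eval₂_C, iterateFrobenius_def]
      rw [← map_pow, hc]
    · simp only [RingHom.comp_apply, ev2, coe_eval₂RingHom, eval₂_C, eval₂_X,
        iterateFrobenius_def]
      exact ht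
    · simp only [RingHom.comp_apply, ev2, coe_eval₂RingHom, eval₂_X,
        iterateFrobenius_def]
      exact hx
  have h2 := congrArg (fun g => g f) h1
  simpa [RingHom.comp_apply, iterateFrobenius_def] using h2

/-- the counting identity -/
theorem tower_count {p : ℕ} [hp : Fact p.Prime] [CharP κ p] {s : ℕ}
    (hs : Fintype.card κ = p ^ s) (hs0 : s ≠ 0) {r : ℕ} (h : Fin r → κ[X]) (f : κ[X][X]) {m : ℕ}
    (hm : m ≠ 0) :
    (Fintype.card κ : ℚ) ^ m * (NS p h (Fintype.card κ ^ m) : ℚ) -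
        (NT p h f (Fintype.card κ ^ m) : ℚ) =
      ∑ c : Fin r → Fin p, ((Fintype.card κ : ℚ) ^ (2 * m) -
        (Npts p (twist f h c) (Fintype.card κ ^ m) : ℚ)) := by
  classical
  have hch : CharP (AlgebraicClosure κ) p :=
    charP_of_injective_algebraMap (algebraMap κ (AlgebraicClosure κ)).injective p
  obtain ⟨L, hL⟩ : ∃ L, L = s * m := ⟨_, rfl⟩
  have hL0 : L ≠ 0 := by rw [hL]; exact mul_ne_zero hs0 hm
  have hQe : Fintype.card κ ^ m = p ^ L := by rw [hs, ← pow_mul, hL]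
  have hQ : 1 < p ^ L := Nat.one_lt_pow hL0 hp.1.one_lt
  have hQq : (Fintype.card κ : ℚ) ^ m = ((p ^ L : ℕ) : ℚ) := by rw [← hQe]; push_cast; rfl
  have hQq2 : (Fintype.card κ : ℚ) ^ (2 * m) = ((p ^ L : ℕ) : ℚ) * ((p ^ L : ℕ) : ℚ) := by
    rw [mul_comm 2 m, pow_mul, hQq]
    ring
  rw [hQe, hQq, hQq2, NS_eq p h hQ, NT_eq p h f hQ]
  simp only [Npts_eq p _ hQ]
  have hcard : ((FF (AlgebraicClosure κ) (p ^ L)).card : ℚ) = ((p ^ L : ℕ) : ℚ) := by
    rw [card_FF hL0]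
  have h1 : ∀ c : Fin r → Fin p, ((p ^ L : ℕ) : ℚ) * ((p ^ L : ℕ) : ℚ) -
      ((∑ t ∈ FF (AlgebraicClosure κ) (p ^ L), ∑ x ∈ FF (AlgebraicClosure κ) (p ^ L),
        cnt p (p ^ L) (ev2 t x (twist f h c)) : ℕ) : ℚ) =
      ∑ t ∈ FF (AlgebraicClosure κ) (p ^ L), ∑ x ∈ FF (AlgebraicClosure κ) (p ^ L),
        (1 - (cnt p (p ^ L) (ev2 t x (twist f h c)) : ℚ)) := by
    intro c
    simp only [Finset.sum_sub_distrib, Finset.sum_const, nsmul_eq_mul, mul_one]
    rw [hcard]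
    push_cast
    ring
  have h6 : ∑ c : Fin r → Fin p, ∑ t ∈ FF (AlgebraicClosure κ) (p ^ L),
      ∑ x ∈ FF (AlgebraicClosure κ) (p ^ L),
        (1 - (cnt p (p ^ L) (ev2 t x (twist f h c)) : ℚ)) =
      ∑ t ∈ FF (AlgebraicClosure κ) (p ^ L), ∑ x ∈ FF (AlgebraicClosure κ) (p ^ L),
        ∑ c : Fin r → Fin p, (1 - (cnt p (p ^ L) (ev2 t x (twist f h c)) : ℚ)) := by
    rw [Finset.sum_comm]
    exact Finset.sum_congr rfl fun t _ => Finset.sum_comm
  rw [Finset.sum_congr rfl fun c _ => h1 c, h6]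
  have h2 : ((p ^ L : ℕ) : ℚ) * ((∑ t ∈ FF (AlgebraicClosure κ) (p ^ L),
      ∏ i, cnt p (p ^ L) ((h i).eval₂ (algebraMap κ (AlgebraicClosure κ)) t) : ℕ) : ℚ) =
      ∑ t ∈ FF (AlgebraicClosure κ) (p ^ L), ∑ x ∈ FF (AlgebraicClosure κ) (p ^ L),
        (∏ i, (cnt p (p ^ L) ((h i).eval₂ (algebraMap κ (AlgebraicClosure κ)) t) : ℚ)) := by
    simp only [Finset.sum_const, nsmul_eq_mul]
    rw [← Finset.mul_sum, hcard]
    push_cast
    rfl
  rw [h2]
  push_cast
  rw [← Finset.sum_sub_distrib]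
  refine Finset.sum_congr rfl fun t ht => ?_
  rw [← Finset.sum_sub_distrib]
  refine Finset.sum_congr rfl fun x hx => ?_
  rw [mem_FF hQ] at ht hx
  have ht' : t ^ p ^ (s * m) = t := by rw [← hL]; exact ht
  have hx' : x ^ p ^ (s * m) = x := by rw [← hL]; exact hx
  have hcnt : ∀ v : AlgebraicClosure κ, (cnt p (p ^ L) v : ℚ) =
      if tr p L v = 0 then (p : ℚ) else 0 := by
    intro v
    have h3 := ycount (p := p) hL0 v
    rw [cnt]
    split_ifs at h3 ⊢ with h4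
    · rw [h3]
    · rw [h3, Nat.cast_zero]
  have hh : ∀ i, (h i).eval₂ (algebraMap κ (AlgebraicClosure κ)) t = ev2 t x (C (h i)) := by
    intro i
    rw [ev2, coe_eval₂RingHom, eval₂_C]
    rfl
  have h4 := sum_all (p := p) r (fun i => tr p L ((h i).eval₂
    (algebraMap κ (AlgebraicClosure κ)) t)) (fun i => by
      refine tr_pow hL0 ?_
      rw [hh, hL]
      exact ev2_pow hs ht' hx' _) (tr p L (ev2 t x f)) (by
      refine tr_pow hL0 ?_
      rw [hL]
      exact ev2_pow hs ht' hx' _)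
  have h5 : ∀ c : Fin r → Fin p, tr p L (ev2 t x (twist f h c)) = tr p L (ev2 t x f) +
      ∑ i, ((c i : ℕ) : AlgebraicClosure κ) * tr p L ((h i).eval₂
        (algebraMap κ (AlgebraicClosure κ)) t) := by
    intro c
    rw [ev2_twist, tr_add, tr_sum]
    congr 1
    exact Finset.sum_congr rfl fun i _ => tr_nat L _ _
  simp only [hcnt, h5]
  rw [h4]
  ring

end Tow

end Pool.Agent.N867.AS
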