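import Pool.Agent.N867.AS.W8

/-!
# Towers: assembly
-/

set_option autoImplicit false
set_option linter.unusedSectionVars false

namespace Pool.Agent.N867.AS

namespace Tow

open Polynomial LP TV

theorem main (p : ℕ) (hp : p.Prime) (κ : Type) [Field κ] [Fintype κ] [CharP κ p] (s : ℕ)
    (hs : Fintype.card κ = p ^ s) (a b g : ℕ) (hab : a.Coprime b) (hga : g * a ∣ p - 1)
    (hgb : g * b ∣ p - 1) (r : ℕ) (h : Fin r → κ[X]) (f : κ[X][X]) (e : (Fin r → Fin p) → ℕ)
    (H : ∀ c, Fin (e c) → κ[X]) (hirr : ∀ c i, Irreducible (H c i))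
    (hmon : ∀ c i, (H c i).Monic) (hinj : ∀ c, Function.Injective (H c))
    (hdeg : ∀ c, (∏ i, H c i).natDegree = g) (hord : ∀ c, OrdP p a b g (∏ i, H c i))
    (hf : ∀ c, Final2.Lead a b g (∏ i, H c i) (twist f h c)) (L : ℚ[X]) (hL0 : L.coeff 0 = 1)
    (hL : PowerSeries.X * PowerSeries.derivative ℚ (L : PowerSeries ℚ) =
      (L : PowerSeries ℚ) * PowerSeries.mk (fun m => if m = 0 then 0 else
        (Fintype.card κ : ℚ) ^ m * (NS p h (Fintype.card κ ^ m) : ℚ) -
          (NT p h f (Fintype.card κ ^ m) : ℚ)))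
    (ρ : ℕ) (M : ℚ[X]) (hLM : L = (1 - C (Fintype.card κ : ℚ) * X) ^ ρ * M)
    (hM : M.eval (1 / (Fintype.card κ : ℚ)) ≠ 0) {N R : ℕ}
    (hN : N = p ^ r * ((p - 1) / (g * (a * b)) * (s *
      ∑ w ∈ Finset.range (g * (a * b)), Fintype.card (Lat a b w) * (g * (a * b) - w))))
    (hR : R = (p - 1) * ∑ c, (e c - 1)) :
    ρ ≤ R ∧ -(N : ℤ) ≤ padicValRat p (M.eval (1 / (Fintype.card κ : ℚ))) ∧
      (padicValRat p (M.eval (1 / (Fintype.card κ : ℚ))) = -(N : ℤ) ↔ ρ = R) := by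
  have : Fact p.Prime := ⟨hp⟩
  have hp1 : p - 1 ≠ 0 := by
    have := hp.two_le
    omega
  have hga0 : g * a ≠ 0 := fun h => hp1 (by rwa [h, zero_dvd_iff] at hga)
  have hgb0 : g * b ≠ 0 := fun h => hp1 (by rwa [h, zero_dvd_iff] at hgb)
  have hg : g ≠ 0 := left_ne_zero_of_mul hga0
  have ha : a ≠ 0 := right_ne_zero_of_mul hga0
  have hb : b ≠ 0 := right_ne_zero_of_mul hgb0
  have hMd := dvd_M hab hg hga hgb
  have hs0 : s ≠ 0 := by
    rintro rfl
    rw [pow_zero] at hs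
    exact absurd hs (Fintype.one_lt_card (α := κ)).ne'
  have hcop : ∀ c, Pairwise fun i j => IsCoprime (H c i) (H c j) := by
    intro c i j hij
    refine (hirr c i).coprime_iff_not_dvd.2 fun hdvd => hij (hinj c ?_)
    exact eq_of_monic_of_associated (hmon c i) (hmon c j)
      ((hirr c i).associated_of_dvd (hirr c j) hdvd)
  have hq : (Fintype.card κ : ℚ) = (p : ℚ) ^ s := by rw [hs]; push_cast; rfl
  have hL2 : PowerSeries.X * PowerSeries.derivative ℚ (L : PowerSeries ℚ) =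
      (L : PowerSeries ℚ) * PowerSeries.mk (fun m => if m = 0 then 0 else
        ∑ c : Fin r → Fin p, ((Fintype.card κ : ℚ) ^ (2 * m) -
          (Trans.Npts p (twist f h c) (Fintype.card κ ^ m) : ℚ))) := by
    rw [hL]
    congr 1
    ext m
    rw [PowerSeries.coeff_mk, PowerSeries.coeff_mk]
    split_ifs with hm
    · rfl
    · exact tower_count hs hs0 h f hm
  have hcard : Fintype.card (Fin r → Fin p) = p ^ r := by
    rw [Fintype.card_fun, Fintype.card_fin, Fintype.card_fin]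
  have h1 := fam (p := p) ha hb hab hg hga hgb (fun c => twist f h c) (fun c => (hf c).1)
    (fun c w hw0 hw => by
      rw [hw_eq hp ha hb hab hg hMd (hf c).1 hw, (hf c).2]
      exact hord c w hw0 hw) e H hirr hmon hcop (fun c => (hf c).2) hdeg hs L hL0 hL2
    (r := ρ) (M' := M) (by rw [← hq]; exact hLM) (by rw [← hq]; exact hM)
    (N := N) (R := R) (by rw [hcard]; exact hN) hR
  rw [← hq] at h1
  exact h1

end Tow

end Pool.Agent.N867.AS
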