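import Pool.Agent.N867.AS.W9
import Pool.Agent.N867.AS.X2

/-!
# Counting points on elementary abelian covers in both directions
-/

set_option autoImplicit false
set_option linter.unusedSectionVars false

namespace Pool.Agent.N867.AS

namespace Tow

open Polynomial Trans

variable {κ : Type} [Field κ]

/-- the index set: pairs `(c, d)` with `c ≠ 0` -/
abbrev Ix (p m r : ℕ) : Type :=
  {v : (Fin m → Fin p) × (Fin r → Fin p) // ∃ j, (v.1 j : ℕ) ≠ 0}

/-- points of the double tower -/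
noncomputable def ND (p : ℕ) {m r : ℕ} (F : Fin m → κ[X][X]) (h : Fin r → κ[X]) (Q : ℕ) : ℕ :=
  Nat.card {v : AlgebraicClosure κ × AlgebraicClosure κ × (Fin m → AlgebraicClosure κ) ×
      (Fin r → AlgebraicClosure κ) //
    v.1 ^ Q = v.1 ∧ v.2.1 ^ Q = v.2.1 ∧ (∀ j, v.2.2.1 j ^ Q = v.2.2.1 j) ∧
    (∀ i, v.2.2.2 i ^ Q = v.2.2.2 i) ∧
    (∀ j, v.2.2.1 j ^ p - v.2.2.1 j =
      (F j).eval₂ (eval₂RingHom (algebraMap κ (AlgebraicClosure κ)) v.1) v.2.1) ∧
    (∀ i, v.2.2.2 i ^ p - v.2.2.2 i = (h i).eval₂ (algebraMap κ (AlgebraicClosure κ)) v.1)}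

theorem ND_eq (p : ℕ) {m r : ℕ} (F : Fin m → κ[X][X]) (h : Fin r → κ[X]) {Q : ℕ} (hQ : 1 < Q) :
    ND p F h Q = ∑ t ∈ FF (AlgebraicClosure κ) Q, ∑ x ∈ FF (AlgebraicClosure κ) Q,
      (∏ j, cnt p Q (ev2 t x (F j))) *
        ∏ i, cnt p Q ((h i).eval₂ (algebraMap κ (AlgebraicClosure κ)) t) := by
  classical
  unfold ND
  rw [Nat.subtype_card ((FF (AlgebraicClosure κ) Q ×ˢ (FF (AlgebraicClosure κ) Q ×ˢ
    ((Fintype.piFinset fun _ : Fin m => FF (AlgebraicClosure κ) Q) ×ˢ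
    (Fintype.piFinset fun _ : Fin r => FF (AlgebraicClosure κ) Q)))).filter
      fun v => (∀ j, v.2.2.1 j ^ p - v.2.2.1 j = ev2 v.1 v.2.1 (F j)) ∧
        (∀ i, v.2.2.2 i ^ p - v.2.2.2 i =
          (h i).eval₂ (algebraMap κ (AlgebraicClosure κ)) v.1))]
  · rw [Finset.card_filter, Finset.sum_product]
    refine Finset.sum_congr rfl fun t _ => ?_
    rw [Finset.sum_product]
    refine Finset.sum_congr rfl fun x _ => ?_
    rw [Finset.sum_product, ← card_pi p Q fun j => ev2 t x (F j),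
      ← card_pi p Q fun i => (h i).eval₂ (algebraMap κ (AlgebraicClosure κ)) t,
      Finset.card_filter, Finset.card_filter, Finset.sum_mul_sum]
    refine Finset.sum_congr rfl fun y _ => Finset.sum_congr rfl fun z _ => ?_
    simp only
    by_cases h1 : ∀ j, y j ^ p - y j = ev2 t x (F j)
    · by_cases h2 : ∀ i, z i ^ p - z i = (h i).eval₂ (algebraMap κ (AlgebraicClosure κ)) t
      · rw [if_pos ⟨h1, h2⟩, if_pos h1, if_pos h2, one_mul]
      · rw [if_neg (fun h3 => h2 h3.2), if_neg h2, mul_zero]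
    · rw [if_neg (fun h3 => h1 h3.1), if_neg h1, zero_mul]
  · intro v
    rw [Finset.mem_filter, Finset.mem_product, Finset.mem_product, Finset.mem_product,
      Fintype.mem_piFinset, Fintype.mem_piFinset, mem_FF hQ, mem_FF hQ]
    simp only [mem_FF hQ]
    exact ⟨fun h => ⟨h.1.1, h.1.2.1, h.1.2.2.1, h.1.2.2.2, h.2.1, h.2.2⟩,
      fun h => ⟨⟨h.1, h.2.1, h.2.2.1, h.2.2.2.1⟩, h.2.2.2.2⟩⟩

/-- the combinations -/
noncomputable def comb {p m r : ℕ} (F : Fin m → κ[X][X]) (h : Fin r → κ[X])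
    (v : (Fin m → Fin p) × (Fin r → Fin p)) : κ[X][X] :=
  ∑ j, ((v.1 j : ℕ) : κ[X][X]) * F j + ∑ i, ((v.2 i : ℕ) : κ[X][X]) * C (h i)

theorem ev2_comb {p m r : ℕ} (F : Fin m → κ[X][X]) (h : Fin r → κ[X])
    (v : (Fin m → Fin p) × (Fin r → Fin p)) (t x : AlgebraicClosure κ) : ev2 t x (comb F h v) =
      ∑ j, ((v.1 j : ℕ) : AlgebraicClosure κ) * ev2 t x (F j) +
      ∑ i, ((v.2 i : ℕ) : AlgebraicClosure κ) *
        (h i).eval₂ (algebraMap κ (AlgebraicClosure κ)) t := by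
  rw [comb, map_add, map_sum, map_sum]
  congr 1
  · refine Finset.sum_congr rfl fun j _ => ?_
    rw [map_mul, map_natCast]
  · refine Finset.sum_congr rfl fun i _ => ?_
    rw [map_mul, map_natCast]
    congr 1
    rw [ev2, coe_eval₂RingHom, eval₂_C]
    rfl

/-- summing over the index set -/
theorem sum_Ix {p m r : ℕ} (hp0 : 0 < p) (G : (Fin m → Fin p) × (Fin r → Fin p) → ℚ) :
    ∑ v : Ix p m r, G v.1 = ∑ c, ∑ d, G (c, d) - ∑ d, G (fun _ => ⟨0, hp0⟩, d) := by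
  classical
  have h1 : ∑ v : Ix p m r, G v.1 =
      ∑ v ∈ Finset.univ.filter (fun v : (Fin m → Fin p) × (Fin r → Fin p) =>
        ∃ j, (v.1 j : ℕ) ≠ 0), G v := by
    rw [← Finset.sum_subtype_eq_sum_filter]
    refine Finset.sum_congr ?_ fun _ _ => rfl
    ext v
    simp
  have h2 : ∑ c, ∑ d, G (c, d) = ∑ v, G v := by
    rw [← Finset.sum_product']
    rfl
  have h3 : ∑ d, G (fun _ => ⟨0, hp0⟩, d) =
      ∑ v ∈ Finset.univ.filter (fun v : (Fin m → Fin p) × (Fin r → Fin p) =>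
        ¬ ∃ j, (v.1 j : ℕ) ≠ 0), G v := by
    refine Finset.sum_bij (fun d _ => ((fun _ => ⟨0, hp0⟩), d)) ?_ ?_ ?_ ?_
    · intro d _
      simp
    · intro d _ d' _ h
      exact (Prod.mk.inj h).2
    · rintro ⟨c, d⟩ hcd
      rw [Finset.mem_filter] at hcd
      refine ⟨d, Finset.mem_univ _, Prod.ext (funext fun j => ?_) rfl⟩
      by_contra h4
      refine hcd.2 ⟨j, fun h5 => h4 ?_⟩
      exact Fin.ext h5.symm
    · intro d _
      rfl
  rw [h1, h2, h3, ← Finset.sum_filter_add_sum_filter_not Finset.univ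
    (fun v : (Fin m → Fin p) × (Fin r → Fin p) => ∃ j, (v.1 j : ℕ) ≠ 0)]
  ring

variable [Fintype κ]

/-- the counting identity -/
theorem double_count {p : ℕ} [hp : Fact p.Prime] [CharP κ p] {s : ℕ}
    (hs : Fintype.card κ = p ^ s) (hs0 : s ≠ 0) {m r : ℕ} (F : Fin m → κ[X][X])
    (h : Fin r → κ[X]) {n : ℕ} (hn : n ≠ 0) :
    ((p : ℚ) - 1) * ((Fintype.card κ : ℚ) ^ n * (NS p h (Fintype.card κ ^ n) : ℚ) -
        (ND p F h (Fintype.card κ ^ n) : ℚ)) =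
      ∑ v : Ix p m r, ((Fintype.card κ : ℚ) ^ (2 * n) -
        (Npts p (comb F h v.1) (Fintype.card κ ^ n) : ℚ)) := by
  classical
  have hch : CharP (AlgebraicClosure κ) p :=
    charP_of_injective_algebraMap (algebraMap κ (AlgebraicClosure κ)).injective p
  obtain ⟨L, hL⟩ : ∃ L, L = s * n := ⟨_, rfl⟩
  have hL0 : L ≠ 0 := by rw [hL]; exact mul_ne_zero hs0 hn
  have hQe : Fintype.card κ ^ n = p ^ L := by rw [hs, ← pow_mul, hL]
  have hQ : 1 < p ^ L := Nat.one_lt_pow hL0 hp.1.one_lt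
  have hQq : (Fintype.card κ : ℚ) ^ n = ((p ^ L : ℕ) : ℚ) := by rw [← hQe]; push_cast; rfl
  have hQq2 : (Fintype.card κ : ℚ) ^ (2 * n) = ((p ^ L : ℕ) : ℚ) * ((p ^ L : ℕ) : ℚ) := by
    rw [mul_comm 2 n, pow_mul, hQq]
    ring
  rw [hQe, hQq, hQq2, NS_eq p h hQ, ND_eq p F h hQ]
  simp only [Npts_eq p _ hQ]
  have hcard : ((FF (AlgebraicClosure κ) (p ^ L)).card : ℚ) = ((p ^ L : ℕ) : ℚ) := by
    rw [card_FF hL0]
  have h1 : ∀ v : Ix p m r, ((p ^ L : ℕ) : ℚ) * ((p ^ L : ℕ) : ℚ) -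
      ((∑ t ∈ FF (AlgebraicClosure κ) (p ^ L), ∑ x ∈ FF (AlgebraicClosure κ) (p ^ L),
        cnt p (p ^ L) (ev2 t x (comb F h v.1)) : ℕ) : ℚ) =
      ∑ t ∈ FF (AlgebraicClosure κ) (p ^ L), ∑ x ∈ FF (AlgebraicClosure κ) (p ^ L),
        (1 - (cnt p (p ^ L) (ev2 t x (comb F h v.1)) : ℚ)) := by
    intro c
    simp only [Finset.sum_sub_distrib, Finset.sum_const, nsmul_eq_mul, mul_one]
    rw [hcard]
    push_cast
    ring
  have h6 : ∑ v : Ix p m r, ∑ t ∈ FF (AlgebraicClosure κ) (p ^ L),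
      ∑ x ∈ FF (AlgebraicClosure κ) (p ^ L),
        (1 - (cnt p (p ^ L) (ev2 t x (comb F h v.1)) : ℚ)) =
      ∑ t ∈ FF (AlgebraicClosure κ) (p ^ L), ∑ x ∈ FF (AlgebraicClosure κ) (p ^ L),
        ∑ v : Ix p m r, (1 - (cnt p (p ^ L) (ev2 t x (comb F h v.1)) : ℚ)) := by
    rw [Finset.sum_comm]
    exact Finset.sum_congr rfl fun t _ => Finset.sum_comm
  rw [Finset.sum_congr rfl fun c _ => h1 c, h6]
  have h2 : ((p ^ L : ℕ) : ℚ) * ((∑ t ∈ FF (AlgebraicClosure κ) (p ^ L),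
      ∏ i, cnt p (p ^ L) ((h i).eval₂ (algebraMap κ (AlgebraicClosure κ)) t) : ℕ) : ℚ) =
      ∑ t ∈ FF (AlgebraicClosure κ) (p ^ L), ∑ x ∈ FF (AlgebraicClosure κ) (p ^ L),
        (∏ i, (cnt p (p ^ L) ((h i).eval₂ (algebraMap κ (AlgebraicClosure κ)) t) : ℚ)) := by
    simp only [Finset.sum_const, nsmul_eq_mul]
    rw [← Finset.mul_sum, hcard]
    push_cast
    rfl
  rw [h2]
  push_cast
  rw [← Finset.sum_sub_distrib, Finset.mul_sum]
  refine Finset.sum_congr rfl fun t ht => ?_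
  rw [← Finset.sum_sub_distrib, Finset.mul_sum]
  refine Finset.sum_congr rfl fun x hx => ?_
  rw [mem_FF hQ] at ht hx
  have ht' : t ^ p ^ (s * n) = t := by rw [← hL]; exact ht
  have hx' : x ^ p ^ (s * n) = x := by rw [← hL]; exact hx
  have hcnt : ∀ v : AlgebraicClosure κ, (cnt p (p ^ L) v : ℚ) =
      if tr p L v = 0 then (p : ℚ) else 0 := by
    intro v
    have h3 := ycount (p := p) hL0 v
    rw [cnt]
    split_ifs at h3 ⊢ with h4
    · rw [h3]
    · rw [h3, Nat.cast_zero]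
  have hh : ∀ i, (h i).eval₂ (algebraMap κ (AlgebraicClosure κ)) t = ev2 t x (C (h i)) := by
    intro i
    rw [ev2, coe_eval₂RingHom, eval₂_C]
    rfl
  have hBp : ∀ i, tr p L ((h i).eval₂ (algebraMap κ (AlgebraicClosure κ)) t) ^ p =
      tr p L ((h i).eval₂ (algebraMap κ (AlgebraicClosure κ)) t) := by
    intro i
    refine tr_pow hL0 ?_
    rw [hh, hL]
    exact ev2_pow hs ht' hx' _
  have hAp : ∀ j, tr p L (ev2 t x (F j)) ^ p = tr p L (ev2 t x (F j)) := by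
    intro j
    refine tr_pow hL0 ?_
    rw [hL]
    exact ev2_pow hs ht' hx' _
  obtain ⟨A, hA⟩ : ∃ A : Fin m → AlgebraicClosure κ, ∀ j, A j = tr p L (ev2 t x (F j)) :=
    ⟨_, fun _ => rfl⟩
  obtain ⟨B, hB⟩ : ∃ B : Fin r → AlgebraicClosure κ, ∀ i, B i =
    tr p L ((h i).eval₂ (algebraMap κ (AlgebraicClosure κ)) t) := ⟨_, fun _ => rfl⟩
  simp only [← hA] at hAp
  simp only [← hB] at hBp
  have hnatp : ∀ n : ℕ, ((n : ℕ) : AlgebraicClosure κ) ^ p = (n : AlgebraicClosure κ) := by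
    intro n
    exact map_natCast (frobenius (AlgebraicClosure κ) p) n
  have h5 : ∀ v : (Fin m → Fin p) × (Fin r → Fin p), tr p L (ev2 t x (comb F h v)) =
      ∑ j, ((v.1 j : ℕ) : AlgebraicClosure κ) * A j +
      ∑ i, ((v.2 i : ℕ) : AlgebraicClosure κ) * B i := by
    intro c
    rw [ev2_comb, tr_add, tr_sum, tr_sum]
    congr 1
    · exact Finset.sum_congr rfl fun i _ => by rw [hA]; exact tr_nat L _ _
    · exact Finset.sum_congr rfl fun i _ => by rw [hB]; exact tr_nat L _ _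
  simp only [hcnt, h5, ← hA, ← hB]
  have hcA : ∀ c : Fin m → Fin p, (∑ j, ((c j : ℕ) : AlgebraicClosure κ) * A j) ^ p =
      ∑ j, ((c j : ℕ) : AlgebraicClosure κ) * A j := by
    intro c
    have h7 := map_sum (frobenius (AlgebraicClosure κ) p)
      (fun j => ((c j : ℕ) : AlgebraicClosure κ) * A j) Finset.univ
    rw [frobenius_def] at h7
    rw [h7]
    refine Finset.sum_congr rfl fun j _ => ?_
    rw [frobenius_def, mul_pow, hnatp, hAp]
  rw [sum_Ix hp.1.pos (fun v => 1 - if ∑ j, ((v.1 j : ℕ) : AlgebraicClosure κ) * A j +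
      ∑ i, ((v.2 i : ℕ) : AlgebraicClosure κ) * B i = 0 then (p : ℚ) else 0)]
  simp only
  have h8 : ∀ c : Fin m → Fin p, ∑ d : Fin r → Fin p,
      (1 - if ∑ j, ((c j : ℕ) : AlgebraicClosure κ) * A j +
      ∑ i, ((d i : ℕ) : AlgebraicClosure κ) * B i = 0 then (p : ℚ) else 0) =
      (∏ i, if B i = 0 then (p : ℚ) else 0) *
        (1 - if ∑ j, ((c j : ℕ) : AlgebraicClosure κ) * A j = 0 then (p : ℚ) else 0) :=
    fun c => sum_all (p := p) r B hBp _ (hcA c)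
  have h9 : ∑ c : Fin m → Fin p, (1 - if ∑ j, ((c j : ℕ) : AlgebraicClosure κ) * A j = 0
      then (p : ℚ) else 0) = (∏ j, if A j = 0 then (p : ℚ) else 0) * (1 - (p : ℚ)) := by
    have h10 := sum_all (p := p) m A hAp 0 (by rw [zero_pow hp.1.ne_zero])
    simp only [zero_add, if_true] at h10
    exact h10
  have h11 : ∑ d : Fin r → Fin p, (1 - if ∑ j : Fin m, (((0 : ℕ)) : AlgebraicClosure κ) * A j +
      ∑ i, ((d i : ℕ) : AlgebraicClosure κ) * B i = 0 then (p : ℚ) else 0) =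
      (∏ i, if B i = 0 then (p : ℚ) else 0) * (1 - (p : ℚ)) := by
    have h12 := sum_all (p := p) r B hBp 0 (by rw [zero_pow hp.1.ne_zero])
    simp only [if_true] at h12
    simp only [Nat.cast_zero, zero_mul, Finset.sum_const_zero]
    exact h12
  rw [Finset.sum_congr rfl fun c _ => h8 c, ← Finset.mul_sum, h9, h11]
  ring

end Tow

end Pool.Agent.N867.AS
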