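import Pool.Agent.N867.AS.K5

/-!
# Counting points on `(y^p - y) x₀^cc = f`
-/

set_option autoImplicit false
set_option linter.unusedSectionVars false

namespace Pool.Agent.N867.AS

namespace Pg

open Res Tr MvPolynomial
open Lau (point_close red_inv red_ne ind ind_ne ind_zero)

variable {p : ℕ} [hp : Fact p.Prime] {σ : Type} [Fintype σ] [DecidableEq σ]

/-- number of points of `(y^p - y) x₀^cc = f`, `x₀ ≠ 0`, with coordinates in `{x^Q = x}` -/
noncomputable def lpts (i₀ : σ) (cc : ℕ) (f : MvPolynomial σ (k p)) (Q : ℕ) : ℕ :=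
  Nat.card {v : (σ → k p) × k p // (∀ i, v.1 i ^ Q = v.1 i) ∧ v.1 i₀ ≠ 0 ∧ v.2 ^ Q = v.2 ∧
    (v.2 ^ p - v.2) * v.1 i₀ ^ cc = MvPolynomial.eval v.1 f}

theorem lpts_eq (i₀ : σ) (cc : ℕ) (f : MvPolynomial σ (k p)) {Q : ℕ} (hQ : 1 < Q) [DecidableEq (k p)] :
    lpts i₀ cc f Q = ∑ x ∈ Fintype.piFinset (fun _ : σ => FQ p Q), if x i₀ ≠ 0 then
      ((FQ p Q).filter fun y => y ^ p - y = ∑ μ ∈ f.support, f.coeff μ *
        ((∏ i, x i ^ μ i) * (x i₀ ^ cc)⁻¹)).card else 0 := by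
  classical
  unfold lpts
  rw [Nat.subtype_card (((Fintype.piFinset (fun _ : σ => FQ p Q)) ×ˢ (FQ p Q)).filter
    fun v => v.1 i₀ ≠ 0 ∧ (v.2 ^ p - v.2) * v.1 i₀ ^ cc = MvPolynomial.eval v.1 f)]
  · rw [Finset.card_filter, Finset.sum_product]
    refine Finset.sum_congr rfl fun x _ => ?_
    split_ifs with h
    · rw [Finset.card_filter]
      refine Finset.sum_congr rfl fun y _ => ?_
      have h1 : (x i₀ ≠ 0 ∧ (y ^ p - y) * x i₀ ^ cc = MvPolynomial.eval x f) ↔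
          (y ^ p - y = ∑ μ ∈ f.support, f.coeff μ * ((∏ i, x i ^ μ i) * (x i₀ ^ cc)⁻¹)) := by
        have h2 : ∑ μ ∈ f.support, f.coeff μ * ((∏ i, x i ^ μ i) * (x i₀ ^ cc)⁻¹) =
            MvPolynomial.eval x f * (x i₀ ^ cc)⁻¹ := by
          rw [MvPolynomial.eval_eq', Finset.sum_mul]
          refine Finset.sum_congr rfl fun μ _ => ?_
          ring
        rw [h2, eq_mul_inv_iff_mul_eq₀ (pow_ne_zero cc h)]
        exact ⟨fun h => h.2, fun h' => ⟨h, h'⟩⟩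
      simp only [h1]
    · refine Finset.sum_eq_zero fun y _ => ?_
      rw [if_neg]
      exact fun h' => h h'.1
  · intro v
    rw [Finset.mem_filter, Finset.mem_product, Fintype.mem_piFinset, mem_FQ hQ]
    simp only [mem_FQ hQ]
    tauto

theorem count_close' (i₀ : σ) (cc : ℕ) {f : MvPolynomial σ (k p)} {s : ℕ} (D : Lifts p f s) (hs : s ≠ 0)
    {m : ℕ} (hm : m ≠ 0) {N : ℕ} {γ ζ : PadicAlgCl p} (hζ : IsPrimitiveRoot ζ p) (hγ0 : γ ≠ 0)
    (hγ : ‖γ‖ ≤ 1) (hγζ : (Split.Theta p N γ).eval 1 = ζ) :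
    ‖(lpts i₀ cc f (p ^ (s * m)) : PadicAlgCl p) -
      ∑ x ∈ Fintype.piFinset (fun _ : σ => MU p (p ^ (s * m))), ind (x i₀) -
      ∑ a : Fin (p - 1), ∑ x ∈ Fintype.piFinset (fun _ : σ => MU p (p ^ (s * m))),
        ind (x i₀) * ∏ μ ∈ f.support, ∏ j ∈ Finset.range (s * m),
          (Split.Theta p N γ).eval ((D.a a * D.c μ * ((∏ i, x i ^ μ i) * (x i₀ ^ cc)⁻¹)) ^ p ^ j)‖ ≤
      ‖γ‖ ^ N := by
  classical
  have hL : s * m ≠ 0 := mul_ne_zero hs hm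
  have hQ := one_lt_Q (p := p) hL
  have hγN : 0 ≤ ‖γ‖ ^ N := by positivity
  rw [lpts_eq i₀ cc f hQ, sum_red hL (fun x => if x i₀ ≠ 0 then
      ((FQ p (p ^ (s * m))).filter fun y => y ^ p - y = ∑ μ ∈ f.support, f.coeff μ *
        ((∏ i, x i ^ μ i) * (x i₀ ^ cc)⁻¹)).card else 0), Nat.cast_sum, Finset.sum_comm,
    ← Finset.sum_sub_distrib, ← Finset.sum_sub_distrib]
  refine IsUltrametricDist.norm_sum_le_of_forall_le_of_nonneg hγN fun x hx => ?_
  rw [Fintype.mem_piFinset] at hx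
  have hxQ : ∀ i, x i ^ p ^ (s * m) = x i := fun i => (mem_MU hQ).1 (hx i)
  have hx1 : ∀ i, ‖x i‖ ≤ 1 := fun i => norm_le_one_of_pow hQ (hxQ i)
  by_cases h0 : x i₀ = 0
  · simp only [h0, red_zero, ne_eq, not_true_eq_false, if_false, Nat.cast_zero, ind_zero, zero_mul,
      Finset.sum_const_zero, sub_zero, norm_zero]
    exact hγN
  · have h0' : red p (x i₀) ≠ 0 := fun h => h0 ((red_ne hL (hxQ i₀)).1 h)
    have hwQ : (x i₀ ^ cc) ^ p ^ (s * m) = x i₀ ^ cc := by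
      rw [← pow_mul, mul_comm, pow_mul, hxQ]
    have hinv := red_inv hQ hwQ (pow_ne_zero cc h0)
    rw [red_pow (hx1 i₀)] at hinv
    have hz : ∀ μ : σ →₀ ℕ, ((∏ i, x i ^ μ i) * (x i₀ ^ cc)⁻¹) ^ p ^ (s * m) =
        (∏ i, x i ^ μ i) * (x i₀ ^ cc)⁻¹ := by
      intro μ
      rw [mul_pow, hinv.2, ← Finset.prod_pow]
      congr 1
      refine Finset.prod_congr rfl fun i _ => ?_
      rw [← pow_mul, mul_comm, pow_mul, hxQ]
    have hr : ∀ μ : σ →₀ ℕ, red p ((∏ i, x i ^ μ i) * (x i₀ ^ cc)⁻¹) =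
        (∏ i, red p (x i) ^ μ i) * (red p (x i₀) ^ cc)⁻¹ := by
      intro μ
      have hprod : ‖∏ i, x i ^ μ i‖ ≤ 1 := by
        rw [norm_prod]
        refine Finset.prod_le_one (fun _ _ => norm_nonneg _) fun i _ => ?_
        rw [norm_pow]
        exact pow_le_one₀ (norm_nonneg _) (hx1 i)
      rw [red_mul hprod (norm_le_one_of_pow hQ hinv.2), hinv.1, red_prod]
      · congr 1
        exact Finset.prod_congr rfl fun i _ => red_pow (hx1 i) _
      · intro i _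
        rw [norm_pow]
        exact pow_le_one₀ (norm_nonneg _) (hx1 i)
    have h1 := point_close D hs hm hζ hγ0 hγ hγζ (fun μ => (∏ i, x i ^ μ i) * (x i₀ ^ cc)⁻¹) hz
    simp only [hr] at h1
    simp only [ind_ne h0, one_mul]
    rw [if_pos h0']
    exact h1

end Pg

end Pool.Agent.N867.AS
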