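import Pool.Agent.N867.AS.Y9

/-!
# Boxes and lattice points
-/

set_option autoImplicit false
set_option linter.unusedSectionVars false

namespace Pool.Agent.N867.AS

namespace Pg

open Res Tr GW RedS MvPolynomial

variable {p : ℕ} [hp : Fact p.Prime]

section fan

variable {f : MvPolynomial (Fin 2) (k p)} {cc : ℕ} {ι : Type} {ω : ι → Fin 2 → ℤ}
    {U U' : ι → Fin 2 →₀ ℕ} (hf : Fan f cc ω U U') {s : ℕ} [NeZero s]

/-- bound for the exponents -/
noncomputable def ab (f : MvPolynomial (Fin 2) (k p)) (i : Fin 2) : ℕ := ∑ μ ∈ f.support, μ i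

/-- the box of lattice points -/
noncomputable def Zb (f : MvPolynomial (Fin 2) (k p)) (cc : ℕ) : Finset (ℤ × ℕ) :=
  Finset.Icc (-(cc : ℤ)) (ab f 0) ×ˢ Finset.Icc 1 (ab f 1)

/-- the sum of the codimensions -/
noncomputable def SF0 : ℕ := ∑ z ∈ Zb f cc, (p - 1 - Wt hf z.1 z.2)

/-- the entries of the top block -/
noncomputable def mu0 (l : ZMod s) (z : ℤ × ℕ) : k p :=
  (-1) ^ al hf z.1 z.2 *
    ((coeff (U (face hf z.1 z.2)) f ^ p ^ l.val) ^ al hf z.1 z.2 *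
      (coeff (U' (face hf z.1 z.2)) f ^ p ^ l.val) ^ be hf z.1 z.2)

/-- the lattice points of weight one -/
noncomputable def Zt : Finset (ℤ × ℕ) := by
  classical
  exact (Zb f cc).filter fun z => Wt hf z.1 z.2 = p - 1

/-- the main determinant -/
noncomputable def DT0 (s : ℕ) [NeZero s] : Polynomial (k p) :=
  (∏ z ∈ Zt hf, (1 - Polynomial.X ^ s * Polynomial.C (∏ l : ZMod s, mu0 hf l z))) ^ (p - 1)

include hf

theorem bounds {u : ℤ} {v : ℕ} (h : Wt hf u v ≤ p - 1) :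
    -(cc : ℤ) ≤ u ∧ u ≤ ab f 0 ∧ v ≤ ab f 1 := by
  have hM : (0 : ℤ) < ((p - 1 : ℕ) : ℤ) := Mpos
  have h0 := cov0 hf u v
  have h1 := cov1 hf u v
  have hle : ∀ μ ∈ f.support, ∀ i, μ i ≤ ab f i := fun μ hμ i =>
    Finset.single_le_sum (f := fun μ : Fin 2 →₀ ℕ => μ i) (fun _ _ => Nat.zero_le _) hμ
  obtain ⟨j, hj⟩ : ∃ j, j = face hf u v := ⟨_, rfl⟩
  obtain ⟨α, hα⟩ : ∃ α, α = al hf u v := ⟨_, rfl⟩
  obtain ⟨β, hβ⟩ : ∃ β, β = be hf u v := ⟨_, rfl⟩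
  have hW : α + β ≤ p - 1 := by
    rw [hα, hβ]
    exact h
  have hWz : (α : ℤ) + β ≤ ((p - 1 : ℕ) : ℤ) := by exact_mod_cast hW
  rw [← hj, ← hα, ← hβ] at h0 h1
  have a0 := hle _ (memU hf j).1
  have b0 := hle _ (memU' hf j).1
  have hα0 : (0 : ℤ) ≤ α := Int.natCast_nonneg _
  have hβ0 : (0 : ℤ) ≤ β := Int.natCast_nonneg _
  have hc0 : (0 : ℤ) ≤ cc := Int.natCast_nonneg _
  have gen : ∀ (P Q R : ℤ), P ≤ R → Q ≤ R → 0 ≤ R → (α : ℤ) * P + β * Q ≤
      ((p - 1 : ℕ) : ℤ) * R := by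
    intro P Q R hP hQ hR
    have e1 := mul_le_mul_of_nonneg_left hP hα0
    have e2 := mul_le_mul_of_nonneg_left hQ hβ0
    have e3 := mul_le_mul_of_nonneg_right hWz hR
    linarith
  refine ⟨?_, ?_, ?_⟩
  · have e := gen (-((U j 0 : ℤ) - cc)) (-((U' j 0 : ℤ) - cc)) cc
      (by have : (0 : ℤ) ≤ U j 0 := Int.natCast_nonneg _
          linarith)
      (by have : (0 : ℤ) ≤ U' j 0 := Int.natCast_nonneg _
          linarith) hc0
    have e2 : ((p - 1 : ℕ) : ℤ) * (-(cc : ℤ)) ≤ ((p - 1 : ℕ) : ℤ) * u := by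
      rw [h0]
      linarith
    exact le_of_mul_le_mul_left e2 hM
  · have e := gen ((U j 0 : ℤ) - cc) ((U' j 0 : ℤ) - cc) (ab f 0)
      (by have : (U j 0 : ℤ) ≤ ab f 0 := by exact_mod_cast a0 0
          linarith)
      (by have : (U' j 0 : ℤ) ≤ ab f 0 := by exact_mod_cast b0 0
          linarith) (Int.natCast_nonneg _)
    rw [← h0] at e
    exact le_of_mul_le_mul_left e hM
  · have e := gen (U j 1) (U' j 1) (ab f 1) (by exact_mod_cast a0 1) (by exact_mod_cast b0 1)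
      (Int.natCast_nonneg _)
    rw [← h1] at e
    have := le_of_mul_le_mul_left e hM
    exact_mod_cast this

theorem mem_Zb {u : ℤ} {v : ℕ} (h : Wt hf u v ≤ p - 1) (hv : 0 < v) : (u, v) ∈ Zb f cc := by
  obtain ⟨h1, h2, h3⟩ := bounds hf h
  unfold Zb
  rw [Finset.mem_product, Finset.mem_Icc, Finset.mem_Icc]
  exact ⟨⟨h1, h2⟩, hv, h3⟩

omit hf in
theorem box_exists {E B : ℕ} (hE : cc < E) (hB0 : E + ab f 0 ≤ B) (hB1 : ab f 1 ≤ B)
    {z : ℤ × ℕ} (hz : z ∈ Zb f cc) :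
    ∃ u : Idx (Finset.univ : Finset (Fin 2)) B, (u0 E u, u1 u) = z := by
  unfold Zb at hz
  rw [Finset.mem_product, Finset.mem_Icc, Finset.mem_Icc] at hz
  obtain ⟨⟨h1, h2⟩, h3, h4⟩ := hz
  obtain ⟨n, hn⟩ : ∃ n : ℕ, (n : ℤ) = z.1 + E := ⟨(z.1 + E).toNat, Int.toNat_of_nonneg (by omega)⟩
  refine ⟨⟨![⟨n, by omega⟩, ⟨z.2, by omega⟩], ?_⟩, ?_⟩
  · intro i _
    fin_cases i
    · change n ≠ 0
      omega
    · change z.2 ≠ 0
      omega
  · refine Prod.ext ?_ rfl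
    change (n : ℤ) - E = z.1
    omega

omit hf in
theorem box_inj {E B : ℕ} {u u' : Idx (Finset.univ : Finset (Fin 2)) B}
    (h : (u0 E u, u1 u) = (u0 E u', u1 u')) : u = u' := by
  unfold u0 u1 at h
  simp only [Prod.mk.injEq] at h
  apply Subtype.ext
  funext i
  fin_cases i
  · apply Fin.ext
    change (u.1 0 : ℕ) = (u'.1 0 : ℕ)
    omega
  · apply Fin.ext
    change (u.1 1 : ℕ) = (u'.1 1 : ℕ)
    omega

theorem SF_eq {E B : ℕ} (hE : cc < E) (hB0 : E + ab f 0 ≤ B) (hB1 : ab f 1 ≤ B) :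
    SF hf E B = SF0 hf := by
  classical
  unfold SF SF0
  refine Finset.sum_bij_ne_zero (fun u _ _ => (u0 E u, u1 u)) ?_ ?_ ?_ ?_
  · intro u _ hu
    unfold Wu at hu
    exact mem_Zb hf (by omega) (Nat.pos_of_ne_zero (u.2 1 (Finset.mem_univ _)))
  · intro u _ _ v _ _ h
    exact box_inj h
  · intro z hz hz0
    obtain ⟨u, hu⟩ := box_exists hE hB0 hB1 hz
    refine ⟨u, Finset.mem_univ _, ?_, hu⟩
    rw [← hu] at hz0
    exact hz0
  · intro u _ _
    rfl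

theorem DT_eq {E B : ℕ} (hE : cc < E) (hB0 : E + ab f 0 ≤ B) (hB1 : ab f 1 ≤ B) :
    DT hf E B s = DT0 hf s := by
  classical
  unfold DT DT0
  congr 1
  refine Finset.prod_bij (fun u _ => (u0 E u.1, u1 u.1)) ?_ ?_ ?_ ?_
  · intro u _
    unfold Zt
    rw [Finset.mem_filter]
    have h := u.2
    unfold Wu at h
    exact ⟨mem_Zb hf h.le (Nat.pos_of_ne_zero (u.1.2 1 (Finset.mem_univ _))), h⟩
  · intro u _ v _ h
    exact Subtype.ext (box_inj h)
  · intro z hz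
    unfold Zt at hz
    rw [Finset.mem_filter] at hz
    obtain ⟨u, hu⟩ := box_exists hE hB0 hB1 hz.1
    refine ⟨⟨u, ?_⟩, Finset.mem_univ _, hu⟩
    unfold Wu
    have := hz.2
    rw [← hu] at this
    exact this
  · intro u _
    rfl

end fan

end Pg

end Pool.Agent.N867.AS
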