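import Pool.Agent.N867.AS.Y11
import Pool.Agent.N867.AS.K13

/-!
# The number of unit roots equal to one
-/

set_option autoImplicit false
set_option linter.unusedSectionVars false

namespace Pool.Agent.N867.AS

namespace Pg

section mult

open Polynomial

variable {F : Type} [Field F]

theorem prod_ne [DecidableEq F] {s : ℕ} (hs : s ≠ 0) (L : Multiset F) :
    (L.map fun l => (1 - C l * X ^ s : F[X])).prod ≠ 0 := by
  refine Multiset.prod_ne_zero fun h => ?_
  rw [Multiset.mem_map] at h
  obtain ⟨l, _, hl⟩ := h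
  exact VD.one_sub_ne hs l hl

theorem mult_eq [DecidableEq F] {s : ℕ} (hs : s ≠ 0) (L : Multiset F) :
    rootMultiplicity (1 : F) (L.map fun l => (1 - C l * X ^ s : F[X])).prod =
      L.count 1 * rootMultiplicity (1 : F) (1 - X ^ s) := by
  induction L using Multiset.induction_on with
  | empty => simp [rootMultiplicity_eq_zero]
  | cons l L ih =>
    rw [Multiset.map_cons, Multiset.prod_cons, rootMultiplicity_mul (mul_ne_zero
      (VD.one_sub_ne hs l) (prod_ne hs L)), Multiset.count_cons, ih]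
    split_ifs with h
    · rw [← h, C_1, one_mul, add_mul, one_mul, add_comm]
    · rw [add_zero, rootMultiplicity_eq_zero, zero_add]
      rw [IsRoot]
      simp only [eval_sub, eval_one, eval_mul, eval_C, eval_pow, eval_X, one_pow, mul_one]
      intro h0
      exact h (sub_eq_zero.1 h0)

theorem count_one [DecidableEq F] {s : ℕ} (hs : s ≠ 0) (A L : Multiset F) {w w' : F}
    (hw : w ≠ 0) (hw' : w' ≠ 0) (a b : ℕ)
    (h : C w' * X ^ b * (A.map fun l => (1 - C l * X ^ s : F[X])).prod =
      C w * (X ^ a * (L.map fun l => (1 - C l * X ^ s : F[X])).prod)) :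
    L.count 1 = A.count 1 := by
  have hmpos := VD.mult_pos (F := F) hs
  have hX : ∀ a : ℕ, rootMultiplicity (1 : F) (X ^ a : F[X]) = 0 := by
    intro a
    refine rootMultiplicity_eq_zero ?_
    rw [IsRoot]
    simp
  have hC : ∀ c : F, rootMultiplicity (1 : F) (C c) = 0 := fun c => rootMultiplicity_C _ _
  have h1 := congrArg (rootMultiplicity (1 : F)) h
  rw [rootMultiplicity_mul (mul_ne_zero (mul_ne_zero (C_ne_zero.2 hw') (pow_ne_zero _ X_ne_zero))
    (prod_ne hs A)), rootMultiplicity_mul (mul_ne_zero (C_ne_zero.2 hw')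
    (pow_ne_zero _ X_ne_zero)),
    rootMultiplicity_mul (mul_ne_zero (C_ne_zero.2 hw) (mul_ne_zero (pow_ne_zero _ X_ne_zero)
    (prod_ne hs L))), rootMultiplicity_mul (mul_ne_zero (pow_ne_zero _ X_ne_zero)
    (prod_ne hs L)), hX, hX, hC, hC, zero_add, zero_add, zero_add, zero_add, mult_eq hs,
    mult_eq hs] at h1
  exact (Nat.eq_of_mul_eq_mul_right hmpos h1).symm

end mult

open MvPolynomial Res Tr Bd RedS GW

variable {p : ℕ} [hp : Fact p.Prime]

theorem sum_val {s : ℕ} [NeZero s] (g : ℕ → ℕ) :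
    ∑ l : ZMod s, g l.val = ∑ j ∈ Finset.range s, g j := by
  refine Finset.sum_bij (fun l _ => l.val) (fun l _ => ?_) (fun l _ l' _ h => ?_)
    (fun j hj => ?_) (fun l _ => rfl)
  · rw [Finset.mem_range]
    exact ZMod.val_lt l
  · exact ZMod.val_injective s h
  · refine ⟨(j : ZMod s), Finset.mem_univ _, ?_⟩
    rw [ZMod.val_natCast, Nat.mod_eq_of_lt (Finset.mem_range.1 hj)]

section fan

variable {f : MvPolynomial (Fin 2) (k p)} {cc : ℕ} {ι : Type} {ω : ι → Fin 2 → ℤ}
    {U U' : ι → Fin 2 →₀ ℕ} (hf : Fan f cc ω U U') {s : ℕ} [NeZero s]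

/-- the eigenvalue -/
noncomputable def lam (s : ℕ) (z : ℤ × ℕ) : k p :=
  (-1) ^ (s * al hf z.1 z.2) *
    (coeff (U (face hf z.1 z.2)) f ^ (al hf z.1 z.2 * ∑ j ∈ Finset.range s, p ^ j) *
      coeff (U' (face hf z.1 z.2)) f ^ (be hf z.1 z.2 * ∑ j ∈ Finset.range s, p ^ j))

theorem prod_mu0 (z : ℤ × ℕ) : ∏ l : ZMod s, mu0 hf l z = lam hf s z := by
  unfold mu0 lam
  rw [Finset.prod_mul_distrib, Finset.prod_mul_distrib, Finset.prod_const, Finset.card_univ,
    ZMod.card, ← pow_mul, mul_comm (al hf z.1 z.2) s]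
  congr 1
  have h : ∀ (c : k p) (n : ℕ), ∏ l : ZMod s, (c ^ p ^ l.val) ^ n =
      c ^ (n * ∑ j ∈ Finset.range s, p ^ j) := by
    intro c n
    rw [← sum_val (fun j => p ^ j), Finset.mul_sum, ← Finset.prod_pow_eq_pow_sum]
    refine Finset.prod_congr rfl fun l _ => ?_
    rw [← pow_mul, mul_comm]
  rw [h, h]

theorem DT0_eq : DT0 hf s = ((((Zt hf).val.map (lam hf s)).bind fun l =>
    Multiset.replicate (p - 1) l).map fun l => (1 - Polynomial.C l * Polynomial.X ^ s :
      Polynomial (k p))).prod := by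
  unfold DT0
  rw [Multiset.map_bind, Multiset.prod_bind, Multiset.map_map, ← Finset.prod_pow]
  change _ = ∏ z ∈ Zt hf, _
  refine Finset.prod_congr rfl fun z _ => ?_
  rw [prod_mu0]
  simp only [Function.comp_apply, Multiset.map_replicate, Multiset.prod_replicate]
  rw [mul_comm]

theorem count_DT [DecidableEq (k p)] : (((Zt hf).val.map (lam hf s)).bind fun l =>
    Multiset.replicate (p - 1) l).count 1 =
      (p - 1) * ((Zt hf).filter fun z => lam hf s z = 1).card := by
  classical
  rw [Multiset.count_bind, Multiset.map_map, Finset.card_filter, Finset.mul_sum]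
  change ∑ z ∈ Zt hf, _ = _
  refine Finset.sum_congr rfl fun z _ => ?_
  simp only [Function.comp_apply, Multiset.count_replicate]
  split_ifs <;> simp

end fan

/-- the number of unit roots -/
theorem unit_count {Γ : Type} [Fintype Γ] {f : Γ → MvPolynomial (Fin 2) (k p)} {cc : ℕ}
    {ι : Γ → Type} {ω : ∀ c, ι c → Fin 2 → ℤ} {U U' : ∀ c, ι c → Fin 2 →₀ ℕ}
    (hf : ∀ c, Fan (f c) cc (ω c) (U c) (U' c)) {s : ℕ} (hs : s ≠ 0) [NeZero s]
    [DecidableEq (k p)] (L : Multiset (k p)) {w w' : k p} (hw : w ≠ 0) (hw' : w' ≠ 0)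
    (a b : ℕ) (h : Polynomial.C w' * Polynomial.X ^ b * ∏ i, DT0 (hf i) s =
        Polynomial.C w * (Polynomial.X ^ a *
          (L.map fun l => (1 - Polynomial.C l * Polynomial.X ^ s : Polynomial (k p))).prod) *
          ((1 - Polynomial.X ^ s) ^ (p - 1)) ^ (Fintype.card Γ))
    {R : Γ → ℕ} (hR : ∀ c, ((Zt (hf c)).filter fun z => lam (hf c) s z = 1).card = R c + 1) :
    L.count 1 = (p - 1) * ∑ c, R c := by
  classical
  obtain ⟨A, hA⟩ : ∃ A : Γ → Multiset (k p), ∀ c, A c =
    (((Zt (hf c)).val.map (lam (hf c) s)).bind fun l => Multiset.replicate (p - 1) l) :=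
    ⟨_, fun _ => rfl⟩
  have h1 : ∏ i, DT0 (hf i) s = ((∑ c, A c).map fun l =>
      (1 - Polynomial.C l * Polynomial.X ^ s : Polynomial (k p))).prod := by
    rw [Finset.prod_congr rfl fun c _ => DT0_eq (hf c)]
    simp only [← hA]
    rw [← Multiset.coe_mapAddMonoidHom, map_sum]
    have h2 : ∀ S : Finset Γ, (∑ x ∈ S, (Multiset.mapAddMonoidHom fun l =>
        (1 - Polynomial.C l * Polynomial.X ^ s : Polynomial (k p))) (A x)).prod =
        ∏ x ∈ S, ((A x).map fun l =>
          (1 - Polynomial.C l * Polynomial.X ^ s : Polynomial (k p))).prod := by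
      intro S
      induction S using Finset.induction_on with
      | empty => simp
      | insert c S hc ih =>
        rw [Finset.sum_insert hc, Multiset.prod_add, ih, Finset.prod_insert hc]
        rfl
    exact (h2 Finset.univ).symm
  have h3 : (L + Multiset.replicate ((p - 1) * Fintype.card Γ) 1).count 1 =
      (∑ c, A c).count 1 := by
    refine count_one hs (∑ c, A c) _ hw hw' a b ?_
    rw [← h1, h, Multiset.map_add, Multiset.prod_add, Multiset.map_replicate,
      Multiset.prod_replicate, Polynomial.C_1, one_mul, ← pow_mul]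
    ring
  rw [Multiset.count_add, Multiset.count_replicate_self] at h3
  have h4 : (∑ c, A c).count 1 = ∑ c, (p - 1) * (R c + 1) := by
    have h5 : (∑ c, A c).count 1 = ∑ c, (A c).count 1 := by
      rw [← Multiset.coe_countAddMonoidHom, map_sum]
    rw [h5]
    refine Finset.sum_congr rfl fun c _ => ?_
    rw [hA, count_DT, hR]
  rw [h4] at h3
  have h6 : ∑ c : Γ, (p - 1) * (R c + 1) = (p - 1) * ∑ c, R c + (p - 1) * Fintype.card Γ := by
    simp only [mul_add, mul_one, Finset.sum_add_distrib, Finset.mul_sum, Finset.sum_const,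
      Finset.card_univ, smul_eq_mul]
    ring
  rw [h6] at h3
  exact Nat.add_right_cancel h3

end Pg

end Pool.Agent.N867.AS
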