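import Pool.Agent.N867.AS.Y12
import Pool.Agent.N867.AS.K14

/-!
# Families of curves with fans: order and leading coefficient
-/

set_option autoImplicit false
set_option linter.unusedSectionVars false

namespace Pool.Agent.N867.AS

namespace Pg

open MvPolynomial Bd GW Tr Res Pool.Agent.N867.AS.Trans

variable {p : ℕ} [hp : Fact p.Prime] {κ : Type} [Field κ]

/-- the number of solutions of `(y^p - y) t^cc = f`, `t ≠ 0`, in `F_Q^3` -/
noncomputable def Nptc (p cc : ℕ) (f : Polynomial (Polynomial κ)) (Q : ℕ) : ℕ :=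
  Nat.card {v : AlgebraicClosure κ × AlgebraicClosure κ × AlgebraicClosure κ //
    v.1 ^ Q = v.1 ∧ v.2.1 ^ Q = v.2.1 ∧ v.2.1 ≠ 0 ∧ v.2.2 ^ Q = v.2.2 ∧
    (v.2.2 ^ p - v.2.2) * v.2.1 ^ cc = f.eval₂ (Polynomial.eval₂RingHom
      (algebraMap κ (AlgebraicClosure κ)) v.1) v.2.1}

theorem lpts_eq_Nptc (cc : ℕ) (φ : AlgebraicClosure κ →+* Res.k p)
    (f : Polynomial (Polynomial κ)) {Q : ℕ} (hQ : 1 < Q) :
    lpts 0 cc (Ψ (φ.comp (algebraMap κ (AlgebraicClosure κ))) f) Q = Nptc p cc f Q := by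
  have hev : ∀ t x : AlgebraicClosure κ,
      f.eval₂ (Polynomial.eval₂RingHom (φ.comp (algebraMap κ (AlgebraicClosure κ))) (φ t)) (φ x) =
        φ (f.eval₂ (Polynomial.eval₂RingHom (algebraMap κ (AlgebraicClosure κ)) t) x) := by
    intro t x
    rw [Polynomial.hom_eval₂]
    congr 1
    refine Polynomial.ringHom_ext' ?_ ?_
    · ext c
      simp
    · simp
  unfold lpts Nptc
  symm
  refine Nat.card_congr (Equiv.ofBijective (fun v => ⟨(![φ v.1.2.1, φ v.1.1], φ v.1.2.2), ?_⟩) ?_)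
  · obtain ⟨⟨t, x, y⟩, h1, h2, h0, h3, h4⟩ := v
    simp only at h0 h1 h2 h3 h4
    refine ⟨?_, ?_, ?_, ?_⟩
    · intro i
      fin_cases i
      · change φ x ^ Q = φ x
        rw [← map_pow, h2]
      · change φ t ^ Q = φ t
        rw [← map_pow, h1]
    · change φ x ≠ 0
      exact (map_ne_zero φ).2 h0
    · change φ y ^ Q = φ y
      rw [← map_pow, h3]
    · rw [eval_Ψ]
      change (φ y ^ p - φ y) * φ x ^ cc = f.eval₂ (Polynomial.eval₂RingHom _ (φ t)) (φ x)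
      rw [hev, ← h4, map_mul, map_sub, map_pow, map_pow]
  · constructor
    · rintro ⟨⟨t, x, y⟩, h1⟩ ⟨⟨t', x', y'⟩, h1'⟩ h
      have h2 := congrArg Subtype.val h
      have h3 := congrArg (fun w => w.1 0) h2
      have h4 := congrArg (fun w => w.1 1) h2
      have h5 := congrArg (fun w => w.2) h2
      have h6 : x = x' := φ.injective h3
      have h7 : t = t' := φ.injective h4
      have h8 : y = y' := φ.injective h5
      subst h6 h7 h8
      rfl
    · rintro ⟨⟨w, z⟩, h1, h0, h2, h3⟩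
      obtain ⟨x, hx⟩ := exists_preimage φ hQ (h1 0)
      obtain ⟨t, ht⟩ := exists_preimage φ hQ (h1 1)
      obtain ⟨y, hy⟩ := exists_preimage φ hQ h2
      refine ⟨⟨(t, x, y), ?_, ?_, ?_, ?_, ?_⟩, ?_⟩
      · apply φ.injective
        change φ (t ^ Q) = φ t
        rw [map_pow, ht]
        exact h1 1
      · apply φ.injective
        change φ (x ^ Q) = φ x
        rw [map_pow, hx]
        exact h1 0
      · intro h4
        apply h0
        change x = 0 at h4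
        have h5 : (w, z).1 0 = 0 := by
          rw [← hx, h4, map_zero]
        exact h5
      · apply φ.injective
        change φ (y ^ Q) = φ y
        rw [map_pow, hy]
        exact h2
      · apply φ.injective
        change φ ((y ^ p - y) * x ^ cc) =
          φ (f.eval₂ (Polynomial.eval₂RingHom (algebraMap κ (AlgebraicClosure κ)) t) x)
        rw [← hev, map_mul, map_sub, map_pow, map_pow, ht, hx, hy]
        rw [eval_Ψ] at h3
        exact h3
      · apply Subtype.ext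
        change (![φ x, φ t], φ y) = (w, z)
        rw [hx, ht, hy]
        refine Prod.ext ?_ rfl
        ext i
        fin_cases i <;> rfl

/-- hypotheses on the polynomial -/
structure FanK (p cc : ℕ) (f : Polynomial (Polynomial κ)) {ι : Type} (ω : ι → Fin 2 → ℤ)
    (U U' : ι → Fin 2 →₀ ℕ) : Prop where
  hcc : cc ≠ 0
  le : ∀ i μ, (f.coeff (μ 0)).coeff (μ 1) ≠ 0 →
    Lau.wz (ω i) μ - cc * ω i 0 ≤ ((p - 1 : ℕ) : ℤ)
  top : ∀ i μ, ((f.coeff (μ 0)).coeff (μ 1) ≠ 0 ∧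
    Lau.wz (ω i) μ - cc * ω i 0 = ((p - 1 : ℕ) : ℤ)) ↔ (μ = U i ∨ μ = U' i)
  ind : ∀ i, ((U i 0 : ℤ) - cc) * U' i 1 - U i 1 * ((U' i 0 : ℤ) - cc) ≠ 0
  cover : ∀ (u : ℤ) (v : ℕ), ∃ i, ∃ α β : ℕ,
    ((p - 1 : ℕ) : ℤ) * u = α * ((U i 0 : ℤ) - cc) + β * ((U' i 0 : ℤ) - cc) ∧
    ((p - 1 : ℕ) : ℤ) * v = α * U i 1 + β * U' i 1 ∧ (0 < v → 0 < α)

theorem FanK.fan {cc : ℕ} {f : Polynomial (Polynomial κ)} {ι : Type} {ω : ι → Fin 2 → ℤ}
    {U U' : ι → Fin 2 →₀ ℕ} (hf : FanK p cc f ω U U') (φκ : κ →+* Res.k p) :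
    Fan (Ψ φκ f) cc ω U U' := by
  have h0 : ∀ μ, μ ∈ (Ψ φκ f).support ↔ (f.coeff (μ 0)).coeff (μ 1) ≠ 0 := by
    intro μ
    rw [mem_support_iff, coeff_Ψ, map_ne_zero]
  refine ⟨hf.hcc, fun i μ hμ => hf.le i μ ((h0 μ).1 hμ), fun i μ => ?_, hf.ind, hf.cover⟩
  rw [h0]
  exact hf.top i μ

/-- order and leading coefficient -/
theorem famF {Γ : Type} [Fintype Γ] {cc : ℕ} (hcc : cc ≠ 0) {ι : Γ → Type}
    {ω : ∀ c, ι c → Fin 2 → ℤ} {U U' : ∀ c, ι c → Fin 2 →₀ ℕ}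
    (f : Γ → Polynomial (Polynomial κ)) (hf : ∀ c, FanK p cc (f c) (ω c) (U c) (U' c))
    [Fintype κ] [CharP κ p] {s : ℕ} (hs : Fintype.card κ = p ^ s) (R₀ N₀ : Γ → ℕ)
    (hR₀ : ∀ c (φκ : κ →+* Res.k p) [DecidableEq (k p)],
      ((Zt ((hf c).fan φκ)).filter fun z => lam ((hf c).fan φκ) s z = 1).card = R₀ c + 1)
    (hN₀ : ∀ c (φκ : κ →+* Res.k p), SF0 ((hf c).fan φκ) = N₀ c)
    (L : Polynomial ℚ) (hL0 : L.coeff 0 = 1)
    (hL : PowerSeries.X * PowerSeries.derivative ℚ (L : PowerSeries ℚ) =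
      (L : PowerSeries ℚ) * PowerSeries.mk (fun m => if m = 0 then 0 else
        ∑ c, (((Fintype.card κ : ℚ) ^ m - 1) * (Fintype.card κ : ℚ) ^ m -
          (Nptc p cc (f c) (Fintype.card κ ^ m) : ℚ))))
    {r : ℕ} {M' : Polynomial ℚ}
    (hLM : L = (1 - Polynomial.C ((p : ℚ) ^ s) * Polynomial.X) ^ r * M')
    (hM' : M'.eval (1 / (p : ℚ) ^ s) ≠ 0) {N R : ℕ}
    (hN : N = ∑ c, s * N₀ c)
    (hR : R = (p - 1) * ∑ c, R₀ c) :
    r ≤ R ∧ -(N : ℤ) ≤ padicValRat p (M'.eval (1 / (p : ℚ) ^ s)) ∧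
      (padicValRat p (M'.eval (1 / (p : ℚ) ^ s)) = -(N : ℤ) ↔ r = R) := by
  classical
  have hp2 := hp.1.two_le
  have hs0 : s ≠ 0 := by
    rintro rfl
    rw [pow_zero] at hs
    exact absurd hs (Fintype.one_lt_card (α := κ)).ne'
  have : NeZero s := ⟨hs0⟩
  -- the embedding of the algebraic closure
  obtain ⟨φ⟩ : Nonempty (AlgebraicClosure κ →+* Res.k p) := by
    have hch : CharP (AlgebraicClosure κ) p :=
      charP_of_injective_algebraMap (algebraMap κ (AlgebraicClosure κ)).injective p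
    let _ : Algebra (ZMod p) κ := ZMod.algebra κ p
    have _ : IsScalarTower (ZMod p) κ (AlgebraicClosure κ) := inferInstance
    have _ : Algebra.IsAlgebraic (ZMod p) κ := Algebra.IsAlgebraic.of_finite _ _
    have _ : Algebra.IsAlgebraic (ZMod p) (AlgebraicClosure κ) :=
      Algebra.IsAlgebraic.trans (ZMod p) κ (AlgebraicClosure κ)
    let _ : Algebra (ZMod p) (Res.k p) := ZMod.algebra _ p
    exact ⟨(IsAlgClosed.lift (R := ZMod p) (S := AlgebraicClosure κ) (M := Res.k p)).toRingHom⟩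
  obtain ⟨φκ, hφκ⟩ : ∃ φκ : κ →+* Res.k p, φκ = φ.comp (algebraMap κ (AlgebraicClosure κ)) :=
    ⟨_, rfl⟩
  have hfs : ∀ c μ, coeff μ (Ψ φκ (f c)) ^ p ^ s = coeff μ (Ψ φκ (f c)) := by
    intro c μ
    rw [coeff_Ψ, ← map_pow, ← hs, FiniteField.pow_card]
  -- the power series
  let c₀ : ℚ →+* PadicAlgCl p := algebraMap ℚ (PadicAlgCl p)
  have hPS : HasPS (L : PowerSeries ℚ) (fun m => ∑ c,
      ((Nptc p cc (f c) (Fintype.card κ ^ m) : ℚ) -
        ((Fintype.card κ : ℚ) ^ m - 1) * (Fintype.card κ : ℚ) ^ m)) := by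
    refine ⟨?_, ?_⟩
    · rw [← PowerSeries.coeff_zero_eq_constantCoeff_apply, Polynomial.coeff_coe, hL0]
    · rw [hL, ← mul_neg]
      congr 1
      ext m
      rw [pser, map_neg, PowerSeries.coeff_mk, PowerSeries.coeff_mk]
      split_ifs
      · rw [neg_zero]
      · rw [← Finset.sum_neg_distrib]
        refine Finset.sum_congr rfl fun c _ => ?_
        ring
  have hPS2 := hPS.map c₀
  have hPS3 : HasPS ((L.map c₀ : Polynomial (PadicAlgCl p)) : PowerSeries (PadicAlgCl p))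
      (fun m => ∑ c, ((lpts 0 cc (Ψ φκ (f c)) (p ^ (s * m)) : PadicAlgCl p) -
      (((p ^ (s * m) : ℕ) : PadicAlgCl p) - 1) * ((p ^ (s * m) : ℕ) : PadicAlgCl p))) := by
    rw [Polynomial.polynomial_map_coe] at *
    refine ⟨hPS2.1, ?_⟩
    rw [hPS2.2]
    congr 2
    refine pser_congr fun m hm => ?_
    rw [map_sum]
    refine Finset.sum_congr rfl fun c _ => ?_
    have hQ : 1 < p ^ (s * m) := Nat.one_lt_pow (mul_ne_zero hs0 hm) hp.1.one_lt
    rw [hφκ, lpts_eq_Nptc cc φ (f c) hQ, hs, ← pow_mul, map_sub, map_natCast, map_mul, map_sub,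
      map_pow, map_natCast, map_one]
    push_cast
    rw [← pow_mul]
  obtain ⟨Λ, hΛ⟩ : ∃ Λ : Multiset (PadicAlgCl p), Λ = (L.map c₀).roots.map
    (fun ρ => ρ⁻¹ * ((p : PadicAlgCl p)⁻¹) ^ s) := ⟨_, rfl⟩
  obtain ⟨w, w', α, β, hw, hw', hnorm, heq⟩ := count_F hcc (fun c => (hf c).fan φκ) hs0 hfs
    (L.map c₀) hPS3 hΛ
  have hcount := unit_count (fun c => (hf c).fan φκ) hs0 _ hw hw' α β heq
    (fun c => hR₀ c φκ)
  refine LC.conclude hs0 hL0 hLM hM' hΛ ?_ (hcount.trans hR.symm)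
  rw [hnorm, hN]
  simp only [hN₀]

end Pg

end Pool.Agent.N867.AS
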