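import Pool.Agent.N867.AS.Y13

/-!
# Polygons give fans
-/

set_option autoImplicit false
set_option linter.unusedSectionVars false

namespace Pool.Agent.N867.AS

namespace Pg

open Res Tr GW RedS

variable {p : ℕ} [hp : Fact p.Prime] {κ : Type} [Field κ]

/-- the determinant of an edge -/
def DV (V : ℕ → ℤ × ℕ) (i : ℕ) : ℤ := (V i).1 * (V (i + 1)).2 - (V i).2 * (V (i + 1)).1

/-- the linear form of an edge -/
def ell (V : ℕ → ℤ × ℕ) (i : ℕ) (a b : ℤ) : ℤ :=
  a * (((V (i + 1)).2 : ℤ) - (V i).2) - b * ((V (i + 1)).1 - (V i).1)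

/-- all vertices and edges -/
structure IsPoly (p cc : ℕ) (G : Polynomial (Polynomial κ)) (n : ℕ) (V : ℕ → ℤ × ℕ) : Prop where
  hcc : cc ≠ 0
  zero : (V 0).2 = 0 ∧ 0 < (V 0).1
  last : (V n).2 = 0 ∧ (V n).1 < 0
  mid : ∀ i, 0 < i → i < n → 0 < (V i).2
  det : ∀ i < n, 0 < DV V i ∧ DV V i ∣ ((p - 1 : ℕ) : ℤ)
  vert : ∀ i ≤ n, ∃ a : ℕ, (a : ℤ) = (V i).1 + cc ∧ (G.coeff a).coeff (V i).2 ≠ 0
  le : ∀ a b, (G.coeff a).coeff b ≠ 0 → ∀ i < n, ell V i ((a : ℤ) - cc) b ≤ DV V i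
  eq : ∀ a b, (G.coeff a).coeff b ≠ 0 → ∀ i < n, ell V i ((a : ℤ) - cc) b = DV V i →
    (((a : ℤ) - cc, b) = V i ∨ ((a : ℤ) - cc, b) = V (i + 1))

/-- the exponents of the vertices -/
noncomputable def vx (cc : ℕ) (V : ℕ → ℤ × ℕ) (i : ℕ) : Fin 2 →₀ ℕ :=
  Finsupp.equivFunOnFinite.symm ![((V i).1 + cc).toNat, (V i).2]

theorem vx_zero (cc : ℕ) (V : ℕ → ℤ × ℕ) (i : ℕ) : vx cc V i 0 = ((V i).1 + cc).toNat := rfl

theorem vx_one (cc : ℕ) (V : ℕ → ℤ × ℕ) (i : ℕ) : vx cc V i 1 = (V i).2 := rfl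

/-- the weights -/
def om (p : ℕ) (V : ℕ → ℤ × ℕ) (i : ℕ) : Fin 2 → ℤ :=
  ![((p - 1 : ℕ) : ℤ) / DV V i * (((V (i + 1)).2 : ℤ) - (V i).2),
    -(((p - 1 : ℕ) : ℤ) / DV V i * ((V (i + 1)).1 - (V i).1))]

theorem om_eq (p : ℕ) (V : ℕ → ℤ × ℕ) (i : ℕ) (a b : ℤ) :
    om p V i 0 * a + om p V i 1 * b = ((p - 1 : ℕ) : ℤ) / DV V i * ell V i a b := by
  change ((p - 1 : ℕ) : ℤ) / DV V i * (((V (i + 1)).2 : ℤ) - (V i).2) * a +
    -(((p - 1 : ℕ) : ℤ) / DV V i * ((V (i + 1)).1 - (V i).1)) * b = _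
  unfold ell
  ring

section poly

variable {cc n : ℕ} {G : Polynomial (Polynomial κ)} {V : ℕ → ℤ × ℕ}
  (hG : IsPoly p cc G n V)

include hG

omit hG in
theorem pDV {i : ℕ} (h : DV V i ∣ ((p - 1 : ℕ) : ℤ)) :
    ((p - 1 : ℕ) : ℤ) / DV V i * DV V i = ((p - 1 : ℕ) : ℤ) := Int.ediv_mul_cancel h

theorem quo_pos {i : ℕ} (hi : i < n) : 0 < ((p - 1 : ℕ) : ℤ) / DV V i := by
  have h1 := (hG.det i hi).1
  have h2 := pDV (hG.det i hi).2
  have h3 : (0 : ℤ) < ((p - 1 : ℕ) : ℤ) := Mpos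
  by_contra h4
  have h5 : ((p - 1 : ℕ) : ℤ) / DV V i * DV V i ≤ 0 :=
    mul_nonpos_of_nonpos_of_nonneg (not_lt.1 h4) h1.le
  omega

theorem vx0 {i : ℕ} (hi : i ≤ n) : ((vx cc V i 0 : ℕ) : ℤ) = (V i).1 + cc := by
  obtain ⟨a, ha, _⟩ := hG.vert i hi
  rw [vx_zero, ← ha, Int.toNat_natCast]

theorem two_le : 2 ≤ n := by
  have h0 : 0 < n := by
    by_contra h
    have h1 : n = 0 := by omega
    have h2 := hG.last.2
    rw [h1] at h2
    have := hG.zero.2
    omega
  by_contra h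
  have h1 : n = 1 := by omega
  have h2 := (hG.det 0 h0).1
  unfold DV at h2
  have h3 := hG.last.1
  rw [h1] at h3
  rw [hG.zero.1, zero_add, h3] at h2
  simp at h2

/-- two vertices -/
theorem det_pos {i j : ℕ} (hij : i < j) (hj : j ≤ n) :
    (i = 0 ∧ j = n) ∨ 0 < (V i).1 * (V j).2 - (V i).2 * (V j).1 := by
  induction j with
  | zero => omega
  | succ j ih =>
    rcases Nat.lt_or_ge i j with h | h
    · have h1 : 0 < (V j).2 := hG.mid j (by omega) (by omega)
      have h2 := (ih h (by omega)).resolve_left (by omega)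
      have h3 := (hG.det j (by omega)).1
      unfold DV at h3
      by_cases h4 : i = 0 ∧ j + 1 = n
      · exact Or.inl h4
      · right
        have h5 : ((V j).2 : ℤ) * ((V i).1 * (V (j + 1)).2 - (V i).2 * (V (j + 1)).1) =
            ((V i).1 * (V j).2 - (V i).2 * (V j).1) * (V (j + 1)).2 +
            ((V j).1 * (V (j + 1)).2 - (V j).2 * (V (j + 1)).1) * (V i).2 := by ring
        have h6 : (0 : ℤ) ≤ (V (j + 1)).2 := Int.natCast_nonneg _
        have h7 : (0 : ℤ) ≤ (V i).2 := Int.natCast_nonneg _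
        have h8 : (0 : ℤ) < (V j).2 := by exact_mod_cast h1
        refine (pos_iff_pos_of_mul_pos ?_).1 h8
        rw [h5]
        by_cases h9 : i = 0
        · have h10 : 0 < (V (j + 1)).2 := hG.mid _ (by omega) (by omega)
          have h11 : (0 : ℤ) < (V (j + 1)).2 := by exact_mod_cast h10
          exact add_pos_of_pos_of_nonneg (mul_pos h2 h11) (mul_nonneg h3.le h7)
        · have h10 : 0 < (V i).2 := hG.mid _ (by omega) (by omega)
          have h11 : (0 : ℤ) < (V i).2 := by exact_mod_cast h10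
          exact add_pos_of_nonneg_of_pos (mul_nonneg h2.le h6) (mul_pos h3 h11)
    · have h1 : i = j := by omega
      right
      rw [h1]
      exact (hG.det j (by omega)).1

theorem V_inj {i j : ℕ} (hi : i ≤ n) (hj : j ≤ n) (h : V i = V j) : i = j := by
  wlog hij : i ≤ j generalizing i j
  · exact (this hj hi h.symm (by omega)).symm
  by_contra h1
  rcases det_pos hG (i := i) (j := j) (by omega) hj with ⟨h2, h3⟩ | h2
  · subst h2 h3
    have h4 := hG.zero.2
    have h5 := hG.last.2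
    rw [← h] at h5
    omega
  · rw [h] at h2
    have h3 : (V j).1 * ((V j).2 : ℤ) - (V j).2 * (V j).1 = 0 := by ring
    omega

theorem vx_inj {i j : ℕ} (hi : i ≤ n) (hj : j ≤ n) (h : vx cc V i = vx cc V j) : i = j := by
  refine V_inj hG hi hj (Prod.ext ?_ ?_)
  · have h1 := vx0 hG hi
    have h2 := vx0 hG hj
    rw [h] at h1
    omega
  · rw [← vx_one cc V i, h, vx_one]

theorem ell_left (i : ℕ) : ell V i (V i).1 (V i).2 = DV V i := by
  unfold ell DV
  ring

theorem ell_right (i : ℕ) : ell V i (V (i + 1)).1 (V (i + 1)).2 = DV V i := by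
  unfold ell DV
  ring

/-- the cone containing a point -/
theorem cone (u : ℤ) (v : ℕ) : ∃ i < n, 0 ≤ (V i).1 * (v : ℤ) - (V i).2 * u ∧
    (V (i + 1)).1 * (v : ℤ) - (V (i + 1)).2 * u ≤ 0 ∧
    (0 < v → (V (i + 1)).1 * (v : ℤ) - (V (i + 1)).2 * u < 0) := by
  classical
  have hn := two_le hG
  rcases Nat.eq_zero_or_pos v with hv | hv
  · subst hv
    simp only [Nat.cast_zero, mul_zero, zero_sub, lt_irrefl, false_implies, and_true]
    by_cases hu : 0 ≤ u
    · refine ⟨0, by omega, ?_, ?_⟩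
      · rw [hG.zero.1]
        simp
      · have h1 : (0 : ℤ) ≤ ((V (0 + 1)).2 : ℤ) * u := mul_nonneg (Int.natCast_nonneg _) hu
        omega
    · refine ⟨n - 1, by omega, ?_, ?_⟩
      · have h1 : ((V (n - 1)).2 : ℤ) * u ≤ 0 :=
          mul_nonpos_of_nonneg_of_nonpos (Int.natCast_nonneg _) (by omega)
        omega
      · rw [Nat.sub_add_cancel (by omega), hG.last.1]
        simp
  · have hv' : (0 : ℤ) < v := by exact_mod_cast hv
    have hex : ∃ j, j ≤ n ∧ (V j).1 * (v : ℤ) - (V j).2 * u < 0 := by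
      refine ⟨n, le_rfl, ?_⟩
      rw [hG.last.1]
      have := mul_neg_of_neg_of_pos hG.last.2 hv'
      simp only [Nat.cast_zero, zero_mul, sub_zero]
      exact this
    obtain ⟨j, hj⟩ : ∃ j, j = Nat.find hex := ⟨_, rfl⟩
    have h1 := Nat.find_spec hex
    rw [← hj] at h1
    have h0 : j ≠ 0 := by
      intro h
      rw [h, hG.zero.1] at h1
      have := mul_pos hG.zero.2 hv'
      have h2 := h1.2
      simp only [Nat.cast_zero, zero_mul, sub_zero] at h2
      omega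
    refine ⟨j - 1, by omega, ?_, ?_, ?_⟩
    · have h2 := Nat.find_min hex (m := j - 1) (by omega)
      by_contra h3
      exact h2 ⟨by omega, not_le.1 h3⟩
    · rw [Nat.sub_add_cancel (by omega)]
      exact h1.2.le
    · intro _
      rw [Nat.sub_add_cancel (by omega)]
      exact h1.2

/-- a polygon gives a fan -/
theorem fanK : FanK p cc G (ι := Fin n) (fun i => om p V i) (fun i => vx cc V i)
    (fun i => vx cc V (i + 1)) := by
  have hwz : ∀ (i : Fin n) (μ : Fin 2 →₀ ℕ), Lau.wz (om p V i) μ - cc * om p V i 0 =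
      ((p - 1 : ℕ) : ℤ) / DV V i * ell V i ((μ 0 : ℤ) - cc) (μ 1) := by
    intro i μ
    rw [wz_two, ← om_eq]
    ring
  refine ⟨hG.hcc, ?_, ?_, ?_, ?_⟩
  · intro i μ hμ
    have h1 := hG.le _ _ hμ i i.2
    have h2 := mul_le_mul_of_nonneg_left h1 (quo_pos hG i.2).le
    rw [pDV (hG.det i i.2).2] at h2
    rw [hwz]
    exact h2
  · intro i μ
    rw [hwz]
    constructor
    · rintro ⟨h1, h2⟩
      have h3 : ell V i ((μ 0 : ℤ) - cc) (μ 1) = DV V i := by
        refine mul_left_cancel₀ (quo_pos hG i.2).ne' ?_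
        rw [h2, pDV (hG.det i i.2).2]
      rcases hG.eq _ _ h1 i i.2 h3 with h4 | h4
      · left
        have h5 := vx0 hG (i := i) i.2.le
        have h6 := vx_one cc V i
        rw [← h4] at h5 h6
        ext j
        fin_cases j
        · change μ 0 = vx cc V i 0
          simp only at h5
          omega
        · exact h6.symm
      · right
        have h5 := vx0 hG (i := i + 1) i.2
        have h6 := vx_one cc V (i + 1)
        rw [← h4] at h5 h6
        ext j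
        fin_cases j
        · change μ 0 = vx cc V (i + 1) 0
          simp only at h5
          omega
        · exact h6.symm
    · have key : ∀ j, j ≤ n → (G.coeff (vx cc V j 0)).coeff (vx cc V j 1) ≠ 0 := by
        intro j hj
        obtain ⟨a, ha, h1⟩ := hG.vert j hj
        rw [vx_one, vx_zero, ← ha, Int.toNat_natCast]
        exact h1
      rintro (h | h)
      · subst h
        refine ⟨key i i.2.le, ?_⟩
        rw [vx0 hG (i := i) i.2.le, vx_one, add_sub_cancel_right, ell_left hG,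
          pDV (hG.det i i.2).2]
      · subst h
        refine ⟨key (i + 1) i.2, ?_⟩
        rw [vx0 hG (i := i + 1) i.2, vx_one, add_sub_cancel_right, ell_right hG,
          pDV (hG.det i i.2).2]
  · intro i
    rw [vx0 hG (i := i) i.2.le, vx0 hG (i := i + 1) i.2, vx_one, vx_one, add_sub_cancel_right,
      add_sub_cancel_right]
    exact (hG.det i i.2).1.ne'
  · intro u v
    obtain ⟨i, hi, h1, h2, h3⟩ := cone hG u v
    have hq := quo_pos hG hi
    have hpd := pDV (hG.det i hi).2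
    have h1' := mul_nonneg hq.le h1
    have h2' : 0 ≤ ((p - 1 : ℕ) : ℤ) / DV V i *
        (-((V (i + 1)).1 * (v : ℤ) - (V (i + 1)).2 * u)) := mul_nonneg hq.le (by omega)
    obtain ⟨β, hβ⟩ := Int.eq_ofNat_of_zero_le h1'
    obtain ⟨α, hα⟩ := Int.eq_ofNat_of_zero_le h2'
    refine ⟨⟨i, hi⟩, α, β, ?_, ?_, ?_⟩
    · change _ = (α : ℤ) * (((vx cc V i 0 : ℕ) : ℤ) - cc) +
        (β : ℤ) * (((vx cc V (i + 1) 0 : ℕ) : ℤ) - cc)
      rw [vx0 hG hi.le, vx0 hG (i := i + 1) hi, add_sub_cancel_right, add_sub_cancel_right,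
        ← hα, ← hβ]
      calc ((p - 1 : ℕ) : ℤ) * u = ((p - 1 : ℕ) : ℤ) / DV V i * DV V i * u := by rw [hpd]
        _ = _ := by unfold DV; ring
    · change _ = (α : ℤ) * ((vx cc V i 1 : ℕ) : ℤ) + (β : ℤ) * ((vx cc V (i + 1) 1 : ℕ) : ℤ)
      rw [vx_one, vx_one, ← hα, ← hβ]
      calc ((p - 1 : ℕ) : ℤ) * v = ((p - 1 : ℕ) : ℤ) / DV V i * DV V i * v := by rw [hpd]
        _ = _ := by unfold DV; ring
    · intro hv
      have h4 : 0 < ((p - 1 : ℕ) : ℤ) / DV V i *
        (-((V (i + 1)).1 * (v : ℤ) - (V (i + 1)).2 * u)) := mul_pos hq (by have := h3 hv; omega)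
      rw [hα] at h4
      exact_mod_cast h4

end poly

end Pg

end Pool.Agent.N867.AS
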