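import Pool.Agent.N867.AS.Y14

/-!
# Counting lattice points on the edges
-/

set_option autoImplicit false
set_option linter.unusedSectionVars false

namespace Pool.Agent.N867.AS

namespace Pg

open Res Tr GW RedS MvPolynomial Pool.Agent.N867.AS.Trans

variable {p : ℕ} [hp : Fact p.Prime] {κ : Type} [Field κ]

/-- the parameters of the lattice points on an edge -/
noncomputable def En (p : ℕ) (V : ℕ → ℤ × ℕ) (i : ℕ) : Finset ℕ :=
  (Finset.range (p - 1)).filter fun β =>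
    ((p - 1 : ℕ) : ℤ) ∣ β * ((V (i + 1)).1 - (V i).1) ∧
    ((p - 1 : ℕ) : ℤ) ∣ β * (((V (i + 1)).2 : ℤ) - (V i).2)

/-- the eigenvalue of a lattice point on an edge -/
noncomputable def lamE (s cc : ℕ) (f : MvPolynomial (Fin 2) (k p)) (V : ℕ → ℤ × ℕ) (i β : ℕ) :
    k p :=
  (-1) ^ (s * (p - 1 - β)) *
    (coeff (vx cc V i) f ^ ((p - 1 - β) * ∑ j ∈ Finset.range s, p ^ j) *
      coeff (vx cc V (i + 1)) f ^ (β * ∑ j ∈ Finset.range s, p ^ j))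

theorem ell_comb (V : ℕ → ℤ × ℕ) (j : ℕ) {M u v α β a b a' b' : ℤ}
    (h1 : M * u = α * a + β * a') (h2 : M * v = α * b + β * b') :
    M * ell V j u v = α * ell V j a b + β * ell V j a' b' := by
  unfold ell
  linear_combination (((V (j + 1)).2 : ℤ) - (V j).2) * h1 - ((V (j + 1)).1 - (V j).1) * h2

section poly

variable {cc n : ℕ} {G : Polynomial (Polynomial κ)} {V : ℕ → ℤ × ℕ}
  (hG : IsPoly p cc G n V)

include hG

theorem vle {i j : ℕ} (hi : i ≤ n) (hj : j < n) :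
    ell V j (V i).1 (V i).2 ≤ DV V j ∧
      (ell V j (V i).1 (V i).2 = DV V j → i = j ∨ i = j + 1) := by
  obtain ⟨a, ha, h1⟩ := hG.vert i hi
  have e : (a : ℤ) - cc = (V i).1 := by omega
  have h2 := hG.le _ _ h1 j hj
  rw [e] at h2
  refine ⟨h2, fun h3 => ?_⟩
  have h4 := hG.eq _ _ h1 j hj (by rw [e]; exact h3)
  rw [e] at h4
  rcases h4 with h4 | h4
  · exact Or.inl (V_inj hG hi hj.le h4)
  · exact Or.inr (V_inj hG hi hj h4)

theorem vlt {i j : ℕ} (hi : i ≤ n) (hj : j < n) {M u v α β : ℤ} {i' : ℕ} (hi' : i' ≤ n)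
    (h1 : M * u = α * (V i).1 + β * (V i').1) (h2 : M * v = α * (V i).2 + β * (V i').2)
    (hM : α + β = M) (hα : 0 < α) (hβ : 0 ≤ β) :
    M * ell V j u v ≤ M * DV V j ∧ (M * ell V j u v = M * DV V j → i = j ∨ i = j + 1) := by
  have h3 := ell_comb V j h1 h2
  have h4 := vle hG hi hj
  have h5 := vle hG hi' hj
  have h6 := mul_le_mul_of_nonneg_left h4.1 hα.le
  have h7 := mul_le_mul_of_nonneg_left h5.1 hβ
  have h8 : M * DV V j = α * DV V j + β * DV V j := by rw [← hM]; ring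
  refine ⟨by rw [h3, h8]; exact add_le_add h6 h7, fun h9 => h4.2 ?_⟩
  refine mul_left_cancel₀ hα.ne' ?_
  linarith

variable (φκ : κ →+* Res.k p)

/-- the face containing a point -/
noncomputable def fc (z : ℤ × ℕ) : Fin n := face ((fanK hG).fan φκ) z.1 z.2

theorem covV (z : ℤ × ℕ) :
    ((p - 1 : ℕ) : ℤ) * z.1 =
      al ((fanK hG).fan φκ) z.1 z.2 * (V (fc hG φκ z)).1 +
      be ((fanK hG).fan φκ) z.1 z.2 * (V (fc hG φκ z + 1)).1 ∧
    ((p - 1 : ℕ) : ℤ) * z.2 =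
      al ((fanK hG).fan φκ) z.1 z.2 * (V (fc hG φκ z)).2 +
      be ((fanK hG).fan φκ) z.1 z.2 * (V (fc hG φκ z + 1)).2 := by
  have h1 := cov0 ((fanK hG).fan φκ) z.1 z.2
  have h2 := cov1 ((fanK hG).fan φκ) z.1 z.2
  change _ = _ * (((vx cc V (fc hG φκ z) 0 : ℕ) : ℤ) - cc) +
    _ * (((vx cc V (fc hG φκ z + 1) 0 : ℕ) : ℤ) - cc) at h1
  have hi := (fc hG φκ z).2
  rw [vx0 hG hi.le, vx0 hG (i := (fc hG φκ z : ℕ) + 1) hi, add_sub_cancel_right, add_sub_cancel_right] at h1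
  exact ⟨h1, h2⟩

theorem Wt_ell (z : ℤ × ℕ) :
    (∀ j < n, ((p - 1 : ℕ) : ℤ) / DV V j * ell V j z.1 z.2 ≤
      Wt ((fanK hG).fan φκ) z.1 z.2) ∧
    ((p - 1 : ℕ) : ℤ) / DV V (fc hG φκ z) *
      ell V (fc hG φκ z) z.1 z.2 = Wt ((fanK hG).fan φκ) z.1 z.2 := by
  constructor
  · intro j hj
    have h := Wt_le ((fanK hG).fan φκ) ⟨j, hj⟩ z.1 z.2
    rw [om_eq] at h
    exact h
  · have h := Wt_face ((fanK hG).fan φκ) z.1 z.2
    rw [om_eq] at h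
    exact h

/-- if the point has weight one -/
theorem Zt_data {z : ℤ × ℕ} (hz : z ∈ Zt ((fanK hG).fan φκ)) :
    0 < z.2 ∧ 0 < al ((fanK hG).fan φκ) z.1 z.2 ∧
      al ((fanK hG).fan φκ) z.1 z.2 + be ((fanK hG).fan φκ) z.1 z.2 = p - 1 := by
  classical
  unfold Zt at hz
  rw [Finset.mem_filter, Zb, Finset.mem_product, Finset.mem_Icc, Finset.mem_Icc] at hz
  exact ⟨hz.1.2.1, al_pos _ _ hz.1.2.1, hz.2⟩

theorem surj_aux {i : ℕ} (hi : i < n) {β : ℕ} (hβ : β ∈ En p V i) (hne : ¬(i = 0 ∧ β = 0)) :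
    ∃ z ∈ Zt ((fanK hG).fan φκ), (fc hG φκ z : ℕ) = i ∧
      be ((fanK hG).fan φκ) z.1 z.2 = β := by
  classical
  have hn := two_le hG
  have hM : (0 : ℤ) < ((p - 1 : ℕ) : ℤ) := Mpos
  unfold En at hβ
  rw [Finset.mem_filter, Finset.mem_range] at hβ
  obtain ⟨hβ0, ⟨d1, hd1⟩, ⟨d2, hd2⟩⟩ := hβ
  obtain ⟨γ, hγ⟩ : ∃ γ : ℤ, γ = ((p - 1 : ℕ) : ℤ) - β := ⟨_, rfl⟩
  have hγ0 : 0 < γ := by
    rw [hγ]
    have : (β : ℤ) < ((p - 1 : ℕ) : ℤ) := by exact_mod_cast hβ0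
    omega
  have hβn : (0 : ℤ) ≤ β := Int.natCast_nonneg _
  obtain ⟨u, hu⟩ : ∃ u : ℤ, u = (V i).1 + d1 := ⟨_, rfl⟩
  obtain ⟨w, hw⟩ : ∃ w : ℤ, w = (V i).2 + d2 := ⟨_, rfl⟩
  have e1 : ((p - 1 : ℕ) : ℤ) * u = γ * (V i).1 + β * (V (i + 1)).1 := by
    rw [hu, mul_add, ← hd1, hγ]
    ring
  have e2 : ((p - 1 : ℕ) : ℤ) * w = γ * (V i).2 + β * (V (i + 1)).2 := by
    rw [hw, mul_add, ← hd2, hγ]
    ring
  have hw0 : 0 < w := by
    refine (pos_iff_pos_of_mul_pos (a := ((p - 1 : ℕ) : ℤ)) ?_).1 hM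
    rw [e2]
    have h1 : (0 : ℤ) ≤ (V i).2 := Int.natCast_nonneg _
    have h2 : (0 : ℤ) ≤ (V (i + 1)).2 := Int.natCast_nonneg _
    by_cases h3 : i = 0
    · have h4 : 0 < (V (i + 1)).2 := hG.mid _ (by omega) (by omega)
      have h5 : (0 : ℤ) < (V (i + 1)).2 := by exact_mod_cast h4
      have h6 : (0 : ℤ) < β := by
        have : 0 < β := Nat.pos_of_ne_zero fun h => hne ⟨h3, h⟩
        exact_mod_cast this
      exact add_pos_of_nonneg_of_pos (mul_nonneg hγ0.le h1) (mul_pos h6 h5)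
    · have h4 : 0 < (V i).2 := hG.mid _ (by omega) (by omega)
      have h5 : (0 : ℤ) < (V i).2 := by exact_mod_cast h4
      exact add_pos_of_pos_of_nonneg (mul_pos hγ0 h5) (mul_nonneg hβn h2)
  obtain ⟨v, rfl⟩ := Int.eq_ofNat_of_zero_le hw0.le
  have hv0 : 0 < v := by exact_mod_cast hw0
  have hsum : γ + β = ((p - 1 : ℕ) : ℤ) := by rw [hγ]; ring
  obtain ⟨z, hz⟩ : ∃ z : ℤ × ℕ, z = (u, v) := ⟨_, rfl⟩
  have hz1 : u = z.1 := by rw [hz]
  have hz2 : (v : ℤ) = (z.2 : ℤ) := by rw [hz]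
  rw [hz1] at e1
  rw [hz2] at e2
  obtain ⟨j, hj⟩ : ∃ j, j = fc hG φκ z := ⟨_, rfl⟩
  have hWe := Wt_ell hG φκ z
  -- the weight
  have hei : ell V i z.1 z.2 = DV V i := by
    have h1 := ell_comb V i e1 e2
    rw [ell_left hG, ell_right hG, ← add_mul, hsum] at h1
    exact mul_left_cancel₀ hM.ne' h1
  have hW1 : ((p - 1 : ℕ) : ℤ) ≤ Wt ((fanK hG).fan φκ) z.1 z.2 := by
    have h1 := hWe.1 i hi
    rw [hei, pDV (hG.det i hi).2] at h1
    exact h1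
  have hW2 : (Wt ((fanK hG).fan φκ) z.1 z.2 : ℤ) ≤ ((p - 1 : ℕ) : ℤ) := by
    rw [← hWe.2, ← hj]
    have h1 := (vlt hG hi.le j.2 (i' := i + 1) hi e1 e2 hsum hγ0 hβn).1
    have h2 := le_of_mul_le_mul_left h1 hM
    have h3 := mul_le_mul_of_nonneg_left h2 (quo_pos hG j.2).le
    rw [pDV (hG.det j j.2).2] at h3
    exact h3
  have hW : Wt ((fanK hG).fan φκ) z.1 z.2 = p - 1 := by
    have : (Wt ((fanK hG).fan φκ) z.1 z.2 : ℤ) = ((p - 1 : ℕ) : ℤ) := le_antisymm hW2 hW1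
    exact_mod_cast this
  have hzt : z ∈ Zt ((fanK hG).fan φκ) := by
    unfold Zt
    rw [Finset.mem_filter]
    refine ⟨mem_Zb _ hW.le ?_, hW⟩
    rw [hz]
    exact hv0
  obtain ⟨_, ha0, hab⟩ := Zt_data hG φκ hzt
  obtain ⟨α', hα'⟩ : ∃ α', α' = al ((fanK hG).fan φκ) z.1 z.2 := ⟨_, rfl⟩
  obtain ⟨β', hβ'⟩ : ∃ β', β' = be ((fanK hG).fan φκ) z.1 z.2 := ⟨_, rfl⟩
  obtain ⟨c1, c2⟩ := covV hG φκ z
  rw [← hα', ← hβ', ← hj] at c1 c2
  rw [← hα'] at ha0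
  rw [← hα', ← hβ'] at hab
  have ha0' : (0 : ℤ) < α' := by exact_mod_cast ha0
  have hb0' : (0 : ℤ) ≤ β' := Int.natCast_nonneg _
  have hab' : (α' : ℤ) + β' = ((p - 1 : ℕ) : ℤ) := by exact_mod_cast hab
  -- the face
  have hij : (j : ℕ) = i := by
    have h1 : ((p - 1 : ℕ) : ℤ) * ell V j z.1 z.2 = ((p - 1 : ℕ) : ℤ) * DV V j := by
      congr 1
      refine mul_left_cancel₀ (quo_pos hG j.2).ne' ?_
      have h2 := hWe.2
      rw [← hj, hW] at h2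
      rw [h2, pDV (hG.det j j.2).2]
    have h2 := (vlt hG hi.le j.2 (i' := i + 1) hi e1 e2 hsum hγ0 hβn).2 h1
    have h3 : ((p - 1 : ℕ) : ℤ) * ell V i z.1 z.2 = ((p - 1 : ℕ) : ℤ) * DV V i := by rw [hei]
    have h4 := (vlt hG j.2.le hi (i' := j + 1) j.2 c1 c2 hab' ha0' hb0').2 h3
    omega
  refine ⟨z, hzt, ?_, ?_⟩
  · rw [← hj]
    exact hij
  · rw [← hβ']
    rw [hij] at c1 c2
    have f1 : ((β' : ℤ) - β) * ((V (i + 1)).1 - (V i).1) = 0 := by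
      linear_combination e1 - c1 + (V i).1 * hsum - (V i).1 * hab'
    have f2 : ((β' : ℤ) - β) * (((V (i + 1)).2 : ℤ) - (V i).2) = 0 := by
      linear_combination e2 - c2 + ((V i).2 : ℤ) * hsum - ((V i).2 : ℤ) * hab'
    by_contra h
    have h1 : ((β' : ℤ) - β) ≠ 0 := by
      intro h2
      apply h
      have : (β' : ℤ) = β := by omega
      exact_mod_cast this
    have g1 := (mul_eq_zero.1 f1).resolve_left h1
    have g2 := (mul_eq_zero.1 f2).resolve_left h1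
    have g3 : V (i + 1) = V i := Prod.ext (by omega) (by omega)
    have := V_inj hG (i := i + 1) (j := i) hi hi.le g3
    omega

theorem lamE_eq (s : ℕ) {z : ℤ × ℕ} (hz : z ∈ Zt ((fanK hG).fan φκ)) :
    lam ((fanK hG).fan φκ) s z = lamE s cc (Ψ φκ G) V (fc hG φκ z)
      (be ((fanK hG).fan φκ) z.1 z.2) := by
  obtain ⟨_, _, h⟩ := Zt_data hG φκ hz
  unfold lam lamE
  have h1 : p - 1 - be ((fanK hG).fan φκ) z.1 z.2 = al ((fanK hG).fan φκ) z.1 z.2 := by omega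
  rw [h1]
  rfl

/-- the number of lattice points with eigenvalue one -/
theorem count_edges (s : ℕ) [DecidableEq (k p)]
    (h00 : lamE s cc (Ψ φκ G) V 0 0 = 1) :
    ((Zt ((fanK hG).fan φκ)).filter fun z => lam ((fanK hG).fan φκ) s z = 1).card + 1 =
      ∑ i ∈ Finset.range n, ((En p V i).filter fun β => lamE s cc (Ψ φκ G) V i β = 1).card := by
  classical
  have hn := two_le hG
  have hM : (0 : ℤ) < ((p - 1 : ℕ) : ℤ) := Mpos
  have hp2 := hp.1.two_le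
  obtain ⟨T, hT⟩ : ∃ T : Finset (Σ _ : ℕ, ℕ), T = (Finset.range n).sigma (fun i =>
    (En p V i).filter fun β => lamE s cc (Ψ φκ G) V i β = 1) := ⟨_, rfl⟩
  have h0 : (⟨0, 0⟩ : Σ _ : ℕ, ℕ) ∈ T := by
    rw [hT, Finset.mem_sigma, Finset.mem_range, Finset.mem_filter, En, Finset.mem_filter,
      Finset.mem_range]
    refine ⟨(by omega : 0 < n), ⟨(by omega : 0 < p - 1), by simp, by simp⟩, h00⟩
  rw [← Finset.card_sigma, ← hT, ← Finset.card_erase_add_one h0]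
  congr 1
  refine Finset.card_bij (fun z _ => (⟨(fc hG φκ z : ℕ),
    be ((fanK hG).fan φκ) z.1 z.2⟩ : Σ _ : ℕ, ℕ)) ?_ ?_ ?_
  · intro z hz
    rw [Finset.mem_filter] at hz
    obtain ⟨hz, hz1⟩ := hz
    obtain ⟨hz0, ha0, hab⟩ := Zt_data hG φκ hz
    obtain ⟨c1, c2⟩ := covV hG φκ z
    have hl := lamE_eq hG φκ s hz
    obtain ⟨j, hj⟩ : ∃ j, j = fc hG φκ z := ⟨_, rfl⟩
    obtain ⟨α, hα⟩ : ∃ α, α = al ((fanK hG).fan φκ) z.1 z.2 := ⟨_, rfl⟩
    obtain ⟨β, hβ⟩ : ∃ β, β = be ((fanK hG).fan φκ) z.1 z.2 := ⟨_, rfl⟩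
    rw [← hj, ← hα, ← hβ] at c1 c2
    rw [← hα] at ha0
    rw [← hα, ← hβ] at hab
    rw [← hj, ← hβ] at hl
    have hab' : (α : ℤ) + β = ((p - 1 : ℕ) : ℤ) := by exact_mod_cast hab
    rw [Finset.mem_erase, hT, Finset.mem_sigma, Finset.mem_range, Finset.mem_filter, En,
      Finset.mem_filter, Finset.mem_range, ← hj, ← hβ]
    refine ⟨?_, j.2, ⟨(by omega : β < p - 1), ⟨z.1 - (V j).1, ?_⟩, ⟨z.2 - (V j).2, ?_⟩⟩, ?_⟩
    · intro h
      have h1 : (j : ℕ) = 0 := congrArg Sigma.fst h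
      have h2 : β = 0 := by
        have := congrArg (fun w : (Σ _ : ℕ, ℕ) => w.2) h
        exact this
      rw [h1, h2, hG.zero.1] at c2
      simp only [Nat.cast_zero, mul_zero, zero_mul, add_zero] at c2
      have h3 := (mul_eq_zero.1 c2).resolve_left hM.ne'
      have : z.2 = 0 := by exact_mod_cast h3
      omega
    · simp only
      linear_combination (-1 : ℤ) * c1 - (V j).1 * hab'
    · simp only
      linear_combination (-1 : ℤ) * c2 - ((V j).2 : ℤ) * hab'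
    · simp only
      rw [← hl]
      exact hz1
  · intro z hz z' hz' h
    rw [Finset.mem_filter] at hz hz'
    obtain ⟨hz0, ha0, hab⟩ := Zt_data hG φκ hz.1
    obtain ⟨hz0', ha0', hab'⟩ := Zt_data hG φκ hz'.1
    obtain ⟨c1, c2⟩ := covV hG φκ z
    obtain ⟨c1', c2'⟩ := covV hG φκ z'
    have h1 : (fc hG φκ z : ℕ) = fc hG φκ z' :=
      congrArg Sigma.fst h
    have h2 : be ((fanK hG).fan φκ) z.1 z.2 = be ((fanK hG).fan φκ) z'.1 z'.2 := by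
      have := congrArg (fun w : (Σ _ : ℕ, ℕ) => w.2) h
      exact this
    have h3 : al ((fanK hG).fan φκ) z.1 z.2 = al ((fanK hG).fan φκ) z'.1 z'.2 := by omega
    rw [h1, h2, h3, ← c1'] at c1
    rw [h1, h2, h3, ← c2'] at c2
    have h4 := mul_left_cancel₀ hM.ne' c1
    have h5 := mul_left_cancel₀ hM.ne' c2
    exact Prod.ext h4 (by exact_mod_cast h5)
  · rintro ⟨i, β⟩ h
    rw [Finset.mem_erase, hT, Finset.mem_sigma, Finset.mem_range, Finset.mem_filter] at h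
    obtain ⟨h1, h2, h3, h4⟩ := h
    simp only at h2 h3 h4
    obtain ⟨z, hz, hz1, hz2⟩ := surj_aux hG φκ h2 h3 (fun h5 => h1 (by rw [h5.1, h5.2]))
    refine ⟨z, ?_, ?_⟩
    · rw [Finset.mem_filter]
      refine ⟨hz, ?_⟩
      rw [lamE_eq hG φκ s hz, hz1, hz2]
      exact h4
    · rw [hz1, hz2]

end poly

end Pg

end Pool.Agent.N867.AS
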