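import Pool.Agent.N867.AS.Y15

/-!
# The constants attached to a polygon
-/

set_option autoImplicit false
set_option linter.unusedSectionVars false

namespace Pool.Agent.N867.AS

namespace Pg

open Res Tr GW RedS MvPolynomial Pool.Agent.N867.AS.Trans

variable {p : ℕ} [hp : Fact p.Prime] {κ : Type} [Field κ]

/-- the weight function of a polygon -/
def Wq (V : ℕ → ℤ × ℕ) (n : ℕ) (z : ℤ × ℕ) : ℚ :=
  (Finset.range n).fold max 0 fun i => (ell V i z.1 z.2 : ℚ) / (DV V i : ℚ)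

/-- the sum of the codimensions -/
noncomputable def hodgeP (V : ℕ → ℤ × ℕ) (n : ℕ) : ℚ :=
  ∑ᶠ z ∈ {z : ℤ × ℕ | 0 < z.2 ∧ Wq V n z < 1}, (1 - Wq V n z)

/-- the lattice length of an edge -/
def gE (V : ℕ → ℤ × ℕ) (i : ℕ) : ℕ :=
  Int.gcd ((V (i + 1)).1 - (V i).1) (((V (i + 1)).2 : ℤ) - (V i).2)

/-- the coefficient at a vertex -/
noncomputable def cV (G : Polynomial (Polynomial κ)) (cc : ℕ) (V : ℕ → ℤ × ℕ) (i : ℕ) : κ :=
  (G.coeff ((V i).1 + cc).toNat).coeff (V i).2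

/-- the number of characters of order dividing `g` trivial on `ρ` -/
noncomputable def eC (q : ℕ) (ρ : κ) (g : ℕ) : ℕ :=
  Nat.card {j : Fin g // ρ ^ ((j : ℕ) * ((q - 1) / g)) = 1}

section poly

variable {cc n : ℕ} {G : Polynomial (Polynomial κ)} {V : ℕ → ℤ × ℕ}
  (hG : IsPoly p cc G n V) (φκ : κ →+* Res.k p)

include hG

theorem Wq_eq (z : ℤ × ℕ) :
    Wq V n z = (Wt ((fanK hG).fan φκ) z.1 z.2 : ℚ) / ((p - 1 : ℕ) : ℚ) := by
  have hM : (0 : ℚ) < ((p - 1 : ℕ) : ℚ) := by exact_mod_cast (Mpos (p := p))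
  have h := Wt_ell hG φκ z
  have key : ∀ i < n, (((p - 1 : ℕ) : ℤ) / DV V i * ell V i z.1 z.2 : ℤ) / ((p - 1 : ℕ) : ℚ) =
      (ell V i z.1 z.2 : ℚ) / (DV V i : ℚ) := by
    intro i hi
    have h1 := pDV (hG.det i hi).2
    have h2 : (0 : ℚ) < (DV V i : ℚ) := by exact_mod_cast (hG.det i hi).1
    have h3 : ((((p - 1 : ℕ) : ℤ) / DV V i : ℤ) : ℚ) * (DV V i : ℚ) = ((p - 1 : ℕ) : ℚ) := by
      exact_mod_cast h1
    have h4 : (0 : ℚ) < ((((p - 1 : ℕ) : ℤ) / DV V i : ℤ) : ℚ) := by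
      exact_mod_cast quo_pos hG hi
    rw [← h3, Int.cast_mul]
    rw [mul_div_mul_left _ _ h4.ne']
  unfold Wq
  refine le_antisymm ?_ ?_
  · rw [Finset.fold_max_le]
    refine ⟨by positivity, fun i hi => ?_⟩
    rw [Finset.mem_range] at hi
    rw [← key i hi]
    refine div_le_div_of_nonneg_right ?_ hM.le
    exact_mod_cast h.1 i hi
  · rw [Finset.le_fold_max]
    right
    refine ⟨fc hG φκ z, Finset.mem_range.2 (fc hG φκ z).2, ?_⟩
    rw [← key _ (fc hG φκ z).2]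
    refine div_le_div_of_nonneg_right ?_ hM.le
    exact_mod_cast h.2.ge

theorem SF0_eq : (SF0 ((fanK hG).fan φκ) : ℚ) = ((p - 1 : ℕ) : ℚ) * hodgeP V n := by
  classical
  have hM : (0 : ℚ) < ((p - 1 : ℕ) : ℚ) := by exact_mod_cast (Mpos (p := p))
  have hlt : ∀ z : ℤ × ℕ, Wq V n z < 1 ↔ Wt ((fanK hG).fan φκ) z.1 z.2 < p - 1 := by
    intro z
    rw [Wq_eq hG φκ z, div_lt_one hM]
    exact_mod_cast Iff.rfl
  have hS : {z : ℤ × ℕ | 0 < z.2 ∧ Wq V n z < 1} =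
      (((Zb (Ψ φκ G) cc).filter fun z => Wt ((fanK hG).fan φκ) z.1 z.2 < p - 1 :
        Finset (ℤ × ℕ)) : Set (ℤ × ℕ)) := by
    ext z
    rw [Set.mem_ofPred_eq, Finset.mem_coe, Finset.mem_filter, hlt]
    constructor
    · rintro ⟨h1, h2⟩
      exact ⟨mem_Zb ((fanK hG).fan φκ) h2.le h1, h2⟩
    · rintro ⟨h1, h2⟩
      rw [Zb, Finset.mem_product, Finset.mem_Icc, Finset.mem_Icc] at h1
      exact ⟨h1.2.1, h2⟩
  unfold hodgeP
  rw [hS, finsum_mem_coe_finset, SF0, Nat.cast_sum, Finset.mul_sum, Finset.sum_filter]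
  refine Finset.sum_congr rfl fun z _ => ?_
  split_ifs with h
  · rw [Nat.cast_sub h.le, Wq_eq hG φκ z]
    field_simp
  · rw [Nat.sub_eq_zero_of_le (not_lt.1 h), Nat.cast_zero]

theorem cV_ne {i : ℕ} (hi : i ≤ n) : cV G cc V i ≠ 0 := by
  obtain ⟨a, ha, h1⟩ := hG.vert i hi
  unfold cV
  rw [← ha, Int.toNat_natCast]
  exact h1

omit hG in
theorem coeff_vx (i : ℕ) : coeff (vx cc V i) (Ψ φκ G) = φκ (cV G cc V i) := by
  rw [coeff_Ψ, vx_zero, vx_one]
  rfl

omit hG in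
theorem neg_one_S (s m : ℕ) : ((-1 : k p)) ^ (s * m) =
    (-1) ^ (m * ∑ j ∈ Finset.range s, p ^ j) := by
  have h1 : ∀ j : ℕ, (-1 : k p) ^ p ^ j = -1 := by
    intro j
    have h2 := map_neg (iterateFrobenius (k p) p j) 1
    rw [iterateFrobenius_def, map_one] at h2
    exact h2
  have h2 : (-1 : k p) ^ (∑ j ∈ Finset.range s, p ^ j) = (-1) ^ s := by
    rw [← Finset.prod_pow_eq_pow_sum, Finset.prod_congr rfl fun j _ => h1 j, Finset.prod_const,
      Finset.card_range]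
  rw [mul_comm m, pow_mul, pow_mul, h2]

/-- `(p - 1) (1 + p + … + p^(s-1)) = p^s - 1` -/
theorem S_eq (s : ℕ) : (p - 1) * ∑ j ∈ Finset.range s, p ^ j = p ^ s - 1 := by
  have h := Nat.geomSum_eq hp.1.two_le s
  rw [h]
  refine Nat.mul_div_cancel' ?_
  have h3 := Nat.sub_dvd_pow_sub_pow p 1 s
  rwa [one_pow] at h3

theorem lamE_one [Fintype κ] {s : ℕ} (hs : Fintype.card κ = p ^ s) {i β : ℕ} (hi : i < n)
    (hβ : β ≤ p - 1) :
    lamE s cc (Ψ φκ G) V i β = 1 ↔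
      (-cV G cc V i / cV G cc V (i + 1)) ^ (β * ∑ j ∈ Finset.range s, p ^ j) = 1 := by
  obtain ⟨S, hS⟩ : ∃ S, S = ∑ j ∈ Finset.range s, p ^ j := ⟨_, rfl⟩
  have hS1 : (p - 1) * S = p ^ s - 1 := by rw [hS]; exact S_eq hG s
  unfold lamE
  rw [neg_one_S, ← mul_assoc, ← mul_pow, coeff_vx, coeff_vx, ← hS]
  obtain ⟨c, hc⟩ : ∃ c, c = cV G cc V i := ⟨_, rfl⟩
  obtain ⟨c', hc'⟩ : ∃ c', c' = cV G cc V (i + 1) := ⟨_, rfl⟩
  have h0 : c ≠ 0 := by rw [hc]; exact cV_ne hG hi.le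
  have h0' : c' ≠ 0 := by rw [hc']; exact cV_ne hG (i := i + 1) hi
  rw [← hc, ← hc']
  have h1 : (-1 : k p) * φκ c = φκ (-c) := by rw [map_neg, neg_one_mul]
  rw [h1, ← map_pow, ← map_pow, ← map_mul, map_eq_one_iff φκ φκ.injective]
  have h2 : (-c) ^ ((p - 1 - β) * S) * (-c) ^ (β * S) = 1 := by
    rw [← pow_add, ← add_mul, Nat.sub_add_cancel hβ, hS1, ← hs,
      FiniteField.pow_card_sub_one_eq_one _ (neg_ne_zero.2 h0)]
  have h3 : (-c) ^ (β * S) ≠ 0 := pow_ne_zero _ (neg_ne_zero.2 h0)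
  have h4 : c' ^ (β * S) ≠ 0 := pow_ne_zero _ h0'
  rw [div_pow, div_eq_one_iff_eq h4]
  constructor
  · intro h5
    have h6 : (-c) ^ ((p - 1 - β) * S) * (-c) ^ (β * S) =
        (-c) ^ ((p - 1 - β) * S) * c' ^ (β * S) := by rw [h2, h5]
    refine mul_left_cancel₀ ?_ h6
    intro h7
    rw [h7, zero_mul] at h2
    exact zero_ne_one h2
  · intro h5
    rw [← h5, h2]

theorem gE_dvd {i : ℕ} (hi : i < n) : 0 < gE V i ∧ gE V i ∣ p - 1 := by
  have h1 : ((gE V i : ℕ) : ℤ) ∣ DV V i := by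
    have h2 : DV V i = (((V (i + 1)).2 : ℤ) - (V i).2) * (V i).1 -
        ((V (i + 1)).1 - (V i).1) * (V i).2 := by
      unfold DV
      ring
    rw [h2]
    exact dvd_sub ((Int.gcd_dvd_right _ _).mul_right _) ((Int.gcd_dvd_left _ _).mul_right _)
  constructor
  · rw [Nat.pos_iff_ne_zero]
    intro h
    rw [h, Nat.cast_zero, zero_dvd_iff] at h1
    have := (hG.det i hi).1
    omega
  · have := h1.trans (hG.det i hi).2
    exact_mod_cast this

theorem card_edge [Fintype κ] {s : ℕ} (hs : Fintype.card κ = p ^ s) [DecidableEq (k p)]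
    {i : ℕ} (hi : i < n) :
    ((En p V i).filter fun β => lamE s cc (Ψ φκ G) V i β = 1).card =
      eC (Fintype.card κ) (-cV G cc V i / cV G cc V (i + 1)) (gE V i) := by
  classical
  obtain ⟨hg0, hgd⟩ := gE_dvd hG hi
  obtain ⟨h, hh⟩ := hgd
  have hM : 0 < p - 1 := by exact_mod_cast (Mpos (p := p))
  have hh0 : 0 < h := by
    rw [Nat.pos_iff_ne_zero]
    intro h0
    rw [h0, mul_zero] at hh
    omega
  have hS1 : (p - 1) * ∑ j ∈ Finset.range s, p ^ j = p ^ s - 1 := S_eq hG s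
  have hquo : (Fintype.card κ - 1) / gE V i = h * ∑ j ∈ Finset.range s, p ^ j := by
    rw [hs, ← hS1, hh, mul_assoc, Nat.mul_div_cancel_left _ hg0]
  unfold eC
  rw [hquo]
  have hcard : Nat.card {j : Fin (gE V i) // (-cV G cc V i / cV G cc V (i + 1)) ^
      ((j : ℕ) * (h * ∑ j ∈ Finset.range s, p ^ j)) = 1} =
      ((Finset.univ : Finset (Fin (gE V i))).filter fun j : Fin (gE V i) =>
        (-cV G cc V i / cV G cc V (i + 1)) ^ ((j : ℕ) * (h * ∑ j ∈ Finset.range s, p ^ j)) =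
          1).card := by
    rw [Nat.card_eq_fintype_card, Fintype.card_subtype]
  rw [hcard]
  · symm
    refine Finset.card_bij (fun j _ => h * (j : ℕ)) ?_ ?_ ?_
    · intro j hj
      rw [Finset.mem_filter] at hj
      have hlt : h * (j : ℕ) < p - 1 := by
        rw [hh, mul_comm]
        exact Nat.mul_lt_mul_of_pos_right j.2 hh0
      have hdvd : ∀ z : ℤ, ((gE V i : ℕ) : ℤ) ∣ z →
          ((p - 1 : ℕ) : ℤ) ∣ ((h * (j : ℕ) : ℕ) : ℤ) * z := by
        rintro z ⟨w, rfl⟩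
        refine ⟨(j : ℕ) * w, ?_⟩
        rw [hh]
        push_cast
        ring
      rw [Finset.mem_filter, En, Finset.mem_filter, Finset.mem_range]
      refine ⟨⟨hlt, hdvd _ (Int.gcd_dvd_left _ _), hdvd _ (Int.gcd_dvd_right _ _)⟩, ?_⟩
      rw [lamE_one hG φκ hs hi hlt.le]
      rw [← hj.2]
      congr 1
      ring
    · intro j _ j' _ hjj
      exact Fin.ext (Nat.eq_of_mul_eq_mul_left hh0 hjj)
    · intro β hβ
      rw [Finset.mem_filter, En, Finset.mem_filter, Finset.mem_range] at hβ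
      obtain ⟨⟨h1, h2, h3⟩, h4⟩ := hβ
      have h5 : ((p - 1 : ℕ) : ℤ) ∣ (β : ℤ) * (gE V i : ℕ) := by
        have h6 := Int.dvd_coe_gcd h2 h3
        rw [Int.gcd_mul_left] at h6
        rw [gE]
        rwa [Nat.cast_mul, Int.natAbs_natCast] at h6
      have h7 : h ∣ β := by
        have h8 : p - 1 ∣ β * gE V i := by exact_mod_cast h5
        rw [hh, mul_comm] at h8
        exact Nat.dvd_of_mul_dvd_mul_right hg0 h8
      obtain ⟨j, rfl⟩ := h7
      have hj : j < gE V i := by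
        rw [hh, mul_comm] at h1
        exact Nat.lt_of_mul_lt_mul_right h1
      refine ⟨⟨j, hj⟩, ?_, rfl⟩
      rw [Finset.mem_filter]
      refine ⟨Finset.mem_univ _, ?_⟩
      rw [lamE_one hG φκ hs hi h1.le] at h4
      rw [← h4]
      congr 1
      simp only
      ring

theorem lam00 [Fintype κ] {s : ℕ} (hs : Fintype.card κ = p ^ s) :
    lamE s cc (Ψ φκ G) V 0 0 = 1 := by
  have hn := two_le hG
  rw [lamE_one hG φκ hs (by omega) (Nat.zero_le _), zero_mul, pow_zero]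

/-- the number of irreducible factors of the edge polynomials -/
noncomputable def eP (q : ℕ) (G : Polynomial (Polynomial κ)) (cc : ℕ) (V : ℕ → ℤ × ℕ) (n : ℕ) :
    ℕ :=
  ∑ i ∈ Finset.range n, eC q (-cV G cc V i / cV G cc V (i + 1)) (gE V i)

theorem count_all [Fintype κ] {s : ℕ} (hs : Fintype.card κ = p ^ s) [DecidableEq (k p)] :
    ((Zt ((fanK hG).fan φκ)).filter fun z => lam ((fanK hG).fan φκ) s z = 1).card =
      (eP (Fintype.card κ) G cc V n - 2) + 1 := by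
  classical
  have h1 := count_edges hG φκ s (lam00 hG φκ hs)
  have h2 : ∑ i ∈ Finset.range n,
      ((En p V i).filter fun β => lamE s cc (Ψ φκ G) V i β = 1).card =
      eP (Fintype.card κ) G cc V n :=
    Finset.sum_congr rfl fun i hi => card_edge hG φκ hs (Finset.mem_range.1 hi)
  rw [h2] at h1
  have h3 : n ≤ eP (Fintype.card κ) G cc V n := by
    have h4 : ∑ i ∈ Finset.range n, 1 ≤ eP (Fintype.card κ) G cc V n := by
      refine Finset.sum_le_sum fun i hi => ?_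
      obtain ⟨hg0, _⟩ := gE_dvd hG (Finset.mem_range.1 hi)
      unfold eC
      rw [Nat.one_le_iff_ne_zero, Nat.card_ne_zero]
      exact ⟨⟨⟨⟨0, hg0⟩, by simp⟩⟩, inferInstance⟩
    simpa using h4
  have hn := two_le hG
  omega

end poly

end Pg

end Pool.Agent.N867.AS
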