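import Pool.Agent.N867.AS.Y17

/-!
# Polygons: assembly
-/

set_option autoImplicit false
set_option linter.unusedSectionVars false

namespace Pool.Agent.N867.AS

namespace Pg

open Polynomial Pool.Agent.N867.AS.Trans Tow

theorem exists_φ (p : ℕ) [hp : Fact p.Prime] (κ : Type) [Field κ] [Fintype κ] [CharP κ p] :
    Nonempty (κ →+* Res.k p) := by
  have hch : CharP (AlgebraicClosure κ) p :=
    charP_of_injective_algebraMap (algebraMap κ (AlgebraicClosure κ)).injective p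
  let _ : Algebra (ZMod p) κ := ZMod.algebra κ p
  have _ : IsScalarTower (ZMod p) κ (AlgebraicClosure κ) := inferInstance
  have _ : Algebra.IsAlgebraic (ZMod p) κ := Algebra.IsAlgebraic.of_finite _ _
  have _ : Algebra.IsAlgebraic (ZMod p) (AlgebraicClosure κ) :=
    Algebra.IsAlgebraic.trans (ZMod p) κ (AlgebraicClosure κ)
  let _ : Algebra (ZMod p) (Res.k p) := ZMod.algebra _ p
  exact ⟨(IsAlgClosed.lift (R := ZMod p) (S := AlgebraicClosure κ) (M := Res.k p)).toRingHom.comp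
    (algebraMap κ (AlgebraicClosure κ))⟩

theorem mainC (p : ℕ) (hp : p.Prime) (κ : Type) [Field κ] [Fintype κ] [CharP κ p] (s : ℕ)
    (hs : Fintype.card κ = p ^ s) (cc : ℕ) (hcc : cc ≠ 0) (m r : ℕ) (F : Fin m → κ[X][X])
    (h : Fin r → κ[X]) (n : Ix p m r → ℕ) (V : Ix p m r → ℕ → ℤ × ℕ)
    (hV : ∀ v, IsPoly p cc (combC F h v.1) (n v) (V v)) (L : ℚ[X])
    (hL0 : L.coeff 0 = 1)
    (hL : PowerSeries.X * PowerSeries.derivative ℚ (L : PowerSeries ℚ) =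
      (L : PowerSeries ℚ) * PowerSeries.mk (fun n => if n = 0 then 0 else
        (Fintype.card κ : ℚ) ^ n * (NSC p cc h (Fintype.card κ ^ n) : ℚ) -
          (NDC p cc F h (Fintype.card κ ^ n) : ℚ)))
    (ρ : ℕ) (M : ℚ[X]) (hLM : L = (1 - C (Fintype.card κ : ℚ) * X) ^ ρ * M)
    (hM : M.eval (1 / (Fintype.card κ : ℚ)) ≠ 0) :
    ρ ≤ ∑ v, (eP (Fintype.card κ) (combC F h v.1) cc (V v) (n v) - 2) ∧
      -((s : ℚ) * ∑ v, hodgeP (V v) (n v)) ≤
        (padicValRat p (M.eval (1 / (Fintype.card κ : ℚ))) : ℚ) ∧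
      ((padicValRat p (M.eval (1 / (Fintype.card κ : ℚ))) : ℚ) =
        -((s : ℚ) * ∑ v, hodgeP (V v) (n v)) ↔
          ρ = ∑ v, (eP (Fintype.card κ) (combC F h v.1) cc (V v) (n v) - 2)) := by
  have : Fact p.Prime := ⟨hp⟩
  have hp1 : p - 1 ≠ 0 := by
    have := hp.two_le
    omega
  have hp1' : 0 < p - 1 := Nat.pos_of_ne_zero hp1
  have hs0 : s ≠ 0 := by
    rintro rfl
    rw [pow_zero] at hs
    exact absurd hs (Fintype.one_lt_card (α := κ)).ne'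
  have hq : (Fintype.card κ : ℚ) = (p : ℚ) ^ s := by rw [hs]; push_cast; rfl
  have hpq : ((p : ℚ) - 1) = ((p - 1 : ℕ) : ℚ) := by
    rw [Nat.cast_sub hp.one_le, Nat.cast_one]
  obtain ⟨φ₀⟩ := exists_φ p κ
  have hL2 : PowerSeries.X * PowerSeries.derivative ℚ ((L ^ (p - 1) : ℚ[X]) : PowerSeries ℚ) =
      ((L ^ (p - 1) : ℚ[X]) : PowerSeries ℚ) * PowerSeries.mk (fun n => if n = 0 then 0 else
        ∑ v : Ix p m r, (((Fintype.card κ : ℚ) ^ n - 1) * (Fintype.card κ : ℚ) ^ n -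
          (Nptc p cc (combC F h v.1) (Fintype.card κ ^ n) : ℚ))) := by
    have h1 : PowerSeries.mk (fun n => if n = 0 then 0 else
        ∑ v : Ix p m r, (((Fintype.card κ : ℚ) ^ n - 1) * (Fintype.card κ : ℚ) ^ n -
          (Nptc p cc (combC F h v.1) (Fintype.card κ ^ n) : ℚ))) =
        ((p - 1 : ℕ) : PowerSeries ℚ) * PowerSeries.mk (fun n => if n = 0 then 0 else
        (Fintype.card κ : ℚ) ^ n * (NSC p cc h (Fintype.card κ ^ n) : ℚ) -
          (NDC p cc F h (Fintype.card κ ^ n) : ℚ)) := by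
      ext n
      have h2 : ((p - 1 : ℕ) : PowerSeries ℚ) = PowerSeries.C ((p - 1 : ℕ) : ℚ) := by
        rw [map_natCast]
      rw [h2, PowerSeries.coeff_C_mul, PowerSeries.coeff_mk, PowerSeries.coeff_mk]
      split_ifs with hn
      · rw [mul_zero]
      · rw [← hpq]
        exact (double_countC cc hs hs0 F h hn).symm
    obtain ⟨d, hd⟩ : ∃ d, p - 1 = d + 1 := ⟨p - 2, by have := hp.two_le; omega⟩
    rw [h1, Polynomial.coe_pow, Derivation.leibniz_pow, hd, Nat.add_sub_cancel]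
    rw [smul_eq_mul, nsmul_eq_mul]
    have h3 : PowerSeries.X * (((d + 1 : ℕ) : PowerSeries ℚ) *
        ((L : PowerSeries ℚ) ^ d * PowerSeries.derivative ℚ (L : PowerSeries ℚ))) =
        ((d + 1 : ℕ) : PowerSeries ℚ) * (L : PowerSeries ℚ) ^ d *
          (PowerSeries.X * PowerSeries.derivative ℚ (L : PowerSeries ℚ)) := by ring
    rw [h3, hL]
    ring
  have hLp0 : (L ^ (p - 1)).coeff 0 = 1 := by
    rw [coeff_zero_eq_eval_zero, eval_pow, ← coeff_zero_eq_eval_zero, hL0, one_pow]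
  have hMp : (M ^ (p - 1)).eval (1 / (p : ℚ) ^ s) ≠ 0 := by
    rw [eval_pow, ← hq]
    exact pow_ne_zero _ hM
  -- the constants
  have hN₀ : ∀ v, ∃ N₀ : ℕ, (N₀ : ℚ) = ((p - 1 : ℕ) : ℚ) * hodgeP (V v) (n v) ∧
      ∀ φκ : κ →+* Res.k p, SF0 ((fanK (hV v)).fan φκ) = N₀ := by
    intro v
    refine ⟨SF0 ((fanK (hV v)).fan φ₀), SF0_eq (hV v) φ₀, fun φκ => ?_⟩
    have h1 := SF0_eq (hV v) φ₀
    have h2 := SF0_eq (hV v) φκ
    rw [← h1] at h2
    exact_mod_cast h2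
  choose N₀ hN₀q hN₀ using hN₀
  obtain ⟨N, hN⟩ : ∃ N : ℕ, N = ∑ v : Ix p m r, s * N₀ v := ⟨_, rfl⟩
  obtain ⟨R, hR⟩ : ∃ R : ℕ, R = (p - 1) *
    ∑ v, (eP (Fintype.card κ) (combC F h v.1) cc (V v) (n v) - 2) := ⟨_, rfl⟩
  obtain ⟨h1, h2, h3⟩ := famF (p := p) hcc (fun v : Ix p m r => combC F h v.1)
    (fun v => fanK (hV v)) hs (fun v => eP (Fintype.card κ) (combC F h v.1) cc (V v) (n v) - 2) N₀
    (fun v φκ _ => count_all (hV v) φκ hs) (fun v φκ => hN₀ v φκ) (L ^ (p - 1)) hLp0 hL2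
    (r := ρ * (p - 1)) (M' := M ^ (p - 1)) (by rw [← hq, hLM, mul_pow, ← pow_mul]) hMp hN hR
  rw [eval_pow, ← hq, padicValRat.pow] at h2 h3
  have hNq : (N : ℚ) = ((p - 1 : ℕ) : ℚ) * ((s : ℚ) * ∑ v, hodgeP (V v) (n v)) := by
    rw [hN, Nat.cast_sum, Finset.mul_sum, Finset.mul_sum]
    refine Finset.sum_congr rfl fun v _ => ?_
    rw [Nat.cast_mul, hN₀q]
    ring
  obtain ⟨v, hv⟩ : ∃ v, v = padicValRat p (M.eval (1 / (Fintype.card κ : ℚ))) := ⟨_, rfl⟩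
  rw [← hv] at h2 h3 ⊢
  obtain ⟨E, hE⟩ : ∃ E : ℚ, E = (s : ℚ) * ∑ v, hodgeP (V v) (n v) := ⟨_, rfl⟩
  rw [← hE] at hNq ⊢
  have hp1q : 0 < ((p - 1 : ℕ) : ℚ) := by exact_mod_cast hp1'
  refine ⟨?_, ?_, ?_⟩
  · rw [hR, mul_comm] at h1
    exact Nat.le_of_mul_le_mul_left h1 hp1'
  · have h4 : (-(N : ℤ) : ℚ) ≤ (((p - 1 : ℕ) : ℤ) * v : ℤ) := by exact_mod_cast h2
    push_cast at h4
    rw [hNq] at h4
    have h5 : ((p - 1 : ℕ) : ℚ) * (-E) ≤ ((p - 1 : ℕ) : ℚ) * (v : ℚ) := by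
      rw [mul_neg]
      exact h4
    exact le_of_mul_le_mul_left h5 hp1q
  · have h4 : (v : ℚ) = -E ↔ ((p - 1 : ℕ) : ℤ) * v = -(N : ℤ) := by
      constructor
      · intro h5
        have h6 : (((p - 1 : ℕ) : ℤ) * v : ℚ) = ((-(N : ℤ) : ℤ) : ℚ) := by
          push_cast
          rw [hNq, h5]
          ring
        exact_mod_cast h6
      · intro h5
        have h6 : ((((p - 1 : ℕ) : ℤ) * v : ℤ) : ℚ) = ((-(N : ℤ) : ℤ) : ℚ) := by rw [h5]
        push_cast at h6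
        rw [hNq, ← mul_neg] at h6
        exact mul_left_cancel₀ hp1q.ne' h6
    rw [h4, h3, hR, mul_comm]
    constructor
    · exact fun h5 => Nat.eq_of_mul_eq_mul_left hp1' h5
    · exact fun h5 => by rw [h5]

end Pg

end Pool.Agent.N867.AS
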