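import Pool.Agent.N867.AS.Y18

/-!
# The number of irreducible factors of a binomial
-/

set_option autoImplicit false
set_option linter.unusedSectionVars false

namespace Pool.Agent.N867.AS

namespace Pg

open Polynomial UniqueFactorizationMonoid

variable {κ : Type} [Field κ] [Fintype κ]

/-- the degree of the irreducible factors -/
theorem deg_factor {g : ℕ} (hg0 : g ≠ 0) (hg : g ∣ Fintype.card κ - 1) {ρ : κ} (hρ : ρ ≠ 0)
    {P : κ[X]} (hP : Irreducible P) (hd : P ∣ X ^ g - C ρ) :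
    P.natDegree = orderOf (ρ ^ ((Fintype.card κ - 1) / g)) := by
  classical
  obtain ⟨q, hq⟩ : ∃ q, q = Fintype.card κ := ⟨_, rfl⟩
  rw [← hq] at hg ⊢
  have hq1 : 1 < q := by rw [hq]; exact Fintype.one_lt_card
  obtain ⟨ζ, hζ⟩ : ∃ ζ, ζ = ρ ^ ((q - 1) / g) := ⟨_, rfl⟩
  rw [← hζ]
  have : Fact (Irreducible P) := ⟨hP⟩
  have hP0 : P ≠ 0 := hP.ne_zero
  let E := AdjoinRoot P
  let w : E := AdjoinRoot.root P
  have hw : w ^ g = algebraMap κ E ρ := by
    obtain ⟨S, hS⟩ := hd
    have h1 : aeval w (X ^ g - C ρ) = 0 := by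
      rw [hS, map_mul, AdjoinRoot.aeval_eq, AdjoinRoot.mk_self, zero_mul]
    rw [map_sub, map_pow, aeval_X, aeval_C, sub_eq_zero] at h1
    exact h1
  have hw0 : w ≠ 0 := by
    intro h
    rw [h, zero_pow hg0] at hw
    exact hρ ((map_eq_zero (algebraMap κ E)).1 hw.symm)
  have hwq : w ^ q = algebraMap κ E ζ * w := by
    have h1 : q = g * ((q - 1) / g) + 1 := by
      rw [Nat.mul_div_cancel' hg]
      omega
    rw [h1, pow_succ, pow_mul, hw, ← map_pow, ← hζ]
  have hζq : ζ ^ q = ζ := by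
    rw [hq]
    exact FiniteField.pow_card ζ
  have hwk : ∀ i : ℕ, w ^ q ^ i = algebraMap κ E (ζ ^ i) * w := by
    intro i
    induction i with
    | zero => simp
    | succ i ih =>
      rw [pow_succ, pow_mul, ih, mul_pow, hwq, ← map_pow, ← mul_assoc, ← map_mul]
      congr 2
      rw [pow_right_comm, hζq, pow_succ]
  have hfr : Module.finrank κ E = P.natDegree := by
    rw [(AdjoinRoot.powerBasis hP0).finrank, AdjoinRoot.powerBasis_dim]
  have : Module.Finite κ E := (AdjoinRoot.powerBasis hP0).finite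
  have : Finite E := Module.finite_of_finite κ
  rw [← hfr, ← FiniteField.orderOf_frobeniusAlgHom κ E]
  rw [orderOf_eq_orderOf_iff]
  intro i
  have h2 : (FiniteField.frobeniusAlgHom κ E ^ i) w = algebraMap κ E (ζ ^ i) * w := by
    rw [AlgHom.coe_pow, FiniteField.coe_frobeniusAlgHom, pow_iterate, ← hq]
    exact hwk i
  constructor
  · intro h
    rw [h, AlgHom.one_apply] at h2
    have h3 : algebraMap κ E (ζ ^ i) = 1 := mul_right_cancel₀ hw0 (by rw [← h2, one_mul])
    exact (map_eq_one_iff _ (algebraMap κ E).injective).1 h3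
  · intro h
    refine AdjoinRoot.algHom_ext ?_
    rw [AlgHom.one_apply]
    refine h2.trans ?_
    rw [h, map_one, one_mul]

/-- the number of multiples -/
theorem card_mult {k d : ℕ} {c : ℕ → Prop} (hd : 0 < d) (hc : ∀ j, c j ↔ d ∣ j) :
    Nat.card {j : Fin (k * d) // c j} = k := by
  have h1 : Nat.card (Fin k) = Nat.card {j : Fin (k * d) // c j} := by
    refine Nat.card_congr (Equiv.ofBijective (fun i => ⟨⟨(i : ℕ) * d, ?_⟩, ?_⟩) ⟨?_, ?_⟩)
    · exact Nat.mul_lt_mul_of_pos_right i.2 hd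
    · exact (hc _).2 (Nat.dvd_mul_left _ _)
    · intro i j h
      have h2 := congrArg (fun z => (z.1 : ℕ)) h
      exact Fin.ext (Nat.eq_of_mul_eq_mul_right hd h2)
    · rintro ⟨⟨j, hj⟩, h⟩
      obtain ⟨i, rfl⟩ := (hc _).1 h
      have h2 : i < k := by
        rw [mul_comm] at hj
        exact Nat.lt_of_mul_lt_mul_right hj
      exact ⟨⟨i, h2⟩, Subtype.ext (Fin.ext (mul_comm _ _))⟩
  rw [← h1, Nat.card_eq_fintype_card, Fintype.card_fin]

/-- the number of irreducible factors of a binomial -/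
theorem card_factors {g : ℕ} (hg0 : g ≠ 0) (hg : g ∣ Fintype.card κ - 1) {c c' : κ} (hc : c ≠ 0)
    (hc' : c' ≠ 0) :
    (factors (C c' * X ^ g + C c)).card = eC (Fintype.card κ) (-c / c') g := by
  obtain ⟨ρ, hρ⟩ : ∃ ρ, ρ = -c / c' := ⟨_, rfl⟩
  have hρ0 : ρ ≠ 0 := by rw [hρ]; exact div_ne_zero (neg_ne_zero.2 hc) hc'
  obtain ⟨d, hd⟩ : ∃ d, d = orderOf (ρ ^ ((Fintype.card κ - 1) / g)) := ⟨_, rfl⟩
  have hQ : (C c' * X ^ g + C c : κ[X]) = C c' * (X ^ g - C ρ) := by
    rw [mul_sub, ← C_mul, hρ, mul_div_cancel₀ _ hc', C_neg, sub_neg_eq_add]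
  have hdegQ : (C c' * X ^ g + C c : κ[X]).natDegree = g := by
    rw [natDegree_add_C, natDegree_C_mul_X_pow g c' hc']
  have hQ0 : (C c' * X ^ g + C c : κ[X]) ≠ 0 := by
    intro h
    rw [h, natDegree_zero] at hdegQ
    exact hg0 hdegQ.symm
  obtain ⟨T, hT⟩ : ∃ T, T = factors (C c' * X ^ g + C c) := ⟨_, rfl⟩
  have hTd : ∀ P ∈ T, P.natDegree = d := by
    intro P hP
    rw [hT] at hP
    have h1 := irreducible_of_factor P hP
    have h2 := dvd_of_mem_factors hP
    rw [hQ] at h2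
    rw [hd]
    exact deg_factor hg0 hg hρ0 h1 ((isUnit_C.2 hc'.isUnit).dvd_mul_left.1 h2)
  have hsum : T.card * d = g := by
    have h1 : T.prod.natDegree = g := by
      have h2 := factors_prod hQ0
      rw [← hT] at h2
      rw [← hdegQ]
      exact natDegree_eq_of_degree_eq (degree_eq_degree_of_associated h2)
    have h3 : T.prod.natDegree = (T.map natDegree).sum := by
      refine natDegree_multiset_prod _ ?_
      intro h0
      rw [hT] at h0
      exact (irreducible_of_factor 0 h0).ne_zero rfl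
    rw [← h1, h3, Multiset.map_congr rfl hTd, Multiset.map_const', Multiset.sum_replicate,
      smul_eq_mul]
  have hd0 : 0 < d := by
    rw [Nat.pos_iff_ne_zero]
    intro h
    rw [h, mul_zero] at hsum
    exact hg0 hsum.symm
  rw [← hT, ← hρ]
  unfold eC
  have h4 : ∀ j : ℕ, ρ ^ (j * ((Fintype.card κ - 1) / g)) = 1 ↔ d ∣ j := by
    intro j
    rw [hd, orderOf_dvd_iff_pow_eq_one, ← pow_mul, mul_comm]
  have h5 := card_mult (k := T.card) (c := fun j : ℕ => ρ ^ (j * ((Fintype.card κ - 1) / g)) = 1)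
    hd0 h4
  rw [hsum] at h5
  exact h5.symm

end Pg

end Pool.Agent.N867.AS
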