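import Pool.Agent.N867.AS.Y1

/-!
# Point counts on `(y^p - y) x₀^cc = f` versus traces of Dwork matrices
-/

set_option autoImplicit false
set_option linter.unusedSectionVars false

namespace Pool.Agent.N867.AS

namespace Pg

open Res Tr MvPolynomial
open Lau (point_close red_inv red_ne ind ind_ne ind_zero prod_pow_one sum_ind)

variable {p : ℕ} [hp : Fact p.Prime] {σ : Type} [Fintype σ] [DecidableEq σ]

theorem eval_mon' (i₀ : σ) (k n : ℕ) (μ : σ →₀ ℕ) (a : PadicAlgCl p) (x : σ → PadicAlgCl p) :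
    eval x (monomial (k • μ + n • Finsupp.single i₀ 1) a) =
      a * ((∏ i, x i ^ μ i) ^ k * x i₀ ^ n) := by
  rw [eval_monomial, Finsupp.prod_fintype _ _ (fun i => pow_zero _)]
  congr 1
  rw [← Finset.prod_pow]
  have h1 : ∏ i, x i ^ ((k • μ + n • Finsupp.single i₀ 1 : σ →₀ ℕ) i) =
      ∏ i, (x i ^ μ i) ^ k * (x i ^ (n * (if i₀ = i then 1 else 0))) := by
    refine Finset.prod_congr rfl fun i _ => ?_
    rw [Finsupp.add_apply, Finsupp.smul_apply, Finsupp.smul_apply, smul_eq_mul, smul_eq_mul,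
      Finsupp.single_apply, pow_add, ← pow_mul, mul_comm k]
  rw [h1, Finset.prod_mul_distrib]
  congr 1
  rw [Finset.prod_eq_single i₀]
  · simp
  · intro i _ hi
    rw [if_neg (Ne.symm hi), mul_zero, pow_zero]
  · intro h
    exact absurd (Finset.mem_univ _) h

/-- `X_{i₀}^{N cc} Θ(c X^μ / X_{i₀}^cc)` -/
noncomputable def Lp (i₀ : σ) (cc N : ℕ) (γ : PadicAlgCl p) (μ : σ →₀ ℕ) (c : PadicAlgCl p) :
    MvPolynomial σ (PadicAlgCl p) :=
  ∑ k ∈ Finset.range N, monomial (k • μ + ((N - k) * cc) • Finsupp.single i₀ 1)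
    (PowerSeries.coeff k (AH p (1 : PadicAlgCl p)) * γ ^ k * c ^ k)

theorem eval_Lp (i₀ : σ) (cc N : ℕ) (γ : PadicAlgCl p) (μ : σ →₀ ℕ) (c : PadicAlgCl p)
    (x : σ → PadicAlgCl p) (h0 : x i₀ ≠ 0) :
    eval x (Lp i₀ cc N γ μ c) =
      x i₀ ^ (N * cc) * (Split.Theta p N γ).eval (c * ((∏ i, x i ^ μ i) * (x i₀ ^ cc)⁻¹)) := by
  rw [Lp, map_sum, Split.Theta, Polynomial.eval_finsetSum, Finset.mul_sum]
  refine Finset.sum_congr rfl fun k hk => ?_
  have hk' := Finset.mem_range.1 hk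
  rw [eval_mon', Polynomial.eval_monomial, mul_pow, mul_pow]
  have h1 : x i₀ ^ (N * cc) = x i₀ ^ ((N - k) * cc) * (x i₀ ^ cc) ^ k := by
    rw [← pow_mul, mul_comm cc k, ← pow_add, ← add_mul, Nat.sub_add_cancel hk'.le]
  rw [h1, inv_pow]
  have := pow_ne_zero k (pow_ne_zero cc h0)
  field_simp

theorem eval_Lp_zero (i₀ : σ) {cc : ℕ} (hcc : cc ≠ 0) (N : ℕ) (γ : PadicAlgCl p) (μ : σ →₀ ℕ)
    (c : PadicAlgCl p) (x : σ → PadicAlgCl p) (h0 : x i₀ = 0) :
    eval x (Lp i₀ cc N γ μ c) = 0 := by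
  rw [Lp, map_sum]
  refine Finset.sum_eq_zero fun k hk => ?_
  have hk' := Finset.mem_range.1 hk
  rw [eval_mon', h0, zero_pow (mul_ne_zero (by omega) hcc), mul_zero, mul_zero]

/-- the polynomials of the Dwork operator -/
noncomputable def LG (i₀ : σ) (cc : ℕ) {f : MvPolynomial σ (k p)} {s : ℕ} (D : Lifts p f s) (N : ℕ)
    (γ : PadicAlgCl p) (g : Fin (p - 1) × ZMod s) : MvPolynomial σ (PadicAlgCl p) :=
  X i₀ ^ ((p - 2) * (N * cc * f.support.card)) *
    ∏ μ ∈ f.support, Lp i₀ cc N γ μ (D.a g.1 * D.c μ ^ p ^ (g.2.val))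

theorem approx_aux' (i₀ : σ) {cc : ℕ} (hcc : cc ≠ 0) {f : MvPolynomial σ (k p)} {s : ℕ} [NeZero s] (D : Lifts p f s)
    (hf : f.support.Nonempty) (N : ℕ)
    (γ : PadicAlgCl p) {m : ℕ} (hm : m ≠ 0) (a : Fin (p - 1)) (i : ZMod s) :
    ∑ x ∈ Fintype.piFinset (fun _ : σ => MU p (p ^ (s * m))),
        eval x (Pi p (LG i₀ cc D N γ) (rho p s) (s * m) (a, i)) =
      ∑ x ∈ Fintype.piFinset (fun _ : σ => MU p (p ^ (s * m))),
        ind (x i₀) * ∏ μ ∈ f.support, ∏ j ∈ Finset.range (s * m),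
          (Split.Theta p N γ).eval ((D.a a * D.c μ * ((∏ i, x i ^ μ i) * (x i₀ ^ cc)⁻¹)) ^ p ^ j) := by
  classical
  have hs : s ≠ 0 := NeZero.ne s
  obtain ⟨L, hLdef⟩ : ∃ L, L = s * m := ⟨_, rfl⟩
  rw [← hLdef]
  have hL : L ≠ 0 := by rw [hLdef]; exact mul_ne_zero hs hm
  have hQ := one_lt_Q (p := p) hL
  have hcQ : ∀ μ, D.c μ ^ p ^ L = D.c μ := by
    intro μ
    have h := pow_mod (D.hc μ) (a := L) (b := 0) (by rw [hLdef]; simp)
    simpa using h
  have haQ : ∀ r, D.a a ^ p ^ r = D.a a := by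
    intro r
    induction r with
    | zero => simp
    | succ r ih => rw [pow_succ, pow_mul, ih, D.ha]
  -- substitution
  have hsub : ∀ F : (σ → PadicAlgCl p) → PadicAlgCl p,
      ∑ x ∈ Fintype.piFinset (fun _ : σ => MU p (p ^ L)), F x =
      ∑ x ∈ Fintype.piFinset (fun _ : σ => MU p (p ^ L)), F (fun l => x l ^ p ^ i.val) := by
    intro F
    symm
    refine Finset.sum_bij (fun x _ l => x l ^ p ^ i.val) ?_ ?_ ?_ ?_
    · intro x hx
      rw [Fintype.mem_piFinset] at hx ⊢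
      intro l
      have h1 := (mem_MU hQ).1 (hx l)
      rw [mem_MU hQ, ← pow_mul, mul_comm, pow_mul, h1]
    · intro x hx y hy h
      rw [Fintype.mem_piFinset] at hx hy
      funext l
      have h1 := (mem_MU hQ).1 (hx l)
      have h2 := (mem_MU hQ).1 (hy l)
      have h3 := congrFun h l
      have h4 : ∀ z : PadicAlgCl p, z ^ p ^ L = z → (z ^ p ^ i.val) ^ p ^ ((L - 1) * i.val) = z := by
        intro z hz
        rw [← pow_mul, ← pow_add]
        have h5 := pow_mod hz (a := i.val + (L - 1) * i.val) (b := 0) (by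
          have : i.val + (L - 1) * i.val = L * i.val := by
            obtain ⟨L', hL'⟩ := Nat.exists_eq_succ_of_ne_zero hL
            rw [hL', Nat.succ_eq_add_one, Nat.add_sub_cancel]
            ring
          rw [this]
          simp)
        simpa using h5
      rw [← h4 _ h1, ← h4 _ h2, h3]
    · intro x hx
      rw [Fintype.mem_piFinset] at hx
      refine ⟨fun l => x l ^ p ^ ((L - 1) * i.val), ?_, ?_⟩
      · rw [Fintype.mem_piFinset]
        intro l
        have h1 := (mem_MU hQ).1 (hx l)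
        rw [mem_MU hQ, ← pow_mul, mul_comm, pow_mul, h1]
      · funext l
        have h1 := (mem_MU hQ).1 (hx l)
        simp only
        rw [← pow_mul, ← pow_add]
        have h5 := pow_mod h1 (a := (L - 1) * i.val + i.val) (b := 0) (by
          have : (L - 1) * i.val + i.val = L * i.val := by
            obtain ⟨L', hL'⟩ := Nat.exists_eq_succ_of_ne_zero hL
            rw [hL', Nat.succ_eq_add_one, Nat.add_sub_cancel]
            ring
          rw [this]
          simp)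
        simpa using h5
    · intro x _
      rfl
  rw [hsub]
  refine Finset.sum_congr rfl fun x hx => ?_
  rw [Fintype.mem_piFinset] at hx
  rw [eval_Pi]
  by_cases h0 : x i₀ = 0
  · obtain ⟨L', hL'⟩ := Nat.exists_eq_succ_of_ne_zero hL
    obtain ⟨μ₀, hμ₀⟩ := hf
    rw [h0, ind_zero, zero_mul]
    refine Finset.prod_eq_zero (i := 0) (by rw [Finset.mem_range]; omega) ?_
    rw [LG, map_mul, map_prod, Finset.prod_eq_zero hμ₀, mul_zero]
    refine eval_Lp_zero _ hcc _ _ _ _ _ ?_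
    rw [h0, zero_pow (pow_ne_zero _ hp.1.ne_zero), zero_pow (pow_ne_zero _ hp.1.ne_zero)]
  rw [ind_ne h0, one_mul, Finset.prod_comm]
  have h1 : ∀ j ∈ Finset.range L,
      eval (fun l => (x l ^ p ^ i.val) ^ p ^ j) (LG i₀ cc D N γ ((rho p s)^[j] (a, i))) =
      ((x i₀ ^ p ^ i.val) ^ p ^ j) ^ ((p - 1) * (N * cc * f.support.card)) * ∏ μ ∈ f.support,
        (Split.Theta p N γ).eval ((D.a a * D.c μ * ((∏ l, x l ^ μ l) * (x i₀ ^ cc)⁻¹)) ^
          p ^ (i.val + j)) := by
    intro j _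
    have hx0 : (x i₀ ^ p ^ i.val) ^ p ^ j ≠ 0 := pow_ne_zero _ (pow_ne_zero _ h0)
    rw [LG, map_mul, map_prod, rho_iter, map_pow, eval_X]
    rw [Finset.prod_congr rfl fun μ _ => eval_Lp i₀ cc N γ μ _ _ hx0, Finset.prod_mul_distrib,
      Finset.prod_const, ← mul_assoc, ← pow_mul _ (N * cc), ← pow_add]
    congr 1
    · congr 1
      have h2 : p - 1 = (p - 2) + 1 := by
        have := hp.1.two_le
        omega
      rw [h2]
      ring
    · refine Finset.prod_congr rfl fun μ _ => ?_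
      congr 1
      rw [mul_pow, mul_pow, haQ (i.val + j)]
      congr 1
      · congr 1
        refine pow_mod (D.hc μ) ?_
        rw [ZMod.natCast_val, ZMod.cast_id']
        push_cast
        rw [ZMod.natCast_val, ZMod.cast_id']
        rfl
      · rw [mul_pow, ← Finset.prod_pow, inv_pow]
        congr 1
        · refine Finset.prod_congr rfl fun l _ => ?_
          rw [← pow_mul, ← pow_mul, ← pow_mul]
          congr 1
          ring
        · congr 1
          rw [← pow_mul, ← pow_mul, ← pow_mul]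
          congr 1
          ring
  have hx0' : (x i₀ ^ p ^ i.val) ^ p ^ L = x i₀ ^ p ^ i.val := by
    rw [← pow_mul, mul_comm, pow_mul, (mem_MU hQ).1 (hx i₀)]
  rw [Finset.prod_congr rfl h1, Finset.prod_mul_distrib, prod_pow_one hx0' (pow_ne_zero _ h0),
    one_mul, Finset.prod_comm, Finset.prod_comm (s := Finset.range L)]
  refine Finset.prod_congr rfl fun μ _ => ?_
  have hz : (D.a a * D.c μ * ((∏ l, x l ^ μ l) * (x i₀ ^ cc)⁻¹)) ^ p ^ L =
      D.a a * D.c μ * ((∏ l, x l ^ μ l) * (x i₀ ^ cc)⁻¹) := by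
    have hw : (x i₀ ^ cc) ^ p ^ L = x i₀ ^ cc := by
      rw [← pow_mul, mul_comm, pow_mul, (mem_MU hQ).1 (hx i₀)]
    rw [mul_pow, mul_pow, haQ, hcQ, mul_pow, inv_pow, hw, ← Finset.prod_pow]
    congr 2
    refine Finset.prod_congr rfl fun l _ => ?_
    rw [← pow_mul, mul_comm, pow_mul, (mem_MU hQ).1 (hx l)]
  exact prod_shift (fun z => (Split.Theta p N γ).eval z) hz i.val

/-- the approximate trace formula -/
theorem approx' (i₀ : σ) {cc : ℕ} (hcc : cc ≠ 0) {f : MvPolynomial σ (k p)} {s : ℕ} [NeZero s] (D : Lifts p f s)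
    (hf : f.support.Nonempty) {N : ℕ}
    {γ ζ : PadicAlgCl p} (hζ : IsPrimitiveRoot ζ p) (hγ0 : γ ≠ 0)
    (hγ : ‖γ‖ ≤ 1) (hγζ : (Split.Theta p N γ).eval 1 = ζ) {B : ℕ}
    (hB : ∀ g, ∀ v ∈ (LG i₀ cc D N γ g).support, ∀ i, v i ≤ B) {L : ℕ} (hL : L ≠ 0) :
    ‖(if s ∣ L then (s : PadicAlgCl p) *
        ((lpts i₀ cc f (p ^ L) : PadicAlgCl p) - ∏ i, (if i = i₀ then
          (((p ^ L : ℕ) : PadicAlgCl p) - 1) else ((p ^ L : ℕ) : PadicAlgCl p))) else 0) -
      ∑ T : Finset σ, (-1) ^ T.card * ((p ^ L : ℕ) : PadicAlgCl p) ^ (Fintype.card σ - T.card) *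
        (Cmat p (LG i₀ cc D N γ) (rho p s) T B ^ L).trace‖ ≤ ‖γ‖ ^ N := by
  classical
  have hs : s ≠ 0 := NeZero.ne s
  rw [trace_formula hL (LG i₀ cc D N γ) (rho p s) hB]
  by_cases hd : s ∣ L
  · obtain ⟨m, rfl⟩ := hd
    have hm : m ≠ 0 := fun h => hL (by rw [h, mul_zero])
    rw [if_pos (dvd_mul_right s m), ← sum_ind i₀ (one_lt_Q hL)]
    have h1 : Finset.univ.filter (fun g : Fin (p - 1) × ZMod s => (rho p s)^[s * m] g = g) =
        Finset.univ := by
      rw [Finset.filter_true_of_mem]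
      intro g _
      rw [rho_iter]
      simp
    rw [h1, Fintype.sum_prod_type]
    simp only [approx_aux' i₀ hcc D hf N γ hm]
    rw [Finset.sum_congr rfl fun a _ => Finset.sum_const _, Finset.card_univ, ZMod.card,
      ← Finset.smul_sum, nsmul_eq_mul, ← mul_sub, norm_mul]
    calc _ ≤ 1 * ‖γ‖ ^ N := mul_le_mul (IsUltrametricDist.norm_natCast_le_one _ _)
          (count_close' i₀ cc D hs hm hζ hγ0 hγ hγζ) (norm_nonneg _) zero_le_one
      _ = _ := one_mul _
  · rw [if_neg hd]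
    have h1 : Finset.univ.filter (fun g : Fin (p - 1) × ZMod s => (rho p s)^[L] g = g) =
        ∅ := by
      rw [Finset.filter_eq_empty_iff]
      intro g _ h
      rw [rho_iter] at h
      have h2 := congrArg Prod.snd h
      simp only at h2
      have h3 : (L : ZMod s) = 0 := by
        have := add_eq_left.1 h2
        exact this
      exact hd ((ZMod.natCast_eq_zero_iff L s).1 h3)
    rw [h1, Finset.sum_empty, sub_zero, norm_zero]
    positivity

end Pg

end Pool.Agent.N867.AS
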