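import Pool.Agent.N867.AS.Y19

/-!
# Polygons: the final form
-/

set_option autoImplicit false
set_option linter.unusedSectionVars false

namespace Pool.Agent.N867.AS

namespace Pg

open Polynomial Pool.Agent.N867.AS.Trans Tow UniqueFactorizationMonoid

/-- the coefficient of `t^(u.1) x^(u.2)` in `f / t^c` -/
noncomputable def coA {κ : Type} [Field κ] (f : κ[X][X]) (c : ℕ) (u : ℤ × ℕ) : κ :=
  if 0 ≤ u.1 + c then (f.coeff (u.1 + c).toNat).coeff u.2 else 0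

theorem isPoly_of {κ : Type} [Field κ] {p c : ℕ} (hc : c ≠ 0) {f : κ[X][X]} {n : ℕ}
    {V : ℕ → ℤ × ℕ} (h0 : (V 0).2 = 0 ∧ 0 < (V 0).1) (hn : (V n).2 = 0 ∧ (V n).1 < 0)
    (hm : ∀ i, 0 < i → i < n → 0 < (V i).2)
    (hd : ∀ i < n, 0 < DV V i ∧ DV V i ∣ ((p - 1 : ℕ) : ℤ))
    (hv : ∀ i ≤ n, coA f c (V i) ≠ 0)
    (hf : ∀ u, coA f c u ≠ 0 → ∀ i < n, ell V i u.1 u.2 ≤ DV V i ∧
      (ell V i u.1 u.2 = DV V i → u = V i ∨ u = V (i + 1))) : IsPoly p c f n V := by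
  have key : ∀ a b, (f.coeff a).coeff b ≠ 0 → coA f c ((a : ℤ) - c, b) ≠ 0 := by
    intro a b hab
    unfold coA
    simp only
    rw [sub_add_cancel, if_pos (Int.natCast_nonneg _), Int.toNat_natCast]
    exact hab
  refine ⟨hc, h0, hn, hm, hd, ?_, ?_, ?_⟩
  · intro i hi
    have h1 := hv i hi
    unfold coA at h1
    split_ifs at h1 with h2
    · exact ⟨_, Int.toNat_of_nonneg h2, h1⟩
    · exact absurd rfl h1
  · intro a b hab i hi
    exact (hf _ (key a b hab) i hi).1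
  · intro a b hab i hi h1
    exact (hf _ (key a b hab) i hi).2 h1

theorem cV_eq {κ : Type} [Field κ] {p c : ℕ} {f : κ[X][X]} {n : ℕ}
    {V : ℕ → ℤ × ℕ} (h : IsPoly p c f n V) {i : ℕ} (hi : i ≤ n) :
    cV f c V i = coA f c (V i) := by
  obtain ⟨a, ha, _⟩ := h.vert i hi
  unfold cV coA
  rw [← ha, if_pos (Int.natCast_nonneg _)]

theorem eP_eq {κ : Type} [Field κ] [Fintype κ] {p : ℕ} [hp : Fact p.Prime] {s : ℕ}
    (hs : Fintype.card κ = p ^ s) {c : ℕ} {f : κ[X][X]} {n : ℕ}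
    {V : ℕ → ℤ × ℕ} (h : IsPoly p c f n V) :
    eP (Fintype.card κ) f c V n = ∑ i ∈ Finset.range n,
      (factors (C (coA f c (V (i + 1))) * X ^ gE V i + C (coA f c (V i)))).card := by
  unfold eP
  refine Finset.sum_congr rfl fun i hi => ?_
  rw [Finset.mem_range] at hi
  obtain ⟨hg0, hgd⟩ := gE_dvd h hi
  have hgd' : gE V i ∣ Fintype.card κ - 1 := by
    refine hgd.trans ?_
    rw [hs]
    exact (Dvd.intro _ (S_eq h s))
  rw [← cV_eq h hi.le, ← cV_eq h (i := i + 1) hi,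
    card_factors hg0.ne' hgd' (cV_ne h hi.le) (cV_ne h (i := i + 1) hi)]

theorem mainP (p : ℕ) (hp : p.Prime) (κ : Type) [Field κ] [Fintype κ] [CharP κ p] (s : ℕ)
    (hs : Fintype.card κ = p ^ s) (c : ℕ) (hc : c ≠ 0) (m r : ℕ) (f : Fin m → κ[X][X])
    (h : Fin r → κ[X]) (n : Ix p m r → ℕ) (V : Ix p m r → ℕ → ℤ × ℕ)
    (h0 : ∀ v, (V v 0).2 = 0 ∧ 0 < (V v 0).1) (hn : ∀ v, (V v (n v)).2 = 0 ∧ (V v (n v)).1 < 0)
    (hm : ∀ v i, 0 < i → i < n v → 0 < (V v i).2)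
    (hd : ∀ v, ∀ i < n v, 0 < DV (V v) i ∧ DV (V v) i ∣ ((p - 1 : ℕ) : ℤ))
    (hv : ∀ v, ∀ i ≤ n v, coA (combC f h v.1) c (V v i) ≠ 0)
    (hf : ∀ v u, coA (combC f h v.1) c u ≠ 0 → ∀ i < n v, ell (V v) i u.1 u.2 ≤ DV (V v) i ∧
      (ell (V v) i u.1 u.2 = DV (V v) i → u = V v i ∨ u = V v (i + 1))) (L : ℚ[X])
    (hL0 : L.coeff 0 = 1)
    (hL : PowerSeries.X * PowerSeries.derivative ℚ (L : PowerSeries ℚ) =
      (L : PowerSeries ℚ) * PowerSeries.mk (fun n => if n = 0 then 0 else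
        (Fintype.card κ : ℚ) ^ n * (NSC p c h (Fintype.card κ ^ n) : ℚ) -
          (NDC p c f h (Fintype.card κ ^ n) : ℚ)))
    (ρ : ℕ) (M : ℚ[X]) (hLM : L = (1 - C (Fintype.card κ : ℚ) * X) ^ ρ * M)
    (hM : M.eval (1 / (Fintype.card κ : ℚ)) ≠ 0) {R : ℕ}
    (hR : R = ∑ v, (∑ i ∈ Finset.range (n v), (factors (C (coA (combC f h v.1) c (V v (i + 1))) *
      X ^ gE (V v) i + C (coA (combC f h v.1) c (V v i)))).card - 2)) :
    ρ ≤ R ∧
      -((s : ℚ) * ∑ v, hodgeP (V v) (n v)) ≤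
        (padicValRat p (M.eval (1 / (Fintype.card κ : ℚ))) : ℚ) ∧
      ((padicValRat p (M.eval (1 / (Fintype.card κ : ℚ))) : ℚ) =
        -((s : ℚ) * ∑ v, hodgeP (V v) (n v)) ↔ ρ = R) := by
  have : Fact p.Prime := ⟨hp⟩
  have hV : ∀ v, IsPoly p c (combC f h v.1) (n v) (V v) := fun v =>
    isPoly_of hc (h0 v) (hn v) (hm v) (hd v) (hv v) (hf v)
  have h1 := mainC p hp κ s hs c hc m r f h n V hV L hL0 hL ρ M hLM hM
  have h2 : ∑ v, (eP (Fintype.card κ) (combC f h v.1) c (V v) (n v) - 2) = R := by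
    rw [hR]
    exact Finset.sum_congr rfl fun v _ => by rw [eP_eq hs (hV v)]
  rw [h2] at h1
  exact h1

end Pg

end Pool.Agent.N867.AS
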