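import Pool.Agent.N867.AS.Y2
import Pool.Agent.N867.AS.G4

/-!
# Reductions with respect to integral weights
-/

set_option autoImplicit false
set_option linter.unusedSectionVars false

namespace Pool.Agent.N867.AS

namespace Pg

open Res Tr MvPolynomial GW
open Lau (wz wz_add wz_smul wz_zero wz_single RMZ RMZ.mul RMZ.one RMZ.prod RMZ.X_pow term_red)

variable {p : ℕ} [hp : Fact p.Prime] {σ : Type} [Fintype σ] [DecidableEq σ]

variable {ω : σ → ℤ}

/-- the reduced polynomials -/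
noncomputable def Lq (p : ℕ) [Fact p.Prime] (i₀ : σ) (cc : ℕ) (ω : σ → ℤ) (M N : ℕ) (μ : σ →₀ ℕ)
    (c : k p) : MvPolynomial σ (k p) :=
  ∑ n ∈ Finset.range N, monomial (n • μ + ((N - n) * cc) • Finsupp.single i₀ 1)
    (if wz ω μ - cc * ω i₀ = M ∨ n = 0 then ah p n * c ^ n else 0)

theorem RMZ_Lp {τ γ : PadicAlgCl p} {M : ℕ} (hτ : τ ≠ 0) (hτ1 : ‖τ‖ < 1) (hτγ : τ ^ M = γ)
    (i₀ : σ) {cc : ℕ} {N : ℕ} {μ : σ →₀ ℕ} (hμ : wz ω μ - cc * ω i₀ ≤ M) {c : PadicAlgCl p} (hc : ‖c‖ ≤ 1) :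
    RMZ ω τ (N * (cc * ω i₀)) (Lp i₀ cc N γ μ c) (Lq p i₀ cc ω M N μ (red p c)) := by
  classical
  intro v
  have hterm : ∀ n ∈ Finset.range N,
      (if n • μ + ((N - n) * cc) • Finsupp.single i₀ 1 = v then
        PowerSeries.coeff n (AH p (1 : PadicAlgCl p)) * γ ^ n * c ^ n else 0) /
          τ ^ (wz ω v - N * (cc * ω i₀)) =
      (if n • μ + ((N - n) * cc) • Finsupp.single i₀ 1 = v then
        PowerSeries.coeff n (AH p (1 : PadicAlgCl p)) * γ ^ n * c ^ n /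
          τ ^ (n * (wz ω μ - cc * ω i₀)) else 0) := by
    intro n hn
    have hn' := Finset.mem_range.1 hn
    split_ifs with h
    · congr 2
      rw [← h, wz_add, wz_smul, wz_smul, wz_single]
      push_cast [Nat.cast_sub hn'.le]
      ring
    · rw [zero_div]
  have hsum : coeff v (Lp i₀ cc N γ μ c) / τ ^ (wz ω v - N * (cc * ω i₀)) = ∑ n ∈ Finset.range N,
      (if n • μ + ((N - n) * cc) • Finsupp.single i₀ 1 = v then
        PowerSeries.coeff n (AH p (1 : PadicAlgCl p)) * γ ^ n * c ^ n /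
          τ ^ (n * (wz ω μ - cc * ω i₀)) else 0) := by
    rw [Lp, coeff_sum, Finset.sum_div, ← Finset.sum_congr rfl hterm]
    refine Finset.sum_congr rfl fun n _ => ?_
    rw [coeff_monomial]
  have hle : ∀ n ∈ Finset.range N, ‖(if n • μ + ((N - n) * cc) • Finsupp.single i₀ 1 = v then
        PowerSeries.coeff n (AH p (1 : PadicAlgCl p)) * γ ^ n * c ^ n /
          τ ^ (n * (wz ω μ - cc * ω i₀)) else 0)‖ ≤ 1 := by
    intro n _
    split_ifs
    · exact (term_red hτ hτ1 hτγ hμ hc n).1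
    · rw [norm_zero]
      exact zero_le_one
  constructor
  · rw [hsum]
    exact IsUltrametricDist.norm_sum_le_of_forall_le_of_nonneg zero_le_one hle
  · rw [hsum, red_sum _ hle, Lq, coeff_sum]
    refine Finset.sum_congr rfl fun n _ => ?_
    rw [coeff_monomial]
    by_cases h : n • μ + ((N - n) * cc) • Finsupp.single i₀ 1 = v
    · rw [if_pos h, if_pos h]
      exact (term_red hτ hτ1 hτγ hμ hc n).2
    · rw [if_neg h, if_neg h, red_zero]

/-- the reduction of the polynomials of the Dwork operator -/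
noncomputable def LGb (p : ℕ) [Fact p.Prime] (i₀ : σ) (cc : ℕ) (ω : σ → ℤ) (M N : ℕ)
    (S : Finset (σ →₀ ℕ)) (c : (σ →₀ ℕ) → k p) : MvPolynomial σ (k p) :=
  X i₀ ^ ((p - 2) * (N * cc * S.card)) * ∏ μ ∈ S, Lq p i₀ cc ω M N μ (c μ)

theorem RMZ_LG {f : MvPolynomial σ (k p)} {s M : ℕ} (D : Lifts p f s) (hs : s ≠ 0)
    {τ γ : PadicAlgCl p} (hτ : τ ≠ 0) (hτ1 : ‖τ‖ < 1) (hτγ : τ ^ M = γ) (i₀ : σ)
    {cc : ℕ} (hf : ∀ μ ∈ f.support, wz ω μ - cc * ω i₀ ≤ M) (N : ℕ) (g : Fin (p - 1) × ZMod s) :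
    RMZ ω τ ((((p - 1) * (N * cc * f.support.card) : ℕ) : ℤ) * ω i₀) (LG i₀ cc D N γ g)
      (LGb p i₀ cc ω M N f.support
        (fun μ => (((g.1 : ℕ) + 1 : ℕ) : k p) * coeff μ f ^ p ^ (g.2.val))) := by
  have hred : ∀ μ, red p (D.a g.1 * D.c μ ^ p ^ (g.2.val)) =
      (((g.1 : ℕ) + 1 : ℕ) : k p) * coeff μ f ^ p ^ (g.2.val) := by
    intro μ
    rw [red_mul (norm_a_le D _) (by
      rw [norm_pow]
      exact pow_le_one₀ (norm_nonneg _) (norm_c_le D hs μ)), red_pow (norm_c_le D hs μ),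
      D.hared, D.hred]
  have h1 := RMZ.prod (ω := ω) hτ f.support (fun μ hμ => RMZ_Lp hτ hτ1 hτγ i₀ (N := N) (hf μ hμ)
    (norm_ac D hs g μ))
  simp only [hred] at h1
  have h2 := (RMZ.X_pow (ω := ω) (τ := τ) i₀ ((p - 2) * (N * cc * f.support.card))).mul hτ h1
  rw [LG, LGb]
  convert h2 using 1
  have h3 : p - 1 = (p - 2) + 1 := by
    have := hp.1.two_le
    omega
  rw [h3]
  push_cast
  ring

end Pg

end Pool.Agent.N867.AS
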