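import Pool.Agent.N867.AS.Y4
import Pool.Agent.N867.AS.K10

/-!
# Fans of edges
-/

set_option autoImplicit false
set_option linter.unusedSectionVars false

namespace Pool.Agent.N867.AS

namespace Pg

open Res Tr GW RedS MvPolynomial
open Lau (wz wz_add wz_smul wz_zero wz_single wp)

variable {p : ℕ} [hp : Fact p.Prime]

theorem wz_two (ω : Fin 2 → ℤ) (μ : Fin 2 →₀ ℕ) : wz ω μ = ω 0 * μ 0 + ω 1 * μ 1 := by
  unfold Lau.wz
  rw [Fin.sum_univ_two]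

/-- hypotheses on the polynomial -/
structure Fan (f : MvPolynomial (Fin 2) (k p)) (cc : ℕ) {ι : Type} (ω : ι → Fin 2 → ℤ)
    (U U' : ι → Fin 2 →₀ ℕ) : Prop where
  hcc : cc ≠ 0
  le : ∀ i, ∀ μ ∈ f.support, wz (ω i) μ - cc * ω i 0 ≤ ((p - 1 : ℕ) : ℤ)
  top : ∀ i μ, (μ ∈ f.support ∧ wz (ω i) μ - cc * ω i 0 = ((p - 1 : ℕ) : ℤ)) ↔
    (μ = U i ∨ μ = U' i)
  ind : ∀ i, ((U i 0 : ℤ) - cc) * U' i 1 - U i 1 * ((U' i 0 : ℤ) - cc) ≠ 0
  cover : ∀ (u : ℤ) (v : ℕ), ∃ i, ∃ α β : ℕ,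
    ((p - 1 : ℕ) : ℤ) * u = α * ((U i 0 : ℤ) - cc) + β * ((U' i 0 : ℤ) - cc) ∧
    ((p - 1 : ℕ) : ℤ) * v = α * U i 1 + β * U' i 1 ∧ (0 < v → 0 < α)

section fan

variable {f : MvPolynomial (Fin 2) (k p)} {cc : ℕ} {ι : Type} {ω : ι → Fin 2 → ℤ}
    {U U' : ι → Fin 2 →₀ ℕ} (hf : Fan f cc ω U U')

/-- a face whose cone contains the point -/
noncomputable def face (u : ℤ) (v : ℕ) : ι := (hf.cover u v).choose

/-- first coordinate -/
noncomputable def al (u : ℤ) (v : ℕ) : ℕ := (hf.cover u v).choose_spec.choose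

/-- second coordinate -/
noncomputable def be (u : ℤ) (v : ℕ) : ℕ := (hf.cover u v).choose_spec.choose_spec.choose

/-- the weight -/
noncomputable def Wt (u : ℤ) (v : ℕ) : ℕ := al hf u v + be hf u v

include hf

theorem cov0 (u : ℤ) (v : ℕ) : ((p - 1 : ℕ) : ℤ) * u =
    al hf u v * ((U (face hf u v) 0 : ℤ) - cc) + be hf u v * ((U' (face hf u v) 0 : ℤ) - cc) :=
  (hf.cover u v).choose_spec.choose_spec.choose_spec.1

theorem cov1 (u : ℤ) (v : ℕ) : ((p - 1 : ℕ) : ℤ) * v =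
    al hf u v * U (face hf u v) 1 + be hf u v * U' (face hf u v) 1 :=
  (hf.cover u v).choose_spec.choose_spec.choose_spec.2.1

theorem al_pos (u : ℤ) {v : ℕ} (h : 0 < v) : 0 < al hf u v :=
  (hf.cover u v).choose_spec.choose_spec.choose_spec.2.2 h

omit hf in
theorem Mpos : (0 : ℤ) < ((p - 1 : ℕ) : ℤ) := by
  have := hp.1.two_le
  have h : 0 < p - 1 := by omega
  exact_mod_cast h

theorem memU (i : ι) : U i ∈ f.support ∧ ω i 0 * ((U i 0 : ℤ) - cc) + ω i 1 * U i 1 =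
    ((p - 1 : ℕ) : ℤ) := by
  have h := (hf.top i (U i)).2 (Or.inl rfl)
  refine ⟨h.1, ?_⟩
  rw [← h.2, wz_two]
  ring

theorem memU' (i : ι) : U' i ∈ f.support ∧ ω i 0 * ((U' i 0 : ℤ) - cc) + ω i 1 * U' i 1 =
    ((p - 1 : ℕ) : ℤ) := by
  have h := (hf.top i (U' i)).2 (Or.inr rfl)
  refine ⟨h.1, ?_⟩
  rw [← h.2, wz_two]
  ring

theorem leU (j : ι) {μ : Fin 2 →₀ ℕ} (hμ : μ ∈ f.support) :
    ω j 0 * ((μ 0 : ℤ) - cc) + ω j 1 * μ 1 ≤ ((p - 1 : ℕ) : ℤ) := by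
  have h := hf.le j μ hμ
  rw [wz_two] at h
  linarith

theorem expand (j : ι) (u : ℤ) (v : ℕ) :
    ((p - 1 : ℕ) : ℤ) * (ω j 0 * u + ω j 1 * v) =
      al hf u v * (ω j 0 * ((U (face hf u v) 0 : ℤ) - cc) + ω j 1 * U (face hf u v) 1) +
      be hf u v * (ω j 0 * ((U' (face hf u v) 0 : ℤ) - cc) + ω j 1 * U' (face hf u v) 1) := by
  have h0 := cov0 hf u v
  have h1 := cov1 hf u v
  linear_combination (ω j 0) * h0 + (ω j 1) * h1

theorem Wt_le (j : ι) (u : ℤ) (v : ℕ) : ω j 0 * u + ω j 1 * v ≤ Wt hf u v := by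
  have h := expand hf j u v
  have h1 := leU hf j (memU hf (face hf u v)).1
  have h2 := leU hf j (memU' hf (face hf u v)).1
  have h3 : (0 : ℤ) ≤ al hf u v := by positivity
  have h4 : (0 : ℤ) ≤ be hf u v := by positivity
  have h5 := mul_le_mul_of_nonneg_left h1 h3
  have h6 := mul_le_mul_of_nonneg_left h2 h4
  have h7 : ((p - 1 : ℕ) : ℤ) * (ω j 0 * u + ω j 1 * v) ≤ ((p - 1 : ℕ) : ℤ) * Wt hf u v := by
    rw [h, Wt]
    push_cast
    linarith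
  exact le_of_mul_le_mul_left h7 Mpos

theorem Wt_face (u : ℤ) (v : ℕ) :
    ω (face hf u v) 0 * u + ω (face hf u v) 1 * v = Wt hf u v := by
  have h := expand hf (face hf u v) u v
  rw [(memU hf (face hf u v)).2, (memU' hf (face hf u v)).2] at h
  have h7 : ((p - 1 : ℕ) : ℤ) * (ω (face hf u v) 0 * u + ω (face hf u v) 1 * v) =
      ((p - 1 : ℕ) : ℤ) * Wt hf u v := by
    rw [h, Wt]
    push_cast
    ring
  exact mul_left_cancel₀ Mpos.ne' h7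

theorem Wt_sub (j : ι) (u : ℤ) (v : ℕ) (h : ω j 0 * u + ω j 1 * v = Wt hf u v) :
    ∃ a a' : ℕ, ((p - 1 : ℕ) : ℤ) * u = a * ((U j 0 : ℤ) - cc) + a' * ((U' j 0 : ℤ) - cc) ∧
      ((p - 1 : ℕ) : ℤ) * v = a * U j 1 + a' * U' j 1 ∧ a + a' = Wt hf u v := by
  classical
  have h0 := expand hf j u v
  rw [h, Wt] at h0
  obtain ⟨i, hi⟩ : ∃ i, i = face hf u v := ⟨_, rfl⟩
  obtain ⟨α, hα⟩ : ∃ α, α = al hf u v := ⟨_, rfl⟩
  obtain ⟨β, hβ⟩ : ∃ β, β = be hf u v := ⟨_, rfl⟩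
  have c0 := cov0 hf u v
  have c1 := cov1 hf u v
  rw [← hi, ← hα, ← hβ] at h0 c0 c1
  have h1 := leU hf j (memU hf i).1
  have h2 := leU hf j (memU' hf i).1
  have h3 : (0 : ℤ) ≤ α := by positivity
  have h4 : (0 : ℤ) ≤ β := by positivity
  have h5 := mul_le_mul_of_nonneg_left h1 h3
  have h6 := mul_le_mul_of_nonneg_left h2 h4
  push_cast at h0
  -- the coordinates with nonzero coefficient are on the face `j`
  have k1 : α ≠ 0 → (U i = U j ∨ U i = U' j) := by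
    intro hα0
    refine (hf.top j (U i)).1 ⟨(memU hf i).1, ?_⟩
    have h7 : (α : ℤ) * (ω j 0 * ((U i 0 : ℤ) - cc) + ω j 1 * U i 1) =
        α * ((p - 1 : ℕ) : ℤ) := by linarith
    have h8 := mul_left_cancel₀ (by exact_mod_cast hα0) h7
    rw [wz_two, ← h8]
    ring
  have k2 : β ≠ 0 → (U' i = U j ∨ U' i = U' j) := by
    intro hβ0
    refine (hf.top j (U' i)).1 ⟨(memU' hf i).1, ?_⟩
    have h7 : (β : ℤ) * (ω j 0 * ((U' i 0 : ℤ) - cc) + ω j 1 * U' i 1) =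
        β * ((p - 1 : ℕ) : ℤ) := by linarith
    have h8 := mul_left_cancel₀ (by exact_mod_cast hβ0) h7
    rw [wz_two, ← h8]
    ring
  have hW : Wt hf u v = α + β := by rw [Wt, hα, hβ]
  rw [hW]
  -- choose the coefficients
  have key : ∀ (γ : ℕ) (μ : Fin 2 →₀ ℕ), (γ ≠ 0 → (μ = U j ∨ μ = U' j)) →
      ∃ b b' : ℕ, (γ : ℤ) * ((μ 0 : ℤ) - cc) =
        b * ((U j 0 : ℤ) - cc) + b' * ((U' j 0 : ℤ) - cc) ∧
      (γ : ℤ) * μ 1 = b * U j 1 + b' * U' j 1 ∧ b + b' = γ := by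
    intro γ μ hγ
    by_cases hγ0 : γ = 0
    · refine ⟨0, 0, ?_, ?_, ?_⟩
      · rw [hγ0]; simp
      · rw [hγ0]; simp
      · rw [hγ0]
    · rcases hγ hγ0 with h9 | h9
      · refine ⟨γ, 0, ?_, ?_, ?_⟩
        · rw [h9]; simp
        · rw [h9]; simp
        · rw [add_zero]
      · refine ⟨0, γ, ?_, ?_, ?_⟩
        · rw [h9]; simp
        · rw [h9]; simp
        · rw [zero_add]
  obtain ⟨b, b', e0, e1, e2⟩ := key α (U i) k1
  obtain ⟨d, d', g0, g1, g2⟩ := key β (U' i) k2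
  refine ⟨b + d, b' + d', ?_, ?_, by omega⟩
  · rw [c0, e0, g0]
    push_cast
    ring
  · rw [c1, e1, g1]
    push_cast
    ring

theorem Wt_zero {u : ℤ} {v : ℕ} (h : Wt hf u v = 0) : u = 0 ∧ v = 0 := by
  unfold Wt at h
  have h1 : al hf u v = 0 := by omega
  have h2 : be hf u v = 0 := by omega
  have c0 := cov0 hf u v
  have c1 := cov1 hf u v
  rw [h1, h2] at c0 c1
  simp only [Nat.cast_zero, zero_mul, add_zero] at c0 c1
  have hM := (Mpos (p := p)).ne'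
  refine ⟨(mul_eq_zero.1 c0).resolve_left hM, ?_⟩
  have := (mul_eq_zero.1 c1).resolve_left hM
  exact_mod_cast this

theorem Wt_origin : Wt hf 0 0 = 0 := by
  have h := Wt_face hf 0 0
  simp only [Nat.cast_zero, mul_zero, add_zero] at h
  exact_mod_cast h.symm

theorem lo_bound (u : ℤ) (v : ℕ) : -((Wt hf u v : ℤ) * cc) ≤ ((p - 1 : ℕ) : ℤ) * u := by
  rw [cov0 hf u v, Wt]
  push_cast
  have h1 : (0 : ℤ) ≤ al hf u v * (U (face hf u v) 0 : ℤ) := by positivity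
  have h2 : (0 : ℤ) ≤ be hf u v * (U' (face hf u v) 0 : ℤ) := by positivity
  nlinarith

end fan

end Pg

end Pool.Agent.N867.AS
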