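import Pool.Agent.N867.AS.Y5

/-!
# Entries of the Dwork matrices for a fan
-/

set_option autoImplicit false
set_option linter.unusedSectionVars false

namespace Pool.Agent.N867.AS

namespace Pg

open Res Tr GW RedS MvPolynomial
open Lau (wz wz_add wz_smul wz_zero wz_single wp cf coeff_Xq)

variable {p : ℕ} [hp : Fact p.Prime]

section general

variable {σ : Type} [Fintype σ] [DecidableEq σ] {s : ℕ}

theorem entry_red {f : MvPolynomial σ (k p)} {M : ℕ} [NeZero s] (D : Lifts p f s) (hs : s ≠ 0)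
    {τ γ : PadicAlgCl p} (hτ : τ ≠ 0) (hτ1 : ‖τ‖ < 1) (hτγ : τ ^ M = γ) (i₀ : σ) {cc : ℕ} {ω : σ → ℤ}
    (hf : ∀ μ ∈ f.support, wz ω μ - cc * ω i₀ ≤ M) (N : ℕ) {E : ℕ}
    (hE : E = N * cc * f.support.card)
    {T : Finset σ} {B : ℕ} (x y : (Fin (p - 1) × ZMod s) × Idx T B) {Wx Wy : ℕ}
    (hx : wp ω i₀ E x ≤ Wx) (hy : wp ω i₀ E y = Wy) :
    ‖τ ^ Wx * Cmat p (LG i₀ cc D N γ) (rho p s) T B x y / τ ^ (p * Wy)‖ ≤ 1 ∧
    (y.1 ≠ rho p s x.1 → red p (τ ^ Wx * Cmat p (LG i₀ cc D N γ) (rho p s) T B x y /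
      τ ^ (p * Wy)) = 0) ∧
    (¬ toF x.2.1 ≤ p • toF y.2.1 → red p (τ ^ Wx * Cmat p (LG i₀ cc D N γ) (rho p s) T B x y /
      τ ^ (p * Wy)) = 0) ∧
    (wp ω i₀ E x ≠ Wx → red p (τ ^ Wx * Cmat p (LG i₀ cc D N γ) (rho p s) T B x y /
      τ ^ (p * Wy)) = 0) ∧
    (y.1 = rho p s x.1 → toF x.2.1 ≤ p • toF y.2.1 → wp ω i₀ E x = Wx →
      red p (τ ^ Wx * Cmat p (LG i₀ cc D N γ) (rho p s) T B x y / τ ^ (p * Wy)) =
      coeff (p • toF y.2.1 - toF x.2.1) (LGb p i₀ cc ω M N f.support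
        (fun μ => (((x.1.1 : ℕ) + 1 : ℕ) : k p) * coeff μ f ^ p ^ (x.1.2.val)))) := by
  classical
  by_cases h1 : y.1 = rho p s x.1
  swap
  · have h0 : Cmat p (LG i₀ cc D N γ) (rho p s) T B x y = 0 := by
      unfold Cmat
      rw [if_neg h1]
    rw [h0, mul_zero, zero_div, norm_zero, red_zero]
    exact ⟨zero_le_one, fun _ => rfl, fun _ => rfl, fun _ => rfl, fun h => absurd h h1⟩
  by_cases h2 : toF x.2.1 ≤ p • toF y.2.1
  swap
  · have h0 : Cmat p (LG i₀ cc D N γ) (rho p s) T B x y = 0 := by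
      unfold Cmat
      rw [if_pos h1, if_neg h2]
    rw [h0, mul_zero, zero_div, norm_zero, red_zero]
    exact ⟨zero_le_one, fun _ => rfl, fun _ => rfl, fun _ => rfl, fun _ h => absurd h h2⟩
  have h0 : Cmat p (LG i₀ cc D N γ) (rho p s) T B x y =
      coeff (p • toF y.2.1 - toF x.2.1) (LG i₀ cc D N γ x.1) := by
    unfold Cmat
    rw [if_pos h1, if_pos h2]
  have hR := RMZ_LG D hs hτ hτ1 hτγ i₀ hf N x.1 (p • toF y.2.1 - toF x.2.1)
  rw [← hE] at hR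
  have hwt : wz ω (p • toF y.2.1 - toF x.2.1) + wz ω (toF x.2.1) = p * wz ω (toF y.2.1) := by
    rw [← wz_add, tsub_add_cancel_of_le h2, wz_smul]
  have hexp : wz ω (p • toF y.2.1 - toF x.2.1) - (((p - 1) * E : ℕ) : ℤ) * ω i₀ =
      p * Wy - wp ω i₀ E x := by
    rw [← hy]
    unfold wp
    push_cast [Nat.cast_sub hp.1.one_le]
    linear_combination hwt
  rw [hexp] at hR
  obtain ⟨q, hq⟩ : ∃ q : ℕ, (q : ℤ) = Wx - wp ω i₀ E x :=
    ⟨((Wx : ℤ) - wp ω i₀ E x).toNat, Int.toNat_of_nonneg (by omega)⟩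
  have hkey : τ ^ Wx * Cmat p (LG i₀ cc D N γ) (rho p s) T B x y / τ ^ (p * Wy) =
      coeff (p • toF y.2.1 - toF x.2.1) (LG i₀ cc D N γ x.1) /
        τ ^ ((p : ℤ) * Wy - wp ω i₀ E x) * τ ^ q := by
    rw [h0, ← zpow_natCast τ Wx, ← zpow_natCast τ (p * Wy), ← zpow_natCast τ q, hq]
    have h3 : (Wx : ℤ) = (Wx - wp ω i₀ E x) + wp ω i₀ E x := by ring
    have h4 : (p : ℤ) * Wy = (p * Wy - wp ω i₀ E x) + wp ω i₀ E x := by ring
    have h5 : τ ^ (Wx : ℤ) = τ ^ ((Wx : ℤ) - wp ω i₀ E x) * τ ^ (wp ω i₀ E x) := by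
      rw [← zpow_add₀ hτ, ← h3]
    have h6 : τ ^ (((p * Wy : ℕ) : ℤ)) = τ ^ ((p : ℤ) * Wy - wp ω i₀ E x) *
        τ ^ (wp ω i₀ E x) := by
      rw [← zpow_add₀ hτ, ← h4]
      push_cast
      rfl
    rw [h5, h6]
    have h7 := zpow_ne_zero (wp ω i₀ E x) hτ
    have h8 := zpow_ne_zero ((p : ℤ) * Wy - wp ω i₀ E x) hτ
    field_simp
  have hτq : ‖τ ^ q‖ ≤ 1 := by
    rw [norm_pow]
    exact pow_le_one₀ (norm_nonneg _) hτ1.le
  rw [hkey]
  refine ⟨?_, fun h => absurd h1 h, fun h => absurd h2 h, fun h => ?_, fun _ _ h => ?_⟩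
  · rw [norm_mul]
    exact mul_le_one₀ hR.1 (norm_nonneg _) hτq
  · have hq0 : q ≠ 0 := by
      intro h3
      rw [h3] at hq
      push_cast at hq
      apply h
      omega
    have h5 : ‖τ ^ q‖ < 1 := by
      rw [norm_pow]
      exact pow_lt_one₀ (norm_nonneg _) hτ1 hq0
    rw [red_mul hR.1 hτq, (red_eq_zero h5.le).2 h5, mul_zero]
  · have hq0 : q = 0 := by
      rw [h, sub_self] at hq
      exact_mod_cast hq
    rw [hq0, pow_zero, mul_one]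
    exact hR.2

end general

section fan

variable {f : MvPolynomial (Fin 2) (k p)} {cc : ℕ} {ι : Type} {ω : ι → Fin 2 → ℤ}
    {U U' : ι → Fin 2 →₀ ℕ} (hf : Fan f cc ω U U') {s : ℕ} [NeZero s]

/-- first true exponent -/
def u0 (E : ℕ) {T : Finset (Fin 2)} {B : ℕ} (x : Idx T B) : ℤ := ((x.1 0 : ℕ) : ℤ) - E

/-- second true exponent -/
def u1 {T : Finset (Fin 2)} {B : ℕ} (x : Idx T B) : ℕ := (x.1 1 : ℕ)

theorem wp_eq (ω₀ : Fin 2 → ℤ) (E : ℕ) {Γ : Type} {T : Finset (Fin 2)} {B : ℕ}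
    (x : Γ × Idx T B) : wp ω₀ 0 E x = ω₀ 0 * u0 E x.2 + ω₀ 1 * u1 x.2 := by
  unfold Lau.wp u0 u1
  rw [wz_two, toF_apply, toF_apply]
  ring

/-- the weight of a box exponent -/
noncomputable def WF (E : ℕ) {Γ : Type} {T : Finset (Fin 2)} {B : ℕ} (x : Γ × Idx T B) : ℕ :=
  Wt hf (u0 E x.2) (u1 x.2)

/-- the reduced entries -/
noncomputable def cbF (N E : ℕ) {T : Finset (Fin 2)} {B : ℕ}
    (x y : (Fin (p - 1) × ZMod s) × Idx T B) : k p := by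
  classical
  exact if y.1 = rho p s x.1 ∧ toF x.2.1 ≤ p • toF y.2.1 ∧
      wp (ω (face hf (u0 E y.2) (u1 y.2))) 0 E x = WF hf E x then
    coeff (p • toF y.2.1 - toF x.2.1) (LGb p 0 cc (ω (face hf (u0 E y.2) (u1 y.2))) (p - 1) N
      f.support (cf f x.1)) else 0

include hf

theorem wp_le (j : ι) (E : ℕ) {Γ : Type} {T : Finset (Fin 2)} {B : ℕ} (x : Γ × Idx T B) :
    wp (ω j) 0 E x ≤ WF hf E x := by
  rw [wp_eq]
  exact Wt_le hf j _ _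

theorem wp_face (E : ℕ) {Γ : Type} {T : Finset (Fin 2)} {B : ℕ} (x : Γ × Idx T B) :
    wp (ω (face hf (u0 E x.2) (u1 x.2))) 0 E x = WF hf E x := by
  rw [wp_eq]
  exact Wt_face hf _ _

theorem hentF (D : Lifts p f s) (hs : s ≠ 0) {τ γ : PadicAlgCl p} (hτ : τ ≠ 0) (hτ1 : ‖τ‖ < 1)
    (hτγ : τ ^ (p - 1) = γ) {N E : ℕ} (hE : E = N * cc * f.support.card) {T : Finset (Fin 2)}
    {B : ℕ} (x y : (Fin (p - 1) × ZMod s) × Idx T B) :
    ‖τ ^ WF hf E x * Cmat p (LG 0 cc D N γ) (rho p s) T B x y / τ ^ (p * WF hf E y)‖ ≤ 1 :=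
  (entry_red D hs hτ hτ1 hτγ 0 (hf.le (face hf (u0 E y.2) (u1 y.2))) N hE x y
    (wp_le hf _ E x) (wp_face hf E y)).1

theorem hcbF (D : Lifts p f s) (hs : s ≠ 0) {τ γ : PadicAlgCl p} (hτ : τ ≠ 0) (hτ1 : ‖τ‖ < 1)
    (hτγ : τ ^ (p - 1) = γ) {N E : ℕ} (hE : E = N * cc * f.support.card) {T : Finset (Fin 2)}
    {B : ℕ} (x y : (Fin (p - 1) × ZMod s) × Idx T B) :
    red p (τ ^ WF hf E x * Cmat p (LG 0 cc D N γ) (rho p s) T B x y / τ ^ (p * WF hf E y)) =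
      cbF hf N E x y := by
  classical
  unfold cbF
  obtain ⟨_, h1, h2, h3, h4⟩ := entry_red D hs hτ hτ1 hτγ 0
    (hf.le (face hf (u0 E y.2) (u1 y.2))) N hE x y (wp_le hf _ E x) (wp_face hf E y)
  by_cases c1 : y.1 = rho p s x.1
  · by_cases c2 : toF x.2.1 ≤ p • toF y.2.1
    · by_cases c3 : wp (ω (face hf (u0 E y.2) (u1 y.2))) 0 E x = WF hf E x
      · rw [if_pos ⟨c1, c2, c3⟩]
        exact h4 c1 c2 c3
      · rw [if_neg (fun h => c3 h.2.2)]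
        exact h3 c3
    · rw [if_neg (fun h => c2 h.2.1)]
      exact h2 c2
  · rw [if_neg (fun h => c1 h.1)]
    exact h1 c1

/-- the key computation -/
theorem expo {N E : ℕ} (hN : 0 < N) (hE : E = N * cc * f.support.card) {T : Finset (Fin 2)}
    {B : ℕ} {x y : (Fin (p - 1) × ZMod s) × Idx T B} (hle : toF x.2.1 ≤ p • toF y.2.1) (j : ι)
    (c : (Fin 2 →₀ ℕ) → k p)
    (hne : coeff (p • toF y.2.1 - toF x.2.1) (LGb p 0 cc (ω j) (p - 1) N f.support c) ≠ 0) :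
    ∃ (q n : ℕ) (w : Fin 2 →₀ ℕ), q + N * cc * ({U j, U' j} : Finset (Fin 2 →₀ ℕ)).card =
        (p - 1) * E ∧ q ≤ (p • toF y.2.1 - toF x.2.1) 0 ∧
      LGb p 0 cc (ω j) (p - 1) N f.support c = X 0 ^ q * ∏ μ ∈ ({U j, U' j} :
        Finset (Fin 2 →₀ ℕ)), Lb p (cc • Finsupp.single 0 1) N μ (c μ) ∧
      (p • toF y.2.1 - toF x.2.1 - q • Finsupp.single 0 1) + n • (cc • Finsupp.single 0 1) =
        w + (N * ({U j, U' j} : Finset (Fin 2 →₀ ℕ)).card) • (cc • Finsupp.single 0 1) ∧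
      (p : ℤ) * wp (ω j) 0 E y - wp (ω j) 0 E x = n * ((p - 1 : ℕ) : ℤ) ∧
      wz (ω j) w = n * (((p - 1 : ℕ) : ℤ) + cc * ω j 0) ∧
      (p : ℤ) * u0 E y.2 - u0 E x.2 = (w 0 : ℤ) - n * cc ∧
      (p : ℤ) * u1 y.2 - u1 x.2 = (w 1 : ℤ) := by
  classical
  obtain ⟨q, hq, hL⟩ := LGb_eq (ω := ω j) (i₀ := (0 : Fin 2)) (cc := cc) (M := p - 1) hN
    f.support c (T := {U j, U' j}) (fun μ => by
      rw [hf.top j μ, Finset.mem_insert, Finset.mem_singleton])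
  have hne' := hne
  rw [hL, coeff_Xq] at hne'
  split_ifs at hne' with h1
  swap
  · exact absurd rfl hne'
  obtain ⟨n, w, hw1, hw2⟩ := supp_Lb (W := ((p - 1 : ℕ) : ℤ) + cc * ω j 0) _ (fun μ hμ => by
    have h2 := (hf.top j μ).2 (by simpa using hμ)
    linarith [h2.2]) c _ hne'
  rw [← hE] at hq
  obtain ⟨tc, htc⟩ : ∃ tc, tc = ({U j, U' j} : Finset (Fin 2 →₀ ℕ)).card := ⟨_, rfl⟩
  rw [← htc] at hq hw1 ⊢
  have hx0 : toF x.2.1 0 ≤ p * toF y.2.1 0 := by simpa using hle 0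
  have hx1 : toF x.2.1 1 ≤ p * toF y.2.1 1 := by simpa using hle 1
  have hv0 : (p • toF y.2.1 - toF x.2.1) 0 = p * toF y.2.1 0 - toF x.2.1 0 := by simp
  have hw10 := DFunLike.congr_fun hw1 0
  have hw11 := DFunLike.congr_fun hw1 1
  simp only [Finsupp.add_apply, Finsupp.tsub_apply, Finsupp.smul_apply, smul_eq_mul,
    Finsupp.single_apply, if_true, mul_one] at hw10
  simp only [Finsupp.add_apply, Finsupp.tsub_apply, Finsupp.smul_apply, smul_eq_mul,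
    Finsupp.single_apply, if_neg (show ¬ ((0 : Fin 2) = 1) by decide), mul_zero, add_zero,
    Nat.sub_zero] at hw11
  have hpz : ((p - 1 : ℕ) : ℤ) = (p : ℤ) - 1 := by
    rw [Nat.cast_sub hp.1.one_le, Nat.cast_one]
  have hqz : (q : ℤ) + N * cc * tc = ((p : ℤ) - 1) * E := by
    rw [← hpz]
    exact_mod_cast hq
  rw [hv0] at h1
  have e0 : (p : ℤ) * toF y.2.1 0 - toF x.2.1 0 - q + n * cc = w 0 + N * tc * cc := by
    have h2 : ((p * toF y.2.1 0 - toF x.2.1 0 - q + n * cc : ℕ) : ℤ) =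
        ((w 0 + N * tc * cc : ℕ) : ℤ) := by exact_mod_cast hw10
    push_cast [Nat.cast_sub h1, Nat.cast_sub hx0] at h2
    exact h2
  have e1 : (p : ℤ) * toF y.2.1 1 - toF x.2.1 1 = w 1 := by
    have h2 : ((p * toF y.2.1 1 - toF x.2.1 1 : ℕ) : ℤ) = ((w 1 : ℕ) : ℤ) := by
      exact_mod_cast hw11
    push_cast [Nat.cast_sub hx1] at h2
    exact h2
  have t0 : (p : ℤ) * u0 E y.2 - u0 E x.2 = (w 0 : ℤ) - n * cc := by
    unfold u0
    rw [toF_apply, toF_apply] at e0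
    linear_combination e0 + hqz
  have t1 : (p : ℤ) * u1 y.2 - u1 x.2 = (w 1 : ℤ) := by
    unfold u1
    rw [toF_apply, toF_apply] at e1
    exact e1
  refine ⟨q, n, w, hq, by rw [hv0]; exact h1, hL, hw1, ?_, hw2, t0, t1⟩
  rw [wp_eq, wp_eq]
  rw [wz_two] at hw2
  linear_combination (ω j 0) * t0 + (ω j 1) * t1 + hw2

theorem cbF_off {N E : ℕ} (hN : 0 < N) (hE : E = N * cc * f.support.card) {T : Finset (Fin 2)}
    {B : ℕ} {x y : (Fin (p - 1) × ZMod s) × Idx T B} (hx0 : 0 < WF hf E x)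
    (hy0 : 0 < WF hf E y) (hx : WF hf E x ≤ p - 1) (hy : WF hf E y ≤ p - 1)
    (hne : WF hf E x ≠ WF hf E y) : cbF hf N E x y = 0 := by
  classical
  unfold cbF
  split_ifs with h1
  · by_contra h4
    obtain ⟨q, n, w, _, _, _, _, hn, _, _, _⟩ := expo hf hN hE h1.2.1 _ _ h4
    rw [h1.2.2, wp_face hf E y] at hn
    obtain ⟨wx, hwx⟩ : ∃ wx, wx = WF hf E x := ⟨_, rfl⟩
    obtain ⟨wy, hwy⟩ : ∃ wy, wy = WF hf E y := ⟨_, rfl⟩
    rw [← hwx] at hx0 hx hne hn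
    rw [← hwy] at hy0 hy hne hn
    have h8 : ((p - 1 : ℕ) : ℤ) ∣ (wy : ℤ) - (wx : ℤ) := by
      refine ⟨(n : ℤ) - wy, ?_⟩
      have h10 : (p : ℤ) = ((p - 1 : ℕ) : ℤ) + 1 := by
        rw [Nat.cast_sub hp.1.one_le]
        ring
      rw [h10] at hn
      linear_combination hn
    have h9 : (wy : ℤ) - (wx : ℤ) = 0 := by
      refine Int.eq_zero_of_abs_lt_dvd h8 ?_
      rw [abs_lt]
      constructor <;> omega
    apply hne
    omega
  · rfl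

end fan

end Pg

end Pool.Agent.N867.AS
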