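import Pool.Agent.N867.AS.Y6

/-!
# The reduced matrices are monomial
-/

set_option autoImplicit false
set_option linter.unusedSectionVars false

namespace Pool.Agent.N867.AS

namespace Pg

open Res Tr GW RedS MvPolynomial
open Lau (wz wz_add wz_smul wz_zero wz_single wp cf coeff_Xq fact_ne choose_ne)

theorem bin_supp {F : Type} [Field F] {A B : Fin 2 →₀ ℕ} (c₁ c₂ : F) (n : ℕ)
    {v : Fin 2 →₀ ℕ} (h : coeff v ((monomial A c₁ + monomial B c₂ :
      MvPolynomial (Fin 2) F) ^ n) ≠ 0) : ∃ a b : ℕ, a + b = n ∧ v = a • A + b • B := by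
  classical
  rw [add_pow, coeff_sum] at h
  obtain ⟨m, hm, hm0⟩ := Finset.exists_ne_zero_of_sum_ne_zero h
  have hm' := Finset.mem_range.1 hm
  rw [monomial_pow, monomial_pow, monomial_mul, mul_comm,
    ← map_natCast (C : F →+* MvPolynomial (Fin 2) F), coeff_C_mul, coeff_monomial] at hm0
  split_ifs at hm0 with h1
  · exact ⟨m, n - m, by omega, h1.symm⟩
  · rw [mul_zero] at hm0
    exact absurd rfl hm0

theorem bin_val {F : Type} [Field F] {A B : Fin 2 →₀ ℕ} (hAB : A ≠ B) (c₁ c₂ : F) (a b : ℕ) :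
    coeff (a • A + b • B) ((monomial A c₁ + monomial B c₂ : MvPolynomial (Fin 2) F) ^ (a + b)) =
      ((a + b).choose a : F) * (c₁ ^ a * c₂ ^ b) := by
  classical
  obtain ⟨i, hi⟩ : ∃ i, A i ≠ B i := by
    by_contra h
    push Not at h
    exact hAB (Finsupp.ext h)
  rw [add_pow, coeff_sum, Finset.sum_eq_single a]
  · rw [monomial_pow, monomial_pow, monomial_mul, mul_comm,
      ← map_natCast (C : F →+* MvPolynomial (Fin 2) F), coeff_C_mul, coeff_monomial, if_pos,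
      Nat.add_sub_cancel_left]
    rw [Nat.add_sub_cancel_left]
  · intro m hm hma
    have hm' := Finset.mem_range.1 hm
    rw [monomial_pow, monomial_pow, monomial_mul, mul_comm,
      ← map_natCast (C : F →+* MvPolynomial (Fin 2) F), coeff_C_mul, coeff_monomial, if_neg,
      mul_zero]
    intro h
    have h2 := DFunLike.congr_fun h i
    simp only [Finsupp.add_apply, Finsupp.smul_apply, smul_eq_mul] at h2
    have h3 : ((m * A i + (a + b - m) * B i : ℕ) : ℤ) = ((a * A i + b * B i : ℕ) : ℤ) := by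
      exact_mod_cast h2
    push_cast [Nat.cast_sub (show m ≤ a + b by omega)] at h3
    have h4 : ((m : ℤ) - a) * ((A i : ℤ) - B i) = 0 := by linear_combination h3
    rcases mul_eq_zero.1 h4 with h5 | h5
    · apply hma
      omega
    · apply hi
      omega
  · intro h
    rw [Finset.mem_range] at h
    omega

theorem arith {M : ℤ} (hM : 0 < M) {α β a a' α' β' n : ℕ} (hab : α + β = n) (hac : a + a' = n)
    (hn : (n : ℤ) ≤ M) (X0 : (M + 1) * α - a - M * α' = 0) (Y0 : (M + 1) * β - a' - M * β' = 0) :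
    α = a := by
  have hab2 : (α : ℤ) + β = n := by exact_mod_cast hab
  have hac2 : (a : ℤ) + a' = n := by exact_mod_cast hac
  have p1 : (0 : ℤ) ≤ α := Int.natCast_nonneg _
  have p2 : (0 : ℤ) ≤ β := Int.natCast_nonneg _
  have p3 : (0 : ℤ) ≤ a := Int.natCast_nonneg _
  have p4 : (0 : ℤ) ≤ a' := Int.natCast_nonneg _
  obtain ⟨t, ht⟩ : ∃ t : ℤ, t = α' - α := ⟨_, rfl⟩
  have h2 : M * t = α - a := by rw [ht]; linear_combination -X0
  rcases lt_trichotomy t 0 with h3 | h3 | h3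
  · exfalso
    have h4 : M * t ≤ M * (-1) := mul_le_mul_of_nonneg_left (by omega) hM.le
    have h5 : (α : ℤ) = 0 := by linarith
    rw [h5] at X0
    have h6 : M * α' = -a := by linear_combination -X0
    have h7 : (0 : ℤ) ≤ M * α' := mul_nonneg hM.le (Int.natCast_nonneg _)
    linarith
  · rw [h3, mul_zero] at h2
    omega
  · exfalso
    have h4 : M * 1 ≤ M * t := mul_le_mul_of_nonneg_left (by omega) hM.le
    have h5 : (β : ℤ) = 0 := by linarith
    rw [h5] at Y0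
    have h6 : M * β' = -a' := by linear_combination -Y0
    have h7 : (0 : ℤ) ≤ M * β' := mul_nonneg hM.le (Int.natCast_nonneg _)
    linarith

variable {p : ℕ} [hp : Fact p.Prime]

section fan

variable {f : MvPolynomial (Fin 2) (k p)} {cc : ℕ} {ι : Type} {ω : ι → Fin 2 → ℤ}
    {U U' : ι → Fin 2 →₀ ℕ} (hf : Fan f cc ω U U') {s : ℕ} [NeZero s]

include hf

theorem U_ne (i : ι) : U i ≠ U' i := by
  intro h
  apply hf.ind i
  rw [← h]
  ring

theorem cf_U (g : Fin (p - 1) × ZMod s) (i : ι) : cf f g (U i) ≠ 0 ∧ cf f g (U' i) ≠ 0 := by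
  have h : ∀ μ ∈ f.support, cf f g μ ≠ 0 := by
    intro μ hμ
    unfold Lau.cf
    refine mul_ne_zero ?_ (pow_ne_zero _ (mem_support_iff.1 hμ))
    intro h0
    rw [CharP.cast_eq_zero_iff (k p) p] at h0
    have h3 := Nat.le_of_dvd (Nat.succ_pos _) h0
    have := g.1.2
    omega
  exact ⟨h _ (memU hf i).1, h _ (memU' hf i).1⟩

theorem uniqF {N E : ℕ} (hN : p ≤ N) (hE : E = N * cc * f.support.card) {T : Finset (Fin 2)}
    {B : ℕ} {x y : (Fin (p - 1) × ZMod s) × Idx T B} (hxy : WF hf E x = WF hf E y)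
    (hy : WF hf E y ≤ p - 1) (hne : cbF hf N E x y ≠ 0) : x.2 = y.2 := by
  classical
  have hN0 : 0 < N := lt_of_lt_of_le hp.1.pos hN
  unfold cbF at hne
  split_ifs at hne with h1
  swap
  · exact absurd rfl hne
  obtain ⟨j, hj⟩ : ∃ j, j = face hf (u0 E y.2) (u1 y.2) := ⟨_, rfl⟩
  rw [← hj] at h1 hne
  obtain ⟨q, n, w, _, hqle, hL, hshift, hn, hww, t0, t1⟩ := expo hf hN0 hE h1.2.1 _ _ hne
  have hyj : wp (ω j) 0 E y = WF hf E y := by
    rw [hj]
    exact wp_face hf E y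
  have hM : (0 : ℤ) < ((p - 1 : ℕ) : ℤ) := Mpos
  have hpz : (p : ℤ) = ((p - 1 : ℕ) : ℤ) + 1 := by
    rw [Nat.cast_sub hp.1.one_le]
    ring
  obtain ⟨M, hMd⟩ : ∃ M : ℤ, M = ((p - 1 : ℕ) : ℤ) := ⟨_, rfl⟩
  obtain ⟨W, hW⟩ : ∃ W, W = WF hf E y := ⟨_, rfl⟩
  rw [h1.2.2, hyj, hxy, ← hW] at hn
  have hnW : n = W := by
    rw [hpz] at hn
    have h2 : ((p - 1 : ℕ) : ℤ) * ((n : ℤ) - W) = 0 := by linear_combination -hn
    have h3 := (mul_eq_zero.1 h2).resolve_left hM.ne'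
    omega
  subst hnW
  have hnp : n < p := by
    have := hp.1.pos
    omega
  -- the support
  rw [hL, coeff_Xq, if_pos hqle] at hne
  have hS : ∀ μ ∈ ({U j, U' j} : Finset (Fin 2 →₀ ℕ)),
      wz (ω j) μ = ((p - 1 : ℕ) : ℤ) + cc * ω j 0 := by
    intro μ hμ
    have h2 := (hf.top j μ).2 (by simpa using hμ)
    linarith [h2.2]
  have hmain := coeff_Lb (p := p) (ω := ω j) (ε := cc • Finsupp.single 0 1) _ hS (by
    rw [wz_eps]
    intro h
    linarith) hN (cf f x.1) hnp _ w hshift hww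
  have hfac := fact_ne (p := p) hnp
  have hne2 : coeff w ((∑ μ ∈ ({U j, U' j} : Finset (Fin 2 →₀ ℕ)),
      monomial μ (cf f x.1 μ)) ^ n) ≠ 0 := by
    rw [← hmain]
    exact mul_ne_zero hfac hne
  rw [Finset.sum_pair (U_ne hf j)] at hne2
  obtain ⟨α', β', hab', hw'⟩ := bin_supp _ _ _ hne2
  have hw0 : (w 0 : ℤ) = α' * U j 0 + β' * U' j 0 := by
    rw [hw']
    simp
  have hw1 : (w 1 : ℤ) = α' * U j 1 + β' * U' j 1 := by
    rw [hw']
    simp
  -- coordinates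
  have hxj : ω j 0 * u0 E x.2 + ω j 1 * u1 x.2 = Wt hf (u0 E x.2) (u1 x.2) := by
    rw [← wp_eq]
    exact h1.2.2
  obtain ⟨a, a', c0, c1, hac⟩ := Wt_sub hf j _ _ hxj
  have hac' : a + a' = n := by
    rw [hac, hW]
    exact hxy
  have d0 := cov0 hf (u0 E y.2) (u1 y.2)
  have d1 := cov1 hf (u0 E y.2) (u1 y.2)
  obtain ⟨α, hα⟩ : ∃ α, α = al hf (u0 E y.2) (u1 y.2) := ⟨_, rfl⟩
  obtain ⟨β, hβ⟩ : ∃ β, β = be hf (u0 E y.2) (u1 y.2) := ⟨_, rfl⟩
  have hab : α + β = n := by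
    rw [hα, hβ, hW]
    rfl
  rw [← hj, ← hα, ← hβ, ← hMd] at d0 d1
  rw [← hMd] at c0 c1 hM
  rw [← hMd] at hpz
  have hdet := hf.ind j
  obtain ⟨A0, hA0⟩ : ∃ A0 : ℤ, A0 = (U j 0 : ℤ) - cc := ⟨_, rfl⟩
  obtain ⟨B0, hB0⟩ : ∃ B0 : ℤ, B0 = (U' j 0 : ℤ) - cc := ⟨_, rfl⟩
  obtain ⟨A1, hA1⟩ : ∃ A1 : ℤ, A1 = (U j 1 : ℤ) := ⟨_, rfl⟩
  obtain ⟨B1, hB1⟩ : ∃ B1 : ℤ, B1 = (U' j 1 : ℤ) := ⟨_, rfl⟩
  have t0' : (p : ℤ) * u0 E y.2 - u0 E x.2 = α' * A0 + β' * B0 := by
    rw [t0, hw0, hA0, hB0]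
    have : (n : ℤ) = α' + β' := by exact_mod_cast hab'.symm
    rw [this]
    ring
  have t1' : (p : ℤ) * u1 y.2 - u1 x.2 = α' * A1 + β' * B1 := by
    rw [t1, hw1, hA1, hB1]
  rw [← hA0, ← hB0] at c0 d0
  rw [← hA1, ← hB1] at c1 d1
  rw [← hA0, ← hB0, ← hA1, ← hB1] at hdet
  have s0 : ((M + 1) * α - a - M * α') * A0 + ((M + 1) * β - a' - M * β') * B0 = 0 := by
    rw [hpz] at t0'
    linear_combination (-(M + 1)) * d0 + c0 + M * t0'
  have s1 : ((M + 1) * α - a - M * α') * A1 + ((M + 1) * β - a' - M * β') * B1 = 0 := by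
    rw [hpz] at t1'
    linear_combination (-(M + 1)) * d1 + c1 + M * t1'
  have X0 : (M + 1) * α - a - M * α' = 0 := by
    have h2 : ((M + 1) * α - a - M * α') * (A0 * B1 - A1 * B0) = 0 := by
      linear_combination B1 * s0 - B0 * s1
    exact (mul_eq_zero.1 h2).resolve_right hdet
  have Y0 : (M + 1) * β - a' - M * β' = 0 := by
    have h2 : ((M + 1) * β - a' - M * β') * (A0 * B1 - A1 * B0) = 0 := by
      linear_combination A0 * s1 - A1 * s0
    exact (mul_eq_zero.1 h2).resolve_right hdet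
  have hnM : (n : ℤ) ≤ M := by
    rw [hMd]
    have : n ≤ p - 1 := by omega
    exact_mod_cast this
  have hαa : α = a := arith hM hab hac' hnM X0 Y0
  have hβa : β = a' := by omega
  rw [hαa, hβa, ← c0] at d0
  rw [hαa, hβa, ← c1] at d1
  have e0 := mul_left_cancel₀ hM.ne' d0
  have e1 := mul_left_cancel₀ hM.ne' d1
  unfold u0 at e0
  unfold u1 at e1
  apply Subtype.ext
  funext i
  fin_cases i
  · apply Fin.ext
    change (x.2.1 0 : ℕ) = (y.2.1 0 : ℕ)
    omega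
  · apply Fin.ext
    change (x.2.1 1 : ℕ) = (y.2.1 1 : ℕ)
    omega

/-- the monomial entries -/
theorem diagF {N E : ℕ} (hN : p ≤ N) (hE : E = N * cc * f.support.card) {T : Finset (Fin 2)}
    {B : ℕ} {x y : (Fin (p - 1) × ZMod s) × Idx T B} (hx : WF hf E x ≤ p - 1)
    (hxy : y.1 = rho p s x.1) (hxy2 : x.2 = y.2) :
    ((WF hf E x).factorial : k p) * cbF hf N E x y =
      ((WF hf E x).choose (al hf (u0 E x.2) (u1 x.2)) : k p) *
        (cf f x.1 (U (face hf (u0 E x.2) (u1 x.2))) ^ al hf (u0 E x.2) (u1 x.2) *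
          cf f x.1 (U' (face hf (u0 E x.2) (u1 x.2))) ^ be hf (u0 E x.2) (u1 x.2)) := by
  classical
  have hN0 : 0 < N := lt_of_lt_of_le hp.1.pos hN
  have hle : toF x.2.1 ≤ p • toF y.2.1 := by
    rw [← hxy2]
    intro i
    simp only [Finsupp.smul_apply, toF_apply, smul_eq_mul]
    exact Nat.le_mul_of_pos_left _ hp.1.pos
  unfold cbF
  rw [← hxy2]
  rw [if_pos ⟨hxy, by rw [hxy2] at hle ⊢; exact hle, wp_face hf E x⟩]
  obtain ⟨j, hj⟩ : ∃ j, j = face hf (u0 E x.2) (u1 x.2) := ⟨_, rfl⟩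
  obtain ⟨α, hα⟩ : ∃ α, α = al hf (u0 E x.2) (u1 x.2) := ⟨_, rfl⟩
  obtain ⟨β, hβ⟩ : ∃ β, β = be hf (u0 E x.2) (u1 x.2) := ⟨_, rfl⟩
  have hW : WF hf E x = α + β := by
    rw [hα, hβ]
    rfl
  have d0 := cov0 hf (u0 E x.2) (u1 x.2)
  have d1 := cov1 hf (u0 E x.2) (u1 x.2)
  have hlo := lo_bound hf (u0 E x.2) (u1 x.2)
  have hW2 : Wt hf (u0 E x.2) (u1 x.2) = α + β := hW
  rw [hW2] at hlo
  rw [← hj, ← hα, ← hβ] at d0 d1
  rw [hW] at hx
  rw [← hj, ← hα, ← hβ, hW]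
  obtain ⟨q, hq, hL⟩ := LGb_eq (ω := ω j) (i₀ := (0 : Fin 2)) (cc := cc) (M := p - 1) hN0
    f.support (cf f x.1) (T := {U j, U' j}) (fun μ => by
      rw [hf.top j μ, Finset.mem_insert, Finset.mem_singleton])
  rw [← hE] at hq
  obtain ⟨tc, htc⟩ : ∃ tc, tc = ({U j, U' j} : Finset (Fin 2 →₀ ℕ)).card := ⟨_, rfl⟩
  have htc2 : tc = 2 := by
    rw [htc, Finset.card_insert_of_notMem (by
      rw [Finset.mem_singleton]; exact U_ne hf j), Finset.card_singleton]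
  rw [← htc] at hq
  have hpz : ((p - 1 : ℕ) : ℤ) = (p : ℤ) - 1 := by
    rw [Nat.cast_sub hp.1.one_le, Nat.cast_one]
  have hx0 : (p • toF x.2.1 - toF x.2.1) 0 = (p - 1) * (x.2.1 0 : ℕ) := by
    simp only [Finsupp.tsub_apply, Finsupp.smul_apply, toF_apply, smul_eq_mul]
    rw [Nat.sub_mul, one_mul]
  have hx1 : (p • toF x.2.1 - toF x.2.1) 1 = (p - 1) * (x.2.1 1 : ℕ) := by
    simp only [Finsupp.tsub_apply, Finsupp.smul_apply, toF_apply, smul_eq_mul]
    rw [Nat.sub_mul, one_mul]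
  have hqz : (q : ℤ) + N * cc * tc = ((p - 1 : ℕ) : ℤ) * E := by exact_mod_cast hq
  have hu0 : u0 E x.2 = ((x.2.1 0 : ℕ) : ℤ) - E := rfl
  have hu1 : u1 x.2 = (x.2.1 1 : ℕ) := rfl
  rw [hu0] at hlo d0
  rw [hu1] at d1
  have hqle : q ≤ (p - 1) * (x.2.1 0 : ℕ) := by
    have h2 : (α + β) * cc ≤ N * cc * tc := by
      rw [htc2]
      have h3 : (α + β) * cc ≤ N * cc := Nat.mul_le_mul_right _ (by
        have := hp.1.pos
        omega)
      have h4 : N * cc * 1 ≤ N * cc * 2 := Nat.mul_le_mul_left _ (by omega)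
      omega
    have h3 : (((α + β) * cc : ℕ) : ℤ) ≤ ((N * cc * tc : ℕ) : ℤ) := by exact_mod_cast h2
    have h5 : (q : ℤ) ≤ (((p - 1) * (x.2.1 0 : ℕ) : ℕ) : ℤ) := by
      push_cast at h3 hlo ⊢
      linarith
    exact_mod_cast h5
  rw [hL, coeff_Xq, if_pos (by rw [hx0]; exact hqle)]
  have hshift : (p • toF x.2.1 - toF x.2.1 - q • Finsupp.single 0 1) +
      (α + β) • (cc • Finsupp.single 0 1) =
      (α • U j + β • U' j) + (N * tc) • (cc • Finsupp.single 0 1) := by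
    have e0 : (p - 1) * (x.2.1 0 : ℕ) - q + (α + β) * cc =
        α * U j 0 + β * U' j 0 + N * tc * cc := by
      have h2 : (((p - 1) * (x.2.1 0 : ℕ) - q + (α + β) * cc : ℕ) : ℤ) =
          ((α * U j 0 + β * U' j 0 + N * tc * cc : ℕ) : ℤ) := by
        rw [Nat.cast_add, Nat.cast_sub hqle]
        push_cast
        linear_combination d0 - hqz
      exact_mod_cast h2
    have e1 : (p - 1) * (x.2.1 1 : ℕ) = α * U j 1 + β * U' j 1 := by exact_mod_cast d1
    rw [← hx0] at e0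
    rw [← hx1] at e1
    ext i
    fin_cases i
    · simp only [Finsupp.add_apply, Finsupp.tsub_apply (_ - _) _, Finsupp.smul_apply, smul_eq_mul]
      simpa using e0
    · simp only [Finsupp.add_apply, Finsupp.smul_apply, smul_eq_mul]
      simpa using e1
  have hwz : wz (ω j) (α • U j + β • U' j) =
      ((α + β : ℕ) : ℤ) * (((p - 1 : ℕ) : ℤ) + cc * ω j 0) := by
    have m1 := (memU hf j).2
    have m2 := (memU' hf j).2
    rw [wz_add, wz_smul, wz_smul, wz_two, wz_two]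
    push_cast
    linear_combination (α : ℤ) * m1 + β * m2
  have hS : ∀ μ ∈ ({U j, U' j} : Finset (Fin 2 →₀ ℕ)),
      wz (ω j) μ = ((p - 1 : ℕ) : ℤ) + cc * ω j 0 := by
    intro μ hμ
    have h2 := (hf.top j μ).2 (by simpa using hμ)
    linarith [h2.2]
  have hM : (0 : ℤ) < ((p - 1 : ℕ) : ℤ) := Mpos
  rw [htc] at hshift
  have hmain := coeff_Lb (p := p) (ω := ω j) (ε := cc • Finsupp.single 0 1) _ hS (by
    rw [wz_eps]
    intro h
    linarith) hN (cf f x.1) (n := α + β) (by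
      have := hp.1.pos
      omega) _ (α • U j + β • U' j) hshift hwz
  rw [hmain, Finset.sum_pair (U_ne hf j), bin_val (U_ne hf j)]

end fan

end Pg

end Pool.Agent.N867.AS
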