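import Pool.Agent.N867.AS.Y7

/-!
# The determinants of the blocks for a fan
-/

set_option autoImplicit false
set_option linter.unusedSectionVars false

namespace Pool.Agent.N867.AS

namespace Pg

open Res Tr GW RedS MvPolynomial
open Lau (wz wz_add wz_smul wz_zero wz_single wp cf coeff_Xq fact_ne choose_ne fer wil)

variable {p : ℕ} [hp : Fact p.Prime]

/-- determinants of monomial matrices -/
theorem det_mono {s : ℕ} [NeZero s] {I : Type} [Fintype I] [DecidableEq I] (W : I → ℕ) (w₀ : ℕ)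
    (V : (Fin (p - 1) × ZMod s) × I → ℕ) (hV : ∀ x, V x = W x.2)
    (A : Matrix {x : (Fin (p - 1) × ZMod s) × I // V x = w₀}
      {x : (Fin (p - 1) × ZMod s) × I // V x = w₀} (Polynomial (k p)))
    (μ : ZMod s → I → k p)
    (h : ∀ x y, A x y = (if x = y then 1 else 0) - (if y.1 = (rho p s x.1.1, x.1.2) then
      Polynomial.X * Polynomial.C (μ x.1.1.2 x.1.2) else 0)) :
    A.det = (∏ u : {u : I // W u = w₀},
      (1 - Polynomial.X ^ s * Polynomial.C (∏ l, μ l u.1))) ^ (p - 1) := by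
  classical
  obtain ⟨q, hq⟩ : ∃ q : ZMod s × (Fin (p - 1) × {u : I // W u = w₀}) ≃
      {x : (Fin (p - 1) × ZMod s) × I // V x = w₀},
      ∀ x, (q x).1 = ((x.2.1, x.1), x.2.2.1) := by
    refine ⟨⟨fun x => ⟨((x.2.1, x.1), x.2.2.1), (hV _).trans x.2.2.2⟩,
      fun x => (x.1.1.2, (x.1.1.1, ⟨x.1.2, (hV _).symm.trans x.2⟩)), fun x => rfl,
      fun x => rfl⟩, fun x => rfl⟩
  have h1 : A.submatrix q q =
      Matrix.blockDiagonal fun z : Fin (p - 1) × {u : I // W u = w₀} =>
        (Matrix.of fun x y : ZMod s => (if x = y then (1 : Polynomial (k p)) else 0) -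
        (if y = x + 1 then Polynomial.X * Polynomial.C (μ x z.2.1) else 0)) := by
    ext1 x y
    rw [Matrix.submatrix_apply, h, Matrix.blockDiagonal_apply, Matrix.of_apply, hq, hq]
    by_cases h2 : x.2 = y.2
    · rw [if_pos h2]
      congr 1
      · by_cases h3 : x.1 = y.1
        · rw [if_pos h3, if_pos (by rw [Prod.ext h3 h2])]
        · rw [if_neg h3, if_neg]
          intro h4
          apply h3
          rw [q.injective h4]
      · unfold rho
        by_cases h3 : y.1 = x.1 + 1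
        · rw [if_pos h3, if_pos (by rw [h3, h2])]
        · rw [if_neg h3, if_neg]
          intro h4
          simp only [Prod.mk.injEq] at h4
          exact h3 h4.1.2
    · rw [if_neg h2, if_neg, if_neg, sub_zero]
      · intro h4
        simp only [rho, Prod.mk.injEq] at h4
        exact h2 (Prod.ext h4.1.1.symm (Subtype.ext h4.2.symm))
      · intro h4
        rw [q.injective h4] at h2
        exact h2 rfl
  rw [← Matrix.det_submatrix_equiv_self q, h1, Matrix.det_blockDiagonal]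
  have h2 : ∀ z : Fin (p - 1) × {u : I // W u = w₀},
      (Matrix.of fun x y : ZMod s => (if x = y then (1 : Polynomial (k p)) else 0) -
        (if y = x + 1 then Polynomial.X * Polynomial.C (μ x z.2.1) else 0)).det =
      1 - Polynomial.X ^ s * Polynomial.C (∏ l, μ l z.2.1) := by
    intro z
    rw [Cyc.cyc_det, Finset.prod_mul_distrib, Finset.prod_const, Finset.card_univ, ZMod.card,
      map_prod]
  rw [Finset.prod_congr rfl fun z _ => h2 z, Fintype.prod_prod_type]
  simp only [Finset.prod_const, Finset.card_univ, Fintype.card_fin]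

/-- binomial coefficients modulo `p` -/
theorem choose_pred {n : ℕ} (hn : n ≤ p - 1) : (((p - 1).choose n : ℕ) : k p) = (-1) ^ n := by
  induction n with
  | zero => simp
  | succ n ih =>
    have ih' := ih (by omega)
    have h1 : (p - 1).choose n + (p - 1).choose (n + 1) = p.choose (n + 1) := by
      have h2 := Nat.choose_succ_succ (p - 1) n
      rw [Nat.succ_eq_add_one, Nat.succ_eq_add_one, Nat.sub_add_cancel hp.1.one_le] at h2
      exact h2.symm
    have h3 : ((p.choose (n + 1) : ℕ) : k p) = 0 := by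
      rw [CharP.cast_eq_zero_iff (k p) p]
      exact hp.1.dvd_choose_self (by omega) (by omega)
    rw [← h1] at h3
    push_cast at h3
    rw [ih'] at h3
    rw [pow_succ]
    linear_combination h3

section fan

variable {f : MvPolynomial (Fin 2) (k p)} {cc : ℕ} {ι : Type} {ω : ι → Fin 2 → ℤ}
    {U U' : ι → Fin 2 →₀ ℕ} (hf : Fan f cc ω U U') {s : ℕ} [NeZero s]

/-- weight of a box element -/
noncomputable def Wu (E : ℕ) {T : Finset (Fin 2)} {B : ℕ} (u : Idx T B) : ℕ :=
  Wt hf (u0 E u) (u1 u)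

/-- the entries of the top block -/
noncomputable def mu (E : ℕ) {T : Finset (Fin 2)} {B : ℕ} (l : ZMod s) (u : Idx T B) : k p :=
  (-1) ^ al hf (u0 E u) (u1 u) *
    ((coeff (U (face hf (u0 E u) (u1 u))) f ^ p ^ l.val) ^ al hf (u0 E u) (u1 u) *
      (coeff (U' (face hf (u0 E u) (u1 u))) f ^ p ^ l.val) ^ be hf (u0 E u) (u1 u))

include hf

theorem cbF_zero {N E : ℕ} (hN : p ≤ N) (hE : E = N * cc * f.support.card) {T : Finset (Fin 2)}
    {B : ℕ} {x y : (Fin (p - 1) × ZMod s) × Idx T B} (hxy : WF hf E x = WF hf E y)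
    (hy : WF hf E y ≤ p - 1) (h : y ≠ (rho p s x.1, x.2)) : cbF hf N E x y = 0 := by
  by_contra hne
  have h1 := uniqF hf hN hE hxy hy hne
  apply h
  refine Prod.ext ?_ h1.symm
  unfold cbF at hne
  split_ifs at hne with h2
  · exact h2.1
  · exact absurd rfl hne

theorem cbF_ne {N E : ℕ} (hN : p ≤ N) (hE : E = N * cc * f.support.card) {T : Finset (Fin 2)}
    {B : ℕ} {x : (Fin (p - 1) × ZMod s) × Idx T B} (hx : WF hf E x ≤ p - 1) :
    cbF hf N E x (rho p s x.1, x.2) ≠ 0 := by
  have hpp := hp.1.pos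
  have h := diagF hf hN hE (x := x) (y := (rho p s x.1, x.2)) hx rfl rfl
  intro h0
  rw [h0, mul_zero] at h
  have hle : al hf (u0 E x.2) (u1 x.2) ≤ WF hf E x := Nat.le_add_right _ _
  exact (mul_ne_zero (choose_ne (by omega) hle) (mul_ne_zero
    (pow_ne_zero _ (cf_U hf x.1 _).1) (pow_ne_zero _ (cf_U hf x.1 _).2))) h.symm

theorem blk_lowF {N E : ℕ} (hN : p ≤ N) (hE : E = N * cc * f.support.card) {T : Finset (Fin 2)}
    {B w : ℕ} (hw : w < p - 1) :
    ((Matrix.of (cbF hf N E)).submatrix (Subtype.val :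
      {x : (Fin (p - 1) × ZMod s) × Idx T B // WF hf E x = w} → _) Subtype.val).det ≠ 0 := by
  classical
  obtain ⟨π, hπ⟩ : ∃ π : Equiv.Perm {x : (Fin (p - 1) × ZMod s) × Idx T B // WF hf E x = w},
      ∀ x, (π x).1 = (rho p s x.1.1, x.1.2) := by
    refine ⟨⟨fun x => ⟨(rho p s x.1.1, x.1.2), x.2⟩,
      fun x => ⟨((x.1.1.1, x.1.1.2 - 1), x.1.2), x.2⟩, fun x => ?_, fun x => ?_⟩, fun x => rfl⟩
    · apply Subtype.ext
      simp [rho]
    · apply Subtype.ext
      simp [rho]
  have h1 := perm_det π (fun x => cbF hf N E x.1 (π x).1)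
    ((Matrix.of (cbF hf N E)).submatrix (Subtype.val :
      {x : (Fin (p - 1) × ZMod s) × Idx T B // WF hf E x = w} → _) Subtype.val) (by
    intro x y
    rw [Matrix.submatrix_apply, Matrix.of_apply]
    split_ifs with h
    · rw [h]
    · refine cbF_zero hf hN hE (x.2.trans y.2.symm) (by rw [y.2]; exact hw.le) fun h2 => h ?_
      apply Subtype.ext
      rw [hπ]
      exact h2)
  rw [h1]
  refine mul_ne_zero ?_ (Finset.prod_ne_zero_iff.2 fun x _ => ?_)
  · rcases Int.units_eq_one_or (Equiv.Perm.sign π) with h | h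
    · rw [h]
      simp
    · rw [h]
      simp
  · rw [hπ]
    exact cbF_ne hf hN hE (by rw [x.2]; exact hw.le)

theorem blk_topF {N E B : ℕ} (hN : p ≤ N) (hE : E = N * cc * f.support.card) :
    (Matrix.of fun x y : {x : (Fin (p - 1) × ZMod s) × Idx (Finset.univ : Finset (Fin 2)) B //
        WF hf E x = p - 1} => (if x = y then (1 : Polynomial (k p)) else 0) -
        Polynomial.X * Polynomial.C (-1 * cbF hf N E x.1 y.1)).det =
      (∏ u : {u : Idx (Finset.univ : Finset (Fin 2)) B // Wu hf E u = p - 1},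
        (1 - Polynomial.X ^ s * Polynomial.C (∏ l : ZMod s, mu hf E l u.1))) ^ (p - 1) := by
  classical
  refine det_mono (Wu hf E) (p - 1) (WF hf E) (fun _ => rfl) _ (fun l u => mu hf E l u) fun x y => ?_
  have hx : WF hf E x.1 = p - 1 := x.2
  have hy : WF hf E y.1 = p - 1 := y.2
  rw [Matrix.of_apply]
  congr 1
  split_ifs with h
  · congr 2
    have h1 := diagF hf hN hE (x := x.1) (y := y.1) hx.le (by rw [h]) (by rw [h])
    have hal : al hf (u0 E x.1.2) (u1 x.1.2) + be hf (u0 E x.1.2) (u1 x.1.2) = p - 1 := hx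
    rw [hx, wil, choose_pred (by omega)] at h1
    rw [h1]
    have h2 : ∀ μ : Fin 2 →₀ ℕ, cf f x.1.1 μ =
        (((x.1.1.1 : ℕ) + 1 : ℕ) : k p) * coeff μ f ^ p ^ x.1.1.2.val := fun μ => rfl
    have h3 : (((x.1.1.1 : ℕ) + 1 : ℕ) : k p) ^ al hf (u0 E x.1.2) (u1 x.1.2) *
        (((x.1.1.1 : ℕ) + 1 : ℕ) : k p) ^ be hf (u0 E x.1.2) (u1 x.1.2) = 1 := by
      rw [← pow_add, hal, fer]
    rw [h2, h2, mul_pow, mul_pow, mu]
    linear_combination ((-1) ^ al hf (u0 E x.1.2) (u1 x.1.2) *
      ((coeff (U (face hf (u0 E x.1.2) (u1 x.1.2))) f ^ p ^ x.1.1.2.val) ^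
        al hf (u0 E x.1.2) (u1 x.1.2) *
      (coeff (U' (face hf (u0 E x.1.2) (u1 x.1.2))) f ^ p ^ x.1.1.2.val) ^
        be hf (u0 E x.1.2) (u1 x.1.2))) * h3
  · rw [cbF_zero hf hN hE (hx.trans hy.symm) hy.le h, mul_zero, map_zero, mul_zero]

theorem blk_zeroF {N E B : ℕ} (hN : p ≤ N) (hE : E = N * cc * f.support.card) (hE0 : E ≠ 0)
    (hEB : E ≤ B) :
    (Matrix.of fun x y : {x : (Fin (p - 1) × ZMod s) × Idx ({0} : Finset (Fin 2)) B //
        WF hf E x = 0} => (if x = y then (1 : Polynomial (k p)) else 0) -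
        Polynomial.X * Polynomial.C (1 * cbF hf N E x.1 y.1)).det =
      (1 - Polynomial.X ^ s) ^ (p - 1) := by
  classical
  obtain ⟨o, ho0, ho1⟩ : ∃ o : Idx ({0} : Finset (Fin 2)) B, (o.1 0 : ℕ) = E ∧
      (o.1 1 : ℕ) = 0 := by
    refine ⟨⟨![⟨E, by omega⟩, ⟨0, by omega⟩], ?_⟩, rfl, rfl⟩
    intro i hi
    rw [Finset.mem_singleton] at hi
    rw [hi]
    exact hE0
  have hoW : Wu hf E o = 0 := by
    unfold Wu u0 u1
    rw [ho0, ho1, sub_self]
    exact Wt_origin hf
  have huniq : ∀ u : {u : Idx ({0} : Finset (Fin 2)) B // Wu hf E u = 0}, u = ⟨o, hoW⟩ := by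
    intro u
    obtain ⟨h1, h2⟩ := Wt_zero hf u.2
    apply Subtype.ext
    apply Subtype.ext
    funext i
    unfold u0 at h1
    unfold u1 at h2
    fin_cases i
    · apply Fin.ext
      change (u.1.1 0 : ℕ) = (o.1 0 : ℕ)
      omega
    · apply Fin.ext
      change (u.1.1 1 : ℕ) = (o.1 1 : ℕ)
      omega
  have h0 := det_mono (p := p) (s := s) (Wu hf E) 0 (WF hf E) (fun _ => rfl) (Matrix.of fun x y :
      {x : (Fin (p - 1) × ZMod s) × Idx ({0} : Finset (Fin 2)) B //
        WF hf E x = 0} => (if x = y then (1 : Polynomial (k p)) else 0) -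
        Polynomial.X * Polynomial.C (1 * cbF hf N E x.1 y.1)) (fun _ _ => 1) (fun x y => by
    have hx : WF hf E x.1 = 0 := x.2
    have hy : WF hf E y.1 = 0 := y.2
    rw [Matrix.of_apply]
    congr 1
    split_ifs with h
    · congr 2
      have h1 := diagF hf hN hE (x := x.1) (y := y.1) (by rw [hx]; exact Nat.zero_le _)
        (by rw [h]) (by rw [h])
      have hal : al hf (u0 E x.1.2) (u1 x.1.2) + be hf (u0 E x.1.2) (u1 x.1.2) = 0 := hx
      have ha : al hf (u0 E x.1.2) (u1 x.1.2) = 0 := by omega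
      have hb : be hf (u0 E x.1.2) (u1 x.1.2) = 0 := by omega
      rw [hx, ha, hb] at h1
      simpa using h1
    · rw [cbF_zero hf hN hE (hx.trans hy.symm) (by rw [hy]; exact Nat.zero_le _) h, mul_zero,
        map_zero, mul_zero])
  rw [h0]
  congr 1
  rw [Finset.prod_const_one, Polynomial.C_1, mul_one, Finset.prod_const, Finset.card_univ]
  have hc : Fintype.card {u : Idx ({0} : Finset (Fin 2)) B // Wu hf E u = 0} = 1 := by
    rw [Fintype.card_eq_one_iff]
    exact ⟨⟨o, hoW⟩, huniq⟩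
  rw [hc, pow_one]

end fan

end Pg

end Pool.Agent.N867.AS
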