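import Pool.Agent.N867.AS.Y8
import Pool.Agent.N867.AS.K12

/-!
# Reductions of the four determinants for a fan
-/

set_option autoImplicit false
set_option linter.unusedSectionVars false

namespace Pool.Agent.N867.AS

namespace Pg

open Res Tr GW RedS MvPolynomial

variable {p : ℕ} [hp : Fact p.Prime]

section fan

variable {f : MvPolynomial (Fin 2) (k p)} {cc : ℕ} {ι : Type} {ω : ι → Fin 2 → ℤ}
    {U U' : ι → Fin 2 →₀ ℕ} (hf : Fan f cc ω U U') {s : ℕ} [NeZero s]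

/-- the main determinant -/
noncomputable def DT (E B s : ℕ) [NeZero s] : Polynomial (k p) :=
  (∏ u : {u : Idx (Finset.univ : Finset (Fin 2)) B // Wu hf E u = p - 1},
        (1 - Polynomial.X ^ s * Polynomial.C (∏ l : ZMod s, mu hf E l u.1))) ^ (p - 1)

/-- the sum of the codimensions -/
noncomputable def SF (E B : ℕ) : ℕ :=
  ∑ u : Idx (Finset.univ : Finset (Fin 2)) B, (p - 1 - Wu hf E u)

include hf

theorem WF_pos {E : ℕ} {Γ : Type} {T : Finset (Fin 2)} {B : ℕ} (x : Γ × Idx T B)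
    (h : 0 < (x.2.1 1 : ℕ)) : 0 < WF hf E x := by
  refine Nat.pos_of_ne_zero fun h0 => ?_
  have h1 := (Wt_zero hf h0).2
  unfold u1 at h1
  omega

theorem red_univF (D : Lifts p f s) (hs : s ≠ 0) {τ γ : PadicAlgCl p} (hτ : τ ≠ 0)
    (hτ1 : ‖τ‖ < 1) (hτγ : τ ^ (p - 1) = γ) (hpγ : ‖(p : PadicAlgCl p)‖ = ‖γ‖ ^ (p - 1))
    (heta : red p (γ ^ (p - 1) / (p : PadicAlgCl p)) = -1) {N E B : ℕ} (hN : p ≤ N)
    (hE : E = N * cc * f.support.card) :
    ∃ (c : PadicAlgCl p) (w : k p), w ≠ 0 ∧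
      ‖c‖ = (‖τ‖⁻¹) ^ ((p - 1) * ∑ x ∈ Finset.univ.filter (fun x : (Fin (p - 1) × ZMod s) ×
        Idx (Finset.univ : Finset (Fin 2)) B => WF hf E x < p - 1), (p - 1 - WF hf E x)) ∧
      Red (((((p : PadicAlgCl p)⁻¹) • Cmat p (LG 0 cc D N γ) (rho p s) Finset.univ B).charpolyRev :
        Polynomial (PadicAlgCl p)) : PowerSeries (PadicAlgCl p)) c
      ((Polynomial.C w * Polynomial.X ^ (Finset.univ.filter (fun x : (Fin (p - 1) × ZMod s) ×
        Idx (Finset.univ : Finset (Fin 2)) B => WF hf E x < p - 1)).card * DT hf E B s :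
          Polynomial (k p)) : PowerSeries (k p)) := by
  have hpne : (p : PadicAlgCl p) ≠ 0 := Nat.cast_ne_zero.2 hp.1.ne_zero
  have hN0 : 0 < N := by
    have := hp.1.pos
    omega
  have hpos : ∀ x : (Fin (p - 1) × ZMod s) × Idx (Finset.univ : Finset (Fin 2)) B,
      0 < WF hf E x := fun x => WF_pos hf x
        (Nat.pos_of_ne_zero (x.2.2 1 (Finset.mem_univ _)))
  have hκ1 : τ ^ ((p - 1) * (p - 1)) * (p : PadicAlgCl p)⁻¹ = γ ^ (p - 1) / (p : PadicAlgCl p) := by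
    rw [← hτγ, ← pow_mul, div_eq_mul_inv]
  obtain ⟨c, w, hw, hcn, hR⟩ := Lau.red_abs (Cmat p (LG 0 cc D N γ) (rho p s) Finset.univ B)
    (WF hf E) (p - 1) hτ hτ1 ((p : PadicAlgCl p)⁻¹) (-1) (by
      rw [hκ1, norm_div, norm_pow, hpγ, div_self]
      have : 0 < ‖γ‖ := by
        rw [← hτγ, norm_pow]
        have := norm_pos_iff.2 hτ
        positivity
      positivity) (by rw [hκ1, heta])
    (fun x y => hentF hf D hs hτ hτ1 hτγ hE x y) (cbF hf N E)
    (fun x y _ => hcbF hf D hs hτ hτ1 hτγ hE x y)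
    (fun x y hx hy hne => cbF_off hf hN0 hE (hpos x) (hpos y) hx hy hne)
    (fun w hw => blk_lowF hf hN hE hw)
  rw [blk_topF hf hN hE] at hR
  exact ⟨c, w, hw, hcn, hR⟩

theorem red_zeroF (D : Lifts p f s) (hs : s ≠ 0) {τ γ : PadicAlgCl p} (hτ : τ ≠ 0)
    (hτ1 : ‖τ‖ < 1) (hτγ : τ ^ (p - 1) = γ) {N E B : ℕ} (hN : p ≤ N)
    (hE : E = N * cc * f.support.card) (hE0 : E ≠ 0) (hEB : E ≤ B) :
    ∃ (c : PadicAlgCl p) (w : k p), w ≠ 0 ∧ ‖c‖ = 1 ∧
      Red ((((1 : PadicAlgCl p) • Cmat p (LG 0 cc D N γ) (rho p s) {0} B).charpolyRev :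
        Polynomial (PadicAlgCl p)) : PowerSeries (PadicAlgCl p)) c
      ((Polynomial.C w * (1 - Polynomial.X ^ s) ^ (p - 1) :
          Polynomial (k p)) : PowerSeries (k p)) := by
  obtain ⟨c, w, hw, hcn, hR⟩ := Lau.red_abs (Cmat p (LG 0 cc D N γ) (rho p s) {0} B)
    (WF hf E) 0 hτ hτ1 (1 : PadicAlgCl p) 1 (by
      rw [mul_zero, pow_zero, mul_one, norm_one]) (by rw [mul_zero, pow_zero, mul_one, red_one])
    (fun x y => hentF hf D hs hτ hτ1 hτγ hE x y) (cbF hf N E)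
    (fun x y _ => hcbF hf D hs hτ hτ1 hτγ hE x y)
    (fun x y hx hy hne => absurd ((Nat.le_zero.1 hx).trans (Nat.le_zero.1 hy).symm) hne)
    (fun w hw => absurd hw (Nat.not_lt_zero w))
  rw [blk_zeroF hf hN hE hE0 hEB] at hR
  have h0 : (Finset.univ.filter (fun x : (Fin (p - 1) × ZMod s) ×
      Idx ({0} : Finset (Fin 2)) B => WF hf E x < 0)) = ∅ := by
    rw [Finset.filter_eq_empty_iff]
    intro x _
    exact Nat.not_lt_zero _
  rw [h0, Finset.sum_empty, mul_zero, pow_zero] at hcn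
  rw [h0, Finset.card_empty, pow_zero, mul_one] at hR
  exact ⟨c, w, hw, hcn, hR⟩

theorem small_F (D : Lifts p f s) (hs : s ≠ 0) {τ γ : PadicAlgCl p} (hτ : τ ≠ 0)
    (hτ1 : ‖τ‖ < 1) (hτγ : τ ^ (p - 1) = γ) {N E B : ℕ}
    (hE : E = N * cc * f.support.card) {T : Finset (Fin 2)} {e : ℕ}
    (h : e ≠ 0 ∨ ∀ x : (Fin (p - 1) × ZMod s) × Idx T B, 0 < WF hf E x)
    (n : ℕ) (hn : n ≠ 0) :
    ‖(((p : PadicAlgCl p) ^ e) • Cmat p (LG 0 cc D N γ) (rho p s) T B).charpolyRev.coeff n‖ < 1 := by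
  classical
  have hp2 := hp.1.two_le
  have hpn : ‖(p : PadicAlgCl p)‖ < 1 := norm_p_lt p
  have hpn0 : 0 < ‖(p : PadicAlgCl p)‖ := norm_pos_iff.2 (Nat.cast_ne_zero.2 hp.1.ne_zero)
  obtain ⟨r, hr⟩ : ∃ r : ℝ, r = ‖τ‖ := ⟨_, rfl⟩
  have hr0 : 0 < r := by rw [hr]; exact norm_pos_iff.2 hτ
  have hr1 : r < 1 := by rw [hr]; exact hτ1
  refine Minor.small_of_minors _
    (fun y => r ^ ((p - 1) * WF hf E y) * ‖(p : PadicAlgCl p) ^ e‖) ?_ ?_ ?_ n hn
  · intro x
    rw [norm_pow]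
    positivity
  · intro x
    rw [norm_pow]
    rcases Nat.eq_zero_or_pos e with he | he
    · rw [he, pow_zero, mul_one]
      refine pow_lt_one₀ hr0.le hr1 ?_
      have h2 := (h.resolve_left (not_not.2 he)) x
      have h3 : 0 < (p - 1) * WF hf E x := Nat.mul_pos (by omega) h2
      exact h3.ne'
    · calc _ ≤ 1 * ‖(p : PadicAlgCl p)‖ ^ e :=
            mul_le_mul_of_nonneg_right (pow_le_one₀ hr0.le hr1.le) (by positivity)
        _ = ‖(p : PadicAlgCl p)‖ ^ e := one_mul _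
        _ < 1 := pow_lt_one₀ hpn0.le hpn he.ne'
  · intro S
    refine Minor.minor_le _ (fun x => r ^ WF hf E x) _ (fun x => by positivity)
      (fun x y => ?_) (fun x => ?_) S
    · have h1 := hentF hf D hs hτ hτ1 hτγ hE (T := T) (B := B) x y
      rw [norm_div, norm_mul, norm_pow, norm_pow, ← hr, div_le_one (by positivity)] at h1
      rw [Matrix.smul_apply, smul_eq_mul, norm_mul]
      have h2 : WF hf E y + (p - 1) * WF hf E y = p * WF hf E y :=
        Bd.wadd hp.1.ne_zero _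
      calc r ^ WF hf E x * (‖(p : PadicAlgCl p) ^ e‖ *
            ‖Cmat p (LG 0 cc D N γ) (rho p s) T B x y‖) =
          ‖(p : PadicAlgCl p) ^ e‖ * (r ^ WF hf E x *
            ‖Cmat p (LG 0 cc D N γ) (rho p s) T B x y‖) := by ring
        _ ≤ ‖(p : PadicAlgCl p) ^ e‖ * r ^ (p * WF hf E y) :=
            mul_le_mul_of_nonneg_left h1 (norm_nonneg _)
        _ = _ := by rw [← h2, pow_add]; ring
    · rw [norm_pow]
      positivity

/-- the exponent of the leading coefficient -/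
theorem sumWF {Γ : Type} [Fintype Γ] (E B : ℕ) :
    ∑ x ∈ Finset.univ.filter (fun x : Γ × Idx (Finset.univ : Finset (Fin 2)) B =>
      WF hf E x < p - 1), (p - 1 - WF hf E x) = Fintype.card Γ * SF hf E B := by
  classical
  have h1 : ∑ x ∈ Finset.univ.filter (fun x : Γ × Idx (Finset.univ : Finset (Fin 2)) B =>
      WF hf E x < p - 1), (p - 1 - WF hf E x) =
      ∑ x : Γ × Idx (Finset.univ : Finset (Fin 2)) B, (p - 1 - WF hf E x) := by
    refine Finset.sum_subset (Finset.filter_subset _ _) fun x _ hx => ?_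
    rw [Finset.mem_filter, not_and] at hx
    have := hx (Finset.mem_univ _)
    omega
  rw [h1, Fintype.sum_prod_type]
  have h2 : ∀ g : Γ, ∑ u : Idx (Finset.univ : Finset (Fin 2)) B, (p - 1 - WF hf E (g, u)) =
      SF hf E B := fun g => rfl
  rw [Finset.sum_congr rfl fun g _ => h2 g, Finset.sum_const, Finset.card_univ, smul_eq_mul]

end fan

end Pg

end Pool.Agent.N867.AS
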